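import Pool.Agent.Lib.MP_32d917_al_vt.VDefs
import Pool.Agent.Lib.MP_32d917_al.ST1
import Pool.Agent.Lib.MP_32d917_al.TL2

/-!
# A01: geodesics in median complexes

`geod`: from `x` one can go to `y` by steps each of which moves one coordinate towards `y`.
Proof. It suffices (strong induction on `∑ i, dist (co x i) (co y i)`) to find for `x ≠ y` a step
`VSt S co i x z` with `Bt (S i) (co x i) (co z i) (co y i)` (`geod_step`). Take a chain of steps `x = z 0, ..., z n = y`
(`conn`), let `m k` be the median of `x`, `y`, `z k`. By uniqueness of medians in trees `m 0 = x`, `m n = y`. If `z k` and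
`z (k+1)` differ by a step in direction `i`, then `m k`, `m (k+1)` agree in all coordinates `j ≠ i`, and their `i`-th coordinates have distance `≤ 1`
(medians of `a, b, c` and `a, b, c'` with `c`, `c'` adjacent: in a tree the projection to the segment `[a, b]` does not increase distances). So
at the first `k` with `m (k+1) ≠ x` the point `m (k+1)` is one step from `x`, and it is between `x` and `y`. (Formulate the induction with
`Relation.ReflTransGen`: for every `z` reachable from `x` and every median `m` of `x, y, z`: `m = x` or there is a first step towards `y`.)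
`tree_med_uniq`, `tree_med_adj`: facts on trees. `geod_ind`: induction principle.
-/

set_option autoImplicit false

namespace VTB

open LatIso LatN LatF

private theorem A01_eq {W : Type} {T : SimpleGraph W} (hT : T.IsTree) {a m : W}
    (h : Bt T a m a) : m = a := by
  unfold Bt at h
  rw [SimpleGraph.dist_self] at h
  exact (st1_eq hT (by omega)).symm

/-- medians in trees are unique -/
theorem tree_med_uniq {W : Type} {T : SimpleGraph W} (hT : T.IsTree) {a b c m n : W}
    (h1 : Bt T a m b) (h2 : Bt T b m c) (h3 : Bt T a m c) (k1 : Bt T a n b) (k2 : Bt T b n c)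
    (k3 : Bt T a n c) : m = n := by
  refine st_pt_uniq hT h1 k1 ?_
  have c1 : T.dist m b = T.dist b m := SimpleGraph.dist_comm
  have c2 : T.dist n b = T.dist b n := SimpleGraph.dist_comm
  unfold Bt at *
  omega

/-- medians of `a b c` and `a b c'` with `c`, `c'` adjacent are equal or adjacent -/
theorem tree_med_adj {W : Type} {T : SimpleGraph W} (hT : T.IsTree) {a b c c' m n : W}
    (hc : T.Adj c c') (h1 : Bt T a m b) (h2 : Bt T b m c) (h3 : Bt T a m c) (k1 : Bt T a n b)
    (k2 : Bt T b n c') (k3 : Bt T a n c') : m = n ∨ T.Adj m n := by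
  have c1 : T.dist m b = T.dist b m := SimpleGraph.dist_comm
  have c2 : T.dist n b = T.dist b n := SimpleGraph.dist_comm
  have e1 := st_adj hT hc a
  have e2 := st_adj hT hc b
  by_cases he : T.dist a m = T.dist a n
  · exact Or.inl (st_pt_uniq hT h1 k1 he)
  right
  rcases le_total (T.dist a m) (T.dist a n) with hle | hle
  · have h5 := (st_seg hT h1 k1 hle).1
    refine SimpleGraph.dist_eq_one_iff_adj.1 ?_
    unfold Bt at *
    omega
  · have h5 := (st_seg hT k1 h1 hle).1
    refine (SimpleGraph.dist_eq_one_iff_adj.1 ?_).symm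
    unfold Bt at *
    omega

section

variable {ι Pt : Type} [Fintype ι] {V : ι → Type} {Γ : SimpleGraph ι}
  {S : ∀ i, SimpleGraph (V i)} {co : Pt → ∀ i, V i} {N : Pt → ι → Prop}

/-- a first step towards `y` -/
theorem geod_step (M : MS1 Γ S co N) {x y : Pt} (h : x ≠ y) :
    ∃ i z, VSt S co i x z ∧ Bt (S i) (co x i) (co z i) (co y i) := by
  have key : ∀ z, Relation.ReflTransGen (fun a b => ∃ i, VSt S co i a b) x z →
      ∀ m, Med S co x y z m →
        m = x ∨ ∃ i z, VSt S co i x z ∧ Bt (S i) (co x i) (co z i) (co y i) := by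
    intro z hz
    induction hz with
    | refl =>
      intro m hm
      left
      exact M.inj _ _ fun i => A01_eq (M.tree i) (hm i).2.2
    | @tail z z' _ hzz ih =>
      intro m' hm'
      obtain ⟨i, hi⟩ := hzz
      obtain ⟨m, hm⟩ := M.med x y z
      rcases ih m hm with h1 | h1
      · subst h1
        have hj : ∀ j, j ≠ i → co m' j = co m j := by
          intro j hj
          have e := hi.2 j hj
          have h2 := hm' j
          rw [e] at h2
          have h3 := hm j
          exact tree_med_uniq (M.tree j) h2.1 h2.2.1 h2.2.2 h3.1 h3.2.1 h3.2.2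
        rcases tree_med_adj (M.tree i) hi.1 (hm i).1 (hm i).2.1 (hm i).2.2 (hm' i).1 (hm' i).2.1
          (hm' i).2.2 with h2 | h2
        · left
          refine M.inj _ _ fun j => ?_
          by_cases hji : j = i
          · subst hji
            exact h2.symm
          · exact hj j hji
        · right
          exact ⟨i, m', ⟨h2, hj⟩, (hm' i).1⟩
      · exact Or.inr h1
  obtain ⟨m, hm⟩ := M.med x y y
  have hmy : m = y := M.inj _ _ fun i => A01_eq (M.tree i) (hm i).2.1
  rcases key y (M.conn x y) m hm with h1 | h1
  · exact absurd (h1.symm.trans hmy) h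
  · exact h1

/-- geodesics -/
theorem geod (M : MS1 Γ S co N) (x y : Pt) :
    Relation.ReflTransGen (fun a b => ∃ i, VSt S co i a b ∧
      Bt (S i) (co a i) (co b i) (co y i)) x y := by
  obtain ⟨n, hn⟩ : ∃ n, ∑ i, (S i).dist (co x i) (co y i) = n := ⟨_, rfl⟩
  induction n using Nat.strong_induction_on generalizing x with
  | _ n ih =>
    by_cases hxy : x = y
    · subst hxy
      exact Relation.ReflTransGen.refl
    · obtain ⟨i, z, hz, hb⟩ := geod_step M hxy
      refine Relation.ReflTransGen.head ⟨i, hz, hb⟩ (ih _ ?_ z rfl)
      rw [← hn]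
      have e : (S i).dist (co x i) (co z i) = 1 := st1_one hz.1
      have hb' := hb
      unfold Bt at hb'
      refine Finset.sum_lt_sum ?_ ⟨i, Finset.mem_univ i, by omega⟩
      intro j _
      by_cases hji : j = i
      · subst hji
        omega
      · rw [hz.2 j hji]

/-- induction along a geodesic to `y` -/
theorem geod_ind (M : MS1 Γ S co N) (y : Pt) (Q : Pt → Prop) (h0 : Q y)
    (h1 : ∀ x z i, VSt S co i x z → Bt (S i) (co x i) (co z i) (co y i) → Q z → Q x) (x : Pt) :
    Q x := by
  refine Relation.ReflTransGen.head_induction_on (motive := fun x _ => Q x) (geod M x y) h0 ?_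
  rintro a c ⟨i, h2, h3⟩ _ h4
  exact h1 a c i h2 h3 h4

/-- steps can be reversed -/
theorem vst_symm {i : ι} {x y : Pt} (h : VSt S co i x y) : VSt S co i y x :=
  ⟨h.1.symm, fun j hj => (h.2 j hj).symm⟩

/-- the label of a step is unique -/
theorem vst_uniq {i j : ι} {x y : Pt} (h : VSt S co i x y) (h' : VSt S co j x y) : i = j := by
  by_contra hij
  have h1 := h.1
  rw [h'.2 i hij] at h1
  exact (S i).loopless.irrefl _ h1

/-- a step is determined by its coordinate -/
theorem vst_eq (M : MS1 Γ S co N) {i : ι} {x y z : Pt} (h : VSt S co i x y) (h' : VSt S co i x z)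
    (e : co y i = co z i) : y = z := by
  refine M.inj _ _ fun j => ?_
  by_cases hj : j = i
  · subst hj
    exact e
  · rw [h.2 j hj, h'.2 j hj]

end

end VTB
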