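import Pool.Agent.Lib.MP_32d917_al_vt.A01

/-!
# A02: convex sets

`Cv S co C`: `C` contains all points between two points of `C`. The sets `{y | Ag co J x y}` and the sides of edges
(`{y | Bt (S i) (co y i) a b}`, `a b` adjacent) are convex; intersections; `cv_conn`: a convex set is connected: the
geodesic of A01 from `x` to `y` stays in it, so its steps are between points of `C` (for `Ag`: all its labels are in `J`, `ag_geod`).
`gate`: nearest points: choose `g ∈ C` with `∑ i, dist (co x i) (co g i)` minimal; for `y ∈ C` the median `m` of `x, g, y` is between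
`g` and `y`, so in `C`, and it is between `x` and `g`; minimality gives `dist (x_i, m_i) = dist (x_i, g_i)` for all `i`, so `m = g`.
-/

set_option autoImplicit false

namespace VTB

open LatIso LatN LatF

section

variable {ι Pt : Type} [Fintype ι] {V : ι → Type} {Γ : SimpleGraph ι}
  {S : ∀ i, SimpleGraph (V i)} {co : Pt → ∀ i, V i} {N : Pt → ι → Prop}

/-- convex sets of points -/
def Cv (S : ∀ i, SimpleGraph (V i)) (co : Pt → ∀ i, V i) (C : Set Pt) : Prop :=
  ∀ x ∈ C, ∀ y ∈ C, ∀ m, (∀ i, Bt (S i) (co x i) (co m i) (co y i)) → m ∈ C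

theorem cv_inter {C D : Set Pt} (hC : Cv S co C) (hD : Cv S co D) : Cv S co (C ∩ D) :=
  fun x hx y hy m h => ⟨hC x hx.1 y hy.1 m h, hD x hx.2 y hy.2 m h⟩

private theorem A02_eq {W : Type} {T : SimpleGraph W} (hT : T.IsTree) {a m : W}
    (h : Bt T a m a) : m = a := by
  unfold Bt at h
  rw [SimpleGraph.dist_self] at h
  exact (st1_eq hT (by omega)).symm

private theorem A02_self {W : Type} {T : SimpleGraph W} (a b : W) : Bt T a a b := by
  unfold Bt
  rw [SimpleGraph.dist_self, zero_add]

private theorem A02_side {W : Type} {T : SimpleGraph W} (hT : T.IsTree) {a b u v m : W}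
    (h : T.Adj a b) (hu : Bt T u a b) (hv : Bt T v a b) (hm : Bt T u m v) : Bt T m a b := by
  have e := st1_one h
  rcases st_adj hT h m with h1 | h1
  · unfold Bt
    omega
  exfalso
  rcases st_bt hT hm a with h2 | h2
  · have t := st1_tri hT u m b
    unfold Bt at *
    omega
  · have t := st1_tri hT v m b
    unfold Bt at *
    omega

/-- an edge which crosses the edge `a b` -/
private theorem A02_cross {W : Type} {T : SimpleGraph W} (hT : T.IsTree) {a b p q : W}
    (h : T.Adj a b) (hpq : T.Adj p q) (hp : Bt T p a b) (hq : ¬ Bt T q a b) : p = a ∧ q = b := by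
  have e := st1_one h
  have e' := st1_one hpq
  have h1 : T.dist q a = T.dist q b + 1 := by
    rcases st_adj hT h q with h1 | h1
    · exfalso
      apply hq
      unfold Bt
      omega
    · exact h1
  have ca : T.dist a p = T.dist p a := SimpleGraph.dist_comm
  have cb : T.dist b p = T.dist p b := SimpleGraph.dist_comm
  have ca' : T.dist a q = T.dist q a := SimpleGraph.dist_comm
  have cb' : T.dist b q = T.dist q b := SimpleGraph.dist_comm
  have h2 := st_adj hT hpq a
  have h3 := st_adj hT hpq b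
  have hp' := hp
  unfold Bt at hp'
  have hpqb : Bt T p q b := by
    unfold Bt
    omega
  have hpa : p = a := by
    by_contra hne
    obtain ⟨n, hn1, hn2⟩ := st_next hT hne
    have hn3 : Bt T p n b := bt_trans hT.connected hn2 hp
    have hnq : n = q := st_uniq hT hn1 hpq hn3 hpqb
    subst hnq
    unfold Bt at hn2
    omega
  refine ⟨hpa, ?_⟩
  subst hpa
  rw [SimpleGraph.dist_self] at hp' ca
  exact st1_eq hT (by omega)

theorem cv_ag (M : MS1 Γ S co N) (J : Set ι) (x : Pt) : Cv S co {y | Ag co J x y} := by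
  intro u hu v hv m hm j hj
  have h1 := hm j
  rw [hu j hj, hv j hj] at h1
  exact A02_eq (M.tree j) h1

theorem cv_side (M : MS1 Γ S co N) {i : ι} {a b : V i} (h : (S i).Adj a b) :
    Cv S co {y | Bt (S i) (co y i) a b} :=
  fun _ hu _ hv _ hm => A02_side (M.tree i) h hu hv (hm i)

theorem cv_pre (M : MS1 Γ S co N) {i : ι} {C : Set (V i)} (h : Cvx (S i) C) :
    Cv S co {y | co y i ∈ C} :=
  fun u hu v hv m hm => h (co u i) hu (co v i) hv (co m i) (hm i)

/-- a geodesic between points of a convex set -/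
theorem cv_geod (M : MS1 Γ S co N) {C : Set Pt} (hC : Cv S co C) {x y : Pt} (hx : x ∈ C)
    (hy : y ∈ C) : Relation.ReflTransGen (fun a b => a ∈ C ∧ b ∈ C ∧ ∃ i, VSt S co i a b ∧
      Bt (S i) (co a i) (co b i) (co y i) ∧ co a i ≠ co y i) x y := by
  refine geod_ind M y (fun x => x ∈ C → Relation.ReflTransGen (fun a b => a ∈ C ∧ b ∈ C ∧
    ∃ i, VSt S co i a b ∧ Bt (S i) (co a i) (co b i) (co y i) ∧ co a i ≠ co y i) x y) ?_ ?_ x hx
  · exact fun _ => Relation.ReflTransGen.refl
  · intro x z i hz hb ih hx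
    have hzC : z ∈ C := by
      refine hC x hx y hy z fun j => ?_
      by_cases hji : j = i
      · subst hji
        exact hb
      · rw [hz.2 j hji]
        exact A02_self _ _
    refine Relation.ReflTransGen.head ⟨hx, hzC, i, hz, hb, fun he => ?_⟩ (ih hzC)
    rw [← he] at hb
    have h1 := A02_eq (M.tree i) hb
    have h2 := hz.1
    rw [h1] at h2
    exact (S i).loopless.irrefl _ h2

/-- points which agree outside `J` are connected by steps with labels in `J` -/
theorem ag_geod (M : MS1 Γ S co N) {J : Set ι} {x y : Pt} (h : Ag co J x y) :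
    Relation.ReflTransGen (fun a b => Ag co J x a ∧ Ag co J x b ∧ ∃ i ∈ J, VSt S co i a b ∧
      Bt (S i) (co a i) (co b i) (co y i)) x y := by
  refine Relation.ReflTransGen.mono ?_ _ _ (cv_geod M (cv_ag M J x) (fun j _ => rfl) h)
  rintro a b ⟨ha, hb, i, h1, h2, _⟩
  refine ⟨ha, hb, i, ?_, h1, h2⟩
  by_contra hi
  have h3 := h1.1
  have ha' : co a i = co x i := ha i hi
  have hb' : co b i = co x i := hb i hi
  rw [ha', hb'] at h3
  exact (S i).loopless.irrefl _ h3

/-- gates -/
theorem gate (M : MS1 Γ S co N) {C : Set Pt} (hC : Cv S co C) (h0 : C.Nonempty) (x : Pt) :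
    ∃ g ∈ C, ∀ y ∈ C, ∀ i, Bt (S i) (co x i) (co g i) (co y i) := by
  obtain ⟨g, hg, hmin⟩ : ∃ g ∈ C, ∀ y ∈ C, ∑ i, (S i).dist (co x i) (co g i) ≤
      ∑ i, (S i).dist (co x i) (co y i) := by
    obtain ⟨n, ⟨g, hg, hn⟩, hmin⟩ : ∃ n, (∃ g ∈ C, ∑ i, (S i).dist (co x i) (co g i) = n) ∧
        ∀ k, (∃ g ∈ C, ∑ i, (S i).dist (co x i) (co g i) = k) → n ≤ k := by
      classical
      have hex : ∃ n, ∃ g ∈ C, ∑ i, (S i).dist (co x i) (co g i) = n := by
        obtain ⟨g, hg⟩ := h0
        exact ⟨_, g, hg, rfl⟩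
      exact ⟨Nat.find hex, Nat.find_spec hex, fun k hk => Nat.find_min' hex hk⟩
    refine ⟨g, hg, fun y hy => ?_⟩
    rw [hn]
    exact hmin _ ⟨y, hy, rfl⟩
  refine ⟨g, hg, fun y hy i => ?_⟩
  obtain ⟨m, hm⟩ := M.med x g y
  have hmC : m ∈ C := hC g hg y hy m fun j => (hm j).2.1
  have hle : ∀ j ∈ (Finset.univ : Finset ι), (S j).dist (co x j) (co m j) ≤
      (S j).dist (co x j) (co g j) := by
    intro j _
    have := (hm j).1
    unfold Bt at this
    omega
  have hsum : ∑ j, (S j).dist (co x j) (co m j) = ∑ j, (S j).dist (co x j) (co g j) :=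
    le_antisymm (Finset.sum_le_sum hle) (hmin m hmC)
  have heq := (Finset.sum_eq_sum_iff_of_le hle).1 hsum i (Finset.mem_univ i)
  have h1 := (hm i).1
  have h2 : co m i = co g i := by
    refine st1_eq (M.tree i) ?_
    unfold Bt at h1
    omega
  rw [← h2]
  exact (hm i).2.2

/-- in a convex set meeting both sides of an edge there is a step over this edge -/
theorem cv_edge (M : MS1 Γ S co N) {C : Set Pt} (hC : Cv S co C) {i : ι} {a b : V i}
    (h : (S i).Adj a b) {x y : Pt} (hx : x ∈ C) (hy : y ∈ C) (hxa : Bt (S i) (co x i) a b)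
    (hyb : Bt (S i) (co y i) b a) :
    ∃ z ∈ C, ∃ w ∈ C, VSt S co i z w ∧ co z i = a ∧ co w i = b := by
  refine geod_ind M y (fun x => x ∈ C → Bt (S i) (co x i) a b →
    ∃ z ∈ C, ∃ w ∈ C, VSt S co i z w ∧ co z i = a ∧ co w i = b) ?_ ?_ x hx hxa
  · intro _ h1
    exfalso
    have e := st1_one h
    have c : (S i).dist b a = (S i).dist a b := SimpleGraph.dist_comm
    unfold Bt at h1 hyb
    omega
  · intro x z j hz hb ih hx h1
    have hzC : z ∈ C := by
      refine hC x hx y hy z fun k => ?_
      by_cases hkj : k = j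
      · subst hkj
        exact hb
      · rw [hz.2 k hkj]
        exact A02_self _ _
    by_cases h2 : Bt (S i) (co z i) a b
    · exact ih hzC h2
    · have hij : i = j := by
        by_contra hij
        rw [hz.2 i hij] at h2
        exact h2 h1
      subst hij
      obtain ⟨h3, h4⟩ := A02_cross (M.tree i) h hz.1 h1 h2
      exact ⟨x, hx, z, hzC, hz, h3, h4⟩

end

end VTB
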