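import Pool.Agent.Lib.MP_32d917_al_vt.A02

/-!
# A03: strips and quadrants

`strip`: let `x x'` and `y y'` be steps in direction `j` over the same edge (`co x j = co y j`, `co x' j = co y' j`), and let `z` be between `x` and `y`.
Then there is a step `z z'` over this edge: `z'` := the median of `z`, `x'`, `y'`: its `j`-th coordinate is `co x' j`, for `k ≠ j` its `k`-th coordinate is the
median of `z_k, x_k, y_k`, which is `z_k`. `strip_adj`: if `co x k ≠ co y k`, `k ≠ j`, then `Γ.Adj j k`: on the geodesic from `x` to `y` there is a step `z w` in the direction `k`, both `z` and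
`w` are between `x` and `y`, so `strip` gives a square with sides in directions `k`, `j` (`z' w'` differ only in `k`), `sq`. So `x`, `y` agree outside `lk j` (`strip_ag`).
`push`: let `x x'` be a step in direction `j` and `Ag co (lk Γ j) x y`; then there is a step `y y'` over the same edge (and `Ag co (lk Γ j) x' y'`): induction along `ag_geod`, one step `z w` in direction `k ∈ lk j`: `sq` with
`Γ.Adj j k` gives the fourth vertex of the square of `z w`, `z z'`.
`quad`: all four intersections of the sides of an edge `a b` of `S i` and an edge `c d` of `S j` are nonempty: by `cv_edge` (in the convex sides of `a b`) there are steps over `c d` with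
`i`-coordinates on both sides of `a b`; the geodesic between their origins crosses `a b` (`cv_edge` for the convex set of the points between them), `strip` gives the square.
-/

set_option autoImplicit false

namespace VTB

open LatIso LatN LatF

section

variable {ι Pt : Type} [Fintype ι] {V : ι → Type} {Γ : SimpleGraph ι}
  {S : ∀ i, SimpleGraph (V i)} {co : Pt → ∀ i, V i} {N : Pt → ι → Prop}

private theorem A03_self {W : Type} {T : SimpleGraph W} (a b : W) : Bt T a a b := by
  unfold Bt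
  rw [SimpleGraph.dist_self, zero_add]

private theorem A03_eq {W : Type} {T : SimpleGraph W} (hT : T.IsTree) {a b : W}
    (h : Bt T a b a) : b = a := by
  unfold Bt at h
  rw [SimpleGraph.dist_self] at h
  exact (st1_eq hT (by omega)).symm

private theorem A03_int (M : MS1 Γ S co N) (x y : Pt) :
    Cv S co {m | ∀ i, Bt (S i) (co x i) (co m i) (co y i)} :=
  fun u hu v hv m hm i =>
    st_cvx_bt (M.tree i) (co x i) (co y i) (co u i) (hu i) (co v i) (hv i) (co m i) (hm i)

/-- opposite side of a square -/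
private theorem A03_side {j k : ι} (hjk : k ≠ j) {z w z' w' : Pt} (hk : VSt S co k z w)
    (hz : VSt S co j z z') (hw : VSt S co j w w') (he : co z' j = co w' j) :
    VSt S co k z' w' := by
  constructor
  · rw [hz.2 k hjk, hw.2 k hjk]
    exact hk.1
  · intro i hi
    by_cases hij : i = j
    · subst hij
      exact he.symm
    · rw [hw.2 i hij, hz.2 i hij]
      exact hk.2 i hi

theorem strip (M : MS1 Γ S co N) {j : ι} {x x' y y' z : Pt} (hx : VSt S co j x x')
    (hy : VSt S co j y y') (h1 : co x j = co y j) (h2 : co x' j = co y' j)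
    (hz : ∀ i, Bt (S i) (co x i) (co z i) (co y i)) :
    ∃ z', VSt S co j z z' ∧ co z' j = co x' j := by
  obtain ⟨z', hz'⟩ := M.med z x' y'
  have e1 : co z' j = co x' j := by
    have h3 := (hz' j).2.1
    rw [← h2] at h3
    exact A03_eq (M.tree j) h3
  have e2 : co z j = co x j := by
    have h3 := hz j
    rw [← h1] at h3
    exact A03_eq (M.tree j) h3
  refine ⟨z', ⟨?_, fun k hk => ?_⟩, e1⟩
  · rw [e1, e2]
    exact hx.1
  · obtain ⟨c1, c2, c3⟩ := hz' k
    have c4 := hz k
    rw [hx.2 k hk] at c1 c2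
    rw [hy.2 k hk] at c2 c3
    apply st1_eq (M.tree k)
    unfold Bt at c1 c2 c3 c4
    have d1 : (S k).dist (co z k) (co x k) = (S k).dist (co x k) (co z k) :=
      SimpleGraph.dist_comm
    have d2 : (S k).dist (co z' k) (co x k) = (S k).dist (co x k) (co z' k) :=
      SimpleGraph.dist_comm
    have d3 : (S k).dist (co z' k) (co z k) = (S k).dist (co z k) (co z' k) :=
      SimpleGraph.dist_comm
    omega

theorem strip_ag (M : MS1 Γ S co N) {j : ι} {x x' y y' : Pt} (hx : VSt S co j x x')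
    (hy : VSt S co j y y') (h1 : co x j = co y j) (h2 : co x' j = co y' j) :
    Ag co (RaagIso.lk Γ j) x y := by
  intro k hk
  by_cases hkj : k = j
  · subst hkj
    exact h1.symm
  · by_contra hne
    apply hk
    obtain ⟨n, hn, hn'⟩ := st_next (M.tree k) (Ne.symm hne)
    obtain ⟨z, hz, w, hw, hzw, _, _⟩ := cv_edge M (A03_int M x y) hn (x := x) (y := y)
      (fun i => A03_self _ _) (fun i => bt_symm (A03_self _ _)) (A03_self _ _) (bt_symm hn')
    obtain ⟨z', hz1, hz2⟩ := strip M hx hy h1 h2 hz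
    obtain ⟨w', hw1, hw2⟩ := strip M hx hy h1 h2 hw
    exact (M.sq z z' w j k (Ne.symm hkj) hz1 hzw).1
      ⟨w', A03_side hkj hzw hz1 hw1 (by rw [hz2, hw2]), hw1⟩

theorem push (M : MS1 Γ S co N) {j : ι} {x x' y : Pt} (hx : VSt S co j x x')
    (hy : Ag co (RaagIso.lk Γ j) x y) :
    ∃ y', VSt S co j y y' ∧ co y' j = co x' j ∧ Ag co (RaagIso.lk Γ j) x' y' := by
  have key : ∃ y', VSt S co j y y' ∧ co y' j = co x' j := by
    have h : Relation.ReflTransGen (fun a b => ∃ i ∈ RaagIso.lk Γ j, VSt S co i a b) x y := by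
      refine Relation.ReflTransGen.mono ?_ _ _ (ag_geod M hy)
      rintro a b ⟨_, _, k, hk, hs, _⟩
      exact ⟨k, hk, hs⟩
    clear hy
    induction h with
    | refl => exact ⟨x', hx, rfl⟩
    | @tail a b _ hab ih =>
      obtain ⟨a', ha1, ha2⟩ := ih
      obtain ⟨k, hk, hs⟩ := hab
      have hadj : Γ.Adj j k := hk
      obtain ⟨w, hw1, hw2⟩ := (M.sq a a' b j k hadj.ne ha1 hs).2 hadj
      exact ⟨w, hw2, by rw [hw1.2 j hadj.ne, ha2]⟩
  obtain ⟨y', hy1, hy2⟩ := key
  refine ⟨y', hy1, hy2, fun i hi => ?_⟩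
  by_cases hij : i = j
  · subst hij
    exact hy2
  · rw [hy1.2 i hij, hx.2 i hij]
    exact hy i hi

theorem quad (M : MS1 Γ S co N) {i j : ι} (hij : i ≠ j) {a b : V i} {c d : V j}
    (hab : (S i).Adj a b) (hcd : (S j).Adj c d)
    (h1 : ∃ x, Bt (S i) (co x i) a b ∧ Bt (S j) (co x j) c d)
    (h2 : ∃ x, Bt (S i) (co x i) a b ∧ Bt (S j) (co x j) d c)
    (h3 : ∃ x, Bt (S i) (co x i) b a ∧ Bt (S j) (co x j) c d)
    (h4 : ∃ x, Bt (S i) (co x i) b a ∧ Bt (S j) (co x j) d c) :
    Γ.Adj i j ∧ ∃ x y z w, VSt S co i x y ∧ VSt S co j x z ∧ VSt S co j y w ∧ VSt S co i z w ∧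
      co x i = a ∧ co y i = b ∧ co x j = c ∧ co z j = d := by
  obtain ⟨x1, hx1, hx1'⟩ := h1
  obtain ⟨x2, hx2, hx2'⟩ := h2
  obtain ⟨x3, hx3, hx3'⟩ := h3
  obtain ⟨x4, hx4, hx4'⟩ := h4
  obtain ⟨z, hz, w, hw, hzw, hzc, hwd⟩ := cv_edge M (cv_side M hab) hcd (x := x1) (y := x2)
    hx1 hx2 hx1' hx2'
  obtain ⟨z2, hz2, w2, hw2, hzw2, hzc2, hwd2⟩ := cv_edge M (cv_side M hab.symm) hcd (x := x3)
    (y := x4) hx3 hx4 hx3' hx4'
  obtain ⟨p, hp, q, hq, hpq, hpa, hqb⟩ := cv_edge M (A03_int M z z2) hab (x := z) (y := z2)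
    (fun i => A03_self _ _) (fun i => bt_symm (A03_self _ _)) hz hz2
  obtain ⟨p', hp1, hp2⟩ := strip M hzw hzw2 (by rw [hzc, hzc2]) (by rw [hwd, hwd2]) hp
  obtain ⟨q', hq1, hq2⟩ := strip M hzw hzw2 (by rw [hzc, hzc2]) (by rw [hwd, hwd2]) hq
  have hs := A03_side hij hpq hp1 hq1 (by rw [hp2, hq2])
  have hpc : co p j = c := by
    have h5 := hp j
    rw [hzc, hzc2] at h5
    exact A03_eq (M.tree j) h5
  exact ⟨(M.sq p q p' i j hij hpq hp1).1 ⟨q', hq1, hs⟩, p, q, p', q', hpq, hp1, hq1, hs, hpa,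
    hqb, hpc, by rw [hp2, hwd]⟩

/-- every edge is crossed by a step -/
theorem edge_step (M : MS1 Γ S co N) {i : ι} {a b : V i} (h : (S i).Adj a b) :
    ∃ x y, VSt S co i x y ∧ co x i = a ∧ co y i = b := by
  obtain ⟨x, hx⟩ := M.onto i a
  obtain ⟨y, hy⟩ := M.onto i b
  obtain ⟨z, _, w, _, h1, h2, h3⟩ := cv_edge M (C := Set.univ) (fun _ _ _ _ _ _ => trivial) h
    (x := x) (y := y) trivial trivial (by rw [hx]; exact A03_self _ _)
    (by rw [hy]; exact A03_self _ _)
  exact ⟨z, w, h1, h2, h3⟩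

end

end VTB
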