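import Pool.Agent.Lib.MP_32d917_al_vt.A03

/-!
# A04: regions

Throughout `v` a label. `st_split`: points `x`, `y` which agree outside `st v`: there is `z` with `Ag (lk v) x z`, `Ag {v} z y` (the point `y` with the `v`-coordinate of `x`). Induction along `ag_geod`
from `x` to `y` (or from `y`): first step `x x₁` of label in `lk v`: take the `z` of `x₁`. First step in direction `v`: take `z₁` for `x₁` and push the step `x₁ x` along `Ag (lk v) x₁ z₁` (`push`).
`n_ag`: `N` does not change for labels outside `J` along `Ag J` (`ntr`, `ag_geod`). `oc_ag`: `Oc x v`, `Ag (st v) x y` give `Oc y v`: by `occ` there is a step in direction `v` at `x`; it can be pushed along steps with labels in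
`lk v`; after a step in direction `v` there is the reverse step.
`prod`: `Ag (lk v) x y`, `Ag {v} x z`: there is `w` with `Ag {v} y w`, `co w v = co z v`, `Ag (lk v) z w`: induction along the geodesic from `x` to `z` (steps in direction `v`), `push`.
`panel_cv`: `{co y v | Ag {v} x y}` is convex in `S v` (a vertex between `co y v` and `co y' v`: it is on the geodesic from `y` to `y'`, whose steps have label `v`). `reg_pt`: for `x` in the region, every vertex of the tree of the region
is the `v`-coordinate of a point in the panel of `x` (`st_split`, `prod`). `int_all`: if `N x v` then all points `y` with `co y v = co x v` satisfy `Ag (lk v) x y` (and so `N y v`): geodesic from `x` to `y`: it never moves the coordinate `v`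
(`Bt (S v) (co x v) _ (co x v)`); as long as `N z v` the label `k ≠ v` of the next step occurs at `z`, so `k ∈ st v` (`occ`, `Oc`), `k ∈ lk v`, and `N` is transported (`ntr`).
`n_reg`: in a region `N` depends only on the `v`-coordinate (`Ag (st v) x y`, `co x v = co y v` give `Ag (lk v) x y`; `n_ag`).
-/

set_option autoImplicit false

namespace VTB

open LatIso LatN LatF RaagIso

section

variable {ι Pt : Type} [Fintype ι] {V : ι → Type} {Γ : SimpleGraph ι}
  {S : ∀ i, SimpleGraph (V i)} {co : Pt → ∀ i, V i} {N : Pt → ι → Prop}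

theorem ag_symm {J : Set ι} {x y : Pt} (h : Ag co J x y) : Ag co J y x :=
  fun j hj => (h j hj).symm

theorem ag_trans {J : Set ι} {x y z : Pt} (h : Ag co J x y) (h' : Ag co J y z) : Ag co J x z :=
  fun j hj => (h' j hj).trans (h j hj)

theorem ag_refl {J : Set ι} (x : Pt) : Ag co J x x := fun _ _ => rfl

theorem ag_mono {J K : Set ι} (hJ : J ⊆ K) {x y : Pt} (h : Ag co J x y) : Ag co K x y :=
  fun j hj => h j (fun hh => hj (hJ hh))

private theorem A04_vst {i : ι} {a b : Pt} (h : VSt S co i a b) : Ag co {i} a b :=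
  fun j hj => h.2 j hj

private theorem A04_geod (M : MS1 Γ S co N) {J : Set ι} {x y : Pt} (h : Ag co J x y) :
    Relation.ReflTransGen (fun a b => ∃ i ∈ J, VSt S co i a b) x y := by
  have key := ag_geod M h
  refine Relation.ReflTransGen.mono ?_ _ _ key
  rintro a b ⟨_, _, i, hi, hst, _⟩
  exact ⟨i, hi, hst⟩

private theorem A04_nlk (v : ι) : v ∉ lk Γ v := fun h => Γ.loopless.irrefl v h

private theorem A04_mid (M : MS1 Γ S co N) {v : ι} {p q m w : V v} (h : Bt (S v) p m q)
    (h1 : Bt (S v) p w q) (h2 : Bt (S v) q w m) (h3 : Bt (S v) p w m) : w = m := by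
  have hc := (M.tree v)
  unfold Bt at h h1 h2 h3
  have e1 := (S v).dist_comm (u := q) (v := w)
  have e2 := (S v).dist_comm (u := q) (v := m)
  exact st1_eq hc (by omega)

private theorem A04_eq (M : MS1 Γ S co N) {v : ι} {p w : V v} (h : Bt (S v) p w p) : w = p := by
  have hc := (M.tree v)
  unfold Bt at h
  have e1 : (S v).dist p p = 0 := (S v).dist_self
  have e2 := (S v).dist_comm (u := p) (v := w)
  exact st1_eq hc (by omega)

theorem st_split (M : MS1 Γ S co N) {v : ι} {x y : Pt} (h : Ag co (st Γ v) x y) :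
    ∃ z, Ag co (lk Γ v) x z ∧ Ag co {v} z y := by
  have key := A04_geod M h
  clear h
  induction key using Relation.ReflTransGen.head_induction_on with
  | refl => exact ⟨y, ag_refl y, ag_refl y⟩
  | head hab _ ih =>
    obtain ⟨i, hi, hst⟩ := hab
    obtain ⟨z1, hz1, hz1'⟩ := ih
    rcases hi with hi | hi
    · subst hi
      obtain ⟨y', hy', _, hy''⟩ := push M (vst_symm hst) hz1
      exact ⟨y', hy'', ag_trans (ag_symm (A04_vst hy')) hz1'⟩
    · exact ⟨z1, ag_trans (ag_mono (by
        intro j hj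
        rw [Set.mem_singleton_iff] at hj
        rw [hj]
        exact hi) (A04_vst hst)) hz1, hz1'⟩

theorem n_ag (M : MS1 Γ S co N) {J : Set ι} {x y : Pt} (h : Ag co J x y) {k : ι} (hk : k ∉ J) :
    N y k ↔ N x k := by
  have key := A04_geod M h
  clear h
  induction key with
  | refl => exact Iff.rfl
  | tail _ hab ih =>
    obtain ⟨i, hi, hst⟩ := hab
    exact (M.ntr _ _ i k hst (fun e => hk (e ▸ hi))).trans ih

theorem oc_ag (M : MS1 Γ S co N) {v : ι} {x y : Pt} (h : Ag co (st Γ v) x y) (hx : Oc Γ N x v) :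
    Oc Γ N y v := by
  have key := A04_geod M h
  clear h
  induction key with
  | refl => exact hx
  | tail _ hab ih =>
    obtain ⟨i, hi, hst⟩ := hab
    have ho := ih
    rcases hi with hi | hi
    · subst hi
      exact (M.occ _ _).1 ⟨_, vst_symm hst⟩
    · obtain ⟨a', ha'⟩ := (M.occ _ _).2 ho
      obtain ⟨b', hb', _⟩ := push M ha' (ag_mono (by
        intro j hj
        rw [Set.mem_singleton_iff] at hj
        rw [hj]
        exact hi) (A04_vst hst))
      exact (M.occ _ _).1 ⟨b', hb'⟩

theorem prod (M : MS1 Γ S co N) {v : ι} {x y z : Pt} (h : Ag co (lk Γ v) x y)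
    (h' : Ag co {v} x z) : ∃ w, Ag co {v} y w ∧ co w v = co z v ∧ Ag co (lk Γ v) z w := by
  have key := A04_geod M h'
  clear h'
  induction key with
  | refl => exact ⟨y, ag_refl y, h v (A04_nlk v), h⟩
  | tail _ hab ih =>
    obtain ⟨i, hi, hst⟩ := hab
    obtain ⟨w, hw1, _, hw3⟩ := ih
    rw [Set.mem_singleton_iff] at hi
    subst hi
    obtain ⟨w', hw', hw'', hw3'⟩ := push M hst hw3
    exact ⟨w', ag_trans hw1 (A04_vst hw'), hw'', hw3'⟩

theorem panel_cv (M : MS1 Γ S co N) (v : ι) (x : Pt) :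
    Cvx (S v) {p | ∃ y, Ag co {v} x y ∧ co y v = p} := by
  rintro p ⟨y, hy, rfl⟩ q ⟨y', hy', rfl⟩ m hm
  obtain ⟨u, hu⟩ := M.onto v m
  obtain ⟨w, hw⟩ := M.med y y' u
  refine ⟨w, fun j hj => ?_, ?_⟩
  · have h1 := (hw j).1
    rw [hy' j hj, hy j hj] at h1
    exact A04_eq M h1
  · have h1 := hw v
    rw [hu] at h1
    exact A04_mid M hm h1.1 h1.2.1 h1.2.2

theorem reg_pt (M : MS1 Γ S co N) {v : ι} {x y : Pt} (h : Ag co (st Γ v) x y) :
    ∃ z, Ag co {v} x z ∧ co z v = co y v := by
  obtain ⟨z, hz, hz'⟩ := st_split M (ag_symm h)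
  exact ⟨z, ag_symm hz', hz v (A04_nlk v)⟩

/-- the tree of a region is a convex set -/
theorem vr_cv (M : MS1 Γ S co N) {r : ι × Set Pt} (hr : IsReg Γ co N r) :
    Cvx (S r.1) {p | VR co r p} := by
  obtain ⟨x, _, hr2⟩ := hr
  rintro p ⟨y, hy, rfl⟩ q ⟨y', hy', rfl⟩ m hm
  rw [hr2] at hy hy'
  obtain ⟨u, hu⟩ := M.onto r.1 m
  obtain ⟨w, hw⟩ := M.med y y' u
  refine ⟨w, ?_, ?_⟩
  · rw [hr2]
    intro j hj
    have h1 := (hw j).1
    rw [hy' j hj, hy j hj] at h1
    exact A04_eq M h1
  · have h1 := hw r.1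
    rw [hu] at h1
    exact A04_mid M hm h1.1 h1.2.1 h1.2.2

theorem int_all (M : MS1 Γ S co N) {v : ι} {x y : Pt} (hx : N x v) (h : co y v = co x v) :
    Ag co (lk Γ v) x y := by
  have key := geod M x y
  have claim : ∀ a, Relation.ReflTransGen (fun a b => ∃ i, VSt S co i a b ∧
      Bt (S i) (co a i) (co b i) (co y i)) x a →
      N a v ∧ co a v = co y v ∧ Ag co (lk Γ v) x a := by
    intro a ha
    induction ha with
    | refl => exact ⟨hx, h.symm, ag_refl x⟩
    | tail _ hab ih =>
      rename_i b c _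
      obtain ⟨i, hst, hbt⟩ := hab
      obtain ⟨h1, h2, h3⟩ := ih
      have hi : v ≠ i := by
        rintro rfl
        rw [← h2] at hbt
        have h4 := A04_eq M hbt
        have h5 := hst.1
        rw [h4] at h5
        exact (S v).loopless.irrefl _ h5
      have h6 := (M.occ b i).1 ⟨c, hst⟩ v h1
      have h7 : i ∈ lk Γ v := by
        rcases h6 with h6 | h6
        · exact absurd h6.symm hi
        · exact h6
      refine ⟨(M.ntr b c i v hst hi).2 h1, (hst.2 v hi).trans h2, ag_trans h3 (ag_mono (by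
        intro j hj
        rw [Set.mem_singleton_iff] at hj
        rw [hj]
        exact h7) (A04_vst hst))⟩
  exact (claim y key).2.2

theorem n_reg (M : MS1 Γ S co N) {v : ι} {x y : Pt} (h : Ag co (st Γ v) x y)
    (h' : co y v = co x v) : N y v ↔ N x v := by
  obtain ⟨z, hz, hz'⟩ := st_split M h
  have h1 : z = y := by
    refine M.inj z y fun j => ?_
    by_cases hj : j = v
    · subst hj
      rw [hz j (A04_nlk j), h']
    · exact (hz' j hj).symm
  rw [h1] at hz
  exact n_ag M hz (A04_nlk v)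

/-- internal labels are pairwise adjacent or equal -/
theorem n_clique (M : MS1 Γ S co N) {x : Pt} {i j : ι} (hi : N x i) (hj : N x j) :
    i ∈ st Γ j :=
  M.nocc x i hi j hj

/-- membership in a region -/
theorem reg_mem {r : ι × Set Pt} (hr : IsReg Γ co N r) {x : Pt} (hx : x ∈ r.2) :
    r = rg Γ co x r.1 := by
  obtain ⟨x0, _, hr2⟩ := hr
  have hx0 : Ag co (st Γ r.1) x0 x := by
    rw [hr2] at hx
    exact hx
  refine Prod.ext rfl ?_
  show r.2 = {y | Ag co (st Γ r.1) x y}
  rw [hr2]
  ext y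
  exact ⟨fun hy => ag_trans (ag_symm hx0) hy, fun hy => ag_trans hx0 hy⟩

theorem reg_oc (M : MS1 Γ S co N) {r : ι × Set Pt} (hr : IsReg Γ co N r) {x : Pt}
    (hx : x ∈ r.2) : Oc Γ N x r.1 := by
  obtain ⟨x0, ho, hr2⟩ := hr
  have hx0 : Ag co (st Γ r.1) x0 x := by
    rw [hr2] at hx
    exact hx
  exact oc_ag M hx0 ho

theorem rg_isReg {x : Pt} {i : ι} (h : Oc Γ N x i) : IsReg Γ co N (rg Γ co x i) :=
  ⟨x, h, rfl⟩

theorem reg_cv (M : MS1 Γ S co N) {r : ι × Set Pt} (hr : IsReg Γ co N r) : Cv S co r.2 := by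
  obtain ⟨x0, _, hr2⟩ := hr
  rw [hr2]
  exact cv_ag M _ x0

end

end VTB
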