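import Pool.Agent.Lib.MP_32d917_al_vt.A04

/-!
# A05: chambers, projections to regions

`chamber`: for every point `x` and every set `J` of labels there is `y` which agrees with `x` outside `J ∩ {internal labels at x}` such that no label of `J` is internal at `y`: move in the directions `k ∈ J` with `N x k`
one after the other (`out`; by `n_ag` the other internal labels do not change; finitely many labels).
`gate_last`: let `r` be a region, `x ∉ r.2`, `g` the gate of `x` in `r.2` (given with its property). There is a step `z g` of label `i ∉ st (r.1)` with `Bt (S i) (co x i) (co z i) (co g i)`: last step of a geodesic from `x` to `g`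
(use `geod_step` from `g` towards `x`, reversed): if its label were in `st (r.1)`, `z` would be in `r.2`, and the gate property for `z` contradicts (the coordinate `i` of `g` is between those of `x` and `z`).
All points of `r.2` have the same `i`-coordinate `co g i`, so the edge `co z i, co g i` separates `x` from `r.2`.
`prj_exists`, `prj_uniq`: the projection of `co x v` to the tree of the region is the `v`-coordinate of the gate; uniqueness in trees (`p`, `q` both between: `Bt x p q`, `Bt x q p` give `p = q`).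
`prj_step`: if `x y` is a step of label `i` and the projections of `x`, `y` to `r` are different then `i = r.1`, `x, y ∈ r.2`: `i = r.1` since otherwise the coordinates `r.1` are equal; the edge `co x i, co y i` is in the tree
of the region (the projections of adjacent vertices to a convex set differ only if both are in the set: then the vertices are their own projections); there is a step over this edge in `r.2` (`cv_edge`), and `strip_ag` gives that `x` is in `r.2`.
`sep_edge`: for points `x`, `y` and a region `r` with different projections `p ≠ q` there is an edge `a b` of the tree of the region with `Bt x_v a b`, `Bt y_v b a`, `Bt p a b`, `Bt q b a`.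
-/

set_option autoImplicit false

namespace VTB

open LatIso LatN LatF RaagIso

section

variable {ι Pt : Type} [Fintype ι] {V : ι → Type} {Γ : SimpleGraph ι}
  {S : ∀ i, SimpleGraph (V i)} {co : Pt → ∀ i, V i} {N : Pt → ι → Prop}

private theorem A05_chamber (M : MS Γ S co N) (J : Set ι) (hJ : ∀ k ∈ J, ¬ CL Γ k) (x : Pt) :
    ∃ y, Ag co (J ∩ {k | N x k}) x y ∧ (∀ k ∈ J, ¬ N y k) ∧ ∀ k, k ∉ J → (N y k ↔ N x k) := by
  classical
  have key : ∀ F : Finset ι, ∃ y, Ag co ((↑F ∩ J) ∩ {k | N x k}) x y ∧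
      (∀ k ∈ F, k ∈ J → ¬ N y k) ∧ ∀ k, (k ∈ F → k ∉ J) → (N y k ↔ N x k) := by
    intro F
    induction F using Finset.induction_on with
    | empty => exact ⟨x, ag_refl x, by simp, fun _ _ => Iff.rfl⟩
    | insert a F' ha ih =>
      obtain ⟨y', h1, h2, h3⟩ := ih
      by_cases hc : a ∈ J ∧ N y' a
      · obtain ⟨haJ, hna⟩ := hc
        have hxa : N x a := (h3 a fun h => absurd h ha).1 hna
        obtain ⟨y, hy, hny⟩ := M.out y' a (hJ a haJ) hna
        have hk : ∀ k, k ≠ a → (N y k ↔ N y' k) := fun k hka => n_ag M.b hy hka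
        refine ⟨y, ag_trans (ag_mono ?_ h1) (ag_mono ?_ hy), ?_, ?_⟩
        · rintro k ⟨⟨hk1, hk2⟩, hk3⟩
          exact ⟨⟨Finset.mem_coe.2 (Finset.mem_insert_of_mem hk1), hk2⟩, hk3⟩
        · rintro k hk'
          obtain rfl : k = a := hk'
          exact ⟨⟨Finset.mem_coe.2 (Finset.mem_insert_self _ _), haJ⟩, hxa⟩
        · intro k hkF hkJ
          by_cases hka : k = a
          · subst hka
            exact hny
          · rw [hk k hka]
            exact h2 k (Finset.mem_of_mem_insert_of_ne hkF hka) hkJ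
        · intro k hkF
          have hka : k ≠ a := by
            rintro rfl
            exact hkF (Finset.mem_insert_self _ _) haJ
          rw [hk k hka]
          exact h3 k fun h => hkF (Finset.mem_insert_of_mem h)
      · refine ⟨y', ag_mono ?_ h1, ?_, ?_⟩
        · rintro k ⟨⟨hk1, hk2⟩, hk3⟩
          exact ⟨⟨Finset.mem_coe.2 (Finset.mem_insert_of_mem hk1), hk2⟩, hk3⟩
        · intro k hkF hkJ
          by_cases hka : k = a
          · subst hka
            exact fun h => hc ⟨hkJ, h⟩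
          · exact h2 k (Finset.mem_of_mem_insert_of_ne hkF hka) hkJ
        · intro k hkF
          exact h3 k fun h => hkF (Finset.mem_insert_of_mem h)
  obtain ⟨y, h1, h2, h3⟩ := key Finset.univ
  refine ⟨y, ag_mono ?_ h1, fun k hk => h2 k (Finset.mem_univ k) hk, fun k hk => h3 k fun _ => hk⟩
  rintro k ⟨⟨_, hk2⟩, hk3⟩
  exact ⟨hk2, hk3⟩

/-- regions are closed under agreement outside the star -/
private theorem a05_mem {r : ι × Set Pt} (hr : IsReg Γ co N r) {x y : Pt} (hx : x ∈ r.2)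
    (h : Ag co (st Γ r.1) x y) : y ∈ r.2 := by
  obtain ⟨x0, _, h0⟩ := hr
  rw [h0] at hx ⊢
  exact ag_trans hx h

private theorem a05_ag {r : ι × Set Pt} (hr : IsReg Γ co N r) {x y : Pt} (hx : x ∈ r.2)
    (hy : y ∈ r.2) : Ag co (st Γ r.1) x y := by
  obtain ⟨x0, _, h0⟩ := hr
  rw [h0] at hx hy
  exact ag_trans (ag_symm hx) hy

private theorem a05_self (v : ι) : v ∈ st Γ v := Or.inl rfl

private theorem a05_lk (v : ι) : lk Γ v ⊆ st Γ v := fun _ h => Or.inr h

private theorem a05_bt {W : Type} (T : SimpleGraph W) (a b : W) : Bt T a a b := by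
  unfold Bt
  simp

/-- all labels of `J` but the central ones can be made not internal -/
theorem chamber (M : MS Γ S co N) (J : Set ι) (x : Pt) :
    ∃ y, Ag co (J ∩ {k | N x k ∧ ¬ CL Γ k}) x y ∧ (∀ k ∈ J, ¬ CL Γ k → ¬ N y k) ∧
      ∀ k, (k ∈ J → CL Γ k) → (N y k ↔ N x k) := by
  obtain ⟨y, h1, h2, h3⟩ := A05_chamber M {k | k ∈ J ∧ ¬ CL Γ k} (fun k hk => hk.2) x
  refine ⟨y, ag_mono ?_ h1, fun k hk hc => h2 k ⟨hk, hc⟩, fun k hk => h3 k fun h => h.2 (hk h.1)⟩
  rintro k ⟨⟨hk1, hk2⟩, hk3⟩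
  exact ⟨hk1, hk3, hk2⟩

/-- central labels -/
theorem cl_symm {Γ : SimpleGraph ι} {i : ι} (h : CL Γ i) (j : ι) : i ∈ st Γ j := by
  rcases h j with h | h
  · exact Or.inl h.symm
  · exact Or.inr h.symm

theorem cl_adj {Γ : SimpleGraph ι} {i j : ι} (h : CL Γ i) (hij : i ≠ j) : Γ.Adj i j := by
  rcases h j with h | h
  · exact absurd h.symm hij
  · exact h

/-- a label without central labels is outside some star -/
theorem not_cl {Γ : SimpleGraph ι} {i : ι} (h : ¬ CL Γ i) : ∃ j, j ∉ st Γ i := by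
  simpa [CL] using h

theorem gate_last (M : MS1 Γ S co N) {r : ι × Set Pt} (hr : IsReg Γ co N r) {x g : Pt}
    (hx : x ∉ r.2) (hg : g ∈ r.2) (hg' : ∀ y ∈ r.2, ∀ i, Bt (S i) (co x i) (co g i) (co y i)) :
    ∃ i z, i ∉ st Γ r.1 ∧ VSt S co i z g ∧ Bt (S i) (co x i) (co z i) (co g i) ∧
      ∀ y ∈ r.2, co y i = co g i := by
  have hne : g ≠ x := fun h => hx (h ▸ hg)
  obtain ⟨i, z, hz, hb⟩ := geod_step M hne
  have hb' := bt_symm hb
  have hi : i ∉ st Γ r.1 := by
    intro hi
    have hzr : z ∈ r.2 := by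
      refine a05_mem hr hg fun j hj => hz.2 j ?_
      rintro rfl
      exact hj hi
    have h1 := hg' z hzr i
    have e1 := st1_one hz.1
    unfold Bt at h1 hb'
    omega
  refine ⟨i, z, hi, vst_symm hz, hb', fun y hy => ?_⟩
  exact a05_ag hr hg hy i hi

theorem prj_gate (M : MS1 Γ S co N) {r : ι × Set Pt} (hr : IsReg Γ co N r) {x g : Pt}
    (hg : g ∈ r.2) (hg' : ∀ y ∈ r.2, ∀ i, Bt (S i) (co x i) (co g i) (co y i)) :
    Prj S co r x (co g r.1) := by
  refine ⟨⟨g, hg, rfl⟩, ?_⟩
  rintro q ⟨y, hy, rfl⟩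
  exact hg' y hy r.1

theorem prj_exists (M : MS1 Γ S co N) {r : ι × Set Pt} (hr : IsReg Γ co N r) (x : Pt) :
    ∃ p, Prj S co r x p := by
  have h0 : r.2.Nonempty := by
    obtain ⟨x0, _, h0⟩ := hr
    exact ⟨x0, by rw [h0]; exact ag_refl x0⟩
  obtain ⟨g, hg, hg'⟩ := gate M (reg_cv M hr) h0 x
  exact ⟨_, prj_gate M hr hg hg'⟩

theorem prj_uniq (M : MS1 Γ S co N) {r : ι × Set Pt} {x : Pt} {p q : V r.1}
    (hp : Prj S co r x p) (hq : Prj S co r x q) : p = q := by
  have h1 := hp.2 q hq.1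
  have h2 := hq.2 p hp.1
  unfold Bt at h1 h2
  exact st1_eq (M.tree r.1) (by omega)

theorem prj_self (M : MS1 Γ S co N) {r : ι × Set Pt} {x : Pt} (hx : x ∈ r.2) :
    Prj S co r x (co x r.1) :=
  ⟨⟨x, hx, rfl⟩, fun q _ => a05_bt _ _ _⟩

private theorem a05_tree {W : Type} {T : SimpleGraph W} (hT : T.IsTree) {a b p q : W}
    (hab : T.Adj a b) (hpq : p ≠ q) (h1 : Bt T a p q) (h2 : Bt T b q p) : a = p ∧ b = q := by
  have e1 := st1_one hab
  have t1 := st1_tri hT a b q
  have t2 := st1_tri hT b a p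
  have c1 : T.dist b a = T.dist a b := SimpleGraph.dist_comm
  have c2 : T.dist q p = T.dist p q := SimpleGraph.dist_comm
  have c3 : T.dist q b = T.dist b q := SimpleGraph.dist_comm
  have h3 : T.dist p q ≠ 0 := fun h => hpq (st1_eq hT h)
  have h4 := st_4pt hT a q b p
  unfold Bt at h1 h2
  have h5 : T.dist a p = 0 ∧ T.dist b q = 0 := by
    rcases le_max_iff.1 h4 with h5 | h5 <;> omega
  exact ⟨st1_eq hT h5.1, st1_eq hT h5.2⟩

theorem prj_step (M : MS1 Γ S co N) {r : ι × Set Pt} (hr : IsReg Γ co N r) {i : ι} {x y : Pt}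
    (h : VSt S co i x y) {p q : V r.1} (hp : Prj S co r x p) (hq : Prj S co r y q) (hpq : p ≠ q) :
    i = r.1 ∧ x ∈ r.2 ∧ y ∈ r.2 := by
  have hi : i = r.1 := by
    by_contra hi
    have e : co y r.1 = co x r.1 := h.2 r.1 fun h => hi h.symm
    apply hpq
    refine prj_uniq M hp (x := x) ⟨hq.1, fun q' hq' => ?_⟩
    rw [← e]
    exact hq.2 q' hq'
  subst hi
  obtain ⟨rfl, rfl⟩ := a05_tree (M.tree r.1) h.1 hpq (hp.2 q hq.1) (hq.2 p hp.1)
  obtain ⟨z, hz, hz'⟩ := hp.1
  obtain ⟨w, hw, hw'⟩ := hq.1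
  obtain ⟨z1, hz1, w1, hw1, h1, h2, h3⟩ := cv_edge M (reg_cv M hr) h.1 hz hw
    (by rw [hz']; exact a05_bt _ _ _) (by rw [hw']; exact a05_bt _ _ _)
  have h4 := strip_ag M h1 h h2 h3
  have hxr : x ∈ r.2 := a05_mem hr hz1 (ag_mono (a05_lk r.1) h4)
  refine ⟨rfl, hxr, a05_mem hr hxr fun j hj => h.2 j ?_⟩
  rintro rfl
  exact hj (a05_self _)

theorem sep_edge (M : MS1 Γ S co N) {r : ι × Set Pt} (hr : IsReg Γ co N r) {x y : Pt}
    {p q : V r.1} (hp : Prj S co r x p) (hq : Prj S co r y q) (hpq : p ≠ q) :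
    ∃ a b, (S r.1).Adj a b ∧ VR co r a ∧ VR co r b ∧ Bt (S r.1) (co x r.1) a b ∧
      Bt (S r.1) (co y r.1) b a ∧ Bt (S r.1) p a b ∧ Bt (S r.1) q b a := by
  obtain ⟨b, hb, hb'⟩ := st_next (M.tree r.1) hpq
  have hvb : VR co r b := vr_cv M hr p hp.1 q hq.1 b hb'
  refine ⟨p, b, hb, hp.1, hvb, hp.2 b hvb, ?_, a05_bt _ _ _, bt_symm hb'⟩
  exact bt_symm (bt_trans (M.tree r.1).connected hb' (bt_symm (hq.2 p hp.1)))

end

end VTB
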