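import Pool.Agent.Lib.MP_32d917_al_vt.A05
import Pool.Agent.Lib.MP_32d917_al.F.PFG

/-!
# A06: stabilizers

Basic facts on `stJ`. `stJ_fin`: finitely many orbits on the points which agree with `x` outside `J`: let `F` be as in `L.fin`; for every `z ∈ F` choose, if it exists, a point `y_z` with `Ag co J x y_z` and `h • y_z = z`, `h : H`. If
`Ag co J x y` and `g • y = z ∈ F` then `k = h⁻¹ * g` maps `y` to `y_z`; it is in `stJ`: for `j ∉ J`, `k • co x j = k • co y j = co y_z j = co x j`. `stJ_fg`: apply `pfg` (F/PFG) to the group `stJ H co x J` acting on the type `{y // Ag co J x y}` with the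
graph of steps (`SimpleGraph.fromRel` or by hand), connected by `ag_geod`, locally finite by `L.ms.loc` (finitely many labels), `H := ⊤`; transport the finite generating set to `H`.
-/

set_option autoImplicit false

namespace VTB

open LatIso LatN LatF RaagIso

section

variable {ι Pt : Type} [Fintype ι] {V : ι → Type} {Γ : SimpleGraph ι}
  {S : ∀ i, SimpleGraph (V i)} {co : Pt → ∀ i, V i} {N : Pt → ι → Prop}
  {H : Type} [Group H] [MulAction H Pt] [∀ i, MulAction H (V i)]

theorem hl_step (L : HLat H Γ S co N) (h : H) {i : ι} {x y : Pt} :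
    VSt S co i (h • x) (h • y) ↔ VSt S co i x y := by
  have key : ∀ (g : H) (a b : Pt), VSt S co i a b → VSt S co i (g • a) (g • b) := by
    intro g a b hab
    refine ⟨?_, fun j hj => ?_⟩
    · rw [L.hco, L.hco]
      exact (L.ta i).adj g _ _ hab.1
    · rw [L.hco, L.hco, hab.2 j hj]
  refine ⟨fun hh => ?_, key h x y⟩
  have h1 := key h⁻¹ _ _ hh
  rwa [inv_smul_smul, inv_smul_smul] at h1

theorem hl_ag (L : HLat H Γ S co N) (h : H) {J : Set ι} {x y : Pt} :
    Ag co J (h • x) (h • y) ↔ Ag co J x y := by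
  refine forall_congr' fun j => imp_congr Iff.rfl ?_
  rw [L.hco, L.hco]
  exact smul_left_cancel_iff h

theorem hl_mem (L : HLat H Γ S co N) {h : H} {x : Pt} {J : Set ι} :
    h ∈ stJ H co x J ↔ Ag co J x (h • x) := by
  refine forall_congr' fun j => imp_congr Iff.rfl ?_
  rw [L.hco]

theorem hl_oc (L : HLat H Γ S co N) (h : H) (x : Pt) (i : ι) :
    Oc Γ N (h • x) i ↔ Oc Γ N x i := by
  refine forall_congr' fun v => imp_congr (L.hn h x v) Iff.rfl

theorem stJ_conj (L : HLat H Γ S co N) (h g : H) {x : Pt} {J : Set ι} :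
    h * g * h⁻¹ ∈ stJ H co (h • x) J ↔ g ∈ stJ H co x J := by
  refine forall_congr' fun j => imp_congr Iff.rfl ?_
  rw [L.hco, mul_smul, inv_smul_smul, mul_smul]
  exact smul_left_cancel_iff h

theorem stJ_congr {x y : Pt} {J : Set ι} (h : Ag co J x y) : stJ H co x J = stJ H co y J := by
  ext g
  refine forall_congr' fun j => ?_
  constructor
  · intro h1 hj
    rw [h j hj]
    exact h1 hj
  · intro h1 hj
    rw [← h j hj]
    exact h1 hj

theorem stJ_mono {x : Pt} {J K : Set ι} (h : J ⊆ K) : stJ H co x J ≤ stJ H co x K :=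
  fun _ hg j hj => hg j fun hh => hj (h hh)

theorem stJ_fin (L : HLat H Γ S co N) (x : Pt) (J : Set ι) :
    ∃ F : Finset Pt, ∀ y, Ag co J x y → ∃ h ∈ stJ H co x J, h • y ∈ F := by
  classical
  obtain ⟨F, hF⟩ := L.fin
  let P : Pt → Prop := fun z => ∃ y, Ag co J x y ∧ ∃ h : H, h • y = z
  let f : Pt → Pt := fun z => if hz : P z then Classical.choose hz else x
  refine ⟨F.image f, fun y hy => ?_⟩
  obtain ⟨g, hg⟩ := hF y
  have hP : P (g • y) := ⟨y, hy, g, rfl⟩
  have hf : f (g • y) = Classical.choose hP := dif_pos hP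
  obtain ⟨h1, h, h2⟩ := Classical.choose_spec hP
  rw [← hf] at h1 h2
  have h3 : (h⁻¹ * g) • y = f (g • y) := by
    rw [mul_smul, inv_smul_eq_iff]
    exact h2.symm
  refine ⟨h⁻¹ * g, fun j hj => ?_, ?_⟩
  · rw [← hy j hj, ← L.hco, h3, h1 j hj, hy j hj]
  · rw [h3]
    exact Finset.mem_image_of_mem f hg

theorem stJ_loc (L : HLat H Γ S co N) (x : Pt) : {y | UAdj S co x y}.Finite := by
  have h : {y | UAdj S co x y} = ⋃ i, {y | VSt S co i x y} := by
    ext y
    simp only [Set.mem_setOf_eq, Set.mem_iUnion]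
    exact Iff.rfl
  rw [h]
  exact Set.finite_iUnion fun i => L.ms.loc x i

theorem stJ_fg (L : HLat H Γ S co N) (x : Pt) (J : Set ι) :
    ∃ F : Finset H, Subgroup.closure (F : Set H) = stJ H co x J := by
  classical
  letI act : MulAction (stJ H co x J) {y // Ag co J x y} :=
    { smul := fun g y => ⟨g.1 • y.1, ag_trans ((hl_mem L).1 g.2) ((hl_ag L g.1).2 y.2)⟩
      one_smul := fun y => Subtype.ext (one_smul H y.1)
      mul_smul := fun g h y => Subtype.ext (mul_smul g.1 h.1 y.1) }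
  have hact : ∀ (g : stJ H co x J) (y : {y // Ag co J x y}), (g • y).1 = g.1 • y.1 :=
    fun _ _ => rfl
  let T : SimpleGraph {y // Ag co J x y} :=
    { Adj := fun a b => ∃ i, VSt S co i a.1 b.1
      symm := ⟨fun _ _ ⟨i, hi⟩ => ⟨i, vst_symm hi⟩⟩
      loopless := ⟨fun _ ⟨i, hi⟩ => (S i).loopless.irrefl _ hi.1⟩ }
  have hT : ∀ a b, T.Adj a b ↔ ∃ i, VSt S co i a.1 b.1 := fun _ _ => Iff.rfl
  have hconn : T.Connected := by
    haveI : Nonempty {y // Ag co J x y} := ⟨⟨x, ag_refl x⟩⟩
    refine ⟨fun a b => ?_⟩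
    have hab : Ag co J a.1 b.1 := ag_trans (ag_symm a.2) b.2
    have key : ∀ u : Pt, Relation.ReflTransGen (fun u v => Ag co J a.1 u ∧ Ag co J a.1 v ∧
        ∃ i ∈ J, VSt S co i u v ∧ Bt (S i) (co u i) (co v i) (co b.1 i)) a.1 u →
        ∃ hu : Ag co J x u, T.Reachable a ⟨u, hu⟩ := by
      intro u hu
      induction hu with
      | refl => exact ⟨a.2, SimpleGraph.Reachable.refl _⟩
      | tail _ hvw ih =>
        obtain ⟨_, h2, i, _, hst, _⟩ := hvw
        obtain ⟨hv, hr⟩ := ih
        refine ⟨ag_trans a.2 h2, hr.trans (SimpleGraph.Adj.reachable ?_)⟩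
        exact ⟨i, hst⟩
    obtain ⟨hu, hr⟩ := key b.1 (ag_geod L.ms.b hab)
    exact hr
  obtain ⟨F, hF⟩ := stJ_fin L x J
  obtain ⟨F', hF'⟩ := LatF.pfg (S := T) hconn
    (fun g a b hab => by
      obtain ⟨i, hi⟩ := hab
      exact ⟨i, by rw [hact, hact]; exact (hl_step L g.1).2 hi⟩)
    (⊤ : Subgroup (stJ H co x J))
    (fun v => ((L.prop v.1).preimage (Subtype.val_injective.injOn)).subset
      (fun k hk => by
        have h1 := congrArg Subtype.val hk.2
        rw [hact] at h1
        exact h1))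
    ⟨F.subtype (fun y => Ag co J x y), fun v => by
      obtain ⟨h, hh, hv⟩ := hF v.1 v.2
      exact ⟨⟨h, hh⟩, Subgroup.mem_top _, Finset.mem_subtype.2 hv⟩⟩
    (fun v => ((stJ_loc L v.1).preimage (Subtype.val_injective.injOn)).subset
      (fun w hw => hw))
  refine ⟨F'.image Subtype.val, ?_⟩
  have h1 := congrArg (Subgroup.map (stJ H co x J).subtype) hF'
  rw [MonoidHom.map_closure, ← MonoidHom.range_eq_map, Subgroup.range_subtype] at h1
  rw [Finset.coe_image]
  exact h1

end

end VTB
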