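import Pool.Agent.Lib.MP_32d917_al_vt.A06

/-!
# A07: fixed points

`f4`: induction over the finite set `U` (`Finset.induction_on`), generalizing `C`: for `u` let `D = {co y u | y ∈ C}`, a convex set of `S u` (geodesics in `C`, `cv_geod`), invariant under `A`; `A` fixes the vertex `v`; let `b` be the point of `D` nearest to
`v`: for `a ∈ A` the vertex `a • b ∈ D` has the same distance from `a • v = v`, so `a • b = b` (the nearest point is unique: the median of `b`, `b'`, `v` is in `D`). Replace `C` by `{y ∈ C | co y u = b}`, convex, nonempty, invariant.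
`f4_fix`: `C = univ`, `U = univ`, injectivity of `co`. `f4_J`: `C = {y | Ag co I x y}`, `U` the labels in `I \ J`. `tors_fin`: let `B` be a bound for the orders of all point stabilizers (finitely many orbits, `L.fin`, `L.prop`; conjugate
stabilizers have the same order). A finite subset `F` of `A`: all elements of `F` and all products `g * k` are of finite order, so elliptic on all `S u` (`tl_pow`), so `serre` gives a vertex of `S u` fixed by `F`, for every `u`; apply `f4_fix` to the subgroup generated by `F`: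
`F` is contained in a point stabilizer, so `F.card ≤ B`. So `A` is finite. `inf_hyp`: otherwise all elements of `A` are elliptic on all trees, by `serre` the generators fix a vertex in every tree, so does `A`, so `A` is in a point stabilizer.
`k_ell`: `a` fixes `co x u`. `k_fo`: the subgroup generated by `a` fixes a vertex in all trees (`co x u` for `u ≠ v`, and `tl_eq_zero` for `v`), so `f4_fix`: `a` is in a finite stabilizer. `hyp_io`: `tl_pow`.
`k_hyp`: the panel `{y | Ag co {v} x y}` is infinite (`L.ms.inf`), `K = stJ H co x {v}` acts on it with finitely many orbits (`stJ_fin`); if `K` is finite this is impossible. So `K` is infinite, finitely generated (`stJ_fg`), `inf_hyp` gives a hyperbolic element, the tree is `S v` by `k_ell`.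
-/

set_option autoImplicit false

namespace VTB

open LatIso LatN LatF RaagIso

section

variable {ι Pt : Type} [Fintype ι] {V : ι → Type} {Γ : SimpleGraph ι}
  {S : ∀ i, SimpleGraph (V i)} {co : Pt → ∀ i, V i} {N : Pt → ι → Prop}
  {H : Type} [Group H] [MulAction H Pt] [∀ i, MulAction H (V i)]

/-- a finitely generated subgroup all of whose elements are elliptic has a fixed vertex -/
theorem fg_fix {U : Type} [MulAction H U] {R : SimpleGraph U} (hR : TA H R) (A : Subgroup H)
    (hfg : ∃ F : Finset H, Subgroup.closure (F : Set H) = A) (h : ∀ a ∈ A, tl R a = 0) :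
    ∃ u : U, ∀ a ∈ A, a • u = u := by
  obtain ⟨F, hF⟩ := hfg
  have hFA : ∀ g ∈ F, g ∈ A := fun g hg => hF ▸ Subgroup.subset_closure (Finset.mem_coe.2 hg)
  obtain ⟨u, hu⟩ := serre hR F (fun g hg => h g (hFA g hg))
    (fun g hg k hk => h _ (A.mul_mem (hFA g hg) (hFA k hk)))
  refine ⟨u, fun a ha => ?_⟩
  have hle : Subgroup.closure (F : Set H) ≤ MulAction.stabilizer H u := by
    rw [Subgroup.closure_le]
    intro g hg
    exact MulAction.mem_stabilizer_iff.2 (hu g (Finset.mem_coe.1 hg))
  rw [hF] at hle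
  exact MulAction.mem_stabilizer_iff.1 (hle ha)

private theorem A07_bt {W : Type} {T : SimpleGraph W} (hT : T.IsTree) {a b c : W}
    (h1 : Bt T a b c) (h2 : Bt T a c b) : b = c := by
  refine st1_eq hT ?_
  have e : T.dist c b = T.dist b c := SimpleGraph.dist_comm
  unfold Bt at h1 h2
  omega

theorem f4 (L : HLat H Γ S co N) (A : Subgroup H) {C : Set Pt} (hC : Cv S co C)
    (h0 : C.Nonempty) (hA : ∀ a ∈ A, ∀ x ∈ C, a • x ∈ C) (U : Finset ι)
    (hU : ∀ u ∈ U, ∃ v : V u, ∀ a ∈ A, a • v = v) :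
    ∃ y ∈ C, ∀ u ∈ U, ∀ a ∈ A, a • co y u = co y u := by
  classical
  induction U using Finset.induction_on generalizing C with
  | empty =>
    obtain ⟨y, hy⟩ := h0
    exact ⟨y, hy, fun u hu => absurd hu (Finset.notMem_empty u)⟩
  | insert u U huU ih =>
    obtain ⟨v, hv⟩ := hU u (Finset.mem_insert_self u U)
    obtain ⟨x, hx⟩ := L.ms.b.onto u v
    obtain ⟨g, hg, hgb⟩ := gate L.ms.b hC h0 x
    have hb : ∀ a ∈ A, a • co g u = co g u := by
      intro a ha
      have h1 := hgb (a • g) (hA a ha g hg) u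
      have h2 := hgb (a⁻¹ • g) (hA _ (A.inv_mem ha) g hg) u
      rw [L.hco, hx] at h1 h2
      rw [← ta_bt (L.ta u) a, hv a ha, smul_inv_smul] at h2
      exact (A07_bt (L.ta u).tree h1 h2).symm
    have hC' : Cv S co (C ∩ {y | co y u = co g u}) := by
      refine cv_inter hC ?_
      intro p hp q hq m hm
      have h1 := hm u
      have hp' : co p u = co g u := hp
      have hq' : co q u = co g u := hq
      rw [hp', hq'] at h1
      refine (st1_eq (L.ta u).tree ?_).symm
      have e : (S u).dist (co g u) (co g u) = 0 := SimpleGraph.dist_self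
      unfold Bt at h1
      omega
    obtain ⟨y, hy, hyU⟩ := ih hC' ⟨g, hg, rfl⟩
      (fun a ha y hy => ⟨hA a ha y hy.1, by
        show co (a • y) u = co g u
        rw [L.hco, show co y u = co g u from hy.2, hb a ha]⟩)
      (fun w hw => hU w (Finset.mem_insert_of_mem hw))
    refine ⟨y, hy.1, fun w hw a ha => ?_⟩
    rcases Finset.mem_insert.1 hw with rfl | hw
    · rw [show co y w = co g w from hy.2]
      exact hb a ha
    · exact hyU w hw a ha

theorem f4_fix (L : HLat H Γ S co N) (A : Subgroup H)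
    (hU : ∀ u, ∃ v : V u, ∀ a ∈ A, a • v = v) : ∃ y : Pt, ∀ a ∈ A, a • y = y := by
  obtain ⟨x⟩ := L.ms.b.ne
  obtain ⟨y, -, hy⟩ := f4 L A (C := Set.univ) (fun _ _ _ _ _ _ => Set.mem_univ _)
    ⟨x, Set.mem_univ x⟩ (fun _ _ _ _ => Set.mem_univ _) Finset.univ (fun u _ => hU u)
  refine ⟨y, fun a ha => L.ms.b.inj _ _ fun i => ?_⟩
  rw [L.hco]
  exact hy i (Finset.mem_univ i) a ha

theorem f4_J (L : HLat H Γ S co N) (A : Subgroup H) {x : Pt} {I J : Set ι}
    (hx : A ≤ stJ H co x I) (hU : ∀ u ∈ I, u ∉ J → ∃ v : V u, ∀ a ∈ A, a • v = v) :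
    ∃ y, Ag co I x y ∧ A ≤ stJ H co y J := by
  classical
  obtain ⟨y, hy, hyU⟩ := f4 L A (C := {y | Ag co I x y}) (cv_ag L.ms.b I x) ⟨x, ag_refl x⟩
    (fun a ha y hy => ag_trans ((hl_mem L).1 (hx ha)) ((hl_ag L a).2 hy))
    (Finset.univ.filter fun u => u ∈ I ∧ u ∉ J)
    (fun u hu => hU u (Finset.mem_filter.1 hu).2.1 (Finset.mem_filter.1 hu).2.2)
  refine ⟨y, hy, fun a ha j hj => ?_⟩
  by_cases hI : j ∈ I
  · exact hyU j (Finset.mem_filter.2 ⟨Finset.mem_univ j, hI, hj⟩) a ha
  · rw [hy j hI]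
    exact hx ha j hI

private theorem A07_one {U : Type} [MulAction H U] {R : SimpleGraph U} (hR : TA H R) {a : H}
    (h : IsOfFinOrder a) : tl R a = 0 := by
  obtain ⟨n, hn, ha⟩ := isOfFinOrder_iff_pow_eq_one.1 h
  have h1 := tl_pow hR a n
  have h2 : tl R (a ^ n) = 0 := by
    rw [tl_eq_zero hR]
    obtain ⟨v⟩ := hR.tree.connected.nonempty
    exact ⟨v, by rw [ha, one_smul]⟩
  rw [h2] at h1
  rcases Nat.eq_zero_or_pos (tl R a) with h3 | h3
  · exact h3
  · have := Nat.mul_pos hn h3
    omega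

private theorem A07_bd (L : HLat H Γ S co N) :
    ∃ B : ℕ, ∀ x : Pt, {h : H | h • x = x}.ncard ≤ B := by
  classical
  obtain ⟨F, hF⟩ := L.fin
  refine ⟨∑ z ∈ F, {h : H | h • z = z}.ncard, fun x => ?_⟩
  obtain ⟨k, hk⟩ := hF x
  refine le_trans ?_ (Finset.single_le_sum (f := fun z => {h : H | h • z = z}.ncard)
    (fun _ _ => Nat.zero_le _) hk)
  refine Set.ncard_le_ncard_of_injOn (fun h => k * h * k⁻¹) ?_ ?_ (L.prop (k • x))
  · intro h hh
    show (k * h * k⁻¹) • k • x = k • x
    rw [mul_smul, mul_smul, inv_smul_smul, show h • x = x from hh]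
  · intro a _ b _ hab
    have h1 : k * a * k⁻¹ = k * b * k⁻¹ := hab
    exact mul_left_cancel (mul_right_cancel h1)

theorem tors_fin (L : HLat H Γ S co N) (A : Subgroup H) (h : ∀ a ∈ A, IsOfFinOrder a) :
    (A : Set H).Finite := by
  classical
  obtain ⟨B, hB⟩ := A07_bd L
  by_contra hinf
  obtain ⟨F, hFA, hFc⟩ := Set.Infinite.exists_subset_card_eq (s := (A : Set H)) hinf (B + 1)
  have hKA : Subgroup.closure (F : Set H) ≤ A := (Subgroup.closure_le A).2 hFA
  obtain ⟨y, hy⟩ := f4_fix L (Subgroup.closure (F : Set H)) (fun u =>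
    fg_fix (L.ta u) _ ⟨F, rfl⟩ (fun a ha => A07_one (L.ta u) (h a (hKA ha))))
  have h1 : F.card ≤ {h : H | h • y = y}.ncard := by
    rw [← Set.ncard_coe_finset F]
    exact Set.ncard_le_ncard (fun g hg => hy g (Subgroup.subset_closure hg)) (L.prop y)
  have h2 := hB y
  omega

theorem inf_hyp (L : HLat H Γ S co N) (A : Subgroup H)
    (hfg : ∃ F : Finset H, Subgroup.closure (F : Set H) = A) (hA : (A : Set H).Infinite) :
    ∃ u, ∃ a ∈ A, 0 < tl (S u) a := by
  by_contra hne
  push Not at hne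
  obtain ⟨y, hy⟩ := f4_fix L A (fun u =>
    fg_fix (L.ta u) A hfg (fun a ha => Nat.le_zero.1 (hne u a ha)))
  exact hA ((L.prop y).subset fun a ha => hy a ha)

theorem k_ell (L : HLat H Γ S co N) {x : Pt} {J : Set ι} {a : H} (ha : a ∈ stJ H co x J) {u : ι}
    (hu : u ∉ J) : tl (S u) a = 0 :=
  (tl_eq_zero (L.ta u) a).2 ⟨co x u, ha u hu⟩

theorem k_fo (L : HLat H Γ S co N) {x : Pt} {v : ι} {a : H} (ha : a ∈ stJ H co x {v})
    (h : tl (S v) a = 0) : IsOfFinOrder a := by
  have key : ∀ u, ∃ w : V u, a • w = w := by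
    intro u
    by_cases hu : u = v
    · subst hu
      exact (tl_eq_zero (L.ta u) a).1 h
    · exact ⟨co x u, ha u hu⟩
  obtain ⟨y, hy⟩ := f4_fix L (Subgroup.zpowers a) (fun u => by
    obtain ⟨w, hw⟩ := key u
    refine ⟨w, fun b hb => ?_⟩
    have hle : Subgroup.zpowers a ≤ MulAction.stabilizer H w :=
      Subgroup.zpowers_le.2 (MulAction.mem_stabilizer_iff.2 hw)
    exact MulAction.mem_stabilizer_iff.1 (hle hb))
  rw [← finite_zpowers]
  exact (L.prop y).subset fun b hb => hy b hb

theorem hyp_io (L : HLat H Γ S co N) {u : ι} {a : H} (h : 0 < tl (S u) a) : ¬ IsOfFinOrder a := by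
  intro ha
  have := A07_one (L.ta u) ha
  omega

theorem k_hyp (L : HLat H Γ S co N) {x : Pt} {v : ι} (h : Oc Γ N x v) :
    ∃ a ∈ stJ H co x {v}, 0 < tl (S v) a := by
  classical
  have hinf : ((stJ H co x {v} : Subgroup H) : Set H).Infinite := by
    intro hfin
    obtain ⟨F, hF⟩ := stJ_fin L x {v}
    refine L.ms.inf x v h ?_
    refine ((hfin.prod F.finite_toSet).image fun q : H × Pt => q.1⁻¹ • q.2).subset ?_
    intro y hy
    obtain ⟨k, hk, hky⟩ := hF y hy
    exact ⟨(k, k • y), ⟨hk, hky⟩, inv_smul_smul k y⟩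
  obtain ⟨u, a, ha, hp⟩ := inf_hyp L _ (stJ_fg L x {v}) hinf
  by_cases hu : u = v
  · subst hu
    exact ⟨a, ha, hp⟩
  · have := k_ell L ha (u := u) hu
    omega

end

end VTB
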