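import Pool.Agent.Lib.MP_32d917_al_vt.A07

/-!
# A08: elements fixing an edge; finite indices

`s3`: let `a` fix the edge `p q` of `S u`; by `edge_step` there is a step `x x'` over it; `a • x`, `a • x'` is a step over the same edge, so `Ag co (lk Γ u) x (a • x)` (`strip_ag`). If `0 < tl (S w) a` then `co (a • x) w = a • co x w ≠ co x w`, so `w ∈ lk u`.
`s_prime`: let `w ∉ J ∪ J'` with `co y w ≠ co x w`; as `w` is not adjacent to some `u ∈ J`; take `a` for this `u`: it fixes `co x w` and `co y w`, so an edge on the segment between them (the first edge: unique geodesic in the tree); `s3`: `Γ.Adj u w`.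
`lf_step`: `x y` a step of label `k`, all `u ∈ J` adjacent to `k`, `g ∈ stJ x J`. For every `n` the step `g^n x, g^n y` over the edge `(co x k, g^n co y k)` (note `g^n co x k = co x k`, `k ∉ J`) can be pushed along `Ag co J (g^n x) x` (`J ⊆ lk k`, `push`) to a step `x z_n` with
`co z_n k = g^n co y k`. Finitely many such steps (`loc`): `g^n co y k = g^m co y k` for some `n < m`, so `g^(m-n)` fixes `co y k`, and the other coordinates of `y` outside `J` are those of `x`. `lf_path`: along `ag_geod` (for a product of exponents: a power of a power). Then `k_reg`, `m_reg`: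
`st_split` and `stJ_congr`. `lf_k`, `lf_m`: for `c ∈ stJ x (st v)`: `c * g^m * c⁻¹ ∈ stJ x J` iff `g^m ∈ stJ (c⁻¹ x) J` (`stJ_conj`), and `Ag co (st v) x (c⁻¹ x)`.
-/

set_option autoImplicit false

namespace VTB

open LatIso LatN LatF RaagIso

section

variable {ι Pt : Type} [Fintype ι] {V : ι → Type} {Γ : SimpleGraph ι}
  {S : ∀ i, SimpleGraph (V i)} {co : Pt → ∀ i, V i} {N : Pt → ι → Prop}
  {H : Type} [Group H] [MulAction H Pt] [∀ i, MulAction H (V i)]

theorem s3 (L : HLat H Γ S co N) {a : H} {u w : ι} {p q : V u} (hpq : (S u).Adj p q)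
    (hp : a • p = p) (hq : a • q = q) (hw : 0 < tl (S w) a) : Γ.Adj u w := by
  obtain ⟨x, x', hx, h1, h2⟩ := edge_step L.ms.b hpq
  have hy : VSt S co u (a • x) (a • x') := (hl_step L a).2 hx
  have h3 : Ag co (lk Γ u) x (a • x) := by
    refine strip_ag L.ms.b hx hy ?_ ?_
    · rw [L.hco, h1, hp]
    · rw [L.hco, h2, hq]
  by_contra hn
  have h4 := h3 w hn
  rw [L.hco] at h4
  have h5 := (tl_eq_zero (L.ta w) a).2 ⟨_, h4⟩
  omega

/-- an element fixing two different vertices fixes an edge -/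
theorem fix_edge {W : Type} [MulAction H W] {T : SimpleGraph W} (hT : TA H T) {a : H} {p q : W}
    (hp : a • p = p) (hq : a • q = q) (hpq : p ≠ q) :
    ∃ p' q' : W, T.Adj p' q' ∧ a • p' = p' ∧ a • q' = q' := by
  obtain ⟨n, hn, hb⟩ := st_next hT.tree hpq
  refine ⟨p, n, hn, hp, ?_⟩
  have e1 : T.dist p (a • n) = T.dist p n := by
    conv_lhs => rw [← hp]
    exact ta_dist hT a _ _
  have e2 : T.dist (a • n) q = T.dist n q := by
    conv_lhs => rw [← hq]
    exact ta_dist hT a _ _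
  refine st_pt_uniq hT.tree ?_ hb e1
  show T.dist p (a • n) + T.dist (a • n) q = T.dist p q
  rw [e1, e2]
  exact hb

theorem s_prime (L : HLat H Γ S co N) {J : Set ι} {x y : Pt}
    (h : ∀ u ∈ J, ∃ a ∈ stJ H co x J ⊓ stJ H co y J, 0 < tl (S u) a) :
    Ag co (J ∪ {w | ∀ u ∈ J, Γ.Adj u w}) x y := by
  intro w hw
  by_contra hne
  have hwJ : w ∉ J := fun hh => hw (Or.inl hh)
  have hw2 : ¬ ∀ u ∈ J, Γ.Adj u w := fun hh => hw (Or.inr hh)
  push Not at hw2
  obtain ⟨u, hu, hadj⟩ := hw2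
  obtain ⟨a, ha, hta⟩ := h u hu
  have h1 := ha.1 w hwJ
  have h2 := ha.2 w hwJ
  obtain ⟨p', q', hpq, hp, hq⟩ := fix_edge (L.ta w) h1 h2 (Ne.symm hne)
  exact hadj (s3 L hpq hp hq hta).symm

/-- an element of infinite order of `K_x ∩ K_y` -/
theorem s_one (L : HLat H Γ S co N) {v : ι} {x y : Pt} {a : H} (hx : a ∈ stJ H co x {v})
    (hy : a ∈ stJ H co y {v}) (ha : ¬ IsOfFinOrder a) : Ag co (st Γ v) x y := by
  have ht : 0 < tl (S v) a := by
    rcases Nat.eq_zero_or_pos (tl (S v) a) with h | h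
    · exact absurd (k_fo L hx h) ha
    · exact h
  refine ag_mono ?_ (s_prime L (J := {v}) (x := x) (y := y) ?_)
  · intro w hw
    rcases hw with hw | hw
    · exact Or.inl hw
    · exact Or.inr (hw v rfl)
  · intro u hu
    rw [Set.mem_singleton_iff] at hu
    subst hu
    exact ⟨a, ⟨hx, hy⟩, ht⟩

theorem lf_step (L : HLat H Γ S co N) {k : ι} {x y : Pt} (h : VSt S co k x y) {J : Set ι}
    (hJ : ∀ u ∈ J, Γ.Adj k u) {g : H} (hg : g ∈ stJ H co x J) :
    ∃ m : ℕ, 0 < m ∧ g ^ m ∈ stJ H co y J := by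
  have hk : k ∉ J := fun hh => Γ.loopless.irrefl k (hJ k hh)
  have hz : ∀ n : ℕ, ∃ z, VSt S co k x z ∧ co z k = g ^ n • co y k := by
    intro n
    have h1 : Ag co J x (g ^ n • x) := (hl_mem L).1 ((stJ H co x J).pow_mem hg n)
    obtain ⟨z, hz1, hz2, -⟩ := push L.ms.b ((hl_step L (g ^ n)).2 h)
      (ag_symm (ag_mono (fun u hu => hJ u hu) h1))
    refine ⟨z, hz1, ?_⟩
    rw [hz2, L.hco]
  choose z hz1 hz2 using hz
  have hfin : Finite {w | VSt S co k x w} := (L.ms.loc x k).to_subtype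
  obtain ⟨n, m, hnm, he⟩ := Finite.exists_ne_map_eq_of_infinite
    (fun n : ℕ => (⟨z n, hz1 n⟩ : {w | VSt S co k x w}))
  have he' : z n = z m := congrArg Subtype.val he
  have key : ∀ i j : ℕ, i < j → z i = z j → ∃ m : ℕ, 0 < m ∧ g ^ m ∈ stJ H co y J := by
    intro i j hij hzz
    refine ⟨j - i, by omega, fun l hl => ?_⟩
    by_cases hlk : l = k
    · subst hlk
      have h1 : g ^ i • co y l = g ^ j • co y l := by rw [← hz2 i, ← hz2 j, hzz]
      have h2 : j = i + (j - i) := by omega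
      rw [h2, pow_add, mul_smul] at h1
      exact (smul_left_cancel _ h1).symm
    · rw [h.2 l hlk]
      exact (stJ H co x J).pow_mem hg (j - i) l hl
  rcases Nat.lt_or_gt_of_ne hnm with hlt | hlt
  · exact key n m hlt he'
  · exact key m n hlt he'.symm

theorem lf_path (L : HLat H Γ S co N) {x y : Pt} {J J' : Set ι} (h : Ag co J' x y)
    (hJ : ∀ k ∈ J', ∀ u ∈ J, Γ.Adj k u) {g : H} (hg : g ∈ stJ H co x J) :
    ∃ m : ℕ, 0 < m ∧ g ^ m ∈ stJ H co y J := by
  have key : Relation.ReflTransGen (fun a b => ∃ k ∈ J', VSt S co k a b) x y := by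
    refine Relation.ReflTransGen.mono ?_ _ _ (ag_geod L.ms.b h)
    rintro a b ⟨_, _, i, hi, hst, _⟩
    exact ⟨i, hi, hst⟩
  clear h
  induction key with
  | refl => exact ⟨1, one_pos, by rw [pow_one]; exact hg⟩
  | tail _ hab ih =>
    obtain ⟨m, hm, hm'⟩ := ih
    obtain ⟨k, hk, hst⟩ := hab
    obtain ⟨m', h1, h2⟩ := lf_step L hst (hJ k hk) hm'
    exact ⟨m * m', Nat.mul_pos hm h1, by rw [pow_mul]; exact h2⟩

theorem k_reg (L : HLat H Γ S co N) {v : ι} {x y : Pt} (h : Ag co (st Γ v) x y) :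
    PowLe (stJ H co x {v}) (stJ H co y {v}) := by
  obtain ⟨z, hz, hz'⟩ := st_split L.ms.b h
  intro a ha
  obtain ⟨m, hm, hm'⟩ := lf_path L hz (J := {v}) (fun k hk u hu => by
    rw [Set.mem_singleton_iff] at hu
    subst hu
    exact hk.symm) ha
  exact ⟨m, hm, by rw [← stJ_congr hz']; exact hm'⟩

theorem m_reg (L : HLat H Γ S co N) {v : ι} {x y : Pt} (h : Ag co (st Γ v) x y) :
    PowLe (stJ H co x (lk Γ v)) (stJ H co y (lk Γ v)) := by
  obtain ⟨z, hz, hz'⟩ := st_split L.ms.b h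
  intro a ha
  rw [stJ_congr hz] at ha
  exact lf_path L hz' (J := lk Γ v) (fun k hk u hu => by
    rw [Set.mem_singleton_iff] at hk
    subst hk
    exact hu) ha

theorem lf_k (L : HLat H Γ S co N) {v : ι} {x : Pt} {c g : H} (hc : c ∈ stJ H co x (st Γ v))
    (hg : g ∈ stJ H co x {v}) : ∃ m : ℕ, 0 < m ∧ c * g ^ m * c⁻¹ ∈ stJ H co x {v} := by
  have h1 : Ag co (st Γ v) x (c⁻¹ • x) := (hl_mem L).1 ((stJ H co x (st Γ v)).inv_mem hc)
  obtain ⟨m, hm, hm'⟩ := k_reg L h1 g hg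
  refine ⟨m, hm, ?_⟩
  have h2 := (stJ_conj L c (g ^ m) (x := c⁻¹ • x) (J := {v})).2 hm'
  rwa [smul_inv_smul] at h2

theorem lf_m (L : HLat H Γ S co N) {v : ι} {x : Pt} {c g : H} (hc : c ∈ stJ H co x (st Γ v))
    (hg : g ∈ stJ H co x (lk Γ v)) :
    ∃ m : ℕ, 0 < m ∧ c * g ^ m * c⁻¹ ∈ stJ H co x (lk Γ v) := by
  have h1 : Ag co (st Γ v) x (c⁻¹ • x) := (hl_mem L).1 ((stJ H co x (st Γ v)).inv_mem hc)
  obtain ⟨m, hm, hm'⟩ := m_reg L h1 g hg
  refine ⟨m, hm, ?_⟩
  have h2 := (stJ_conj L c (g ^ m) (x := c⁻¹ • x) (J := lk Γ v)).2 hm'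
  rwa [smul_inv_smul] at h2

end

end VTB
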