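import Pool.Agent.Lib.MP_32d917_al_vt.A05

/-!
# A09: transport along steps (simple connectedness)

`v_ttl`. Let `d x = ∑ i, (S i).dist (co x0 i) (co x i)`; a step changes `d` by exactly one. Let `R x s` be the inductive relation: `R x0 s0`, and `R y (ph x y s)` if `R x s`, `UAdj x y`, `d y = d x + 1`. By induction on `d x`: there is exactly one `s` with `R x s`, and `Q x s`.
Existence: `geod_step` towards `x0`. Uniqueness: let `z x` and `z' x` be steps with `d z = d z' = d x - 1`, labels `i`, `i'`. If `i = i'` then `co z i`, `co z' i` are both the neighbour of `co x i` towards `co x0 i`, so `z = z'`. If `i ≠ i'` let `w` be the median of `x0`, `z`, `z'`: its coordinates: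
`co w i = co z i`, `co w i' = co z' i'`, and those of `x` for the other labels (each is between those of `z` and `z'`); so `w z` is a step of label `i'`, `w z'` a step of label `i`, `d w = d x - 2`. By induction the values at `z`, `z'` are `ph w z s`, `ph w z' s` with `s` the value at `w`; `h3` gives the same value at
`x`. Let `f x` be the value. For a step `x y` with `d y = d x + 1`: `f y = ph x y (f x)`; if `d x = d y + 1`: `f x = ph y x (f y)`, so `ph x y (f x) = f y` by `h2`. `v_ind`, `v_ind_j`: `conn`, `ag_geod`.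
-/

set_option autoImplicit false

namespace VTB

open LatIso LatN LatF RaagIso

section

variable {ι Pt : Type} [Fintype ι] {V : ι → Type} {Γ : SimpleGraph ι}
  {S : ∀ i, SimpleGraph (V i)} {co : Pt → ∀ i, V i} {N : Pt → ι → Prop}

/-- the distance to the base point -/
noncomputable def A09_d (S : ∀ i, SimpleGraph (V i)) (co : Pt → ∀ i, V i) (x0 x : Pt) : ℕ :=
  ∑ i, (S i).dist (co x0 i) (co x i)

private theorem A09_step {i : ι} {x y : Pt} (x0 : Pt) (h : VSt S co i x y) :
    A09_d S co x0 y + (S i).dist (co x0 i) (co x i) =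
      A09_d S co x0 x + (S i).dist (co x0 i) (co y i) := by
  classical
  have e1 := Finset.add_sum_erase Finset.univ (fun j => (S j).dist (co x0 j) (co x j))
    (Finset.mem_univ i)
  have e2 := Finset.add_sum_erase Finset.univ (fun j => (S j).dist (co x0 j) (co y j))
    (Finset.mem_univ i)
  have e3 : ∑ j ∈ Finset.univ.erase i, (S j).dist (co x0 j) (co y j) =
      ∑ j ∈ Finset.univ.erase i, (S j).dist (co x0 j) (co x j) :=
    Finset.sum_congr rfl fun j hj => by rw [h.2 j (Finset.ne_of_mem_erase hj)]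
  unfold A09_d
  omega

private theorem A09_self (x0 : Pt) : A09_d S co x0 x0 = 0 := by
  unfold A09_d
  exact Finset.sum_eq_zero fun i _ => SimpleGraph.dist_self

/-- the values obtained along geodesics from the base point -/
inductive A09_R (S : ∀ i, SimpleGraph (V i)) (co : Pt → ∀ i, V i) {Y : Type}
    (ph : Pt → Pt → Y → Y) (x0 : Pt) (s0 : Y) : Pt → Y → Prop
  | base : A09_R S co ph x0 s0 x0 s0
  | step (x y : Pt) (s : Y) : A09_R S co ph x0 s0 x s → UAdj S co x y →
      A09_d S co x0 y = A09_d S co x0 x + 1 → A09_R S co ph x0 s0 y (ph x y s)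

private theorem A09_inv {Y : Type} {ph : Pt → Pt → Y → Y} {x0 y : Pt} {s0 s : Y}
    (h : A09_R S co ph x0 s0 y s) : (y = x0 ∧ s = s0) ∨ ∃ x t, A09_R S co ph x0 s0 x t ∧
      UAdj S co x y ∧ A09_d S co x0 y = A09_d S co x0 x + 1 ∧ s = ph x y t := by
  cases h with
  | base => exact Or.inl ⟨rfl, rfl⟩
  | step x _ t h1 h2 h3 => exact Or.inr ⟨x, t, h1, h2, h3, rfl⟩

private theorem A09_Q {Y : Type} {Q : Pt → Y → Prop} {ph : Pt → Pt → Y → Y}
    (h1 : ∀ x y s, UAdj S co x y → Q x s → Q y (ph x y s)) {x0 : Pt} {s0 : Y} (h0 : Q x0 s0)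
    {y : Pt} {s : Y} (h : A09_R S co ph x0 s0 y s) : Q y s := by
  induction h with
  | base => exact h0
  | step x y s _ h2 _ ih => exact h1 x y s h2 ih

private theorem A09_bt (M : MS1 Γ S co N) {x0 z x : Pt} {i : ι} (hz : VSt S co i z x)
    (hd : A09_d S co x0 x = A09_d S co x0 z + 1) :
    (S i).dist (co x0 i) (co x i) = (S i).dist (co x0 i) (co z i) + 1 ∧
      Bt (S i) (co x i) (co z i) (co x0 i) := by
  have e1 := A09_step x0 hz
  have e2 := st_adj (M.tree i) hz.1 (co x0 i)
  have e3 : (S i).dist (co x0 i) (co x i) = (S i).dist (co x0 i) (co z i) + 1 := by omega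
  refine ⟨e3, ?_⟩
  unfold Bt
  have e4 := st1_one hz.1.symm
  have e5 : (S i).dist (co z i) (co x0 i) = (S i).dist (co x0 i) (co z i) :=
    SimpleGraph.dist_comm
  have e6 : (S i).dist (co x i) (co x0 i) = (S i).dist (co x0 i) (co x i) :=
    SimpleGraph.dist_comm
  omega

private theorem A09_mid {W : Type} {T : SimpleGraph W} (hT : T.IsTree) {a b m : W}
    (h : Bt T a m a) (_ : b = a) : m = a := by
  unfold Bt at h
  have e1 : T.dist a a = 0 := SimpleGraph.dist_self
  exact (st1_eq hT (x := a) (y := m) (by omega)).symm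

/-- the median of `r`, `b`, `c` with `b` between `r` and `c` -/
private theorem A09_med {W : Type} {T : SimpleGraph W} (hT : T.IsTree) {r b c m : W}
    (hb : Bt T c b r) (h1 : Bt T r m b) (h2 : Bt T b m c) : m = b := by
  unfold Bt at hb h1 h2
  have e1 : T.dist c b = T.dist b c := SimpleGraph.dist_comm
  have e2 : T.dist c r = T.dist r c := SimpleGraph.dist_comm
  have e3 : T.dist b r = T.dist r b := SimpleGraph.dist_comm
  have e4 := st1_tri hT r m c
  have e5 : T.dist m b = T.dist b m := SimpleGraph.dist_comm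
  exact (st1_eq hT (x := b) (y := m) (by omega)).symm

private theorem A09_sq (M : MS1 Γ S co N) {x0 z z' x : Pt} {i j : ι} (hij : i ≠ j)
    (hz : VSt S co i z x) (hz' : VSt S co j z' x)
    (hd : A09_d S co x0 x = A09_d S co x0 z + 1)
    (hd' : A09_d S co x0 x = A09_d S co x0 z' + 1) :
    ∃ w, VSt S co j w z ∧ VSt S co i w z' ∧ A09_d S co x0 z = A09_d S co x0 w + 1 := by
  obtain ⟨w, hw⟩ := M.med x0 z z'
  obtain ⟨d1, b1⟩ := A09_bt M hz hd
  obtain ⟨d2, b2⟩ := A09_bt M hz' hd'
  have c1 : co x i = co z' i := hz'.2 i hij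
  have c2 : co x j = co z j := hz.2 j hij.symm
  have wi : co w i = co z i := by
    obtain ⟨m1, m2, _⟩ := hw i
    rw [← c1] at m2
    exact A09_med (M.tree i) b1 m1 m2
  have wj : co w j = co z' j := by
    obtain ⟨_, m2, m3⟩ := hw j
    rw [← c2] at m2
    exact A09_med (M.tree j) b2 m3 (bt_symm m2)
  have wk : ∀ k, k ≠ i → k ≠ j → co w k = co x k := by
    intro k hki hkj
    obtain ⟨_, m2, _⟩ := hw k
    rw [← hz.2 k hki, ← hz'.2 k hkj] at m2
    exact A09_mid (M.tree k) m2 rfl
  have s1 : VSt S co j w z := by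
    refine ⟨?_, fun k hk => ?_⟩
    · rw [wj, ← c2]
      exact hz'.1
    · by_cases hki : k = i
      · subst hki
        exact wi.symm
      · rw [wk k hki hk, hz.2 k hki]
  have s2 : VSt S co i w z' := by
    refine ⟨?_, fun k hk => ?_⟩
    · rw [wi, ← c1]
      exact hz.1
    · by_cases hkj : k = j
      · subst hkj
        exact wj.symm
      · rw [wk k hk hkj, hz'.2 k hkj]
  refine ⟨w, s1, s2, ?_⟩
  have e1 := A09_step x0 s1
  rw [wj, ← c2] at e1
  omega

private theorem A09_main (M : MS1 Γ S co N) {Y : Type} (Q : Pt → Y → Prop)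
    (ph : Pt → Pt → Y → Y)
    (h1 : ∀ x y s, UAdj S co x y → Q x s → Q y (ph x y s))
    (h3 : ∀ x y z w i j s, i ≠ j → VSt S co i x y → VSt S co j x z → VSt S co j y w →
      VSt S co i z w → Q x s → ph y w (ph x y s) = ph z w (ph x z s))
    (x0 : Pt) (s0 : Y) (h0 : Q x0 s0) (n : ℕ) : ∀ x, A09_d S co x0 x = n →
    (∃ s, A09_R S co ph x0 s0 x s) ∧
      ∀ s s', A09_R S co ph x0 s0 x s → A09_R S co ph x0 s0 x s' → s = s' := by
  induction n using Nat.strong_induction_on with
  | _ n ih =>
    intro x hx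
    constructor
    · by_cases hxx : x = x0
      · subst hxx
        exact ⟨s0, A09_R.base⟩
      · obtain ⟨i, z, hz, hb⟩ := geod_step M hxx
        have e1 := A09_step x0 (vst_symm hz)
        have e2 : (S i).dist (co x0 i) (co x i) = (S i).dist (co x0 i) (co z i) + 1 := by
          unfold Bt at hb
          have e3 := st1_one hz.1
          have e4 : (S i).dist (co z i) (co x0 i) = (S i).dist (co x0 i) (co z i) :=
            SimpleGraph.dist_comm
          have e5 : (S i).dist (co x i) (co x0 i) = (S i).dist (co x0 i) (co x i) :=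
            SimpleGraph.dist_comm
          omega
        have e6 : A09_d S co x0 x = A09_d S co x0 z + 1 := by omega
        obtain ⟨t, ht⟩ := (ih (A09_d S co x0 z) (by omega) z rfl).1
        exact ⟨_, A09_R.step z x t ht ⟨i, vst_symm hz⟩ e6⟩
    · intro s s' hs hs'
      rcases A09_inv hs with ⟨hx0, rfl⟩ | ⟨z, t, hzt, ⟨i, hzi⟩, hzd, rfl⟩
      · rcases A09_inv hs' with ⟨_, rfl⟩ | ⟨z', _, _, _, hzd', _⟩
        · rfl
        · rw [hx0, A09_self] at hzd'
          omega
      · rcases A09_inv hs' with ⟨hx0, _⟩ | ⟨z', t', hzt', ⟨j, hzj⟩, hzd', rfl⟩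
        · rw [hx0, A09_self] at hzd
          omega
        · by_cases hij : i = j
          · subst hij
            have e1 := (A09_bt M hzi hzd).2
            have e2 := (A09_bt M hzj hzd').2
            have e3 : co z i = co z' i := st_uniq (M.tree i) hzi.1.symm hzj.1.symm e1 e2
            have e4 : z = z' := vst_eq M (vst_symm hzi) (vst_symm hzj) e3
            subst e4
            rw [(ih (A09_d S co x0 z) (by omega) z rfl).2 t t' hzt hzt']
          · obtain ⟨w, hw1, hw2, hwd⟩ := A09_sq M hij hzi hzj hzd hzd'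
            obtain ⟨u, hu⟩ := (ih (A09_d S co x0 w) (by omega) w rfl).1
            have k1 := (ih (A09_d S co x0 z) (by omega) z rfl).2 t _ hzt
              (A09_R.step w z u hu ⟨j, hw1⟩ hwd)
            have k2 := (ih (A09_d S co x0 z') (by omega) z' rfl).2 t' _ hzt'
              (A09_R.step w z' u hu ⟨i, hw2⟩ (by omega))
            rw [k1, k2]
            exact h3 w z z' x j i u (Ne.symm hij) hw1 hw2 hzi hzj (A09_Q h1 h0 hu)

theorem v_ttl (M : MS1 Γ S co N) {Y : Type} (Q : Pt → Y → Prop) (ph : Pt → Pt → Y → Y)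
    (h1 : ∀ x y s, UAdj S co x y → Q x s → Q y (ph x y s))
    (h2 : ∀ x y s, UAdj S co x y → Q x s → ph y x (ph x y s) = s)
    (h3 : ∀ x y z w i j s, i ≠ j → VSt S co i x y → VSt S co j x z → VSt S co j y w →
      VSt S co i z w → Q x s → ph y w (ph x y s) = ph z w (ph x z s))
    (x0 : Pt) (s0 : Y) (h0 : Q x0 s0) :
    ∃ f : Pt → Y, f x0 = s0 ∧ (∀ x, Q x (f x)) ∧ ∀ x y, UAdj S co x y → f y = ph x y (f x) := by
  have key := fun x => A09_main M Q ph h1 h3 x0 s0 h0 _ x rfl
  choose f hf using fun x => (key x).1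
  have huniq : ∀ x s, A09_R S co ph x0 s0 x s → f x = s := fun x s hs => (key x).2 _ _ (hf x) hs
  refine ⟨f, huniq x0 s0 A09_R.base, fun x => A09_Q h1 h0 (hf x), ?_⟩
  rintro x y ⟨i, hi⟩
  have e1 := A09_step x0 hi
  rcases st_adj (M.tree i) hi.1 (co x0 i) with e2 | e2
  · exact huniq y _ (A09_R.step x y (f x) (hf x) ⟨i, hi⟩ (by omega))
  · have e3 := huniq x _ (A09_R.step y x (f y) (hf y) ⟨i, vst_symm hi⟩ (by omega))
    rw [e3]
    exact (h2 y x (f y) ⟨i, vst_symm hi⟩ (A09_Q h1 h0 (hf y))).symm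

theorem v_ind (M : MS1 Γ S co N) (Q : Pt → Prop) (x0 : Pt) (h0 : Q x0)
    (hs : ∀ x y, UAdj S co x y → Q x → Q y) (x : Pt) : Q x := by
  have h := M.conn x0 x
  induction h with
  | refl => exact h0
  | tail _ hab ih => exact hs _ _ hab ih

theorem v_ind_j (M : MS1 Γ S co N) (j : ι) (Q : Pt → Prop) (x0 : Pt) (h0 : Q x0)
    (hs : ∀ x y i, i ≠ j → VSt S co i x y → Q x → Q y) (x : Pt) (hx : co x j = co x0 j) :
    Q x := by
  have h : Ag co {k | k ≠ j} x0 x := by
    intro k hk
    have hkj : k = j := by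
      by_contra hne
      exact hk hne
    rw [hkj]
    exact hx
  have key : Relation.ReflTransGen (fun a b => ∃ i, i ≠ j ∧ VSt S co i a b) x0 x := by
    refine Relation.ReflTransGen.mono ?_ _ _ (ag_geod M h)
    rintro a b ⟨_, _, i, hi, hst, _⟩
    exact ⟨i, hi, hst⟩
  clear h hx
  induction key with
  | refl => exact h0
  | tail _ hab ih =>
    obtain ⟨i, hi, hst⟩ := hab
    exact hs _ _ i hi hst ih

end

end VTB
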