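import Pool.Agent.Lib.MP_32d917_al_vt.T01
import Pool.Agent.Lib.MP_32d917_al.F.PWHITE
import Pool.Agent.Lib.MP_32d917_al.FIX
import Pool.Agent.Lib.MP_32d917_al.N.NCINV

/-!
# T02: two commensurated subgroups which are both not elliptic (3.4)

`L` acts on the locally finite tree `P` and on `U`; `K` acts properly with finitely many orbits on `P` and is commensurated by `L` (`lf`). `h0 ∈ K` extremal for `U` against `P` (`pwhite`). `p1 ∈ CC SP h0`, `M1` the stabilizer of `p1`: as `P` is locally finite the orbit of `p1`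
under the stabilizer of `p` is finite (`ncinv_orbit`), so some power of the given element of the stabilizer of `p`, hyperbolic on `U`, is in `M1`. `A := CC SU h0`.
(i) for `c ∈ M1`: `A` meets `c A`: `y = c * h0^m * c⁻¹ ∈ K` for some `m ≥ 1` (`lf`); `p1 = c p1` is in `CC SP (h0^m)` and in `CC SP y`, so `tl SP (h0^m * y) ≤ 2 m tl SP h0`; extremality: `tl SU (h0^m * y) ≤ 2 m tl SU h0 = tl SU (h0^m) + tl SU y`; `tl_n1`: `CC SU (h0^m) = A` meets `CC SU y = c A`.
(ii) `k ∈ M1` hyperbolic on `U`: `A ∩ CC SU k` is infinite (`lemF` with `k`, `C = A`; otherwise some `k^n A` is disjoint from `A`, against (i)). (iii) `k ∈ M1` hyperbolic on `U`. Suppose `Gen ⊤ SU`. By `t31` there is `c` hyperbolic with `CC c ∩ CC k` finite; `lemF` (`k := c`, `C = CC k`): `z = c^n` with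
`z CC k ∩ CC k = ∅`. Some power `k^m`, `m ≥ 1`, fixes `z⁻¹ p1` (finite orbit), so `k' = z * k^m * z⁻¹ ∈ M1`, with axis `z CC k`. `lemF` (`k`, `C = CC k'`; the intersection is empty): `k'' = k^l * k' * k^-l` with axis disjoint from `CC k'`; the axis of `k''` is `k^l CC k'`, it does not meet
`CC k` (as `k^l CC k = CC k`). By (ii) all three axes of `k, k', k''` meet `A = CC h0` in infinite sets: `three_lines` contradiction. Model: the proof of `nthmA` in N/NTHMA.lean.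
-/

set_option autoImplicit false

namespace VTB

open LatIso LatN LatF

/-- elements fixing a vertex have powers fixing another given vertex -/
private theorem T02_pow {L P : Type} [Group L] [MulAction L P] {SP : SimpleGraph P}
    (hP : TA L SP) (loc : ∀ v, (SP.neighborSet v).Finite) (k : L) (v v' : P) (hk : k • v = v) :
    ∃ m : ℕ, 0 < m ∧ k ^ m • v' = v' := by
  have h1 : (Set.range fun n : ℕ => k ^ n • v').Finite := by
    refine (ncinv_orbit hP loc v v').subset ?_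
    rintro _ ⟨n, rfl⟩
    have h2 : k ^ n ∈ MulAction.stabilizer L v :=
      Subgroup.pow_mem _ (by rw [MulAction.mem_stabilizer_iff]; exact hk) n
    exact ⟨⟨k ^ n, h2⟩, rfl⟩
  have h2 : ¬ Function.Injective fun n : ℕ => k ^ n • v' := fun h3 =>
    Set.infinite_range_of_injective h3 h1
  rw [Function.Injective] at h2
  push Not at h2
  obtain ⟨i, j, h3, h4⟩ := h2
  wlog hij : i < j generalizing i j
  · exact this j i h3.symm (Ne.symm h4) (lt_of_le_of_ne (not_lt.1 hij) (Ne.symm h4))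
  refine ⟨j - i, Nat.sub_pos_of_lt hij, ?_⟩
  have h5 : k ^ j = k ^ i * k ^ (j - i) := by rw [← pow_add, Nat.add_sub_cancel' hij.le]
  rw [h5, mul_smul] at h3
  exact (MulAction.injective (k ^ i) h3).symm

private theorem T02_conj {L W : Type} [Group L] [MulAction L W] {U : SimpleGraph W}
    (hU : TA L U) (x g : L) (y : W) : y ∈ CC U (x * g * x⁻¹) ↔ x⁻¹ • y ∈ CC U g := by
  have := cc_conj hU x g (x⁻¹ • y)
  rwa [smul_inv_smul] at this

theorem t34 {L P W : Type} [Group L] [MulAction L P] [MulAction L W] {SP : SimpleGraph P}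
    {U : SimpleGraph W} (hP : TA L SP) (hU : TA L U) (loc : ∀ v, (SP.neighborSet v).Finite)
    (K : Subgroup L) (prop : ∀ v : P, {k : L | k ∈ K ∧ k • v = v}.Finite)
    (fin : ∃ F : Finset P, ∀ v : P, ∃ k ∈ K, k • v ∈ F)
    (lf : ∀ c : L, ∀ g ∈ K, ∃ m : ℕ, 0 < m ∧ c * g ^ m * c⁻¹ ∈ K)
    (hK : ∃ k ∈ K, 0 < tl U k) (p : P) (hM : ∃ k : L, k • p = p ∧ 0 < tl U k) :
    ¬ Gen (⊤ : Subgroup L) U := by
  intro hGen
  obtain ⟨h1, h1K, h1p⟩ := hK
  obtain ⟨h0, h0K, h0U, h0S, hstar⟩ := pwhite hP hU K prop fin loc h1 h1K h1p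
  obtain ⟨p1, hp1⟩ := cc_nonempty hP h0
  obtain ⟨k1, hk1, hk1p⟩ := hM
  obtain ⟨m1, hm1, hk⟩ := T02_pow hP loc k1 p p1 hk1
  have hkp : 0 < tl U (k1 ^ m1) := by
    rw [tl_pow hU]
    exact Nat.mul_pos hm1 hk1p
  generalize k1 ^ m1 = k at hk hkp
  -- (i)
  have hi : ∀ c : L, c • p1 = p1 → ∃ y ∈ CC U h0, c • y ∈ CC U h0 := by
    intro c hcv
    obtain ⟨m, hm, e1⟩ := lf c h0 h0K
    have e2 : p1 ∈ CC SP (h0 ^ m) := by rw [cc_pow hP h0 h0S m hm]; exact hp1
    have e3 : p1 ∈ CC SP (c * h0 ^ m * c⁻¹) := by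
      have := (cc_conj hP c (h0 ^ m) p1).mpr e2
      rwa [hcv] at this
    have e4 : tl SP (h0 ^ m * (c * h0 ^ m * c⁻¹)) ≤
        tl SP (h0 ^ m) + tl SP (c * h0 ^ m * c⁻¹) := by
      refine (tl_le hP _ p1).trans ?_
      refine (hP.tree.connected.dist_triangle (v := h0 ^ m • p1)).trans ?_
      rw [mul_smul, ta_dist hP]
      exact Nat.add_le_add e2.le e3.le
    rw [tl_conj hP, tl_pow hP] at e4
    have e5 := hstar (h0 ^ m * (c * h0 ^ m * c⁻¹)) (mul_mem (pow_mem h0K m) e1)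
    have e6 : tl U (h0 ^ m * (c * h0 ^ m * c⁻¹)) ≤ tl U (h0 ^ m) + tl U (c * h0 ^ m * c⁻¹) := by
      rw [tl_conj hU, tl_pow hU]
      refine Nat.le_of_mul_le_mul_right ?_ h0S
      refine e5.trans ((Nat.mul_le_mul_left _ e4).trans (le_of_eq ?_))
      ring
    obtain ⟨z, hx1, hx2⟩ := tl_n1 hU _ _ e6
    rw [cc_pow hU h0 h0U m hm] at hx1
    rw [T02_conj hU, cc_pow hU h0 h0U m hm] at hx2
    exact ⟨c⁻¹ • z, hx2, by rw [smul_inv_smul]; exact hx1⟩
  have hpw : ∀ (k : L) (v : P) (n : ℕ), k • v = v → k ^ n • v = v := fun k v n hk =>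
    pow_mem (show k ∈ MulAction.stabilizer L v from hk) n
  -- (ii)
  have hii : ∀ k : L, k • p1 = p1 → 0 < tl U k → (CC U h0 ∩ CC U k).Infinite := by
    intro k hk hkp hfin
    obtain ⟨n, hn, hno⟩ := lemF hU k hkp (CC U h0) (cc_cvx hU h0) (cc_nonempty hU h0) hfin
    obtain ⟨y, hy1, hy2⟩ := hi (k ^ n) (hpw k p1 n hk)
    exact hno y hy1 hy2
  -- (iii)
  obtain ⟨c, -, hc0, hcf⟩ := t31 hU hGen hkp
  obtain ⟨q, -, hq⟩ := lemF hU c hc0 (CC U k) (cc_cvx hU k) (cc_nonempty hU k)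
    (by rw [Set.inter_comm]; exact hcf)
  generalize c ^ q = z at hq
  obtain ⟨m, hm, hmz⟩ := T02_pow hP loc k p1 (z⁻¹ • p1) hk
  have hk' : (z * k ^ m * z⁻¹) • p1 = p1 := by
    rw [mul_smul, mul_smul, hmz, smul_inv_smul]
  have k'p : 0 < tl U (z * k ^ m * z⁻¹) := by
    rw [tl_conj hU, tl_pow hU]; exact Nat.mul_pos hm hkp
  have hdis : CC U (z * k ^ m * z⁻¹) ∩ CC U k = ∅ := by
    rw [Set.eq_empty_iff_forall_notMem]
    rintro y ⟨hy1, hy2⟩
    rw [T02_conj hU, cc_pow hU k hkp m hm] at hy1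
    refine hq _ hy1 ?_
    rw [smul_inv_smul]
    exact hy2
  generalize z * k ^ m * z⁻¹ = k' at hk' k'p hdis
  obtain ⟨n, hn, hno⟩ := lemF hU k hkp (CC U k') (cc_cvx hU k') (cc_nonempty hU k')
    (by rw [hdis]; exact Set.finite_empty)
  have k''v : (k ^ n * k' * (k ^ n)⁻¹) • p1 = p1 := by
    have e := hpw k p1 n hk
    rw [mul_smul, mul_smul, inv_smul_eq_iff.2 e.symm, hk', e]
  have k''p : 0 < tl U (k ^ n * k' * (k ^ n)⁻¹) := by rw [tl_conj hU]; exact k'p
  have hB : ∀ y, y ∈ CC U k → (k ^ n)⁻¹ • y ∈ CC U k := by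
    intro y hy
    have h1 : k ^ n * k * (k ^ n)⁻¹ = k := by
      rw [mul_inv_eq_iff_eq_mul, ← pow_succ, ← pow_succ']
    have h2 := (T02_conj hU (k ^ n) k y)
    rw [h1] at h2
    exact h2.mp hy
  rcases three_lines hU h0 h0U (CC U k) (CC U k') (CC U (k ^ n * k' * (k ^ n)⁻¹))
    (cc_cvx hU _) (cc_cvx hU _) (cc_cvx hU _) (hii k hk hkp) (hii k' hk' k'p)
    (hii _ k''v k''p) with h | h | h
  · rw [Set.inter_comm, hdis] at h
    exact h Set.finite_empty
  · obtain ⟨y, hy1, hy2⟩ := h.nonempty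
    rw [T02_conj hU] at hy2
    refine hno _ hy2 ?_
    rw [smul_inv_smul]; exact hy1
  · obtain ⟨y, hy1, hy2⟩ := h.nonempty
    rw [T02_conj hU] at hy2
    have h5 : (k ^ n)⁻¹ • y ∈ CC U k' ∩ CC U k := ⟨hy2, hB y hy1⟩
    rw [hdis] at h5
    exact h5

end VTB
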