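import Pool.Agent.Lib.MP_32d917_al_vt.T01
import Pool.Agent.Lib.MP_32d917_al.LEME

/-!
# T03: groups without independent axes (3.5)

`A` a subgroup of `H` with not `Gen A U`, `k ∈ A` hyperbolic, `B = CC U k`, `b : ℤ → W` its line (`tl_line`). All translates `x B = CC U (x * k * x⁻¹)`, `x ∈ A`, meet `B` in infinite (convex) sets, so `x B ∩ B` contains a positive or a negative ray of `b` (`leme_ray`).
Claim: either for all `x ∈ A` a positive ray or for all `x ∈ A` a negative ray. Otherwise there are `x` with `x B ∩ B = {b i | j₁ ≤ i}` exactly (contains a positive but no negative ray, convex) and `y` with `y B ∩ B = {b i | i ≤ j₂}`. Replacing `x` by `k^t * x` moves `j₁` to `j₁ + t * tl U k`: we may assume `j₂ < j₁`.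
Then `x B ∩ y B` is empty: let `w` be in it; its projection to `B` (`lemf_proj`: nearest point `b m`): the segment from `w` to `b (j₁ + 1 + |m|)` is in `x B` and passes through the nearest point `b m`, so `b m ∈ x B`, `m ≥ j₁`; similarly `m ≤ j₂`; contradiction.
But `x B ∩ y B = x (B ∩ x⁻¹ y B)` is infinite. By reversing `b` (replace `b` by `j ↦ b (-j)`) we may assume: positive rays.
For `x ∈ A`: for large `j`, `b j ∈ x B`, so `x⁻¹ • b j = b (φ j)` with `φ` an isometry of a ray: `φ j = j + c` or `φ j = c - j` for all large `j`. If the second case occurs for some `x` then `x⁻¹ B` contains a negative ray and a positive one, so `x⁻¹ B = B`; then for every `y ∈ A`: `y B` contains a positive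
ray of `B`, `x⁻¹ y B` contains `x⁻¹` of it, a negative ray of `B`, and a positive one, so `x⁻¹ y B = B`, `y B = B`. In this case let `Lp` be the subgroup of all `g ∈ A` with `g • b j = b (j + c)` for all `j`, some `c` (every `g ∈ A` acts on the line by a translation or a reflection, squares are translations, `Lp` is
normalised by `A`). Otherwise `Lp = A`. In both cases `c : H → ℤ` on `Lp` is determined by `g • b j = b (j + c g)` for large `j` (`b` is injective), `c g = 0` for `g ∉ Lp`.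
-/

set_option autoImplicit false

namespace VTB

open LatIso LatN LatF

/-- the end of the line `b` is fixed by `Lp`, with the translation numbers `c`; `Lp` has index at
most two in `A` -/
structure EndFix {H W : Type} [Group H] [MulAction H W] (U : SimpleGraph W) (A : Subgroup H)
    (b : ℤ → W) (Lp : Subgroup H) (c : H → ℤ) : Prop where
  le : Lp ≤ A
  line : ∀ i j, U.dist (b i) (b j) = (i - j).natAbs
  norm : ∀ g ∈ A, ∀ x ∈ Lp, g * x * g⁻¹ ∈ Lp
  sq : ∀ g ∈ A, g ^ 2 ∈ Lp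
  act : ∀ g ∈ Lp, ∃ j0 : ℤ, ∀ j, j0 ≤ j → g • b j = b (j + c g)
  mul : ∀ g ∈ Lp, ∀ h ∈ Lp, c (g * h) = c g + c h

private theorem T03_mem {H W : Type} [Group H] [MulAction H W] {U : SimpleGraph W} (hU : TA H U)
    (k x : H) (y : W) : y ∈ CC U (x * k * x⁻¹) ↔ x⁻¹ • y ∈ CC U k := by
  rw [← cc_conj hU x k, smul_inv_smul]

private theorem T03_ray {H W : Type} [Group H] [MulAction H W] {U : SimpleGraph W} (hU : TA H U)
    {A : Subgroup H} (hno : ¬ Gen A U) (k : H) (hkA : k ∈ A) (hk : 0 < tl U k) :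
    ∃ b : ℤ → W, (∀ i j, U.dist (b i) (b j) = (i - j).natAbs) ∧
      (∀ x, x ∈ CC U k ↔ ∃ i, b i = x) ∧
      ∀ x ∈ A, ∃ i0 : ℤ, ∀ i, i0 ≤ i → b i ∈ CC U (x * k * x⁻¹) := by
  obtain ⟨b, hb1, hb2, hb3⟩ := tl_line hU k hk
  have hmem := T03_mem hU k
  have hinf : ∀ x ∈ A, (CC U (x * k * x⁻¹) ∩ CC U k).Infinite := by
    intro x hx hf
    exact hno ⟨x * k * x⁻¹, A.mul_mem (A.mul_mem hx hkA) (A.inv_mem hx), k, hkA,
      by rw [tl_conj hU]; exact hk, hk, hf⟩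
  have hPM : ∀ x ∈ A, (∃ i0 : ℤ, ∀ i, i0 ≤ i → b i ∈ CC U (x * k * x⁻¹)) ∨
      (∃ i0 : ℤ, ∀ i, i ≤ i0 → b i ∈ CC U (x * k * x⁻¹)) := fun x hx =>
    leme_ray hb1 (fun y => hb3 y) (cc_cvx hU _) (hinf x hx)
  by_cases hP : ∀ x ∈ A, ∃ i0 : ℤ, ∀ i, i0 ≤ i → b i ∈ CC U (x * k * x⁻¹)
  · exact ⟨b, hb1, hb3, hP⟩
  by_cases hM : ∀ x ∈ A, ∃ i0 : ℤ, ∀ i, i ≤ i0 → b i ∈ CC U (x * k * x⁻¹)
  · refine ⟨fun i => b (-i), fun i j => ?_, fun x => ?_, fun x hx => ?_⟩
    · rw [hb1]; omega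
    · rw [hb3]
      constructor
      · rintro ⟨i, hi⟩; exact ⟨-i, by simpa using hi⟩
      · rintro ⟨i, hi⟩; exact ⟨-i, hi⟩
    · obtain ⟨i0, hi0⟩ := hM x hx
      exact ⟨-i0, fun i hi => hi0 _ (by omega)⟩
  · exfalso
    push Not at hP hM
    obtain ⟨x, hxA, hx⟩ := hP
    obtain ⟨y, hyA, hy⟩ := hM
    -- x contains a negative ray only, y a positive ray only
    obtain ⟨i1, hi1⟩ : ∃ i1 : ℤ, ∀ i, i ≤ i1 → b i ∈ CC U (x * k * x⁻¹) := by
      rcases hPM x hxA with ⟨i0, h0⟩ | h'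
      · obtain ⟨i, hi, hn⟩ := hx i0
        exact absurd (h0 i hi) hn
      · exact h'
    obtain ⟨j1, hj1⟩ : ∃ i1 : ℤ, ∀ i, i1 ≤ i → b i ∈ CC U (y * k * y⁻¹) := by
      rcases hPM y hyA with h' | ⟨i0, h0⟩
      · exact h'
      · obtain ⟨i, hi, hn⟩ := hy i0
        exact absurd (h0 i hi) hn
    obtain ⟨u, hu1, hu2⟩ := hx i1
    obtain ⟨l, hl1, hl2⟩ := hy j1
    have hu : ∀ j, b j ∈ CC U (x * k * x⁻¹) → j < u := by
      intro j hj
      by_contra hlt
      push Not at hlt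
      exact hu2 (leme_cvx hb1 (cc_cvx hU _) (hi1 i1 le_rfl) hj hu1 hlt)
    have hl : ∀ j, b j ∈ CC U (y * k * y⁻¹) → l < j := by
      intro j hj
      by_contra hlt
      push Not at hlt
      exact hl2 (leme_cvx hb1 (cc_cvx hU _) hj (hj1 j1 le_rfl) hlt hl1)
    -- translate y
    set n : ℕ := (u - l).natAbs with hn
    have hkn : ∀ (n : ℕ) (i : ℤ), (k ^ n) • b i = b (i + n * tl U k) := by
      intro n i
      induction n with
      | zero => simp
      | succ n ih =>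
        rw [pow_succ', mul_smul, ih, hb2]; congr 1; push_cast; ring
    have hyn : ∀ j : ℤ, b j ∈ CC U ((k ^ n * y) * k * (k ^ n * y)⁻¹) → u ≤ j := by
      intro j hj
      rw [hmem, mul_inv_rev, mul_smul] at hj
      have e : (k ^ n)⁻¹ • b j = b (j - n * tl U k) := by
        rw [inv_smul_eq_iff, hkn]; congr 1; ring
      rw [e, ← hmem] at hj
      have h1 := hl _ hj
      have : (1 : ℤ) ≤ tl U k := by exact_mod_cast hk
      have h2 : (u - l) ≤ (n : ℤ) := by rw [hn]; omega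
      nlinarith
    -- a point of both translates
    obtain ⟨w, hw1, hw2⟩ := (hinf (x⁻¹ * (k ^ n * y))
      (A.mul_mem (A.inv_mem hxA) (A.mul_mem (A.pow_mem hkA n) hyA))).nonempty
    set z := x • w with hz
    have hz1 : z ∈ CC U (x * k * x⁻¹) := by rw [hmem, hz, inv_smul_smul]; exact hw2
    have hz2 : z ∈ CC U ((k ^ n * y) * k * (k ^ n * y)⁻¹) := by
      rw [hmem] at hw1 ⊢
      rw [mul_inv_rev, inv_inv, mul_smul] at hw1
      exact hw1
    have hyy : b (j1 + n * tl U k) ∈ CC U ((k ^ n * y) * k * (k ^ n * y)⁻¹) := by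
      rw [hmem, mul_inv_rev, mul_smul]
      have e : (k ^ n)⁻¹ • b (j1 + n * tl U k) = b j1 := by
        rw [inv_smul_eq_iff, hkn]
      rw [e, ← hmem]
      exact hj1 j1 le_rfl
    obtain ⟨q, q1, q2, q3⟩ := st_median hU.tree z (b i1) (b (j1 + n * tl U k))
    have hqx : q ∈ CC U (x * k * x⁻¹) := cc_cvx hU _ _ hz1 _ (hi1 i1 le_rfl) _ q1
    have hqy : q ∈ CC U ((k ^ n * y) * k * (k ^ n * y)⁻¹) := cc_cvx hU _ _ hz2 _ hyy _ q3
    have hqk : q ∈ CC U k := cc_cvx hU _ _ ((hb3 _).mpr ⟨_, rfl⟩) _ ((hb3 _).mpr ⟨_, rfl⟩) _ q2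
    obtain ⟨m, rfl⟩ := (hb3 q).mp hqk
    have a1 := hu m hqx
    have a2 := hyn m hqy
    omega

private theorem T03_type {H W : Type} [Group H] [MulAction H W] {U : SimpleGraph W} (hU : TA H U)
    {A : Subgroup H} (k : H) {b : ℤ → W} (hb1 : ∀ i j, U.dist (b i) (b j) = (i - j).natAbs)
    (hb3 : ∀ x, x ∈ CC U k ↔ ∃ i, b i = x)
    (hP : ∀ x ∈ A, ∃ i0 : ℤ, ∀ i, i0 ≤ i → b i ∈ CC U (x * k * x⁻¹)) {x : H} (hx : x ∈ A) :
    (∃ i0 c : ℤ, ∀ i, i0 ≤ i → x • b i = b (i + c)) ∨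
      (∃ i0 c : ℤ, ∀ i, i0 ≤ i → x • b i = b (c - i)) := by
  obtain ⟨i0, hi0⟩ := hP x⁻¹ (A.inv_mem hx)
  have hs : ∀ i, i0 ≤ i → ∃ s, b s = x • b i := by
    intro i hi
    have := (T03_mem hU k x⁻¹ _).mp (hi0 i hi)
    rw [inv_inv] at this
    exact (hb3 _).mp this
  obtain ⟨a, ha⟩ := hs i0 le_rfl
  obtain ⟨a', ha'⟩ := hs (i0 + 1) (by omega)
  have haa : (a - a').natAbs = 1 := by
    rw [← hb1, ha, ha', ta_dist hU, hb1]; omega
  have hgen : ∀ i, i0 + 1 ≤ i → ∃ s, b s = x • b i ∧ (a - s).natAbs = (i0 - i).natAbs ∧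
      (a' - s).natAbs = (i0 + 1 - i).natAbs := by
    intro i hi
    obtain ⟨s, hs'⟩ := hs i (by omega)
    refine ⟨s, hs', ?_, ?_⟩
    · rw [← hb1, ha, hs', ta_dist hU, hb1]
    · rw [← hb1, ha', hs', ta_dist hU, hb1]
  rcases (show a' = a + 1 ∨ a' = a - 1 by omega) with h' | h'
  · refine Or.inl ⟨i0, a - i0, fun i hi => ?_⟩
    rcases hi.eq_or_lt with rfl | hi
    · rw [← ha]; congr 1; omega
    · obtain ⟨s, e1, e2, e3⟩ := hgen i (by omega)
      rw [← e1]; congr 1; omega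
  · refine Or.inr ⟨i0, a + i0, fun i hi => ?_⟩
    rcases hi.eq_or_lt with rfl | hi
    · rw [← ha]; congr 1; omega
    · obtain ⟨s, e1, e2, e3⟩ := hgen i (by omega)
      rw [← e1]; congr 1; omega

/-- if some element of `A` is a reflection, the axis is invariant -/
private theorem T03_inv {H W : Type} [Group H] [MulAction H W] {U : SimpleGraph W} (hU : TA H U)
    {A : Subgroup H} (k : H) {b : ℤ → W} (hb1 : ∀ i j, U.dist (b i) (b j) = (i - j).natAbs)
    (hb3 : ∀ x, x ∈ CC U k ↔ ∃ i, b i = x)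
    (hP : ∀ x ∈ A, ∃ i0 : ℤ, ∀ i, i0 ≤ i → b i ∈ CC U (x * k * x⁻¹))
    (hA : ∃ y ∈ A, ∃ i0 c : ℤ, ∀ i, i0 ≤ i → y • b i = b (c - i)) {z : H} (hz : z ∈ A) (m : ℤ) :
    ∃ s, b s = z • b m := by
  have hmem := T03_mem hU k
  have key : ∀ z ∈ A, ∀ m : ℤ, b m ∈ CC U (z * k * z⁻¹) := by
    obtain ⟨y, hyA, i0, c, hy⟩ := hA
    intro z hz m
    have hM : ∃ j0 : ℤ, ∀ j, j ≤ j0 → b j ∈ CC U (z * k * z⁻¹) := by
      obtain ⟨i1, hi1⟩ := hP (y⁻¹ * z) (A.mul_mem (A.inv_mem hyA) hz)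
      refine ⟨c - max i0 i1, fun j hj => ?_⟩
      have h1 := (hmem _ _).mp (hi1 (c - j) (by omega))
      have h2 : (y⁻¹ * z)⁻¹ • b (c - j) = z⁻¹ • b j := by
        rw [mul_inv_rev, inv_inv, mul_smul, hy (c - j) (by omega)]
        congr 2; omega
      rw [h2] at h1
      exact (hmem z (b j)).mpr h1
    obtain ⟨j0, hj0⟩ := hM
    obtain ⟨i1, hi1⟩ := hP z hz
    exact leme_cvx hb1 (cc_cvx hU _) (hj0 (min j0 m) (by omega)) (hi1 (max i1 m) (by omega))
      (by omega) (by omega)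
  have h1 := (hmem z⁻¹ _).mp (key z⁻¹ (A.inv_mem hz) m)
  rw [inv_inv] at h1
  exact (hb3 _).mp h1

private theorem T03_full {H W : Type} [Group H] [MulAction H W] {U : SimpleGraph W} (hU : TA H U)
    {b : ℤ → W} (hb1 : ∀ i j, U.dist (b i) (b j) = (i - j).natAbs) {z : H}
    (hs : ∀ m, ∃ s, b s = z • b m) {i0 c : ℤ} (h : ∀ i, i0 ≤ i → z • b i = b (i + c)) (m : ℤ) :
    z • b m = b (m + c) := by
  obtain ⟨s, hs'⟩ := hs m
  obtain ⟨j, hj⟩ : ∃ j : ℤ, j = max i0 (max (s - c) m) := ⟨_, rfl⟩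
  have h1 : (s - (j + c)).natAbs = (m - j).natAbs := by
    rw [← hb1, ← hb1, ← h j (by omega), hs', ta_dist hU]
  rw [← hs']
  congr 1
  omega

private theorem T03_full' {H W : Type} [Group H] [MulAction H W] {U : SimpleGraph W} (hU : TA H U)
    {b : ℤ → W} (hb1 : ∀ i j, U.dist (b i) (b j) = (i - j).natAbs) {z : H}
    (hs : ∀ m, ∃ s, b s = z • b m) {i0 c : ℤ} (h : ∀ i, i0 ≤ i → z • b i = b (c - i)) (m : ℤ) :
    z • b m = b (c - m) := by
  obtain ⟨s, hs'⟩ := hs m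
  obtain ⟨j, hj⟩ : ∃ j : ℤ, j = max i0 (max (c - s) m) := ⟨_, rfl⟩
  have h1 : (s - (c - j)).natAbs = (m - j).natAbs := by
    rw [← hb1, ← hb1, ← h j (by omega), hs', ta_dist hU]
  rw [← hs']
  congr 1
  omega

/-- the elements which are translations far out -/
private def T03_L {H W : Type} [Group H] [MulAction H W] (A : Subgroup H) (b : ℤ → W) :
    Subgroup H where
  carrier := {g | g ∈ A ∧ ∃ c j0 : ℤ, ∀ j, j0 ≤ j → g • b j = b (j + c)}
  mul_mem' := by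
    rintro g h ⟨hg, c, j0, h1⟩ ⟨hh, d, i0, h2⟩
    refine ⟨A.mul_mem hg hh, c + d, max i0 (j0 - d), fun j hj => ?_⟩
    rw [mul_smul, h2 j (by omega), h1 (j + d) (by omega)]
    congr 1
    omega
  one_mem' := ⟨A.one_mem, 0, 0, fun j _ => by rw [one_smul, add_zero]⟩
  inv_mem' := by
    rintro g ⟨hg, c, j0, h1⟩
    refine ⟨A.inv_mem hg, -c, j0 + c, fun j hj => ?_⟩
    rw [inv_smul_eq_iff, h1 (j + -c) (by omega)]
    congr 1
    omega

private theorem T03_memL {H W : Type} [Group H] [MulAction H W] {A : Subgroup H} {b : ℤ → W}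
    {g : H} : g ∈ T03_L A b ↔ g ∈ A ∧ ∃ c j0 : ℤ, ∀ j, j0 ≤ j → g • b j = b (j + c) := Iff.rfl

open Classical in
private noncomputable def T03_c {H W : Type} [Group H] [MulAction H W] (b : ℤ → W) (g : H) : ℤ :=
  if h : ∃ c j0 : ℤ, ∀ j, j0 ≤ j → g • b j = b (j + c) then h.choose else 0

private theorem T03_c_spec {H W : Type} [Group H] [MulAction H W] {A : Subgroup H} {b : ℤ → W}
    {g : H} (hg : g ∈ T03_L A b) : ∃ j0 : ℤ, ∀ j, j0 ≤ j → g • b j = b (j + T03_c b g) := by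
  have h := (T03_memL.1 hg).2
  have e : T03_c b g = h.choose := by
    unfold T03_c
    exact dif_pos h
  rw [e]
  exact h.choose_spec

private theorem T03_c_uniq {H W : Type} [Group H] [MulAction H W] {U : SimpleGraph W}
    {A : Subgroup H} {b : ℤ → W} (hb1 : ∀ i j, U.dist (b i) (b j) = (i - j).natAbs)
    {g : H} (hg : g ∈ T03_L A b) {c j0 : ℤ} (h : ∀ j, j0 ≤ j → g • b j = b (j + c)) :
    T03_c b g = c := by
  obtain ⟨i0, h1⟩ := T03_c_spec hg
  have h2 := h1 (max i0 j0) (le_max_left _ _)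
  rw [h (max i0 j0) (le_max_right _ _)] at h2
  have h3 := lemf_inj hb1 h2
  omega

theorem t35 {H W : Type} [Group H] [MulAction H W] {U : SimpleGraph W} (hU : TA H U)
    {A : Subgroup H} (hno : ¬ Gen A U) (k : H) (hkA : k ∈ A) (hk : 0 < tl U k) :
    ∃ (b : ℤ → W) (Lp : Subgroup H) (c : H → ℤ), EndFix U A b Lp c ∧
      (∀ x, x ∈ CC U k ↔ ∃ i, b i = x) := by
  obtain ⟨b, hb1, hb3, hP⟩ := T03_ray hU hno k hkA hk
  refine ⟨b, T03_L A b, T03_c b, ⟨fun g hg => (T03_memL.1 hg).1, hb1, ?_, ?_,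
    fun g hg => T03_c_spec hg, ?_⟩, hb3⟩
  · intro g hg x hx
    rcases T03_type hU k hb1 hb3 hP hg with ⟨i0, c, h1⟩ | ⟨i0, c, h1⟩
    · have hgL : g ∈ T03_L A b := ⟨hg, c, i0, h1⟩
      exact (T03_L A b).mul_mem ((T03_L A b).mul_mem hgL hx) ((T03_L A b).inv_mem hgL)
    · obtain ⟨hxA, d, j0, h2⟩ := T03_memL.1 hx
      have hA : ∃ y ∈ A, ∃ i0 c : ℤ, ∀ i, i0 ≤ i → y • b i = b (c - i) := ⟨g, hg, i0, c, h1⟩
      have h3 := T03_full' hU hb1 (fun m => T03_inv hU k hb1 hb3 hP hA hg m) h1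
      have h4 := T03_full hU hb1 (fun m => T03_inv hU k hb1 hb3 hP hA hxA m) h2
      refine ⟨A.mul_mem (A.mul_mem hg hxA) (A.inv_mem hg), -d, 0, fun j _ => ?_⟩
      have h5 : g⁻¹ • b j = b (c - j) := by
        rw [inv_smul_eq_iff, h3]
        congr 1
        omega
      rw [mul_smul, mul_smul, h5, h4, h3]
      congr 1
      omega
  · intro g hg
    rcases T03_type hU k hb1 hb3 hP hg with ⟨i0, c, h1⟩ | ⟨i0, c, h1⟩
    · have hgL : g ∈ T03_L A b := ⟨hg, c, i0, h1⟩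
      exact (T03_L A b).pow_mem hgL 2
    · have hA : ∃ y ∈ A, ∃ i0 c : ℤ, ∀ i, i0 ≤ i → y • b i = b (c - i) := ⟨g, hg, i0, c, h1⟩
      have h3 := T03_full' hU hb1 (fun m => T03_inv hU k hb1 hb3 hP hA hg m) h1
      refine ⟨A.pow_mem hg 2, 0, 0, fun j _ => ?_⟩
      rw [pow_two, mul_smul, h3, h3]
      congr 1
      omega
  · intro g hg h hh
    obtain ⟨j0, h1⟩ := T03_c_spec hg
    obtain ⟨i0, h2⟩ := T03_c_spec hh
    refine T03_c_uniq hb1 ((T03_L A b).mul_mem hg hh) (j0 := max i0 (j0 - T03_c b h))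
      fun j hj => ?_
    rw [mul_smul, h2 j (by omega), h1 (j + T03_c b h) (by omega)]
    congr 1
    omega

section

variable {H W : Type} [Group H] [MulAction H W] {U : SimpleGraph W} {A : Subgroup H} {b : ℤ → W}
  {Lp : Subgroup H} {c : H → ℤ}

/-- commutators fix the line far out -/
theorem endFix_comm (E : EndFix U A b Lp c) {g : H} (hg : g ∈ ⁅Lp, Lp⁆) :
    ∃ j0 : ℤ, ∀ j, j0 ≤ j → g • b j = b j := by
  have h1 : c 1 = 0 := by
    have h2 := E.mul 1 Lp.one_mem 1 Lp.one_mem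
    rw [mul_one] at h2
    omega
  have hinv : ∀ x ∈ Lp, c x⁻¹ = -c x := by
    intro x hx
    have h2 := E.mul x hx x⁻¹ (Lp.inv_mem hx)
    rw [mul_inv_cancel, h1] at h2
    omega
  let K : Subgroup H :=
    { carrier := {x | x ∈ Lp ∧ c x = 0}
      mul_mem' := by
        rintro x y ⟨hx, hx'⟩ ⟨hy, hy'⟩
        exact ⟨Lp.mul_mem hx hy, by rw [E.mul x hx y hy, hx', hy', add_zero]⟩
      one_mem' := ⟨Lp.one_mem, h1⟩
      inv_mem' := by
        rintro x ⟨hx, hx'⟩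
        exact ⟨Lp.inv_mem hx, by rw [hinv x hx, hx', neg_zero]⟩ }
  have hK : ⁅Lp, Lp⁆ ≤ K := by
    rw [Subgroup.commutator_le]
    intro x hx y hy
    have m1 := Lp.mul_mem hx hy
    have m2 := Lp.mul_mem m1 (Lp.inv_mem hx)
    refine ⟨Lp.mul_mem m2 (Lp.inv_mem hy), ?_⟩
    rw [commutatorElement_def, E.mul _ m2 _ (Lp.inv_mem hy), E.mul _ m1 _ (Lp.inv_mem hx), E.mul x hx y hy, hinv x hx,
      hinv y hy]
    omega
  obtain ⟨h2, h3⟩ := hK hg
  obtain ⟨j0, h4⟩ := E.act g h2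
  refine ⟨j0, fun j hj => ?_⟩
  rw [h4 j hj, h3, add_zero]

end

end VTB
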