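import Pool.Agent.Lib.MP_32d917_al_vt.A08
import Pool.Agent.Lib.MP_32d917_al_vt.T02
import Pool.Agent.Lib.MP_32d917_al_vt.T03
import Pool.Agent.Lib.MP_32d917_al.F.GCINV
import Pool.Agent.Lib.MP_32d917_al.N.NS2

/-!
# B01: independent axes in `M`; the instance of (3.4)

`gen40` (4.0): let `u ∈ lk v`. By `NoDom` (`v ≠ u`) there is `u2 ∈ lk v`, `u2 ∉ st u`. By `chamber` (with `J = lk v`) there is `y` with `Ag co (lk Γ v) x y` such that no label of `lk v` is internal at `y`; `stJ x (lk v) = stJ y (lk v)` (`stJ_congr`). All internal labels at `y` are equal to `v` or not in ... precisely: an internal label `k` at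
`y` is not in `lk v`; `k` is internal at `x` too (`n_ag`), and `v` occurs at `x` (`hv`), so `v ∈ st k`, i.e. `k = v` or `k ∈ lk v`; so `k = v`. Hence `u`, `u2` occur at `y` (`Oc`: `u ∈ st v`). `k_hyp`: `a ∈ stJ y {u}` hyperbolic on `S u`, `h ∈ stJ y {u2}` hyperbolic on `S u2`. `a2 = h * a * h⁻¹ ∈ stJ (h • y) {u}`. All of
them are in `stJ y (lk v)` (`stJ_mono`). The axis of `a` in `S u` is in the image `D` of the panel `{z | Ag co {u} y z}` (convex, invariant: a nonempty invariant convex set contains the axis: `tl_gate`/`tl_disp`), the axis of `a2` is in the image `D2` of the panel of `h • y`. Claim: `D ∩ D2` has at most one vertex (it is convex; if it has two it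
contains an edge; both panels contain steps over this edge (points of the panels with these coordinates), `strip_ag`: they agree outside `lk u`; but `co (h • y) u2 ≠ co y u2` as `h` is hyperbolic on `S u2`, `u2 ∉ lk u`, and the `u2`-coordinate is constant on the panels (`u2 ≠ u`)). So the axes have finite intersection.
`st34`: (3.4) for the region of `(x, v)`: apply `t34` to the group `↥(stJ H co x (st Γ v))` acting on `P = {p : V v // ∃ y, Ag co (st Γ v) x y ∧ co y v = p}` (a tree: convex subset `vr_cv`, `SP` = comap) and on `U`; `K` = the subgroup of elements which are in `stJ x {v}` (`Subgroup.subgroupOf`); locally finite: the neighbours of `p = co y v` (`y` in the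
panel of `x`, `reg_pt`) in `P` are the `v`-coordinates of the steps at `y` (by `reg_pt` and `vst_eq`; `loc`); `prop`: an element of `K` fixing `p = co y v`, `Ag co {v} x y`, fixes `y`; `fin`: `stJ_fin` for `J = {v}`; `lf`: `lf_k`; the stabilizer of the vertex `co x v` of `P` is `stJ x (lk v)`.
`TA` of the subgroup on `P` and `U`: restrict `L.ta v` and `hU`.
-/

set_option autoImplicit false

namespace VTB

open LatIso LatN LatF RaagIso

section

variable {ι Pt : Type} [Fintype ι] {V : ι → Type} {Γ : SimpleGraph ι}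
  {S : ∀ i, SimpleGraph (V i)} {co : Pt → ∀ i, V i} {N : Pt → ι → Prop}
  {H : Type} [Group H] [MulAction H Pt] [∀ i, MulAction H (V i)]

/-- a nonempty invariant convex set contains the axis of a hyperbolic element -/
theorem axis_sub {W : Type} [MulAction H W] {U : SimpleGraph W} (hU : TA H U) {a : H}
    (ha : 0 < tl U a) {C : Set W} (hC : Cvx U C) (h0 : C.Nonempty)
    (hi : ∀ x ∈ C, a • x ∈ C ∧ a⁻¹ • x ∈ C) :
    CC U a ⊆ C := by
  obtain ⟨x, hx⟩ := h0
  obtain ⟨z, hz, hxz⟩ := tl_disp hU a x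
  have hzC : z ∈ C := by
    refine hC x hx (a • x) (hi x hx).1 z ?_
    have t1 : U.dist z (a • x) ≤ U.dist z (a • z) + U.dist (a • z) (a • x) :=
      hU.tree.connected.dist_triangle
    have t2 : U.dist (a • z) (a • x) = U.dist z x := ta_dist hU a z x
    have t3 : U.dist z x = U.dist x z := SimpleGraph.dist_comm
    have t4 : U.dist x (a • x) ≤ U.dist x z + U.dist z (a • x) :=
      hU.tree.connected.dist_triangle
    have hz' : U.dist z (a • z) = tl U a := hz
    unfold Bt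
    omega
  obtain ⟨b, hb, hab, hr⟩ := tl_line hU a ha
  obtain ⟨i, hi'⟩ := (hr z).1 hz
  intro w hw
  obtain ⟨j, hj⟩ := (hr w).1 hw
  have hab' : ∀ k : ℤ, a⁻¹ • b k = b (k - tl U a) := by
    intro k
    rw [inv_smul_eq_iff, hab]
    congr 1
    omega
  have hp : ∀ n : ℕ, b (i + n * tl U a) ∈ C := by
    intro n
    induction n with
    | zero =>
      have e : i + ((0 : ℕ) : ℤ) * (tl U a : ℤ) = i := by simp
      rw [e, hi']
      exact hzC
    | succ n ih =>
      have e : i + ((n + 1 : ℕ) : ℤ) * (tl U a : ℤ) = i + (n : ℤ) * (tl U a : ℤ) + tl U a := by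
        push_cast
        ring
      rw [e, ← hab]
      exact (hi _ ih).1
  have hm : ∀ n : ℕ, b (i - n * tl U a) ∈ C := by
    intro n
    induction n with
    | zero =>
      have e : i - ((0 : ℕ) : ℤ) * (tl U a : ℤ) = i := by simp
      rw [e, hi']
      exact hzC
    | succ n ih =>
      have e : i - ((n + 1 : ℕ) : ℤ) * (tl U a : ℤ) = i - (n : ℤ) * (tl U a : ℤ) - tl U a := by
        push_cast
        ring
      rw [e, ← hab']
      exact (hi _ ih).2
  have ht : (1 : ℤ) ≤ tl U a := by exact_mod_cast ha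
  have hn : ((j - i).natAbs : ℤ) ≤ ((j - i).natAbs : ℤ) * (tl U a : ℤ) :=
    le_mul_of_one_le_right (by omega) ht
  rw [← hj]
  exact hC _ (hm (j - i).natAbs) _ (hp (j - i).natAbs) (b j)
    (lemf_bt hb (by omega) (by omega))

/-- the axis of an element of `stJ x {v}` is in the image of the panel -/
theorem axis_panel (L : HLat H Γ S co N) {x : Pt} {v : ι} {a : H} (ha : a ∈ stJ H co x {v})
    (h : 0 < tl (S v) a) : ∀ p ∈ CC (S v) a, ∃ y, Ag co {v} x y ∧ co y v = p := by
  have key : ∀ g : H, g ∈ stJ H co x {v} → ∀ p, (∃ y, Ag co {v} x y ∧ co y v = p) →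
      ∃ y, Ag co {v} x y ∧ co y v = g • p := by
    rintro g hg p ⟨y, hy, rfl⟩
    exact ⟨g • y, ag_trans ((hl_mem L).1 hg) ((hl_ag L g).2 hy), L.hco g y v⟩
  have h1 := axis_sub (L.ta v) h (panel_cv L.ms.b v x) ⟨co x v, x, ag_refl x, rfl⟩
    (fun p hp => ⟨key a ha p hp, key a⁻¹ (inv_mem ha) p hp⟩)
  exact fun p hp => h1 hp

private theorem b01_nlk (v : ι) : v ∉ lk Γ v := fun h => Γ.loopless.irrefl v h

/-- the action of `stJ x {u}` on the tree of a central label -/
theorem cl_tlat (L : HLat H Γ S co N) (x : Pt) {u : ι} (hc : CL Γ u) :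
    TLat ↥(stJ H co x {u}) (S u) := by
  have hpan : ∀ p : V u, ∃ z, Ag co {u} x z ∧ co z u = p := by
    intro p
    obtain ⟨y, hy⟩ := L.ms.b.onto u p
    obtain ⟨z, hz, hz'⟩ := reg_pt L.ms.b (v := u) (x := x) (y := y)
      (fun j hj => absurd (hc j) hj)
    exact ⟨z, hz, hz'.trans hy⟩
  have hta : TA ↥(stJ H co x {u}) (S u) :=
    { tree := (L.ta u).tree
      adj := fun g p q h => (L.ta u).adj (g : H) p q h
      noinv := fun g p q h e1 e2 => (L.ta u).noinv (g : H) p q h e1 e2 }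
  have hloc : ∀ v, ((S u).neighborSet v).Finite := by
    intro p
    obtain ⟨z, hz, ez⟩ := hpan p
    refine ((L.ms.loc z u).image (fun y => co y u)).subset ?_
    intro q hq
    obtain ⟨z', hz', ez'⟩ := hpan q
    have hq' : (S u).Adj p q := hq
    exact ⟨z', ⟨by rw [ez, ez']; exact hq', ag_trans (ag_symm hz) hz'⟩, ez'⟩
  have hfin : ∃ F : Finset (V u), ∀ v, ∃ g : ↥(stJ H co x {u}), g • v ∈ F := by
    classical
    obtain ⟨F, hF⟩ := stJ_fin L x {u}
    refine ⟨F.image (fun y => co y u), fun p => ?_⟩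
    obtain ⟨z, hz, ez⟩ := hpan p
    obtain ⟨h, hh, hh'⟩ := hF z hz
    refine ⟨⟨h, hh⟩, Finset.mem_image.2 ⟨h • z, hh', ?_⟩⟩
    rw [L.hco, ez]
    rfl
  have hprop : ∀ p : V u, {g : ↥(stJ H co x {u}) | g • p = p}.Finite := by
    intro p
    obtain ⟨z, hz, ez⟩ := hpan p
    refine Set.Finite.of_injOn (f := Subtype.val) (t := {h : H | h • z = z}) ?_
      Subtype.val_injective.injOn (L.prop z)
    intro g hg
    have hg' : (g : H) • p = p := hg
    refine L.ms.b.inj _ _ fun i => ?_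
    rw [L.hco]
    by_cases hi : i = u
    · rw [hi, ez]
      exact hg'
    · have h1 := hz i hi
      rw [h1]
      exact g.2 i hi
  refine ⟨hta, hloc, hfin, fun v w g h1 => ?_⟩
  let _ : MulAction ↥(stJ H co x {u}) Unit :=
    { smul := fun _ y => y
      one_smul := fun _ => rfl
      mul_smul := fun _ _ _ => rfl }
  refine gcinv (W := Unit) hta hloc (fun p _ => (hprop p).subset fun g hg => hg.1) ?_ () v w g h1
  classical
  obtain ⟨F, hF⟩ := hfin
  refine ⟨F ×ˢ {()}, fun p _ => ?_⟩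
  obtain ⟨g, hg⟩ := hF p
  exact ⟨g, Finset.mem_product.2 ⟨hg, Finset.mem_singleton.2 rfl⟩⟩

theorem gen_cl (L : HLat H Γ S co N) (x : Pt) {u : ι} (hc : CL Γ u) :
    Gen (stJ H co x {u}) (S u) := by
  obtain ⟨a, ha, ha'⟩ := k_hyp L (x := x) (v := u) (fun w _ => cl_symm hc w)
  obtain ⟨g, hg⟩ := tlemE (cl_tlat L x hc) (L.leaf u hc) ⟨a, ha⟩ ha'
  refine ⟨(g : H) * a * (g : H)⁻¹, mul_mem (mul_mem g.2 ha) (inv_mem g.2), a, ha, ?_, ha', hg⟩
  rw [tl_conj (L.ta u)]
  exact ha'

theorem gen40 (L : HLat H Γ S co N) {x : Pt} {v : ι} (hv : Oc Γ N x v) {u : ι}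
    (hu : Γ.Adj v u) : Gen (stJ H co x (lk Γ v)) (S u) := by
  by_cases hc : CL Γ u
  · refine gen_mono (gen_cl L x hc) (stJ_mono fun k hk => ?_)
    rw [Set.mem_singleton_iff] at hk
    rw [hk]
    exact hu
  obtain ⟨u2, hu2, hu2'⟩ := L.gg.dom v u hu.ne hc
  obtain ⟨y, hy1, hy2, hy3⟩ := chamber L.ms (lk Γ v) x
  have hxy : Ag co (lk Γ v) x y := ag_mono (fun k hk => hk.1) hy1
  have hoc : ∀ k, Γ.Adj v k → Oc Γ N y k := by
    intro k hk w hw
    by_cases hcw : CL Γ w
    · exact hcw k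
    have hw1 : w ∉ lk Γ v := fun hw1 => hy2 w hw1 hcw hw
    have hw2 : N x w := (hy3 w fun h => absurd h hw1).1 hw
    rcases hv w hw2 with h | h
    · rw [← h]
      exact Or.inr hk
    · exact absurd h.symm hw1
  obtain ⟨a, ha, ha'⟩ := k_hyp L (hoc u hu)
  obtain ⟨h, hh, hh'⟩ := k_hyp L (hoc u2 hu2)
  have hne : u2 ≠ u := fun e => hu2' (Or.inl e)
  have hnl : u2 ∉ lk Γ u := fun e => hu2' (Or.inr e)
  have ha1 : a ∈ stJ H co y (lk Γ v) := stJ_mono (fun k hk => by
    rw [Set.mem_singleton_iff] at hk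
    rw [hk]
    exact hu) ha
  have hh1 : h ∈ stJ H co y (lk Γ v) := stJ_mono (fun k hk => by
    rw [Set.mem_singleton_iff] at hk
    rw [hk]
    exact hu2) hh
  rw [stJ_congr hxy]
  refine ⟨a, ha1, h * a * h⁻¹, mul_mem (mul_mem hh1 ha1) (inv_mem hh1), ha', ?_, ?_⟩
  · rw [tl_conj (L.ta u)]
    exact ha'
  · have ha2 : h * a * h⁻¹ ∈ stJ H co (h • y) {u} := (stJ_conj L h a).2 ha
    have ha2' : 0 < tl (S u) (h * a * h⁻¹) := by
      rw [tl_conj (L.ta u)]
      exact ha'
    apply Set.Subsingleton.finite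
    rintro p ⟨hp1, hp2⟩ q ⟨hq1, hq2⟩
    by_contra hpq
    obtain ⟨n, hn, hn'⟩ := st_next (L.ms.b.tree u) hpq
    have hn1 : n ∈ CC (S u) a := cc_cvx (L.ta u) a p hp1 q hq1 n hn'
    have hn2 : n ∈ CC (S u) (h * a * h⁻¹) := cc_cvx (L.ta u) _ p hp2 q hq2 n hn'
    obtain ⟨y1, hy1, ey1⟩ := axis_panel L ha ha' p hp1
    obtain ⟨y2, hy2, ey2⟩ := axis_panel L ha ha' n hn1
    obtain ⟨z1, hz1, ez1⟩ := axis_panel L ha2 ha2' p hp2
    obtain ⟨z2, hz2, ez2⟩ := axis_panel L ha2 ha2' n hn2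
    have s1 : VSt S co u y1 y2 := ⟨by rw [ey1, ey2]; exact hn, ag_trans (ag_symm hy1) hy2⟩
    have s2 : VSt S co u z1 z2 := ⟨by rw [ez1, ez2]; exact hn, ag_trans (ag_symm hz1) hz2⟩
    have s3 := strip_ag L.ms.b s1 s2 (by rw [ey1, ez1]) (by rw [ey2, ez2]) u2 hnl
    have hne' : u2 ∉ ({u} : Set ι) := fun e => hne e
    rw [hz1 u2 hne', hy1 u2 hne', L.hco] at s3
    have := (tl_eq_zero (L.ta u2) h).2 ⟨_, s3⟩
    omega

private theorem b01_tree {W : Type} {T : SimpleGraph W} (hT : T.IsTree) {C : Set W}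
    (hC : Cvx T C) (h0 : C.Nonempty) :
    (T.comap (Subtype.val : {p : W // p ∈ C} → W)).IsTree := by
  have : Nonempty {p : W // p ∈ C} := by
    obtain ⟨c, hc⟩ := h0
    exact ⟨⟨c, hc⟩⟩
  have hpre : (T.comap (Subtype.val : {p : W // p ∈ C} → W)).Preconnected := by
    have key : ∀ n : ℕ, ∀ p q : {p : W // p ∈ C}, T.dist p.1 q.1 = n →
        (T.comap (Subtype.val : {p : W // p ∈ C} → W)).Reachable p q := by
      intro n
      induction n with
      | zero =>
        intro p q h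
        have : p = q := Subtype.ext (st1_eq hT h)
        rw [this]
      | succ n ih =>
        intro p q h
        have hne : p.1 ≠ q.1 := by
          intro e
          rw [e, SimpleGraph.dist_self] at h
          omega
        obtain ⟨r, hr, hr'⟩ := st_next hT hne
        have hrC : r ∈ C := hC p.1 p.2 q.1 q.2 r hr'
        have e1 := st1_one hr
        unfold Bt at hr'
        have h2 := ih ⟨r, hrC⟩ q (by
          show T.dist r q.1 = n
          omega)
        exact SimpleGraph.Reachable.trans (SimpleGraph.Adj.reachable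
          (G := T.comap (Subtype.val : {p : W // p ∈ C} → W)) (u := p) (v := ⟨r, hrC⟩) hr) h2
    intro p q
    exact key _ p q rfl
  refine ⟨⟨hpre⟩, ?_⟩
  exact hT.isAcyclic.of_comap (Function.Embedding.subtype _)

/-- the action of the stabilizer of the region on the tree of the region -/
@[reducible]
private def b01_act (L : HLat H Γ S co N) (x : Pt) (v : ι) :
    MulAction ↥(stJ H co x (st Γ v)) {p : V v // p ∈ {p | VR co (rg Γ co x v) p}} where
  smul g p := ⟨(g : H) • p.1, by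
    obtain ⟨y, hy, e⟩ := p.2
    exact ⟨(g : H) • y, ag_trans ((hl_mem L).1 g.2) ((hl_ag L (g : H)).2 hy),
      (L.hco (g : H) y v).trans (congrArg ((g : H) • ·) e)⟩⟩
  one_smul p := Subtype.ext (one_smul H p.1)
  mul_smul g h p := Subtype.ext (mul_smul (g : H) (h : H) p.1)

theorem st34 (L : HLat H Γ S co N) {W : Type} [MulAction H W] {U : SimpleGraph W} (hU : TA H U)
    {x : Pt} {v : ι} (hv : Oc Γ N x v) (hK : ∃ k ∈ stJ H co x {v}, 0 < tl U k)
    (hM : ∃ k ∈ stJ H co x (lk Γ v), 0 < tl U k) : ¬ Gen (stJ H co x (st Γ v)) U := by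
  let : MulAction ↥(stJ H co x (st Γ v)) {p : V v // p ∈ {p | VR co (rg Γ co x v) p}} :=
    b01_act L x v
  have hcv : Cvx (S v) {p | VR co (rg Γ co x v) p} := vr_cv L.ms.b (rg_isReg hv)
  have hne : ({p | VR co (rg Γ co x v) p} : Set (V v)).Nonempty :=
    ⟨co x v, x, ag_refl x, rfl⟩
  have hpan : ∀ p : {p : V v // p ∈ {p | VR co (rg Γ co x v) p}},
      ∃ z, Ag co {v} x z ∧ co z v = p.1 := by
    rintro ⟨p, y, hy, rfl⟩
    exact reg_pt L.ms.b hy
  have hsv : ({v} : Set ι) ⊆ st Γ v := fun k hk => Or.inl hk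
  have hlv : lk Γ v ⊆ st Γ v := fun k hk => Or.inr hk
  have hTP : TA ↥(stJ H co x (st Γ v))
      ((S v).comap (Subtype.val : {p : V v // p ∈ {p | VR co (rg Γ co x v) p}} → V v)) :=
    { tree := b01_tree (L.ms.b.tree v) hcv hne
      adj := fun g p q h => (L.ta v).adj (g : H) p.1 q.1 h
      noinv := fun g p q h e1 e2 => (L.ta v).noinv (g : H) p.1 q.1 h
        (congrArg Subtype.val e1) (congrArg Subtype.val e2) }
  have hTU : TA ↥(stJ H co x (st Γ v)) U :=
    { tree := hU.tree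
      adj := fun g p q h => hU.adj (g : H) p q h
      noinv := fun g p q h e1 e2 => hU.noinv (g : H) p q h e1 e2 }
  intro hG
  have hG' : Gen (⊤ : Subgroup ↥(stJ H co x (st Γ v))) U := by
    obtain ⟨a, ha, b, hb, h1, h2, h3⟩ := hG
    exact ⟨⟨a, ha⟩, trivial, ⟨b, hb⟩, trivial, h1, h2, h3⟩
  refine t34 hTP hTU ?_ ((stJ H co x {v}).subgroupOf (stJ H co x (st Γ v))) ?_ ?_ ?_ ?_
    ⟨co x v, x, ag_refl x, rfl⟩ ?_ hG'
  · intro p
    obtain ⟨z, hz, ez⟩ := hpan p
    have hf := ((L.ms.loc z v).image (fun y => co y v)).preimage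
      (f := (Subtype.val : {p : V v // p ∈ {p | VR co (rg Γ co x v) p}} → V v))
      Subtype.val_injective.injOn
    refine hf.subset ?_
    intro q hq
    obtain ⟨z', hz', ez'⟩ := hpan q
    have hq' : (S v).Adj p.1 q.1 := hq
    exact ⟨z', ⟨by rw [ez, ez']; exact hq', ag_trans (ag_symm hz) hz'⟩, ez'⟩
  · intro p
    obtain ⟨z, hz, ez⟩ := hpan p
    have hf := (L.prop z).preimage (f := (Subtype.val : ↥(stJ H co x (st Γ v)) → H))
      Subtype.val_injective.injOn
    refine hf.subset ?_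
    rintro k ⟨hk1, hk2⟩
    have hk1' : (k : H) ∈ stJ H co x {v} := Subgroup.mem_subgroupOf.1 hk1
    have hk2' : (k : H) • p.1 = p.1 := congrArg Subtype.val hk2
    show (k : H) • z = z
    refine L.ms.b.inj _ _ fun j => ?_
    rw [L.hco]
    by_cases hj : j = v
    · subst hj
      rw [ez]
      exact hk2'
    · rw [hz j hj]
      exact hk1' j hj
  · obtain ⟨F, hF⟩ := stJ_fin L x {v}
    have hf := ((F.finite_toSet).image (fun y => co y v)).preimage
      (f := (Subtype.val : {p : V v // p ∈ {p | VR co (rg Γ co x v) p}} → V v))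
      Subtype.val_injective.injOn
    refine ⟨hf.toFinset, fun p => ?_⟩
    obtain ⟨z, hz, ez⟩ := hpan p
    obtain ⟨h, hh, hh'⟩ := hF z hz
    refine ⟨⟨h, stJ_mono hsv hh⟩, Subgroup.mem_subgroupOf.2 hh, ?_⟩
    rw [Set.Finite.mem_toFinset]
    refine ⟨h • z, hh', ?_⟩
    show co (h • z) v = h • p.1
    rw [L.hco, ez]
  · intro c g hg
    obtain ⟨m, hm, hm'⟩ := lf_k L c.2 (Subgroup.mem_subgroupOf.1 hg)
    exact ⟨m, hm, Subgroup.mem_subgroupOf.2 hm'⟩
  · obtain ⟨k, hk, hk'⟩ := hK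
    exact ⟨⟨k, stJ_mono hsv hk⟩, Subgroup.mem_subgroupOf.2 hk, hk'⟩
  · obtain ⟨k, hk, hk'⟩ := hM
    exact ⟨⟨k, stJ_mono hlv hk⟩, Subtype.ext (hk v (b01_nlk v)), hk'⟩

end

end VTB
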