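import Pool.Agent.Lib.MP_32d917_al_vt.B01

/-!
# B02: Lemma 4.1

Two structures for the same group `H`: `L` (over `Γ`) and `L'` (over `Γ'`, all its data with a prime). `K' = stJ x' {k}`, `M' = stJ x' (lk k)`, `L' = stJ x' (st k)`, `M = stJ x (lk v)`. Hypothesis `hs`: `Gen (M ⊓ M') (S u)` for all `u ∈ lk v`.
CLAIM (`l41_ell`): every `c ∈ K'` is elliptic on `S s` for all `s ≠ v`. Suppose `0 < tl (S s) c`.
 Case 1: all elements of `M'` are elliptic on `S s`. `M'` is finitely generated, so it fixes a vertex `q` (`fg_fix`). Let `u ∈ lk v` and `g₁ ∈ M ⊓ M'` hyperbolic on `S u` (from `hs`). For some `m ≥ 1`: `c * g₁^m * c⁻¹ ∈ M'` (`lf_m` for the second structure, `c ∈ K' ≤ L'`), so `g₁^m` fixes `q` and `c⁻¹ • q ≠ q`, so an edge of `S s` (`fix_edge`).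
   `s3`: `Γ.Adj s u`. So all `u ∈ lk v` are in `lk s`: by `NoDom` (for `v ≠ s`) contradiction.
 Case 2: some element of `M'` is hyperbolic on `S s`: `st34` (second structure, `U = S s`): not `Gen L' (S s)`. So `s ∉ lk v` (otherwise `hs s` and `gen_mono`). `t35` for `A = L'`: `b, Lp, c₀`. Let `u ∈ lk v`. `Gen L' (S u)` by `hs`, `gen_mono`; `t32` with `B = Lp` gives `h ∈ ⁅Lp, Lp⁆` hyperbolic on `S u`; by `endFix_comm` `h` fixes two adjacent
   vertices of `S s` (`b j`, `b (j+1)`), `s3`: `Γ.Adj s u`. Again all `u ∈ lk v` are in `lk s`, contradiction.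
`l41_K`: so `K'` (finitely generated) fixes a vertex in all `S s`, `s ≠ v` (`fg_fix`), `f4_J` (with `I = univ`, `J = {v}`): `K' ≤ stJ y {v}` for some `y`. `K'` contains an element `c` of infinite order (`k_hyp`, `hyp_io`).
`l41_L`: for `g ∈ L'`: `g * c^m * g⁻¹ ∈ K'`, `m ≥ 1` (`lf_k`), it is in `stJ y {v}` and in `stJ (g • y) {v}` (`stJ_conj`, `c^m ∈ stJ y {v}`), of infinite order: `s_one`: `Ag co (st Γ v) y (g • y)`, so `g ∈ stJ y (st v)`. Then for `w ∉ st v` with `co x w ≠ co y w`: for `u ∈ lk v` take `g₁ ∈ M ⊓ M'` hyperbolic on `S u`: it fixes `co x w` (`M`, `w ∉ lk v`)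
and `co y w` (`g₁ ∈ M' ≤ L' ≤ stJ y (st v)`), so an edge of `S w`: `Γ.Adj w u` for all `u ∈ lk v`; `w = v` by `NoDom`, contradiction. (`lk v` is nonempty by `NoDom` and two labels; if `w` is not adjacent to some `u`, use this `u`.) So `Ag co (st Γ v) x y`, and `L' ≤ stJ y (st v) = stJ x (st v)`, `PowLe K' (stJ x {v})` by `k_reg`.
-/

set_option autoImplicit false

namespace VTB

open LatIso LatN LatF RaagIso

section

variable {ι Pt : Type} [Fintype ι] {V : ι → Type} {Γ : SimpleGraph ι}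
  {S : ∀ i, SimpleGraph (V i)} {co : Pt → ∀ i, V i} {N : Pt → ι → Prop}
  {ι' Pt' : Type} [Fintype ι'] {V' : ι' → Type} {Γ' : SimpleGraph ι'}
  {S' : ∀ i, SimpleGraph (V' i)} {co' : Pt' → ∀ i, V' i} {N' : Pt' → ι' → Prop}
  {H : Type} [Group H] [MulAction H Pt] [∀ i, MulAction H (V i)]
  [MulAction H Pt'] [∀ i, MulAction H (V' i)]

theorem l41_ell (L : HLat H Γ S co N) (L' : HLat H Γ' S' co' N') {x : Pt} {v : ι}
    {x' : Pt'} {k : ι'} (hk : Oc Γ' N' x' k)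
    (hs : ∀ u, Γ.Adj v u → Gen (stJ H co x (lk Γ v) ⊓ stJ H co' x' (lk Γ' k)) (S u))
    {s : ι} (hsv : s ≠ v) {c : H} (hc : c ∈ stJ H co' x' {k}) : tl (S s) c = 0 := by
  by_contra hcs
  have hcs' : 0 < tl (S s) c := Nat.pos_of_ne_zero hcs
  have hcl : ¬ CL Γ s := by
    intro hcl
    have hvs : Γ.Adj v s := by
      rcases hcl v with h | h
      · exact absurd h.symm hsv
      · exact h.symm
    by_cases hM : ∀ g ∈ stJ H co' x' (lk Γ' k), tl (S s) g = 0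
    · obtain ⟨g₁, hg₁, -, -, hg0, -⟩ := hs s hvs
      rw [hM g₁ (Subgroup.mem_inf.1 hg₁).2] at hg0
      exact lt_irrefl 0 hg0
    · push Not at hM
      obtain ⟨g, hg, hg0⟩ := hM
      exact st34 L' (L.ta s) hk ⟨c, hc, hcs'⟩ ⟨g, hg, Nat.pos_of_ne_zero hg0⟩
        (gen_mono (hs s hvs) (inf_le_right.trans (stJ_mono fun w hw => Or.inr hw)))
  obtain ⟨u, hu, hus⟩ := L.gg.dom v s hsv.symm hcl
  refine hus (Or.inr ?_)
  have hsk : ({k} : Set ι') ⊆ st Γ' k := by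
    rintro w rfl
    exact Or.inl rfl
  have hlk : lk Γ' k ⊆ st Γ' k := fun w hw => Or.inr hw
  have hcA : c ∈ stJ H co' x' (st Γ' k) := stJ_mono hsk hc
  by_cases hM : ∀ g ∈ stJ H co' x' (lk Γ' k), tl (S s) g = 0
  · obtain ⟨q, hq⟩ := fg_fix (L.ta s) _ (stJ_fg L' x' (lk Γ' k)) hM
    obtain ⟨g₁, hg₁, -, -, hg0, -⟩ := hs u hu
    have hg₁' := (Subgroup.mem_inf.1 hg₁).2
    obtain ⟨m, hm, hm'⟩ := lf_m L' hcA hg₁'
    have h1 : g₁ ^ m • q = q := hq _ (Subgroup.pow_mem _ hg₁' m)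
    have h2 : g₁ ^ m • c⁻¹ • q = c⁻¹ • q := by
      have h3 := hq _ hm'
      rw [mul_smul, mul_smul] at h3
      rw [eq_inv_smul_iff]
      exact h3
    have h4 : q ≠ c⁻¹ • q := by
      intro h5
      have h6 : c • q = q := by
        conv_lhs => rw [h5]
        rw [smul_inv_smul]
      exact hcs ((tl_eq_zero (L.ta s) c).2 ⟨q, h6⟩)
    obtain ⟨p', q', h7, h8, h9⟩ := fix_edge (L.ta s) h1 h2 h4
    refine s3 L h7 h8 h9 ?_
    rw [tl_pow (L.ta u)]
    exact Nat.mul_pos hm hg0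
  · push Not at hM
    obtain ⟨g, hg, hg0⟩ := hM
    have hno := st34 L' (L.ta s) hk ⟨c, hc, hcs'⟩ ⟨g, hg, Nat.pos_of_ne_zero hg0⟩
    obtain ⟨b, Lp, cc, E, -⟩ := t35 (L.ta s) hno c hcA hcs'
    have hgen : Gen (stJ H co' x' (st Γ' k)) (S u) :=
      gen_mono (hs u hu) (inf_le_right.trans (stJ_mono hlk))
    obtain ⟨g₁, hg₁, -, -, hg0', -, -⟩ := t32 (L.ta u) hgen E.sq
    obtain ⟨j0, hj0⟩ := endFix_comm E hg₁
    have hadj : (S s).Adj (b j0) (b (j0 + 1)) := by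
      rw [← SimpleGraph.dist_eq_one_iff_adj, E.line]
      omega
    exact s3 L hadj (hj0 j0 le_rfl) (hj0 (j0 + 1) (by omega)) hg0'

theorem l41 (L : HLat H Γ S co N) (L' : HLat H Γ' S' co' N') {x : Pt} {v : ι}
    {x' : Pt'} {k : ι'} (hk : Oc Γ' N' x' k)
    (hs : ∀ u, Γ.Adj v u → Gen (stJ H co x (lk Γ v) ⊓ stJ H co' x' (lk Γ' k)) (S u)) :
    ∃ y, Ag co (st Γ v) x y ∧ stJ H co' x' {k} ≤ stJ H co y {v} ∧
      stJ H co' x' (st Γ' k) ≤ stJ H co x (st Γ v) ∧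
      PowLe (stJ H co' x' {k}) (stJ H co x {v}) := by
  have hlk : lk Γ' k ⊆ st Γ' k := fun w hw => Or.inr hw
  obtain ⟨y, -, hy⟩ := f4_J L (stJ H co' x' {k}) (x := x) (I := Set.univ) (J := {v})
    (fun g _ j hj => absurd (Set.mem_univ j) hj) (fun u _ hu =>
      fg_fix (L.ta u) _ (stJ_fg L' x' {k}) fun c hc => l41_ell L L' hk hs
        (fun h => hu (by rw [h]; exact Set.mem_singleton v)) hc)
  obtain ⟨a, ha, ha0⟩ := k_hyp L' hk
  have hio : ¬ IsOfFinOrder a := hyp_io L' ha0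
  have hL : stJ H co' x' (st Γ' k) ≤ stJ H co y (st Γ v) := by
    intro g hg
    obtain ⟨m, hm, hm'⟩ := lf_k L' hg ha
    have h1 : g * a ^ m * g⁻¹ ∈ stJ H co y {v} := hy hm'
    have h2 : g * a ^ m * g⁻¹ ∈ stJ H co (g • y) {v} :=
      (stJ_conj L g (a ^ m)).2 (hy (Subgroup.pow_mem _ ha m))
    have h3 : ¬ IsOfFinOrder (g * a ^ m * g⁻¹) := by
      intro h4
      apply hio
      rw [isOfFinOrder_iff_pow_eq_one] at h4 ⊢
      obtain ⟨n, hn, hn'⟩ := h4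
      refine ⟨m * n, Nat.mul_pos hm hn, ?_⟩
      rw [conj_pow, ← pow_mul] at hn'
      have h5 : a ^ (m * n) = g⁻¹ * (g * a ^ (m * n) * g⁻¹) * g := by group
      rw [h5, hn']
      group
    exact (hl_mem L).2 (s_one L h1 h2 h3)
  have hag : Ag co (st Γ v) x y := by
    intro w hw
    by_contra hne
    have hwv : w ≠ v := fun h => hw (Or.inl h)
    obtain ⟨u, hu, huw⟩ := L.gg.dom v w hwv.symm fun hcl => hw (by
      rcases hcl v with h | h
      · exact Or.inl h.symm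
      · exact Or.inr h.symm)
    refine huw (Or.inr ?_)
    obtain ⟨g₁, hg₁, -, -, hg0, -⟩ := hs u hu
    obtain ⟨hg1, hg2⟩ := Subgroup.mem_inf.1 hg₁
    have h1 : g₁ • co x w = co x w := hg1 w fun h => hw (Or.inr h)
    have h2 : g₁ • co y w = co y w := hL (stJ_mono hlk hg2) w hw
    obtain ⟨p', q', h7, h8, h9⟩ := fix_edge (L.ta w) h1 h2 (fun h => hne h.symm)
    exact s3 L h7 h8 h9 hg0
  refine ⟨y, hag, hy, ?_, ?_⟩
  · rw [stJ_congr hag]
    exact hL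
  · intro c hc
    exact k_reg L (fun j hj => (hag j hj).symm) c (hy hc)

end

end VTB
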