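import Pool.Agent.Lib.MP_32d917_al_vt.B02

/-!
# B03: Case A and Case B

`K = stJ x {v}`, `M = stJ x (lk v)`, `L = stJ x (st v)`; `T = S' k`.
`caseA`: `c ∈ K` hyperbolic on `T`, all elements of `M` elliptic on `T`, `x' y'` a step of label `k` of the second structure with both `k`-coordinates on the axis of `c`. `M` fixes a vertex `q` of `T` (`stJ_fg`, `fg_fix`). For `g ∈ M` and `n ≥ 1`: some power `g^m`, `m ≥ 1`, satisfies `c^n * g^m * c^-n ∈ M` and `c^-n * g^m * c^n ∈ M` (`lf_m` twice, a common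
power), so `g^m` fixes `c^-n • q` and `c^n • q`. For `n` large both vertices of the edge `e = (co' x' k, co' y' k)` are between `c^-n • q` and `c^n • q` (projection of `q` to the axis, `tl_gate`, `tl_disp`; `c^n` translates the axis by `n * tl`), so `g^m` fixes `e`, hence `g^m` maps the step `x' y'` to a step over the same edge, `g^m ∈ stJ x' (lk k)` (`strip_ag`,
`hl_mem`). So `PowLe M (M ⊓ M')` [for the powers are in `M` too], so `Gen (M ⊓ M') (S u)` by `gen40`, `gen_powLe`. `l41` applies (`hk`: `k` occurs at `x'` by `occ`).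
`caseB`: some `a ∈ K` and some element of `M` are hyperbolic on `T`. `st34`: not `Gen L T`. `t35` for `A = L`, `k := a`: `b`, `Lp`, `c₀`, `E : EndFix`. Claim: for all large `j` and all steps `x' y'` with `co' x' k = b j`, `co' y' k = b (j+1)`: `Gen (M ⊓ M') (S u)` for all `u ∈ lk v`. For each `u ∈ lk v` (finitely many): `t32` with `A = M`, `B = M ⊓ Lp` (squares of elements of `M ≤ L`
are in it) gives `g₁, g₂ ∈ ⁅M ⊓ Lp, M ⊓ Lp⁆` hyperbolic on `S u` with disjoint axes; they are in `M` and in `⁅Lp, Lp⁆` (`Subgroup.commutator_mono`), so fix `b j` for all large `j` (`endFix_comm`), in particular an edge, so are in `stJ x' (lk k)` as above.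
Conclusion: the data of `t35` and `j0` such that `l41` applies to all steps over `b j, b (j+1)`, `j0 ≤ j`.
-/

set_option autoImplicit false

namespace VTB

open LatIso LatN LatF RaagIso

section

variable {ι Pt : Type} [Fintype ι] {V : ι → Type} {Γ : SimpleGraph ι}
  {S : ∀ i, SimpleGraph (V i)} {co : Pt → ∀ i, V i} {N : Pt → ι → Prop}
  {ι' Pt' : Type} [Fintype ι'] {V' : ι' → Type} {Γ' : SimpleGraph ι'}
  {S' : ∀ i, SimpleGraph (V' i)} {co' : Pt' → ∀ i, V' i} {N' : Pt' → ι' → Prop}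
  {H : Type} [Group H] [MulAction H Pt] [∀ i, MulAction H (V i)]
  [MulAction H Pt'] [∀ i, MulAction H (V' i)]

/-- the conclusion of Lemma 4.1 -/
def Dom (H : Type) [Group H] [∀ i, MulAction H (V i)] [∀ i, MulAction H (V' i)]
    (Γ : SimpleGraph ι) (co : Pt → ∀ i, V i) (Γ' : SimpleGraph ι') (co' : Pt' → ∀ i, V' i)
    (x : Pt) (v : ι) (x' : Pt') (k : ι') : Prop :=
  ∃ y, Ag co (st Γ v) x y ∧ stJ H co' x' {k} ≤ stJ H co y {v} ∧
      stJ H co' x' (st Γ' k) ≤ stJ H co x (st Γ v) ∧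
      PowLe (stJ H co' x' {k}) (stJ H co x {v})

private theorem B03_sub (v : ι) : ({v} : Set ι) ⊆ st Γ v := fun _ h => Or.inl h

/-- an element fixing the edge of a step -/
theorem edge_fix (L : HLat H Γ S co N) {x y : Pt} {v : ι} (h : VSt S co v x y) {g : H}
    (h1 : g • co x v = co x v) (h2 : g • co y v = co y v) : g ∈ stJ H co x (lk Γ v) := by
  have h3 : VSt S co v (g • x) (g • y) := (hl_step L g).2 h
  refine (hl_mem L).2 (strip_ag L.ms.b h h3 ?_ ?_)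
  · rw [L.hco, h1]
  · rw [L.hco, h2]

private theorem B03_fix {W : Type} [MulAction H W] {T : SimpleGraph W} (hT : TA H T) {g : H}
    {p q m : W} (hp : g • p = p) (hq : g • q = q) (h : Bt T p m q) : g • m = m := by
  have h0 : tl T g = 0 := (tl_eq_zero hT g).2 ⟨p, hp⟩
  have hp' : p ∈ CC T g := by
    show T.dist p (g • p) = tl T g
    rw [hp, h0, SimpleGraph.dist_self]
  have hq' : q ∈ CC T g := by
    show T.dist q (g • q) = tl T g
    rw [hq, h0, SimpleGraph.dist_self]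
  have hm : T.dist m (g • m) = tl T g := cc_cvx hT g p hp' q hq' m h
  rw [h0] at hm
  exact ((hT.tree.connected.dist_eq_zero_iff).1 hm).symm

/-- a vertex of the axis is between the images of a vertex by large powers -/
private theorem B03_bt {W : Type} [MulAction H W] {T : SimpleGraph W} (hT : TA H T) {c : H}
    (hc : 0 < tl T c) (q : W) {p : W} (hp : p ∈ CC T c) :
    ∃ n0 : ℕ, ∀ n : ℕ, n0 ≤ n → Bt T ((c ^ n)⁻¹ • q) p (c ^ n • q) := by
  obtain ⟨b, hb, hcb, hr⟩ := tl_line hT c hc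
  obtain ⟨m, hm⟩ := lemf_proj hT c hb hr q
  obtain ⟨i, rfl⟩ := (hr p).1 hp
  refine ⟨(m - i).natAbs + 1, fun n hn => ?_⟩
  have hpow := lemf_pow c (tl T c) hcb n
  have e1 : T.dist (c ^ n • q) (b i) = T.dist q (b m) + (m - (i - n * tl T c)).natAbs := by
    have : b i = c ^ n • b (i - n * tl T c) := by
      rw [hpow]
      congr 1
      ring
    rw [this, ta_dist hT, hm]
  have e2 : T.dist ((c ^ n)⁻¹ • q) (b i) = T.dist q (b m) + (m - (i + n * tl T c)).natAbs := by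
    rw [← hm, ← ta_dist hT (c ^ n) ((c ^ n)⁻¹ • q) (b i), smul_inv_smul, hpow]
  have e3 : T.dist ((c ^ n)⁻¹ • q) (c ^ n • q) = T.dist q (c ^ (2 * n) • q) := by
    rw [← ta_dist hT (c ^ n) ((c ^ n)⁻¹ • q) (c ^ n • q), smul_inv_smul, ← mul_smul, ← pow_add,
      two_mul]
  have hn1 : 0 < n := by omega
  obtain ⟨y, hy, hy2⟩ := tl_disp hT (c ^ (2 * n)) q
  rw [cc_pow hT c hc (2 * n) (by omega)] at hy
  obtain ⟨j, rfl⟩ := (hr y).1 hy
  rw [tl_pow hT] at hy2
  have e4 := hm j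
  have e5 : (n : ℤ) ≤ n * tl T c := by
    have : (1 : ℤ) ≤ tl T c := by exact_mod_cast hc
    nlinarith
  have e6 : T.dist ((c ^ n)⁻¹ • q) (c ^ n • q) ≤ T.dist ((c ^ n)⁻¹ • q) (b i) +
      T.dist (b i) (c ^ n • q) := hT.tree.connected.dist_triangle
  have e7 : T.dist (b i) (c ^ n • q) = T.dist (c ^ n • q) (b i) := SimpleGraph.dist_comm
  have e8 : ((2 * n * tl T c : ℕ) : ℤ) = 2 * ((n : ℤ) * tl T c) := by
    push_cast
    ring
  show T.dist ((c ^ n)⁻¹ • q) (b i) + T.dist (b i) (c ^ n • q) =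
    T.dist ((c ^ n)⁻¹ • q) (c ^ n • q)
  rw [e7] at e6 ⊢
  rw [e1, e2, e3] at *
  omega

theorem caseA (L : HLat H Γ S co N) (L' : HLat H Γ' S' co' N') {x : Pt} {v : ι}
    (hv : Oc Γ N x v) {k : ι'} {c : H} (hc : c ∈ stJ H co x {v}) (hck : 0 < tl (S' k) c)
    (hM : ∀ g ∈ stJ H co x (lk Γ v), tl (S' k) g = 0) {x' y' : Pt'} (h' : VSt S' co' k x' y')
    (hx' : co' x' k ∈ CC (S' k) c) (hy' : co' y' k ∈ CC (S' k) c) :
    Dom H Γ co Γ' co' x v x' k := by
  have hT := L'.ta k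
  obtain ⟨q, hq⟩ := fg_fix hT (stJ H co x (lk Γ v)) (stJ_fg L x (lk Γ v)) hM
  obtain ⟨n1, hn1⟩ := B03_bt hT hck q hx'
  obtain ⟨n2, hn2⟩ := B03_bt hT hck q hy'
  have hcs : c ∈ stJ H co x (st Γ v) := stJ_mono (B03_sub v) hc
  have hpow : PowLe (stJ H co x (lk Γ v)) (stJ H co x (lk Γ v) ⊓ stJ H co' x' (lk Γ' k)) := by
    intro g hg
    obtain ⟨m1, hm1, h1⟩ := lf_m L (Subgroup.pow_mem _ hcs (max n1 n2)) hg
    obtain ⟨m2, hm2, h2⟩ := lf_m L (Subgroup.inv_mem _ (Subgroup.pow_mem _ hcs (max n1 n2))) hg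
    have f1 : g ^ (m1 * m2) • ((c ^ max n1 n2)⁻¹ • q) = (c ^ max n1 n2)⁻¹ • q := by
      have h3 := hq _ (Subgroup.pow_mem _ h1 m2)
      rw [conj_pow, ← pow_mul, mul_smul, mul_smul] at h3
      rw [eq_inv_smul_iff]
      exact h3
    have f2 : g ^ (m1 * m2) • (c ^ max n1 n2 • q) = c ^ max n1 n2 • q := by
      have h3 := hq _ (Subgroup.pow_mem _ h2 m1)
      rw [conj_pow, ← pow_mul, mul_smul, mul_smul, inv_inv, inv_smul_eq_iff, mul_comm m2] at h3
      exact h3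
    refine ⟨m1 * m2, Nat.mul_pos hm1 hm2, Subgroup.pow_mem _ hg _, ?_⟩
    exact edge_fix L' h' (B03_fix hT f1 f2 (hn1 _ (le_max_left _ _)))
      (B03_fix hT f1 f2 (hn2 _ (le_max_right _ _)))
  exact l41 L L' ((L'.ms.b.occ x' k).1 ⟨y', h'⟩)
    (fun u hu => gen_powLe (L.ta u) (gen40 L hv hu) hpow)

theorem caseB (L : HLat H Γ S co N) (L' : HLat H Γ' S' co' N') {x : Pt} {v : ι}
    (hv : Oc Γ N x v) {k : ι'} {a : H} (ha : a ∈ stJ H co x {v}) (hak : 0 < tl (S' k) a)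
    (hM : ∃ g ∈ stJ H co x (lk Γ v), 0 < tl (S' k) g) :
    ∃ (b : ℤ → V' k) (Lp : Subgroup H) (c : H → ℤ) (j0 : ℤ),
      EndFix (S' k) (stJ H co x (st Γ v)) b Lp c ∧ (∀ p, p ∈ CC (S' k) a ↔ ∃ i, b i = p) ∧
      ∀ j, j0 ≤ j → ∀ x' y', VSt S' co' k x' y' → co' x' k = b j → co' y' k = b (j + 1) →
        Dom H Γ co Γ' co' x v x' k := by
  have hT := L'.ta k
  have hno := st34 L hT hv ⟨a, ha, hak⟩ hM
  obtain ⟨b, Lp, c, E, hb⟩ := t35 hT hno a (stJ_mono (B03_sub v) ha) hak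
  have hms : stJ H co x (lk Γ v) ≤ stJ H co x (st Γ v) := stJ_mono (fun _ h => Or.inr h)
  have key : ∀ u : ι, ∃ j0 : ℤ, Γ.Adj v u → ∀ j, j0 ≤ j → ∀ x' y', VSt S' co' k x' y' →
      co' x' k = b j → co' y' k = b (j + 1) →
      Gen (stJ H co x (lk Γ v) ⊓ stJ H co' x' (lk Γ' k)) (S u) := by
    intro u
    by_cases hu : Γ.Adj v u
    · obtain ⟨g₁, hg₁, g₂, hg₂, h1, h2, h3⟩ := t32 (B := stJ H co x (lk Γ v) ⊓ Lp) (L.ta u)
        (gen40 L hv hu) (fun g hg => ⟨Subgroup.pow_mem _ hg 2, E.sq g (hms hg)⟩)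
      have hle : ⁅stJ H co x (lk Γ v) ⊓ Lp, stJ H co x (lk Γ v) ⊓ Lp⁆ ≤ ⁅Lp, Lp⁆ :=
        Subgroup.commutator_mono inf_le_right inf_le_right
      have hle2 : ⁅stJ H co x (lk Γ v) ⊓ Lp, stJ H co x (lk Γ v) ⊓ Lp⁆ ≤ stJ H co x (lk Γ v) :=
        (Subgroup.commutator_le_self _).trans inf_le_left
      obtain ⟨j1, hj1⟩ := endFix_comm E (hle hg₁)
      obtain ⟨j2, hj2⟩ := endFix_comm E (hle hg₂)
      refine ⟨max j1 j2, fun _ j hj x' y' h' hx' hy' => ?_⟩
      have e1 : g₁ ∈ stJ H co' x' (lk Γ' k) := by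
        refine edge_fix L' h' ?_ ?_
        · rw [hx']; exact hj1 j (by omega)
        · rw [hy']; exact hj1 (j + 1) (by omega)
      have e2 : g₂ ∈ stJ H co' x' (lk Γ' k) := by
        refine edge_fix L' h' ?_ ?_
        · rw [hx']; exact hj2 j (by omega)
        · rw [hy']; exact hj2 (j + 1) (by omega)
      exact ⟨g₁, ⟨hle2 hg₁, e1⟩, g₂, ⟨hle2 hg₂, e2⟩, h1, h2, by rw [h3]; exact Set.finite_empty⟩
    · exact ⟨0, fun h => absurd h hu⟩
  choose f hf using key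
  obtain ⟨j0, hj0⟩ := Finite.exists_le f
  refine ⟨b, Lp, c, j0, E, hb, fun j hj x' y' h' hx' hy' => ?_⟩
  exact l41 L L' ((L'.ms.b.occ x' k).1 ⟨y', h'⟩)
    (fun u hu => hf u hu j ((hj0 u).trans hj) x' y' h' hx' hy')

end

end VTB
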