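import Pool.Agent.Lib.MP_32d917_al_vt.B03

/-!
# B04: Theorem P

`half`: let `c ∈ K = stJ x {v}` be hyperbolic on `S' k`. There are two adjacent vertices `p, q` on the axis of `c` such that `Dom x v x' k` for ALL steps `x' y'` over the edge `p q`. [If all elements of `M = stJ x (lk v)` are elliptic on `S' k`: any edge of the axis (`tl_line`), `caseA`. Otherwise the edge `b j0, b (j0+1)` of `caseB` for `a := c`.]
Theorem P: `K` is infinite and finitely generated (`k_hyp`, `hyp_io`, `stJ_fg`), so by `inf_hyp` for the second structure some `c ∈ K` is hyperbolic on some `S' k`. `half` and `edge_step` give a step `x' y'` with `Dom x v x' k`; `K' = stJ x' {k}`, `K' ≤ stJ y {v}`, `Ag (st v) x y`, `PowLe K' K`; `k` occurs at `x'` (`occ`).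
Take `c' ∈ K'` of infinite order (`k_hyp`, `hyp_io`), it is in `stJ y {v}`, so hyperbolic on `S v` (`k_fo`). Apply `half` with the two structures exchanged to `x', k, v, c'`: an edge `p q` of the axis of `c'` in `S v`; this axis is in the image of the panel of `y` (`axis_panel`), so there is a step `z w` over `p q` with `Ag {v} y z`
(points of the panel with these coordinates differ only in the coordinate `v`). `Dom x' k z v` contains `PowLe (stJ z {v}) K'`; `stJ z {v} = stJ y {v}` (`stJ_congr`), and `PowLe K (stJ y {v})` by `k_reg`. So `PowLe K K'` (`powLe_trans`).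
-/

set_option autoImplicit false

namespace VTB

open LatIso LatN LatF RaagIso

theorem powLe_trans {H : Type} [Group H] {A B C : Subgroup H} (h : PowLe A B)
    (h' : PowLe B C) : PowLe A C := by
  intro a ha
  obtain ⟨n, hn, hn'⟩ := h a ha
  obtain ⟨m, hm, hm'⟩ := h' _ hn'
  exact ⟨n * m, Nat.mul_pos hn hm, by rw [pow_mul]; exact hm'⟩

section

variable {ι Pt : Type} [Fintype ι] {V : ι → Type} {Γ : SimpleGraph ι}
  {S : ∀ i, SimpleGraph (V i)} {co : Pt → ∀ i, V i} {N : Pt → ι → Prop}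
  {ι' Pt' : Type} [Fintype ι'] {V' : ι' → Type} {Γ' : SimpleGraph ι'}
  {S' : ∀ i, SimpleGraph (V' i)} {co' : Pt' → ∀ i, V' i} {N' : Pt' → ι' → Prop}
  {H : Type} [Group H] [MulAction H Pt] [∀ i, MulAction H (V i)]
  [MulAction H Pt'] [∀ i, MulAction H (V' i)]

private theorem B04_adj {W : Type} {T : SimpleGraph W} {b : ℤ → W}
    (hb : ∀ i j, T.dist (b i) (b j) = (i - j).natAbs) (j : ℤ) : T.Adj (b j) (b (j + 1)) := by
  rw [← SimpleGraph.dist_eq_one_iff_adj, hb]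
  omega

theorem half (L : HLat H Γ S co N) (L' : HLat H Γ' S' co' N') {x : Pt} {v : ι}
    (hv : Oc Γ N x v) {k : ι'} {c : H} (hc : c ∈ stJ H co x {v}) (hck : 0 < tl (S' k) c) :
    ∃ p q, (S' k).Adj p q ∧ p ∈ CC (S' k) c ∧ q ∈ CC (S' k) c ∧
      ∀ x' y', VSt S' co' k x' y' → co' x' k = p → co' y' k = q →
        Dom H Γ co Γ' co' x v x' k := by
  by_cases hM : ∀ g ∈ stJ H co x (lk Γ v), tl (S' k) g = 0
  · obtain ⟨b, hb, -, hr⟩ := tl_line (L'.ta k) c hck
    have h0 : b 0 ∈ CC (S' k) c := (hr _).2 ⟨0, rfl⟩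
    have h1 : b (0 + 1) ∈ CC (S' k) c := (hr _).2 ⟨0 + 1, rfl⟩
    refine ⟨b 0, b (0 + 1), B04_adj hb 0, h0, h1, fun x' y' h hx hy => ?_⟩
    refine caseA L L' hv hc hck hM h ?_ ?_
    · rw [hx]
      exact h0
    · rw [hy]
      exact h1
  · push Not at hM
    obtain ⟨g, hg, hg0⟩ := hM
    obtain ⟨b, Lp, cc, j0, E, hr, hj⟩ := caseB L L' hv hc hck ⟨g, hg, Nat.pos_of_ne_zero hg0⟩
    exact ⟨b j0, b (j0 + 1), B04_adj E.line j0, (hr _).2 ⟨j0, rfl⟩, (hr _).2 ⟨j0 + 1, rfl⟩,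
      fun x' y' h hx hy => hj j0 le_rfl x' y' h hx hy⟩

/-- Theorem P -/
theorem thmP (L : HLat H Γ S co N) (L' : HLat H Γ' S' co' N') {x : Pt} {v : ι}
    (hv : Oc Γ N x v) : ∃ x' k, Oc Γ' N' x' k ∧
      PowLe (stJ H co x {v}) (stJ H co' x' {k}) ∧ PowLe (stJ H co' x' {k}) (stJ H co x {v}) := by
  obtain ⟨a, ha, ha0⟩ := k_hyp L hv
  have hinf : ((stJ H co x {v} : Subgroup H) : Set H).Infinite := by
    intro hf
    apply hyp_io L ha0
    have : Finite (stJ H co x {v} : Subgroup H) := hf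
    exact Submonoid.isOfFinOrder_coe.2 (isOfFinOrder_of_finite (⟨a, ha⟩ : (stJ H co x {v} : Subgroup H)))
  obtain ⟨k, c, hc, hck⟩ := inf_hyp L' (stJ H co x {v}) (stJ_fg L x {v}) hinf
  obtain ⟨p, q, hpq, -, -, hD⟩ := half L L' hv hc hck
  obtain ⟨x', y', hxy, hx', hy'⟩ := edge_step L'.ms.b hpq
  obtain ⟨y, hag, hy1, -, hy3⟩ := hD x' y' hxy hx' hy'
  have hk : Oc Γ' N' x' k := (L'.ms.b.occ x' k).1 ⟨y', hxy⟩
  obtain ⟨c', hc', hc0'⟩ := k_hyp L' hk
  have hio := hyp_io L' hc0'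
  have hcy : c' ∈ stJ H co y {v} := hy1 hc'
  have hcv : 0 < tl (S v) c' := by
    rcases Nat.eq_zero_or_pos (tl (S v) c') with h | h
    · exact absurd (k_fo L hcy h) hio
    · exact h
  obtain ⟨p₁, q₁, hpq₁, hp₁, hq₁, hD₁⟩ := half L' L hk hc' hcv
  obtain ⟨z, hz1, hz2⟩ := axis_panel L hcy hcv p₁ hp₁
  obtain ⟨w, hw1, hw2⟩ := axis_panel L hcy hcv q₁ hq₁
  have hzw : VSt S co v z w := by
    refine ⟨by rw [hz2, hw2]; exact hpq₁, fun j hj => ?_⟩
    have hj' : j ∉ ({v} : Set ι) := by simpa using hj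
    rw [hw1 j hj', hz1 j hj']
  obtain ⟨-, -, -, -, h5⟩ := hD₁ z w hzw hz2 hw2
  refine ⟨x', k, hk, ?_, hy3⟩
  refine powLe_trans (k_reg L hag) ?_
  rw [stJ_congr hz1]
  exact h5

end

end VTB
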