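import Pool.Agent.Lib.MP_32d917_al_vt.A08

/-!
# C01: regions are determined by the power classes of their groups

`kr_inj`: `a ∈ stJ x {v}` hyperbolic on `S v` (`k_hyp`), `a^n ∈ stJ y {w}`, `n > 0`; it is hyperbolic on `S v` (`tl_pow`), so `v = w` by `k_ell`; `a^n` is of infinite order (`hyp_io`) and in `stJ x {v}`, `stJ y {v}`: `s_one`.
`l_char`: `g ∈ stJ x (st v)` iff `Ag (st v) x (g • x)` (`hl_mem`) iff `PowLe (stJ (g • x) {v}) (stJ x {v})` (`k_reg`, `kr_inj`; `v` occurs at `g • x`, `hl_oc`).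
`kl_adj`: ←: first case: `stJ x {v} ≤ stJ x (st v) = stJ y (st v)`. Second case: `PowLe (stJ x {v}) (stJ z {v})` (`k_reg`), `stJ z {v} ≤ stJ z (st w)` as `v ∈ st w`, `= stJ y (st w)` (`stJ_congr`). →: `a ∈ stJ x {v}` hyperbolic on `S v`, `b = a^n ∈ stJ y (st w)`; `v ∈ st w` by `k_ell`; apply `f4_J` to the subgroup `A` of powers of `b`
(`Subgroup.zpowers b ≤ stJ y (st w)`, `J = {v}`, for `u ≠ v` it fixes `co x u`): `z` with `Ag (st w) y z`, `b ∈ stJ z {v}`; `s_one`: `Ag (st v) x z`. If `v = w`: `Ag (st v) x y` (`ag_trans`, `ag_symm`).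
-/

set_option autoImplicit false

namespace VTB

open LatIso LatN LatF RaagIso

section

variable {ι Pt : Type} [Fintype ι] {V : ι → Type} {Γ : SimpleGraph ι}
  {S : ∀ i, SimpleGraph (V i)} {co : Pt → ∀ i, V i} {N : Pt → ι → Prop}
  {H : Type} [Group H] [MulAction H Pt] [∀ i, MulAction H (V i)]

theorem kr_inj (L : HLat H Γ S co N) {x y : Pt} {v w : ι} (hv : Oc Γ N x v)
    (h : PowLe (stJ H co x {v}) (stJ H co y {w})) : v = w ∧ Ag co (st Γ v) x y := by
  obtain ⟨a, ha, hpos⟩ := k_hyp L hv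
  obtain ⟨n, hn, han⟩ := h a ha
  have hp : 0 < tl (S v) (a ^ n) := by
    rw [tl_pow (L.ta v)]
    exact Nat.mul_pos hn hpos
  have hvw : v = w := by
    by_contra hne
    have h0 := k_ell L han (u := v) (fun hh => hne hh)
    omega
  subst hvw
  exact ⟨rfl, s_one L (Subgroup.pow_mem _ ha n) han (hyp_io L hp)⟩

theorem l_char (L : HLat H Γ S co N) {x : Pt} {v : ι} (hv : Oc Γ N x v) (g : H) :
    g ∈ stJ H co x (st Γ v) ↔ PowLe (stJ H co (g • x) {v}) (stJ H co x {v}) := by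
  constructor
  · intro hg
    exact k_reg L (ag_symm ((hl_mem L).1 hg))
  · intro h
    exact (hl_mem L).2 (ag_symm (kr_inj L ((hl_oc L g x v).2 hv) h).2)

theorem kl_adj (L : HLat H Γ S co N) {x y : Pt} {v w : ι} (hv : Oc Γ N x v)
    (hw : Oc Γ N y w) : PowLe (stJ H co x {v}) (stJ H co y (st Γ w)) ↔
      (v = w ∧ Ag co (st Γ v) x y) ∨
        (Γ.Adj v w ∧ ∃ z, Ag co (st Γ v) x z ∧ Ag co (st Γ w) y z) := by
  constructor
  · intro h
    obtain ⟨a, ha, hpos⟩ := k_hyp L hv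
    obtain ⟨n, hn, han⟩ := h a ha
    have hp : 0 < tl (S v) (a ^ n) := by
      rw [tl_pow (L.ta v)]
      exact Nat.mul_pos hn hpos
    have hb : a ^ n ∈ stJ H co x {v} := Subgroup.pow_mem _ ha n
    have hvw : v ∈ st Γ w := by
      by_contra hne
      have h0 := k_ell L han hne
      omega
    obtain ⟨z, hz, hbz⟩ := f4_J L (Subgroup.zpowers (a ^ n)) (x := y) (I := st Γ w) (J := {v})
      ((Subgroup.zpowers_le).2 han) (fun u _ hu => ⟨co x u, fun b hb' => by
        have hle : Subgroup.zpowers (a ^ n) ≤ stJ H co x {v} := (Subgroup.zpowers_le).2 hb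
        exact hle hb' u hu⟩)
    have hxz : Ag co (st Γ v) x z :=
      s_one L hb (hbz (Subgroup.mem_zpowers _)) (hyp_io L hp)
    rcases hvw with hvw | hvw
    · subst hvw
      exact Or.inl ⟨rfl, ag_trans hxz (ag_symm hz)⟩
    · exact Or.inr ⟨hvw.symm, z, hxz, hz⟩
  · rintro (⟨rfl, h⟩ | ⟨hadj, z, hxz, hyz⟩)
    · intro a ha
      refine ⟨1, one_pos, ?_⟩
      rw [pow_one, ← stJ_congr h]
      exact stJ_mono (fun j hj => Or.inl hj) ha
    · intro a ha
      obtain ⟨n, hn, han⟩ := k_reg L hxz a ha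
      refine ⟨n, hn, ?_⟩
      rw [stJ_congr hyz]
      refine stJ_mono (fun j hj => ?_) han
      obtain rfl : j = v := hj
      exact Or.inr hadj.symm

/-- reformulation for regions -/
theorem kl_rst (L : HLat H Γ S co N) (r s : Rg Γ co N) {x y : Pt} (hx : x ∈ r.1.2)
    (hy : y ∈ s.1.2) : PowLe (stJ H co x {r.1.1}) (stJ H co y (st Γ s.1.1)) ↔
      RSt Γ r.1 s.1 := by
  have hr := reg_mem r.2 hx
  have hs := reg_mem s.2 hy
  have hrm : ∀ z, z ∈ r.1.2 ↔ Ag co (st Γ r.1.1) x z := fun z => by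
    conv_lhs => rw [hr]
    exact Iff.rfl
  have hsm : ∀ z, z ∈ s.1.2 ↔ Ag co (st Γ s.1.1) y z := fun z => by
    conv_lhs => rw [hs]
    exact Iff.rfl
  rw [kl_adj L (reg_oc L.ms.b r.2 hx) (reg_oc L.ms.b s.2 hy)]
  constructor
  · rintro (⟨e, h⟩ | ⟨hadj, z, hxz, hyz⟩)
    · left
      refine Prod.ext e ?_
      ext z
      rw [hrm, hsm]
      constructor
      · intro h'
        rw [← e]
        exact ag_trans (ag_symm h) h'
      · intro h'
        rw [← e] at h'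
        exact ag_trans h h'
    · exact Or.inr ⟨hadj, z, (hrm z).2 hxz, (hsm z).2 hyz⟩
  · rintro (e | ⟨hadj, z, hz1, hz2⟩)
    · left
      refine ⟨by rw [e], (hrm y).1 ?_⟩
      rw [e]
      exact hy
    · exact Or.inr ⟨hadj, z, (hrm z).1 hz1, (hsm z).1 hz2⟩

end

end VTB
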