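import Pool.Agent.Lib.MP_32d917_al_vt.C01
import Pool.Agent.Lib.MP_32d917_al_vt.B04

/-!
# C02: the bijection of the regions of two structures

For a region `r` (a subtype element, `r.1 = (label, set)`) choose a point `x ∈ r.1.2` and, by `thmP`, `x'`, `k`: `F r := rg Γ' co' x' k`. It satisfies: for all `x ∈ r.1.2`, `x' ∈ (F r).1.2`: `PowLe` both ways between `stJ x {r.1.1}` and `stJ x' {(F r).1.1}` (`k_reg` on both sides, `powLe_trans`). By `kr_inj` (second structure) `F r` is the only region with this property, and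
`kr_inj` (first structure) gives injectivity; surjectivity by `thmP` for the exchanged structures. `RSt Γ r s` iff `PowLe K_r L_s` (`kl_rst`); `L_s = L'_{F s}`: by `l_char`, `g ∈ L_s` iff `PowLe (g K_s g⁻¹) K_s` where `stJ (g • y) {w} = g K_s g⁻¹` (`stJ_conj`); as `K_s`, `K'_{F s}` are `PowLe`-equivalent so are their conjugates. Hence
`RSt Γ r s ↔ RSt Γ' (F r) (F s)` and, as `F` is injective, `RAdj Γ r s ↔ RAdj Γ' (F r) (F s)` (`RAdj Γ r s` implies `r ≠ s`).
-/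

set_option autoImplicit false

namespace VTB

open LatIso LatN LatF RaagIso

section

variable {ι Pt : Type} [Fintype ι] {V : ι → Type} {Γ : SimpleGraph ι}
  {S : ∀ i, SimpleGraph (V i)} {co : Pt → ∀ i, V i} {N : Pt → ι → Prop}
  {ι' Pt' : Type} [Fintype ι'] {V' : ι' → Type} {Γ' : SimpleGraph ι'}
  {S' : ∀ i, SimpleGraph (V' i)} {co' : Pt' → ∀ i, V' i} {N' : Pt' → ι' → Prop}
  {H : Type} [Group H] [MulAction H Pt] [∀ i, MulAction H (V i)]
  [MulAction H Pt'] [∀ i, MulAction H (V' i)]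

/-- the groups of the regions `r`, `r'` are equal up to powers -/
def KCorr (H : Type) [Group H] [∀ i, MulAction H (V i)] [∀ i, MulAction H (V' i)]
    (co : Pt → ∀ i, V i) (co' : Pt' → ∀ i, V' i) (r : ι × Set Pt) (r' : ι' × Set Pt') : Prop :=
  ∀ x ∈ r.2, ∀ x' ∈ r'.2, PowLe (stJ H co x {r.1}) (stJ H co' x' {r'.1}) ∧
    PowLe (stJ H co' x' {r'.1}) (stJ H co x {r.1})

private theorem C02_ag {r : ι × Set Pt} (hr : IsReg Γ co N r) {x y : Pt} (hx : x ∈ r.2)
    (hy : y ∈ r.2) : Ag co (st Γ r.1) x y := by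
  obtain ⟨x0, _, h0⟩ := hr
  rw [h0] at hx hy
  exact ag_trans (ag_symm hx) hy

private theorem C02_ne {r : ι × Set Pt} (hr : IsReg Γ co N r) : r.2.Nonempty := by
  obtain ⟨x0, _, h0⟩ := hr
  exact ⟨x0, by rw [h0]; exact ag_refl x0⟩

private theorem C02_symm {r : ι × Set Pt} {r' : ι' × Set Pt'} (h : KCorr H co co' r r') :
    KCorr H co' co r' r := fun x' hx' x hx => ⟨(h x hx x' hx').2, (h x hx x' hx').1⟩

/-- regions with the same label and points in relation are equal -/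
private theorem C02_eq {r s : Rg Γ co N} {x y : Pt} (hx : x ∈ r.1.2) (hy : y ∈ s.1.2)
    (h : r.1.1 = s.1.1) (h' : Ag co (st Γ r.1.1) x y) : r = s := by
  apply Subtype.ext
  have h1 : y ∈ r.1.2 := by
    obtain ⟨x0, _, h0⟩ := r.2
    rw [h0] at hx ⊢
    exact ag_trans hx h'
  rw [reg_mem r.2 h1, reg_mem s.2 hy, h]

theorem rg_uniq (L' : HLat H Γ' S' co' N') {r : ι × Set Pt} (hr : r.2.Nonempty)
    {r' s' : Rg Γ' co' N'} (h : KCorr H co co' r r'.1) (h' : KCorr H co co' r s'.1) :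
    r' = s' := by
  obtain ⟨x, hx⟩ := hr
  obtain ⟨x', hx'⟩ := C02_ne r'.2
  obtain ⟨y', hy'⟩ := C02_ne s'.2
  obtain ⟨h1, h2⟩ := kr_inj L' (reg_oc L'.ms.b r'.2 hx')
    (powLe_trans (h x hx x' hx').2 (h' x hx y' hy').1)
  exact C02_eq hx' hy' h1 h2

private theorem C02_exists (L : HLat H Γ S co N) (L' : HLat H Γ' S' co' N') (r : Rg Γ co N) :
    ∃ r' : Rg Γ' co' N', KCorr H co co' r.1 r'.1 := by
  obtain ⟨x, hx⟩ := C02_ne r.2
  obtain ⟨x', k, h1, h2, h3⟩ := thmP L L' (reg_oc L.ms.b r.2 hx)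
  refine ⟨⟨rg Γ' co' x' k, rg_isReg h1⟩, fun y hy y' hy' => ?_⟩
  have h4 : Ag co' (st Γ' k) x' y' := hy'
  have h5 := C02_ag r.2 hy hx
  exact ⟨powLe_trans (k_reg L h5) (powLe_trans h2 (k_reg L' h4)),
    powLe_trans (k_reg L' (ag_symm h4)) (powLe_trans h3 (k_reg L (ag_symm h5)))⟩

/-- conjugation -/
private theorem C02_conj (L : HLat H Γ S co N) (L' : HLat H Γ' S' co' N') (g : H) {x : Pt}
    {x' : Pt'} {v : ι} {v' : ι'} (h : PowLe (stJ H co x {v}) (stJ H co' x' {v'})) :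
    PowLe (stJ H co (g • x) {v}) (stJ H co' (g • x') {v'}) := by
  intro a ha
  have h1 : g⁻¹ * a * g ∈ stJ H co x {v} := by
    have h2 : g * (g⁻¹ * a * g) * g⁻¹ ∈ stJ H co (g • x) {v} := by
      have : g * (g⁻¹ * a * g) * g⁻¹ = a := by group
      rw [this]
      exact ha
    exact (stJ_conj L g _).1 h2
  obtain ⟨n, hn, h3⟩ := h _ h1
  refine ⟨n, hn, ?_⟩
  have h4 := (stJ_conj L' g _).2 h3
  have h5 : g * (g⁻¹ * a * g) ^ n * g⁻¹ = a ^ n := by
    have h6 := conj_pow (i := n) (a := g) (b := g⁻¹ * a * g)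
    rw [← h6]
    congr 1
    group
  rw [h5] at h4
  exact h4

private theorem C02_le (L : HLat H Γ S co N) (L' : HLat H Γ' S' co' N') (g : H) {x : Pt}
    {x' : Pt'} {v : ι} {v' : ι'} (h : PowLe (stJ H co x {v}) (stJ H co' x' {v'}))
    (h' : PowLe (stJ H co' x' {v'}) (stJ H co x {v}))
    (h1 : PowLe (stJ H co (g • x) {v}) (stJ H co x {v})) :
    PowLe (stJ H co' (g • x') {v'}) (stJ H co' x' {v'}) :=
  powLe_trans (C02_conj L' L g h') (powLe_trans h1 h)

private theorem C02_st (L : HLat H Γ S co N) (L' : HLat H Γ' S' co' N') {r : Rg Γ co N}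
    {r' : Rg Γ' co' N'} (h : KCorr H co co' r.1 r'.1) {x : Pt} {x' : Pt'} (hx : x ∈ r.1.2)
    (hx' : x' ∈ r'.1.2) : stJ H co x (st Γ r.1.1) = stJ H co' x' (st Γ' r'.1.1) := by
  ext g
  rw [l_char L (reg_oc L.ms.b r.2 hx), l_char L' (reg_oc L'.ms.b r'.2 hx')]
  obtain ⟨h1, h2⟩ := h x hx x' hx'
  exact ⟨C02_le L L' g h1 h2, C02_le L' L g h2 h1⟩

private theorem C02_rst (L : HLat H Γ S co N) (L' : HLat H Γ' S' co' N') {r s : Rg Γ co N}
    {r' s' : Rg Γ' co' N'} (h : KCorr H co co' r.1 r'.1) (h' : KCorr H co co' s.1 s'.1)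
    (hrs : RSt Γ r.1 s.1) : RSt Γ' r'.1 s'.1 := by
  obtain ⟨x, hx⟩ := C02_ne r.2
  obtain ⟨y, hy⟩ := C02_ne s.2
  obtain ⟨x', hx'⟩ := C02_ne r'.2
  obtain ⟨y', hy'⟩ := C02_ne s'.2
  have h1 := (kl_rst L r s hx hy).2 hrs
  rw [C02_st L L' h' hy hy'] at h1
  exact (kl_rst L' r' s' hx' hy').1 (powLe_trans (h x hx x' hx').2 h1)

theorem rg_equiv (L : HLat H Γ S co N) (L' : HLat H Γ' S' co' N') :
    ∃ F : Rg Γ co N ≃ Rg Γ' co' N', (∀ r, KCorr H co co' r.1 (F r).1) ∧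
      ∀ r s, RAdj Γ r.1 s.1 ↔ RAdj Γ' (F r).1 (F s).1 := by
  choose f hf using C02_exists L L'
  have hb : Function.Bijective f := by
    constructor
    · intro r s h
      have h1 := C02_symm (hf r)
      have h2 := C02_symm (hf s)
      rw [h] at h1
      exact rg_uniq L (C02_ne (f s).2) h1 h2
    · intro t
      obtain ⟨r, hr⟩ := C02_exists L' L t
      exact ⟨r, rg_uniq L' (C02_ne r.2) (hf r) (C02_symm hr)⟩
  refine ⟨Equiv.ofBijective f hb, hf, fun r s => ?_⟩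
  show RAdj Γ r.1 s.1 ↔ RAdj Γ' (f r).1 (f s).1
  constructor
  · intro h
    rcases C02_rst L L' (hf r) (hf s) (Or.inr h) with h1 | h1
    · have h2 := hb.1 (Subtype.ext h1)
      subst h2
      exact absurd h.1 (Γ.loopless.irrefl _)
    · exact h1
  · intro h
    rcases C02_rst L' L (C02_symm (hf r)) (C02_symm (hf s)) (Or.inr h) with h1 | h1
    · have h2 : r = s := Subtype.ext h1
      subst h2
      exact absurd h.1 (Γ'.loopless.irrefl _)
    · exact h1

end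

end VTB
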