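import Pool.Agent.Lib.MP_32d917_al_vt.A05

/-!
# C03: projections between regions

`PrR S co r s p`: all points of the region `s` have the projection `p` to `r`. `prr_exists`: let `r`, `s` be regions with not `RSt Γ r s`. Two points of `s.2` with different projections to `r`: on a geodesic in the convex set `s.2` (`cv_geod`, `reg_cv`) there is a step `z w` of label `i` with different projections; `prj_step`: `i = r.1`, `z ∈ r.2`; as `z, w ∈ s.2` differ in the coordinate `i`,
`i ∈ st s.1`: if `i = s.1` then `r = s` (`reg_mem`), otherwise `RAdj Γ r s`; contradiction. `prr_nint`: the projection `p` is not internal: let `x ∈ s.2` and `g` its gate in `r.2`. If `x ∉ r.2`: `gate_last`: a label `i ∉ st r.1` occurs at `g` (`occ`), so not `N g r.1`; by `n_reg` no point of `r.2` over `p = co g r.1` has `N _ r.1`. If `x ∈ r.2`: `s.1`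
occurs at `x` (`reg_oc`); if `N x r.1` then `s.1 ∈ st r.1` so `RSt Γ r s`. `prr_adj`: two regions `s`, `t` with a common point, both not in the star of `r`, have the same projection (unique: `prj_uniq`).
`two_of_three` (5.7): `x` a point, not `RSt Γ r s`: the projection of `x` to `r` is that of `s`, or the projection of `x` to `s` is that of `r`. Otherwise `sep_edge` gives an edge `a b` of the tree of `r` separating `x` from all points of `s.2` (the projection of a point `y ∈ s.2` is on the `b`-side: `Bt (S r.1) (co y r.1) b a`), and an edge `c d` of the tree of `s` separating `x` from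
all points of `r.2`. If `r.1 ≠ s.1`: the four quadrants: `x`; points of `r.2` with `r.1`-coordinate `a`, `b` (both on the `d`-side); points of `s.2` with `s.1`-coordinate `c`, `d` (both on the `b`-side of `a b`). `quad`: adjacent labels and a square; its side over `a b` is in `r.2` (`strip_ag` with a step of `r.2` over `a b`), its side over `c d` in `s.2`: the corner is in both: `RAdj`. If `r.1 = s.1 = i`: both edges in the same
tree `S i`: `Bt x_i a b`, all points of `s.2` on the `b`-side of `ab`, so the edge `c d` is on the `b`-side; similarly `a b` is on the `d`-side of `c d`; `x_i` is on the `a`-side and on the `c`-side: but `a`-side and `c`-side are disjoint: (if `w` is on the `a`-side of `ab` then the segment from `w` to `c` contains `a b`, so ... `Bt w a b`, `Bt b`-side; as `ab` is on the `d`-side of `cd`, the segment from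
`a` to `c` passes through `d`; so the segment from `w` to `c` passes through `d`: `w` is on the `d`-side): contradiction.
`sep_reg`: `x ≠ y` have different projections to some region: `co x i ≠ co y i` for some `i`; first edge of the segment; the region of a step over this edge. `fin_diff` (5.9): finitely many regions: every such region contains an edge of the segment between `co x i` and `co y i` for its label `i`; an edge is in only one region with label `i` (`strip_ag`); finitely many edges.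
`mem_iff` (5.8).
-/

set_option autoImplicit false

namespace VTB

open LatIso LatN LatF RaagIso

section

variable {ι Pt : Type} [Fintype ι] {V : ι → Type} {Γ : SimpleGraph ι}
  {S : ∀ i, SimpleGraph (V i)} {co : Pt → ∀ i, V i} {N : Pt → ι → Prop}

/-- all points of the region `s` have the projection `p` to `r` -/
def PrR (S : ∀ i, SimpleGraph (V i)) (co : Pt → ∀ i, V i) (r s : ι × Set Pt) (p : V r.1) : Prop :=
  ∀ x ∈ s.2, Prj S co r x p

theorem rst_symm {r s : ι × Set Pt} (h : RSt Γ r s) : RSt Γ s r := by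
  rcases h with h | ⟨h1, h2⟩
  · exact Or.inl h.symm
  · exact Or.inr ⟨h1.symm, by rw [Set.inter_comm]; exact h2⟩

private theorem C03_ag {r : ι × Set Pt} (hr : IsReg Γ co N r) {x y : Pt} (hx : x ∈ r.2)
    (hy : y ∈ r.2) : Ag co (st Γ r.1) x y := by
  obtain ⟨x0, _, h0⟩ := hr
  rw [h0] at hx hy
  exact ag_trans (ag_symm hx) hy

private theorem C03_mem {r : ι × Set Pt} (hr : IsReg Γ co N r) {x y : Pt} (hx : x ∈ r.2)
    (h : Ag co (st Γ r.1) x y) : y ∈ r.2 := by
  obtain ⟨x0, _, h0⟩ := hr
  rw [h0] at hx ⊢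
  exact ag_trans hx h

private theorem C03_ne {r : ι × Set Pt} (hr : IsReg Γ co N r) : r.2.Nonempty := by
  obtain ⟨x0, _, h0⟩ := hr
  exact ⟨x0, by rw [h0]; exact ag_refl x0⟩

private theorem C03_bt {W : Type} (T : SimpleGraph W) (a b : W) : Bt T a a b := by
  unfold Bt
  simp

/-- two regions with a common point whose labels are in the star of each other -/
private theorem C03_rst {r s : ι × Set Pt} (hr : IsReg Γ co N r) (hs : IsReg Γ co N s) {x : Pt}
    (hx : x ∈ r.2) (hx' : x ∈ s.2) (h : s.1 ∈ st Γ r.1) : RSt Γ r s := by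
  rcases h with h | h
  · left
    rw [reg_mem hr hx, reg_mem hs hx', h]
  · exact Or.inr ⟨h, ⟨x, hx, hx'⟩⟩

theorem prr_exists (M : MS1 Γ S co N) (r s : Rg Γ co N) (h : ¬ RSt Γ r.1 s.1) :
    ∃ p, PrR S co r.1 s.1 p := by
  obtain ⟨y, hy⟩ := C03_ne s.2
  obtain ⟨p, hp⟩ := prj_exists M r.2 y
  refine ⟨p, fun x hx => ?_⟩
  have key := cv_geod M (reg_cv M s.2) hy hx
  have claim : ∀ b, Relation.ReflTransGen (fun a b => a ∈ s.1.2 ∧ b ∈ s.1.2 ∧
      ∃ i, VSt S co i a b ∧ Bt (S i) (co a i) (co b i) (co x i) ∧ co a i ≠ co x i) y b →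
      Prj S co r.1 b p := by
    intro b hb
    induction hb with
    | refl => exact hp
    | @tail a b _ hab ih =>
      obtain ⟨ha, hb, i, hst, -, -⟩ := hab
      obtain ⟨q, hq⟩ := prj_exists M r.2 b
      by_cases hpq : p = q
      · rw [hpq]
        exact hq
      · exfalso
        obtain ⟨hi, h1, h2⟩ := prj_step M r.2 hst ih hq hpq
        apply h
        refine rst_symm (C03_rst s.2 r.2 ha h1 ?_)
        by_contra hcon
        have h3 := C03_ag s.2 ha hb r.1.1 hcon
        subst hi
        exact hst.1.ne h3.symm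
  exact claim x key

theorem prr_nint (M : MS1 Γ S co N) (r s : Rg Γ co N) (h : ¬ RSt Γ r.1 s.1) {p : V r.1.1}
    (hp : PrR S co r.1 s.1 p) : VR co r.1 p ∧ ¬ RInt co N r.1 p := by
  obtain ⟨x, hx⟩ := C03_ne s.2
  refine ⟨(hp x hx).1, ?_⟩
  rintro ⟨y, hy, hyp, hyN⟩
  by_cases hxr : x ∈ r.1.2
  · have h1 : p = co x r.1.1 := prj_uniq M (hp x hx) (prj_self M hxr)
    have h2 : N x r.1.1 := (n_reg M (C03_ag r.2 hy hxr) (by rw [← h1, hyp])).2 hyN
    exact h (C03_rst r.2 s.2 hxr hx (reg_oc M s.2 hx _ h2))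
  · obtain ⟨g, hg, hg'⟩ := gate M (reg_cv M r.2) (C03_ne r.2) x
    have h1 : p = co g r.1.1 := prj_uniq M (hp x hx) (prj_gate M r.2 hg hg')
    have h2 : N g r.1.1 := (n_reg M (C03_ag r.2 hy hg) (by rw [← h1, hyp])).2 hyN
    obtain ⟨i, z, hi, hz, -, -⟩ := gate_last M r.2 hxr hg hg'
    exact hi ((M.occ g i).1 ⟨z, vst_symm hz⟩ _ h2)

theorem prr_adj (M : MS1 Γ S co N) (r s t : Rg Γ co N) (hst : (s.1.2 ∩ t.1.2).Nonempty)
    {p q : V r.1.1} (hp : PrR S co r.1 s.1 p) (hq : PrR S co r.1 t.1 q) : p = q := by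
  obtain ⟨x, hx, hx'⟩ := hst
  exact prj_uniq M (hp x hx) (hq x hx')

/-- two edges of one tree -/
private theorem C03_tree {W : Type} {T : SimpleGraph W} (hT : T.IsTree) {x a b c d : W}
    (hab : T.Adj a b) (hcd : T.Adj c d) (h1 : Bt T x a b) (h2 : Bt T x c d) (h3 : Bt T a d c)
    (h4 : Bt T c b a) : False := by
  have e1 := st1_one hab
  have e2 := st1_one hcd
  have f1 := st_4pt hT x b a c
  have f2 := st_4pt hT x d c a
  have c1 : T.dist b a = T.dist a b := SimpleGraph.dist_comm
  have c2 : T.dist d c = T.dist c d := SimpleGraph.dist_comm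
  have c3 : T.dist c a = T.dist a c := SimpleGraph.dist_comm
  have c4 : T.dist b c = T.dist c b := SimpleGraph.dist_comm
  have c5 : T.dist d a = T.dist a d := SimpleGraph.dist_comm
  unfold Bt at h1 h2 h3 h4
  rcases le_max_iff.1 f1 with f1 | f1 <;> rcases le_max_iff.1 f2 with f2 | f2 <;> omega

private theorem C03_same (M : MS1 Γ S co N) {i j : ι} (h : i = j) {a b : V i} {c d : V j}
    {x y z : Pt} (hab : (S i).Adj a b) (hcd : (S j).Adj c d) (h1 : Bt (S i) (co x i) a b)
    (h2 : Bt (S j) (co x j) c d) (hy : co y i = a) (hz : co z j = c)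
    (h3 : Bt (S j) (co y j) d c) (h4 : Bt (S i) (co z i) b a) : False := by
  subst h
  rw [hy] at h3
  rw [hz] at h4
  exact C03_tree (M.tree i) hab hcd h1 h2 h3 h4

/-- a point with a step over an edge of the tree of a region is in the region -/
private theorem C03_edge (M : MS1 Γ S co N) {r : ι × Set Pt} (hr : IsReg Γ co N r)
    {a b : V r.1} (hab : (S r.1).Adj a b) (ha : VR co r a) (hb : VR co r b) {x y : Pt}
    (h : VSt S co r.1 x y) (hx : co x r.1 = a) (hy : co y r.1 = b) : x ∈ r.2 := by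
  obtain ⟨z, hz, hz'⟩ := ha
  obtain ⟨w, hw, hw'⟩ := hb
  obtain ⟨z1, hz1, w1, hw1, h1, h2, h3⟩ := cv_edge M (reg_cv M hr) hab hz hw
    (by rw [hz']; exact C03_bt _ _ _) (by rw [hw']; exact C03_bt _ _ _)
  have h4 := strip_ag M h1 h (by rw [h2, hx]) (by rw [h3, hy])
  exact C03_mem hr hz1 (ag_mono (fun _ hh => Or.inr hh) h4)

/-- an edge which separates `x` from the region `s` -/
private theorem C03_sep (M : MS1 Γ S co N) (r s : Rg Γ co N) {x : Pt} {p p0 : V r.1.1}
    (hp : Prj S co r.1 x p) (hp0 : PrR S co r.1 s.1 p0) (hne : p ≠ p0) :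
    ∃ a b, (S r.1.1).Adj a b ∧ VR co r.1 a ∧ VR co r.1 b ∧ Bt (S r.1.1) (co x r.1.1) a b ∧
      ∀ y ∈ s.1.2, Bt (S r.1.1) (co y r.1.1) b a := by
  obtain ⟨y0, hy0⟩ := C03_ne s.2
  obtain ⟨a, b, h1, h2, h3, h4, -, -, h5⟩ := sep_edge M r.2 hp (hp0 y0 hy0) hne
  refine ⟨a, b, h1, h2, h3, h4, fun y hy => ?_⟩
  have h6 := (hp0 y hy).2 a h2
  exact bt_symm (bt_trans (M.tree r.1.1).connected (bt_symm h5) (bt_symm h6))

theorem two_of_three (M : MS1 Γ S co N) (r s : Rg Γ co N) (h : ¬ RSt Γ r.1 s.1) (x : Pt)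
    {p : V r.1.1} {q : V s.1.1} (hp : Prj S co r.1 x p) (hq : Prj S co s.1 x q) :
    PrR S co r.1 s.1 p ∨ PrR S co s.1 r.1 q := by
  obtain ⟨p0, hp0⟩ := prr_exists M r s h
  obtain ⟨q0, hq0⟩ := prr_exists M s r (fun hh => h (rst_symm hh))
  by_cases h1 : p = p0
  · left
    rw [h1]
    exact hp0
  by_cases h2 : q = q0
  · right
    rw [h2]
    exact hq0
  exfalso
  obtain ⟨a, b, hab, ha, hb, hxa, hsb⟩ := C03_sep M r s hp hp0 h1
  obtain ⟨c, d, hcd, hc, hd, hxc, hrd⟩ := C03_sep M s r hq hq0 h2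
  have ha' := ha
  have hc' := hc
  obtain ⟨ya, hya, hya'⟩ := ha'
  obtain ⟨yc, hyc, hyc'⟩ := hc'
  by_cases hij : r.1.1 = s.1.1
  · exact C03_same M hij hab hcd hxa hxc hya' hyc' (hrd ya hya) (hsb yc hyc)
  · have hd' := hd
    obtain ⟨yd, hyd, hyd'⟩ := hd'
    obtain ⟨hadj, u, v, w, t, h3, h4, -, -, h5, h6, h7, h8⟩ := quad M hij hab hcd ⟨x, hxa, hxc⟩
      ⟨ya, by rw [hya']; exact C03_bt _ _ _, hrd ya hya⟩
      ⟨yc, hsb yc hyc, by rw [hyc']; exact C03_bt _ _ _⟩
      ⟨yd, hsb yd hyd, by rw [hyd']; exact C03_bt _ _ _⟩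
    exact h (Or.inr ⟨hadj, u, C03_edge M r.2 hab ha hb h3 h5 h6,
      C03_edge M s.2 hcd hc hd h4 h7 h8⟩)

end

end VTB
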