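import Pool.Agent.Lib.MP_32d917_al_vt.C03

/-!
# C04: projections to all regions determine a point

`sep_reg`: `x ≠ y` have different projections to some region: `co x i ≠ co y i` for some `i`; let `a b` be the first edge of the segment from `co x i` to `co y i`, `z w` a step over it (`edge_step`); the region of `(z, i)` contains it, and the projections of `x`, `y` are on different sides of it (`a`, `b` are vertices of the tree of the region; projection to a convex set containing `a b`).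
`fin_diff` (5.9): the regions where the projections of `x` and `y` differ are finite in number: such a region `r` of label `i` contains an edge `a b` of the segment between `co x i` and `co y i` (`sep_edge`); the region of label `i` is determined by the edge (`strip_ag`: two steps over the same edge agree outside `lk i`; both regions contain steps over `a b`: `cv_edge`, `reg_cv`); finitely many
edges on a segment.
`mem_iff` (5.8): `x ∈ r.2` iff for all regions `s` not in the star of `r` the projection of `x` to `s` is that of `r`. →: clear (`prr_exists`, uniqueness). ←: let `x ∉ r.2`, `g` its gate, `gate_last`: step `z g` of label `i ∉ st r.1` with `Bt x_i z_i g_i`, all points of `r.2` have the `i`-coordinate `co g i`. Let `s = rg g i`: not `RSt Γ r s` as `i ∉ st r.1`; the projection of `r` to `s` is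
`co g i`, the one of `x` is on the other side of the edge `z_i g_i`.
`uadj_iff`: `x`, `y` are adjacent iff there is a region `r` with `x ∈ r.2` such that the projections of `x` and `y` to all regions `s ≠ r` agree and those to `r` are adjacent vertices. →: `r = rg x i`; for a region `s ≠ r` the projections agree by `prj_step`. ←: `y ∈ r.2` by `mem_iff`; `co y r.1` and `co x r.1` are adjacent; if `co x j ≠ co y j` for some `j ≠ r.1` then the argument of
`sep_reg` gives a region of label `j` with different projections: contradiction.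
-/

set_option autoImplicit false

namespace VTB

open LatIso LatN LatF RaagIso

section

variable {ι Pt : Type} [Fintype ι] {V : ι → Type} {Γ : SimpleGraph ι}
  {S : ∀ i, SimpleGraph (V i)} {co : Pt → ∀ i, V i} {N : Pt → ι → Prop}

private theorem C04_bt {W : Type} (T : SimpleGraph W) (a b : W) : Bt T a a b := by
  unfold Bt
  simp

private theorem C04_st {i j : ι} (h : j ∉ st Γ i) : j ≠ i := by
  intro hh
  exact h (Or.inl hh)

private theorem C04_ag {i : ι} {x y : Pt} (h : VSt S co i x y) : Ag co (st Γ i) x y :=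
  fun j hj => h.2 j (C04_st hj)

/-- a point of the region `(i, A)` over an edge which is in the tree of the region -/
private theorem C04_edge (M : MS1 Γ S co N) {r : ι × Set Pt} (hr : IsReg Γ co N r)
    {a b : V r.1} (hab : (S r.1).Adj a b) (ha : VR co r a) (hb : VR co r b) :
    ∃ z ∈ r.2, ∃ w, VSt S co r.1 z w ∧ co z r.1 = a ∧ co w r.1 = b := by
  obtain ⟨z, hz, hz'⟩ := ha
  obtain ⟨w, hw, hw'⟩ := hb
  obtain ⟨z1, hz1, w1, -, h1, h2, h3⟩ := cv_edge M (reg_cv M hr) hab hz hw
    (by rw [hz']; exact C04_bt _ _ _) (by rw [hw']; exact C04_bt _ _ _)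
  exact ⟨z1, hz1, w1, h1, h2, h3⟩

private theorem C04_mem {r : ι × Set Pt} (hr : IsReg Γ co N r) {x y : Pt} (hx : x ∈ r.2)
    (h : Ag co (st Γ r.1) x y) : y ∈ r.2 := by
  obtain ⟨x0, _, h0⟩ := hr
  rw [h0] at hx ⊢
  exact ag_trans hx h

theorem sep_reg (M : MS1 Γ S co N) {x y : Pt} {i : ι} (h : co x i ≠ co y i) :
    ∃ (r : Rg Γ co N) (p q : V r.1.1), r.1.1 = i ∧ Prj S co r.1 x p ∧ Prj S co r.1 y q ∧
      p ≠ q := by
  obtain ⟨b, hab, hb⟩ := st_next (M.tree i) h
  obtain ⟨z, w, hzw, hz, hw⟩ := edge_step M hab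
  have hoc : Oc Γ N z i := (M.occ z i).1 ⟨w, hzw⟩
  have hr := rg_isReg (co := co) hoc
  obtain ⟨p, hp⟩ := prj_exists M hr x
  obtain ⟨q, hq⟩ := prj_exists M hr y
  refine ⟨⟨rg Γ co z i, hr⟩, p, q, rfl, hp, hq, ?_⟩
  rintro rfl
  have hza : VR co (rg Γ co z i) (co z i) := ⟨z, ag_refl z, rfl⟩
  have hwb : VR co (rg Γ co z i) (co w i) := ⟨w, C04_ag hzw, rfl⟩
  have h1 := hp.2 _ hza
  have h2 := hp.2 _ hwb
  have h3 := hq.2 _ hza
  have h4 := hq.2 _ hwb
  change Bt (S i) (co x i) p (co z i) at h1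
  change Bt (S i) (co x i) p (co w i) at h2
  change Bt (S i) (co y i) p (co z i) at h3
  change Bt (S i) (co y i) p (co w i) at h4
  rw [hz] at h1 h3
  rw [hw] at h2 h4
  have h5 := st1_one hab
  have c1 : (S i).dist (co y i) (co x i) = (S i).dist (co x i) (co y i) :=
    SimpleGraph.dist_comm
  have c2 : (S i).dist (co y i) b = (S i).dist b (co y i) := SimpleGraph.dist_comm
  have c3 : (S i).dist (co x i) (co x i) = 0 := SimpleGraph.dist_self
  unfold Bt at hb h1 h2 h3 h4
  change (S i).Adj (co x i) b at hab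
  omega

theorem pt_eq (M : MS1 Γ S co N) {x y : Pt}
    (h : ∀ (r : Rg Γ co N) (p : V r.1.1), Prj S co r.1 x p → Prj S co r.1 y p) : x = y := by
  refine M.inj x y fun i => ?_
  by_contra hne
  obtain ⟨r, p, q, -, hp, hq, hpq⟩ := sep_reg M hne
  exact hpq (prj_uniq M (h r p hp) hq)

/-- the region `(i, A)` contains an edge of the segment from `co x i` to `co y i`, at the
distance `k` -/
private def C04P (Γ : SimpleGraph ι) (S : ∀ i, SimpleGraph (V i)) (co : Pt → ∀ i, V i)
    (N : Pt → ι → Prop) (x y : Pt) (i : ι) (k : ℕ) (A : Set Pt) : Prop :=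
  IsReg Γ co N (i, A) ∧ ∃ a b : V i, (S i).Adj a b ∧ VR co (i, A) a ∧ VR co (i, A) b ∧
    Bt (S i) (co x i) a b ∧ Bt (S i) (co y i) b a ∧ (S i).dist (co x i) a = k

private theorem C04_seg {W : Type} {T : SimpleGraph W} (hT : T.IsTree) {x y a b : W}
    (hab : T.Adj a b) (h1 : Bt T x a b) (h2 : Bt T y b a) : Bt T x a y ∧ Bt T x b y := by
  have e := st1_one hab
  have f := st_4pt hT x b a y
  have c1 : T.dist b a = T.dist a b := SimpleGraph.dist_comm
  have c2 : T.dist b y = T.dist y b := SimpleGraph.dist_comm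
  have c3 : T.dist a y = T.dist y a := SimpleGraph.dist_comm
  have c4 := st1_tri hT x a y
  have c5 := st1_tri hT x b y
  unfold Bt at h1 h2 ⊢
  rcases le_max_iff.1 f with f | f <;> omega

private theorem C04_uniq (M : MS1 Γ S co N) {x y : Pt} {i : ι} {k : ℕ} {A B : Set Pt}
    (hA : C04P Γ S co N x y i k A) (hB : C04P Γ S co N x y i k B) : A = B := by
  obtain ⟨rA, a, b, hab, ha, hb, h1, h2, h3⟩ := hA
  obtain ⟨rB, a', b', hab', ha', hb', h1', h2', h3'⟩ := hB
  have hT := M.tree i
  obtain ⟨s1, s2⟩ := C04_seg hT hab h1 h2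
  obtain ⟨s1', s2'⟩ := C04_seg hT hab' h1' h2'
  have ea : a = a' := st_pt_uniq hT s1 s1' (by rw [h3, h3'])
  have eb : b = b' := by
    refine st_pt_uniq hT s2 s2' ?_
    have e := st1_one hab
    have e' := st1_one hab'
    unfold Bt at h1 h1'
    omega
  subst ea eb
  obtain ⟨z, hz, w, hzw, hza, hwb⟩ := C04_edge M rA hab ha hb
  obtain ⟨z', hz', w', hzw', hza', hwb'⟩ := C04_edge M rB hab ha' hb'
  have h4 := strip_ag M hzw hzw' (hza.trans hza'.symm) (hwb.trans hwb'.symm)
  have h5 : z' ∈ A := C04_mem rA hz (ag_mono (fun _ hh => Or.inr hh) h4)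
  have h6 := reg_mem rA h5
  have h7 := reg_mem rB hz'
  have h8 : ((i, A) : ι × Set Pt) = (i, B) := h6.trans h7.symm
  exact congrArg Prod.snd h8

theorem fin_diff (M : MS1 Γ S co N) (x y : Pt) :
    {r : Rg Γ co N | ¬ ∃ p : V r.1.1, Prj S co r.1 x p ∧ Prj S co r.1 y p}.Finite := by
  classical
  have key : ∀ r : Rg Γ co N, r ∈ {r : Rg Γ co N | ¬ ∃ p : V r.1.1, Prj S co r.1 x p ∧
      Prj S co r.1 y p} → ∃ k, k ≤ (S r.1.1).dist (co x r.1.1) (co y r.1.1) ∧
        C04P Γ S co N x y r.1.1 k r.1.2 := by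
    intro r hr
    obtain ⟨p, hp⟩ := prj_exists M r.2 x
    obtain ⟨q, hq⟩ := prj_exists M r.2 y
    have hpq : p ≠ q := by
      rintro rfl
      exact hr ⟨p, hp, hq⟩
    obtain ⟨a, b, h1, h2, h3, h4, h5, -, -⟩ := sep_edge M r.2 hp hq hpq
    refine ⟨(S r.1.1).dist (co x r.1.1) a, ?_, r.2, a, b, h1, h2, h3, h4, h5, rfl⟩
    have h6 := (C04_seg (M.tree r.1.1) h1 h4 h5).1
    unfold Bt at h6
    omega
  have key2 : ∀ r : Rg Γ co N, ∃ k, r ∈ {r : Rg Γ co N | ¬ ∃ p : V r.1.1, Prj S co r.1 x p ∧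
      Prj S co r.1 y p} → k ≤ (S r.1.1).dist (co x r.1.1) (co y r.1.1) ∧
        C04P Γ S co N x y r.1.1 k r.1.2 := by
    intro r
    by_cases hr : r ∈ {r : Rg Γ co N | ¬ ∃ p : V r.1.1, Prj S co r.1 x p ∧ Prj S co r.1 y p}
    · obtain ⟨k, hk⟩ := key r hr
      exact ⟨k, fun _ => hk⟩
    · exact ⟨0, fun hh => absurd hh hr⟩
  choose K hK using key2
  refine Set.Finite.of_injOn (f := fun r : Rg Γ co N => (r.1.1, K r))
    (t := Set.univ ×ˢ Set.Iic (∑ i, (S i).dist (co x i) (co y i))) ?_ ?_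
    (Set.finite_univ.prod (Set.finite_Iic _))
  · intro r hr
    refine ⟨Set.mem_univ _, ?_⟩
    rw [Set.mem_Iic]
    exact (hK r hr).1.trans (Finset.single_le_sum
      (f := fun i => (S i).dist (co x i) (co y i)) (fun _ _ => Nat.zero_le _)
      (Finset.mem_univ r.1.1))
  · rintro ⟨⟨i, A⟩, hA⟩ hr ⟨⟨j, B⟩, hB⟩ hs hrs
    have h1 := (hK _ hr).2
    have h2 := (hK _ hs).2
    have h3 : i = j := congrArg Prod.fst hrs
    have h4 : K ⟨(i, A), hA⟩ = K ⟨(j, B), hB⟩ := congrArg Prod.snd hrs
    subst h3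
    change C04P Γ S co N x y i (K ⟨(i, A), hA⟩) A at h1
    change C04P Γ S co N x y i (K ⟨(i, B), hB⟩) B at h2
    rw [← h4] at h2
    have h5 := C04_uniq M h1 h2
    subst h5
    rfl

theorem mem_iff (M : MS1 Γ S co N) (r : Rg Γ co N) (x : Pt) :
    x ∈ r.1.2 ↔ ∀ s : Rg Γ co N, ¬ RSt Γ r.1 s.1 → ∀ p : V s.1.1, PrR S co s.1 r.1 p →
      Prj S co s.1 x p := by
  constructor
  · intro hx s _ p hp
    exact hp x hx
  · intro h
    by_contra hx
    obtain ⟨x0, _, h0⟩ := r.2
    have hne : (r.1.2).Nonempty := ⟨x0, by rw [h0]; exact ag_refl x0⟩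
    obtain ⟨g, hg, hg'⟩ := gate M (reg_cv M r.2) hne x
    obtain ⟨i, z, hi, hz, hz', hall⟩ := gate_last M r.2 hx hg hg'
    have hoc : Oc Γ N g i := (M.occ g i).1 ⟨z, vst_symm hz⟩
    have hs := rg_isReg (co := co) hoc
    have h1 : Prj S co (rg Γ co g i) x (co g i) := by
      refine h ⟨rg Γ co g i, hs⟩ ?_ (co g i) ?_
      · rintro (hh | ⟨hh, -⟩)
        · have h2 : r.1.1 = i := congrArg Prod.fst hh
          exact hi (Or.inl h2.symm)
        · exact hi (Or.inr hh)
      · intro y hy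
        refine ⟨⟨g, ag_refl g, rfl⟩, fun q _ => ?_⟩
        change Bt (S i) (co y i) (co g i) q
        rw [hall y hy]
        exact C04_bt _ _ _
    have h3 := h1.2 (co z i) ⟨z, C04_ag (vst_symm hz), rfl⟩
    change Bt (S i) (co x i) (co g i) (co z i) at h3
    have h4 := st1_one hz.1
    have c1 : (S i).dist (co g i) (co z i) = (S i).dist (co z i) (co g i) :=
      SimpleGraph.dist_comm
    unfold Bt at h3 hz'
    omega

theorem uadj_iff (M : MS1 Γ S co N) (x y : Pt) :
    UAdj S co x y ↔ ∃ r : Rg Γ co N, x ∈ r.1.2 ∧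
      (∀ s : Rg Γ co N, s ≠ r → ∀ p : V s.1.1, Prj S co s.1 x p → Prj S co s.1 y p) ∧
      ∃ p q : V r.1.1, Prj S co r.1 x p ∧ Prj S co r.1 y q ∧ (S r.1.1).Adj p q := by
  constructor
  · rintro ⟨i, hi⟩
    have hoc : Oc Γ N x i := (M.occ x i).1 ⟨y, hi⟩
    have hr := rg_isReg (co := co) hoc
    refine ⟨⟨rg Γ co x i, hr⟩, ag_refl x, ?_, co x i, co y i,
      prj_self M (r := rg Γ co x i) (ag_refl x), prj_self M (r := rg Γ co x i) (C04_ag hi), hi.1⟩
    intro s hs p hp
    obtain ⟨q, hq⟩ := prj_exists M s.2 y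
    by_cases hpq : p = q
    · rw [hpq]
      exact hq
    · exfalso
      obtain ⟨h1, h2, -⟩ := prj_step M s.2 hi hp hq hpq
      apply hs
      apply Subtype.ext
      rw [reg_mem s.2 h2, ← h1]
  · rintro ⟨r, hx, h1, p, q, hp, hq, hpq⟩
    have hy : y ∈ r.1.2 := by
      rw [mem_iff M r y]
      intro s hs p' hp'
      exact h1 s (fun hh => hs (Or.inl (congrArg Subtype.val hh).symm)) p' (hp' x hx)
    have ep : p = co x r.1.1 := prj_uniq M hp (prj_self M hx)
    have eq : q = co y r.1.1 := prj_uniq M hq (prj_self M hy)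
    rw [ep, eq] at hpq
    refine ⟨r.1.1, hpq, fun j hj => ?_⟩
    by_contra hne
    obtain ⟨t, p', q', ht, hp', hq', hpq'⟩ := sep_reg M (x := x) (y := y) (i := j)
      (fun hh => hne hh.symm)
    refine hpq' (prj_uniq M (h1 t ?_ p' hp') hq')
    rintro rfl
    exact hj ht.symm

end

end VTB
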