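import Pool.Agent.Lib.MP_32d917_al_vt.C03

/-!
# C05: the regions at one chamber

Fix a region `r`, `v = r.1.1`. `NAdj r s t`: `s`, `t` are adjacent regions, both not in the star of `r`; `NConn r s t`: reflexive transitive closure. Let `z` be a CHAMBER: no label is internal at `z` (so all labels occur). `ch_conn`: any two regions `rg z w`, `rg z w'` which are not in the star of `r` are `NConn`; `ch_ne`: some `rg z w` is not in the star of `r`.
Regions `rg z w`, `rg z w'` with `Γ.Adj w w'` are adjacent. So let `B = {w | RSt Γ r (rg z w)}`; we show that `Bᶜ` is nonempty and connected in `Γ`.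
Case `z ∈ r.2`: `B = st v` (if `w ∉ st v` then not `RSt`: labels; `rg z v = r`; `w ∈ lk v`: common point). Connected: `NoSep` for `v` with `K` = the set of all `w` connected to the given one; nonempty: `NoDom` gives a neighbour of some `w ≠ v` outside `st v` (there are two labels).
Case `z ∉ r.2`: `w ∈ B` implies `w ∈ lk v` (`w = v`: `rg z v = r` would give `z ∈ r.2`) and `r.2` contains a point `y` with `Ag (st w) z y`. Let `g` be the gate of `z`, `gate_last`: label `w1 ∉ st v`, all points of `r.2` have the `w1`-coordinate `co g w1`, and `co z w1 ≠ co g w1` (`Bt` with the step). So `w1 ∈ st w` for `w ∈ B`, `w1 ≠ w` (`w ∈ lk v`), so `B ⊆ lk v ∩ lk w1`.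
`Bᶜ` is connected: it contains `(st v)ᶜ`, connected by `NoSep`, nonempty (`w1`). `u ∈ lk v \ B`: by `NoDom` (`u ≠ v`) `u` has a neighbour outside `st v`. `v` has a neighbour `u ∈ lk v`, `u ∉ st w1` (`NoDom` for `v ≠ w1`), `u ∉ B`. So all elements of `Bᶜ` are connected to `(st v)ᶜ`.
-/

set_option autoImplicit false

namespace VTB

open LatIso LatN LatF RaagIso

section

variable {ι Pt : Type} [Fintype ι] {V : ι → Type} {Γ : SimpleGraph ι}
  {S : ∀ i, SimpleGraph (V i)} {co : Pt → ∀ i, V i} {N : Pt → ι → Prop}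

/-- adjacent regions outside the star of `r` -/
def NAdj (Γ : SimpleGraph ι) (r s t : ι × Set Pt) : Prop :=
  RAdj Γ s t ∧ ¬ RSt Γ r s ∧ ¬ RSt Γ r t

/-- connected outside the star of `r` -/
def NConn (Γ : SimpleGraph ι) (co : Pt → ∀ i, V i) (N : Pt → ι → Prop) (r : ι × Set Pt)
    (s t : Rg Γ co N) : Prop :=
  Relation.ReflTransGen (fun a b : Rg Γ co N => NAdj Γ r a.1 b.1) s t

private theorem C05_oc {z : Pt} (hz : ∀ k, ¬ CL Γ k → ¬ N z k) (w : ι) : Oc Γ N z w := by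
  intro v hv
  by_cases hc : CL Γ v
  · exact hc w
  · exact absurd hv (hz v hc)

/-- all regions are in the star of a region with a central label -/
theorem cl_rst {r s : ι × Set Pt} (hr : IsReg Γ co N r) (hs : IsReg Γ co N s) (h : CL Γ r.1) :
    RSt Γ r s := by
  obtain ⟨x, _, hx⟩ := hr
  obtain ⟨y, _, hy⟩ := hs
  have h1 : ∀ z, z ∈ r.2 := by
    intro z
    rw [hx]
    intro j hj
    exact absurd (h j) hj
  by_cases he : s.1 = r.1
  · left
    refine Prod.ext he.symm ?_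
    ext z
    refine ⟨fun _ => ?_, fun _ => h1 z⟩
    rw [hy]
    intro j hj
    rw [he] at hj
    exact absurd (h j) hj
  · right
    exact ⟨cl_adj h (fun e => he e.symm), y, h1 y, by rw [hy]; exact ag_refl y⟩

/-- the region of the label `w` at the chamber `z` -/
private def C05_r {z : Pt} (hz : ∀ k, ¬ CL Γ k → ¬ N z k) (w : ι) : Rg Γ co N :=
  ⟨rg Γ co z w, rg_isReg (C05_oc hz w)⟩

private theorem C05_mem (z : Pt) (w : ι) : z ∈ (rg Γ co z w).2 := ag_refl z

private theorem C05_lab {r : ι × Set Pt} {z : Pt} {w : ι} (h : RSt Γ r (rg Γ co z w)) :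
    w ∈ st Γ r.1 := by
  rcases h with h | h
  · left
    rw [h]
    rfl
  · exact Or.inr h.1

private theorem C05_in {r : ι × Set Pt} (hr : IsReg Γ co N r) {z : Pt} (hzr : z ∈ r.2) (w : ι) :
    RSt Γ r (rg Γ co z w) ↔ w ∈ st Γ r.1 := by
  constructor
  · exact C05_lab
  · rintro (rfl | h)
    · exact Or.inl (reg_mem hr hzr)
    · exact Or.inr ⟨h, z, hzr, C05_mem z w⟩

private theorem C05_out (M : MS1 Γ S co N) {r : ι × Set Pt} (hr : IsReg Γ co N r) {z : Pt}
    (hzr : z ∉ r.2) : ∃ w1, w1 ∉ st Γ r.1 ∧ ∀ w, RSt Γ r (rg Γ co z w) →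
      w ∈ lk Γ r.1 ∧ w ∈ lk Γ w1 := by
  have h0 : r.2.Nonempty := by
    obtain ⟨x0, _, h0⟩ := hr
    exact ⟨x0, by rw [h0]; exact ag_refl x0⟩
  obtain ⟨g, hg, hg'⟩ := gate M (reg_cv M hr) h0 z
  obtain ⟨w1, z', hw1, hst, hbt, hall⟩ := gate_last M hr hzr hg hg'
  have hne : co g w1 ≠ co z w1 := by
    intro h
    have e1 := st1_one hst.1
    unfold Bt at hbt
    rw [h, SimpleGraph.dist_self, ← h] at hbt
    omega
  refine ⟨w1, hw1, fun w hw => ?_⟩
  rcases hw with h | h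
  · exact absurd (by rw [h]; exact C05_mem z w) hzr
  · obtain ⟨hadj, y, hy, hy'⟩ := h
    have hwl : w ∈ lk Γ r.1 := hadj
    refine ⟨hwl, ?_⟩
    have h1 : w1 ∈ st Γ w := by
      by_contra h2
      have h3 : co y w1 = co z w1 := hy' w1 h2
      exact hne (by rw [← hall y hy, h3])
    rcases h1 with h1 | h1
    · exact absurd (h1 ▸ (Or.inr hwl : w ∈ st Γ r.1)) hw1
    · exact h1.symm

/-- the complement of the labels of the regions at `z` in the star of `r` is connected -/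
private theorem C05_conn (M : MS1 Γ S co N) (hG : GG Γ) {r : ι × Set Pt} (hr : IsReg Γ co N r)
    (hcl : ¬ CL Γ r.1) (z : Pt) (K : Set ι)
    (hK : ∀ a b, a ∈ K → ¬ RSt Γ r (rg Γ co z a) → ¬ RSt Γ r (rg Γ co z b) → Γ.Adj a b → b ∈ K)
    (a b : ι) (ha : a ∈ K) (ha' : ¬ RSt Γ r (rg Γ co z a)) (hb' : ¬ RSt Γ r (rg Γ co z b)) :
    b ∈ K := by
  by_cases hzr : z ∈ r.2
  · refine hG.sep r.1 K (fun a b h1 h2 h3 h4 => hK a b h1 ?_ ?_ h4) a b ha ?_ ?_
    · rwa [C05_in hr hzr]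
    · rwa [C05_in hr hzr]
    · rwa [C05_in hr hzr] at ha'
    · rwa [C05_in hr hzr] at hb'
  · obtain ⟨w1, hw1, hB⟩ := C05_out M hr hzr
    -- labels outside the star of the label of `r` are not in `B`
    have hout : ∀ w, w ∉ st Γ r.1 → ¬ RSt Γ r (rg Γ co z w) := fun w hw h => hw (C05_lab h)
    have hself : ¬ RSt Γ r (rg Γ co z r.1) := fun h => Γ.loopless.irrefl _ (hB _ h).1
    -- one step to the outside for labels in the link
    have hlk : ∀ u, u ∈ lk Γ r.1 → ∃ u', Γ.Adj u u' ∧ u' ∉ st Γ r.1 := by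
      intro u hu
      have hne : u ≠ r.1 := by
        rintro h
        rw [h] at hu
        exact Γ.loopless.irrefl _ hu
      exact hG.dom u r.1 hne hcl
    have hv1 : r.1 ≠ w1 := by
      rintro h
      exact hw1 (Or.inl h.symm)
    obtain ⟨u1, hu1, hu1'⟩ := hG.dom r.1 w1 hv1 (fun h => hw1 (cl_symm h r.1))
    have hu1B : ¬ RSt Γ r (rg Γ co z u1) := fun h => hu1' (Or.inr (hB _ h).2)
    obtain ⟨u2, hu2, hu2'⟩ := hlk u1 hu1
    -- everything outside `B` is connected with the outside of the star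
    have hto : ∀ u, u ∈ K → ¬ RSt Γ r (rg Γ co z u) → ∃ u', u' ∈ K ∧ u' ∉ st Γ r.1 := by
      intro u hu huB
      by_cases h1 : u ∈ st Γ r.1
      · rcases h1 with h1 | h1
        · subst h1
          exact ⟨u2, hK u1 u2 (hK _ u1 hu huB hu1B hu1) hu1B (hout _ hu2') hu2, hu2'⟩
        · obtain ⟨u', h2, h3⟩ := hlk u h1
          exact ⟨u', hK u u' hu huB (hout _ h3) h2, h3⟩
      · exact ⟨u, hu, h1⟩
    obtain ⟨a', ha1, ha2⟩ := hto a ha ha'
    have hall : ∀ u, u ∉ st Γ r.1 → u ∈ K := fun u hu =>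
      hG.sep r.1 K (fun a b h1 h2 h3 h4 => hK a b h1 (hout _ h2) (hout _ h3) h4) a' u ha1 ha2 hu
    by_cases h1 : b ∈ st Γ r.1
    · rcases h1 with h1 | h1
      · subst h1
        exact hK u1 _ (hK u2 u1 (hall _ hu2') (hout _ hu2') hu1B hu2.symm) hu1B hb' hu1.symm
      · obtain ⟨u', h2, h3⟩ := hlk b h1
        exact hK u' b (hall _ h3) (hout _ h3) hb' h2.symm
    · exact hall b h1

theorem ch_conn (M : MS1 Γ S co N) (hG : GG Γ) (r : Rg Γ co N) {z : Pt} (hz : ∀ k, ¬ CL Γ k → ¬ N z k)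
    (s t : Rg Γ co N) (hs : s.1 = rg Γ co z s.1.1) (ht : t.1 = rg Γ co z t.1.1)
    (hrs : ¬ RSt Γ r.1 s.1) (hrt : ¬ RSt Γ r.1 t.1) : NConn Γ co N r.1 s t := by
  have es : s = C05_r hz s.1.1 := Subtype.ext hs
  have et : t = C05_r hz t.1.1 := Subtype.ext ht
  have h := C05_conn M hG r.2 (fun hc => hrs (cl_rst r.2 s.2 hc)) z {w | NConn Γ co N r.1 s (C05_r hz w)} ?_ s.1.1 t.1.1 ?_ ?_ ?_
  · rw [et]
    exact h
  · intro a b h1 h2 h3 h4
    exact Relation.ReflTransGen.tail h1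
      ⟨⟨h4, z, C05_mem z a, C05_mem z b⟩, h2, h3⟩
  · show NConn Γ co N r.1 s (C05_r hz s.1.1)
    rw [← es]
    exact Relation.ReflTransGen.refl
  · rwa [← hs]
  · rwa [← ht]

theorem ch_ne (r : Rg Γ co N) (hcl : ¬ CL Γ r.1.1) {z : Pt}
    (hz : ∀ k, ¬ CL Γ k → ¬ N z k) :
    ∃ s : Rg Γ co N, s.1 = rg Γ co z s.1.1 ∧ ¬ RSt Γ r.1 s.1 := by
  obtain ⟨u, hu⟩ := not_cl hcl
  exact ⟨C05_r hz u, rfl, fun h => hu (C05_lab h)⟩

/-- two chambers in one panel with the same projection to `r` have a common region outside the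
star of `r` -/
theorem ch_jump (M : MS1 Γ S co N) (hG : GG Γ) (r : Rg Γ co N) (hcl : ¬ CL Γ r.1.1) {z z' : Pt}
    (hz : ∀ k, ¬ CL Γ k → ¬ N z k) (hz' : ∀ k, ¬ CL Γ k → ¬ N z' k) {k : ι} (hk : Ag co {k} z z') {p : V r.1.1}
    (hp : Prj S co r.1 z p) (hp' : Prj S co r.1 z' p) :
    ∃ s : Rg Γ co N, s.1 = rg Γ co z s.1.1 ∧ s.1 = rg Γ co z' s.1.1 ∧ ¬ RSt Γ r.1 s.1 := by
  have heq : ∀ w, k ∈ st Γ w → rg Γ co z w = rg Γ co z' w := by
    intro w hw
    have h1 : Ag co (st Γ w) z z' := fun j hj => hk j fun h => hj (by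
      rw [Set.mem_singleton_iff.1 h]
      exact hw)
    refine Prod.ext rfl ?_
    show {y | Ag co (st Γ w) z y} = {y | Ag co (st Γ w) z' y}
    ext y
    exact ⟨fun h => ag_trans (ag_symm h1) h, fun h => ag_trans h1 h⟩
  by_cases hkv : k = r.1.1
  · by_cases hzr : z ∈ r.1.2
    · have hzr' : z' ∈ r.1.2 := by
        obtain ⟨x0, _, h0⟩ := r.2
        rw [h0] at hzr ⊢
        refine ag_trans hzr fun j hj => hk j fun h => hj ?_
        rw [Set.mem_singleton_iff.1 h, hkv]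
        exact Or.inl rfl
      have h1 := prj_uniq M hp (prj_self M hzr)
      have h2 := prj_uniq M hp' (prj_self M hzr')
      have h3 : z = z' := by
        refine M.inj z z' fun i => ?_
        by_cases hi : i = r.1.1
        · subst hi
          rw [← h1, ← h2]
        · exact (hk i (by rw [Set.mem_singleton_iff, hkv]; exact hi)).symm
      obtain ⟨s, hs, hs'⟩ := ch_ne r hcl hz
      exact ⟨s, hs, by rw [← h3]; exact hs, hs'⟩
    · obtain ⟨w1, hw1, hB⟩ := C05_out M r.2 hzr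
      refine ⟨C05_r hz k, rfl, heq k (Or.inl rfl), fun h => ?_⟩
      have h1 := (hB k h).1
      rw [hkv] at h1
      exact Γ.loopless.irrefl _ h1
  · obtain ⟨u, hu, hu'⟩ := hG.dom k r.1.1 hkv hcl
    exact ⟨C05_r hz u, rfl, heq u (Or.inr hu.symm), fun h => hu' (C05_lab h)⟩

end

end VTB
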