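import Pool.Agent.Lib.MP_32d917_al_vt.C05

/-!
# C06: the vertices of a region tree are the components of the complement of its star (E5)

Fix a region `r`, `v = r.1.1`, and a vertex `p` of its tree which is NOT internal. `X = {z | Prj z p}` (projection `p` to `r`) is convex. For `z ∈ X` let `Ch z` = the chambers `c` (no internal label) with `Ag {k | N z k} z c`.
(1) `Ch z ⊆ X`: if not `N z v` then `co c v = co z v`. If `N z v` then `z ∉ r.2` (otherwise `r = rg z v`, `p = co z v` internal); all internal labels at `z` are in `st v` (`n_clique`), so all points `y` with `Ag {k | N z k} z y` are outside `r.2` (`reg_mem`), and the projection does not change along steps between such points (`prj_step`, `ag_geod`). `Ch z` is nonempty (`chamber` with `J = univ`).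
(2) two chambers in `X` are LINKED if all regions at them outside the star of `r` are `NConn`; linked is an equivalence relation (`ch_ne`); two chambers in `X` in one panel are linked (`ch_jump`, `ch_conn`).
(3) any two `c, c' ∈ Ch z` are linked: induction on the number of coordinates where they differ; let `k` be one of them, `k ∈ {N z k}`; `Ag (st k) c' c` (internal labels at `z` are in `st k`), so by `st_split` (for the label `k`, from `c'` to `c`) there is `c''` with `Ag (lk k) c' c''`, `Ag {k} c'' c`. It is a chamber: `N c'' j` for `j ≠ k` as at `c` (`n_ag`), `N c'' k` as at `c'`. It is in `Ch z`, in one panel with `c`, and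
differs from `c'` in fewer coordinates.
(4) for a step `z z'` of label `u` between points of `X`: let `J = {k ≠ u | N z k} = {k ≠ u | N z' k}` (`ntr`), `J ⊆ lk u` (`u` occurs at `z`). `chamber` for `J`: `y` with `Ag J z y`, internal labels at `y` at most `u`. `push` the step `z z'` along `Ag (lk u) z y`: step `y y'`, `co y' u = co z' u`; `y'` agrees with `z'` outside `J`, its internal labels are at most `u`. Let `c` (`c'`) be `y` (`y'`) moved in
direction `u` to a chamber (`out`, or itself if not `N y u`). `c ∈ Ch z`, `c' ∈ Ch z'`, both in `X` by (1), in one panel: linked.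
(5) any two chambers in `X` are linked: geodesic between them in `X` (`cv_geod`; `Ch a = {a}` for a chamber `a`).
`e5_conn`: regions `s`, `t` not in the star of `r` with projection `p`: take points of `s.2`, `t.2`; all their chambers: a point `x ∈ s.2` and a chamber `c ∈ Ch x`: `Ag {k | N x k} x c`, `s.1 ∈ st k` for all `k` with `N x k` (`s.1` occurs at `x`), so `c ∈ s.2`, `s = rg c s.1`, and `c ∈ X`. So (5) gives `NConn`. `e5_ne`: `p = co x v`, `x ∈ r.2`, a chamber `c ∈ Ch x` with not `N x v` (`p` is not internal, `n_reg`), so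
`co c v = p`, `c ∈ X`, `ch_ne`; its region `s` has a projection (`prr_exists`), which is that of `c`.
`e5_back`: `NConn` regions have the same projection (`prr_adj`).
-/

set_option autoImplicit false

namespace VTB

open LatIso LatN LatF RaagIso

section

variable {ι Pt : Type} [Fintype ι] {V : ι → Type} {Γ : SimpleGraph ι}
  {S : ∀ i, SimpleGraph (V i)} {co : Pt → ∀ i, V i} {N : Pt → ι → Prop}

/-- chambers at `z` -/
private def C06_Ch (Γ : SimpleGraph ι) (co : Pt → ∀ i, V i) (N : Pt → ι → Prop)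
    (z c : Pt) : Prop :=
  Ag co {k | N z k ∧ ¬ CL Γ k} z c ∧ ∀ k, ¬ CL Γ k → ¬ N c k

/-- linked chambers -/
private def C06_Lk (Γ : SimpleGraph ι) (co : Pt → ∀ i, V i) (N : Pt → ι → Prop)
    (r : ι × Set Pt) (c c' : Pt) : Prop :=
  ∀ s t : Rg Γ co N, s.1 = rg Γ co c s.1.1 → ¬ RSt Γ r s.1 → t.1 = rg Γ co c' t.1.1 →
    ¬ RSt Γ r t.1 → NConn Γ co N r s t

private theorem C06_st {i j : ι} (h : i ∈ st Γ j) : j ∈ st Γ i := by
  rcases h with h | h
  · exact Or.inl h.symm
  · exact Or.inr h.symm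

private theorem C06_mem {r : ι × Set Pt} (hr : IsReg Γ co N r) {x y : Pt} (hx : x ∈ r.2)
    (h : Ag co (st Γ r.1) x y) : y ∈ r.2 := by
  have h1 := reg_mem hr hx
  rw [h1]
  exact h

private theorem C06_prj {r : ι × Set Pt} {x y : Pt} {p : V r.1} (h : Prj S co r x p)
    (he : co y r.1 = co x r.1) : Prj S co r y p := by
  refine ⟨h.1, fun q hq => ?_⟩
  rw [he]
  exact h.2 q hq

private theorem C06_step (M : MS1 Γ S co N) {r : ι × Set Pt} (hr : IsReg Γ co N r) {i : ι}
    {a b : Pt} {p : V r.1} (h : VSt S co i a b) (ha : Prj S co r a p) (hn : a ∉ r.2) :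
    Prj S co r b p := by
  obtain ⟨q, hq⟩ := prj_exists M hr b
  by_cases hpq : p = q
  · rw [hpq]
    exact hq
  · exact absurd (prj_step M hr h ha hq hpq).2.1 hn

private theorem C06_nadj {r s t : ι × Set Pt} (h : NAdj Γ r s t) : NAdj Γ r t s := by
  refine ⟨⟨h.1.1.symm, ?_⟩, h.2.2, h.2.1⟩
  rw [Set.inter_comm]
  exact h.1.2

private theorem C06_nconn {r : ι × Set Pt} {s t : Rg Γ co N} (h : NConn Γ co N r s t) :
    NConn Γ co N r t s := by
  unfold NConn at h ⊢
  induction h with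
  | refl => exact Relation.ReflTransGen.refl
  | tail _ hbc ih => exact Relation.ReflTransGen.head (C06_nadj hbc) ih

private theorem C06_symm {r : ι × Set Pt} {c c' : Pt} (h : C06_Lk Γ co N r c c') :
    C06_Lk Γ co N r c' c :=
  fun s t h1 h2 h3 h4 => C06_nconn (h t s h3 h4 h1 h2)

private theorem C06_trans (r : Rg Γ co N) (hcl : ¬ CL Γ r.1.1) {c c' c'' : Pt}
    (hc' : ∀ k, ¬ CL Γ k → ¬ N c' k) (h : C06_Lk Γ co N r.1 c c') (h' : C06_Lk Γ co N r.1 c' c'') :
    C06_Lk Γ co N r.1 c c'' := by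
  intro s t h1 h2 h3 h4
  obtain ⟨u, hu1, hu2⟩ := ch_ne r hcl hc'
  exact Relation.ReflTransGen.trans (h s u h1 h2 hu1 hu2) (h' u t hu1 hu2 h3 h4)

private theorem C06_refl (M : MS1 Γ S co N) (hG : GG Γ) (r : Rg Γ co N) {c : Pt}
    (hc : ∀ k, ¬ CL Γ k → ¬ N c k) : C06_Lk Γ co N r.1 c c :=
  fun s t h1 h2 h3 h4 => ch_conn M hG r hc s t h1 h3 h2 h4

private theorem C06_jump (M : MS1 Γ S co N) (hG : GG Γ) (r : Rg Γ co N)
    (hcl : ¬ CL Γ r.1.1) {c c' : Pt}
    (hc : ∀ k, ¬ CL Γ k → ¬ N c k) (hc' : ∀ k, ¬ CL Γ k → ¬ N c' k) {k : ι} (hk : Ag co {k} c c') {p : V r.1.1}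
    (hp : Prj S co r.1 c p) (hp' : Prj S co r.1 c' p) : C06_Lk Γ co N r.1 c c' := by
  intro s t h1 h2 h3 h4
  obtain ⟨u, hu1, hu2, hu3⟩ := ch_jump M hG r hcl hc hc' hk hp hp'
  exact Relation.ReflTransGen.trans (ch_conn M hG r hc s u h1 hu1 h2 hu3)
    (ch_conn M hG r hc' u t hu2 h3 hu3 h4)

/-- (1) -/
private theorem C06_one (M : MS1 Γ S co N) (r : Rg Γ co N) {p : V r.1.1}
    (hp' : ¬ RInt co N r.1 p) {z c : Pt} (hz : Prj S co r.1 z p) (hc : C06_Ch Γ co N z c) :
    Prj S co r.1 c p := by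
  by_cases hN : N z r.1.1
  · have hzr : z ∉ r.1.2 := by
      intro hzr
      have h1 := prj_uniq M hz (prj_self M hzr)
      exact hp' ⟨z, hzr, h1.symm, hN⟩
    have hsub : {k | N z k ∧ ¬ CL Γ k} ⊆ st Γ r.1.1 := fun k hk => n_clique M hk.1 hN
    have hout : ∀ y, Ag co {k | N z k ∧ ¬ CL Γ k} z y → y ∉ r.1.2 := by
      intro y hy hyr
      exact hzr (C06_mem r.2 hyr (ag_symm (ag_mono hsub hy)))
    have key : ∀ y, Relation.ReflTransGen (fun a b => Ag co {k | N z k ∧ ¬ CL Γ k} z a ∧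
        Ag co {k | N z k ∧ ¬ CL Γ k} z b ∧ ∃ i ∈ {k | N z k ∧ ¬ CL Γ k}, VSt S co i a b ∧
        Bt (S i) (co a i) (co b i) (co c i)) z y → Prj S co r.1 y p := by
      intro y hy
      induction hy with
      | refl => exact hz
      | tail _ hbc ih =>
        obtain ⟨h1, _, i, _, h3, _⟩ := hbc
        exact C06_step M r.2 h3 ih (hout _ h1)
    exact key c (ag_geod M hc.1)
  · exact C06_prj hz (hc.1 r.1.1 fun h => hN h.1)

/-- (3) -/
private theorem C06_three (M : MS1 Γ S co N) (hG : GG Γ) (r : Rg Γ co N)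
    (hcl : ¬ CL Γ r.1.1) {p : V r.1.1}
    (hp' : ¬ RInt co N r.1 p) {z : Pt} (hz : Prj S co r.1 z p) :
    ∀ (n : ℕ) (c c' : Pt), C06_Ch Γ co N z c → C06_Ch Γ co N z c' →
      {k | co c k ≠ co c' k}.ncard = n → C06_Lk Γ co N r.1 c c' := by
  intro n
  induction n using Nat.strong_induction_on with
  | _ n ih =>
    intro c c' hc hc' hn
    by_cases he : c = c'
    · rw [he]
      exact C06_refl M hG r hc'.2
    · obtain ⟨k, hk⟩ : ∃ k, co c k ≠ co c' k := by
        by_contra hall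
        push Not at hall
        exact he (M.inj c c' hall)
      have hNk : N z k ∧ ¬ CL Γ k := by
        by_contra hNk
        exact hk ((hc.1 k hNk).trans (hc'.1 k hNk).symm)
      have hsub : {j | N z j ∧ ¬ CL Γ j} ⊆ st Γ k := fun j hj => n_clique M hj.1 hNk.1
      have hag : Ag co (st Γ k) c' c := ag_mono hsub (ag_trans (ag_symm hc'.1) hc.1)
      obtain ⟨d, hd1, hd2⟩ := st_split M hag
      have hklk : k ∉ lk Γ k := fun h => Γ.loopless.irrefl k h
      have hdk : co d k = co c' k := hd1 k hklk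
      have hdj : ∀ j, j ≠ k → co c j = co d j := fun j hj => hd2 j hj
      have hdch : ∀ j, ¬ CL Γ j → ¬ N d j := by
        intro j hj0
        by_cases hj : j = k
        · rw [hj, n_ag M hd1 hklk]
          exact hc'.2 k hNk.2
        · rw [← n_ag M hd2 (show j ∉ ({k} : Set ι) from hj)]
          exact hc.2 j hj0
      have hdCh : C06_Ch Γ co N z d := by
        refine ⟨fun j hj => ?_, hdch⟩
        have hjk : j ≠ k := fun h => hj (h ▸ hNk)
        rw [← hdj j hjk]
        exact hc.1 j hj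
      have hlt : {j | co d j ≠ co c' j}.ncard < n := by
        rw [← hn]
        refine Set.ncard_lt_ncard ?_ (Set.toFinite _)
        refine ⟨fun j hj => ?_, fun h => ?_⟩
        · have hjk : j ≠ k := fun h => hj (by rw [h]; exact hdk)
          show co c j ≠ co c' j
          rw [hdj j hjk]
          exact hj
        · exact (h hk) hdk
      have h1 := ih _ hlt d c' hdCh hc' rfl
      have h2 : C06_Lk Γ co N r.1 c d :=
        C06_jump M hG r hcl hc.2 hdch (ag_symm hd2) (C06_one M r hp' hz hc)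
          (C06_one M r hp' hz hdCh)
      exact C06_trans r hcl hdch h2 h1

/-- (4) -/
private theorem C06_four (M : MS Γ S co N) (hG : GG Γ) (r : Rg Γ co N)
    (hcl : ¬ CL Γ r.1.1) {p : V r.1.1}
    (hp' : ¬ RInt co N r.1 p) {z z' : Pt} {u : ι} (hs : VSt S co u z z')
    (hz : Prj S co r.1 z p) (hz' : Prj S co r.1 z' p) :
    ∃ c c', C06_Ch Γ co N z c ∧ C06_Ch Γ co N z' c' ∧ C06_Lk Γ co N r.1 c c' := by
  obtain ⟨y, hy1, hy2, hy3⟩ := chamber M {k | k ≠ u} z
  have hoc : Oc Γ N z u := (M.b.occ z u).1 ⟨z', hs⟩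
  have hJ : ({k | k ≠ u} ∩ {k | N z k ∧ ¬ CL Γ k} : Set ι) ⊆ lk Γ u := by
    rintro k ⟨hk1, hk2, -⟩
    rcases hoc k hk2 with h | h
    · exact absurd h.symm hk1
    · exact h.symm
  obtain ⟨y', hyy, hy'u, -⟩ := push M.b hs (ag_mono hJ hy1)
  have hNu : N y u ↔ N z u := hy3 u (fun h => absurd rfl h)
  have hag' : Ag co ({k | k ≠ u} ∩ {k | N z k ∧ ¬ CL Γ k}) z' y' := by
    intro k hk
    by_cases hku : k = u
    · rw [hku]
      exact hy'u
    · rw [hyy.2 k hku, hy1 k hk, hs.2 k hku]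
  have hNu' : N y' u ↔ N z' u := n_ag M.b hag' (fun h => h.1 rfl)
  have hy'2 : ∀ k, k ≠ u → ¬ CL Γ k → ¬ N y' k := by
    intro k hk
    rw [M.b.ntr y y' u k hyy hk]
    exact hy2 k hk
  have hsub : ({k | k ≠ u} ∩ {k | N z k ∧ ¬ CL Γ k} : Set ι) ⊆ {k | N z k ∧ ¬ CL Γ k} :=
    fun k hk => hk.2
  have hsub' : ({k | k ≠ u} ∩ {k | N z k ∧ ¬ CL Γ k} : Set ι) ⊆ {k | N z' k ∧ ¬ CL Γ k} :=
    fun k hk => ⟨(M.b.ntr z z' u k hs hk.1).2 hk.2.1, hk.2.2⟩
  -- a chamber in the direction `u`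
  have mk : ∀ (w w0 : Pt), Ag co {k | N w0 k ∧ ¬ CL Γ k} w0 w → (N w u → N w0 u) →
      (∀ k, k ≠ u → ¬ CL Γ k → ¬ N w k) →
      ∃ c, C06_Ch Γ co N w0 c ∧ Ag co {u} w c := by
    intro w w0 hw hwu hwk
    by_cases hN : N w u ∧ ¬ CL Γ u
    · obtain ⟨c, hc1, hc2⟩ := M.out w u hN.2 hN.1
      refine ⟨c, ⟨ag_trans hw (ag_mono ?_ hc1), fun k hk0 => ?_⟩, hc1⟩
      · intro k hk
        rw [Set.mem_singleton_iff] at hk
        rw [hk]
        exact ⟨hwu hN.1, hN.2⟩
      · by_cases hk : k = u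
        · rw [hk]
          exact hc2
        · rw [n_ag M.b hc1 (show k ∉ ({u} : Set ι) from hk)]
          exact hwk k hk hk0
    · refine ⟨w, ⟨hw, fun k hk0 => ?_⟩, ag_refl w⟩
      by_cases hk : k = u
      · rw [hk] at hk0 ⊢
        exact fun h => hN ⟨h, hk0⟩
      · exact hwk k hk hk0
  obtain ⟨c, hc1, hc2⟩ := mk y z (ag_mono hsub hy1) hNu.1 hy2
  obtain ⟨c', hc1', hc2'⟩ := mk y' z' (ag_mono hsub' hag') hNu'.1 hy'2
  refine ⟨c, c', hc1, hc1', ?_⟩
  have hyy' : Ag co {u} y y' := fun k hk => hyy.2 k hk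
  exact C06_jump M.b hG r hcl hc1.2 hc1'.2 (ag_trans (ag_symm hc2) (ag_trans hyy' hc2'))
    (C06_one M.b r hp' hz hc1) (C06_one M.b r hp' hz' hc1')

/-- the points with a given projection form a convex set -/
private theorem C06_cv (M : MS1 Γ S co N) (r : Rg Γ co N) {p : V r.1.1} :
    Cv S co {z | Prj S co r.1 z p} := by
  intro x hx y hy m hm
  obtain ⟨q, hq⟩ := prj_exists M r.2 m
  by_cases hpq : p = q
  · show Prj S co r.1 m p
    rw [hpq]
    exact hq
  exfalso
  obtain ⟨a, b, hab, -, hb, h1, h2, h3, -⟩ := sep_edge M r.2 hx hq hpq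
  have hT := (M.tree r.1.1).connected
  have hyb : Bt (S r.1.1) (co y r.1.1) p b := hy.2 b hb
  have hya : Bt (S r.1.1) (co y r.1.1) a b := by
    have t1 := hT.dist_triangle (u := co y r.1.1) (v := p) (w := a)
    have t2 := hT.dist_triangle (u := co y r.1.1) (v := a) (w := b)
    unfold Bt at hyb h3 ⊢
    omega
  have hma : Bt (S r.1.1) (co m r.1.1) a b := cv_side M hab x h1 y hya m hm
  have h4 : (S r.1.1).dist a b = 1 := SimpleGraph.dist_eq_one_iff_adj.2 hab
  have h5 : (S r.1.1).dist b a = 1 := SimpleGraph.dist_eq_one_iff_adj.2 hab.symm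
  unfold Bt at hma h2
  omega

private theorem C06_ex (M : MS Γ S co N) (z : Pt) : ∃ c, C06_Ch Γ co N z c := by
  obtain ⟨y, hy1, hy2, -⟩ := chamber M Set.univ z
  refine ⟨y, ?_, fun k hk => hy2 k (Set.mem_univ _) hk⟩
  rw [Set.univ_inter] at hy1
  exact hy1

/-- (5) -/
private theorem C06_five (M : MS Γ S co N) (hG : GG Γ) (r : Rg Γ co N)
    (hcl : ¬ CL Γ r.1.1) {p : V r.1.1}
    (hp' : ¬ RInt co N r.1 p) {x y : Pt} (hx : Prj S co r.1 x p) (hy : Prj S co r.1 y p)
    {c c' : Pt} (hc : C06_Ch Γ co N x c) (hc' : C06_Ch Γ co N y c') : C06_Lk Γ co N r.1 c c' := by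
  have key : ∀ w, Relation.ReflTransGen (fun a b => a ∈ {z | Prj S co r.1 z p} ∧
      b ∈ {z | Prj S co r.1 z p} ∧ ∃ i, VSt S co i a b ∧
      Bt (S i) (co a i) (co b i) (co y i) ∧ co a i ≠ co y i) x w →
      ∀ d, C06_Ch Γ co N w d → C06_Lk Γ co N r.1 c d := by
    intro w hw
    induction hw with
    | refl =>
      intro d hd
      exact C06_three M.b hG r hcl hp' hx _ c d hc hd rfl
    | tail _ hbc ih =>
      intro d hd
      obtain ⟨ha, hb, i, hi, -, -⟩ := hbc
      obtain ⟨e, e', he, he', hl⟩ := C06_four M hG r hcl hp' hi ha hb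
      exact C06_trans r hcl he.2 (ih e he) (C06_trans r hcl he'.2 hl
        (C06_three M.b hG r hcl hp' hb _ e' d he' hd rfl))
  exact key y (cv_geod M.b (C06_cv M.b r) hx hy) c' hc'

private theorem C06_ne (s : Rg Γ co N) : ∃ x, x ∈ s.1.2 := by
  obtain ⟨x, _, hx⟩ := s.2
  refine ⟨x, ?_⟩
  rw [hx]
  exact ag_refl x

private theorem C06_in (M : MS1 Γ S co N) (s : Rg Γ co N) {x c : Pt} (hx : x ∈ s.1.2)
    (hc : C06_Ch Γ co N x c) : c ∈ s.1.2 := by
  refine C06_mem s.2 hx (ag_mono ?_ hc.1)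
  intro k hk
  exact C06_st (reg_oc M s.2 hx k hk.1)

theorem e5_conn (M : MS Γ S co N) (hG : GG Γ) (r s t : Rg Γ co N) (hs : ¬ RSt Γ r.1 s.1)
    (ht : ¬ RSt Γ r.1 t.1) {p : V r.1.1} (hp : PrR S co r.1 s.1 p) (hq : PrR S co r.1 t.1 p) :
    NConn Γ co N r.1 s t := by
  obtain ⟨_, hp'⟩ := prr_nint M.b r s hs hp
  obtain ⟨x, hx⟩ := C06_ne s
  obtain ⟨y, hy⟩ := C06_ne t
  obtain ⟨c, hc⟩ := C06_ex M x
  obtain ⟨c', hc'⟩ := C06_ex M y
  exact C06_five M hG r (fun hc => hs (cl_rst r.2 s.2 hc)) hp' (hp x hx) (hq y hy) hc hc' s t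
    (reg_mem s.2 (C06_in M.b s hx hc)) hs (reg_mem t.2 (C06_in M.b t hy hc')) ht

theorem e5_ne (M : MS Γ S co N) (hG : GG Γ) (r : Rg Γ co N) {p : V r.1.1} (hp : VR co r.1 p)
    (hp' : ¬ RInt co N r.1 p) : ∃ s : Rg Γ co N, ¬ RSt Γ r.1 s.1 ∧ PrR S co r.1 s.1 p := by
  obtain ⟨x, hx, hxp⟩ := hp
  have hN : ¬ N x r.1.1 := fun h => hp' ⟨x, hx, hxp, h⟩
  obtain ⟨c, hc⟩ := C06_ex M x
  have h1 : Prj S co r.1 x p := by
    rw [← hxp]
    exact prj_self M.b hx
  have h2 : Prj S co r.1 c p := C06_prj h1 (hc.1 r.1.1 fun h => hN h.1)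
  obtain ⟨s, hs1, hs2⟩ := ch_ne r (fun h => hN (M.cen x _ h)) hc.2
  refine ⟨s, hs2, ?_⟩
  obtain ⟨q, hq⟩ := prr_exists M.b r s hs2
  have h3 : c ∈ s.1.2 := by
    rw [hs1]
    exact ag_refl c
  rw [prj_uniq M.b h2 (hq c h3)]
  exact hq

theorem e5_back (M : MS1 Γ S co N) (r s t : Rg Γ co N) (hs : ¬ RSt Γ r.1 s.1)
    (h : NConn Γ co N r.1 s t) {p : V r.1.1} (hp : PrR S co r.1 s.1 p) :
    PrR S co r.1 t.1 p := by
  have _ := hs
  unfold NConn at h
  induction h with
  | refl => exact hp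
  | tail _ hbc ih =>
    obtain ⟨h1, _, h3⟩ := hbc
    obtain ⟨q, hq⟩ := prr_exists M r _ h3
    rw [prr_adj M r _ _ h1.2 ih hq]
    exact hq

end

end VTB
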