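import Pool.Agent.Lib.MP_32d917_al_vt.C06

/-!
# C07: the bijections of the vertices which are not internal

Two structures with a bijection `F` of their regions preserving adjacency. For a region `r` the relation `PC r p p'` between a vertex `p` of the tree of `r` which is not internal and such a vertex `p'` of `F r`: for all regions `s` not in the star of `r`: `s` projects to `p` iff `F s` projects to `p'`. `pc_exists`: given `p`, take `s` by `e5_ne`, and `p'` := the projection of `F s` to `F r` (`prr_exists`,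
`prr_nint`; `F s` is not in the star of `F r`). For another `t`: `t` projects to `p` iff `NConn r s t` (`e5_conn`, `e5_back`, uniqueness of projections) iff `NConn (F r) (F s) (F t)` iff `F t` projects to `p'`. Uniqueness of `p'`: `F s` has only one projection. The same for `F.symm` gives `pc_exists'`.
-/

set_option autoImplicit false

namespace VTB

open LatIso LatN LatF RaagIso

section

variable {ι Pt : Type} [Fintype ι] {V : ι → Type} {Γ : SimpleGraph ι}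
  {S : ∀ i, SimpleGraph (V i)} {co : Pt → ∀ i, V i} {N : Pt → ι → Prop}
  {ι' Pt' : Type} [Fintype ι'] {V' : ι' → Type} {Γ' : SimpleGraph ι'}
  {S' : ∀ i, SimpleGraph (V' i)} {co' : Pt' → ∀ i, V' i} {N' : Pt' → ι' → Prop}

/-- the vertices `p` of the tree of `r` and `p'` of the tree of `F r` are not internal and
correspond -/
structure PC (S : ∀ i, SimpleGraph (V i)) (co : Pt → ∀ i, V i) (S' : ∀ i, SimpleGraph (V' i))
    (co' : Pt' → ∀ i, V' i) (F : Rg Γ co N ≃ Rg Γ' co' N') (r : Rg Γ co N) (p : V r.1.1)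
    (p' : V' (F r).1.1) : Prop where
  vr : VR co r.1 p
  ni : ¬ RInt co N r.1 p
  vr' : VR co' (F r).1 p'
  ni' : ¬ RInt co' N' (F r).1 p'
  iff : ∀ s : Rg Γ co N, ¬ RSt Γ r.1 s.1 → (PrR S co r.1 s.1 p ↔ PrR S' co' (F r).1 (F s).1 p')

theorem f_rst (F : Rg Γ co N ≃ Rg Γ' co' N')
    (hF : ∀ r s, RAdj Γ r.1 s.1 ↔ RAdj Γ' (F r).1 (F s).1) (r s : Rg Γ co N) :
    RSt Γ r.1 s.1 ↔ RSt Γ' (F r).1 (F s).1 := by
  have h1 : r.1 = s.1 ↔ (F r).1 = (F s).1 := by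
    rw [← Subtype.ext_iff, ← Subtype.ext_iff, F.apply_eq_iff_eq]
  unfold RSt
  rw [h1, hF r s]

private theorem C07_uniq (M : MS1 Γ S co N) (r s : Rg Γ co N) {p q : V r.1.1}
    (hp : PrR S co r.1 s.1 p) (hq : PrR S co r.1 s.1 q) : p = q := by
  obtain ⟨x, -, hx⟩ := s.2
  have hxs : x ∈ s.1.2 := by
    rw [hx]
    exact ag_refl x
  exact prj_uniq M (hp x hxs) (hq x hxs)

private theorem C07_map (F : Rg Γ co N ≃ Rg Γ' co' N')
    (hF : ∀ r s, RAdj Γ r.1 s.1 ↔ RAdj Γ' (F r).1 (F s).1) (r s t : Rg Γ co N)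
    (h : NConn Γ co N r.1 s t) : NConn Γ' co' N' (F r).1 (F s) (F t) := by
  refine Relation.ReflTransGen.lift F (fun a b hab => ?_) s t h
  exact ⟨(hF a b).1 hab.1, fun hh => hab.2.1 ((f_rst F hF r a).2 hh),
    fun hh => hab.2.2 ((f_rst F hF r b).2 hh)⟩

private theorem C07_map' (F : Rg Γ co N ≃ Rg Γ' co' N')
    (hF : ∀ r s, RAdj Γ r.1 s.1 ↔ RAdj Γ' (F r).1 (F s).1) (r s t : Rg Γ co N)
    (h : NConn Γ' co' N' (F r).1 (F s) (F t)) : NConn Γ co N r.1 s t := by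
  have h1 := C07_map F.symm (fun a b => by
    rw [hF, F.apply_symm_apply, F.apply_symm_apply]) (F r) (F s) (F t) h
  rw [F.symm_apply_apply, F.symm_apply_apply, F.symm_apply_apply] at h1
  exact h1

private theorem C07_iff (M : MS Γ S co N) (hG : GG Γ) (M' : MS Γ' S' co' N') (hG' : GG Γ')
    (F : Rg Γ co N ≃ Rg Γ' co' N') (hF : ∀ r s, RAdj Γ r.1 s.1 ↔ RAdj Γ' (F r).1 (F s).1)
    (r s : Rg Γ co N) (hrs : ¬ RSt Γ r.1 s.1) {p : V r.1.1} {p' : V' (F r).1.1}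
    (hp : PrR S co r.1 s.1 p) (hp' : PrR S' co' (F r).1 (F s).1 p') (t : Rg Γ co N)
    (hrt : ¬ RSt Γ r.1 t.1) :
    PrR S co r.1 t.1 p ↔ PrR S' co' (F r).1 (F t).1 p' := by
  have hs' : ¬ RSt Γ' (F r).1 (F s).1 := fun hh => hrs ((f_rst F hF r s).2 hh)
  have ht' : ¬ RSt Γ' (F r).1 (F t).1 := fun hh => hrt ((f_rst F hF r t).2 hh)
  constructor
  · intro h
    exact e5_back M'.b (F r) (F s) (F t) hs'
      (C07_map F hF r s t (e5_conn M hG r s t hrs hrt hp h)) hp'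
  · intro h
    exact e5_back M.b r s t hrs
      (C07_map' F hF r s t (e5_conn M' hG' (F r) (F s) (F t) hs' ht' hp' h)) hp

theorem pc_exists (M : MS Γ S co N) (hG : GG Γ) (M' : MS Γ' S' co' N') (hG' : GG Γ')
    (F : Rg Γ co N ≃ Rg Γ' co' N') (hF : ∀ r s, RAdj Γ r.1 s.1 ↔ RAdj Γ' (F r).1 (F s).1)
    (r : Rg Γ co N) {p : V r.1.1} (hp : VR co r.1 p) (hp' : ¬ RInt co N r.1 p) :
    ∃! p', PC S co S' co' F r p p' := by
  obtain ⟨s, hs, h1⟩ := e5_ne M hG r hp hp'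
  have hs' : ¬ RSt Γ' (F r).1 (F s).1 := fun hh => hs ((f_rst F hF r s).2 hh)
  obtain ⟨p', h2⟩ := prr_exists M'.b (F r) (F s) hs'
  obtain ⟨h3, h4⟩ := prr_nint M'.b (F r) (F s) hs' h2
  refine ⟨p', ⟨hp, hp', h3, h4, C07_iff M hG M' hG' F hF r s hs h1 h2⟩, fun q hq => ?_⟩
  exact C07_uniq M'.b (F r) (F s) ((hq.iff s hs).1 h1) h2

theorem pc_exists' (M : MS Γ S co N) (hG : GG Γ) (M' : MS Γ' S' co' N') (hG' : GG Γ')
    (F : Rg Γ co N ≃ Rg Γ' co' N') (hF : ∀ r s, RAdj Γ r.1 s.1 ↔ RAdj Γ' (F r).1 (F s).1)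
    (r : Rg Γ co N) {p' : V' (F r).1.1} (hp : VR co' (F r).1 p')
    (hp' : ¬ RInt co' N' (F r).1 p') : ∃! p, PC S co S' co' F r p p' := by
  obtain ⟨s', hs', h1⟩ := e5_ne M' hG' (F r) hp hp'
  obtain ⟨s, rfl⟩ := F.surjective s'
  have hs : ¬ RSt Γ r.1 s.1 := fun hh => hs' ((f_rst F hF r s).1 hh)
  obtain ⟨p, h2⟩ := prr_exists M.b r s hs
  obtain ⟨h3, h4⟩ := prr_nint M.b r s hs h2
  refine ⟨p, ⟨h3, h4, hp, hp', C07_iff M hG M' hG' F hF r s hs h2 h1⟩, fun q hq => ?_⟩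
  exact C07_uniq M.b r s ((hq.iff s hs).2 h1) h2

end

end VTB
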