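import Pool.Agent.Lib.MP_32d917_al_vt.C04

/-!
# C08: consistent families come from points (5.10)

Let `a r` be a vertex of the tree of `r` for every region `r`, with (h1) for `r`, `s` not in the star of each other: `a r` is the projection of `s` to `r`, or `a s` is the projection of `r` to `s`; (h2) the projections of some point `x0` to `r` are `a r` for all but finitely many `r`. Then there is a point whose projections are all `a r`.
PROOF. For a point `x` let `D x = {r | not Prj x (a r)}`, finite (`h2`, `fin_diff`), and `d x = ∑_{r ∈ D x} dist (projection of x to r, a r)`. Choose `x` with `d x` minimal and suppose `D x ≠ ∅`. We call an oriented edge `(b, c)` of the tree of a region `r` GOOD if it separates `x` from `a r`: `Bt (co x _) b c` and `Bt (a r) c b`; the `c`-side is then called the chosen side. There is a good edge. For a good edge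
`e = (b, c)` of `r` let `n e` be the distance of `x` from the set of points on the `c`-side (convex, nonempty; gate). Choose `e` with `n e` minimal. If `n e = 1`: the gate `y` is adjacent to `x`, the step `x y` crosses the edge `e` of `r`, `x ∈ r.2`, `co x r.1 = b`, `co y r.1 = c`; the projections of `y` to the other regions are those of `x` (`prj_step`), so `d y < d x`: contradiction.
So `n e ≥ 2`: let `g` be the gate of `x` on the `c`-side, and `x, ..., g2, g1, g` a geodesic (`geod`); its last step `g1 g` crosses `e` (`g1` is not on the `c`-side), the step `g2 g1` crosses some edge `f = (b', c')` (with `b'` on the side of `x`) of a region `s`.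
 (a) the labels of `e` and `f` are different (two consecutive edges of the same label on a geodesic: allowed in principle; then both are on the segment of `x` in the same tree `S i`: if `f` is in the same region `r`: `f` is good too (between `x` and `e`) with smaller `n`: contradiction. If `f` is in another region `s ≠ r` of the same label: treat as case (c)).
 (b) if the labels `r.1 ≠ s.1` are adjacent then the square of `g1 g2`, `g1 g` gives a point adjacent to `g2` on the `c`-side, nearer to `x` than `g`: contradiction.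
 (c) otherwise `r`, `s` are not adjacent and not equal (`g1 ∈ r.2 ∩ s.2`, so `RAdj` iff adjacent labels). By (h1): either `a r` is the projection of `s` to `r`, or `a s` is the projection of `r` to `s`. The point `g1 ∈ s.2` has the projection `b` to `r` (it is in `r.2` with coordinate `b`), so `s` projects to `b`; but `a r` is on the `c`-side of `e`: so the first is impossible. So `a s` is the projection of `r`, i.e.
 of `g1 ∈ r.2`, to `s`: `a s = co g1 s.1 = c'`. So the edge `f` is good (`x` is on the `b'`-side, `a s = c'`), with `n f < n e`: contradiction.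
So `D x = ∅`.
-/

set_option autoImplicit false

namespace VTB

open LatIso LatN LatF RaagIso

section

variable {ι Pt : Type} [Fintype ι] {V : ι → Type} {Γ : SimpleGraph ι}
  {S : ∀ i, SimpleGraph (V i)} {co : Pt → ∀ i, V i} {N : Pt → ι → Prop}

private theorem C08_self {W : Type} {T : SimpleGraph W} (a b : W) : Bt T a a b := by
  unfold Bt
  rw [SimpleGraph.dist_self, zero_add]

private theorem C08_cross {W : Type} {T : SimpleGraph W} (hT : T.IsTree) {b c u v : W}
    (hbc : T.Adj b c) (huv : T.Adj u v) (h1 : Bt T u b c) (h2 : Bt T v c b) : u = b ∧ v = c := by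
  have h3 := st_4pt hT u c v b
  have e1 := st1_one hbc
  have e2 := st1_one huv
  have c1 : T.dist c b = T.dist b c := SimpleGraph.dist_comm
  have c2 : T.dist c v = T.dist v c := SimpleGraph.dist_comm
  unfold Bt at h1 h2
  have hu : T.dist u b = 0 := by omega
  have hv : T.dist v c = 0 := by omega
  exact ⟨st1_eq hT hu, st1_eq hT hv⟩

private theorem C08_side {W : Type} {T : SimpleGraph W} (hT : T.IsTree) {b c : W}
    (hbc : T.Adj b c) (w : W) : Bt T w b c ∨ Bt T w c b := by
  have e1 := st1_one hbc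
  have c1 : T.dist c b = T.dist b c := SimpleGraph.dist_comm
  rcases st_adj hT hbc w with h | h
  · left
    unfold Bt
    omega
  · right
    unfold Bt
    omega

private theorem C08_excl {W : Type} {T : SimpleGraph W} {b c w : W} (hbc : T.Adj b c)
    (h1 : Bt T w b c) (h2 : Bt T w c b) : False := by
  have e1 := st1_one hbc
  have c1 : T.dist c b = T.dist b c := SimpleGraph.dist_comm
  unfold Bt at h1 h2
  omega

private theorem C08_thru {W : Type} {T : SimpleGraph W} (hT : T.IsTree) {b c x y : W}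
    (hbc : T.Adj b c) (h1 : Bt T x b c) (h2 : Bt T y c b) : Bt T x b y ∧ Bt T x c y := by
  have h3 := st_4pt hT x c y b
  have e1 := st1_one hbc
  have c1 : T.dist c b = T.dist b c := SimpleGraph.dist_comm
  have c2 : T.dist c y = T.dist y c := SimpleGraph.dist_comm
  have c3 : T.dist b y = T.dist y b := SimpleGraph.dist_comm
  have t1 := st1_tri hT x b y
  unfold Bt at h1 h2 ⊢
  constructor <;> omega

private theorem C08_seg {W : Type} {T : SimpleGraph W} (hT : T.IsTree) (p q : W) :
    {v | Bt T p v q}.Finite := by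
  refine Set.Finite.of_finite_image (f := fun v => T.dist p v) ?_ ?_
  · refine (Set.finite_Iic (T.dist p q)).subset ?_
    rintro _ ⟨v, hv, rfl⟩
    have hv' : Bt T p v q := hv
    unfold Bt at hv'
    show T.dist p v ≤ T.dist p q
    omega
  · intro v hv w hw h
    exact st_pt_uniq hT hv hw h

private theorem C08_min {α : Type*} (P : α → Prop) (f : α → ℕ) (h : ∃ a, P a) :
    ∃ a, P a ∧ ∀ b, P b → f a ≤ f b := by
  classical
  have h' : ∃ n, ∃ a, P a ∧ f a = n := by
    obtain ⟨a, ha⟩ := h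
    exact ⟨f a, a, ha, rfl⟩
  obtain ⟨a, ha, hn⟩ := Nat.find_spec h'
  refine ⟨a, ha, fun b hb => ?_⟩
  rw [hn]
  exact Nat.find_min' h' ⟨b, hb, rfl⟩

private noncomputable def C08_D (S : ∀ i, SimpleGraph (V i)) (co : Pt → ∀ i, V i) (x y : Pt) : ℕ :=
  ∑ i, (S i).dist (co x i) (co y i)

private theorem C08_lt {x u v : Pt} {j : ι} (h : ∀ k, k ≠ j → co v k = co u k)
    (h' : (S j).dist (co x j) (co v j) < (S j).dist (co x j) (co u j)) :
    C08_D S co x v < C08_D S co x u := by
  unfold C08_D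
  apply Finset.sum_lt_sum
  · intro i _
    by_cases hi : i = j
    · subst hi
      exact h'.le
    · rw [h i hi]
  · exact ⟨j, Finset.mem_univ j, h'⟩

private theorem C08_dl {W : Type} {T : SimpleGraph W} {u v x : W} (huv : T.Adj u v)
    (h : Bt T u v x) : T.dist x v < T.dist x u := by
  have e1 := st1_one huv
  have c1 : T.dist x v = T.dist v x := SimpleGraph.dist_comm
  have c2 : T.dist x u = T.dist u x := SimpleGraph.dist_comm
  unfold Bt at h
  omega

private theorem C08_edge (M : MS1 Γ S co N) {r : ι × Set Pt} (hr : IsReg Γ co N r) {x y : Pt}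
    (h : VSt S co r.1 x y) (hx : VR co r (co x r.1)) (hy : VR co r (co y r.1)) :
    x ∈ r.2 ∧ y ∈ r.2 := by
  obtain ⟨u, hu, hu'⟩ := hx
  obtain ⟨w, hw, hw'⟩ := hy
  obtain ⟨z, hz, z', hz', h1, h2, h3⟩ := cv_edge M (reg_cv M hr) h.1 hu hw
    (by rw [hu']; exact C08_self _ _) (by rw [hw']; exact C08_self _ _)
  have h4 : Ag co (lk Γ r.1) z x := strip_ag M h1 h h2 h3
  have h5 : Ag co (st Γ r.1) z x := ag_mono (fun _ h => Or.inr h) h4
  have h6 : Ag co (st Γ r.1) z y := ag_trans h5 fun j hj => h.2 j fun e => hj (Or.inl e)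
  rw [reg_mem hr hz]
  exact ⟨h5, h6⟩

private def C08_G (S : ∀ i, SimpleGraph (V i)) (a : ∀ r : Rg Γ co N, V r.1.1) (x : Pt) :
    Set (Σ r : Rg Γ co N, V r.1.1 × V r.1.1) :=
  {e | (S e.1.1.1).Adj e.2.1 e.2.2 ∧ VR co e.1.1 e.2.1 ∧ VR co e.1.1 e.2.2 ∧
    Bt (S e.1.1.1) (co x e.1.1.1) e.2.1 e.2.2 ∧ Bt (S e.1.1.1) (a e.1) e.2.2 e.2.1}

private theorem C08_fin (M : MS1 Γ S co N) (a : ∀ r : Rg Γ co N, V r.1.1) (x0 : Pt)
    (h2 : {r | ¬ Prj S co r.1 x0 (a r)}.Finite) (x : Pt) :
    (C08_G S a x).Finite := by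
  have hD : {r | ¬ Prj S co r.1 x (a r)}.Finite := by
    refine (h2.union (fin_diff M x x0)).subset ?_
    intro r hr
    by_cases h : Prj S co r.1 x0 (a r)
    · right
      rintro ⟨p, hp, hp0⟩
      apply hr
      rw [← prj_uniq M hp0 h]
      exact hp
    · left
      exact h
  refine (hD.biUnion (t := fun r => (Sigma.mk r) ''
    ({v | Bt (S r.1.1) (co x r.1.1) v (a r)} ×ˢ {v | Bt (S r.1.1) (co x r.1.1) v (a r)}))
    fun r _ => Set.Finite.image _ ((C08_seg (M.tree _) _ _).prod (C08_seg (M.tree _) _ _))).subset ?_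
  rintro ⟨r, b, c⟩ ⟨e1, e2, e3, e4, e5⟩
  rw [Set.mem_iUnion₂]
  refine ⟨r, ?_, ⟨(b, c), ⟨?_, ?_⟩, rfl⟩⟩
  · intro hp
    have f1 := hp.2 b e2
    have f2 := hp.2 c e3
    have g1 := st1_one e1
    have c1 : (S r.1.1).dist c b = (S r.1.1).dist b c := SimpleGraph.dist_comm
    have e4' : Bt (S r.1.1) (co x r.1.1) b c := e4
    have e5' : Bt (S r.1.1) (a r) c b := e5
    have g1' : (S r.1.1).dist b c = 1 := g1
    unfold Bt at f1 f2 e4' e5'
    omega
  · exact (C08_thru (M.tree _) e1 e4 e5).1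
  · exact (C08_thru (M.tree _) e1 e4 e5).2

private theorem C08_sub (M : MS1 Γ S co N) (a : ∀ r : Rg Γ co N, V r.1.1) {x g : Pt} {i : ι}
    {A : Set Pt} {hr : IsReg Γ co N (i, A)} (hx : x ∈ A) (h : VSt S co i x g)
    (hb : Bt (S i) (a ⟨(i, A), hr⟩) (co g i) (co x i)) : C08_G S a g ⊆ C08_G S a x := by
  rintro ⟨⟨⟨j, B⟩, hs⟩, b, c⟩ ⟨e1, e2, e3, e4, e5⟩
  refine ⟨e1, e2, e3, ?_, e5⟩
  have e1' : (S j).Adj b c := e1
  have e4' : Bt (S j) (co g j) b c := e4
  have e5' : Bt (S j) (a ⟨(j, B), hs⟩) c b := e5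
  rcases C08_side (M.tree j) e1' (co x j) with h1 | h1
  · exact h1
  · exfalso
    by_cases hj : j = i
    · subst hj
      obtain ⟨h3, h4⟩ := C08_cross (M.tree j) e1' h.1.symm e4' h1
      have h5 : x ∈ B := by
        refine (C08_edge M hs h ?_ ?_).1
        · show VR co (j, B) (co x j)
          rw [h4]
          exact e3
        · show VR co (j, B) (co g j)
          rw [h3]
          exact e2
      have h6 : ((j, B) : ι × Set Pt) = (j, A) := (reg_mem hs h5).trans (reg_mem hr hx).symm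
      have h7 : B = A := congrArg Prod.snd h6
      subst h7
      rw [← h3, ← h4] at e5'
      exact C08_excl h.1 e5' hb
    · have h3 := h.2 j hj
      rw [h3] at e4'
      exact C08_excl e1' e4' h1

private theorem C08_main (M : MS1 Γ S co N) (a : ∀ r : Rg Γ co N, V r.1.1)
    (h1 : ∀ r s, ¬ RSt Γ r.1 s.1 → PrR S co r.1 s.1 (a r) ∨ PrR S co s.1 r.1 (a s)) (x : Pt)
    (hf : (C08_G S a x).Finite)
    (hmin : ∀ y, (C08_G S a x).ncard ≤ (C08_G S a y).ncard) : C08_G S a x = ∅ := by
  by_contra hne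
  rw [← Ne, ← Set.nonempty_iff_ne_empty] at hne
  obtain ⟨⟨⟨⟨⟨i, A⟩, hr⟩, b, c⟩, g⟩, ⟨he, hg⟩, hm⟩ := C08_min
    (fun q : (Σ r : Rg Γ co N, V r.1.1 × V r.1.1) × Pt => q.1 ∈ C08_G S a x ∧
      Bt (S q.1.1.1.1) (co q.2 q.1.1.1.1) q.1.2.2 q.1.2.1) (fun q => C08_D S co x q.2) (by
      obtain ⟨⟨r, b, c⟩, he⟩ := hne
      obtain ⟨g, _, hg⟩ := he.2.2.1
      refine ⟨⟨⟨r, b, c⟩, g⟩, he, ?_⟩
      show Bt (S r.1.1) (co g r.1.1) c b
      have hg' : co g r.1.1 = c := hg
      rw [hg']
      exact C08_self _ _)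
  obtain ⟨e1, e2, e3, e4, e5⟩ := he
  have e1' : (S i).Adj b c := e1
  have e4' : Bt (S i) (co x i) b c := e4
  have e5' : Bt (S i) (a ⟨(i, A), hr⟩) c b := e5
  have hg' : Bt (S i) (co g i) c b := hg
  have hm' : ∀ (q : Σ r : Rg Γ co N, V r.1.1 × V r.1.1) (y : Pt), q ∈ C08_G S a x →
      Bt (S q.1.1.1) (co y q.1.1.1) q.2.2 q.2.1 → C08_D S co x g ≤ C08_D S co x y :=
    fun q y h h' => hm (q, y) ⟨h, h'⟩
  have hgx : g ≠ x := by
    rintro rfl
    exact C08_excl e1' e4' hg'
  obtain ⟨k, g1, hst, hbt⟩ := geod_step M hgx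
  have hlt : C08_D S co x g1 < C08_D S co x g := C08_lt hst.2 (C08_dl hst.1 hbt)
  have hn : ¬ Bt (S i) (co g1 i) c b := fun hh =>
    absurd (hm' ⟨⟨(i, A), hr⟩, b, c⟩ g1 ⟨e1, e2, e3, e4, e5⟩ hh) (by omega)
  have hk : k = i := by
    by_contra hk
    apply hn
    rw [hst.2 i (fun h => hk h.symm)]
    exact hg'
  subst hk
  have hn' : Bt (S k) (co g1 k) b c := (C08_side (M.tree k) e1' (co g1 k)).resolve_right hn
  obtain ⟨k1, k2⟩ := C08_cross (M.tree k) e1' hst.1.symm hn' hg'
  have hst' : VSt S co k g1 g := vst_symm hst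
  have hA : g1 ∈ A ∧ g ∈ A := by
    refine C08_edge M hr hst' ?_ ?_
    · show VR co (k, A) (co g1 k)
      rw [k1]
      exact e2
    · show VR co (k, A) (co g k)
      rw [k2]
      exact e3
  by_cases hx : g1 = x
  · subst hx
    have hs : C08_G S a g ⊆ C08_G S a g1 := by
      refine C08_sub M a (hr := hr) hA.1 hst' ?_
      rw [k1, k2]
      exact e5'
    have hss : C08_G S a g ⊂ C08_G S a g1 := by
      refine ⟨hs, fun hh => ?_⟩
      have h3 : (⟨⟨(k, A), hr⟩, b, c⟩ : Σ r : Rg Γ co N, V r.1.1 × V r.1.1) ∈ C08_G S a g :=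
        hh ⟨e1, e2, e3, e4, e5⟩
      exact C08_excl e1' h3.2.2.2.1 hg'
    have := Set.ncard_lt_ncard hss hf
    have := hmin g
    omega
  · obtain ⟨j, g2, hst2, hbt2⟩ := geod_step M hx
    have hoc : Oc Γ N g1 j := (M.occ g1 j).1 ⟨g2, hst2⟩
    have hlt2 : (S j).dist (co x j) (co g2 j) < (S j).dist (co x j) (co g1 j) :=
      C08_dl hst2.1 hbt2
    have hg1s : g1 ∈ (rg Γ co g1 j).2 := ag_refl g1
    have hg2s : g2 ∈ (rg Γ co g1 j).2 := fun l hl => hst2.2 l fun e => hl (Or.inl e)
    by_cases hrs : RSt Γ (k, A) (rg Γ co g1 j)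
    · rcases hrs with hrs | hrs
      · have hj : k = j := congrArg Prod.fst hrs
        subst hj
        have hA2 : A = (rg Γ co g1 k).2 := congrArg Prod.snd hrs
        have hg2A : g2 ∈ A := by
          rw [hA2]
          exact hg2s
        have hb : Bt (S k) (a ⟨(k, A), hr⟩) (co g1 k) (co g2 k) := by
          rcases C08_side (M.tree k) hst2.1 (a ⟨(k, A), hr⟩) with h3 | h3
          · exact h3
          · exfalso
            have h4 : co g2 k = c := by
              refine st_uniq (M.tree k) (x := b) (y := a ⟨(k, A), hr⟩) ?_ e1' ?_ (bt_symm e5')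
              · rw [← k1]
                exact hst2.1
              · rw [← k1]
                exact bt_symm h3
            rw [h4, k1] at hbt2
            exact C08_excl e1' e4' (bt_symm hbt2)
        have h5 := hm' ⟨⟨(k, A), hr⟩, co g2 k, co g1 k⟩ g1
          ⟨hst2.1.symm, ⟨g2, hg2A, rfl⟩, ⟨g1, hA.1, rfl⟩, bt_symm hbt2, hb⟩
          (C08_self _ _)
        omega
      · have hadj : Γ.Adj k j := hrs.1
        obtain ⟨w, hw1, hw2⟩ := (M.sq g1 g g2 k j hadj.ne hst' hst2).2 hadj
        have h3 : Bt (S k) (co w k) c b := by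
          rw [hw1.2 k hadj.ne]
          exact hg'
        have h4 : C08_D S co x w < C08_D S co x g := by
          refine C08_lt hw1.2 ?_
          rw [hw2.2 j hadj.ne.symm, hst'.2 j hadj.ne.symm]
          exact hlt2
        have h5 := hm' ⟨⟨(k, A), hr⟩, b, c⟩ w ⟨e1, e2, e3, e4, e5⟩ h3
        omega
    · have hsr : IsReg Γ co N (rg Γ co g1 j) := rg_isReg hoc
      rcases h1 ⟨(k, A), hr⟩ ⟨rg Γ co g1 j, hsr⟩ hrs with h3 | h3
      · have h4 : Prj S co (k, A) g1 (a ⟨(k, A), hr⟩) := h3 g1 hg1s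
        have h5 : Prj S co (k, A) g1 (co g1 k) := prj_self M (r := (k, A)) hA.1
        have h6 : a ⟨(k, A), hr⟩ = b := (prj_uniq M h4 h5).trans k1
        rw [h6] at e5'
        exact C08_excl e1' (C08_self _ _) e5'
      · have h4 : Prj S co (rg Γ co g1 j) g1 (a ⟨rg Γ co g1 j, hsr⟩) := h3 g1 hA.1
        have h5 : Prj S co (rg Γ co g1 j) g1 (co g1 j) :=
          prj_self M (r := rg Γ co g1 j) hg1s
        have h6 : a ⟨rg Γ co g1 j, hsr⟩ = co g1 j := prj_uniq M h4 h5
        have h7 := hm' ⟨⟨rg Γ co g1 j, hsr⟩, co g2 j, co g1 j⟩ g1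
          ⟨hst2.1.symm, ⟨g2, hg2s, rfl⟩, ⟨g1, hg1s, rfl⟩, bt_symm hbt2, by
            show Bt (S j) (a ⟨rg Γ co g1 j, hsr⟩) (co g1 j) (co g2 j)
            rw [h6]
            exact C08_self _ _⟩
          (C08_self _ _)
        omega

theorem ultra (M : MS1 Γ S co N) (a : ∀ r : Rg Γ co N, V r.1.1)
    (ha : ∀ r, VR co r.1 (a r))
    (h1 : ∀ r s, ¬ RSt Γ r.1 s.1 → PrR S co r.1 s.1 (a r) ∨ PrR S co s.1 r.1 (a s)) (x0 : Pt)
    (h2 : {r | ¬ Prj S co r.1 x0 (a r)}.Finite) : ∃ x, ∀ r, Prj S co r.1 x (a r) := by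
  obtain ⟨x, _, hx⟩ := C08_min (fun _ : Pt => True) (fun x => (C08_G S a x).ncard) ⟨x0, trivial⟩
  have h3 := C08_main M a h1 x (C08_fin M a x0 h2 x) fun y => hx y trivial
  refine ⟨x, fun r => ?_⟩
  obtain ⟨p, hp⟩ := prj_exists M r.2 x
  by_cases hpa : p = a r
  · rw [← hpa]
    exact hp
  · exfalso
    obtain ⟨b, hb, hb'⟩ := st_next (M.tree r.1.1) hpa
    have hvb : VR co r.1 b := vr_cv M r.2 p hp.1 (a r) (ha r) b hb'
    have h4 : (⟨r, p, b⟩ : Σ r : Rg Γ co N, V r.1.1 × V r.1.1) ∈ C08_G S a x :=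
      ⟨hb, hp.1, hvb, hp.2 b hvb, bt_symm hb'⟩
    rw [h3] at h4
    exact h4

end

end VTB
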