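import Pool.Agent.Lib.MP_32d917_al_vt.C07
import Pool.Agent.Lib.MP_32d917_al_vt.C08

/-!
# C09: the identification of the points of two structures

Given `F` (regions) and for every region `r` a map `f r` from the vertices of its tree to those of `F r` which is bijective on the trees of the regions and extends the correspondence `PC` of vertices which are not internal (and maps internal ones to internal ones). Then there is a bijection `Φ` of the points with `Prj x p → Prj (Φ x) (f r p)` for all `r`.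
For a point `x` put `a (F r) = f r (projection of x to r)`. (h1) for `F r`, `F s` not in the star of each other: `r`, `s` are not (`f_rst`); by `two_of_three` the projection `p` of `x` to `r` is that of `s` (or exchanged); then `p` is not internal (`prr_nint`), `f r p` corresponds to `p` (`PC`), so `F s` projects to `f r p` by `PC.iff`.
(h2): it suffices to treat one point `x` (another point differs in finitely many projections: `fin_diff`); take `x` a chamber (`chamber` with `J = univ`), `r_v = rg x v` for all labels `v`. Let `x0'` be a point of the second structure, and for every `v` a point `x'_v` of the region `F r_v`. For every region `s` there is a label `v` with not `RSt Γ r_v s`: otherwise the label `w` of `s` is in `st v` for all `v`, so all labels are in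
`st w`, against `NoDom` for some `v ≠ w` (`lk v ⊆ st w`). For this `v` the projection of `x` to `s` is that of `r_v`, not internal, corresponding under `PC` to the projection of `F r_v` to `F s`, so `a (F s)` is the projection of `x'_v` to `F s`. So `a (F s)` is the projection of `x0'` except if the projections of `x0'` and of some `x'_v` to `F s` differ: finitely many (`fin_diff`, finitely many `v`).
`ultra` gives `Φ x`, unique by `pt_eq`. The inverse by the same construction for `F.symm` and the inverse maps (or: injective by `pt_eq`; surjective: for `x'` apply the construction to the inverse family). `ident` returns an `Equiv`.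
`ident_uadj`: if moreover `f r` and its inverse preserve adjacency in the trees of the regions then `Φ` preserves `UAdj` both ways: `uadj_iff`, `mem_iff` (`x ∈ r.2` iff `Φ x ∈ (F r).2`).
-/

set_option autoImplicit false

namespace VTB

open LatIso LatN LatF RaagIso

section

variable {ι Pt : Type} [Fintype ι] {V : ι → Type} {Γ : SimpleGraph ι}
  {S : ∀ i, SimpleGraph (V i)} {co : Pt → ∀ i, V i} {N : Pt → ι → Prop}
  {ι' Pt' : Type} [Fintype ι'] {V' : ι' → Type} {Γ' : SimpleGraph ι'}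
  {S' : ∀ i, SimpleGraph (V' i)} {co' : Pt' → ∀ i, V' i} {N' : Pt' → ι' → Prop}

/-- bijections of the vertices of the trees of the regions, extending `PC` -/
structure RB (S : ∀ i, SimpleGraph (V i)) (co : Pt → ∀ i, V i) (S' : ∀ i, SimpleGraph (V' i))
    (co' : Pt' → ∀ i, V' i) (F : Rg Γ co N ≃ Rg Γ' co' N')
    (f : ∀ r : Rg Γ co N, V r.1.1 → V' (F r).1.1) : Prop where
  maps : ∀ r p, VR co r.1 p → VR co' (F r).1 (f r p)
  inj : ∀ r p q, VR co r.1 p → VR co r.1 q → f r p = f r q → p = q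
  sur : ∀ r p', VR co' (F r).1 p' → ∃ p, VR co r.1 p ∧ f r p = p'
  pc : ∀ r p, VR co r.1 p → ¬ RInt co N r.1 p → PC S co S' co' F r p (f r p)
  int : ∀ r p, VR co r.1 p → RInt co N r.1 p → RInt co' N' (F r).1 (f r p)

private theorem C09_ne {r : ι × Set Pt} (hr : IsReg Γ co N r) : r.2.Nonempty := by
  obtain ⟨x0, _, h0⟩ := hr
  exact ⟨x0, by rw [h0]; exact ag_refl x0⟩

/-- the family of the images of the projections of a point -/
private theorem C09_fam (M : MS1 Γ S co N) (F : Rg Γ co N ≃ Rg Γ' co' N')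
    (f : ∀ r : Rg Γ co N, V r.1.1 → V' (F r).1.1) (x : Pt) :
    ∃ a : ∀ t : Rg Γ' co' N', V' t.1.1, ∀ r p, Prj S co r.1 x p → a (F r) = f r p := by
  have h : ∀ t : Rg Γ' co' N', ∃ q : V' t.1.1, ∀ r p (h : F r = t), Prj S co r.1 x p →
      q = h ▸ f r p := by
    intro t
    obtain ⟨r, rfl⟩ := F.surjective t
    obtain ⟨p, hp⟩ := prj_exists M r.2 x
    refine ⟨f r p, ?_⟩
    intro r' p' h hp'
    have h1 : r' = r := F.injective h
    subst h1
    have h2 := prj_uniq M hp hp'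
    subst h2
    rfl
  choose a ha using h
  exact ⟨a, fun r p hp => ha (F r) r p rfl hp⟩

/-- corresponding regions have corresponding projections -/
private theorem C09_prr (M : MS1 Γ S co N) {F : Rg Γ co N ≃ Rg Γ' co' N'}
    {f : ∀ r : Rg Γ co N, V r.1.1 → V' (F r).1.1} (hf : RB S co S' co' F f) {r s : Rg Γ co N}
    (h : ¬ RSt Γ r.1 s.1) {p : V r.1.1} (hp : PrR S co r.1 s.1 p) :
    PrR S' co' (F r).1 (F s).1 (f r p) := by
  obtain ⟨h1, h2⟩ := prr_nint M r s h hp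
  exact ((hf.pc r p h1 h2).iff s h).1 hp

private theorem C09_prr' (M' : MS1 Γ' S' co' N') {F : Rg Γ co N ≃ Rg Γ' co' N'}
    (hF : ∀ r s, RAdj Γ r.1 s.1 ↔ RAdj Γ' (F r).1 (F s).1)
    {f : ∀ r : Rg Γ co N, V r.1.1 → V' (F r).1.1} (hf : RB S co S' co' F f) {r s : Rg Γ co N}
    (h : ¬ RSt Γ r.1 s.1) {p : V r.1.1} (hv : VR co r.1 p)
    (hp : PrR S' co' (F r).1 (F s).1 (f r p)) : PrR S co r.1 s.1 p := by
  have h' : ¬ RSt Γ' (F r).1 (F s).1 := fun hh => h ((f_rst F hF r s).2 hh)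
  obtain ⟨-, h2⟩ := prr_nint M' (F r) (F s) h' hp
  have h3 : ¬ RInt co N r.1 p := fun hh => h2 (hf.int r p hv hh)
  exact ((hf.pc r p hv h3).iff s h).2 hp

/-- a region is not in the star of some region at a chamber -/
private theorem C09_lab {x : Pt} (s : ι × Set Pt) (hs : ¬ CL Γ s.1) :
    ∃ v : ι, ¬ RSt Γ (rg Γ co x v) s := by
  obtain ⟨v, hv⟩ := not_cl hs
  refine ⟨v, fun hc => hv ?_⟩
  rcases hc with h | h
  · left
    rw [← h]
    rfl
  · right
    exact h.1.symm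

/-- there are finitely many regions with central labels -/
private theorem C09_cl : {r : Rg Γ co N | CL Γ r.1.1}.Finite := by
  refine Set.Finite.of_injOn (f := fun r : Rg Γ co N => r.1.1) (t := Set.univ)
    (fun _ _ => trivial) ?_ Set.finite_univ
  intro r hr s _ he
  have he' : r.1.1 = s.1.1 := he
  rcases cl_rst r.2 s.2 hr with h | h
  · exact Subtype.ext h
  · have h1 := h.1
    rw [he'] at h1
    exact absurd h1 (Γ.loopless.irrefl _)

/-- the images of the projections of a chamber are the projections of a point, up to finitely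
many -/
private theorem C09_fin (M : MS1 Γ S co N) (hG : GG Γ) (M' : MS1 Γ' S' co' N')
    {F : Rg Γ co N ≃ Rg Γ' co' N'} (hF : ∀ r s, RAdj Γ r.1 s.1 ↔ RAdj Γ' (F r).1 (F s).1)
    {f : ∀ r : Rg Γ co N, V r.1.1 → V' (F r).1.1} (hf : RB S co S' co' F f) {x : Pt}
    (hx : ∀ k, ¬ CL Γ k → ¬ N x k) (x0 : Pt') :
    {t : Rg Γ' co' N' | ¬ ∀ r p, F r = t → Prj S co r.1 x p →
      Prj S' co' (F r).1 x0 (f r p)}.Finite := by
  have hreg : ∀ v, IsReg Γ co N (rg Γ co x v) := by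
    intro v
    refine rg_isReg fun k hk => ?_
    by_cases hc : CL Γ k
    · exact hc v
    · exact absurd hk (hx k hc)
  obtain ⟨R, hR⟩ : ∃ R : ι → Rg Γ co N, ∀ v, R v = ⟨rg Γ co x v, hreg v⟩ :=
    ⟨fun v => ⟨rg Γ co x v, hreg v⟩, fun _ => rfl⟩
  have hxR : ∀ v, x ∈ (R v).1.2 := by
    intro v
    rw [hR]
    exact ag_refl x
  choose y hy using fun v => C09_ne (F (R v)).2
  refine ((Set.finite_iUnion (fun v => fin_diff M' x0 (y v))).union
    ((C09_cl (Γ := Γ) (co := co) (N := N)).image F)).subset ?_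
  intro t ht
  by_contra hcon0
  apply ht
  rintro s p rfl hp
  have hcon : F s ∉ ⋃ v, {r : Rg Γ' co' N' | ¬ ∃ p : V' r.1.1, Prj S' co' r.1 x0 p ∧
      Prj S' co' r.1 (y v) p} := fun h => hcon0 (Or.inl h)
  have hscl : ¬ CL Γ s.1.1 := fun h => hcon0 (Or.inr ⟨s, h, rfl⟩)
  obtain ⟨v, hv⟩ := C09_lab (co := co) (x := x) s.1 hscl
  have hv' : ¬ RSt Γ s.1 (R v).1 := by
    intro hh
    apply hv
    have h1 := rst_symm hh
    rw [hR] at h1
    exact h1
  obtain ⟨p0, hp0⟩ := prr_exists M s (R v) hv'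
  have h1 : p = p0 := prj_uniq M hp (hp0 x (hxR v))
  subst h1
  have h2 := C09_prr M hf hv' hp0
  have h3 := h2 (y v) (hy v)
  have h4 : ∃ q : V' (F s).1.1, Prj S' co' (F s).1 x0 q ∧ Prj S' co' (F s).1 (y v) q := by
    by_contra h5
    exact hcon (Set.mem_iUnion.2 ⟨v, h5⟩)
  obtain ⟨q, hq1, hq2⟩ := h4
  have h6 := prj_uniq M' h3 hq2
  rw [h6]
  exact hq1

private theorem C09_pt (M : MS Γ S co N) (hG : GG Γ) (M' : MS1 Γ' S' co' N')
    {F : Rg Γ co N ≃ Rg Γ' co' N'} (hF : ∀ r s, RAdj Γ r.1 s.1 ↔ RAdj Γ' (F r).1 (F s).1)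
    {f : ∀ r : Rg Γ co N, V r.1.1 → V' (F r).1.1} (hf : RB S co S' co' F f) (y : Pt) :
    ∃ y' : Pt', ∀ (r : Rg Γ co N) (p : V r.1.1), Prj S co r.1 y p →
      Prj S' co' (F r).1 y' (f r p) := by
  obtain ⟨x0⟩ := M'.ne
  obtain ⟨x, -, hx, -⟩ := chamber M Set.univ y
  have hx' : ∀ k, ¬ CL Γ k → ¬ N x k := fun k hk => hx k (Set.mem_univ k) hk
  obtain ⟨a, ha⟩ := C09_fam M.b F f y
  suffices hs : (∀ t, VR co' t.1 (a t)) ∧ (∀ t u : Rg Γ' co' N', ¬ RSt Γ' t.1 u.1 →
      PrR S' co' t.1 u.1 (a t) ∨ PrR S' co' u.1 t.1 (a u)) ∧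
      {t | ¬ Prj S' co' t.1 x0 (a t)}.Finite by
    obtain ⟨y', hy'⟩ := ultra M' a hs.1 hs.2.1 x0 hs.2.2
    refine ⟨y', fun r p hp => ?_⟩
    rw [← ha r p hp]
    exact hy' (F r)
  refine ⟨?_, ?_, ?_⟩
  · intro t
    obtain ⟨r, rfl⟩ := F.surjective t
    obtain ⟨p, hp⟩ := prj_exists M.b r.2 y
    rw [ha r p hp]
    exact hf.maps r p hp.1
  · intro t u htu
    obtain ⟨r, rfl⟩ := F.surjective t
    obtain ⟨s, rfl⟩ := F.surjective u
    obtain ⟨p, hp⟩ := prj_exists M.b r.2 y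
    obtain ⟨q, hq⟩ := prj_exists M.b s.2 y
    have h1 : ¬ RSt Γ r.1 s.1 := fun hh => htu ((f_rst F hF r s).1 hh)
    rw [ha r p hp, ha s q hq]
    rcases two_of_three M.b r s h1 y hp hq with h | h
    · exact Or.inl (C09_prr M.b hf h1 h)
    · exact Or.inr (C09_prr M.b hf (fun hh => h1 (rst_symm hh)) h)
  · refine ((C09_fin M.b hG M' hF hf hx' x0).union ((fin_diff M.b x y).image F)).subset ?_
    intro t ht
    by_contra hcon
    apply ht
    obtain ⟨r, rfl⟩ := F.surjective t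
    have h1 : ¬ ¬ ∀ s p, F s = F r → Prj S co s.1 x p → Prj S' co' (F s).1 x0 (f s p) :=
      fun hh => hcon (Or.inl hh)
    have h2 : ¬ ¬ ∃ p : V r.1.1, Prj S co r.1 x p ∧ Prj S co r.1 y p :=
      fun hh => hcon (Or.inr ⟨r, hh, rfl⟩)
    rw [not_not] at h1 h2
    obtain ⟨p, hp1, hp2⟩ := h2
    rw [ha r p hp2]
    exact h1 r p rfl hp1

private theorem C09_bij (M : MS Γ S co N) (hG : GG Γ) (M' : MS Γ' S' co' N')
    {F : Rg Γ co N ≃ Rg Γ' co' N'} (hF : ∀ r s, RAdj Γ r.1 s.1 ↔ RAdj Γ' (F r).1 (F s).1)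
    {f : ∀ r : Rg Γ co N, V r.1.1 → V' (F r).1.1} (hf : RB S co S' co' F f) {φ : Pt → Pt'}
    (hφ : ∀ x (r : Rg Γ co N) (p : V r.1.1), Prj S co r.1 x p →
      Prj S' co' (F r).1 (φ x) (f r p)) : Function.Bijective φ := by
  constructor
  · intro x y hxy
    refine pt_eq M.b fun r p hp => ?_
    obtain ⟨q, hq⟩ := prj_exists M.b r.2 y
    have h1 := hφ x r p hp
    have h2 := hφ y r q hq
    rw [hxy] at h1
    have h3 := hf.inj r p q hp.1 hq.1 (prj_uniq M'.b h1 h2)
    rw [h3]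
    exact hq
  · intro x'
    have hex : ∀ r : Rg Γ co N, ∃ p : V r.1.1, VR co r.1 p ∧ Prj S' co' (F r).1 x' (f r p) := by
      intro r
      obtain ⟨p', hp'⟩ := prj_exists M'.b (F r).2 x'
      obtain ⟨p, hp, rfl⟩ := hf.sur r p' hp'.1
      exact ⟨p, hp, hp'⟩
    choose b hb1 hb2 using hex
    obtain ⟨x0⟩ := M.b.ne
    suffices hs : (∀ t u : Rg Γ co N, ¬ RSt Γ t.1 u.1 →
        PrR S co t.1 u.1 (b t) ∨ PrR S co u.1 t.1 (b u)) ∧
        {t | ¬ Prj S co t.1 x0 (b t)}.Finite by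
      obtain ⟨x, hx⟩ := ultra M.b b hb1 hs.1 x0 hs.2
      refine ⟨x, pt_eq M'.b fun t p hp => ?_⟩
      obtain ⟨r, rfl⟩ := F.surjective t
      have h1 := hφ x r (b r) (hx r)
      rw [prj_uniq M'.b hp h1]
      exact hb2 r
    refine ⟨?_, ?_⟩
    · intro r s hrs
      have h1 : ¬ RSt Γ' (F r).1 (F s).1 := fun hh => hrs ((f_rst F hF r s).2 hh)
      rcases two_of_three M'.b (F r) (F s) h1 x' (hb2 r) (hb2 s) with h | h
      · exact Or.inl (C09_prr' M'.b hF hf hrs (hb1 r) h)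
      · exact Or.inr (C09_prr' M'.b hF hf (fun hh => hrs (rst_symm hh)) (hb1 s) h)
    · refine ((fin_diff M'.b (φ x0) x').preimage F.injective.injOn).subset ?_
      intro r hr
      rw [Set.mem_preimage, Set.mem_setOf_eq]
      rintro ⟨q, hq1, hq2⟩
      apply hr
      obtain ⟨p, hp⟩ := prj_exists M.b r.2 x0
      have h1 := prj_uniq M'.b (hφ x0 r p hp) hq1
      have h2 := prj_uniq M'.b (hb2 r) hq2
      have h3 := hf.inj r p (b r) hp.1 (hb1 r) (h1.trans h2.symm)
      rw [← h3]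
      exact hp

theorem ident (M : MS Γ S co N) (hG : GG Γ) (M' : MS Γ' S' co' N') (hG' : GG Γ')
    (F : Rg Γ co N ≃ Rg Γ' co' N') (hF : ∀ r s, RAdj Γ r.1 s.1 ↔ RAdj Γ' (F r).1 (F s).1)
    (f : ∀ r : Rg Γ co N, V r.1.1 → V' (F r).1.1) (hf : RB S co S' co' F f) :
    ∃ Φ : Pt ≃ Pt', ∀ x (r : Rg Γ co N) (p : V r.1.1), Prj S co r.1 x p →
      Prj S' co' (F r).1 (Φ x) (f r p) := by
  choose φ hφ using C09_pt M hG M'.b hF hf
  exact ⟨Equiv.ofBijective φ (C09_bij M hG M' hF hf hφ), hφ⟩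

private theorem C09_mem (M : MS1 Γ S co N) (M' : MS1 Γ' S' co' N')
    {F : Rg Γ co N ≃ Rg Γ' co' N'} (hF : ∀ r s, RAdj Γ r.1 s.1 ↔ RAdj Γ' (F r).1 (F s).1)
    {f : ∀ r : Rg Γ co N, V r.1.1 → V' (F r).1.1} (hf : RB S co S' co' F f) {x : Pt} {x' : Pt'}
    (hx : ∀ (r : Rg Γ co N) (p : V r.1.1), Prj S co r.1 x p → Prj S' co' (F r).1 x' (f r p))
    (r : Rg Γ co N) : x ∈ r.1.2 ↔ x' ∈ (F r).1.2 := by
  rw [mem_iff M, mem_iff M']
  constructor
  · intro h t ht p' hp'
    obtain ⟨s, rfl⟩ := F.surjective t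
    have h1 : ¬ RSt Γ r.1 s.1 := fun hh => ht ((f_rst F hF r s).1 hh)
    have h2 : ¬ RSt Γ s.1 r.1 := fun hh => h1 (rst_symm hh)
    obtain ⟨p, hp⟩ := prr_exists M s r h2
    have h3 := C09_prr M hf h2 hp
    obtain ⟨y, hy⟩ := C09_ne (F r).2
    rw [prj_uniq M' (hp' y hy) (h3 y hy)]
    exact hx s p (h s h1 p hp)
  · intro h s hs p hp
    have h2 : ¬ RSt Γ s.1 r.1 := fun hh => hs (rst_symm hh)
    have h3 := C09_prr M hf h2 hp
    have h4 := h (F s) (fun hh => hs ((f_rst F hF r s).2 hh)) (f s p) h3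
    obtain ⟨q, hq⟩ := prj_exists M s.2 x
    have h5 := prj_uniq M' (hx s q hq) h4
    have h6 := hf.inj s q p hq.1 (prr_nint M s r h2 hp).1 h5
    rw [← h6]
    exact hq

theorem ident_uadj (M : MS Γ S co N) (hG : GG Γ) (M' : MS Γ' S' co' N') (hG' : GG Γ')
    (F : Rg Γ co N ≃ Rg Γ' co' N') (hF : ∀ r s, RAdj Γ r.1 s.1 ↔ RAdj Γ' (F r).1 (F s).1)
    (f : ∀ r : Rg Γ co N, V r.1.1 → V' (F r).1.1) (hf : RB S co S' co' F f)
    (hadj : ∀ (r : Rg Γ co N) (p q : V r.1.1), VR co r.1 p → VR co r.1 q →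
      ((S r.1.1).Adj p q ↔ (S' (F r).1.1).Adj (f r p) (f r q)))
    (Φ : Pt ≃ Pt') (hΦ : ∀ x (r : Rg Γ co N) (p : V r.1.1), Prj S co r.1 x p →
      Prj S' co' (F r).1 (Φ x) (f r p)) (x y : Pt) :
    UAdj S co x y ↔ UAdj S' co' (Φ x) (Φ y) := by
  rw [uadj_iff M.b, uadj_iff M'.b]
  constructor
  · rintro ⟨r, h1, h2, p, q, h3, h4, h5⟩
    refine ⟨F r, (C09_mem M.b M'.b hF hf (hΦ x) r).1 h1, ?_, f r p, f r q, hΦ x r p h3,
      hΦ y r q h4, (hadj r p q h3.1 h4.1).1 h5⟩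
    intro t ht p' hp'
    obtain ⟨s, rfl⟩ := F.surjective t
    have hs : s ≠ r := fun hh => ht (congrArg F hh)
    obtain ⟨u, hu⟩ := prj_exists M.b s.2 x
    rw [prj_uniq M'.b hp' (hΦ x s u hu)]
    exact hΦ y s u (h2 s hs u hu)
  · rintro ⟨t, h1, h2, p', q', h3, h4, h5⟩
    obtain ⟨r, rfl⟩ := F.surjective t
    obtain ⟨p, hp⟩ := prj_exists M.b r.2 x
    obtain ⟨q, hq⟩ := prj_exists M.b r.2 y
    refine ⟨r, (C09_mem M.b M'.b hF hf (hΦ x) r).2 h1, ?_, p, q, hp, hq,
      (hadj r p q hp.1 hq.1).2 ?_⟩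
    · intro s hs u hu
      have hs' : F s ≠ F r := fun hh => hs (F.injective hh)
      have h6 := h2 (F s) hs' (f s u) (hΦ x s u hu)
      obtain ⟨w, hw⟩ := prj_exists M.b s.2 y
      have h7 := prj_uniq M'.b (hΦ y s w hw) h6
      have h8 := hf.inj s w u hw.1 hu.1 h7
      rw [← h8]
      exact hw
    · rw [prj_uniq M'.b (hΦ x r p hp) h3, prj_uniq M'.b (hΦ y r q hq) h4]
      exact h5

end

end VTB
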