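import Pool.Agent.Lib.MP_32d917_al_vt.A05
import Pool.Agent.Lib.MP_32d917_al.F.FRED
import Pool.Agent.Lib.MP_32d917_al.SUBD

/-!
# D00: definitions of part D: structures with inversions, collapses, subdivisions
-/

set_option autoImplicit false

namespace VTB

open LatIso LatN LatF RaagIso

section glob

variable {ι Pt V : Type}

/-- `VLat` without the axiom `noinv` -/
structure VLat0 (G : Type) [Group G] [MulAction G Pt] [MulAction G V] [MulAction G ι]
    (Γ : SimpleGraph ι) (κ : V → ι) (S : SimpleGraph V) (co : Pt → ∀ i, Fib κ i)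
    (N : Pt → ι → Prop) : Prop where
  pre : VPre G Γ κ S co N
  ms : MS Γ (comp κ S) co N
  gg : GG Γ
  prop : ∀ x : Pt, {g : G | g • x = x}.Finite
  fin : ∃ F : Finset Pt, ∀ x : Pt, ∃ g : G, g • x ∈ F

end glob

section fam

variable {ι Pt : Type} {V V₁ : ι → Type}

/-! ### Collapses -/

/-- Collapse data: `r i` is a retraction of `V i` onto (the image under `inc i` of) `V₁ i` which moves
vertices along edges; the vertices which are moved are internal, and the edges occur. -/
structure Clp (S : ∀ i, SimpleGraph (V i)) (co : Pt → ∀ i, V i) (N : Pt → ι → Prop)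
    (inc : ∀ i, V₁ i → V i) (r : ∀ i, V i → V₁ i) : Prop where
  ri : ∀ i a, r i (inc i a) = a
  ad : ∀ i v, v = inc i (r i v) ∨ (S i).Adj v (inc i (r i v))
  stp : ∀ x i, co x i ≠ inc i (r i (co x i)) →
    N x i ∧ ∃ y, VSt S co i x y ∧ co y i = inc i (r i (co x i))

/-- the points of the collapsed structure: no coordinate is moved -/
abbrev CPt (co : Pt → ∀ i, V i) (inc : ∀ i, V₁ i → V i) (r : ∀ i, V i → V₁ i) : Type :=
  {x : Pt // ∀ i, co x i = inc i (r i (co x i))}

/-- the coordinates of the collapsed structure -/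
def clco (co : Pt → ∀ i, V i) (inc : ∀ i, V₁ i → V i) (r : ∀ i, V i → V₁ i)
    (x : CPt co inc r) (i : ι) : V₁ i := r i (co x.1 i)

/-- the trees of the collapsed structure -/
def clS (S : ∀ i, SimpleGraph (V i)) (r : ∀ i, V i → V₁ i) (i : ι) : SimpleGraph (V₁ i) :=
  rcG (S i) (r i)

/-- the internal labels of the collapsed structure -/
def clN (N : Pt → ι → Prop) (co : Pt → ∀ i, V i) (inc : ∀ i, V₁ i → V i) (r : ∀ i, V i → V₁ i)
    (x : CPt co inc r) (i : ι) : Prop := N x.1 i

/-! ### Subdivisions -/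

/-- the points of the subdivision: cubes; a cube is given by a vertex or an edge of every tree such
that all choices of corners are points -/
abbrev SPt (S : ∀ i, SimpleGraph (V i)) (co : Pt → ∀ i, V i) : Type :=
  {f : ∀ i, SbV (S i) // ∀ a : ∀ i, V i, (∀ i, a i ∈ (f i).1) → ∃ x, ∀ i, co x i = a i}

/-- the coordinates of the subdivision -/
def sbco (S : ∀ i, SimpleGraph (V i)) (co : Pt → ∀ i, V i) (f : SPt S co) (i : ι) : SbV (S i) :=
  f.1 i

/-- the trees of the subdivision -/
def sbS (S : ∀ i, SimpleGraph (V i)) (i : ι) : SimpleGraph (SbV (S i)) := sbG (S i)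

/-- `x` is a corner of the cube `f` -/
def Cor {S : ∀ i, SimpleGraph (V i)} {co : Pt → ∀ i, V i} (f : SPt S co) (x : Pt) : Prop :=
  ∀ i, co x i ∈ (f.1 i).1

/-- the cube `f` has edges of label `i` -/
def Edg {S : ∀ i, SimpleGraph (V i)} {co : Pt → ∀ i, V i} (f : SPt S co) (i : ι) : Prop :=
  ∃ a b, a ≠ b ∧ a ∈ (f.1 i).1 ∧ b ∈ (f.1 i).1

/-- the internal labels of the subdivision -/
def sbN (N : Pt → ι → Prop) (S : ∀ i, SimpleGraph (V i)) (co : Pt → ∀ i, V i) (f : SPt S co)
    (i : ι) : Prop := Edg f i ∨ ∃ x, Cor f x ∧ N x i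

end fam

end VTB
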