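import Pool.Agent.Lib.MP_32d917_al_vt.D00

/-!
# D01: contractions of trees

`T` a tree, `r : W → W₁` a retraction with section `j` such that every vertex is `j (r y)` or adjacent to it, `rcG T r` the contracted tree (RED.lean: `red_dart`, `red_tree`,
`red_cut`). `rc_adj`: clear. `rc_bt`: segments go to segments. Proof: if `x m` is cut as `x = x 0, ..., x n = y` (a geodesic of `T`), the images `r (x k)` are consecutively equal or adjacent; the darts
`r (x k) r (x (k+1))` of `rcG T r` which occur come from different darts of `T` (`red_dart`), so there is no backtracking; more simply by induction on `dist m y` or by edges: for an edge `a b` of `T` with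
`r a ≠ r b` the sides are compatible: `red_side` says `T.dist c a < T.dist c b` iff the same for `r c`, `r a`, `r b`. A convenient way: `rc_dist`: `(rcG T r).dist (r x) (r y)` is the number of edges of the geodesic
`x y` which are not contracted; by induction on `T.dist x y`: take `n` adjacent to `x` between `x` and `y` (`st_next`): if `r n = r x` the distance does not change; otherwise
`(rcG T r).dist (r x) (r y) = (rcG T r).dist (r n) (r y) + 1` (`rc_next`): the edge `r x, r n` of the tree `rcG T r` separates `r x` from `r y`, because the edge `x n` of `T` separates `x` from `y` and a path of `rcG T r` from `r n` to `r y`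
lifts to a path of `T` from `n` to `y` in which the edge `x n` is not used (`red_side`). Then `rc_bt` follows by induction on `T.dist x m`.
`rc_edge`: let `u w` be the edge of `T` with `r u = a`, `r w = b`; `u = j a` or adjacent to it, `w = j b` or adjacent to it; the vertices `j a, u, w, j b` are a geodesic of `T` (no backtracking:
`w ≠ j a` since `r w = b ≠ a = r (j a)`, `u ≠ j b`).
-/

set_option autoImplicit false

namespace VTB

open LatIso LatN LatF RaagIso

section

variable {W W₁ : Type} {T : SimpleGraph W} {j : W₁ → W} {r : W → W₁}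

theorem rc_adj {x y : W} (h : T.Adj x y) : r x = r y ∨ (rcG T r).Adj (r x) (r y) := by
  by_cases hh : r x = r y
  · exact Or.inl hh
  · exact Or.inr ⟨hh, x, y, h, rfl, rfl⟩

private theorem D01_P (hT : T.IsTree) (ri : ∀ a, r (j a) = a)
    (ad : ∀ y, y = j (r y) ∨ T.Adj y (j (r y))) {u w : W} (h : T.Adj u w) (hr : r u ≠ r w)
    {a' b' : W₁} (hab : (rcG T r).Adj a' b') (h1 : T.dist (j a') u < T.dist (j a') w)
    (h2 : ¬ T.dist (j b') u < T.dist (j b') w) : a' = r u ∧ b' = r w := by
  obtain ⟨hab', u', w', h', rfl, rfl⟩ := hab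
  rw [← red_side1 hT ri ad h hr u'] at h1
  rw [← red_side1 hT ri ad h hr w'] at h2
  have b2 := st_adj hT h w'
  obtain ⟨e1, e2⟩ := red_cut hT h h' h1 (by omega)
  rw [e1, e2]
  exact ⟨rfl, rfl⟩

private theorem D01_side (hT : T.IsTree) (ri : ∀ a, r (j a) = a)
    (ad : ∀ y, y = j (r y) ∨ T.Adj y (j (r y))) {u w : W} (h : T.Adj u w) (hr : r u ≠ r w) (y : W) :
    T.dist y u < T.dist y w ↔ (rcG T r).dist (r y) (r u) < (rcG T r).dist (r y) (r w) := by
  have hT1 : (rcG T r).IsTree := red_tree hT ri ad
  have he : (rcG T r).Adj (r u) (r w) := ⟨hr, u, w, h, rfl, rfl⟩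
  rw [red_side1 hT ri ad h hr y]
  have hPu : T.dist (j (r u)) u < T.dist (j (r u)) w := by
    rw [← red_side1 hT ri ad h hr u, SimpleGraph.dist_self, st1_one h]
    omega
  have hPw : ¬ T.dist (j (r w)) u < T.dist (j (r w)) w := by
    rw [← red_side1 hT ri ad h hr w, SimpleGraph.dist_self]
    omega
  have hQw : ¬ (rcG T r).dist (r w) (r u) < (rcG T r).dist (r w) (r w) := by
    rw [SimpleGraph.dist_self]
    omega
  have hQ : ∀ a' b', (rcG T r).Adj a' b' → (rcG T r).dist a' (r u) < (rcG T r).dist a' (r w) →
      ¬ (rcG T r).dist b' (r u) < (rcG T r).dist b' (r w) → a' = r u ∧ b' = r w := by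
    intro a' b' hab h1 h2
    have b2 := st_adj hT1 he b'
    exact red_cut hT1 he hab h1 (by omega)
  have key : ∀ n c, (rcG T r).dist c (r u) = n →
      (T.dist (j c) u < T.dist (j c) w ↔ (rcG T r).dist c (r u) < (rcG T r).dist c (r w)) := by
    intro n
    induction n with
    | zero =>
      intro c hc
      have e := st1_eq hT1 hc
      subst e
      refine iff_of_true hPu ?_
      rw [SimpleGraph.dist_self, st1_one he]
      omega
    | succ n ih =>
      intro c hc
      have hne : c ≠ r u := by
        rintro rfl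
        rw [SimpleGraph.dist_self] at hc
        omega
      obtain ⟨n', hn1, hn2⟩ := st_next hT1 hne
      have hd : (rcG T r).dist n' (r u) = n := by
        unfold Bt at hn2
        have e1 := st1_one hn1
        omega
      have IH := ih n' hd
      by_cases p1 : T.dist (j c) u < T.dist (j c) w
      · by_cases p2 : T.dist (j n') u < T.dist (j n') w
        · have q2 := IH.1 p2
          refine iff_of_true p1 ?_
          by_contra q1
          obtain ⟨_, e2⟩ := hQ n' c hn1.symm q2 q1
          rw [e2] at p1
          exact hPw p1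
        · exact absurd (D01_P hT ri ad h hr hn1 p1 p2).1 hne
      · by_cases p2 : T.dist (j n') u < T.dist (j n') w
        · obtain ⟨_, e2⟩ := D01_P hT ri ad h hr hn1.symm p2 p1
          rw [e2]
          exact iff_of_false hPw hQw
        · have q2 : ¬ (rcG T r).dist n' (r u) < (rcG T r).dist n' (r w) := fun hh => p2 (IH.2 hh)
          refine iff_of_false p1 fun q1 => ?_
          exact absurd (hQ c n' hn1 q1 q2).1 hne
  exact key _ (r y) rfl

/-- segments go to segments -/
theorem rc_bt (hT : T.IsTree) (ri : ∀ a, r (j a) = a) (ad : ∀ y, y = j (r y) ∨ T.Adj y (j (r y)))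
    {x m y : W} (h : Bt T x m y) : Bt (rcG T r) (r x) (r m) (r y) := by
  have hT1 : (rcG T r).IsTree := red_tree hT ri ad
  by_contra hcon
  obtain ⟨q, hq1, hq2, hq3⟩ := st_median hT1 (r x) (r y) (r m)
  have hne : r m ≠ q := by
    intro e
    rw [← e] at hq1
    exact hcon hq1
  obtain ⟨n, hn1, hn2⟩ := st_next hT1 hne
  have sx : (rcG T r).dist (r x) n < (rcG T r).dist (r x) (r m) := by
    unfold Bt at hq3 hn2
    have t1 := st1_tri hT1 (r x) q n
    have e1 := st1_one hn1
    have c1 : (rcG T r).dist q (r m) = (rcG T r).dist (r m) q := SimpleGraph.dist_comm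
    have c2 : (rcG T r).dist q n = (rcG T r).dist n q := SimpleGraph.dist_comm
    omega
  have sy : (rcG T r).dist (r y) n < (rcG T r).dist (r y) (r m) := by
    unfold Bt at hq2 hn2
    have t1 := st1_tri hT1 (r y) q n
    have e1 := st1_one hn1
    have c1 : (rcG T r).dist q (r m) = (rcG T r).dist (r m) q := SimpleGraph.dist_comm
    have c2 : (rcG T r).dist q n = (rcG T r).dist n q := SimpleGraph.dist_comm
    omega
  obtain ⟨hmn, w, u, hwu, hw, hu⟩ := hn1
  have hr : r u ≠ r w := by
    rw [hu, hw]
    exact hmn.symm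
  rw [← hu, ← hw] at sx sy
  rw [← D01_side hT ri ad hwu.symm hr] at sx sy
  have sm : T.dist m w < T.dist m u := by
    rw [D01_side hT ri ad hwu hr.symm, hw, SimpleGraph.dist_self]
    have e1 : (rcG T r).dist (r m) (r u) = 1 := by
      rw [hu]
      exact st1_one (⟨hmn, w, u, hwu, hw, hu⟩ : (rcG T r).Adj (r m) n)
    omega
  have ax := st_adj hT hwu x
  have ay := st_adj hT hwu y
  have am := st_adj hT hwu m
  rcases st_bt hT h u with h1 | h1
  · unfold Bt at h1
    have t1 := st1_tri hT x m w
    omega
  · unfold Bt at h1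
    have t1 := st1_tri hT y m w
    omega

/-- the edge of the tree over an edge of the contracted tree -/
theorem rc_edge (hT : T.IsTree) (ri : ∀ a, r (j a) = a)
    (ad : ∀ y, y = j (r y) ∨ T.Adj y (j (r y))) {a b : W₁} (h : (rcG T r).Adj a b) :
    ∃ u w, T.Adj u w ∧ r u = a ∧ r w = b ∧ Bt T (j a) u (j b) ∧ Bt T (j a) w (j b) ∧
      Bt T (j a) u w ∧ Bt T u w (j b) ∧ ∀ m, Bt T (j a) m (j b) → m = j a ∨ m = u ∨ m = w ∨ m = j b := by
  obtain ⟨hab, u, w, h, rfl, rfl⟩ := h
  have s1 : T.dist (j (r u)) u < T.dist (j (r u)) w := by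
    rw [← red_side1 hT ri ad h hab u, SimpleGraph.dist_self, st1_one h]
    omega
  have s2 : T.dist (j (r w)) w < T.dist (j (r w)) u := by
    rw [← red_side1 hT ri ad h.symm hab.symm w, SimpleGraph.dist_self, st1_one h.symm]
    omega
  have a1 := st_adj hT h (j (r u))
  have a2 := st_adj hT h (j (r w))
  have e1 := st1_one h
  have c1 : T.dist w (j (r w)) = T.dist (j (r w)) w := SimpleGraph.dist_comm
  have c2 : T.dist u (j (r w)) = T.dist (j (r w)) u := SimpleGraph.dist_comm
  have c3 : T.dist w u = T.dist u w := SimpleGraph.dist_comm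
  have b1 : Bt T (j (r u)) u w := by
    unfold Bt
    omega
  have b2 : Bt T (j (r u)) u (j (r w)) := by
    rcases st_bt hT b1 (j (r w)) with h1 | h1
    · exact h1
    · exfalso
      unfold Bt at h1
      omega
  have b2' := b2
  unfold Bt at b2'
  have b3 : Bt T (j (r u)) w (j (r w)) := by
    unfold Bt
    omega
  have b4 : Bt T u w (j (r w)) := by
    unfold Bt
    omega
  refine ⟨u, w, h, rfl, rfl, b2, b3, b1, b4, ?_⟩
  have d1 : T.dist (j (r u)) u ≤ 1 := by
    rcases ad u with h1 | h1
    · rw [← h1, SimpleGraph.dist_self]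
      omega
    · rw [SimpleGraph.dist_comm, st1_one h1]
  have d2 : T.dist (j (r w)) w ≤ 1 := by
    rcases ad w with h1 | h1
    · rw [← h1, SimpleGraph.dist_self]
      omega
    · rw [SimpleGraph.dist_comm, st1_one h1]
  intro m hm
  have hm' := hm
  unfold Bt at hm'
  have z1 : Bt T (j (r u)) (j (r u)) (j (r w)) := by
    unfold Bt
    rw [SimpleGraph.dist_self]
    omega
  have z2 : Bt T (j (r u)) (j (r w)) (j (r w)) := by
    unfold Bt
    rw [SimpleGraph.dist_self]
    omega
  have z0 : T.dist (j (r u)) (j (r u)) = 0 := SimpleGraph.dist_self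
  have hcase : T.dist (j (r u)) m = T.dist (j (r u)) (j (r u)) ∨
      T.dist (j (r u)) m = T.dist (j (r u)) u ∨ T.dist (j (r u)) m = T.dist (j (r u)) w ∨
      T.dist (j (r u)) m = T.dist (j (r u)) (j (r w)) := by
    omega
  rcases hcase with e | e | e | e
  · exact Or.inl (st_pt_uniq hT hm z1 e)
  · exact Or.inr (Or.inl (st_pt_uniq hT hm b2 e))
  · exact Or.inr (Or.inr (Or.inl (st_pt_uniq hT hm b3 e)))
  · exact Or.inr (Or.inr (Or.inr (st_pt_uniq hT hm z2 e)))

/-- the vertices over a vertex: itself and neighbours -/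
theorem rc_fib (ad : ∀ y, y = j (r y) ∨ T.Adj y (j (r y))) {y : W} {a : W₁} (h : r y = a) :
    y = j a ∨ T.Adj y (j a) := by
  subst h
  exact ad y

end

end VTB
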