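import Pool.Agent.Lib.MP_32d917_al_vt.D01

/-!
# D02: the retraction of the points of a collapse

`cpt_eq`, `cpt_ag`: for points of the collapsed structure equality of the coordinates `clco` is equality of the coordinates `co` (`co x i = inc i (r i (co x i))`).
`clp_ret`: every point `x` has a retraction: the point with coordinates `inc i (r i (co x i))`. Induction on the number of labels `i` with `co x i ≠ inc i (r i (co x i))` (`ι` is finite): if there is one, `stp` gives a step `y` in direction `i`
with `co y i = inc i (r i (co x i))`; then `r i (co y i) = r i (co x i)` by `ri`, the other coordinates are unchanged, and the number for `y` is smaller.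
`clp_step`: if `VSt S co k x y` then the retractions are equal or `VSt (clS S r) clco k`. `clp_path`: induction along the path.
`clp_dir`: if `VSt (clS S r) clco i x y` (collapsed points) then `Ag co {i} x.1 y.1`.
-/

set_option autoImplicit false

namespace VTB

open LatIso LatN LatF RaagIso

section

variable {ι Pt : Type} [Fintype ι] {V V₁ : ι → Type} {Γ : SimpleGraph ι}
  {S : ∀ i, SimpleGraph (V i)} {co : Pt → ∀ i, V i} {N : Pt → ι → Prop}
  {inc : ∀ i, V₁ i → V i} {r : ∀ i, V i → V₁ i}

theorem cpt_eq {x y : CPt co inc r} {i : ι} (h : clco co inc r x i = clco co inc r y i) :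
    co x.1 i = co y.1 i := by
  exact (x.2 i).trans ((congrArg (inc i) h).trans (y.2 i).symm)

theorem cpt_ag {J : Set ι} {x y : CPt co inc r} (h : Ag (clco co inc r) J x y) :
    Ag co J x.1 y.1 := by
  exact fun j hj => cpt_eq (h j hj)

theorem cpt_ag' {J : Set ι} {x y : CPt co inc r} (h : Ag co J x.1 y.1) :
    Ag (clco co inc r) J x y := by
  exact fun j hj => congrArg (r j) (h j hj)

/-- the retraction of points -/
theorem clp_ret (M : MS1 Γ S co N) (C : Clp S co N inc r) (x : Pt) :
    ∃ z : CPt co inc r, ∀ i, clco co inc r z i = r i (co x i) := by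
  classical
  have key : ∀ n : ℕ, ∀ x : Pt,
      (Finset.univ.filter (fun i => co x i ≠ inc i (r i (co x i)))).card ≤ n →
      ∃ z : CPt co inc r, ∀ i, clco co inc r z i = r i (co x i) := by
    intro n
    induction n with
    | zero =>
      intro x hx
      have h0 : (Finset.univ.filter (fun i => co x i ≠ inc i (r i (co x i)))) = ∅ :=
        Finset.card_eq_zero.1 (Nat.le_zero.1 hx)
      refine ⟨⟨x, fun i => ?_⟩, fun i => rfl⟩
      by_contra hne
      have h1 : i ∈ (Finset.univ.filter (fun i => co x i ≠ inc i (r i (co x i)))) :=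
        Finset.mem_filter.2 ⟨Finset.mem_univ _, hne⟩
      rw [h0] at h1
      exact absurd h1 (Finset.notMem_empty _)
    | succ n ih =>
      intro x hx
      by_cases hall : ∀ i, co x i = inc i (r i (co x i))
      · exact ⟨⟨x, hall⟩, fun i => rfl⟩
      · rw [not_forall] at hall
        obtain ⟨i, hi⟩ := hall
        obtain ⟨_, y, hy, hyi⟩ := C.stp x i hi
        have hr : ∀ k, r k (co y k) = r k (co x k) := by
          intro k
          by_cases hk : k = i
          · subst hk
            rw [hyi, C.ri]
          · rw [hy.2 k hk]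
        have hlt : (Finset.univ.filter (fun k => co y k ≠ inc k (r k (co y k)))) ⊂
            (Finset.univ.filter (fun k => co x k ≠ inc k (r k (co x k)))) := by
          rw [Finset.ssubset_iff_of_subset]
          · refine ⟨i, Finset.mem_filter.2 ⟨Finset.mem_univ _, hi⟩, fun hm => ?_⟩
            apply (Finset.mem_filter.1 hm).2
            rw [hr i]
            exact hyi
          · intro k hk
            have hk2 := (Finset.mem_filter.1 hk).2
            refine Finset.mem_filter.2 ⟨Finset.mem_univ _, fun e => hk2 ?_⟩
            by_cases hki : k = i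
            · subst hki
              rw [hr k]
              exact hyi
            · rw [hr k, hy.2 k hki]
              exact e
        have hc := Finset.card_lt_card hlt
        obtain ⟨z, hz⟩ := ih y (by omega)
        exact ⟨z, fun k => (hz k).trans (hr k)⟩
  exact key _ x le_rfl

theorem clp_dir {i : ι} {x y : CPt co inc r} (h : VSt (clS S r) (clco co inc r) i x y) :
    Ag co {i} x.1 y.1 ∧ co x.1 i ≠ co y.1 i := by
  exact ⟨fun j hj => cpt_eq (h.2 j (fun e => hj e)), fun e => h.1.ne (congrArg (r i) e)⟩

theorem clp_step {k : ι} {x y : Pt} (h : VSt S co k x y) {x₁ y₁ : CPt co inc r}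
    (hx : ∀ i, clco co inc r x₁ i = r i (co x i)) (hy : ∀ i, clco co inc r y₁ i = r i (co y i)) :
    (∀ i, clco co inc r x₁ i = clco co inc r y₁ i) ∨ VSt (clS S r) (clco co inc r) k x₁ y₁ := by
  rcases rc_adj (r := r k) h.1 with e | e
  · left
    intro i
    by_cases hi : i = k
    · subst hi
      rw [hx, hy, e]
    · rw [hx, hy, h.2 i hi]
  · right
    refine ⟨?_, fun j hj => by rw [hx, hy, h.2 j hj]⟩
    rw [hx, hy]
    exact e

/-- paths with labels in `J` go to paths with labels in `J` -/
theorem clp_path (M : MS1 Γ S co N) (C : Clp S co N inc r) {J : Set ι} {x y : Pt}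
    (h : Relation.ReflTransGen (fun a b => ∃ i ∈ J, VSt S co i a b) x y) {x₁ y₁ : CPt co inc r}
    (hx : ∀ i, clco co inc r x₁ i = r i (co x i)) (hy : ∀ i, clco co inc r y₁ i = r i (co y i)) :
    Relation.ReflTransGen (fun a b => ∃ i ∈ J, VSt (clS S r) (clco co inc r) i a b) x₁ y₁ := by
  induction h generalizing y₁ with
  | refl =>
    have e : x₁ = y₁ := Subtype.ext (M.inj _ _ (fun i => cpt_eq ((hx i).trans (hy i).symm)))
    rw [e]
  | @tail a b _ hab ih =>
    obtain ⟨k, hk, hs⟩ := hab
    obtain ⟨a₁, ha⟩ := clp_ret M C a
    rcases clp_step hs ha hy with h1 | h1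
    · have e : a₁ = y₁ := Subtype.ext (M.inj _ _ (fun i => cpt_eq (h1 i)))
      rw [← e]
      exact ih ha
    · exact (ih ha).tail ⟨k, hk, h1⟩

/-- points which agree outside `{i}` with a point `x` and retract to the same point: `x` itself or neighbours -/
theorem clp_near (M : MS1 Γ S co N) {i : ι} {x : CPt co inc r} {y : Pt} (C : Clp S co N inc r)
    (h : Ag co {i} x.1 y) (h' : r i (co y i) = clco co inc r x i) : y = x.1 ∨ VSt S co i x.1 y := by
  have e0 : inc i (r i (co y i)) = co x.1 i := by
    rw [h']
    exact (x.2 i).symm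
  rcases C.ad i (co y i) with h1 | h1
  · left
    apply M.inj
    intro j
    by_cases hj : j = i
    · subst hj
      rw [h1, e0]
    · exact h j hj
  · right
    refine ⟨?_, fun j hj => h j hj⟩
    rw [e0] at h1
    exact h1.symm

end

end VTB
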