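import Pool.Agent.Lib.MP_32d917_al_vt.D02

/-!
# D03: the collapsed structure: trees, points, connectivity, medians

`tree`: `red_tree` (RED.lean). `ne`: retraction of a point. `inj`: `cpt_eq` and `M.inj`. `onto`: for `a : V₁ i` take `x` with `co x i = inc i a` and its retraction. `conn`: `clp_path` with `J = univ` (a collapsed point is
its own retraction). `med`: the median `m` of `x.1`, `y.1`, `z.1` and its retraction; `rc_bt`.
-/

set_option autoImplicit false

namespace VTB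

open LatIso LatN LatF RaagIso

section

variable {ι Pt : Type} [Fintype ι] {V V₁ : ι → Type} {Γ : SimpleGraph ι}
  {S : ∀ i, SimpleGraph (V i)} {co : Pt → ∀ i, V i} {N : Pt → ι → Prop}
  {inc : ∀ i, V₁ i → V i} {r : ∀ i, V i → V₁ i}

theorem clp_tree (M : MS1 Γ S co N) (C : Clp S co N inc r) (i : ι) : (clS S r i).IsTree := by
  exact red_tree (M.tree i) (C.ri i) (C.ad i)

theorem clp_ne (M : MS1 Γ S co N) (C : Clp S co N inc r) : Nonempty (CPt co inc r) := by
  obtain ⟨x⟩ := M.ne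
  obtain ⟨z, _⟩ := clp_ret M C x
  exact ⟨z⟩

theorem clp_inj (M : MS1 Γ S co N) (x y : CPt co inc r)
    (h : ∀ i, clco co inc r x i = clco co inc r y i) : x = y := by
  exact Subtype.ext (M.inj _ _ (fun i => cpt_eq (h i)))

theorem clp_onto (M : MS1 Γ S co N) (C : Clp S co N inc r) (i : ι) (a : V₁ i) :
    ∃ x : CPt co inc r, clco co inc r x i = a := by
  obtain ⟨x, hx⟩ := M.onto i (inc i a)
  obtain ⟨z, hz⟩ := clp_ret M C x
  exact ⟨z, by rw [hz i, hx, C.ri]⟩

theorem clp_conn (M : MS1 Γ S co N) (C : Clp S co N inc r) (x y : CPt co inc r) :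
    Relation.ReflTransGen (fun a b => ∃ i, VSt (clS S r) (clco co inc r) i a b) x y := by
  have h : Relation.ReflTransGen (fun a b => ∃ i ∈ (Set.univ : Set ι), VSt S co i a b)
      x.1 y.1 := by
    refine Relation.ReflTransGen.mono ?_ _ _ (M.conn x.1 y.1)
    rintro a b ⟨i, hi⟩
    exact ⟨i, Set.mem_univ i, hi⟩
  have h2 := clp_path M C h (x₁ := x) (y₁ := y) (fun i => rfl) (fun i => rfl)
  refine Relation.ReflTransGen.mono ?_ _ _ h2
  rintro a b ⟨i, _, hi⟩
  exact ⟨i, hi⟩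

theorem clp_med (M : MS1 Γ S co N) (C : Clp S co N inc r) (x y z : CPt co inc r) :
    ∃ m, Med (clS S r) (clco co inc r) x y z m := by
  obtain ⟨m, hm⟩ := M.med x.1 y.1 z.1
  obtain ⟨w, hw⟩ := clp_ret M C m
  refine ⟨w, fun i => ?_⟩
  obtain ⟨h1, h2, h3⟩ := hm i
  rw [hw i]
  exact ⟨rc_bt (M.tree i) (C.ri i) (C.ad i) h1, rc_bt (M.tree i) (C.ri i) (C.ad i) h2,
    rc_bt (M.tree i) (C.ri i) (C.ad i) h3⟩

end

end VTB
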