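import Pool.Agent.Lib.MP_32d917_al_vt.D02

/-!
# D04: the collapsed structure: squares

`x y`, `x z` steps of the collapsed structure in directions `i ≠ j`. By `clp_dir` `Ag co {i} x.1 y.1`, `Ag co {j} x.1 z.1`, the coordinates differ.
(<-) `Γ.Adj i j`: `prod` (A04) for `v := i`, the points `x.1`, `z.1` (`Ag (lk Γ i)`), `y.1` (`Ag {i}`): `w` with `Ag co {i} z.1 w`, `co w i = co y.1 i`. Its coordinates are those of `y` or of `z`, so it is a collapsed point; the two steps:
adjacency in `clS` of `clco x j = clco y j` and `clco z j = clco w j` etc.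
(->) `w` with `VSt j y w`, `VSt i z w`. `geod_step` (A01): a first step `x.1 x'` towards `y.1`, its label is `i` (the other coordinates of `x.1`, `y.1` are equal: `Bt a b a` gives `b = a`), and a first step
`x.1 x''` towards `z.1`, label `j`. The median `m` of `x'`, `x''`, `w.1` (`M.med`): `i`-coordinate: the median of `x'_i`, `x_i`, `y_i` is `x'_i` (`tree_med_uniq`); `j`-coordinate: `x''_j`; other coordinates as `x`. So
`VSt S co j x' m`, `VSt S co i x'' m` and `M.sq` gives `Γ.Adj i j`.
-/

set_option autoImplicit false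

namespace VTB

open LatIso LatN LatF RaagIso

section

variable {ι Pt : Type} [Fintype ι] {V V₁ : ι → Type} {Γ : SimpleGraph ι}
  {S : ∀ i, SimpleGraph (V i)} {co : Pt → ∀ i, V i} {N : Pt → ι → Prop}
  {inc : ∀ i, V₁ i → V i} {r : ∀ i, V i → V₁ i}

private theorem D04_btl {W : Type} {T : SimpleGraph W} (a b : W) : Bt T a a b := by
  unfold Bt
  rw [SimpleGraph.dist_self, zero_add]

private theorem D04_btr {W : Type} {T : SimpleGraph W} (a b : W) : Bt T a b b := by
  unfold Bt
  rw [SimpleGraph.dist_self, add_zero]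

private theorem D04_eq {W : Type} {T : SimpleGraph W} (hT : T.IsTree) {a m : W}
    (h : Bt T a m a) : m = a :=
  tree_med_uniq hT h h h (D04_btl a a) (D04_btl a a) (D04_btl a a)

/-- the first step towards a point which differs only in one coordinate -/
private theorem D04_first (M : MS1 Γ S co N) {i : ι} {x y : Pt} (h : Ag co {i} x y)
    (hne : co x i ≠ co y i) :
    ∃ z, VSt S co i x z ∧ Bt (S i) (co x i) (co z i) (co y i) := by
  have hxy : x ≠ y := fun h => hne (by rw [h])
  obtain ⟨k, z, h1, h2⟩ := geod_step M hxy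
  by_cases hk : k = i
  · subst hk
    exact ⟨z, h1, h2⟩
  · exfalso
    rw [h k (by simpa using hk)] at h2
    have h3 := D04_eq (M.tree k) h2
    have h4 := h1.1
    rw [h3] at h4
    exact (S k).loopless.irrefl _ h4

theorem clp_sq (M : MS1 Γ S co N) (C : Clp S co N inc r) (x y z : CPt co inc r) (i j : ι)
    (hij : i ≠ j) (h1 : VSt (clS S r) (clco co inc r) i x y)
    (h2 : VSt (clS S r) (clco co inc r) j x z) :
    (∃ w, VSt (clS S r) (clco co inc r) j y w ∧ VSt (clS S r) (clco co inc r) i z w) ↔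
      Γ.Adj i j := by
  obtain ⟨d1, n1⟩ := clp_dir h1
  obtain ⟨d2, n2⟩ := clp_dir h2
  constructor
  · rintro ⟨w, g1, g2⟩
    have wi : co w.1 i = co y.1 i := cpt_eq (g1.2 i hij)
    have wj : co w.1 j = co z.1 j := cpt_eq (g2.2 j hij.symm)
    have wk : ∀ k, k ≠ i → k ≠ j → co w.1 k = co x.1 k := by
      intro k hki hkj
      have e1 : co w.1 k = co y.1 k := cpt_eq (g1.2 k hkj)
      have e2 : co y.1 k = co x.1 k := cpt_eq (h1.2 k hki)
      rw [e1, e2]
    obtain ⟨x', s1, b1⟩ := D04_first M d1 n1
    obtain ⟨x'', s2, b2⟩ := D04_first M d2 n2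
    obtain ⟨m, hm⟩ := M.med x' x'' w.1
    have mi : co m i = co x' i := by
      obtain ⟨m1, m2, m3⟩ := hm i
      rw [s2.2 i hij] at m1 m2
      rw [wi] at m2 m3
      exact tree_med_uniq (M.tree i) m1 m2 m3 (D04_btl _ _) b1 (D04_btl _ _)
    have mj : co m j = co x'' j := by
      obtain ⟨m1, m2, m3⟩ := hm j
      rw [s1.2 j hij.symm] at m1 m3
      rw [wj] at m2 m3
      exact tree_med_uniq (M.tree j) m1 m2 m3 (D04_btr _ _) (D04_btl _ _) b2
    have mk : ∀ k, k ≠ i → k ≠ j → co m k = co x.1 k := by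
      intro k hki hkj
      have m1 := (hm k).1
      rw [s1.2 k hki, s2.2 k hkj] at m1
      exact D04_eq (M.tree k) m1
    refine (M.sq x.1 x' x'' i j hij s1 s2).1 ⟨m, ⟨?_, ?_⟩, ⟨?_, ?_⟩⟩
    · rw [s1.2 j hij.symm, mj]
      exact s2.1
    · intro k hkj
      by_cases hki : k = i
      · subst hki
        exact mi
      · rw [mk k hki hkj, s1.2 k hki]
    · rw [s2.2 i hij, mi]
      exact s1.1
    · intro k hki
      by_cases hkj : k = j
      · subst hkj
        exact mj
      · rw [mk k hki hkj, s2.2 k hkj]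
  · intro ha
    have hlk : Ag co (lk Γ i) x.1 z.1 := by
      refine ag_mono ?_ d2
      rintro k hk
      rw [Set.mem_singleton_iff] at hk
      subst hk
      exact ha
    obtain ⟨w, w1, w2, -⟩ := prod M hlk d1
    have wk : ∀ k, k ≠ i → co w k = co z.1 k := fun k hk => w1 k (by simpa using hk)
    have hw : ∀ k, co w k = inc k (r k (co w k)) := by
      intro k
      by_cases hk : k = i
      · subst hk
        rw [w2]
        exact y.2 k
      · rw [wk k hk]
        exact z.2 k
    have ci : clco co inc r ⟨w, hw⟩ i = clco co inc r y i := by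
      show r i (co w i) = r i (co y.1 i)
      rw [w2]
    have ck : ∀ k, k ≠ i → clco co inc r ⟨w, hw⟩ k = clco co inc r z k := by
      intro k hk
      show r k (co w k) = r k (co z.1 k)
      rw [wk k hk]
    refine ⟨⟨w, hw⟩, ⟨?_, ?_⟩, ⟨?_, ?_⟩⟩
    · rw [h1.2 j hij.symm, ck j hij.symm]
      exact h2.1
    · intro k hkj
      by_cases hki : k = i
      · subst hki
        exact ci
      · rw [ck k hki, h2.2 k hkj, h1.2 k hki]
    · rw [h2.2 i hij, ci]
      exact h1.1
    · exact ck

end

end VTB
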