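import Pool.Agent.Lib.MP_32d917_al_vt.D02

/-!
# D05: the collapsed structure: labels which occur, internal labels

`clp_occ`: (->) `clp_dir` and `geod_step`: `x.1 ≠ y.1` agree outside `{i}`, so there is a step in direction `i` at `x.1`; `occ`. (<-) `Oc Γ N x.1 i`. Suppose that no step of direction `i` of the collapsed structure starts at `x`. Every `y` with
`Ag co {i} x.1 y` has a retraction `z` (`clp_ret`), `Ag clco {i} x z`; by `ag_geod` (A02) and `clp_path` for `J = {i}` there is a path of steps of direction `i` from `x` to `z`, so `z = x` (the first step would start at `x`), so `y = x.1` or `VSt S co i x.1 y`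
(`clp_near`). So `{y | Ag co {i} x.1 y}` is contained in a finite set (`loc`), against `inf`.
`clp_ntr`: `Ag co {i} x.1 y.1` and `n_ag` (A04).
`clp_loc`: a collapsed step `x y` of direction `i`: `rc_edge`: the `S i`-distance of `co x.1 i`, `co y.1 i` is at most 3, and `Ag co {i}`; the geodesic `ag_geod` consists of at most 3 steps of direction `i`; `loc` three times: a finite set. (More simply:
the sets `B 0 = {x.1}`, `B (n+1) = B n ∪ {y | ∃ z ∈ B n, VSt S co i z y}` are finite; all `y` with `Ag co {i} x.1 y` and `dist (co x.1 i) (co y i) ≤ n` are in `B n`.)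
`clp_out`: `M.out` gives `y` with `Ag co {i} x.1 y`, `¬ N y i`; `y` is a collapsed point: the coordinates `j ≠ i` are those of `x.1`; if `co y i ≠ inc i (r i (co y i))` then `N y i` by `stp`.
`clp_inf`: the retraction maps `{y | Ag co {i} x.1 y}` (infinite, `inf`) to `{z | Ag clco {i} x z}` with finite fibres (over `z`: `z.1` and neighbours of `z.1`, `clp_near`).
-/

set_option autoImplicit false

namespace VTB

open LatIso LatN LatF RaagIso

section

variable {ι Pt : Type} [Fintype ι] {V V₁ : ι → Type} {Γ : SimpleGraph ι}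
  {S : ∀ i, SimpleGraph (V i)} {co : Pt → ∀ i, V i} {N : Pt → ι → Prop}
  {inc : ∀ i, V₁ i → V i} {r : ∀ i, V i → V₁ i}

/-- the label of a first step between points which agree outside `{i}` -/
private theorem d05_step (M : MS1 Γ S co N) {i : ι} {x y : Pt} (h : Ag co {i} x y) (hne : x ≠ y) :
    ∃ z, VSt S co i x z ∧ Bt (S i) (co x i) (co z i) (co y i) := by
  obtain ⟨k, z, hz, hb⟩ := geod_step M hne
  have hk : k = i := by
    by_contra hk
    have e : co y k = co x k := h k hk
    rw [e] at hb
    have e1 := st1_one hz.1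
    unfold Bt at hb
    have e2 : (S k).dist (co x k) (co x k) = 0 := SimpleGraph.dist_self
    omega
  subst hk
  exact ⟨z, hz, hb⟩

private theorem d05_fin (M : MS Γ S co N) (i : ι) (n : ℕ) : ∀ x : Pt,
    {y | Ag co {i} x y ∧ (S i).dist (co x i) (co y i) ≤ n}.Finite := by
  induction n with
  | zero =>
    intro x
    refine (Set.finite_singleton x).subset ?_
    rintro y ⟨h1, h2⟩
    refine M.b.inj y x fun k => ?_
    by_cases hk : k = i
    · subst hk
      exact (st1_eq (M.b.tree k) (Nat.le_zero.1 h2)).symm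
    · exact h1 k hk
  | succ n ih =>
    intro x
    refine ((Set.finite_singleton x).union ((M.loc x i).biUnion fun z _ => ih z)).subset ?_
    rintro y ⟨h1, h2⟩
    by_cases hxy : x = y
    · exact Or.inl hxy.symm
    · right
      obtain ⟨z, hz, hb⟩ := d05_step M.b h1 hxy
      refine Set.mem_biUnion (show z ∈ {y | VSt S co i x y} from hz) ⟨fun j hj => ?_, ?_⟩
      · rw [h1 j hj, hz.2 j hj]
      · have e1 := st1_one hz.1
        unfold Bt at hb
        omega

private theorem d05_eq {i : ι} {x z : CPt co inc r} {y : Pt} (h1 : Ag co {i} x.1 y)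
    (h2 : ∀ k, clco co inc r z k = r k (co y k)) : Ag co {i} z.1 y := by
  intro k hk
  have e1 := x.2 k
  have e2 := z.2 k
  have e3 : r k (co z.1 k) = r k (co y k) := h2 k
  rw [e2, e3, h1 k hk]
  exact e1

theorem clp_occ (M : MS Γ S co N) (C : Clp S co N inc r) (x : CPt co inc r) (i : ι) :
    (∃ y, VSt (clS S r) (clco co inc r) i x y) ↔ Oc Γ (clN N co inc r) x i := by
  constructor
  · rintro ⟨y, hy⟩
    obtain ⟨h1, h2⟩ := clp_dir hy
    obtain ⟨z, hz, _⟩ := d05_step M.b h1 fun h => h2 (by rw [h])
    exact (M.b.occ x.1 i).1 ⟨z, hz⟩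
  · intro h
    by_contra hc
    refine M.inf x.1 i h (((Set.finite_singleton x.1).union (M.loc x.1 i)).subset ?_)
    intro y hy
    have hy' : Ag co {i} x.1 y := hy
    obtain ⟨z, hz⟩ := clp_ret M.b C y
    have hg : Relation.ReflTransGen (fun a b => ∃ k ∈ ({i} : Set ι), VSt S co k a b) x.1 y :=
      Relation.ReflTransGen.mono (fun a b hab => by
        obtain ⟨_, _, k, hk, hk2, _⟩ := hab
        exact ⟨k, hk, hk2⟩) _ _ (ag_geod M.b hy')
    have h1 := clp_path (r := r) (inc := inc) M.b C (J := {i}) hg (x₁ := x) (y₁ := z)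
      (fun _ => rfl) hz
    rcases Relation.ReflTransGen.cases_head h1 with h2 | ⟨c, ⟨k, hk, hk2⟩, _⟩
    · rcases clp_near M.b C hy' (by rw [← hz i, ← h2]) with h3 | h3
      · exact Or.inl h3
      · exact Or.inr h3
    · exfalso
      obtain rfl : k = i := hk
      exact hc ⟨c, hk2⟩

theorem clp_ntr (M : MS1 Γ S co N) (C : Clp S co N inc r) (x y : CPt co inc r) (i k : ι)
    (h : VSt (clS S r) (clco co inc r) i x y) (hk : k ≠ i) :
    clN N co inc r y k ↔ clN N co inc r x k :=
  n_ag M (clp_dir h).1 (k := k) hk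

theorem clp_loc (M : MS Γ S co N) (C : Clp S co N inc r) (x : CPt co inc r) (i : ι) :
    {y | VSt (clS S r) (clco co inc r) i x y}.Finite := by
  refine Set.Finite.of_finite_image (f := Subtype.val) ((d05_fin M i 3 x.1).subset ?_)
    (Subtype.val_injective.injOn)
  rintro _ ⟨y, hy, rfl⟩
  refine ⟨(clp_dir hy).1, ?_⟩
  obtain ⟨_, u, w, huw, hu, hw⟩ := hy.1
  have hT := M.b.tree i
  have ex : co x.1 i = inc i (r i u) := by
    rw [hu]
    exact x.2 i
  have ey : co y.1 i = inc i (r i w) := by
    rw [hw]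
    exact y.2 i
  have h1 : (S i).dist (co x.1 i) u ≤ 1 := by
    rcases C.ad i u with h | h
    · rw [ex, ← h, SimpleGraph.dist_self]
      exact Nat.zero_le 1
    · rw [ex, SimpleGraph.dist_comm, st1_one h]
  have h2 : (S i).dist w (co y.1 i) ≤ 1 := by
    rcases C.ad i w with h | h
    · rw [ey, ← h, SimpleGraph.dist_self]
      exact Nat.zero_le 1
    · rw [ey, st1_one h]
  have h3 := st1_one huw
  have t1 := st1_tri hT (co x.1 i) u (co y.1 i)
  have t2 := st1_tri hT u w (co y.1 i)
  omega

theorem clp_out (M : MS Γ S co N) (C : Clp S co N inc r) (x : CPt co inc r) (i : ι)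
    (hc : ¬ CL Γ i) (h : clN N co inc r x i) : ∃ y, Ag (clco co inc r) {i} x y ∧ ¬ clN N co inc r y i := by
  obtain ⟨y, h1, h2⟩ := M.out x.1 i hc h
  have hy : ∀ k, co y k = inc k (r k (co y k)) := by
    intro k
    by_cases hk : k = i
    · subst hk
      by_contra hc
      exact h2 (C.stp y k hc).1
    · rw [h1 k hk]
      exact x.2 k
  exact ⟨⟨y, hy⟩, cpt_ag' h1, h2⟩

theorem clp_inf (M : MS Γ S co N) (C : Clp S co N inc r) (x : CPt co inc r) (i : ι)
    (h : Oc Γ (clN N co inc r) x i) : {y | Ag (clco co inc r) {i} x y}.Infinite := by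
  intro hf
  refine M.inf x.1 i h ((hf.biUnion fun z _ =>
    (Set.finite_singleton z.1).union (M.loc z.1 i)).subset ?_)
  intro y hy
  have hy' : Ag co {i} x.1 y := hy
  obtain ⟨z, hz⟩ := clp_ret M.b C y
  have h1 : Ag (clco co inc r) {i} x z := by
    intro k hk
    rw [hz k, hy' k hk]
    rfl
  refine Set.mem_biUnion (show z ∈ {y | Ag (clco co inc r) {i} x y} from h1) ?_
  exact clp_near M.b C (d05_eq hy' hz) (hz i).symm

end

end VTB
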