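import Pool.Agent.Lib.MP_32d917_al_vt.D03
import Pool.Agent.Lib.MP_32d917_al_vt.D04
import Pool.Agent.Lib.MP_32d917_al_vt.D05

/-!
# D06: the collapsed structure
-/

set_option autoImplicit false

namespace VTB

open LatIso LatN LatF RaagIso

section

variable {ι Pt : Type} [Fintype ι] {V V₁ : ι → Type} {Γ : SimpleGraph ι}
  {S : ∀ i, SimpleGraph (V i)} {co : Pt → ∀ i, V i} {N : Pt → ι → Prop}
  {inc : ∀ i, V₁ i → V i} {r : ∀ i, V i → V₁ i}

/-- the collapse of a structure is a structure -/
theorem clp_ms (M : MS Γ S co N) (C : Clp S co N inc r) :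
    MS Γ (clS S r) (clco co inc r) (clN N co inc r) where
  b :=
    { tree := clp_tree M.b C
      ne := clp_ne M.b C
      inj := clp_inj M.b
      onto := clp_onto M.b C
      conn := clp_conn M.b C
      med := clp_med M.b C
      sq := clp_sq M.b C
      occ := clp_occ M C
      nocc := fun x i h => M.b.nocc x.1 i h
      ntr := clp_ntr M.b C }
  loc := clp_loc M C
  cen := fun x i hc => M.cen x.1 i hc
  out := clp_out M C
  inf := clp_inf M C

end

end VTB
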