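import Pool.Agent.Lib.MP_32d917_al_vt.D06

/-!
# D07: collapses of actions

`vlat_finV`: every vertex is a coordinate (`ms.b.onto`); `fin`, `gco`; `ι` is finite.
`vcol_lat`: `j : V₁ → V` equivariant and injective (`ri`), `r : V → V₁` an equivariant retraction, every vertex is `j (r y)` or adjacent to it; `stp`: the vertices which are moved are internal and the edge occurs. Apply D06 to the family `Fib κ i` with `inc i := fredI j κ i`,
`r i := fredR hκ i` (F/FRED.lean: `fred_ri`, `fred_ad`, `fred_comp`: `comp (κ ∘ j) (rcG S r) i = rcG (comp κ S i) (fredR hκ i)`; the forest is `⟨L.ms.b.tree, L.pre.kapS⟩`). `G` acts on `Pt₁ := CPt co inc r` by restriction (use `gco`, the equivariance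
of `j` and `r`; every label is `g • i`). `kapS`, `act`, `gam`, `gco`, `gn`: from those of `L`. `noinv` as in `fred_step` (`fred_dart`: if `u w` and `g u g w` are edges with `r (g u) = r w`, `r (g w) = r u` then `g u = w`, `g w = u`). `prop`: restriction.
`fin`: for every `y ∈ F` whose orbit contains a collapsed point take `y` itself if it is one: the collapsed points are invariant under `G`, so `g • x ∈ F` is a collapsed point if `x` is; `F₁` := the collapsed points in `F`.
-/

set_option autoImplicit false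

namespace VTB

open LatIso LatN LatF RaagIso

section

variable {G : Type} [Group G] {ι Pt V : Type} [Fintype ι] [MulAction G Pt] [MulAction G V]
  [MulAction G ι] {Γ : SimpleGraph ι} {κ : V → ι} {S : SimpleGraph V} {co : Pt → ∀ i, Fib κ i}
  {N : Pt → ι → Prop}

theorem vlat_finV (L : VLat G Γ κ S co N) : ∃ F : Finset V, ∀ v, ∃ g : G, g • v ∈ F := by
  classical
  obtain ⟨F, hF⟩ := L.fin
  refine ⟨F.biUnion (fun y => Finset.univ.image (fun i : ι => (co y i).1)), fun v => ?_⟩
  obtain ⟨x, hx⟩ := L.ms.b.onto (κ v) ⟨v, rfl⟩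
  obtain ⟨g, hg⟩ := hF x
  refine ⟨g, ?_⟩
  rw [Finset.mem_biUnion]
  refine ⟨g • x, hg, ?_⟩
  rw [Finset.mem_image]
  refine ⟨g • κ v, Finset.mem_univ _, ?_⟩
  rw [L.pre.gco, hx]

/-- the collapse of an action -/
theorem vcol_lat (L : VLat G Γ κ S co N) {V₁ : Type} [MulAction G V₁] {j : V₁ → V} {r : V → V₁}
    (gj : ∀ (g : G) a, j (g • a) = g • j a) (gr : ∀ (g : G) y, r (g • y) = g • r y)
    (ri : ∀ a, r (j a) = a) (ad : ∀ y, y = j (r y) ∨ S.Adj y (j (r y)))
    (hκ : ∀ y, κ (j (r y)) = κ y)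
    (stp : ∀ x i, (co x i).1 ≠ j (r (co x i).1) →
      N x i ∧ ∃ y, VSt (comp κ S) co i x y ∧ (co y i).1 = j (r (co x i).1)) :
    ∃ (Pt₁ : Type) (_ : MulAction G Pt₁) (co₁ : Pt₁ → ∀ i, Fib (fun a => κ (j a)) i)
      (N₁ : Pt₁ → ι → Prop), VLat G Γ (fun a => κ (j a)) (rcG S r) co₁ N₁ := by
  have hF : Forest κ S := ⟨L.ms.b.tree, L.pre.kapS⟩
  have C : Clp (comp κ S) co N (fun i => fredI j κ i) (fun i => fredR hκ i) := by
    refine ⟨fun i a => fred_ri hκ ri i a, fun i v => fred_ad hκ ad i v, fun x i h => ?_⟩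
    obtain ⟨h1, y, h2, h3⟩ := stp x i fun hh => h (Subtype.ext hh)
    exact ⟨h1, y, h2, Subtype.ext h3⟩
  have hM := clp_ms L.ms C
  have hS : clS (comp κ S) (fun i => fredR hκ i) = comp (fun a => κ (j a)) (rcG S r) :=
    funext fun i => (fred_comp hF hκ i).symm
  rw [hS] at hM
  have key : ∀ (g : G) (x : Pt), (∀ i, co x i = fredI j κ i (fredR hκ i (co x i))) →
      ∀ i, co (g • x) i = fredI j κ i (fredR hκ i (co (g • x) i)) := by
    intro g x hx i
    apply Subtype.ext
    show (co (g • x) i).1 = j (r (co (g • x) i).1)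
    obtain ⟨i', rfl⟩ : ∃ i', i = g • i' := ⟨g⁻¹ • i, (smul_inv_smul g i).symm⟩
    rw [L.pre.gco, gr, gj]
    exact congrArg (fun v => g • v) (congrArg Subtype.val (hx i'))
  letI act : MulAction G (CPt co (fun i => fredI j κ i) (fun i => fredR hκ i)) :=
    { smul := fun g x => ⟨g • x.1, key g x.1 x.2⟩
      one_smul := fun x => Subtype.ext (one_smul G x.1)
      mul_smul := fun g k x => Subtype.ext (mul_smul g k x.1) }
  have hsm : ∀ (g : G) (x : CPt co (fun i => fredI j κ i) (fun i => fredR hκ i)),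
      (g • x).1 = g • x.1 := fun g x => rfl
  refine ⟨CPt co (fun i => fredI j κ i) (fun i => fredR hκ i), act,
    clco co (fun i => fredI j κ i) (fun i => fredR hκ i),
    clN N co (fun i => fredI j κ i) (fun i => fredR hκ i), ?_⟩
  refine ⟨⟨hM.b, (fred_forest hF hκ ri ad).kap, ⟨?_, ?_⟩, L.pre.gam, ?_, ?_⟩, hM, L.gg, ?_, ?_, ?_⟩
  · intro g a
    show κ (j (g • a)) = g • κ (j a)
    rw [gj, L.pre.act.kap]
  · rintro g a b ⟨hab, u, w, h', rfl, rfl⟩
    refine ⟨?_, g • u, g • w, L.pre.act.adj g u w h', gr g u, gr g w⟩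
    intro hh
    exact hab (MulAction.injective g hh)
  · intro g x i
    show r (co (g • x.1) (g • i)).1 = g • r (co x.1 i).1
    rw [L.pre.gco, gr]
  · intro g x i
    exact L.pre.gn g x.1 i
  · rintro g a b ⟨hab, u, w, h', rfl, rfl⟩ h3 h4
    have e := fred_dart hF hκ ri ad h'.symm (L.pre.act.adj g u w h')
      hab.symm (by rw [gr, h3]) (by rw [gr, h4])
    exact L.noinv g u w h' e.1 e.2
  · intro x
    refine (L.prop x.1).subset ?_
    intro g hg
    exact congrArg Subtype.val hg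
  · obtain ⟨F, hF'⟩ := L.fin
    refine ⟨(F.finite_toSet.preimage (Subtype.val_injective
      (p := fun x => ∀ i, co x i = fredI j κ i (fredR hκ i (co x i)))).injOn).toFinset,
      fun x => ?_⟩
    obtain ⟨g, hg⟩ := hF' x.1
    refine ⟨g, ?_⟩
    rw [Set.Finite.mem_toFinset]
    exact hg

/-- the trees of the central labels stay leafless -/
theorem vcol_leaf (L : VLat G Γ κ S co N) {V₁ : Type} {j : V₁ → V} {r : V → V₁}
    (ri : ∀ a, r (j a) = a) (ad : ∀ y, y = j (r y) ∨ S.Adj y (j (r y)))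
    (hκ : ∀ y, κ (j (r y)) = κ y) (hC : CLeaf Γ (comp κ S)) :
    CLeaf Γ (comp (fun a => κ (j a)) (rcG S r)) := by
  have hF : Forest κ S := ⟨L.ms.b.tree, L.pre.kapS⟩
  intro i hi
  rw [fred_comp hF hκ i]
  exact ⟨red_two (i := fredI j κ i) (hF.tree i) (fred_ri hκ ri i) (fred_ad hκ ad i) (hC i hi).two,
    red_three (i := fredI j κ i) (hF.tree i) (fred_ri hκ ri i) (fred_ad hκ ad i) (hC i hi).two
      (hC i hi).three⟩

end

end VTB
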