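import Pool.Agent.Lib.MP_32d917_al_vt.D07

/-!
# D08: reduced structures exist

`vcol_step`: let `x i y` be as in the negation of `VRed`: `N x i`, `VSt i x y`, `StabLe G p q`, `p = (co x i).1`, `q = (co y i).1`, `q` not in the orbit of `p`. As in `fred_step` (F/FRED.lean): `V₁` := the vertices outside the orbit of `p`, `r (g • p) = g • q`, `r v = v`
otherwise. `stp`: if `(co x' i').1` is in the orbit of `p`, `= g • p`, then `i' = g • i`, the step `g • x, g • y` has direction `i'` (`gco`, `act`), `N (g • x) i'` (`gn`), `co (g • x) i' = co x' i'`, so `Ag (lk Γ i') (g • x) x'` (`int_all`, A04),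
`N x' i'` (`n_ag`), and `push` (A03) gives the step at `x'` with coordinate `g • q`. The number of orbits decreases: `nred_lt` (N/NRED.lean) with `vlat_finV`.
`vred_exists`: induction on `nredN G V` (as `fred_one`).
-/

set_option autoImplicit false

namespace VTB

open LatIso LatN LatF RaagIso

section

variable {G : Type} [Group G] {ι : Type} [Fintype ι] [MulAction G ι] {Γ : SimpleGraph ι}

/-- equality of coordinates over equal labels -/
private theorem D08_cast {Pt V : Type} {κ : V → ι} {co : Pt → ∀ i, Fib κ i} {a b : Pt} {i j : ι}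
    (h : i = j) (he : co a i = co b i) : co a j = co b j := by
  subst h
  exact he

/-- translates of steps -/
private theorem D08_step {Pt V : Type} [MulAction G Pt] [MulAction G V] {κ : V → ι}
    {S : SimpleGraph V} {co : Pt → ∀ i, Fib κ i} {N : Pt → ι → Prop} (L : VPre G Γ κ S co N)
    {i : ι} {x y : Pt} (h : VSt (comp κ S) co i x y) (g : G) :
    VSt (comp κ S) co (g • i) (g • x) (g • y) := by
  obtain ⟨h1, h2⟩ := h
  refine ⟨?_, ?_⟩
  · show S.Adj (co (g • x) (g • i)).1 (co (g • y) (g • i)).1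
    rw [L.gco, L.gco]
    exact L.act.adj g _ _ h1
  · intro j hj
    have h3 : g⁻¹ • j ≠ i := by
      intro h4
      apply hj
      rw [← h4, smul_inv_smul]
    have h4 := h2 _ h3
    have h5 : co (g • y) (g • g⁻¹ • j) = co (g • x) (g • g⁻¹ • j) := by
      apply Subtype.ext
      rw [L.gco, L.gco, h4]
    exact D08_cast (smul_inv_smul g j) h5

theorem vcol_step {Pt V : Type} [MulAction G Pt] [MulAction G V] {κ : V → ι} {S : SimpleGraph V}
    {co : Pt → ∀ i, Fib κ i} {N : Pt → ι → Prop} (L : VLat G Γ κ S co N)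
    (hC : CLeaf Γ (comp κ S)) (hS : ¬ VRed G κ S co N) :
    ∃ (Pt₁ V₁ : Type) (_ : MulAction G Pt₁) (_ : MulAction G V₁) (κ₁ : V₁ → ι)
      (S₁ : SimpleGraph V₁) (co₁ : Pt₁ → ∀ i, Fib κ₁ i) (N₁ : Pt₁ → ι → Prop),
      VLat G Γ κ₁ S₁ co₁ N₁ ∧ CLeaf Γ (comp κ₁ S₁) ∧ nredN G V₁ < nredN G V := by
  unfold VRed at hS
  push Not at hS
  obtain ⟨x₀, i₀, y₀, hN, hst, h1, h2⟩ := hS
  obtain ⟨v, hv⟩ : ∃ v, v = (co x₀ i₀).1 := ⟨_, rfl⟩
  obtain ⟨x, hx'⟩ : ∃ x, x = (co y₀ i₀).1 := ⟨_, rfl⟩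
  rw [← hv, ← hx'] at h1 h2
  have hvx : S.Adj v x := by
    rw [hv, hx']
    exact hst.1
  have hκv : κ v = i₀ := by
    rw [hv]
    exact (co x₀ i₀).2
  -- the complement of the orbit of `v`
  let V₁ : Type := {y : V // ∀ g : G, g • v ≠ y}
  letI act : MulAction G V₁ :=
    { smul := fun g y => ⟨g • y.1, fun k hk => y.2 (g⁻¹ * k) (by rw [mul_smul, hk, inv_smul_smul])⟩
      one_smul := fun y => Subtype.ext (one_smul G y.1)
      mul_smul := fun g k y => Subtype.ext (mul_smul g k y.1) }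
  have hsm : ∀ (g : G) (y : V₁), (g • y).1 = g • y.1 := fun g y => rfl
  have hx : ∀ g : G, g • v ≠ x := h2
  have hgx : ∀ k g : G, g • v ≠ k • x := by
    intro k g hh
    apply hx (k⁻¹ * g)
    rw [mul_smul, hh, inv_smul_smul]
  classical
  let r : V → V₁ := fun y => if h : ∃ g : G, g • v = y then ⟨h.choose • x, hgx _⟩ else
    ⟨y, fun g hg => h ⟨g, hg⟩⟩
  have r1 : ∀ g : G, (r (g • v)).1 = g • x := by
    intro g
    have hex : ∃ k : G, k • v = g • v := ⟨g, rfl⟩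
    have e1 : (r (g • v)).1 = hex.choose • x := by
      show (if h : ∃ k : G, k • v = g • v then (⟨h.choose • x, hgx _⟩ : V₁) else
        ⟨g • v, fun k hk => h ⟨k, hk⟩⟩).1 = _
      rw [dif_pos hex]
    have e2 := hex.choose_spec
    rw [e1]
    have e3 : (g⁻¹ * hex.choose) • v = v := by
      rw [mul_smul, e2, inv_smul_smul]
    have e4 := h1 _ e3
    rw [mul_smul, inv_smul_eq_iff] at e4
    exact e4
  have r2 : ∀ y : V, (∀ g : G, g • v ≠ y) → (r y).1 = y := by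
    intro y hy
    have hex : ¬ ∃ g : G, g • v = y := fun ⟨g, hg⟩ => hy g hg
    show (if h : ∃ k : G, k • v = y then (⟨h.choose • x, hgx _⟩ : V₁) else
        ⟨y, fun k hk => h ⟨k, hk⟩⟩).1 = _
    rw [dif_neg hex]
  have gr : ∀ (g : G) y, r (g • y) = g • r y := by
    intro g y
    apply Subtype.ext
    rw [hsm]
    by_cases hy : ∃ k : G, k • v = y
    · obtain ⟨k, rfl⟩ := hy
      rw [← mul_smul, r1, r1, mul_smul]
    · have hy1 : ∀ k : G, k • v ≠ y := fun k hk => hy ⟨k, hk⟩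
      have hy2 : ∀ k : G, k • v ≠ g • y := fun k hk => hy1 (g⁻¹ * k) (by
        rw [mul_smul, hk, inv_smul_smul])
      rw [r2 _ hy1, r2 _ hy2]
  have ad : ∀ y, y = (r y).1 ∨ S.Adj y (r y).1 := by
    intro y
    by_cases hy : ∃ k : G, k • v = y
    · obtain ⟨k, rfl⟩ := hy
      right
      rw [r1]
      exact L.pre.act.adj k v x hvx
    · left
      exact (r2 y fun k hk => hy ⟨k, hk⟩).symm
  have ri : ∀ a : V₁, r a.1 = a := fun a => Subtype.ext (r2 a.1 a.2)
  have hκ : ∀ y, κ (r y).1 = κ y := by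
    intro y
    rcases ad y with h | h
    · exact (congrArg κ h).symm
    · exact (L.pre.kapS _ _ h).symm
  have stp : ∀ x' i, (co x' i).1 ≠ (r (co x' i).1).1 →
      N x' i ∧ ∃ y, VSt (comp κ S) co i x' y ∧ (co y i).1 = (r (co x' i).1).1 := by
    intro x' i hne
    obtain ⟨g, hg⟩ : ∃ g : G, g • v = (co x' i).1 := by
      by_contra hcon
      exact hne (r2 _ fun g hg => hcon ⟨g, hg⟩).symm
    have hi : g • i₀ = i := by
      have h3 : κ (g • v) = i := by
        rw [hg]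
        exact (co x' i).2
      rw [L.pre.act.kap, hκv] at h3
      exact h3
    subst hi
    have h4 : N (g • x₀) (g • i₀) := (L.pre.gn g x₀ i₀).2 hN
    have h5 : co x' (g • i₀) = co (g • x₀) (g • i₀) := by
      apply Subtype.ext
      rw [L.pre.gco, ← hv, hg]
    have h6 := int_all L.ms.b h4 h5
    have h7 : N x' (g • i₀) := (n_ag L.ms.b h6 (fun hh => Γ.loopless.irrefl _ hh)).2 h4
    obtain ⟨y', hy1, hy2, -⟩ := push L.ms.b (D08_step L.pre hst g) h6
    refine ⟨h7, y', hy1, ?_⟩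
    rw [hy2, L.pre.gco, ← hx', ← hg, r1]
  obtain ⟨Pt₁, act₁, co₁, N₁, L₁⟩ := vcol_lat L (j := fun a : V₁ => a.1) (r := r) hsm gr ri ad hκ stp
  refine ⟨Pt₁, V₁, act₁, act, _, _, co₁, N₁, L₁, vcol_leaf L ri ad hκ hC, ?_⟩
  refine nred_lt (i := fun a : V₁ => a.1) (vlat_finV L) hsm Subtype.val_injective v ?_
  intro a h3
  exact a.2 1 (by rw [one_smul]; exact h3.symm)

/-- reduced structures exist -/
theorem vred_exists {Pt V : Type} [MulAction G Pt] [MulAction G V] {κ : V → ι}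
    {S : SimpleGraph V} {co : Pt → ∀ i, Fib κ i} {N : Pt → ι → Prop}
    (L : VLat G Γ κ S co N) (hC : CLeaf Γ (comp κ S)) :
    ∃ (Pt₁ V₁ : Type) (_ : MulAction G Pt₁) (_ : MulAction G V₁) (κ₁ : V₁ → ι)
      (S₁ : SimpleGraph V₁) (co₁ : Pt₁ → ∀ i, Fib κ₁ i) (N₁ : Pt₁ → ι → Prop),
      VLat G Γ κ₁ S₁ co₁ N₁ ∧ VRed G κ₁ S₁ co₁ N₁ ∧ CLeaf Γ (comp κ₁ S₁) := by
  have key : ∀ n : ℕ, ∀ (Pt V : Type) [MulAction G Pt] [MulAction G V] (κ : V → ι)
      (S : SimpleGraph V) (co : Pt → ∀ i, Fib κ i) (N : Pt → ι → Prop), VLat G Γ κ S co N →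
      CLeaf Γ (comp κ S) → nredN G V = n →
      ∃ (Pt₁ V₁ : Type) (_ : MulAction G Pt₁) (_ : MulAction G V₁) (κ₁ : V₁ → ι)
      (S₁ : SimpleGraph V₁) (co₁ : Pt₁ → ∀ i, Fib κ₁ i) (N₁ : Pt₁ → ι → Prop),
      VLat G Γ κ₁ S₁ co₁ N₁ ∧ VRed G κ₁ S₁ co₁ N₁ ∧ CLeaf Γ (comp κ₁ S₁) := by
    intro n
    induction n using Nat.strong_induction_on with
    | _ n ih =>
      intro Pt V _ _ κ S co N L hC hn
      by_cases hS : VRed G κ S co N
      · exact ⟨Pt, V, inferInstance, inferInstance, κ, S, co, N, L, hS, hC⟩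
      · obtain ⟨Pt₁, V₁, i1, i2, κ₁, S₁, co₁, N₁, L₁, hC₁, hlt⟩ := vcol_step L hC hS
        exact ih (nredN G V₁) (by rw [← hn]; exact hlt) Pt₁ V₁ κ₁ S₁ co₁ N₁ L₁ hC₁ rfl
  exact key _ Pt V κ S co N L hC rfl

end

end VTB
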