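import Pool.Agent.Lib.MP_32d917_al_vt.D00

/-!
# D10: the subdivision of a forest: components, points, action
-/

set_option autoImplicit false

namespace VTB

open LatIso LatN LatF RaagIso

section

variable {V ι : Type} {κ : V → ι} {S : SimpleGraph V}

/-- the component of a vertex of the subdivision -/
noncomputable def sbK (κ : V → ι) (S : SimpleGraph V) (x : SbV S) : ι := κ x.2.choose

theorem sbK_eq (hk : ∀ x y, S.Adj x y → κ x = κ y) {x : SbV S} {a : V} (ha : a ∈ x.1) :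
    sbK κ S x = κ a := by
  obtain ⟨b, h, hb⟩ := x.2.choose_spec
  rw [h, Sym2.mem_iff] at ha
  unfold sbK
  rcases ha with rfl | rfl
  · rfl
  · rcases hb with hb | hb
    · rw [hb]
    · exact hk _ _ hb

theorem sbK_mem (x : SbV S) : ∃ a, a ∈ x.1 := by
  obtain ⟨a, b, h, -⟩ := x.2
  exact ⟨a, by rw [h]; exact Sym2.mem_mk_left a b⟩

theorem sbK_kap (hk : ∀ x y, S.Adj x y → κ x = κ y) (x y : SbV S) (h : (sbG S).Adj x y) :
    sbK κ S x = sbK κ S y := by
  obtain ⟨a, b, -, ⟨e1, e2⟩ | ⟨e1, e2⟩⟩ := h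
  · rw [sbK_eq hk (x := x) (a := a) (by rw [e1]; exact Sym2.mem_mk_left a a),
      sbK_eq hk (x := y) (a := a) (by rw [e2]; exact Sym2.mem_mk_left a b)]
  · rw [sbK_eq hk (x := y) (a := a) (by rw [e1]; exact Sym2.mem_mk_left a a),
      sbK_eq hk (x := x) (a := a) (by rw [e2]; exact Sym2.mem_mk_left a b)]

/-- the inclusion of the subdivision of a component -/
def sbF (hk : ∀ x y, S.Adj x y → κ x = κ y) (i : ι) (x : SbV (comp κ S i)) : Fib (sbK κ S) i :=
  ⟨⟨x.1.map Subtype.val, by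
    obtain ⟨a, b, h, h1⟩ := x.2
    exact ⟨a.1, b.1, by rw [h]; rfl, h1.imp (congrArg Subtype.val) id⟩⟩, by
    obtain ⟨a, ha⟩ := sbK_mem x
    have h1 : a.1 ∈ x.1.map Subtype.val := Sym2.mem_map.2 ⟨a, ha, rfl⟩
    have h2 : sbK κ S ⟨x.1.map Subtype.val, by
      obtain ⟨a, b, h, h1⟩ := x.2
      exact ⟨a.1, b.1, by rw [h]; rfl, h1.imp (congrArg Subtype.val) id⟩⟩ = κ a.1 := sbK_eq hk h1
    rw [h2]
    exact a.2⟩

theorem sbF_val (hk : ∀ x y, S.Adj x y → κ x = κ y) (i : ι) (x : SbV (comp κ S i)) :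
    (sbF hk i x).1.1 = x.1.map Subtype.val := rfl

theorem sbF_inj (hk : ∀ x y, S.Adj x y → κ x = κ y) (i : ι) : Function.Injective (sbF hk i) := by
  intro x y h
  have h1 : x.1.map Subtype.val = y.1.map Subtype.val := congrArg (fun z => z.1.1) h
  exact Subtype.ext (Sym2.map.injective Subtype.val_injective h1)

theorem sbF_sur (hk : ∀ x y, S.Adj x y → κ x = κ y) (i : ι) : Function.Surjective (sbF hk i) := by
  rintro ⟨⟨z, a, b, rfl, hab⟩, hz⟩
  have ha : κ a = i := by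
    rw [← hz]
    exact (sbK_eq hk (Sym2.mem_mk_left a b)).symm
  have hb : κ b = i := by
    rw [← hz]
    exact (sbK_eq hk (Sym2.mem_mk_right a b)).symm
  refine ⟨⟨s(⟨a, ha⟩, ⟨b, hb⟩), ⟨a, ha⟩, ⟨b, hb⟩, rfl, hab.imp (fun h => Subtype.ext h) id⟩, ?_⟩
  exact Subtype.ext (Subtype.ext rfl)

theorem sbF_adj (hk : ∀ x y, S.Adj x y → κ x = κ y) (i : ι) (x y : SbV (comp κ S i)) :
    (comp (sbK κ S) (sbG S) i).Adj (sbF hk i x) (sbF hk i y) ↔ (sbG (comp κ S i)).Adj x y := by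
  constructor
  · rintro ⟨a, b, hab, h⟩
    have ha : κ a = i := by
      rcases h with ⟨e1, -⟩ | ⟨e1, -⟩
      · have e2 : x.1.map Subtype.val = s(a, a) := e1
        have h1 : a ∈ x.1.map Subtype.val := by rw [e2]; exact Sym2.mem_mk_left a a
        obtain ⟨a', -, ha'⟩ := Sym2.mem_map.1 h1
        rw [← ha']
        exact a'.2
      · have e2 : y.1.map Subtype.val = s(a, a) := e1
        have h1 : a ∈ y.1.map Subtype.val := by rw [e2]; exact Sym2.mem_mk_left a a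
        obtain ⟨a', -, ha'⟩ := Sym2.mem_map.1 h1
        rw [← ha']
        exact a'.2
    have hb : κ b = i := by
      rw [← ha]
      exact (hk a b hab).symm
    refine ⟨⟨a, ha⟩, ⟨b, hb⟩, hab, ?_⟩
    rcases h with ⟨e1, e2⟩ | ⟨e1, e2⟩
    · exact Or.inl ⟨Sym2.map.injective Subtype.val_injective e1,
        Sym2.map.injective Subtype.val_injective e2⟩
    · exact Or.inr ⟨Sym2.map.injective Subtype.val_injective e1,
        Sym2.map.injective Subtype.val_injective e2⟩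
  · rintro ⟨a, b, hab, h⟩
    refine ⟨a.1, b.1, hab, ?_⟩
    rcases h with ⟨e1, e2⟩ | ⟨e1, e2⟩
    · left
      refine ⟨?_, ?_⟩
      · show x.1.map Subtype.val = s(a.1, a.1)
        rw [e1]
        rfl
      · show y.1.map Subtype.val = s(a.1, b.1)
        rw [e2]
        rfl
    · right
      refine ⟨?_, ?_⟩
      · show y.1.map Subtype.val = s(a.1, a.1)
        rw [e1]
        rfl
      · show x.1.map Subtype.val = s(a.1, b.1)
        rw [e2]
        rfl

/-- the bijection between the subdivision of a component and the component of the subdivision -/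
noncomputable def sbE (hk : ∀ x y, S.Adj x y → κ x = κ y) (i : ι) :
    SbV (comp κ S i) ≃ Fib (sbK κ S) i :=
  Equiv.ofBijective (sbF hk i) ⟨sbF_inj hk i, sbF_sur hk i⟩

end

section

variable {V ι Pt : Type} {κ : V → ι} {S : SimpleGraph V} {co : Pt → ∀ i, Fib κ i}

/-- the points of the subdivision, as functions with values in the subdivision -/
abbrev FPt (κ : V → ι) (S : SimpleGraph V) (co : Pt → ∀ i, Fib κ i) : Type :=
  {f : ι → SbV S // (∀ i, sbK κ S (f i) = i) ∧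
    ∀ a : ι → V, (∀ i, a i ∈ (f i).1) → ∃ x, ∀ i, (co x i).1 = a i}

/-- the coordinates -/
def fco (κ : V → ι) (S : SimpleGraph V) (co : Pt → ∀ i, Fib κ i) (f : FPt κ S co) (i : ι) :
    Fib (sbK κ S) i := ⟨f.1 i, f.2.1 i⟩

/-- corners -/
def FCor (f : FPt κ S co) (x : Pt) : Prop := ∀ i, (co x i).1 ∈ (f.1 i).1

/-- edges -/
def FEdg (f : FPt κ S co) (i : ι) : Prop := ∃ a b, a ≠ b ∧ a ∈ (f.1 i).1 ∧ b ∈ (f.1 i).1

/-- the internal labels -/
def fN (N : Pt → ι → Prop) (κ : V → ι) (S : SimpleGraph V) (co : Pt → ∀ i, Fib κ i)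
    (f : FPt κ S co) (i : ι) : Prop := FEdg f i ∨ ∃ x, FCor f x ∧ N x i

end

section

variable {G : Type} [Group G] {V ι Pt : Type} [MulAction G Pt] [MulAction G V] [MulAction G ι]
  {Γ : SimpleGraph ι} {κ : V → ι} {S : SimpleGraph V} {co : Pt → ∀ i, Fib κ i}
  {N : Pt → ι → Prop}

theorem fpt_gco (P : VPre G Γ κ S co N) (g : G) (x : Pt) (i : ι) :
    (co (g • x) i).1 = g • (co x (g⁻¹ • i)).1 := by
  rw [← P.gco, smul_inv_smul]

theorem fpt_smul_aux (P : VPre G Γ κ S co N) (g : G) (f : FPt κ S co) :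
    letI := sbAct (S := S) P.act.adj
    (∀ i, sbK κ S (g • f.1 (g⁻¹ • i)) = i) ∧
      ∀ a : ι → V, (∀ i, a i ∈ (g • f.1 (g⁻¹ • i)).1) → ∃ x, ∀ i, (co x i).1 = a i := by
  letI := sbAct (S := S) P.act.adj
  constructor
  · intro i
    obtain ⟨a, ha⟩ := sbK_mem (f.1 (g⁻¹ • i))
    have h1 : g • a ∈ (g • f.1 (g⁻¹ • i)).1 := Sym2.mem_map.2 ⟨a, ha, rfl⟩
    rw [sbK_eq P.kapS h1, P.act.kap, ← sbK_eq P.kapS ha, f.2.1, smul_inv_smul]
  · intro a ha
    obtain ⟨x, hx⟩ := f.2.2 (fun i => g⁻¹ • a (g • i)) (by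
      intro i
      have h1 := ha (g • i)
      rw [inv_smul_smul] at h1
      obtain ⟨b, hb, hb'⟩ := Sym2.mem_map.1 h1
      show g⁻¹ • a (g • i) ∈ (f.1 i).1
      rw [← hb', inv_smul_smul]
      exact hb)
    refine ⟨g • x, fun i => ?_⟩
    rw [fpt_gco P, hx]
    show g • g⁻¹ • a (g • g⁻¹ • i) = a i
    rw [smul_inv_smul, smul_inv_smul]

/-- the action on the points of the subdivision -/
@[reducible] def fptAct (P : VPre G Γ κ S co N) : MulAction G (FPt κ S co) :=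
  letI := sbAct (S := S) P.act.adj
  { smul := fun g f => ⟨fun i => g • f.1 (g⁻¹ • i), fpt_smul_aux P g f⟩
    one_smul := fun f => Subtype.ext (funext fun i => by
      show (1 : G) • f.1 ((1 : G)⁻¹ • i) = f.1 i
      rw [inv_one, one_smul, one_smul])
    mul_smul := fun g k f => Subtype.ext (funext fun i => by
      show (g * k) • f.1 ((g * k)⁻¹ • i) = g • k • f.1 (k⁻¹ • g⁻¹ • i)
      rw [mul_inv_rev, mul_smul, mul_smul]) }

theorem fpt_mem_smul (P : VPre G Γ κ S co N) (g : G) (f : FPt κ S co) (i : ι) (a : V) :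
    a ∈ (((fptAct P).smul g f).1 (g • i)).1 ↔ g⁻¹ • a ∈ (f.1 i).1 := by
  letI := sbAct (S := S) P.act.adj
  show a ∈ (g • f.1 (g⁻¹ • g • i)).1 ↔ _
  rw [inv_smul_smul]
  constructor
  · intro h
    obtain ⟨b, hb, hb'⟩ := Sym2.mem_map.1 h
    rw [← hb', inv_smul_smul]
    exact hb
  · intro h
    exact Sym2.mem_map.2 ⟨_, h, smul_inv_smul g a⟩

end

end VTB
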