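import Pool.Agent.Lib.MP_32d917_al_vt.D00

/-!
# D11: the subdivision of a tree

`SbV T`, `sbG T` (SUBD.lean): vertices of the subdivision are `s(a, a)` and `s(a, b)` for adjacent `a b`. `sb_cases`. `sb_pair`: two different corners are adjacent and are all corners.
`sb_dist`: `(sbG T).dist` of `s(a, a)` and `s(b, b)` is `2 * T.dist a b` (by induction along `st_next` for `≤`; for `≥` a path of the subdivision between vertices gives a path of `T`; or by the tree structure).
`sb_bt`: `m` is between `f` and `g` in the subdivision, `f ≠ m`, `g ≠ m`, `a ∈ m`, `x ∈ f`, `y ∈ g`; then `a` is between `x` and `y`. Proof. Suppose not. Then there is a neighbour `c` of `a` with `Bt T a c x` and `Bt T a c y`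
(first vertices after `a` on the ways to `x` and `y`; `x ≠ a ≠ y`; if they differ then `a` is between). Let `C` be the set of the vertices of the subdivision all whose corners are on the side of `c` (closer to `c` than to `a`).
`f` is in `C` or `f = s(a, c)`: it has the corner `x` on the side of `c`; the only edge of `T` with one end on this side is `a c` (`red_cut`). The same for `g`.
If `m = s(a, c)`: `f`, `g ∈ C`, and `C` is a component of the complement of `m` (convex), a contradiction. If `m ≠ s(a, c)`, so `m = s(a, a)` or `m = s(a, b)`, `b ≠ c`: the set `C ∪ {s(a, c)}` is convex (it is one of the two sides of the edge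
`s(a, a), s(a, c)` of the tree `sbG T`), contains `f` and `g` and not `m`, a contradiction. (Sides of edges in the tree `sbG T` in terms of `T`: the proof of `sb_tree` contains this: for an edge `a b` of `T` the edge `s(a,a), s(a,b)` of the
subdivision separates the `z` all whose corners `c` satisfy `T.dist c a < T.dist c b` from the others.)
`sb_med`: for `a ∈ m` take `x = a` if `f = m`, any corner of `f` otherwise; the same for `g` and `h`; `sb_bt`.
-/

set_option autoImplicit false

namespace VTB

open LatIso LatN LatF RaagIso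

private theorem D11_walk {V : Type} {S : SimpleGraph V} (hS : S.IsTree) (P : V → Prop) {q : V}
    (h : ∀ a b, S.Adj a b → P a → ¬ P b → a = q) {m : V} (hm : ¬ P m) (n : ℕ) :
    ∀ f, S.dist f m = n → P f → Bt S f q m := by
  induction n with
  | zero =>
    intro f hf hP
    rw [st1_eq hS hf] at hP
    exact absurd hP hm
  | succ n ih =>
    intro f hf hP
    have hne : f ≠ m := by
      rintro rfl
      exact hm hP
    obtain ⟨v, hv, hv'⟩ := st_next hS hne
    have h1 := st1_one hv
    by_cases hPv : P v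
    · unfold Bt at hv'
      have h2 := ih v (by omega) hPv
      have t1 := st1_tri hS f v q
      have t2 := st1_tri hS f q m
      unfold Bt at h2 ⊢
      omega
    · rw [h f v hv hP hPv]
      unfold Bt
      rw [SimpleGraph.dist_self, zero_add]

/-- one side of a cut is convex -/
private theorem D11_cvx {V : Type} {S : SimpleGraph V} (hS : S.IsTree) (P : V → Prop) {q : V}
    (hq : P q) (h : ∀ a b, S.Adj a b → P a → ¬ P b → a = q) {f m g : V} (hb : Bt S f m g)
    (hf : P f) (hg : P g) : P m := by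
  by_contra hm
  have h1 := D11_walk hS P h hm _ f rfl hf
  have h2 := D11_walk hS P h hm _ g rfl hg
  have hne : q ≠ m := by
    rintro rfl
    exact hm hq
  have h3 : 0 < S.dist q m := hS.connected.pos_dist_of_ne hne
  have t1 := st1_tri hS f q g
  have c1 : S.dist m g = S.dist g m := SimpleGraph.dist_comm
  have c2 : S.dist q g = S.dist g q := SimpleGraph.dist_comm
  unfold Bt at hb h1 h2
  omega

section

variable {W : Type} {T : SimpleGraph W}

theorem sb_mem (f : SbV T) : ∃ a, a ∈ f.1 := by
  obtain ⟨a, b, h, _⟩ := f.2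
  exact ⟨a, by rw [h]; exact Sym2.mem_mk_left a b⟩

theorem sb_cases (f : SbV T) : (∃ a, f.1 = s(a, a)) ∨ ∃ a b, T.Adj a b ∧ f.1 = s(a, b) := by
  obtain ⟨a, b, h, h1⟩ := f.2
  rcases h1 with rfl | h1
  · exact Or.inl ⟨a, h⟩
  · exact Or.inr ⟨a, b, h1, h⟩

theorem sb_pair {f : SbV T} {a b : W} (ha : a ∈ f.1) (hb : b ∈ f.1) (h : a ≠ b) :
    T.Adj a b ∧ f.1 = s(a, b) := by
  rcases sb_cases f with ⟨c, hc⟩ | ⟨c, d, hcd, hf⟩
  · rw [hc, Sym2.mem_iff] at ha hb
    have h1 : a = c := by rcases ha with h1 | h1 <;> exact h1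
    have h2 : b = c := by rcases hb with h1 | h1 <;> exact h1
    exact absurd (h1.trans h2.symm) h
  · rw [hf, Sym2.mem_iff] at ha hb
    rcases ha with rfl | rfl
    · rcases hb with rfl | rfl
      · exact absurd rfl h
      · exact ⟨hcd, hf⟩
    · rcases hb with rfl | rfl
      · exact ⟨hcd.symm, hf.trans Sym2.eq_swap⟩
      · exact absurd rfl h

theorem sb_single {f : SbV T} {a : W} (ha : a ∈ f.1) (h : ∀ b ∈ f.1, b = a) : f.1 = s(a, a) := by
  have _ := ha
  obtain ⟨c, d, hf, _⟩ := f.2
  have h1 := h c (by rw [hf]; exact Sym2.mem_mk_left c d)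
  have h2 := h d (by rw [hf]; exact Sym2.mem_mk_right c d)
  rw [hf, h1, h2]

/-- neighbours in the subdivision: a vertex and an edge -/
theorem sb_adj {f g : SbV T} (h : (sbG T).Adj f g) :
    ∃ a b, T.Adj a b ∧ ((f.1 = s(a, a) ∧ g.1 = s(a, b)) ∨ (g.1 = s(a, a) ∧ f.1 = s(a, b))) := h

/-- the edges which cross the cut of the edge `c a` -/
private theorem D11_cross (hT : T.IsTree) {c a : W} (hca : T.Adj c a) {x' y' : SbV T}
    (h : (sbG T).Adj x' y') (h1 : ∀ k ∈ x'.1, T.dist k c < T.dist k a)
    (h2 : ¬ ∀ k ∈ y'.1, T.dist k c < T.dist k a) : x'.1 = s(c, c) ∧ y'.1 = s(c, a) := by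
  obtain ⟨p, q, hpq, hxy⟩ := h
  rcases hxy with ⟨e1, e2⟩ | ⟨e1, e2⟩
  · have h3 : T.dist p c < T.dist p a := h1 p (by rw [e1]; exact Sym2.mem_mk_left p p)
    have h4 : ¬ T.dist q c < T.dist q a := by
      intro h4
      apply h2
      intro k hk
      rw [e2, Sym2.mem_iff] at hk
      rcases hk with rfl | rfl
      · exact h3
      · exact h4
    have h5 := st_adj hT hca q
    obtain ⟨r1, r2⟩ := red_cut hT hca hpq h3 (by omega)
    rw [r1] at e1 e2
    rw [r2] at e2
    exact ⟨e1, e2⟩
  · exfalso
    apply h2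
    intro k hk
    rw [e1, Sym2.mem_iff] at hk
    have hkc : k = p := by
      rcases hk with h | h <;> exact h
    rw [hkc]
    exact h1 p (by rw [e2]; exact Sym2.mem_mk_left p q)

/-- a vertex of the subdivision with a corner on one side -/
private theorem D11_side (hT : T.IsTree) {c a : W} (hca : T.Adj c a) {f : SbV T} {x : W}
    (hx : x ∈ f.1) (h1 : T.dist x c < T.dist x a) :
    (∀ k ∈ f.1, T.dist k c < T.dist k a) ∨ f.1 = s(c, a) := by
  by_cases h : ∀ k ∈ f.1, T.dist k c < T.dist k a
  · exact Or.inl h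
  · right
    push Not at h
    obtain ⟨k, hk, h2⟩ := h
    have hne : x ≠ k := by
      rintro rfl
      omega
    obtain ⟨h3, h4⟩ := sb_pair hx hk hne
    have h5 := st_adj hT hca k
    obtain ⟨r1, r2⟩ := red_cut hT hca h3 h1 (by omega)
    rw [h4, r1, r2]

theorem sb_bt (hT : T.IsTree) {f g m : SbV T} (h : Bt (sbG T) f m g) (hf : f ≠ m) (hg : g ≠ m)
    {a x y : W} (ha : a ∈ m.1) (hx : x ∈ f.1) (hy : y ∈ g.1) : Bt T x a y := by
  by_contra hcon
  have hxa : a ≠ x := by
    rintro rfl
    apply hcon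
    unfold Bt
    rw [SimpleGraph.dist_self, zero_add]
  obtain ⟨c, hc, hc1⟩ := st_next hT hxa
  have hc2 : Bt T a c y := by
    by_contra h1
    exact hcon (bt_symm (tl2_dir hT hc hc1 h1))
  have e1 := st1_one hc
  have d1 : T.dist x c < T.dist x a := by
    unfold Bt at hc1
    have c1 : T.dist x c = T.dist c x := SimpleGraph.dist_comm
    have c2 : T.dist x a = T.dist a x := SimpleGraph.dist_comm
    omega
  have d2 : T.dist y c < T.dist y a := by
    unfold Bt at hc2
    have c1 : T.dist y c = T.dist c y := SimpleGraph.dist_comm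
    have c2 : T.dist y a = T.dist a y := SimpleGraph.dist_comm
    omega
  have hma : ¬ ∀ k ∈ m.1, T.dist k c < T.dist k a := by
    intro h1
    have h2 := h1 a ha
    rw [SimpleGraph.dist_self] at h2
    omega
  have hS := sb_tree hT
  have sf := D11_side hT hc.symm hx d1
  have sg := D11_side hT hc.symm hy d2
  by_cases hm : m.1 = s(c, a)
  · have hf1 : ∀ k ∈ f.1, T.dist k c < T.dist k a :=
      sf.resolve_right fun h1 => hf (Subtype.ext (h1.trans hm.symm))
    have hg1 : ∀ k ∈ g.1, T.dist k c < T.dist k a :=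
      sg.resolve_right fun h1 => hg (Subtype.ext (h1.trans hm.symm))
    refine hma (D11_cvx hS (fun z : SbV T => ∀ k ∈ z.1, T.dist k c < T.dist k a)
      (q := sbP T c c (Or.inl rfl)) ?_ ?_ h hf1 hg1)
    · intro k hk
      have hkc : k = c := by
        rcases Sym2.mem_iff.1 hk with h1 | h1 <;> exact h1
      rw [hkc, SimpleGraph.dist_self, SimpleGraph.dist_comm, e1]
      exact Nat.one_pos
    · intro x' y' hxy h1 h2
      exact Subtype.ext (D11_cross hT hc.symm hxy h1 h2).1
  · have hcr : ∀ x' y' : SbV T, (sbG T).Adj x' y' →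
        ((∀ k ∈ x'.1, T.dist k c < T.dist k a) ∨ x'.1 = s(c, a)) →
        ¬ ((∀ k ∈ y'.1, T.dist k c < T.dist k a) ∨ y'.1 = s(c, a)) →
        x' = sbP T c a (Or.inr hc.symm) := by
      intro x' y' hxy h1 h2
      rcases h1 with h1 | h1
      · exact absurd (Or.inr (D11_cross hT hc.symm hxy h1 fun h3 => h2 (Or.inl h3)).2) h2
      · exact Subtype.ext h1
    have h1 := D11_cvx hS (fun z : SbV T => (∀ k ∈ z.1, T.dist k c < T.dist k a) ∨ z.1 = s(c, a))
      (q := sbP T c a (Or.inr hc.symm)) (Or.inr rfl) hcr h sf sg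
    exact h1.elim hma hm

/-- the corners of a median are medians of corners -/
theorem sb_med (hT : T.IsTree) {f g h m : SbV T} (h1 : Bt (sbG T) f m g) (h2 : Bt (sbG T) g m h)
    (h3 : Bt (sbG T) f m h) {a : W} (ha : a ∈ m.1) :
    ∃ x ∈ f.1, ∃ y ∈ g.1, ∃ z ∈ h.1, Bt T x a y ∧ Bt T y a z ∧ Bt T x a z := by
  have key : ∀ f : SbV T, ∃ x ∈ f.1, f = m → x = a := by
    intro f
    by_cases hf : f = m
    · exact ⟨a, by rw [hf]; exact ha, fun _ => rfl⟩
    · obtain ⟨x, hx⟩ := sb_mem f
      exact ⟨x, hx, fun h => absurd h hf⟩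
  have key2 : ∀ {f g : SbV T} {x y : W}, x ∈ f.1 → y ∈ g.1 → (f = m → x = a) → (g = m → y = a) →
      Bt (sbG T) f m g → Bt T x a y := by
    intro f g x y hx hy hx' hy' hb
    by_cases hf : f = m
    · rw [hx' hf]
      unfold Bt
      rw [SimpleGraph.dist_self, zero_add]
    · by_cases hg : g = m
      · rw [hy' hg]
        unfold Bt
        rw [SimpleGraph.dist_self, add_zero]
      · exact sb_bt hT hb hf hg ha hx hy
  obtain ⟨x, hx, hx'⟩ := key f
  obtain ⟨y, hy, hy'⟩ := key g
  obtain ⟨z, hz, hz'⟩ := key h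
  exact ⟨x, hx, y, hy, z, hz, key2 hx hy hx' hy' h1, key2 hy hz hy' hz' h2, key2 hx hz hx' hz' h3⟩

end

end VTB
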