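import Pool.Agent.Lib.MP_32d917_al_vt.D11

/-!
# D12: cubes and their corners
-/

set_option autoImplicit false

namespace VTB

open LatIso LatN LatF RaagIso

section

variable {ι Pt : Type} [Fintype ι] {V : ι → Type} {Γ : SimpleGraph ι}
  {S : ∀ i, SimpleGraph (V i)} {co : Pt → ∀ i, V i} {N : Pt → ι → Prop}

theorem spt_chg (f : SPt S co) {x : Pt} (hx : Cor f x) {i : ι} {a : V i} (ha : a ∈ (f.1 i).1) :
    ∃ y, Cor f y ∧ Ag co {i} x y ∧ co y i = a := by
  classical
  have key : ∀ j, (Function.update (co x) i a) j ∈ (f.1 j).1 := by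
    intro j
    by_cases hj : j = i
    · subst hj; rw [Function.update_self]; exact ha
    · rw [Function.update_of_ne hj]; exact hx j
  obtain ⟨y, hy⟩ := f.2 (Function.update (co x) i a) key
  refine ⟨y, ?_, ?_, ?_⟩
  · intro j
    rw [hy j]
    exact key j
  · intro j hj
    rw [hy j, Function.update_of_ne hj]
  · rw [hy i, Function.update_self]

theorem spt_cor (f : SPt S co) : ∃ x, Cor f x := by
  choose a ha using fun i => sb_mem (f.1 i)
  obtain ⟨x, hx⟩ := f.2 a ha
  exact ⟨x, fun i => by rw [hx i]; exact ha i⟩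

theorem spt_ag (f : SPt S co) {x y : Pt} (hx : Cor f x) (hy : Cor f y) :
    Ag co {k | Edg f k} x y := by
  intro j hj
  by_contra hne
  exact hj ⟨co y j, co x j, hne, hy j, hx j⟩

theorem spt_adj (M : MS1 Γ S co N) (f : SPt S co) {i j : ι} (hi : Edg f i) (hj : Edg f j)
    (hij : i ≠ j) : Γ.Adj i j := by
  obtain ⟨a, b, hab, ha, hb⟩ := hi
  obtain ⟨c, d, hcd, hc, hd⟩ := hj
  obtain ⟨x0, hx0⟩ := spt_cor f
  obtain ⟨x1, hx1, hag1, hx1a⟩ := spt_chg f hx0 ha
  obtain ⟨x, hx, hagx, hxc⟩ := spt_chg f hx1 hc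
  obtain ⟨y, hy, hagy, hyb⟩ := spt_chg f hx hb
  obtain ⟨z, hz, hagz, hzd⟩ := spt_chg f hx hd
  obtain ⟨w, hw, hagw, hwd⟩ := spt_chg f hy hd
  have hxa : co x i = a := by rw [hagx i (by simpa using hij)]; exact hx1a
  have h1 : VSt S co i x y := by
    refine ⟨?_, fun k hk => hagy k hk⟩
    rw [hxa, hyb]
    exact (sb_pair ha hb hab).1
  have h2 : VSt S co j x z := by
    refine ⟨?_, fun k hk => hagz k hk⟩
    rw [hxc, hzd]
    exact (sb_pair hc hd hcd).1
  have hyc : co y j = c := by rw [hagy j (by simpa using hij.symm)]; exact hxc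
  have hza : co z i = a := by rw [hagz i (by simpa using hij)]; exact hxa
  have hwb : co w i = b := by rw [hagw i (by simpa using hij)]; exact hyb
  refine (M.sq x y z i j hij h1 h2).1 ⟨w, ⟨?_, fun k hk => hagw k hk⟩, ?_, ?_⟩
  · rw [hyc, hwd]
    exact (sb_pair hc hd hcd).1
  · rw [hza, hwb]
    exact (sb_pair ha hb hab).1
  · intro k hk
    by_cases hkj : k = j
    · subst hkj
      rw [hwd, hzd]
    · rw [hagw k (by simpa using hkj), hagy k (by simpa using hk), hagz k (by simpa using hkj)]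

theorem spt_oc (M : MS1 Γ S co N) (f : SPt S co) {x : Pt} (hx : Cor f x) {i : ι}
    (hi : Edg f i) : Oc Γ N x i := by
  obtain ⟨a, b, hab, ha, hb⟩ := hi
  obtain ⟨c, hc, hcx⟩ : ∃ c, c ∈ (f.1 i).1 ∧ co x i ≠ c := by
    by_cases h : co x i = a
    · exact ⟨b, hb, by rw [h]; exact hab⟩
    · exact ⟨a, ha, h⟩
  obtain ⟨y, _, hag, hyc⟩ := spt_chg f hx hc
  refine (M.occ x i).1 ⟨y, ?_, fun k hk => hag k hk⟩
  rw [hyc]
  exact (sb_pair (hx i) hc hcx).1

theorem spt_n (M : MS1 Γ S co N) (f : SPt S co) {x y : Pt} (hx : Cor f x) (hy : Cor f y) {i : ι}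
    (hi : ¬ Edg f i) : N y i ↔ N x i :=
  n_ag M (spt_ag f hx hy) hi

theorem spt_sN (M : MS1 Γ S co N) (f : SPt S co) {x : Pt} (hx : Cor f x) (i : ι) :
    sbN N S co f i ↔ Edg f i ∨ N x i := by
  constructor
  · rintro (h | ⟨y, hy, hn⟩)
    · exact Or.inl h
    · by_cases hE : Edg f i
      · exact Or.inl hE
      · exact Or.inr ((spt_n M f hx hy hE).1 hn)
  · rintro (h | h)
    · exact Or.inl h
    · exact Or.inr ⟨x, hx, h⟩

theorem spt_sOc (M : MS1 Γ S co N) (f : SPt S co) {x : Pt} (hx : Cor f x) (i : ι) :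
    Oc Γ (sbN N S co) f i ↔ Oc Γ N x i ∧ ∀ k, Edg f k → i ∈ st Γ k := by
  constructor
  · intro h
    exact ⟨fun v hv => h v ((spt_sN M f hx v).2 (Or.inr hv)),
      fun k hk => h k ((spt_sN M f hx k).2 (Or.inl hk))⟩
  · rintro ⟨h1, h2⟩ v hv
    rcases (spt_sN M f hx v).1 hv with h | h
    · exact h2 v h
    · exact h1 v h

theorem spt_upd (f : SPt S co) {i : ι} (v : SbV (S i))
    (h : ∀ x, Cor f x → ∀ b ∈ v.1, ∃ y, Ag co {i} x y ∧ co y i = b) :
    ∃ g : SPt S co, g.1 i = v ∧ ∀ j, j ≠ i → g.1 j = f.1 j := by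
  classical
  obtain ⟨a', ha'⟩ := sb_mem (f.1 i)
  refine ⟨⟨Function.update f.1 i v, ?_⟩, ?_, ?_⟩
  · intro a ha
    have hai : a i ∈ v.1 := by
      have h1 := ha i
      rw [Function.update_self] at h1
      exact h1
    have haj : ∀ j, j ≠ i → a j ∈ (f.1 j).1 := by
      intro j hj
      have h1 := ha j
      rw [Function.update_of_ne hj] at h1
      exact h1
    have key : ∀ j, (Function.update a i a') j ∈ (f.1 j).1 := by
      intro j
      by_cases hj : j = i
      · subst hj; rw [Function.update_self]; exact ha'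
      · rw [Function.update_of_ne hj]; exact haj j hj
    obtain ⟨x, hx⟩ := f.2 _ key
    obtain ⟨y, hy, hyi⟩ := h x (fun j => by rw [hx j]; exact key j) (a i) hai
    refine ⟨y, fun j => ?_⟩
    by_cases hj : j = i
    · subst hj; exact hyi
    · rw [hy j hj, hx j, Function.update_of_ne hj]
  · show Function.update f.1 i v i = v
    rw [Function.update_self]
  · intro j hj
    show Function.update f.1 i v j = f.1 j
    rw [Function.update_of_ne hj]

theorem spt_upd2 (M : MS1 Γ S co N) (f : SPt S co) {i : ι} (v : SbV (S i)) {x : Pt}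
    (hx : Cor f x) (h : ∀ b ∈ v.1, ∃ y, Ag co {i} x y ∧ co y i = b)
    (hk : ∀ k, Edg f k → i ∈ st Γ k) :
    ∃ g : SPt S co, g.1 i = v ∧ ∀ j, j ≠ i → g.1 j = f.1 j := by
  refine spt_upd f v fun x' hx' b hb => ?_
  obtain ⟨x'', hx'', hag, hxi⟩ := spt_chg f hx' (hx i)
  obtain ⟨y, hy, hyb⟩ := h b hb
  have hlk : Ag co (lk Γ i) x x'' := by
    intro k hkl
    by_cases hki : k = i
    · subst hki; exact hxi
    · by_cases hE : Edg f k
      · exfalso
        rcases hk k hE with h1 | h1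
        · exact hki h1.symm
        · exact hkl (SimpleGraph.Adj.symm h1)
      · exact spt_ag f hx hx'' k hE
  obtain ⟨w, hw, hwi, _⟩ := prod M hlk hy
  exact ⟨w, ag_trans hag hw, hwi.trans hyb⟩

/-- the vertices of the complex as points of the subdivision -/
theorem spt_vtx (x : Pt) : ∃ f : SPt S co, ∀ i, (f.1 i).1 = s(co x i, co x i) := by
  refine ⟨⟨fun i => ⟨s(co x i, co x i), co x i, co x i, rfl, Or.inl rfl⟩, ?_⟩, fun i => rfl⟩
  intro a ha
  refine ⟨x, fun i => ?_⟩
  have h1 := ha i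
  rw [Sym2.mem_iff] at h1
  rcases h1 with h1 | h1 <;> exact h1.symm

theorem spt_ext {f g : SPt S co} (h : ∀ i, f.1 i = g.1 i) : f = g :=
  Subtype.ext (funext h)

end

end VTB
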