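import Pool.Agent.Lib.MP_32d917_al_vt.D12

/-!
# D13: the subdivision: onto, connected

`sbd_onto`: `v = s(a, a)`: the cube of a point `x` with `co x i = a` (`spt_vtx`). `v = s(a, b)`: `edge_step` (A03) gives a step `x y` with coordinates `a`, `b`; replace the coordinate `i` of the cube of `x` by `v` (`spt_upd`: its only corner is `x`).
`sbd_down`: from `f` to the cube of a corner `x`: induction on the number of labels `i` with `(f_i).1 ≠ s(x_i, x_i)`: replace `f_i` by `s(x_i, x_i)` (`spt_upd`, `spt_chg`), which is one step of the subdivision (`x_i ∈ f_i`, `f_i` is an edge).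
`sbd_conn`: `f` to the cube of a corner `x`, along the chain of steps from `x` to `y` (for a step `x y` of direction `i`: cube of `x`, the edge `s(x_i, y_i)`, cube of `y`), then up to `g` (steps can be reversed).
-/

set_option autoImplicit false

namespace VTB

open LatIso LatN LatF RaagIso

section

variable {ι Pt : Type} [Fintype ι] {V : ι → Type} {Γ : SimpleGraph ι}
  {S : ∀ i, SimpleGraph (V i)} {co : Pt → ∀ i, V i} {N : Pt → ι → Prop}

private theorem D13_vtx (M : MS1 Γ S co N) {x z : Pt} {f : SPt S co}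
    (hf : ∀ i, (f.1 i).1 = s(co x i, co x i)) (hz : Cor f z) : z = x := by
  refine M.inj z x fun j => ?_
  have h1 := hz j
  rw [hf j, Sym2.mem_iff] at h1
  rcases h1 with h1 | h1 <;> exact h1

private theorem D13_edge (M : MS1 Γ S co N) {i : ι} {x y : Pt} (h : VSt S co i x y)
    (v : SbV (S i)) (hv : v.1 = s(co x i, co y i)) :
    ∃ f : SPt S co, f.1 i = v ∧ Cor f x ∧ Cor f y := by
  obtain ⟨f0, hf0⟩ := spt_vtx (S := S) (co := co) x
  obtain ⟨f, h1, h2⟩ := spt_upd f0 v (by
    intro z hz b hb
    rw [D13_vtx M hf0 hz]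
    rw [hv, Sym2.mem_iff] at hb
    rcases hb with hb | hb
    · exact ⟨x, ag_refl x, hb.symm⟩
    · exact ⟨y, fun j hj => h.2 j hj, hb.symm⟩)
  refine ⟨f, h1, fun j => ?_, fun j => ?_⟩
  · by_cases hj : j = i
    · subst hj
      rw [h1, hv]
      exact Sym2.mem_mk_left _ _
    · rw [h2 j hj, hf0 j]
      exact Sym2.mem_mk_left _ _
  · by_cases hj : j = i
    · subst hj
      rw [h1, hv]
      exact Sym2.mem_mk_right _ _
    · rw [h2 j hj, hf0 j, h.2 j hj]
      exact Sym2.mem_mk_left _ _

theorem sbd_onto (M : MS1 Γ S co N) (i : ι) (v : SbV (S i)) : ∃ f : SPt S co, sbco S co f i = v := by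
  rcases sb_cases v with ⟨a, ha⟩ | ⟨a, b, hab, hv⟩
  · obtain ⟨x, hx⟩ := M.onto i a
    obtain ⟨f, hf⟩ := spt_vtx (S := S) (co := co) x
    refine ⟨f, Subtype.ext ?_⟩
    show (f.1 i).1 = v.1
    rw [hf i, hx, ha]
  · obtain ⟨x, y, h1, h2, h3⟩ := edge_step M hab
    obtain ⟨f, h4, _⟩ := D13_edge M h1 v (by rw [hv, h2, h3])
    exact ⟨f, h4⟩

theorem sbd_down (M : MS1 Γ S co N) (f : SPt S co) {x : Pt} (hx : Cor f x) {g : SPt S co}
    (hg : ∀ i, (g.1 i).1 = s(co x i, co x i)) :
    Relation.ReflTransGen (fun a b => ∃ i, VSt (sbS S) (sbco S co) i a b) f g := by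
  classical
  obtain ⟨n, hn⟩ : ∃ n, (Finset.univ.filter fun i => (f.1 i).1 ≠ s(co x i, co x i)).card = n :=
    ⟨_, rfl⟩
  induction n using Nat.strong_induction_on generalizing f with
  | _ n ih =>
    by_cases hall : ∀ i, (f.1 i).1 = s(co x i, co x i)
    · have : f = g := spt_ext fun i => Subtype.ext (by rw [hall i, hg i])
      rw [this]
    · push Not at hall
      obtain ⟨i, hi⟩ := hall
      let v : SbV (S i) := ⟨s(co x i, co x i), co x i, co x i, rfl, Or.inl rfl⟩
      obtain ⟨f', h1, h2⟩ := spt_upd f v (by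
        intro x' hx' b hb
        have hb' : b = co x i := by
          have hb1 : b ∈ s(co x i, co x i) := hb
          rw [Sym2.mem_iff] at hb1
          rcases hb1 with hb1 | hb1 <;> exact hb1
        obtain ⟨y, _, hy2, hy3⟩ := spt_chg f hx' (hx i)
        exact ⟨y, hy2, by rw [hy3, hb']⟩)
      have hv : (f'.1 i).1 = s(co x i, co x i) := by rw [h1]
      have hx' : Cor f' x := by
        intro j
        by_cases hj : j = i
        · subst hj
          rw [hv]
          exact Sym2.mem_mk_left _ _
        · rw [h2 j hj]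
          exact hx j
      have hstep : VSt (sbS S) (sbco S co) i f f' := by
        refine ⟨?_, fun j hj => h2 j hj⟩
        have hm := hx i
        rcases sb_cases (f.1 i) with ⟨a, ha⟩ | ⟨a, b, hab, hf⟩
        · exfalso
          rw [ha, Sym2.mem_iff] at hm
          apply hi
          rcases hm with hm | hm <;> rw [ha, hm]
        · rw [hf, Sym2.mem_iff] at hm
          rcases hm with hm | hm
          · exact ⟨a, b, hab, Or.inr ⟨by
              show (f'.1 i).1 = _
              rw [hv, hm], hf⟩⟩
          · exact ⟨b, a, hab.symm, Or.inr ⟨by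
              show (f'.1 i).1 = _
              rw [hv, hm], by
              show (f.1 i).1 = _
              rw [hf, Sym2.eq_swap]⟩⟩
      refine Relation.ReflTransGen.head ⟨i, hstep⟩ (ih _ ?_ f' hx' rfl)
      rw [← hn]
      apply Finset.card_lt_card
      rw [Finset.ssubset_iff_of_subset]
      · refine ⟨i, Finset.mem_filter.2 ⟨Finset.mem_univ _, hi⟩, ?_⟩
        rw [Finset.mem_filter]
        exact fun hh => hh.2 hv
      · intro j hj
        rw [Finset.mem_filter] at hj ⊢
        refine ⟨hj.1, ?_⟩
        by_cases hji : j = i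
        · subst hji
          exact absurd hv hj.2
        · have h3 := hj.2
          rw [h2 j hji] at h3
          exact h3

theorem sbd_conn (M : MS1 Γ S co N) (f g : SPt S co) :
    Relation.ReflTransGen (fun a b => ∃ i, VSt (sbS S) (sbco S co) i a b) f g := by
  have hsym : ∀ {a b : SPt S co},
      Relation.ReflTransGen (fun a b => ∃ i, VSt (sbS S) (sbco S co) i a b) a b →
      Relation.ReflTransGen (fun a b => ∃ i, VSt (sbS S) (sbco S co) i a b) b a := by
    intro a b hab
    induction hab with
    | refl => exact Relation.ReflTransGen.refl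
    | tail _ hbc ih =>
      obtain ⟨i, hi⟩ := hbc
      exact Relation.ReflTransGen.head ⟨i, vst_symm hi⟩ ih
  obtain ⟨x, hx⟩ := spt_cor f
  obtain ⟨y, hy⟩ := spt_cor g
  obtain ⟨g', hg'⟩ := spt_vtx (S := S) (co := co) y
  refine Relation.ReflTransGen.trans ?_ (hsym (sbd_down M g hy hg'))
  have key : ∀ z, Relation.ReflTransGen (fun a b => ∃ i, VSt S co i a b) x z →
      ∀ k : SPt S co, (∀ i, (k.1 i).1 = s(co z i, co z i)) →
      Relation.ReflTransGen (fun a b => ∃ i, VSt (sbS S) (sbco S co) i a b) f k := by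
    intro z hz
    induction hz with
    | refl => exact fun k hk => sbd_down M f hx hk
    | @tail b c _ hbc ih =>
      intro k hk
      obtain ⟨i, hi⟩ := hbc
      obtain ⟨k', hk'⟩ := spt_vtx (S := S) (co := co) b
      obtain ⟨e, _, he1, he2⟩ := D13_edge M hi ⟨s(co b i, co c i), co b i, co c i, rfl,
        Or.inr hi.1⟩ rfl
      exact ((ih k' hk').trans (hsym (sbd_down M e he1 hk'))).trans (sbd_down M e he2 hk)
  exact key y (M.conn x y) g' hg'

end

end VTB
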