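import Pool.Agent.Lib.MP_32d917_al_vt.D12

/-!
# D14: the subdivision: medians, squares

`sbd_med`: let `m i` be the median of `f_i, g_i, h_i` in the tree `sbG (S i)` (`st_median`, `sb_tree`). `m` is a cube: let `a` be a choice of corners of `m`; by `sb_med` choose corners `x_i, y_i, z_i` of `f_i, g_i, h_i` with median `a_i`; they are the coordinates of points
`x`, `y`, `z`, whose median (`M.med`) has coordinates `a_i` (`tree_med_uniq`, A01).
`sbd_sq`: `f g` a step in direction `i`, `f h` a step in direction `j ≠ i`. (->) `w` with steps `g w` (direction `j`), `h w` (direction `i`). One of the four cubes has edges of both labels `i`, `j`: exactly one of `f_i`, `g_i` is an edge (`sb_adj`), exactly one of `f_j`, `h_j`;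
`w_i = g_i`, `w_j = h_j`. `spt_adj`. (<-) `Γ.Adj i j`. It suffices to find a cube `w` with `w_i = g_i`, `w_j = h_j`, `w_k = f_k` otherwise. `spt_upd` for the cube `g`, label `j`, `v := h_j`: let `x` be a corner of `g`, `b ∈ h_j`; to find `y` with `Ag co {j} x y`,
`co y j = b`. If `b ∈ f_j = g_j`: `spt_chg`. Otherwise `f_j = s(c, c)`, `h_j = s(c, b)`, `co x j = c`. If `co x i ∈ f_i` then `x` is a corner of `f` and of `h`: `spt_chg` for `h`. Otherwise `f_i = s(a, a)`, `g_i = s(a, d)`, `co x i = d`: let `x'` be the corner of `g` with `i`-coordinate `a`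
(`spt_chg`), it is a corner of `f`, `x' x` is a step of direction `i`; `x'' ` the corner of `h` with `j`-coordinate `b` (`spt_chg` for `h`), `x' x''` is a step of direction `j`; `M.sq` gives `y`.
-/

set_option autoImplicit false

namespace VTB

open LatIso LatN LatF RaagIso

section

variable {ι Pt : Type} [Fintype ι] {V : ι → Type} {Γ : SimpleGraph ι}
  {S : ∀ i, SimpleGraph (V i)} {co : Pt → ∀ i, V i} {N : Pt → ι → Prop}

theorem sbd_med (M : MS1 Γ S co N) (f g h : SPt S co) :
    ∃ m, Med (sbS S) (sbco S co) f g h m := by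
  choose m hm using fun i => st_median (sb_tree (M.tree i)) (f.1 i) (g.1 i) (h.1 i)
  refine ⟨⟨m, fun a ha => ?_⟩, hm⟩
  choose x hx y hy z hz h1 h2 h3 using
    fun i => sb_med (M.tree i) (hm i).1 (hm i).2.1 (hm i).2.2 (ha i)
  obtain ⟨px, ex⟩ := f.2 x hx
  obtain ⟨py, ey⟩ := g.2 y hy
  obtain ⟨pz, ez⟩ := h.2 z hz
  obtain ⟨p, hp⟩ := M.med px py pz
  refine ⟨p, fun i => ?_⟩
  obtain ⟨c1, c2, c3⟩ := hp i
  rw [ex i, ey i] at c1
  rw [ey i, ez i] at c2
  rw [ex i, ez i] at c3
  exact tree_med_uniq (M.tree i) c1 c2 c3 (h1 i) (h2 i) (h3 i)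

private theorem d14_edg {f g : SPt S co} {i : ι} (h : f.1 i = g.1 i) (hf : Edg f i) :
    Edg g i := by
  obtain ⟨a, b, h1, h2, h3⟩ := hf
  exact ⟨a, b, h1, h ▸ h2, h ▸ h3⟩

private theorem d14_cas {f g : SPt S co} {i : ι} (h : (sbG (S i)).Adj (f.1 i) (g.1 i)) :
    Edg f i ∨ Edg g i := by
  obtain ⟨a, b, hab, ⟨e1, e2⟩ | ⟨e1, e2⟩⟩ := sb_adj h
  · right
    exact ⟨a, b, hab.ne, by rw [e2]; exact Sym2.mem_mk_left a b,
      by rw [e2]; exact Sym2.mem_mk_right a b⟩
  · left
    exact ⟨a, b, hab.ne, by rw [e2]; exact Sym2.mem_mk_left a b,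
      by rw [e2]; exact Sym2.mem_mk_right a b⟩

private theorem d14_new {f g : SPt S co} {i : ι} (h : (sbG (S i)).Adj (f.1 i) (g.1 i)) {b : V i}
    (hb : b ∈ (g.1 i).1) (hb' : b ∉ (f.1 i).1) :
    ∃ a, (S i).Adj a b ∧ (f.1 i).1 = s(a, a) ∧ (g.1 i).1 = s(a, b) := by
  obtain ⟨a, c, hac, ⟨e1, e2⟩ | ⟨e1, e2⟩⟩ := sb_adj h
  · rw [e2, Sym2.mem_iff] at hb
    rcases hb with hb | hb
    · subst hb
      exact absurd (by rw [e1]; exact Sym2.mem_mk_left b b) hb'
    · subst hb
      exact ⟨a, hac, e1, e2⟩
  · rw [e1, Sym2.mem_iff] at hb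
    have hba : b = a := by
      rcases hb with hb | hb <;> exact hb
    subst hba
    exact absurd (by rw [e2]; exact Sym2.mem_mk_left b c) hb'

theorem sbd_sq (M : MS1 Γ S co N) (f g h : SPt S co) (i j : ι) (hij : i ≠ j)
    (h1 : VSt (sbS S) (sbco S co) i f g) (h2 : VSt (sbS S) (sbco S co) j f h) :
    (∃ w, VSt (sbS S) (sbco S co) j g w ∧ VSt (sbS S) (sbco S co) i h w) ↔ Γ.Adj i j := by
  have ai : (sbG (S i)).Adj (f.1 i) (g.1 i) := h1.1
  have aj : (sbG (S j)).Adj (f.1 j) (h.1 j) := h2.1
  have eg : ∀ k, k ≠ i → g.1 k = f.1 k := h1.2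
  have eh : ∀ k, k ≠ j → h.1 k = f.1 k := h2.2
  constructor
  · rintro ⟨w, w1, w2⟩
    have ew : ∀ k, k ≠ j → w.1 k = g.1 k := w1.2
    have ew' : ∀ k, k ≠ i → w.1 k = h.1 k := w2.2
    rcases d14_cas ai with hi | hi
    · rcases d14_cas aj with hj | hj
      · exact spt_adj M f hi hj hij
      · exact spt_adj M h (d14_edg (eh i hij).symm hi) hj hij
    · rcases d14_cas aj with hj | hj
      · exact spt_adj M g hi (d14_edg (eg j hij.symm).symm hj) hij
      · exact spt_adj M w (d14_edg (ew i hij).symm hi) (d14_edg (ew' j hij.symm).symm hj) hij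
  · intro hadj
    obtain ⟨w, w1, w2⟩ := spt_upd g (i := j) (h.1 j) (by
      intro x hx b hb
      by_cases hbf : b ∈ (f.1 j).1
      · obtain ⟨y, _, hy, ey⟩ := spt_chg g hx (i := j) (a := b) (by
          rw [eg j hij.symm]
          exact hbf)
        exact ⟨y, hy, ey⟩
      · obtain ⟨c, hcb, e1, e2⟩ := d14_new aj hb hbf
        have hxj : co x j = c := by
          have h3 := hx j
          rw [eg j hij.symm, e1, Sym2.mem_iff] at h3
          rcases h3 with h3 | h3 <;> exact h3
        by_cases hxi : co x i ∈ (f.1 i).1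
        · have hxh : Cor h x := by
            intro k
            by_cases hk : k = j
            · subst hk
              rw [hxj, e2]
              exact Sym2.mem_mk_left _ _
            · rw [eh k hk]
              by_cases hk' : k = i
              · subst hk'
                exact hxi
              · rw [← eg k hk']
                exact hx k
          obtain ⟨y, _, hy, ey⟩ := spt_chg h hxh hb
          exact ⟨y, hy, ey⟩
        · obtain ⟨a, had, e3, e4⟩ := d14_new ai (hx i) hxi
          obtain ⟨x', hx', hxx', ex'⟩ := spt_chg g hx (i := i) (a := a) (by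
            rw [e4]
            exact Sym2.mem_mk_left _ _)
          have s1 : VSt S co i x' x := ⟨by rw [ex']; exact had, fun k hk => (hxx' k hk).symm⟩
          have hx'h : Cor h x' := by
            intro k
            by_cases hk : k = j
            · subst hk
              rw [hxx' k (fun e => hij e.symm), hxj, e2]
              exact Sym2.mem_mk_left _ _
            · rw [eh k hk]
              by_cases hk' : k = i
              · subst hk'
                rw [ex', e3]
                exact Sym2.mem_mk_left _ _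
              · rw [← eg k hk']
                exact hx' k
          obtain ⟨x2, _, hx2, ex2⟩ := spt_chg h hx'h hb
          have s2 : VSt S co j x' x2 := ⟨by
            rw [ex2, hxx' j (fun e => hij e.symm), hxj]
            exact hcb, hx2⟩
          obtain ⟨y, y1, y2⟩ := (M.sq x' x x2 i j hij s1 s2).2 hadj
          exact ⟨y, y1.2, by rw [y2.2 j hij.symm, ex2]⟩)
    refine ⟨w, ⟨?_, fun k hk => w2 k hk⟩, ⟨?_, fun k hk => ?_⟩⟩
    · show (sbG (S j)).Adj (g.1 j) (w.1 j)
      rw [w1, eg j hij.symm]
      exact aj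
    · show (sbG (S i)).Adj (h.1 i) (w.1 i)
      rw [w2 i hij, eh i hij]
      exact ai
    · show w.1 k = h.1 k
      by_cases hkj : k = j
      · subst hkj
        exact w1
      · rw [w2 k hkj, eg k hk, eh k hkj]

end

end VTB
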