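import Pool.Agent.Lib.MP_32d917_al_vt.D12

/-!
# D15: the subdivision: labels which occur, internal labels, finiteness
-/

set_option autoImplicit false

namespace VTB

open LatIso LatN LatF RaagIso

section

variable {ι Pt : Type} [Fintype ι] {V : ι → Type} {Γ : SimpleGraph ι}
  {S : ∀ i, SimpleGraph (V i)} {co : Pt → ∀ i, V i} {N : Pt → ι → Prop}

private theorem D15_mem {W : Type} {a b : W} (h : b ∈ s(a, a)) : b = a := by
  rw [Sym2.mem_iff] at h
  rcases h with h | h <;> exact h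

private theorem D15_edg {f : SPt S co} {i : ι} {a : V i} (h : (f.1 i).1 = s(a, a)) :
    ¬ Edg f i := by
  rintro ⟨b, c, hbc, hb, hc⟩
  rw [h] at hb hc
  exact hbc ((D15_mem hb).trans (D15_mem hc).symm)

private theorem D15_edg' {f g : SPt S co} {k : ι} (h : g.1 k = f.1 k) (hk : Edg f k) :
    Edg g k := by
  obtain ⟨a, b, hab, ha, hb⟩ := hk
  exact ⟨a, b, hab, by rw [h]; exact ha, by rw [h]; exact hb⟩

private theorem D15_st {i k : ι} (h : i ∈ st Γ k) : k ∈ st Γ i := by
  rcases h with h | h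
  · exact Or.inl h.symm
  · exact Or.inr (SimpleGraph.Adj.symm h)

/-- if `f` has edges of label `i` then the labels of its edges are in the star of `i` -/
private theorem D15_star (M : MS1 Γ S co N) (f : SPt S co) {i k : ι} (hi : Edg f i)
    (hk : Edg f k) : i ∈ st Γ k := by
  by_cases h : k = i
  · exact Or.inl h.symm
  · exact Or.inr (spt_adj M f hk hi h)

/-- replace the coordinate `i` by the vertex `co y i` -/
private theorem D15_vert (M : MS1 Γ S co N) (f : SPt S co) {x y : Pt} (hx : Cor f x) {i : ι}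
    (hy : Ag co {i} x y) (hk : ∀ k, Edg f k → i ∈ st Γ k) :
    ∃ g : SPt S co, (g.1 i).1 = s(co y i, co y i) ∧ (∀ j, j ≠ i → g.1 j = f.1 j) ∧ Cor g y := by
  obtain ⟨g, hg, hgj⟩ := spt_upd2 M f (i := i)
    ⟨s(co y i, co y i), co y i, co y i, rfl, Or.inl rfl⟩ hx
    (fun b hb => ⟨y, hy, (D15_mem hb).symm⟩) hk
  have hg1 : (g.1 i).1 = s(co y i, co y i) := by rw [hg]
  refine ⟨g, hg1, hgj, fun j => ?_⟩
  by_cases hj : j = i
  · subst hj
    rw [hg1]
    exact Sym2.mem_mk_left _ _
  · rw [hgj j hj, hy j hj]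
    exact hx j

theorem sbd_occ (M : MS1 Γ S co N) (f : SPt S co) (i : ι) :
    (∃ g, VSt (sbS S) (sbco S co) i f g) ↔ Oc Γ (sbN N S co) f i := by
  obtain ⟨x, hx⟩ := spt_cor f
  constructor
  · rintro ⟨g, hadj, hgj⟩
    rw [spt_sOc M f hx]
    obtain ⟨a, b, hab, h | h⟩ := sb_adj hadj
    · obtain ⟨hf, hg⟩ := h
      have hf' : (f.1 i).1 = s(a, a) := hf
      have hg' : (g.1 i).1 = s(a, b) := hg
      have hxa : co x i = a := by
        have h1 := hx i
        rw [hf'] at h1
        exact D15_mem h1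
      have hxg : Cor g x := by
        intro j
        by_cases hj : j = i
        · subst hj
          rw [hg', hxa]
          exact Sym2.mem_mk_left _ _
        · have h1 : g.1 j = f.1 j := hgj j hj
          rw [h1]
          exact hx j
      have hE : Edg g i := ⟨a, b, hab.ne, by rw [hg']; exact Sym2.mem_mk_left _ _,
        by rw [hg']; exact Sym2.mem_mk_right _ _⟩
      refine ⟨spt_oc M g hxg hE, fun k hk => ?_⟩
      have hki : k ≠ i := by
        rintro rfl
        exact D15_edg hf' hk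
      exact D15_star M g hE (D15_edg' (hgj k hki) hk)
    · obtain ⟨_, hf⟩ := h
      have hf' : (f.1 i).1 = s(a, b) := hf
      have hE : Edg f i := ⟨a, b, hab.ne, by rw [hf']; exact Sym2.mem_mk_left _ _,
        by rw [hf']; exact Sym2.mem_mk_right _ _⟩
      exact ⟨spt_oc M f hx hE, fun k hk => D15_star M f hE hk⟩
  · intro h
    rw [spt_sOc M f hx] at h
    obtain ⟨hO, hk⟩ := h
    by_cases hE : Edg f i
    · obtain ⟨a, b, hab, ha, hb⟩ := hE
      obtain ⟨hadj, hf⟩ := sb_pair ha hb hab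
      obtain ⟨g, hg, hgj⟩ := spt_upd f (i := i) ⟨s(a, a), a, a, rfl, Or.inl rfl⟩
        (fun z hz c hc => by
          obtain ⟨y, _, hy, hya⟩ := spt_chg f hz ha
          exact ⟨y, hy, hya.trans (D15_mem hc).symm⟩)
      refine ⟨g, ?_, fun j hj => hgj j hj⟩
      refine ⟨a, b, hadj, Or.inr ⟨?_, hf⟩⟩
      show (g.1 i).1 = s(a, a)
      rw [hg]
    · have hf : (f.1 i).1 = s(co x i, co x i) := by
        refine sb_single (hx i) fun b hb => ?_
        by_contra hne
        exact hE ⟨b, co x i, hne, hb, hx i⟩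
      obtain ⟨y, hy⟩ := (M.occ x i).2 hO
      obtain ⟨g, hg, hgj⟩ := spt_upd2 M f (i := i)
        ⟨s(co x i, co y i), co x i, co y i, rfl, Or.inr hy.1⟩ hx
        (fun b hb => by
          rcases (Sym2.mem_iff.1 hb) with h | h
          · exact ⟨x, ag_refl x, h.symm⟩
          · exact ⟨y, fun j hj => hy.2 j hj, h.symm⟩) hk
      refine ⟨g, ?_, fun j hj => hgj j hj⟩
      refine ⟨co x i, co y i, hy.1, Or.inl ⟨hf, ?_⟩⟩
      show (g.1 i).1 = s(co x i, co y i)
      rw [hg]

theorem sbd_nocc (M : MS1 Γ S co N) (f : SPt S co) (i : ι) (h : sbN N S co f i) :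
    Oc Γ (sbN N S co) f i := by
  obtain ⟨x, hx⟩ := spt_cor f
  rw [spt_sOc M f hx]
  rcases (spt_sN M f hx i).1 h with hE | hN
  · exact ⟨spt_oc M f hx hE, fun k hk => D15_star M f hE hk⟩
  · exact ⟨M.nocc x i hN, fun k hk => D15_st (spt_oc M f hx hk i hN)⟩

theorem sbd_ntr (M : MS1 Γ S co N) (f g : SPt S co) (i k : ι)
    (h : VSt (sbS S) (sbco S co) i f g) (hk : k ≠ i) : sbN N S co g k ↔ sbN N S co f k := by
  obtain ⟨x, hx⟩ := spt_cor f
  obtain ⟨hadj, hgj⟩ := h
  have hc : ∃ a, a ∈ (f.1 i).1 ∧ a ∈ (g.1 i).1 := by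
    obtain ⟨a, b, _, h | h⟩ := sb_adj hadj
    · have hf' : (f.1 i).1 = s(a, a) := h.1
      have hg' : (g.1 i).1 = s(a, b) := h.2
      exact ⟨a, by rw [hf']; exact Sym2.mem_mk_left _ _, by rw [hg']; exact Sym2.mem_mk_left _ _⟩
    · have hg' : (g.1 i).1 = s(a, a) := h.1
      have hf' : (f.1 i).1 = s(a, b) := h.2
      exact ⟨a, by rw [hf']; exact Sym2.mem_mk_left _ _, by rw [hg']; exact Sym2.mem_mk_left _ _⟩
  obtain ⟨a, haf, hag⟩ := hc
  obtain ⟨y, hy, _, hya⟩ := spt_chg f hx haf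
  have hyg : Cor g y := by
    intro j
    by_cases hj : j = i
    · subst hj
      rw [hya]
      exact hag
    · have h1 : g.1 j = f.1 j := hgj j hj
      rw [h1]
      exact hy j
  rw [spt_sN M f hy, spt_sN M g hyg]
  have h1 : g.1 k = f.1 k := hgj k hk
  constructor
  · rintro (h | h)
    · exact Or.inl (D15_edg' h1.symm h)
    · exact Or.inr h
  · rintro (h | h)
    · exact Or.inl (D15_edg' h1 h)
    · exact Or.inr h

theorem sbd_loc (M : MS Γ S co N) (f : SPt S co) (i : ι) :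
    {g | VSt (sbS S) (sbco S co) i f g}.Finite := by
  obtain ⟨x, hx⟩ := spt_cor f
  have h1 : {c | c ∈ (f.1 i).1}.Finite := by
    obtain ⟨p, q, hpq, _⟩ := (f.1 i).2
    rw [hpq]
    refine (Set.toFinite {p, q}).subset fun c hc => ?_
    exact Sym2.mem_iff.1 hc
  have h2 := (h1.image fun c => s(c, c)).union ((M.loc x i).image fun y => s(co x i, co y i))
  refine Set.Finite.of_finite_image (f := fun g : SPt S co => (g.1 i).1) (h2.subset ?_) ?_
  · rintro _ ⟨g, ⟨hadj, hgj⟩, rfl⟩
    obtain ⟨a, b, hab, h | h⟩ := sb_adj hadj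
    · right
      have hf' : (f.1 i).1 = s(a, a) := h.1
      have hg' : (g.1 i).1 = s(a, b) := h.2
      have hxa : co x i = a := by
        have h3 := hx i
        rw [hf'] at h3
        exact D15_mem h3
      have hxg : Cor g x := by
        intro j
        by_cases hj : j = i
        · subst hj
          rw [hg', hxa]
          exact Sym2.mem_mk_left _ _
        · have h3 : g.1 j = f.1 j := hgj j hj
          rw [h3]
          exact hx j
      have hb : b ∈ (g.1 i).1 := by rw [hg']; exact Sym2.mem_mk_right _ _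
      obtain ⟨y, _, hag, hyb⟩ := spt_chg g hxg hb
      refine ⟨y, ⟨?_, fun j hj => hag j hj⟩, ?_⟩
      · rw [hxa, hyb]
        exact hab
      · show s(co x i, co y i) = (g.1 i).1
        rw [hg', hxa, hyb]
    · left
      have hg' : (g.1 i).1 = s(a, a) := h.1
      have hf' : (f.1 i).1 = s(a, b) := h.2
      refine ⟨a, ?_, hg'.symm⟩
      show a ∈ (f.1 i).1
      rw [hf']
      exact Sym2.mem_mk_left _ _
  · rintro g ⟨_, hg⟩ g' ⟨_, hg'⟩ hgg
    refine spt_ext fun j => ?_
    by_cases hj : j = i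
    · subst hj
      exact Subtype.ext hgg
    · have e1 : g.1 j = f.1 j := hg j hj
      have e2 : g'.1 j = f.1 j := hg' j hj
      rw [e1, e2]

theorem sbd_out (M : MS Γ S co N) (f : SPt S co) (i : ι) (hc : ¬ CL Γ i) (h : sbN N S co f i) :
    ∃ g, Ag (sbco S co) {i} f g ∧ ¬ sbN N S co g i := by
  obtain ⟨x, hx⟩ := spt_cor f
  have hk := ((spt_sOc M.b f hx i).1 (sbd_nocc M.b f i h)).2
  obtain ⟨y, hy, hyN⟩ : ∃ y, Ag co {i} x y ∧ ¬ N y i := by
    by_cases hN : N x i
    · exact M.out x i hc hN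
    · exact ⟨x, ag_refl x, hN⟩
  obtain ⟨g, hg, hgj, hc⟩ := D15_vert M.b f hx hy hk
  refine ⟨g, fun j hj => hgj j hj, fun hn => ?_⟩
  rcases (spt_sN M.b g hc i).1 hn with hE | hN
  · exact D15_edg hg hE
  · exact hyN hN

theorem sbd_inf (M : MS Γ S co N) (f : SPt S co) (i : ι) (h : Oc Γ (sbN N S co) f i) :
    {g | Ag (sbco S co) {i} f g}.Infinite := by
  classical
  obtain ⟨x, hx⟩ := spt_cor f
  obtain ⟨hO, hk⟩ := (spt_sOc M.b f hx i).1 h
  have key : ∀ y : Pt, ∃ g : SPt S co, Ag co {i} x y →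
      (g.1 i).1 = s(co y i, co y i) ∧ (∀ j, j ≠ i → g.1 j = f.1 j) := by
    intro y
    by_cases hy : Ag co {i} x y
    · obtain ⟨g, hg, hgj, _⟩ := D15_vert M.b f hx hy hk
      exact ⟨g, fun _ => ⟨hg, hgj⟩⟩
    · exact ⟨f, fun h => absurd h hy⟩
  choose G hG using key
  refine Set.infinite_of_injOn_mapsTo (f := G) (s := {y | Ag co {i} x y}) ?_ ?_ (M.inf x i hO)
  · intro y hy y' hy' hyy
    refine M.b.inj _ _ fun j => ?_
    by_cases hj : j = i
    · subst hj
      have e1 := (hG y hy).1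
      have e2 := (hG y' hy').1
      rw [hyy, e2] at e1
      have e3 : co y j ∈ s(co y' j, co y' j) := by
        rw [e1]
        exact Sym2.mem_mk_left _ _
      exact D15_mem e3
    · have e1 : co y j = co x j := hy j hj
      have e2 : co y' j = co x j := hy' j hj
      rw [e1, e2]
  · intro y hy j hj
    exact (hG y hy).2 j hj

end

end VTB
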