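import Pool.Agent.Lib.MP_32d917_al_vt.D13
import Pool.Agent.Lib.MP_32d917_al_vt.D14
import Pool.Agent.Lib.MP_32d917_al_vt.D15

/-!
# D16: the subdivision of a structure is a structure; transport of structures
-/

set_option autoImplicit false

namespace VTB

open LatIso LatN LatF RaagIso

section

variable {ι Pt : Type} [Fintype ι] {V : ι → Type} {Γ : SimpleGraph ι}
  {S : ∀ i, SimpleGraph (V i)} {co : Pt → ∀ i, V i} {N : Pt → ι → Prop}

theorem sbd_ms (M : MS Γ S co N) : MS Γ (sbS S) (sbco S co) (sbN N S co) where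
  b :=
    { tree := fun i => sb_tree (M.b.tree i)
      ne := ⟨(spt_vtx (S := S) (Classical.choice M.b.ne)).choose⟩
      inj := fun _ _ h => spt_ext h
      onto := sbd_onto M.b
      conn := sbd_conn M.b
      med := sbd_med M.b
      sq := sbd_sq M.b
      occ := sbd_occ M.b
      nocc := sbd_nocc M.b
      ntr := sbd_ntr M.b }
  loc := sbd_loc M
  cen := by
    intro f i hi
    obtain ⟨x, hx⟩ := spt_cor f
    exact Or.inr ⟨x, hx, M.cen x i hi⟩
  out := sbd_out M
  inf := sbd_inf M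

end

section

variable {ι Pt Pt' : Type} {V V' : ι → Type} {Γ : SimpleGraph ι}
  {S : ∀ i, SimpleGraph (V i)} {co : Pt → ∀ i, V i} {N : Pt → ι → Prop}
  {S' : ∀ i, SimpleGraph (V' i)} {co' : Pt' → ∀ i, V' i} {N' : Pt' → ι → Prop}

private theorem D16_adj (q : ∀ i, V i ≃ V' i)
    (hS : ∀ i a b, (S' i).Adj (q i a) (q i b) ↔ (S i).Adj a b) (i : ι) :
    Nonempty (S i ≃g S' i) :=
  ⟨⟨q i, fun {a b} => hS i a b⟩⟩

/-- distances are preserved by isomorphisms -/
theorem mtr_dist {W W' : Type} {T : SimpleGraph W} {T' : SimpleGraph W'} (e : T ≃g T') (a b : W) :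
    T'.dist (e a) (e b) = T.dist a b := by
  by_cases h : T.Reachable a b
  · obtain ⟨p, hp⟩ := h.exists_walk_length_eq_dist
    have h1 : T'.dist (e a) (e b) ≤ T.dist a b := by
      rw [← hp, ← SimpleGraph.Walk.length_map e.toHom p]
      exact SimpleGraph.dist_le _
    have h2 : T'.Reachable (e a) (e b) := h.map e.toHom
    obtain ⟨p', hp'⟩ := h2.exists_walk_length_eq_dist
    have h3 : T.dist a b ≤ T'.dist (e a) (e b) := by
      rw [← hp', ← SimpleGraph.Walk.length_map e.symm.toHom p']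
      have h4 := SimpleGraph.dist_le (p'.map e.symm.toHom)
      have h5 : T.dist (e.symm (e a)) (e.symm (e b)) = T.dist a b := by simp
      rw [← h5]
      exact h4
    omega
  · have h1 : ¬ T'.Reachable (e a) (e b) := by
      intro h2
      apply h
      have h3 := h2.map e.symm.toHom
      have h4 : T.Reachable (e.symm (e a)) (e.symm (e b)) := h3
      simpa using h4
    rw [SimpleGraph.dist_eq_zero_of_not_reachable h, SimpleGraph.dist_eq_zero_of_not_reachable h1]

/-- isomorphisms preserve leafless trees -/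
theorem leafless_tr {W W' : Type} {T : SimpleGraph W} {T' : SimpleGraph W'} (e : T ≃g T')
    (h : Leafless T) : Leafless T' := by
  constructor
  · intro v
    obtain ⟨x, y, h1, h2, h3⟩ := h.two (e.symm v)
    refine ⟨e x, e y, fun h4 => h1 (e.injective h4), ?_, ?_⟩
    · rw [← e.apply_symm_apply v]
      exact e.map_adj_iff.2 h2
    · rw [← e.apply_symm_apply v]
      exact e.map_adj_iff.2 h3
  · obtain ⟨v, x, y, z, h1, h2, h3, h4, h5, h6⟩ := h.three
    exact ⟨e v, e x, e y, e z, fun h => h1 (e.injective h), fun h => h2 (e.injective h),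
      fun h => h3 (e.injective h), e.map_adj_iff.2 h4, e.map_adj_iff.2 h5, e.map_adj_iff.2 h6⟩

/-- structures can be transported along bijections -/
theorem ms_tr (M : MS Γ S co N) (e : Pt ≃ Pt') (q : ∀ i, V i ≃ V' i)
    (hS : ∀ i a b, (S' i).Adj (q i a) (q i b) ↔ (S i).Adj a b)
    (hc : ∀ x i, co' (e x) i = q i (co x i)) (hN : ∀ x i, N' (e x) i ↔ N x i) :
    MS Γ S' co' N' := by
  have hst : ∀ i x y, VSt S' co' i (e x) (e y) ↔ VSt S co i x y := by
    intro i x y
    unfold VSt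
    rw [hc, hc, hS]
    refine and_congr_right fun _ => forall_congr' fun j => imp_congr_right fun _ => ?_
    rw [hc, hc, (q j).injective.eq_iff]
  have hag : ∀ J x y, Ag co' J (e x) (e y) ↔ Ag co J x y := by
    intro J x y
    unfold Ag
    refine forall_congr' fun j => imp_congr_right fun _ => ?_
    rw [hc, hc, (q j).injective.eq_iff]
  have hoc : ∀ x i, Oc Γ N' (e x) i ↔ Oc Γ N x i := by
    intro x i
    unfold Oc
    exact forall_congr' fun v => imp_congr (hN x v) Iff.rfl
  have hbt : ∀ i a b c, Bt (S' i) (q i a) (q i b) (q i c) ↔ Bt (S i) a b c := by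
    intro i a b c
    have e1 := fun a b => mtr_dist (T := S i) (T' := S' i) ⟨q i, fun {a b} => hS i a b⟩ a b
    have e2 : ∀ a b, (S' i).dist (q i a) (q i b) = (S i).dist a b := e1
    unfold Bt
    rw [e2, e2, e2]
  refine ⟨⟨?_, ?_, ?_, ?_, ?_, ?_, ?_, ?_, ?_, ?_⟩, ?_, ?_, ?_, ?_⟩
  · intro i
    obtain ⟨f⟩ := D16_adj q hS i
    exact f.isTree_iff.1 (M.b.tree i)
  · exact M.b.ne.map e
  · intro x y h
    obtain ⟨x, rfl⟩ := e.surjective x
    obtain ⟨y, rfl⟩ := e.surjective y
    refine congrArg e (M.b.inj x y fun i => (q i).injective ?_)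
    rw [← hc, ← hc]
    exact h i
  · intro i v
    obtain ⟨x, hx⟩ := M.b.onto i ((q i).symm v)
    exact ⟨e x, by rw [hc, hx, Equiv.apply_symm_apply]⟩
  · intro x y
    obtain ⟨x, rfl⟩ := e.surjective x
    obtain ⟨y, rfl⟩ := e.surjective y
    have h := M.b.conn x y
    induction h with
    | refl => exact Relation.ReflTransGen.refl
    | tail _ h ih =>
      obtain ⟨i, hi⟩ := h
      exact ih.tail ⟨i, (hst i _ _).2 hi⟩
  · intro x y z
    obtain ⟨x, rfl⟩ := e.surjective x
    obtain ⟨y, rfl⟩ := e.surjective y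
    obtain ⟨z, rfl⟩ := e.surjective z
    obtain ⟨m, hm⟩ := M.b.med x y z
    refine ⟨e m, fun i => ?_⟩
    rw [hc, hc, hc, hc, hbt, hbt, hbt]
    exact hm i
  · intro x y z i j hij h1 h2
    obtain ⟨x, rfl⟩ := e.surjective x
    obtain ⟨y, rfl⟩ := e.surjective y
    obtain ⟨z, rfl⟩ := e.surjective z
    rw [hst] at h1 h2
    rw [← M.b.sq x y z i j hij h1 h2]
    constructor
    · rintro ⟨w, h3, h4⟩
      obtain ⟨w, rfl⟩ := e.surjective w
      exact ⟨w, (hst _ _ _).1 h3, (hst _ _ _).1 h4⟩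
    · rintro ⟨w, h3, h4⟩
      exact ⟨e w, (hst _ _ _).2 h3, (hst _ _ _).2 h4⟩
  · intro x i
    obtain ⟨x, rfl⟩ := e.surjective x
    rw [hoc, ← M.b.occ]
    constructor
    · rintro ⟨w, h3⟩
      obtain ⟨w, rfl⟩ := e.surjective w
      exact ⟨w, (hst _ _ _).1 h3⟩
    · rintro ⟨w, h3⟩
      exact ⟨e w, (hst _ _ _).2 h3⟩
  · intro x i h
    obtain ⟨x, rfl⟩ := e.surjective x
    rw [hoc]
    exact M.b.nocc x i ((hN x i).1 h)
  · intro x y i k h hk
    obtain ⟨x, rfl⟩ := e.surjective x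
    obtain ⟨y, rfl⟩ := e.surjective y
    rw [hN, hN]
    exact M.b.ntr x y i k ((hst _ _ _).1 h) hk
  · intro x i
    obtain ⟨x, rfl⟩ := e.surjective x
    refine ((M.loc x i).image e).subset ?_
    intro y hy
    obtain ⟨y, rfl⟩ := e.surjective y
    exact ⟨y, (hst _ _ _).1 hy, rfl⟩
  · intro x i h
    obtain ⟨x, rfl⟩ := e.surjective x
    exact (hN x i).2 (M.cen x i h)
  · intro x i hi h
    obtain ⟨x, rfl⟩ := e.surjective x
    obtain ⟨y, h1, h2⟩ := M.out x i hi ((hN x i).1 h)
    exact ⟨e y, (hag _ _ _).2 h1, fun h3 => h2 ((hN y i).1 h3)⟩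
  · intro x i h
    obtain ⟨x, rfl⟩ := e.surjective x
    have h1 := M.inf x i ((hoc x i).1 h)
    refine (h1.image e.injective.injOn).mono ?_
    rintro _ ⟨y, hy, rfl⟩
    exact (hag _ _ _).2 hy

end

end VTB
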