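import Pool.Agent.Lib.MP_32d917_al_vt.D10
import Pool.Agent.Lib.MP_32d917_al_vt.D16

/-!
# D17: the subdivision of a forest is a structure

`ms_tr` (D16) applied to `sbd_ms` (D16) for the family `comp κ S`: the bijections `q i := sbE hk i` (D10), the graphs by `sbF_adj`, and `e : SPt (comp κ S) co ≃ FPt κ S co`, `f ↦ fun i => (sbF hk i (f.1 i)).1` (inverse by surjectivity of `sbF`; the condition on the corners: a choice
`a : ι → V` of elements of `(sbF hk i (f.1 i)).1.1 = (f.1 i).1.map Subtype.val` is the same as a choice of elements of `(f.1 i).1`). `fco (e f) i = sbF hk i (f.1 i)` by definition; `fN (e f) i ↔ sbN f i`: elements of the pairs correspond.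
-/

set_option autoImplicit false

namespace VTB

open LatIso LatN LatF RaagIso

section

variable {V ι Pt : Type} [Fintype ι] {Γ : SimpleGraph ι} {κ : V → ι} {S : SimpleGraph V}
  {co : Pt → ∀ i, Fib κ i} {N : Pt → ι → Prop}

private theorem sbf_mem (hk : ∀ x y, S.Adj x y → κ x = κ y) {i : ι} (z : SbV (comp κ S i))
    (c : Fib κ i) : c.1 ∈ (sbF hk i z).1.1 ↔ c ∈ z.1 := by
  rw [sbF_val, Sym2.mem_map]
  constructor
  · rintro ⟨b, hb, e⟩
    rw [← Subtype.ext e]
    exact hb
  · intro h
    exact ⟨c, h, rfl⟩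

private theorem sbf_mem2 (hk : ∀ x y, S.Adj x y → κ x = κ y) {i : ι} (z : SbV (comp κ S i))
    (a : V) (h : a ∈ (sbF hk i z).1.1) : ∃ c : Fib κ i, c.1 = a ∧ c ∈ z.1 := by
  rw [sbF_val, Sym2.mem_map] at h
  obtain ⟨b, hb, e⟩ := h
  exact ⟨b, e, hb⟩

/-- the forward map -/
private def fwd (hk : ∀ x y, S.Adj x y → κ x = κ y) (f : SPt (comp κ S) co) : FPt κ S co :=
  ⟨fun i => (sbF hk i (f.1 i)).1, fun i => (sbF hk i (f.1 i)).2, fun a ha => by
    choose c hc hc' using fun i => sbf_mem2 hk (f.1 i) (a i) (ha i)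
    obtain ⟨x, hx⟩ := f.2 c hc'
    exact ⟨x, fun i => by rw [hx i, hc i]⟩⟩

private theorem fwd_bij (hk : ∀ x y, S.Adj x y → κ x = κ y) :
    Function.Bijective (fwd (co := co) hk) := by
  constructor
  · intro f g h
    apply Subtype.ext
    funext i
    have h1 : (fwd hk f).1 i = (fwd hk g).1 i := by rw [h]
    exact sbF_inj hk i (Subtype.ext h1)
  · rintro ⟨g, hg1, hg2⟩
    have h1 : ∀ i, ∃ z : SbV (comp κ S i), sbF hk i z = ⟨g i, hg1 i⟩ := fun i => sbF_sur hk i _
    choose z hz using h1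
    have hz' : ∀ i, (sbF hk i (z i)).1 = g i := fun i => congrArg Subtype.val (hz i)
    refine ⟨⟨z, fun a ha => ?_⟩, ?_⟩
    · obtain ⟨x, hx⟩ := hg2 (fun i => (a i).1) (fun i => by
        rw [← hz' i]
        exact (sbf_mem hk (z i) (a i)).2 (ha i))
      exact ⟨x, fun i => Subtype.ext (hx i)⟩
    · apply Subtype.ext
      funext i
      exact hz' i

theorem fsb_ms (hk : ∀ x y, S.Adj x y → κ x = κ y) (M : MS Γ (comp κ S) co N) :
    MS Γ (comp (sbK κ S) (sbG S)) (fco κ S co) (fN N κ S co) := by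
  refine ms_tr (sbd_ms M) (Equiv.ofBijective _ (fwd_bij hk)) (fun i => sbE hk i) ?_ ?_ ?_
  · intro i a b
    exact sbF_adj hk i a b
  · intro x i
    rfl
  · intro f i
    have hcor : ∀ y, FCor (fwd hk f) y ↔ Cor f y := by
      intro y
      constructor
      · intro h j
        exact (sbf_mem hk (f.1 j) (co y j)).1 (h j)
      · intro h j
        exact (sbf_mem hk (f.1 j) (co y j)).2 (h j)
    have hedg : FEdg (fwd hk f) i ↔ Edg f i := by
      constructor
      · rintro ⟨a, b, hab, ha, hb⟩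
        obtain ⟨a', ha', ha''⟩ := sbf_mem2 hk (f.1 i) a ha
        obtain ⟨b', hb', hb''⟩ := sbf_mem2 hk (f.1 i) b hb
        exact ⟨a', b', fun e => hab (by rw [← ha', ← hb', e]), ha'', hb''⟩
      · rintro ⟨a, b, hab, ha, hb⟩
        exact ⟨a.1, b.1, fun e => hab (Subtype.ext e), (sbf_mem hk (f.1 i) a).2 ha,
          (sbf_mem hk (f.1 i) b).2 hb⟩
    show (FEdg (fwd hk f) i ∨ ∃ x, FCor (fwd hk f) x ∧ N x i) ↔ (Edg f i ∨ ∃ x, Cor f x ∧ N x i)
    rw [hedg]
    constructor
    · rintro (h | ⟨x, h, h'⟩)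
      · exact Or.inl h
      · exact Or.inr ⟨x, (hcor x).1 h, h'⟩
    · rintro (h | ⟨x, h, h'⟩)
      · exact Or.inl h
      · exact Or.inr ⟨x, (hcor x).2 h, h'⟩

/-- corners exist -/
theorem fsb_cor (f : FPt κ S co) : ∃ x, FCor f x := by
  choose a ha using fun i => sbK_mem (f.1 i)
  obtain ⟨x, hx⟩ := f.2.2 a ha
  exact ⟨x, fun i => by rw [hx i]; exact ha i⟩

/-- a cube has finitely many corners -/
theorem fsb_corfin (M : MS Γ (comp κ S) co N) (f : FPt κ S co) : {x | FCor f x}.Finite := by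
  have hfin : ∀ i, {a : V | a ∈ (f.1 i).1}.Finite := by
    intro i
    obtain ⟨a, b, h, -⟩ := (f.1 i).2
    refine (Set.toFinite ({a, b} : Set V)).subset ?_
    intro c hc
    have hc' : c ∈ (f.1 i).1 := hc
    rw [h, Sym2.mem_iff] at hc'
    exact hc'
  refine Set.Finite.of_finite_image (f := fun x (i : ι) => (co x i).1) ?_ ?_
  · refine (Set.Finite.pi' hfin).subset ?_
    rintro _ ⟨x, hx, rfl⟩ i
    exact hx i
  · intro x _ y _ h
    exact M.b.inj x y fun i => Subtype.ext (congrFun h i)

/-- a point is a corner of finitely many cubes: `f i` is `s(a, a)` or `s(a, (co y i).1)` with `a = (co x i).1` and a step `x y` of direction `i` (the corner of the cube which differs from `x` in the coordinate `i`); `loc`, `ι` finite -/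
theorem fsb_cubefin (M : MS Γ (comp κ S) co N) (x : Pt) : {f : FPt κ S co | FCor f x}.Finite := by
  classical
  let B : ι → Set V := fun i =>
    insert (co x i).1 ((fun y => (co y i).1) '' {y | VSt (comp κ S) co i x y})
  have hB : ∀ i, (B i).Finite := fun i => ((M.loc x i).image _).insert _
  let T : ι → Set (SbV S) := fun i => {z | ∃ b ∈ B i, z.1 = s((co x i).1, b)}
  have hT : ∀ i, (T i).Finite := by
    intro i
    refine Set.Finite.of_finite_image (f := fun z : SbV S => z.1) ?_ ?_
    · refine ((hB i).image (fun b => s((co x i).1, b))).subset ?_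
      rintro _ ⟨z, ⟨b, hb, hz⟩, rfl⟩
      exact ⟨b, hb, hz.symm⟩
    · intro z _ w _ h
      exact Subtype.ext h
  refine Set.Finite.of_finite_image (f := fun g : FPt κ S co => g.1) ?_ ?_
  · refine (Set.Finite.pi' hT).subset ?_
    rintro _ ⟨g, hg, rfl⟩ i
    have hg' : FCor g x := hg
    obtain ⟨b, hb⟩ := Sym2.mem_iff_exists.1 (hg' i)
    refine ⟨b, ?_, hb⟩
    by_cases hbx : b = (co x i).1
    · exact Or.inl hbx
    right
    obtain ⟨y, hy⟩ := g.2.2 (fun j => if j = i then b else (co x j).1) (by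
      intro j
      by_cases hj : j = i
      · subst hj
        rw [if_pos rfl, hb]
        exact Sym2.mem_mk_right _ _
      · rw [if_neg hj]
        exact hg' j)
    have hyi : (co y i).1 = b := by
      have := hy i
      rwa [if_pos rfl] at this
    refine ⟨y, ⟨?_, ?_⟩, hyi⟩
    · show S.Adj (co x i).1 (co y i).1
      rw [hyi]
      obtain ⟨c, d, hcd, hcd'⟩ := (g.1 i).2
      rw [hb, Sym2.eq_iff] at hcd
      rcases hcd with ⟨e1, e2⟩ | ⟨e1, e2⟩
      · rcases hcd' with hcd' | hcd'
        · exact absurd (by rw [e1, e2, hcd']) hbx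
        · rw [e1, e2]
          exact hcd'
      · rcases hcd' with hcd' | hcd'
        · exact absurd (by rw [e1, e2, hcd']) hbx
        · rw [e1, e2]
          exact hcd'.symm
    · intro j hj
      have := hy j
      rw [if_neg hj] at this
      exact Subtype.ext this
  · intro g _ h _ e
    exact Subtype.ext e

end

end VTB
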