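import Pool.Agent.Lib.MP_32d917_al_vt.D17

/-!
# D18: the subdivision of an action

`sbd_lat`: `Pt' := FPt κ S co` with the action `fptAct L.pre` (D10), `V' := SbV S` with `sbAct L.pre.act.adj`, `κ' := sbK κ S`, `S' := sbG S`, `co' := fco`, `N' := fN`. `kapS`: `sbK_kap`. `act.kap`: `sbK_eq` for an element and its image. `act.adj`: as in `sb_ta` (SUBD.lean). `gam`: `L.pre.gam`.
`gco`: `(g • f).1 (g • i) = g • f.1 (g⁻¹ • g • i)`. `gn`: `fpt_mem_smul`: corners of `g • f` are the `g • x`, `x` a corner of `f` (`fpt_gco`), edges likewise; `L.pre.gn`. `noinv`: as in `sb_ta` (`g` maps pairs `s(a, a)` to such pairs). `gg`: `L.gg`.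
`prop`: let `x` be a corner of `f` (`fsb_cor`); `g • f = f` implies that `g • x` is a corner of `f`; the corners are finitely many (`fsb_corfin`), and for every corner `y` the set `{g | g • x = y}` is empty or a coset of the finite stabilizer of `x` (`L.prop`).
`fin`: `F' := {f | f has a corner in F}` is finite (`fsb_cubefin`); for a cube `f` with corner `x` and `g • x ∈ F`, `g • x` is a corner of `g • f`.
-/

set_option autoImplicit false

namespace VTB

open LatIso LatN LatF RaagIso

section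

variable {G : Type} [Group G] {V ι Pt : Type} [Fintype ι] [MulAction G Pt] [MulAction G V]
  [MulAction G ι] {Γ : SimpleGraph ι} {κ : V → ι} {S : SimpleGraph V} {co : Pt → ∀ i, Fib κ i}
  {N : Pt → ι → Prop}

private theorem D18_cor (P : VPre G Γ κ S co N) (g : G) {f : FPt κ S co} {x : Pt}
    (h : FCor f x) : FCor ((fptAct P).smul g f) (g • x) := by
  intro i
  have h1 := fpt_mem_smul P g f (g⁻¹ • i) (co (g • x) i).1
  rw [smul_inv_smul] at h1
  refine h1.2 ?_
  rw [fpt_gco P, inv_smul_smul]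
  exact h _

private theorem D18_cos (h : ∀ x : Pt, {g : G | g • x = x}.Finite) (x y : Pt) :
    {g : G | g • x = y}.Finite := by
  rcases Set.eq_empty_or_nonempty {g : G | g • x = y} with he | ⟨k, hk⟩
  · rw [he]
    exact Set.finite_empty
  · refine ((h x).image fun g => k * g).subset ?_
    intro g hg
    refine ⟨k⁻¹ * g, ?_, ?_⟩
    · show (k⁻¹ * g) • x = x
      rw [mul_smul, show g • x = y from hg, ← show k • x = y from hk, inv_smul_smul]
    · show k * (k⁻¹ * g) = g
      rw [mul_inv_cancel_left]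

/-- actions with inversions can be subdivided -/
theorem sbd_lat (L : VLat0 G Γ κ S co N) (hC : CLeaf Γ (comp κ S)) :
    ∃ (Pt' V' : Type) (_ : MulAction G Pt') (_ : MulAction G V') (κ' : V' → ι)
      (S' : SimpleGraph V') (co' : Pt' → ∀ i, Fib κ' i) (N' : Pt' → ι → Prop),
      VLat G Γ κ' S' co' N' ∧ CLeaf Γ (comp κ' S') := by
  classical
  letI A1 := sbAct (S := S) L.pre.act.adj
  letI A2 := fptAct L.pre
  have hms := fsb_ms L.pre.kapS L.ms
  have hcor : ∀ (g : G) (f : FPt κ S co) (x : Pt), FCor f x → FCor (g • f) (g • x) :=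
    fun g f x h => D18_cor L.pre g h
  have hmem : ∀ (g : G) (f : FPt κ S co) (i : ι) (a : V),
      a ∈ ((g • f).1 (g • i)).1 ↔ g⁻¹ • a ∈ (f.1 i).1 :=
    fun g f i a => fpt_mem_smul L.pre g f i a
  have hadj : ∀ (g : G) (x y : SbV S), (sbG S).Adj x y → (sbG S).Adj (g • x) (g • y) := by
    rintro g x y ⟨a, b, hab, h⟩
    refine ⟨g • a, g • b, L.pre.act.adj g a b hab, ?_⟩
    rcases h with ⟨e1, e2⟩ | ⟨e1, e2⟩
    · left
      refine ⟨?_, ?_⟩
      · show x.1.map _ = _
        rw [e1]; rfl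
      · show y.1.map _ = _
        rw [e2]; rfl
    · right
      refine ⟨?_, ?_⟩
      · show y.1.map _ = _
        rw [e1]; rfl
      · show x.1.map _ = _
        rw [e2]; rfl
  have hkap : ∀ (g : G) (x : SbV S), sbK κ S (g • x) = g • sbK κ S x := by
    intro g x
    obtain ⟨a, ha⟩ := sbK_mem x
    have h1 : g • a ∈ (g • x).1 := Sym2.mem_map.2 ⟨a, ha, rfl⟩
    rw [sbK_eq L.pre.kapS h1, L.pre.act.kap, ← sbK_eq L.pre.kapS ha]
  have hedg : ∀ (g : G) (f : FPt κ S co) (i : ι), FEdg (g • f) (g • i) ↔ FEdg f i := by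
    intro g f i
    constructor
    · rintro ⟨a, b, hab, ha, hb⟩
      exact ⟨g⁻¹ • a, g⁻¹ • b, fun h => hab (smul_left_cancel _ h), (hmem g f i a).1 ha,
        (hmem g f i b).1 hb⟩
    · rintro ⟨a, b, hab, ha, hb⟩
      exact ⟨g • a, g • b, fun h => hab (smul_left_cancel _ h),
        (hmem g f i _).2 (by rw [inv_smul_smul]; exact ha),
        (hmem g f i _).2 (by rw [inv_smul_smul]; exact hb)⟩
  have hgn : ∀ (g : G) (f : FPt κ S co) (i : ι),
      fN N κ S co (g • f) (g • i) ↔ fN N κ S co f i := by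
    intro g f i
    refine or_congr (hedg g f i) ?_
    constructor
    · rintro ⟨x, hx, hN⟩
      refine ⟨g⁻¹ • x, ?_, ?_⟩
      · have h1 := hcor g⁻¹ _ _ hx
        rwa [inv_smul_smul] at h1
      · have h1 := (L.pre.gn g⁻¹ x (g • i)).2 hN
        rwa [inv_smul_smul] at h1
    · rintro ⟨x, hx, hN⟩
      exact ⟨g • x, hcor g _ _ hx, (L.pre.gn g x i).2 hN⟩
  have hno : ∀ (g : G) (x y : SbV S), (sbG S).Adj x y → g • x = y → g • y ≠ x := by
    rintro g x y ⟨a, b, hab, h⟩ h1 h2
    have key : ∀ k : G, Sym2.map (fun v => k • v) s(a, a) ≠ s(a, b) := by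
      intro k hk
      have h3 : s(k • a, k • a) = s(a, b) := hk
      rw [Sym2.eq_iff] at h3
      rcases h3 with h3 | h3
      · exact hab.ne (h3.1.symm.trans h3.2)
      · exact hab.ne (h3.2.symm.trans h3.1)
    rcases h with ⟨e1, e2⟩ | ⟨e1, e2⟩
    · apply key g
      rw [← e1, ← e2, ← h1]
      rfl
    · apply key g
      rw [← e1, ← e2, ← h2]
      rfl
  have hprop : ∀ f : FPt κ S co, {g : G | g • f = f}.Finite := by
    intro f
    obtain ⟨x, hx⟩ := fsb_cor f
    refine (Set.Finite.biUnion (fsb_corfin L.ms f) fun y _ => D18_cos L.prop x y).subset ?_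
    intro g hg
    refine Set.mem_iUnion₂.2 ⟨g • x, ?_, rfl⟩
    have h1 := hcor g f x hx
    rw [show g • f = f from hg] at h1
    exact h1
  have hfin : ∃ F : Finset (FPt κ S co), ∀ f : FPt κ S co, ∃ g : G, g • f ∈ F := by
    obtain ⟨F, hF⟩ := L.fin
    have hQ := Set.Finite.biUnion F.finite_toSet fun x _ => fsb_cubefin L.ms x
    refine ⟨hQ.toFinset, fun f => ?_⟩
    obtain ⟨x, hx⟩ := fsb_cor f
    obtain ⟨g, hg⟩ := hF x
    refine ⟨g, ?_⟩
    rw [Set.Finite.mem_toFinset]
    exact Set.mem_iUnion₂.2 ⟨g • x, hg, hcor g f x hx⟩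
  refine ⟨FPt κ S co, SbV S, A2, A1, sbK κ S, sbG S, fco κ S co, fN N κ S co, ?_, fun i hi =>
    leafless_tr ⟨sbE L.pre.kapS i, fun {a b} => sbF_adj L.pre.kapS i a b⟩
      ⟨sb_two (hC i hi).two, sb_three (hC i hi).three⟩⟩
  exact
    { pre :=
        { ms := hms.b
          kapS := sbK_kap L.pre.kapS
          act := ⟨hkap, hadj⟩
          gam := L.pre.gam
          gco := fun g f i => by
            show g • f.1 (g⁻¹ • g • i) = g • f.1 i
            rw [inv_smul_smul]
          gn := hgn }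
      ms := hms
      gg := L.gg
      noinv := hno
      prop := hprop
      fin := hfin }

end

end VTB
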