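import Pool.Agent.Lib.MP_32d917_al_vt.VE
import Pool.Agent.Lib.MP_32d917_al_vt.A06

/-!
# E01: the subgroup fixing all labels

`ker2`: `H` = intersection of the kernels of the permutation actions on `ι` and `ι'` (`MulAction.toPermHom`), of finite index as `ι`, `ι'` are finite; the kernel is normal.
`vlat_hlat`: the action of `H` on the fibres is `fibActK` (`((h • v) : V) = (h : G) • (v : V)` by rfl). `ms`, `gg` from `L`; `ta`: tree from `L.ms.b.tree`, adj from `L.pre.act.adj`, noinv from `L.noinv`; `hco`: `L.pre.gco` with `h • i = i`; `hn`: `L.pre.gn`; `prop`: injects into the stabilizer in `G`; `fin`: `F` as in `L.fin`,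
`g_1, ..., g_m` representatives of the cosets (`H.FiniteIndex`): for `x` some `g • x ∈ F`; `g⁻¹ = h * g_j` with `h ∈ H`: `h⁻¹ • x = g_j • (g • x)`. (Compare F/FPLAT.lean.)
-/

set_option autoImplicit false

namespace VTB

open LatIso LatN LatF RaagIso

theorem ker2 (G ι ι' : Type) [Group G] [Finite ι] [Finite ι'] [MulAction G ι] [MulAction G ι'] :
    ∃ H : Subgroup G, (∀ g ∈ H, ∀ i : ι, g • i = i) ∧ (∀ g ∈ H, ∀ i : ι', g • i = i) ∧
      H.FiniteIndex ∧ H.Normal := by
  classical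
  have : Finite (Equiv.Perm ι) := inferInstance
  have : Finite (Equiv.Perm ι') := inferInstance
  have h1 : (MulAction.toPermHom G ι).ker.FiniteIndex := Subgroup.finiteIndex_ker _
  have h2 : (MulAction.toPermHom G ι').ker.FiniteIndex := Subgroup.finiteIndex_ker _
  refine ⟨(MulAction.toPermHom G ι).ker ⊓ (MulAction.toPermHom G ι').ker, ?_, ?_, ?_, ?_⟩
  · intro g hg i
    have h3 := MonoidHom.mem_ker.1 (Subgroup.mem_inf.1 hg).1
    exact congrArg (fun f : Equiv.Perm ι => f i) h3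
  · intro g hg i
    have h3 := MonoidHom.mem_ker.1 (Subgroup.mem_inf.1 hg).2
    exact congrArg (fun f : Equiv.Perm ι' => f i) h3
  · infer_instance
  · infer_instance

section

variable {G : Type} [Group G] {ι Pt V : Type} [Fintype ι] [MulAction G Pt] [MulAction G V]
  [MulAction G ι] {Γ : SimpleGraph ι} {κ : V → ι} {S : SimpleGraph V}
  {co : Pt → ∀ i, Fib κ i} {N : Pt → ι → Prop}

theorem vlat_hlat [Fact (KEq G κ)] (L : VLat G Γ κ S co N) (hC : CLeaf Γ (comp κ S))
    (H : Subgroup G) [Fact (∀ g ∈ H, ∀ i : ι, g • i = i)] (hH : H.FiniteIndex) :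
    HLat H Γ (comp κ S) co N := by
  classical
  have hfix : ∀ g ∈ H, ∀ i : ι, g • i = i := Fact.out
  refine ⟨L.ms, L.gg, hC, ?_, ?_, ?_, ?_, ?_⟩
  · intro i
    exact {
      tree := L.ms.b.tree i
      adj := fun g x y h => L.pre.act.adj (g : G) x.1 y.1 h
      noinv := fun g x y h h1 h2 =>
        L.noinv (g : G) x.1 y.1 h (congrArg Subtype.val h1) (congrArg Subtype.val h2) }
  · intro h x i
    apply Subtype.ext
    have h1 := L.pre.gco (h : G) x i
    rw [hfix h h.2 i] at h1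
    exact h1
  · intro h x i
    have h1 := L.pre.gn (h : G) x i
    rw [hfix h h.2 i] at h1
    exact h1
  · intro x
    exact ((L.prop x).preimage (f := fun g : H => (g : G)) Subtype.val_injective.injOn).subset
      (fun _ hg => hg)
  · obtain ⟨F, hF⟩ := L.fin
    have := hH
    have : Finite (G ⧸ H) := Subgroup.finite_quotient_of_finiteIndex
    haveI : Fintype (G ⧸ H) := Fintype.ofFinite _
    refine ⟨((Finset.univ : Finset (G ⧸ H)) ×ˢ F).image
      fun qy => (Quotient.out qy.1)⁻¹ • qy.2, fun x => ?_⟩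
    obtain ⟨g, hg⟩ := hF x
    set r : G := Quotient.out (g : G ⧸ H) with hr
    have hrg : r⁻¹ * g ∈ H := by
      rw [← QuotientGroup.eq]
      exact QuotientGroup.out_eq' _
    refine ⟨⟨r⁻¹ * g, hrg⟩, Finset.mem_image.2 ⟨((g : G ⧸ H), g • x),
      Finset.mem_product.2 ⟨Finset.mem_univ _, hg⟩, ?_⟩⟩
    show r⁻¹ • g • x = (r⁻¹ * g) • x
    rw [mul_smul]

/-- every vertex is in a region -/
theorem vlat_qq (L : VLat G Γ κ S co N) {x : Pt} {i : ι} (h : Oc Γ N x i) :
    ∃ q : QQ Γ co N, q.1.1.1 = rg Γ co x i ∧ q.1.2 = (co x i).1 :=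
  ⟨mkq ⟨rg Γ co x i, rg_isReg h⟩ (co x i) ⟨x, fun _ _ => rfl, rfl⟩, rfl, rfl⟩

end

end VTB
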