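import Pool.Agent.Lib.MP_32d917_al.FDefs
import Pool.Agent.Lib.MP_32d917_al_raag.RDefs

/-!
# Median complexes whose panels are trees, labelled by a graph: definitions

`Γ` is a finite graph (the labels); `V i` is the set of vertices of a tree `S i`, for every label `i`;
`Pt` is the set of points (the vertices of a CAT(0) cube complex), `co x i : V i` is the coordinate
of the point `x` in the tree `S i`; `N x i`: the label `i` is internal at `x`. A label occurs at `x`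
iff it is in the star of all internal labels at `x`.
-/

set_option autoImplicit false

namespace VTB

open LatIso LatN LatF

/-- the label `i` is central: it is adjacent to all other labels -/
def CL {ι : Type} (Γ : SimpleGraph ι) (i : ι) : Prop := ∀ j, j ∈ RaagIso.st Γ i

/-- the conditions on the graph of labels: only central labels dominate other labels, no star
separates -/
structure GG {ι : Type} (Γ : SimpleGraph ι) : Prop where
  dom : ∀ v w, v ≠ w → ¬ CL Γ w → ∃ u, Γ.Adj v u ∧ u ∉ RaagIso.st Γ w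
  sep : RaagIso.NoSep Γ
  ne : Nonempty ι

/-- the trees of the central labels are leafless and not a line -/
def CLeaf {ι : Type} {V : ι → Type} (Γ : SimpleGraph ι) (S : ∀ i, SimpleGraph (V i)) : Prop :=
  ∀ i, CL Γ i → Leafless (S i)

section fam

variable {ι Pt : Type} {V : ι → Type}

/-- `y` is obtained from `x` by one step in the tree `S i` -/
def VSt (S : ∀ i, SimpleGraph (V i)) (co : Pt → ∀ i, V i) (i : ι) (x y : Pt) : Prop :=
  (S i).Adj (co x i) (co y i) ∧ ∀ j, j ≠ i → co y j = co x j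

/-- the label `i` occurs at `x` -/
def Oc (Γ : SimpleGraph ι) (N : Pt → ι → Prop) (x : Pt) (i : ι) : Prop :=
  ∀ v, N x v → i ∈ RaagIso.st Γ v

/-- the points `x`, `y` agree outside `J` -/
def Ag (co : Pt → ∀ i, V i) (J : Set ι) (x y : Pt) : Prop := ∀ j, j ∉ J → co y j = co x j

/-- `m` is the median of `x`, `y`, `z` -/
def Med (S : ∀ i, SimpleGraph (V i)) (co : Pt → ∀ i, V i) (x y z m : Pt) : Prop :=
  ∀ i, Bt (S i) (co x i) (co m i) (co y i) ∧ Bt (S i) (co y i) (co m i) (co z i) ∧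
    Bt (S i) (co x i) (co m i) (co z i)

/-- labelled median complexes embedded in products of trees -/
structure MS1 (Γ : SimpleGraph ι) (S : ∀ i, SimpleGraph (V i)) (co : Pt → ∀ i, V i)
    (N : Pt → ι → Prop) : Prop where
  tree : ∀ i, (S i).IsTree
  ne : Nonempty Pt
  inj : ∀ x y, (∀ i, co x i = co y i) → x = y
  onto : ∀ i (v : V i), ∃ x, co x i = v
  conn : ∀ x y, Relation.ReflTransGen (fun a b => ∃ i, VSt S co i a b) x y
  med : ∀ x y z, ∃ m, Med S co x y z m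
  sq : ∀ x y z i j, i ≠ j → VSt S co i x y → VSt S co j x z →
    ((∃ w, VSt S co j y w ∧ VSt S co i z w) ↔ Γ.Adj i j)
  occ : ∀ x i, (∃ y, VSt S co i x y) ↔ Oc Γ N x i
  nocc : ∀ x i, N x i → Oc Γ N x i
  ntr : ∀ x y i k, VSt S co i x y → k ≠ i → (N y k ↔ N x k)

/-- the structures of this project: moreover the panels are locally finite and infinite; central
labels are internal everywhere; the panels of the other labels contain vertices which are not
internal -/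
structure MS (Γ : SimpleGraph ι) (S : ∀ i, SimpleGraph (V i)) (co : Pt → ∀ i, V i)
    (N : Pt → ι → Prop) : Prop where
  b : MS1 Γ S co N
  loc : ∀ x i, {y | VSt S co i x y}.Finite
  cen : ∀ x i, CL Γ i → N x i
  out : ∀ x i, ¬ CL Γ i → N x i → ∃ y, Ag co {i} x y ∧ ¬ N y i
  inf : ∀ x i, Oc Γ N x i → {y | Ag co {i} x y}.Infinite

/-- The group `H` acts properly, with finitely many orbits, without inversions, preserving the
labels. -/
structure HLat (H : Type) [Group H] [MulAction H Pt] [∀ i, MulAction H (V i)]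
    (Γ : SimpleGraph ι) (S : ∀ i, SimpleGraph (V i)) (co : Pt → ∀ i, V i) (N : Pt → ι → Prop) :
    Prop where
  ms : MS Γ S co N
  gg : GG Γ
  leaf : CLeaf Γ S
  ta : ∀ i, TA H (S i)
  hco : ∀ (h : H) x i, co (h • x) i = h • co x i
  hn : ∀ (h : H) x i, N (h • x) i ↔ N x i
  prop : ∀ x : Pt, {h : H | h • x = x}.Finite
  fin : ∃ F : Finset Pt, ∀ x : Pt, ∃ h : H, h • x ∈ F

/-- the stabilizer of the set of all points which agree with `x` outside `J` -/
def stJ (H : Type) [Group H] [∀ i, MulAction H (V i)] (co : Pt → ∀ i, V i) (x : Pt) (J : Set ι) :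
    Subgroup H where
  carrier := {g | ∀ j, j ∉ J → g • co x j = co x j}
  mul_mem' := by
    intro a b ha hb j hj
    rw [mul_smul, hb j hj, ha j hj]
  one_mem' := fun j _ => one_smul _ _
  inv_mem' := by
    intro a ha j hj
    rw [inv_smul_eq_iff, ha j hj]

/-- every element of `A` has a power in `B` -/
def PowLe {H : Type} [Group H] (A B : Subgroup H) : Prop := ∀ a ∈ A, ∃ n : ℕ, 0 < n ∧ a ^ n ∈ B

/-- `A` contains two elements which are hyperbolic on `U` and whose axes have finite intersection -/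
def Gen {H : Type} [Group H] {W : Type} [MulAction H W] (A : Subgroup H) (U : SimpleGraph W) :
    Prop :=
  ∃ a ∈ A, ∃ b ∈ A, 0 < tl U a ∧ 0 < tl U b ∧ (CC U a ∩ CC U b).Finite

/-! ### Regions -/

/-- a region: a label `i` and a maximal set of points which agree outside the star of `i`, such
that `i` occurs at these points -/
def IsReg (Γ : SimpleGraph ι) (co : Pt → ∀ i, V i) (N : Pt → ι → Prop) (r : ι × Set Pt) : Prop :=
  ∃ x, Oc Γ N x r.1 ∧ r.2 = {y | Ag co (RaagIso.st Γ r.1) x y}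

/-- the region of the label `i` at the point `x` -/
def rg (Γ : SimpleGraph ι) (co : Pt → ∀ i, V i) (x : Pt) (i : ι) : ι × Set Pt :=
  (i, {y | Ag co (RaagIso.st Γ i) x y})

/-- the type of regions -/
abbrev Rg (Γ : SimpleGraph ι) (co : Pt → ∀ i, V i) (N : Pt → ι → Prop) : Type :=
  {r : ι × Set Pt // IsReg Γ co N r}

/-- adjacent regions -/
def RAdj (Γ : SimpleGraph ι) (r s : ι × Set Pt) : Prop := Γ.Adj r.1 s.1 ∧ (r.2 ∩ s.2).Nonempty

/-- the star of a region in the graph of regions -/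
def RSt (Γ : SimpleGraph ι) (r s : ι × Set Pt) : Prop := r = s ∨ RAdj Γ r s

/-- `p` is a vertex of the tree of the region `r` -/
def VR (co : Pt → ∀ i, V i) (r : ι × Set Pt) (p : V r.1) : Prop := ∃ x ∈ r.2, co x r.1 = p

/-- `p` is the projection of the point `x` to the tree of the region `r` -/
def Prj (S : ∀ i, SimpleGraph (V i)) (co : Pt → ∀ i, V i) (r : ι × Set Pt) (x : Pt) (p : V r.1) :
    Prop :=
  VR co r p ∧ ∀ q, VR co r q → Bt (S r.1) (co x r.1) p q

/-- the vertex `p` of the tree of the region `r` is internal -/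
def RInt (co : Pt → ∀ i, V i) (N : Pt → ι → Prop) (r : ι × Set Pt) (p : V r.1) : Prop :=
  ∃ x ∈ r.2, co x r.1 = p ∧ N x r.1

end fam

/-! ### Actions which may permute the labels -/

section glob

variable {ι Pt V : Type}

/-- the part of an action which is determined by valid data -/
structure VPre (G : Type) [Group G] [MulAction G Pt] [MulAction G V] [MulAction G ι]
    (Γ : SimpleGraph ι) (κ : V → ι) (S : SimpleGraph V) (co : Pt → ∀ i, Fib κ i)
    (N : Pt → ι → Prop) : Prop where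
  ms : MS1 Γ (comp κ S) co N
  kapS : ∀ x y, S.Adj x y → κ x = κ y
  act : FAct G κ S
  gam : ∀ (g : G) i j, Γ.Adj (g • i) (g • j) ↔ Γ.Adj i j
  gco : ∀ (g : G) x i, (co (g • x) (g • i)).1 = g • (co x i).1
  gn : ∀ (g : G) x i, N (g • x) (g • i) ↔ N x i

/-- The group `G` acts properly, with finitely many orbits, without inversions; it may permute the
labels. -/
structure VLat (G : Type) [Group G] [MulAction G Pt] [MulAction G V] [MulAction G ι]
    (Γ : SimpleGraph ι) (κ : V → ι) (S : SimpleGraph V) (co : Pt → ∀ i, Fib κ i)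
    (N : Pt → ι → Prop) : Prop where
  pre : VPre G Γ κ S co N
  ms : MS Γ (comp κ S) co N
  gg : GG Γ
  noinv : ∀ (g : G) x y, S.Adj x y → g • x = y → g • y ≠ x
  prop : ∀ x : Pt, {g : G | g • x = x}.Finite
  fin : ∃ F : Finset Pt, ∀ x : Pt, ∃ g : G, g • x ∈ F

/-- reduced structures: an edge at an internal vertex `p` whose stabilizer is the stabilizer of `p`
is a loop in the quotient -/
def VRed (G : Type) [Group G] [MulAction G V] (κ : V → ι) (S : SimpleGraph V)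
    (co : Pt → ∀ i, Fib κ i) (N : Pt → ι → Prop) : Prop :=
  ∀ x i y, N x i → VSt (comp κ S) co i x y → StabLe G (co x i).1 (co y i).1 →
    ∃ g : G, g • (co x i).1 = (co y i).1

/-- `S'` is obtained from `S` by sliding the edge `v x` over the edge `v u` -/
def SlideAt (G : Type) [Group G] [MulAction G V] (S S' : SimpleGraph V) (v x u : V) : Prop :=
  (∀ g : G, ¬ (g • v = v ∧ g • x = u)) ∧ (∀ g : G, ¬ (g • v = u ∧ g • x = v)) ∧
    (∀ g : G, g • v = v → g • x = x → g • u = u) ∧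
    ∀ a b : V, S'.Adj a b ↔
      (S.Adj a b ∧ ∀ g : G, ¬ (g • v = a ∧ g • x = b) ∧ ¬ (g • v = b ∧ g • x = a)) ∨
      ∃ g : G, (g • u = a ∧ g • x = b) ∨ (g • u = b ∧ g • x = a)

/-- slides inside a region -/
def VSl (G : Type) [Group G] [MulAction G V] (κ : V → ι) (co : Pt → ∀ i, Fib κ i)
    (S S' : SimpleGraph V) : Prop :=
  ∃ (i : ι) (x y z : Pt), VSt (comp κ S) co i x y ∧ VSt (comp κ S) co i x z ∧
    SlideAt G S S' (co x i).1 (co y i).1 (co z i).1

/-- adjacent points -/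
def UAdj {ι : Type} {V : ι → Type} (S : ∀ i, SimpleGraph (V i)) (co : Pt → ∀ i, V i) (x y : Pt) :
    Prop := ∃ i, VSt S co i x y

end glob

/-! ### Data -/

/-- the axioms of data with labels in the graph `Γ` -/
structure VV0 {ι P A : Type} (Γ : SimpleGraph ι) (N : P → ι → Prop) (X : FD ι P A) : Prop where
  oe : ∀ p, X.o (X.e p) = p
  te : ∀ p, X.t (X.e p) = p
  me : ∀ p, ¬ X.mv (X.e p)
  pe : ∀ p k, X.pm (X.e p) k = k
  oi : ∀ a, X.o (X.i a) = X.t a
  ti : ∀ a, X.t (X.i a) = X.o a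
  ii : ∀ a, X.i (X.i a) = a
  mi : ∀ a, X.mv (X.i a) ↔ X.mv a
  tyi : ∀ a, X.mv a → X.ty (X.i a) = X.pm a (X.ty a)
  pi : ∀ a k, X.pm (X.i a) (X.pm a k) = k
  mlo : ∀ s a, X.lc s a → X.o (X.ml s a) = X.o s
  mlt : ∀ s a, X.lc s a → X.t (X.ml s a) = X.t a
  mlm : ∀ s a, X.lc s a → (X.mv (X.ml s a) ↔ X.mv a)
  mly : ∀ s a, X.lc s a → X.mv a → X.pm s (X.ty (X.ml s a)) = X.ty a
  mlp : ∀ s a k, X.lc s a → X.pm (X.ml s a) k = X.pm a (X.pm s k)
  mle : ∀ a, X.ml (X.e (X.o a)) a = a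
  mla : ∀ s s' a, X.lc s s' → X.lc s' a → X.ml s (X.ml s' a) = X.ml (X.ml s s') a
  mli : ∀ s, ¬ X.mv s → X.ml s (X.i s) = X.e (X.o s)
  mlr : ∀ s a s', X.lc s a → X.rc a s' → X.ml s (X.mr a s') = X.mr (X.ml s a) s'
  mrs : ∀ s s', ¬ X.mv s → X.rc s s' → X.mr s s' = X.ml s s'
  mlf : ∀ s a, X.lc s a → X.ml s a = a → s = X.e (X.o a)
  sqT : ∀ a b c d, X.sq a b c d → SqT X a b c d
  sqp : ∀ a b c d, X.sq a b c d → ∀ k, X.pm b (X.pm a k) = X.pm d (X.pm c k)
  sqs : ∀ a b c d, X.sq a b c d → X.sq c d a b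
  sqr : ∀ a b c d, X.sq a b c d → X.sq (X.i a) c b (X.i d)
  sql : ∀ a b c d s, X.sq a b c d → X.lc s a → X.sq (X.ml s a) b (X.ml s c) d
  sqm : ∀ a b c d s, X.sq a b c d → X.rc a s → X.sq (X.mr a s) (X.ml (X.i s) b) c d
  sqe : ∀ a b, X.mv a → X.mv b → X.t a = X.o b → Γ.Adj (X.ty b) (X.pm a (X.ty a)) →
    ∃ c d, X.sq a b c d
  sqg : ∀ a b c d, X.sq a b c d → Γ.Adj (X.ty a) (X.ty c)
  squ : ∀ a b c d c' d', X.sq a b c d → X.sq a b c' d' →
    ∃ s, X.rc c s ∧ c' = X.mr c s ∧ d' = X.ml (X.i s) d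
  cube : ∀ a b b₁ a₁ c c₁ a₂ c' c₁' a₃ b', X.sq a b₁ b a₁ → X.sq a c₁ c a₂ →
    X.sq a₁ c₁' c' a₃ → X.sq b c' c b' → ∃ b₁', X.sq b₁ c₁' c₁ b₁' ∧ X.sq a₂ b₁' b' a₃
  pmg : ∀ a i j, Γ.Adj (X.pm a i) (X.pm a j) ↔ Γ.Adj i j
  occ : ∀ q i, (∃ a, X.dir q i a) ↔ ∀ v, N q v → i ∈ RaagIso.st Γ v
  nocc : ∀ q i, N q i → ∃ a, X.dir q i a
  ntr : ∀ a k, (X.mv a → k ≠ X.ty a) → (N (X.t a) (X.pm a k) ↔ N (X.o a) k)

/-- the axioms; stationary arrows are loops -/
structure VV {ι P A : Type} (Γ : SimpleGraph ι) (N : P → ι → Prop) (X : FD ι P A) : Prop where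
  v0 : VV0 Γ N X
  loop : ∀ a, ¬ X.mv a → X.t a = X.o a

/-- isomorphism of the unlabelled data -/
def UIso {ι P A ι' P' A' : Type} (X : FD ι P A) (Y : FD ι' P' A') : Prop :=
  ∃ (f : P ≃ P') (g : A ≃ A'),
    (∀ a, Y.o (g a) = f (X.o a)) ∧ (∀ a, Y.t (g a) = f (X.t a)) ∧
    (∀ p, Y.e (f p) = g (X.e p)) ∧ (∀ a, Y.i (g a) = g (X.i a)) ∧
    (∀ a, Y.mv (g a) ↔ X.mv a) ∧
    (∀ s a, X.lc s a → Y.ml (g s) (g a) = g (X.ml s a)) ∧
    (∀ a b c d, Y.sq (g a) (g b) (g c) (g d) ↔ X.sq a b c d)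

/-! ### Framed complexes -/

/-- A complex with frames `F`, labelled by the data `X`: `pt` is the point of a frame, `lam`
translates the labels at the frame, `p` is the object of a frame, `act f a` is the frame at the end
of the arrow `a` starting at `f` (if `X.o a = p f`). -/
structure VF {ι P A : Type} (X : FD ι P A) {ι' Pt : Type} {V : ι' → Type}
    (S : ∀ i, SimpleGraph (V i)) (co : Pt → ∀ i, V i) (F : Type) where
  pt : F → Pt
  lam : F → ι → ι'
  p : F → P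
  act : F → A → F
  bij : ∀ f, Function.Bijective (lam f)
  onto : ∀ x, ∃ f, pt f = x
  act_p : ∀ f a, X.o a = p f → p (act f a) = X.t a
  act_lam : ∀ f a, X.o a = p f → ∀ k, lam (act f a) (X.pm a k) = lam f k
  act_e : ∀ f, act f (X.e (p f)) = f
  act_i : ∀ f a, X.o a = p f → act (act f a) (X.i a) = f
  act_ml : ∀ f s a, X.o s = p f → X.lc s a → act f (X.ml s a) = act (act f s) a
  act_sq : ∀ f a b c d, X.o a = p f → X.sq a b c d → act (act f a) b = act (act f c) d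
  sq_of : ∀ f a b c d, X.o a = p f → SqT X a b c d → act (act f a) b = act (act f c) d →
    X.sq a b c d
  st : ∀ f a, X.o a = p f → ¬ X.mv a → pt (act f a) = pt f
  mo : ∀ f a, X.o a = p f → X.mv a → VSt S co (lam f (X.ty a)) (pt f) (pt (act f a))
  sur : ∀ f f', (pt f' = pt f ∨ ∃ i, VSt S co i (pt f) (pt f')) → ∃ a, X.o a = p f ∧ act f a = f'
  inj : ∀ f a b, X.o a = p f → X.o b = p f → act f a = act f b → a = b

/-- compatibility of the labels and of the internal labels -/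
structure VLab {ι P A : Type} {X : FD ι P A} {ι' Pt : Type} {V : ι' → Type}
    {S : ∀ i, SimpleGraph (V i)} {co : Pt → ∀ i, V i} {F : Type} (L : VF X S co F)
    (Γ : SimpleGraph ι) (N : P → ι → Prop) (Γ' : SimpleGraph ι') (N' : Pt → ι' → Prop) : Prop where
  gam : ∀ f i j, Γ'.Adj (L.lam f i) (L.lam f j) ↔ Γ.Adj i j
  nn : ∀ f i, N' (L.pt f) (L.lam f i) ↔ N (L.p f) i

/-- `X` is the quotient of the framed complex by the group `G` -/
structure VCov (G : Type) [Group G] {ι P A : Type} {X : FD ι P A} {Pt V ι' : Type}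
    [MulAction G Pt] [MulAction G V] [MulAction G ι'] {κ : V → ι'} {S : SimpleGraph V}
    {co : Pt → ∀ i, Fib κ i} {F : Type} [MulAction G F] (L : VF X (comp κ S) co F) : Prop where
  gp : ∀ (g : G) (f : F), L.p (g • f) = L.p f
  gact : ∀ (g : G) (f : F) (a : A), X.o a = L.p f → L.act (g • f) a = g • L.act f a
  gpt : ∀ (g : G) (f : F), L.pt (g • f) = g • L.pt f
  glam : ∀ (g : G) (f : F) (k : ι), L.lam (g • f) k = g • L.lam f k
  free : ∀ (g : G) (f : F), g • f = f → g = 1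
  trans : ∀ f f' : F, L.p f = L.p f' → ∃ g : G, g • f = f'
  onto : ∀ q : P, ∃ f : F, L.p f = q

/-- `X` is the quotient by the group `G` -/
def IsVCov (G : Type) [Group G] {ι P A Pt V ι' : Type} [MulAction G Pt] [MulAction G V]
    [MulAction G ι'] (Γ' : SimpleGraph ι') (κ : V → ι') (S : SimpleGraph V)
    (co : Pt → ∀ i, Fib κ i) (N' : Pt → ι' → Prop) (Γ : SimpleGraph ι) (N : P → ι → Prop)
    (X : FD ι P A) : Prop :=
  VPre G Γ' κ S co N' ∧ VV Γ N X ∧
    ∃ (F : Type) (_ : MulAction G F) (L : VF X (comp κ S) co F), VLab L Γ N Γ' N' ∧ VCov G L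

/-- `G` acts on a complex with quotient `X` -/
def HasVCov (G : Type) [Group G] {ι P A : Type} (Γ : SimpleGraph ι) (N : P → ι → Prop)
    (X : FD ι P A) : Prop :=
  ∃ (Pt V ι' : Type) (_ : MulAction G Pt) (_ : MulAction G V) (_ : MulAction G ι')
    (Γ' : SimpleGraph ι') (κ : V → ι') (S : SimpleGraph V) (co : Pt → ∀ i, Fib κ i)
    (N' : Pt → ι' → Prop), IsVCov G Γ' κ S co N' Γ N X

/-- a free `G`-set of frames over the points, with labels -/
structure VFrm (G : Type) [Group G] {Pt ι' : Type} [MulAction G Pt] [MulAction G ι']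
    (ι P F : Type) [MulAction G F] (Γ : SimpleGraph ι) (N : P → ι → Prop) (Γ' : SimpleGraph ι')
    (N' : Pt → ι' → Prop) where
  pt : F → Pt
  lam : F → ι → ι'
  p : F → P
  bij : ∀ f, Function.Bijective (lam f)
  onto : ∀ x, ∃ f, pt f = x
  gp : ∀ (g : G) (f : F), p (g • f) = p f
  gpt : ∀ (g : G) (f : F), pt (g • f) = g • pt f
  glam : ∀ (g : G) (f : F) (k : ι), lam (g • f) k = g • lam f k
  free : ∀ (g : G) (f : F), g • f = f → g = 1
  trans : ∀ f f' : F, p f = p f' → ∃ g : G, g • f = f'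
  ponto : ∀ q : P, ∃ f : F, p f = q
  same : ∀ f f' : F, pt f = pt f' → p f = p f'
  gam : ∀ f i j, Γ'.Adj (lam f i) (lam f j) ↔ Γ.Adj i j
  nn : ∀ f i, N' (pt f) (lam f i) ↔ N (p f) i

/-! ### Good data -/

/-- the direction `k'` at `q'` is reached from the direction `k` at `q` by arrows which are
stationary or move in this direction -/
inductive PDir {ι P A : Type} (X : FD ι P A) (q : P) (k : ι) : P → ι → Prop
  | refl : PDir X q k q k
  | step (a : A) (k' : ι) : PDir X q k (X.o a) k' → (X.mv a → X.ty a = k') →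
      PDir X q k (X.t a) (X.pm a k')

/-- paths without backtracking in the direction `k` at `q` -/
def PPath {ι P A : Type} (X : FD ι P A) : P → ι → List A → Prop
  | _, _, [] => True
  | q, k, a :: w => X.dir q k a ∧ PPath X (X.t a) (X.pm a k) w ∧
      ∀ b ∈ w.head?, ¬ X.eqv (X.i a) b

/-- good data: the data of reduced structures -/
structure VGood {ι P A : Type} (Γ : SimpleGraph ι) (N : P → ι → Prop) (X : FD ι P A) : Prop where
  valid : VV Γ N X
  gg : GG Γ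
  span : ∃ p0 δ r, LatF.Span X p0 δ r
  orient : ∃ s : A → Bool, (∀ a, X.mv a → s (X.i a) = !(s a)) ∧
    (∀ σ a, X.lc σ a → s (X.ml σ a) = s a) ∧ ∀ a b c d, X.sq a b c d → s d = s a
  cen : ∀ q k, CL Γ k → N q k
  out : ∀ q k, ¬ CL Γ k → N q k → ∃ q' k', PDir X q k q' k' ∧ ¬ N q' k'
  two : ∀ q k, CL Γ k → ∃ a a', X.dir q k a ∧ X.dir q k a' ∧ ¬ X.eqv a a'
  three : ∀ q k, CL Γ k → ∃ q' k' a a' a'', Lab X q k q' k' ∧ X.dir q' k' a ∧
    X.dir q' k' a' ∧ X.dir q' k' a'' ∧ ¬ X.eqv a a' ∧ ¬ X.eqv a' a'' ∧ ¬ X.eqv a a''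
  inf : ∀ q k, (∃ a, X.dir q k a) → ∃ w, PPath X q k w ∧ Nat.card A < w.length
  red : ∀ a, X.mv a → N (X.o a) (X.ty a) →
    (∃ a' c', Par X a a' ∧ Par X (X.i a) c' ∧ X.o a' = X.o c' ∧ X.ty a' = X.ty c') ∨
    ∃ a', Par X a a' ∧ X.o a' = X.o a ∧ X.ty a' = X.ty a ∧ ¬ X.eqv a a'

/-- `Y` is the result of sliding `a` over `b`: the arrow `m` of `Y` is the product of the arrows
`φ₁ m`, `φ₂ m` of `X` -/
structure VRes {ι P A A' : Type} (Γ : SimpleGraph ι) (N : P → ι → Prop) (X : FD ι P A)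
    (Y : FD ι P A') (a b : A) (φ₁ φ₂ : A' → A) : Prop where
  valid : VV Γ N Y
  o₁ : ∀ m, X.o (φ₁ m) = Y.o m
  o₂ : ∀ m, X.o (φ₂ m) = X.t (φ₁ m)
  t₂ : ∀ m, X.t (φ₂ m) = Y.t m
  pm : ∀ m k, Y.pm m k = X.pm (φ₂ m) (X.pm (φ₁ m) k)
  mv : ∀ m, Y.mv m ↔ X.mv (φ₁ m)
  ty : ∀ m, Y.mv m → Y.ty m = X.ty (φ₁ m)
  kind : ∀ m, (¬ Par X a (φ₁ m) ∧ ¬ Par X a (X.i (φ₁ m)) ∧ φ₂ m = X.e (X.t (φ₁ m))) ∨
    Par2 X a b (φ₂ m) (X.i (φ₁ m)) ∨ Par2 X a b (X.i (φ₁ m)) (φ₂ m)
  old : ∀ c, ¬ Par X a c → ¬ Par X a (X.i c) → ∃ m, φ₁ m = c ∧ φ₂ m = X.e (X.t c)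
  new : ∀ a' b', Par2 X a b a' b' → ∃ m s, X.lc s a' ∧ φ₁ m = X.i (X.ml s b') ∧
    φ₂ m = X.ml s a'
  inj₀ : ∀ m m', φ₁ m = φ₁ m' → φ₂ m = φ₂ m' → m = m'
  inj₁ : ∀ m m' s, Par2 X a b (φ₂ m) (X.i (φ₁ m)) → X.lc s (φ₂ m) →
    φ₁ m' = X.i (X.ml s (X.i (φ₁ m))) → φ₂ m' = X.ml s (φ₂ m) → m = m'
  hom : ∃ h : UG Y →* UG X, ∀ m, h (ug Y m) = ug X (φ₁ m) * ug X (φ₂ m)

/-! ### Codes -/

/-- the code of the data, the number of the graph, the number of the internal labels -/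
abbrev VCode : Type := LatF.Code × ℕ × ℕ

/-- bit number `j` -/
def bt (w j : ℕ) : Prop := w / 2 ^ j % 2 = 1

/-- the graph with number `g` on `n + 1` vertices -/
def vgr (n g : ℕ) : SimpleGraph (Fin (n + 1)) where
  Adj a b := a ≠ b ∧ bt g (a * (n + 1) + b) ∧ bt g (b * (n + 1) + a)
  symm := by
    constructor
    rintro a b ⟨h, h1, h2⟩
    exact ⟨h.symm, h2, h1⟩
  loopless := ⟨fun a h => h.1 rfl⟩

/-- the graph of a code -/
def cG (x : VCode) : SimpleGraph (Fin (x.1.1.1 + 1)) := vgr x.1.1.1 x.2.1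

/-- the internal labels of a code -/
def cN (x : VCode) (p : Fin (x.1.1.2.1 + 1)) (i : Fin (x.1.1.1 + 1)) : Prop :=
  bt x.2.2 (p * (x.1.1.1 + 1) + i)

/-- the codes of bounded size -/
def VBox (x : VCode) : Prop :=
  LatF.InBox x.1 ∧ x.2.1 < 2 ^ ((x.1.1.1 + 1) * (x.1.1.1 + 1)) ∧
    x.2.2 < 2 ^ ((x.1.1.2.1 + 1) * (x.1.1.1 + 1))

/-- the slide of `a` over `b` has the result `((x.1.1.1, x.1.1.2.1, m), w)` -/
def VCRes (x : VCode) (m w : ℕ) (a b : Fin (x.1.1.2.2 + 1)) : Prop :=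
  ∃ φ₁ φ₂ : Fin (m + 1) → Fin (x.1.1.2.2 + 1),
    VRes (cG x) (cN x) (LatF.dec x.1) (LatF.dec ((x.1.1.1, x.1.1.2.1, m), w)) a b φ₁ φ₂

/-- lists of codes closed under slides -/
def VClosed (l : List VCode) : Prop :=
  ∀ x ∈ l, ∀ a b : Fin (x.1.1.2.2 + 1), Legal (LatF.dec x.1) a b →
    ∃ m w, (((x.1.1.1, x.1.1.2.1, m), w), x.2) ∈ l ∧ VCRes x m w a b

/-- `x` is a code of good data for the group presented by `P` -/
def VCodeFor (P : Pres) (x : VCode) : Prop :=
  VGood (cG x) (cN x) (LatF.dec x.1) ∧ HasVCov P.Grp (cG x) (cN x) (LatF.dec x.1)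

end VTB
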