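import Pool.Agent.Lib.MP_32d917_al.F.SLF
import Pool.Agent.Lib.MP_32d917_al.F.FNIEL
import Pool.Agent.Lib.MP_32d917_al.N.NS4
import Pool.Agent.Lib.MP_32d917_al_vt.VDefs

/-!
# T04: forests with any number of components

`cvx_tree`: a nonempty convex subset `C` of a tree induces a tree: connected: for `x, y ∈ C` the geodesic from `x` to `y` stays in `C` (induction on the distance, `st_next`); acyclic: a subgraph of an acyclic graph (`SimpleGraph.IsAcyclic.comap` or via a Hom that is injective).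
`gfor_slide`: as `slide_flat` in F/SLF (which does this for a finite set of components): with `v x u` as in `Slide` put `C a b := ∃ g, g • v = a ∧ g • x = b` and `pi a b := g • u`; apply `slide_tree` (SLT.lean) to `comp κ S i`, `comp κ S' i`. Look at the proof in F/SLF.lean: the components of the argument do not use finiteness of `ι`.
`gfor_niel`: as `fniel` in F/FNIEL: the same induction, over a finite set `F` of components meeting all orbits (`fin`): for `J : Finset ι` let `S_J` be the graph with `S_J.Adj a b` iff (`κ a` is in the orbit of some `j ∈ J` and `S'.Adj a b`) or (not, and `S.Adj a b`). `S_∅ = S`, `S_F = S'`; from `S_J` to `S_(insert i J)`: `tniel` for the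
group `stabilizer G i` and `comp κ S i`, `comp κ S' i`, lifted as in F/FNIEL.
-/

set_option autoImplicit false

namespace VTB

open LatIso LatN LatF

theorem cvx_tree {V : Type} {S : SimpleGraph V} (hS : S.IsTree) {C : Set V} (hC : Cvx S C)
    (h0 : C.Nonempty) : (S.comap (Subtype.val : {v // v ∈ C} → V)).IsTree := by
  obtain ⟨c, hc⟩ := h0
  have : Nonempty {p : V // p ∈ C} := ⟨⟨c, hc⟩⟩
  have key : ∀ (n : ℕ) (a b : {p : V // p ∈ C}), S.dist a.1 b.1 = n →
      (S.comap (Subtype.val : {p : V // p ∈ C} → V)).Reachable a b := by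
    intro n
    induction n with
    | zero =>
      intro a b h
      have h1 : a = b := Subtype.ext (st1_eq hS h)
      rw [h1]
    | succ n ih =>
      intro a b h
      have hne : a.1 ≠ b.1 := by
        intro h'
        rw [h', SimpleGraph.dist_self] at h
        omega
      obtain ⟨m, hm, hb⟩ := st_next hS hne
      have hmC : m ∈ C := hC a.1 a.2 b.1 b.2 m hb
      have e := st1_one hm
      have h2 : S.dist m b.1 = n := by
        unfold Bt at hb
        omega
      have h3 : (S.comap (Subtype.val : {p : V // p ∈ C} → V)).Adj a ⟨m, hmC⟩ := hm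
      exact h3.reachable.trans (ih ⟨m, hmC⟩ b h2)
  refine ⟨⟨fun a b => key _ a b rfl⟩, ?_⟩
  exact hS.isAcyclic.comap ⟨Subtype.val, fun h => h⟩ Subtype.val_injective

/-- `G` acts on the forest with components the fibres of `κ` (any number of components) -/
structure GFor (G : Type) [Group G] {V ι : Type} [MulAction G V] [MulAction G ι] (κ : V → ι)
    (S : SimpleGraph V) : Prop where
  tree : ∀ i, (comp κ S i).IsTree
  kap : ∀ x y, S.Adj x y → κ x = κ y
  act : FAct G κ S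
  noinv : ∀ (g : G) x y, S.Adj x y → g • x = y → g • y ≠ x

section

variable {G : Type} [Group G] {V ι : Type} [MulAction G V] [MulAction G ι] {κ : V → ι}
  {S S' : SimpleGraph V}

private theorem t04_tree (L : GFor G κ S) (v x u : V) (hvx : S.Adj v x) (hvu : S.Adj v u)
    (s1 : ∀ g : G, ¬ (g • v = v ∧ g • x = u)) (s2 : ∀ g : G, ¬ (g • v = u ∧ g • x = v))
    (s3 : ∀ g : G, g • v = v → g • x = x → g • u = u)
    (s4 : ∀ a b : V, S'.Adj a b ↔
      (S.Adj a b ∧ ∀ g : G, ¬ (g • v = a ∧ g • x = b) ∧ ¬ (g • v = b ∧ g • x = a)) ∨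
      ∃ g : G, (g • u = a ∧ g • x = b) ∨ (g • u = b ∧ g • x = a)) (i : ι) :
    (comp κ S' i).IsTree := by
  classical
  have hkv : ∀ g : G, κ (g • u) = κ (g • v) := by
    intro g
    rw [L.act.kap, L.act.kap, L.kap v u hvu]
  have hkx : ∀ g : G, κ (g • x) = κ (g • v) := by
    intro g
    rw [L.act.kap, L.act.kap, L.kap v x hvx]
  obtain ⟨C, hC⟩ : ∃ C : Fib κ i → Fib κ i → Prop,
      ∀ a b, C a b ↔ ∃ g : G, g • v = a.1 ∧ g • x = b.1 := ⟨_, fun _ _ => Iff.rfl⟩
  have hex : ∀ a b : Fib κ i, ∃ c : Fib κ i, ∀ g : G, g • v = a.1 → g • x = b.1 →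
      c.1 = g • u := by
    intro a b
    by_cases h : ∃ g : G, g • v = a.1 ∧ g • x = b.1
    · obtain ⟨g, g1, g2⟩ := h
      refine ⟨⟨g • u, by rw [hkv, g1, a.2]⟩, fun k k1 k2 => ?_⟩
      have k3 : (k⁻¹ * g) • v = v := by rw [mul_smul, g1, ← k1, inv_smul_smul]
      have k4 : (k⁻¹ * g) • x = x := by rw [mul_smul, g2, ← k2, inv_smul_smul]
      have k5 := s3 _ k3 k4
      rw [mul_smul, inv_smul_eq_iff] at k5
      exact k5
    · exact ⟨a, fun g g1 g2 => absurd ⟨g, g1, g2⟩ h⟩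
  choose pi hpi using hex
  refine slide_tree (S := comp κ S i) (L.tree i) C pi ?_ ?_
  · intro a b hab
    rw [hC] at hab
    obtain ⟨g, g1, g2⟩ := hab
    have hp := hpi a b g g1 g2
    refine ⟨?_, ?_, ?_, ?_, ?_⟩
    · show S.Adj a.1 b.1
      rw [← g1, ← g2]
      exact L.act.adj g _ _ hvx
    · show S.Adj a.1 (pi a b).1
      rw [hp, ← g1]
      exact L.act.adj g _ _ hvu
    · rw [hC]
      rintro ⟨k, k1, k2⟩
      refine L.noinv (g⁻¹ * k) v x hvx ?_ ?_
      · rw [mul_smul, k1, ← g2, inv_smul_smul]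
      · rw [mul_smul, k2, ← g1, inv_smul_smul]
    · rw [hC]
      rintro ⟨k, k1, k2⟩
      refine s1 (g⁻¹ * k) ⟨?_, ?_⟩
      · rw [mul_smul, k1, ← g1, inv_smul_smul]
      · rw [mul_smul, k2, hp, inv_smul_smul]
    · rw [hC]
      rintro ⟨k, k1, k2⟩
      refine s2 (g⁻¹ * k) ⟨?_, ?_⟩
      · rw [mul_smul, k1, hp, inv_smul_smul]
      · rw [mul_smul, k2, ← g1, inv_smul_smul]
  · intro a b
    have hA : (comp κ S' i).Adj a b ↔ S'.Adj a.1 b.1 := Iff.rfl
    have hB : (comp κ S i).Adj a b ↔ S.Adj a.1 b.1 := Iff.rfl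
    rw [hA, hB, s4 a.1 b.1, hC, hC]
    constructor
    · rintro (⟨h3, h4⟩ | ⟨g, ⟨h3, h4⟩ | ⟨h3, h4⟩⟩)
      · refine Or.inl ⟨h3, ?_, ?_⟩
        · rintro ⟨g, g1, g2⟩
          exact (h4 g).1 ⟨g1, g2⟩
        · rintro ⟨g, g1, g2⟩
          exact (h4 g).2 ⟨g1, g2⟩
      · have hk : κ (g • v) = i := by rw [← hkv, h3, a.2]
        refine Or.inr (Or.inl ⟨⟨g • v, hk⟩, (hC _ _).2 ⟨g, rfl, h4⟩, ?_⟩)
        apply Subtype.ext
        rw [hpi ⟨g • v, hk⟩ b g rfl h4, h3]
      · have hk : κ (g • v) = i := by rw [← hkv, h3, b.2]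
        refine Or.inr (Or.inr ⟨⟨g • v, hk⟩, (hC _ _).2 ⟨g, rfl, h4⟩, ?_⟩)
        apply Subtype.ext
        rw [hpi ⟨g • v, hk⟩ a g rfl h4, h3]
    · rintro (⟨h3, h4, h5⟩ | ⟨w, hw, g3⟩ | ⟨w, hw, g3⟩)
      · exact Or.inl ⟨h3, fun g => ⟨fun h6 => h4 ⟨g, h6⟩, fun h6 => h5 ⟨g, h6⟩⟩⟩
      · obtain ⟨g, g1, g2⟩ := (hC _ _).1 hw
        refine Or.inr ⟨g, Or.inl ⟨?_, g2⟩⟩
        rw [← g3, hpi w b g g1 g2]
      · obtain ⟨g, g1, g2⟩ := (hC _ _).1 hw
        refine Or.inr ⟨g, Or.inr ⟨?_, g2⟩⟩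
        rw [← g3, hpi w a g g1 g2]

/-- two vertices of a forest have at most one common neighbour -/
private theorem t04_mid (hF : GFor G κ S) {u x v v' : V} (hux : u ≠ x)
    (h1 : S.Adj u v) (h2 : S.Adj v x) (h3 : S.Adj u v') (h4 : S.Adj v' x) : v = v' := by
  have k1 := hF.kap _ _ h1
  have k2 := hF.kap _ _ h2
  have k3 := hF.kap _ _ h3
  have h := slt_mid (S := comp κ S (κ u)) (hF.tree (κ u)) (u := ⟨u, rfl⟩)
    (x := ⟨x, (k1.trans k2).symm⟩) (v := ⟨v, k1.symm⟩) (v' := ⟨v', k3.symm⟩)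
    (fun hh => hux (congrArg Subtype.val hh)) h1 h2 h3 h4
  exact congrArg Subtype.val h

theorem gfor_slide (L : GFor G κ S) (hs : Slide G S S') : GFor G κ S' := by
  classical
  obtain ⟨v, x, u, hvx, hvu, s1, s2, s3, s4⟩ := hs
  have hkv : ∀ g : G, κ (g • u) = κ (g • v) := by
    intro g
    rw [L.act.kap, L.act.kap, L.kap v u hvu]
  have hkx : ∀ g : G, κ (g • x) = κ (g • v) := by
    intro g
    rw [L.act.kap, L.act.kap, L.kap v x hvx]
  have hux : u ≠ x := by
    intro hh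
    exact s1 1 ⟨one_smul _ _, by rw [one_smul, hh]⟩
  refine ⟨t04_tree L v x u hvx hvu s1 s2 s3 s4, ?_, ⟨L.act.kap, ?_⟩, ?_⟩
  · intro a b hab
    rw [s4] at hab
    rcases hab with ⟨h3, -⟩ | ⟨g, ⟨h3, h5⟩ | ⟨h3, h5⟩⟩
    · exact L.kap a b h3
    · rw [← h3, ← h5, hkv, hkx]
    · rw [← h3, ← h5, hkv, hkx]
  · intro g a b hab
    rw [s4] at hab ⊢
    rcases hab with ⟨h3, h4⟩ | ⟨k, h3⟩
    · refine Or.inl ⟨L.act.adj g _ _ h3, ?_⟩
      intro k
      obtain ⟨l1, l2⟩ := h4 (g⁻¹ * k)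
      refine ⟨fun h6 => l1 ?_, fun h6 => l2 ?_⟩
      · rw [mul_smul, mul_smul, h6.1, h6.2, inv_smul_smul, inv_smul_smul]
        exact ⟨rfl, rfl⟩
      · rw [mul_smul, mul_smul, h6.1, h6.2, inv_smul_smul, inv_smul_smul]
        exact ⟨rfl, rfl⟩
    · refine Or.inr ⟨g * k, ?_⟩
      rcases h3 with ⟨h3, h5⟩ | ⟨h3, h5⟩
      · left
        rw [mul_smul, mul_smul, h3, h5]
        exact ⟨rfl, rfl⟩
      · right
        rw [mul_smul, mul_smul, h3, h5]
        exact ⟨rfl, rfl⟩
  · intro g a b hab hga hgb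
    -- no inversion of the new edge
    have new : ∀ k l : G, l • (k • u) = k • x → l • (k • x) = k • u → False := by
      intro k l h5 h6
      have h7 : S.Adj (k • u) (k • v) := (L.act.adj k _ _ hvu).symm
      have h8 : S.Adj (k • v) (k • x) := L.act.adj k _ _ hvx
      have h9 : S.Adj (k • x) (l • k • v) := by
        have := L.act.adj l _ _ h7
        rwa [h5] at this
      have h10 : S.Adj (l • k • v) (k • u) := by
        have := L.act.adj l _ _ h8
        rwa [h6] at this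
      have hne : k • u ≠ k • x := fun hh => hux (smul_left_cancel k hh)
      have h11 : k • v = l • k • v := t04_mid L hne h7 h8 h10.symm h9.symm
      refine s1 (k⁻¹ * l * k) ⟨?_, ?_⟩
      · rw [mul_smul, mul_smul, ← h11, inv_smul_smul]
      · rw [mul_smul, mul_smul, h6, inv_smul_smul]
    rw [s4] at hab
    rcases hab with ⟨h3, h4⟩ | ⟨k, ⟨h3, h5⟩ | ⟨h3, h5⟩⟩
    · exact L.noinv g a b h3 hga hgb
    · refine new k g ?_ ?_
      · rw [h3, hga, h5]
      · rw [h5, hgb, h3]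
    · refine new k g ?_ ?_
      · rw [h3, hgb, h5]
      · rw [h5, hga, h3]

/-- the graph `S` with the components in the orbit of `i` replaced by the translates of `R` -/
private def t04_lift (G : Type) [Group G] {V ι : Type} [MulAction G V] [MulAction G ι]
    (κ : V → ι) (S : SimpleGraph V) (i : ι) (R : SimpleGraph (Fib κ i)) : SimpleGraph V where
  Adj a b := (S.Adj a b ∧ (∀ g : G, g • i ≠ κ a) ∧ ∀ g : G, g • i ≠ κ b) ∨
    ∃ (g : G) (c d : Fib κ i), R.Adj c d ∧ g • c.1 = a ∧ g • d.1 = b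
  symm := ⟨by
    rintro a b (⟨h1, h2, h3⟩ | ⟨g, c, d, h1, h2, h3⟩)
    · exact Or.inl ⟨h1.symm, h3, h2⟩
    · exact Or.inr ⟨g, d, c, h1.symm, h3, h2⟩⟩
  loopless := ⟨by
    rintro a (⟨h1, h2, h3⟩ | ⟨g, c, d, h1, h2, h3⟩)
    · exact h1.ne rfl
    · exact h1.ne (Subtype.ext (MulAction.injective g (h2.trans h3.symm)))⟩

private theorem t04_lift_adj (i : ι) (R : SimpleGraph (Fib κ i)) (a b : V) :
    (t04_lift G κ S i R).Adj a b ↔ ((S.Adj a b ∧ (∀ g : G, g • i ≠ κ a) ∧ ∀ g : G, g • i ≠ κ b) ∨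
      ∃ (g : G) (c d : Fib κ i), R.Adj c d ∧ g • c.1 = a ∧ g • d.1 = b) := Iff.rfl

/-- the edges of the lift of a component of `S'` over the orbit of `i` are those of `S'` -/
private theorem t04_in (hk' : ∀ x y, S'.Adj x y → κ x = κ y) (A' : FAct G κ S') (i : ι) (a b : V)
    (h : ∃ g : G, g • i = κ a) :
    (t04_lift G κ S i (comp κ S' i)).Adj a b ↔ S'.Adj a b := by
  obtain ⟨g, hg⟩ := h
  rw [t04_lift_adj]
  constructor
  · rintro (⟨-, h2, -⟩ | ⟨k, c, d, h1, rfl, rfl⟩)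
    · exact absurd hg (h2 g)
    · exact A'.adj k _ _ h1
  · intro hab
    have e1 : κ (g⁻¹ • a) = i := by rw [A'.kap, ← hg, inv_smul_smul]
    have e2 : κ (g⁻¹ • b) = i := by rw [A'.kap, ← hk' _ _ hab, ← hg, inv_smul_smul]
    exact Or.inr ⟨g, ⟨g⁻¹ • a, e1⟩, ⟨g⁻¹ • b, e2⟩, A'.adj g⁻¹ _ _ hab, smul_inv_smul _ _,
      smul_inv_smul _ _⟩

/-- outside the orbit of `i` nothing changes -/
private theorem t04_out (hk : ∀ x y, S.Adj x y → κ x = κ y) (hq : KEq G κ) (i : ι)
    (R : SimpleGraph (Fib κ i)) (a b : V) (h : ∀ g : G, g • i ≠ κ a) :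
    (t04_lift G κ S i R).Adj a b ↔ S.Adj a b := by
  rw [t04_lift_adj]
  constructor
  · rintro (⟨h1, -, -⟩ | ⟨k, c, d, h1, rfl, rfl⟩)
    · exact h1
    · exact absurd (by rw [hq, c.2]) (h k)
  · intro hab
    exact Or.inl ⟨hab, h, by rw [← hk _ _ hab]; exact h⟩

private theorem t04_base (L : GFor G κ S) (i : ι) : t04_lift G κ S i (comp κ S i) = S := by
  ext a b
  by_cases h : ∃ g : G, g • i = κ a
  · exact t04_in L.kap L.act i a b h
  · push Not at h
    exact t04_out L.kap L.act.kap i _ a b h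

private theorem t04_step [hq : Fact (KEq G κ)] (i : ι) (R R' : SimpleGraph (Fib κ i))
    (h : Slide (MulAction.stabilizer G i) R R') :
    Slide G (t04_lift G κ S i R) (t04_lift G κ S i R') := by
  obtain ⟨v, x, u, hvx, hvu, s1, s2, s3, s4⟩ := h
  -- elements mapping a vertex over `i` to a vertex over `i`
  have key : ∀ (g : G) (c d : Fib κ i), g • c.1 = d.1 → g ∈ MulAction.stabilizer G i := by
    intro g c d hcd
    rw [MulAction.mem_stabilizer_iff]
    have := hq.out g c.1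
    rw [hcd, c.2, d.2] at this
    exact this.symm
  refine ⟨v.1, x.1, u.1, Or.inr ⟨1, v, x, hvx, one_smul _ _, one_smul _ _⟩,
    Or.inr ⟨1, v, u, hvu, one_smul _ _, one_smul _ _⟩, ?_, ?_, ?_, ?_⟩
  · rintro g ⟨h1, h2⟩
    exact s1 ⟨g, key g _ _ h1⟩ ⟨Subtype.ext h1, Subtype.ext h2⟩
  · rintro g ⟨h1, h2⟩
    exact s2 ⟨g, key g _ _ h1⟩ ⟨Subtype.ext h1, Subtype.ext h2⟩
  · intro g h1 h2
    exact congrArg Subtype.val (s3 ⟨g, key g _ _ h1⟩ (Subtype.ext h1) (Subtype.ext h2))
  · intro a b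
    have key2 : ∀ (g h : G) (c d : Fib κ i), h • c.1 = g • d.1 → (g⁻¹ * h) • c.1 = d.1 := by
      intro g h c d e
      rw [mul_smul, e, inv_smul_smul]
    rw [t04_lift_adj, t04_lift_adj]
    constructor
    · rintro (⟨h1, h2, h3⟩ | ⟨g, c, d, h1, h2, h3⟩)
      · refine Or.inl ⟨Or.inl ⟨h1, h2, h3⟩, fun g => ⟨?_, ?_⟩⟩
        · rintro ⟨e1, -⟩
          exact h2 g (by rw [← e1, hq.out, v.2])
        · rintro ⟨e1, -⟩
          exact h3 g (by rw [← e1, hq.out, v.2])
      · rcases (s4 c d).mp h1 with ⟨h4, h5⟩ | ⟨k, ⟨h4, h5⟩ | ⟨h4, h5⟩⟩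
        · refine Or.inl ⟨Or.inr ⟨g, c, d, h4, h2, h3⟩, fun k => ⟨?_, ?_⟩⟩
          · rintro ⟨e1, e2⟩
            have f1 := key2 g k v c (e1.trans h2.symm)
            have f2 := key2 g k x d (e2.trans h3.symm)
            exact (h5 ⟨g⁻¹ * k, key _ _ _ f1⟩).1 ⟨Subtype.ext f1, Subtype.ext f2⟩
          · rintro ⟨e1, e2⟩
            have f1 := key2 g k v d (e1.trans h3.symm)
            have f2 := key2 g k x c (e2.trans h2.symm)
            exact (h5 ⟨g⁻¹ * k, key _ _ _ f1⟩).2 ⟨Subtype.ext f1, Subtype.ext f2⟩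
        · refine Or.inr ⟨g * k, Or.inl ⟨?_, ?_⟩⟩
          · rw [mul_smul, ← h2]; exact congrArg (fun z : Fib κ i => g • z.1) h4
          · rw [mul_smul, ← h3]; exact congrArg (fun z : Fib κ i => g • z.1) h5
        · refine Or.inr ⟨g * k, Or.inr ⟨?_, ?_⟩⟩
          · rw [mul_smul, ← h3]; exact congrArg (fun z : Fib κ i => g • z.1) h4
          · rw [mul_smul, ← h2]; exact congrArg (fun z : Fib κ i => g • z.1) h5
    · rintro (⟨⟨h1, h2, h3⟩ | ⟨g, c, d, h1, h2, h3⟩, h5⟩ | ⟨g, ⟨h1, h2⟩ | ⟨h1, h2⟩⟩)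
      · exact Or.inl ⟨h1, h2, h3⟩
      · refine Or.inr ⟨g, c, d, (s4 c d).mpr (Or.inl ⟨h1, fun k => ⟨?_, ?_⟩⟩), h2, h3⟩
        · rintro ⟨e1, e2⟩
          refine (h5 (g * k)).1 ⟨?_, ?_⟩
          · rw [mul_smul, ← h2]; exact congrArg (fun z : Fib κ i => g • z.1) e1
          · rw [mul_smul, ← h3]; exact congrArg (fun z : Fib κ i => g • z.1) e2
        · rintro ⟨e1, e2⟩
          refine (h5 (g * k)).2 ⟨?_, ?_⟩
          · rw [mul_smul, ← h3]; exact congrArg (fun z : Fib κ i => g • z.1) e1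
          · rw [mul_smul, ← h2]; exact congrArg (fun z : Fib κ i => g • z.1) e2
      · exact Or.inr ⟨g, u, x, (s4 u x).mpr (Or.inr ⟨1, Or.inl ⟨one_smul _ _, one_smul _ _⟩⟩),
          h1, h2⟩
      · exact Or.inr ⟨g, x, u, (s4 x u).mpr (Or.inr ⟨1, Or.inr ⟨one_smul _ _, one_smul _ _⟩⟩),
          h2, h1⟩

private theorem t04_for (L : GFor G κ S) {U : SimpleGraph V}
    (h : Relation.ReflTransGen (Slide G) S U) : GFor G κ U := by
  induction h with
  | refl => exact L
  | tail _ h ih => exact gfor_slide ih h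

/-- one orbit of components -/
private theorem t04_orbit [Fact (KEq G κ)] (L : GFor G κ S) (i : ι)
    (h : TLat (MulAction.stabilizer G i) (comp κ S i))
    (h' : TLat (MulAction.stabilizer G i) (comp κ S' i)) :
    Relation.ReflTransGen (Slide G) S (t04_lift G κ S i (comp κ S' i)) := by
  have h := tniel h h'
  have key : ∀ R, Relation.ReflTransGen (Slide (MulAction.stabilizer G i)) (comp κ S i) R →
      Relation.ReflTransGen (Slide G) S (t04_lift G κ S i R) := by
    intro R hR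
    induction hR with
    | refl => rw [t04_base L i]
    | tail _ h ih => exact ih.tail (t04_step i _ _ h)
  exact key _ h

/-- the components over `i` agree if the graphs agree over the orbit of `i` -/
private theorem t04_comp {U : SimpleGraph V} {i : ι}
    (h : ∀ a b, κ a = i → (U.Adj a b ↔ S.Adj a b)) : comp κ U i = comp κ S i := by
  ext a b
  exact h a.1 b.1 a.2

theorem gfor_niel [Fact (KEq G κ)] (L : GFor G κ S) (L' : GFor G κ S')
    (fin : ∃ F : Finset ι, ∀ i, ∃ g : G, g • i ∈ F)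
    (h : ∀ i, TLat (MulAction.stabilizer G i) (comp κ S i))
    (h' : ∀ i, TLat (MulAction.stabilizer G i) (comp κ S' i)) :
    Relation.ReflTransGen (Slide G) S S' := by
  classical
  have key : ∀ J : Finset ι, ∃ U : SimpleGraph V, Relation.ReflTransGen (Slide G) S U ∧
      (∀ a b, (∃ j ∈ J, ∃ g : G, g • j = κ a) → (U.Adj a b ↔ S'.Adj a b)) ∧
      ∀ a b, (¬ ∃ j ∈ J, ∃ g : G, g • j = κ a) → (U.Adj a b ↔ S.Adj a b) := by
    intro J
    induction J using Finset.induction_on with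
    | empty =>
      exact ⟨S, Relation.ReflTransGen.refl, by rintro a b ⟨j, hj, -⟩; simp at hj,
        fun a b _ => Iff.rfl⟩
    | insert i J hi ih =>
      obtain ⟨U, hU, hUJ, hUN⟩ := ih
      have LU := t04_for L hU
      by_cases hiJ : ∃ j ∈ J, ∃ g : G, g • j = i
      · -- nothing to do
        obtain ⟨j0, hj0, g0, hg0⟩ := hiJ
        refine ⟨U, hU, ?_, ?_⟩
        · rintro a b ⟨j, hj, g, hg⟩
          rcases Finset.mem_insert.mp hj with rfl | hj
          · exact hUJ a b ⟨j0, hj0, g * g0, by rw [mul_smul, hg0, hg]⟩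
          · exact hUJ a b ⟨j, hj, g, hg⟩
        · intro a b hn
          refine hUN a b ?_
          rintro ⟨j, hj, hg⟩
          exact hn ⟨j, Finset.mem_insert_of_mem hj, hg⟩
      · have hc : comp κ U i = comp κ S i := by
          refine t04_comp (fun a b ha => hUN a b ?_)
          rw [ha]
          exact hiJ
        have hT : TLat (MulAction.stabilizer G i) (comp κ U i) := by
          rw [hc]
          exact h i
        refine ⟨_, hU.trans (t04_orbit LU i hT (h' i)), ?_, ?_⟩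
        · rintro a b ⟨j, hj, g, hg⟩
          by_cases hh : ∃ g : G, g • i = κ a
          · exact t04_in L'.kap L'.act i a b hh
          · push Not at hh
            rw [t04_out LU.kap LU.act.kap i _ a b hh]
            rcases Finset.mem_insert.mp hj with rfl | hj
            · exact absurd hg (hh g)
            · exact hUJ a b ⟨j, hj, g, hg⟩
        · intro a b hn
          have hh : ∀ g : G, g • i ≠ κ a := fun g hg =>
            hn ⟨i, Finset.mem_insert_self _ _, g, hg⟩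
          rw [t04_out LU.kap LU.act.kap i _ a b hh]
          refine hUN a b ?_
          rintro ⟨j, hj, hg⟩
          exact hn ⟨j, Finset.mem_insert_of_mem hj, hg⟩
  obtain ⟨F, hF⟩ := fin
  obtain ⟨U, hU, hUJ, -⟩ := key F
  have : U = S' := by
    ext a b
    obtain ⟨g, hg⟩ := hF (κ a)
    exact hUJ a b ⟨g • κ a, hg, g⁻¹, inv_smul_smul _ _⟩
  rw [← this]
  exact hU

end

end VTB
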