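import Pool.Agent.Lib.MP_32d917_al_vt.E01
import Pool.Agent.Lib.MP_32d917_al_vt.T04
import Pool.Agent.Lib.MP_32d917_al.F.GCINV

/-!
# E03: the trees of the regions

`qgr_gfor`: the graph `qgr Γ co N S` on `QQ`, over any set `J` in equivariant bijection `e` with the set of regions, is a forest in the sense of `GFor`. Let `j = e r`. The component over `j` is the set of `q` with `q.1.1 = r`; it is isomorphic to the induced subgraph of `comp κ S r.1.1` on `{p | VR co r.1 p}` (`qp`, `mkq`), a tree by `cvx_tree`, `vr_cv`. kap: by definition. act: `L.pre.act.adj`. noinv: `L.noinv` for the vertices.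
`qgr_fin`: finitely many orbits of regions: `L.fin` gives a finite set `F` of points; for a region `r` take a point `x ∈ r.1.2`, `g • x ∈ F`: `g • r` is the region of the label `g • r.1.1` at `g • x` (`reg_mem`); the set of all regions `rg z i`, `z ∈ F`, `i : ι` is finite.
`reg_tlat`: for the group `A = stabilizer G j` and the tree over `j = e r`: ta: from `qgr_gfor`; loc: let `q` be a vertex, `x ∈ r.1.2` a point over it; its neighbours `q'` are `co y i` for steps `x y` of label `i = r.1.1` (`reg_pt` gives `y` in the panel of `x` over `q'`), finitely many (`L.ms.loc`). fin: for `q` over `j` take a point `x ∈ r.1.2` over it; `g • x ∈ F` for some `g`, so the pair `(g • r, g • x)` is one of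
finitely many; choose for every pair `(s, z)`, `z ∈ F`, `s` a region at `z`, one pair `(r, x)` with `(s, z) = (g • r, g • x)` if there is one; then `A`-representatives. cinv: `LatF.gcinv` for the group `A` acting on the tree over `j` and on `W = {B : Set Pt // ∃ x ∈ r.1.2, B = {y | Ag co {r.1.1} x y}}` (`g • B = {y | g⁻¹ • y ∈ B}`; `g • i = i` for `g ∈ A`, `i = r.1.1`). The map `x ↦ (co x i, panel of x)` from `r.1.2` to
vertices × `W` is a bijection (`reg_pt`; injective by `inj`), equivariant: so `prop` and `fin` follow from `L.prop` and from the finiteness of the number of `A`-orbits on `r.1.2` (as above).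
-/

set_option autoImplicit false

namespace VTB

open LatIso LatN LatF RaagIso

section

variable {G : Type} [Group G] {ι Pt V : Type} [Fintype ι] [MulAction G Pt] [MulAction G V]
  [MulAction G ι] {Γ : SimpleGraph ι} {κ : V → ι} {S : SimpleGraph V}
  {co : Pt → ∀ i, Fib κ i} {N : Pt → ι → Prop} [Fact (RAct G Γ κ co N)]

private theorem E03_ne (r : Rg Γ co N) : ∃ x, x ∈ r.1.2 := by
  obtain ⟨x, _, h⟩ := r.2
  exact ⟨x, by rw [h]; exact ag_refl x⟩

private theorem E03_tree (L : VLat G Γ κ S co N) {J : Type} (e : Rg Γ co N ≃ J)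
    (r : Rg Γ co N) :
    (comp (fun q : QQ Γ co N => e q.1.1) (qgr Γ co N S) (e r)).IsTree := by
  have hC := vr_cv L.ms.b r.2
  have h0 : {p | VR co r.1 p}.Nonempty := by
    obtain ⟨x, hx⟩ := E03_ne r
    exact ⟨co x r.1.1, x, hx, rfl⟩
  have hT := cvx_tree (L.ms.b.tree r.1.1) hC h0
  let φ : {v // v ∈ {p | VR co r.1 p}} → Fib (fun q : QQ Γ co N => e q.1.1) (e r) :=
    fun v => ⟨mkq r v.1 v.2, rfl⟩
  have hinj : Function.Injective φ := by
    intro v w h
    have h1 : (mkq r v.1 v.2).1.2 = (mkq r w.1 w.2).1.2 := congrArg (fun q => q.1.1.2) h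
    exact Subtype.ext (Subtype.ext h1)
  have hsurj : Function.Surjective φ := by
    rintro ⟨⟨⟨s, v⟩, hv⟩, hq⟩
    have h1 : s = r := e.injective hq
    subst h1
    obtain ⟨x, hx, hv'⟩ := hv
    have hv'' : (co x s.1.1).1 = v := hv'
    subst hv''
    exact ⟨⟨co x s.1.1, x, hx, rfl⟩, rfl⟩
  let E : (comp κ S r.1.1).comap (Subtype.val : {v // v ∈ {p | VR co r.1 p}} → _) ≃g
      comp (fun q : QQ Γ co N => e q.1.1) (qgr Γ co N S) (e r) :=
    { toEquiv := Equiv.ofBijective φ ⟨hinj, hsurj⟩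
      map_rel_iff' := by
        intro v w
        constructor
        · intro h
          exact h.2
        · intro h
          exact ⟨rfl, h⟩ }
  exact E.isTree_iff.1 hT

theorem qgr_gfor (L : VLat G Γ κ S co N) {J : Type} [MulAction G J] (e : Rg Γ co N ≃ J)
    (he : ∀ (g : G) r, e (g • r) = g • e r) :
    GFor G (fun q : QQ Γ co N => e q.1.1) (qgr Γ co N S) := by
  refine ⟨fun j => ?_, fun x y h => congrArg e h.1, ⟨fun g q => he g q.1.1, fun g x y h => ?_⟩,
    fun g x y h h1 h2 => ?_⟩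
  · obtain ⟨r, rfl⟩ := e.surjective j
    exact E03_tree L e r
  · exact ⟨congrArg (fun s => g • s) h.1, L.pre.act.adj g _ _ h.2⟩
  · exact L.noinv g x.1.2 y.1.2 h.2 (congrArg (fun q => q.1.2) h1) (congrArg (fun q => q.1.2) h2)

open scoped Classical in
theorem qgr_fin (L : VLat G Γ κ S co N) :
    ∃ F : Finset (Rg Γ co N), ∀ r, ∃ g : G, g • r ∈ F := by
  obtain ⟨F, hF⟩ := L.fin
  refine ⟨(F ×ˢ (Finset.univ : Finset ι)).biUnion fun p =>
    if h : Oc Γ N p.1 p.2 then {⟨rg Γ co p.1 p.2, rg_isReg h⟩} else ∅, fun r => ?_⟩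
  obtain ⟨x, hx⟩ := E03_ne r
  obtain ⟨g, hg⟩ := hF x
  refine ⟨g, ?_⟩
  have hm : g • x ∈ (g • r).1.2 := by
    rw [rg_mem, inv_smul_smul]
    exact hx
  rw [Finset.mem_biUnion]
  refine ⟨(g • x, (g • r).1.1), Finset.mem_product.2 ⟨hg, Finset.mem_univ _⟩, ?_⟩
  have ho : Oc Γ N (g • x) (g • r).1.1 := reg_oc L.ms.b (g • r).2 hm
  rw [dif_pos ho, Finset.mem_singleton]
  exact Subtype.ext (reg_mem (g • r).2 hm)

/-- two translates of a region with the same label and a common point are equal -/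
private theorem E03_same (r : Rg Γ co N) {g g' : G} {z : Pt} (h : g • r.1.1 = g' • r.1.1)
    (hz : z ∈ (g • r).1.2) (hz' : z ∈ (g' • r).1.2) : g • r = g' • r := by
  apply Subtype.ext
  rw [reg_mem (g • r).2 hz, reg_mem (g' • r).2 hz']
  change rg Γ co z (g • r.1.1) = rg Γ co z (g' • r.1.1)
  rw [h]

open scoped Classical in
/-- the stabilizer of a region has finitely many orbits on its points -/
private theorem E03_pts (L : VLat G Γ κ S co N) (r : Rg Γ co N) :
    ∃ F : Finset Pt, ∀ x ∈ r.1.2, ∃ a : G, a • r = r ∧ a • x ∈ F := by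
  obtain ⟨F, hF⟩ := L.fin
  let P : Pt × ι → Prop := fun p =>
    ∃ y : G × Pt, y.2 ∈ r.1.2 ∧ y.1 • y.2 = p.1 ∧ y.1 • r.1.1 = p.2
  let f : Pt × ι → Pt := fun p => if h : P p then (Classical.choose h).2 else p.1
  refine ⟨(F ×ˢ (Finset.univ : Finset ι)).image f, fun x hx => ?_⟩
  obtain ⟨g, hg⟩ := hF x
  have hP : P (g • x, g • r.1.1) := ⟨(g, x), hx, rfl, rfl⟩
  have hf : f (g • x, g • r.1.1) = (Classical.choose hP).2 := dif_pos hP
  obtain ⟨h1, h2, h3⟩ := Classical.choose_spec hP
  rw [← hf] at h1 h2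
  generalize (Classical.choose hP).1 = g0 at h2 h3
  have h4 : g • r = g0 • r := by
    refine E03_same r (z := g • x) h3.symm ?_ ?_
    · rw [rg_mem, inv_smul_smul]
      exact hx
    · have h5 : g0 • f (g • x, g • r.1.1) = g • x := h2
      rw [← h5, rg_mem, inv_smul_smul]
      exact h1
  refine ⟨g0⁻¹ * g, ?_, ?_⟩
  · rw [mul_smul, h4, inv_smul_smul]
  · have h5 : g0 • f (g • x, g • r.1.1) = g • x := h2
    rw [mul_smul, ← h5, inv_smul_smul]
    exact Finset.mem_image_of_mem f (Finset.mem_product.2 ⟨hg, Finset.mem_univ _⟩)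

/-- the panel of a point agrees with its translate -/
private theorem E03_ag (R : RAct G Γ κ co N) {i : ι} {a : G} (ha : a • i = i) {x y : Pt} :
    Ag co {i} (a • x) (a • y) ↔ Ag co {i} x y := by
  have h := R.ag a (J := {i}) (x := x) (y := y)
  have h1 : {j | a⁻¹ • j ∈ ({i} : Set ι)} = {i} := by
    ext j
    rw [Set.mem_ofPred_eq, Set.mem_singleton_iff, Set.mem_singleton_iff, inv_smul_eq_iff, ha]
  rwa [h1] at h

private theorem E03_co (R : RAct G Γ κ co N) {i : ι} {a : G} (ha : a • i = i) (x : Pt) :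
    (co (a • x) i).1 = a • (co x i).1 := by
  have h := R.gco a x i
  have h1 : (co (a • x) (a • i)).1 = (co (a • x) i).1 :=
    congrArg (fun j => (co (a • x) j).1) ha
  rw [← h1, h]

/-- the panels of a region -/
private def E03_W (r : Rg Γ co N) : Type :=
  {B : Set Pt // ∃ x ∈ r.1.2, B = {y | Ag co {r.1.1} x y}}

theorem reg_tlat (L : VLat G Γ κ S co N) {J : Type} [MulAction G J] (e : Rg Γ co N ≃ J)
    (he : ∀ (g : G) r, e (g • r) = g • e r) [Fact (KEq G (fun q : QQ Γ co N => e q.1.1))]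
    (j : J) : TLat (MulAction.stabilizer G j)
      (comp (fun q : QQ Γ co N => e q.1.1) (qgr Γ co N S) j) := by
  classical
  obtain ⟨r, rfl⟩ := e.surjective j
  have hst : ∀ a : MulAction.stabilizer G (e r), (a : G) • r = r := fun a => by
    apply e.injective
    rw [he]
    exact a.2
  have hst' : ∀ a : G, a • r = r → a ∈ MulAction.stabilizer G (e r) := fun a ha => by
    rw [MulAction.mem_stabilizer_iff, ← he, ha]
  have hlab : ∀ a : G, a • r = r → a • r.1.1 = r.1.1 := fun a ha =>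
    congrArg (fun s : Rg Γ co N => s.1.1) ha
  have hmem : ∀ a : G, a • r = r → ∀ x, a • x ∈ r.1.2 ↔ x ∈ r.1.2 := fun a ha x => by
    have h1 := rg_mem a r (a • x)
    rw [ha, inv_smul_smul] at h1
    exact h1
  have hG := qgr_gfor L e he
  have hta : TA (MulAction.stabilizer G (e r))
      (comp (fun q : QQ Γ co N => e q.1.1) (qgr Γ co N S) (e r)) :=
    ⟨hG.tree _, fun g x y h => hG.act.adj (g : G) x.1 y.1 h,
      fun g x y h h1 h2 => hG.noinv (g : G) x.1 y.1 h (congrArg Subtype.val h1)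
        (congrArg Subtype.val h2)⟩
  -- vertices
  let mk : ∀ x, x ∈ r.1.2 → Fib (fun q : QQ Γ co N => e q.1.1) (e r) := fun x hx =>
    ⟨mkq r (co x r.1.1) ⟨x, hx, rfl⟩, rfl⟩
  have hmk : ∀ v : Fib (fun q : QQ Γ co N => e q.1.1) (e r), ∃ x, ∃ hx : x ∈ r.1.2,
      v = mk x hx := by
    rintro ⟨⟨⟨s, v⟩, hv⟩, hq⟩
    have h1 : s = r := e.injective hq
    subst h1
    obtain ⟨x, hx, hv'⟩ := hv
    have hv'' : (co x s.1.1).1 = v := hv'
    subst hv''
    exact ⟨x, hx, rfl⟩
  have hmk_eq : ∀ x hx y hy, (co x r.1.1).1 = (co y r.1.1).1 → mk x hx = mk y hy := by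
    intro x hx y hy h
    exact Subtype.ext (Subtype.ext (Prod.ext rfl h))
  have hmk_eq' : ∀ x hx y hy, mk x hx = mk y hy → co x r.1.1 = co y r.1.1 := by
    intro x hx y hy h
    have h1 : (mk x hx).1.1.2 = (mk y hy).1.1.2 := by rw [h]
    exact Subtype.ext h1
  have hmk_smul : ∀ (a : MulAction.stabilizer G (e r)) x hx (hx' : (a : G) • x ∈ r.1.2),
      a • mk x hx = mk ((a : G) • x) hx' := by
    intro a x hx hx'
    apply Subtype.ext
    apply Subtype.ext
    refine Prod.ext ?_ ?_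
    · exact hst a
    · change (a : G) • (co x r.1.1).1 = (co ((a : G) • x) r.1.1).1
      rw [E03_co L.pre.ract (hlab _ (hst a))]
  -- moving inside a panel
  have hpan : ∀ x ∈ r.1.2, ∀ y, Ag co {r.1.1} x y → y ∈ r.1.2 := by
    intro x hx y hy
    have h1 := reg_mem r.2 hx
    rw [h1]
    change Ag co (RaagIso.st Γ r.1.1) x y
    refine ag_mono ?_ hy
    intro k hk
    exact Or.inl (Set.mem_singleton_iff.1 hk)
  have hpt : ∀ x ∈ r.1.2, ∀ y ∈ r.1.2, ∃ z ∈ r.1.2, Ag co {r.1.1} x z ∧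
      co z r.1.1 = co y r.1.1 := by
    intro x hx y hy
    have h1 := reg_mem r.2 hx
    have h2 : y ∈ (rg Γ co x r.1.1).2 := by
      rw [← h1]
      exact hy
    obtain ⟨z, hz, hz'⟩ := reg_pt L.ms.b (v := r.1.1) (x := x) (y := y) h2
    exact ⟨z, hpan x hx z hz, hz, hz'⟩
  have hloc : ∀ v, ((comp (fun q : QQ Γ co N => e q.1.1) (qgr Γ co N S)
      (e r)).neighborSet v).Finite := by
    intro v
    obtain ⟨x, hx, rfl⟩ := hmk v
    refine ((L.ms.loc x r.1.1).image fun y => if hy : y ∈ r.1.2 then mk y hy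
      else mk x hx).subset ?_
    intro w hw
    obtain ⟨y, hy, rfl⟩ := hmk w
    obtain ⟨z, hz, hz1, hz2⟩ := hpt x hx y hy
    refine ⟨z, ⟨?_, fun k hk => hz1 k hk⟩, ?_⟩
    · rw [hz2]
      exact hw.2
    · dsimp only
      rw [dif_pos hz]
      exact hmk_eq _ hz _ hy (congrArg Subtype.val hz2)
  obtain ⟨F, hF⟩ := E03_pts L r
  refine ⟨hta, hloc, ?_, ?_⟩
  · refine ⟨F.biUnion fun x => if hx : x ∈ r.1.2 then {mk x hx} else ∅, fun v => ?_⟩
    obtain ⟨x, hx, rfl⟩ := hmk v
    obtain ⟨a, ha, hax⟩ := hF x hx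
    have hx' : a • x ∈ r.1.2 := (hmem a ha x).2 hx
    refine ⟨⟨a, hst' a ha⟩, ?_⟩
    rw [Finset.mem_biUnion]
    refine ⟨a • x, hax, ?_⟩
    rw [dif_pos hx', Finset.mem_singleton]
    exact hmk_smul ⟨a, hst' a ha⟩ x hx hx'
  · -- the action on the panels
    let W := E03_W r
    let act : MulAction (MulAction.stabilizer G (e r)) W :=
      { smul := fun a B => ⟨{y | (a : G)⁻¹ • y ∈ B.1}, by
          obtain ⟨x, hx, hB⟩ := B.2
          refine ⟨(a : G) • x, (hmem _ (hst a) x).2 hx, ?_⟩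
          rw [hB]
          ext y
          change Ag co {r.1.1} x ((a : G)⁻¹ • y) ↔ Ag co {r.1.1} ((a : G) • x) y
          rw [← E03_ag L.pre.ract (hlab _ (hst a)), smul_inv_smul]⟩
        one_smul := fun B => by
          apply Subtype.ext
          ext y
          change ((1 : G))⁻¹ • y ∈ B.1 ↔ y ∈ B.1
          rw [inv_one, one_smul]
        mul_smul := fun a b B => by
          apply Subtype.ext
          ext y
          change ((a : G) * (b : G))⁻¹ • y ∈ B.1 ↔ (b : G)⁻¹ • (a : G)⁻¹ • y ∈ B.1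
          rw [mul_inv_rev, mul_smul] }
    have hact : ∀ (a : MulAction.stabilizer G (e r)) (B : W) (y : Pt),
        y ∈ (a • B).1 ↔ (a : G)⁻¹ • y ∈ B.1 := fun a B y => Iff.rfl
    let pn : ∀ x, x ∈ r.1.2 → W := fun x hx => ⟨{y | Ag co {r.1.1} x y}, x, hx, rfl⟩
    have hpn : ∀ w : W, ∃ x, ∃ hx : x ∈ r.1.2, w = pn x hx := by
      rintro ⟨B, x, hx, hB⟩
      exact ⟨x, hx, Subtype.ext hB⟩
    have hpn_eq : ∀ x hx y hy, Ag co {r.1.1} x y → pn x hx = pn y hy := by
      intro x hx y hy h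
      apply Subtype.ext
      ext z
      exact ⟨fun h1 => ag_trans (ag_symm h) h1, fun h1 => ag_trans h h1⟩
    have hpn_eq' : ∀ x hx y hy, pn x hx = pn y hy → Ag co {r.1.1} x y := by
      intro x hx y hy h
      have h1 : y ∈ (pn y hy).1 := ag_refl y
      rw [← h] at h1
      exact h1
    have hpn_smul : ∀ (a : MulAction.stabilizer G (e r)) x hx (hx' : (a : G) • x ∈ r.1.2),
        a • pn x hx = pn ((a : G) • x) hx' := by
      intro a x hx hx'
      apply Subtype.ext
      ext y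
      rw [hact]
      change Ag co {r.1.1} x ((a : G)⁻¹ • y) ↔ Ag co {r.1.1} ((a : G) • x) y
      rw [← E03_ag L.pre.ract (hlab _ (hst a)), smul_inv_smul]
    -- vertices and panels correspond to points
    have hboth : ∀ v (w : W), ∃ z, ∃ hz : z ∈ r.1.2, v = mk z hz ∧ w = pn z hz := by
      intro v w
      obtain ⟨y, hy, rfl⟩ := hmk v
      obtain ⟨x, hx, rfl⟩ := hpn w
      obtain ⟨z, hz, hz1, hz2⟩ := hpt x hx y hy
      exact ⟨z, hz, hmk_eq _ hy _ hz (congrArg Subtype.val hz2.symm), hpn_eq _ hx _ hz hz1⟩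
    have hprop : ∀ (v : Fib (fun q : QQ Γ co N => e q.1.1) (e r)) (w : W),
        {g : MulAction.stabilizer G (e r) | g • v = v ∧ g • w = w}.Finite := by
      intro v w
      obtain ⟨z, hz, rfl, rfl⟩ := hboth v w
      refine ((L.prop z).preimage (Subtype.val_injective.injOn
        (s := Subtype.val ⁻¹' {g : G | g • z = z}))).subset ?_
      rintro a ⟨h1, h2⟩
      have hz' : (a : G) • z ∈ r.1.2 := (hmem _ (hst a) z).2 hz
      rw [hmk_smul a z hz hz'] at h1
      rw [hpn_smul a z hz hz'] at h2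
      have h3 := hmk_eq' _ hz' _ hz h1
      have h4 := hpn_eq' _ hz' _ hz h2
      refine L.ms.b.inj _ _ fun k => ?_
      by_cases hk : k = r.1.1
      · subst hk
        exact h3
      · exact (h4 k hk).symm
    have hfin : ∃ F : Finset (Fib (fun q : QQ Γ co N => e q.1.1) (e r) × W), ∀ v w,
        ∃ g : MulAction.stabilizer G (e r), (g • v, g • w) ∈ F := by
      refine ⟨F.biUnion fun x => if hx : x ∈ r.1.2 then {(mk x hx, pn x hx)} else ∅,
        fun v w => ?_⟩
      obtain ⟨z, hz, rfl, rfl⟩ := hboth v w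
      obtain ⟨a, ha, haz⟩ := hF z hz
      have hz' : a • z ∈ r.1.2 := (hmem a ha z).2 hz
      refine ⟨⟨a, hst' a ha⟩, ?_⟩
      rw [Finset.mem_biUnion]
      refine ⟨a • z, haz, ?_⟩
      rw [dif_pos hz', Finset.mem_singleton]
      exact Prod.ext (hmk_smul ⟨a, hst' a ha⟩ z hz hz') (hpn_smul ⟨a, hst' a ha⟩ z hz hz')
    obtain ⟨x0, hx0⟩ := E03_ne r
    intro v x g h1
    exact gcinv hta hloc hprop hfin (pn x0 hx0) v x g h1

end

end VTB
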