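import Pool.Agent.Lib.MP_32d917_al_vt.E01
import Pool.Agent.Lib.MP_32d917_al_vt.C02

/-!
# E03B: the regions of the central labels

`cl_reg`: the label of the region `r` is central iff `r` is adjacent to all other regions. `cen_ell`: corresponding central regions have the same elliptic subgroups.
-/

set_option autoImplicit false

namespace VTB

open LatIso LatN LatF RaagIso

section

variable {H : Type} [Group H] {ι Pt : Type} [Fintype ι] {V : ι → Type} [MulAction H Pt]
  [∀ i, MulAction H (V i)] {Γ : SimpleGraph ι}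
  {S : ∀ i, SimpleGraph (V i)} {co : Pt → ∀ i, V i} {N : Pt → ι → Prop}

/-- at some point all labels occur -/
theorem all_oc (M : MS Γ S co N) : ∃ y, ∀ j, Oc Γ N y j := by
  obtain ⟨x⟩ := M.b.ne
  obtain ⟨y, -, hy, -⟩ := chamber M Set.univ x
  refine ⟨y, fun j v hv => ?_⟩
  by_contra hj
  have hc : ¬ CL Γ v := fun hc => hj (hc j)
  exact hy v (Set.mem_univ v) hc hv

omit [Fintype ι] in
theorem cl_univ (M : MS1 Γ S co N) {r : ι × Set Pt} (hr : IsReg Γ co N r) (hc : CL Γ r.1) :
    r.2 = Set.univ := by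
  obtain ⟨x, _, h⟩ := hr
  rw [h]
  ext y
  simp only [Set.mem_setOf_eq, Set.mem_univ, iff_true]
  exact fun j hj => absurd (hc j) hj

theorem cl_reg (M : MS Γ S co N) (r : Rg Γ co N) :
    CL Γ r.1.1 ↔ ∀ s : Rg Γ co N, s ≠ r → RAdj Γ r.1 s.1 := by
  constructor
  · intro hc s hs
    have hne : r.1.1 ≠ s.1.1 := by
      intro h
      apply hs
      have hc' : CL Γ s.1.1 := by rw [← h]; exact hc
      exact Subtype.ext (Prod.ext h.symm ((cl_univ M.b s.2 hc').trans (cl_univ M.b r.2 hc).symm))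
    refine ⟨cl_adj hc hne, ?_⟩
    obtain ⟨x, _, h⟩ := s.2
    refine ⟨x, ?_, ?_⟩
    · rw [cl_univ M.b r.2 hc]
      exact Set.mem_univ x
    · rw [h]
      exact ag_refl x
  · intro h j
    by_cases hj : j = r.1.1
    · exact Or.inl hj
    · obtain ⟨y, hy⟩ := all_oc M
      have h1 := h ⟨rg Γ co y j, rg_isReg (hy j)⟩ fun he =>
        hj (congrArg (fun s : Rg Γ co N => s.1.1) he)
      exact Or.inr h1.1

variable {ι' Pt' : Type} [Fintype ι'] {V' : ι' → Type} [MulAction H Pt']
  [∀ i, MulAction H (V' i)] {Γ' : SimpleGraph ι'}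
  {S' : ∀ i, SimpleGraph (V' i)} {co' : Pt' → ∀ i, V' i} {N' : Pt' → ι' → Prop}

theorem cen_ell (L : HLat H Γ S co N) (L' : HLat H Γ' S' co' N') {x : Pt} {x' : Pt'} {i : ι}
    {i' : ι'} (hc : CL Γ i) (hc' : CL Γ' i')
    (hK : PowLe (stJ H co x {i}) (stJ H co' x' {i'})) :
    ∃ q : V' i', ∀ h : H, h • co x i = co x i → h • q = q := by
  have ho : Oc Γ N x i := fun v _ => cl_symm hc v
  obtain ⟨a, ha, ha0⟩ := k_hyp L ho
  have hio : ¬ IsOfFinOrder a := hyp_io L ha0
  obtain ⟨n, hn, han⟩ := hK a ha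
  have hyp : 0 < tl (S' i') (a ^ n) := by
    rw [Nat.pos_iff_ne_zero]
    intro h0
    obtain ⟨q, hq⟩ := (tl_eq_zero (L'.ta i') (a ^ n)).1 h0
    obtain ⟨y, -, hy⟩ := f4_J L' (Subgroup.zpowers (a ^ n)) (x := x') (I := {i'}) (J := ∅)
      (by
        rw [Subgroup.zpowers_le]
        exact han)
      (by
        intro u hu _
        rw [Set.mem_singleton_iff] at hu
        subst hu
        refine ⟨q, fun b hb => ?_⟩
        have h1 : Subgroup.zpowers (a ^ n) ≤ MulAction.stabilizer H q := by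
          rw [Subgroup.zpowers_le]
          exact hq
        exact h1 hb)
    have hfin : ((Subgroup.zpowers (a ^ n) : Subgroup H) : Set H).Finite := by
      refine (L'.prop y).subset fun b hb => ?_
      have h1 := hy hb
      exact L'.ms.b.inj _ _ fun j => (L'.hco b y j).trans (h1 j (Set.notMem_empty j))
    have hfo : IsOfFinOrder (a ^ n) := by
      rw [← finite_zpowers]
      exact hfin
    exact hio (hfo.of_pow hn.ne')
  have hell : ∀ g ∈ stJ H co x (lk Γ i), tl (S' i') g = 0 := by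
    intro g hg
    by_contra h0
    refine st34 L (L'.ta i') ho ⟨a ^ n, Subgroup.pow_mem _ ha n, hyp⟩
      ⟨g, hg, Nat.pos_of_ne_zero h0⟩ (gen_mono (gen_cl L' x' hc') ?_)
    intro b _ j hj
    exact absurd (hc j) hj
  obtain ⟨q, hq⟩ := fg_fix (L'.ta i') _ (stJ_fg L x (lk Γ i)) hell
  refine ⟨q, fun h hh => hq h fun j hj => ?_⟩
  rcases hc j with h1 | h1
  · rw [h1]
    exact hh
  · exact absurd h1 hj

end

end VTB
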