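import Pool.Agent.Lib.MP_32d917_al_vt.E01
import Pool.Agent.Lib.MP_32d917_al_vt.C02
import Pool.Agent.Lib.MP_32d917_al_vt.E03B

/-!
# E04: equivariance

Throughout `g • q` for `q : QQ` etc. as in VE.lean; the fibre of `κ` over `i` is mapped by `g` to the fibre over `g • i`, preserving adjacency in `comp κ S`, hence distances and `Bt` (`bt_g`: a general lemma: a bijection preserving adjacency both ways preserves `dist`; the inverse is the action of `g⁻¹`).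
`prjq_g`: `x' ∈ (g • r).1.2` iff `g⁻¹ • x' ∈ r.1.2`, `co (g⁻¹ • x') i = g⁻¹ • co x' (g • i)`. `prq_g`, `qint_g`: the same. `radj_g`, `rst_g`: `L.pre.gam`.
`f_equiv` (existence of the equivariant bijection of the regions): `ker2` gives `H`; `vlat_hlat` gives `HLat H` for both structures; `rg_equiv` gives `F` with `KCorr H co co' r (F r)`. Equivariance: by `rg_uniq` for the region `g • r`: `KCorr H co co' (g • r) (F (g • r))` and `KCorr H co co' (g • r) (g • F r)`. The latter: for `x ∈ (g • r).1.2`, `x' ∈ (g • F r).1.2`: an element `a` of `stJ H co x {g • i}` is mapped by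
conjugation with `g⁻¹` to an element of `stJ H co (g⁻¹ • x) {i}` (`H` normal; `a` fixes all labels); a power of it is in `stJ H co' (g⁻¹ • x') {i'}`; conjugate back.
-/

set_option autoImplicit false

namespace VTB

open LatIso LatN LatF RaagIso

section

variable {G : Type} [Group G] {ι Pt V : Type} [Fintype ι] [MulAction G Pt] [MulAction G V]
  [MulAction G ι] {Γ : SimpleGraph ι} {κ : V → ι} {S : SimpleGraph V}
  {co : Pt → ∀ i, Fib κ i} {N : Pt → ι → Prop} [Fact (RAct G Γ κ co N)]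

private theorem e04_walk (hκ : KEq G κ)
    (hS : ∀ (g : G) x y, S.Adj x y → S.Adj (g • x) (g • y)) (g : G) {i j : ι}
    (hij : g • i = j) {a b : Fib κ i} (w : (comp κ S i).Walk a b) :
    ∀ a' b' : Fib κ j, a'.1 = g • a.1 → b'.1 = g • b.1 →
      ∃ w' : (comp κ S j).Walk a' b', w'.length = w.length := by
  induction w with
  | nil =>
    intro a' b' h1 h2
    have h3 : a' = b' := Subtype.ext (h1.trans h2.symm)
    subst h3
    exact ⟨SimpleGraph.Walk.nil, rfl⟩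
  | @cons a c b hac p ih =>
    intro a' b' h1 h2
    have hc : κ (g • c.1) = j := by rw [hκ, c.2, hij]
    obtain ⟨w', hw'⟩ := ih ⟨g • c.1, hc⟩ b' rfl h2
    have hadj : (comp κ S j).Adj a' ⟨g • c.1, hc⟩ := by
      show S.Adj a'.1 (g • c.1)
      rw [h1]
      exact hS g _ _ hac
    exact ⟨SimpleGraph.Walk.cons hadj w', by
      rw [SimpleGraph.Walk.length_cons, SimpleGraph.Walk.length_cons, hw']⟩

private theorem e04_dist (hκ : KEq G κ)
    (hS : ∀ (g : G) x y, S.Adj x y → S.Adj (g • x) (g • y)) (g : G) {i j : ι}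
    (a b : Fib κ i) (a' b' : Fib κ j) (ha : a'.1 = g • a.1) (hb : b'.1 = g • b.1) :
    (comp κ S j).dist a' b' = (comp κ S i).dist a b := by
  have hij : g • i = j := by rw [← a'.2, ha, hκ, a.2]
  have hji : g⁻¹ • j = i := by rw [← hij, inv_smul_smul]
  have ha' : a.1 = g⁻¹ • a'.1 := by rw [ha, inv_smul_smul]
  have hb' : b.1 = g⁻¹ • b'.1 := by rw [hb, inv_smul_smul]
  by_cases hr : (comp κ S i).Reachable a b
  · obtain ⟨w, hw⟩ := hr.exists_walk_length_eq_dist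
    obtain ⟨w1, hw1⟩ := e04_walk hκ hS g hij w a' b' ha hb
    obtain ⟨w', hw'⟩ := (w1.reachable).exists_walk_length_eq_dist
    obtain ⟨w2, hw2⟩ := e04_walk hκ hS g⁻¹ hji w' a b ha' hb'
    apply le_antisymm
    · rw [← hw, ← hw1]
      exact SimpleGraph.dist_le w1
    · rw [← hw', ← hw2]
      exact SimpleGraph.dist_le w2
  · have hr' : ¬ (comp κ S j).Reachable a' b' := by
      rintro ⟨w'⟩
      obtain ⟨w2, _⟩ := e04_walk hκ hS g⁻¹ hji w' a b ha' hb'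
      exact hr ⟨w2⟩
    rw [SimpleGraph.dist_eq_zero_of_not_reachable hr,
      SimpleGraph.dist_eq_zero_of_not_reachable hr']

theorem bt_g (hκ : KEq G κ) (hS : ∀ (g : G) x y, S.Adj x y → S.Adj (g • x) (g • y)) (g : G)
    {i j : ι}
    (a b c : Fib κ i) (a' b' c' : Fib κ j) (ha : a'.1 = g • a.1) (hb : b'.1 = g • b.1)
    (hc : c'.1 = g • c.1) : Bt (comp κ S j) a' b' c' ↔ Bt (comp κ S i) a b c := by
  unfold Bt
  rw [e04_dist hκ hS g a b a' b' ha hb, e04_dist hκ hS g b c b' c' hb hc,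
    e04_dist hκ hS g a c a' c' ha hc]

private theorem e04_vr (g : G) (r : Rg Γ co N) (p : Fib κ r.1.1) (p' : Fib κ (g • r.1.1))
    (hp : p'.1 = g • p.1) : VR co (g • r).1 p' ↔ VR co r.1 p := by
  have R : RAct G Γ κ co N := Fact.out
  constructor
  · rintro ⟨y, hy, hy'⟩
    refine ⟨g⁻¹ • y, hy, ?_⟩
    apply Subtype.ext
    apply MulAction.injective g
    have h1 := R.gco g (g⁻¹ • y) r.1.1
    rw [smul_inv_smul] at h1
    show g • (co (g⁻¹ • y) r.1.1).1 = g • p.1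
    rw [← h1, ← hp]
    exact congrArg Subtype.val hy'
  · rintro ⟨x, hx, hx'⟩
    refine ⟨g • x, ?_, ?_⟩
    · show g⁻¹ • g • x ∈ r.1.2
      rw [inv_smul_smul]
      exact hx
    · apply Subtype.ext
      have h1 := R.gco g x r.1.1
      rw [hx', ← hp] at h1
      exact h1

private theorem e04_prj (L : VPre G Γ κ S co N) (g : G) (r : Rg Γ co N) (p : Fib κ r.1.1)
    (p' : Fib κ (g • r.1.1)) (hp : p'.1 = g • p.1) (x : Pt) :
    Prj (comp κ S) co (g • r).1 (g • x) p' ↔ Prj (comp κ S) co r.1 x p := by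
  have R : RAct G Γ κ co N := Fact.out
  unfold Prj
  rw [e04_vr g r p p' hp]
  refine and_congr_right fun _ => ?_
  have hbt : ∀ (t : Fib κ r.1.1) (t' : Fib κ (g • r.1.1)), t'.1 = g • t.1 →
      (Bt (comp κ S (g • r.1.1)) (co (g • x) (g • r.1.1)) p' t' ↔
        Bt (comp κ S r.1.1) (co x r.1.1) p t) := fun t t' ht =>
    bt_g R.kap L.act.adj g _ _ _ _ _ _ (R.gco g x r.1.1) hp ht
  constructor
  · intro h t ht
    have hk : κ (g • t.1) = g • r.1.1 := by rw [R.kap, t.2]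
    exact (hbt t ⟨g • t.1, hk⟩ rfl).1 (h ⟨g • t.1, hk⟩ ((e04_vr g r t ⟨g • t.1, hk⟩ rfl).2 ht))
  · intro h t' ht'
    have hk : κ (g⁻¹ • t'.1) = r.1.1 := by
      have h1 : κ t'.1 = g • r.1.1 := t'.2
      rw [R.kap, h1, inv_smul_smul]
    have he : t'.1 = g • (⟨g⁻¹ • t'.1, hk⟩ : Fib κ r.1.1).1 := (smul_inv_smul g t'.1).symm
    exact (hbt ⟨g⁻¹ • t'.1, hk⟩ t' he).2 (h _ ((e04_vr g r _ t' he).1 ht'))

theorem prjq_g (L : VPre G Γ κ S co N) (g : G) (q : QQ Γ co N) (x : Pt) :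
    PrjQ S (g • q) (g • x) ↔ PrjQ S q x :=
  e04_prj L g q.1.1 (qp q) (qp (g • q)) rfl x

theorem prq_g (L : VPre G Γ κ S co N) (g : G) (q : QQ Γ co N) (s : Rg Γ co N) :
    PrQ S (g • q) (g • s) ↔ PrQ S q s := by
  constructor
  · intro h x hx
    refine (prjq_g L g q x).1 (h (g • x) ?_)
    show g⁻¹ • g • x ∈ s.1.2
    rw [inv_smul_smul]
    exact hx
  · intro h x hx
    have h1 := (prjq_g L g q (g⁻¹ • x)).2 (h (g⁻¹ • x) hx)
    rw [smul_inv_smul] at h1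
    exact h1

theorem qint_g (g : G) (q : QQ Γ co N) : QInt (g • q) ↔ QInt q := by
  have R : RAct G Γ κ co N := Fact.out
  constructor
  · rintro ⟨y, hy, hy', hN⟩
    refine ⟨g⁻¹ • y, hy, ?_, ?_⟩
    · apply Subtype.ext
      apply MulAction.injective g
      have h1 := R.gco g (g⁻¹ • y) q.1.1.1.1
      rw [smul_inv_smul] at h1
      show g • (co (g⁻¹ • y) q.1.1.1.1).1 = g • q.1.2
      rw [← h1]
      exact congrArg Subtype.val hy'
    · have h1 := R.gn g (g⁻¹ • y) q.1.1.1.1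
      rw [smul_inv_smul] at h1
      exact h1.1 hN
  · rintro ⟨x, hx, hx', hN⟩
    refine ⟨g • x, ?_, ?_, (R.gn g x _).2 hN⟩
    · show g⁻¹ • g • x ∈ q.1.1.1.2
      rw [inv_smul_smul]
      exact hx
    · apply Subtype.ext
      have h1 := R.gco g x q.1.1.1.1
      rw [hx'] at h1
      exact h1

theorem radj_g (g : G) (r s : Rg Γ co N) : RAdj Γ (g • r).1 (g • s).1 ↔ RAdj Γ r.1 s.1 := by
  have R : RAct G Γ κ co N := Fact.out
  constructor
  · rintro ⟨h1, x, hx, hx'⟩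
    exact ⟨(R.gam g _ _).1 h1, g⁻¹ • x, hx, hx'⟩
  · rintro ⟨h1, x, hx, hx'⟩
    refine ⟨(R.gam g _ _).2 h1, g • x, ?_, ?_⟩
    · show g⁻¹ • g • x ∈ r.1.2
      rw [inv_smul_smul]
      exact hx
    · show g⁻¹ • g • x ∈ s.1.2
      rw [inv_smul_smul]
      exact hx'

theorem rst_g (g : G) (r s : Rg Γ co N) : RSt Γ (g • r).1 (g • s).1 ↔ RSt Γ r.1 s.1 := by
  have h1 : (g • r).1 = (g • s).1 ↔ r.1 = s.1 := by
    rw [← Subtype.ext_iff, ← Subtype.ext_iff]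
    exact (MulAction.injective g).eq_iff
  unfold RSt
  rw [h1, radj_g]

/-- conjugation of an element of a normal subgroup -/
private def e04_cj {H : Subgroup G} (hN : H.Normal) (c : G) (a : H) : H :=
  ⟨c * a * c⁻¹, hN.conj_mem a a.2 c⟩

private theorem e04_cj_mem [Fact (KEq G κ)] (R : RAct G Γ κ co N) (H : Subgroup G)
    [Fact (∀ g ∈ H, ∀ i : ι, g • i = i)] (hN : H.Normal) (c : G) (a : H) (x : Pt) (i : ι) :
    e04_cj hN c a ∈ stJ H co (c • x) {c • i} ↔ a ∈ stJ H co x {i} := by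
  have h1 : ∀ k : ι, (e04_cj hN c a • co (c • x) (c • k) = co (c • x) (c • k)) ↔
      (a • co x k = co x k) := by
    intro k
    have h2 := R.gco c x k
    constructor
    · intro h
      have h3 : (c * (a : G) * c⁻¹) • (co (c • x) (c • k)).1 = (co (c • x) (c • k)).1 :=
        congrArg Subtype.val h
      rw [h2, mul_smul, mul_smul, inv_smul_smul] at h3
      exact Subtype.ext (MulAction.injective c h3)
    · intro h
      have h3 : (a : G) • (co x k).1 = (co x k).1 := congrArg Subtype.val h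
      apply Subtype.ext
      show (c * (a : G) * c⁻¹) • (co (c • x) (c • k)).1 = (co (c • x) (c • k)).1
      rw [h2, mul_smul, mul_smul, inv_smul_smul, h3]
  constructor
  · intro h k hk
    refine (h1 k).1 (h (c • k) fun hk' => hk ?_)
    exact MulAction.injective c hk'
  · intro h j hj
    obtain ⟨k, rfl⟩ : ∃ k, c • k = j := ⟨c⁻¹ • j, smul_inv_smul c j⟩
    refine (h1 k).2 (h k fun hk' => hj ?_)
    have hk2 : k = i := hk'
    rw [hk2]
    exact rfl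

private theorem e04_cj_pow {H : Subgroup G} (hN : H.Normal) (c : G) (a : H) (n : ℕ) :
    e04_cj hN c ((e04_cj hN c⁻¹ a) ^ n) = a ^ n := by
  apply Subtype.ext
  show c * ((c⁻¹ * (a : G) * c⁻¹⁻¹) ^ n : G) * c⁻¹ = (a : G) ^ n
  rw [conj_pow]
  group

variable {ι' Pt' V' : Type} [Fintype ι'] [MulAction G Pt'] [MulAction G V'] [MulAction G ι']
  {Γ' : SimpleGraph ι'} {κ' : V' → ι'} {S' : SimpleGraph V'} {co' : Pt' → ∀ i, Fib κ' i}
  {N' : Pt' → ι' → Prop} [Fact (RAct G Γ' κ' co' N')]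

private theorem e04_pow [Fact (KEq G κ)] [Fact (KEq G κ')] (H : Subgroup G)
    [Fact (∀ g ∈ H, ∀ i : ι, g • i = i)] [Fact (∀ g ∈ H, ∀ i : ι', g • i = i)]
    (R : RAct G Γ κ co N) (R' : RAct G Γ' κ' co' N')
    (hN : H.Normal) (c : G) {x : Pt} {x' : Pt'} {i : ι} {i' : ι'}
    (h : PowLe (stJ H co x {i}) (stJ H co' x' {i'})) :
    PowLe (stJ H co (c • x) {c • i}) (stJ H co' (c • x') {c • i'}) := by
  intro a ha
  have e1 := e04_cj_pow hN c a 1
  rw [pow_one, pow_one] at e1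
  rw [← e1, e04_cj_mem R] at ha
  obtain ⟨n, hn, h1⟩ := h _ ha
  refine ⟨n, hn, ?_⟩
  rw [← e04_cj_pow hN c a n, e04_cj_mem R']
  exact h1

theorem f_equiv (L : VLat G Γ κ S co N) (hC : CLeaf Γ (comp κ S)) (L' : VLat G Γ' κ' S' co' N')
    (hC' : CLeaf Γ' (comp κ' S')) :
    ∃ F : Rg Γ co N ≃ Rg Γ' co' N', (∀ (g : G) r, F (g • r) = g • F r) ∧
      (∀ r s, RAdj Γ r.1 s.1 ↔ RAdj Γ' (F r).1 (F s).1) ∧
      ∃ H : Subgroup G, H.FiniteIndex ∧ ∀ r, CL Γ r.1.1 →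
        (∀ v : Fib κ r.1.1, ∃ w : Fib κ' (F r).1.1, ∀ h ∈ H, h • v.1 = v.1 → h • w.1 = w.1) ∧
        ∀ w : Fib κ' (F r).1.1, ∃ v : Fib κ r.1.1, ∀ h ∈ H, h • w.1 = w.1 → h • v.1 = v.1 := by
  have R : RAct G Γ κ co N := Fact.out
  have R' : RAct G Γ' κ' co' N' := Fact.out
  obtain ⟨H, h1, h2, h3, h4⟩ := ker2 G ι ι'
  have : Fact (KEq G κ) := ⟨R.kap⟩
  have : Fact (KEq G κ') := ⟨R'.kap⟩
  have : Fact (∀ g ∈ H, ∀ i : ι, g • i = i) := ⟨h1⟩
  have : Fact (∀ g ∈ H, ∀ i : ι', g • i = i) := ⟨h2⟩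
  have LH := vlat_hlat L hC H h3
  have LH' := vlat_hlat L' hC' H h3
  obtain ⟨F, hF, hadj⟩ := rg_equiv LH LH'
  refine ⟨F, fun g r => ?_, hadj, H, h3, fun r hc => ?_⟩
  rotate_left
  · have hc' : CL Γ' (F r).1.1 := (cl_reg L'.ms (F r)).2 fun s' hs' => by
      obtain ⟨s, rfl⟩ := F.surjective s'
      rw [← hadj]
      exact (cl_reg L.ms r).1 hc s fun h => hs' (by rw [h])
    have u1 := cl_univ L.ms.b r.2 hc
    have u2 := cl_univ L'.ms.b (F r).2 hc'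
    constructor
    · intro v
      obtain ⟨x, hx⟩ := L.ms.b.onto r.1.1 v
      obtain ⟨x'⟩ := L'.ms.b.ne
      obtain ⟨q, hq⟩ := cen_ell LH LH' hc hc' (hF r x (by rw [u1]; exact Set.mem_univ x) x'
        (by rw [u2]; exact Set.mem_univ x')).1
      refine ⟨q, fun h hh hv => ?_⟩
      have h5 := hq ⟨h, hh⟩ (by
        rw [hx]
        exact Subtype.ext hv)
      exact congrArg Subtype.val h5
    · intro w
      obtain ⟨x', hx'⟩ := L'.ms.b.onto (F r).1.1 w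
      obtain ⟨x⟩ := L.ms.b.ne
      obtain ⟨q, hq⟩ := cen_ell LH' LH hc' hc (hF r x (by rw [u1]; exact Set.mem_univ x) x'
        (by rw [u2]; exact Set.mem_univ x')).2
      refine ⟨q, fun h hh hv => ?_⟩
      have h5 := hq ⟨h, hh⟩ (by
        rw [hx']
        exact Subtype.ext hv)
      exact congrArg Subtype.val h5
  have hne : (g • r).1.2.Nonempty := by
    obtain ⟨x0, _, h0⟩ := (g • r).2
    exact ⟨x0, by rw [h0]; exact ag_refl x0⟩
  refine rg_uniq LH' hne (hF (g • r)) ?_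
  intro x hx x' hx'
  obtain ⟨y, rfl⟩ : ∃ y, g • y = x := ⟨g⁻¹ • x, smul_inv_smul g x⟩
  obtain ⟨y', rfl⟩ : ∃ y', g • y' = x' := ⟨g⁻¹ • x', smul_inv_smul g x'⟩
  have hy : y ∈ r.1.2 := by
    have h5 : g⁻¹ • g • y ∈ r.1.2 := hx
    rwa [inv_smul_smul] at h5
  have hy' : y' ∈ (F r).1.2 := by
    have h5 : g⁻¹ • g • y' ∈ (F r).1.2 := hx'
    rwa [inv_smul_smul] at h5
  obtain ⟨k1, k2⟩ := hF r y hy y' hy'
  exact ⟨e04_pow H R R' h4 g k1, e04_pow H R' R h4 g k2⟩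

/-- the vertices `q`, `q'` are not internal and correspond -/
def PCQ (S : SimpleGraph V) (S' : SimpleGraph V') (F : Rg Γ co N ≃ Rg Γ' co' N')
    (q : QQ Γ co N) (q' : QQ Γ' co' N') : Prop :=
  q'.1.1 = F q.1.1 ∧ ¬ QInt q ∧ ¬ QInt q' ∧
    ∀ s : Rg Γ co N, ¬ RSt Γ q.1.1.1 s.1 → (PrQ S q s ↔ PrQ S' q' (F s))

theorem pcq_g (L : VPre G Γ κ S co N) (L' : VPre G Γ' κ' S' co' N')
    (F : Rg Γ co N ≃ Rg Γ' co' N') (hF : ∀ (g : G) r, F (g • r) = g • F r) (g : G)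
    (q : QQ Γ co N) (q' : QQ Γ' co' N') (h : PCQ S S' F q q') :
    PCQ S S' F (g • q) (g • q') := by
  obtain ⟨h1, h2, h3, h4⟩ := h
  refine ⟨?_, fun h5 => h2 ((qint_g g q).1 h5), fun h5 => h3 ((qint_g g q').1 h5), ?_⟩
  · show g • q'.1.1 = F (g • q.1.1)
    rw [hF, h1]
  · intro s hs
    obtain ⟨t, rfl⟩ : ∃ t, g • t = s := ⟨g⁻¹ • s, smul_inv_smul g s⟩
    have ht : ¬ RSt Γ q.1.1.1 t.1 := fun h5 => hs ((rst_g g q.1.1 t).2 h5)
    rw [prq_g L, h4 t ht, hF, prq_g L']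

/-- the translation between `PC` and `PCQ` -/
theorem pcq_iff (F : Rg Γ co N ≃ Rg Γ' co' N') (q : QQ Γ co N) (q' : QQ Γ' co' N') :
    PCQ S S' F q q' ↔ ∃ p', VR co' (F q.1.1).1 p' ∧ p'.1 = q'.1.2 ∧ q'.1.1 = F q.1.1 ∧
      PC (comp κ S) co (comp κ' S') co' F q.1.1 (qp q) p' := by
  obtain ⟨⟨r', v⟩, hq'⟩ := q'
  constructor
  · rintro ⟨h1, h2, h3, h4⟩
    have h5 : r' = F q.1.1 := h1
    subst h5
    have h6 := qp_vr (⟨(F q.1.1, v), hq'⟩ : QQ Γ' co' N')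
    exact ⟨qp ⟨(F q.1.1, v), hq'⟩, h6, rfl, rfl, ⟨qp_vr q, h2, h6, h3, h4⟩⟩
  · rintro ⟨p', h1, h2, h3, h4⟩
    have h5 : r' = F q.1.1 := h3
    subst h5
    have h6 : p' = qp ⟨(F q.1.1, v), hq'⟩ := Subtype.ext h2
    subst h6
    exact ⟨rfl, h4.ni, h4.ni', h4.iff⟩

theorem pcq_exists (L : VLat G Γ κ S co N) (L' : VLat G Γ' κ' S' co' N')
    (F : Rg Γ co N ≃ Rg Γ' co' N') (hF : ∀ r s, RAdj Γ r.1 s.1 ↔ RAdj Γ' (F r).1 (F s).1)
    (q : QQ Γ co N) (hq : ¬ QInt q) : ∃! q', PCQ S S' F q q' := by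
  obtain ⟨p', hp', hu⟩ := pc_exists L.ms L.gg L'.ms L'.gg F hF q.1.1 (qp_vr q) hq
  refine ⟨mkq (F q.1.1) p' hp'.vr', (pcq_iff F q _).2 ⟨p', hp'.vr', rfl, rfl, hp'⟩, ?_⟩
  intro q2 h2
  obtain ⟨p2, h3, h4, h5, h6⟩ := (pcq_iff F q q2).1 h2
  have h7 : p2 = p' := hu p2 h6
  subst h7
  exact Subtype.ext (Prod.ext h5 h4.symm)

theorem pcq_exists' (L : VLat G Γ κ S co N) (L' : VLat G Γ' κ' S' co' N')
    (F : Rg Γ co N ≃ Rg Γ' co' N') (hF : ∀ r s, RAdj Γ r.1 s.1 ↔ RAdj Γ' (F r).1 (F s).1)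
    (q' : QQ Γ' co' N') (hq : ¬ QInt q') : ∃! q, PCQ S S' F q q' := by
  obtain ⟨⟨r', v⟩, hq'⟩ := q'
  obtain ⟨r, rfl⟩ := F.surjective r'
  obtain ⟨p, hp, hu⟩ := pc_exists' L.ms L.gg L'.ms L'.gg F hF r
    (qp_vr (⟨(F r, v), hq'⟩ : QQ Γ' co' N')) hq
  have h0 := qp_vr (⟨(F r, v), hq'⟩ : QQ Γ' co' N')
  refine ⟨mkq r p hp.vr, (pcq_iff F _ _).2 ⟨qp ⟨(F r, v), hq'⟩, h0, rfl, rfl, hp⟩, ?_⟩
  rintro ⟨⟨r2, v2⟩, h2'⟩ h2
  obtain ⟨p2, h3, h4, h5, h6⟩ := (pcq_iff F _ _).1 h2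
  have h7 : r2 = r := (F.injective h5).symm
  subst h7
  have h8 : p2 = qp ⟨(F r2, v), hq'⟩ := Subtype.ext h4
  subst h8
  have h9 := hu _ h6
  exact Subtype.ext (Prod.ext rfl (congrArg Subtype.val h9))

end

end VTB
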