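import Pool.Agent.Lib.MP_32d917_al.N.NS1
import Pool.Agent.Lib.MP_32d917_al.N.NS3
import Pool.Agent.Lib.MP_32d917_al.F.FIND
import Pool.Agent.Lib.MP_32d917_al_vt.VDefs

/-!
# T07: equivariant bijections of vertex sets, relative version

`red_rel` (adapt `ns3_red` of N/NS3): `v ∉ A`, `StabLe G v x`: induction on the distance `n` of `v` and `x`: for `n > 0` let `v1` be the first vertex of the path (`st_next`); every element fixing `v` and `x` fixes the path, so `StabLe G v v1`; by `hS` `v1 = g • v`, so `v1 ∉ A`, and `StabLe G v1 v` (`L.cinv` as in `ns3_red`), so `StabLe G v1 x` and induction.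
`tvset_rel`. For `v ∉ A` there is `v' ∉ A'` with `StabLe G v v'`, `StabLe G v' v`: the stabilizer of `v` has a finite orbit on a special vertex `p ∈ A` (`torbit_fin`), so by `ell_of_finite_orbit` (N/NS1; `H` = stabilizer of `p`, which fixes `ψ p`) it fixes some `v' : U`. If `v' ∈ A'` then `v' = ψ q`, `q ∈ A`, and `StabLe G v q` (as `ψ` is injective and
equivariant, an element fixing `ψ q` fixes `q`), against `red_rel` (`q = g • v ∉ A`). So `v' ∉ A'`; by the same argument for `v'` there is `v'' ∉ A` with `StabLe G v' v''`; `StabLe G v v''`, so by `red_rel` `StabLe G v'' v`, `v'' = g • v`. Hence `StabLe G v' v`.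
For the bijection on the complements: choose a representative `r` of every orbit in `Aᶜ` (`Quotient.out` for `MulAction.orbitRel`) and `r'` as above; `φ (g • r) = g • r'`, well defined since `r`, `r'` have the same stabilizer. Injective: if `g • r₁' = r₂'` then `StabLe G (g • r₁) r₂`, so `r₂` is in the orbit of `r₁` (`red_rel`), so `r₁ = r₂` (representatives), and `g` fixes `r₁'` so it fixes `r₁`.
Surjective: for `w' ∉ A'` take `w ∉ A` with the same stabilizer, `w = g • r`; `g • r'` has the same stabilizer as `w'`, so by `red_rel` for the second tree `w'` is in the orbit of `r'`. Put `φ v = ψ v` for `v ∈ A`. Compare the proof of `tvset` in N/NS3.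
`find_rel`: the proof of `find_equiv` (F/FIND.lean) with the additional conclusion: `Φ v = c • (φ (c⁻¹ • v))` and `Q` is invariant.
-/

set_option autoImplicit false

namespace VTB

open LatIso LatN LatF

section

variable {G : Type} [Group G] {V U : Type} [MulAction G V] [MulAction G U] {S : SimpleGraph V}
  {R : SimpleGraph U}

theorem red_rel (L : TLat G S) {A : Set V} (hA : ∀ (g : G) v, g • v ∈ A → v ∈ A)
    (hS : ∀ v x, v ∉ A → S.Adj v x → StabLe G v x → ∃ g : G, g • v = x) {v x : V} (hv : v ∉ A)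
    (h : StabLe G v x) : (∃ g : G, g • v = x) ∧ StabLe G x v := by
  obtain ⟨n, hn⟩ : ∃ n, S.dist v x = n := ⟨_, rfl⟩
  induction n using Nat.strong_induction_on generalizing v with
  | _ n ih =>
    by_cases hvx : v = x
    · subst hvx
      exact ⟨⟨1, one_smul G v⟩, fun k hk => hk⟩
    · obtain ⟨m, hm1, hm2⟩ := st_next L.ta.tree hvx
      have hd : S.dist v m = 1 := SimpleGraph.dist_eq_one_iff_adj.2 hm1
      have hvm : StabLe G v m := by
        intro k hk
        have hkx := h k hk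
        have e1 : S.dist v (k • m) = S.dist v m := by
          conv_lhs => rw [← hk]
          exact ta_dist L.ta k v m
        have e2 : S.dist (k • m) x = S.dist m x := by
          conv_lhs => rw [← hkx]
          exact ta_dist L.ta k m x
        have e3 : Bt S v (k • m) x := by
          unfold Bt at hm2 ⊢
          rw [e1, e2]
          exact hm2
        exact st_pt_uniq L.ta.tree e3 hm2 e1
      obtain ⟨g, hg⟩ := hS v m hv hm1 hvm
      have hmA : m ∉ A := by
        intro hm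
        rw [← hg] at hm
        exact hv (hA g v hm)
      have hmv : StabLe G m v := by
        intro k hk
        have c := L.cinv v v g (fun j h1 _ => by
          have := hvm j h1
          rw [hg]
          exact ⟨this, this⟩) k (by rw [hg]; exact hk) (by rw [hg]; exact hk)
        exact c.1
      have hlt : S.dist m x < n := by
        unfold Bt at hm2
        omega
      obtain ⟨⟨g', hg'⟩, h'⟩ := ih _ hlt hmA (fun k hk => h k (hmv k hk)) rfl
      exact ⟨⟨g' * g, by rw [mul_smul, hg, hg']⟩, fun k hk => hmv k (h' k hk)⟩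

theorem tvset_rel (L : TLat G S) (L' : TLat G R) {A : Set V} {A' : Set U}
    (hA : ∀ (g : G) v, g • v ∈ A → v ∈ A) (hA' : ∀ (g : G) v, g • v ∈ A' → v ∈ A')
    (h0 : A.Nonempty) (ψ : V → U) (h1 : ∀ v ∈ A, ψ v ∈ A') (h2 : ∀ v ∈ A, ∀ w ∈ A, ψ v = ψ w → v = w)
    (h3 : ∀ v' ∈ A', ∃ v ∈ A, ψ v = v') (h4 : ∀ (g : G), ∀ v ∈ A, ψ (g • v) = g • ψ v)
    (hS : ∀ v x, v ∉ A → S.Adj v x → StabLe G v x → ∃ g : G, g • v = x)
    (hR : ∀ v x, v ∉ A' → R.Adj v x → StabLe G v x → ∃ g : G, g • v = x) :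
    ∃ φ : V ≃ U, (∀ (g : G) (v : V), φ (g • v) = g • φ v) ∧ ∀ v ∈ A, φ v = ψ v := by
  classical
  obtain ⟨p, hp⟩ := h0
  have hAg : ∀ (g : G) v, v ∈ A → g • v ∈ A := fun g v hv =>
    hA g⁻¹ (g • v) (by rw [inv_smul_smul]; exact hv)
  have hAg' : ∀ (g : G) v, v ∈ A' → g • v ∈ A' := fun g v hv =>
    hA' g⁻¹ (g • v) (by rw [inv_smul_smul]; exact hv)
  have hψ : ∀ (g : G), ∀ q ∈ A, g • ψ q = ψ q → g • q = q := by
    intro g q hq hg
    apply h2 _ (hAg g q hq) q hq
    rw [h4 g q hq, hg]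
  have f1 : ∀ v : V, ∃ v' : U, StabLe G v v' := by
    intro v
    obtain ⟨u, hu⟩ := ell_of_finite_orbit L'.ta (MulAction.stabilizer G p)
      (MulAction.stabilizer G v) p (torbit_fin L v p)
      (fun k _ hk => by rw [MulAction.mem_stabilizer_iff]; exact hk)
      ⟨ψ p, fun k hk => by
        rw [MulAction.mem_stabilizer_iff] at hk
        rw [← h4 k p hp, hk]⟩
    exact ⟨u, fun k hk => hu k (by rw [MulAction.mem_stabilizer_iff]; exact hk)⟩
  have f2 : ∀ v' : U, ∃ v : V, StabLe G v' v := by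
    intro v'
    obtain ⟨u, hu⟩ := ell_of_finite_orbit L.ta (MulAction.stabilizer G (ψ p))
      (MulAction.stabilizer G v') (ψ p) (torbit_fin L' v' (ψ p))
      (fun k _ hk => by rw [MulAction.mem_stabilizer_iff]; exact hk)
      ⟨p, fun k hk => by
        rw [MulAction.mem_stabilizer_iff] at hk
        exact hψ k p hp hk⟩
    exact ⟨u, fun k hk => hu k (by rw [MulAction.mem_stabilizer_iff]; exact hk)⟩
  have c1 : ∀ v v', v ∉ A → StabLe G v v' → v' ∉ A' := by
    intro v v' hv hs hv'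
    obtain ⟨q, hq, rfl⟩ := h3 v' hv'
    obtain ⟨⟨g, hg⟩, -⟩ := red_rel L hA hS hv (fun k hk => hψ k q hq (hs k hk))
    rw [← hg] at hq
    exact hv (hA g v hq)
  have c2 : ∀ v v', v' ∉ A' → StabLe G v' v → v ∉ A := by
    intro v v' hv' hs hv
    obtain ⟨⟨g, hg⟩, -⟩ := red_rel L' hA' hR hv' (x := ψ v) (fun k hk => by
      rw [← h4 k v hv, hs k hk])
    have h5 := h1 v hv
    rw [← hg] at h5
    exact hv' (hA' g v' h5)
  have e1 : ∀ v : V, ∃ v' : U, (v ∉ A → v' ∉ A') ∧ (v ∈ A → v' = ψ v) ∧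
      ∀ g : G, g • v = v ↔ g • v' = v' := by
    intro v
    by_cases hv : v ∈ A
    · refine ⟨ψ v, fun h => absurd hv h, fun _ => rfl, fun g => ⟨fun h => ?_, fun h => hψ g v hv h⟩⟩
      rw [← h4 g v hv, h]
    · obtain ⟨v', hv'⟩ := f1 v
      obtain ⟨x, hx⟩ := f2 v'
      have := red_rel L hA hS hv (fun k hk => hx k (hv' k hk))
      exact ⟨v', fun _ => c1 v v' hv hv', fun h => absurd h hv,
        fun g => ⟨hv' g, fun h => this.2 g (hx g h)⟩⟩
  have e2 : ∀ v' : U, v' ∉ A' → ∃ v : V, v ∉ A ∧ ∀ g : G, g • v = v ↔ g • v' = v' := by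
    intro v' hv'
    obtain ⟨v, hv⟩ := f2 v'
    obtain ⟨x, hx⟩ := f1 v
    have := red_rel L' hA' hR hv' (fun k hk => hx k (hv k hk))
    exact ⟨v, c2 v v' hv' hv, fun g => ⟨fun h => this.2 g (hx g h), hv g⟩⟩
  choose c hcA hcψ hc using e1
  let r : V → V := fun v => (Quotient.mk (MulAction.orbitRel G V) v).out
  have hr : ∀ v, ∃ g : G, g • r v = v := by
    intro v
    have : (MulAction.orbitRel G V) (r v) v := Quotient.mk_out (s := MulAction.orbitRel G V) v
    rw [MulAction.orbitRel_apply] at this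
    obtain ⟨g, hg⟩ := this
    refine ⟨g⁻¹, ?_⟩
    rw [← hg]
    simp
  have hrg : ∀ (g : G) (v : V), r (g • v) = r v := by
    intro g v
    have : Quotient.mk (MulAction.orbitRel G V) (g • v) = Quotient.mk (MulAction.orbitRel G V) v := by
      apply Quotient.sound
      change (MulAction.orbitRel G V) (g • v) v
      rw [MulAction.orbitRel_apply]
      exact ⟨g, rfl⟩
    simp only [r, this]
  choose γ hγ using hr
  let φ : V → U := fun v => γ v • c (r v)
  have hφ : ∀ (g : G) (v : V), φ (g • v) = g • φ v := by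
    intro g v
    have h5 : (γ v)⁻¹ • g⁻¹ • γ (g • v) • r v = r v := by
      have := hγ (g • v)
      rw [hrg] at this
      rw [this, inv_smul_smul, inv_smul_eq_iff, hγ]
    have h6 : ((γ v)⁻¹ * (g⁻¹ * γ (g • v))) • c (r v) = c (r v) := by
      rw [← hc]
      rw [mul_smul, mul_smul]
      exact h5
    change γ (g • v) • c (r (g • v)) = g • γ v • c (r v)
    rw [hrg]
    rw [mul_smul, mul_smul, inv_smul_eq_iff, inv_smul_eq_iff] at h6
    exact h6
  have hst : ∀ (v : V) (g : G), g • v = v ↔ g • φ v = φ v := by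
    intro v g
    have e : φ v = γ v • c (r v) := rfl
    have h5 := hc (r v) ((γ v)⁻¹ * (g * γ v))
    rw [mul_smul, mul_smul, mul_smul, mul_smul, inv_smul_eq_iff, inv_smul_eq_iff, hγ] at h5
    rw [e]
    exact h5
  have hφψ : ∀ v ∈ A, φ v = ψ v := by
    intro v hv
    have h5 : r v ∈ A := by
      apply hA (γ v)
      rw [hγ]
      exact hv
    change γ v • c (r v) = ψ v
    rw [hcψ (r v) h5, ← h4 (γ v) (r v) h5, hγ]
  have hφA : ∀ v, v ∉ A → φ v ∉ A' := by
    intro v hv h5
    have h6 : r v ∉ A := by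
      intro h7
      apply hv
      rw [← hγ v]
      exact hAg _ _ h7
    exact hcA (r v) h6 (hA' (γ v) _ h5)
  refine ⟨Equiv.ofBijective φ ⟨?_, ?_⟩, hφ, hφψ⟩
  · intro x y hxy
    by_cases hx : x ∈ A
    · have hy : y ∈ A := by
        by_contra hy
        apply hφA y hy
        rw [← hxy, hφψ x hx]
        exact h1 x hx
      rw [hφψ x hx, hφψ y hy] at hxy
      exact h2 x hx y hy hxy
    · have h5 : StabLe G x y := by
        intro k hk
        rw [hst] at hk ⊢
        rw [← hxy]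
        exact hk
      obtain ⟨⟨g, hg⟩, -⟩ := red_rel L hA hS hx h5
      have h6 : g • φ x = φ x := by
        rw [← hφ, hg, hxy]
      rw [← hst] at h6
      rw [← h6, hg]
  · intro v'
    by_cases hv' : v' ∈ A'
    · obtain ⟨v, hv, rfl⟩ := h3 v' hv'
      exact ⟨v, hφψ v hv⟩
    · obtain ⟨v, hvA, hv⟩ := e2 v' hv'
      have h5 : StabLe G (φ v) v' := by
        intro k hk
        rw [← hst] at hk
        exact (hv k).1 hk
      obtain ⟨⟨g, hg⟩, -⟩ := red_rel L' hA' hR (hφA v hvA) h5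
      exact ⟨g • v, by rw [hφ, hg]⟩

end

/-- `find_equiv` with an invariant relation -/
theorem find_rel {G : Type} [Group G] {V V' ι : Type} [MulAction G V] [MulAction G V']
    [MulAction G ι] {κ : V → ι} {κ' : V' → ι} (hκ : KEq G κ) (hκ' : KEq G κ')
    (Q : V → V' → Prop) (hQ : ∀ (g : G) v v', Q v v' → Q (g • v) (g • v'))
    (h : ∀ i, ∃ φ : Fib κ i ≃ Fib κ' i, (∀ (g : G) (v w : Fib κ i), g • v.1 = w.1 →
      g • (φ v).1 = (φ w).1) ∧ ∀ v, Q v.1 (φ v).1) :
    ∃ Φ : V ≃ V', (∀ (g : G) v, Φ (g • v) = g • Φ v) ∧ (∀ v, κ' (Φ v) = κ v) ∧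
      ∀ v, Q v (Φ v) := by
  classical
  choose φ hφ hφQ using h
  let r : ι → ι := fun i => Quotient.out (Quotient.mk (MulAction.orbitRel G ι) i)
  have hr1 : ∀ i, ∃ c : G, c • r i = i := by
    intro i
    have h1 : Quotient.mk (MulAction.orbitRel G ι) (r i) = Quotient.mk (MulAction.orbitRel G ι) i :=
      Quotient.out_eq _
    have h2 := Quotient.exact h1
    have h3 : r i ∈ MulAction.orbit G i := h2
    obtain ⟨g, hg⟩ := h3
    refine ⟨g⁻¹, ?_⟩
    rw [inv_smul_eq_iff]
    exact hg.symm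
  have hr2 : ∀ (g : G) i, r (g • i) = r i := by
    intro g i
    have h1 : Quotient.mk (MulAction.orbitRel G ι) (g • i) = Quotient.mk (MulAction.orbitRel G ι) i := by
      apply Quotient.sound
      exact MulAction.mem_orbit i g
    change Quotient.out (Quotient.mk (MulAction.orbitRel G ι) (g • i)) = _
    rw [h1]
  choose c hc using hr1
  have mem : ∀ (a : G) (k : ι) (v : V), a • k = κ v → κ (a⁻¹ • v) = k := by
    intro a k v h
    rw [hκ, ← h, inv_smul_smul]
  let Φ : V → V' := fun v => c (κ v) • (φ (r (κ v)) ⟨(c (κ v))⁻¹ • v, mem _ _ _ (hc _)⟩).1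
  have key : ∀ (v : V) (k : ι) (a : G) (ha : a • k = κ v), k = r (κ v) →
      Φ v = a • (φ k ⟨a⁻¹ • v, mem a k v ha⟩).1 := by
    intro v k a ha hk
    subst hk
    have h1 := hφ (r (κ v)) (a⁻¹ * c (κ v)) ⟨(c (κ v))⁻¹ • v, mem _ _ _ (hc _)⟩
      ⟨a⁻¹ • v, mem a _ v ha⟩ (by
        change (a⁻¹ * c (κ v)) • (c (κ v))⁻¹ • v = a⁻¹ • v
        rw [mul_smul, smul_inv_smul])
    rw [← h1, ← mul_smul, mul_inv_cancel_left]
  have hΦg : ∀ (g : G) v, Φ (g • v) = g • Φ v := by
    intro g v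
    have h1 : (g * c (κ v)) • r (κ v) = κ (g • v) := by
      rw [mul_smul, hc, hκ]
    have h2 : r (κ v) = r (κ (g • v)) := by
      rw [hκ, hr2]
    rw [key (g • v) (r (κ v)) (g * c (κ v)) h1 h2, key v (r (κ v)) (c (κ v)) (hc _) rfl]
    have h3 : (⟨(g * c (κ v))⁻¹ • g • v, mem _ _ _ h1⟩ : Fib κ (r (κ v))) =
        ⟨(c (κ v))⁻¹ • v, mem _ _ _ (hc _)⟩ := by
      apply Subtype.ext
      change (g * c (κ v))⁻¹ • g • v = (c (κ v))⁻¹ • v
      rw [mul_inv_rev, mul_smul, inv_smul_smul]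
    rw [h3]
    exact mul_smul _ _ _
  have hΦκ : ∀ v, κ' (Φ v) = κ v := by
    intro v
    change κ' (c (κ v) • (φ (r (κ v)) ⟨(c (κ v))⁻¹ • v, mem _ _ _ (hc _)⟩).1) = κ v
    rw [hκ', (φ (r (κ v)) _).2, hc]
  have hΦQ : ∀ v, Q v (Φ v) := by
    intro v
    have h1 := hQ (c (κ v)) _ _ (hφQ (r (κ v)) ⟨(c (κ v))⁻¹ • v, mem _ _ _ (hc _)⟩)
    change Q (c (κ v) • (c (κ v))⁻¹ • v) (Φ v) at h1
    rw [smul_inv_smul] at h1
    exact h1
  have hbij : Function.Bijective Φ := by
    constructor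
    · intro v w hvw
      have h1 : κ v = κ w := by
        rw [← hΦκ, ← hΦκ, hvw]
      have h2 := key v (r (κ w)) (c (κ w)) (by rw [hc, h1]) (by rw [h1])
      have h3 := key w (r (κ w)) (c (κ w)) (hc _) rfl
      rw [h2, h3] at hvw
      have h4 := smul_left_cancel _ hvw
      have h5 := (φ (r (κ w))).injective (Subtype.ext h4)
      have h6 : (c (κ w))⁻¹ • v = (c (κ w))⁻¹ • w := congrArg Subtype.val h5
      exact smul_left_cancel _ h6
    · intro w
      obtain ⟨i, hi⟩ : ∃ i, i = κ' w := ⟨_, rfl⟩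
      have h1 : κ' ((c i)⁻¹ • w) = r i := by
        rw [hκ', ← hi, inv_smul_eq_iff]
        exact (hc i).symm
      set y := (φ (r i)).symm ⟨(c i)⁻¹ • w, h1⟩ with hy
      have h2 : κ (c i • y.1) = i := by rw [hκ, y.2, hc]
      refine ⟨c i • y.1, ?_⟩
      rw [key (c i • y.1) (r i) (c i) (by rw [hc, h2]) (by rw [h2])]
      have h3 : (⟨(c i)⁻¹ • c i • y.1, mem (c i) (r i) (c i • y.1) (by rw [hc, h2])⟩ : Fib κ (r i)) = y := by
        apply Subtype.ext
        change (c i)⁻¹ • c i • y.1 = y.1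
        rw [inv_smul_smul]
      rw [h3, hy, Equiv.apply_symm_apply]
      change c i • (c i)⁻¹ • w = w
      rw [smul_inv_smul]
  exact ⟨Equiv.ofBijective Φ hbij, hΦg, hΦκ, hΦQ⟩

end VTB
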