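import Pool.Agent.Lib.MP_32d917_al_vt.E03
import Pool.Agent.Lib.MP_32d917_al_vt.E04
import Pool.Agent.Lib.MP_32d917_al_vt.T07
import Pool.Agent.Lib.MP_32d917_al.FIX

/-!
# E05: the equivariant bijection of the vertices of all trees

`int_uniq`: an internal vertex `q` is in only one region of its label: by `int_all` all points over it are in `q.1.1` (`Ag (lk i)` implies `Ag (st i)`). `int_stab`: so, if `g • q.1.2` is a vertex of a region `r` of label `r.1.1 = g • q.1.1.1.1`, then `r = g • q.1.1`.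
`qred`: let `q` be internal, `q'` adjacent to it (same region `r`), and every `g` in the stabilizer of the region fixing `q` fixes `q'`. There are a point `x ∈ r.1.2` over `q`, with `N x i` (`i = r.1.1`; `n_reg` or directly from `RInt`), and `y` in its panel over `q'` (`reg_pt`), a step. If `g` fixes the vertex `q.1.2` then `g • i = i` (`κ`) and `g • r = r` (`int_stab`), so `g` fixes `q'`: `StabLe G (co x i).1 (co y i).1`; `VRed`
gives `g` with `g • q.1.2 = q'.1.2`; `g • r = r` as `q'.1.2` is internal (`N (g • x) (g • i)`, so by `int_all` for the point `g • x`). So `g • q = q'`.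
`qpanel`: every region has a vertex which is not internal: `L.ms.out`.
`q_equiv`: apply `find_rel` with `κ := fun q => (Equiv.refl _) q.1.1`, `κ' := fun q' => F.symm q'.1.1` (so the index set is the set of regions of the first structure in both cases) and the relation `Q q q' := ¬ QInt q → PCQ S S' F q q'`, invariant by `pcq_g`, `qint_g`. For every region `r`: `tvset_rel` for the group `stabilizer G r` acting on the two trees over `r` (`reg_tlat` with `e = Equiv.refl`, and with `e = F.symm`),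
`A`, `A'` = the vertices which are not internal, `ψ` from `pcq_exists` (injective, surjective by `pcq_exists'`; equivariant by `pcq_g` and uniqueness), `hS`, `hR` from `qred`.
`q_int`: `Φ` maps internal vertices to internal vertices: the vertices which are not internal are all images of such (`pcq_exists'`).
-/

set_option autoImplicit false

namespace VTB

open LatIso LatN LatF RaagIso

section

variable {G : Type} [Group G] {ι Pt V : Type} [Fintype ι] [MulAction G Pt] [MulAction G V]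
  [MulAction G ι] {Γ : SimpleGraph ι} {κ : V → ι} {S : SimpleGraph V}
  {co : Pt → ∀ i, Fib κ i} {N : Pt → ι → Prop} [Fact (RAct G Γ κ co N)]

theorem int_uniq (L : VLat G Γ κ S co N) (q q' : QQ Γ co N) (h : QInt q)
    (hv : q'.1.2 = q.1.2) : q' = q := by
  obtain ⟨x, hx, hx1, hx2⟩ := h
  obtain ⟨y, hy, hy1⟩ := q'.2
  have hx3 : (co x q.1.1.1.1).1 = q.1.2 := by
    rw [hx1]
    rfl
  have hi : q'.1.1.1.1 = q.1.1.1.1 := by
    have h1 := (co y q'.1.1.1.1).2
    have h2 := (co x q.1.1.1.1).2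
    rw [hy1, hv] at h1
    rw [hx3] at h2
    exact h1.symm.trans h2
  have hc : co y q.1.1.1.1 = co x q.1.1.1.1 := by
    apply Subtype.ext
    rw [hx3, ← hv, ← hy1, hi]
  have ha := int_all L.ms.b hx2 hc
  have h3 : q'.1.1 = q.1.1 := by
    apply Subtype.ext
    have h4 : Ag co (st Γ q.1.1.1.1) x y := ag_mono (fun j hj => Or.inr hj) ha
    have h5 : rg Γ co y q'.1.1.1.1 = rg Γ co x q.1.1.1.1 := by
      rw [hi]
      refine Prod.ext rfl ?_
      ext z
      exact ⟨fun hz => ag_trans h4 hz, fun hz => ag_trans (ag_symm h4) hz⟩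
    exact (reg_mem q'.1.1.2 hy).trans (h5.trans (reg_mem q.1.1.2 hx).symm)
  exact Subtype.ext (Prod.ext h3 hv)

theorem qred (L : VLat G Γ κ S co N) (hr : VRed G κ S co N) (q q' : QQ Γ co N) (h : QInt q)
    (hq : (qgr Γ co N S).Adj q q') (hs : ∀ g : G, g • q = q → g • q' = q') :
    ∃ g : G, g • q = q' := by
  have h0 := h
  obtain ⟨x, hx, hx1, hx2⟩ := h
  obtain ⟨hq1, hq2⟩ := hq
  have hx3 : (co x q.1.1.1.1).1 = q.1.2 := by
    rw [hx1]
    rfl
  have hy0 : ∃ y ∈ q.1.1.1.2, (co y q.1.1.1.1).1 = q'.1.2 := by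
    obtain ⟨y, hy, hy1⟩ := q'.2
    rw [← hq1] at hy hy1
    exact ⟨y, hy, hy1⟩
  obtain ⟨y, hy, hy1⟩ := hy0
  have hag : Ag co (st Γ q.1.1.1.1) x y := by
    have h1 := reg_mem q.1.1.2 hx
    rw [h1] at hy
    exact hy
  obtain ⟨z, hz, hz1⟩ := reg_pt L.ms.b hag
  have hz2 : (co z q.1.1.1.1).1 = q'.1.2 := by
    rw [hz1]
    exact hy1
  have hst : VSt (comp κ S) co q.1.1.1.1 x z := by
    refine ⟨?_, fun j hj => hz j hj⟩
    change S.Adj (co x q.1.1.1.1).1 (co z q.1.1.1.1).1
    rw [hx3, hz2]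
    exact hq2
  have hsl : StabLe G (co x q.1.1.1.1).1 (co z q.1.1.1.1).1 := by
    intro g hg
    rw [hx3] at hg
    rw [hz2]
    have h1 : g • q = q := int_uniq L q (g • q) h0 hg
    have h2 := hs g h1
    exact congrArg (fun w : QQ Γ co N => w.1.2) h2
  obtain ⟨g, hg⟩ := hr x q.1.1.1.1 z hx2 hst hsl
  rw [hx3, hz2] at hg
  exact ⟨g, (int_uniq L (g • q) q' ((qint_g g q).2 h0) hg.symm).symm⟩

/-- vertices of central regions are internal -/
theorem q_cen (L : VLat G Γ κ S co N) (q : QQ Γ co N) (hc : CL Γ q.1.1.1.1) : QInt q := by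
  obtain ⟨x, hx, hx'⟩ := q.2
  exact ⟨x, hx, Subtype.ext hx', L.ms.cen x _ hc⟩

theorem qpanel (L : VLat G Γ κ S co N) (r : Rg Γ co N) (hc : ¬ CL Γ r.1.1) :
    ∃ q : QQ Γ co N, q.1.1 = r ∧ ¬ QInt q := by
  obtain ⟨x, _, hr⟩ := r.2
  have h1 : ∃ y ∈ r.1.2, ¬ N y r.1.1 := by
    by_cases hN : N x r.1.1
    · obtain ⟨y, hy, hy1⟩ := L.ms.out x r.1.1 hc hN
      refine ⟨y, ?_, hy1⟩
      rw [hr]
      exact ag_mono (by
        intro j hj
        rw [Set.mem_singleton_iff] at hj
        exact Or.inl hj) hy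
    · refine ⟨x, ?_, hN⟩
      rw [hr]
      exact ag_refl x
  obtain ⟨y, hy, hN⟩ := h1
  refine ⟨mkq r (co y r.1.1) ⟨y, hy, rfl⟩, rfl, ?_⟩
  rintro ⟨z, hz, hz1, hz2⟩
  apply hN
  have hz3 : z ∈ r.1.2 := hz
  have hz4 : co z r.1.1 = co y r.1.1 := hz1
  have hz5 : N z r.1.1 := hz2
  have hag : Ag co (st Γ r.1.1) z y := by
    have h1 := reg_mem r.2 hz3
    rw [h1] at hy
    exact hy
  exact (n_reg L.ms.b hag hz4.symm).2 hz5

/-- if `y` is fixed by a subgroup of finite index of the stabilizer of `x`, the stabilizer of `x`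
fixes a vertex of the tree -/
private theorem e05_fix {K : Type} [Group K] {X Y : Type} [MulAction K X] [MulAction K Y]
    {R : SimpleGraph Y} (hR : TA K R) (H : Subgroup K) (hH : H.FiniteIndex) (x : X) (y : Y)
    (h : ∀ g ∈ H, g • x = x → g • y = y) : ∃ y' : Y, StabLe K x y' := by
  classical
  have hfin : (Set.range fun k : MulAction.stabilizer K x => (k : K) • y).Finite := by
    let f : Set.range (fun k : MulAction.stabilizer K x => (k : K) • y) → K ⧸ H := fun z =>
      ((z.2.choose : K) : K ⧸ H)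
    have hf : Function.Injective f := by
      intro z z' hzz
      have h1 : (z.2.choose : K)⁻¹ * (z'.2.choose : K) ∈ H := QuotientGroup.eq.1 hzz
      have h2 : ((z.2.choose : K)⁻¹ * (z'.2.choose : K)) • x = x := by
        have h3 : (z'.2.choose : K) • x = x := z'.2.choose.2
        have h4 : (z.2.choose : K) • x = x := z.2.choose.2
        rw [mul_smul, h3, inv_smul_eq_iff, h4]
      have h5 := h _ h1 h2
      rw [mul_smul, inv_smul_eq_iff] at h5
      have h6 := z.2.choose_spec
      have h7 := z'.2.choose_spec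
      apply Subtype.ext
      rw [← h6, ← h7]
      exact h5.symm
    haveI := Finite.of_injective f hf
    exact Set.toFinite _
  obtain ⟨y', hy'⟩ := fix_of_finite hR (MulAction.stabilizer K x) y hfin
  exact ⟨y', fun g hg => hy' g hg⟩

variable {ι' Pt' V' : Type} [Fintype ι'] [MulAction G Pt'] [MulAction G V'] [MulAction G ι']
  {Γ' : SimpleGraph ι'} {κ' : V' → ι'} {S' : SimpleGraph V'} {co' : Pt' → ∀ i, Fib κ' i}
  {N' : Pt' → ι' → Prop} [Fact (RAct G Γ' κ' co' N')]

theorem q_equiv (L : VLat G Γ κ S co N) (hr : VRed G κ S co N) (L' : VLat G Γ' κ' S' co' N')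
    (hr' : VRed G κ' S' co' N') (F : Rg Γ co N ≃ Rg Γ' co' N')
    (hF : ∀ (g : G) r, F (g • r) = g • F r)
    (hF' : ∀ r s, RAdj Γ r.1 s.1 ↔ RAdj Γ' (F r).1 (F s).1)
    (hcf : ∃ H : Subgroup G, H.FiniteIndex ∧ ∀ r, CL Γ r.1.1 →
      (∀ v : Fib κ r.1.1, ∃ w : Fib κ' (F r).1.1, ∀ h ∈ H, h • v.1 = v.1 → h • w.1 = w.1) ∧
      ∀ w : Fib κ' (F r).1.1, ∃ v : Fib κ r.1.1, ∀ h ∈ H, h • w.1 = w.1 → h • v.1 = v.1) :
    ∃ Φ : QQ Γ co N ≃ QQ Γ' co' N', (∀ (g : G) q, Φ (g • q) = g • Φ q) ∧
      (∀ q, (Φ q).1.1 = F q.1.1) ∧ (∀ q, ¬ QInt q → PCQ S S' F q (Φ q)) ∧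
      ∀ q, QInt q → QInt (Φ q) := by
  classical
  have hFs : ∀ (g : G) r, F.symm (g • r) = g • F.symm r := by
    intro g r
    rw [Equiv.symm_apply_eq, hF, Equiv.apply_symm_apply]
  have k1 : KEq G (fun q : QQ Γ co N => (Equiv.refl (Rg Γ co N)) q.1.1) := fun _ _ => rfl
  have k2 : KEq G (fun q : QQ Γ' co' N' => F.symm q.1.1) := fun g q => hFs g q.1.1
  have f1 : Fact (KEq G (fun q : QQ Γ co N => (Equiv.refl (Rg Γ co N)) q.1.1)) := ⟨k1⟩
  have f2 : Fact (KEq G (fun q : QQ Γ' co' N' => F.symm q.1.1)) := ⟨k2⟩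
  have key : ∀ r : Rg Γ co N,
      ∃ φ : Fib (fun q : QQ Γ co N => (Equiv.refl (Rg Γ co N)) q.1.1) r ≃
        Fib (fun q : QQ Γ' co' N' => F.symm q.1.1) r,
        (∀ (g : G) (v w : Fib (fun q : QQ Γ co N => (Equiv.refl (Rg Γ co N)) q.1.1) r),
          g • v.1 = w.1 → g • (φ v).1 = (φ w).1) ∧
        ∀ v, (fun (q : QQ Γ co N) (q' : QQ Γ' co' N') => ¬ QInt q → PCQ S S' F q q')
          v.1 (φ v).1 := by
    intro r
    have T := reg_tlat L (Equiv.refl (Rg Γ co N)) (fun _ _ => rfl) r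
    have T' := reg_tlat L' F.symm hFs r
    have stab : ∀ (g : G) (v w : Fib (fun q : QQ Γ co N => (Equiv.refl (Rg Γ co N)) q.1.1) r),
        g • v.1 = w.1 → ∃ h : g ∈ MulAction.stabilizer G r,
          (⟨g, h⟩ : MulAction.stabilizer G r) • v = w := by
      intro g v w h
      have h1 : g • r = r := by
        have h2 := k1 g v.1
        have h3 := v.2
        have h4 := w.2
        rw [← h] at h4
        have h5 : g • (fun q : QQ Γ co N => (Equiv.refl (Rg Γ co N)) q.1.1) v.1 = r :=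
          h2.symm.trans h4
        rwa [h3] at h5
      exact ⟨h1, Subtype.ext h⟩
    have stab' : ∀ (g : G) (v w : Fib (fun q : QQ Γ' co' N' => F.symm q.1.1) r),
        g • v.1 = w.1 → ∃ h : g ∈ MulAction.stabilizer G r,
          (⟨g, h⟩ : MulAction.stabilizer G r) • v = w := by
      intro g v w h
      have h1 : g • r = r := by
        have h2 := k2 g v.1
        have h3 := v.2
        have h4 := w.2
        rw [← h] at h4
        have h5 : g • (fun q : QQ Γ' co' N' => F.symm q.1.1) v.1 = r :=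
          h2.symm.trans h4
        rwa [h3] at h5
      exact ⟨h1, Subtype.ext h⟩
    by_cases hc : CL Γ r.1.1
    · obtain ⟨H, hH, hHr⟩ := hcf
      obtain ⟨hv1, hv2⟩ := hHr r hc
      have hc' : CL Γ' (F r).1.1 := (cl_reg L'.ms (F r)).2 fun s' hs' => by
        obtain ⟨s, rfl⟩ := F.surjective s'
        rw [← hF']
        exact (cl_reg L.ms r).1 hc s fun h => hs' (by rw [h])
      have u1 := cl_univ L.ms.b r.2 hc
      have u2 := cl_univ L'.ms.b (F r).2 hc'
      have i1 : ∀ v : Fib (fun q : QQ Γ co N => (Equiv.refl (Rg Γ co N)) q.1.1) r,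
          QInt v.1 := by
        intro v
        have h1 : v.1.1.1 = r := v.2
        exact q_cen L v.1 (by rw [h1]; exact hc)
      have i2 : ∀ v : Fib (fun q : QQ Γ' co' N' => F.symm q.1.1) r, QInt v.1 := by
        intro v
        have h1 : F.symm v.1.1.1 = r := v.2
        have h2 : v.1.1.1 = F r := (Equiv.symm_apply_eq F).1 h1
        exact q_cen L' v.1 (by rw [h2]; exact hc')
      have R1 : Red (MulAction.stabilizer G r)
          (comp (fun q : QQ Γ co N => (Equiv.refl (Rg Γ co N)) q.1.1) (qgr Γ co N S) r) := by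
        intro v x hadj hsl
        obtain ⟨g, hg⟩ := qred L hr v.1 x.1 (i1 v) hadj (by
          intro g hg
          obtain ⟨h, h1⟩ := stab g v v hg
          exact congrArg Subtype.val (hsl ⟨g, h⟩ h1))
        obtain ⟨h, h1⟩ := stab g v x hg
        exact ⟨_, h1⟩
      have R2 : Red (MulAction.stabilizer G r)
          (comp (fun q : QQ Γ' co' N' => F.symm q.1.1) (qgr Γ' co' N' S') r) := by
        intro v x hadj hsl
        obtain ⟨g, hg⟩ := qred L' hr' v.1 x.1 (i2 v) hadj (by
          intro g hg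
          obtain ⟨h, h1⟩ := stab' g v v hg
          exact congrArg Subtype.val (hsl ⟨g, h⟩ h1))
        obtain ⟨h, h1⟩ := stab' g v x hg
        exact ⟨_, h1⟩
      obtain ⟨φ, hφ⟩ := tvset T T' R1 R2 (by
        intro v
        obtain ⟨w, hw⟩ := hv1 ⟨v.1.1.2, by
          obtain ⟨x, _, hx⟩ := v.1.2
          have h1 : v.1.1.1 = r := v.2
          have h3 : κ v.1.1.2 = v.1.1.1.1.1 := by
            rw [← hx]
            exact (co x v.1.1.1.1.1).2
          exact h3.trans (congrArg (fun s : Rg Γ co N => s.1.1) h1)⟩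
        have hvr : VR co' (F r).1 w := by
          obtain ⟨x', hx'⟩ := L'.ms.b.onto (F r).1.1 w
          exact ⟨x', by rw [u2]; exact Set.mem_univ x', hx'⟩
        refine e05_fix T'.ta (H.subgroupOf (MulAction.stabilizer G r)) (by
            have := hH
            infer_instance) v
          (⟨mkq (F r) w hvr, F.symm_apply_apply r⟩ :
            Fib (fun q : QQ Γ' co' N' => F.symm q.1.1) r) ?_
        intro g hg hgv
        have h1 : (g : G) • v.1.1.2 = v.1.1.2 :=
          congrArg (fun z : Fib (fun q : QQ Γ co N => (Equiv.refl (Rg Γ co N)) q.1.1) r =>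
            z.1.1.2) hgv
        have h2 := hw g hg h1
        refine Subtype.ext (Subtype.ext (Prod.ext ?_ h2))
        show (g : G) • F r = F r
        rw [← hF, g.2]) (by
        intro v'
        obtain ⟨w, hw⟩ := hv2 ⟨v'.1.1.2, by
          obtain ⟨x, _, hx⟩ := v'.1.2
          have h1 : F.symm v'.1.1.1 = r := v'.2
          have h3 : κ' v'.1.1.2 = v'.1.1.1.1.1 := by
            rw [← hx]
            exact (co' x v'.1.1.1.1.1).2
          exact h3.trans (congrArg (fun s : Rg Γ' co' N' => s.1.1)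
            ((Equiv.symm_apply_eq F).1 h1))⟩
        have hvr : VR co r.1 w := by
          obtain ⟨x, hx⟩ := L.ms.b.onto r.1.1 w
          exact ⟨x, by rw [u1]; exact Set.mem_univ x, hx⟩
        refine e05_fix T.ta (H.subgroupOf (MulAction.stabilizer G r)) (by
            have := hH
            infer_instance) v'
          (⟨mkq r w hvr, rfl⟩ :
            Fib (fun q : QQ Γ co N => (Equiv.refl (Rg Γ co N)) q.1.1) r) ?_
        intro g hg hgv
        have h1 : (g : G) • v'.1.1.2 = v'.1.1.2 :=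
          congrArg (fun z : Fib (fun q : QQ Γ' co' N' => F.symm q.1.1) r => z.1.1.2) hgv
        have h2 := hw g hg h1
        exact Subtype.ext (Subtype.ext (Prod.ext g.2 h2)))
      refine ⟨φ, ?_, ?_⟩
      · intro g v w h
        obtain ⟨h1, h2⟩ := stab g v w h
        have h3 := hφ ⟨g, h1⟩ v
        rw [h2] at h3
        rw [h3]
        rfl
      · intro v hv
        exact absurd (i1 v) hv
    obtain ⟨q1, hq1, hq1'⟩ := qpanel L r hc
    have hψ : ∀ v : Fib (fun q : QQ Γ co N => (Equiv.refl (Rg Γ co N)) q.1.1) r,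
        ∃ u : Fib (fun q : QQ Γ' co' N' => F.symm q.1.1) r,
          ¬ QInt v.1 → PCQ S S' F v.1 u.1 := by
      have h1 : ∀ q : QQ Γ co N, q.1.1 = r → ¬ QInt q →
          ∃ u : Fib (fun q : QQ Γ' co' N' => F.symm q.1.1) r, PCQ S S' F q u.1 := by
        intro q hq hq'
        obtain ⟨q', hp, _⟩ := pcq_exists L L' F hF' q hq'
        refine ⟨⟨q', ?_⟩, hp⟩
        change F.symm q'.1.1 = r
        rw [hp.1, Equiv.symm_apply_apply, hq]
      intro v
      by_cases hv : QInt v.1
      · obtain ⟨u, _⟩ := h1 q1 hq1 hq1'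
        exact ⟨u, fun h => absurd hv h⟩
      · obtain ⟨u, hu⟩ := h1 v.1 v.2 hv
        exact ⟨u, fun _ => hu⟩
    choose ψ hψ using hψ
    obtain ⟨φ, hφ1, hφ2⟩ := tvset_rel T T' (A := {v | ¬ QInt v.1}) (A' := {v | ¬ QInt v.1})
      (fun g v h h' => h ((qint_g (g : G) v.1).2 h'))
      (fun g v h h' => h ((qint_g (g : G) v.1).2 h'))
      ⟨⟨q1, hq1⟩, hq1'⟩ ψ
      (fun v hv => (hψ v hv).2.2.1)
      (by
        intro v hv w hw hvw
        obtain ⟨q, _, hq⟩ := pcq_exists' L L' F hF' (ψ v).1 (hψ v hv).2.2.1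
        apply Subtype.ext
        have h1 := hψ w hw
        rw [← hvw] at h1
        rw [hq v.1 (hψ v hv), hq w.1 h1])
      (by
        intro v' hv'
        obtain ⟨q, hq, _⟩ := pcq_exists' L L' F hF' v'.1 hv'
        have h1 : q.1.1 = r := by
          have h2 : F.symm v'.1.1.1 = r := v'.2
          rw [hq.1, Equiv.symm_apply_apply] at h2
          exact h2
        refine ⟨⟨q, h1⟩, hq.2.1, ?_⟩
        obtain ⟨q2, _, hq2⟩ := pcq_exists L L' F hF' q hq.2.1
        apply Subtype.ext
        rw [hq2 _ (hψ ⟨q, h1⟩ hq.2.1), hq2 _ hq])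
      (by
        intro g v hv
        have h1 := pcq_g L.pre L'.pre F hF (g : G) v.1 (ψ v).1 (hψ v hv)
        have hv2 : ¬ QInt (g • v).1 := h1.2.1
        obtain ⟨q2, _, hq2⟩ := pcq_exists L L' F hF' (g • v).1 hv2
        apply Subtype.ext
        rw [hq2 _ (hψ (g • v) hv2)]
        exact (hq2 _ h1).symm)
      (by
        intro v x hv hadj hsl
        have hv1 : QInt v.1 := not_not.1 hv
        obtain ⟨g, hg⟩ := qred L hr v.1 x.1 hv1 hadj (by
          intro g hg
          obtain ⟨h, h1⟩ := stab g v v hg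
          exact congrArg Subtype.val (hsl ⟨g, h⟩ h1))
        obtain ⟨h, h1⟩ := stab g v x hg
        exact ⟨_, h1⟩)
      (by
        intro v x hv hadj hsl
        have hv1 : QInt v.1 := not_not.1 hv
        obtain ⟨g, hg⟩ := qred L' hr' v.1 x.1 hv1 hadj (by
          intro g hg
          obtain ⟨h, h1⟩ := stab' g v v hg
          exact congrArg Subtype.val (hsl ⟨g, h⟩ h1))
        obtain ⟨h, h1⟩ := stab' g v x hg
        exact ⟨_, h1⟩)
    refine ⟨φ, ?_, ?_⟩
    · intro g v w h
      obtain ⟨h1, h2⟩ := stab g v w h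
      have h3 := hφ1 ⟨g, h1⟩ v
      rw [h2] at h3
      rw [h3]
      rfl
    · intro v hv
      have h1 := hφ2 v hv
      rw [h1]
      exact hψ v hv
  obtain ⟨Φ, h1, h2, h3⟩ := find_rel k1 k2
    (fun (q : QQ Γ co N) (q' : QQ Γ' co' N') => ¬ QInt q → PCQ S S' F q q')
    (fun g v v' h hv => pcq_g L.pre L'.pre F hF g v v' (h (fun h' => hv ((qint_g g v).2 h')))) key
  refine ⟨Φ, h1, ?_, h3, ?_⟩
  · intro q
    have h4 : F.symm (Φ q).1.1 = q.1.1 := h2 q
    rw [← h4, Equiv.apply_symm_apply]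
  · intro q hq
    by_contra hc
    obtain ⟨q0, hq0, _⟩ := pcq_exists' L L' F hF' (Φ q) hc
    obtain ⟨q2, _, hq2⟩ := pcq_exists L L' F hF' q0 hq0.2.1
    have h4 := h3 q0 hq0.2.1
    have h5 : Φ q0 = Φ q := by
      rw [hq2 _ h4, hq2 _ hq0]
    have h6 := Φ.injective h5
    rw [h6] at hq0
    exact hq0.2.1 hq

end

end VTB
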