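import Pool.Agent.Lib.MP_32d917_al_vt.C09

/-!
# E09: what the identification preserves

`F`, `f`, `Φ` as in `ident`. `id_mem`: `x ∈ r.1.2` iff `Φ x ∈ (F r).1.2`: `mem_iff` for both structures: for `s` not in the star of `r` (`f_rst`), let `p` be the projection of `r` to `s` (`prr_exists`), not internal (`prr_nint`), so `f s p` is the projection of `F r` to `F s` (`hf.pc`, `PC.iff`), and `Prj s x p` iff `Prj (F s) (Φ x) (f s p)` (→ `hΦ`; ← the projection `q` of `x` to `s` has `f s q = f s p`, `hf.inj`).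
`id_co`: `prj_self`, `hΦ`, uniqueness of projections. `id_ag`: for `x, y ∈ r.1.2`: `Ag co {r.1.1} x y` iff for all regions `s ≠ r` the projections of `x` and `y` to `s` agree: → if `s.1.1 ≠ r.1.1` then `co x s.1.1 = co y s.1.1`; if `s.1.1 = r.1.1`, `s ≠ r`, then not `RSt s r`, so both projections are that of `r` (`prr_exists`). ← if `co x j ≠ co y j`, `j ≠ r.1.1`, `sep_reg` gives a region `s` of label `j` with
different projections. The second condition is preserved by `Φ` (`hΦ`, `hf.inj`).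
-/

set_option autoImplicit false

namespace VTB

open LatIso LatN LatF RaagIso

section

variable {ι Pt : Type} [Fintype ι] {V : ι → Type} {Γ : SimpleGraph ι}
  {S : ∀ i, SimpleGraph (V i)} {co : Pt → ∀ i, V i} {N : Pt → ι → Prop}
  {ι' Pt' : Type} [Fintype ι'] {V' : ι' → Type} {Γ' : SimpleGraph ι'}
  {S' : ∀ i, SimpleGraph (V' i)} {co' : Pt' → ∀ i, V' i} {N' : Pt' → ι' → Prop}

private theorem E09_ne {r : ι × Set Pt} (hr : IsReg Γ co N r) : r.2.Nonempty := by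
  obtain ⟨x0, _, h0⟩ := hr
  exact ⟨x0, by rw [h0]; exact ag_refl x0⟩

private theorem E09_prr (M : MS1 Γ S co N) {F : Rg Γ co N ≃ Rg Γ' co' N'}
    {f : ∀ r : Rg Γ co N, V r.1.1 → V' (F r).1.1} (hf : RB S co S' co' F f) {r s : Rg Γ co N}
    (h : ¬ RSt Γ r.1 s.1) {p : V r.1.1} (hp : PrR S co r.1 s.1 p) :
    PrR S' co' (F r).1 (F s).1 (f r p) := by
  obtain ⟨h1, h2⟩ := prr_nint M r s h hp
  exact ((hf.pc r p h1 h2).iff s h).1 hp

/-- points of a region which differ only in its label -/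
private theorem E09_ag (M : MS1 Γ S co N) (r : Rg Γ co N) {x y : Pt} (hx : x ∈ r.1.2)
    (hy : y ∈ r.1.2) : Ag co {r.1.1} x y ↔
      ∀ s : Rg Γ co N, s ≠ r → ∀ p : V s.1.1, Prj S co s.1 x p → Prj S co s.1 y p := by
  constructor
  · intro h s hs p hp
    by_cases hl : s.1.1 = r.1.1
    · have h1 : ¬ RSt Γ s.1 r.1 := by
        rintro (h2 | h2)
        · exact hs (Subtype.ext h2)
        · have h3 := h2.1
          rw [hl] at h3
          exact h3.ne rfl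
      obtain ⟨p0, hp0⟩ := prr_exists M s r h1
      rw [prj_uniq M hp (hp0 x hx)]
      exact hp0 y hy
    · have h1 : co y s.1.1 = co x s.1.1 := h s.1.1 hl
      refine ⟨hp.1, fun q hq => ?_⟩
      rw [h1]
      exact hp.2 q hq
  · intro h j hj
    by_contra hne
    obtain ⟨s, p, q, h1, h2, h3, h4⟩ := sep_reg M (x := x) (y := y) (i := j)
      (fun hh => hne hh.symm)
    have h5 : s ≠ r := by
      rintro rfl
      exact hj h1.symm
    exact h4 (prj_uniq M (h s h5 p h2) h3)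

theorem id_mem (M : MS Γ S co N) (hG : GG Γ) (M' : MS Γ' S' co' N') (hG' : GG Γ')
    (F : Rg Γ co N ≃ Rg Γ' co' N') (hF : ∀ r s, RAdj Γ r.1 s.1 ↔ RAdj Γ' (F r).1 (F s).1)
    (f : ∀ r : Rg Γ co N, V r.1.1 → V' (F r).1.1) (hf : RB S co S' co' F f)
    (Φ : Pt ≃ Pt') (hΦ : ∀ x (r : Rg Γ co N) (p : V r.1.1), Prj S co r.1 x p →
      Prj S' co' (F r).1 (Φ x) (f r p)) (x : Pt) (r : Rg Γ co N) :
    x ∈ r.1.2 ↔ Φ x ∈ (F r).1.2 := by
  rw [mem_iff M.b, mem_iff M'.b]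
  constructor
  · intro h t ht p' hp'
    obtain ⟨s, rfl⟩ := F.surjective t
    have h1 : ¬ RSt Γ r.1 s.1 := fun hh => ht ((f_rst F hF r s).1 hh)
    have h2 : ¬ RSt Γ s.1 r.1 := fun hh => h1 (rst_symm hh)
    obtain ⟨p, hp⟩ := prr_exists M.b s r h2
    have h3 := E09_prr M.b hf h2 hp
    obtain ⟨y, hy⟩ := E09_ne (F r).2
    rw [prj_uniq M'.b (hp' y hy) (h3 y hy)]
    exact hΦ x s p (h s h1 p hp)
  · intro h s hs p hp
    have h2 : ¬ RSt Γ s.1 r.1 := fun hh => hs (rst_symm hh)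
    have h3 := E09_prr M.b hf h2 hp
    have h4 := h (F s) (fun hh => hs ((f_rst F hF r s).2 hh)) (f s p) h3
    obtain ⟨q, hq⟩ := prj_exists M.b s.2 x
    have h5 := prj_uniq M'.b (hΦ x s q hq) h4
    have h6 := hf.inj s q p hq.1 (prr_nint M.b s r h2 hp).1 h5
    rw [← h6]
    exact hq

theorem id_co (M : MS Γ S co N) (hG : GG Γ) (M' : MS Γ' S' co' N') (hG' : GG Γ')
    (F : Rg Γ co N ≃ Rg Γ' co' N') (hF : ∀ r s, RAdj Γ r.1 s.1 ↔ RAdj Γ' (F r).1 (F s).1)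
    (f : ∀ r : Rg Γ co N, V r.1.1 → V' (F r).1.1) (hf : RB S co S' co' F f)
    (Φ : Pt ≃ Pt') (hΦ : ∀ x (r : Rg Γ co N) (p : V r.1.1), Prj S co r.1 x p →
      Prj S' co' (F r).1 (Φ x) (f r p)) (x : Pt) (r : Rg Γ co N) (hx : x ∈ r.1.2) :
    co' (Φ x) (F r).1.1 = f r (co x r.1.1) := by
  have h1 := hΦ x r _ (prj_self M.b hx)
  have h2 := prj_self M'.b ((id_mem M hG M' hG' F hF f hf Φ hΦ x r).1 hx)
  exact prj_uniq M'.b h2 h1

theorem id_ag (M : MS Γ S co N) (hG : GG Γ) (M' : MS Γ' S' co' N') (hG' : GG Γ')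
    (F : Rg Γ co N ≃ Rg Γ' co' N') (hF : ∀ r s, RAdj Γ r.1 s.1 ↔ RAdj Γ' (F r).1 (F s).1)
    (f : ∀ r : Rg Γ co N, V r.1.1 → V' (F r).1.1) (hf : RB S co S' co' F f)
    (Φ : Pt ≃ Pt') (hΦ : ∀ x (r : Rg Γ co N) (p : V r.1.1), Prj S co r.1 x p →
      Prj S' co' (F r).1 (Φ x) (f r p)) (r : Rg Γ co N) (x y : Pt) (hx : x ∈ r.1.2)
    (hy : y ∈ r.1.2) : Ag co {r.1.1} x y ↔ Ag co' {(F r).1.1} (Φ x) (Φ y) := by
  rw [E09_ag M.b r hx hy, E09_ag M'.b (F r) ((id_mem M hG M' hG' F hF f hf Φ hΦ x r).1 hx)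
    ((id_mem M hG M' hG' F hF f hf Φ hΦ y r).1 hy)]
  constructor
  · intro h t ht p' hp'
    obtain ⟨s, rfl⟩ := F.surjective t
    have hs : s ≠ r := fun hh => ht (congrArg F hh)
    obtain ⟨u, hu⟩ := prj_exists M.b s.2 x
    rw [prj_uniq M'.b hp' (hΦ x s u hu)]
    exact hΦ y s u (h s hs u hu)
  · intro h s hs p hp
    have hs' : F s ≠ F r := fun hh => hs (F.injective hh)
    have h6 := h (F s) hs' (f s p) (hΦ x s p hp)
    obtain ⟨w, hw⟩ := prj_exists M.b s.2 y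
    have h7 := prj_uniq M'.b (hΦ y s w hw) h6
    rw [← hf.inj s w p hw.1 hp.1 h7]
    exact hw

end

end VTB
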