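import Pool.Agent.Lib.MP_32d917_al_vt.E04
import Pool.Agent.Lib.MP_32d917_al_vt.E09

/-!
# E06: the equivariant bijection of the points

Given `F` and `Φ : QQ Γ co N ≃ QQ Γ' co' N'` as in the conclusion of `q_equiv` (E05) there is a bijection `Ψ` of the points with `PtEq` below. Proof: for a region `r` and `p : Fib κ r.1.1` put `f r p := ` the vertex of `Φ (mkq r p h)` (in the fibre over the label of `F r`, since its region is `F r`: rewrite with `hΦ2`) if `h : VR co r.1 p`, and an arbitrary vertex otherwise (the fibre is nonempty: trees are).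
`RB (comp κ S) co (comp κ' S') co' F f`: maps, inj, sur: `Φ` is a bijection over `F`; pc: `hΦ3`, `pcq_iff`; int: `hΦ4` (`QInt (mkq r p h)` is `RInt co N r.1 p`). `ident` gives `Ψ`; `prj` is its property for `q = mkq r p _`. `mem`, `cq`, `ag`: `id_mem`, `id_co`, `id_ag`. `eqv`: `Ψ (g • x) = g • Ψ x` by `pt_eq` for the second structure: let `r'` be a region, `q'` over it, `PrjQ S' q' (Ψ (g • x))`;
let `q = ` the projection of `g • x` to the region `F.symm r'`; `PrjQ S' (Φ q) (Ψ (g • x))`, so `q' = Φ q` (`prj_uniq`); `PrjQ S (g⁻¹ • q) x` (`prjq_g`), `PrjQ S' (Φ (g⁻¹ • q)) (Ψ x)`, so `PrjQ S' (g • Φ (g⁻¹ • q)) (g • Ψ x)`, and `g • Φ (g⁻¹ • q) = Φ q = q'`.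
-/

set_option autoImplicit false

namespace VTB

open LatIso LatN LatF RaagIso

section

variable {G : Type} [Group G] {ι Pt V : Type} [Fintype ι] [MulAction G Pt] [MulAction G V]
  [MulAction G ι] {Γ : SimpleGraph ι} {κ : V → ι} {S : SimpleGraph V}
  {co : Pt → ∀ i, Fib κ i} {N : Pt → ι → Prop} [Fact (RAct G Γ κ co N)]
  {ι' Pt' V' : Type} [Fintype ι'] [MulAction G Pt'] [MulAction G V'] [MulAction G ι']
  {Γ' : SimpleGraph ι'} {κ' : V' → ι'} {S' : SimpleGraph V'} {co' : Pt' → ∀ i, Fib κ' i}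
  {N' : Pt' → ι' → Prop} [Fact (RAct G Γ' κ' co' N')]

/-- the bijection `Ψ` of the points is compatible with the bijection `Φ` of the vertices of the
trees of the regions -/
structure PtEq (G : Type) [Group G] {ι Pt V : Type} [MulAction G Pt]
    {Γ : SimpleGraph ι} {κ : V → ι}
    {co : Pt → ∀ i, Fib κ i} {N : Pt → ι → Prop} {ι' Pt' V' : Type}
    [MulAction G Pt'] {Γ' : SimpleGraph ι'}
    {κ' : V' → ι'} {co' : Pt' → ∀ i, Fib κ' i} {N' : Pt' → ι' → Prop}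
    (F : Rg Γ co N ≃ Rg Γ' co' N') (Φ : QQ Γ co N ≃ QQ Γ' co' N') (Ψ : Pt ≃ Pt') : Prop where
  eqv : ∀ (g : G) x, Ψ (g • x) = g • Ψ x
  mem : ∀ x r, x ∈ r.1.2 ↔ Ψ x ∈ (F r).1.2
  cq : ∀ x (q : QQ Γ co N), x ∈ q.1.1.1.2 → (co x q.1.1.1.1).1 = q.1.2 →
    (co' (Ψ x) (F q.1.1).1.1).1 = (Φ q).1.2
  ag : ∀ (r : Rg Γ co N) x y, x ∈ r.1.2 → y ∈ r.1.2 →
    (Ag co {r.1.1} x y ↔ Ag co' {(F r).1.1} (Ψ x) (Ψ y))

private theorem E06_qeq {ι Pt V : Type} {Γ : SimpleGraph ι} {κ : V → ι}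
    {co : Pt → ∀ i, Fib κ i} {N : Pt → ι → Prop} {q q' : QQ Γ co N} (h : q.1.1 = q'.1.1)
    (h' : q.1.2 = q'.1.2) : q = q' := Subtype.ext (Prod.ext h h')

/-- the vertex of `q` as an element of the fibre over the label of `r` -/
private def E06_fb {ι Pt V : Type} {Γ : SimpleGraph ι} {κ : V → ι}
    {co : Pt → ∀ i, Fib κ i} {N : Pt → ι → Prop} (q : QQ Γ co N) (r : Rg Γ co N)
    (h : q.1.1 = r) : Fib κ r.1.1 :=
  ⟨q.1.2, by rw [← h]; exact (qp q).2⟩

section fb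

variable {ι Pt V : Type} {Γ : SimpleGraph ι} {κ : V → ι}
    {co : Pt → ∀ i, Fib κ i} {N : Pt → ι → Prop}

private theorem E06_vr (q : QQ Γ co N) (r : Rg Γ co N) (h : q.1.1 = r) :
    VR co r.1 (E06_fb q r h) := by
  subst h
  exact qp_vr q

private theorem E06_int (q : QQ Γ co N) (r : Rg Γ co N) (h : q.1.1 = r) :
    RInt co N r.1 (E06_fb q r h) ↔ QInt q := by
  subst h
  exact Iff.rfl

private theorem E06_prj (S : SimpleGraph V) (q : QQ Γ co N) (r : Rg Γ co N) (h : q.1.1 = r)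
    (x : Pt) : Prj (comp κ S) co r.1 x (E06_fb q r h) ↔ PrjQ S q x := by
  subst h
  exact Iff.rfl

private theorem E06_prr (S : SimpleGraph V) (q : QQ Γ co N) (r s : Rg Γ co N) (h : q.1.1 = r) :
    PrR (comp κ S) co r.1 s.1 (E06_fb q r h) ↔ PrQ S q s := by
  subst h
  exact Iff.rfl

private theorem E06_mk (q : QQ Γ co N) (r : Rg Γ co N) (h : q.1.1 = r) :
    mkq r (E06_fb q r h) (E06_vr q r h) = q := by
  subst h
  rfl

end fb

theorem pt_equiv (L : VLat G Γ κ S co N) (L' : VLat G Γ' κ' S' co' N')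
    (F : Rg Γ co N ≃ Rg Γ' co' N') (hF : ∀ (g : G) r, F (g • r) = g • F r)
    (hF' : ∀ r s, RAdj Γ r.1 s.1 ↔ RAdj Γ' (F r).1 (F s).1)
    (Φ : QQ Γ co N ≃ QQ Γ' co' N') (hΦ1 : ∀ (g : G) q, Φ (g • q) = g • Φ q)
    (hΦ2 : ∀ q, (Φ q).1.1 = F q.1.1) (hΦ3 : ∀ q, ¬ QInt q → PCQ S S' F q (Φ q))
    (hΦ4 : ∀ q, QInt q → QInt (Φ q)) : ∃ Ψ : Pt ≃ Pt', PtEq G F Φ Ψ := by
  classical
  have hne : ∀ r : Rg Γ co N, Nonempty (Fib κ' (F r).1.1) := fun r =>
    (L'.ms.b.tree (F r).1.1).connected.nonempty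
  let f : ∀ r : Rg Γ co N, Fib κ r.1.1 → Fib κ' (F r).1.1 := fun r p =>
    if h : VR co r.1 p then E06_fb (Φ (mkq r p h)) (F r) (hΦ2 (mkq r p h))
    else (hne r).some
  have hf1 : ∀ (r : Rg Γ co N) (p : Fib κ r.1.1) (h : VR co r.1 p),
      f r p = E06_fb (Φ (mkq r p h)) (F r) (hΦ2 (mkq r p h)) := fun r p h => dif_pos h
  have hf : RB (comp κ S) co (comp κ' S') co' F f := by
    constructor
    · intro r p h
      rw [hf1 r p h]
      exact E06_vr _ _ _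
    · intro r p q hp hq h
      rw [hf1 r p hp, hf1 r q hq] at h
      have h1 : (Φ (mkq r p hp)).1.2 = (Φ (mkq r q hq)).1.2 := congrArg Subtype.val h
      have h2 : (Φ (mkq r p hp)).1.1 = (Φ (mkq r q hq)).1.1 :=
        (hΦ2 (mkq r p hp)).trans (hΦ2 (mkq r q hq)).symm
      have h3 : mkq r p hp = mkq r q hq := Φ.injective (E06_qeq h2 h1)
      have h4 : (mkq r p hp).1.2 = (mkq r q hq).1.2 := by rw [h3]
      exact Subtype.ext h4
    · intro r p' h
      obtain ⟨q, hq⟩ := Φ.surjective (mkq (F r) p' h)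
      have h1 : q.1.1 = r := by
        apply F.injective
        rw [← hΦ2 q, hq]
        rfl
      refine ⟨E06_fb q r h1, E06_vr q r h1, ?_⟩
      rw [hf1 r _ (E06_vr q r h1)]
      apply Subtype.ext
      change (Φ (mkq r (E06_fb q r h1) (E06_vr q r h1))).1.2 = p'.1
      rw [E06_mk, hq]
      rfl
    · intro r p h h'
      have h1 := hΦ3 (mkq r p h) h'
      rw [hf1 r p h]
      refine ⟨h, h', E06_vr _ _ _, ?_, ?_⟩
      · rw [E06_int]
        exact h1.2.2.1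
      · intro s hs
        rw [E06_prr]
        exact h1.2.2.2 s hs
    · intro r p h h'
      rw [hf1 r p h, E06_int]
      exact hΦ4 (mkq r p h) h'
  obtain ⟨Ψ, hΨ⟩ := ident L.ms L.gg L'.ms L'.gg F hF' f hf
  have K : ∀ x (q : QQ Γ co N), PrjQ S q x → PrjQ S' (Φ q) (Ψ x) := by
    intro x q hq
    have h1 := hΨ x q.1.1 (qp q) hq
    rw [hf1 q.1.1 (qp q) (qp_vr q), E06_prj] at h1
    exact h1
  refine ⟨Ψ, ?_, ?_, ?_, ?_⟩
  · intro g x
    refine pt_eq L'.ms.b fun t p' hp' => ?_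
    obtain ⟨r, rfl⟩ := F.surjective t
    obtain ⟨p, hp⟩ := prj_exists L.ms.b r.2 (g • x)
    have h1 : PrjQ S (mkq r p hp.1) (g • x) := hp
    have h2 := K _ _ h1
    have h3 : PrjQ S (g⁻¹ • mkq r p hp.1) x := by
      rw [← prjq_g L.pre g, smul_inv_smul]
      exact h1
    have h4 := (prjq_g L'.pre g _ _).2 (K _ _ h3)
    rw [← hΦ1, smul_inv_smul] at h4
    rw [← E06_prj S' _ (F r) (hΦ2 (mkq r p hp.1))] at h2 h4
    rw [prj_uniq L'.ms.b hp' h2]
    exact h4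
  · exact id_mem L.ms L.gg L'.ms L'.gg F hF' f hf Ψ hΨ
  · intro x q hx hq
    have h1 := id_co L.ms L.gg L'.ms L'.gg F hF' f hf Ψ hΨ x q.1.1 hx
    have h2 : co x q.1.1.1.1 = qp q := Subtype.ext hq
    rw [h2, hf1 q.1.1 (qp q) (qp_vr q)] at h1
    exact congrArg Subtype.val h1
  · exact id_ag L.ms L.gg L'.ms L'.gg F hF' f hf Ψ hΨ

end

end VTB
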