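import Pool.Agent.Lib.MP_32d917_al_vt.VE
import Pool.Agent.Lib.MP_32d917_al_vt.T04
import Pool.Agent.Lib.MP_32d917_al_vt.A05

/-!
# E08: slides of the trees of the regions

`reg_two`: two regions of the same label with two different common vertices are equal: by `vr_cv` both trees contain the segment between them, so a common edge `a b` (`st_next`), `cv_edge` with `reg_cv` gives steps over it in both regions, `strip_ag`: their points agree outside `lk i`, so the regions are equal (`reg_mem`).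
`q_two`: so if `p, q ∈ QQ` are over the same region, `p.1.2 ≠ q.1.2`, and `p', q'` too, with `p'.1.2 = g • p.1.2`, `q'.1.2 = g • q.1.2`, then `p' = g • p`, `q' = g • q` (labels: `κ`).
`dn_qgr`: `dn (qgr Γ co N S) = S`: an edge of `S` is crossed by a step (`edge_step` for `comp κ S i`, `i = κ a = κ b`), which is in the region of its label (`occ`, `rg_isReg`).
`qgr_dn`: if all edges of `R` are between vertices of the same region then `qgr Γ co N (dn R) = R` (→: `q_two` with `g = 1`: the edge of `dn R` comes from `p', q'` over one region, with the vertices of `p`, `q`; `R.Adj p' q'` and `p' ≠ q'` have different vertices as they are over the same region).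
`dn_slide`: let `v x u : QQ` be as in `Slide G R R'`, `r` their region (`R.Adj v x`, `R.Adj v u`), `i = r.1.1`. Let `x0 ∈ r.1.2` be a point over `v`; `reg_pt` gives points `y`, `z` in the panel of `x0` over `x`, `u`: `VSt (comp κ (dn R)) co i x0 y`. `SlideAt`: by `q_two` the conditions for vertices of `V` and for elements of `QQ` are equivalent (`v`, `x`, `u` have pairwise different vertices where needed: `R.Adj`; for `u`, `x`: `u ≠ x` by the first condition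
with `g = 1`).
`up_slide`: the converse: `VSl G κ co S S'` gives `Slide G (qgr Γ co N S) (qgr Γ co N S')`: `v = mkq (rg x i) (co x i)` etc. The new graph `S'` has all its edges in regions (`g • u`, `g • x` are in the region `g • r`).
-/

set_option autoImplicit false

namespace VTB

open LatIso LatN LatF RaagIso

section

variable {G : Type} [Group G] {ι Pt V : Type} [Fintype ι] [MulAction G Pt] [MulAction G V]
  [MulAction G ι] {Γ : SimpleGraph ι} {κ : V → ι} {S : SimpleGraph V}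
  {co : Pt → ∀ i, Fib κ i} {N : Pt → ι → Prop}

private theorem E08_eq0 {V' : ι → Type} {S' : ∀ i, SimpleGraph (V' i)} {co' : Pt → ∀ i, V' i}
    (M : MS1 Γ S' co' N) {i : ι} {x x' : Pt} (hx : Oc Γ N x i) (hx' : Oc Γ N x' i) {P Q : V' i}
    (hPQ : P ≠ Q) (h1 : VR co' (rg Γ co' x i) P) (h2 : VR co' (rg Γ co' x i) Q)
    (h1' : VR co' (rg Γ co' x' i) P) (h2' : VR co' (rg Γ co' x' i) Q) :
    rg Γ co' x i = rg Γ co' x' i := by
  have R1 : IsReg Γ co' N (rg Γ co' x i) := rg_isReg hx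
  have R2 : IsReg Γ co' N (rg Γ co' x' i) := rg_isReg hx'
  obtain ⟨n, hn, hb⟩ := st_next (M.tree i) hPQ
  have n1 : VR co' (rg Γ co' x i) n := vr_cv M R1 P h1 Q h2 n hb
  have n2 : VR co' (rg Γ co' x' i) n := vr_cv M R2 P h1' Q h2' n hb
  have bt0 : ∀ a b : V' i, Bt (S' i) a a b := by
    intro a b
    unfold Bt
    simp
  have key : ∀ y : Pt, Oc Γ N y i → VR co' (rg Γ co' y i) P → VR co' (rg Γ co' y i) n →
      ∃ z ∈ (rg Γ co' y i).2, ∃ w, VSt S' co' i z w ∧ co' z i = P ∧ co' w i = n := by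
    intro y hy k1 k2
    obtain ⟨a, ha, ha'⟩ := k1
    obtain ⟨b, hb, hb'⟩ := k2
    have ha'' : co' a i = P := ha'
    have hb'' : co' b i = n := hb'
    obtain ⟨z, hz, w, -, hzw, e1, e2⟩ := cv_edge M (reg_cv M (rg_isReg hy)) hn ha hb
      (by rw [ha'']; exact bt0 _ _) (by rw [hb'']; exact bt0 _ _)
    exact ⟨z, hz, w, hzw, e1, e2⟩
  obtain ⟨z, hz, w, hzw, e1, e2⟩ := key x hx h1 n1
  obtain ⟨z', hz', w', hzw', e1', e2'⟩ := key x' hx' h1' n2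
  have h3 := strip_ag M hzw hzw' (e1.trans e1'.symm) (e2.trans e2'.symm)
  have h4 : Ag co' (st Γ i) z z' := ag_mono (fun _ h => Or.inr h) h3
  have h5 : Ag co' (st Γ i) x z := hz
  have h6 : Ag co' (st Γ i) x' z' := hz'
  have h7 : Ag co' (st Γ i) x x' := ag_trans h5 (ag_trans h4 (ag_symm h6))
  apply Prod.ext
  · rfl
  · ext y
    exact ⟨fun h => ag_trans (ag_symm h7) h, fun h => ag_trans h7 h⟩

private theorem E08_eq (M : MS1 Γ (comp κ S) co N) {r r' : Rg Γ co N} {y1 y2 y1' y2' : Pt}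
    (h1 : y1 ∈ r.1.2) (h2 : y2 ∈ r.1.2) (h1' : y1' ∈ r'.1.2) (h2' : y2' ∈ r'.1.2)
    (e1 : (co y1' r'.1.1).1 = (co y1 r.1.1).1) (e2 : (co y2' r'.1.1).1 = (co y2 r.1.1).1)
    (hne : (co y1 r.1.1).1 ≠ (co y2 r.1.1).1) : r' = r := by
  have hi : r'.1.1 = r.1.1 := by
    rw [← (co y1' r'.1.1).2, ← (co y1 r.1.1).2, e1]
  have hr := reg_mem r.2 h1
  have hr' := reg_mem r'.2 h1'
  have o1 := reg_oc M r.2 h1
  have o1' := reg_oc M r'.2 h1'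
  obtain ⟨⟨i, C⟩, hC⟩ := r
  obtain ⟨⟨i', C'⟩, hC'⟩ := r'
  dsimp only at hi
  subst hi
  apply Subtype.ext
  rw [hr, hr']
  dsimp only at hr hr' o1 o1' e1 e2 hne h1 h2 h1' h2' ⊢
  refine (E08_eq0 (co' := co) M o1 o1' (P := co y1 i') (Q := co y2 i')
    (fun h => hne (congrArg Subtype.val h)) ?_ ?_ ?_ ?_).symm
  · exact ⟨y1, ag_refl _, rfl⟩
  · refine ⟨y2, ?_, rfl⟩
    rw [← hr]
    exact h2
  · refine ⟨y1', ag_refl _, Subtype.ext e1⟩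
  · refine ⟨y2', ?_, Subtype.ext e2⟩
    rw [← hr']
    exact h2'

theorem reg_two (M : MS1 Γ (comp κ S) co N) (p q p' q' : QQ Γ co N) (h : p.1.1 = q.1.1)
    (h' : p'.1.1 = q'.1.1) (hp : p'.1.2 = p.1.2) (hq : q'.1.2 = q.1.2) (hne : p.1.2 ≠ q.1.2) :
    p' = p ∧ q' = q := by
  obtain ⟨y1, h1, e1⟩ := p.2
  obtain ⟨y2, h2, e2⟩ := q.2
  obtain ⟨y1', h1', e1'⟩ := p'.2
  obtain ⟨y2', h2', e2'⟩ := q'.2
  rw [← h] at h2 e2
  rw [← h'] at h2' e2'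
  have hr : p'.1.1 = p.1.1 := E08_eq M h1 h2 h1' h2' (by rw [e1, e1', hp]) (by rw [e2, e2', hq])
    (by rw [e1, e2]; exact hne)
  exact ⟨Subtype.ext (Prod.ext hr hp), Subtype.ext (Prod.ext (by rw [← h', hr, h]) hq)⟩

theorem q_two [Fact (RAct G Γ κ co N)] (M : MS1 Γ (comp κ S) co N) (g : G)
    (p q p' q' : QQ Γ co N) (h : p.1.1 = q.1.1) (h' : p'.1.1 = q'.1.1)
    (hp : p'.1.2 = g • p.1.2) (hq : q'.1.2 = g • q.1.2) (hne : p.1.2 ≠ q.1.2) :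
    p' = g • p ∧ q' = g • q := by
  refine reg_two M (g • p) (g • q) p' q' ?_ h' hp hq ?_
  · rw [qq_reg, qq_reg, h]
  · rw [qq_vert, qq_vert]
    exact fun hh => hne (smul_left_cancel g hh)

private theorem E08_ne {p q : QQ Γ co N} (h : p.1.1 = q.1.1) (hne : p ≠ q) : p.1.2 ≠ q.1.2 :=
  fun h1 => hne (Subtype.ext (Prod.ext h h1))

theorem dn_qgr (M : MS1 Γ (comp κ S) co N) (hk : ∀ x y, S.Adj x y → κ x = κ y) :
    dn (qgr Γ co N S) = S := by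
  ext a b
  constructor
  · rintro ⟨-, p, q, ⟨-, h⟩, rfl, rfl⟩
    exact h
  · intro h
    have h1 : (comp κ S (κ a)).Adj ⟨a, rfl⟩ ⟨b, (hk a b h).symm⟩ := h
    obtain ⟨x, y, hxy, hx, hy⟩ := edge_step M h1
    have ho : Oc Γ N x (κ a) := (M.occ x (κ a)).1 ⟨y, hxy⟩
    refine ⟨h.ne, mkq ⟨rg Γ co x (κ a), rg_isReg ho⟩ (co x (κ a)) ⟨x, ag_refl x, rfl⟩,
      mkq ⟨rg Γ co x (κ a), rg_isReg ho⟩ (co y (κ a)) ⟨y, ?_, rfl⟩, ⟨rfl, ?_⟩, ?_, ?_⟩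
    · intro j hj
      exact hxy.2 j (fun e => hj (Or.inl e))
    · change S.Adj (co x (κ a)).1 (co y (κ a)).1
      rw [hx, hy]
      exact h
    · exact congrArg Subtype.val hx
    · exact congrArg Subtype.val hy

theorem qgr_dn (M : MS1 Γ (comp κ S) co N) (R : SimpleGraph (QQ Γ co N))
    (hR : ∀ p q, R.Adj p q → p.1.1 = q.1.1) : qgr Γ co N (dn R) = R := by
  ext p q
  constructor
  · rintro ⟨h, hne, p', q', h1, h2, h3⟩
    obtain ⟨rfl, rfl⟩ := reg_two M p q p' q' h (hR _ _ h1) h2 h3 hne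
    exact h1
  · intro h
    exact ⟨hR p q h, E08_ne (hR p q h) h.ne, p, q, h, rfl, rfl⟩

theorem dn_slide [Fact (RAct G Γ κ co N)] (M : MS1 Γ (comp κ S) co N)
    (R R' : SimpleGraph (QQ Γ co N)) (hR : ∀ p q, R.Adj p q → p.1.1 = q.1.1)
    (hs : Slide G R R') : VSl G κ co (dn R) (dn R') := by
  obtain ⟨v, x, u, hvx, hvu, h1, h2, h3, h4⟩ := hs
  have rx := hR v x hvx
  have ru := hR v u hvu
  have nx : v.1.2 ≠ x.1.2 := E08_ne rx hvx.ne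
  have nu : v.1.2 ≠ u.1.2 := E08_ne ru hvu.ne
  have nux : u.1.2 ≠ x.1.2 := E08_ne (ru.symm.trans rx) (by
    rintro rfl
    exact h1 1 ⟨one_smul _ _, one_smul _ _⟩)
  obtain ⟨x0, hx0, e0⟩ := v.2
  -- a point over another vertex of the region
  have key : ∀ w : QQ Γ co N, R.Adj v w → ∃ y, VSt (comp κ (dn R)) co v.1.1.1.1 x0 y ∧
      (co y v.1.1.1.1).1 = w.1.2 := by
    intro w hw
    obtain ⟨y', hy', e'⟩ := w.2
    rw [← hR v w hw] at hy' e'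
    have hr := reg_mem v.1.1.2 hx0
    have hag : Ag co (st Γ v.1.1.1.1) x0 y' := by
      rw [hr] at hy'
      exact hy'
    obtain ⟨y, hy, ey⟩ := reg_pt M hag
    have e2 : (co y v.1.1.1.1).1 = w.1.2 := by rw [ey, e']
    refine ⟨y, ⟨?_, fun j hj => hy j hj⟩, e2⟩
    change (dn R).Adj (co x0 v.1.1.1.1).1 (co y v.1.1.1.1).1
    rw [e0, e2]
    exact ⟨E08_ne (hR v w hw) hw.ne, v, w, hw, rfl, rfl⟩
  obtain ⟨y, hy, ey⟩ := key x hvx
  obtain ⟨z, hz, ez⟩ := key u hvu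
  refine ⟨v.1.1.1.1, x0, y, z, hy, hz, ?_⟩
  rw [e0, ey, ez]
  refine ⟨?_, ?_, ?_, ?_⟩
  · rintro g ⟨k1, k2⟩
    obtain ⟨m1, m2⟩ := q_two M g v x v u rx ru k1.symm k2.symm nx
    exact h1 g ⟨m1.symm, m2.symm⟩
  · rintro g ⟨k1, k2⟩
    obtain ⟨m1, m2⟩ := q_two M g v x u v rx ru.symm k1.symm k2.symm nx
    exact h2 g ⟨m1.symm, m2.symm⟩
  · intro g k1 k2
    obtain ⟨m1, m2⟩ := q_two M g v x v x rx rx k1.symm k2.symm nx
    exact congrArg (fun w : QQ Γ co N => w.1.2) (h3 g m1.symm m2.symm)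
  · intro a b
    constructor
    · rintro ⟨hab, p, q, hpq, rfl, rfl⟩
      rcases (h4 p q).1 hpq with ⟨k1, k2⟩ | ⟨g, ⟨rfl, rfl⟩ | ⟨rfl, rfl⟩⟩
      · refine Or.inl ⟨⟨hab, p, q, k1, rfl, rfl⟩, fun g => ⟨?_, ?_⟩⟩
        · rintro ⟨m1, m2⟩
          obtain ⟨n1, n2⟩ := q_two M g v x p q rx (hR _ _ k1) m1.symm m2.symm nx
          exact (k2 g).1 ⟨n1.symm, n2.symm⟩
        · rintro ⟨m1, m2⟩
          obtain ⟨n1, n2⟩ := q_two M g v x q p rx (hR _ _ k1).symm m1.symm m2.symm nx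
          exact (k2 g).2 ⟨n1.symm, n2.symm⟩
      · exact Or.inr ⟨g, Or.inl ⟨rfl, rfl⟩⟩
      · exact Or.inr ⟨g, Or.inr ⟨rfl, rfl⟩⟩
    · rintro (⟨⟨hab, p, q, hpq, rfl, rfl⟩, k2⟩ | ⟨g, ⟨rfl, rfl⟩ | ⟨rfl, rfl⟩⟩)
      · refine ⟨hab, p, q, (h4 p q).2 (Or.inl ⟨hpq, fun g => ⟨?_, ?_⟩⟩), rfl, rfl⟩
        · rintro ⟨rfl, rfl⟩
          exact (k2 g).1 ⟨rfl, rfl⟩
        · rintro ⟨rfl, rfl⟩
          exact (k2 g).2 ⟨rfl, rfl⟩
      · exact ⟨fun hh => nux (smul_left_cancel g hh), g • u, g • x,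
          (h4 _ _).2 (Or.inr ⟨g, Or.inl ⟨rfl, rfl⟩⟩), rfl, rfl⟩
      · exact ⟨fun hh => nux (smul_left_cancel g hh.symm), g • x, g • u,
          (h4 _ _).2 (Or.inr ⟨g, Or.inr ⟨rfl, rfl⟩⟩), rfl, rfl⟩

theorem up_slide [Fact (RAct G Γ κ co N)] (L : VLat G Γ κ S co N) (S' : SimpleGraph V)
    (hs : VSl G κ co S S') : Slide G (qgr Γ co N S) (qgr Γ co N S') ∧
      ∀ a b, S'.Adj a b → ∃ p q : QQ Γ co N, p.1.1 = q.1.1 ∧ p.1.2 = a ∧ q.1.2 = b := by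
  have M : MS1 Γ (comp κ S) co N := L.ms.b
  obtain ⟨i, x, y, z, hxy, hxz, h1, h2, h3, h4⟩ := hs
  have ho : Oc Γ N x i := (M.occ x i).1 ⟨y, hxy⟩
  have hay : ∀ w, VSt (comp κ S) co i x w → w ∈ (rg Γ co x i).2 :=
    fun w hw j hj => hw.2 j (fun e => hj (Or.inl e))
  obtain ⟨r, hr⟩ : ∃ r : Rg Γ co N, r.1 = rg Γ co x i := ⟨⟨rg Γ co x i, rg_isReg ho⟩, rfl⟩
  obtain ⟨v, hv1, hv2⟩ : ∃ v : QQ Γ co N, v.1.1 = r ∧ v.1.2 = (co x i).1 :=
    ⟨mkq ⟨rg Γ co x i, rg_isReg ho⟩ (co x i) ⟨x, ag_refl x, rfl⟩, Subtype.ext hr.symm, rfl⟩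
  obtain ⟨w, hw1, hw2⟩ : ∃ w : QQ Γ co N, w.1.1 = r ∧ w.1.2 = (co y i).1 :=
    ⟨mkq ⟨rg Γ co x i, rg_isReg ho⟩ (co y i) ⟨y, hay y hxy, rfl⟩, Subtype.ext hr.symm, rfl⟩
  obtain ⟨u, hu1, hu2⟩ : ∃ u : QQ Γ co N, u.1.1 = r ∧ u.1.2 = (co z i).1 :=
    ⟨mkq ⟨rg Γ co x i, rg_isReg ho⟩ (co z i) ⟨z, hay z hxz, rfl⟩, Subtype.ext hr.symm, rfl⟩
  have vw : v.1.1 = w.1.1 := hv1.trans hw1.symm
  have vu : v.1.1 = u.1.1 := hv1.trans hu1.symm
  have uw : u.1.1 = w.1.1 := hu1.trans hw1.symm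
  have a1 : S.Adj v.1.2 w.1.2 := by
    rw [hv2, hw2]
    exact hxy.1
  have a2 : S.Adj v.1.2 u.1.2 := by
    rw [hv2, hu2]
    exact hxz.1
  rw [← hv2, ← hw2, ← hu2] at h1 h3 h4
  rw [← hv2, ← hw2, ← hu2] at h2
  have nuw : u.1.2 ≠ w.1.2 := by
    intro hh
    exact h1 1 ⟨one_smul _ _, by rw [one_smul, hh]⟩
  refine ⟨⟨v, w, u, ⟨vw, a1⟩, ⟨vu, a2⟩, ?_, ?_, ?_, ?_⟩, ?_⟩
  · rintro g ⟨k1, k2⟩
    exact h1 g ⟨congrArg (fun q : QQ Γ co N => q.1.2) k1, congrArg (fun q : QQ Γ co N => q.1.2) k2⟩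
  · rintro g ⟨k1, k2⟩
    exact h2 g ⟨congrArg (fun q : QQ Γ co N => q.1.2) k1, congrArg (fun q : QQ Γ co N => q.1.2) k2⟩
  · intro g k1 k2
    have k3 := h3 g (congrArg (fun q : QQ Γ co N => q.1.2) k1)
      (congrArg (fun q : QQ Γ co N => q.1.2) k2)
    refine Subtype.ext (Prod.ext ?_ k3)
    have k4 : g • v.1.1 = v.1.1 := congrArg (fun q : QQ Γ co N => q.1.1) k1
    change g • u.1.1 = u.1.1
    rw [← vu]
    exact k4
  · intro p q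
    constructor
    · rintro ⟨k0, k1⟩
      rcases (h4 _ _).1 k1 with ⟨m1, m2⟩ | ⟨g, ⟨m1, m2⟩ | ⟨m1, m2⟩⟩
      · refine Or.inl ⟨⟨k0, m1⟩, fun g => ⟨?_, ?_⟩⟩
        · rintro ⟨rfl, rfl⟩
          exact (m2 g).1 ⟨rfl, rfl⟩
        · rintro ⟨rfl, rfl⟩
          exact (m2 g).2 ⟨rfl, rfl⟩
      · obtain ⟨n1, n2⟩ := q_two M g u w p q uw k0 m1.symm m2.symm nuw
        exact Or.inr ⟨g, Or.inl ⟨n1.symm, n2.symm⟩⟩
      · obtain ⟨n1, n2⟩ := q_two M g u w q p uw k0.symm m1.symm m2.symm nuw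
        exact Or.inr ⟨g, Or.inr ⟨n1.symm, n2.symm⟩⟩
    · rintro (⟨⟨k0, k1⟩, k2⟩ | ⟨g, ⟨rfl, rfl⟩ | ⟨rfl, rfl⟩⟩)
      · refine ⟨k0, (h4 _ _).2 (Or.inl ⟨k1, fun g => ⟨?_, ?_⟩⟩)⟩
        · rintro ⟨m1, m2⟩
          obtain ⟨n1, n2⟩ := q_two M g v w p q vw k0 m1.symm m2.symm a1.ne
          exact (k2 g).1 ⟨n1.symm, n2.symm⟩
        · rintro ⟨m1, m2⟩
          obtain ⟨n1, n2⟩ := q_two M g v w q p vw k0.symm m1.symm m2.symm a1.ne
          exact (k2 g).2 ⟨n1.symm, n2.symm⟩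
      · exact ⟨by rw [qq_reg, qq_reg, uw], (h4 _ _).2 (Or.inr ⟨g, Or.inl ⟨rfl, rfl⟩⟩)⟩
      · exact ⟨by rw [qq_reg, qq_reg, uw], (h4 _ _).2 (Or.inr ⟨g, Or.inr ⟨rfl, rfl⟩⟩)⟩
  · intro a b hab
    rcases (h4 a b).1 hab with ⟨m1, -⟩ | ⟨g, ⟨rfl, rfl⟩ | ⟨rfl, rfl⟩⟩
    · have m3 : (dn (qgr Γ co N S)).Adj a b := by
        rw [dn_qgr M L.pre.kapS]
        exact m1
      obtain ⟨-, p, q, ⟨m4, -⟩, m5, m6⟩ := m3
      exact ⟨p, q, m4, m5, m6⟩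
    · exact ⟨g • u, g • w, by rw [qq_reg, qq_reg, uw], rfl, rfl⟩
    · exact ⟨g • w, g • u, by rw [qq_reg, qq_reg, uw], rfl, rfl⟩

/-- chains of slides -/
theorem dn_chain [Fact (RAct G Γ κ co N)] (L : VLat G Γ κ S co N)
    (R : SimpleGraph (QQ Γ co N)) (hg : GFor G qk (qgr Γ co N S))
    (hs : Relation.ReflTransGen (Slide G) (qgr Γ co N S) R) :
    Relation.ReflTransGen (VSl G κ co) S (dn R) ∧ GFor G qk R := by
  induction hs with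
  | refl =>
    rw [dn_qgr L.ms.b L.pre.kapS]
    exact ⟨Relation.ReflTransGen.refl, hg⟩
  | tail h1 h2 ih =>
    exact ⟨ih.1.tail (dn_slide L.ms.b _ _ (fun p q h => ih.2.kap p q h) h2),
      gfor_slide ih.2 h2⟩

end

end VTB
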