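import Pool.Agent.Lib.MP_32d917_al_vt.E03
import Pool.Agent.Lib.MP_32d917_al_vt.E04
import Pool.Agent.Lib.MP_32d917_al_vt.E08
import Pool.Agent.Lib.MP_32d917_al.N.NS1

/-!
# E07: the slides

Given `F` and `Φ : QQ Γ co N ≃ QQ Γ' co' N'` equivariant over `F`. Let `R = (qgr Γ' co' N' S').comap Φ`. Then `R` is a forest over the set of regions of the first structure (`GFor G qk R`: `qgr_gfor` for the second structure with `e = F.symm`, transported by `Φ`: the fibre of `qk` over `r` is mapped to the fibre of `fun q' => F.symm q'.1.1` over `r`), the trees are `TLat` (`reg_tlat` with `e = F.symm`,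
`tlat_transport` of N/NS1), and so are those of `qgr Γ co N S` (`e = Equiv.refl _`). `gfor_niel`, `qgr_fin`: a chain of slides; `dn_chain`.
-/

set_option autoImplicit false

namespace VTB

open LatIso LatN LatF RaagIso

section

variable {G : Type} [Group G] {ι Pt V : Type} [Fintype ι] [MulAction G Pt] [MulAction G V]
  [MulAction G ι] {Γ : SimpleGraph ι} {κ : V → ι} {S : SimpleGraph V}
  {co : Pt → ∀ i, Fib κ i} {N : Pt → ι → Prop} [Fact (RAct G Γ κ co N)]
  {ι' Pt' V' : Type} [Fintype ι'] [MulAction G Pt'] [MulAction G V'] [MulAction G ι']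
  {Γ' : SimpleGraph ι'} {κ' : V' → ι'} {S' : SimpleGraph V'} {co' : Pt' → ∀ i, Fib κ' i}
  {N' : Pt' → ι' → Prop} [Fact (RAct G Γ' κ' co' N')]

/-- the bijection of the fibres -/
private def E07_f (F : Rg Γ co N ≃ Rg Γ' co' N') (Φ : QQ Γ co N ≃ QQ Γ' co' N')
    (hΦ2 : ∀ q, (Φ q).1.1 = F q.1.1) (r : Rg Γ co N) :
    Fib (qk : QQ Γ co N → Rg Γ co N) r ≃ Fib (fun q' : QQ Γ' co' N' => F.symm q'.1.1) r where
  toFun q := ⟨Φ q.1, by
    change F.symm (Φ q.1).1.1 = r
    rw [hΦ2, F.symm_apply_apply]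
    exact q.2⟩
  invFun q' := ⟨Φ.symm q'.1, by
    change (Φ.symm q'.1).1.1 = r
    have h1 := hΦ2 (Φ.symm q'.1)
    rw [Φ.apply_symm_apply] at h1
    have h2 : F.symm q'.1.1.1 = r := q'.2
    refine Eq.trans ?_ h2
    rw [h1, F.symm_apply_apply]⟩
  left_inv q := Subtype.ext (Φ.symm_apply_apply q.1)
  right_inv q' := Subtype.ext (Φ.apply_symm_apply q'.1)

theorem q_chain (L : VLat G Γ κ S co N) (L' : VLat G Γ' κ' S' co' N')
    (F : Rg Γ co N ≃ Rg Γ' co' N') (hF : ∀ (g : G) r, F (g • r) = g • F r)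
    (Φ : QQ Γ co N ≃ QQ Γ' co' N') (hΦ1 : ∀ (g : G) q, Φ (g • q) = g • Φ q)
    (hΦ2 : ∀ q, (Φ q).1.1 = F q.1.1) :
    Relation.ReflTransGen (VSl G κ co) S (dn ((qgr Γ' co' N' S').comap Φ)) := by
  have hF' : ∀ (g : G) r, F.symm (g • r) = g • F.symm r := by
    intro g r
    apply F.injective
    rw [hF, F.apply_symm_apply, F.apply_symm_apply]
  have hg : GFor G qk (qgr Γ co N S) := qgr_gfor L (Equiv.refl _) (fun _ _ => rfl)
  have hg1 : GFor G (fun q : QQ Γ' co' N' => F.symm q.1.1) (qgr Γ' co' N' S') :=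
    qgr_gfor L' F.symm hF'
  have hk : Fact (KEq G (fun q : QQ Γ' co' N' => F.symm q.1.1)) := ⟨fun g q => hF' g q.1.1⟩
  have hg' : GFor G qk ((qgr Γ' co' N' S').comap Φ) := by
    refine ⟨fun r => ?_, ?_, ⟨qk_keq, ?_⟩, ?_⟩
    · exact (SimpleGraph.Iso.comap (E07_f F Φ hΦ2 r) _).isTree_iff.mpr (hg1.tree r)
    · intro x y h
      have h1 : (Φ x).1.1 = (Φ y).1.1 := h.1
      rw [hΦ2, hΦ2] at h1
      exact F.injective h1
    · intro g x y h
      have h1 : (qgr Γ' co' N' S').Adj (Φ x) (Φ y) := h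
      change (qgr Γ' co' N' S').Adj (Φ (g • x)) (Φ (g • y))
      rw [hΦ1, hΦ1]
      exact hg1.act.adj g _ _ h1
    · intro g x y h h1 h2
      have h3 : (qgr Γ' co' N' S').Adj (Φ x) (Φ y) := h
      refine hg1.noinv g _ _ h3 ?_ ?_
      · rw [← hΦ1, h1]
      · rw [← hΦ1, h2]
  refine (dn_chain L _ hg (gfor_niel hg hg' (qgr_fin L) ?_ ?_)).1
  · intro r
    have hk0 : Fact (KEq G (fun q : QQ Γ co N => (Equiv.refl (Rg Γ co N)) q.1.1)) :=
      ⟨fun _ _ => rfl⟩
    exact reg_tlat L (Equiv.refl _) (fun _ _ => rfl) r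
  · intro r
    exact tlat_transport (reg_tlat L' F.symm hF' r) (E07_f F Φ hΦ2 r)
      (fun g u => Subtype.ext (hΦ1 g u.1))

end

end VTB
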