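import Pool.Agent.Lib.MP_32d917_al_vt.E05
import Pool.Agent.Lib.MP_32d917_al_vt.E06
import Pool.Agent.Lib.MP_32d917_al_vt.E07

/-!
# E10: rigidity: two reduced structures of one group differ by slides

`L.pre.ract` gives the `Fact`s. `f_equiv`, `q_equiv`, `pt_equiv`, `q_chain`; `S₁ = dn ((qgr Γ' co' N' S').comap Φ)`, `Ψ` from `pt_equiv`. `UAdj`: → let `VSt (comp κ S₁) co i x y`: `S₁.Adj (co x i).1 (co y i).1` and `Ag co {i} x y`, `x ≠ y`. `ag_geod` (for the structure `S`, `J = {i}`): a first step of label `i` at `x`, so `i` occurs at `x` (`occ`); let `r = rg x i` (`rg_isReg`), `x, y ∈ r.1.2`, `q_x = mkq r (co x i) _`, `q_y`.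
The edge of `S₁` comes from `p, q : QQ` with `(Φ p).1.1 = (Φ q).1.1`, `S'.Adj (Φ p).1.2 (Φ q).1.2`, `p.1.2 = (co x i).1`, `q.1.2 = (co y i).1`, so `p.1.1 = q.1.1` (`hΦ2`, `F` injective), and by `reg_two` `p = q_x`, `q = q_y`. By `PtEq.cq` `(co' (Ψ x) i').1 = (Φ q_x).1.2`, the same for `y` (`i' = (F r).1.1`): adjacent; `PtEq.ag`: `Ag co' {i'} (Ψ x) (Ψ y)`. So `UAdj`.
← let `VSt (comp κ' S') co' k (Ψ x) (Ψ y)`, `r'` the region of label `k` at `Ψ x` (it contains `Ψ y`), `r = F.symm r'`, `x, y ∈ r.1.2` by `PtEq.mem`; `q_x`, `q_y` as before; `PtEq.cq`: `Φ q_x`, `Φ q_y` have the vertices `(co' (Ψ x) k).1`, `(co' (Ψ y) k).1` [the label of `F r` is `k`], adjacent in `S'`, the same region `F r`: so `S₁.Adj` of the vertices of `q_x`, `q_y` (they are different as `Φ q_x ≠ Φ q_y`); `PtEq.ag`.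
-/

set_option autoImplicit false

namespace VTB

open LatIso LatN LatF RaagIso

section

variable {G : Type} [Group G] {ι Pt V : Type} [Fintype ι] [MulAction G Pt] [MulAction G V]
  [MulAction G ι] {Γ : SimpleGraph ι} {κ : V → ι} {S : SimpleGraph V}
  {co : Pt → ∀ i, Fib κ i} {N : Pt → ι → Prop}
  {ι' Pt' V' : Type} [Fintype ι'] [MulAction G Pt'] [MulAction G V'] [MulAction G ι']
  {Γ' : SimpleGraph ι'} {κ' : V' → ι'} {S' : SimpleGraph V'} {co' : Pt' → ∀ i, Fib κ' i}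
  {N' : Pt' → ι' → Prop}

/-- points which differ exactly in the coordinate `i` -/
private theorem E10_oc {ι Pt : Type} [Fintype ι] {V : ι → Type} {Γ : SimpleGraph ι}
    {S : ∀ i, SimpleGraph (V i)} {co : Pt → ∀ i, V i} {N : Pt → ι → Prop} (M : MS1 Γ S co N)
    {x y : Pt} {i : ι} (h : Ag co {i} x y) (hne : co x i ≠ co y i) : Oc Γ N x i := by
  rcases Relation.ReflTransGen.cases_head (ag_geod M h) with e | ⟨c, ⟨_, _, k, hk, hs, _⟩, _⟩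
  · exact absurd (by rw [e]) hne
  · obtain rfl : k = i := hk
    exact (M.occ x k).1 ⟨c, hs⟩

theorem vrig (L : VLat G Γ κ S co N) (hC : CLeaf Γ (comp κ S)) (hr : VRed G κ S co N)
    (L' : VLat G Γ' κ' S' co' N') (hC' : CLeaf Γ' (comp κ' S')) (hr' : VRed G κ' S' co' N') : ∃ (S₁ : SimpleGraph V) (Ψ : Pt ≃ Pt'),
      Relation.ReflTransGen (VSl G κ co) S S₁ ∧ (∀ (g : G) x, Ψ (g • x) = g • Ψ x) ∧
      ∀ x y, UAdj (comp κ S₁) co x y ↔ UAdj (comp κ' S') co' (Ψ x) (Ψ y) := by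
  haveI i1 : Fact (RAct G Γ κ co N) := ⟨L.pre.ract⟩
  haveI i2 : Fact (RAct G Γ' κ' co' N') := ⟨L'.pre.ract⟩
  obtain ⟨F, hF, hF', hcf⟩ := f_equiv L hC L' hC'
  obtain ⟨Φ, hΦ1, hΦ2, hΦ3, hΦ4⟩ := q_equiv L hr L' hr' F hF hF' hcf
  obtain ⟨Ψ, hΨ⟩ := pt_equiv L L' F hF hF' Φ hΦ1 hΦ2 hΦ3 hΦ4
  refine ⟨dn ((qgr Γ' co' N' S').comap Φ), Ψ, q_chain L L' F hF Φ hΦ1 hΦ2, hΨ.eqv,
    fun x y => ⟨?_, ?_⟩⟩
  · rintro ⟨i, hadj, hag⟩
    obtain ⟨hne, p, q, ⟨h1, h2⟩, h3, h4⟩ := hadj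
    have hag' : Ag co {i} x y := fun j hj => hag j hj
    have hne' : co x i ≠ co y i := fun e => hne (by rw [e])
    have hoc : Oc Γ N x i := E10_oc L.ms.b hag' hne'
    obtain ⟨r, hrdef⟩ : ∃ r : Rg Γ co N, r = ⟨rg Γ co x i, rg_isReg hoc⟩ := ⟨_, rfl⟩
    have hri : r.1.1 = i := by rw [hrdef]; rfl
    have hx : x ∈ r.1.2 := by
      rw [hrdef]
      exact ag_refl x
    have hy : y ∈ r.1.2 := by
      rw [hrdef]
      refine ag_mono ?_ hag'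
      intro j hj
      rw [Set.mem_singleton_iff] at hj
      exact Or.inl hj
    subst hri
    have hpq : p.1.1 = q.1.1 := by
      apply F.injective
      rw [← hΦ2, ← hΦ2]
      exact h1
    obtain ⟨e1, e2⟩ := reg_two L.ms.b (mkq r (co x r.1.1) ⟨x, hx, rfl⟩)
      (mkq r (co y r.1.1) ⟨y, hy, rfl⟩) p q rfl hpq h3 h4 hne
    have c1 := hΨ.cq x (mkq r (co x r.1.1) ⟨x, hx, rfl⟩) hx rfl
    have c2 := hΨ.cq y (mkq r (co y r.1.1) ⟨y, hy, rfl⟩) hy rfl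
    rw [← e1] at c1
    rw [← e2] at c2
    have hq1 : p.1.1 = r := by rw [e1]; rfl
    have hq2 : q.1.1 = r := by rw [e2]; rfl
    rw [hq1] at c1
    rw [hq2] at c2
    refine ⟨(F r).1.1, ?_, fun j hj => (hΨ.ag r x y hx hy).1 hag' j hj⟩
    show S'.Adj (co' (Ψ x) (F r).1.1).1 (co' (Ψ y) (F r).1.1).1
    rw [c1, c2]
    exact h2
  · rintro ⟨k, hadj, hag⟩
    have hadj' : S'.Adj (co' (Ψ x) k).1 (co' (Ψ y) k).1 := hadj
    have hag' : Ag co' {k} (Ψ x) (Ψ y) := fun j hj => hag j hj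
    have hne' : co' (Ψ x) k ≠ co' (Ψ y) k := fun e => hadj'.ne (by rw [e])
    have hoc : Oc Γ' N' (Ψ x) k := E10_oc L'.ms.b hag' hne'
    obtain ⟨r', hrdef⟩ : ∃ r : Rg Γ' co' N', r = ⟨rg Γ' co' (Ψ x) k, rg_isReg hoc⟩ := ⟨_, rfl⟩
    have hri : r'.1.1 = k := by rw [hrdef]; rfl
    have hx' : Ψ x ∈ r'.1.2 := by
      rw [hrdef]
      exact ag_refl (Ψ x)
    have hy' : Ψ y ∈ r'.1.2 := by
      rw [hrdef]
      refine ag_mono ?_ hag'
      intro j hj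
      rw [Set.mem_singleton_iff] at hj
      exact Or.inl hj
    obtain ⟨r, hr2⟩ : ∃ r, F r = r' := ⟨F.symm r', F.apply_symm_apply r'⟩
    subst hr2
    subst hri
    have hx : x ∈ r.1.2 := (hΨ.mem x r).2 hx'
    have hy : y ∈ r.1.2 := (hΨ.mem y r).2 hy'
    have c1 := hΨ.cq x (mkq r (co x r.1.1) ⟨x, hx, rfl⟩) hx rfl
    have c2 := hΨ.cq y (mkq r (co y r.1.1) ⟨y, hy, rfl⟩) hy rfl
    change (co' (Ψ x) (F r).1.1).1 = _ at c1
    change (co' (Ψ y) (F r).1.1).1 = _ at c2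
    rw [c1, c2] at hadj'
    refine ⟨r.1.1, ⟨?_, mkq r (co x r.1.1) ⟨x, hx, rfl⟩, mkq r (co y r.1.1) ⟨y, hy, rfl⟩,
      ⟨?_, hadj'⟩, rfl, rfl⟩, fun j hj => (hΨ.ag r x y hx hy).2 hag' j hj⟩
    · intro e
      have e2 : mkq r (co x r.1.1) ⟨x, hx, rfl⟩ = mkq r (co y r.1.1) ⟨y, hy, rfl⟩ :=
        Subtype.ext (Prod.ext rfl e)
      rw [e2] at hadj'
      exact hadj'.ne rfl
    · rw [hΦ2, hΦ2]
      rfl

end

end VTB
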