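import Pool.Agent.Lib.MP_32d917_al.RED
import Pool.Agent.Lib.MP_32d917_al_vt.A01

/-!
# Blocks of a tree replaced by other trees: the result is a tree, gates

`S` is a tree, `B` a set of convex nonempty sets (blocks) which pairwise have at most one common
point and contain all edges of `S`; `S'` is a graph whose edges are all in blocks and which induces
a tree on every block. Everything is pure (no group, no complex). Tools: ST1 (`st_next`, `st_uniq`,
`st_seg`, `st_median`, `st_bt`, `st1_eq`, `st1_one`, `st_pt`), TL1 (`st_cat`), TL2 (`bt_symm`,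
`bt_trans`), RED (`red_acyclic`, `red_cut`), A01 (`tree_med_uniq`).

* `gt_ex`: the gate of `x` in the convex nonempty set `C` exists: a point `p` of `C` with minimal
  distance to `x`; for `q ∈ C` the median `m` of `x p q` is in `C` (convexity, `Bt S p m q`) and
  `dist x m ≤ dist x p`, `Bt S x m p`, so `m = p`.
* `gt_uniq`: `Bt S x p q`, `Bt S x q p` give `p = q`. `gt_self`: the gate of `x ∈ C` is `x`.
* `gt_step`: if `a b` is an edge of `S` with different gates in `C` then `a, b ∈ C` (and the gates
  are `a`, `b`): let `p ≠ q` be the gates of `a`, `b`: `Bt S a p q`, `Bt S b q p`, so by `st_cat`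
  (`a p q`, and `Bt S p q b`) `dist a b = dist a p + dist p q + dist q b`, which is 1: so
  `dist a p = 0 = dist q b`.
* `gt_block`: if `C ≠ D` are blocks, all points `a b ∈ D` have the same gate in `C`: induction on
  `dist a b` along the segment (`st_next`: `n` between `a` and `b` is in `D` by convexity); if the
  gate changed along the edge `a n` then `a, n ∈ C ∩ D` (`gt_step`), `a ≠ n`, so `C = D` (`one`).
* `rp_adj`: an edge `a b` of `S'` inside the block `C`: gates; the gate map to `C` (choose) is constant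
  along every edge of `S'` which is not inside `C`: the edge is in a block `D ≠ C`, `gt_block`.
* `rp_tree`: `S'` is a tree. Acyclic by `red_acyclic`: for an edge `a b` of `S'` in the block `C` let
  `TC` be the tree on `C` and `P v := TC.dist (gate v) a < TC.dist (gate v) b`; `P a`, `¬ P b`
  (distances 0, 1). If `a' b'` is an edge of `S'` with `P a'`, `¬ P b'` then the gates differ so the
  edge is inside `C`, the gates are `a'`, `b'`, `a' b'` is an edge of `TC` and `red_cut` gives
  `a' = a`, `b' = b` (with `st_adj` for `¬ <`). Connected: an edge of `S` is in a block `C`, `TC` is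
  connected, map the walk to `S'` (`SimpleGraph.Walk.map`, `SimpleGraph.Reachable.map` for the
  homomorphism `Subtype.val`); then use connectedness of `S` (induction on a walk).
* `rp_cvx`: `C` is convex for `S'`. Let `x y ∈ C`, `Bt S' x m y`. Let `p` be the `S`-gate of `m` in `C`
  and suppose `m ≠ p`, i.e. `m ∉ C`. (Key fact, `rp_key`): for every `v` with `S`-gate `p`, every walk
  in `S'` from `v` to a point `q ∈ C` passes through `p`; hence `Bt S' v p q` (`S'` is a tree, or:
  by induction on the length of the walk, `dist`: for every `n`, `S'.dist v q = n` implies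
  `Bt S' v p q`: if `v = p` clear; otherwise `v ∉ C`; take the next vertex `w` on the way to `q`
  (`st_next`), the edge `v w` is not inside `C`, so `w` has the same gate `p`, by induction
  `Bt S' w p q`, and `Bt S' v w q` gives `Bt S' v p q`.) So `rp_gate`: the `S`-gate of `v` in `C` is
  the `S'`-gate. Convexity: `Bt S' m p x`, `Bt S' m p y` and `Bt S' x m y` give `m = p` (dist x y =
  dist x m + dist m y = dist x p + 2 dist p m + dist p y ≥ dist x y + 2 dist p m).
* `rp_blk`: `Blk S' B`.
-/

set_option autoImplicit false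

namespace VTB

open LatIso LatN LatF

/-- `B` is a set of convex subsets of the tree `S` which pairwise have at most one common point and
contain all edges -/
structure Blk {W : Type} (S : SimpleGraph W) (B : Set (Set W)) : Prop where
  tree : S.IsTree
  cvx : ∀ C ∈ B, Cvx S C
  ne : ∀ C ∈ B, C.Nonempty
  one : ∀ C ∈ B, ∀ D ∈ B, ∀ a b, a ≠ b → a ∈ C → b ∈ C → a ∈ D → b ∈ D → C = D
  edge : ∀ a b, S.Adj a b → ∃ C ∈ B, a ∈ C ∧ b ∈ C

/-- the trees on the blocks are replaced by the trees of `S'` -/
structure Rpl {W : Type} (S S' : SimpleGraph W) (B : Set (Set W)) : Prop where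
  blk : Blk S B
  tree : ∀ C ∈ B, (S'.comap (Subtype.val : {p : W // p ∈ C} → W)).IsTree
  edge : ∀ a b, S'.Adj a b → ∃ C ∈ B, a ∈ C ∧ b ∈ C

/-- `p` is the gate of `x` in `C` -/
def Gt {W : Type} (S : SimpleGraph W) (C : Set W) (x p : W) : Prop :=
  p ∈ C ∧ ∀ q ∈ C, Bt S x p q

section

variable {W : Type} {S S' : SimpleGraph W} {B : Set (Set W)}

theorem gt_ex (hS : S.IsTree) {C : Set W} (hC : Cvx S C) (h0 : C.Nonempty) (x : W) :
    ∃ p, Gt S C x p := by
  obtain ⟨p, hp, hmin⟩ := (measure fun q => S.dist x q).wf.has_min C h0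
  refine ⟨p, hp, fun q hq => ?_⟩
  obtain ⟨m, h1, h2, h3⟩ := st_median hS x p q
  have hm : m ∈ C := hC p hp q hq m h2
  have h4 : ¬ S.dist x m < S.dist x p := hmin m hm
  have h5 : m = p := by
    apply st1_eq hS
    unfold Bt at h1
    omega
  rw [h5] at h3
  exact h3

theorem gt_uniq (hS : S.IsTree) {C : Set W} {x p q : W} (h : Gt S C x p) (h' : Gt S C x q) :
    p = q := by
  have h1 := h.2 q h'.1
  have h2 := h'.2 p h.1
  apply st1_eq hS
  unfold Bt at h1 h2
  have c := S.dist_comm (u := p) (v := q)
  omega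

theorem gt_self {C : Set W} {x : W} (h : x ∈ C) : Gt S C x x := by
  refine ⟨h, fun q _ => ?_⟩
  unfold Bt
  rw [SimpleGraph.dist_self, zero_add]

theorem gt_step (hS : S.IsTree) {C : Set W} {a b p q : W} (h : S.Adj a b) (hp : Gt S C a p)
    (hq : Gt S C b q) (hpq : p ≠ q) : p = a ∧ q = b := by
  have h1 := st_cat hS (hp.2 q hq.1) (bt_symm (hq.2 p hp.1)) hpq
  have h2 := st1_one h
  have h3 : 0 < S.dist p q := hS.connected.pos_dist_of_ne hpq
  have h4 : S.dist a p = 0 := by omega
  have h5 : S.dist q b = 0 := by omega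
  exact ⟨(st1_eq hS h4).symm, st1_eq hS h5⟩

theorem gt_block (hB : Blk S B) {C D : Set W} (hC : C ∈ B) (hD : D ∈ B) (hCD : C ≠ D) {a b p : W}
    (ha : a ∈ D) (hb : b ∈ D) (hp : Gt S C a p) : Gt S C b p := by
  obtain ⟨n, hn⟩ : ∃ n, S.dist a b = n := ⟨_, rfl⟩
  induction n using Nat.strong_induction_on generalizing a with
  | _ n ih =>
    by_cases hab : a = b
    · rw [← hab]
      exact hp
    · obtain ⟨w, hw, hb'⟩ := st_next hB.tree hab
      have hwD : w ∈ D := hB.cvx D hD a ha b hb w hb'
      obtain ⟨q, hq⟩ := gt_ex hB.tree (hB.cvx C hC) (hB.ne C hC) w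
      by_cases hpq : p = q
      · rw [← hpq] at hq
        refine ih (S.dist w b) ?_ hwD hq rfl
        have h1 := st1_one hw
        unfold Bt at hb'
        omega
      · obtain ⟨h1, h2⟩ := gt_step hB.tree hw hp hq hpq
        exfalso
        refine hCD (hB.one C hC D hD a w hw.ne ?_ ?_ ha hwD)
        · rw [← h1]
          exact hp.1
        · rw [← h2]
          exact hq.1

/-- the gate does not change along an edge of `S'` unless the edge is inside `C` -/
theorem rp_adj (h : Rpl S S' B) {C : Set W} (hC : C ∈ B) {a b p : W} (hab : S'.Adj a b)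
    (hn : ¬ (a ∈ C ∧ b ∈ C)) (hp : Gt S C a p) : Gt S C b p := by
  obtain ⟨D, hD, ha, hb⟩ := h.edge a b hab
  have hCD : C ≠ D := by
    rintro rfl
    exact hn ⟨ha, hb⟩
  exact gt_block h.blk hC hD hCD ha hb hp

theorem rp_tree (h : Rpl S S' B) : S'.IsTree := by
  have hS := h.blk.tree
  have hcon : S'.Connected := by
    haveI : Nonempty W := hS.connected.nonempty
    refine ⟨fun x y => ?_⟩
    obtain ⟨w⟩ := hS.connected.preconnected x y
    induction w with
    | nil => exact SimpleGraph.Reachable.refl _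
    | @cons u v z huv _ ih =>
      refine SimpleGraph.Reachable.trans ?_ ih
      obtain ⟨C, hC, hu, hv⟩ := h.blk.edge u v huv
      let f : (S'.comap (Subtype.val : {p : W // p ∈ C} → W)) →g S' := ⟨Subtype.val, fun hh => hh⟩
      have hr := (h.tree C hC).connected.preconnected ⟨u, hu⟩ ⟨v, hv⟩
      exact hr.map f
  refine ⟨hcon, red_acyclic S' ?_⟩
  intro a b hab
  obtain ⟨C, hC, ha, hb⟩ := h.edge a b hab
  have hTC := h.tree C hC
  obtain ⟨g, hg⟩ : ∃ g : W → {p : W // p ∈ C}, ∀ v, Gt S C v (g v).1 := by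
    choose g hg using gt_ex hS (h.blk.cvx C hC) (h.blk.ne C hC)
    exact ⟨fun v => ⟨g v, (hg v).1⟩, hg⟩
  have hgs : ∀ v (hv : v ∈ C), g v = ⟨v, hv⟩ :=
    fun v hv => Subtype.ext (gt_uniq hS (hg v) (gt_self hv))
  refine ⟨fun v => (S'.comap (Subtype.val : {p : W // p ∈ C} → W)).dist (g v) ⟨a, ha⟩ <
    (S'.comap (Subtype.val : {p : W // p ∈ C} → W)).dist (g v) ⟨b, hb⟩, ?_, ?_, ?_⟩
  · beta_reduce
    rw [hgs a ha, SimpleGraph.dist_self]
    refine hTC.connected.pos_dist_of_ne ?_
    intro he
    exact hab.ne (congrArg Subtype.val he)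
  · beta_reduce
    rw [hgs b hb, SimpleGraph.dist_self]
    exact Nat.not_lt_zero _
  · intro a' b' hab' h1 h2
    beta_reduce at h1 h2
    have hne : g a' ≠ g b' := by
      intro he
      rw [he] at h1
      exact h2 h1
    have hin : a' ∈ C ∧ b' ∈ C := by
      by_contra hn
      exact hne (Subtype.ext (gt_uniq hS (rp_adj h hC hab' hn (hg a')) (hg b')))
    rw [hgs a' hin.1] at h1
    rw [hgs b' hin.2] at h2
    have hadj : (S'.comap (Subtype.val : {p : W // p ∈ C} → W)).Adj ⟨a, ha⟩ ⟨b, hb⟩ := hab
    have hadj' : (S'.comap (Subtype.val : {p : W // p ∈ C} → W)).Adj ⟨a', hin.1⟩ ⟨b', hin.2⟩ :=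
      hab'
    have h3 := st_adj hTC hadj ⟨b', hin.2⟩
    obtain ⟨e1, e2⟩ := red_cut hTC hadj hadj' h1 (by omega)
    exact ⟨congrArg Subtype.val e1, congrArg Subtype.val e2⟩

/-- the `S`-gate is the `S'`-gate -/
theorem rp_gate (h : Rpl S S' B) {C : Set W} (hC : C ∈ B) {x p : W} (hp : Gt S C x p) :
    Gt S' C x p := by
  have hS' := rp_tree h
  refine ⟨hp.1, fun q hq => ?_⟩
  obtain ⟨n, hn⟩ : ∃ n, S'.dist x q = n := ⟨_, rfl⟩
  induction n using Nat.strong_induction_on generalizing x with
  | _ n ih =>
    by_cases hxp : x = p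
    · rw [hxp]
      unfold Bt
      rw [SimpleGraph.dist_self, zero_add]
    · have hxC : x ∉ C := fun hx => hxp (gt_uniq h.blk.tree (gt_self hx) hp)
      have hxq : x ≠ q := by
        rintro rfl
        exact hxC hq
      obtain ⟨w, hw, hb⟩ := st_next hS' hxq
      have hw' := rp_adj h hC hw (fun hh => hxC hh.1) hp
      have e1 := st1_one hw
      have h1 := ih (S'.dist w q) (by unfold Bt at hb; omega) hw' rfl
      have t1 := st1_tri hS' x w p
      have t2 := st1_tri hS' x p q
      unfold Bt at *
      omega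

theorem rp_cvx (h : Rpl S S' B) {C : Set W} (hC : C ∈ B) : Cvx S' C := by
  intro x hx y hy m hm
  obtain ⟨p, hp⟩ := gt_ex h.blk.tree (h.blk.cvx C hC) (h.blk.ne C hC) m
  have hp' := rp_gate h hC hp
  have h1 := hp'.2 x hx
  have h2 := hp'.2 y hy
  have hS' := rp_tree h
  have t := st1_tri hS' x p y
  have c1 := S'.dist_comm (u := x) (v := m)
  have c2 := S'.dist_comm (u := x) (v := p)
  have h3 : m = p := by
    apply st1_eq hS'
    unfold Bt at *
    omega
  rw [h3]
  exact hp.1

theorem rp_blk (h : Rpl S S' B) : Blk S' B := by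
  exact ⟨rp_tree h, fun C hC => rp_cvx h hC, h.blk.ne, h.blk.one, h.edge⟩

end

end VTB
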