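import Pool.Agent.Lib.MP_32d917_al_vt.A05
import Pool.Agent.Lib.MP_32d917_al_vt.T05

/-!
# The trees of the regions of a label are blocks of the tree of the label

* `vr_two`: two regions `(i, A)`, `(i, B)` with two common vertices `a ≠ b` are equal. The sets of
  vertices are convex (`vr_cv`), so by `st_next` (tree `S i`) there is an edge `a n` of `S i` with
  `Bt a n b`, and `n` is a common vertex as well. Points `x ∈ A` over `a`, `y ∈ A` over `n` and `cv_edge`
  (with `reg_cv`; `Bt a a n`, `Bt n n a`) give `z w ∈ A` with `VSt S co i z w`, `co z i = a`, `co w i = n`;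
  in the same way `z' w' ∈ B`. `strip_ag`: `Ag (lk i) z z'`, so `Ag (st i) z z'`, `z' ∈ A`
  (`reg_mem`: `A = {y | Ag (st i) z y}`). `z' ∈ A` and `z' ∈ B`: both are the region `rg z' i` (`reg_mem`).
* `pan_oc`: if `x`, `y` differ only in the coordinate `i` (and differ there) then `i` occurs at `x`: the
  first step of the chain `ag_geod` (or `geod_step`: `x ≠ y`, a step `x z` of a label `k` with `Bt (S k)
  (co x k) (co z k) (co y k)`; if `k ≠ i` then `co x k = co y k`, so `co z k = co x k`, contradiction to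
  the step) has label `i`; `M.occ`.
* `rbk_blk`: the sets of vertices of the regions of label `i` are blocks of `S i`: `M.tree`, `vr_cv`,
  nonempty (`IsReg`: a region contains its base point, `ag_refl`), `vr_two`, and every edge is in a
  region (`edge_step`: points `x y` over the edge, the region `rg x i`: `rg_isReg` with `M.occ`; `y` is in
  it since `y` differs from `x` only in the coordinate `i`).
* `swp_rpl`: clear from the definitions.
-/

set_option autoImplicit false

namespace VTB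

open LatIso LatN LatF RaagIso

section

variable {ι Pt : Type} [Fintype ι] {V : ι → Type} {Γ : SimpleGraph ι}
  {S S' : ∀ i, SimpleGraph (V i)} {co : Pt → ∀ i, V i} {N : Pt → ι → Prop}

private theorem E11_self {W : Type} {T : SimpleGraph W} (a b : W) : Bt T a a b := by
  unfold Bt
  rw [SimpleGraph.dist_self, zero_add]

private theorem E11_edge (M : MS1 Γ S co N) {i : ι} {A : Set Pt} (hA : IsReg Γ co N (i, A))
    {a b : V i} (hab : (S i).Adj a b) (h1 : VR co (i, A) a) (h2 : VR co (i, A) b) :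
    ∃ z ∈ A, ∃ w ∈ A, VSt S co i z w ∧ co z i = a ∧ co w i = b := by
  obtain ⟨x, hx, hx'⟩ := h1
  obtain ⟨y, hy, hy'⟩ := h2
  exact cv_edge M (reg_cv M hA) hab hx hy (by rw [hx']; exact E11_self _ _)
    (by rw [hy']; exact E11_self _ _)

/-- two regions of the same label with two common vertices are equal -/
theorem vr_two (M : MS1 Γ S co N) {i : ι} {A B : Set Pt} (hA : IsReg Γ co N (i, A))
    (hB : IsReg Γ co N (i, B)) {a b : V i} (hab : a ≠ b) (h1 : VR co (i, A) a)
    (h2 : VR co (i, A) b) (h3 : VR co (i, B) a) (h4 : VR co (i, B) b) : A = B := by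
  obtain ⟨n, hn1, hn2⟩ := st_next (M.tree i) hab
  have hnA : VR co (i, A) n := vr_cv M hA a h1 b h2 n hn2
  have hnB : VR co (i, B) n := vr_cv M hB a h3 b h4 n hn2
  obtain ⟨z, hz, w, hw, hzw, hz1, hw1⟩ := E11_edge M hA hn1 h1 hnA
  obtain ⟨z', hz', w', hw', hzw', hz1', hw1'⟩ := E11_edge M hB hn1 h3 hnB
  have h5 : Ag co (lk Γ i) z z' := strip_ag M hzw hzw' (by rw [hz1, hz1']) (by rw [hw1, hw1'])
  have h6 : Ag co (st Γ i) z z' := ag_mono (fun _ hh => Or.inr hh) h5
  have h7 : (i, A) = rg Γ co z i := reg_mem hA hz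
  have h8 : A = {y | Ag co (st Γ i) z y} := congrArg Prod.snd h7
  have h9 : z' ∈ A := by
    rw [h8]
    exact h6
  have h10 : (i, A) = rg Γ co z' i := reg_mem hA h9
  have h11 : (i, B) = rg Γ co z' i := reg_mem hB hz'
  exact congrArg Prod.snd (h10.trans h11.symm)

theorem pan_oc (M : MS1 Γ S co N) {x y : Pt} {i : ι} (h : Ag co {i} x y)
    (hne : co x i ≠ co y i) : Oc Γ N x i := by
  have hxy : x ≠ y := by
    rintro rfl
    exact hne rfl
  obtain ⟨k, z, hz, hb⟩ := geod_step M hxy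
  have hk : k = i := by
    by_contra hk
    have h1 : co y k = co x k := h k hk
    rw [h1] at hb
    apply hz.1.ne
    apply st1_eq (M.tree k)
    unfold Bt at hb
    rw [SimpleGraph.dist_self] at hb
    omega
  subst hk
  exact (M.occ x k).1 ⟨z, hz⟩

/-- the sets of vertices of the trees of the regions of label `i` -/
def RBk (Γ : SimpleGraph ι) (co : Pt → ∀ i, V i) (N : Pt → ι → Prop) (i : ι) : Set (Set (V i)) :=
  {C | ∃ A, IsReg Γ co N (i, A) ∧ C = {p | VR co (i, A) p}}

theorem rbk_blk (M : MS1 Γ S co N) (i : ι) : Blk (S i) (RBk Γ co N i) := by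
  refine ⟨M.tree i, ?_, ?_, ?_, ?_⟩
  · rintro C ⟨A, hA, rfl⟩
    exact vr_cv M hA
  · rintro C ⟨A, hA, rfl⟩
    obtain ⟨x, hx, hx'⟩ := hA
    have h1 : A = {y | Ag co (st Γ i) x y} := hx'
    refine ⟨co x i, x, ?_, rfl⟩
    rw [h1]
    exact ag_refl x
  · rintro C ⟨A, hA, rfl⟩ D ⟨B, hB, rfl⟩ a b hab h1 h2 h3 h4
    rw [vr_two M hA hB hab h1 h2 h3 h4]
  · intro a b hab
    obtain ⟨x, y, hxy, hx, hy⟩ := edge_step M hab
    have h1 : IsReg Γ co N (rg Γ co x i) := rg_isReg ((M.occ x i).1 ⟨y, hxy⟩)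
    refine ⟨{p | VR co (i, {y | Ag co (st Γ i) x y}) p}, ⟨_, h1, rfl⟩, ?_, ?_⟩
    · exact ⟨x, ag_refl x, hx⟩
    · refine ⟨y, fun j hj => hxy.2 j ?_, hy⟩
      rintro rfl
      exact hj (Or.inl rfl)

/-- the trees of the regions are replaced by the trees of `S'` -/
structure Swp (Γ : SimpleGraph ι) (S S' : ∀ i, SimpleGraph (V i)) (co : Pt → ∀ i, V i)
    (N : Pt → ι → Prop) : Prop where
  m : MS1 Γ S co N
  tree : ∀ i A, IsReg Γ co N (i, A) →
    ((S' i).comap (Subtype.val : {p : V i // VR co (i, A) p} → V i)).IsTree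
  edge : ∀ i a b, (S' i).Adj a b → ∃ A, IsReg Γ co N (i, A) ∧ VR co (i, A) a ∧ VR co (i, A) b

theorem swp_rpl (h : Swp Γ S S' co N) (i : ι) : Rpl (S i) (S' i) (RBk Γ co N i) := by
  refine ⟨rbk_blk h.m i, ?_, ?_⟩
  · rintro C ⟨A, hA, rfl⟩
    exact h.tree i A hA
  · intro a b hab
    obtain ⟨A, hA, h1, h2⟩ := h.edge i a b hab
    exact ⟨_, ⟨A, hA, rfl⟩, h1, h2⟩

end

end VTB
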