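import Pool.Agent.Lib.MP_32d917_al_vt.E11

/-!
# New trees in the regions: connectedness, squares, occurring labels

Notation of E11. A step `VSt S' co i x y` means: `x`, `y` differ only in the coordinate `i`
(`Ag co {i} x y`), and `co x i`, `co y i` are adjacent in `S' i` (in particular different).

* `swp_conn`: by `M.conn` it is enough to connect the ends of a step `VSt S co i x y`. Let `r = rg x i`
  (region: `M.occ`, `rg_isReg`; `x`, `y` are in it). The tree `S' i` on the vertices of `r` is connected: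
  a walk from `co x i` to `co y i`. By induction on the walk: for vertices `p q` of `r` joined by a walk and
  a point `z` with `Ag {i} x z`, `co z i = p` there is `z'` with `Ag {i} x z'`, `co z' i = q` and a chain of
  `S'`-steps from `z` to `z'`. One edge `p p'`: `reg_pt` (for `x` and a point of `r.2` over `p'`) gives `z'`
  with `Ag {i} x z'`, `co z' i = p'`; `VSt S' co i z z'`. At the end the point has all coordinates of `y`
  (`M.inj`).
* `swp_sq`, (←): `Γ.Adj i j`, so `Ag (lk i) x z` (from `Ag {j} x z`); `prod` with `v := i`: `w` with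
  `Ag {i} z w`, `co w i = co y i`, `Ag (lk i) y w`. Then `VSt S' co i z w` (`co z i = co x i`) and
  `VSt S' co j y w`: `co y j = co x j`, `co w j = co z j`; for `k ≠ i, j`: `co w k = co z k = co x k = co y k`.
  (→): `co z i = co x i`, `co w i = co y i`, `Ag {i} x y`, `Ag {i} z w`. The first step `x x₁` of a geodesic
  from `x` to `y` (`geod_step`; its label is `i` since the other coordinates are equal): `VSt S co i x x₁`,
  `Bt (S i) (co x i) (co x₁ i) (co y i)`; in the same way `z z₁`. By `st_uniq` `co x₁ i = co z₁ i`, and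
  `strip_ag` gives `Ag (lk i) x z`. Since `co z j ≠ co x j`, `j ∈ lk i`.
* `swp_occ`, (→): `pan_oc`. (←): `M.occ` gives a step `VSt S co i x y`, so the region `rg x i` has two
  different vertices `co x i`, `co y i`; the tree `S' i` on its vertices is connected, so `co x i` has a
  neighbour `q` there (first edge of a walk from `co x i` to `co y i`); `reg_pt` gives the point.
-/

set_option autoImplicit false

namespace VTB

open LatIso LatN LatF RaagIso

section

variable {ι Pt : Type} [Fintype ι] {V : ι → Type} {Γ : SimpleGraph ι}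
  {S S' : ∀ i, SimpleGraph (V i)} {co : Pt → ∀ i, V i} {N : Pt → ι → Prop}

private theorem E12_first (M : MS1 Γ S co N) {x y : Pt} {i : ι} (h : Ag co {i} x y)
    (hne : co x i ≠ co y i) :
    ∃ z, VSt S co i x z ∧ Bt (S i) (co x i) (co z i) (co y i) := by
  have hxy : x ≠ y := by
    rintro rfl
    exact hne rfl
  obtain ⟨k, z, hz, hb⟩ := geod_step M hxy
  have hk : k = i := by
    by_contra hk
    have h1 : co y k = co x k := h k hk
    rw [h1] at hb
    apply hz.1.ne
    apply st1_eq (M.tree k)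
    unfold Bt at hb
    rw [SimpleGraph.dist_self] at hb
    omega
  subst hk
  exact ⟨z, hz, hb⟩

private theorem E12_reg (M : MS1 Γ S co N) {x y : Pt} {i : ι} (h : VSt S co i x y) :
    IsReg Γ co N (i, {y | Ag co (st Γ i) x y}) ∧ VR co (i, {y | Ag co (st Γ i) x y}) (co x i) ∧
      VR co (i, {y | Ag co (st Γ i) x y}) (co y i) := by
  refine ⟨rg_isReg ((M.occ x i).1 ⟨y, h⟩), ⟨x, ag_refl x, rfl⟩, ⟨y, fun j hj => h.2 j ?_, rfl⟩⟩
  rintro rfl
  exact hj (Or.inl rfl)

private theorem E12_step (h : Swp Γ S S' co N) {x y : Pt} {i : ι} (hs : VSt S co i x y) :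
    Relation.ReflTransGen (fun a b => ∃ i, VSt S' co i a b) x y := by
  obtain ⟨hr, hx, hy⟩ := E12_reg h.m hs
  have hT := h.tree i _ hr
  have hc := (SimpleGraph.reachable_iff_reflTransGen
    (⟨co x i, hx⟩ : {p : V i // VR co (i, {y | Ag co (st Γ i) x y}) p}) ⟨co y i, hy⟩).1
    (hT.connected.preconnected _ _)
  have key : ∀ v : {p : V i // VR co (i, {y | Ag co (st Γ i) x y}) p},
      Relation.ReflTransGen ((S' i).comap (Subtype.val :
        {p : V i // VR co (i, {y | Ag co (st Γ i) x y}) p} → V i)).Adj ⟨co x i, hx⟩ v →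
      ∃ z, Ag co {i} x z ∧ co z i = v.1 ∧
        Relation.ReflTransGen (fun a b => ∃ i, VSt S' co i a b) x z := by
    intro v hv
    induction hv with
    | refl => exact ⟨x, ag_refl x, rfl, Relation.ReflTransGen.refl⟩
    | @tail v w _ hvw ih =>
      obtain ⟨z, hz1, hz2, hz3⟩ := ih
      obtain ⟨y', hy1, hy2⟩ := w.2
      obtain ⟨z', hz1', hz2'⟩ := reg_pt h.m hy1
      refine ⟨z', hz1', hz2'.trans hy2, hz3.tail ⟨i, ?_, ?_⟩⟩
      · rw [hz2, hz2', hy2]
        exact hvw
      · intro j hj
        rw [hz1 j hj, hz1' j hj]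
  obtain ⟨z, hz1, hz2, hz3⟩ := key _ hc
  have hzy : z = y := by
    apply h.m.inj
    intro j
    by_cases hj : j = i
    · subst hj
      exact hz2
    · rw [hz1 j hj, hs.2 j hj]
  rw [← hzy]
  exact hz3

theorem swp_conn (h : Swp Γ S S' co N) (x y : Pt) :
    Relation.ReflTransGen (fun a b => ∃ i, VSt S' co i a b) x y := by
  have hc := h.m.conn x y
  induction hc with
  | refl => exact Relation.ReflTransGen.refl
  | @tail a b _ hab ih =>
    obtain ⟨i, hi⟩ := hab
    exact ih.trans (E12_step h hi)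

theorem swp_sq (h : Swp Γ S S' co N) {x y z : Pt} {i j : ι} (hij : i ≠ j)
    (h1 : VSt S' co i x y) (h2 : VSt S' co j x z) :
    (∃ w, VSt S' co j y w ∧ VSt S' co i z w) ↔ Γ.Adj i j := by
  have M := h.m
  constructor
  · rintro ⟨w, hw1, hw2⟩
    have e1 : co z i = co x i := h2.2 i hij
    have e2 : co w i = co y i := hw1.2 i hij
    obtain ⟨x₁, hx1, hx2⟩ := E12_first M (x := x) (y := y) (i := i) (fun j hj => h1.2 j hj)
      h1.1.ne
    obtain ⟨z₁, hz1, hz2⟩ := E12_first M (x := z) (y := w) (i := i) (fun j hj => hw2.2 j hj)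
      hw2.1.ne
    rw [e1, e2] at hz2
    have hz3 := hz1.1
    rw [e1] at hz3
    have e3 : co x₁ i = co z₁ i := st_uniq (M.tree i) hx1.1 hz3 hx2 hz2
    have h3 := strip_ag M hx1 hz1 e1.symm e3
    by_contra hcon
    exact h2.1.ne (h3 j hcon).symm
  · intro hadj
    have h3 : Ag co (lk Γ i) x z := by
      intro k hk
      refine h2.2 k ?_
      rintro rfl
      exact hk hadj
    have h4 : Ag co {i} x y := fun j hj => h1.2 j hj
    obtain ⟨w, hw1, hw2, hw3⟩ := prod M h3 h4
    have f1 : ∀ k, k ≠ i → co w k = co z k := fun k hk => hw1 k hk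
    refine ⟨w, ⟨?_, fun k hk => ?_⟩, ⟨?_, fun k hk => f1 k hk⟩⟩
    · rw [h1.2 j hij.symm, f1 j hij.symm]
      exact h2.1
    · by_cases hki : k = i
      · subst hki
        exact hw2
      · rw [f1 k hki, h2.2 k hk, h1.2 k hki]
    · rw [h2.2 i hij, hw2]
      exact h1.1

theorem swp_occ (h : Swp Γ S S' co N) (x : Pt) (i : ι) :
    (∃ y, VSt S' co i x y) ↔ Oc Γ N x i := by
  have M := h.m
  constructor
  · rintro ⟨y, hy⟩
    exact pan_oc M (fun j hj => hy.2 j hj) hy.1.ne
  · intro ho
    obtain ⟨y, hy⟩ := (M.occ x i).2 ho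
    obtain ⟨hr, hx, hy'⟩ := E12_reg M hy
    have hT := h.tree i _ hr
    have hne : (⟨co x i, hx⟩ : {p : V i // VR co (i, {y | Ag co (st Γ i) x y}) p}) ≠
        ⟨co y i, hy'⟩ := fun e => hy.1.ne (congrArg Subtype.val e)
    obtain ⟨n, hn, _⟩ := st_next hT hne
    obtain ⟨y', hy1, hy2⟩ := n.2
    obtain ⟨z', hz1', hz2'⟩ := reg_pt M hy1
    refine ⟨z', ?_, fun j hj => hz1' j hj⟩
    rw [hz2', hy2]
    exact hn

end

end VTB
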