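import Pool.Agent.Lib.MP_32d917_al_vt.E11
import Pool.Agent.Lib.MP_32d917_al_vt.C03

/-!
# Regions with three different projections

The region `r` is exceptional for the points `x y z` if their projections to `r` are pairwise
different (`Exc`). Let `m` be the median of `x y z`.

* `exc_mem`: `m ∈ r.2`. Otherwise let `g` be the gate of `m` in `r.2` (`gate` with `reg_cv`; nonempty:
  the base point), `gate_last`: a label `j ∉ st r.1` and a step `VSt S co j z' g` with
  `Bt (S j) (co m j) (co z' j) (co g j)` and `co y j = co g j` for all `y ∈ r.2`. Put `c = co z' j`,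
  `d = co g j`. Every vertex `u` of `S j` satisfies `Bt u c d` or `Bt u d c` (`st_adj`), not both. Since
  `Bt (co m j) c d`, at most one of `x y z` satisfies `Bt _ d c` at the coordinate `j`: the set of the points
  with `Bt (co _ j) d c` is convex (`cv_side`) and would contain `m`. So for two of the points, say
  `x`, `y` (three similar cases; prove a lemma for two points `x`, `y` with different projections,
  `Bt (co x j) c d`, `Bt (co y j) c d`, which gives `False`): `sep_edge` gives an edge `a b` of `S r.1`,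
  `VR co r a`, `VR co r b`, `Bt (co x r.1) a b`, `Bt (co y r.1) b a`. Take `u, v ∈ r.2` over `a`, `b`:
  `Bt (co u r.1) a b`, `Bt (co u j) d c` (`co u j = d`), `Bt (co v r.1) b a`, `Bt (co v j) d c`. `quad`
  (`r.1 ≠ j`) gives `Γ.Adj r.1 j`, so `j ∈ st r.1`: contradiction.
* `exc_adj`: two exceptional regions `r`, `s` with different labels satisfy `Γ.Adj r.1 s.1`. Otherwise
  `¬ RSt Γ r s`. By `two_of_three` (C03) for each of the points `x y z` either all points of `s.2` have
  the projection of the point to `r` (`PrR S co r s p`), or the same with `r`, `s` exchanged. Two of the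
  three points have the same alternative; if it is the first one for `x`, `y`: a point of `s.2` (nonempty)
  has the projections `p` and `q` to `r`, so `p = q` (`prj_uniq`), contradiction.
  (`two_of_three` is stated for `Rg`: use `⟨r, hr⟩`, `⟨s, hs⟩`; see the definition of `PrR` in C03 or the
  files it imports.)
-/

set_option autoImplicit false

namespace VTB

open LatIso LatN LatF RaagIso

section

variable {ι Pt : Type} [Fintype ι] {V : ι → Type} {Γ : SimpleGraph ι}
  {S S' : ∀ i, SimpleGraph (V i)} {co : Pt → ∀ i, V i} {N : Pt → ι → Prop}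

/-- the projections of the three points to the region `r` are pairwise different -/
def Exc (S : ∀ i, SimpleGraph (V i)) (co : Pt → ∀ i, V i) (r : ι × Set Pt) (x y z : Pt) : Prop :=
  ∃ p q s, Prj S co r x p ∧ Prj S co r y q ∧ Prj S co r z s ∧ p ≠ q ∧ q ≠ s ∧ p ≠ s

private theorem E13_self {W : Type} {T : SimpleGraph W} (a b : W) : Bt T a a b := by
  unfold Bt
  rw [SimpleGraph.dist_self, zero_add]

private theorem E13_ne {r : ι × Set Pt} (hr : IsReg Γ co N r) : r.2.Nonempty := by
  obtain ⟨x0, _, h0⟩ := hr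
  exact ⟨x0, by rw [h0]; exact ag_refl x0⟩

/-- two points on the side of `c` of an edge `c d` with all of the region on the side of `d` -/
private theorem E13_pair (M : MS1 Γ S co N) {r : ι × Set Pt} (hr : IsReg Γ co N r) {j : ι}
    (hj : j ∉ st Γ r.1) {c d : V j} (hcd : (S j).Adj c d) (hd : ∀ y ∈ r.2, co y j = d) {x y : Pt}
    {p q : V r.1} (hp : Prj S co r x p) (hq : Prj S co r y q) (hpq : p ≠ q)
    (h1 : Bt (S j) (co x j) c d) (h2 : Bt (S j) (co y j) c d) : False := by
  obtain ⟨a, b, hab, ⟨u, hu, hua⟩, ⟨v, hv, hvb⟩, h3, h4, _, _⟩ := sep_edge M hr hp hq hpq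
  have hij : r.1 ≠ j := fun e => hj (Or.inl e.symm)
  have h5 := (quad M hij hab hcd ⟨x, h3, h1⟩
    ⟨u, by rw [hua]; exact E13_self _ _, by rw [hd u hu]; exact E13_self _ _⟩ ⟨y, h4, h2⟩
    ⟨v, by rw [hvb]; exact E13_self _ _, by rw [hd v hv]; exact E13_self _ _⟩).1
  exact hj (Or.inr h5)

private theorem E13_prr (M : MS1 Γ S co N) {r s : ι × Set Pt} (hs : IsReg Γ co N s) {p q : V r.1}
    (hp : PrR S co r s p) (hq : PrR S co r s q) : p = q := by
  obtain ⟨u, hu⟩ := E13_ne hs
  exact prj_uniq M (hp u hu) (hq u hu)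

theorem exc_mem (M : MS1 Γ S co N) {r : ι × Set Pt} (hr : IsReg Γ co N r) {x y z m : Pt}
    (hm : Med S co x y z m) (h : Exc S co r x y z) : m ∈ r.2 := by
  by_contra hmr
  obtain ⟨g, hg, hg'⟩ := gate M (reg_cv M hr) (E13_ne hr) m
  obtain ⟨j, z', hj, hz', hb, hall⟩ := gate_last M hr hmr hg hg'
  obtain ⟨p, q, s, hp, hq, hs, e1, e2, e3⟩ := h
  have tot : ∀ w : Pt, Bt (S j) (co w j) (co z' j) (co g j) ∨
      Bt (S j) (co w j) (co g j) (co z' j) := by
    intro w
    have h1 := st1_one hz'.1
    have c1 : (S j).dist (co g j) (co z' j) = (S j).dist (co z' j) (co g j) :=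
      SimpleGraph.dist_comm
    unfold Bt
    rcases st_adj (M.tree j) hz'.1 (co w j) with h2 | h2
    · left
      omega
    · right
      omega
  have mid : ∀ x y : Pt, (∀ i, Bt (S i) (co x i) (co m i) (co y i)) →
      Bt (S j) (co x j) (co g j) (co z' j) → Bt (S j) (co y j) (co g j) (co z' j) → False := by
    intro x y h1 h2 h3
    have h4 : Bt (S j) (co m j) (co g j) (co z' j) :=
      cv_side M hz'.1.symm x h2 y h3 m h1
    have h5 := st1_one hz'.1
    have c1 : (S j).dist (co g j) (co z' j) = (S j).dist (co z' j) (co g j) :=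
      SimpleGraph.dist_comm
    unfold Bt at h4 hb
    omega
  rcases tot x with hx | hx
  · rcases tot y with hy | hy
    · exact E13_pair M hr hj hz'.1 hall hp hq e1 hx hy
    · rcases tot z with hz | hz
      · exact E13_pair M hr hj hz'.1 hall hp hs e3 hx hz
      · exact mid y z (fun i => (hm i).2.1) hy hz
  · rcases tot y with hy | hy
    · rcases tot z with hz | hz
      · exact E13_pair M hr hj hz'.1 hall hq hs e2 hy hz
      · exact mid x z (fun i => (hm i).2.2) hx hz
    · exact mid x y (fun i => (hm i).1) hx hy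

theorem exc_adj (M : MS1 Γ S co N) {r s : ι × Set Pt} (hr : IsReg Γ co N r)
    (hs : IsReg Γ co N s) (hrs : r.1 ≠ s.1) {x y z : Pt} (h : Exc S co r x y z)
    (h' : Exc S co s x y z) : Γ.Adj r.1 s.1 := by
  by_contra hadj
  have hn : ¬ RSt Γ r s := by
    rintro (h1 | h1)
    · exact hrs (by rw [h1])
    · exact hadj h1.1
  obtain ⟨p, q, t, hp, hq, ht, e1, e2, e3⟩ := h
  obtain ⟨p', q', t', hp', hq', ht', e1', e2', e3'⟩ := h'
  have hx := two_of_three M ⟨r, hr⟩ ⟨s, hs⟩ hn x hp hp'
  have hy := two_of_three M ⟨r, hr⟩ ⟨s, hs⟩ hn y hq hq'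
  have hz := two_of_three M ⟨r, hr⟩ ⟨s, hs⟩ hn z ht ht'
  rcases hx with hx | hx
  · rcases hy with hy | hy
    · exact e1 (E13_prr M hs hx hy)
    · rcases hz with hz | hz
      · exact e3 (E13_prr M hs hx hz)
      · exact e2' (E13_prr M hr hy hz)
  · rcases hy with hy | hy
    · rcases hz with hz | hz
      · exact e2 (E13_prr M hs hy hz)
      · exact e3' (E13_prr M hr hx hz)
    · exact e1' (E13_prr M hr hx hy)

end

end VTB
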