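import Pool.Agent.Lib.MP_32d917_al_vt.T05B
import Pool.Agent.Lib.MP_32d917_al_vt.E12
import Pool.Agent.Lib.MP_32d917_al_vt.E13

/-!
# New trees in the regions: medians, the new structure

* `swp_med`: let `m` be the `S`-median of `x y z` (`M.med`). For every label `i` let `m' i` be the median of
  `co x i`, `co y i`, `co z i` in the tree `S' i` (`rp_tree (swp_rpl h i)`, `st_median`). By `rp_med`:
  `m' i = co m i`, or there is a region `r = (i, A)` with `m' i` a vertex of `r` and `Exc S co r x y z` (the
  gates in the set of vertices of `r` are the projections: `Gt (S i) {p | VR co (i, A) p} (co x i) p` is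
  `Prj S co (i, A) x p`), and then `m ∈ A` (`exc_mem`).
  Claim: for every finite set `F` of labels there is a point `w` with `co w i = m' i` for `i ∈ F` and
  `co w i = co m i` for `i ∉ F`. Induction (`Finset.induction_on`), step from `F` to `insert i F`: let `w` be
  the point for `F`. If `m' i = co m i` take `w`. Otherwise let `(i, A)` be the exceptional region with
  the vertex `m' i`, `m ∈ A`. Then `Ag (st i) m w`: let `k ∉ st i`, `co w k ≠ co m k`; then `k ∈ F`, `co w k = m' k ≠
  co m k`, so there is an exceptional region of label `k ≠ i`, and `exc_adj` gives `Γ.Adj i k`, `k ∈ st i`: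
  contradiction. Let `u ∈ A` with `co u i = m' i`; `u` and `w` are both in `A = {y | Ag (st i) m y}`
  (`reg_mem`), so `Ag (st i) w u`, and `reg_pt` gives `z'` with `Ag {i} w z'`, `co z' i = m' i`.
  Take `F = Finset.univ`.
* `ms_swap`: `tree` from `rp_tree (swp_rpl h i)`; `ne`, `inj`, `onto`, `nocc` from `M`; `conn`, `sq`, `occ`
  from E12; `med` from `swp_med`; `ntr`: `n_ag` with `J = {i}`.
-/

set_option autoImplicit false

namespace VTB

open LatIso LatN LatF RaagIso

section

variable {ι Pt : Type} [Fintype ι] {V : ι → Type} {Γ : SimpleGraph ι}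
  {S S' : ∀ i, SimpleGraph (V i)} {co : Pt → ∀ i, V i} {N : Pt → ι → Prop}

private theorem e13b_key (h : Swp Γ S S' co N) {x y z m : Pt} (hm : Med S co x y z m) {i : ι}
    {n : V i} (h1 : Bt (S' i) (co x i) n (co y i)) (h2 : Bt (S' i) (co y i) n (co z i))
    (h3 : Bt (S' i) (co x i) n (co z i)) :
    n = co m i ∨ ∃ A, IsReg Γ co N (i, A) ∧ VR co (i, A) n ∧ Exc S co (i, A) x y z := by
  rcases rp_med (swp_rpl h i) (hm i).1 (hm i).2.1 (hm i).2.2 h1 h2 h3 with
    e | ⟨C, ⟨A, hA, rfl⟩, k1, _, p, q, s, hp, hq, hs, n1, n2, n3⟩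
  · exact Or.inl e
  · exact Or.inr ⟨A, hA, k1, p, q, s, hp, hq, hs, n1, n2, n3⟩

theorem swp_med (h : Swp Γ S S' co N) (x y z : Pt) : ∃ m, Med S' co x y z m := by
  classical
  have M := h.m
  obtain ⟨m, hm⟩ := M.med x y z
  choose m' hm' using fun i => st_median (rp_tree (swp_rpl h i)) (co x i) (co y i) (co z i)
  have key : ∀ i, m' i = co m i ∨
      ∃ A, IsReg Γ co N (i, A) ∧ VR co (i, A) (m' i) ∧ Exc S co (i, A) x y z :=
    fun i => e13b_key h hm (hm' i).1 (hm' i).2.1 (hm' i).2.2
  have claim : ∀ F : Finset ι, ∃ w, (∀ i ∈ F, co w i = m' i) ∧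
      ∀ i, i ∉ F → co w i = co m i := by
    intro F
    induction F using Finset.induction_on with
    | empty => exact ⟨m, fun i hi => absurd hi (Finset.notMem_empty i), fun i _ => rfl⟩
    | insert i F hi ih =>
      obtain ⟨w, hw1, hw2⟩ := ih
      rcases key i with e | ⟨A, hA, hv, hexc⟩
      · refine ⟨w, fun k hk => ?_, fun k hk => ?_⟩
        · rcases Finset.mem_insert.1 hk with hk | hk
          · subst hk
            rw [hw2 k hi, e]
          · exact hw1 k hk
        · exact hw2 k fun hk' => hk (Finset.mem_insert_of_mem hk')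
      · have hmA : m ∈ A := exc_mem M hA hm hexc
        have hAe : A = {y | Ag co (st Γ i) m y} := congrArg Prod.snd (reg_mem hA hmA)
        have hw : Ag co (st Γ i) m w := by
          intro k hk
          by_contra hne
          have hkF : k ∈ F := by
            by_contra hkF
            exact hne (hw2 k hkF)
          rcases key k with e | ⟨A', hA', _, hexc'⟩
          · exact hne (by rw [hw1 k hkF, e])
          · have hik : i ≠ k := by
              rintro rfl
              exact hk (Or.inl rfl)
            exact hk (Or.inr (exc_adj M hA hA' hik hexc hexc'))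
        obtain ⟨u, hu, hu'⟩ := hv
        have hu2 : Ag co (st Γ i) m u := by
          have hu3 : u ∈ A := hu
          rw [hAe] at hu3
          exact hu3
        obtain ⟨z', hz1, hz2⟩ := reg_pt M (ag_trans (ag_symm hw) hu2)
        have hz3 : ∀ k, k ≠ i → co z' k = co w k := fun k hk => hz1 k hk
        refine ⟨z', fun k hk => ?_, fun k hk => ?_⟩
        · rcases Finset.mem_insert.1 hk with hk | hk
          · subst hk
            rw [hz2]
            exact hu'
          · rw [hz3 k (fun e => hi (e ▸ hk))]
            exact hw1 k hk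
        · rw [hz3 k (fun e => hk (by rw [e]; exact Finset.mem_insert_self _ _))]
          exact hw2 k fun hk' => hk (Finset.mem_insert_of_mem hk')
  obtain ⟨w, hw, _⟩ := claim Finset.univ
  refine ⟨w, fun i => ?_⟩
  rw [hw i (Finset.mem_univ i)]
  exact hm' i

theorem ms_swap (h : Swp Γ S S' co N) : MS1 Γ S' co N where
  tree := fun i => rp_tree (swp_rpl h i)
  ne := h.m.ne
  inj := h.m.inj
  onto := h.m.onto
  conn := swp_conn h
  med := swp_med h
  sq := fun _ _ _ _ _ hij h1 h2 => swp_sq h hij h1 h2
  occ := swp_occ h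
  nocc := h.m.nocc
  ntr := fun _ _ i _ hst hk => n_ag h.m (J := {i}) (fun j hj => hst.2 j hj) hk

end

end VTB
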