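import Pool.Agent.Lib.MP_32d917_al_vt.E11
import Pool.Agent.Lib.MP_32d917_al.SLT

/-!
# A slide inside a region replaces the trees of the regions by trees

* `oc_sm`, `rg_sm`: elements of `G` map occurring labels to occurring labels and regions to regions:
  `Oc Γ N (g • x) (g • i)`: if `N (g • x) v`, write `v = g • (g⁻¹ • v)`, `gn` gives `N x (g⁻¹ • v)`, so
  `i ∈ st (g⁻¹ • v)`, and `gam` gives `g • i ∈ st v`. `Ag (st (g • i)) (g • x) (g • y)`: for
  `j = g • (g⁻¹ • j) ∉ st (g • i)` the label `g⁻¹ • j` is not in `st i`, the coordinates of `x`, `y` agree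
  there, and `gco`.
* `vsl_rg`: data of the slide: `i`, `x y z` with `VSt (comp κ S) co i x y`, `VSt (comp κ S) co i x z`;
  `v := (co x i).1`, `c := (co y i).1`, `u := (co z i).1`. For every `g` the region `rg (g • x) (g • i)` of the
  label `g • i` contains `g • x`, `g • y`, `g • z` (`rg_sm`), so `g • v`, `g • c`, `g • u` are vertices of it
  (`gco`). Stated for a label `k` and a region `(k, A)` of this label: if two different ones of
  `g • v`, `g • c`, `g • u` are vertices of `(k, A)` (with `κ _ = k`), then all three are (`vr_two`: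
  `(k, A) = rg (g • x) (g • i)`; `k = g • i` since `κ (g • v) = g • i`).
* `vsl_tree`: the tree on the region `(k, A)`. Let `W := {p : Fib κ k // VR co (k, A) p}`, `T := (comp κ S
  k).comap Subtype.val` on `W`: a tree, since the set of vertices is convex and nonempty in the tree
  `comp κ S k` (a convex nonempty subset of a tree induces a tree: acyclic as an induced subgraph
  `SimpleGraph.IsAcyclic.comap`; connected: induction on the distance with `st_next`).
  `slide_tree` (SLT.lean) with `C a b := ∃ g : G, g • v = a.1.1 ∧ g • c = b.1.1` and `pi a b` := the element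
  `g • u` of `W` if such a `g` exists (it does not depend on `g` by the third condition of `SlideAt`; it is
  in `W` by `vsl_rg`, `v ≠ c`), `a` otherwise. Exactly as in `SLF_tree` in MP_32d917_al/F/SLF.lean: `¬ C b a` by
  `noinv`; `¬ C a (pi a b)`, `¬ C (pi a b) a` by the first two conditions of `SlideAt`; the description of
  the edges of `S'` is the fourth condition (for `(g • u, g • c) = (a, b)` in `W`: the vertex `g • v` is in
  `W` by `vsl_rg`, `u ≠ c` by the first condition with `g = 1`).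
* `vsl_swp`: `edge`: an edge of `comp κ S' k` is an edge of `comp κ S k` (in a region by `rbk_blk`) or
  `(g • u, g • c)` (or reversed): both are vertices of `rg (g • x) (g • i)` which is a region by `oc_sm`,
  `rg_isReg` (`i` occurs at `x` by `M.occ`).
-/

set_option autoImplicit false

namespace VTB

open LatIso LatN LatF RaagIso

section

variable {G : Type} [Group G] {ι Pt V : Type} [Fintype ι] [MulAction G Pt] [MulAction G V]
  [MulAction G ι] {Γ : SimpleGraph ι} {κ : V → ι} {S S' : SimpleGraph V}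
  {co : Pt → ∀ i, Fib κ i} {N : Pt → ι → Prop}

theorem oc_sm (P : VPre G Γ κ S co N) (g : G) {x : Pt} {i : ι} (h : Oc Γ N x i) :
    Oc Γ N (g • x) (g • i) := by
  intro v hv
  have h1 : N x (g⁻¹ • v) := by
    rw [← P.gn g x (g⁻¹ • v), smul_inv_smul]
    exact hv
  rcases h _ h1 with h2 | h2
  · left
    rw [h2, smul_inv_smul]
  · right
    have h3 := (P.gam g (g⁻¹ • v) i).2 h2
    rw [smul_inv_smul] at h3
    exact h3

theorem rg_sm (P : VPre G Γ κ S co N) (g : G) {x y : Pt} {i : ι}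
    (h : Ag co (st Γ i) x y) : Ag co (st Γ (g • i)) (g • x) (g • y) := by
  intro j hj
  have h1 : g⁻¹ • j ∉ st Γ i := by
    rintro (h2 | h2)
    · apply hj
      left
      rw [← h2, smul_inv_smul]
    · apply hj
      right
      have h3 := (P.gam g i (g⁻¹ • j)).2 h2
      rw [smul_inv_smul] at h3
      exact h3
  have h2 := h (g⁻¹ • j) h1
  have h3 := P.gco g x (g⁻¹ • j)
  have h4 := P.gco g y (g⁻¹ • j)
  rw [smul_inv_smul] at h3 h4
  apply Subtype.ext
  rw [h3, h4, h2]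

private theorem e14_pt {i : ι} {x y z : Pt} (h1 : VSt (comp κ S) co i x y)
    (h2 : VSt (comp κ S) co i x z) {d : V}
    (hd : d = (co x i).1 ∨ d = (co y i).1 ∨ d = (co z i).1) :
    ∃ w, Ag co (st Γ i) x w ∧ d = (co w i).1 := by
  have key : ∀ w, VSt (comp κ S) co i x w → Ag co (st Γ i) x w := by
    intro w hw j hj
    refine hw.2 j ?_
    rintro rfl
    exact hj (Or.inl rfl)
  rcases hd with h | h | h
  · exact ⟨x, fun _ _ => rfl, h⟩
  · exact ⟨y, key y h1, h⟩
  · exact ⟨z, key z h2, h⟩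

/-- if two different ones of the three vertices of the translate of the slide are in a region then
all of them are -/
theorem vsl_rg (P : VPre G Γ κ S co N) {i : ι} {x y z : Pt} (h1 : VSt (comp κ S) co i x y)
    (h2 : VSt (comp κ S) co i x z) (g : G) {k : ι} {A : Set Pt} (hA : IsReg Γ co N (k, A))
    {a b : V} (hab : a ≠ b)
    (ha : a = (co x i).1 ∨ a = (co y i).1 ∨ a = (co z i).1)
    (hb : b = (co x i).1 ∨ b = (co y i).1 ∨ b = (co z i).1)
    (ha' : ∃ p : Fib κ k, VR co (k, A) p ∧ p.1 = g • a)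
    (hb' : ∃ p : Fib κ k, VR co (k, A) p ∧ p.1 = g • b) {c : V}
    (hc : c = (co x i).1 ∨ c = (co y i).1 ∨ c = (co z i).1) :
    ∃ p : Fib κ k, VR co (k, A) p ∧ p.1 = g • c := by
  obtain ⟨p, hp, hpa⟩ := ha'
  obtain ⟨q, hq, hqb⟩ := hb'
  have hoc : Oc Γ N x i := (P.ms.occ x i).1 ⟨y, h1⟩
  obtain ⟨wa, hwa, ea⟩ := e14_pt (Γ := Γ) h1 h2 ha
  obtain ⟨wb, hwb, eb⟩ := e14_pt (Γ := Γ) h1 h2 hb
  obtain ⟨wc, hwc, ec⟩ := e14_pt (Γ := Γ) h1 h2 hc
  have hk : k = g • i := by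
    rw [← p.2, hpa, P.act.kap, ea, (co wa i).2]
  subst hk
  have hB : IsReg Γ co N (g • i, {y | Ag co (st Γ (g • i)) (g • x) y}) :=
    rg_isReg (oc_sm P g hoc)
  have hmem : ∀ w, Ag co (st Γ i) x w →
      VR co (g • i, {y | Ag co (st Γ (g • i)) (g • x) y}) (co (g • w) (g • i)) :=
    fun w hw => ⟨g • w, rg_sm P g hw, rfl⟩
  have e1 : co (g • wa) (g • i) = p :=
    Subtype.ext ((P.gco g wa i).trans (by rw [hpa, ea]))
  have e2 : co (g • wb) (g • i) = q :=
    Subtype.ext ((P.gco g wb i).trans (by rw [hqb, eb]))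
  have hpq : p ≠ q := by
    intro h
    apply hab
    apply MulAction.injective g
    show g • a = g • b
    rw [← hpa, ← hqb, h]
  have hAB := vr_two P.ms hA hB hpq hp hq (by rw [← e1]; exact hmem wa hwa)
    (by rw [← e2]; exact hmem wb hwb)
  rw [hAB]
  exact ⟨co (g • wc) (g • i), hmem wc hwc, by rw [ec]; exact P.gco g wc i⟩

private theorem e14_cvx {W : Type} {T : SimpleGraph W} (hT : T.IsTree) {C : Set W}
    (hC : Cvx T C) (h0 : C.Nonempty) :
    (T.comap (Subtype.val : {p : W // p ∈ C} → W)).IsTree := by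
  obtain ⟨c, hc⟩ := h0
  have : Nonempty {p : W // p ∈ C} := ⟨⟨c, hc⟩⟩
  have key : ∀ (n : ℕ) (a b : {p : W // p ∈ C}), T.dist a.1 b.1 = n →
      (T.comap (Subtype.val : {p : W // p ∈ C} → W)).Reachable a b := by
    intro n
    induction n with
    | zero =>
      intro a b h
      have h1 : a = b := Subtype.ext (st1_eq hT h)
      rw [h1]
    | succ n ih =>
      intro a b h
      have hne : a.1 ≠ b.1 := by
        intro h'
        rw [h', SimpleGraph.dist_self] at h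
        omega
      obtain ⟨m, hm, hb⟩ := st_next hT hne
      have hmC : m ∈ C := hC a.1 a.2 b.1 b.2 m hb
      have e := st1_one hm
      have h2 : T.dist m b.1 = n := by
        unfold Bt at hb
        omega
      have h3 : (T.comap (Subtype.val : {p : W // p ∈ C} → W)).Adj a ⟨m, hmC⟩ := hm
      exact h3.reachable.trans (ih ⟨m, hmC⟩ b h2)
  refine ⟨⟨fun a b => key _ a b rfl⟩, ?_⟩
  exact hT.isAcyclic.comap ⟨Subtype.val, fun h => h⟩ Subtype.val_injective

theorem vsl_tree (P : VPre G Γ κ S co N)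
    (noinv : ∀ (g : G) x y, S.Adj x y → g • x = y → g • y ≠ x) (h : VSl G κ co S S') {k : ι}
    {A : Set Pt} (hA : IsReg Γ co N (k, A)) :
    ((comp κ S' k).comap (Subtype.val : {p : Fib κ k // VR co (k, A) p} → Fib κ k)).IsTree := by
  classical
  obtain ⟨i, x, y, z, hxy, hxz, s1, s2, s3, s4⟩ := h
  have hvc : S.Adj (co x i).1 (co y i).1 := hxy.1
  have hvu : S.Adj (co x i).1 (co z i).1 := hxz.1
  have hT : ((comp κ S k).comap
      (Subtype.val : {p : Fib κ k // VR co (k, A) p} → Fib κ k)).IsTree := by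
    refine e14_cvx (P.ms.tree k) (C := {p | VR co (k, A) p}) (vr_cv P.ms hA) ?_
    obtain ⟨x0, _, h0⟩ := hA
    exact ⟨co x0 k, x0, by rw [h0]; exact fun _ _ => rfl, rfl⟩
  obtain ⟨C, hC⟩ : ∃ C : {p : Fib κ k // VR co (k, A) p} → {p : Fib κ k // VR co (k, A) p} → Prop,
      ∀ a b, C a b ↔ ∃ g : G, g • (co x i).1 = a.1.1 ∧ g • (co y i).1 = b.1.1 :=
    ⟨_, fun _ _ => Iff.rfl⟩
  have hex : ∀ a b : {p : Fib κ k // VR co (k, A) p}, ∃ c : {p : Fib κ k // VR co (k, A) p},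
      ∀ g : G, g • (co x i).1 = a.1.1 → g • (co y i).1 = b.1.1 → c.1.1 = g • (co z i).1 := by
    intro a b
    by_cases h : ∃ g : G, g • (co x i).1 = a.1.1 ∧ g • (co y i).1 = b.1.1
    · obtain ⟨g, g1, g2⟩ := h
      obtain ⟨p, hp, hpu⟩ := vsl_rg P hxy hxz g hA hvc.ne (Or.inl rfl) (Or.inr (Or.inl rfl))
        ⟨a.1, a.2, g1.symm⟩ ⟨b.1, b.2, g2.symm⟩ (c := (co z i).1) (Or.inr (Or.inr rfl))
      refine ⟨⟨p, hp⟩, fun l l1 l2 => ?_⟩
      show p.1 = l • (co z i).1
      rw [hpu]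
      have k3 : (l⁻¹ * g) • (co x i).1 = (co x i).1 := by
        rw [mul_smul, g1, ← l1, inv_smul_smul]
      have k4 : (l⁻¹ * g) • (co y i).1 = (co y i).1 := by
        rw [mul_smul, g2, ← l2, inv_smul_smul]
      have k5 := s3 _ k3 k4
      rw [mul_smul, inv_smul_eq_iff] at k5
      exact k5
    · exact ⟨a, fun g g1 g2 => absurd ⟨g, g1, g2⟩ h⟩
  choose pi hpi using hex
  -- the vertex `g • v`
  have hv : ∀ (g : G) (a b : {p : Fib κ k // VR co (k, A) p}), g • (co z i).1 = a.1.1 →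
      g • (co y i).1 = b.1.1 → ∃ w : {p : Fib κ k // VR co (k, A) p},
        w.1.1 = g • (co x i).1 := by
    intro g a b g1 g2
    have huc : (co z i).1 ≠ (co y i).1 := by
      intro h
      exact s1 1 ⟨one_smul _ _, by rw [one_smul, h]⟩
    obtain ⟨p, hp, hpu⟩ := vsl_rg P hxy hxz g hA huc (Or.inr (Or.inr rfl)) (Or.inr (Or.inl rfl))
      ⟨a.1, a.2, g1.symm⟩ ⟨b.1, b.2, g2.symm⟩ (c := (co x i).1) (Or.inl rfl)
    exact ⟨⟨p, hp⟩, hpu⟩
  refine slide_tree hT C pi ?_ ?_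
  · intro a b hab
    rw [hC] at hab
    obtain ⟨g, g1, g2⟩ := hab
    have hp := hpi a b g g1 g2
    refine ⟨?_, ?_, ?_, ?_, ?_⟩
    · show S.Adj a.1.1 b.1.1
      rw [← g1, ← g2]
      exact P.act.adj g _ _ hvc
    · show S.Adj a.1.1 (pi a b).1.1
      rw [hp, ← g1]
      exact P.act.adj g _ _ hvu
    · rw [hC]
      rintro ⟨l, k1, k2⟩
      refine noinv (g⁻¹ * l) _ _ hvc ?_ ?_
      · rw [mul_smul, k1, ← g2, inv_smul_smul]
      · rw [mul_smul, k2, ← g1, inv_smul_smul]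
    · rw [hC]
      rintro ⟨l, k1, k2⟩
      refine s1 (g⁻¹ * l) ⟨?_, ?_⟩
      · rw [mul_smul, k1, ← g1, inv_smul_smul]
      · rw [mul_smul, k2, hp, inv_smul_smul]
    · rw [hC]
      rintro ⟨l, k1, k2⟩
      refine s2 (g⁻¹ * l) ⟨?_, ?_⟩
      · rw [mul_smul, k1, hp, inv_smul_smul]
      · rw [mul_smul, k2, ← g1, inv_smul_smul]
  · intro a b
    have hA' : ((comp κ S' k).comap
        (Subtype.val : {p : Fib κ k // VR co (k, A) p} → Fib κ k)).Adj a b ↔
        S'.Adj a.1.1 b.1.1 := Iff.rfl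
    have hB' : ((comp κ S k).comap
        (Subtype.val : {p : Fib κ k // VR co (k, A) p} → Fib κ k)).Adj a b ↔
        S.Adj a.1.1 b.1.1 := Iff.rfl
    rw [hA', hB', s4 a.1.1 b.1.1, hC, hC]
    constructor
    · rintro (⟨h3, h4⟩ | ⟨g, ⟨h3, h4⟩ | ⟨h3, h4⟩⟩)
      · refine Or.inl ⟨h3, ?_, ?_⟩
        · rintro ⟨g, g1, g2⟩
          exact (h4 g).1 ⟨g1, g2⟩
        · rintro ⟨g, g1, g2⟩
          exact (h4 g).2 ⟨g1, g2⟩
      · obtain ⟨w, hw⟩ := hv g a b h3 h4
        refine Or.inr (Or.inl ⟨w, (hC _ _).2 ⟨g, hw.symm, h4⟩, ?_⟩)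
        apply Subtype.ext
        apply Subtype.ext
        rw [hpi w b g hw.symm h4, h3]
      · obtain ⟨w, hw⟩ := hv g b a h3 h4
        refine Or.inr (Or.inr ⟨w, (hC _ _).2 ⟨g, hw.symm, h4⟩, ?_⟩)
        apply Subtype.ext
        apply Subtype.ext
        rw [hpi w a g hw.symm h4, h3]
    · rintro (⟨h3, h4, h5⟩ | ⟨w, hw, g3⟩ | ⟨w, hw, g3⟩)
      · exact Or.inl ⟨h3, fun g => ⟨fun h6 => h4 ⟨g, h6⟩, fun h6 => h5 ⟨g, h6⟩⟩⟩
      · obtain ⟨g, g1, g2⟩ := (hC _ _).1 hw
        refine Or.inr ⟨g, Or.inl ⟨?_, g2⟩⟩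
        rw [← g3, hpi w b g g1 g2]
      · obtain ⟨g, g1, g2⟩ := (hC _ _).1 hw
        refine Or.inr ⟨g, Or.inr ⟨?_, g2⟩⟩
        rw [← g3, hpi w a g g1 g2]

theorem vsl_swp (P : VPre G Γ κ S co N)
    (noinv : ∀ (g : G) x y, S.Adj x y → g • x = y → g • y ≠ x) (h : VSl G κ co S S') :
    Swp Γ (comp κ S) (comp κ S') co N := by
  refine ⟨P.ms, fun k A hA => vsl_tree P noinv h hA, ?_⟩
  obtain ⟨i, x, y, z, hxy, hxz, s1, s2, s3, s4⟩ := h
  have hoc : Oc Γ N x i := (P.ms.occ x i).1 ⟨y, hxy⟩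
  have key : ∀ (k : ι) (g : G) (a b : Fib κ k), g • (co z i).1 = a.1 → g • (co y i).1 = b.1 →
      ∃ A, IsReg Γ co N (k, A) ∧ VR co (k, A) a ∧ VR co (k, A) b := by
    intro k g a b ga gb
    have hk : k = g • i := by
      rw [← a.2, ← ga, P.act.kap, (co z i).2]
    subst hk
    obtain ⟨w1, hw1, e1⟩ := e14_pt (Γ := Γ) hxy hxz (d := (co z i).1) (Or.inr (Or.inr rfl))
    obtain ⟨w2, hw2, e2⟩ := e14_pt (Γ := Γ) hxy hxz (d := (co y i).1) (Or.inr (Or.inl rfl))
    refine ⟨_, rg_isReg (oc_sm P g hoc), ⟨g • w1, rg_sm P g hw1, ?_⟩,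
      ⟨g • w2, rg_sm P g hw2, ?_⟩⟩
    · exact Subtype.ext ((P.gco g w1 i).trans (by rw [← e1, ga]))
    · exact Subtype.ext ((P.gco g w2 i).trans (by rw [← e2, gb]))
  intro k a b hab
  have hab' : S'.Adj a.1 b.1 := hab
  rw [s4] at hab'
  rcases hab' with ⟨h3, _⟩ | ⟨g, ⟨h3, h4⟩ | ⟨h3, h4⟩⟩
  · obtain ⟨C, ⟨A, hA, rfl⟩, h5, h6⟩ := (rbk_blk P.ms k).edge a b h3
    exact ⟨A, hA, h5, h6⟩
  · exact key k g a b h3 h4
  · obtain ⟨A, hA, h5, h6⟩ := key k g b a h3 h4
    exact ⟨A, hA, h6, h5⟩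

end

end VTB
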