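import Pool.Agent.Lib.MP_32d917_al_vt.E13B
import Pool.Agent.Lib.MP_32d917_al_vt.E14

/-!
# Slides inside regions preserve the structures

* `vsl_pre`: `VPre` for `S'`: `ms` by `ms_swap (vsl_swp ...)`; `kapS`: an edge of `S'` is an edge of `S` or a
  translate `(g • u, g • c)` with `κ u = i = κ c` (`u = (co z i).1`, `c = (co y i).1`), `κ (g • u) = g • κ u`;
  `act.kap` as before, `act.adj`: from the description of the edges (as in `slide_flat`,
  MP_32d917_al/F/SLF.lean); `gam`, `gco`, `gn` do not involve `S`.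
* `vsl_noinv`: as in `slide_flat`: for an edge of `S` by `noinv`; let `g` exchange the ends of a translate of
  `(u, c)`, without loss of generality of `(u, c)` itself: `g • u = c`, `g • c = u`. Then `g` maps the path
  `u, v, c` to `c, g • v, u`; two vertices `u ≠ c` of the forest have at most one common neighbour
  (`slt_mid` of SLT.lean for the tree `comp κ S i`), so `g • v = v`; this contradicts the first condition of
  `SlideAt` (`g • v = v`, `g • c = u`). (`SLF_mid` in SLF.lean is private, copy it.)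
* `vsl_loc`: the set of `y` with `VSt (comp κ S') co k x' y` is finite. If `(co x' k, co y k)` is an edge of `S`
  then `VSt (comp κ S) co k x' y`. Otherwise `{(co x' k).1, (co y k).1} = {g • u, g • c}`; `x'` and `y` are both in
  the region `rg x' k` (`pan_oc`, `rg_isReg`), so by `vsl_rg` `g • v` is a vertex of it, and by `reg_pt` there is
  a point `w` with `Ag {k} x' w`, `(co w k).1 = g • v`; `g • v` is adjacent in `S` to `g • u` and `g • c`, so
  `VSt (comp κ S) co k x' w` and `VSt (comp κ S) co k w y`. So the set is contained in the union of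
  `{y | VSt (comp κ S) co k x' y}` and the union of `{y | VSt (comp κ S) co k w y}` over
  `w ∈ {w | VSt (comp κ S) co k x' w}` (`Set.Finite.biUnion`).
* `vsl_vlat`: assemble; `out`, `inf`, `gg`, `prop`, `fin` do not involve `S`.
-/

set_option autoImplicit false

namespace VTB

open LatIso LatN LatF RaagIso

section

variable {G : Type} [Group G] {ι Pt V : Type} [Fintype ι] [MulAction G Pt] [MulAction G V]
  [MulAction G ι] {Γ : SimpleGraph ι} {κ : V → ι} {S S' : SimpleGraph V}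
  {co : Pt → ∀ i, Fib κ i} {N : Pt → ι → Prop}

omit [Fintype ι] in
private theorem E14B_sadj {i : ι} {x y : Pt} (h : VSt (comp κ S) co i x y) :
    S.Adj (co x i).1 (co y i).1 := h.1

private theorem E14B_mid (P : VPre G Γ κ S co N) {u x v v' : V} (hux : u ≠ x)
    (h1 : S.Adj u v) (h2 : S.Adj v x) (h3 : S.Adj u v') (h4 : S.Adj v' x) : v = v' := by
  have k1 := P.kapS _ _ h1
  have k2 := P.kapS _ _ h2
  have k3 := P.kapS _ _ h3
  have h := slt_mid (S := comp κ S (κ u)) (P.ms.tree (κ u)) (u := ⟨u, rfl⟩)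
    (x := ⟨x, (k1.trans k2).symm⟩) (v := ⟨v, k1.symm⟩) (v' := ⟨v', k3.symm⟩)
    (fun hh => hux (congrArg Subtype.val hh)) h1 h2 h3 h4
  exact congrArg Subtype.val h

theorem vsl_pre (P : VPre G Γ κ S co N)
    (noinv : ∀ (g : G) x y, S.Adj x y → g • x = y → g • y ≠ x) (h : VSl G κ co S S') :
    VPre G Γ κ S' co N := by
  have hms := ms_swap (vsl_swp P noinv h)
  obtain ⟨i, x, y, z, h1, h2, s1, s2, s3, s4⟩ := h
  refine ⟨hms, ?_, ⟨P.act.kap, ?_⟩, P.gam, P.gco, P.gn⟩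
  · intro a b hab
    have hk : ∀ g : G, κ (g • (co z i).1) = κ (g • (co y i).1) := by
      intro g
      rw [P.act.kap, P.act.kap, (co z i).2, (co y i).2]
    rcases (s4 a b).1 hab with ⟨h3, -⟩ | ⟨g, ⟨h3, h5⟩ | ⟨h3, h5⟩⟩
    · exact P.kapS a b h3
    · rw [← h3, ← h5, hk]
    · rw [← h3, ← h5, hk]
  · intro g a b hab
    rw [s4] at hab ⊢
    rcases hab with ⟨h3, h4⟩ | ⟨k, h3⟩
    · refine Or.inl ⟨P.act.adj g _ _ h3, ?_⟩
      intro k
      obtain ⟨l1, l2⟩ := h4 (g⁻¹ * k)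
      refine ⟨fun h6 => l1 ?_, fun h6 => l2 ?_⟩
      · rw [mul_smul, mul_smul, h6.1, h6.2, inv_smul_smul, inv_smul_smul]
        exact ⟨rfl, rfl⟩
      · rw [mul_smul, mul_smul, h6.1, h6.2, inv_smul_smul, inv_smul_smul]
        exact ⟨rfl, rfl⟩
    · refine Or.inr ⟨g * k, ?_⟩
      rcases h3 with ⟨h3, h5⟩ | ⟨h3, h5⟩
      · left
        rw [mul_smul, mul_smul, h3, h5]
        exact ⟨rfl, rfl⟩
      · right
        rw [mul_smul, mul_smul, h3, h5]
        exact ⟨rfl, rfl⟩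

theorem vsl_noinv (P : VPre G Γ κ S co N)
    (noinv : ∀ (g : G) x y, S.Adj x y → g • x = y → g • y ≠ x) (h : VSl G κ co S S') (g : G)
    (x y : V) (hxy : S'.Adj x y) (h1 : g • x = y) : g • y ≠ x := by
  obtain ⟨i, x0, y0, z0, e1, e2, s1, s2, s3, s4⟩ := h
  have hvx : S.Adj (co x0 i).1 (co y0 i).1 := e1.1
  have hvu : S.Adj (co x0 i).1 (co z0 i).1 := e2.1
  have hux : (co z0 i).1 ≠ (co y0 i).1 := by
    intro hh
    exact s1 1 ⟨one_smul _ _, by rw [one_smul, hh]⟩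
  intro h2
  -- no inversion of the new edge
  have new : ∀ k l : G, l • (k • (co z0 i).1) = k • (co y0 i).1 →
      l • (k • (co y0 i).1) = k • (co z0 i).1 → False := by
    intro k l h5 h6
    have h7 : S.Adj (k • (co z0 i).1) (k • (co x0 i).1) := (P.act.adj k _ _ hvu).symm
    have h8 : S.Adj (k • (co x0 i).1) (k • (co y0 i).1) := P.act.adj k _ _ hvx
    have h9 : S.Adj (k • (co y0 i).1) (l • k • (co x0 i).1) := by
      have h0 := P.act.adj l _ _ h7
      rwa [h5] at h0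
    have h10 : S.Adj (l • k • (co x0 i).1) (k • (co z0 i).1) := by
      have h0 := P.act.adj l _ _ h8
      rwa [h6] at h0
    have hne : k • (co z0 i).1 ≠ k • (co y0 i).1 := fun hh => hux (smul_left_cancel k hh)
    have h11 : k • (co x0 i).1 = l • k • (co x0 i).1 :=
      E14B_mid P hne h7 h8 h10.symm h9.symm
    refine s1 (k⁻¹ * l * k) ⟨?_, ?_⟩
    · rw [mul_smul, mul_smul, ← h11, inv_smul_smul]
    · rw [mul_smul, mul_smul, h6, inv_smul_smul]
  rw [s4] at hxy
  rcases hxy with ⟨h3, h4⟩ | ⟨k, ⟨h3, h5⟩ | ⟨h3, h5⟩⟩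
  · exact noinv g x y h3 h1 h2
  · refine new k g ?_ ?_
    · rw [h3, h1, h5]
    · rw [h5, h2, h3]
  · refine new k g ?_ ?_
    · rw [h3, h2, h5]
    · rw [h5, h1, h3]

theorem vsl_loc (P : VPre G Γ κ S co N)
    (loc : ∀ x i, {y | VSt (comp κ S) co i x y}.Finite) (h : VSl G κ co S S') (x' : Pt) (k : ι) :
    {y | VSt (comp κ S') co k x' y}.Finite := by
  obtain ⟨i, x0, y0, z0, e1, e2, s1, s2, s3, s4⟩ := h
  have hvx : S.Adj (co x0 i).1 (co y0 i).1 := e1.1
  have hvu : S.Adj (co x0 i).1 (co z0 i).1 := e2.1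
  have hux : (co z0 i).1 ≠ (co y0 i).1 := by
    intro hh
    exact s1 1 ⟨one_smul _ _, by rw [one_smul, hh]⟩
  refine Set.Finite.subset (s := {y | VSt (comp κ S) co k x' y} ∪
    ⋃ w ∈ {w | VSt (comp κ S) co k x' w}, {y | VSt (comp κ S) co k w y})
    ((loc x' k).union ((loc x' k).biUnion fun w _ => loc w k)) ?_
  intro y hy
  have hadj : S'.Adj (co x' k).1 (co y k).1 := hy.1
  have hag : Ag co {k} x' y := fun j hj => hy.2 j hj
  have hne : co x' k ≠ co y k := by
    intro hh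
    rw [hh] at hadj
    exact hadj.ne rfl
  have hoc : Oc Γ N x' k := pan_oc P.ms hag hne
  have hreg : IsReg Γ co N (k, {y | Ag co (st Γ k) x' y}) := rg_isReg hoc
  have hk : ({k} : Set ι) ⊆ st Γ k := by
    intro j hj
    rw [Set.mem_singleton_iff] at hj
    exact Or.inl hj
  have hx : VR co (k, {y | Ag co (st Γ k) x' y}) (co x' k) := ⟨x', ag_refl x', rfl⟩
  have hyr : VR co (k, {y | Ag co (st Γ k) x' y}) (co y k) := ⟨y, ag_mono hk hag, rfl⟩
  -- a point over the middle vertex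
  have mid : ∀ g : G, (∃ p : Fib κ k, VR co (k, {y | Ag co (st Γ k) x' y}) p ∧
      p.1 = g • (co x0 i).1) → ∃ w, Ag co {k} x' w ∧ (co w k).1 = g • (co x0 i).1 := by
    rintro g ⟨p, ⟨x1, hx1, rfl⟩, hp⟩
    obtain ⟨w, hw1, hw2⟩ := reg_pt P.ms hx1
    exact ⟨w, hw1, by rw [hw2, hp]⟩
  rcases (s4 _ _).1 hadj with ⟨h3, -⟩ | ⟨g, ⟨h3, h5⟩ | ⟨h3, h5⟩⟩
  · exact Or.inl ⟨h3, hy.2⟩
  · right
    obtain ⟨w, hw1, hw2⟩ := mid g (vsl_rg P e1 e2 g hreg hux (Or.inr (Or.inr rfl))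
      (Or.inr (Or.inl rfl)) ⟨_, hx, h3.symm⟩ ⟨_, hyr, h5.symm⟩ (Or.inl rfl))
    have a1 : S.Adj (co x' k).1 (co w k).1 := by
      rw [hw2, ← h3]
      exact (P.act.adj g _ _ hvu).symm
    have a2 : S.Adj (co w k).1 (co y k).1 := by
      rw [hw2, ← h5]
      exact P.act.adj g _ _ hvx
    rw [Set.mem_iUnion₂]
    exact ⟨w, ⟨a1, fun j hj => hw1 j hj⟩, ⟨a2, fun j hj => (hy.2 j hj).trans (hw1 j hj).symm⟩⟩
  · right
    obtain ⟨w, hw1, hw2⟩ := mid g (vsl_rg P e1 e2 g hreg hux (Or.inr (Or.inr rfl))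
      (Or.inr (Or.inl rfl)) ⟨_, hyr, h3.symm⟩ ⟨_, hx, h5.symm⟩ (Or.inl rfl))
    have a1 : S.Adj (co x' k).1 (co w k).1 := by
      rw [hw2, ← h5]
      exact (P.act.adj g _ _ hvx).symm
    have a2 : S.Adj (co w k).1 (co y k).1 := by
      rw [hw2, ← h3]
      exact P.act.adj g _ _ hvu
    rw [Set.mem_iUnion₂]
    exact ⟨w, ⟨a1, fun j hj => hw1 j hj⟩, ⟨a2, fun j hj => (hy.2 j hj).trans (hw1 j hj).symm⟩⟩

theorem vsl_vlat (L : VLat G Γ κ S co N) (h : VSl G κ co S S') : VLat G Γ κ S' co N := by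
  have hp := vsl_pre L.pre L.noinv h
  exact ⟨hp, ⟨hp.ms, vsl_loc L.pre L.ms.loc h, L.ms.cen, L.ms.out, L.ms.inf⟩, L.gg,
    vsl_noinv L.pre L.noinv h, L.prop, L.fin⟩

end

end VTB
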