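import Pool.Agent.Lib.MP_32d917_al_vt.WVAL
import Pool.Agent.Lib.MP_32d917_al_vt.A01
import Pool.Agent.Lib.MP_32d917_al_vt.A03
import Pool.Agent.Lib.MP_32d917_al_vt.A09

/-!
# F01: basic facts on framed complexes

Elementary consequences of the axioms of `VF`; paths along a set of edges (`strip`); induction.
`vf_spath`: induction `geod_ind` towards `y` for the statement (for points `z` with the steps over `E`):
a step `z w` of `geod` is between `z` and `y`, `co z j = co y j` and `strip` gives the steps at `w`;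
its label is not `j` since `co z j = co y j` (`Bt` between equal vertices).
-/

set_option autoImplicit false

namespace VTB

open LatIso LatN LatF RaagIso

section geo

variable {ι Pt : Type} {V : ι → Type} {S S' : ∀ i, SimpleGraph (V i)} {co : Pt → ∀ i, V i}

theorem vf_sne {i : ι} {x y : Pt} (h : VSt S co i x y) : x ≠ y := by
  rintro rfl
  exact h.1.ne rfl

theorem vf_idx {i j : ι} {x y : Pt} (h : VSt S co i x y) (h' : VSt S' co j x y) : j = i := by
  by_contra hc
  exact h'.1.ne (h.2 j hc).symm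

theorem vf_bt_self {W : Type} {T : SimpleGraph W} {a b : W} (h : Bt T a b a)
    (hT : T.Connected) : b = a := by
  have h1 : T.dist a b = 0 := by
    unfold Bt at h
    rw [SimpleGraph.dist_self] at h
    omega
  exact (hT.dist_eq_zero_iff.1 h1).symm

/-- no 4-cycles in trees -/
theorem vf_no4 {W : Type} {T : SimpleGraph W} (hT : T.IsTree) {x y z w : W} (hyz : y ≠ z)
    (h1 : T.Adj x y) (h2 : T.Adj x z) (h3 : T.Adj y w) (h4 : T.Adj z w) (hxw : x ≠ w) :
    False := by
  have hu := hT.IsAcyclic.path_unique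
    (⟨SimpleGraph.Walk.cons h1.symm (SimpleGraph.Walk.cons h2 .nil), by
      simp [h1.ne', h2.ne, hyz]⟩ : T.Path y z)
    (⟨SimpleGraph.Walk.cons h3 (SimpleGraph.Walk.cons h4.symm .nil), by
      simp [h3.ne, h4.ne', hyz]⟩ : T.Path y z)
  have h5 := congrArg (fun p => p.1.support) hu
  simp at h5
  exact hxw h5

end geo

section path

variable {ι Pt : Type} [Fintype ι] {V : ι → Type} {Γ : SimpleGraph ι}
  {S : ∀ i, SimpleGraph (V i)} {co : Pt → ∀ i, V i} {N : Pt → ι → Prop}

/-- paths along which there are steps over given edges of the tree of the label `j` -/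
theorem vf_spath (M : MS1 Γ S co N) {j : ι} {x y : Pt} (hj : co x j = co y j) (E : Set (V j))
    (hE : E.Nonempty)
    (hx : ∀ e ∈ E, ∃ x', VSt S co j x x' ∧ co x' j = e)
    (hy : ∀ e ∈ E, ∃ y', VSt S co j y y' ∧ co y' j = e) :
    Relation.ReflTransGen (fun z w => (∀ e ∈ E, ∃ z', VSt S co j z z' ∧ co z' j = e) ∧
      (∀ e ∈ E, ∃ w', VSt S co j w w' ∧ co w' j = e) ∧ ∃ k, k ≠ j ∧ VSt S co k z w) x y := by
  have key : ∀ x : Pt, co x j = co y j → (∀ e ∈ E, ∃ x', VSt S co j x x' ∧ co x' j = e) →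
      Relation.ReflTransGen (fun z w => (∀ e ∈ E, ∃ z', VSt S co j z z' ∧ co z' j = e) ∧
      (∀ e ∈ E, ∃ w', VSt S co j w w' ∧ co w' j = e) ∧ ∃ k, k ≠ j ∧ VSt S co k z w) x y := by
    intro x
    refine geod_ind M y (fun x => co x j = co y j →
      (∀ e ∈ E, ∃ x', VSt S co j x x' ∧ co x' j = e) →
      Relation.ReflTransGen (fun z w => (∀ e ∈ E, ∃ z', VSt S co j z z' ∧ co z' j = e) ∧
      (∀ e ∈ E, ∃ w', VSt S co j w w' ∧ co w' j = e) ∧ ∃ k, k ≠ j ∧ VSt S co k z w) x y)
      (fun _ _ => Relation.ReflTransGen.refl) ?_ x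
    intro z w k hk hb ih hz he
    have hkj : k ≠ j := by
      rintro rfl
      rw [← hz] at hb
      exact hk.1.ne (vf_bt_self hb (M.tree k).connected).symm
    have hw : co w j = co y j := by rw [hk.2 j (Ne.symm hkj), hz]
    have hw' : ∀ e ∈ E, ∃ w', VSt S co j w w' ∧ co w' j = e := by
      intro e hee
      obtain ⟨z', h1, h2⟩ := he e hee
      obtain ⟨y', h3, h4⟩ := hy e hee
      obtain ⟨w', h5, h6⟩ := strip M h1 h3 hz (by rw [h2, h4]) (z := w) (by
        intro i
        by_cases hi : i = k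
        · subst hi; exact hb
        · rw [hk.2 i hi]
          unfold Bt
          rw [SimpleGraph.dist_self, zero_add])
      exact ⟨w', h5, by rw [h6, h2]⟩
    exact Relation.ReflTransGen.head ⟨he, hw', k, hkj, hk⟩ (ih hw hw')
  exact key x hj hx

end path

section frames

variable {ι P A : Type} {X : FD ι P A} {ι' Pt : Type} {V : ι' → Type}
  {S : ∀ i, SimpleGraph (V i)} {co : Pt → ∀ i, V i} {F : Type} {Γ : SimpleGraph ι}
  {N : P → ι → Prop}

theorem vf_mv (L : VF X S co F) {f : F} {a : A} (h : X.o a = L.p f) :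
    X.mv a ↔ L.pt (L.act f a) ≠ L.pt f := by
  constructor
  · intro hm
    exact (vf_sne (L.mo f a h hm)).symm
  · intro hne
    by_contra hm
    exact hne (L.st f a h hm)

theorem vf_lam_i (hX : VV0 Γ N X) (L : VF X S co F) {f : F} {c : A} (ho : X.o c = L.p f)
    (hm : X.mv c) : L.lam (L.act f c) (X.ty (X.i c)) = L.lam f (X.ty c) := by
  rw [hX.tyi c hm, L.act_lam f c ho]

theorem vf_stat (L : VF X S co F) {f f' : F} (h : L.pt f' = L.pt f) :
    ∃ s, X.o s = L.p f ∧ ¬ X.mv s ∧ L.act f s = f' := by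
  obtain ⟨s, h1, h2⟩ := L.sur f f' (Or.inl h)
  refine ⟨s, h1, fun hm => ?_, h2⟩
  have h3 := L.mo f s h1 hm
  rw [h2] at h3
  exact vf_sne h3 h.symm

theorem vf_move (L : VF X S co F) {f f' : F} {i : ι'} (h : VSt S co i (L.pt f) (L.pt f')) :
    ∃ c, X.o c = L.p f ∧ X.mv c ∧ L.act f c = f' ∧ L.lam f (X.ty c) = i := by
  obtain ⟨c, h1, h2⟩ := L.sur f f' (Or.inr ⟨i, h⟩)
  have hm : X.mv c := by
    rw [vf_mv L h1, h2]
    exact (vf_sne h).symm
  have h3 := L.mo f c h1 hm
  rw [h2] at h3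
  exact ⟨c, h1, hm, h2, vf_idx h h3⟩

/-- a moving arrow to some frame over a given adjacent point -/
theorem vf_movep (L : VF X S co F) {f : F} {y : Pt} {i : ι'} (h : VSt S co i (L.pt f) y) :
    ∃ c, X.o c = L.p f ∧ X.mv c ∧ L.pt (L.act f c) = y ∧ L.lam f (X.ty c) = i := by
  obtain ⟨f', rfl⟩ := L.onto y
  obtain ⟨c, h1, h2, h3, h4⟩ := vf_move L h
  exact ⟨c, h1, h2, by rw [h3], h4⟩

theorem vf_act_mr (hX : VV0 Γ N X) (L : VF X S co F) {f : F} {a s : A} (ho : X.o a = L.p f)
    (hs : X.rc a s) : L.act f (X.mr a s) = L.act (L.act f a) s := by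
  have h1 : L.p (L.act f a) = X.t a := L.act_p f a ho
  have h2 : X.o s = L.p (L.act f a) := by rw [h1]; exact hs.2
  have h3 : L.p (L.act (L.act f a) s) = X.t s := L.act_p _ _ h2
  have hl := vv_lc hX hs
  have h4 : X.o (X.i s) = L.p (L.act (L.act f a) s) := by rw [hX.oi, h3]
  have h5 := L.act_ml (L.act (L.act f a) s) (X.i s) (X.i a) h4 hl
  rw [L.act_i _ _ h2, L.act_i _ _ ho] at h5
  have h6 : X.o (X.ml (X.i s) (X.i a)) = L.p (L.act (L.act f a) s) := by
    rw [hX.mlo _ _ hl, hX.oi, h3]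
  have h7 := L.act_i (L.act (L.act f a) s) (X.ml (X.i s) (X.i a)) h6
  rw [h5] at h7
  exact h7

/-- arrows to frames over the same point are equivalent -/
theorem vf_eqv (hX : VV0 Γ N X) (L : VF X S co F) {f : F} {a b : A} (ha : X.o a = L.p f)
    (hb : X.o b = L.p f) (h : L.pt (L.act f b) = L.pt (L.act f a)) :
    ∃ s, X.rc a s ∧ b = X.mr a s := by
  obtain ⟨s, h1, h2, h3⟩ := vf_stat L (f := L.act f a) (f' := L.act f b) h
  have hs : X.rc a s := ⟨h2, by rw [h1, L.act_p f a ha]⟩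
  refine ⟨s, hs, L.inj f _ _ hb (by rw [vv_mro hX hs, ha]) ?_⟩
  rw [vf_act_mr hX L ha hs, h3]

/-- directions at the object of a frame -/
theorem vf_dir (L : VF X S co F) (f : F) (k : ι) :
    (∃ a, X.dir (L.p f) k a) ↔ ∃ y, VSt S co (L.lam f k) (L.pt f) y := by
  constructor
  · rintro ⟨a, h1, h2, h3⟩
    refine ⟨L.pt (L.act f a), ?_⟩
    have h4 := L.mo f a h1 h2
    rw [h3] at h4
    exact h4
  · rintro ⟨y, hy⟩
    obtain ⟨c, h1, h2, h3, h4⟩ := vf_movep L hy
    exact ⟨c, h1, h2, (L.bij f).1 h4⟩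

theorem vf_onto (L : VF X S co F) {p0 : P} {δ : P → A} {r : P → ℕ}
    (hs : LatF.Span X p0 δ r) (h0 : ∃ f, L.p f = p0) (q : P) : ∃ f, L.p f = q := by
  have key : ∀ (n : ℕ) (q : P), r q < n → ∃ f, L.p f = q := by
    intro n
    induction n with
    | zero => intro q hq; exact absurd hq (Nat.not_lt_zero _)
    | succ n ih =>
      intro q hq
      by_cases hp : q = p0
      · rw [hp]; exact h0
      · obtain ⟨h1, h2⟩ := hs q hp
        obtain ⟨f, hf⟩ := ih (X.o (δ q)) (lt_of_lt_of_le h2 (Nat.lt_succ_iff.mp hq))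
        exact ⟨L.act f (δ q), by rw [L.act_p f _ hf.symm, h1]⟩
  exact key (r q + 1) q (Nat.lt_succ_self _)

/-- frames over the same point have the same object -/
theorem vf_same (hX : VV Γ N X) (L : VF X S co F) {f f' : F} (h : L.pt f' = L.pt f) :
    L.p f' = L.p f := by
  obtain ⟨s, h1, h2, h3⟩ := vf_stat L h
  rw [← h3, L.act_p f s h1, hX.loop s h2, h1]

section ind

variable [Fintype ι'] {Γ' : SimpleGraph ι'} {N' : Pt → ι' → Prop}

/-- frames are connected by arrows -/
theorem vf_induct (M : MS1 Γ' S co N') (L : VF X S co F) (Q : F → Prop) (f0 : F) (h0 : Q f0)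
    (hs : ∀ f a, X.o a = L.p f → Q f → Q (L.act f a)) (f : F) : Q f := by
  have hsame : ∀ f f' : F, L.pt f' = L.pt f → Q f → Q f' := by
    intro f f' he hQ
    obtain ⟨a, ha, hb⟩ := L.sur f f' (Or.inl he)
    rw [← hb]
    exact hs f a ha hQ
  have key := v_ind M (fun x => ∀ f, L.pt f = x → Q f) (L.pt f0)
    (fun f hf => hsame f0 f hf h0)
    (fun x y hxy ih f hf => by
      obtain ⟨i, hi⟩ := hxy
      obtain ⟨f1, hf1⟩ := L.onto x
      obtain ⟨a, ha, hb⟩ := L.sur f1 f (Or.inr ⟨i, by rw [hf1, hf]; exact hi⟩)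
      rw [← hb]
      exact hs f1 a ha (ih f1 hf1))
  exact key (L.pt f) f rfl

/-- two frames with the same coordinate `j` are connected by arrows not moving it -/
theorem vf_induct_j (M : MS1 Γ' S co N') (L : VF X S co F) (j : ι') (Q : F → Prop) (f0 : F)
    (h0 : Q f0)
    (hs : ∀ f a, X.o a = L.p f → (X.mv a → L.lam f (X.ty a) ≠ j) → Q f → Q (L.act f a)) (f : F)
    (hf : co (L.pt f) j = co (L.pt f0) j) : Q f := by
  have hsame : ∀ f f' : F, L.pt f' = L.pt f → Q f → Q f' := by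
    intro f f' he hQ
    obtain ⟨a, ha, hm, hb⟩ := vf_stat L he
    rw [← hb]
    exact hs f a ha (fun h => absurd h hm) hQ
  have key := v_ind_j M j (fun x => ∀ f, L.pt f = x → Q f) (L.pt f0)
    (fun f hf => hsame f0 f hf h0)
    (fun x y i hij hxy ih f hf => by
      obtain ⟨f1, hf1⟩ := L.onto x
      obtain ⟨a, ha, hm, hb, hl⟩ := vf_move L (f := f1) (f' := f) (i := i)
        (by rw [hf1, hf]; exact hxy)
      rw [← hb]
      exact hs f1 a ha (fun _ => by rw [hl]; exact hij) (ih f1 hf1))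
  exact key (L.pt f) hf f rfl

end ind

end frames

end VTB
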