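import Pool.Agent.Lib.MP_32d917_al_vt.F01

/-!
# F02: universal property of the frames

Adapt F/FTTL of MP_32d917_al; the choice of frames `sec x` over the points and `v_ttl`.
-/

set_option autoImplicit false

namespace VTB

open LatIso LatN LatF

section

/-- the action of the product of an arrow and a stationary arrow -/
theorem v_fttl_mr {ι P A : Type} {X : FD ι P A} {Γ : SimpleGraph ι} {N : P → ι → Prop}
    (hX : VV0 Γ N X) {Y : Type} (pY : Y → P)
    (aY : Y → A → Y) (h0 : ∀ y a, X.o a = pY y → pY (aY y a) = X.t a)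
    (h2 : ∀ y a, X.o a = pY y → aY (aY y a) (X.i a) = y)
    (h3 : ∀ y s a, X.o s = pY y → X.lc s a → aY y (X.ml s a) = aY (aY y s) a)
    (y : Y) (b s : A) (hb : X.o b = pY y) (hs : X.rc b s) :
    aY y (X.mr b s) = aY (aY y b) s := by
  have hl := vv_lc hX hs
  have e1 : X.o s = pY (aY y b) := by rw [h0 y b hb, hs.2]
  have e2 : X.o (X.i s) = pY (aY (aY y b) s) := by rw [h0 _ s e1, hX.oi]
  have e3 : aY (aY (aY y b) s) (X.ml (X.i s) (X.i b)) = y := by
    rw [h3 _ _ _ e2 hl, h2 _ s e1, h2 y b hb]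
  have e4 : X.o (X.ml (X.i s) (X.i b)) = pY (aY (aY y b) s) := by rw [hX.mlo _ _ hl, e2]
  have e5 := h2 _ _ e4
  rw [e3] at e5
  exact e5

variable {ι P A : Type} {X : FD ι P A} {ι' Pt : Type} [Fintype ι'] {V : ι' → Type}
  {S : ∀ i, SimpleGraph (V i)} {co : Pt → ∀ i, V i} {F : Type} {Γ : SimpleGraph ι}
  {N : P → ι → Prop} {Γ' : SimpleGraph ι'} {N' : Pt → ι' → Prop}

theorem v_fttl (M : MS1 Γ' S co N') (hX : VV0 Γ N X) (L : VF X S co F) {Y : Type} (pY : Y → P)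
    (aY : Y → A → Y) (h0 : ∀ y a, X.o a = pY y → pY (aY y a) = X.t a)
    (h1 : ∀ y, aY y (X.e (pY y)) = y)
    (h2 : ∀ y a, X.o a = pY y → aY (aY y a) (X.i a) = y)
    (h3 : ∀ y s a, X.o s = pY y → X.lc s a → aY y (X.ml s a) = aY (aY y s) a)
    (h4 : ∀ y a b c d, X.o a = pY y → X.sq a b c d → aY (aY y a) b = aY (aY y c) d)
    (f0 : F) (y0 : Y) (hy : pY y0 = L.p f0) :
    ∃ Φ : F → Y, Φ f0 = y0 ∧ (∀ f, pY (Φ f) = L.p f) ∧
      ∀ f a, X.o a = L.p f → Φ (L.act f a) = aY (Φ f) a := by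
  classical
  obtain ⟨sec, hsec, hsec0⟩ : ∃ sec : Pt → F, (∀ x, L.pt (sec x) = x) ∧
      sec (L.pt f0) = f0 := by
    choose s hs using L.onto
    refine ⟨fun x => if x = L.pt f0 then f0 else s x, fun x => ?_, by simp⟩
    by_cases hx : x = L.pt f0
    · simp [hx]
    · simp [hx, hs]
  have hex : ∀ (x y : Pt), ∃ a, UAdj S co x y →
      X.o a = L.p (sec x) ∧ L.act (sec x) a = sec y := by
    intro x y
    by_cases hv : UAdj S co x y
    · obtain ⟨i, hi⟩ := hv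
      obtain ⟨a, ha⟩ := L.sur (sec x) (sec y) (Or.inr ⟨i, by rw [hsec, hsec]; exact hi⟩)
      exact ⟨a, fun _ => ha⟩
    · exact ⟨X.e (L.p f0), fun h => absurd h hv⟩
  choose ar har using hex
  have hmv : ∀ x y, UAdj S co x y → X.mv (ar x y) := by
    intro x y hv
    rw [vf_mv L (har x y hv).1, (har x y hv).2, hsec, hsec]
    obtain ⟨i, hi⟩ := hv
    exact (vf_sne hi).symm
  have hlam : ∀ x y i, VSt S co i x y → L.lam (sec x) (X.ty (ar x y)) = i := by
    intro x y i hv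
    have e1 := L.mo _ _ (har x y ⟨i, hv⟩).1 (hmv x y ⟨i, hv⟩)
    rw [(har x y ⟨i, hv⟩).2, hsec, hsec] at e1
    exact vf_idx hv e1
  have hsymm : ∀ x y, UAdj S co x y → UAdj S co y x := by
    rintro x y ⟨i, hi⟩
    exact ⟨i, hi.1.symm, fun j hj => (hi.2 j hj).symm⟩
  have hpt : ∀ x y, UAdj S co x y → X.t (ar x y) = L.p (sec y) := by
    intro x y hv
    rw [← L.act_p _ _ (har x y hv).1, (har x y hv).2]
  have hinv : ∀ x y, UAdj S co x y → ar y x = X.i (ar x y) := by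
    intro x y hv
    have e1 := har y x (hsymm x y hv)
    refine L.inj (sec y) _ _ e1.1 ?_ ?_
    · rw [hX.oi, hpt x y hv]
    · rw [e1.2, ← (har x y hv).2, L.act_i _ _ (har x y hv).1]
  have hsq : ∀ x y z w i j, i ≠ j → VSt S co i x y → VSt S co j x z → VSt S co j y w →
      VSt S co i z w → X.sq (ar x y) (ar y w) (ar x z) (ar z w) := by
    intro x y z w i j hij h1 h2 h3 h4
    have u1 : UAdj S co x y := ⟨i, h1⟩
    have u2 : UAdj S co x z := ⟨j, h2⟩
    have u3 : UAdj S co y w := ⟨j, h3⟩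
    have u4 : UAdj S co z w := ⟨i, h4⟩
    refine L.sq_of (sec x) _ _ _ _ (har x y u1).1 ?_ ?_
    · refine ⟨hmv _ _ u1, hmv _ _ u3, hmv _ _ u2, hmv _ _ u4, ?_, ?_, ?_, ?_, ?_, ?_, ?_⟩
      · rw [(har _ _ u1).1, (har _ _ u2).1]
      · rw [hpt _ _ u1, (har _ _ u3).1]
      · rw [hpt _ _ u2, (har _ _ u4).1]
      · rw [hpt _ _ u3, hpt _ _ u4]
      · intro he
        apply hij
        rw [← hlam _ _ _ h1, he, hlam _ _ _ h2]
      · apply (L.bij (sec y)).1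
        rw [hlam _ _ _ h3, ← (har _ _ u1).2, L.act_lam _ _ (har _ _ u1).1, hlam _ _ _ h2]
      · apply (L.bij (sec z)).1
        rw [hlam _ _ _ h4, ← (har _ _ u2).2, L.act_lam _ _ (har _ _ u2).1, hlam _ _ _ h1]
    · rw [(har _ _ u1).2, (har _ _ u3).2, (har _ _ u2).2, (har _ _ u4).2]
  obtain ⟨γ, hγ0, hγ1, hγ2⟩ := v_ttl M (fun x y => pY y = L.p (sec x))
    (fun x y s => aY s (ar x y))
    (fun x y s hv hQ => by
      have hQ' : X.o (ar x y) = pY s := by rw [(har _ _ hv).1, hQ]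
      show pY (aY s (ar x y)) = _
      rw [h0 s _ hQ', hpt _ _ hv])
    (fun x y s hv hQ => by
      have hQ' : X.o (ar x y) = pY s := by rw [(har _ _ hv).1, hQ]
      show aY (aY s (ar x y)) (ar y x) = s
      rw [hinv _ _ hv, h2 s _ hQ'])
    (fun x y z w i j s hij k1 k2 k3 k4 hQ => by
      have hQ' : X.o (ar x y) = pY s := by rw [(har _ _ ⟨i, k1⟩).1, hQ]
      exact h4 s _ _ _ _ hQ' (hsq x y z w i j hij k1 k2 k3 k4))
    (L.pt f0) y0 (by rw [hsec0, hy])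
  choose σ hσ1 hσm hσ2 using fun f : F => vf_stat L (f := sec (L.pt f)) (f' := f)
    (hsec (L.pt f)).symm
  have hσt : ∀ f, X.t (σ f) = L.p f := by
    intro f
    rw [← L.act_p _ _ (hσ1 f), hσ2 f]
  have hσp : ∀ f, X.o (σ f) = pY (γ (L.pt f)) := by
    intro f
    rw [hσ1 f, hγ1]
  refine ⟨fun f => aY (γ (L.pt f)) (σ f), ?_, ?_, ?_⟩
  · have e1 : σ f0 = X.e (L.p f0) := by
      have e2 := hσ1 f0
      have e3 := hσ2 f0
      rw [hsec0] at e2 e3
      exact L.inj f0 _ _ e2 (hX.oe _) (by rw [e3, L.act_e])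
    show aY (γ (L.pt f0)) (σ f0) = y0
    rw [e1, hγ0, ← hy, h1]
  · intro f
    show pY (aY (γ (L.pt f)) (σ f)) = _
    rw [h0 _ _ (hσp f), hσt f]
  · intro f a ha
    show aY (γ (L.pt (L.act f a))) (σ (L.act f a)) = aY (aY (γ (L.pt f)) (σ f)) a
    have hlc : X.lc (σ f) a := ⟨hσm f, by rw [hσt f, ha]⟩
    have e1 : L.act (sec (L.pt f)) (X.ml (σ f) a) = L.act f a := by
      rw [L.act_ml _ _ _ (hσ1 f) hlc, hσ2 f]
    have e2 : X.o (X.ml (σ f) a) = L.p (sec (L.pt f)) := by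
      rw [hX.mlo _ _ hlc, hσ1 f]
    rw [← h3 _ _ _ (hσp f) hlc]
    by_cases hm : X.mv a
    · have e3 : UAdj S co (L.pt f) (L.pt (L.act f a)) := ⟨_, L.mo f a ha hm⟩
      have e5 := har _ _ e3
      have e6 := hσ1 (L.act f a)
      have hrc : X.rc (ar (L.pt f) (L.pt (L.act f a))) (σ (L.act f a)) :=
        ⟨hσm _, by rw [e6, hpt _ _ e3]⟩
      have e7 : X.ml (σ f) a = X.mr (ar (L.pt f) (L.pt (L.act f a))) (σ (L.act f a)) := by
        refine L.inj (sec (L.pt f)) _ _ e2 ?_ ?_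
        · rw [vv_mro hX hrc, e5.1]
        · rw [e1, vf_act_mr hX L e5.1 hrc, e5.2, hσ2]
      rw [e7, v_fttl_mr hX pY aY h0 h2 h3 _ _ _ (by rw [e5.1, hγ1]) hrc, ← hγ2 _ _ e3]
    · have e3 := L.st f a ha hm
      have e4 : σ (L.act f a) = X.ml (σ f) a := by
        have e5 := hσ1 (L.act f a)
        have e6 := hσ2 (L.act f a)
        rw [e3] at e5 e6
        exact L.inj _ _ _ e5 e2 (by rw [e6, e1])
      rw [e4, e3]

end

end VTB
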