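import Pool.Agent.Lib.MP_32d917_al_vt.F02

/-!
# F04: the unlabelled data are determined by the action on the points and the adjacency

Two structures (possibly with different trees and labels) for the same group with an equivariant
bijection of the points preserving adjacency both ways have isomorphic unlabelled data. Adapted from
F/FISO of MP_32d917_al. A square of the first data is a 4-cycle of points; in the second complex
it is a square of steps with the right labels (`vf_4cyc`).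
-/

set_option autoImplicit false

namespace VTB

open LatIso LatN LatF

section cyc

variable {ι Pt : Type} {V : ι → Type} {Γ : SimpleGraph ι}
  {S : ∀ i, SimpleGraph (V i)} {co : Pt → ∀ i, V i} {N : Pt → ι → Prop}

/-- the labels of a 4-cycle -/
theorem vf_4cyc (M : MS1 Γ S co N) {i j k l : ι} {x y z w : Pt} (h1 : VSt S co i x y)
    (h2 : VSt S co j x z) (h3 : VSt S co k y w) (h4 : VSt S co l z w) (hxw : x ≠ w)
    (hyz : y ≠ z) : i ≠ j ∧ k = j ∧ l = i := by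
  classical
  have hij : i ≠ j := by
    rintro rfl
    have hyz' : co y i ≠ co z i := by
      intro he
      apply hyz
      apply M.inj
      intro m
      by_cases hm : m = i
      · subst hm; exact he
      · rw [h1.2 m hm, h2.2 m hm]
    by_cases hk : k = i
    · subst hk
      by_cases hl : l = k
      · subst hl
        apply hxw
        apply M.inj
        intro m
        by_cases hm : m = l
        · subst hm
          by_contra hne
          exact vf_no4 (M.tree m) hyz' h1.1 h2.1 h3.1 h4.1 hne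
        · rw [h3.2 m hm, h1.2 m hm]
      · have e1 : co w l = co y l := h3.2 l hl
        have e2 : co y l = co x l := h1.2 l hl
        have e3 : co z l = co x l := h2.2 l hl
        have e4 := h4.1
        rw [e1, e2, e3] at e4
        exact e4.ne rfl
    · have e1 : co w i = co y i := h3.2 i (Ne.symm hk)
      by_cases hl : l = i
      · subst hl
        have e2 : co w k = co z k := h4.2 k hk
        have e3 : co z k = co x k := h2.2 k hk
        have e4 : co y k = co x k := h1.2 k hk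
        have e5 := h3.1
        rw [e2, e3, e4] at e5
        exact e5.ne rfl
      · have e2 : co w i = co z i := h4.2 i (Ne.symm hl)
        exact hyz' (by rw [← e1, e2])
  refine ⟨hij, ?_, ?_⟩
  · by_contra hk
    -- `w` agrees with `y` at `j`
    have e1 : co w j = co y j := h3.2 j (Ne.symm hk)
    have e2 : co y j = co x j := h1.2 j (Ne.symm hij)
    have hlj : l = j := by
      by_contra hl
      have e3 : co w j = co z j := h4.2 j (Ne.symm hl)
      have e4 := h2.1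
      rw [← e3, e1, e2] at e4
      exact e4.ne rfl
    subst hlj
    have e5 : co w i = co z i := h4.2 i hij
    have e6 : co z i = co x i := h2.2 i hij
    have hki : k = i := by
      by_contra hk'
      have e7 : co w i = co y i := h3.2 i (Ne.symm hk')
      have e8 := h1.1
      rw [← e7, e5, e6] at e8
      exact e8.ne rfl
    subst hki
    apply hxw
    apply M.inj
    intro m
    by_cases hm : m = k
    · subst hm; rw [e5, e6]
    · rw [h3.2 m hm, h1.2 m hm]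
  · by_contra hl
    have e1 : co w i = co z i := h4.2 i (Ne.symm hl)
    have e2 : co z i = co x i := h2.2 i hij
    have hki : k = i := by
      by_contra hk
      have e3 : co w i = co y i := h3.2 i (Ne.symm hk)
      have e4 := h1.1
      rw [← e3, e1, e2] at e4
      exact e4.ne rfl
    subst hki
    have e5 : co w j = co y j := h3.2 j (Ne.symm hij)
    have e6 : co y j = co x j := h1.2 j (Ne.symm hij)
    have hlj : l = j := by
      by_contra hl'
      have e7 : co w j = co z j := h4.2 j (Ne.symm hl')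
      have e8 := h2.1
      rw [← e7, e5, e6] at e8
      exact e8.ne rfl
    subst hlj
    apply hxw
    apply M.inj
    intro m
    by_cases hm : m = l
    · subst hm; rw [e5, e6]
    · rw [h4.2 m hm, h2.2 m hm]

end cyc

section

variable {ι P A ι₁ P₁ A₁ : Type} {X : FD ι P A} {Y : FD ι₁ P₁ A₁} {G : Type} [Group G]
  {Pt V ι' : Type} [MulAction G Pt] [MulAction G V] [MulAction G ι'] {κ : V → ι'}
  {S : SimpleGraph V} {co : Pt → ∀ i, Fib κ i} {Γ : SimpleGraph ι} {N : P → ι → Prop}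
  {Γ' : SimpleGraph ι'} {N' : Pt → ι' → Prop}
  {Pt₂ V₂ ι₂ : Type} [MulAction G Pt₂] [MulAction G V₂] [MulAction G ι₂] {κ₂ : V₂ → ι₂}
  {S₂ : SimpleGraph V₂} {co₂ : Pt₂ → ∀ i, Fib κ₂ i} {Γ₁ : SimpleGraph ι₁} {N₁ : P₁ → ι₁ → Prop}
  {Γ₂ : SimpleGraph ι₂} {N₂ : Pt₂ → ι₂ → Prop}

/-- a map of frames and arrows -/
structure VFIm {F F' : Type} (L : VF X (comp κ S) co F) (L' : VF Y (comp κ₂ S₂) co₂ F')
    (Ψ : Pt → Pt₂) (u : P → P₁) (φ : F → F') (w : A → A₁) : Prop where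
  hp : ∀ f, L'.p (φ f) = u (L.p f)
  hpt : ∀ f, L'.pt (φ f) = Ψ (L.pt f)
  wo : ∀ a, Y.o (w a) = u (X.o a)
  wa : ∀ f a, X.o a = L.p f → L'.act (φ f) (w a) = φ (L.act f a)

section

variable {F F' : Type} {L : VF X (comp κ S) co F} {L' : VF Y (comp κ₂ S₂) co₂ F'}
  {Ψ : Pt → Pt₂} {u : P → P₁} {φ : F → F'} {w : A → A₁}

theorem VFIm.o' (I : VFIm L L' Ψ u φ w) {f : F} {a : A} (h : X.o a = L.p f) :
    Y.o (w a) = L'.p (φ f) := by rw [I.wo, I.hp, h]

theorem VFIm.t' (I : VFIm L L' Ψ u φ w) (ho : ∀ q : P, ∃ f : F, L.p f = q) (a : A) :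
    Y.t (w a) = u (X.t a) := by
  obtain ⟨f, hf⟩ := ho (X.o a)
  rw [← L'.act_p _ _ (I.o' hf.symm), I.wa f a hf.symm, I.hp, L.act_p _ _ hf.symm]

theorem VFIm.mv' (I : VFIm L L' Ψ u φ w) (hΨ : Function.Injective Ψ)
    (ho : ∀ q : P, ∃ f : F, L.p f = q) (a : A) : Y.mv (w a) ↔ X.mv a := by
  obtain ⟨f, hf⟩ := ho (X.o a)
  rw [vf_mv L' (I.o' hf.symm), vf_mv L hf.symm, I.wa f a hf.symm, I.hpt, I.hpt]
  exact ⟨fun h e => h (by rw [e]), fun h e => h (hΨ e)⟩

theorem VFIm.e' (I : VFIm L L' Ψ u φ w) (hX : VV0 Γ N X) (hY : VV0 Γ₁ N₁ Y)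
    (ho : ∀ q : P, ∃ f : F, L.p f = q) (p : P) : Y.e (u p) = w (X.e p) := by
  obtain ⟨f, hf⟩ := ho p
  apply L'.inj (φ f)
  · rw [hY.oe, I.hp, hf]
  · rw [I.wo, hX.oe, I.hp, hf]
  · rw [I.wa f _ (by rw [hX.oe, hf]), ← hf, L.act_e, ← I.hp, L'.act_e]

theorem VFIm.i' (I : VFIm L L' Ψ u φ w) (hX : VV0 Γ N X) (hY : VV0 Γ₁ N₁ Y)
    (ho : ∀ q : P, ∃ f : F, L.p f = q) (a : A) : Y.i (w a) = w (X.i a) := by
  obtain ⟨f, hf⟩ := ho (X.o a)
  have h1 : X.o (X.i a) = L.p (L.act f a) := by rw [hX.oi, L.act_p _ _ hf.symm]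
  apply L'.inj (φ (L.act f a))
  · rw [hY.oi, ← I.wa f a hf.symm, L'.act_p _ _ (I.o' hf.symm)]
  · exact I.o' h1
  · rw [I.wa _ _ h1, L.act_i _ _ hf.symm, ← I.wa f a hf.symm, L'.act_i _ _ (I.o' hf.symm)]

theorem VFIm.ml' (I : VFIm L L' Ψ u φ w) (hΨ : Function.Injective Ψ) (hX : VV0 Γ N X)
    (hY : VV0 Γ₁ N₁ Y) (ho : ∀ q : P, ∃ f : F, L.p f = q) {s a : A} (h : X.lc s a) :
    Y.ml (w s) (w a) = w (X.ml s a) := by
  obtain ⟨f, hf⟩ := ho (X.o s)
  have hl : Y.lc (w s) (w a) := ⟨fun hm => h.1 ((I.mv' hΨ ho s).1 hm), by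
    rw [I.t' ho, I.wo, h.2]⟩
  have h1 : X.o (X.ml s a) = L.p f := by rw [hX.mlo _ _ h, hf]
  have h2 : X.o a = L.p (L.act f s) := by rw [L.act_p _ _ hf.symm, h.2]
  apply L'.inj (φ f)
  · rw [hY.mlo _ _ hl]
    exact I.o' hf.symm
  · exact I.o' h1
  · rw [L'.act_ml _ _ _ (I.o' hf.symm) hl, I.wa _ _ hf.symm, I.wa _ _ h2, I.wa _ _ h1,
      L.act_ml _ _ _ hf.symm h]

theorem VFIm.sq' (I : VFIm L L' Ψ u φ w) (hΨ : Function.Injective Ψ) (hX : VV0 Γ N X)
    (M : MS1 Γ' (comp κ S) co N') (M₂ : MS1 Γ₂ (comp κ₂ S₂) co₂ N₂)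
    (ho : ∀ q : P, ∃ f : F, L.p f = q) {a b c d : A} (h : X.sq a b c d) :
    Y.sq (w a) (w b) (w c) (w d) := by
  obtain ⟨f, hf⟩ := ho (X.o a)
  have hT := hX.sqT _ _ _ _ h
  have ha : X.o a = L.p f := hf.symm
  have hc : X.o c = L.p f := by rw [← hT.oac, hf]
  have hb : X.o b = L.p (L.act f a) := by rw [L.act_p _ _ hf.symm, hT.tab]
  have hd : X.o d = L.p (L.act f c) := by rw [L.act_p _ _ hc, hT.tcd]
  have ma' := (I.mv' hΨ ho a).2 hT.ma
  have mb' := (I.mv' hΨ ho b).2 hT.mb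
  have mc' := (I.mv' hΨ ho c).2 hT.mc
  have md' := (I.mv' hΨ ho d).2 hT.md
  have eq4 : L.act (L.act f a) b = L.act (L.act f c) d := L.act_sq _ _ _ _ _ ha h
  -- the steps in the first complex
  have s1 := L.mo f a ha hT.ma
  have s2 := L.mo f c hc hT.mc
  have s3 := L.mo _ b hb hT.mb
  have s4 := L.mo _ d hd hT.md
  have hne : L.lam f (X.ty a) ≠ L.lam f (X.ty c) := fun e => hT.ne ((L.bij f).1 e)
  have hyz : L.pt (L.act f a) ≠ L.pt (L.act f c) := by
    intro e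
    have e1 := s2.1
    have e2 := s1.2 _ (Ne.symm hne)
    rw [← e, e2] at e1
    exact e1.ne rfl
  have hxw : L.pt f ≠ L.pt (L.act (L.act f a) b) := by
    intro e
    have e3 : L.lam (L.act f a) (X.ty b) = L.lam f (X.ty c) := by
      rw [hT.tyb, L.act_lam f a ha]
    rw [e3] at s3
    have e1 := s3.2 _ hne
    rw [← e] at e1
    exact s1.1.ne e1
  -- the steps in the second complex
  have t1 := L'.mo (φ f) (w a) (I.o' ha) ma'
  have t2 := L'.mo (φ f) (w c) (I.o' hc) mc'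
  have t3 := L'.mo (φ (L.act f a)) (w b) (I.o' hb) mb'
  have t4 := L'.mo (φ (L.act f c)) (w d) (I.o' hd) md'
  rw [I.wa _ _ ha] at t1
  rw [I.wa _ _ hc] at t2
  rw [I.wa _ _ hb] at t3
  rw [I.wa _ _ hd, ← eq4] at t4
  have hyz' : L'.pt (φ (L.act f a)) ≠ L'.pt (φ (L.act f c)) := by
    rw [I.hpt, I.hpt]
    exact fun e => hyz (hΨ e)
  have hxw' : L'.pt (φ f) ≠ L'.pt (φ (L.act (L.act f a) b)) := by
    rw [I.hpt, I.hpt]
    exact fun e => hxw (hΨ e)
  obtain ⟨k1, k2, k3⟩ := vf_4cyc M₂ t1 t2 t3 t4 hxw' hyz'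
  refine L'.sq_of (φ f) _ _ _ _ (I.o' ha) ?_ ?_
  · refine ⟨ma', mb', mc', md', ?_, ?_, ?_, ?_, ?_, ?_, ?_⟩
    · rw [I.wo, I.wo, hT.oac]
    · rw [I.t' ho, I.wo, hT.tab]
    · rw [I.t' ho, I.wo, hT.tcd]
    · rw [I.t' ho, I.t' ho, hT.tbd]
    · exact fun he => k1 (by rw [he])
    · apply (L'.bij (φ (L.act f a))).1
      rw [k2, ← I.wa f a ha, L'.act_lam _ _ (I.o' ha)]
    · apply (L'.bij (φ (L.act f c))).1
      rw [k3, ← I.wa f c hc, L'.act_lam _ _ (I.o' hc)]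
  · rw [I.wa _ _ ha, I.wa _ _ hb, I.wa _ _ hc, I.wa _ _ hd, eq4]

theorem VFIm.inv' (I : VFIm L L' Ψ u φ w) {Ψ' : Pt₂ → Pt} {u' : P₁ → P} {φ' : F' → F}
    {w' : A₁ → A} (I' : VFIm L' L Ψ' u' φ' w') (hu : ∀ q, u' (u q) = q)
    (hφ : ∀ f, φ' (φ f) = f) (ho : ∀ q : P, ∃ f : F, L.p f = q) (a : A) : w' (w a) = a := by
  obtain ⟨f, hf⟩ := ho (X.o a)
  apply L.inj f
  · rw [I'.wo, I.wo, hu, hf]
  · exact hf.symm
  · have h1 := I'.wa (φ f) (w a) (I.o' hf.symm)
    rw [hφ, I.wa f a hf.symm, hφ] at h1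
    exact h1

end

theorem vfiso_w {F F' : Type} [MulAction G F] [MulAction G F'] {L : VF X (comp κ S) co F}
    {L' : VF Y (comp κ₂ S₂) co₂ F'} (hL : VCov G L) (hL' : VCov G L') {Ψ : Pt → Pt₂}
    (hU : ∀ x y, UAdj (comp κ S) co x y → UAdj (comp κ₂ S₂) co₂ (Ψ x) (Ψ y))
    {u : P → P₁} {φ : F → F'}
    (hp : ∀ f, L'.p (φ f) = u (L.p f)) (hφ : ∀ (g : G) f, φ (g • f) = g • φ f)
    (hpt : ∀ f, L'.pt (φ f) = Ψ (L.pt f)) : ∃ w : A → A₁, VFIm L L' Ψ u φ w := by
  have key : ∀ a : A, ∃ b : A₁, Y.o b = u (X.o a) ∧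
      ∀ f, X.o a = L.p f → L'.act (φ f) b = φ (L.act f a) := by
    intro a
    obtain ⟨f0, hf0⟩ := hL.onto (X.o a)
    have h1 : L'.pt (φ (L.act f0 a)) = L'.pt (φ f0) ∨
        ∃ i, VSt (comp κ₂ S₂) co₂ i (L'.pt (φ f0)) (L'.pt (φ (L.act f0 a))) := by
      rw [hpt, hpt]
      by_cases hm : X.mv a
      · exact Or.inr (hU _ _ ⟨_, L.mo f0 a hf0.symm hm⟩)
      · exact Or.inl (by rw [L.st f0 a hf0.symm hm])
    obtain ⟨b, hb, hb'⟩ := L'.sur _ _ h1
    refine ⟨b, by rw [hb, hp, hf0], fun f hf => ?_⟩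
    obtain ⟨g, rfl⟩ := hL.trans f0 f (by rw [hf0, hf])
    rw [hφ, hL'.gact _ _ _ hb, hb', ← hφ, hL.gact _ _ _ hf0.symm]
  choose w hw1 hw2 using key
  exact ⟨w, hp, hpt, hw1, fun f a h => hw2 a f h⟩

theorem v_uiso (h : IsVCov G Γ' κ S co N' Γ N X) (h' : IsVCov G Γ₂ κ₂ S₂ co₂ N₂ Γ₁ N₁ Y)
    (Ψ : Pt ≃ Pt₂) (hΨ : ∀ (g : G) x, Ψ (g • x) = g • Ψ x)
    (hU : ∀ x y, UAdj (comp κ S) co x y ↔ UAdj (comp κ₂ S₂) co₂ (Ψ x) (Ψ y)) : UIso X Y := by
  obtain ⟨hpre, hX, F, _, L, _, hL⟩ := h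
  obtain ⟨hpre', hY, F', _, L', _, hL'⟩ := h'
  have M := hpre.ms
  have M₂ := hpre'.ms
  choose z hz using hL.onto
  have hz1 : ∀ q, ∃ f', L'.pt f' = Ψ (L.pt (z q)) := fun q => L'.onto _
  choose z' hz' using hz1
  have hc1 : ∀ f : F, ∃ g : G, g • z (L.p f) = f := fun f => hL.trans _ _ (hz _)
  choose c hc using hc1
  have hfree : ∀ (g h : G) (x : F), g • x = h • x → g = h := by
    intro g h x hx
    have h1 : (h⁻¹ * g) • x = x := by rw [mul_smul, hx, inv_smul_smul]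
    have h2 := hL.free _ _ h1
    rw [inv_mul_eq_one] at h2
    exact h2.symm
  have hfree' : ∀ (g h : G) (x : F'), g • x = h • x → g = h := by
    intro g h x hx
    have h1 : (h⁻¹ * g) • x = x := by rw [mul_smul, hx, inv_smul_smul]
    have h2 := hL'.free _ _ h1
    rw [inv_mul_eq_one] at h2
    exact h2.symm
  let u : P → P₁ := fun q => L'.p (z' q)
  let φ : F → F' := fun f => c f • z' (L.p f)
  have hφp : ∀ f, L'.p (φ f) = u (L.p f) := fun f => hL'.gp _ _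
  have hφpt : ∀ f, L'.pt (φ f) = Ψ (L.pt f) := by
    intro f
    change L'.pt (c f • z' (L.p f)) = _
    rw [hL'.gpt, hz', ← hΨ, ← hL.gpt, hc]
  have hcg : ∀ (g : G) f, c (g • f) = g * c f := by
    intro g f
    apply hfree _ _ (z (L.p f))
    have h1 := hc (g • f)
    rw [hL.gp] at h1
    rw [h1, mul_smul, hc]
  have hφg : ∀ (g : G) f, φ (g • f) = g • φ f := by
    intro g f
    change c (g • f) • z' (L.p (g • f)) = g • c f • z' (L.p f)
    rw [hcg, hL.gp, mul_smul]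
  have hφz : ∀ q, φ (z q) = z' q := by
    intro q
    have h1 : c (z q) = 1 := by
      have h2 := hc (z q)
      rw [hz] at h2
      exact hL.free _ _ h2
    change c (z q) • z' (L.p (z q)) = z' q
    rw [h1, one_smul, hz]
  have huinj : Function.Injective u := by
    intro q1 q2 he
    obtain ⟨g, hg⟩ := hL'.trans (z' q1) (z' q2) he
    have h1 : L.pt (g • z q1) = L.pt (z q2) := by
      apply Ψ.injective
      rw [hL.gpt, hΨ, ← hz', ← hz', ← hg, hL'.gpt]
    have h2 := vf_same hX L h1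
    rw [hL.gp, hz, hz] at h2
    exact h2
  have husur : Function.Surjective u := by
    intro q'
    obtain ⟨f', hf'⟩ := hL'.onto q'
    obtain ⟨f, hf⟩ := L.onto (Ψ.symm (L'.pt f'))
    refine ⟨L.p f, ?_⟩
    rw [← hφp, ← hf']
    refine vf_same hY L' ?_
    rw [hφpt, hf, Equiv.apply_symm_apply]
  have hφinj : Function.Injective φ := by
    intro f1 f2 he
    have h1 : L.p f1 = L.p f2 := by
      apply huinj
      rw [← hφp, ← hφp, he]
    have h2 : c f1 = c f2 := by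
      apply hfree' _ _ (z' (L.p f1))
      have h3 : c f1 • z' (L.p f1) = c f2 • z' (L.p f2) := he
      rw [h3, h1]
    rw [← hc f1, ← hc f2, h1, h2]
  have hφsur : Function.Surjective φ := by
    intro f'
    obtain ⟨q, hq⟩ := husur (L'.p f')
    obtain ⟨g, hg⟩ := hL'.trans (z' q) f' hq
    exact ⟨g • z q, by rw [hφg, hφz, hg]⟩
  -- the inverses
  obtain ⟨u', hu1, hu2⟩ : ∃ u' : P₁ → P, (∀ q, u' (u q) = q) ∧ ∀ q, u (u' q) = q :=
    ⟨(Equiv.ofBijective u ⟨huinj, husur⟩).symm,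
      fun q => Equiv.ofBijective_symm_apply_apply u ⟨huinj, husur⟩ q,
      fun q => Equiv.ofBijective_apply_symm_apply u ⟨huinj, husur⟩ q⟩
  obtain ⟨φ', hφ1, hφ2⟩ : ∃ φ' : F' → F, (∀ q, φ' (φ q) = q) ∧ ∀ q, φ (φ' q) = q :=
    ⟨(Equiv.ofBijective φ ⟨hφinj, hφsur⟩).symm,
      fun q => Equiv.ofBijective_symm_apply_apply φ ⟨hφinj, hφsur⟩ q,
      fun q => Equiv.ofBijective_apply_symm_apply φ ⟨hφinj, hφsur⟩ q⟩
  obtain ⟨w, I⟩ := vfiso_w hL hL' (Ψ := Ψ) (fun x y h => (hU x y).1 h) hφp hφg hφpt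
  obtain ⟨w', I'⟩ := vfiso_w (Ψ := Ψ.symm) (u := u') (φ := φ') hL' hL
    (fun x y h => (hU _ _).2 (by rw [Equiv.apply_symm_apply, Equiv.apply_symm_apply]; exact h))
    (by
      intro f'
      have h1 := hφp (φ' f')
      rw [hφ2] at h1
      rw [h1, hu1])
    (by
      intro g f'
      apply hφinj
      rw [hφ2, hφg, hφ2])
    (by
      intro f'
      have h1 := hφpt (φ' f')
      rw [hφ2] at h1
      rw [h1, Equiv.symm_apply_apply])
  have hw1 : ∀ a, w' (w a) = a := I.inv' I' hu1 hφ1 hL.onto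
  have hw2 : ∀ a, w (w' a) = a := I'.inv' I hu2 hφ2 hL'.onto
  refine ⟨⟨u, u', hu1, hu2⟩, ⟨w, w', hw1, hw2⟩, ?_, ?_, ?_, ?_, ?_, ?_, ?_⟩
  · exact fun a => I.wo a
  · exact fun a => I.t' hL.onto a
  · exact fun p => I.e' hX.v0 hY.v0 hL.onto p
  · exact fun a => I.i' hX.v0 hY.v0 hL.onto a
  · exact fun a => I.mv' Ψ.injective hL.onto a
  · intro s a hsa
    exact I.ml' Ψ.injective hX.v0 hY.v0 hL.onto hsa
  · intro a b c d
    change Y.sq (w a) (w b) (w c) (w d) ↔ X.sq a b c d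
    constructor
    · intro hs
      have h1 := I'.sq' Ψ.symm.injective hY.v0 M₂ M hL'.onto hs
      rwa [hw1, hw1, hw1, hw1] at h1
    · exact fun hs => I.sq' Ψ.injective hX.v0 M M₂ hL.onto hs

end

end VTB
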