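import Pool.Agent.Lib.MP_32d917_al_vt.F03

/-!
# F05: groups with isomorphic unlabelled data are isomorphic
-/

set_option autoImplicit false

namespace VTB

open LatIso LatN LatF

section

variable {ι P A ι₁ P₁ A₁ : Type} {X : FD ι P A} {Y : FD ι₁ P₁ A₁}

theorem uiso_symm (h : UIso X Y) : UIso Y X := by
  obtain ⟨f, g, h1, h2, h3, h4, h5, h6, h7⟩ := h
  refine ⟨f.symm, g.symm, ?_, ?_, ?_, ?_, ?_, ?_, ?_⟩
  · intro a
    rw [Equiv.eq_symm_apply, ← h1, Equiv.apply_symm_apply]
  · intro a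
    rw [Equiv.eq_symm_apply, ← h2, Equiv.apply_symm_apply]
  · intro p
    rw [Equiv.eq_symm_apply, ← h3, Equiv.apply_symm_apply]
  · intro a
    rw [Equiv.eq_symm_apply, ← h4, Equiv.apply_symm_apply]
  · intro a
    rw [← h5, Equiv.apply_symm_apply]
  · intro s a hl
    rw [Equiv.eq_symm_apply, ← h6, Equiv.apply_symm_apply, Equiv.apply_symm_apply]
    refine ⟨fun hm => hl.1 ?_, ?_⟩
    · rw [← h5, Equiv.apply_symm_apply] at hm
      exact hm
    · apply f.injective
      rw [← h1, ← h2, Equiv.apply_symm_apply, Equiv.apply_symm_apply]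
      exact hl.2
  · intro a b c d
    rw [← h7, Equiv.apply_symm_apply, Equiv.apply_symm_apply, Equiv.apply_symm_apply,
      Equiv.apply_symm_apply]

theorem uiso_hom (f : P ≃ P₁) (g : A ≃ A₁) (h1 : ∀ a, Y.o (g a) = f (X.o a))
    (h2 : ∀ a, Y.t (g a) = f (X.t a)) (h3 : ∀ p, Y.e (f p) = g (X.e p))
    (h4 : ∀ a, Y.i (g a) = g (X.i a)) (h5 : ∀ a, Y.mv (g a) ↔ X.mv a)
    (h6 : ∀ s a, X.lc s a → Y.ml (g s) (g a) = g (X.ml s a))
    (h7 : ∀ a b c d, X.sq a b c d → Y.sq (g a) (g b) (g c) (g d)) {p0 : P} {δ : P → A}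
    {p0' : P₁} {δ' : P₁ → A₁} (hp : f p0 = p0') (hδ : ∀ q, δ' (f q) = g (δ q)) :
    ∃ F : Gam X p0 δ →* Gam Y p0' δ', ∀ a : A,
      F (PresentedGroup.of a) = PresentedGroup.of (g a) := by
  have hrel : ∀ r ∈ {r | Rel X p0 δ r}, FreeGroup.lift (fun a : A =>
      (PresentedGroup.of (g a) : Gam Y p0' δ')) r = 1 := by
    have hm : ∀ w : FreeGroup A₁, Rel Y p0' δ' w →
        (PresentedGroup.mk {r | Rel Y p0' δ' r} w) = 1 := by
      intro w hw
      rw [PresentedGroup.mk_eq_one_iff]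
      exact Subgroup.subset_normalClosure hw
    have hl : ∀ w : FreeGroup A, FreeGroup.lift (fun a : A =>
        (PresentedGroup.of (g a) : Gam Y p0' δ')) w =
        PresentedGroup.mk {r | Rel Y p0' δ' r}
          (FreeGroup.map g w) := by
      intro w
      have : FreeGroup.lift (fun a : A =>
        (PresentedGroup.of (g a) : Gam Y p0' δ')) =
        (PresentedGroup.mk {r | Rel Y p0' δ' r}).comp
          (FreeGroup.map g) := by
        apply FreeGroup.ext_hom
        intro a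
        rw [FreeGroup.lift_apply_of, MonoidHom.comp_apply, FreeGroup.map.of]
        rfl
      rw [this, MonoidHom.comp_apply]
    intro w hw
    rw [hl]
    apply hm
    induction hw with
    | base w hw =>
      apply Rel.base
      induction hw with
      | one p =>
        rw [FreeGroup.map.of, ← h3]
        exact Rel0.one _
      | inv a =>
        rw [map_mul, FreeGroup.map.of, FreeGroup.map.of, ← h4]
        exact Rel0.inv _
      | ml s a hl =>
        rw [map_mul, map_mul, map_inv, FreeGroup.map.of, FreeGroup.map.of, FreeGroup.map.of,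
          ← h6 s a hl]
        refine Rel0.ml _ _ ⟨fun hm => hl.1 ((h5 s).1 hm), ?_⟩
        rw [h2, h1, hl.2]
      | sq a b c d hq =>
        rw [map_mul, map_mul, map_mul, map_inv, map_inv, FreeGroup.map.of, FreeGroup.map.of,
          FreeGroup.map.of, FreeGroup.map.of]
        exact Rel0.sq _ _ _ _ (h7 _ _ _ _ hq)
    | span q hq =>
      rw [FreeGroup.map.of, ← hδ]
      exact Rel.span (f q) (fun e => hq (f.injective (by rw [e, hp])))
  exact ⟨PresentedGroup.toGroup hrel, fun a => PresentedGroup.toGroup.of hrel⟩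

theorem uiso_gam (h : UIso X Y) {p0 : P} {δ : P → A} {r : P → ℕ} (hs : LatF.Span X p0 δ r) :
    ∃ p0' δ' r', LatF.Span Y p0' δ' r' ∧ Nonempty (Gam X p0 δ ≃* Gam Y p0' δ') := by
  obtain ⟨f, g, h1, h2, h3, h4, h5, h6, h7⟩ := h
  refine ⟨f p0, fun q => g (δ (f.symm q)), fun q => r (f.symm q), ?_, ?_⟩
  · intro q hq
    have hq' : f.symm q ≠ p0 := fun e => hq (by rw [← e, Equiv.apply_symm_apply])
    obtain ⟨k1, k2⟩ := hs _ hq'
    refine ⟨by rw [h2, k1, Equiv.apply_symm_apply], ?_⟩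
    show r (f.symm (Y.o (g (δ (f.symm q))))) < r (f.symm q)
    rw [h1, Equiv.symm_apply_apply]
    exact k2
  · have i1 : ∀ a, X.o (g.symm a) = f.symm (Y.o a) := by
      intro a
      rw [Equiv.eq_symm_apply, ← h1, Equiv.apply_symm_apply]
    have i2 : ∀ a, X.t (g.symm a) = f.symm (Y.t a) := by
      intro a
      rw [Equiv.eq_symm_apply, ← h2, Equiv.apply_symm_apply]
    have i3 : ∀ p, X.e (f.symm p) = g.symm (Y.e p) := by
      intro p
      rw [Equiv.eq_symm_apply, ← h3, Equiv.apply_symm_apply]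
    have i4 : ∀ a, X.i (g.symm a) = g.symm (Y.i a) := by
      intro a
      rw [Equiv.eq_symm_apply, ← h4, Equiv.apply_symm_apply]
    have i5 : ∀ a, X.mv (g.symm a) ↔ Y.mv a := by
      intro a
      rw [← h5, Equiv.apply_symm_apply]
    have i6 : ∀ s a, Y.lc s a → X.ml (g.symm s) (g.symm a) = g.symm (Y.ml s a) := by
      intro s a hl
      rw [Equiv.eq_symm_apply, ← h6, Equiv.apply_symm_apply, Equiv.apply_symm_apply]
      refine ⟨fun hm => hl.1 ((i5 s).1 hm), ?_⟩
      rw [i2, i1, hl.2]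
    have i7 : ∀ a b c d, Y.sq a b c d → X.sq (g.symm a) (g.symm b) (g.symm c) (g.symm d) := by
      intro a b c d hq
      rw [← h7, Equiv.apply_symm_apply, Equiv.apply_symm_apply, Equiv.apply_symm_apply,
        Equiv.apply_symm_apply]
      exact hq
    obtain ⟨F, hF⟩ := uiso_hom (p0 := p0) (δ := δ) (p0' := f p0)
      (δ' := fun q => g (δ (f.symm q))) f g h1 h2 h3 h4 h5 h6 (fun a b c d => (h7 a b c d).2)
      rfl (fun q => by rw [Equiv.symm_apply_apply])
    obtain ⟨F', hF'⟩ := uiso_hom (p0' := p0) (δ' := δ) (p0 := f p0)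
      (δ := fun q => g (δ (f.symm q))) f.symm g.symm i1 i2 i3 i4 i5 i6 i7
      (Equiv.symm_apply_apply _ _) (fun q => by rw [Equiv.symm_apply_apply])
    refine ⟨MonoidHom.toMulEquiv F F' ?_ ?_⟩
    · apply PresentedGroup.ext
      intro a
      rw [MonoidHom.comp_apply, hF, hF', Equiv.symm_apply_apply]
      rfl
    · apply PresentedGroup.ext
      intro a
      rw [MonoidHom.comp_apply, hF', hF, Equiv.apply_symm_apply]
      rfl

/-- the number of labels of a complex with finite data is finite -/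
theorem vf_finι {G : Type} [Group G] [Finite ι] [Nonempty P] {Pt V ι' : Type} [MulAction G Pt]
    [MulAction G V] [MulAction G ι'] {κ : V → ι'} {S : SimpleGraph V}
    {co : Pt → ∀ i, Fib κ i} {Γ : SimpleGraph ι} {N : P → ι → Prop} {Γ' : SimpleGraph ι'}
    {N' : Pt → ι' → Prop} (h : IsVCov G Γ' κ S co N' Γ N X) : Finite ι' := by
  obtain ⟨_, _, F, _, L, _, hL⟩ := h
  obtain ⟨p⟩ := (inferInstance : Nonempty P)
  obtain ⟨f, _⟩ := hL.onto p
  exact Finite.of_surjective (L.lam f) (L.bij f).2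

theorem hasVCov_gam {G : Type} [Group G] [Finite ι] {Γ : SimpleGraph ι} {N : P → ι → Prop}
    (h : HasVCov G Γ N X) {p0 : P} {δ : P → A} {r : P → ℕ} (hs : LatF.Span X p0 δ r) :
    Nonempty (G ≃* Gam X p0 δ) := by
  obtain ⟨Pt, V, ι', _, _, _, Γ', κ, S, co, N', h⟩ := h
  haveI : Nonempty P := ⟨p0⟩
  haveI := vf_finι h
  haveI := Fintype.ofFinite ι'
  exact v_cov_gam h hs

/-- groups with isomorphic data are isomorphic -/
theorem v_unique {G G' : Type} [Group G] [Group G'] [Finite ι] [Finite ι₁] {Γ : SimpleGraph ι}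
    {N : P → ι → Prop} {Γ₁ : SimpleGraph ι₁} {N₁ : P₁ → ι₁ → Prop} (h : HasVCov G Γ N X)
    (h' : HasVCov G' Γ₁ N₁ Y) (hs : ∃ p0 δ r, LatF.Span X p0 δ r) (hu : UIso X Y) :
    Nonempty (G ≃* G') := by
  obtain ⟨p0, δ, r, hs⟩ := hs
  obtain ⟨p0', δ', r', hs', ⟨e⟩⟩ := uiso_gam hu hs
  obtain ⟨e1⟩ := hasVCov_gam h hs
  obtain ⟨e2⟩ := hasVCov_gam h' hs'
  exact ⟨e1.trans (e.trans e2.symm)⟩

end

end VTB
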