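import Pool.Agent.Lib.MP_32d917_al_vt.F01

/-!
# F06: parallel arrows = same orbit of oriented edges

Adapt F/PAR of MP_32d917_al (`vE` = `mvE`; `val_` lemmas are now `vv_` lemmas of WVAL; `f_induct_j` is replaced by paths).
`vE_eqv`: the labels are equal (`vE_kap`), so `act f a`, `act f b` are over the same point (`M.inj`), `vf_eqv`. `vE_ex`: `vf_movep`.
`v_par_iff`: (⟹) induction on `Par` as in PAR. (⟸) as in PAR we may assume `vE L f a = vE L f' a'` (replace `f'` by `g⁻¹ • f'`). Let `j = L.lam f (X.ty a)`, `E = {second vertex}`. By `vf_spath` (M, hypotheses from `L.mo`) there is a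
path from `pt f` to `pt f'` of points with a step over this edge, its steps have labels `≠ j`. Consider the property of the point `z`: for every frame `f''` over `z` and every arrow `a''` at `f''` with `mv a''`, `vE L f'' a'' = vE L f a`: `Par X a a''`. At `pt f`: `f''` is obtained from `f` by a stationary arrow `s`
(`vf_stat`), `ml s a''` is an arrow at `f` with the same `vE`, so `= mr a s'` (`vE_eqv`), and `a'' = ml (i s) (ml s a'')`. Next point `w` of the path, label `k ≠ j`: let `f₁` be over `z`, `c` the arrow at `f₁` moving to `f''` (`vf_move`), `a₁` the arrow at `f₁` over the edge (it exists since there is a step over the edge at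
`z`: `vf_movep`); `a₁`, `c`, `a''` are three sides of a square of points: `act (act f₁ c) a''` has the coordinates of `act f₁ a₁` except `k`; so there is an arrow `b` from `act f₁ a₁` to `act (act f₁ c) a''` (`L.sur`), `SqT X a₁ b c a''` holds (types from `act_lam`, `bij`), `L.sq_of` gives `sq a₁ b c a''`, so
`Par X a a''` by the rule `sq`.
-/

set_option autoImplicit false

namespace VTB

open LatIso LatN LatF

section

variable {ι P A : Type} {X : FD ι P A} {Pt V ι' F : Type} {κ : V → ι'} {S S' : SimpleGraph V}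
  {co : Pt → ∀ i, Fib κ i} {Γ : SimpleGraph ι} {N : P → ι → Prop} {Γ' : SimpleGraph ι'}
  {N' : Pt → ι' → Prop}

/-- the oriented edge moved by the arrow `a` at the frame `f` -/
def vE (L : VF X (comp κ S) co F) (f : F) (a : A) : V × V :=
  ((co (L.pt f) (L.lam f (X.ty a))).1, (co (L.pt (L.act f a)) (L.lam f (X.ty a))).1)

theorem vE_smul {G : Type} [Group G] [MulAction G Pt] [MulAction G V] [MulAction G ι']
    [MulAction G F] (hP : VPre G Γ' κ S co N') {L : VF X (comp κ S) co F} (hL : VCov G L)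
    (g : G) (f : F) (a : A) (ho : X.o a = L.p f) :
    vE L (g • f) a = (g • (vE L f a).1, g • (vE L f a).2) := by
  unfold vE
  rw [hL.glam, hL.gact g f a ho, hL.gpt, hL.gpt, hP.gco, hP.gco]

theorem vE_ml (hX : VV0 Γ N X) (L : VF X (comp κ S) co F) {f : F} {s a : A}
    (ho : X.o s = L.p f) (hs : X.lc s a) (hm : X.mv a) :
    vE L (L.act f s) a = vE L f (X.ml s a) := by
  have h1 : L.lam (L.act f s) (X.ty a) = L.lam f (X.ty (X.ml s a)) := by
    rw [← hX.mly s a hs hm, L.act_lam f s ho]
  unfold vE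
  rw [h1, L.st f s ho hs.1, L.act_ml f s a ho hs]

theorem vE_mr (hX : VV0 Γ N X) (L : VF X (comp κ S) co F) {f : F} {a s : A}
    (ho : X.o a = L.p f) (hs : X.rc a s) (hm : X.mv a) : vE L f (X.mr a s) = vE L f a := by
  have h2 : X.o s = L.p (L.act f a) := by rw [L.act_p f a ho]; exact hs.2
  unfold vE
  rw [vv_mry hX hs hm, vf_act_mr hX L ho hs, L.st (L.act f a) s h2 hs.1]

theorem vE_sq (hX : VV0 Γ N X) (L : VF X (comp κ S) co F) {f : F} {a b c d : A}
    (ho : X.o a = L.p f) (hs : X.sq a b c d) : vE L (L.act f c) d = vE L f a := by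
  have T := hX.sqT _ _ _ _ hs
  have hc : X.o c = L.p f := by rw [← T.oac]; exact ho
  have h1 : L.lam (L.act f c) (X.ty d) = L.lam f (X.ty a) := by rw [T.tyd, L.act_lam f c hc]
  have h2 : L.lam f (X.ty a) ≠ L.lam f (X.ty c) := fun h => T.ne ((L.bij f).1 h)
  have h3 := (L.mo f c hc T.mc).2 (L.lam f (X.ty a)) h2
  have hb : X.o b = L.p (L.act f a) := by rw [L.act_p f a ho]; exact T.tab.symm
  have h4 : L.lam (L.act f a) (X.ty b) = L.lam f (X.ty c) := by rw [T.tyb, L.act_lam f a ho]
  have h5 := (L.mo (L.act f a) b hb T.mb).2 (L.lam f (X.ty a)) (by rw [h4]; exact h2)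
  have h6 := L.act_sq f a b c d ho hs
  unfold vE
  rw [h1, h3, ← h6, h5]

theorem vE_kap (L : VF X (comp κ S) co F) (f : F) (a : A) :
    κ (vE L f a).1 = L.lam f (X.ty a) := (co (L.pt f) (L.lam f (X.ty a))).2

theorem vE_adj (L : VF X (comp κ S) co F) {f : F} {a : A} (ho : X.o a = L.p f) (hm : X.mv a) :
    S.Adj (vE L f a).1 (vE L f a).2 := (L.mo f a ho hm).1

/-- the edge moved by the inverse arrow -/
theorem vE_rev (hX : VV0 Γ N X) (L : VF X (comp κ S) co F) {f : F} {c : A}
    (ho : X.o c = L.p f) (hm : X.mv c) :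
    vE L (L.act f c) (X.i c) = ((vE L f c).2, (vE L f c).1) := by
  unfold vE
  rw [vf_lam_i hX L ho hm, L.act_i f c ho]

theorem vE_eqv (M : MS1 Γ' (comp κ S) co N') (hX : VV0 Γ N X) (L : VF X (comp κ S) co F)
    {f : F} {a b : A} (ha : X.o a = L.p f) (hb : X.o b = L.p f) (hm : X.mv a) (hn : X.mv b)
    (he : vE L f a = vE L f b) : ∃ s, X.rc a s ∧ b = X.mr a s := by
  have h2 : (co (L.pt (L.act f a)) (L.lam f (X.ty a))).1 =
      (co (L.pt (L.act f b)) (L.lam f (X.ty b))).1 := congrArg Prod.snd he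
  have h3 : L.lam f (X.ty a) = L.lam f (X.ty b) := by
    rw [← vE_kap L f a, ← vE_kap L f b, he]
  refine vf_eqv hX L ha hb (M.inj _ _ fun i => ?_)
  by_cases hi : i = L.lam f (X.ty a)
  · subst hi
    apply Subtype.ext
    rw [h2, ← h3]
  · rw [(L.mo f a ha hm).2 i hi, (L.mo f b hb hn).2 i (by rw [← h3]; exact hi)]

/-- the arrow over a step -/
theorem vE_ex (L : VF X (comp κ S) co F) {f : F} {j : ι'} {y : Pt}
    (hy : VSt (comp κ S) co j (L.pt f) y) :
    ∃ a, X.o a = L.p f ∧ X.mv a ∧ L.lam f (X.ty a) = j ∧ L.pt (L.act f a) = y ∧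
      vE L f a = ((co (L.pt f) j).1, (co y j).1) := by
  obtain ⟨a, h1, h2, h3, h4⟩ := vf_movep L hy
  refine ⟨a, h1, h2, h4, h3, ?_⟩
  unfold vE
  rw [h3, h4]

end

section

variable {ι P A : Type} {X : FD ι P A} {G : Type} [Group G] {Pt V ι' : Type} [Fintype ι']
  [MulAction G Pt] [MulAction G V] [MulAction G ι'] {κ : V → ι'} {S : SimpleGraph V}
  {co : Pt → ∀ i, Fib κ i} {Γ : SimpleGraph ι} {N : P → ι → Prop} {Γ' : SimpleGraph ι'}
  {N' : Pt → ι' → Prop} {F : Type} [MulAction G F]

/-- arrows over the same edge of the forest are parallel -/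
private theorem F06_par (M : MS1 Γ' (comp κ S) co N') (hX : VV0 Γ N X)
    (L : VF X (comp κ S) co F) {f f' : F} {a a' : A} (ha : X.o a = L.p f) (ha' : X.o a' = L.p f')
    (hm : X.mv a) (hm' : X.mv a') (he : vE L f a = vE L f' a') : Par X a a' := by
  obtain ⟨j, hj⟩ : ∃ j, j = L.lam f (X.ty a) := ⟨_, rfl⟩
  have hj' : L.lam f' (X.ty a') = j := by
    rw [hj, ← vE_kap L f a, ← vE_kap L f' a', he]
  have hmo := L.mo f a ha hm
  have hmo' := L.mo f' a' ha' hm'
  have he1 : co (L.pt f) j = co (L.pt f') j := by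
    apply Subtype.ext
    have h1 : (co (L.pt f) (L.lam f (X.ty a))).1 = (co (L.pt f') (L.lam f' (X.ty a'))).1 :=
      congrArg Prod.fst he
    rw [hj', ← hj] at h1
    exact h1
  have he2 : co (L.pt (L.act f' a')) j = co (L.pt (L.act f a)) j := by
    apply Subtype.ext
    have h1 : (co (L.pt (L.act f a)) (L.lam f (X.ty a))).1 =
        (co (L.pt (L.act f' a')) (L.lam f' (X.ty a'))).1 := congrArg Prod.snd he
    rw [hj', ← hj] at h1
    exact h1.symm
  rw [← hj] at hmo
  rw [hj'] at hmo'
  have hpath := vf_spath M he1 {co (L.pt (L.act f a)) j} ⟨_, rfl⟩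
    (by rintro e rfl; exact ⟨_, hmo, rfl⟩) (by rintro e rfl; exact ⟨_, hmo', he2⟩)
  have key : ∀ z, Relation.ReflTransGen (fun z w =>
      (∀ e ∈ ({co (L.pt (L.act f a)) j} : Set (Fib κ j)),
        ∃ z', VSt (comp κ S) co j z z' ∧ co z' j = e) ∧
      (∀ e ∈ ({co (L.pt (L.act f a)) j} : Set (Fib κ j)),
        ∃ w', VSt (comp κ S) co j w w' ∧ co w' j = e) ∧
      ∃ k, k ≠ j ∧ VSt (comp κ S) co k z w) (L.pt f) z →
      ∀ f'' a'', L.pt f'' = z → X.o a'' = L.p f'' → X.mv a'' → vE L f'' a'' = vE L f a →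
        Par X a a'' := by
    intro z hz
    induction hz with
    | refl =>
      intro f'' a'' hf ho hma hE
      obtain ⟨s, h1, h2, h3⟩ := vf_stat L hf
      have hl : X.lc s a'' := ⟨h2, by rw [ho, ← h3, L.act_p f s h1]⟩
      have h4 : vE L f (X.ml s a'') = vE L f a := by
        rw [← vE_ml hX L h1 hl hma, h3, hE]
      obtain ⟨s', h5, h6⟩ := vE_eqv M hX L ha (b := X.ml s a'') (by rw [hX.mlo _ _ hl, h1]) hm
        ((hX.mlm _ _ hl).2 hma) h4.symm
      rw [← vv_mli hX hl, h6]
      exact Par.ml _ _ (Par.mr a s' Par.refl h5) (h6 ▸ vv_ilc hX hl)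
    | @tail z w _ hzw ih =>
      intro f'' a'' hf ho hma hE
      obtain ⟨hz1, _, k, hk, hs⟩ := hzw
      obtain ⟨f1, rfl⟩ := L.onto z
      subst hf
      obtain ⟨c, c1, c2, c3, c4⟩ := vf_move L hs
      obtain ⟨z', hz', hz2⟩ := hz1 _ rfl
      obtain ⟨a1, b1, b2, b3, b4, b5⟩ := vE_ex L hz'
      have hja : L.lam f'' (X.ty a'') = j := by
        rw [hj, ← vE_kap L f a, ← vE_kap L f'' a'', hE]
      have hE1 : (co (L.pt f'') j).1 = (co (L.pt f) j).1 := by
        have h1 : (co (L.pt f'') (L.lam f'' (X.ty a''))).1 =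
          (co (L.pt f) (L.lam f (X.ty a))).1 := congrArg Prod.fst hE
        rw [hja, ← hj] at h1
        exact h1
      have hE2 : co (L.pt (L.act f'' a'')) j = co (L.pt (L.act f a)) j := by
        apply Subtype.ext
        have h1 : (co (L.pt (L.act f'' a'')) (L.lam f'' (X.ty a''))).1 =
          (co (L.pt (L.act f a)) (L.lam f (X.ty a))).1 := congrArg Prod.snd hE
        rw [hja, ← hj] at h1
        exact h1
      have hE3 : vE L f1 a1 = vE L f a := by
        rw [b5]
        unfold vE
        rw [← hj, hz2]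
        refine Prod.ext ?_ rfl
        show (co (L.pt f1) j).1 = (co (L.pt f) j).1
        rw [← hE1, hs.2 j (Ne.symm hk)]
      have h1 := ih f1 a1 rfl b1 b2 hE3
      have hmo2 := L.mo f'' a'' ho hma
      rw [hja] at hmo2
      have hst : VSt (comp κ S) co k (L.pt (L.act f1 a1)) (L.pt (L.act f'' a'')) := by
        rw [b4]
        constructor
        · rw [hz'.2 k hk, hmo2.2 k hk]
          exact hs.1
        · intro i hi
          by_cases hij : i = j
          · subst hij
            rw [hE2, hz2]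
          · rw [hmo2.2 i hij, hz'.2 i hij]
            exact hs.2 i hi
      obtain ⟨b, d1, d2, d3, d4⟩ := vf_move L hst
      have hp1 : L.p (L.act f1 a1) = X.t a1 := L.act_p f1 a1 b1
      have hp2 : L.p f'' = X.t c := by rw [← c3]; exact L.act_p f1 c c1
      have hT : SqT X a1 b c a'' :=
        { ma := b2
          mb := d2
          mc := c2
          md := hma
          oac := by rw [b1, c1]
          tab := by rw [d1, hp1]
          tcd := by rw [ho, hp2]
          tbd := by
            rw [← L.act_p f'' a'' ho, ← L.act_p (L.act f1 a1) b d1, d3]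
          ne := by
            intro h
            apply hk
            rw [← c4, ← b3, h]
          tyb := by
            apply (L.bij (L.act f1 a1)).1
            rw [d4, L.act_lam f1 a1 b1, c4]
          tyd := by
            apply (L.bij f'').1
            have h2 := L.act_lam f1 c c1 (X.ty a1)
            rw [c3] at h2
            rw [hja, h2, b3] }
      have hsq := L.sq_of f1 a1 b c a'' b1 hT (by rw [d3, c3])
      exact Par.sq a1 b c a'' h1 hsq
  exact key _ hpath f' a' rfl ha' hm' he.symm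

theorem v_par_iff (hP : VPre G Γ' κ S co N') (hX : VV0 Γ N X) {L : VF X (comp κ S) co F}
    (hL : VCov G L) (f f' : F) (a a' : A) (ha : X.o a = L.p f) (ha' : X.o a' = L.p f')
    (hm : X.mv a) (hm' : X.mv a') :
    Par X a a' ↔ ∃ g : G, g • (vE L f a).1 = (vE L f' a').1 ∧
      g • (vE L f a).2 = (vE L f' a').2 := by
  constructor
  · intro hPar
    have key : ∀ a'', Par X a a'' → X.mv a'' ∧ ∀ f'', X.o a'' = L.p f'' →
        ∃ g : G, g • (vE L f a).1 = (vE L f'' a'').1 ∧
          g • (vE L f a).2 = (vE L f'' a'').2 := by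
      intro a'' h
      induction h with
      | refl =>
        refine ⟨hm, fun f'' hf => ?_⟩
        obtain ⟨g, hg⟩ := hL.trans f f'' (by rw [← ha, hf])
        refine ⟨g, ?_⟩
        rw [← hg, vE_smul hP hL g f a ha]
        exact ⟨rfl, rfl⟩
      | ml a1 s h1 hs ih =>
        obtain ⟨ih1, ih2⟩ := ih
        refine ⟨(hX.mlm _ _ hs).2 ih1, fun f'' hf => ?_⟩
        rw [hX.mlo _ _ hs] at hf
        rw [← vE_ml hX L hf hs ih1]
        exact ih2 (L.act f'' s) (by rw [L.act_p f'' s hf]; exact hs.2.symm)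
      | mr a1 s h1 hs ih =>
        obtain ⟨ih1, ih2⟩ := ih
        refine ⟨(vv_mrm hX hs).2 ih1, fun f'' hf => ?_⟩
        rw [vv_mro hX hs] at hf
        rw [vE_mr hX L hf hs ih1]
        exact ih2 f'' hf
      | sq a1 b c d h1 hs ih =>
        obtain ⟨ih1, ih2⟩ := ih
        have T := hX.sqT _ _ _ _ hs
        refine ⟨T.md, fun f'' hf => ?_⟩
        have h2 : X.o (X.i c) = L.p f'' := by rw [hX.oi, T.tcd, hf]
        have h3 : L.p (L.act f'' (X.i c)) = X.o c := by rw [L.act_p f'' (X.i c) h2, hX.ti]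
        have h4 : L.act (L.act f'' (X.i c)) c = f'' := by
          have h5 := L.act_i f'' (X.i c) h2
          rwa [hX.ii] at h5
        have h6 : X.o a1 = L.p (L.act f'' (X.i c)) := by rw [h3]; exact T.oac
        have h7 := vE_sq hX L h6 hs
        rw [h4] at h7
        rw [h7]
        exact ih2 _ h6
    exact (key a' hPar).2 f' ha'
  · rintro ⟨g, hg1, hg2⟩
    refine F06_par hP.ms hX L (f := g • f) (by rw [hL.gp]; exact ha) ha' hm hm' ?_
    rw [vE_smul hP hL g f a ha]
    exact Prod.ext hg1 hg2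

end

end VTB
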