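import Pool.Agent.Lib.MP_32d917_al_vt.F06

/-!
# F07: pairs of parallel arrows

Adapt F/PARB of MP_32d917_al; for (⟸) the path of `vf_spath` with the set `E` of the two second vertices, exactly as in the proof of `v_par_iff` (F06), for pairs: at every
point of the path there are steps over both edges; the same `c` for both squares. `v_par2_mv` as `FLEG_par2` in F/FLEG.
-/

set_option autoImplicit false

namespace VTB

open LatIso LatN LatF

section

variable {ι P A : Type} {X : FD ι P A} {Γ : SimpleGraph ι} {N : P → ι → Prop}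

theorem v_par_mv (hX : VV0 Γ N X) {a a' : A} (h : Par X a a') (hm : X.mv a) : X.mv a' := by
  induction h with
  | refl => exact hm
  | ml a' s _ hs ih => exact (hX.mlm s a' hs).2 ih
  | mr a' s _ hs ih => exact (vv_mrm hX hs).2 ih
  | sq a' b c d _ hs ih => exact (hX.sqT _ _ _ _ hs).md

theorem v_par2_mv (hX : VV0 Γ N X) {a b a' b' : A} (h : Par2 X a b a' b') (ha : X.mv a)
    (hb : X.mv b) (ho : X.o a = X.o b) (ht : X.ty a = X.ty b) :
    X.mv a' ∧ X.mv b' ∧ X.o a' = X.o b' ∧ X.ty a' = X.ty b' := by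
  induction h with
  | refl => exact ⟨ha, hb, ho, ht⟩
  | ml a' b' s _ hs ih =>
    obtain ⟨h1, h2, h3, h4⟩ := ih
    have hs' : X.lc s b' := ⟨hs.1, hs.2.trans h3⟩
    refine ⟨(hX.mlm s a' hs).2 h1, (hX.mlm s b' hs').2 h2, ?_, ?_⟩
    · rw [hX.mlo s a' hs, hX.mlo s b' hs']
    · apply vv_pinj hX s
      rw [hX.mly s a' hs h1, hX.mly s b' hs' h2, h4]
  | mr1 a' b' s _ hs ih =>
    obtain ⟨h1, h2, h3, h4⟩ := ih
    exact ⟨(vv_mrm hX hs).2 h1, h2, (vv_mro hX hs).trans h3, (vv_mry hX hs h1).trans h4⟩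
  | mr2 a' b' s _ hs ih =>
    obtain ⟨h1, h2, h3, h4⟩ := ih
    exact ⟨h1, (vv_mrm hX hs).2 h2, h3.trans (vv_mro hX hs).symm,
      h4.trans (vv_mry hX hs h2).symm⟩
  | sq a' b' c c₁ c₂ d₁ d₂ _ hs1 hs2 ih =>
    obtain ⟨h1, h2, h3, h4⟩ := ih
    have t1 := hX.sqT _ _ _ _ hs1
    have t2 := hX.sqT _ _ _ _ hs2
    refine ⟨t1.md, t2.md, t1.tcd.symm.trans t2.tcd, ?_⟩
    rw [t1.tyd, t2.tyd, h4]

end

section

variable {ι P A : Type} {X : FD ι P A} {G : Type} [Group G] {Pt V ι' : Type} [Fintype ι']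
  [MulAction G Pt] [MulAction G V] [MulAction G ι'] {κ : V → ι'} {S : SimpleGraph V}
  {co : Pt → ∀ i, Fib κ i} {Γ : SimpleGraph ι} {N : P → ι → Prop} {Γ' : SimpleGraph ι'}
  {N' : Pt → ι' → Prop} {F : Type} [MulAction G F]

/-- at the next point of a path: the square over the step `c` with the arrow `a''` -/
private theorem F07_step (L : VF X (comp κ S) co F) {j k : ι'} (hk : k ≠ j)
    {f1 f'' : F} {a1 c a'' : A} {v w : V} (b1 : X.o a1 = L.p f1) (b2 : X.mv a1)
    (b3 : L.lam f1 (X.ty a1) = j) (bE : vE L f1 a1 = (v, w)) (c1 : X.o c = L.p f1) (c2 : X.mv c)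
    (c3 : L.act f1 c = f'') (c4 : L.lam f1 (X.ty c) = k) (ho : X.o a'' = L.p f'')
    (hma : X.mv a'') (hja : L.lam f'' (X.ty a'') = j) (hE : vE L f'' a'' = (v, w)) :
    ∃ b, X.sq a1 b c a'' := by
  have hmo1 := L.mo f1 a1 b1 b2
  have hmo2 := L.mo f'' a'' ho hma
  have hmoc := L.mo f1 c c1 c2
  rw [b3] at hmo1
  rw [hja] at hmo2
  rw [c4, c3] at hmoc
  have e1 : co (L.pt (L.act f1 a1)) j = co (L.pt (L.act f'' a'')) j := by
    apply Subtype.ext
    have h1 : (vE L f1 a1).2 = (vE L f'' a'').2 := by rw [bE, hE]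
    unfold vE at h1
    rw [b3, hja] at h1
    exact h1
  have hst : VSt (comp κ S) co k (L.pt (L.act f1 a1)) (L.pt (L.act f'' a'')) := by
    constructor
    · rw [hmo1.2 k hk, hmo2.2 k hk]
      exact hmoc.1
    · intro i hi
      by_cases hij : i = j
      · subst hij
        exact e1.symm
      · rw [hmo2.2 i hij, hmo1.2 i hij]
        exact hmoc.2 i hi
  obtain ⟨b, d1, d2, d3, d4⟩ := vf_move L hst
  have hp1 : L.p (L.act f1 a1) = X.t a1 := L.act_p f1 a1 b1
  have hp2 : L.p f'' = X.t c := by rw [← c3]; exact L.act_p f1 c c1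
  have hT : SqT X a1 b c a'' :=
    { ma := b2
      mb := d2
      mc := c2
      md := hma
      oac := by rw [b1, c1]
      tab := by rw [d1, hp1]
      tcd := by rw [ho, hp2]
      tbd := by
        rw [← L.act_p f'' a'' ho, ← L.act_p (L.act f1 a1) b d1, d3]
      ne := by
        intro h
        apply hk
        rw [← c4, ← b3, h]
      tyb := by
        apply (L.bij (L.act f1 a1)).1
        rw [d4, L.act_lam f1 a1 b1, c4]
      tyd := by
        apply (L.bij f'').1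
        have h2 := L.act_lam f1 c c1 (X.ty a1)
        rw [c3] at h2
        rw [hja, h2, b3] }
  exact ⟨b, L.sq_of f1 a1 b c a'' b1 hT (by rw [d3, c3])⟩

private theorem F07_par2 (M : MS1 Γ' (comp κ S) co N') (hX : VV0 Γ N X)
    (L : VF X (comp κ S) co F) {f f' : F} {a b a' b' : A} (ha : X.o a = L.p f)
    (hb : X.o b = L.p f) (ha' : X.o a' = L.p f') (hb' : X.o b' = L.p f') (hm : X.mv a)
    (hn : X.mv b) (hm' : X.mv a') (hn' : X.mv b') (ht : X.ty a = X.ty b)
    (ht' : X.ty a' = X.ty b') (he : vE L f a = vE L f' a') (he' : vE L f b = vE L f' b') :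
    Par2 X a b a' b' := by
  obtain ⟨j, hj⟩ : ∃ j, j = L.lam f (X.ty a) := ⟨_, rfl⟩
  have hj' : L.lam f' (X.ty a') = j := by
    rw [hj, ← vE_kap L f a, ← vE_kap L f' a', he]
  have hmo := L.mo f a ha hm
  have hmo' := L.mo f' a' ha' hm'
  have hno := L.mo f b hb hn
  have hno' := L.mo f' b' hb' hn'
  have he1 : co (L.pt f) j = co (L.pt f') j := by
    apply Subtype.ext
    have h1 : (co (L.pt f) (L.lam f (X.ty a))).1 = (co (L.pt f') (L.lam f' (X.ty a'))).1 :=
      congrArg Prod.fst he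
    rw [hj', ← hj] at h1
    exact h1
  have he2 : co (L.pt (L.act f' a')) j = co (L.pt (L.act f a)) j := by
    apply Subtype.ext
    have h1 : (co (L.pt (L.act f a)) (L.lam f (X.ty a))).1 =
        (co (L.pt (L.act f' a')) (L.lam f' (X.ty a'))).1 := congrArg Prod.snd he
    rw [hj', ← hj] at h1
    exact h1.symm
  have he3 : co (L.pt (L.act f' b')) j = co (L.pt (L.act f b)) j := by
    apply Subtype.ext
    have h1 : (co (L.pt (L.act f b)) (L.lam f (X.ty b))).1 =
        (co (L.pt (L.act f' b')) (L.lam f' (X.ty b'))).1 := congrArg Prod.snd he'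
    rw [← ht', hj', ← ht, ← hj] at h1
    exact h1.symm
  rw [← hj] at hmo
  rw [hj'] at hmo'
  rw [← ht, ← hj] at hno
  rw [← ht', hj'] at hno'
  have hpath := vf_spath M he1 {co (L.pt (L.act f a)) j, co (L.pt (L.act f b)) j}
    ⟨_, Or.inl rfl⟩
    (by
      rintro e (rfl | rfl)
      · exact ⟨_, hmo, rfl⟩
      · exact ⟨_, hno, rfl⟩)
    (by
      rintro e (rfl | rfl)
      · exact ⟨_, hmo', he2⟩
      · exact ⟨_, hno', he3⟩)
  have hvab : (vE L f a).1 = (vE L f b).1 := by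
    unfold vE
    rw [ht]
  have key : ∀ z, Relation.ReflTransGen (fun z w =>
      (∀ e ∈ ({co (L.pt (L.act f a)) j, co (L.pt (L.act f b)) j} : Set (Fib κ j)),
        ∃ z', VSt (comp κ S) co j z z' ∧ co z' j = e) ∧
      (∀ e ∈ ({co (L.pt (L.act f a)) j, co (L.pt (L.act f b)) j} : Set (Fib κ j)),
        ∃ w', VSt (comp κ S) co j w w' ∧ co w' j = e) ∧
      ∃ k, k ≠ j ∧ VSt (comp κ S) co k z w) (L.pt f) z →
      ∀ f'' a'' b'', L.pt f'' = z → X.o a'' = L.p f'' → X.o b'' = L.p f'' → X.mv a'' →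
        X.mv b'' → vE L f'' a'' = vE L f a → vE L f'' b'' = vE L f b →
        Par2 X a b a'' b'' := by
    intro z hz
    induction hz with
    | refl =>
      intro f'' a'' b'' hf ho ho' hma hmb hE hE'
      obtain ⟨s, h1, h2, h3⟩ := vf_stat L hf
      have hl : X.lc s a'' := ⟨h2, by rw [ho, ← h3, L.act_p f s h1]⟩
      have hl' : X.lc s b'' := ⟨h2, by rw [ho', ← h3, L.act_p f s h1]⟩
      have h4 : vE L f (X.ml s a'') = vE L f a := by
        rw [← vE_ml hX L h1 hl hma, h3, hE]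
      have h4' : vE L f (X.ml s b'') = vE L f b := by
        rw [← vE_ml hX L h1 hl' hmb, h3, hE']
      obtain ⟨s', h5, h6⟩ := vE_eqv M hX L ha (b := X.ml s a'') (by rw [hX.mlo _ _ hl, h1]) hm
        ((hX.mlm _ _ hl).2 hma) h4.symm
      obtain ⟨s'', h5', h6'⟩ := vE_eqv M hX L hb (b := X.ml s b'') (by rw [hX.mlo _ _ hl', h1])
        hn ((hX.mlm _ _ hl').2 hmb) h4'.symm
      have h7 : Par2 X a b (X.ml s a'') (X.ml s b'') := by
        rw [h6, h6']
        exact Par2.mr2 _ b s'' (Par2.mr1 a b s' Par2.refl h5) h5'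
      rw [← vv_mli hX hl, ← vv_mli hX hl']
      exact Par2.ml _ _ _ h7 (vv_ilc hX hl)
    | @tail z w _ hzw ih =>
      intro f'' a'' b'' hf ho ho' hma hmb hE hE'
      obtain ⟨hz1, _, k, hk, hs⟩ := hzw
      obtain ⟨f1, rfl⟩ := L.onto z
      subst hf
      obtain ⟨c, c1, c2, c3, c4⟩ := vf_move L hs
      obtain ⟨z1, hz1', hz2⟩ := hz1 _ (Or.inl rfl)
      obtain ⟨z3, hz3', hz4⟩ := hz1 _ (Or.inr rfl)
      obtain ⟨a1, b1, b2, b3, b4, b5⟩ := vE_ex L hz1'
      obtain ⟨a2, d1, d2, d3, d4, d5⟩ := vE_ex L hz3'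
      have hja : L.lam f'' (X.ty a'') = j := by
        rw [hj, ← vE_kap L f a, ← vE_kap L f'' a'', hE]
      have hjb : L.lam f'' (X.ty b'') = j := by
        rw [hj, ← vE_kap L f a, hvab, ← vE_kap L f'' b'', hE']
      have hE1 : (co (L.pt f1) j).1 = (co (L.pt f) j).1 := by
        have h1 : (co (L.pt f'') (L.lam f'' (X.ty a''))).1 =
          (co (L.pt f) (L.lam f (X.ty a))).1 := congrArg Prod.fst hE
        rw [hja, ← hj] at h1
        rw [← h1, hs.2 j (Ne.symm hk)]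
      have hE3 : vE L f1 a1 = vE L f a := by
        rw [b5]
        unfold vE
        rw [← hj, hz2, hE1]
      have hE4 : vE L f1 a2 = vE L f b := by
        rw [d5]
        unfold vE
        rw [← ht, ← hj, hz4, hE1]
      have h1 := ih f1 a1 a2 rfl b1 d1 b2 d2 hE3 hE4
      obtain ⟨e, he⟩ := F07_step L hk b1 b2 b3 (hE3.trans rfl) c1 c2 c3 c4 ho hma hja
        (hE.trans rfl)
      obtain ⟨e', he'⟩ := F07_step L hk d1 d2 d3 (hE4.trans rfl) c1 c2 c3 c4 ho' hmb hjb
        (hE'.trans rfl)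
      exact Par2.sq a1 a2 c e e' a'' b'' h1 he he'
  exact key _ hpath f' a' b' rfl ha' hb' hm' hn' he.symm he'.symm

theorem v_par2_iff (hP : VPre G Γ' κ S co N') (hX : VV0 Γ N X) {L : VF X (comp κ S) co F}
    (hL : VCov G L) (f f' : F) (a b a' b' : A) (ha : X.o a = L.p f) (hb : X.o b = L.p f)
    (ha' : X.o a' = L.p f') (hb' : X.o b' = L.p f') (hm : X.mv a) (hn : X.mv b)
    (hm' : X.mv a') (hn' : X.mv b') (ht : X.ty a = X.ty b) (ht' : X.ty a' = X.ty b') :
    Par2 X a b a' b' ↔ ∃ g : G, g • (vE L f a).1 = (vE L f' a').1 ∧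
      g • (vE L f a).2 = (vE L f' a').2 ∧ g • (vE L f b).2 = (vE L f' b').2 := by
  constructor
  · intro hPar
    have key : ∀ a'' b'', Par2 X a b a'' b'' → (X.mv a'' ∧ X.mv b'' ∧ X.o b'' = X.o a'') ∧
        ∀ f'', X.o a'' = L.p f'' →
        ∃ g : G, g • (vE L f a).1 = (vE L f'' a'').1 ∧
          g • (vE L f a).2 = (vE L f'' a'').2 ∧ g • (vE L f b).2 = (vE L f'' b'').2 := by
      intro a'' b'' h
      induction h with
      | refl =>
        refine ⟨⟨hm, hn, by rw [ha, hb]⟩, fun f'' hf => ?_⟩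
        obtain ⟨g, hg⟩ := hL.trans f f'' (by rw [← ha, hf])
        refine ⟨g, ?_⟩
        rw [← hg, vE_smul hP hL g f a ha, vE_smul hP hL g f b hb]
        exact ⟨rfl, rfl, rfl⟩
      | ml a1 b1 s h1 hs ih =>
        obtain ⟨⟨ih1, ih2, ih3⟩, ih4⟩ := ih
        have hs2 : X.lc s b1 := ⟨hs.1, by rw [ih3]; exact hs.2⟩
        refine ⟨⟨(hX.mlm _ _ hs).2 ih1, (hX.mlm _ _ hs2).2 ih2, by
          rw [hX.mlo _ _ hs, hX.mlo _ _ hs2]⟩, fun f'' hf => ?_⟩
        rw [hX.mlo _ _ hs] at hf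
        rw [← vE_ml hX L hf hs ih1, ← vE_ml hX L hf hs2 ih2]
        exact ih4 (L.act f'' s) (by rw [L.act_p f'' s hf]; exact hs.2.symm)
      | mr1 a1 b1 s h1 hs ih =>
        obtain ⟨⟨ih1, ih2, ih3⟩, ih4⟩ := ih
        refine ⟨⟨(vv_mrm hX hs).2 ih1, ih2, by rw [vv_mro hX hs, ih3]⟩, fun f'' hf => ?_⟩
        rw [vv_mro hX hs] at hf
        rw [vE_mr hX L hf hs ih1]
        exact ih4 f'' hf
      | mr2 a1 b1 s h1 hs ih =>
        obtain ⟨⟨ih1, ih2, ih3⟩, ih4⟩ := ih
        refine ⟨⟨ih1, (vv_mrm hX hs).2 ih2, by rw [vv_mro hX hs, ih3]⟩, fun f'' hf => ?_⟩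
        rw [vE_mr hX L (ih3.trans hf) hs ih2]
        exact ih4 f'' hf
      | sq a1 b1 c c1 c2 d1 d2 h1 hs hs' ih =>
        obtain ⟨⟨ih1, ih2, ih3⟩, ih4⟩ := ih
        have T := hX.sqT _ _ _ _ hs
        have T' := hX.sqT _ _ _ _ hs'
        refine ⟨⟨T.md, T'.md, by rw [← T.tcd, ← T'.tcd]⟩, fun f'' hf => ?_⟩
        have h2 : X.o (X.i c) = L.p f'' := by rw [hX.oi, T.tcd, hf]
        have h3 : L.p (L.act f'' (X.i c)) = X.o c := by rw [L.act_p f'' (X.i c) h2, hX.ti]
        have h4 : L.act (L.act f'' (X.i c)) c = f'' := by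
          have h5 := L.act_i f'' (X.i c) h2
          rwa [hX.ii] at h5
        have h6 : X.o a1 = L.p (L.act f'' (X.i c)) := by rw [h3]; exact T.oac
        have h6' : X.o b1 = L.p (L.act f'' (X.i c)) := by rw [h3]; exact T'.oac
        have h7 := vE_sq hX L h6 hs
        have h7' := vE_sq hX L h6' hs'
        rw [h4] at h7 h7'
        rw [h7, h7']
        exact ih4 _ h6
    exact (key a' b' hPar).2 f' ha'
  · rintro ⟨g, hg1, hg2, hg3⟩
    have hab : (vE L f a).1 = (vE L f b).1 := by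
      unfold vE
      rw [ht]
    have hab' : (vE L f' a').1 = (vE L f' b').1 := by
      unfold vE
      rw [ht']
    refine F07_par2 hP.ms hX L (f := g • f) (by rw [hL.gp]; exact ha) (by rw [hL.gp]; exact hb)
      ha' hb' hm hn hm' hn' ht ht' ?_ ?_
    · rw [vE_smul hP hL g f a ha]
      exact Prod.ext hg1 hg2
    · rw [vE_smul hP hL g f b hb]
      exact Prod.ext (by rw [← hab, ← hab']; exact hg1) hg3

end

end VTB
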