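import Pool.Agent.Lib.MP_32d917_al_vt.F07

/-!
# F08: slides inside a region and legal slides of the data

Adapt F/FLEG of MP_32d917_al. `v_legal_of_slide`: `VSl` gives points `x`, `y`, `z` with steps `x y`, `x z` of the same label; `f` a frame over `x`, `a`, `b` the arrows of `vE_ex`. `v_slide_of_legal`: `f` a frame over the origin of `a` (`hL.onto`),
`x = pt f`, `y = pt (act f a)`, `z = pt (act f b)`; `S'` is defined by the formula (irreflexive since `u ≠ x`: otherwise `vE L f a = vE L f b`, `Par X a b`). The conditions: `v_par_iff`, `v_par2_iff` as in FLEG. For the condition (if `g` fixes `v` and `x` then it fixes `u`): `g⁻¹ • f` or `g • f` is over a point `x'` with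
steps over `(v, x)` and `(v, g • u)`; the first is a common edge. One needs a step over `(v, g • u)` AT `pt f`: the two points `pt f`, `g • pt f` both have a step over the edge `(v, x)`, so they agree outside `lk j` (`strip_ag`), and the step over `(v, g • u)` at `g • pt f` can be pushed to `pt f` (`push`).
-/

set_option autoImplicit false

namespace VTB

open LatIso LatN LatF

section

variable {ι P A : Type} {X : FD ι P A} {G : Type} [Group G] {Pt V ι' : Type} [Fintype ι']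
  [MulAction G Pt] [MulAction G V] [MulAction G ι'] {κ : V → ι'} {S S' : SimpleGraph V}
  {co : Pt → ∀ i, Fib κ i} {Γ : SimpleGraph ι} {N : P → ι → Prop} {Γ' : SimpleGraph ι'}
  {N' : Pt → ι' → Prop} {F : Type}

/-- the slide of the arrow `a` over the arrow `b` is the slide of `S` to `S'` -/
def VSlAt (G : Type) [Group G] [MulAction G V] (L : VF X (comp κ S) co F) (S' : SimpleGraph V)
    (a b : A) : Prop :=
  ∃ f : F, X.o a = L.p f ∧ ∀ c d : V, S'.Adj c d ↔
    (S.Adj c d ∧ ∀ g : G, ¬ (g • (vE L f a).1 = c ∧ g • (vE L f a).2 = d) ∧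
      ¬ (g • (vE L f a).1 = d ∧ g • (vE L f a).2 = c)) ∨
    ∃ g : G, (g • (vE L f b).2 = c ∧ g • (vE L f a).2 = d) ∨
      (g • (vE L f b).2 = d ∧ g • (vE L f a).2 = c)

theorem v_legal_of_slide [MulAction G F] (hX : VV Γ N X) (hP : VPre G Γ' κ S co N')
    {L : VF X (comp κ S) co F} (hL : VCov G L) (hs : VSl G κ co S S') :
    ∃ a b : A, Legal X a b ∧ VSlAt G L S' a b := by
  classical
  obtain ⟨j, p, q, r, hpq, hpr, n1, n2, n3, hS'⟩ := hs
  have hX0 := hX.v0
  obtain ⟨f, rfl⟩ := L.onto p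
  obtain ⟨a, a1, a2, a3, a6, a4⟩ := vE_ex L hpq
  obtain ⟨b, b1, b2, b3, b6, b4⟩ := vE_ex L hpr
  have ht : X.ty a = X.ty b := (L.bij f).1 (a3.trans b3.symm)
  have hob : X.o a = X.o b := a1.trans b1.symm
  refine ⟨a, b, ⟨a2, b2, hob, ht, fun hp => ?_, fun hp => ?_, fun b' hp => ?_⟩, f, a1, ?_⟩
  · obtain ⟨g, g1, g2⟩ := (v_par_iff hP hX0 hL f f a b a1 b1 a2 b2).1 hp
    rw [a4, b4] at g1 g2
    exact n1 g ⟨g1, g2⟩
  · have ho : X.o (X.i b) = L.p (L.act f b) := by rw [hX0.oi, L.act_p _ _ b1]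
    obtain ⟨g, g1, g2⟩ := (v_par_iff hP hX0 hL f (L.act f b) a (X.i b) a1 ho a2
      ((hX0.mi b).2 b2)).1 hp
    rw [vE_rev hX0 L b1 b2, a4, b4] at g1 g2
    exact n2 g ⟨g1, g2⟩
  · obtain ⟨c1, c2, c3, c4⟩ := v_par2_mv hX0 hp a2 b2 hob ht
    have hob' : X.o b' = L.p f := c3.symm.trans a1
    obtain ⟨g, g1, g2, g3⟩ := (v_par2_iff hP hX0 hL f f a b a b' a1 b1 a1 hob' a2 b2 c1 c2 ht
      c4).1 hp
    rw [a4] at g1 g2
    rw [b4] at g3
    refine vE_eqv hP.ms hX0 L b1 hob' b2 c2 (Prod.ext ?_ ?_)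
    · have e1 : (vE L f b').1 = (vE L f a).1 := by
        unfold vE
        rw [c4]
      rw [e1, b4, a4]
    · rw [← g3, b4]
      exact (n3 g g1 g2).symm
  · intro c d
    rw [a4, b4]
    exact hS' c d

theorem v_slide_of_legal [MulAction G F] (hX : VV Γ N X) (hP : VPre G Γ' κ S co N')
    {L : VF X (comp κ S) co F} (hL : VCov G L) {a b : A} (hl : Legal X a b) :
    ∃ S' : SimpleGraph V, VSl G κ co S S' ∧ VSlAt G L S' a b := by
  classical
  have hX0 := hX.v0
  obtain ⟨f, hf⟩ := hL.onto (X.o a)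
  have a1 : X.o a = L.p f := hf.symm
  have b1 : X.o b = L.p f := hl.o.symm.trans a1
  obtain ⟨v, hv⟩ : ∃ v, v = (vE L f a).1 := ⟨_, rfl⟩
  obtain ⟨x, hx⟩ : ∃ x, x = (vE L f a).2 := ⟨_, rfl⟩
  obtain ⟨u, hu⟩ : ∃ u, u = (vE L f b).2 := ⟨_, rfl⟩
  have hbv : (vE L f b).1 = v := by
    rw [hv]
    unfold vE
    rw [hl.ty]
  have hvx : S.Adj v x := by
    rw [hv, hx]
    exact vE_adj L a1 hl.ma
  have hvu : S.Adj v u := by
    rw [← hbv, hu]
    exact vE_adj L b1 hl.mb
  have hux : u ≠ x := by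
    intro he
    apply hl.n1
    obtain ⟨s, s1, s2⟩ := vE_eqv hP.ms hX0 L a1 b1 hl.ma hl.mb
      (Prod.ext (by rw [← hv, hbv]) (by rw [← hx, ← hu, he]))
    rw [s2]
    exact Par.mr a s Par.refl s1
  let S' : SimpleGraph V :=
    { Adj := fun c d => (S.Adj c d ∧ ∀ g : G, ¬ (g • v = c ∧ g • x = d) ∧
          ¬ (g • v = d ∧ g • x = c)) ∨
        ∃ g : G, (g • u = c ∧ g • x = d) ∨ (g • u = d ∧ g • x = c)
      symm := ⟨by
        intro c d hcd
        rcases hcd with ⟨h1, h2⟩ | ⟨g, h1⟩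
        · exact Or.inl ⟨h1.symm, fun g => ⟨(h2 g).2, (h2 g).1⟩⟩
        · exact Or.inr ⟨g, h1.symm⟩⟩
      loopless := ⟨by
        intro c hc
        rcases hc with ⟨h1, _⟩ | ⟨g, ⟨h1, h2⟩ | ⟨h1, h2⟩⟩
        · exact h1.ne rfl
        · exact hux (smul_left_cancel g (h1.trans h2.symm))
        · exact hux (smul_left_cancel g (h1.trans h2.symm))⟩ }
  have hst := L.mo f a a1 hl.ma
  have hst' := L.mo f b b1 hl.mb
  rw [← hl.ty] at hst'
  have e1 : (co (L.pt f) (L.lam f (X.ty a))).1 = v := by rw [hv]; rfl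
  have e2 : (co (L.pt (L.act f a)) (L.lam f (X.ty a))).1 = x := by rw [hx]; rfl
  have e3 : (co (L.pt (L.act f b)) (L.lam f (X.ty a))).1 = u := by rw [hu, hl.ty]; rfl
  refine ⟨S', ⟨L.lam f (X.ty a), _, _, _, hst, hst', ?_⟩, f, a1, fun c d => ?_⟩
  · rw [e1, e2, e3]
    refine ⟨fun g hg => ?_, fun g hg => ?_, fun g g1 g2 => ?_, fun c d => Iff.rfl⟩
    · apply hl.n1
      refine (v_par_iff hP hX0 hL f f a b a1 b1 hl.ma hl.mb).2 ⟨g, ?_, ?_⟩
      · rw [← hv, hbv]
        exact hg.1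
      · rw [← hx, ← hu]
        exact hg.2
    · apply hl.n2
      have ho : X.o (X.i b) = L.p (L.act f b) := by rw [hX0.oi, L.act_p _ _ b1]
      refine (v_par_iff hP hX0 hL f (L.act f b) a (X.i b) a1 ho hl.ma
        ((hX0.mi b).2 hl.mb)).2 ⟨g, ?_, ?_⟩
      · rw [vE_rev hX0 L b1 hl.mb, ← hv, ← hu]
        exact hg.1
      · rw [vE_rev hX0 L b1 hl.mb, ← hx, hbv]
        exact hg.2
    · -- the step over `(v, g • u)` at the point of `f`
      obtain ⟨j, hj⟩ : ∃ j, j = L.lam f (X.ty a) := ⟨_, rfl⟩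
      rw [← hj] at hst hst' e1 e2 e3
      have hgj : g • j = j := by
        have h1 : κ v = j := by rw [← e1]; exact (co (L.pt f) j).2
        rw [← h1, ← hP.act.kap, g1]
      have gco : ∀ y, (co (g • y) j).1 = g • (co y j).1 := by
        intro y
        have h1 := hP.gco g y j
        rwa [hgj] at h1
      have gst : ∀ y z, VSt (comp κ S) co j y z → VSt (comp κ S) co j (g • y) (g • z) := by
        intro y z hyz
        refine ⟨?_, fun k hk => ?_⟩
        · show S.Adj _ _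
          rw [gco, gco]
          exact hP.act.adj g _ _ hyz.1
        · apply Subtype.ext
          obtain ⟨k', rfl⟩ : ∃ k', g • k' = k := ⟨g⁻¹ • k, smul_inv_smul g k⟩
          have hk' : k' ≠ j := fun h => hk (by rw [h, hgj])
          rw [hP.gco, hP.gco, hyz.2 k' hk']
      have hag : Ag co (RaagIso.lk Γ' j) (g • L.pt f) (L.pt f) := by
        refine strip_ag hP.ms (gst _ _ hst) hst ?_ ?_
        · apply Subtype.ext
          rw [gco, e1, g1]
        · apply Subtype.ext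
          rw [gco, e2, g2]
      obtain ⟨y', hy1, hy2, _⟩ := push hP.ms (gst _ _ hst') hag
      obtain ⟨b', c1, c2, c3, c5, c4⟩ := vE_ex L hy1
      have ht' : X.ty a = X.ty b' := (L.bij f).1 (by rw [c3, hj])
      have e4 : (co y' j).1 = g • u := by rw [hy2, gco, e3]
      have hp : Par2 X a b a b' := by
        refine (v_par2_iff hP hX0 hL f f a b a b' a1 b1 a1 c1 hl.ma hl.mb hl.ma c2 hl.ty
          ht').2 ⟨g, ?_, ?_, ?_⟩
        · rw [← hv]
          exact g1
        · rw [← hx]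
          exact g2
        · rw [c4, e4, ← hu]
      obtain ⟨s, s1, s2⟩ := hl.uniq b' hp
      have h1 : vE L f b' = vE L f b := by rw [s2, vE_mr hX0 L b1 s1 hl.mb]
      rw [c4, e4] at h1
      have h2 := congrArg Prod.snd h1
      rw [← hu] at h2
      exact h2
  · rw [← hv, ← hx, ← hu]

end

end VTB
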