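import Pool.Agent.Lib.MP_32d917_al.F.UGI
import Pool.Agent.Lib.MP_32d917_al_vt.F02

/-!
# F09: equality in the universal group = equality of frames (F/UGI for framed complexes)
-/

set_option autoImplicit false

namespace VTB

open LatIso LatN LatF

section aux

variable {ι P A : Type} {X : FD ι P A} {Γ : SimpleGraph ι} {N : P → ι → Prop}

/-- the universal group knows the endpoints -/
theorem v_ugi_ends (hX : VV0 Γ N X) (p : P) (w w' : List A) (hw : IsPath X p w)
    (hw' : IsPath X p w') (he : (w.map (ug X)).prod = (w'.map (ug X)).prod) :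
    ugi_end X p w = ugi_end X p w' := by
  obtain ⟨E, hE⟩ := ugi_lift (X := X) (fun a => (FreeGroup.of (X.o a))⁻¹ * FreeGroup.of (X.t a))
    (fun p => by simp only [hX.oe, hX.te]; exact inv_mul_cancel _)
    (fun a => by
      simp only [hX.oi, hX.ti]
      group)
    (fun s a h => by
      simp only [hX.mlo s a h, hX.mlt s a h, h.2]
      group)
    (fun a b c d h => by
      have hT := hX.sqT _ _ _ _ h
      simp only [hT.oac, hT.tab, hT.tcd, hT.tbd]
      group)
  have hp : ∀ (w : List A) (p : P), IsPath X p w →
      E (w.map (ug X)).prod = (FreeGroup.of p)⁻¹ * FreeGroup.of (ugi_end X p w) := by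
    intro w
    induction w with
    | nil =>
      intro p _
      simp only [List.map_nil, List.prod_nil, map_one, ugi_end]
      exact (inv_mul_cancel _).symm
    | cons a w ih =>
      intro p h
      have h1 : X.o a = p := h.1
      rw [List.map_cons, List.prod_cons, map_mul, hE, ih _ h.2, ugi_end]
      simp only [h1]
      group
  have h1 := hp w p hw
  have h2 := hp w' p hw'
  rw [he, h2] at h1
  exact (FreeGroup.of_injective (mul_left_cancel h1)).symm

end aux

section

variable {ι P A : Type} {X : FD ι P A} {ι' Pt : Type} {V : ι' → Type} {S : ∀ i, SimpleGraph (V i)}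
  {co : Pt → ∀ i, V i} {F : Type}

/-- the action of words -/
def vactW (L : VF X S co F) (f : F) (w : List A) : F := w.foldl L.act f

end

section

variable {ι P A : Type} {X : FD ι P A} {G : Type} [Group G] {Pt V ι' : Type} [Fintype ι']
  [MulAction G Pt] [MulAction G V] [MulAction G ι'] {κ : V → ι'} {S : SimpleGraph V}
  {co : Pt → ∀ i, Fib κ i} {Γ : SimpleGraph ι} {N : P → ι → Prop} {Γ' : SimpleGraph ι'}
  {N' : Pt → ι' → Prop} {F : Type} [MulAction G F]

/-- equality in the universal group and equality of frames -/
theorem v_ug_iff (M : MS1 Γ' (comp κ S) co N') (hX : VV0 Γ N X) {L : VF X (comp κ S) co F}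
    (hL : VCov G L) (f : F) (w w' : List A) (hw : IsPath X (L.p f) w)
    (hw' : IsPath X (L.p f) w') : (w.map (ug X)).prod = (w'.map (ug X)).prod ↔
      vactW L f w = vactW L f w' := by
  constructor
  · intro he
    have hend := v_ugi_ends hX _ w w' hw hw' he
    choose z hz using hL.onto
    have hc : ∀ a : A, ∃ g : G, g • z (X.t a) = L.act (z (X.o a)) a := by
      intro a
      refine hL.trans _ _ ?_
      rw [hz, L.act_p _ _ (hz (X.o a)).symm]
    choose c hc using hc
    have hfree : ∀ (g h : G) (x : F), g • x = h • x → g = h := by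
      intro g h x hx
      have h1 : (h⁻¹ * g) • x = x := by rw [mul_smul, hx, inv_smul_smul]
      have h2 := hL.free _ _ h1
      rw [inv_mul_eq_one] at h2
      exact h2.symm
    obtain ⟨C, hC⟩ := ugi_lift (X := X) c
      (by
        intro p
        have h1 := hc (X.e p)
        rw [hX.te, hX.oe] at h1
        have h2 := L.act_e (z p)
        rw [hz p] at h2
        rw [h2] at h1
        exact hL.free _ _ h1)
      (by
        intro a
        have h1 := hc (X.i a)
        rw [hX.ti, hX.oi] at h1
        apply hL.free _ (z (X.o a))
        rw [mul_smul, h1, ← hL.gact _ _ _ (by rw [hX.oi, hz]), hc a,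
          L.act_i _ _ (hz (X.o a)).symm])
      (by
        intro s a h
        have h1 := hc (X.ml s a)
        rw [hX.mlt s a h, hX.mlo s a h] at h1
        apply hfree _ _ (z (X.t a))
        rw [h1, mul_smul, hc a, ← hL.gact _ _ _ (hz (X.o a)).symm, ← h.2, hc s,
          L.act_ml _ _ _ (hz (X.o s)).symm h])
      (by
        intro a b c' d h
        have hT := hX.sqT _ _ _ _ h
        apply hfree _ _ (z (X.t b))
        have h1 : (c a * c b) • z (X.t b) = L.act (L.act (z (X.o a)) a) b := by
          rw [mul_smul, hc b, ← hL.gact _ _ _ (hz (X.o b)).symm, ← hT.tab, hc a]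
        have h2 : (c c' * c d) • z (X.t d) = L.act (L.act (z (X.o c')) c') d := by
          rw [mul_smul, hc d, ← hL.gact _ _ _ (hz (X.o d)).symm, ← hT.tcd, hc c']
        rw [h1, hT.tbd, h2, ← hT.oac, L.act_sq _ _ _ _ _ (hz (X.o a)).symm h])
    have hpath : ∀ (w : List A) (p : P) (g : G), IsPath X p w →
        vactW L (g • z p) w = (g * C (w.map (ug X)).prod) • z (ugi_end X p w) := by
      intro w
      induction w with
      | nil =>
        intro p g _
        simp only [vactW, List.foldl_nil, List.map_nil, List.prod_nil, map_one, mul_one, ugi_end]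
      | cons a w ih =>
        intro p g h
        have h1 : X.o a = p := h.1
        have h2 : vactW L (g • z p) (a :: w) = vactW L (L.act (g • z p) a) w := rfl
        have h3 : L.act (g • z p) a = (g * c a) • z (X.t a) := by
          rw [hL.gact _ _ _ (by rw [hz, h1]), mul_smul, hc a, h1]
        rw [h2, h3, ih _ _ h.2, List.map_cons, List.prod_cons, map_mul, hC, mul_assoc, ugi_end]
    obtain ⟨g, hg⟩ := hL.trans (z (L.p f)) f (hz _)
    have h1 := hpath w (L.p f) g hw
    have h2 := hpath w' (L.p f) g hw'
    rw [hg] at h1 h2
    rw [h1, h2, he, hend]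
  · intro he
    obtain ⟨Φ, h0, h1, h2⟩ := v_fttl M hX L (Y := UG X × P) Prod.snd
      (fun y a => (y.1 * ug X a, X.t a)) (fun _ _ _ => rfl)
      (fun y => by
        refine Prod.ext ?_ ?_
        · change y.1 * ug X (X.e y.2) = y.1
          rw [ugi_one, mul_one]
        · exact hX.te _)
      (fun y a ha => by
        refine Prod.ext ?_ ?_
        · change y.1 * ug X a * ug X (X.i a) = y.1
          rw [mul_assoc, ugi_inv, mul_one]
        · change X.t (X.i a) = y.2
          rw [hX.ti, ha])
      (fun y s a _ h => by
        refine Prod.ext ?_ ?_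
        · change y.1 * ug X (X.ml s a) = y.1 * ug X s * ug X a
          rw [ugi_ml h, mul_assoc]
        · exact hX.mlt s a h)
      (fun y a b c d _ h => by
        refine Prod.ext ?_ ?_
        · change y.1 * ug X a * ug X b = y.1 * ug X c * ug X d
          rw [mul_assoc, ugi_sq h, mul_assoc]
        · exact (hX.sqT _ _ _ _ h).tbd)
      f (1, L.p f) rfl
    have hpath : ∀ (w : List A) (g : F), IsPath X (L.p g) w →
        (Φ (vactW L g w)).1 = (Φ g).1 * (w.map (ug X)).prod := by
      intro w
      induction w with
      | nil =>
        intro g _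
        simp only [vactW, List.foldl_nil, List.map_nil, List.prod_nil, mul_one]
      | cons a w ih =>
        intro g h
        have h3 : X.o a = L.p g := h.1
        have h4 : vactW L g (a :: w) = vactW L (L.act g a) w := rfl
        have h5 : IsPath X (L.p (L.act g a)) w := by
          rw [L.act_p _ _ h3]
          exact h.2
        rw [h4, ih _ h5, h2 _ _ h3, List.map_cons, List.prod_cons, mul_assoc]
    have h3 := hpath w f hw
    have h4 := hpath w' f hw'
    rw [he, h4, h0] at h3
    simpa using h3.symm

end

end VTB
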