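import Pool.Agent.Lib.MP_32d917_al_vt.F08
import Pool.Agent.Lib.MP_32d917_al_vt.F09
import Pool.Agent.Lib.MP_32d917_al_vt.A04

/-!
# F10: the result of a slide of the data is the quotient of the slide

Adapt F/FRS of MP_32d917_al (`res_sound`), almost word by word: `Valid0 X` → `VV0 Γ N X`, `mvE` → `vE`, `Stp` → `VSt (comp κ S) co`, `L.pt f i` → `co (L.pt f) i`, `val_` → `vv_`, `par_iff hX0 h.forest hL` → `v_par_iff hP hX0 hL` (F06), `par2_iff` → `v_par2_iff` (F07),
`ug_iff` → `v_ug_iff` (F09), `actW` → `vactW`, the auxiliary lemmas on frames are `vf_lam_i`, `vf_stat`, `vf_move`, `vf_idx`, `vf_sne`, `vst_symm` of F01/A01, `FRS_par2` is `v_par2_mv` (F07), equality of points by `M.inj`. Three changes.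
(1) `newE`: the point `f₁` over the vertex `g • v` between `g • u = co (pt f) i` and `g • x = co (pt f') i` exists by `panel_cv` (A04) for the points `pt f`, `pt f'` which agree outside `{i}`: `Bt (comp κ S i) (co (pt f) i) ⟨g • v, _⟩ (co (pt f') i)` since it is the middle of a path of length 2
between different vertices of a tree.
(2) `sqof`: `hY0.sqe` needs `Γ.Adj (Y.ty n) (Y.pm m (Y.ty m))`, by `SqT` (`tyb`) and `hY0.pmg` it is enough that `Γ.Adj (Y.ty m') (Y.ty m)`. The points of `f`, `act' f m`, `act' f m'`, `act' (act' f m) n = act' (act' f m') n'` are the corners of a square for the trees of `S'` with labels `L.lam f (Y.ty m)`, `L.lam f (Y.ty m')` (different),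
so `hP'.ms.sq` gives `Γ'.Adj`, then `hl.gam`. The two points `pt (act' f m')`, `pt (act' f c)` are equal by `hP'.ms.inj`.
(3) At the end: `VLab` for the new framed complex has the same `gam` and `nn` as `hl`; `hn'` is used where FRS uses `h'.noinv`.
-/

set_option autoImplicit false

namespace VTB

open LatIso LatN LatF

private theorem F10_mid {W : Type} {T : SimpleGraph W} (hT : T.IsAcyclic) {q r p p' : W}
    (hqr : q ≠ r) (h1 : T.Adj q p) (h2 : T.Adj p r) (h3 : T.Adj q p') (h4 : T.Adj p' r) :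
    p = p' := by
  have e := hT.path_unique
    ⟨SimpleGraph.Walk.cons h1 (SimpleGraph.Walk.cons h2 SimpleGraph.Walk.nil), by
      simp [SimpleGraph.Walk.cons_isPath_iff, h1.ne, h2.ne, hqr]⟩
    ⟨SimpleGraph.Walk.cons h3 (SimpleGraph.Walk.cons h4 SimpleGraph.Walk.nil), by
      simp [SimpleGraph.Walk.cons_isPath_iff, h3.ne, h4.ne, hqr]⟩
  have e2 := congrArg (fun w : T.Path q r => w.1.getVert 1) e
  simpa using e2

private theorem F10_tri {W : Type} {T : SimpleGraph W} (hT : T.IsAcyclic) {q r p : W}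
    (h1 : T.Adj q p) (h2 : T.Adj p r) (h3 : T.Adj q r) : False := by
  have e := hT.path_unique
    ⟨SimpleGraph.Walk.cons h1 (SimpleGraph.Walk.cons h2 SimpleGraph.Walk.nil), by
      simp [SimpleGraph.Walk.cons_isPath_iff, h1.ne, h2.ne, h3.ne]⟩
    ⟨SimpleGraph.Walk.cons h3 SimpleGraph.Walk.nil, by
      simp [SimpleGraph.Walk.cons_isPath_iff, h3.ne]⟩
  have e2 := congrArg (fun w : T.Path q r => w.1.length) e
  simp at e2

private theorem F10_pm_inj {ι P A : Type} {X : FD ι P A} {Γ : SimpleGraph ι} {N : P → ι → Prop}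
    (hX : VV0 Γ N X) (a : A) {k k' : ι} (h : X.pm a k = X.pm a k') : k = k' := by
  rw [← hX.pi a k, h, hX.pi]

/-- the middle point of a path of length two between points which differ in one coordinate -/
private theorem F10_pt {Pt V ι' : Type} [Fintype ι'] {κ : V → ι'} {R : SimpleGraph V}
    {co : Pt → ∀ i, Fib κ i} {Γ' : SimpleGraph ι'} {N' : Pt → ι' → Prop}
    (M : MS1 Γ' (comp κ R) co N') {i : ι'} {y y' : Pt}
    (h : ∀ j, j ≠ i → co y' j = co y j) {c : V} (hc : κ c = i) (h1 : R.Adj (co y i).1 c)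
    (h2 : R.Adj c (co y' i).1) (hne : (co y i).1 ≠ (co y' i).1) :
    ∃ z, (co z i).1 = c ∧ ∀ j, j ≠ i → co z j = co y j := by
  have a1 : (comp κ R i).Adj (co y i) ⟨c, hc⟩ := h1
  have a2 : (comp κ R i).Adj ⟨c, hc⟩ (co y' i) := h2
  have hT := M.tree i
  have hb : Bt (comp κ R i) (co y i) ⟨c, hc⟩ (co y' i) := by
    have e1 := st1_one a1
    have e2 := st1_one a2
    unfold Bt
    rcases st_adj hT a2 (co y i) with e3 | e3
    · omega
    · exfalso
      apply hne
      have e4 : (comp κ R i).dist (co y i) (co y' i) = 0 := by omega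
      rw [st1_eq hT e4]
  obtain ⟨z, hz1, hz2⟩ := panel_cv M i y (co y i) ⟨y, ag_refl y, rfl⟩ (co y' i)
    ⟨y', fun j hj => h j (fun e => hj e), rfl⟩ ⟨c, hc⟩ hb
  exact ⟨z, by rw [hz2], fun j hj => hz1 j (fun e => hj e)⟩

section

variable {ι P A A' : Type} {X : FD ι P A} {Y : FD ι P A'} {G : Type} [Group G]
  {Pt V ι' : Type} [Fintype ι'] [MulAction G Pt] [MulAction G V] [MulAction G ι'] {κ : V → ι'}
  {S S' : SimpleGraph V} {co : Pt → ∀ i, Fib κ i} {Γ : SimpleGraph ι} {N : P → ι → Prop}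
  {Γ' : SimpleGraph ι'} {N' : Pt → ι' → Prop} {F : Type} [MulAction G F]

theorem v_res_sound (hX : VV Γ N X) (hP : VPre G Γ' κ S co N') (hP' : VPre G Γ' κ S' co N')
    (hn' : ∀ (g : G) x y, S'.Adj x y → g • x = y → g • y ≠ x)
    {L : VF X (comp κ S) co F} (hl : VLab L Γ N Γ' N') (hL : VCov G L) {a b : A}
    (hleg : Legal X a b) (hs : VSlAt G L S' a b) {φ₁ φ₂ : A' → A}
    (hr : VRes Γ N X Y a b φ₁ φ₂) : IsVCov G Γ' κ S' co N' Γ N Y := by
  classical
  obtain ⟨f0, h0, hS'⟩ := hs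
  have hX0 : VV0 Γ N X := hX.v0
  have hY0 : VV0 Γ N Y := hr.valid.v0
  have h0b : X.o b = L.p f0 := by rw [← hleg.o]; exact h0
  obtain ⟨v, hv⟩ : ∃ v, v = (vE L f0 a).1 := ⟨_, rfl⟩
  obtain ⟨x, hx⟩ : ∃ x, x = (vE L f0 a).2 := ⟨_, rfl⟩
  obtain ⟨u, hu⟩ : ∃ u, u = (vE L f0 b).2 := ⟨_, rfl⟩
  have hbv : (vE L f0 b).1 = v := by
    rw [hv]
    unfold vE
    rw [hleg.ty]
  have hvx : S.Adj v x := by
    rw [hv, hx]
    exact (L.mo f0 a h0 hleg.ma).1
  have hvu : S.Adj v u := by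
    rw [← hbv, hu]
    exact (L.mo f0 b h0b hleg.mb).1
  rw [← hv, ← hx, ← hu] at hS'
  have hux : ∀ g : G, S'.Adj (g • u) (g • x) := fun g => (hS' _ _).2 (Or.inr ⟨g, Or.inl ⟨rfl, rfl⟩⟩)
  have hgx : ∀ g : G, S.Adj (g • v) (g • x) := fun g => hP.act.adj g _ _ hvx
  have hgu : ∀ g : G, S.Adj (g • v) (g • u) := fun g => hP.act.adj g _ _ hvu
  have hPar : ∀ (f : F) (c : A), X.o c = L.p f → X.mv c →
      (Par X a c ↔ ∃ g : G, g • v = (vE L f c).1 ∧ g • x = (vE L f c).2) := by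
    intro f c h1 h2
    rw [hv, hx]
    exact v_par_iff hP hX0 hL f0 f a c h0 h1 hleg.ma h2
  have hPar2 : ∀ (f : F) (a' b' : A), X.o a' = L.p f → X.o b' = L.p f → X.mv a' → X.mv b' →
      X.ty a' = X.ty b' → (Par2 X a b a' b' ↔ ∃ g : G, g • v = (vE L f a').1 ∧
        g • x = (vE L f a').2 ∧ g • u = (vE L f b').2) := by
    intro f a' b' h1 h2 h3 h4 h5
    rw [hv, hx, hu]
    exact v_par2_iff hP hX0 hL f0 f a b a' b' h0 h0b h1 h2 hleg.ma hleg.mb h3 h4 hleg.ty h5
  -- the action of the arrows of `Y`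
  obtain ⟨act', hact⟩ : ∃ act' : F → A' → F,
      ∀ f m, act' f m = L.act (L.act f (φ₁ m)) (φ₂ m) := ⟨_, fun _ _ => rfl⟩
  have o1 : ∀ f m, Y.o m = L.p f → X.o (φ₁ m) = L.p f := by
    intro f m hm
    rw [hr.o₁, hm]
  have o2 : ∀ f m, Y.o m = L.p f → X.o (φ₂ m) = L.p (L.act f (φ₁ m)) := by
    intro f m hm
    rw [hr.o₂, L.act_p f _ (o1 f m hm)]
  have actp : ∀ f m, Y.o m = L.p f → L.p (act' f m) = Y.t m := by
    intro f m hm
    rw [hact, L.act_p _ _ (o2 f m hm), hr.t₂]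
  obtain ⟨hh, hhom⟩ := hr.hom
  -- words
  have words : ∀ (w : List A') (f : F), IsPath Y (L.p f) w → ∃ w₁ : List A,
      IsPath X (L.p f) w₁ ∧ vactW L f w₁ = w.foldl act' f ∧
      (w₁.map (ug X)).prod = hh ((w.map (ug Y)).prod) := by
    intro w
    induction w with
    | nil =>
      intro f _
      exact ⟨[], trivial, rfl, by simp⟩
    | cons m w ih =>
      intro f hp
      obtain ⟨hm, hp'⟩ := hp
      rw [← actp f m hm] at hp'
      obtain ⟨w₁, p1, p2, p3⟩ := ih (act' f m) hp'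
      refine ⟨φ₁ m :: φ₂ m :: w₁, ⟨o1 f m hm, (hr.o₂ m), ?_⟩, ?_, ?_⟩
      · rw [hr.t₂, ← actp f m hm]
        exact p1
      · have e1 : vactW L f (φ₁ m :: φ₂ m :: w₁) = vactW L (act' f m) w₁ := by
          rw [hact]
          rfl
        rw [e1, p2]
        rfl
      · rw [List.map_cons, List.map_cons, List.prod_cons, List.prod_cons, p3, List.map_cons,
          List.prod_cons, map_mul, hhom, mul_assoc]
  have key : ∀ (f : F) (w w' : List A'), IsPath Y (L.p f) w → IsPath Y (L.p f) w' →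
      (w.map (ug Y)).prod = (w'.map (ug Y)).prod → w.foldl act' f = w'.foldl act' f := by
    intro f w w' hw hw' he
    obtain ⟨w₁, p1, p2, p3⟩ := words w f hw
    obtain ⟨w₂, q1, q2, q3⟩ := words w' f hw'
    rw [← p2, ← q2]
    refine (v_ug_iff hP.ms hX0 hL f w₁ w₂ p1 q1).1 ?_
    rw [p3, q3, he]
  have urel : ∀ r : FreeGroup A', Rel0 Y r →
      PresentedGroup.mk {r | Rel0 Y r} r = 1 := fun r hr => PresentedGroup.one_of_mem hr
  have acte : ∀ f, act' f (Y.e (L.p f)) = f := by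
    intro f
    have e := key f [Y.e (L.p f)] [] ⟨hY0.oe _, trivial⟩ trivial (by
      have e1 := urel _ (Rel0.one (X := Y) (L.p f))
      simpa [ug, PresentedGroup.of] using e1)
    exact e
  have acti : ∀ f m, Y.o m = L.p f → act' (act' f m) (Y.i m) = f := by
    intro f m hm
    have e := key f [m, Y.i m] [] ⟨hm, hY0.oi m, trivial⟩ trivial (by
      have e1 := urel _ (Rel0.inv (X := Y) m)
      simpa [ug, PresentedGroup.of] using e1)
    exact e
  have actml : ∀ f s m, Y.o s = L.p f → Y.lc s m →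
      act' f (Y.ml s m) = act' (act' f s) m := by
    intro f s m hs hlc
    have e := key f [Y.ml s m] [s, m] ⟨(hY0.mlo s m hlc).trans hs, trivial⟩
      ⟨hs, hlc.2.symm, trivial⟩ (by
      have e1 := urel _ (Rel0.ml (X := Y) s m hlc)
      rw [map_mul, map_inv, mul_inv_eq_one, map_mul] at e1
      simp only [List.map_cons, List.map_nil, List.prod_cons, List.prod_nil, mul_one]
      exact e1.symm)
    exact e
  have actsq : ∀ f a b c d, Y.o a = L.p f → Y.sq a b c d →
      act' (act' f a) b = act' (act' f c) d := by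
    intro f a b c d ha hsq
    have ts := hY0.sqT _ _ _ _ hsq
    have e := key f [a, b] [c, d] ⟨ha, ts.tab.symm, trivial⟩
      ⟨ts.oac.symm.trans ha, ts.tcd.symm, trivial⟩ (by
      have e1 := urel _ (Rel0.sq (X := Y) a b c d hsq)
      rw [map_mul, map_mul, map_mul, map_inv, map_inv, mul_assoc, ← mul_inv_rev,
        mul_inv_eq_one] at e1
      simp only [List.map_cons, List.map_nil, List.prod_cons, List.prod_nil, mul_one]
      exact e1)
    exact e
  have actmr : ∀ f m s, Y.o m = L.p f → Y.rc m s → act' f (Y.mr m s) = act' (act' f m) s := by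
    intro f m s hm hrc
    have p1 : L.p (act' f m) = Y.t m := actp f m hm
    have hs : Y.o s = L.p (act' f m) := hrc.2.trans p1.symm
    have p2 : L.p (act' (act' f m) s) = Y.t s := actp _ s hs
    have his : Y.o (Y.i s) = L.p (act' (act' f m) s) := by rw [hY0.oi, p2]
    have hlc : Y.lc (Y.i s) (Y.i m) := by
      refine ⟨fun hc => hrc.1 ((hY0.mi s).1 hc), ?_⟩
      rw [hY0.ti, hY0.oi, hrc.2]
    have e1 := actml (act' (act' f m) s) (Y.i s) (Y.i m) his hlc
    rw [acti _ s hs, acti f m hm] at e1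
    have e2 := acti (act' (act' f m) s) (Y.ml (Y.i s) (Y.i m))
      ((hY0.mlo _ _ hlc).trans his)
    rw [e1] at e2
    exact e2
  -- parallel pairs at a frame
  have core : ∀ f₁ a' b', X.o a' = L.p f₁ → Par2 X a b a' b' → X.mv a' ∧ X.mv b' ∧
      X.o b' = L.p f₁ ∧ ∃ (g : G) (j : ι'), j = L.lam f₁ (X.ty a') ∧ j = L.lam f₁ (X.ty b') ∧
        (co (L.pt f₁) j).1 = g • v ∧ (co (L.pt (L.act f₁ a')) j).1 = g • x ∧
        (co (L.pt (L.act f₁ b')) j).1 = g • u ∧ (∀ k, k ≠ j → co (L.pt (L.act f₁ a')) k = co (L.pt f₁) k) ∧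
        (∀ k, k ≠ j → co (L.pt (L.act f₁ b')) k = co (L.pt f₁) k) := by
    intro f₁ a' b' ho hp
    obtain ⟨m1, m2, m3, m4⟩ := v_par2_mv hX0 hp hleg.ma hleg.mb hleg.o hleg.ty
    have hob : X.o b' = L.p f₁ := m3.symm.trans ho
    obtain ⟨g, e1, e2, e3⟩ := (hPar2 f₁ a' b' ho hob m1 m2 m4).1 hp
    refine ⟨m1, m2, hob, g, L.lam f₁ (X.ty a'), rfl, by rw [m4], e1.symm, e2.symm, ?_,
      (L.mo f₁ a' ho m1).2, ?_⟩
    · rw [m4]
      exact e3.symm
    · rw [m4]
      exact (L.mo f₁ b' hob m2).2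
  -- the kinds
  have kA : ∀ f m, Y.o m = L.p f → φ₂ m = X.e (X.t (φ₁ m)) → act' f m = L.act f (φ₁ m) := by
    intro f m hm he
    rw [hact, he, ← L.act_p f _ (o1 f m hm), L.act_e]
  have kB : ∀ f m, Y.o m = L.p f → Par2 X a b (φ₂ m) (X.i (φ₁ m)) → X.mv (φ₁ m) ∧
      ∃ (g : G) (j : ι'), j = L.lam f (X.ty (φ₁ m)) ∧ VSt (comp κ S') co j (L.pt f) (L.pt (act' f m)) ∧
        (co (L.pt (L.act f (φ₁ m))) j).1 = g • v ∧
        (co (L.pt f) j).1 = g • u ∧ (co (L.pt (act' f m)) j).1 = g • x ∧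
        (∀ k, k ≠ j → co (L.pt (L.act f (φ₁ m))) k = co (L.pt f) k) := by
    intro f m hm hp
    obtain ⟨m1, m2, m3, g, j, j1, j2, e1, e2, e3, e4, e5⟩ := core _ _ _ (o2 f m hm) hp
    have hm1 : X.mv (φ₁ m) := (hX0.mi _).1 m2
    rw [L.act_i f _ (o1 f m hm)] at e3 e5
    rw [← hact] at e2 e4
    rw [vf_lam_i hX0 L (o1 f m hm) hm1] at j2
    refine ⟨hm1, g, j, j2, ⟨?_, fun k hk => (e4 k hk).trans (e5 k hk).symm⟩, e1, e3, e2,
      fun k hk => (e5 k hk).symm⟩
    show S'.Adj _ _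
    rw [e2, e3]
    exact hux g
  have kC : ∀ f m, Y.o m = L.p f → Par2 X a b (X.i (φ₁ m)) (φ₂ m) → X.mv (φ₁ m) ∧
      ∃ (g : G) (j : ι'), j = L.lam f (X.ty (φ₁ m)) ∧ VSt (comp κ S') co j (L.pt f) (L.pt (act' f m)) ∧
        (co (L.pt (L.act f (φ₁ m))) j).1 = g • v ∧
        (co (L.pt f) j).1 = g • x ∧ (co (L.pt (act' f m)) j).1 = g • u ∧
        (∀ k, k ≠ j → co (L.pt (L.act f (φ₁ m))) k = co (L.pt f) k) := by
    intro f m hm hp
    have hoi : X.o (X.i (φ₁ m)) = L.p (L.act f (φ₁ m)) := by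
      rw [hX0.oi, L.act_p f _ (o1 f m hm)]
    obtain ⟨m1, m2, m3, g, j, j1, j2, e1, e2, e3, e4, e5⟩ := core _ _ _ hoi hp
    have hm1 : X.mv (φ₁ m) := (hX0.mi _).1 m1
    rw [L.act_i f _ (o1 f m hm)] at e2 e4
    rw [← hact] at e3 e5
    rw [vf_lam_i hX0 L (o1 f m hm) hm1] at j1
    refine ⟨hm1, g, j, j1, ⟨?_, fun k hk => (e5 k hk).trans (e4 k hk).symm⟩, e1, e2, e3,
      fun k hk => (e4 k hk).symm⟩
    show S'.Adj _ _
    rw [e2, e3]
    exact (hux g).symm
  -- stationary and moving arrows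
  have st' : ∀ f m, Y.o m = L.p f → ¬ Y.mv m → L.pt (act' f m) = L.pt f := by
    intro f m hm hn
    rw [hr.mv] at hn
    rcases hr.kind m with hk | hk | hk
    · rw [kA f m hm hk.2.2]
      exact L.st f _ (o1 f m hm) hn
    · exact absurd (kB f m hm hk).1 hn
    · exact absurd (kC f m hm hk).1 hn
  have mo' : ∀ f m, Y.o m = L.p f → Y.mv m →
      VSt (comp κ S') co (L.lam f (Y.ty m)) (L.pt f) (L.pt (act' f m)) := by
    intro f m hm hn
    rw [hr.ty m hn]
    rw [hr.mv] at hn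
    rcases hr.kind m with hk | hk | hk
    · obtain ⟨k1, k2, k3⟩ := hk
      rw [kA f m hm k3]
      have h1 := L.mo f _ (o1 f m hm) hn
      refine ⟨?_, h1.2⟩
      show S'.Adj _ _
      rw [hS']
      refine Or.inl ⟨h1.1, fun g => ⟨fun hg => k1 ?_, fun hg => k2 ?_⟩⟩
      · exact (hPar f _ (o1 f m hm) hn).2 ⟨g, hg⟩
      · refine (hPar (L.act f (φ₁ m)) _ ?_ ((hX0.mi _).2 hn)).2 ⟨g, ?_⟩
        · rw [hX0.oi, L.act_p f _ (o1 f m hm)]
        · rw [vE_rev hX0 L (o1 f m hm) hn]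
          exact hg
    · obtain ⟨_, g, j, j1, hst, _⟩ := kB f m hm hk
      rw [← j1]
      exact hst
    · obtain ⟨_, g, j, j1, hst, _⟩ := kC f m hm hk
      rw [← j1]
      exact hst
  -- a new edge
  have newE : ∀ f f' (i : ι') (g : G), (co (L.pt f) i).1 = g • u → (co (L.pt f') i).1 = g • x →
      (∀ k, k ≠ i → co (L.pt f') k = co (L.pt f) k) → ∃ m, Y.o m = L.p f ∧ act' f m = f' := by
    intro f f' i g e1 e2 e3
    have hκ : κ (g • v) = i := by
      rw [hP.kapS _ _ (hgu g), ← e1]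
      exact (co (L.pt f) i).2
    obtain ⟨z, hz1, hz2⟩ := F10_pt hP.ms e3 hκ (by rw [e1]; exact (hgu g).symm)
      (by rw [e2]; exact hgx g) (by rw [e1, e2]; exact (hux g).ne)
    obtain ⟨f₁, hf₁⟩ := L.onto z
    have p1 : (co (L.pt f₁) i).1 = g • v := by rw [hf₁, hz1]
    have p2 : ∀ k, k ≠ i → co (L.pt f₁) k = co (L.pt f) k := by
      intro k hk
      rw [hf₁, hz2 k hk]
    have s1 : VSt (comp κ S) co i (L.pt f₁) (L.pt f) := by
      refine ⟨?_, fun k hk => (p2 k hk).symm⟩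
      show S.Adj _ _
      rw [p1, e1]
      exact hgu g
    have s2 : VSt (comp κ S) co i (L.pt f₁) (L.pt f') := by
      refine ⟨?_, fun k hk => (e3 k hk).trans (p2 k hk).symm⟩
      show S.Adj _ _
      rw [p1, e2]
      exact hgx g
    obtain ⟨b', b1, b2, b3, b4⟩ := vf_move L s1
    obtain ⟨a', a1, a2, a3, a4⟩ := vf_move L s2
    have ht : X.ty a' = X.ty b' := (L.bij f₁).1 (a4.trans b4.symm)
    have hp : Par2 X a b a' b' := by
      refine (hPar2 f₁ a' b' a1 b1 a2 b2 ht).2 ⟨g, ?_, ?_, ?_⟩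
      · unfold vE
        rw [a4]
        exact p1.symm
      · unfold vE
        rw [a4, a3]
        exact e2.symm
      · unfold vE
        rw [b4, b3]
        exact e1.symm
    obtain ⟨m, s, hlc, hφ1, hφ2⟩ := hr.new a' b' hp
    have hlcb : X.lc s b' := ⟨hlc.1, hlc.2.trans (a1.trans b1.symm)⟩
    have hp1 : X.o (X.i s) = L.p f₁ := by rw [hX0.oi, hlc.2, a1]
    have hf₂ : L.act (L.act f₁ (X.i s)) s = f₁ := by
      have e4 := L.act_i f₁ (X.i s) hp1
      rw [hX0.ii] at e4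
      exact e4
    have hp2 : X.o s = L.p (L.act f₁ (X.i s)) := by rw [L.act_p _ _ hp1, hX0.ti]
    have e5 : L.act (L.act f₁ (X.i s)) (X.ml s b') = f := by
      rw [L.act_ml _ _ _ hp2 hlcb, hf₂, b3]
    have e6 : L.act f (X.i (X.ml s b')) = L.act f₁ (X.i s) := by
      have e7 := L.act_i (L.act f₁ (X.i s)) (X.ml s b') ((hX0.mlo _ _ hlcb).trans hp2)
      rw [e5] at e7
      exact e7
    refine ⟨m, ?_, ?_⟩
    · rw [← hr.o₁, hφ1, hX0.oi, hX0.mlt _ _ hlcb, ← b3, L.act_p _ _ b1]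
    · rw [hact, hφ1, hφ2, e6, L.act_ml _ _ _ hp2 hlc, hf₂, a3]
  have sur' : ∀ f f', (L.pt f' = L.pt f ∨ ∃ i, VSt (comp κ S') co i (L.pt f) (L.pt f')) →
      ∃ m, Y.o m = L.p f ∧ act' f m = f' := by
    intro f f' hc
    have hold : ∀ c, X.o c = L.p f → L.act f c = f' → ¬ Par X a c → ¬ Par X a (X.i c) →
        ∃ m, Y.o m = L.p f ∧ act' f m = f' := by
      intro c c1 c2 c3 c4
      obtain ⟨m, m1, m2⟩ := hr.old c c3 c4
      have hm : Y.o m = L.p f := by rw [← hr.o₁, m1, c1]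
      refine ⟨m, hm, ?_⟩
      rw [kA f m hm (by rw [m2, m1]), m1, c2]
    rcases hc with hc | ⟨i, hc⟩
    · obtain ⟨s, s1, s2, s3⟩ := vf_stat L hc
      refine hold s s1 s3 (fun hp => s2 (v_par_mv hX0 hp hleg.ma)) fun hp => s2 ?_
      exact (hX0.mi s).1 (v_par_mv hX0 hp hleg.ma)
    · have hadj : S'.Adj (co (L.pt f) i).1 (co (L.pt f') i).1 := hc.1
      rw [hS'] at hadj
      rcases hadj with ⟨hadj, hno⟩ | ⟨g, ⟨g1, g2⟩ | ⟨g1, g2⟩⟩
      · have hstp : VSt (comp κ S) co i (L.pt f) (L.pt f') := ⟨hadj, hc.2⟩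
        obtain ⟨c, c1, c2, c3, c4⟩ := vf_move L hstp
        have hE : vE L f c = ((co (L.pt f) i).1, (co (L.pt f') i).1) := by
          unfold vE
          rw [c4, c3]
        refine hold c c1 c3 (fun hp => ?_) fun hp => ?_
        · obtain ⟨g, hg1, hg2⟩ := (hPar f c c1 c2).1 hp
          rw [hE] at hg1 hg2
          exact (hno g).1 ⟨hg1, hg2⟩
        · have ho : X.o (X.i c) = L.p (L.act f c) := by rw [hX0.oi, L.act_p _ _ c1]
          obtain ⟨g, hg1, hg2⟩ := (hPar (L.act f c) (X.i c) ho ((hX0.mi c).2 c2)).1 hp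
          rw [vE_rev hX0 L c1 c2, hE] at hg1 hg2
          exact (hno g).2 ⟨hg1, hg2⟩
      · exact newE f f' i g g1.symm g2.symm hc.2
      · obtain ⟨m, m1, m2⟩ := newE f' f i g g1.symm g2.symm fun k hk => (hc.2 k hk).symm
        refine ⟨Y.i m, ?_, ?_⟩
        · rw [hY0.oi, ← actp f' m m1, m2]
        · rw [← m2]
          exact acti f' m m1
  -- the kinds are determined by the points
  have hac : ∀ i, (comp κ S i).IsAcyclic := fun i => (hP.ms.tree i).isAcyclic
  have noAB : ∀ f m m', Y.o m = L.p f → Y.o m' = L.p f → act' f m = act' f m' →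
      φ₂ m = X.e (X.t (φ₁ m)) →
      (∀ (g : G) (j : ι'), VSt (comp κ S') co j (L.pt f) (L.pt (act' f m')) →
        (co (L.pt (L.act f (φ₁ m'))) j).1 = g • v →
        (S.Adj (co (L.pt (L.act f (φ₁ m'))) j).1 (co (L.pt f) j).1) →
        (S.Adj (co (L.pt (L.act f (φ₁ m'))) j).1 (co (L.pt (act' f m')) j).1) → False) := by
    intro f m m' hm hm' he k g j hst _ hA hB
    rw [← he, kA f m hm k] at hst hB
    by_cases hmv : X.mv (φ₁ m)
    · have h1 := L.mo f _ (o1 f m hm) hmv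
      have h2 := vf_idx hst h1
      rw [h2] at h1
      exact F10_tri (hac j) (q := co (L.pt f) j) (p := co (L.pt (L.act f (φ₁ m'))) j)
        (r := co (L.pt (L.act f (φ₁ m))) j) (SimpleGraph.Adj.symm hA) hB h1.1
    · have h1 := L.st f _ (o1 f m hm) hmv
      exact vf_sne hst h1.symm
  have noBC : ∀ f m m', Y.o m = L.p f → Y.o m' = L.p f → act' f m = act' f m' →
      Par2 X a b (φ₂ m) (X.i (φ₁ m)) → Par2 X a b (X.i (φ₁ m')) (φ₂ m') → False := by
    intro f m m' hm hm' he k k'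
    obtain ⟨_, g, j, j1, hst, _, e1, e2, _⟩ := kB f m hm k
    obtain ⟨_, g', j', j1', hst', _, e1', e2', _⟩ := kC f m' hm' k'
    rw [← he] at hst' e2'
    have hj := vf_idx hst hst'
    rw [hj] at e1' e2'
    have q1 : g'⁻¹ • g • u = x := by rw [← e1, e1', inv_smul_smul]
    have q2 : g'⁻¹ • g • x = u := by rw [← e2, e2', inv_smul_smul]
    have hux1 : S'.Adj u x := by
      have := hux 1
      rwa [one_smul, one_smul] at this
    exact hn' (g'⁻¹ * g) u x hux1 (by rw [mul_smul]; exact q1) (by rw [mul_smul]; exact q2)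
  have injB : ∀ f m m', Y.o m = L.p f → Y.o m' = L.p f → act' f m = act' f m' →
      Par2 X a b (φ₂ m) (X.i (φ₁ m)) → Par2 X a b (φ₂ m') (X.i (φ₁ m')) → m = m' := by
    intro f m m' hm hm' he k k'
    obtain ⟨hm1, g, j, j1, hst, e1, e2, e3, e4⟩ := kB f m hm k
    obtain ⟨hm1', g', j', j1', hst', e1', e2', e3', e4'⟩ := kB f m' hm' k'
    rw [← he] at hst' e3'
    have hj := vf_idx hst hst'
    subst hj
    -- the midpoints agree
    have a1 : (comp κ S j').Adj (co (L.pt f) j') (co (L.pt (L.act f (φ₁ m))) j') := by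
      show S.Adj _ _
      rw [e1, e2]
      exact (hgu g).symm
    have a2 : (comp κ S j').Adj (co (L.pt (L.act f (φ₁ m))) j') (co (L.pt (act' f m)) j') := by
      show S.Adj _ _
      rw [e1, e3]
      exact hgx g
    have a3 : (comp κ S j').Adj (co (L.pt f) j') (co (L.pt (L.act f (φ₁ m'))) j') := by
      show S.Adj _ _
      rw [e1', e2']
      exact (hgu g').symm
    have a4 : (comp κ S j').Adj (co (L.pt (L.act f (φ₁ m'))) j') (co (L.pt (act' f m)) j') := by
      show S.Adj _ _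
      rw [e1', e3']
      exact hgx g'
    have hmid := F10_mid (hac j') hst.1.ne a1 a2 a3 a4
    have hpt : L.pt (L.act f (φ₁ m)) = L.pt (L.act f (φ₁ m')) := by
      apply hP.ms.inj
      intro i
      by_cases hi : i = j'
      · rw [hi]
        exact hmid
      · rw [e4 i hi, e4' i hi]
    obtain ⟨s, s1, s2, s3⟩ := vf_stat L hpt
    have hlc : X.lc s (φ₂ m) := by
      refine ⟨s2, ?_⟩
      rw [o2 f m hm, ← s3, L.act_p _ _ s1]
    have hlci : X.lc s (X.i (φ₁ m)) := by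
      refine ⟨s2, ?_⟩
      rw [hX0.oi, ← L.act_p f _ (o1 f m hm), ← s3, L.act_p _ _ s1]
    have hoi : ∀ n, Y.o n = L.p f → X.o (X.i (φ₁ n)) = L.p (L.act f (φ₁ n)) := by
      intro n hn
      rw [hX0.oi, L.act_p f _ (o1 f n hn)]
    have q2 : φ₂ m' = X.ml s (φ₂ m) := by
      refine L.inj (L.act f (φ₁ m')) _ _ (o2 f m' hm') ((hX0.mlo _ _ hlc).trans s1) ?_
      rw [L.act_ml _ _ _ s1 hlc, s3, ← hact, ← hact, he]
    have q1 : X.i (φ₁ m') = X.ml s (X.i (φ₁ m)) := by
      refine L.inj (L.act f (φ₁ m')) _ _ (hoi m' hm') ((hX0.mlo _ _ hlci).trans s1) ?_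
      rw [L.act_ml _ _ _ s1 hlci, s3, L.act_i f _ (o1 f m hm), L.act_i f _ (o1 f m' hm')]
    have q3 : φ₁ m' = X.i (X.ml s (X.i (φ₁ m))) := by rw [← q1, hX0.ii]
    exact hr.inj₁ m m' s k hlc q3 q2
  have noAB' : ∀ f m m', Y.o m = L.p f → Y.o m' = L.p f → act' f m = act' f m' →
      φ₂ m = X.e (X.t (φ₁ m)) → (Par2 X a b (φ₂ m') (X.i (φ₁ m')) ∨
        Par2 X a b (X.i (φ₁ m')) (φ₂ m')) → False := by
    intro f m m' hm hm' he k k'
    rcases k' with k' | k'
    · obtain ⟨_, g, j, _, hst, e1, e2, e3, _⟩ := kB f m' hm' k'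
      refine noAB f m m' hm hm' he k g j hst e1 ?_ ?_
      · rw [e1, e2]
        exact hgu g
      · rw [e1, e3]
        exact hgx g
    · obtain ⟨_, g, j, _, hst, e1, e2, e3, _⟩ := kC f m' hm' k'
      refine noAB f m m' hm hm' he k g j hst e1 ?_ ?_
      · rw [e1, e2]
        exact hgx g
      · rw [e1, e3]
        exact hgu g
  have flip : ∀ f m, Y.o m = L.p f → Par2 X a b (X.i (φ₁ m)) (φ₂ m) →
      Y.o (Y.i m) = L.p (act' f m) ∧ Par2 X a b (φ₂ (Y.i m)) (X.i (φ₁ (Y.i m))) := by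
    intro f m hm k
    have hoi : Y.o (Y.i m) = L.p (act' f m) := by rw [hY0.oi, actp f m hm]
    refine ⟨hoi, ?_⟩
    obtain ⟨_, g, j, j1, hst, e1, e2, e3, e4⟩ := kC f m hm k
    have hback : act' (act' f m) (Y.i m) = f := acti f m hm
    rcases hr.kind (Y.i m) with hk | hk | hk
    · exfalso
      have hst2 := vst_symm hst
      have hA := kA (act' f m) (Y.i m) hoi hk.2.2
      rw [hback] at hA
      have a1 : (comp κ S j).Adj (co (L.pt f) j) (co (L.pt (L.act f (φ₁ m))) j) := by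
        show S.Adj _ _
        rw [e1, e2]
        exact (hgx g).symm
      have a2 : (comp κ S j).Adj (co (L.pt (L.act f (φ₁ m))) j) (co (L.pt (act' f m)) j) := by
        show S.Adj _ _
        rw [e1, e3]
        exact hgu g
      by_cases hmv : X.mv (φ₁ (Y.i m))
      · have h1 := L.mo (act' f m) _ (o1 _ _ hoi) hmv
        rw [← hA] at h1
        have h2 := vf_idx hst2 h1
        rw [h2] at h1
        exact F10_tri (hac j) a1 a2 h1.1.symm
      · have h1 := L.st (act' f m) _ (o1 _ _ hoi) hmv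
        rw [← hA] at h1
        exact vf_sne hst h1
    · exact hk
    · exfalso
      obtain ⟨_, g', j', j1', hst', e1', e2', e3', _⟩ := kC (act' f m) (Y.i m) hoi hk
      rw [hback] at hst' e3'
      have hj := vf_idx (vst_symm hst) hst'
      subst hj
      have q1 : g'⁻¹ • g • x = u := by rw [← e2, e3', inv_smul_smul]
      have q2 : g'⁻¹ • g • u = x := by rw [← e3, e2', inv_smul_smul]
      have hux1 : S'.Adj u x := by
        have := hux 1
        rwa [one_smul, one_smul] at this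
      exact hn' (g'⁻¹ * g) u x hux1 (by rw [mul_smul]; exact q2)
        (by rw [mul_smul]; exact q1)
  have inj' : ∀ f m m', Y.o m = L.p f → Y.o m' = L.p f → act' f m = act' f m' → m = m' := by
    intro f m m' hm hm' he
    rcases hr.kind m with k | k | k
    · rcases hr.kind m' with k' | k' | k'
      · have e1 : φ₁ m = φ₁ m' := by
          refine L.inj f _ _ (o1 f m hm) (o1 f m' hm') ?_
          rw [← kA f m hm k.2.2, ← kA f m' hm' k'.2.2, he]
        exact hr.inj₀ m m' e1 (by rw [k.2.2, k'.2.2, e1])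
      · exact (noAB' f m m' hm hm' he k.2.2 (Or.inl k')).elim
      · exact (noAB' f m m' hm hm' he k.2.2 (Or.inr k')).elim
    · rcases hr.kind m' with k' | k' | k'
      · exact (noAB' f m' m hm' hm he.symm k'.2.2 (Or.inl k)).elim
      · exact injB f m m' hm hm' he k k'
      · exact (noBC f m m' hm hm' he k k').elim
    · rcases hr.kind m' with k' | k' | k'
      · exact (noAB' f m' m hm' hm he.symm k'.2.2 (Or.inr k)).elim
      · exact (noBC f m' m hm' hm he.symm k' k).elim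
      · obtain ⟨p1, p2⟩ := flip f m hm k
        obtain ⟨p1', p2'⟩ := flip f m' hm' k'
        rw [← he] at p1'
        have e1 : Y.i m = Y.i m' := by
          refine injB (act' f m) _ _ p1 p1' ?_ p2 p2'
          rw [acti f m hm, he, acti f m' hm']
        rw [← hY0.ii m, e1, hY0.ii]
  have actlam : ∀ f m, Y.o m = L.p f → ∀ k, L.lam (act' f m) (Y.pm m k) = L.lam f k := by
    intro f m hm k
    rw [hact, hr.pm, L.act_lam _ _ (o2 f m hm), L.act_lam _ _ (o1 f m hm)]
  have sqof : ∀ f m n m' n', Y.o m = L.p f → SqT Y m n m' n' →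
      act' (act' f m) n = act' (act' f m') n' → Y.sq m n m' n' := by
    intro f m n m' n' hm ht he
    have hm'0 : Y.o m' = L.p f := ht.oac.symm.trans hm
    have hnn : Y.o n = L.p (act' f m) := by rw [actp f m hm, ht.tab]
    have hnn' : Y.o n' = L.p (act' f m') := by rw [actp f m' hm'0, ht.tcd]
    have hne : Γ.Adj (Y.ty n) (Y.pm m (Y.ty m)) := by
      rw [ht.tyb, hY0.pmg]
      have t1 := mo' f m hm ht.ma
      have t2 := mo' f m' hm'0 ht.mc
      have t3 := mo' (act' f m) n hnn ht.mb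
      have t4 := mo' (act' f m') n' hnn' ht.md
      rw [ht.tyb, actlam f m hm] at t3
      rw [ht.tyd, actlam f m' hm'0, ← he] at t4
      have hij : L.lam f (Y.ty m) ≠ L.lam f (Y.ty m') := fun hc => ht.ne ((L.bij f).1 hc)
      exact ((hl.gam f _ _).1 ((hP'.ms.sq _ _ _ _ _ hij t1 t2).1 ⟨_, t3, t4⟩)).symm
    obtain ⟨c, d, hsq⟩ := hY0.sqe m n ht.ma ht.mb ht.tab hne
    have tc := hY0.sqT _ _ _ _ hsq
    have e1 := actsq f m n c d hm hsq
    have hc : Y.o c = L.p f := tc.oac.symm.trans hm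
    have hm' : Y.o m' = L.p f := ht.oac.symm.trans hm
    have hty : Y.ty c = Y.ty m' := by
      apply F10_pm_inj hY0 m
      rw [← tc.tyb, ← ht.tyb]
    have hd : Y.o d = L.p (act' f c) := by rw [actp f c hc, tc.tcd]
    have hn' : Y.o n' = L.p (act' f m') := by rw [actp f m' hm', ht.tcd]
    have s1 := mo' f c hc tc.mc
    have s2 := mo' f m' hm' ht.mc
    have s3 := mo' (act' f c) d hd tc.md
    have s4 := mo' (act' f m') n' hn' ht.md
    rw [tc.tyd, actlam f c hc] at s3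
    rw [ht.tyd, actlam f m' hm'] at s4
    rw [hty] at s1
    rw [← e1] at s3
    rw [← he] at s4
    have hne2 : L.lam f (Y.ty m') ≠ L.lam f (Y.ty m) :=
      fun hc => ht.ne ((L.bij f).1 hc).symm
    have hpt : L.pt (act' f m') = L.pt (act' f c) := by
      apply hP'.ms.inj
      intro k
      by_cases hk : k = L.lam f (Y.ty m')
      · rw [hk, ← s3.2 _ hne2, ← s4.2 _ hne2]
      · rw [s1.2 k hk, s2.2 k hk]
    obtain ⟨s, hs1, hs2⟩ := sur' (act' f c) (act' f m') (Or.inl hpt)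
    have hsn : ¬ Y.mv s := by
      intro hmv
      have h1 := mo' _ s hs1 hmv
      rw [hs2] at h1
      exact vf_sne h1 hpt.symm
    have hrc : Y.rc c s := ⟨hsn, by rw [hs1, actp f c hc]⟩
    have q1 : m' = Y.mr c s := by
      refine inj' f _ _ hm' ((vv_mro hY0 hrc).trans hc) ?_
      rw [actmr f c s hc hrc, hs2]
    have hlc : Y.lc (Y.i s) d := by
      refine ⟨fun hc => hsn ((hY0.mi s).1 hc), ?_⟩
      rw [hY0.ti, hs1, hd]
    have his : Y.o (Y.i s) = L.p (act' f m') := by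
      rw [hY0.oi, ← hs2, actp _ s hs1]
    have hback : act' (act' f m') (Y.i s) = act' f c := by
      rw [← hs2]
      exact acti _ s hs1
    have q2 : n' = Y.ml (Y.i s) d := by
      refine inj' (act' f m') _ _ hn' ((hY0.mlo _ _ hlc).trans his) ?_
      rw [actml _ _ _ his hlc, hback, ← he, e1]
    rw [q1, q2]
    exact vv_sqm' hY0 hsq hrc
  refine ⟨hP', hr.valid, F, inferInstance,
    { pt := L.pt
      lam := L.lam
      p := L.p
      act := act'
      bij := L.bij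
      onto := L.onto
      act_p := actp
      act_lam := actlam
      act_e := acte
      act_i := acti
      act_ml := actml
      act_sq := actsq
      sq_of := sqof
      st := st'
      mo := mo'
      sur := sur'
      inj := inj' }, ⟨hl.gam, hl.nn⟩, ?_⟩
  refine ⟨hL.gp, ?_, hL.gpt, hL.glam, hL.free, hL.trans, hL.onto⟩
  intro g f m hm
  show act' (g • f) m = g • act' f m
  rw [hact, hact, hL.gact g f _ (o1 f m hm), hL.gact g _ _ (o2 f m hm)]

end

end VTB
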