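import Pool.Agent.Lib.MP_32d917_al_vt.F08
import Pool.Agent.Lib.MP_32d917_al_vt.F09
import Pool.Agent.Lib.MP_32d917_al_vt.A04

/-!
# F11: the quotient of a slide is a result of the slide of the data

Adapt F/FRC of MP_32d917_al (`res_of_cov`), almost word by word: `Valid0 X` → `VV0 Γ N X`, `mvE` → `vE`, `Stp` → `VSt (comp κ S) co`, `L.pt f i` → `co (L.pt f) i`, `val_` → `vv_`, `par_iff hX0 h.forest hL` → `v_par_iff hP hX0 hL` (F06), `par2_iff` → `v_par2_iff` (F07),
`ug_iff` → `v_ug_iff` (F09), `actW` → `vactW`; `hn'` is used where FRC uses `h'.noinv`; equality of points by `M.inj`. The structure `FRC_M` becomes: `X.o c = L.p f`, `X.mv c`, `L.lam f (X.ty c) = j`, `(co (L.pt f) j).1 = y`, `(co (L.pt (L.act f c)) j).1 = y'`. The only change in the mathematics: where FRC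
uses `L.onto (Function.update ..)` to get a frame over the vertex between two points `pt f`, `pt f'` which agree outside `{i}` (with coordinates `g • u`, `g • x`, the vertex `g • v` between them), the point exists by `panel_cv` (A04).
-/

set_option autoImplicit false

namespace VTB

open LatIso LatN LatF

section

variable {ι P A A' : Type} {X : FD ι P A} {Y : FD ι P A'} {G : Type} [Group G]
  {Pt V ι' : Type} [Fintype ι'] [MulAction G Pt] [MulAction G V] [MulAction G ι'] {κ : V → ι'}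
  {S S' : SimpleGraph V} {co : Pt → ∀ i, Fib κ i} {Γ : SimpleGraph ι} {N : P → ι → Prop}
  {Γ' : SimpleGraph ι'} {N' : Pt → ι' → Prop} {F : Type} [MulAction G F]

/-- the middle point of a path of length two between points which differ in one coordinate -/
private theorem F11_pt {R : SimpleGraph V}
    (M : MS1 Γ' (comp κ R) co N') {i : ι'} {y y' : Pt}
    (h : ∀ j, j ≠ i → co y' j = co y j) {c : V} (hc : κ c = i) (h1 : R.Adj (co y i).1 c)
    (h2 : R.Adj c (co y' i).1) (hne : (co y i).1 ≠ (co y' i).1) :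
    ∃ z, (co z i).1 = c ∧ ∀ j, j ≠ i → co z j = co y j := by
  have a1 : (comp κ R i).Adj (co y i) ⟨c, hc⟩ := h1
  have a2 : (comp κ R i).Adj ⟨c, hc⟩ (co y' i) := h2
  have hT := M.tree i
  have hb : Bt (comp κ R i) (co y i) ⟨c, hc⟩ (co y' i) := by
    have e1 := st1_one a1
    have e2 := st1_one a2
    unfold Bt
    rcases st_adj hT a2 (co y i) with e3 | e3
    · omega
    · exfalso
      apply hne
      have e4 : (comp κ R i).dist (co y i) (co y' i) = 0 := by omega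
      rw [st1_eq hT e4]
  obtain ⟨z, hz1, hz2⟩ := panel_cv M i y (co y i) ⟨y, ag_refl y, rfl⟩ (co y' i)
    ⟨y', fun j hj => h j (fun e => hj e), rfl⟩ ⟨c, hc⟩ hb
  exact ⟨z, by rw [hz2], fun j hj => hz1 j (fun e => hj e)⟩

private theorem F11_stpU {i j : ι'} {x y : Pt} (h : VSt (comp κ S) co i x y)
    (h' : VSt (comp κ S) co j x y) : i = j := by
  by_contra hne
  have h1 := h.2 j (fun e => hne e.symm)
  have h2 := h'.1
  rw [h1] at h2
  exact (comp κ S j).irrefl h2

private theorem F11_tri (hP : VPre G Γ' κ S co N') {p q r : V} (h1 : S.Adj p q) (h2 : S.Adj q r)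
    (h3 : S.Adj p r) : False := by
  have hT := (hP.ms.tree (κ p)).isAcyclic
  let p' : Fib κ (κ p) := ⟨p, rfl⟩
  let q' : Fib κ (κ p) := ⟨q, (hP.kapS _ _ h1).symm⟩
  let r' : Fib κ (κ p) := ⟨r, (hP.kapS _ _ h3).symm⟩
  have a1 : (comp κ S (κ p)).Adj p' q' := h1
  have a2 : (comp κ S (κ p)).Adj q' r' := h2
  have a3 : (comp κ S (κ p)).Adj p' r' := h3
  have w1 : (SimpleGraph.Walk.cons a3 SimpleGraph.Walk.nil).IsPath := by
    simp [a3.ne]
  have w2 : (SimpleGraph.Walk.cons a1 (SimpleGraph.Walk.cons a2 SimpleGraph.Walk.nil)).IsPath := by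
    simp [a1.ne, a2.ne, a3.ne]
  have e := (hT.subsingleton_path _ _).elim ⟨_, w1⟩ ⟨_, w2⟩
  have e' := congrArg (fun w => w.1.length) e
  simp at e'

private theorem F11_mid (hP : VPre G Γ' κ S co N') {p r q q' : V} (hne : p ≠ r) (h1 : S.Adj q p)
    (h2 : S.Adj q r) (h3 : S.Adj q' p) (h4 : S.Adj q' r) : q = q' := by
  have hT := (hP.ms.tree (κ p)).isAcyclic
  let p1 : Fib κ (κ p) := ⟨p, rfl⟩
  let q1 : Fib κ (κ p) := ⟨q, hP.kapS _ _ h1⟩
  let q2 : Fib κ (κ p) := ⟨q', hP.kapS _ _ h3⟩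
  let r1 : Fib κ (κ p) := ⟨r, by rw [← hP.kapS _ _ h2, hP.kapS _ _ h1]⟩
  have a1 : (comp κ S (κ p)).Adj p1 q1 := h1.symm
  have a2 : (comp κ S (κ p)).Adj q1 r1 := h2
  have a3 : (comp κ S (κ p)).Adj p1 q2 := h3.symm
  have a4 : (comp κ S (κ p)).Adj q2 r1 := h4
  have hpr : p1 ≠ r1 := fun e => hne (congrArg Subtype.val e)
  have w1 : (SimpleGraph.Walk.cons a1 (SimpleGraph.Walk.cons a2 SimpleGraph.Walk.nil)).IsPath := by
    simp [a1.ne, a2.ne, hpr]
  have w2 : (SimpleGraph.Walk.cons a3 (SimpleGraph.Walk.cons a4 SimpleGraph.Walk.nil)).IsPath := by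
    simp [a3.ne, a4.ne, hpr]
  have e := (hT.subsingleton_path _ _).elim ⟨_, w1⟩ ⟨_, w2⟩
  have e' := congrArg (fun w => w.1.support) e
  simp only [SimpleGraph.Walk.support_cons, SimpleGraph.Walk.support_nil] at e'
  have e2 : q1 = q2 := by
    injection e' with _ e3
    injection e3
  exact congrArg Subtype.val e2

/-- the arrow `c` at the frame `f` moves the coordinate `j` from `y` to `y'` -/
private structure F11_M (L : VF X (comp κ S) co F) (f : F) (c : A) (j : ι') (y y' : V) : Prop where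
  o : X.o c = L.p f
  mv : X.mv c
  ty : L.lam f (X.ty c) = j
  fst : (co (L.pt f) j).1 = y
  snd : (co (L.pt (L.act f c)) j).1 = y'

private theorem F11_M.vE {L : VF X (comp κ S) co F} {f : F} {c : A} {j : ι'} {y y' : V}
    (h : F11_M L f c j y y') : vE L f c = (y, y') := by
  obtain ⟨_, _, rfl, rfl, rfl⟩ := h
  rfl

private theorem F11_M.adj {L : VF X (comp κ S) co F} {f : F} {c : A} {j : ι'} {y y' : V}
    (h : F11_M L f c j y y') : S.Adj y y' := by
  obtain ⟨ho, hm, rfl, rfl, rfl⟩ := h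
  exact (L.mo f c ho hm).1

private theorem F11_M.oth {L : VF X (comp κ S) co F} {f : F} {c : A} {j : ι'} {y y' : V}
    (h : F11_M L f c j y y') (i : ι') (hi : i ≠ j) : co (L.pt (L.act f c)) i = co (L.pt f) i := by
  obtain ⟨ho, hm, rfl, rfl, rfl⟩ := h
  exact (L.mo f c ho hm).2 i hi

private theorem F11_M.inv (hX : VV0 Γ N X) {L : VF X (comp κ S) co F} {f : F} {c : A} {j : ι'}
    {y y' : V} (h : F11_M L f c j y y') : F11_M L (L.act f c) (X.i c) j y' y := by
  have hp := L.act_p f c h.o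
  refine ⟨by rw [hX.oi, hp], (hX.mi c).2 h.mv, ?_, h.snd, ?_⟩
  · rw [hX.tyi c h.mv, L.act_lam f c h.o, h.ty]
  · rw [L.act_i f c h.o, h.fst]

private theorem F11_M.of {L : VF X (comp κ S) co F} {f : F} {c : A} (ho : X.o c = L.p f)
    (hm : X.mv c) : F11_M L f c (L.lam f (X.ty c)) (VTB.vE L f c).1 (VTB.vE L f c).2 :=
  ⟨ho, hm, rfl, rfl, rfl⟩

private theorem F11_M.sur (L : VF X (comp κ S) co F) {f f' : F} {j : ι'}
    (hi : ∀ i, i ≠ j → co (L.pt f') i = co (L.pt f) i) (ha : S.Adj (co (L.pt f) j).1 (co (L.pt f') j).1) :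
    ∃ c, F11_M L f c j (co (L.pt f) j).1 (co (L.pt f') j).1 ∧ L.act f c = f' := by
  have hs : VSt (comp κ S) co j (L.pt f) (L.pt f') := ⟨ha, hi⟩
  obtain ⟨c, ho, hc⟩ := L.sur f f' (Or.inr ⟨j, hs⟩)
  have hm : X.mv c := by
    by_contra hn
    have h1 := L.st f c ho hn
    rw [hc] at h1
    rw [h1] at ha
    exact S.irrefl ha
  have h1 := L.mo f c ho hm
  rw [hc] at h1
  exact ⟨c, ⟨ho, hm, F11_stpU h1 hs, rfl, by rw [hc]⟩, hc⟩

private theorem F11_par (hX : VV0 Γ N X) {L : VF X (comp κ S) co F} (hP : VPre G Γ' κ S co N') (hL : VCov G L)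
    {f f' : F} {a a' : A} {j j' : ι'} {y z y' z' : V} (h : F11_M L f a j y z)
    (h' : F11_M L f' a' j' y' z') : Par X a a' ↔ ∃ g : G, g • y = y' ∧ g • z = z' := by
  have h1 := v_par_iff hP hX hL f f' a a' h.o h'.o h.mv h'.mv
  rw [h.vE, h'.vE] at h1
  exact h1

private theorem F11_par2 (hX : VV0 Γ N X) {L : VF X (comp κ S) co F} (hP : VPre G Γ' κ S co N') (hL : VCov G L)
    {f f' : F} {a a' b b' : A} {j j' : ι'} {y z w y' z' w' : V} (h : F11_M L f a j y z)
    (k : F11_M L f b j y w) (h' : F11_M L f' a' j' y' z') (k' : F11_M L f' b' j' y' w') :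
    Par2 X a b a' b' ↔ ∃ g : G, g • y = y' ∧ g • z = z' ∧ g • w = w' := by
  have h1 := v_par2_iff hP hX hL f f' a b a' b' h.o k.o h'.o k'.o h.mv k.mv h'.mv k'.mv
    ((L.bij f).1 (by rw [h.ty, k.ty])) ((L.bij f').1 (by rw [h'.ty, k'.ty]))
  rw [h.vE, h'.vE, k.vE, k'.vE] at h1
  exact h1

private theorem F11_pmv (hX : VV0 Γ N X) {a c : A} (h : Par X a c) (ha : X.mv a) : X.mv c := by
  induction h with
  | refl => exact ha
  | ml a' s _ hl ih => exact (hX.mlm s a' hl).2 ih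
  | mr a' s _ hr ih => exact (vv_mrm hX hr).2 ih
  | sq a' b c d _ hs ih => exact (hX.sqT _ _ _ _ hs).md

private theorem F11_p2 (hX : VV0 Γ N X) {a b a' b' : A} (h : Par2 X a b a' b') (ho : X.o a = X.o b)
    (ht : X.ty a = X.ty b) (ha : X.mv a) (hb : X.mv b) :
    X.o a' = X.o b' ∧ X.ty a' = X.ty b' ∧ X.mv a' ∧ X.mv b' := by
  induction h with
  | refl => exact ⟨ho, ht, ha, hb⟩
  | ml a' b' s _ hl ih =>
    obtain ⟨h1, h2, h3, h4⟩ := ih
    have hl' : X.lc s b' := ⟨hl.1, by rw [hl.2, h1]⟩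
    refine ⟨by rw [hX.mlo s a' hl, hX.mlo s b' hl'], ?_, (hX.mlm s a' hl).2 h3,
      (hX.mlm s b' hl').2 h4⟩
    have h5 := hX.mly s a' hl h3
    have h6 := hX.mly s b' hl' h4
    rw [← hX.pi s (X.ty (X.ml s a')), h5, h2, ← h6, hX.pi]
  | mr1 a' b' s _ hr ih =>
    obtain ⟨h1, h2, h3, h4⟩ := ih
    exact ⟨by rw [vv_mro hX hr, h1], by rw [vv_mry hX hr h3, h2], (vv_mrm hX hr).2 h3, h4⟩
  | mr2 a' b' s _ hr ih =>
    obtain ⟨h1, h2, h3, h4⟩ := ih
    exact ⟨by rw [vv_mro hX hr, h1], by rw [vv_mry hX hr h4, h2], h3, (vv_mrm hX hr).2 h4⟩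
  | sq a' b' c c₁ c₂ d₁ d₂ _ hs1 hs2 ih =>
    obtain ⟨h1, h2, h3, h4⟩ := ih
    have T1 := hX.sqT _ _ _ _ hs1
    have T2 := hX.sqT _ _ _ _ hs2
    exact ⟨by rw [← T1.tcd, T2.tcd], by rw [T1.tyd, T2.tyd, h2], T1.md, T2.md⟩

/-- the data of a slide -/
private structure F11_D (G : Type) [Group G] [MulAction G V] (L : VF X (comp κ S) co F)
    (S' : SimpleGraph V) (a b : A) (f₀ : F) (j₀ : ι') (v x u : V) : Prop where
  ma : F11_M L f₀ a j₀ v x
  mb : F11_M L f₀ b j₀ v u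
  sl : ∀ c d, S'.Adj c d ↔ (S.Adj c d ∧ ∀ g : G, ¬ (g • v = c ∧ g • x = d) ∧
    ¬ (g • v = d ∧ g • x = c)) ∨ ∃ g : G, (g • u = c ∧ g • x = d) ∨ (g • u = d ∧ g • x = c)
  ne : u ≠ x

private theorem F11_dat (hX : VV0 Γ N X) (hP : VPre G Γ' κ S co N') {L : VF X (comp κ S) co F} (hL : VCov G L)
    {a b : A} (hl : Legal X a b) (hs : VSlAt G L S' a b) :
    ∃ f₀ j₀ v x u, F11_D G L S' a b f₀ j₀ v x u := by
  obtain ⟨f₀, ho, hs⟩ := hs
  have ha := F11_M.of (L := L) ho hl.ma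
  have ho' : X.o b = L.p f₀ := by rw [← hl.o, ho]
  have hb := F11_M.of (L := L) ho' hl.mb
  have h2 : (vE L f₀ b).1 = (vE L f₀ a).1 := by
    unfold vE
    rw [hl.ty]
  rw [h2, ← hl.ty] at hb
  refine ⟨f₀, _, _, _, _, ha, hb, hs, ?_⟩
  intro e
  apply hl.n1
  rw [F11_par hX hP hL ha hb]
  exact ⟨1, by rw [one_smul], by rw [one_smul, e]⟩

private theorem F11_at (hX : VV0 Γ N X) (hP : VPre G Γ' κ S co N') {L : VF X (comp κ S) co F} (hL : VCov G L)
    {a b : A} {f₀ : F} {j₀ : ι'} {v x u : V} (D : F11_D G L S' a b f₀ j₀ v x u) {a' b' : A}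
    (hp : Par2 X a b a' b') {f : F} (hf : X.o a' = L.p f) :
    ∃ (g : G) (j : ι'), F11_M L f a' j (g • v) (g • x) ∧ F11_M L f b' j (g • v) (g • u) := by
  have ht : X.ty a = X.ty b := (L.bij f₀).1 (by rw [D.ma.ty, D.mb.ty])
  obtain ⟨h1, h2, h3, h4⟩ := F11_p2 hX hp (D.ma.o.trans D.mb.o.symm) ht D.ma.mv D.mb.mv
  have ha' := F11_M.of (L := L) hf h3
  have ho' : X.o b' = L.p f := by rw [← h1, hf]
  have hb' := F11_M.of (L := L) ho' h4
  have h5 : (vE L f b').1 = (vE L f a').1 := by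
    unfold vE
    rw [h2]
  rw [h5, ← h2] at hb'
  obtain ⟨g, e1, e2, e3⟩ := (F11_par2 hX hP hL D.ma D.mb ha' hb').1 hp
  refine ⟨g, L.lam f (X.ty a'), ?_, ?_⟩
  · rw [e1, e2]; exact ha'
  · rw [e1, e3]; exact hb'

/-- an arrow does not lead to a frame with a coordinate at distance two -/
private theorem F11_no (hP : VPre G Γ' κ S co N') {L : VF X (comp κ S) co F} {f : F} {c : A} {j : ι'}
    {p q w : V} (ho : X.o c = L.p f) (h1 : (co (L.pt f) j).1 = p) (h2 : (co (L.pt (L.act f c)) j).1 = q)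
    (hne : p ≠ q) (hp : S.Adj w p) (hq : S.Adj w q) : False := by
  have hm : X.mv c := by
    by_contra hn
    rw [L.st f c ho hn, h1] at h2
    exact hne h2
  have hM := F11_M.of (L := L) ho hm
  have hj : L.lam f (X.ty c) = j := by
    by_contra hj
    have h3 := hM.oth j (fun e => hj e.symm)
    rw [h3, h1] at h2
    exact hne h2
  have h3 := (L.mo f c ho hm).1
  rw [hj] at h3
  have h4 : S.Adj p q := by
    rw [← h1, ← h2]
    exact h3
  exact F11_tri hP hp h4 hq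

/-- the words of the arrow `m` -/
private structure F11_K (L : VF X (comp κ S) co F) (L' : VF Y (comp κ S') co F) (a b : A) (m : A')
    (c d : A) : Prop where
  o : X.o c = Y.o m
  od : X.o d = X.t c
  act : ∀ f, L.p f = Y.o m → L.act (L.act f c) d = L'.act f m
  mv : Y.mv m ↔ X.mv c
  ty : Y.mv m → Y.ty m = X.ty c
  kind : (¬ Par X a c ∧ ¬ Par X a (X.i c) ∧ d = X.e (X.t c)) ∨
    Par2 X a b d (X.i c) ∨ Par2 X a b (X.i c) d

private theorem F11_key0 (hX : VV0 Γ N X) (hP : VPre G Γ' κ S co N') {L : VF X (comp κ S) co F}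
    (hL : VCov G L) {a b : A} {f₀ : F} {j₀ : ι'} {v x u : V}
    (D : F11_D G L S' a b f₀ j₀ v x u) {L' : VF Y (comp κ S') co F} (h1 : L'.pt = L.pt)
    (h2 : L'.lam = L.lam) (h3 : L'.p = L.p) (m : A') (f : F) (hf : L.p f = Y.o m) :
    ∃ c d, X.o c = Y.o m ∧ X.o d = X.t c ∧ L.act (L.act f c) d = L'.act f m ∧
      (Y.mv m ↔ X.mv c) ∧ (Y.mv m → Y.ty m = X.ty c) ∧
      ((¬ Par X a c ∧ ¬ Par X a (X.i c) ∧ d = X.e (X.t c)) ∨
        Par2 X a b d (X.i c) ∨ Par2 X a b (X.i c) d) := by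
  classical
  have hf' : Y.o m = L'.p f := by rw [h3, hf]
  have ee : ∀ c, X.o c = L.p f → L.act (L.act f c) (X.e (X.t c)) = L.act f c := by
    intro c hc
    rw [← L.act_p f c hc, L.act_e]
  by_cases hm : Y.mv m
  · have hs := L'.mo f m hf' hm
    rw [h1, h2] at hs
    obtain ⟨f', hf1⟩ : ∃ f', f' = L'.act f m := ⟨_, rfl⟩
    obtain ⟨j, hj⟩ : ∃ j, j = L.lam f (Y.ty m) := ⟨_, rfl⟩
    rw [← hf1, ← hj] at hs
    rw [← hf1]
    have hadj : S'.Adj (co (L.pt f) j).1 (co (L.pt f') j).1 := hs.1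
    have hty : ∀ c, L.lam f (X.ty c) = j → Y.ty m = X.ty c := fun c hc =>
      (L.bij f).1 (by rw [hc, hj])
    have hv : ∀ g : G, κ (g • v) = κ (g • u) := fun g =>
      hP.kapS _ _ (hP.act.adj g _ _ D.mb.adj)
    have hv' : ∀ g : G, κ (g • v) = κ (g • x) := fun g =>
      hP.kapS _ _ (hP.act.adj g _ _ D.ma.adj)
    rcases (D.sl _ _).1 hadj with ⟨ha, hno⟩ | ⟨g, ⟨hu, hx⟩ | ⟨hu, hx⟩⟩
    · obtain ⟨c, hM, hc⟩ := F11_M.sur L hs.2 ha
      refine ⟨c, X.e (X.t c), by rw [hM.o, hf], hX.oe _, by rw [ee c hM.o, hc],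
        iff_of_true hm hM.mv, fun _ => hty c hM.ty, Or.inl ⟨?_, ?_, rfl⟩⟩
      · rw [F11_par hX hP hL D.ma hM]
        rintro ⟨g, e⟩
        exact (hno g).1 e
      · rw [F11_par hX hP hL D.ma (hM.inv hX)]
        rintro ⟨g, e⟩
        exact (hno g).2 e
    · have hκ : κ (g • v) = j := by rw [hv, hu]; exact (co (L.pt f) j).2
      obtain ⟨z, hz1, hz2⟩ := F11_pt hP.ms hs.2 hκ
        (by rw [← hu]; exact (hP.act.adj g _ _ D.mb.adj).symm)
        (by rw [← hx]; exact hP.act.adj g _ _ D.ma.adj) hadj.ne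
      obtain ⟨f₁, hf₁⟩ := L.onto z
      have e1 : (co (L.pt f₁) j).1 = g • v := by rw [hf₁, hz1]
      have e2 : ∀ i, i ≠ j → co (L.pt f₁) i = co (L.pt f) i := by
        intro i hi
        rw [hf₁, hz2 i hi]
      obtain ⟨c, hM, hc⟩ := F11_M.sur L e2 (by
        rw [e1, ← hu]; exact (hP.act.adj g _ _ D.mb.adj).symm)
      obtain ⟨d, hM', hd⟩ := F11_M.sur L (f := f₁) (f' := f') (j := j) (by
        intro i hi
        rw [e2 i hi, hs.2 i hi]) (by
        rw [e1, ← hx]; exact hP.act.adj g _ _ D.ma.adj)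
      refine ⟨c, d, by rw [hM.o, hf], by rw [hM'.o, ← hc, L.act_p f c hM.o], by rw [hc, hd],
        iff_of_true hm hM.mv, fun _ => hty c hM.ty, Or.inr (Or.inl ?_)⟩
      have hI := hM.inv hX
      rw [hc] at hI
      rw [F11_par2 hX hP hL D.ma D.mb hM' hI]
      exact ⟨g, e1.symm, hx, hu⟩
    · have hκ : κ (g • v) = j := by rw [hv', hx]; exact (co (L.pt f) j).2
      obtain ⟨z, hz1, hz2⟩ := F11_pt hP.ms hs.2 hκ
        (by rw [← hx]; exact (hP.act.adj g _ _ D.ma.adj).symm)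
        (by rw [← hu]; exact hP.act.adj g _ _ D.mb.adj) hadj.ne
      obtain ⟨f₁, hf₁⟩ := L.onto z
      have e1 : (co (L.pt f₁) j).1 = g • v := by rw [hf₁, hz1]
      have e2 : ∀ i, i ≠ j → co (L.pt f₁) i = co (L.pt f) i := by
        intro i hi
        rw [hf₁, hz2 i hi]
      obtain ⟨c, hM, hc⟩ := F11_M.sur L e2 (by
        rw [e1, ← hx]; exact (hP.act.adj g _ _ D.ma.adj).symm)
      obtain ⟨d, hM', hd⟩ := F11_M.sur L (f := f₁) (f' := f') (j := j) (by
        intro i hi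
        rw [e2 i hi, hs.2 i hi]) (by
        rw [e1, ← hu]; exact hP.act.adj g _ _ D.mb.adj)
      refine ⟨c, d, by rw [hM.o, hf], by rw [hM'.o, ← hc, L.act_p f c hM.o], by rw [hc, hd],
        iff_of_true hm hM.mv, fun _ => hty c hM.ty, Or.inr (Or.inr ?_)⟩
      have hI := hM.inv hX
      rw [hc] at hI
      rw [F11_par2 hX hP hL D.ma D.mb hI hM']
      exact ⟨g, e1.symm, hx, hu⟩
  · have hst := L'.st f m hf' hm
    rw [h1] at hst
    obtain ⟨c, ho, hc⟩ := L.sur f (L'.act f m) (Or.inl hst)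
    have hmc : ¬ X.mv c := by
      intro hmc
      have h4 := (L.mo f c ho hmc).1
      rw [hc, hst] at h4
      exact (comp κ S _).irrefl h4
    refine ⟨c, X.e (X.t c), by rw [ho, hf], hX.oe _, by rw [ee c ho, hc],
      iff_of_false hm hmc, fun h => absurd h hm, Or.inl ⟨?_, ?_, rfl⟩⟩
    · exact fun hp => hmc (F11_pmv hX hp D.ma.mv)
    · exact fun hp => hmc ((hX.mi c).1 (F11_pmv hX hp D.ma.mv))

private theorem F11_key (hX : VV0 Γ N X) (hP : VPre G Γ' κ S co N') {L : VF X (comp κ S) co F}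
    (hL : VCov G L) {a b : A} {f₀ : F} {j₀ : ι'} {v x u : V}
    (D : F11_D G L S' a b f₀ j₀ v x u) {L' : VF Y (comp κ S') co F} (hL' : VCov G L')
    (h1 : L'.pt = L.pt) (h2 : L'.lam = L.lam) (h3 : L'.p = L.p) (m : A') :
    ∃ c d, F11_K L L' a b m c d := by
  obtain ⟨f, hf⟩ := hL'.onto (Y.o m)
  rw [h3] at hf
  obtain ⟨c, d, k1, k2, k3, k4, k5, k6⟩ := F11_key0 hX hP hL D h1 h2 h3 m f hf
  refine ⟨c, d, k1, k2, ?_, k4, k5, k6⟩
  intro f' hf'
  obtain ⟨g, rfl⟩ := hL.trans f f' (by rw [hf, hf'])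
  have hc : X.o c = L.p f := by rw [k1, hf]
  rw [hL.gact g f c hc, hL.gact g _ d (by rw [k2, L.act_p f c hc]), k3,
    hL'.gact g f m (by rw [h3, hf])]

theorem v_res_of_cov (hX : VV Γ N X) (hY : VV Γ N Y) (hP : VPre G Γ' κ S co N')
    (hP' : VPre G Γ' κ S' co N') (hn' : ∀ (g : G) x y, S'.Adj x y → g • x = y → g • y ≠ x)
    {L : VF X (comp κ S) co F} (hL : VCov G L) {a b : A} (hleg : Legal X a b)
    (hs : VSlAt G L S' a b) {L' : VF Y (comp κ S') co F} (hL' : VCov G L')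
    (h1 : L'.pt = L.pt) (h2 : L'.lam = L.lam) (h3 : L'.p = L.p) :
    ∃ φ₁ φ₂ : A' → A, VRes Γ N X Y a b φ₁ φ₂ := by
  classical
  have hX0 := hX.v0
  obtain ⟨f₀, j₀, v, x, u, D⟩ := F11_dat hX0 hP hL hleg hs
  choose φ₁ φ₂ K using fun m => F11_key hX0 hP hL D hL' h1 h2 h3 m
  have vx : ∀ g : G, S.Adj (g • v) (g • x) := fun g => hP.act.adj g _ _ D.ma.adj
  have vu : ∀ g : G, S.Adj (g • v) (g • u) := fun g => hP.act.adj g _ _ D.mb.adj
  have ux : ∀ g : G, g • u ≠ g • x := fun g e => D.ne (smul_left_cancel g e)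
  have ee : ∀ f c, X.o c = L.p f → L.act (L.act f c) (X.e (X.t c)) = L.act f c := by
    intro f c hc
    rw [← L.act_p f c hc, L.act_e]
  have fr : ∀ q, ∃ f, L.p f = q := hL.onto
  have sur' : ∀ f f', (L.pt f' = L.pt f ∨ ∃ i, VSt (comp κ S') co i (L.pt f) (L.pt f')) →
      ∃ m, Y.o m = L.p f ∧ L'.act f m = f' := by
    intro f f' hh
    rw [← h1] at hh
    rw [← h3]
    exact L'.sur f f' hh
  have inj' : ∀ f m m', Y.o m = L.p f → Y.o m' = L.p f → L'.act f m = L'.act f m' → m = m' := by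
    intro f m m' hh hh'
    rw [← h3] at hh hh'
    exact L'.inj f m m' hh hh'
  have p' : ∀ f m, Y.o m = L.p f → L.p (L'.act f m) = Y.t m := by
    intro f m hh
    rw [← h3] at hh ⊢
    exact L'.act_p f m hh
  have lam' : ∀ f m, Y.o m = L.p f → ∀ k, L.lam (L'.act f m) (Y.pm m k) = L.lam f k := by
    intro f m hh
    rw [← h3] at hh
    rw [← h2]
    exact L'.act_lam f m hh
  have t₂ : ∀ m, X.t (φ₂ m) = Y.t m := by
    intro m
    obtain ⟨f, hf⟩ := fr (Y.o m)
    have hc : X.o (φ₁ m) = L.p f := by rw [(K m).o, hf]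
    have hd : X.o (φ₂ m) = L.p (L.act f (φ₁ m)) := by rw [(K m).od, L.act_p f _ hc]
    rw [← L.act_p _ _ hd, (K m).act f hf, p' f m hf.symm]
  refine ⟨φ₁, φ₂,
    { valid := hY
      o₁ := fun m => (K m).o
      o₂ := fun m => (K m).od
      t₂ := t₂
      pm := ?_
      mv := fun m => (K m).mv
      ty := fun m => (K m).ty
      kind := fun m => (K m).kind
      old := ?_
      new := ?_
      inj₀ := ?_
      inj₁ := ?_
      hom := ?_ }⟩
  · -- pm
    intro m k
    obtain ⟨f, hf⟩ := fr (Y.o m)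
    have hc : X.o (φ₁ m) = L.p f := by rw [(K m).o, hf]
    have hd : X.o (φ₂ m) = L.p (L.act f (φ₁ m)) := by rw [(K m).od, L.act_p f _ hc]
    apply (L.bij (L'.act f m)).1
    rw [lam' f m hf.symm, ← (K m).act f hf, L.act_lam _ _ hd, L.act_lam _ _ hc]
  · -- old
    intro c hn hn'
    obtain ⟨f, hf⟩ := fr (X.o c)
    have hnear : L.pt (L.act f c) = L.pt f ∨
        ∃ i, VSt (comp κ S') co i (L.pt f) (L.pt (L.act f c)) := by
      by_cases hm : X.mv c
      · right
        have hM := F11_M.of (L := L) hf.symm hm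
        refine ⟨L.lam f (X.ty c), ?_, hM.oth⟩
        refine (D.sl _ _).2 (Or.inl ⟨hM.adj, fun g => ⟨fun e => hn ?_, fun e => hn' ?_⟩⟩)
        · exact (F11_par hX0 hP hL D.ma hM).2 ⟨g, e⟩
        · exact (F11_par hX0 hP hL D.ma (hM.inv hX0)).2 ⟨g, e⟩
      · left
        exact L.st f c hf.symm hm
    obtain ⟨m, hmo, hma⟩ := sur' f _ hnear
    have hc : X.o (φ₁ m) = L.p f := by rw [(K m).o, hmo]
    have hd : X.o (φ₂ m) = L.p (L.act f (φ₁ m)) := by rw [(K m).od, L.act_p f _ hc]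
    have hact := (K m).act f hmo.symm
    rw [hma] at hact
    rcases (K m).kind with ⟨-, -, hk⟩ | hk | hk
    · rw [hk, ee _ _ hc] at hact
      have e1 := L.inj f _ _ hc hf.symm hact
      refine ⟨m, e1, ?_⟩
      rw [hk, e1]
    · exfalso
      obtain ⟨g, j, M1, M2⟩ := F11_at hX0 hP hL D hk hd
      have e1 := M1.snd
      have e2 := M2.snd
      rw [hact] at e1
      rw [L.act_i f _ hc] at e2
      exact F11_no hP hf.symm e2 e1 (ux g) (vu g) (vx g)
    · exfalso
      obtain ⟨g, j, M1, M2⟩ := F11_at hX0 hP hL D hk (f := L.act f (φ₁ m))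
        (by rw [hX0.oi, L.act_p f _ hc])
      have e1 := M1.snd
      have e2 := M2.snd
      rw [hact] at e2
      rw [L.act_i f _ hc] at e1
      exact F11_no hP hf.symm e1 e2 (ux g).symm (vx g) (vu g)
  · -- new
    intro a' b' hp
    obtain ⟨f, hf⟩ := fr (X.o a')
    obtain ⟨g, j, Ma, Mb⟩ := F11_at hX0 hP hL D hp hf.symm
    obtain ⟨f₁, hf₁⟩ : ∃ f₁, f₁ = L.act f b' := ⟨_, rfl⟩
    obtain ⟨f₂, hf₂⟩ : ∃ f₂, f₂ = L.act f a' := ⟨_, rfl⟩
    have q1 : (co (L.pt f₁) j).1 = g • u := by rw [hf₁]; exact Mb.snd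
    have q2 : (co (L.pt f₂) j).1 = g • x := by rw [hf₂]; exact Ma.snd
    have q3 : ∀ i, i ≠ j → co (L.pt f₂) i = co (L.pt f₁) i := by
      intro i hi
      rw [hf₁, hf₂, Ma.oth i hi, Mb.oth i hi]
    have hadj : S'.Adj (co (L.pt f₁) j).1 (co (L.pt f₂) j).1 :=
      (D.sl _ _).2 (Or.inr ⟨g, Or.inl ⟨q1.symm, q2.symm⟩⟩)
    obtain ⟨m, hmo, hma⟩ := sur' f₁ f₂ (Or.inr ⟨j, hadj, q3⟩)
    have hc : X.o (φ₁ m) = L.p f₁ := by rw [(K m).o, hmo]
    have hd : X.o (φ₂ m) = L.p (L.act f₁ (φ₁ m)) := by rw [(K m).od, L.act_p f₁ _ hc]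
    have hact := (K m).act f₁ hmo.symm
    rw [hma] at hact
    have hic : X.o (X.i (φ₁ m)) = L.p (L.act f₁ (φ₁ m)) := by rw [hX0.oi, L.act_p f₁ _ hc]
    rcases (K m).kind with ⟨-, -, hk⟩ | hk | hk
    · exfalso
      rw [hk, ee _ _ hc] at hact
      rw [← hact] at q2
      exact F11_no hP hc q1 q2 (ux g) (vu g) (vx g)
    · obtain ⟨g', j', M1, M2⟩ := F11_at hX0 hP hL D hk hd
      have e1 := M1.snd
      have e2 := M2.snd
      rw [hact] at e1
      rw [L.act_i f₁ _ hc] at e2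
      have hj : j' = j := by
        by_contra hj
        have h5 := q3 j' hj
        rw [← Subtype.coe_inj, e1, e2] at h5
        exact ux g' h5.symm
      subst hj
      rw [q2] at e1
      rw [q1] at e2
      have hmid : g' • v = g • v :=
        F11_mid hP (ux g) (by rw [e2]; exact vu g') (by rw [e1]; exact vx g') (vu g) (vx g)
      have hpt : L.pt f = L.pt (L.act f₁ (φ₁ m)) := by
        apply hP.ms.inj
        intro i
        by_cases hi : i = j'
        · subst hi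
          apply Subtype.ext
          rw [M1.fst, Ma.fst, hmid]
        · have h5 := M2.oth i hi
          rw [L.act_i f₁ _ hc] at h5
          rw [← h5, hf₁, Mb.oth i hi]
      obtain ⟨s, hso, hsa⟩ := L.sur _ _ (Or.inl hpt)
      have hms : ¬ X.mv s := by
        intro hms
        have h5 := (L.mo _ s hso hms).1
        rw [hsa, hpt] at h5
        exact (comp κ S _).irrefl h5
      have hts : X.t s = L.p f := by rw [← L.act_p _ s hso, hsa]
      have hla : X.lc s a' := ⟨hms, by rw [hts, hf]⟩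
      have hlb : X.lc s b' := ⟨hms, by rw [hts, Mb.o]⟩
      have E1 : L.act (L.act f₁ (φ₁ m)) (X.ml s b') = f₁ := by
        rw [L.act_ml _ _ _ hso hlb, hsa, hf₁]
      have E2 : L.act (L.act f₁ (φ₁ m)) (X.ml s a') = f₂ := by
        rw [L.act_ml _ _ _ hso hla, hsa, hf₂]
      have E3 : X.ml s b' = X.i (φ₁ m) :=
        L.inj _ _ _ (by rw [hX0.mlo _ _ hlb, hso]) hic (by rw [E1, L.act_i f₁ _ hc])
      have E4 : X.ml s a' = φ₂ m :=
        L.inj _ _ _ (by rw [hX0.mlo _ _ hla, hso]) hd (by rw [E2, hact])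
      exact ⟨m, s, hla, by rw [E3, hX0.ii], E4.symm⟩
    · exfalso
      obtain ⟨g', j', M1, M2⟩ := F11_at hX0 hP hL D hk hic
      have e1 := M1.snd
      have e2 := M2.snd
      rw [hact] at e2
      rw [L.act_i f₁ _ hc] at e1
      have hj : j' = j := by
        by_contra hj
        have h5 := q3 j' hj
        rw [← Subtype.coe_inj, e1, e2] at h5
        exact ux g' h5
      subst hj
      rw [q1] at e1
      rw [q2] at e2
      refine hn' (g' * g⁻¹) _ _ hadj ?_ ?_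
      · rw [q1, q2, mul_smul, inv_smul_smul, e2]
      · rw [q1, q2, mul_smul, inv_smul_smul, e1]
  · -- inj₀
    intro m m' e1 e2
    obtain ⟨f, hf⟩ := fr (Y.o m)
    have hf' : L.p f = Y.o m' := by rw [← (K m').o, ← e1, (K m).o, hf]
    refine inj' f m m' hf.symm hf'.symm ?_
    rw [← (K m).act f hf, ← (K m').act f hf', e1, e2]
  · -- inj₁
    intro m m' s hk hls e1 e2
    obtain ⟨f, hf⟩ := fr (Y.o m)
    have hc : X.o (φ₁ m) = L.p f := by rw [(K m).o, hf]
    have hd : X.o (φ₂ m) = L.p (L.act f (φ₁ m)) := by rw [(K m).od, L.act_p f _ hc]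
    have hic : X.o (X.i (φ₁ m)) = L.p (L.act f (φ₁ m)) := by rw [hX0.oi, L.act_p f _ hc]
    have hls' : X.lc s (X.i (φ₁ m)) := ⟨hls.1, by rw [hls.2, hd, hic]⟩
    have hts : X.t s = L.p (L.act f (φ₁ m)) := by rw [hls.2, hd]
    have his : X.o (X.i s) = L.p (L.act f (φ₁ m)) := by rw [hX0.oi, hts]
    obtain ⟨f₄, hf₄⟩ : ∃ f₄, f₄ = L.act (L.act f (φ₁ m)) (X.i s) := ⟨_, rfl⟩
    have hs4 : X.o s = L.p f₄ := by rw [hf₄, L.act_p _ _ his, hX0.ti]
    have h4s : L.act f₄ s = L.act f (φ₁ m) := by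
      have h5 := L.act_i _ _ his
      rw [hX0.ii] at h5
      rw [hf₄]
      exact h5
    have E1 : L.act f₄ (X.ml s (X.i (φ₁ m))) = f := by
      rw [L.act_ml _ _ _ hs4 hls', h4s, L.act_i f _ hc]
    have hm4 : X.o (X.ml s (X.i (φ₁ m))) = L.p f₄ := by rw [hX0.mlo _ _ hls', hs4]
    have E2 : L.act f (φ₁ m') = f₄ := by
      rw [e1]
      have h5 := L.act_i _ _ hm4
      rw [E1] at h5
      exact h5
    have hf' : L.p f = Y.o m' := by
      rw [← (K m').o, e1, hX0.oi, hX0.mlt _ _ hls', hX0.ti, hc]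
    refine inj' f m m' hf.symm hf'.symm ?_
    rw [← (K m).act f hf, ← (K m').act f hf', E2, e2, L.act_ml _ _ _ hs4 hls, h4s]
  · -- hom
    have key : ∀ (w : List A') (f : F), IsPath Y (L.p f) w →
        IsPath X (L.p f) (w.flatMap fun m => [φ₁ m, φ₂ m]) ∧
        vactW L f (w.flatMap fun m => [φ₁ m, φ₂ m]) = vactW L' f w ∧
        ((w.flatMap fun m => [φ₁ m, φ₂ m]).map (ug X)).prod =
          (w.map fun m => ug X (φ₁ m) * ug X (φ₂ m)).prod := by
      intro w
      induction w with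
      | nil =>
        intro f _
        exact ⟨trivial, rfl, rfl⟩
      | cons m w ih =>
        intro f hw
        have ho : Y.o m = L.p f := hw.1
        have hw' : IsPath Y (L.p (L'.act f m)) w := by
          rw [p' f m ho]
          exact hw.2
        obtain ⟨i1, i2, i3⟩ := ih (L'.act f m) hw'
        have hp2 := p' f m ho
        refine ⟨?_, ?_, ?_⟩
        · rw [List.flatMap_cons]
          refine ⟨by rw [(K m).o, ho], (K m).od, ?_⟩
          rw [t₂ m, ← hp2]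
          exact i1
        · rw [List.flatMap_cons]
          change vactW L (L.act (L.act f (φ₁ m)) (φ₂ m)) _ = vactW L' (L'.act f m) w
          rw [(K m).act f ho.symm]
          exact i2
        · rw [List.flatMap_cons, List.map_append, List.prod_append, i3, List.map_cons,
            List.prod_cons]
          simp
    have main : ∀ (w w' : List A') (f : F), IsPath Y (L.p f) w → IsPath Y (L.p f) w' →
        vactW L' f w = vactW L' f w' → (w.map fun m => ug X (φ₁ m) * ug X (φ₂ m)).prod =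
          (w'.map fun m => ug X (φ₁ m) * ug X (φ₂ m)).prod := by
      intro w w' f hw hw' he
      obtain ⟨i1, i2, i3⟩ := key w f hw
      obtain ⟨j1, j2, j3⟩ := key w' f hw'
      rw [← i3, ← j3]
      exact (v_ug_iff hP.ms hX0 hL f _ _ i1 j1).2 (by rw [i2, j2, he])
    have pL : ∀ f, L'.p f = L.p f := fun f => by rw [h3]
    have rel : ∀ r ∈ {r | Rel0 Y r},
        FreeGroup.lift (fun m => ug X (φ₁ m) * ug X (φ₂ m)) r = 1 := by
      rintro r (hr : Rel0 Y r)
      cases hr with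
      | one p =>
        obtain ⟨f, hf⟩ := fr p
        have h5 := main [Y.e p] [] f ⟨by rw [hY.v0.oe, hf], trivial⟩ trivial (by
          change L'.act f (Y.e p) = f
          rw [← hf, ← h3]
          exact L'.act_e f)
        simpa using h5
      | inv a =>
        obtain ⟨f, hf⟩ := fr (Y.o a)
        have h5 := main [a, Y.i a] [] f ⟨hf.symm, hY.v0.oi a, trivial⟩ trivial (by
          change L'.act (L'.act f a) (Y.i a) = f
          exact L'.act_i f a (by rw [pL, hf]))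
        simpa using h5
      | ml s a hh =>
        obtain ⟨f, hf⟩ := fr (Y.o s)
        have h5 := main [s, a] [Y.ml s a] f ⟨hf.symm, hh.2.symm, trivial⟩
          ⟨by rw [hY.v0.mlo s a hh, hf], trivial⟩ (by
          change L'.act (L'.act f s) a = L'.act f (Y.ml s a)
          exact (L'.act_ml f s a (by rw [pL, hf]) hh).symm)
        simp only [List.map_cons, List.map_nil, List.prod_cons, List.prod_nil, mul_one] at h5
        simp only [map_mul, map_inv, FreeGroup.lift_apply_of]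
        rw [h5]
        exact mul_inv_cancel _
      | sq a b c d hh =>
        have T := hY.v0.sqT _ _ _ _ hh
        obtain ⟨f, hf⟩ := fr (Y.o a)
        have h5 := main [a, b] [c, d] f ⟨hf.symm, T.tab.symm, trivial⟩
          ⟨by rw [← T.oac, hf], T.tcd.symm, trivial⟩ (by
          change L'.act (L'.act f a) b = L'.act (L'.act f c) d
          exact L'.act_sq f a b c d (by rw [pL, hf]) hh)
        simp only [List.map_cons, List.map_nil, List.prod_cons, List.prod_nil, mul_one] at h5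
        simp only [map_mul, map_inv, FreeGroup.lift_apply_of]
        rw [h5]
        group
    exact ⟨PresentedGroup.toGroup rel, fun m => PresentedGroup.toGroup.of rel⟩

end

end VTB
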