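import Pool.Agent.Lib.MP_32d917_al_vt.F05
import Pool.Agent.Lib.MP_32d917_al_vt.A04

/-!
# F12: the number of arrows is bounded along slides

Adapt F/FBND of MP_32d917_al (simpler: `G` acts on the type `Pt` of points, no `FBND_Pt`). For a graph `R` on `V` let `Mov R (x, y) := ∃ i, VSt (comp κ R) co i x y`, and `MB R D`: any set of pairs in `Mov R` in different `G`-orbits has at most `D` elements (as `FBND_MB`). `FBND_tr` as there. `FBND_step`: if `VSl G κ co R R'` (with vertices `v x u`) and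
`MB R D` then `MB R' D`: relation between an `R`-step and an `R'`-step: equal (if the edge of `V` is not in the orbit of `{v, x}`), or the step `(z, y')` with coordinates `(g • v, g • x)` is related to `(y, y')`, `y` the point which agrees with `z` outside the label and has the coordinate `g • u` (unique by `M.inj`; `g • u` depends only on `(g • v, g • x)` by the
third condition of `SlideAt`), and the same for the reversed steps; every `R'`-step is related to an `R`-step: for a new step between points with coordinates `g • u`, `g • x` the point with the coordinate `g • v` exists by `panel_cv` (A04). If both cases could happen for one pair: no inversions (`noinv` of `R`). `FBND_init`: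
finitely many orbits of points, finitely many steps at every point (`h.ms.loc`), so `MB S D` for some `D`. `FBND_st`: the stabilizers of the points have at most `γ` elements. `FBND_nb`: every point has at most `γ * D` `R`-neighbours. Conclusion as in FBND: let `f` be a frame over the object `q`; the arrows `a` with `X.o a = q` correspond
(`inj`) to the frames `L.act f a`, over at most `γ * D + 1` points; over one point there are at most `γ` frames (`vf_same`, `trans`, `free`). So `m + 1 ≤ (nP + 1) * (γ * D + 1) * γ`.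
The hypothesis `hsl` will be `vsl_vlat` (E14); by induction all graphs on the chain are `VLat`.
-/

set_option autoImplicit false

namespace VTB

open LatIso LatN LatF

section

variable {ι : Type} {G : Type} [Group G] {Pt V ι' : Type} [Fintype ι'] [MulAction G Pt]
  [MulAction G V] [MulAction G ι'] {κ : V → ι'} {S : SimpleGraph V} {co : Pt → ∀ i, Fib κ i}
  {Γ : SimpleGraph ι} {Γ' : SimpleGraph ι'} {N' : Pt → ι' → Prop}

omit [Fintype ι'] in
private theorem F12_val' {R : SimpleGraph V} (hP : VPre G Γ' κ R co N') (g : G) (x : Pt)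
    (j : ι') : (co (g • x) j).1 = g • (co x (g⁻¹ • j)).1 := by
  have h := hP.gco g x (g⁻¹ • j)
  rw [smul_inv_smul] at h
  exact h

/-- pairs of neighbouring points -/
private def F12_Mov (co : Pt → ∀ i, Fib κ i) (R : SimpleGraph V) (p : Pt × Pt) : Prop :=
  ∃ i, R.Adj (co p.1 i).1 (co p.2 i).1 ∧ ∀ j, j ≠ i → co p.2 j = co p.1 j

/-- all pairs of neighbouring points are, up to `G`, in a set of at most `D` elements -/
private def F12_MB (G : Type) [Group G] [MulAction G Pt] (co : Pt → ∀ i, Fib κ i)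
    (R : SimpleGraph V) (D : ℕ) : Prop :=
  ∃ T : Finset (Pt × Pt), T.card ≤ D ∧
    ∀ p : Pt × Pt, F12_Mov co R p → ∃ g : G, g • p ∈ T

omit [MulAction G V] [MulAction G ι'] [Fintype ι'] in
private theorem F12_tr {R R' : SimpleGraph V} {D : ℕ}
    (rel : Pt × Pt → Pt × Pt → Prop)
    (h1 : ∀ (g : G) p p', rel p p' → rel (g • p) (g • p'))
    (h2 : ∀ p p' p'', rel p p' → rel p p'' → p' = p'')
    (h3 : ∀ p', F12_Mov co R' p' → ∃ p, F12_Mov co R p ∧ rel p p')
    (h : F12_MB G co R D) : F12_MB G co R' D := by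
  classical
  obtain ⟨T, hT, hT'⟩ := h
  refine ⟨T.image (fun t => if h : ∃ t', rel t t' then h.choose else t),
    Finset.card_image_le.trans hT, fun p' hp' => ?_⟩
  obtain ⟨p, hp, hr⟩ := h3 p' hp'
  obtain ⟨g, hg⟩ := hT' p hp
  refine ⟨g, ?_⟩
  rw [Finset.mem_image]
  refine ⟨g • p, hg, ?_⟩
  have hex : ∃ t', rel (g • p) t' := ⟨g • p', h1 g p p' hr⟩
  rw [dif_pos hex]
  exact h2 _ _ _ hex.choose_spec (h1 g p p' hr)

/-- the middle point of a path of length two between points which differ in one coordinate -/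
private theorem F12_mid {R : SimpleGraph V} (M : MS1 Γ' (comp κ R) co N') {i : ι'} {y y' : Pt}
    (h : ∀ j, j ≠ i → co y' j = co y j) {c : V} (hc : κ c = i) (h1 : R.Adj (co y i).1 c)
    (h2 : R.Adj c (co y' i).1) (hne : (co y i).1 ≠ (co y' i).1) :
    ∃ z, (co z i).1 = c ∧ ∀ j, j ≠ i → co z j = co y j := by
  have a1 : (comp κ R i).Adj (co y i) ⟨c, hc⟩ := h1
  have a2 : (comp κ R i).Adj ⟨c, hc⟩ (co y' i) := h2
  have hT := M.tree i
  have hb : Bt (comp κ R i) (co y i) ⟨c, hc⟩ (co y' i) := by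
    have e1 := st1_one a1
    have e2 := st1_one a2
    unfold Bt
    rcases st_adj hT a2 (co y i) with e3 | e3
    · omega
    · exfalso
      apply hne
      have e4 : (comp κ R i).dist (co y i) (co y' i) = 0 := by omega
      rw [st1_eq hT e4]
  obtain ⟨z, hz1, hz2⟩ := panel_cv M i y (co y i) ⟨y, ag_refl y, rfl⟩ (co y' i)
    ⟨y', fun j hj => h j (fun e => hj e), rfl⟩ ⟨c, hc⟩ hb
  exact ⟨z, by rw [hz2], fun j hj => hz1 j (fun e => hj e)⟩

private theorem F12_step {R R' : SimpleGraph V} {D : ℕ} (L : VLat G Γ' κ R co N')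
    (hs : VSl G κ co R R') (h : F12_MB G co R D) : F12_MB G co R' D := by
  classical
  have hP := L.pre
  have M := hP.ms
  obtain ⟨i₀, x₀, y₀, z₀, hs1, hs2, hn1, hn2, hst, hadj⟩ := hs
  obtain ⟨v, hv⟩ : ∃ v, v = (co x₀ i₀).1 := ⟨_, rfl⟩
  obtain ⟨x, hx⟩ : ∃ x, x = (co y₀ i₀).1 := ⟨_, rfl⟩
  obtain ⟨u, hu⟩ : ∃ u, u = (co z₀ i₀).1 := ⟨_, rfl⟩
  have hvx : R.Adj v x := by
    rw [hv, hx]
    exact hs1.1
  have hvu : R.Adj v u := by
    rw [hv, hu]
    exact hs2.1
  rw [← hv, ← hx, ← hu] at hn1 hn2 hst hadj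
  have hxu : x ≠ u := by
    intro e
    exact hn1 1 ⟨one_smul _ _, by rw [one_smul, e]⟩
  refine F12_tr (fun p p' => ∃ i, R.Adj (co p.1 i).1 (co p.2 i).1 ∧
    (∀ j, j ≠ i → co p.2 j = co p.1 j) ∧
    ((∃ g : G, g • v = (co p.1 i).1 ∧ g • x = (co p.2 i).1 ∧ (co p'.1 i).1 = g • u ∧
        (∀ j, j ≠ i → co p'.1 j = co p.1 j) ∧ p'.2 = p.2) ∨
      (∃ g : G, g • v = (co p.2 i).1 ∧ g • x = (co p.1 i).1 ∧ (co p'.2 i).1 = g • u ∧
        (∀ j, j ≠ i → co p'.2 j = co p.2 j) ∧ p'.1 = p.1) ∨
      ((∀ g : G, ¬ (g • v = (co p.1 i).1 ∧ g • x = (co p.2 i).1) ∧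
        ¬ (g • v = (co p.2 i).1 ∧ g • x = (co p.1 i).1)) ∧ p' = p))) ?_ ?_ ?_ h
  · -- equivariance
    rintro k p p' ⟨i, h1, h2, h3⟩
    have hne : ∀ j, j ≠ k • i → k⁻¹ • j ≠ i := by
      intro j hj hcon
      apply hj
      rw [← hcon, smul_inv_smul]
    have hoff : ∀ z w : Pt, (∀ j, j ≠ i → co z j = co w j) →
        ∀ j, j ≠ k • i → co (k • z) j = co (k • w) j := by
      intro z w hzw j hj
      apply Subtype.ext
      rw [F12_val' hP, F12_val' hP, hzw _ (hne j hj)]
    refine ⟨k • i, ?_, hoff _ _ h2, ?_⟩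
    · show R.Adj (co (k • p.1) (k • i)).1 (co (k • p.2) (k • i)).1
      rw [hP.gco, hP.gco]
      exact hP.act.adj k _ _ h1
    · rcases h3 with ⟨g, e1, e2, e3, e4, e5⟩ | ⟨g, e1, e2, e3, e4, e5⟩ | ⟨e1, e2⟩
      · refine Or.inl ⟨k * g, ?_, ?_, ?_, hoff _ _ e4, ?_⟩
        · rw [mul_smul, e1]
          exact (hP.gco k p.1 i).symm
        · rw [mul_smul, e2]
          exact (hP.gco k p.2 i).symm
        · rw [mul_smul, ← e3]
          exact hP.gco k p'.1 i
        · show k • p'.2 = k • p.2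
          rw [e5]
      · refine Or.inr (Or.inl ⟨k * g, ?_, ?_, ?_, hoff _ _ e4, ?_⟩)
        · rw [mul_smul, e1]
          exact (hP.gco k p.2 i).symm
        · rw [mul_smul, e2]
          exact (hP.gco k p.1 i).symm
        · rw [mul_smul, ← e3]
          exact hP.gco k p'.2 i
        · show k • p'.1 = k • p.1
          rw [e5]
      · refine Or.inr (Or.inr ⟨fun g => ?_, by rw [e2]⟩)
        have f1 : (co (k • p).1 (k • i)).1 = k • (co p.1 i).1 := hP.gco k p.1 i
        have f2 : (co (k • p).2 (k • i)).1 = k • (co p.2 i).1 := hP.gco k p.2 i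
        rw [f1, f2]
        constructor
        · rintro ⟨d1, d2⟩
          apply (e1 (k⁻¹ * g)).1
          rw [mul_smul, mul_smul, d1, d2, inv_smul_smul, inv_smul_smul]
          exact ⟨rfl, rfl⟩
        · rintro ⟨d1, d2⟩
          apply (e1 (k⁻¹ * g)).2
          rw [mul_smul, mul_smul, d1, d2, inv_smul_smul, inv_smul_smul]
          exact ⟨rfl, rfl⟩
  · -- functionality
    rintro p p' p'' ⟨i, h1, h2, h3⟩ ⟨i', h1', h2', h3'⟩
    have hii : i' = i := by
      by_contra hcon
      have e1 := h2 i' hcon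
      rw [e1] at h1'
      exact R.irrefl h1'
    subst hii
    have key : ∀ g g' : G, g • v = g' • v → g • x = g' • x → g • u = g' • u := by
      intro g g' d1 d2
      have d3 := hst (g'⁻¹ * g) (by rw [mul_smul, d1, inv_smul_smul])
        (by rw [mul_smul, d2, inv_smul_smul])
      rw [mul_smul, inv_smul_eq_iff] at d3
      exact d3
    have noi : ∀ g g' : G, g • v = g' • x → g • x = g' • v → False := by
      intro g g' d1 d2
      refine L.noinv (g'⁻¹ * g) v x hvx ?_ ?_
      · rw [mul_smul, d1, inv_smul_smul]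
      · rw [mul_smul, d2, inv_smul_smul]
    have hext : ∀ z w : Pt, (co z i').1 = (co w i').1 → (∀ j, j ≠ i' → co z j = co w j) →
        z = w := by
      intro z w d1 d2
      apply M.inj
      intro j
      by_cases hj : j = i'
      · subst hj
        exact Subtype.ext d1
      · exact d2 j hj
    rcases h3 with ⟨g, e1, e2, e3, e4, e5⟩ | ⟨g, e1, e2, e3, e4, e5⟩ | ⟨e1, e2⟩
    · rcases h3' with ⟨g', e1', e2', e3', e4', e5'⟩ | ⟨g', e1', e2', e3', e4', e5'⟩ | ⟨e1', e2'⟩
      · refine Prod.ext ?_ (e5.trans e5'.symm)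
        refine hext _ _ ?_ fun j hj => (e4 j hj).trans (e4' j hj).symm
        rw [e3, e3']
        exact key g g' (e1.trans e1'.symm) (e2.trans e2'.symm)
      · exact (noi g g' (e1.trans e2'.symm) (e2.trans e1'.symm)).elim
      · exact ((e1' g).1 ⟨e1, e2⟩).elim
    · rcases h3' with ⟨g', e1', e2', e3', e4', e5'⟩ | ⟨g', e1', e2', e3', e4', e5'⟩ | ⟨e1', e2'⟩
      · exact (noi g g' (e1.trans e2'.symm) (e2.trans e1'.symm)).elim
      · refine Prod.ext (e5.trans e5'.symm) ?_
        refine hext _ _ ?_ fun j hj => (e4 j hj).trans (e4' j hj).symm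
        rw [e3, e3']
        exact key g g' (e1.trans e1'.symm) (e2.trans e2'.symm)
      · exact ((e1' g).2 ⟨e1, e2⟩).elim
    · rcases h3' with ⟨g', e1', e2', e3', e4', e5'⟩ | ⟨g', e1', e2', e3', e4', e5'⟩ | ⟨e1', e2'⟩
      · exact ((e1 g').1 ⟨e1', e2'⟩).elim
      · exact ((e1 g').2 ⟨e1', e2'⟩).elim
      · rw [e2, e2']
  · -- surjectivity
    rintro p' ⟨i, h1, h2⟩
    rw [hadj] at h1
    have hkap : ∀ g : G, κ (g • v) = κ (g • x) := by
      intro g
      rw [hP.act.kap, hP.act.kap, hP.kapS v x hvx]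
    rcases h1 with ⟨h1, h3⟩ | ⟨g, ⟨h1, h3⟩ | ⟨h1, h3⟩⟩
    · refine ⟨p', ⟨i, h1, h2⟩, i, h1, h2, Or.inr (Or.inr ⟨h3, rfl⟩)⟩
    · have hκ : κ (g • v) = i := by
        rw [hkap, h3]
        exact (co p'.2 i).2
      obtain ⟨z, hz1, hz2⟩ := F12_mid M h2 hκ
        (by rw [← h1]; exact (hP.act.adj g v u hvu).symm)
        (by rw [← h3]; exact hP.act.adj g v x hvx)
        (by rw [← h1, ← h3]; exact fun e => hxu (smul_left_cancel g e).symm)
      have hA : R.Adj (co z i).1 (co p'.2 i).1 := by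
        rw [hz1, ← h3]
        exact hP.act.adj g v x hvx
      have hB : ∀ j, j ≠ i → co p'.2 j = co z j := by
        intro j hj
        rw [hz2 j hj]
        exact h2 j hj
      exact ⟨(z, p'.2), ⟨i, hA, hB⟩, i, hA, hB,
        Or.inl ⟨g, hz1.symm, h3, h1.symm, fun j hj => (hz2 j hj).symm, rfl⟩⟩
    · have hκ : κ (g • v) = i := by
        rw [hkap, h3]
        exact (co p'.1 i).2
      obtain ⟨z, hz1, hz2⟩ := F12_mid M (fun j hj => (h2 j hj).symm) hκ
        (by rw [← h1]; exact (hP.act.adj g v u hvu).symm)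
        (by rw [← h3]; exact hP.act.adj g v x hvx)
        (by rw [← h1, ← h3]; exact fun e => hxu (smul_left_cancel g e).symm)
      have hA : R.Adj (co p'.1 i).1 (co z i).1 := by
        rw [hz1, ← h3]
        exact (hP.act.adj g v x hvx).symm
      have hB : ∀ j, j ≠ i → co z j = co p'.1 j := by
        intro j hj
        rw [hz2 j hj]
        exact h2 j hj
      exact ⟨(p'.1, z), ⟨i, hA, hB⟩, i, hA, hB,
        Or.inr (Or.inl ⟨g, hz1.symm, h3, h1.symm, fun j hj => (hz2 j hj).symm, rfl⟩)⟩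

private theorem F12_init {S : SimpleGraph V} (L : VLat G Γ' κ S co N') :
    ∃ D : ℕ, F12_MB G co S D := by
  classical
  have hP := L.pre
  obtain ⟨F, hF⟩ := L.fin
  have hfin : ∀ x0 : Pt, {y : Pt | F12_Mov co S (x0, y)}.Finite := by
    intro x0
    refine Set.Finite.subset (s := ⋃ i : ι', {y : Pt | VSt (comp κ S) co i x0 y}) ?_ ?_
    · exact Set.finite_iUnion fun i => L.ms.loc x0 i
    · rintro y ⟨i, h1, h2⟩
      rw [Set.mem_iUnion]
      exact ⟨i, h1, h2⟩
  refine ⟨_, (F.biUnion fun x0 => ((hfin x0).toFinset.image fun y => ((x0, y) :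
    Pt × Pt))), le_rfl, ?_⟩
  rintro ⟨x, y⟩ hp
  obtain ⟨g, hx0⟩ := hF x
  refine ⟨g, ?_⟩
  rw [Finset.mem_biUnion]
  refine ⟨g • x, hx0, ?_⟩
  rw [Finset.mem_image]
  refine ⟨g • y, ?_, rfl⟩
  rw [Set.Finite.mem_toFinset]
  obtain ⟨i, h1, h2⟩ := hp
  refine ⟨g • i, ?_, ?_⟩
  · show S.Adj (co (g • x) (g • i)).1 (co (g • y) (g • i)).1
    rw [hP.gco, hP.gco]
    exact hP.act.adj g _ _ h1
  · intro j hj
    show co (g • y) j = co (g • x) j
    apply Subtype.ext
    rw [F12_val' hP, F12_val' hP]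
    have h5 : co y (g⁻¹ • j) = co x (g⁻¹ • j) := h2 (g⁻¹ • j) (fun hcon => hj (by
      rw [← hcon, smul_inv_smul]))
    exact congrArg (fun w : Fib κ (g⁻¹ • j) => g • w.1) h5

/-- a bound for the stabilizers -/
private theorem F12_st {S : SimpleGraph V} (L : VLat G Γ' κ S co N') :
    ∃ γ : ℕ, ∀ x : Pt, ∃ s : Finset G, s.card ≤ γ ∧ ∀ g : G, g • x = x → g ∈ s := by
  classical
  obtain ⟨F, hF⟩ := L.fin
  refine ⟨∑ x ∈ F, (L.prop x).toFinset.card, fun x => ?_⟩
  obtain ⟨k, hx0⟩ := hF x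
  refine ⟨(L.prop (k • x)).toFinset.image (fun g => k⁻¹ * g * k), ?_, fun g hg => ?_⟩
  · refine Finset.card_image_le.trans ?_
    exact Finset.single_le_sum (f := fun x => (L.prop x).toFinset.card)
      (fun _ _ => Nat.zero_le _) hx0
  · rw [Finset.mem_image]
    refine ⟨k * g * k⁻¹, ?_, by group⟩
    rw [Set.Finite.mem_toFinset]
    show (k * g * k⁻¹) • (k • x) = k • x
    rw [mul_smul, mul_smul, inv_smul_smul, hg]

/-- a set in one orbit of a stabilizer -/
private theorem F12_orb {G : Type} [Group G] {β : Type} [MulAction G β] [DecidableEq β] {γ : ℕ}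
    (s : Finset G) (hs : s.card ≤ γ) (Y : Finset β)
    (hY : ∀ y ∈ Y, ∀ y' ∈ Y, ∃ g ∈ s, g • y = y') : Y.card ≤ γ := by
  rcases Y.eq_empty_or_nonempty with h | ⟨y, hy⟩
  · rw [h, Finset.card_empty]
    exact Nat.zero_le _
  · refine le_trans (Finset.card_le_card (t := s.image fun g => g • y) ?_)
      (Finset.card_image_le.trans hs)
    intro y' hy'
    obtain ⟨g, hg, h⟩ := hY y hy y' hy'
    rw [Finset.mem_image]
    exact ⟨g, hg, h⟩

omit [MulAction G V] [MulAction G ι'] [Fintype ι'] in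
/-- the neighbours of a point -/
private theorem F12_nb {R : SimpleGraph V} {D γ : ℕ} (hD : F12_MB G co R D)
    (hγ : ∀ x : Pt, ∃ s : Finset G, s.card ≤ γ ∧ ∀ g : G, g • x = x → g ∈ s)
    (x : Pt) (Y : Finset Pt) (hY : ∀ y ∈ Y, F12_Mov co R (x, y)) :
    Y.card ≤ γ * D := by
  classical
  obtain ⟨T, hT, hT'⟩ := hD
  have hch : ∀ y : Pt, ∃ g : G, y ∈ Y → g • (x, y) ∈ T := by
    intro y
    by_cases hy : y ∈ Y
    · obtain ⟨g, hg⟩ := hT' (x, y) (hY y hy)
      exact ⟨g, fun _ => hg⟩
    · exact ⟨1, fun h => absurd h hy⟩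
  choose c hc using hch
  obtain ⟨s, hs, hs'⟩ := hγ x
  have h1 := Finset.card_le_mul_card_image (f := fun y => c y • ((x, y) : Pt × Pt)) Y γ ?_
  · refine h1.trans (Nat.mul_le_mul_left γ ((Finset.card_le_card ?_).trans hT))
    intro t ht
    rw [Finset.mem_image] at ht
    obtain ⟨y, hy, rfl⟩ := ht
    exact hc y hy
  · intro t _
    refine F12_orb s hs _ ?_
    intro y hy y' hy'
    rw [Finset.mem_filter] at hy hy'
    have h2 : c y • x = t.1 := congrArg Prod.fst hy.2
    have h3 : c y • y = t.2 := congrArg Prod.snd hy.2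
    have h2' : c y' • x = t.1 := congrArg Prod.fst hy'.2
    have h3' : c y' • y' = t.2 := congrArg Prod.snd hy'.2
    refine ⟨(c y')⁻¹ * c y, hs' _ ?_, ?_⟩
    · rw [mul_smul, h2, ← h2', inv_smul_smul]
    · rw [mul_smul, h3, ← h3', inv_smul_smul]

theorem v_cov_bound {nP : ℕ} (hsl : ∀ R R' : SimpleGraph V, VLat G Γ' κ R co N' →
      VSl G κ co R R' → VLat G Γ' κ R' co N') (h : VLat G Γ' κ S co N') :
    ∃ B : ℕ, ∀ S₁ : SimpleGraph V, Relation.ReflTransGen (VSl G κ co) S S₁ →
      ∀ (m : ℕ) (N : Fin (nP + 1) → ι → Prop) (Z : FD ι (Fin (nP + 1)) (Fin (m + 1))),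
        IsVCov G Γ' κ S₁ co N' Γ N Z → m ≤ B := by
  classical
  obtain ⟨D, hD⟩ := F12_init h
  obtain ⟨γ, hγ⟩ := F12_st h
  refine ⟨(γ * (γ * D + 1)) * (nP + 1), fun S₁ hsl₁ m N Z hZ => ?_⟩
  have hboth : VLat G Γ' κ S₁ co N' ∧ F12_MB G co S₁ D := by
    clear hZ
    induction hsl₁ with
    | refl => exact ⟨h, hD⟩
    | tail _ hs ih => exact ⟨hsl _ _ ih.1 hs, F12_step ih.1 hs ih.2⟩
  obtain ⟨-, hD₁⟩ := hboth
  obtain ⟨hP, hv, F, _, L, -, hL⟩ := hZ
  -- a frame for every object
  choose f hf using hL.onto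
  obtain ⟨pt, hpt⟩ : ∃ pt : F → Pt, ∀ φ, pt φ = L.pt φ := ⟨L.pt, fun _ => rfl⟩
  -- frames over the same point
  have hframe : ∀ (y : Pt), ∃ s : Finset G, s.card ≤ γ ∧
      ∀ φ φ' : F, pt φ = y → pt φ' = y → ∃ g ∈ s, g • φ = φ' := by
    intro y
    obtain ⟨s, hs, hs'⟩ := hγ y
    refine ⟨s, hs, fun φ φ' h1 h2 => ?_⟩
    rw [hpt] at h1 h2
    obtain ⟨a, ha, ha'⟩ := L.sur φ φ' (Or.inl (h2.trans h1.symm))
    have hst : ¬ Z.mv a := by
      intro hmv
      have h3 := (L.mo φ a ha hmv).1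
      rw [ha', h1, h2] at h3
      exact (comp κ S₁ _).irrefl h3
    have hp : L.p φ = L.p φ' := by
      rw [← ha', L.act_p φ a ha, hv.loop a hst, ha]
    obtain ⟨g, hg⟩ := hL.trans φ φ' hp
    refine ⟨g, hs' g ?_, hg⟩
    have h4 := hL.gpt g φ
    rw [hg, h1, h2] at h4
    exact h4.symm
  have hfib : ∀ q : Fin (nP + 1),
      (Finset.univ.filter fun a : Fin (m + 1) => Z.o a = q).card ≤ γ * (γ * D + 1) := by
    intro q
    have h1 := Finset.card_le_mul_card_image
      (f := fun a : Fin (m + 1) => pt (L.act (f q) a))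
      (Finset.univ.filter fun a : Fin (m + 1) => Z.o a = q) γ ?_
    · refine h1.trans (Nat.mul_le_mul_left γ ?_)
      have h2 : (Finset.univ.filter fun a : Fin (m + 1) => Z.o a = q).image
          (fun a : Fin (m + 1) => pt (L.act (f q) a)) ⊆
          insert (pt (f q))
            (((Finset.univ.filter fun a : Fin (m + 1) => Z.o a = q).image
              (fun a : Fin (m + 1) => pt (L.act (f q) a))).filter
              (fun y => F12_Mov co S₁ ((pt (f q)), y))) := by
        intro y hy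
        rw [Finset.mem_insert, Finset.mem_filter]
        have hy' := hy
        rw [Finset.mem_image] at hy'
        obtain ⟨a, ha, hay⟩ := hy'
        rw [Finset.mem_filter] at ha
        have hoa : Z.o a = L.p (f q) := ha.2.trans (hf q).symm
        by_cases hmv : Z.mv a
        · right
          refine ⟨hy, ?_⟩
          obtain ⟨h3, h4⟩ := L.mo (f q) a hoa hmv
          refine ⟨L.lam (f q) (Z.ty a), ?_, ?_⟩
          · rw [← hay, hpt, hpt]
            exact h3
          · intro j hj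
            rw [← hay, hpt, hpt]
            exact h4 j hj
        · left
          rw [← hay, hpt, hpt]
          exact L.st (f q) a hoa hmv
      refine (Finset.card_le_card h2).trans ((Finset.card_insert_le _ _).trans ?_)
      refine Nat.succ_le_succ (F12_nb hD₁ hγ (pt (f q)) _ ?_)
      intro y hy
      rw [Finset.mem_filter] at hy
      exact hy.2
    · intro y _
      obtain ⟨s, hs, hs'⟩ := hframe y
      have h2 : ((Finset.univ.filter fun a : Fin (m + 1) => Z.o a = q).filter
          fun a => pt (L.act (f q) a) = y).card =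
          (((Finset.univ.filter fun a : Fin (m + 1) => Z.o a = q).filter
          fun a => pt (L.act (f q) a) = y).image (L.act (f q))).card := by
        rw [Finset.card_image_of_injOn]
        intro a ha b hb hab
        rw [Finset.mem_coe, Finset.mem_filter, Finset.mem_filter] at ha hb
        exact L.inj (f q) a b (ha.1.2.trans (hf q).symm) (hb.1.2.trans (hf q).symm) hab
      refine le_trans (le_of_eq h2) (F12_orb s hs _ ?_)
      intro φ hφ φ' hφ'
      rw [Finset.mem_image] at hφ hφ'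
      obtain ⟨a, ha, rfl⟩ := hφ
      obtain ⟨b, hb, rfl⟩ := hφ'
      rw [Finset.mem_filter] at ha hb
      exact hs' _ _ ha.2 hb.2
  have htot := Finset.card_le_mul_card_image (f := fun a : Fin (m + 1) => Z.o a)
    Finset.univ (γ * (γ * D + 1)) (fun q _ => hfib q)
  rw [Finset.card_univ, Fintype.card_fin] at htot
  have h5 : (Finset.univ.image fun a : Fin (m + 1) => Z.o a).card ≤ nP + 1 := by
    refine (Finset.card_le_univ _).trans ?_
    rw [Fintype.card_fin]
  have h6 := htot.trans (Nat.mul_le_mul_left _ h5)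
  omega

end

end VTB
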