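import Pool.Agent.Lib.MP_32d917_al_vt.F04

/-!
# F13: framed complexes give the axioms of the data

Adapt section `gen` of F/FQC of MP_32d917_al (`FQC_valid0`): choose for every arrow `a` a frame `f` over `X.o a` (`hp`) and compare frames with `L.inj`. New axioms: `sqe`: the frames `f`, `act f a`, `act (act f a) b`: `VSt i x y`, `VSt j y w` with `i = lam f (ty a)`, `j = lam (act f a) (ty b)`, `Γ'.Adj j i` (by `hl.gam` at the frame
`act f a` and `act_lam`: `lam (act f a) (pm a (ty a)) = lam f (ty a)`); `M.sq` at the point `y` (steps `y x`, `y w`) gives `z` with `VSt i w z`, `VSt j x z`; arrows `c` (`L.sur` to a frame over `z`), `d` (to the frame of `w`), `L.sq_of`. `sqg`: `M.sq` at the point of `f`, `hl.gam`. `pmg`: `hl.gam` at `f` and at `act f a`,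
`act_lam`. `occ`: `X.dir q i` ↔ (`vf_dir`) there is a step of the label `lam f i` at `pt f` ↔ `Oc Γ' N' (pt f) (lam f i)` (`M.occ`) ↔ (by `hl.nn`, `hl.gam`, surjectivity and injectivity of `lam f`; `st Γ v` consists of `v` and its neighbours). `nocc`: `M.nocc`. `ntr`: stationary: same point; moving: `M.ntr`. `squ`: the corner of a square
is determined (`M.inj`). `cube`: only the last step of the argument of FQC: the two points are adjacent in the tree `lam`.
-/

set_option autoImplicit false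

namespace VTB

open LatIso LatN LatF

section

variable {ι P A : Type} {X : FD ι P A} {ι' Pt : Type} [Fintype ι'] {V : ι' → Type}
  {S : ∀ i, SimpleGraph (V i)} {co : Pt → ∀ i, V i} {F : Type} {Γ : SimpleGraph ι}
  {N : P → ι → Prop} {Γ' : SimpleGraph ι'} {N' : Pt → ι' → Prop}

section aux


private theorem F13_stpU {i j : ι'} {x y : Pt} (h : VSt S co i x y) (h' : VSt S co j x y) :
    i = j := by
  by_contra hne
  have h1 := h.2 j (fun e => hne e.symm)
  have h2 := h'.1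
  rw [h1] at h2
  exact (S j).irrefl h2

private theorem F13_stpne {i : ι'} {x y : Pt} (h : VSt S co i x y) : y ≠ x := by
  intro e
  have h2 := h.1
  rw [e] at h2
  exact (S i).irrefl h2

variable (L : VF X S co F)

private theorem F13_mv {f : F} {a : A} (h : X.o a = L.p f) :
    X.mv a ↔ L.pt (L.act f a) ≠ L.pt f := by
  constructor
  · intro hm
    exact F13_stpne (L.mo f a h hm)
  · intro hne
    by_contra hm
    exact hne (L.st f a h hm)

private theorem F13_lam {f : F} {k k' : ι} (h : L.lam f k = L.lam f k') : k = k' :=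
  (L.bij f).1 h

variable (hoe : ∀ p, X.o (X.e p) = p) (hoi : ∀ a, X.o (X.i a) = X.t a)
  (hmlo : ∀ s a, X.lc s a → X.o (X.ml s a) = X.o s)

include hoi in
private theorem F13_ti {f : F} {a : A} (h : X.o a = L.p f) : X.t (X.i a) = X.o a := by
  have h1 : X.o (X.i a) = L.p (L.act f a) := by rw [hoi, L.act_p f a h]
  have h2 := L.act_p (L.act f a) (X.i a) h1
  rw [L.act_i f a h] at h2
  rw [← h2, h]

include hoi in
private theorem F13_ii {f : F} {a : A} (h : X.o a = L.p f) : X.i (X.i a) = a := by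
  have h1 : X.o (X.i a) = L.p (L.act f a) := by rw [hoi, L.act_p f a h]
  have h2 := L.act_i (L.act f a) (X.i a) h1
  rw [L.act_i f a h] at h2
  refine L.inj f _ _ ?_ h h2
  rw [hoi, F13_ti L hoi h, h]

include hoi in
private theorem F13_mi {f : F} {a : A} (h : X.o a = L.p f) : X.mv (X.i a) ↔ X.mv a := by
  have h1 : X.o (X.i a) = L.p (L.act f a) := by rw [hoi, L.act_p f a h]
  rw [F13_mv L h1, L.act_i f a h, F13_mv L h]
  exact ⟨fun e => fun e' => e e'.symm, fun e => fun e' => e e'.symm⟩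

include hoi hmlo in
private theorem F13_mr {f : F} {a s : A} (hs : X.rc a s) (h : X.o a = L.p f) :
    X.o (X.mr a s) = X.o a ∧ L.act f (X.mr a s) = L.act (L.act f a) s := by
  have hpa := L.act_p f a h
  have hs1 : X.o s = L.p (L.act f a) := by rw [hpa]; exact hs.2
  have hia : X.o (X.i a) = L.p (L.act f a) := by rw [hoi, hpa]
  have hps := L.act_p (L.act f a) s hs1
  have his : X.o (X.i s) = L.p (L.act (L.act f a) s) := by rw [hoi, hps]
  have hlc : X.lc (X.i s) (X.i a) := by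
    refine ⟨fun hm => hs.1 ((F13_mi L hoi hs1).1 hm), ?_⟩
    rw [F13_ti L hoi hs1, hoi, hs.2]
  have hoc : X.o (X.ml (X.i s) (X.i a)) = L.p (L.act (L.act f a) s) := by rw [hmlo _ _ hlc, his]
  have h1 : L.act (L.act (L.act f a) s) (X.ml (X.i s) (X.i a)) = f := by
    rw [L.act_ml _ _ _ his hlc, L.act_i _ _ hs1, L.act_i _ _ h]
  have h2 := L.act_i _ _ hoc
  have h3 := L.act_p _ _ hoc
  rw [h1] at h2 h3
  refine ⟨?_, h2⟩
  unfold FD.mr
  rw [hoi, ← h3, h]

end aux

theorem v_valid0 (M : MS1 Γ' S co N') (L : VF X S co F) (hl : VLab L Γ N Γ' N')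
    (hoe : ∀ p, X.o (X.e p) = p) (hoi : ∀ a, X.o (X.i a) = X.t a)
    (hmlo : ∀ s a, X.lc s a → X.o (X.ml s a) = X.o s) (hp : ∀ q, ∃ f, L.p f = q)
    (hsq : ∀ a b c d, X.sq a b c d → SqT X a b c d) : VV0 Γ N X := by
  classical
  have fr : ∀ q, ∃ f, q = L.p f := fun q => (hp q).imp fun f hf => hf.symm
  -- basic facts
  have hme : ∀ p, ¬ X.mv (X.e p) := by
    intro p
    obtain ⟨f, rfl⟩ := fr p
    rw [F13_mv L (f := f) (hoe _), L.act_e]
    exact fun h => h rfl
  have hte : ∀ p, X.t (X.e p) = p := by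
    intro p
    obtain ⟨f, rfl⟩ := fr p
    have h1 := L.act_p f (X.e (L.p f)) (hoe _)
    rw [L.act_e] at h1
    exact h1.symm
  have hti : ∀ a, X.t (X.i a) = X.o a := by
    intro a
    obtain ⟨f, hf⟩ := fr (X.o a)
    exact F13_ti L hoi hf
  have hii : ∀ a, X.i (X.i a) = a := by
    intro a
    obtain ⟨f, hf⟩ := fr (X.o a)
    exact F13_ii L hoi hf
  have hmi : ∀ a, X.mv (X.i a) ↔ X.mv a := by
    intro a
    obtain ⟨f, hf⟩ := fr (X.o a)
    exact F13_mi L hoi hf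
  have hpa : ∀ f a, X.o a = L.p f → L.p (L.act f a) = X.t a := L.act_p
  have hmlt : ∀ s a, X.lc s a → X.t (X.ml s a) = X.t a := by
    intro s a h
    obtain ⟨f, hf⟩ := fr (X.o s)
    have h1 : X.o a = L.p (L.act f s) := by rw [hpa f s hf]; exact h.2.symm
    have h2 := hpa f (X.ml s a) (by rw [hmlo s a h, hf])
    rw [L.act_ml f s a hf h, hpa _ _ h1] at h2
    exact h2.symm
  have hmlm : ∀ s a, X.lc s a → (X.mv (X.ml s a) ↔ X.mv a) := by
    intro s a h
    obtain ⟨f, hf⟩ := fr (X.o s)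
    have h1 : X.o a = L.p (L.act f s) := by rw [hpa f s hf]; exact h.2.symm
    rw [F13_mv L (f := f) (by rw [hmlo s a h, hf]), L.act_ml f s a hf h, F13_mv L h1,
      L.st f s hf h.1]
  have hlcm : ∀ s a f, X.o s = L.p f → X.lc s a → X.o (X.ml s a) = L.p f ∧
      X.o a = L.p (L.act f s) ∧ L.act f (X.ml s a) = L.act (L.act f s) a := by
    intro s a f hf h
    exact ⟨by rw [hmlo s a h, hf], by rw [hpa f s hf]; exact h.2.symm, L.act_ml f s a hf h⟩
  have hpi : ∀ a k, X.pm (X.i a) (X.pm a k) = k := by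
    intro a k
    obtain ⟨f, hf⟩ := fr (X.o a)
    have h1 : X.o (X.i a) = L.p (L.act f a) := by rw [hoi, hpa f a hf]
    have h2 := L.act_lam (L.act f a) (X.i a) h1 (X.pm a k)
    rw [L.act_i f a hf, L.act_lam f a hf] at h2
    exact F13_lam L h2
  have hpinj : ∀ a k k', X.pm a k = X.pm a k' → k = k' := by
    intro a k k' h
    rw [← hpi a k, ← hpi a k', h]
  have htyi : ∀ a, X.mv a → X.ty (X.i a) = X.pm a (X.ty a) := by
    intro a hm
    obtain ⟨f, hf⟩ := fr (X.o a)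
    have h1 : X.o (X.i a) = L.p (L.act f a) := by rw [hoi, hpa f a hf]
    have h2 := L.mo (L.act f a) (X.i a) h1 ((hmi a).2 hm)
    rw [L.act_i f a hf] at h2
    have h3 := L.mo f a hf hm
    apply F13_lam L (f := L.act f a)
    rw [L.act_lam f a hf]
    refine F13_stpU h2 ?_
    exact ⟨h3.1.symm, fun j hj => (h3.2 j hj).symm⟩
  have hmly : ∀ s a, X.lc s a → X.mv a → X.pm s (X.ty (X.ml s a)) = X.ty a := by
    intro s a h hm
    obtain ⟨f, hf⟩ := fr (X.o s)
    obtain ⟨h1, h2, h3⟩ := hlcm s a f hf h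
    apply F13_lam L (f := L.act f s)
    rw [L.act_lam f s hf]
    have h4 := L.mo f _ h1 ((hmlm s a h).2 hm)
    have h5 := L.mo (L.act f s) a h2 hm
    rw [h3] at h4
    rw [L.st f s hf h.1] at h5
    exact F13_stpU h4 h5
  have hmlp : ∀ s a k, X.lc s a → X.pm (X.ml s a) k = X.pm a (X.pm s k) := by
    intro s a k h
    obtain ⟨f, hf⟩ := fr (X.o s)
    obtain ⟨h1, h2, h3⟩ := hlcm s a f hf h
    apply F13_lam L (f := L.act (L.act f s) a)
    rw [L.act_lam _ _ h2, L.act_lam _ _ hf, ← h3, L.act_lam _ _ h1]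
  have hmr : ∀ a s f, X.rc a s → X.o a = L.p f → X.o (X.mr a s) = X.o a ∧
      L.act f (X.mr a s) = L.act (L.act f a) s := fun a s f hs h => F13_mr L hoi hmlo hs h
  have hrc : ∀ a s f, X.rc a s → X.o a = L.p f → X.o s = L.p (L.act f a) := by
    intro a s f hs h
    rw [hpa f a h]; exact hs.2
  have hmro : ∀ a s, X.rc a s → X.o (X.mr a s) = X.o a := by
    intro a s hs
    obtain ⟨f, hf⟩ := fr (X.o a)
    exact (hmr a s f hs hf).1
  have hmrt : ∀ a s, X.rc a s → X.t (X.mr a s) = X.t s := by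
    intro a s hs
    obtain ⟨f, hf⟩ := fr (X.o a)
    have h1 := hmr a s f hs hf
    have h2 := hpa f (X.mr a s) (by rw [h1.1, hf])
    rw [h1.2, hpa _ _ (hrc a s f hs hf)] at h2
    exact h2.symm
  have hmrm : ∀ a s, X.rc a s → (X.mv (X.mr a s) ↔ X.mv a) := by
    intro a s hs
    obtain ⟨f, hf⟩ := fr (X.o a)
    have h1 := hmr a s f hs hf
    rw [F13_mv L (f := f) (by rw [h1.1, hf]), h1.2, L.st _ _ (hrc a s f hs hf) hs.1, F13_mv L hf]
  have hmry : ∀ a s, X.rc a s → X.mv a → X.ty (X.mr a s) = X.ty a := by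
    intro a s hs hm
    obtain ⟨f, hf⟩ := fr (X.o a)
    have h1 := hmr a s f hs hf
    have h2 := L.mo f (X.mr a s) (by rw [h1.1, hf]) ((hmrm a s hs).2 hm)
    rw [h1.2, L.st _ _ (hrc a s f hs hf) hs.1] at h2
    exact F13_lam L (F13_stpU h2 (L.mo f a hf hm))
  have hmrp : ∀ a s k, X.rc a s → X.pm (X.mr a s) k = X.pm s (X.pm a k) := by
    intro a s k hs
    obtain ⟨f, hf⟩ := fr (X.o a)
    have h1 := hmr a s f hs hf
    apply F13_lam L (f := L.act (L.act f a) s)
    rw [L.act_lam _ _ (hrc a s f hs hf), L.act_lam _ _ hf, ← h1.2,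
      L.act_lam _ _ (by rw [h1.1, hf])]
  have hlci : ∀ a s, X.rc a s → ∀ b, X.o b = X.t a → X.lc (X.i s) b := by
    intro a s hs b hb
    exact ⟨fun hm => hs.1 ((hmi s).1 hm), by rw [hti, hs.2, hb]⟩
  have hsqp : ∀ a b c d, X.sq a b c d → ∀ k, X.pm b (X.pm a k) = X.pm d (X.pm c k) := by
    intro a b c d h k
    have hT := hsq _ _ _ _ h
    obtain ⟨f, hf⟩ := fr (X.o a)
    have hc : X.o c = L.p f := by rw [← hT.oac, hf]
    have hb : X.o b = L.p (L.act f a) := by rw [hpa f a hf, hT.tab]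
    have hd : X.o d = L.p (L.act f c) := by rw [hpa f c hc, hT.tcd]
    have h1 := L.act_sq f a b c d hf h
    apply F13_lam L (f := L.act (L.act f a) b)
    rw [L.act_lam _ _ hb, L.act_lam _ _ hf, h1, L.act_lam _ _ hd, L.act_lam _ _ hc]
  have hsqs : ∀ a b c d, X.sq a b c d → X.sq c d a b := by
    intro a b c d h
    have hT := hsq _ _ _ _ h
    obtain ⟨f, hf⟩ := fr (X.o a)
    have hc : X.o c = L.p f := by rw [← hT.oac, hf]
    refine L.sq_of f c d a b hc ?_ (L.act_sq f a b c d hf h).symm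
    exact ⟨hT.mc, hT.md, hT.ma, hT.mb, hT.oac.symm, hT.tcd, hT.tab, hT.tbd.symm,
      fun e => hT.ne e.symm, hT.tyd, hT.tyb⟩
  have hsqr : ∀ a b c d, X.sq a b c d → X.sq (X.i a) c b (X.i d) := by
    intro a b c d h
    have hT := hsq _ _ _ _ h
    obtain ⟨f, hf⟩ := fr (X.o a)
    have hc : X.o c = L.p f := by rw [← hT.oac, hf]
    have hd : X.o d = L.p (L.act f c) := by rw [hpa f c hc, hT.tcd]
    have hia : X.o (X.i a) = L.p (L.act f a) := by rw [hoi, hpa f a hf]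
    refine L.sq_of (L.act f a) _ _ _ _ hia ?_ ?_
    · refine ⟨(hmi a).2 hT.ma, hT.mc, hT.mb, (hmi d).2 hT.md, ?_, ?_, ?_, ?_, ?_, ?_, ?_⟩
      · rw [hoi, hT.tab]
      · rw [hti, hT.oac]
      · rw [hoi, hT.tbd]
      · rw [hti, hT.tcd]
      · rw [htyi a hT.ma, hT.tyb]
        exact fun e => hT.ne (hpinj a _ _ e)
      · rw [hT.tyb, hpi]
      · rw [htyi d hT.md, htyi a hT.ma, hT.tyd, hsqp a b c d h]
    · rw [L.act_i f a hf, L.act_sq f a b c d hf h, L.act_i _ _ hd]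
  refine
    { oe := hoe
      te := hte
      me := hme
      pe := ?_
      oi := hoi
      ti := hti
      ii := hii
      mi := hmi
      tyi := htyi
      pi := hpi
      mlo := hmlo
      mlt := hmlt
      mlm := hmlm
      mly := hmly
      mlp := hmlp
      mle := ?_
      mla := ?_
      mli := ?_
      mlr := ?_
      mrs := ?_
      mlf := ?_
      sqT := hsq
      sqp := hsqp
      sqs := hsqs
      sqr := hsqr
      sql := ?_
      sqm := ?_
      sqe := ?_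
      sqg := ?_
      squ := ?_
      cube := ?_
      pmg := ?_
      occ := ?_
      nocc := ?_
      ntr := ?_ }
  · -- pe
    intro p k
    obtain ⟨f, rfl⟩ := fr p
    have h1 := L.act_lam f (X.e (L.p f)) (hoe _) k
    rw [L.act_e] at h1
    exact F13_lam L h1
  · -- mle
    intro a
    obtain ⟨f, hf⟩ := fr (X.o a)
    have hlc : X.lc (X.e (X.o a)) a := ⟨hme _, hte _⟩
    have he : X.o (X.e (X.o a)) = L.p f := by rw [hoe, hf]
    obtain ⟨h1, h2, h3⟩ := hlcm _ a f he hlc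
    refine L.inj f _ _ h1 hf ?_
    rw [h3, hf, L.act_e]
  · -- mla
    intro s s' a h h'
    obtain ⟨f, hf⟩ := fr (X.o s)
    obtain ⟨h1, h2, h3⟩ := hlcm s s' f hf h
    have hl1 : X.lc s (X.ml s' a) := ⟨h.1, by rw [hmlo s' a h', h.2]⟩
    have hl2 : X.lc (X.ml s s') a := ⟨fun hm => h'.1 ((hmlm s s' h).1 hm), by
      rw [hmlt s s' h]; exact h'.2⟩
    obtain ⟨h4, h5, h6⟩ := hlcm s _ f hf hl1
    obtain ⟨h7, h8, h9⟩ := hlcm _ a f h1 hl2
    obtain ⟨h10, h11, h12⟩ := hlcm s' a (L.act f s) h2 h'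
    refine L.inj f _ _ h4 h7 ?_
    rw [h6, h9, h12, h3]
  · -- mli
    intro s hs
    obtain ⟨f, hf⟩ := fr (X.o s)
    have hl : X.lc s (X.i s) := ⟨hs, (hoi s).symm⟩
    obtain ⟨h1, h2, h3⟩ := hlcm s _ f hf hl
    refine L.inj f _ _ h1 (by rw [hoe, hf]) ?_
    rw [h3, L.act_i f s hf, hf, L.act_e]
  · -- mlr
    intro s a s' h h'
    obtain ⟨f, hf⟩ := fr (X.o s)
    obtain ⟨h1, h2, h3⟩ := hlcm s a f hf h
    have hl1 : X.lc s (X.mr a s') := ⟨h.1, by rw [hmro a s' h']; exact h.2⟩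
    have hr1 : X.rc (X.ml s a) s' := ⟨h'.1, by rw [hmlt s a h]; exact h'.2⟩
    obtain ⟨h4, h5, h6⟩ := hlcm s _ f hf hl1
    have h7 := hmr _ _ f hr1 h1
    have h8 := hmr _ _ (L.act f s) h' h2
    refine L.inj f _ _ h4 (by rw [h7.1, h1]) ?_
    rw [h6, h7.2, h8.2, h3]
  · -- mrs
    intro s s' hs h'
    obtain ⟨f, hf⟩ := fr (X.o s)
    have hl : X.lc s s' := ⟨hs, h'.2.symm⟩
    obtain ⟨h1, h2, h3⟩ := hlcm s s' f hf hl
    have h7 := hmr _ _ f h' hf
    refine L.inj f _ _ (by rw [h7.1, hf]) h1 ?_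
    rw [h7.2, h3]
  · -- mlf
    intro s a h he
    obtain ⟨f, hf⟩ := fr (X.o s)
    obtain ⟨h1, h2, h3⟩ := hlcm s a f hf h
    rw [he] at h1 h3
    have h4 := L.act_i f a h1
    have h5 := L.act_i _ a h2
    rw [h3, h5] at h4
    have ho : X.o a = X.o s := by rw [h1, hf]
    refine L.inj f _ _ hf (by rw [hoe, h1]) ?_
    rw [h4, ho, hf, L.act_e]
  · -- sql
    intro a b c d s h hl
    have hT := hsq _ _ _ _ h
    have hlc : X.lc s c := ⟨hl.1, by rw [hl.2, hT.oac]⟩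
    obtain ⟨f, hf⟩ := fr (X.o s)
    obtain ⟨h1, h2, h3⟩ := hlcm s a f hf hl
    obtain ⟨h4, h5, h6⟩ := hlcm s c f hf hlc
    refine L.sq_of f _ _ _ _ h1 ?_ ?_
    · refine ⟨(hmlm s a hl).2 hT.ma, hT.mb, (hmlm s c hlc).2 hT.mc, hT.md, ?_, ?_, ?_, ?_, ?_, ?_, ?_⟩
      · rw [hmlo s a hl, hmlo s c hlc]
      · rw [hmlt s a hl, hT.tab]
      · rw [hmlt s c hlc, hT.tcd]
      · exact hT.tbd
      · intro e
        apply hT.ne
        rw [← hmly s a hl hT.ma, ← hmly s c hlc hT.mc, e]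
      · rw [hmlp s a _ hl, hmly s c hlc hT.mc, hT.tyb]
      · rw [hmlp s c _ hlc, hmly s a hl hT.ma, hT.tyd]
    · rw [h3, h6]
      exact L.act_sq _ a b c d h2 h
  · -- sqm
    intro a b c d s h hr
    have hT := hsq _ _ _ _ h
    obtain ⟨f, hf⟩ := fr (X.o a)
    have hl : X.lc (X.i s) b := hlci a s hr b hT.tab.symm
    have h1 := hmr _ _ f hr hf
    have hs1 := hrc a s f hr hf
    have his : X.o (X.i s) = L.p (L.act (L.act f a) s) := by rw [hoi, hpa _ _ hs1]
    obtain ⟨h4, h5, h6⟩ := hlcm (X.i s) b _ his hl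
    refine L.sq_of f _ _ _ _ (by rw [h1.1, hf]) ?_ ?_
    · refine ⟨(hmrm a s hr).2 hT.ma, (hmlm _ b hl).2 hT.mb, hT.mc, hT.md, ?_, ?_, ?_, ?_, ?_, ?_, ?_⟩
      · rw [h1.1, hT.oac]
      · rw [hmrt a s hr, hmlo _ b hl, hoi]
      · exact hT.tcd
      · rw [hmlt _ b hl, hT.tbd]
      · rw [hmry a s hr hT.ma]
        exact hT.ne
      · have h7 := hmly (X.i s) b hl hT.mb
        rw [hT.tyb] at h7
        rw [hmrp a s _ hr, ← h7]
        have h8 := hpi (X.i s) (X.ty (X.ml (X.i s) b))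
        rw [hii] at h8
        exact h8.symm
      · rw [hmry a s hr hT.ma, hT.tyd]
    · rw [h1.2, h6, L.act_i _ _ hs1]
      exact L.act_sq f a b c d hf h
  · -- sqe
    intro a b ha hb htab hadj
    obtain ⟨f, hf⟩ := fr (X.o a)
    have hob : X.o b = L.p (L.act f a) := by rw [hpa f a hf, htab]
    have h1 := L.mo f a hf ha
    have h2 := L.mo (L.act f a) b hob hb
    have hadj' : Γ'.Adj (L.lam (L.act f a) (X.ty b)) (L.lam f (X.ty a)) := by
      rw [← L.act_lam f a hf]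
      exact (hl.gam (L.act f a) _ _).2 hadj
    obtain ⟨i, hi⟩ : ∃ i, i = L.lam f (X.ty a) := ⟨_, rfl⟩
    obtain ⟨j, hj⟩ : ∃ j, j = L.lam (L.act f a) (X.ty b) := ⟨_, rfl⟩
    rw [← hi] at h1 hadj'
    rw [← hj] at h2 hadj'
    have hij : i ≠ j := hadj'.ne.symm
    obtain ⟨w, hw⟩ : ∃ w, w = L.pt (L.act (L.act f a) b) := ⟨_, rfl⟩
    rw [← hw] at h2
    obtain ⟨z, hz1, hz2⟩ := (M.sq (L.pt (L.act f a)) (L.pt f) w i j hij (vst_symm h1) h2).2
      hadj'.symm
    obtain ⟨f3, hf3⟩ := L.onto z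
    have hs1 : VSt S co j (L.pt f) (L.pt f3) := by
      rw [hf3]
      exact hz1
    have hs2 : VSt S co i (L.pt f3) w := by
      rw [hf3]
      exact vst_symm hz2
    obtain ⟨c, hc, hc'⟩ := L.sur f f3 (Or.inr ⟨j, hs1⟩)
    obtain ⟨d, hd, hd'⟩ := L.sur f3 (L.act (L.act f a) b) (Or.inr ⟨i, by rw [← hw]; exact hs2⟩)
    have hmc : X.mv c := by
      rw [F13_mv L hc, hc']
      exact F13_stpne hs1
    have hmd : X.mv d := by
      rw [F13_mv L hd, hd', ← hw]
      exact F13_stpne hs2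
    have htc : L.lam f (X.ty c) = j := by
      have h5 := L.mo f c hc hmc
      rw [hc'] at h5
      exact F13_stpU h5 hs1
    have htd : L.lam f3 (X.ty d) = i := by
      have h5 := L.mo f3 d hd hmd
      rw [hd', ← hw] at h5
      exact F13_stpU h5 hs2
    refine ⟨c, d, L.sq_of f a b c d hf ?_ (by rw [hc', hd'])⟩
    refine ⟨ha, hb, hmc, hmd, by rw [hf, hc], htab, ?_, ?_, ?_, ?_, ?_⟩
    · rw [← hpa f c hc, hc', hd]
    · rw [← hpa _ b hob, ← hpa f3 d hd, hd']
    · intro e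
      apply hij
      rw [hi, e, htc]
    · apply F13_lam L (f := L.act f a)
      rw [L.act_lam f a hf, htc, hj]
    · apply F13_lam L (f := f3)
      rw [htd, ← hc', L.act_lam f c hc, hi]
  · -- sqg
    intro a b c d h
    have hT := hsq _ _ _ _ h
    obtain ⟨f, hf⟩ := fr (X.o a)
    have hc : X.o c = L.p f := by rw [← hT.oac, hf]
    have hb : X.o b = L.p (L.act f a) := by rw [hpa f a hf, hT.tab]
    have hd : X.o d = L.p (L.act f c) := by rw [hpa f c hc, hT.tcd]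
    have h1 := L.mo f a hf hT.ma
    have h2 := L.mo f c hc hT.mc
    have h3 := L.mo _ b hb hT.mb
    have h4 := L.mo _ d hd hT.md
    rw [hT.tyb, L.act_lam f a hf] at h3
    rw [hT.tyd, L.act_lam f c hc, ← L.act_sq f a b c d hf h] at h4
    have hij : L.lam f (X.ty a) ≠ L.lam f (X.ty c) := fun e => hT.ne (F13_lam L e)
    exact (hl.gam f _ _).1 ((M.sq _ _ _ _ _ hij h1 h2).1 ⟨_, h3, h4⟩)
  · -- squ
    intro a b c d c' d' h h'
    have hT := hsq _ _ _ _ h
    have hT' := hsq _ _ _ _ h'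
    obtain ⟨f, hf⟩ := fr (X.o a)
    have hc : X.o c = L.p f := by rw [← hT.oac, hf]
    have hc' : X.o c' = L.p f := by rw [← hT'.oac, hf]
    have hd : X.o d = L.p (L.act f c) := by rw [hpa f c hc, hT.tcd]
    have hd' : X.o d' = L.p (L.act f c') := by rw [hpa f c' hc', hT'.tcd]
    have hty : X.ty c = X.ty c' := by
      apply hpinj a
      rw [← hT.tyb, ← hT'.tyb]
    have e1 := L.act_sq f a b c d hf h
    have e2 := L.act_sq f a b c' d' hf h'
    have hpt : ∀ (c d : A), X.sq a b c d → X.o c = L.p f → X.o d = L.p (L.act f c) →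
        co (L.pt (L.act f c)) (L.lam f (X.ty c)) =
          co (L.pt (L.act (L.act f a) b)) (L.lam f (X.ty c)) := by
      intro c d h hc hd
      have hT := hsq _ _ _ _ h
      rw [L.act_sq f a b c d hf h]
      have h5 := L.mo _ d hd hT.md
      refine (h5.2 _ ?_).symm
      rw [hT.tyd, L.act_lam f c hc]
      exact fun e => hT.ne (F13_lam L e).symm
    have hpe : L.pt (L.act f c') = L.pt (L.act f c) := by
      apply M.inj
      intro k
      by_cases hk : k = L.lam f (X.ty c)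
      · rw [hk, hpt c d h hc hd, hty, hpt c' d' h' hc' hd']
      · rw [(L.mo f c hc hT.mc).2 k hk]
        rw [hty] at hk
        rw [(L.mo f c' hc' hT'.mc).2 k hk]
    obtain ⟨s, hs, hs'⟩ := L.sur (L.act f c) (L.act f c') (Or.inl hpe)
    have hms : ¬ X.mv s := by
      rw [F13_mv L hs, hs', hpe]
      exact fun e => e rfl
    have hr : X.rc c s := ⟨hms, by rw [hs, hpa f c hc]⟩
    have h1 := hmr c s f hr hc
    refine ⟨s, hr, ?_, ?_⟩
    · refine L.inj f _ _ hc' (by rw [h1.1, hc]) ?_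
      rw [h1.2, hs']
    · have hl : X.lc (X.i s) d := hlci c s hr d hT.tcd.symm
      have his : X.o (X.i s) = L.p (L.act f c') := by rw [hoi, ← hpa _ _ hs, hs']
      obtain ⟨h4, h5, h6⟩ := hlcm (X.i s) d _ his hl
      refine L.inj (L.act f c') _ _ hd' h4 ?_
      rw [h6, ← e2, e1, ← hs', L.act_i _ _ hs]
  · -- cube
    intro a b b₁ a₁ c c₁ a₂ c' c₁' a₃ b' h1 h2 h3 h4
    have T1 := hsq _ _ _ _ h1
    have T2 := hsq _ _ _ _ h2
    have T3 := hsq _ _ _ _ h3
    have T4 := hsq _ _ _ _ h4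
    obtain ⟨f, hf⟩ := fr (X.o a)
    have ob : X.o b = L.p f := by rw [← T1.oac, hf]
    have oc : X.o c = L.p f := by rw [← T2.oac, hf]
    have ob₁ : X.o b₁ = L.p (L.act f a) := by rw [hpa f a hf, T1.tab]
    have oc₁ : X.o c₁ = L.p (L.act f a) := by rw [hpa f a hf, T2.tab]
    have oa₁ : X.o a₁ = L.p (L.act f b) := by rw [hpa f b ob, T1.tcd]
    have oc' : X.o c' = L.p (L.act f b) := by rw [hpa f b ob, T4.tab]
    have oa₂ : X.o a₂ = L.p (L.act f c) := by rw [hpa f c oc, T2.tcd]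
    have ob' : X.o b' = L.p (L.act f c) := by rw [hpa f c oc, T4.tcd]
    have oc₁' : X.o c₁' = L.p (L.act (L.act f a) b₁) := by
      rw [hpa _ _ ob₁, T1.tbd, T3.tab]
    have oa₃ : X.o a₃ = L.p (L.act (L.act f c) b') := by
      rw [hpa _ _ ob', ← T4.tbd, T3.tcd]
    have E1 := L.act_sq f _ _ _ _ hf h1
    have E2 := L.act_sq f _ _ _ _ hf h2
    have E3 := L.act_sq (L.act f b) _ _ _ _ oa₁ h3
    have E4 := L.act_sq f _ _ _ _ ob h4
    -- labels
    have la₁ : L.lam (L.act f b) (X.ty a₁) = L.lam f (X.ty a) := by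
      rw [T1.tyd, L.act_lam f b ob]
    have lb₁ : L.lam (L.act f a) (X.ty b₁) = L.lam f (X.ty b) := by
      rw [T1.tyb, L.act_lam f a hf]
    have lc₁ : L.lam (L.act f a) (X.ty c₁) = L.lam f (X.ty c) := by
      rw [T2.tyb, L.act_lam f a hf]
    have la₂ : L.lam (L.act f c) (X.ty a₂) = L.lam f (X.ty a) := by
      rw [T2.tyd, L.act_lam f c oc]
    have lc' : L.lam (L.act f b) (X.ty c') = L.lam f (X.ty c) := by
      rw [T4.tyb, L.act_lam f b ob]
    have lb' : L.lam (L.act f c) (X.ty b') = L.lam f (X.ty b) := by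
      rw [T4.tyd, L.act_lam f c oc]
    have lc₁' : L.lam (L.act (L.act f a) b₁) (X.ty c₁') = L.lam f (X.ty c) := by
      rw [E1, T3.tyb, L.act_lam _ _ oa₁, lc']
    have la₃ : L.lam (L.act (L.act f c) b') (X.ty a₃) = L.lam f (X.ty a) := by
      rw [← E4, T3.tyd, L.act_lam _ _ oc', la₁]
    obtain ⟨i, hi⟩ : ∃ i, i = L.lam f (X.ty a) := ⟨_, rfl⟩
    obtain ⟨j, hj⟩ : ∃ j, j = L.lam f (X.ty b) := ⟨_, rfl⟩
    obtain ⟨k, hk⟩ : ∃ k, k = L.lam f (X.ty c) := ⟨_, rfl⟩
    have hij : i ≠ j := by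
      rw [hi, hj]
      exact fun e => T1.ne (F13_lam L e)
    have hik : i ≠ k := by
      rw [hi, hk]
      exact fun e => T2.ne (F13_lam L e)
    have hjk : j ≠ k := by
      rw [hj, hk]
      exact fun e => T4.ne (F13_lam L e)
    rw [← hi] at la₁ la₂ la₃
    rw [← hj] at lb₁ lb'
    rw [← hk] at lc₁ lc' lc₁'
    -- steps
    have Sa := L.mo f a hf T1.ma
    have Sb := L.mo f b ob T1.mc
    have Sb₁ := L.mo _ b₁ ob₁ T1.mb
    have Sc₁ := L.mo _ c₁ oc₁ T2.mb
    have Sa₁ := L.mo _ a₁ oa₁ T1.md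
    have Sa₂ := L.mo _ a₂ oa₂ T2.md
    have Sc₁' := L.mo _ c₁' oc₁' T3.mb
    have Sa₃ := L.mo _ a₃ oa₃ T3.md
    have Sb' := L.mo _ b' ob' T4.md
    have Sc := L.mo f c oc T2.mc
    rw [← hi] at Sa
    rw [← hj] at Sb
    rw [← hk] at Sc
    rw [lb₁] at Sb₁
    rw [lc₁] at Sc₁
    rw [la₁] at Sa₁
    rw [la₂] at Sa₂
    rw [lc₁'] at Sc₁'
    rw [la₃] at Sa₃
    rw [lb'] at Sb'
    have E5 : L.act (L.act (L.act f a) b₁) c₁' = L.act (L.act (L.act f c) b') a₃ := by
      rw [E1, E3, E4]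
    rw [← E5] at Sa₃
    rw [← E2] at Sa₂
    have hst : VSt S co j (L.pt (L.act (L.act f a) c₁)) (L.pt (L.act (L.act (L.act f a) b₁) c₁')) := by
      constructor
      · -- coordinate j
        rw [Sc₁.2 j hjk, Sc₁'.2 j hjk]
        exact Sb₁.1
      · intro l hl
        by_cases hlk : l = k
        · subst hlk
          rw [Sa₃.2 l (fun e => hik e.symm), Sb'.2 l hl, Sa₂.2 l (fun e => hik e.symm)]
        · rw [Sc₁'.2 l hlk, Sb₁.2 l hl, Sc₁.2 l hlk]
    obtain ⟨b₁', ob₁', hb₁'⟩ := L.sur _ _ (Or.inr ⟨j, hst⟩)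
    have mb₁' : X.mv b₁' := by
      rw [F13_mv L ob₁', hb₁']
      exact F13_stpne hst
    have lb₁' : L.lam (L.act (L.act f a) c₁) (X.ty b₁') = j := by
      have h5 := L.mo _ b₁' ob₁' mb₁'
      rw [hb₁'] at h5
      exact F13_stpU h5 hst
    refine ⟨b₁', ?_, ?_⟩
    · refine L.sq_of (L.act f a) _ _ _ _ ob₁ ?_ (by rw [hb₁'])
      refine ⟨T1.mb, T3.mb, T2.mb, mb₁', by rw [ob₁, oc₁], ?_, ?_, ?_, ?_, ?_, ?_⟩
      · rw [oc₁', hpa _ _ ob₁]
      · rw [ob₁', hpa _ _ oc₁]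
      · rw [← hpa _ _ oc₁', ← hpa _ _ ob₁', hb₁']
      · intro e
        apply hjk
        rw [← lb₁, ← lc₁, e]
      · apply F13_lam L (f := L.act (L.act f a) b₁)
        rw [lc₁', L.act_lam _ _ ob₁, lc₁]
      · apply F13_lam L (f := L.act (L.act f a) c₁)
        rw [lb₁', L.act_lam _ _ oc₁, lb₁]
    · refine L.sq_of (L.act f c) _ _ _ _ oa₂ ?_ (by rw [← E2, hb₁', E5])
      refine ⟨T2.md, mb₁', T4.md, T3.md, by rw [oa₂, ob'], ?_, ?_, ?_, ?_, ?_, ?_⟩
      · rw [ob₁', hpa _ _ oc₁, T2.tbd]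
      · rw [oa₃, hpa _ _ ob']
      · rw [← hpa _ _ ob₁', hb₁', hpa _ _ oc₁', T3.tbd]
      · intro e
        apply hij
        rw [← la₂, ← lb', e]
      · apply F13_lam L (f := L.act (L.act f a) c₁)
        rw [lb₁', E2, L.act_lam _ _ oa₂, lb']
      · apply F13_lam L (f := L.act (L.act f c) b')
        rw [la₃, L.act_lam _ _ ob', la₂]
  · -- pmg
    intro a i j
    obtain ⟨f, hf⟩ := fr (X.o a)
    rw [← hl.gam (L.act f a), L.act_lam f a hf, L.act_lam f a hf, hl.gam]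
  · -- occ
    intro q i
    obtain ⟨f, rfl⟩ := fr q
    rw [vf_dir L f i, M.occ (L.pt f) (L.lam f i)]
    constructor
    · intro h v hv
      rcases h (L.lam f v) ((hl.nn f v).2 hv) with h1 | h1
      · exact Or.inl (F13_lam L h1)
      · exact Or.inr ((hl.gam f _ _).1 h1)
    · intro h v' hv'
      obtain ⟨v, rfl⟩ := (L.bij f).2 v'
      rcases h v ((hl.nn f v).1 hv') with h1 | h1
      · rw [h1]
        exact Or.inl rfl
      · exact Or.inr ((hl.gam f _ _).2 h1)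
  · -- nocc
    intro q i h
    obtain ⟨f, rfl⟩ := fr q
    rw [vf_dir L f i, M.occ (L.pt f) (L.lam f i)]
    exact M.nocc _ _ ((hl.nn f i).2 h)
  · -- ntr
    intro a k hk
    obtain ⟨f, hf⟩ := fr (X.o a)
    rw [← hpa f a hf, hf, ← hl.nn (L.act f a), ← hl.nn f, L.act_lam f a hf]
    by_cases hm : X.mv a
    · exact M.ntr _ _ _ _ (L.mo f a hf hm) (fun e => hk hm (F13_lam L e))
    · rw [L.st f a hf hm]

end

end VTB
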