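import Pool.Agent.Lib.MP_32d917_al_vt.F13

/-!
# F14: frames with labels are framed complexes

Adapt section `data` of F/FQC of MP_32d917_al (`fqc`): the data `X` are constructed in the same way (arrows = pairs of an object `q` and a frame `f'` which is over the point of the chosen frame `z q` or adjacent to it; `type` of a moving arrow: the `k` with `lam (z q) k =` the label of the step; for a stationary arrow any label,
e.g. the preimage of a fixed label; `pm a k` = the `k'` with `lam f' k' = lam (z q) k`, ...). `VV0` by `v_valid0` (F13), `VLab` is immediate from `R.gam`, `R.nn` and `L'.pt = R.pt` etc. Finiteness of the set of arrows: `hloc` (the labels are finite in number) and `hprop` (over one point there are finitely many frames: `R.same`, `R.trans`).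
-/

set_option autoImplicit false

namespace VTB

open LatIso LatN LatF

section data

variable {G : Type} [Group G] {Pt V ι' : Type} [MulAction G Pt] [MulAction G V] [MulAction G ι']
  {κ : V → ι'} {S : SimpleGraph V} {co : Pt → ∀ i, Fib κ i} {ι P F : Type} [MulAction G F]
  {Γ : SimpleGraph ι} {N : P → ι → Prop} {Γ' : SimpleGraph ι'} {N' : Pt → ι' → Prop}

/-- the frames `f`, `f'` are near -/
private def F14_N (S : SimpleGraph V) (co : Pt → ∀ i, Fib κ i) (R : VFrm G ι P F Γ N Γ' N')
    (f f' : F) : Prop :=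
  R.pt f' = R.pt f ∨ ∃ i, VSt (comp κ S) co i (R.pt f) (R.pt f')

private theorem F14_pt (R : VFrm G ι P F Γ N Γ' N') {f f' : F} (h : R.pt f' = R.pt f) (g : G) :
    R.pt (g • f') = R.pt (g • f) := by
  rw [R.gpt, R.gpt, h]

private theorem F14_stp (hA : VPre G Γ' κ S co N') (R : VFrm G ι P F Γ N Γ' N') {f f' : F}
    {i : ι'} (h : VSt (comp κ S) co i (R.pt f) (R.pt f')) (g : G) :
    VSt (comp κ S) co (g • i) (R.pt (g • f)) (R.pt (g • f')) := by
  constructor
  · have h1 : S.Adj (co (R.pt f) i).1 (co (R.pt f') i).1 := h.1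
    have h2 := hA.act.adj g _ _ h1
    rw [← hA.gco, ← hA.gco, ← R.gpt, ← R.gpt] at h2
    exact h2
  · intro j hj
    have hj' : j = g • g⁻¹ • j := (smul_inv_smul g j).symm
    have hne : g⁻¹ • j ≠ i := by
      intro e
      apply hj
      rw [← e, smul_inv_smul]
    rw [hj']
    apply Subtype.ext
    rw [R.gpt, R.gpt, hA.gco, hA.gco, h.2 _ hne]

private theorem F14_Ng (hA : VPre G Γ' κ S co N') (R : VFrm G ι P F Γ N Γ' N') {f f' : F}
    (h : F14_N S co R f f') (g : G) : F14_N S co R (g • f) (g • f') := by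
  rcases h with h | ⟨i, h⟩
  · exact Or.inl (F14_pt R h g)
  · exact Or.inr ⟨g • i, F14_stp hA R h g⟩

private theorem F14_Ns (R : VFrm G ι P F Γ N Γ' N') {f f' : F} (h : F14_N S co R f f') :
    F14_N S co R f' f := by
  rcases h with h | ⟨i, h⟩
  · exact Or.inl h.symm
  · exact Or.inr ⟨i, h.1.symm, fun j hj => (h.2 j hj).symm⟩

private theorem F14_fin [Fintype ι'] (hloc : ∀ x i, {y | VSt (comp κ S) co i x y}.Finite)
    (hprop : ∀ x : Pt, {g : G | g • x = x}.Finite) (R : VFrm G ι P F Γ N Γ' N') (f : F) :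
    {f' | F14_N S co R f f'}.Finite := by
  classical
  have h1 : ∀ x : Pt, {f' | R.pt f' = x}.Finite := by
    intro x
    obtain ⟨f0, hf0⟩ := R.onto x
    refine ((hprop x).image (fun g => g • f0)).subset ?_
    intro f' hf'
    have hf' : R.pt f' = x := hf'
    obtain ⟨g, hg⟩ := R.trans f0 f' (R.same _ _ (by rw [hf0, hf']))
    refine ⟨g, ?_, hg⟩
    have h2 := R.gpt g f0
    rw [hg, hf', hf0] at h2
    exact h2.symm
  have h2 : ∀ x : Pt, {y : Pt | ∃ i, VSt (comp κ S) co i x y}.Finite := by
    intro x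
    have h3 : {y : Pt | ∃ i, VSt (comp κ S) co i x y} = ⋃ i, {y | VSt (comp κ S) co i x y} := by
      ext y
      simp
    rw [h3]
    exact Set.finite_iUnion fun i => hloc x i
  have h4 : {f' | F14_N S co R f f'} ⊆ {f' | R.pt f' = R.pt f} ∪
      ⋃ y ∈ {y : Pt | ∃ i, VSt (comp κ S) co i (R.pt f) y}, {f' | R.pt f' = y} := by
    rintro f' (h | h)
    · exact Or.inl h
    · refine Or.inr ?_
      simp only [Set.mem_iUnion]
      exact ⟨R.pt f', h, rfl⟩
  exact ((h1 _).union ((h2 _).biUnion fun y _ => h1 y)).subset h4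

private theorem F14_arr [Fintype ι'] [Finite P] (hne : Nonempty Pt)
    (hloc : ∀ x i, {y | VSt (comp κ S) co i x y}.Finite)
    (hprop : ∀ x : Pt, {g : G | g • x = x}.Finite) (R : VFrm G ι P F Γ N Γ' N')
    (z : P → F) : ∃ (m : ℕ) (o : Fin (m + 1) → P) (w : Fin (m + 1) → F)
      (mk : P → F → Fin (m + 1)), (∀ a, F14_N S co R (z (o a)) (w a)) ∧
      (∀ q f', F14_N S co R (z q) f' → o (mk q f') = q) ∧
      (∀ q f', F14_N S co R (z q) f' → w (mk q f') = f') ∧ ∀ a, mk (o a) (w a) = a := by
  classical
  have hf : {x : P × F | F14_N S co R (z x.1) x.2}.Finite := by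
    have h1 : {x : P × F | F14_N S co R (z x.1) x.2} ⊆
        ⋃ q, (fun f' => (q, f')) '' {f' | F14_N S co R (z q) f'} := by
      rintro ⟨q, f'⟩ h
      exact Set.mem_iUnion.2 ⟨q, f', h, rfl⟩
    exact (Set.finite_iUnion fun q => (F14_fin hloc hprop R (z q)).image _).subset h1
  have : Finite {x : P × F // F14_N S co R (z x.1) x.2} := hf
  have : Nonempty {x : P × F // F14_N S co R (z x.1) x.2} := by
    obtain ⟨x⟩ := hne
    obtain ⟨f, -⟩ := R.onto x
    exact ⟨⟨(R.p f, z (R.p f)), Or.inl rfl⟩⟩
  obtain ⟨m, hm⟩ := Nat.exists_eq_succ_of_ne_zero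
    (Nat.card_pos (α := {x : P × F // F14_N S co R (z x.1) x.2})).ne'
  obtain ⟨E⟩ : Nonempty ({x : P × F // F14_N S co R (z x.1) x.2} ≃ Fin (m + 1)) :=
    ⟨(Finite.equivFin _).trans (finCongr hm)⟩
  refine ⟨m, fun a => (E.symm a).1.1, fun a => (E.symm a).1.2,
    fun q f' => if h : F14_N S co R (z q) f' then E ⟨(q, f'), h⟩ else 0, ?_, ?_, ?_, ?_⟩
  · intro a
    exact (E.symm a).2
  · intro q f' h
    simp only [dif_pos h, Equiv.symm_apply_apply]
  · intro q f' h
    simp only [dif_pos h, Equiv.symm_apply_apply]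
  · intro a
    have h := (E.symm a).2
    change (if h : F14_N S co R (z (E.symm a).1.1) (E.symm a).1.2 then
      E ⟨((E.symm a).1.1, (E.symm a).1.2), h⟩ else 0) = a
    rw [dif_pos h]
    exact E.apply_symm_apply a

end data

section

theorem v_fqc {G : Type} [Group G] {Pt V ι' : Type} [Fintype ι'] [Nonempty ι'] [MulAction G Pt]
    [MulAction G V] [MulAction G ι'] {κ : V → ι'} {S : SimpleGraph V} {co : Pt → ∀ i, Fib κ i}
    {Γ' : SimpleGraph ι'} {N' : Pt → ι' → Prop} (h : VPre G Γ' κ S co N')
    (hloc : ∀ x i, {y | VSt (comp κ S) co i x y}.Finite)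
    (hprop : ∀ x : Pt, {g : G | g • x = x}.Finite) {ι P F : Type} [Finite P] [MulAction G F]
    {Γ : SimpleGraph ι} {N : P → ι → Prop} (R : VFrm G ι P F Γ N Γ' N') :
    ∃ (m : ℕ) (X : FD ι P (Fin (m + 1))) (L' : VF X (comp κ S) co F), VV Γ N X ∧
      VLab L' Γ N Γ' N' ∧ VCov G L' ∧ L'.pt = R.pt ∧ L'.lam = R.lam ∧ L'.p = R.p := by
  classical
  choose z hz using R.ponto
  have hγ0 : ∀ f, ∃ g : G, g • z (R.p f) = f := fun f => R.trans _ _ (hz (R.p f))
  choose γ hγ using hγ0
  have fr : ∀ (g k : G) (f : F), g • f = k • f → g = k := by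
    intro g k f e
    have h1 := R.free (k⁻¹ * g) f (by rw [mul_smul, e, inv_smul_smul])
    exact (inv_mul_eq_one.1 h1).symm
  have γg : ∀ (g : G) (f : F), γ (g • f) = g * γ f := by
    intro g f
    apply fr _ _ (z (R.p f))
    have h1 := hγ (g • f)
    rw [R.gp] at h1
    rw [h1, mul_smul, hγ]
  have γz : ∀ (f : F) (q : P), q = R.p f → γ f • z q = f := by
    rintro f q rfl
    exact hγ f
  choose lv hlv using fun f j => (R.bij f).2 j
  have lvl : ∀ f k, lv f (R.lam f k) = k := fun f k => (R.bij f).1 (hlv f _)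
  obtain ⟨m, o, w, mk, hN, ho, hw, hmk⟩ := F14_arr (co := co) (S := S) h.ms.ne hloc hprop R z
  have hA := h
  obtain ⟨i0⟩ := ‹Nonempty ι'›
  -- the arrows of the operations are arrows
  have Ne : ∀ q, F14_N S co R (z q) (z q) := fun q => Or.inl rfl
  have Ni : ∀ a, F14_N S co R (z (R.p (w a))) ((γ (w a))⁻¹ • z (o a)) := by
    intro a
    have h1 := F14_Ng hA R (F14_Ns R (hN a)) (γ (w a))⁻¹
    have h2 : (γ (w a))⁻¹ • w a = z (R.p (w a)) := by
      rw [inv_smul_eq_iff, hγ]
    rwa [h2] at h1
  have Nm : ∀ s a, R.pt (w s) = R.pt (z (o s)) → R.p (w s) = o a →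
      F14_N S co R (z (o s)) (γ (w s) • w a) := by
    intro s a h1 h2
    have h3 := F14_Ng hA R (hN a) (γ (w s))
    rw [γz (w s) (o a) h2.symm] at h3
    rcases h3 with h3 | ⟨i, h3⟩
    · exact Or.inl (by rw [h3, h1])
    · exact Or.inr ⟨i, by rw [← h1]; exact h3⟩
  let X0 : FD ι P (Fin (m + 1)) :=
    { o := o
      t := fun a => R.p (w a)
      e := fun q => mk q (z q)
      i := fun a => mk (R.p (w a)) ((γ (w a))⁻¹ • z (o a))
      mv := fun a => R.pt (w a) ≠ R.pt (z (o a))
      ty := fun a => lv (z (o a))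
        (if h : ∃ i, VSt (comp κ S) co i (R.pt (z (o a))) (R.pt (w a)) then h.choose else i0)
      pm := fun a k => lv (w a) (R.lam (z (o a)) k)
      ml := fun s a => mk (o s) (γ (w s) • w a)
      sq := fun _ _ _ _ => False }
  let act : F → Fin (m + 1) → F := fun f a => γ f • w a
  let X : FD ι P (Fin (m + 1)) :=
    { o := X0.o
      t := X0.t
      e := X0.e
      i := X0.i
      mv := X0.mv
      ty := X0.ty
      pm := X0.pm
      ml := X0.ml
      sq := fun a b c d => SqT X0 a b c d ∧
        act (act (z (o a)) a) b = act (act (z (o a)) c) d }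
  have hT : ∀ a b c d, SqT X0 a b c d → SqT X a b c d := fun a b c d h =>
    ⟨h.ma, h.mb, h.mc, h.md, h.oac, h.tab, h.tcd, h.tbd, h.ne, h.tyb, h.tyd⟩
  have hT' : ∀ a b c d, SqT X a b c d → SqT X0 a b c d := fun a b c d h =>
    ⟨h.ma, h.mb, h.mc, h.md, h.oac, h.tab, h.tcd, h.tbd, h.ne, h.tyb, h.tyd⟩
  have hact : ∀ (g : G) f a, act (g • f) a = g • act f a := by
    intro g f a
    change γ (g • f) • w a = g • γ f • w a
    rw [γg, mul_smul]
  have hact2 : ∀ (g : G) f a b, act (act (g • f) a) b = g • act (act f a) b := by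
    intro g f a b
    rw [hact g f a, hact]
  let L' : VF X (comp κ S) co F :=
    { pt := R.pt
      lam := R.lam
      p := R.p
      act := act
      bij := R.bij
      onto := R.onto
      act_p := fun f a _ => R.gp _ _
      act_lam := by
        intro f a h k
        change R.lam (γ f • w a) (lv (w a) (R.lam (z (o a)) k)) = R.lam f k
        rw [R.glam, hlv, ← R.glam, γz f _ h]
      act_e := by
        intro f
        change γ f • w (mk (R.p f) (z (R.p f))) = f
        rw [hw _ _ (Ne _), hγ]
      act_i := by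
        intro f a h
        change γ (γ f • w a) • w (mk (R.p (w a)) ((γ (w a))⁻¹ • z (o a))) = f
        rw [hw _ _ (Ni a), γg, mul_smul, smul_inv_smul, γz f _ h]
      act_ml := by
        intro f s a h hl
        change γ f • w (mk (o s) (γ (w s) • w a)) = γ (γ f • w s) • w a
        have h1 : R.pt (w s) = R.pt (z (o s)) := by
          by_contra hne
          exact hl.1 hne
        rw [hw _ _ (Nm s a h1 hl.2), γg, mul_smul]
      act_sq := by
        intro f a b c d h hs
        have h1 : act (act (z (o a)) a) b = act (act (z (o a)) c) d := hs.2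
        have h2 : f = γ f • z (o a) := (γz f _ h).symm
        rw [h2, hact2, hact2, h1]
      sq_of := by
        intro f a b c d h hs he
        refine ⟨hT' _ _ _ _ hs, ?_⟩
        have h2 : f = γ f • z (o a) := (γz f _ h).symm
        rw [h2, hact2, hact2] at he
        exact smul_left_cancel _ he
      st := by
        intro f a h hm
        have h1 : R.pt (w a) = R.pt (z (o a)) := by
          by_contra hne
          exact hm hne
        have h2 := F14_pt R h1 (γ f)
        rw [γz f _ h] at h2
        exact h2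
      mo := by
        intro f a h hm
        have h1 : R.pt (w a) ≠ R.pt (z (o a)) := hm
        have h2 : ∃ i, VSt (comp κ S) co i (R.pt (z (o a))) (R.pt (w a)) :=
          (hN a).resolve_left h1
        have h3 : X.ty a = lv (z (o a)) h2.choose := by
          change lv (z (o a)) (if h : ∃ i, VSt (comp κ S) co i (R.pt (z (o a))) (R.pt (w a)) then
            h.choose else i0) = _
          rw [dif_pos h2]
        have h4 := F14_stp hA R h2.choose_spec (γ f)
        have h5 : R.lam f (X.ty a) = γ f • h2.choose := by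
          rw [h3]
          conv_lhs => rw [← γz f (o a) h]
          rw [R.glam, hlv]
        rw [h5]
        rw [γz f _ h] at h4
        exact h4
      sur := by
        intro f f' h
        have h1 : F14_N S co R f f' := h
        have h2 := F14_Ng hA R h1 (γ f)⁻¹
        have h3 : (γ f)⁻¹ • f = z (R.p f) := by rw [inv_smul_eq_iff, hγ]
        rw [h3] at h2
        refine ⟨mk (R.p f) ((γ f)⁻¹ • f'), ho _ _ h2, ?_⟩
        change γ f • w (mk (R.p f) ((γ f)⁻¹ • f')) = f'
        rw [hw _ _ h2, smul_inv_smul]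
      inj := by
        intro f a b h h' he
        have h1 : w a = w b := smul_left_cancel (γ f) he
        have h2 : o a = o b := h.trans h'.symm
        rw [← hmk a, ← hmk b, h1, h2] }
  have hl : VLab L' Γ N Γ' N' := ⟨R.gam, R.nn⟩
  refine ⟨m, X, L', ?_, hl, ?_, rfl, rfl, rfl⟩
  · refine ⟨v_valid0 hA.ms L' hl ?_ ?_ ?_ R.ponto ?_, ?_⟩
    · intro q
      exact ho _ _ (Ne q)
    · intro a
      exact ho _ _ (Ni a)
    · intro s a hl
      have h1 : R.pt (w s) = R.pt (z (o s)) := by
        by_contra hne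
        exact hl.1 hne
      exact ho _ _ (Nm s a h1 hl.2)
    · intro a b c d h
      exact hT _ _ _ _ h.1
    · intro a hm
      have h1 : R.pt (w a) = R.pt (z (o a)) := by
        by_contra hne
        exact hm hne
      have h2 := R.same _ _ h1
      rw [hz] at h2
      exact h2
  · exact
      { gp := R.gp
        gact := fun g f a _ => hact g f a
        gpt := R.gpt
        glam := R.glam
        free := R.free
        trans := R.trans
        onto := R.ponto }

end

end VTB
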