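import Pool.Agent.Lib.MP_32d917_al_vt.F14

/-!
# F15: existence of the quotient

Adapt F/FQUOT of MP_32d917_al: `P₀` = orbits of points (finite by `h.fin`), `x_q` a representative point. `F = G × P₀`, `pt (g, q) = g • x_q`, `lam (g, q) k = g • k`, `p (g, q) = q`, internal labels `N₀ q k := N x_q k`. `gam`: `h.pre.gam`. `nn`: `h.pre.gn`. Then `v_fqc`.
-/

set_option autoImplicit false

namespace VTB

open LatIso LatN LatF

section

/-- frames: group elements and objects -/
private def F15_F (G P : Type) : Type := G × P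

private instance F15_I (G P : Type) [Group G] : MulAction G (F15_F G P) where
  smul g f := (g * f.1, f.2)
  one_smul f := Prod.ext (one_mul f.1) rfl
  mul_smul a b f := Prod.ext (mul_assoc a b f.1) rfl

private theorem F15_reps {G Pt : Type} [Group G] [MulAction G Pt] (hne : Nonempty Pt)
    (hfin : ∃ F : Finset Pt, ∀ x : Pt, ∃ g : G, g • x ∈ F) :
    ∃ (nP : ℕ) (rep : Fin (nP + 1) → Pt),
      (∀ x : Pt, ∃ q, ∃ g : G, g • rep q = x) ∧
      ∀ q q' (g : G), g • rep q = rep q' → q = q' := by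
  classical
  let r : Setoid Pt :=
    { r := fun x y => ∃ g : G, g • x = y
      iseqv := ⟨fun x => ⟨1, one_smul _ _⟩,
        fun ⟨g, h⟩ => ⟨g⁻¹, by rw [← h, inv_smul_smul]⟩,
        fun ⟨g, h⟩ ⟨g', h'⟩ => ⟨g' * g, by rw [mul_smul, h, h']⟩⟩ }
  obtain ⟨F, hF⟩ := hfin
  have hQ : Finite (Quotient r) := by
    refine Finite.of_surjective (fun x : F => Quotient.mk r x.1) ?_
    intro q
    induction q using Quotient.inductionOn with
    | h x =>
      obtain ⟨g, hg⟩ := hF x
      exact ⟨⟨g • x, hg⟩, Quotient.sound ⟨g⁻¹, by rw [inv_smul_smul]⟩⟩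
  have hneQ : Nonempty (Quotient r) := hne.map (Quotient.mk r)
  have hcard : Nat.card (Quotient r) ≠ 0 := Nat.card_ne_zero.2 ⟨hneQ, hQ⟩
  obtain ⟨nP, hnP⟩ := Nat.exists_eq_succ_of_ne_zero hcard
  let e : Quotient r ≃ Fin (nP + 1) := Finite.equivFinOfCardEq hnP
  refine ⟨nP, fun q => (e.symm q).out, fun x => ?_, fun q q' g h => ?_⟩
  · refine ⟨e (Quotient.mk r x), ?_⟩
    have h1 : r.r ((Quotient.mk r x).out) x := Quotient.exact (Quotient.out_eq _)
    simp only [Equiv.symm_apply_apply]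
    exact h1
  · have h1 : Quotient.mk r (e.symm q).out = Quotient.mk r (e.symm q').out :=
      Quotient.sound ⟨g, h⟩
    rw [Quotient.out_eq, Quotient.out_eq] at h1
    exact e.symm.injective h1

theorem v_quot {n : ℕ} {G : Type} [Group G] {Pt V : Type} [MulAction G Pt] [MulAction G V]
    [MulAction G (Fin (n + 1))] {κ : V → Fin (n + 1)} {S : SimpleGraph V}
    {co : Pt → ∀ i, Fib κ i} {Γ : SimpleGraph (Fin (n + 1))} {N : Pt → Fin (n + 1) → Prop}
    (h : VLat G Γ κ S co N) :
    ∃ (nP nA : ℕ) (N₀ : Fin (nP + 1) → Fin (n + 1) → Prop)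
      (X : FD (Fin (n + 1)) (Fin (nP + 1)) (Fin (nA + 1))), IsVCov G Γ κ S co N Γ N₀ X := by
  classical
  obtain ⟨nP, rep, hrep1, hrep2⟩ := F15_reps (G := G) h.pre.ms.ne h.fin
  let R : VFrm G (Fin (n + 1)) (Fin (nP + 1)) (F15_F G (Fin (nP + 1))) Γ
      (fun q k => N (rep q) k) Γ N :=
    { pt := fun f => f.1 • rep f.2
      lam := fun f k => f.1 • k
      p := fun f => f.2
      bij := fun f => MulAction.bijective f.1
      onto := by
        intro x
        obtain ⟨q, g, hg⟩ := hrep1 x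
        exact ⟨(g, q), hg⟩
      gp := fun g f => rfl
      gpt := fun g f => mul_smul g f.1 _
      glam := fun g f k => mul_smul g f.1 k
      free := by
        intro g f h
        have h1 : g * f.1 = f.1 := congrArg Prod.fst h
        exact mul_eq_right.1 h1
      trans := by
        intro f f' h
        refine ⟨f'.1 * f.1⁻¹, Prod.ext ?_ h⟩
        change f'.1 * f.1⁻¹ * f.1 = f'.1
        rw [inv_mul_cancel_right]
      ponto := fun q => ⟨(1, q), rfl⟩
      same := by
        intro f f' h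
        refine hrep2 f.2 f'.2 (f'.1⁻¹ * f.1) ?_
        have h1 : f.1 • rep f.2 = f'.1 • rep f'.2 := h
        rw [mul_smul, h1, inv_smul_smul]
      gam := fun f i j => h.pre.gam f.1 i j
      nn := fun f i => h.pre.gn f.1 (rep f.2) i }
  obtain ⟨m, X, L', hX, hl, hL', -, -, -⟩ := v_fqc h.pre h.ms.loc h.prop R
  exact ⟨nP, m, fun q k => N (rep q) k, X, h.pre, hX, _, _, L', hl, hL'⟩

end

end VTB
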