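import Pool.Agent.Lib.MP_32d917_al_vt.F04

/-!
# F16: the conditions on the graph of labels; points of a panel and `PDir`

`v_gg_iff`: pure transport along the bijection `e`. `v_pdir_of_ag`: `ag_geod M h` (A02) gives a path of steps of the label `j = L.lam f k` from `pt f` to `y`; induction on it (statement for every intermediate point `z`: there are `f'`, `k'` with `pt f' = z`, `lam f' k' = j`, `PDir`); a step `VSt j z z'`: `vf_movep` gives the arrow `c` at `f'`
with `lam f' (ty c) = j = lam f' k'`, so `ty c = k'` (`bij`), `PDir.step c k'`, `act_lam`. `v_ag_of_pdir`: induction on `PDir`, the frame `act f' a`, `L.st`, `L.mo`, `act_lam`, `act_p`.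
-/

set_option autoImplicit false

namespace VTB

open LatIso LatN LatF

section

theorem v_gg_iff {ι ι' : Type} {Γ : SimpleGraph ι} {Γ' : SimpleGraph ι'} (e : ι → ι')
    (he : Function.Bijective e) (h : ∀ i j, Γ'.Adj (e i) (e j) ↔ Γ.Adj i j) :
    GG Γ' ↔ GG Γ := by
  have hst : ∀ i j, e i ∈ RaagIso.st Γ' (e j) ↔ i ∈ RaagIso.st Γ j := fun i j =>
    or_congr (he.1.eq_iff) (h j i)
  have hcl : ∀ i, CL Γ' (e i) ↔ CL Γ i := by
    intro i
    constructor
    · intro hc j
      exact (hst j i).1 (hc (e j))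
    · intro hc j
      obtain ⟨j, rfl⟩ := he.2 j
      exact (hst j i).2 (hc j)
  constructor
  · rintro ⟨hd, hs, ⟨a⟩⟩
    refine ⟨fun v w hvw hw => ?_, fun v K hK a b ha hav hbv => ?_, ?_⟩
    · obtain ⟨u, hu, hu'⟩ := hd (e v) (e w) (fun c => hvw (he.1 c)) (fun c => hw ((hcl w).1 c))
      obtain ⟨u, rfl⟩ := he.2 u
      exact ⟨u, (h v u).1 hu, fun c => hu' ((hst u w).2 c)⟩
    · have h1 := hs (e v) (e '' K) (by
        rintro a b ⟨a, ha, rfl⟩ hav hbv hab
        obtain ⟨b, rfl⟩ := he.2 b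
        exact ⟨b, hK a b ha (fun c => hav ((hst a v).2 c)) (fun c => hbv ((hst b v).2 c))
          ((h a b).1 hab), rfl⟩) (e a) (e b) ⟨a, ha, rfl⟩ (fun c => hav ((hst a v).1 c))
          (fun c => hbv ((hst b v).1 c))
      obtain ⟨b', hb', hbb⟩ := h1
      rw [← he.1 hbb]
      exact hb'
    · obtain ⟨a, rfl⟩ := he.2 a
      exact ⟨a⟩
  · rintro ⟨hd, hs, ⟨a⟩⟩
    refine ⟨fun v w hvw hw => ?_, fun v K hK a b ha hav hbv => ?_, ⟨e a⟩⟩
    · obtain ⟨v, rfl⟩ := he.2 v
      obtain ⟨w, rfl⟩ := he.2 w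
      obtain ⟨u, hu, hu'⟩ := hd v w (fun c => hvw (by rw [c])) (fun c => hw ((hcl w).2 c))
      exact ⟨e u, (h v u).2 hu, fun c => hu' ((hst u w).1 c)⟩
    · obtain ⟨v, rfl⟩ := he.2 v
      obtain ⟨a, rfl⟩ := he.2 a
      obtain ⟨b, rfl⟩ := he.2 b
      refine hs v (e ⁻¹' K) ?_ a b ha (fun c => hav ((hst a v).2 c)) (fun c => hbv ((hst b v).2 c))
      intro a b ha hav hbv hab
      exact hK (e a) (e b) ha (fun c => hav ((hst a v).1 c)) (fun c => hbv ((hst b v).1 c))
        ((h a b).2 hab)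

end

section

variable {ι P A : Type} {X : FD ι P A} {ι' Pt : Type} [Fintype ι'] {V : ι' → Type}
  {S : ∀ i, SimpleGraph (V i)} {co : Pt → ∀ i, V i} {F : Type} {Γ' : SimpleGraph ι'}
  {N' : Pt → ι' → Prop}

theorem v_pdir_of_ag (M : MS1 Γ' S co N') (L : VF X S co F) {f : F} {k : ι} {y : Pt}
    (h : Ag co {L.lam f k} (L.pt f) y) :
    ∃ f' k', L.pt f' = y ∧ L.lam f' k' = L.lam f k ∧ PDir X (L.p f) k (L.p f') k' := by
  have hg : Relation.ReflTransGen (fun a b => VSt S co (L.lam f k) a b) (L.pt f) y := by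
    refine Relation.ReflTransGen.mono ?_ _ _ (ag_geod M h)
    rintro a b ⟨_, _, i, hi, hst, _⟩
    have hi' : i = L.lam f k := hi
    rw [← hi']
    exact hst
  clear h
  induction hg with
  | refl => exact ⟨f, k, rfl, rfl, PDir.refl⟩
  | @tail z z' _ hst ih =>
    obtain ⟨f', k', e1, e2, e3⟩ := ih
    rw [← e1] at hst
    obtain ⟨c, c1, c2, c3, c4⟩ := vf_movep L hst
    have hty : X.ty c = k' := (L.bij f').1 (c4.trans e2.symm)
    refine ⟨L.act f' c, X.pm c k', c3, ?_, ?_⟩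
    · rw [L.act_lam f' c c1, e2]
    · rw [L.act_p f' c c1]
      rw [← c1] at e3
      exact PDir.step c k' e3 fun _ => hty

omit [Fintype ι'] in
theorem v_ag_of_pdir (L : VF X S co F) {f : F} {k : ι} {q' : P} {k' : ι}
    (h : PDir X (L.p f) k q' k') :
    ∃ f', L.p f' = q' ∧ L.lam f' k' = L.lam f k ∧ Ag co {L.lam f k} (L.pt f) (L.pt f') := by
  induction h with
  | refl => exact ⟨f, rfl, rfl, fun _ _ => rfl⟩
  | step a k' _ hm ih =>
    obtain ⟨f', e1, e2, e3⟩ := ih
    refine ⟨L.act f' a, L.act_p f' a e1.symm, ?_, ?_⟩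
    · rw [L.act_lam f' a e1.symm, e2]
    · intro j hj
      rw [← e3 j hj]
      by_cases ha : X.mv a
      · have h1 := (L.mo f' a e1.symm ha).2 j
        rw [hm ha, e2] at h1
        exact h1 hj
      · rw [L.st f' a e1.symm ha]

end

end VTB
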