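import Pool.Agent.Lib.MP_32d917_al_vt.F04

/-!
# F17: paths without backtracking and infinite panels

`v_ppath_of_inf`: let `j = L.lam f k`, `T = S j`. Claim A: for all `m`, frames `f`, `k` with `j = L.lam f k` and `y` with `Ag co {j} (pt f) y` and `T.dist (co (pt f) j) (co y j) = m` there is a path `w` with `PPath X (L.p f) k w`, `w.length = m` and for the first arrow `b` of `w`: `T.dist (co (pt (act f b)) j) (co y j) < m`. Induction on `m`:
`geod_step` (A01) at `pt f` (for `m + 1`, `pt f ≠ y`) gives a step towards `y`; its label is `j` (else the coordinates differ from those of `y`: `Bt` with equal ends), `Ag` for the new point; `vf_movep` gives the arrow `a`, `lam f (ty a) = j`, `ty a = k`; apply the claim to `act f a`, `pm a k` (`act_lam`); if `X.eqv (X.i a) b` for the first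
arrow `b` of the path then `act (act f a) b` is over `pt f` (`vf_act_mr`, `L.st`, `act_i`), but this is farther from `y`. Claim B: for every `n` there is such `y` with distance `> n`: the set of `y` with `Ag co {j} (pt f) y` at distance `≤ n` is finite by `hloc` (induction on `n`, the last step).
`v_inf_of_ppath`: let `R a b := X.t a = X.o b ∧ X.mv b ∧ X.ty b = X.pm a (X.ty a) ∧ ¬ X.eqv (X.i a) b`. `w` is a chain for `R` whose head is in `X.dir (L.p f) k`. As `w` is longer than the number of arrows, two entries are equal: there is `c` in `w` with `TransGen R c c`, reached from the head by `ReflTransGen R`. The set `T` of arrows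
from which such a `c` is reached is closed in the sense that every `b ∈ T` has an `R`-successor in `T`; so there is a sequence `a : ℕ → A`, `a 0` = head of `w`, `R (a n) (a (n + 1))`. Frames `f 0 = f`, `f (n + 1) = act (f n) (a n)` with `lam (f n) (ty (a n)) = j`; `VSt j (pt (f n)) (pt (f (n + 1)))`, `pt (f (n + 2)) ≠ pt (f n)` (`vf_eqv`).
The coordinates `co (pt (f n)) j` are a path without backtracking in a tree, so the distance from the first one is `n` (induction), the points are pairwise different and in the set.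
-/

set_option autoImplicit false

namespace VTB

open LatIso LatN LatF

section list

variable {ι P A : Type} {X : FD ι P A}

/-- consecutive arrows of a path without backtracking -/
private theorem f17_chain (d : A) : ∀ (w : List A) (q : P) (k : ι), PPath X q k w → ∀ n,
    n + 1 < w.length → X.t (w.getD n d) = X.o (w.getD (n + 1) d) ∧ X.mv (w.getD (n + 1) d) ∧
      X.ty (w.getD (n + 1) d) = X.pm (w.getD n d) (X.ty (w.getD n d)) ∧
      ¬ X.eqv (X.i (w.getD n d)) (w.getD (n + 1) d) := by
  intro w
  induction w with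
  | nil => intro q k _ n hn; exact absurd hn (by simp)
  | cons a w ih =>
    intro q k h n hn
    obtain ⟨h1, h2, h3⟩ := h
    cases n with
    | zero =>
      cases w with
      | nil => exact absurd hn (by simp)
      | cons b w =>
        obtain ⟨h4, _, _⟩ := h2
        refine ⟨h4.1.symm, h4.2.1, ?_, h3 b (by simp)⟩
        show X.ty b = X.pm a (X.ty a)
        rw [h4.2.2, h1.2.2]
    | succ n =>
      have h5 := ih _ _ h2 n (by simpa using hn)
      simpa using h5

/-- a long chain in a finite set can be continued for ever -/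
private theorem f17_inf [Finite A] {R : A → A → Prop} (g : ℕ → A) (l : ℕ)
    (hg : ∀ n, n + 1 < l → R (g n) (g (n + 1))) (hl : Nat.card A < l) :
    ∃ a : ℕ → A, a 0 = g 0 ∧ ∀ n, R (a n) (a (n + 1)) := by
  classical
  haveI := Fintype.ofFinite A
  obtain ⟨i, j, hij, hjl, he⟩ : ∃ i j, i < j ∧ j < l ∧ g i = g j := by
    obtain ⟨x, y, hne, he⟩ := Fintype.exists_ne_map_eq_of_card_lt (fun n : Fin l => g n)
      (by rw [Fintype.card_fin, ← Nat.card_eq_fintype_card]; exact hl)
    rcases lt_or_gt_of_ne (fun h => hne (Fin.ext h) : (x : ℕ) ≠ y) with h | h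
    · exact ⟨x, y, h, y.2, he⟩
    · exact ⟨y, x, h, x.2, he.symm⟩
  let idx : ℕ → ℕ := fun n => Nat.rec 0 (fun _ m => if m + 1 = j then i else m + 1) n
  have h0 : idx 0 = 0 := rfl
  have h1 : ∀ n, idx (n + 1) = if idx n + 1 = j then i else idx n + 1 := fun n => rfl
  have h2 : ∀ n, idx n < j := by
    intro n
    induction n with
    | zero => rw [h0]; omega
    | succ n ih =>
      rw [h1]
      split_ifs with h
      · exact hij
      · omega
  refine ⟨fun n => g (idx n), rfl, fun n => ?_⟩
  show R (g (idx n)) (g (idx (n + 1)))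
  have h3 := h2 n
  have h4 := hg (idx n) (by omega)
  rw [h1]
  split_ifs with h
  · rw [h] at h4
    rw [he]
    exact h4
  · exact h4

/-- paths without backtracking in a tree are geodesics -/
private theorem f17_geod {W : Type} {T : SimpleGraph W} (hT : T.IsTree) (c : ℕ → W)
    (h1 : ∀ n, T.Adj (c n) (c (n + 1))) (h2 : ∀ n, c (n + 2) ≠ c n) (n : ℕ) :
    T.dist (c 0) (c n) = n ∧ T.dist (c 0) (c (n + 1)) = n + 1 := by
  induction n with
  | zero => exact ⟨SimpleGraph.dist_self, by rw [st1_one (h1 0)]⟩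
  | succ n ih =>
    refine ⟨ih.2, ?_⟩
    have e1 := st_adj hT (h1 (n + 1)) (c 0)
    by_contra hne
    apply h2 n
    have e2 : T.dist (c (n + 1)) (c n) = 1 := by
      rw [SimpleGraph.dist_comm]; exact st1_one (h1 n)
    have e3 : T.dist (c (n + 1)) (c (n + 2)) = 1 := st1_one (h1 (n + 1))
    have c1 : T.dist (c (n + 1)) (c 0) = T.dist (c 0) (c (n + 1)) := SimpleGraph.dist_comm
    have c2 : T.dist (c (n + 2)) (c 0) = T.dist (c 0) (c (n + 2)) := SimpleGraph.dist_comm
    have c3 : T.dist (c n) (c 0) = T.dist (c 0) (c n) := SimpleGraph.dist_comm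
    refine st_uniq hT (x := c (n + 1)) (y := c 0) (h1 (n + 1)) (h1 n).symm ?_ ?_
    · unfold Bt
      have e4 : n + 1 + 1 = n + 2 := rfl
      rw [e4] at e1 hne
      omega
    · unfold Bt
      omega

end list

section

variable {ι P A : Type} {X : FD ι P A} {ι' Pt : Type} [Fintype ι'] {V : ι' → Type}
  {S : ∀ i, SimpleGraph (V i)} {co : Pt → ∀ i, V i} {F : Type} {Γ : SimpleGraph ι}
  {N : P → ι → Prop} {Γ' : SimpleGraph ι'} {N' : Pt → ι' → Prop}

/-- a first step towards a point of the same panel -/
private theorem f17_step (M : MS1 Γ' S co N') {j : ι'} {x y : Pt} (h : Ag co {j} x y)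
    (hne : x ≠ y) : ∃ z, VSt S co j x z ∧ Ag co {j} z y ∧
      1 + (S j).dist (co z j) (co y j) = (S j).dist (co x j) (co y j) := by
  obtain ⟨i, z, hz, hb⟩ := geod_step M hne
  have hij : i = j := by
    by_contra hc
    rw [h i hc] at hb
    exact hz.1.ne (vf_bt_self hb (M.tree i).connected).symm
  subst hij
  refine ⟨z, hz, fun l hl => ?_, ?_⟩
  · rw [h l hl, hz.2 l hl]
  · unfold Bt at hb
    rw [st1_one hz.1] at hb
    exact hb

private theorem f17_path (M : MS1 Γ' S co N') (hX : VV0 Γ N X) (L : VF X S co F) (j : ι')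
    (y : Pt) : ∀ (m : ℕ) (f : F) (k : ι), L.lam f k = j → Ag co {j} (L.pt f) y →
      (S j).dist (co (L.pt f) j) (co y j) = m →
      ∃ w, PPath X (L.p f) k w ∧ w.length = m ∧
        ∀ b ∈ w.head?, (S j).dist (co (L.pt (L.act f b)) j) (co y j) < m := by
  intro m
  induction m with
  | zero =>
    intro f k _ _ _
    exact ⟨[], trivial, rfl, fun b hb => by simp at hb⟩
  | succ m ih =>
    intro f k hk hA hd
    have hne : L.pt f ≠ y := by
      intro he
      rw [he, SimpleGraph.dist_self] at hd
      omega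
    obtain ⟨z, hz, hzA, hzd⟩ := f17_step M hA hne
    obtain ⟨c, hc1, hc2, hc3, hc4⟩ := vf_movep L hz
    have hck : X.ty c = k := (L.bij f).1 (hc4.trans hk.symm)
    have hp : L.p (L.act f c) = X.t c := L.act_p f c hc1
    obtain ⟨w, hw1, hw2, hw3⟩ := ih (L.act f c) (X.pm c k)
      (by rw [L.act_lam f c hc1, hk]) (by rw [hc3]; exact hzA) (by rw [hc3]; omega)
    rw [hp] at hw1
    refine ⟨c :: w, ⟨⟨hc1, hc2, hck⟩, hw1, ?_⟩, by simp [hw2], ?_⟩
    · rintro b hb ⟨s, hs, rfl⟩
      have h1 := hw3 _ hb
      have h2 : X.o (X.i c) = L.p (L.act f c) := by rw [hX.oi, hp]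
      rw [vf_act_mr hX L h2 hs, L.act_i f c hc1] at h1
      have h3 : X.o s = L.p f := by rw [hs.2, hX.ti, hc1]
      rw [L.st f s h3 hs.1] at h1
      omega
    · intro b hb
      have hb' : c = b := by simpa using hb
      rw [← hb', hc3]
      omega

private theorem f17_fin (M : MS1 Γ' S co N') (hloc : ∀ x i, {y | VSt S co i x y}.Finite)
    (j : ι') (x : Pt) (n : ℕ) :
    {y | Ag co {j} x y ∧ (S j).dist (co x j) (co y j) ≤ n}.Finite := by
  induction n with
  | zero =>
    refine (Set.finite_singleton x).subset ?_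
    rintro y ⟨h1, h2⟩
    have h3 : co x j = co y j := st1_eq (M.tree j) (by omega)
    refine (M.inj _ _ fun i => ?_).symm
    by_cases hi : i = j
    · subst hi; exact h3
    · exact (h1 i hi).symm
  | succ n ih =>
    refine ((Set.finite_singleton x).union (ih.biUnion fun z _ => hloc z j)).subset ?_
    rintro y ⟨h1, h2⟩
    by_cases hxy : x = y
    · exact Or.inl hxy.symm
    · right
      have h1' : Ag co {j} y x := fun l hl => (h1 l hl).symm
      obtain ⟨z, hz, hzA, hzd⟩ := f17_step M h1' (Ne.symm hxy)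
      have c1 : (S j).dist (co z j) (co x j) = (S j).dist (co x j) (co z j) :=
        SimpleGraph.dist_comm
      have c2 : (S j).dist (co y j) (co x j) = (S j).dist (co x j) (co y j) :=
        SimpleGraph.dist_comm
      refine Set.mem_biUnion (x := z) ⟨fun l hl => (hzA l hl).symm, by omega⟩ ?_
      exact ⟨hz.1.symm, fun l hl => (hz.2 l hl).symm⟩

theorem v_ppath_of_inf (M : MS1 Γ' S co N') (hX : VV0 Γ N X) (L : VF X S co F)
    (hloc : ∀ x i, {y | VSt S co i x y}.Finite) {f : F} {k : ι}
    (hinf : {y | Ag co {L.lam f k} (L.pt f) y}.Infinite) (n : ℕ) :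
    ∃ w, PPath X (L.p f) k w ∧ n < w.length := by
  obtain ⟨y, hy1, hy2⟩ : ∃ y, Ag co {L.lam f k} (L.pt f) y ∧
      n < (S (L.lam f k)).dist (co (L.pt f) (L.lam f k)) (co y (L.lam f k)) := by
    by_contra hc
    push_neg at hc
    exact hinf ((f17_fin M hloc (L.lam f k) (L.pt f) n).subset fun y hy => ⟨hy, hc y hy⟩)
  obtain ⟨w, hw1, hw2, _⟩ := f17_path M hX L (L.lam f k) y _ f k rfl hy1 rfl
  exact ⟨w, hw1, by rw [hw2]; exact hy2⟩

theorem v_inf_of_ppath [Finite A] (M : MS1 Γ' S co N') (hX : VV0 Γ N X) (L : VF X S co F)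
    {f : F} {k : ι} {w : List A} (h : PPath X (L.p f) k w) (hw : Nat.card A < w.length) :
    {y | Ag co {L.lam f k} (L.pt f) y}.Infinite := by
  obtain ⟨d, w', rfl⟩ : ∃ d w', w = d :: w' := by
    cases w with
    | nil => exact absurd hw (by simp)
    | cons d w' => exact ⟨d, w', rfl⟩
  obtain ⟨a, ha0, ha⟩ := f17_inf (R := fun a b => X.t a = X.o b ∧ X.mv b ∧
    X.ty b = X.pm a (X.ty a) ∧ ¬ X.eqv (X.i a) b) (fun n => (d :: w').getD n d)
    (d :: w').length (f17_chain d _ _ _ h) hw
  have ha0' : a 0 = d := by rw [ha0]; rfl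
  obtain ⟨hd, _, _⟩ := h
  have hmv : ∀ n, X.mv (a n) := by
    intro n
    cases n with
    | zero => rw [ha0']; exact hd.2.1
    | succ n => exact (ha n).2.1
  let fr : ℕ → F := fun n => Nat.rec f (fun n g => L.act g (a n)) n
  have hf0 : fr 0 = f := rfl
  have hf1 : ∀ n, fr (n + 1) = L.act (fr n) (a n) := fun n => rfl
  have hinv : ∀ n, X.o (a n) = L.p (fr n) ∧ L.lam (fr n) (X.ty (a n)) = L.lam f k := by
    intro n
    induction n with
    | zero => rw [ha0', hf0]; exact ⟨hd.1, by rw [hd.2.2]⟩
    | succ n ih =>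
      rw [hf1]
      refine ⟨?_, ?_⟩
      · rw [← (ha n).1, L.act_p _ _ ih.1]
      · rw [(ha n).2.2.1, L.act_lam _ _ ih.1, ih.2]
  have hst : ∀ n, VSt S co (L.lam f k) (L.pt (fr n)) (L.pt (fr (n + 1))) := by
    intro n
    have h1 := L.mo _ _ (hinv n).1 (hmv n)
    rw [(hinv n).2] at h1
    exact h1
  have hnb : ∀ n, L.pt (fr (n + 2)) ≠ L.pt (fr n) := by
    intro n he
    refine (ha n).2.2.2 (vf_eqv hX L (f := fr (n + 1)) ?_ (hinv (n + 1)).1 ?_)
    · rw [hX.oi, (ha n).1, (hinv (n + 1)).1]
    · rw [← hf1 (n + 1), hf1 n, L.act_i _ _ (hinv n).1]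
      exact he
  have hag : ∀ n, Ag co {L.lam f k} (L.pt f) (L.pt (fr n)) := by
    intro n
    induction n with
    | zero => exact fun l _ => rfl
    | succ n ih => exact fun l hl => by rw [(hst n).2 l hl, ih l hl]
  have hgeo := f17_geod (M.tree (L.lam f k)) (fun n => co (L.pt (fr n)) (L.lam f k))
    (fun n => (hst n).1) (fun n he => hnb n (M.inj _ _ fun i => by
      by_cases hi : i = L.lam f k
      · subst hi; exact he
      · rw [hag (n + 2) i hi, hag n i hi]))
  refine Set.infinite_of_injective_forall_mem (f := fun n => L.pt (fr n)) ?_ hag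
  intro m n he
  have e1 := (hgeo m).1
  have e2 := (hgeo n).1
  have he' : L.pt (fr m) = L.pt (fr n) := he
  simp only [he'] at e1
  omega

end

end VTB
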