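import Pool.Agent.Lib.MP_32d917_al_vt.F06
import Pool.Agent.Lib.MP_32d917_al_vt.A04

/-!
# F18: orientations and reduced structures in terms of the data

`v_orient_of_noinv`: adapt `fga_par_symm`, `fga_par_trans`, `fga_par_inv`, `fga_par_ninv`, `fga_orient` of F/FGA of MP_32d917_al (`par_iff` → `v_par_iff`, `mvE` → `vE`). `v_noinv_of_orient`: as in F/FGB (`fgb_par`, `flat_of_good`): an edge `x y` of `S` is the edge `vE L f a` of an arrow (`edge_step` of A03 for the label `κ x`, then `vE_ex`); an inversion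
gives `Par X a (X.i a)` by `v_par_iff`, but `s` is constant on `Par` classes of moving arrows.
`v_red_iff`: (⟹) `a` at the frame `f` (`hL.onto`), `j = lam f (ty a)`, `x = pt f`, `y = pt (act f a)`, `v = co x j`, `w = co y j`; `N' x j` (`hl.nn`). If `StabLe G v w` fails: `g • v = v`, `g • w ≠ w`; `g • j = j` (`hP.act.kap`), `N' (g • x) j` (`hP.gn`), `co (g • x) j = v`; `int_all` (A04, for the internal point `x`): `Ag co (lk Γ' j) x (g • x)`; `push` (A03) of the step
`g • x, g • y` to `x`: a step at `x` to a point with the coordinate `g • w`; its arrow `a'` at `f` (`vE_ex`): `Par X a a'` (`v_par_iff` with `g`), same origin and type, not `eqv` (else the points are equal, but `g • w ≠ w`). If `StabLe` holds: `g • v = w`; `N' (g • x) j`, `co (g • x) j = w = co y j`; `int_all` at the point `g • x`: `Ag co (lk Γ' j) (g • x) y`; `push` of the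
step `g • x, g • y` to `y`: a step at `y` over the edge `(w, g • w)`, arrow `a'` at `act f a`; `c' = X.i a`: `Par X a a'` by `g`, `X.o a' = X.o (X.i a)`, types: both `lam (act f a) _ = j` (`vf_lam_i`). (⟸) `x`, `i`, `y` with `N' x i`, a frame `f` over `x`, the arrow `a` of the step (`vE_ex`). First alternative: choose `f'` over `X.o a'`:
`v_par_iff` gives `g • (v, w) = vE L f' a'`, `h • (w, v) = vE L f' c'` (`vE_rev`), the first vertices are equal (same type, `vE`), so `h⁻¹ * g` maps `v` to `w`. Second alternative: `vE L f a' = g • (v, w)`, `g • v = v`, so `g • w = w` by `StabLe`, so `a'` and `a` have the same edge, `vE_eqv` (F06), contradiction.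
-/

set_option autoImplicit false

namespace VTB

open LatIso LatN LatF

section

variable {ι P A : Type} {X : FD ι P A} {G : Type} [Group G] {Pt V ι' : Type} [Fintype ι']
  [MulAction G Pt] [MulAction G V] [MulAction G ι'] {κ : V → ι'} {S : SimpleGraph V}
  {co : Pt → ∀ i, Fib κ i} {Γ : SimpleGraph ι} {N : P → ι → Prop} {Γ' : SimpleGraph ι'}
  {N' : Pt → ι' → Prop} {F : Type} [MulAction G F]

private theorem F18_mv (hX : VV0 Γ N X) {a a' : A} (ha : X.mv a) (h : Par X a a') : X.mv a' := by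
  induction h with
  | refl => exact ha
  | ml a' σ _ hl ih => exact (hX.mlm _ _ hl).2 ih
  | mr a' σ _ hr ih => exact (vv_mrm hX hr).2 ih
  | sq a' b c d _ hs ih => exact (hX.sqT _ _ _ _ hs).md

private theorem F18_par (hX : VV0 Γ N X) {s : A → Bool}
    (h1 : ∀ a, X.mv a → s (X.i a) = !(s a))
    (h2 : ∀ σ a, X.lc σ a → s (X.ml σ a) = s a) (h3 : ∀ a b c d, X.sq a b c d → s d = s a)
    {a a' : A} (ha : X.mv a) (h : Par X a a') : X.mv a' ∧ s a' = s a := by
  induction h with
  | refl => exact ⟨ha, rfl⟩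
  | ml a' σ _ hl ih => exact ⟨(hX.mlm _ _ hl).2 ih.1, by rw [h2 _ _ hl, ih.2]⟩
  | mr a' σ _ hr ih =>
    refine ⟨(vv_mrm hX hr).2 ih.1, ?_⟩
    have hlc := vv_lc hX hr
    rw [FD.mr, h1 _ ((hX.mlm _ _ hlc).2 ((hX.mi _).2 ih.1)), h2 _ _ hlc, h1 _ ih.1, ih.2]
    simp
  | sq a' b c d _ hs ih => exact ⟨(hX.sqT _ _ _ _ hs).md, by rw [h3 _ _ _ _ hs, ih.2]⟩

private theorem F18_vst (hP : VPre G Γ' κ S co N') (g : G) {i : ι'} {x y : Pt}
    (h : VSt (comp κ S) co i x y) : VSt (comp κ S) co (g • i) (g • x) (g • y) := by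
  constructor
  · change S.Adj (co (g • x) (g • i)).1 (co (g • y) (g • i)).1
    rw [hP.gco, hP.gco]
    exact hP.act.adj g _ _ h.1
  · intro j hj
    have h1 : g⁻¹ • j ≠ i := by
      rintro rfl
      exact hj (smul_inv_smul g j).symm
    have h2 := h.2 (g⁻¹ • j) h1
    have h3 := hP.gco g x (g⁻¹ • j)
    have h4 := hP.gco g y (g⁻¹ • j)
    rw [smul_inv_smul] at h3 h4
    apply Subtype.ext
    rw [h3, h4, h2]

private theorem F18_par_symm (hP : VPre G Γ' κ S co N') (hX : VV0 Γ N X)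
    {L : VF X (comp κ S) co F} (hL : VCov G L) {a b : A} (ha : X.mv a) (hb : X.mv b)
    (h : Par X a b) : Par X b a := by
  obtain ⟨f, hf⟩ := hL.onto (X.o a)
  obtain ⟨f', hf'⟩ := hL.onto (X.o b)
  obtain ⟨g, h1, h2⟩ := (v_par_iff hP hX hL f f' a b hf.symm hf'.symm ha hb).1 h
  exact (v_par_iff hP hX hL f' f b a hf'.symm hf.symm hb ha).2
    ⟨g⁻¹, by rw [← h1, inv_smul_smul], by rw [← h2, inv_smul_smul]⟩

private theorem F18_par_trans (hP : VPre G Γ' κ S co N') (hX : VV0 Γ N X)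
    {L : VF X (comp κ S) co F} (hL : VCov G L) {a b c : A} (ha : X.mv a) (hb : X.mv b)
    (hc : X.mv c) (h : Par X a b) (h' : Par X b c) : Par X a c := by
  obtain ⟨f, hf⟩ := hL.onto (X.o a)
  obtain ⟨f', hf'⟩ := hL.onto (X.o b)
  obtain ⟨f'', hf''⟩ := hL.onto (X.o c)
  obtain ⟨g, h1, h2⟩ := (v_par_iff hP hX hL f f' a b hf.symm hf'.symm ha hb).1 h
  obtain ⟨g', h1', h2'⟩ := (v_par_iff hP hX hL f' f'' b c hf'.symm hf''.symm hb hc).1 h'
  exact (v_par_iff hP hX hL f f'' a c hf.symm hf''.symm ha hc).2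
    ⟨g' * g, by rw [mul_smul, h1, h1'], by rw [mul_smul, h2, h2']⟩

private theorem F18_par_inv (hP : VPre G Γ' κ S co N') (hX : VV0 Γ N X)
    {L : VF X (comp κ S) co F} (hL : VCov G L) {a b : A} (ha : X.mv a) (hb : X.mv b)
    (h : Par X a b) : Par X (X.i a) (X.i b) := by
  obtain ⟨f, hf⟩ := hL.onto (X.o a)
  obtain ⟨f', hf'⟩ := hL.onto (X.o b)
  obtain ⟨g, h1, h2⟩ := (v_par_iff hP hX hL f f' a b hf.symm hf'.symm ha hb).1 h
  refine (v_par_iff hP hX hL (L.act f a) (L.act f' b) (X.i a) (X.i b) ?_ ?_ ((hX.mi a).2 ha)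
    ((hX.mi b).2 hb)).2 ⟨g, ?_, ?_⟩
  · rw [hX.oi, L.act_p f a hf.symm]
  · rw [hX.oi, L.act_p f' b hf'.symm]
  · rw [vE_rev hX L hf.symm ha, vE_rev hX L hf'.symm hb]; exact h2
  · rw [vE_rev hX L hf.symm ha, vE_rev hX L hf'.symm hb]; exact h1

private theorem F18_par_ninv (hP : VPre G Γ' κ S co N') (hX : VV0 Γ N X)
    (hn : ∀ (g : G) x y, S.Adj x y → g • x = y → g • y ≠ x)
    {L : VF X (comp κ S) co F} (hL : VCov G L) {a : A} (ha : X.mv a) : ¬ Par X a (X.i a) := by
  intro h
  obtain ⟨f, hf⟩ := hL.onto (X.o a)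
  obtain ⟨g, h1, h2⟩ := (v_par_iff hP hX hL f (L.act f a) a (X.i a) hf.symm
    (by rw [hX.oi, L.act_p f a hf.symm]) ha ((hX.mi a).2 ha)).1 h
  rw [vE_rev hX L hf.symm ha] at h1 h2
  exact hn g _ _ (vE_adj L hf.symm ha) h1 h2

private theorem F18_eqv (hX : VV0 Γ N X) (L : VF X (comp κ S) co F) {f : F} {a b : A}
    (ha : X.o a = L.p f) (h : X.eqv a b) : L.pt (L.act f b) = L.pt (L.act f a) := by
  obtain ⟨s, hs, rfl⟩ := h
  rw [vf_act_mr hX L ha hs]
  exact L.st _ s (by rw [hs.2, L.act_p f a ha]) hs.1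

theorem v_orient_of_noinv (hP : VPre G Γ' κ S co N') (hX : VV0 Γ N X)
    {L : VF X (comp κ S) co F} (hL : VCov G L)
    (hn : ∀ (g : G) x y, S.Adj x y → g • x = y → g • y ≠ x) :
    ∃ s : A → Bool, (∀ a, X.mv a → s (X.i a) = !(s a)) ∧
      (∀ σ a, X.lc σ a → s (X.ml σ a) = s a) ∧ ∀ a b c d, X.sq a b c d → s d = s a := by
  classical
  have hmi : ∀ {a}, X.mv a → X.mv (X.i a) := fun h => (hX.mi _).2 h
  let r : Setoid A :=
    { r := fun a b => a = b ∨ (X.mv a ∧ X.mv b ∧ (Par X a b ∨ Par X (X.i a) b))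
      iseqv := by
        refine ⟨fun a => Or.inl rfl, ?_, ?_⟩
        · rintro a b (rfl | ⟨ha, hb, h | h⟩)
          · exact Or.inl rfl
          · exact Or.inr ⟨hb, ha, Or.inl (F18_par_symm hP hX hL ha hb h)⟩
          · refine Or.inr ⟨hb, ha, Or.inr ?_⟩
            have h1 := F18_par_symm hP hX hL (hmi ha) hb h
            have h2 := F18_par_inv hP hX hL hb (hmi ha) h1
            rwa [hX.ii] at h2
        · rintro a b c (rfl | ⟨ha, hb, h⟩) (rfl | ⟨hb', hc, h'⟩)
          · exact Or.inl rfl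
          · exact Or.inr ⟨hb', hc, h'⟩
          · exact Or.inr ⟨ha, hb, h⟩
          · refine Or.inr ⟨ha, hc, ?_⟩
            rcases h with h | h <;> rcases h' with h' | h'
            · exact Or.inl (F18_par_trans hP hX hL ha hb hc h h')
            · exact Or.inr (F18_par_trans hP hX hL (hmi ha) (hmi hb) hc
                (F18_par_inv hP hX hL ha hb h) h')
            · exact Or.inr (F18_par_trans hP hX hL (hmi ha) hb hc h h')
            · have h1 := F18_par_inv hP hX hL (hmi ha) hb h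
              rw [hX.ii] at h1
              exact Or.inl (F18_par_trans hP hX hL ha (hmi hb) hc h1 h') }
  let rep : A → A := fun a => (Quotient.mk r a).out
  have hrep : ∀ a b, r.r a b → rep a = rep b := by
    intro a b h
    change (Quotient.mk r a).out = (Quotient.mk r b).out
    rw [Quotient.sound h]
  have hrep2 : ∀ a, X.mv a → X.mv (rep a) ∧ (Par X (rep a) a ∨ Par X (X.i (rep a)) a) := by
    intro a ha
    have h1 : r.r (rep a) a := Quotient.exact (Quotient.out_eq (Quotient.mk r a))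
    rcases h1 with h1 | ⟨h1, h2, h3⟩
    · rw [h1]; exact ⟨ha, Or.inl Par.refl⟩
    · exact ⟨h1, h3⟩
  have key : ∀ a b, X.mv a → X.mv b → Par X a b →
      (rep a = rep b ∧ (Par X (rep a) a ↔ Par X (rep b) b)) := by
    intro a b ha hb h
    have h1 : rep a = rep b := hrep a b (Or.inr ⟨ha, hb, Or.inl h⟩)
    refine ⟨h1, ?_⟩
    have h2 := (hrep2 b hb).1
    rw [h1]
    exact ⟨fun h3 => F18_par_trans hP hX hL h2 ha hb h3 h,
      fun h3 => F18_par_trans hP hX hL h2 hb ha h3 (F18_par_symm hP hX hL ha hb h)⟩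
  refine ⟨fun a => if X.mv a then decide (Par X (rep a) a) else true, ?_, ?_, ?_⟩
  · intro a ha
    have h1 : rep a = rep (X.i a) := hrep a (X.i a) (Or.inr ⟨ha, hmi ha, Or.inr Par.refl⟩)
    obtain ⟨h2, h3⟩ := hrep2 a ha
    simp only [ha, hmi ha, if_true]
    rw [← h1]
    by_cases h4 : Par X (rep a) a
    · have h5 : ¬ Par X (rep a) (X.i a) := by
        intro h5
        exact F18_par_ninv hP hX hn hL ha (F18_par_trans hP hX hL ha h2 (hmi ha)
          (F18_par_symm hP hX hL h2 ha h4) h5)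
      simp [h4, h5]
    · have h5 : Par X (rep a) (X.i a) := by
        rcases h3 with h3 | h3
        · exact absurd h3 h4
        · have h6 := F18_par_inv hP hX hL (hmi h2) ha h3
          rwa [hX.ii] at h6
      simp [h4, h5]
  · intro σ a h
    by_cases ha : X.mv a
    · have hb : X.mv (X.ml σ a) := (hX.mlm σ a h).2 ha
      have h1 := (key a (X.ml σ a) ha hb (Par.ml a σ Par.refl h)).2
      simp only [ha, hb, if_true]
      exact (decide_eq_decide.2 h1).symm
    · have hb : ¬ X.mv (X.ml σ a) := fun hb => ha ((hX.mlm σ a h).1 hb)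
      simp [ha, hb]
  · intro a b c d h
    have ha := (hX.sqT _ _ _ _ h).ma
    have hd := (hX.sqT _ _ _ _ h).md
    have h1 := (key a d ha hd (Par.sq a b c d Par.refl h)).2
    simp only [ha, hd, if_true]
    exact (decide_eq_decide.2 h1).symm

theorem v_noinv_of_orient (hP : VPre G Γ' κ S co N') (hX : VV0 Γ N X)
    {L : VF X (comp κ S) co F} (hL : VCov G L) {s : A → Bool}
    (h1 : ∀ a, X.mv a → s (X.i a) = !(s a)) (h2 : ∀ σ a, X.lc σ a → s (X.ml σ a) = s a)
    (h3 : ∀ a b c d, X.sq a b c d → s d = s a) (g : G) (x y : V) (h : S.Adj x y)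
    (hg : g • x = y) : g • y ≠ x := by
  intro hg2
  have hκ : κ y = κ x := (hP.kapS x y h).symm
  obtain ⟨p, q, e1, e2, e3⟩ := edge_step hP.ms (i := κ x) (a := ⟨x, rfl⟩) (b := ⟨y, hκ⟩) h
  obtain ⟨f, rfl⟩ := L.onto p
  obtain ⟨a, a1, a2, _, _, a5⟩ := vE_ex L e1
  rw [e2, e3] at a5
  have hpar : Par X (X.i a) a := by
    refine (v_par_iff hP hX hL (L.act f a) f (X.i a) a ?_ a1 ((hX.mi a).2 a2) a2).2 ⟨g, ?_, ?_⟩
    · rw [hX.oi, L.act_p f a a1]
    · rw [vE_rev hX L a1 a2, a5]; exact hg2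
    · rw [vE_rev hX L a1 a2, a5]; exact hg
  have h4 := (F18_par hX h1 h2 h3 ((hX.mi a).2 a2) hpar).2
  rw [h1 a a2] at h4
  cases hsa : s a <;> rw [hsa] at h4 <;> simp at h4

theorem v_red_iff (hP : VPre G Γ' κ S co N') (hX : VV0 Γ N X) {L : VF X (comp κ S) co F}
    (hl : VLab L Γ N Γ' N') (hL : VCov G L) :
    VRed G κ S co N' ↔ ∀ a, X.mv a → N (X.o a) (X.ty a) →
      (∃ a' c', Par X a a' ∧ Par X (X.i a) c' ∧ X.o a' = X.o c' ∧ X.ty a' = X.ty c') ∨
      ∃ a', Par X a a' ∧ X.o a' = X.o a ∧ X.ty a' = X.ty a ∧ ¬ X.eqv a a' := by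
  constructor
  · intro hR a hm hN
    obtain ⟨f, hf⟩ := hL.onto (X.o a)
    have hf' := hf.symm
    obtain ⟨j, hj⟩ : ∃ j, j = L.lam f (X.ty a) := ⟨_, rfl⟩
    have hst := L.mo f a hf' hm
    rw [← hj] at hst
    have hn : N' (L.pt f) j := by
      rw [hj, hl.nn, hf]
      exact hN
    have hvE : vE L f a = ((co (L.pt f) j).1, (co (L.pt (L.act f a)) j).1) := by
      unfold vE
      rw [← hj]
    by_cases hs : StabLe G (co (L.pt f) j).1 (co (L.pt (L.act f a)) j).1
    · left
      obtain ⟨g, hg⟩ := hR _ _ _ hn hst hs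
      have hgj : g • j = j := by
        have e1 := hP.act.kap g (co (L.pt f) j).1
        rw [hg, (co (L.pt f) j).2, (co (L.pt (L.act f a)) j).2] at e1
        exact e1.symm
      have hn2 : N' (g • L.pt f) j := by
        have e1 := (hP.gn g (L.pt f) j).2 hn
        rwa [hgj] at e1
      have hco : co (L.pt (L.act f a)) j = co (g • L.pt f) j := by
        apply Subtype.ext
        have e1 := hP.gco g (L.pt f) j
        rw [hgj] at e1
        rw [e1, hg]
      have hag := int_all hP.ms hn2 hco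
      obtain ⟨y', y1, y2, _⟩ := push hP.ms (x := L.pt (L.act f a)) (x' := L.pt f)
        (y := g • L.pt f) (j := j) ⟨hst.1.symm, fun i hi => (hst.2 i hi).symm⟩ (ag_symm hag)
      have y3 : VSt (comp κ S) co j (L.pt (g • f)) y' := by
        rw [hL.gpt]
        exact y1
      obtain ⟨c', c1, c2, c3, _, c5⟩ := vE_ex L y3
      refine ⟨a, c', Par.refl, ?_, ?_, ?_⟩
      · refine (v_par_iff hP hX hL (L.act f a) (g • f) (X.i a) c' ?_ c1 ((hX.mi a).2 hm) c2).2
          ⟨1, ?_, ?_⟩
        · rw [hX.oi, L.act_p f a hf']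
        · rw [vE_rev hX L hf' hm, hvE, c5, one_smul]
          show (co (L.pt (L.act f a)) j).1 = (co (L.pt (g • f)) j).1
          rw [hL.gpt, hco]
        · rw [vE_rev hX L hf' hm, hvE, c5, one_smul]
          show (co (L.pt f) j).1 = (co y' j).1
          rw [y2]
      · rw [c1, hL.gp, hf]
      · apply (L.bij (g • f)).1
        rw [c3, hL.glam, ← hj, hgj]
    · right
      unfold StabLe at hs
      push Not at hs
      obtain ⟨g, hg, hgw⟩ := hs
      have hgj : g • j = j := by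
        have e1 := hP.act.kap g (co (L.pt f) j).1
        rw [hg, (co (L.pt f) j).2] at e1
        exact e1.symm
      have hco : co (g • L.pt f) j = co (L.pt f) j := by
        apply Subtype.ext
        have e1 := hP.gco g (L.pt f) j
        rw [hgj] at e1
        rw [e1, hg]
      have hco2 : (co (g • L.pt (L.act f a)) j).1 = g • (co (L.pt (L.act f a)) j).1 := by
        have e1 := hP.gco g (L.pt (L.act f a)) j
        rwa [hgj] at e1
      have hag := int_all hP.ms hn hco
      have hst2 := F18_vst hP g hst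
      rw [hgj] at hst2
      obtain ⟨y', y1, y2, _⟩ := push hP.ms hst2 (ag_symm hag)
      obtain ⟨a', c1, c2, c3, c4, c5⟩ := vE_ex L y1
      refine ⟨a', ?_, ?_, ?_, ?_⟩
      · refine (v_par_iff hP hX hL f f a a' hf' c1 hm c2).2 ⟨g, ?_, ?_⟩
        · rw [hvE, c5]
          exact hg
        · rw [hvE, c5]
          show g • (co (L.pt (L.act f a)) j).1 = (co y' j).1
          rw [y2, hco2]
      · rw [c1, hf]
      · apply (L.bij f).1
        rw [c3, hj]
      · intro he
        have e1 := F18_eqv hX L hf' he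
        rw [c4] at e1
        apply hgw
        rw [← hco2, ← y2, e1]
  · intro hR x i y hn hst hs
    obtain ⟨f, rfl⟩ := L.onto x
    obtain ⟨a, a1, a2, a3, a4, a5⟩ := vE_ex L hst
    have hN : N (X.o a) (X.ty a) := by
      rw [a1, ← hl.nn, a3]
      exact hn
    rcases hR a a2 hN with ⟨a', c', h1, h2, h3, h4⟩ | ⟨a', h1, h2, h3, h4⟩
    · obtain ⟨f', hf'⟩ := hL.onto (X.o a')
      have ma' := F18_mv hX a2 h1
      have mc' := F18_mv hX ((hX.mi a).2 a2) h2
      obtain ⟨g, g1, _⟩ := (v_par_iff hP hX hL f f' a a' a1 hf'.symm a2 ma').1 h1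
      obtain ⟨k, k1, _⟩ := (v_par_iff hP hX hL (L.act f a) f' (X.i a) c'
        (by rw [hX.oi, L.act_p f a a1]) (by rw [← h3, hf']) ((hX.mi a).2 a2) mc').1 h2
      rw [vE_rev hX L a1 a2, a5] at k1
      rw [a5] at g1
      have e1 : (vE L f' a').1 = (vE L f' c').1 := by
        unfold vE
        rw [h4]
      refine ⟨k⁻¹ * g, ?_⟩
      rw [mul_smul, inv_smul_eq_iff]
      exact g1.trans (e1.trans k1.symm)
    · exfalso
      have ma' := F18_mv hX a2 h1
      have a1' : X.o a' = L.p f := by rw [h2, a1]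
      obtain ⟨g, g1, g2⟩ := (v_par_iff hP hX hL f f a a' a1 a1' a2 ma').1 h1
      have e1 : (vE L f a').1 = (vE L f a).1 := by
        unfold vE
        rw [h3]
      rw [e1, a5] at g1
      have e2 := hs g g1
      rw [a5] at g2
      have e3 : (vE L f a').2 = (vE L f a).2 := by
        rw [← g2, a5]
        exact e2
      obtain ⟨s, s1, s2⟩ := vE_eqv hP.ms hX L a1 a1' a2 ma' (Prod.ext e1.symm e3.symm)
      exact h4 ⟨s, s1, s2⟩

end

end VTB
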