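import Pool.Agent.Lib.MP_32d917_al_vt.F16
import Pool.Agent.Lib.MP_32d917_al_vt.F17
import Pool.Agent.Lib.MP_32d917_al_vt.F18
import Pool.Agent.Lib.MP_32d917_al_vt.F05

/-!
# F19: good data are the data of reduced structures

`cen`, `two`, `three`, `CLeaf`: a step in the tree of a central label lifts to every point (`edge_step`, `push`).
`v_good_of_lat`: as `fgood_of_flat` in F/FGA of MP_32d917_al. `gg`: `v_gg_iff` with `e = L.lam f` for any frame `f` (`hl.gam`). `span`: `fga_span` (copy), every object is reached from the object of one frame by `vf_induct`. `orient`: `v_orient_of_noinv`. `out`: a frame `f` over `q` (`hL.onto`), `h.ms.out` at `pt f`, `v_pdir_of_ag`, `hl.nn`. `inf`: `X.dir` at `f` gives a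
step (`vf_dir`), `h.ms.b.occ`, `h.ms.inf`, `v_ppath_of_inf`. `red`: `v_red_iff`.
`v_lat_of_good`: `ms.loc`: the steps at `pt f` are among `pt (act f a)`, `a : A` (`vf_movep`), `A` finite. `ms.out`: `hg.out`, `v_ag_of_pdir`. `ms.inf`: `ms.b.occ` gives a step at the point, `vf_dir`, `hg.inf`, `v_inf_of_ppath`. `gg`: `v_gg_iff`. `noinv`: `v_noinv_of_orient`. `prop`: if `g • x = x`, `pt f = x` then `g • f = act f s` for an arrow `s`
(`L.sur`), and `g` is determined by `s` (`free`). `fin`: one frame over every object, `trans`.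
-/

set_option autoImplicit false

namespace VTB

open LatIso LatN LatF

section

variable {ι P A : Type} {X : FD ι P A} {G : Type} [Group G] {Pt V ι' : Type} [Fintype ι']
  [MulAction G Pt] [MulAction G V] [MulAction G ι'] {κ : V → ι'} {S : SimpleGraph V}
  {co : Pt → ∀ i, Fib κ i} {Γ : SimpleGraph ι} {N : P → ι → Prop} {Γ' : SimpleGraph ι'}
  {N' : Pt → ι' → Prop}

private def F19_reach (X : FD ι P A) (p0 : P) : ℕ → P → Prop
  | 0, q => q = p0
  | n + 1, q => ∃ a, F19_reach X p0 n (X.o a) ∧ X.t a = q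

omit [Fintype ι'] in
private theorem F19_span (X : FD ι P A) (p0 : P) (h : ∀ q, ∃ n, F19_reach X p0 n q) :
    ∃ p0 δ r, LatF.Span X p0 δ r := by
  classical
  have h1 : ∀ q, q ≠ p0 → ∃ a, X.t a = q ∧ Nat.find (h (X.o a)) < Nat.find (h q) := by
    intro q hq
    have hn := Nat.find_spec (h q)
    rcases hk : Nat.find (h q) with _ | n
    · rw [hk] at hn
      exact absurd hn hq
    · rw [hk] at hn
      obtain ⟨a, ha, hat⟩ := hn
      exact ⟨a, hat, Nat.lt_succ_of_le (Nat.find_min' _ ha)⟩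
  by_cases hA : Nonempty A
  · obtain ⟨a0⟩ := hA
    refine ⟨p0, fun q => if hq : q ≠ p0 then (h1 q hq).choose else a0,
      fun q => Nat.find (h q), fun q hq => ?_⟩
    simp only [hq, ne_eq, not_false_eq_true, dite_true]
    exact (h1 q hq).choose_spec
  · exact absurd ⟨X.e p0⟩ hA

private theorem F19_adj {i : ι'} {Γ' : SimpleGraph ι'} (h : CL Γ' i) {j : ι'} (hj : j ≠ i) :
    Γ'.Adj i j := (h j).resolve_left hj

/-- a step in a tree of a central label -/
private theorem F19_push {W : ι' → Type} {T : ∀ i, SimpleGraph (W i)} {c : Pt → ∀ i, W i}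
    (M : MS1 Γ' T c N') {i : ι'} (hc : CL Γ' i) {x : Pt} {b : W i}
    (h : (T i).Adj (c x i) b) : ∃ y, VSt T c i x y ∧ c y i = b := by
  obtain ⟨x', y', h1, h2, h3⟩ := edge_step M h
  have h4 : Ag c (RaagIso.lk Γ' i) x' x := by
    intro j hj
    by_cases hji : j = i
    · subst hji
      exact h2.symm
    · exact absurd (F19_adj hc hji) hj
  obtain ⟨y, h5, h6, -⟩ := push M h1 h4
  exact ⟨y, h5, h6.trans h3⟩

/-- the arrow of a step in a tree of a central label -/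
private theorem F19_dir {W : ι' → Type} {T : ∀ i, SimpleGraph (W i)} {c : Pt → ∀ i, W i}
    {F : Type} (M : MS1 Γ' T c N') (L : VF X T c F) {f : F} {k : ι} (hc : CL Γ' (L.lam f k))
    {b : W (L.lam f k)} (h : (T (L.lam f k)).Adj (c (L.pt f) (L.lam f k)) b) :
    ∃ a, X.dir (L.p f) k a ∧ c (L.pt (L.act f a)) (L.lam f k) = b := by
  obtain ⟨y, h1, h2⟩ := F19_push M hc h
  obtain ⟨a, h3, h4, h5, h6⟩ := vf_movep L h1
  exact ⟨a, ⟨h3, h4, (L.bij f).1 h6⟩, by rw [h5, h2]⟩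

private theorem F19_neqv {W : ι' → Type} {T : ∀ i, SimpleGraph (W i)} {c : Pt → ∀ i, W i}
    {F : Type} (hX : VV0 Γ N X) (L : VF X T c F) {f : F} {a b : A} (ha : X.o a = L.p f)
    (i : ι') (h : c (L.pt (L.act f a)) i ≠ c (L.pt (L.act f b)) i) : ¬ X.eqv a b := by
  rintro ⟨s, hs, rfl⟩
  apply h
  have h2 : X.o s = L.p (L.act f a) := by rw [L.act_p f a ha]; exact hs.2
  rw [vf_act_mr hX L ha hs, L.st (L.act f a) s h2 hs.1]

private theorem F19_ne {W : ι' → Type} {T : ∀ i, SimpleGraph (W i)} {c : Pt → ∀ i, W i}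
    {F : Type} (M : MS1 Γ' T c N') (hX : VV0 Γ N X) (L : VF X T c F) {f : F} {k : ι} {a b : A}
    (ha : X.dir (L.p f) k a) (hb : X.dir (L.p f) k b) (h : ¬ X.eqv a b) :
    c (L.pt (L.act f a)) (L.lam f k) ≠ c (L.pt (L.act f b)) (L.lam f k) := by
  intro he
  apply h
  have h1 := L.mo f a ha.1 ha.2.1
  have h2 := L.mo f b hb.1 hb.2.1
  rw [ha.2.2] at h1
  rw [hb.2.2] at h2
  refine vf_eqv hX L ha.1 hb.1 (M.inj _ _ fun i => ?_)
  by_cases hi : i = L.lam f k
  · subst hi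
    exact he.symm
  · rw [h2.2 i hi, h1.2 i hi]

private theorem F19_cl {e : ι → ι'} (he : Function.Bijective e)
    (h : ∀ i j, Γ'.Adj (e i) (e j) ↔ Γ.Adj i j) (k : ι) : CL Γ' (e k) ↔ CL Γ k := by
  constructor
  · intro hc j
    rcases hc (e j) with h1 | h1
    · exact Or.inl (he.1 h1)
    · exact Or.inr ((h _ _).1 h1)
  · intro hc j
    obtain ⟨j, rfl⟩ := he.2 j
    rcases hc j with h1 | h1
    · exact Or.inl (by rw [h1])
    · exact Or.inr ((h _ _).2 h1)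

private theorem F19_lab {W : ι' → Type} {T : ∀ i, SimpleGraph (W i)} {c : Pt → ∀ i, W i}
    {F : Type} (M : MS1 Γ' T c N') (L : VF X T c F) (f : F) (k : ι) (f' : F) :
    ∀ k', L.lam f' k' = L.lam f k → Lab X (L.p f) k (L.p f') k' := by
  refine vf_induct M L (fun f' => ∀ k', L.lam f' k' = L.lam f k → Lab X (L.p f) k (L.p f') k')
    f ?_ ?_ f'
  · intro k' hk
    rw [(L.bij f).1 hk]
    exact Lab.refl
  · intro f1 a ha hQ k3 hk3
    obtain ⟨k2, hk2⟩ := (L.bij f1).2 (L.lam f k)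
    have h1 := L.act_lam f1 a ha k2
    have h2 : X.pm a k2 = k3 := (L.bij (L.act f1 a)).1 (by rw [h1, hk2, hk3])
    rw [← h2, L.act_p f1 a ha]
    refine Lab.step a k2 ?_
    rw [ha]
    exact hQ k2 hk2

theorem v_good_of_lat (h : VLat G Γ' κ S co N') (hC : CLeaf Γ' (comp κ S))
    (hr : VRed G κ S co N') (hc : IsVCov G Γ' κ S co N' Γ N X) : VGood Γ N X := by
  classical
  obtain ⟨hP, hV, F, iF, L, hl, hL⟩ := hc
  have hX := hV.v0
  have M := hP.ms
  obtain ⟨x0⟩ := M.ne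
  obtain ⟨f0, -⟩ := L.onto x0
  refine ⟨hV, ?_, ?_, v_orient_of_noinv hP hX hL h.noinv, ?_, ?_, ?_, ?_, ?_,
    (v_red_iff hP hX hl hL).1 hr⟩
  · exact (v_gg_iff (L.lam f0) (L.bij f0) (hl.gam f0)).1 h.gg
  · refine F19_span X (L.p f0) (fun q => ?_)
    obtain ⟨f, hf⟩ := hL.onto q
    rw [← hf]
    refine vf_induct M L (fun f => ∃ n, F19_reach X (L.p f0) n (L.p f)) f0 ⟨0, rfl⟩ ?_ f
    rintro f a ha ⟨n, hn⟩
    exact ⟨n + 1, a, by rw [ha]; exact hn, (L.act_p f a ha).symm⟩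
  · intro q k hk
    obtain ⟨f, rfl⟩ := hL.onto q
    exact (hl.nn f k).1 (h.ms.cen _ _ ((F19_cl (L.bij f) (hl.gam f) k).2 hk))
  · intro q k hk hN
    obtain ⟨f, rfl⟩ := hL.onto q
    obtain ⟨y, hy, hny⟩ := h.ms.out _ _ (fun hh => hk ((F19_cl (L.bij f) (hl.gam f) k).1 hh))
      ((hl.nn f k).2 hN)
    obtain ⟨f', k', hf', hk', hp⟩ := v_pdir_of_ag M L hy
    refine ⟨L.p f', k', hp, fun hn => hny ?_⟩
    rw [← hf', ← hk']
    exact (hl.nn f' k').2 hn
  · intro q k hk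
    obtain ⟨f, rfl⟩ := hL.onto q
    have hk' := (F19_cl (L.bij f) (hl.gam f) k).2 hk
    obtain ⟨x, y, hxy, hx, hy⟩ := (hC _ hk').two (co (L.pt f) (L.lam f k))
    obtain ⟨a, ha, hpa⟩ := F19_dir M L hk' hx
    obtain ⟨b, hb, hpb⟩ := F19_dir M L hk' hy
    exact ⟨a, b, ha, hb, F19_neqv hX L ha.1 (L.lam f k) (by rw [hpa, hpb]; exact hxy)⟩
  · intro q k hk
    obtain ⟨f, rfl⟩ := hL.onto q
    have hk0 := (F19_cl (L.bij f) (hl.gam f) k).2 hk
    obtain ⟨v, x, y, z, hxy, hyz, hxz, hx, hy, hz⟩ := (hC _ hk0).three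
    obtain ⟨p, hp⟩ := M.onto (L.lam f k) v
    obtain ⟨f', rfl⟩ := L.onto p
    obtain ⟨k', hk'⟩ := (L.bij f').2 (L.lam f k)
    have hlab := F19_lab M L f k f' k' hk'
    rw [← hk'] at hk0
    have hdir : ∀ w, (comp κ S (L.lam f k)).Adj v w → ∃ a, X.dir (L.p f') k' a ∧
        co (L.pt (L.act f' a)) (L.lam f k) = w := by
      intro w hw
      rw [← hp] at hw
      revert w
      rw [← hk']
      intro w hw
      exact F19_dir M L hk0 hw
    obtain ⟨a, ha, hpa⟩ := hdir x hx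
    obtain ⟨b, hb, hpb⟩ := hdir y hy
    obtain ⟨c, hc, hpc⟩ := hdir z hz
    exact ⟨L.p f', k', a, b, c, hlab, ha, hb, hc,
      F19_neqv hX L ha.1 (L.lam f k) (by rw [hpa, hpb]; exact hxy),
      F19_neqv hX L hb.1 (L.lam f k) (by rw [hpb, hpc]; exact hyz),
      F19_neqv hX L ha.1 (L.lam f k) (by rw [hpa, hpc]; exact hxz)⟩
  · intro q k hd
    obtain ⟨f, rfl⟩ := hL.onto q
    have h1 := (vf_dir L f k).1 hd
    have h2 := h.ms.inf _ _ ((M.occ _ _).1 h1)
    exact v_ppath_of_inf M hX L h.ms.loc h2 (Nat.card A)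

theorem v_lat_of_good [Finite P] [Finite A] (hc : IsVCov G Γ' κ S co N' Γ N X)
    (hg : VGood Γ N X) :
    VLat G Γ' κ S co N' ∧ VRed G κ S co N' ∧ CLeaf Γ' (comp κ S) := by
  classical
  obtain ⟨hP, hV, F, iF, L, hl, hL⟩ := hc
  have hX := hV.v0
  have M := hP.ms
  obtain ⟨x0⟩ := M.ne
  obtain ⟨f0, -⟩ := L.onto x0
  refine ⟨⟨hP, ⟨M, ?_, ?_, ?_, ?_⟩, ?_, ?_, ?_, ?_⟩, (v_red_iff hP hX hl hL).2 hg.red, ?_⟩
  · intro x i
    obtain ⟨f, rfl⟩ := L.onto x
    refine (Set.finite_range (fun a : A => L.pt (L.act f a))).subset ?_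
    intro y hy
    obtain ⟨c, -, -, h3, -⟩ := vf_movep L hy
    exact ⟨c, h3⟩
  · intro x i hi
    obtain ⟨f, rfl⟩ := L.onto x
    obtain ⟨k, rfl⟩ := (L.bij f).2 i
    exact (hl.nn f k).2 (hg.cen _ _ ((F19_cl (L.bij f) (hl.gam f) k).1 hi))
  · intro x i hi hN
    obtain ⟨f, rfl⟩ := L.onto x
    obtain ⟨k, rfl⟩ := (L.bij f).2 i
    obtain ⟨q', k', hp, hn⟩ := hg.out _ _
      (fun hh => hi ((F19_cl (L.bij f) (hl.gam f) k).2 hh)) ((hl.nn f k).1 hN)
    obtain ⟨f', rfl, hk', hag⟩ := v_ag_of_pdir L hp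
    refine ⟨L.pt f', hag, fun h => hn ?_⟩
    rw [← hk'] at h
    exact (hl.nn f' k').1 h
  · intro x i ho
    obtain ⟨f, rfl⟩ := L.onto x
    obtain ⟨k, rfl⟩ := (L.bij f).2 i
    obtain ⟨w, hw, hlen⟩ := hg.inf _ _ ((vf_dir L f k).2 ((M.occ _ _).2 ho))
    exact v_inf_of_ppath M hX L hw hlen
  · exact (v_gg_iff (L.lam f0) (L.bij f0) (hl.gam f0)).2 hg.gg
  · obtain ⟨s, h1, h2, h3⟩ := hg.orient
    exact v_noinv_of_orient hP hX hL h1 h2 h3
  · intro x
    obtain ⟨f, rfl⟩ := L.onto x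
    have h1 : ∀ g : G, ∃ s : A, g • L.pt f = L.pt f → L.act f s = g • f := by
      intro g
      by_cases hgx : g • L.pt f = L.pt f
      · obtain ⟨s, -, hs⟩ := L.sur f (g • f) (Or.inl (by rw [hL.gpt, hgx]))
        exact ⟨s, fun _ => hs⟩
      · exact ⟨X.e (L.p f), fun h => absurd h hgx⟩
    choose c hc using h1
    refine Set.Finite.of_injOn (f := c) (t := Set.univ) (fun _ _ => trivial) ?_ Set.finite_univ
    intro g hgx g' hgx' he
    have h2 : g • f = g' • f := by rw [← hc g hgx, ← hc g' hgx', he]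
    have h3 : (g'⁻¹ * g) • f = f := by rw [mul_smul, h2, inv_smul_smul]
    have h4 := hL.free _ _ h3
    rw [inv_mul_eq_one] at h4
    exact h4.symm
  · choose φ hφ using hL.onto
    refine ⟨(Set.finite_range (fun q : P => L.pt (φ q))).toFinset, fun x => ?_⟩
    obtain ⟨f, rfl⟩ := L.onto x
    obtain ⟨g, hg⟩ := hL.trans f (φ (L.p f)) (hφ (L.p f)).symm
    refine ⟨g, ?_⟩
    rw [Set.Finite.mem_toFinset]
    exact ⟨L.p f, by rw [← hL.gpt, hg]⟩
  · intro i hi
    have hadj : ∀ (f : F) (k : ι) (a : A), X.dir (L.p f) k a →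
        (comp κ S (L.lam f k)).Adj (co (L.pt f) (L.lam f k))
          (co (L.pt (L.act f a)) (L.lam f k)) := by
      intro f k a ha
      have h1 := L.mo f a ha.1 ha.2.1
      rw [ha.2.2] at h1
      exact h1.1
    refine ⟨fun v => ?_, ?_⟩
    · obtain ⟨x, rfl⟩ := M.onto i v
      obtain ⟨f, rfl⟩ := L.onto x
      obtain ⟨k, rfl⟩ := (L.bij f).2 i
      obtain ⟨a, b, ha, hb, hab⟩ := hg.two (L.p f) k ((F19_cl (L.bij f) (hl.gam f) k).1 hi)
      exact ⟨_, _, F19_ne M hX L ha hb hab, hadj f k a ha, hadj f k b hb⟩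
    · obtain ⟨k, rfl⟩ := (L.bij f0).2 i
      obtain ⟨q', k', a, b, c, hlab, ha, hb, hc, hab, hbc, hac⟩ :=
        hg.three (L.p f0) k ((F19_cl (L.bij f0) (hl.gam f0) k).1 hi)
      have hlab' : ∃ f', L.p f' = q' ∧ L.lam f' k' = L.lam f0 k := by
        clear ha hb hc
        induction hlab with
        | refl => exact ⟨f0, rfl, rfl⟩
        | step a k' _ ih =>
          obtain ⟨f', h1, h2⟩ := ih
          exact ⟨L.act f' a, L.act_p f' a h1.symm, by rw [L.act_lam f' a h1.symm, h2]⟩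
      obtain ⟨f', rfl, h2⟩ := hlab'
      rw [← h2]
      exact ⟨co (L.pt f') (L.lam f' k'), _, _, _, F19_ne M hX L ha hb hab,
        F19_ne M hX L hb hc hbc, F19_ne M hX L ha hc hac, hadj f' k' a ha, hadj f' k' b hb,
        hadj f' k' c hc⟩

end

end VTB
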