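import Pool.Agent.Lib.MP_32d917_al_vt.F05

/-!
# F20: transport along isomorphisms of groups

Adapt `hasCov_transport` of F/FTR2 of MP_32d917_al: let `G'` act through `e` on everything (`MulAction.compHom _ e.toMonoidHom`), all conditions are immediate (for `∃ g : G` use `e.symm g`).
-/

set_option autoImplicit false

namespace VTB

open LatIso LatN LatF

section

theorem hasVCov_transport {G : Type} [Group G] {G' : Type} [Group G'] (e : G' ≃* G)
    {ι P A : Type} {Γ : SimpleGraph ι} {N : P → ι → Prop} {X : FD ι P A}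
    (h : HasVCov G Γ N X) : HasVCov G' Γ N X := by
  obtain ⟨Pt, V, ι', aP, aV, aι, Γ', κ, S, co, N', hP, hV, F, aF, L, hL, hC⟩ := h
  refine ⟨Pt, V, ι', MulAction.compHom Pt e.toMonoidHom, MulAction.compHom V e.toMonoidHom,
    MulAction.compHom ι' e.toMonoidHom, Γ', κ, S, co, N', ?_, hV, F,
    MulAction.compHom F e.toMonoidHom, L, hL, ?_⟩
  · exact @VPre.mk ι' Pt V G' _ (MulAction.compHom Pt e.toMonoidHom)
      (MulAction.compHom V e.toMonoidHom) (MulAction.compHom ι' e.toMonoidHom) Γ' κ S co N'
      hP.ms hP.kapS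
      (@FAct.mk G' _ V ι' (MulAction.compHom V e.toMonoidHom) (MulAction.compHom ι' e.toMonoidHom)
        κ S (fun g v => hP.act.kap (e g) v) (fun g x y hxy => hP.act.adj (e g) x y hxy))
      (fun g i j => hP.gam (e g) i j) (fun g x i => hP.gco (e g) x i)
      (fun g x i => hP.gn (e g) x i)
  · refine @VCov.mk G' _ ι P A X Pt V ι' (MulAction.compHom Pt e.toMonoidHom)
      (MulAction.compHom V e.toMonoidHom) (MulAction.compHom ι' e.toMonoidHom) κ S co F
      (MulAction.compHom F e.toMonoidHom) L
      (fun g f => hC.gp (e g) f) (fun g f a ha => hC.gact (e g) f a ha)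
      (fun g f => hC.gpt (e g) f) (fun g f k => hC.glam (e g) f k) (fun g f hf => ?_)
      (fun f f' hff => ?_) hC.onto
    · have := hC.free (e g) f hf
      exact e.map_eq_one_iff.mp this
    · obtain ⟨g, hg⟩ := hC.trans f f' hff
      refine ⟨e.symm g, ?_⟩
      change e (e.symm g) • f = f'
      rw [e.apply_symm_apply]
      exact hg

end

end VTB
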