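import Pool.Agent.Lib.MP_32d917_al_vt.F10

/-!
# F21: closed lists of codes contain the quotients of all structures reached by slides

As `closed_chain` in F/Cert of MP_32d917_al: induction on the chain; `v_legal_of_slide` (F08), `hl`, `v_res_sound` (F10). All graphs on the chain are `VLat` by `hsl`. `cG`, `cN` of the new code are those of the old code (definitional).
-/

set_option autoImplicit false

namespace VTB

open LatIso LatN LatF

section

variable {G : Type} [Group G] {Pt V ι' : Type} [Fintype ι'] [MulAction G Pt]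
  [MulAction G V] [MulAction G ι'] {κ : V → ι'} {S S' : SimpleGraph V} {co : Pt → ∀ i, Fib κ i}
  {Γ' : SimpleGraph ι'} {N' : Pt → ι' → Prop}

theorem v_closed_chain {l : List VCode} (hl : VClosed l)
    (hsl : ∀ R R' : SimpleGraph V, VLat G Γ' κ R co N' → VSl G κ co R R' →
      VLat G Γ' κ R' co N') (h : VLat G Γ' κ S co N')
    (hs : Relation.ReflTransGen (VSl G κ co) S S')
    (hc : ∃ x ∈ l, IsVCov G Γ' κ S co N' (cG x) (cN x) (LatF.dec x.1)) :
    ∃ x ∈ l, IsVCov G Γ' κ S' co N' (cG x) (cN x) (LatF.dec x.1) := by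
  have key : VLat G Γ' κ S' co N' ∧
      ∃ x ∈ l, IsVCov G Γ' κ S' co N' (cG x) (cN x) (LatF.dec x.1) := by
    induction hs with
    | refl => exact ⟨h, hc⟩
    | @tail R R' _ h2 ih =>
      obtain ⟨L1, x, hx, hP, hX, F, _, L, hl1, hL⟩ := ih
      have L2 := hsl R R' L1 h2
      obtain ⟨a, b, hab, hsa⟩ := v_legal_of_slide hX hP hL h2
      obtain ⟨m, w, hm, φ₁, φ₂, hr⟩ := hl x hx a b hab
      exact ⟨L2, _, hm, v_res_sound hX hP L2.pre L2.noinv hl1 hL hab hsa hr⟩
  exact key.2

end

end VTB
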