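import Pool.Agent.Lib.MP_32d917_al_vt.VDefs
import Pool.Agent.Lib.MP_32d917_al.F.CA
import Pool.Agent.Lib.MP_32d917_al.F.CB
import Pool.Agent.Lib.MP_32d917_al.F.CVAL

/-!
# F30: codes: the numbers of graphs and of internal labels

`bt w j` is `CB.dg 1 w j = 1` (by definition: `(1 + 1) = 2`). `bt_surj`: `CB.exists_dg 1` (CODEB.lean) for the function `t ↦ if C t then 1 else 0`. `vgr_surj`: `C t` := `t = a * (n + 1) + b` with `Γ.Adj a b`, i.e. `Γ.Adj ⟨t / (n + 1), _⟩ ⟨t % (n + 1), _⟩` (see `ciso_exists2` in F/CISO.lean). `vN_surj`: the same.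
`vadjN`, `vintN`: the numerical versions; `vadj_iff`: `a ≠ b` in `Fin` iff the values are different.
-/

set_option autoImplicit false

namespace VTB

open LatIso LatN LatF

theorem bt_surj (K : ℕ) (C : ℕ → Prop) : ∃ w < 2 ^ K, ∀ j < K, bt w j ↔ C j := by
  classical
  obtain ⟨w, hw, h⟩ := CB.exists_dg 1 (fun t => if C t then 1 else 0)
    (fun t => by split_ifs <;> omega) K
  refine ⟨w, hw, fun j hj => ?_⟩
  show CB.dg 1 w j = 1 ↔ C j
  rw [h j hj]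
  by_cases hc : C j
  · simp [hc]
  · simp [hc]

private theorem F30_two (m k : ℕ) (C : Fin (m + 1) → Fin (k + 1) → Prop) :
    ∃ w < 2 ^ ((m + 1) * (k + 1)), ∀ (a : Fin (m + 1)) (b : Fin (k + 1)),
      bt w (a * (k + 1) + b) ↔ C a b := by
  obtain ⟨w, hw, h⟩ := bt_surj ((m + 1) * (k + 1)) (fun t => ∃ (a : Fin (m + 1)) (b : Fin (k + 1)),
    t = a * (k + 1) + b ∧ C a b)
  have hd : ∀ (a : Fin (m + 1)) (b : Fin (k + 1)), ((a : ℕ) * (k + 1) + b) / (k + 1) = a := by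
    intro a b
    rw [Nat.mul_comm, Nat.mul_add_div (Nat.succ_pos _), Nat.div_eq_of_lt b.2]
    simp
  have hm : ∀ (a : Fin (m + 1)) (b : Fin (k + 1)), ((a : ℕ) * (k + 1) + b) % (k + 1) = b := by
    intro a b
    rw [Nat.mul_comm, Nat.mul_add_mod]
    exact Nat.mod_eq_of_lt b.2
  refine ⟨w, hw, fun a b => ?_⟩
  have h1 : (a : ℕ) * (k + 1) + b < (m + 1) * (k + 1) := by
    have := a.2
    have := b.2
    calc (a : ℕ) * (k + 1) + b < (a : ℕ) * (k + 1) + (k + 1) := by omega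
      _ = ((a : ℕ) + 1) * (k + 1) := by ring
      _ ≤ _ := Nat.mul_le_mul_right _ (by omega)
  rw [h _ h1]
  constructor
  · rintro ⟨a', b', he, hc⟩
    have e1 : a = a' := Fin.ext (by rw [← hd a b, he, hd])
    have e2 : b = b' := Fin.ext (by rw [← hm a b, he, hm])
    rw [e1, e2]
    exact hc
  · exact fun hc => ⟨a, b, rfl, hc⟩

theorem vgr_surj (n : ℕ) (Γ : SimpleGraph (Fin (n + 1))) :
    ∃ g < 2 ^ ((n + 1) * (n + 1)), vgr n g = Γ := by
  obtain ⟨g, hg, h⟩ := F30_two n n (fun a b => Γ.Adj a b)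
  refine ⟨g, hg, ?_⟩
  ext a b
  show (a ≠ b ∧ bt g (a * (n + 1) + b) ∧ bt g (b * (n + 1) + a)) ↔ Γ.Adj a b
  rw [h a b, h b a]
  exact ⟨fun hh => hh.2.1, fun hh => ⟨hh.ne, hh, hh.symm⟩⟩

theorem vN_surj (n m : ℕ) (N : Fin (m + 1) → Fin (n + 1) → Prop) :
    ∃ w < 2 ^ ((m + 1) * (n + 1)), ∀ (p : Fin (m + 1)) (i : Fin (n + 1)),
      bt w (p * (n + 1) + i) ↔ N p i := by
  exact F30_two m n N

/-- every finite data have a code -/
theorem vdec_surj (s : ℕ × ℕ × ℕ) (X : FD (Fin (s.1 + 1)) (Fin (s.2.1 + 1)) (Fin (s.2.2 + 1)))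
    (Γ : SimpleGraph (Fin (s.1 + 1))) (N : Fin (s.2.1 + 1) → Fin (s.1 + 1) → Prop) :
    ∃ w g m, VBox ((s, w), g, m) ∧ LatF.dec (s, w) = X ∧ cG ((s, w), g, m) = Γ ∧
      cN ((s, w), g, m) = N := by
  obtain ⟨w, hw, hd⟩ := LatF.dec_surj s X
  obtain ⟨g, hg, hg'⟩ := vgr_surj s.1 Γ
  obtain ⟨m, hm, hm'⟩ := vN_surj s.1 s.2.1 N
  refine ⟨w, g, m, ⟨hw, hg, hm⟩, hd, hg', ?_⟩
  funext p i
  exact propext (hm' p i)

/-- adjacency in the graph of a code, for numbers -/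
def vadjN (x : VCode) (a b : ℕ) : Prop :=
  a ≠ b ∧ bt x.2.1 (a * (x.1.1.1 + 1) + b) ∧ bt x.2.1 (b * (x.1.1.1 + 1) + a)

/-- internal labels of a code, for numbers -/
def vintN (x : VCode) (p i : ℕ) : Prop := bt x.2.2 (p * (x.1.1.1 + 1) + i)

theorem vadj_iff (x : VCode) (a b : Fin (x.1.1.1 + 1)) : (cG x).Adj a b ↔ vadjN x a b :=
  and_congr (not_congr Fin.ext_iff) Iff.rfl

theorem vint_iff (x : VCode) (p : Fin (x.1.1.2.1 + 1)) (i : Fin (x.1.1.1 + 1)) :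
    cN x p i ↔ vintN x p i := Iff.rfl

section

variable {β : Type} [Primcodable β] {f : β → VCode} {a b : β → ℕ}

theorem bt_p {w j : β → ℕ} (hw : Primrec w) (hj : Primrec j) :
    PrimrecPred fun x => bt (w x) (j x) :=
  CB.pp_eq (CB.p_dg (Primrec.const 1) hw hj) (Primrec.const 1)

theorem vadj_p (hf : Primrec f) (ha : Primrec a) (hb : Primrec b) :
    PrimrecPred fun x => vadjN (f x) (a x) (b x) := by
  have h1 : Primrec fun x => (f x).1.1.1 + 1 :=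
    CB.p_add (CB.p_fst (CB.p_fst (CB.p_fst hf))) (Primrec.const 1)
  have h2 : Primrec fun x => (f x).2.1 := CB.p_fst (CB.p_snd hf)
  exact CB.pp_and (CB.pp_not (CB.pp_eq ha hb))
    (CB.pp_and (bt_p h2 (CB.p_add (CB.p_mul ha h1) hb)) (bt_p h2 (CB.p_add (CB.p_mul hb h1) ha)))

theorem vint_p (hf : Primrec f) (ha : Primrec a) (hb : Primrec b) :
    PrimrecPred fun x => vintN (f x) (a x) (b x) := by
  have h1 : Primrec fun x => (f x).1.1.1 + 1 :=
    CB.p_add (CB.p_fst (CB.p_fst (CB.p_fst hf))) (Primrec.const 1)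
  have h2 : Primrec fun x => (f x).2.2 := CB.p_snd (CB.p_snd hf)
  exact bt_p h2 (CB.p_add (CB.p_mul ha h1) hb)

end

end VTB
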