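import Pool.Agent.Lib.MP_32d917_al_vt.F30

/-!
# F31: codes: validity with graph and internal labels is primitive recursive

Adapt F/CVAL.lean (copy the private definitions `V1`, ..., `V5`, `N1`, ..., `N5`, the `iff` and the `_p` lemmas): the axioms of `VV0` are those of `Valid0` with the changed axiom `sqe` (`Γ.Adj (ty b) (pm a (ty a))` instead of `ty b ≠ pm a (ty a)`) and the new axioms `sqg`, `pmg`, `occ`, `nocc`, `ntr`
(put them in a sixth group: bounded quantifiers over labels, points, arrows; `i ∈ RaagIso.st Γ v` is `i = v ∨ Γ.Adj v i`). `vadj_iff`, `vint_iff`, `vadj_p`, `vint_p` (F30) with `f := fun x => x` etc.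
-/

set_option autoImplicit false

namespace VTB

open LatIso LatN LatF

/-! ### the axioms in groups -/

private def V1 {ι P A : Type} (X : FD ι P A) : Prop :=
  (∀ p, X.o (X.e p) = p) ∧ (∀ p, X.t (X.e p) = p) ∧ (∀ p, ¬ X.mv (X.e p)) ∧
  (∀ p k, X.pm (X.e p) k = k) ∧ (∀ a, X.o (X.i a) = X.t a) ∧ (∀ a, X.t (X.i a) = X.o a) ∧
  (∀ a, X.i (X.i a) = a) ∧ (∀ a, X.mv (X.i a) ↔ X.mv a) ∧
  (∀ a, X.mv a → X.ty (X.i a) = X.pm a (X.ty a)) ∧ (∀ a k, X.pm (X.i a) (X.pm a k) = k) ∧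
  (∀ a, ¬ X.mv a → X.t a = X.o a)

private def V2 {ι P A : Type} (X : FD ι P A) : Prop :=
  (∀ s a, X.lc s a → X.o (X.ml s a) = X.o s) ∧
  (∀ s a, X.lc s a → X.t (X.ml s a) = X.t a) ∧
  (∀ s a, X.lc s a → (X.mv (X.ml s a) ↔ X.mv a)) ∧
  (∀ s a, X.lc s a → X.mv a → X.pm s (X.ty (X.ml s a)) = X.ty a) ∧
  (∀ s a k, X.lc s a → X.pm (X.ml s a) k = X.pm a (X.pm s k)) ∧
  (∀ a, X.ml (X.e (X.o a)) a = a) ∧
  (∀ s s' a, X.lc s s' → X.lc s' a → X.ml s (X.ml s' a) = X.ml (X.ml s s') a) ∧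
  (∀ s, ¬ X.mv s → X.ml s (X.i s) = X.e (X.o s)) ∧
  (∀ s a s', X.lc s a → X.rc a s' → X.ml s (X.mr a s') = X.mr (X.ml s a) s') ∧
  (∀ s s', ¬ X.mv s → X.rc s s' → X.mr s s' = X.ml s s') ∧
  (∀ s a, X.lc s a → X.ml s a = a → s = X.e (X.o a))

private def V3 {ι P A : Type} (X : FD ι P A) : Prop :=
  (∀ a b c d, X.sq a b c d → SqT X a b c d) ∧
  (∀ a b c d, X.sq a b c d → ∀ k, X.pm b (X.pm a k) = X.pm d (X.pm c k)) ∧
  (∀ a b c d, X.sq a b c d → X.sq c d a b) ∧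
  (∀ a b c d, X.sq a b c d → X.sq (X.i a) c b (X.i d)) ∧
  (∀ a b c d s, X.sq a b c d → X.lc s a → X.sq (X.ml s a) b (X.ml s c) d) ∧
  (∀ a b c d s, X.sq a b c d → X.rc a s → X.sq (X.mr a s) (X.ml (X.i s) b) c d)

private def V4 {ι P A : Type} (Γ : SimpleGraph ι) (X : FD ι P A) : Prop :=
  (∀ a b, X.mv a → X.mv b → X.t a = X.o b → Γ.Adj (X.ty b) (X.pm a (X.ty a)) →
    ∃ c d, X.sq a b c d) ∧
  (∀ a b c d c' d', X.sq a b c d → X.sq a b c' d' →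
    ∃ s, X.rc c s ∧ c' = X.mr c s ∧ d' = X.ml (X.i s) d)

private def V5 {ι P A : Type} (X : FD ι P A) : Prop :=
  ∀ a b b₁ a₁ c c₁ a₂ c' c₁' a₃ b', X.sq a b₁ b a₁ → X.sq a c₁ c a₂ →
    X.sq a₁ c₁' c' a₃ → X.sq b c' c b' → ∃ b₁', X.sq b₁ c₁' c₁ b₁' ∧ X.sq a₂ b₁' b' a₃

private def V6 {ι P A : Type} (Γ : SimpleGraph ι) (N : P → ι → Prop) (X : FD ι P A) : Prop :=
  (∀ a b c d, X.sq a b c d → Γ.Adj (X.ty a) (X.ty c)) ∧
  (∀ a i j, Γ.Adj (X.pm a i) (X.pm a j) ↔ Γ.Adj i j) ∧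
  (∀ q i, (∃ a, X.o a = q ∧ X.mv a ∧ X.ty a = i) ↔ ∀ v, N q v → (i = v ∨ Γ.Adj v i)) ∧
  (∀ q i, N q i → ∃ a, X.o a = q ∧ X.mv a ∧ X.ty a = i) ∧
  (∀ a k, (X.mv a → ¬ k = X.ty a) → (N (X.t a) (X.pm a k) ↔ N (X.o a) k))

private theorem vv_valid_iff {ι P A : Type} (Γ : SimpleGraph ι) (N : P → ι → Prop)
    (X : FD ι P A) : (V1 X ∧ V2 X ∧ V3 X ∧ V4 Γ X ∧ V5 X ∧ V6 Γ N X) ↔ VV Γ N X := by
  constructor
  · rintro ⟨⟨h1, h2, h3, h4, h5, h6, h7, h8, h9, h10, h11⟩,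
      ⟨k1, k2, k3, k4, k5, k6, k7, k8, k9, k10, k11⟩, ⟨l1, l2, l3, l4, l5, l6⟩, ⟨m1, m2⟩, hc,
      ⟨n1, n2, n3, n4, n5⟩⟩
    exact ⟨⟨h1, h2, h3, h4, h5, h6, h7, h8, h9, h10, k1, k2, k3, k4, k5, k6, k7, k8, k9, k10, k11,
      l1, l2, l3, l4, l5, l6, m1, n1, m2, hc, n2, n3, n4, n5⟩, h11⟩
  · intro h
    have g := h.v0
    exact ⟨⟨g.oe, g.te, g.me, g.pe, g.oi, g.ti, g.ii, g.mi, g.tyi, g.pi, h.loop⟩,
      ⟨g.mlo, g.mlt, g.mlm, g.mly, g.mlp, g.mle, g.mla, g.mli, g.mlr, g.mrs, g.mlf⟩,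
      ⟨g.sqT, g.sqp, g.sqs, g.sqr, g.sql, g.sqm⟩, ⟨g.sqe, g.squ⟩, g.cube,
      ⟨g.sqg, g.pmg, g.occ, g.nocc, g.ntr⟩⟩

private theorem cval_sqT_iff {ι P A : Type} (X : FD ι P A) (a b c d : A) :
    SqT X a b c d ↔ (X.mv a ∧ X.mv b ∧ X.mv c ∧ X.mv d ∧ X.o a = X.o c ∧ X.t a = X.o b ∧
      X.t c = X.o d ∧ X.t b = X.t d ∧ ¬ X.ty a = X.ty c ∧ X.ty b = X.pm a (X.ty c) ∧
      X.ty d = X.pm c (X.ty a)) :=
  ⟨fun h => ⟨h.ma, h.mb, h.mc, h.md, h.oac, h.tab, h.tcd, h.tbd, h.ne, h.tyb, h.tyd⟩,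
    fun ⟨h1, h2, h3, h4, h5, h6, h7, h8, h9, h10, h11⟩ =>
      ⟨h1, h2, h3, h4, h5, h6, h7, h8, h9, h10, h11⟩⟩

/-! ### number versions -/

private def N1 (x : LatF.Code) : Prop :=
  (∀ p < x.1.2.1 + 1, cval_o x (cval_e x p) = p) ∧
  (∀ p < x.1.2.1 + 1, cval_t x (cval_e x p) = p) ∧
  (∀ p < x.1.2.1 + 1, ¬ cval_mv x (cval_e x p)) ∧
  (∀ p < x.1.2.1 + 1, ∀ k < x.1.1 + 1, cval_pm x (cval_e x p) k = k) ∧
  (∀ a < x.1.2.2 + 1, cval_o x (cval_i x a) = cval_t x a) ∧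
  (∀ a < x.1.2.2 + 1, cval_t x (cval_i x a) = cval_o x a) ∧
  (∀ a < x.1.2.2 + 1, cval_i x (cval_i x a) = a) ∧
  (∀ a < x.1.2.2 + 1, (cval_mv x (cval_i x a) ↔ cval_mv x a)) ∧
  (∀ a < x.1.2.2 + 1, cval_mv x a → cval_ty x (cval_i x a) = cval_pm x a (cval_ty x a)) ∧
  (∀ a < x.1.2.2 + 1, ∀ k < x.1.1 + 1, cval_pm x (cval_i x a) (cval_pm x a k) = k) ∧
  (∀ a < x.1.2.2 + 1, ¬ cval_mv x a → cval_t x a = cval_o x a)

private def N2 (x : LatF.Code) : Prop :=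
  (∀ s < x.1.2.2 + 1, ∀ a < x.1.2.2 + 1, (¬ cval_mv x s ∧ cval_t x s = cval_o x a) →
    cval_o x (cval_ml x s a) = cval_o x s) ∧
  (∀ s < x.1.2.2 + 1, ∀ a < x.1.2.2 + 1, (¬ cval_mv x s ∧ cval_t x s = cval_o x a) →
    cval_t x (cval_ml x s a) = cval_t x a) ∧
  (∀ s < x.1.2.2 + 1, ∀ a < x.1.2.2 + 1, (¬ cval_mv x s ∧ cval_t x s = cval_o x a) →
    (cval_mv x (cval_ml x s a) ↔ cval_mv x a)) ∧
  (∀ s < x.1.2.2 + 1, ∀ a < x.1.2.2 + 1, (¬ cval_mv x s ∧ cval_t x s = cval_o x a) →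
    cval_mv x a → cval_pm x s (cval_ty x (cval_ml x s a)) = cval_ty x a) ∧
  (∀ s < x.1.2.2 + 1, ∀ a < x.1.2.2 + 1, ∀ k < x.1.1 + 1,
    (¬ cval_mv x s ∧ cval_t x s = cval_o x a) →
    cval_pm x (cval_ml x s a) k = cval_pm x a (cval_pm x s k)) ∧
  (∀ a < x.1.2.2 + 1, cval_ml x (cval_e x (cval_o x a)) a = a) ∧
  (∀ s < x.1.2.2 + 1, ∀ s' < x.1.2.2 + 1, ∀ a < x.1.2.2 + 1,
    (¬ cval_mv x s ∧ cval_t x s = cval_o x s') → (¬ cval_mv x s' ∧ cval_t x s' = cval_o x a) →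
    cval_ml x s (cval_ml x s' a) = cval_ml x (cval_ml x s s') a) ∧
  (∀ s < x.1.2.2 + 1, ¬ cval_mv x s → cval_ml x s (cval_i x s) = cval_e x (cval_o x s)) ∧
  (∀ s < x.1.2.2 + 1, ∀ a < x.1.2.2 + 1, ∀ s' < x.1.2.2 + 1,
    (¬ cval_mv x s ∧ cval_t x s = cval_o x a) → (¬ cval_mv x s' ∧ cval_o x s' = cval_t x a) →
    cval_ml x s (cval_i x (cval_ml x (cval_i x s') (cval_i x a))) =
      cval_i x (cval_ml x (cval_i x s') (cval_i x (cval_ml x s a)))) ∧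
  (∀ s < x.1.2.2 + 1, ∀ s' < x.1.2.2 + 1, ¬ cval_mv x s →
    (¬ cval_mv x s' ∧ cval_o x s' = cval_t x s) →
    cval_i x (cval_ml x (cval_i x s') (cval_i x s)) = cval_ml x s s') ∧
  (∀ s < x.1.2.2 + 1, ∀ a < x.1.2.2 + 1, (¬ cval_mv x s ∧ cval_t x s = cval_o x a) →
    cval_ml x s a = a → s = cval_e x (cval_o x a))

private def N3 (x : LatF.Code) : Prop :=
  (∀ a < x.1.2.2 + 1, ∀ b < x.1.2.2 + 1, ∀ c < x.1.2.2 + 1, ∀ d < x.1.2.2 + 1,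
    cval_sq x a b c d → cval_mv x a ∧ cval_mv x b ∧ cval_mv x c ∧ cval_mv x d ∧
      cval_o x a = cval_o x c ∧ cval_t x a = cval_o x b ∧ cval_t x c = cval_o x d ∧
      cval_t x b = cval_t x d ∧ ¬ cval_ty x a = cval_ty x c ∧
      cval_ty x b = cval_pm x a (cval_ty x c) ∧ cval_ty x d = cval_pm x c (cval_ty x a)) ∧
  (∀ a < x.1.2.2 + 1, ∀ b < x.1.2.2 + 1, ∀ c < x.1.2.2 + 1, ∀ d < x.1.2.2 + 1,
    cval_sq x a b c d → ∀ k < x.1.1 + 1,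
      cval_pm x b (cval_pm x a k) = cval_pm x d (cval_pm x c k)) ∧
  (∀ a < x.1.2.2 + 1, ∀ b < x.1.2.2 + 1, ∀ c < x.1.2.2 + 1, ∀ d < x.1.2.2 + 1,
    cval_sq x a b c d → cval_sq x c d a b) ∧
  (∀ a < x.1.2.2 + 1, ∀ b < x.1.2.2 + 1, ∀ c < x.1.2.2 + 1, ∀ d < x.1.2.2 + 1,
    cval_sq x a b c d → cval_sq x (cval_i x a) c b (cval_i x d)) ∧
  (∀ a < x.1.2.2 + 1, ∀ b < x.1.2.2 + 1, ∀ c < x.1.2.2 + 1, ∀ d < x.1.2.2 + 1,
    ∀ s < x.1.2.2 + 1, cval_sq x a b c d → (¬ cval_mv x s ∧ cval_t x s = cval_o x a) →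
    cval_sq x (cval_ml x s a) b (cval_ml x s c) d) ∧
  (∀ a < x.1.2.2 + 1, ∀ b < x.1.2.2 + 1, ∀ c < x.1.2.2 + 1, ∀ d < x.1.2.2 + 1,
    ∀ s < x.1.2.2 + 1, cval_sq x a b c d → (¬ cval_mv x s ∧ cval_o x s = cval_t x a) →
    cval_sq x (cval_i x (cval_ml x (cval_i x s) (cval_i x a))) (cval_ml x (cval_i x s) b) c d)

private def N5 (x : LatF.Code) : Prop :=
  ∀ a < x.1.2.2 + 1, ∀ b < x.1.2.2 + 1, ∀ b₁ < x.1.2.2 + 1, ∀ a₁ < x.1.2.2 + 1,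
    ∀ c < x.1.2.2 + 1, ∀ c₁ < x.1.2.2 + 1, ∀ a₂ < x.1.2.2 + 1, ∀ c' < x.1.2.2 + 1,
    ∀ c₁' < x.1.2.2 + 1, ∀ a₃ < x.1.2.2 + 1, ∀ b' < x.1.2.2 + 1,
    cval_sq x a b₁ b a₁ → cval_sq x a c₁ c a₂ →
    cval_sq x a₁ c₁' c' a₃ → cval_sq x b c' c b' →
      ∃ b₁' < x.1.2.2 + 1, cval_sq x b₁ c₁' c₁ b₁' ∧ cval_sq x a₂ b₁' b' a₃

private def M4 (x : VCode) : Prop :=
  (∀ a < x.1.1.2.2 + 1, ∀ b < x.1.1.2.2 + 1, cval_mv x.1 a → cval_mv x.1 b →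
    cval_t x.1 a = cval_o x.1 b → vadjN x (cval_ty x.1 b) (cval_pm x.1 a (cval_ty x.1 a)) →
      ∃ c < x.1.1.2.2 + 1, ∃ d < x.1.1.2.2 + 1, cval_sq x.1 a b c d) ∧
  (∀ a < x.1.1.2.2 + 1, ∀ b < x.1.1.2.2 + 1, ∀ c < x.1.1.2.2 + 1, ∀ d < x.1.1.2.2 + 1,
    ∀ c' < x.1.1.2.2 + 1, ∀ d' < x.1.1.2.2 + 1, cval_sq x.1 a b c d → cval_sq x.1 a b c' d' →
    ∃ s < x.1.1.2.2 + 1, (¬ cval_mv x.1 s ∧ cval_o x.1 s = cval_t x.1 c) ∧
      c' = cval_i x.1 (cval_ml x.1 (cval_i x.1 s) (cval_i x.1 c)) ∧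
      d' = cval_ml x.1 (cval_i x.1 s) d)

private def M6 (x : VCode) : Prop :=
  (∀ a < x.1.1.2.2 + 1, ∀ b < x.1.1.2.2 + 1, ∀ c < x.1.1.2.2 + 1, ∀ d < x.1.1.2.2 + 1,
    cval_sq x.1 a b c d → vadjN x (cval_ty x.1 a) (cval_ty x.1 c)) ∧
  (∀ a < x.1.1.2.2 + 1, ∀ i < x.1.1.1 + 1, ∀ j < x.1.1.1 + 1,
    (vadjN x (cval_pm x.1 a i) (cval_pm x.1 a j) ↔ vadjN x i j)) ∧
  (∀ q < x.1.1.2.1 + 1, ∀ i < x.1.1.1 + 1,
    ((∃ a < x.1.1.2.2 + 1, cval_o x.1 a = q ∧ cval_mv x.1 a ∧ cval_ty x.1 a = i) ↔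
      ∀ v < x.1.1.1 + 1, vintN x q v → (i = v ∨ vadjN x v i))) ∧
  (∀ q < x.1.1.2.1 + 1, ∀ i < x.1.1.1 + 1, vintN x q i →
    ∃ a < x.1.1.2.2 + 1, cval_o x.1 a = q ∧ cval_mv x.1 a ∧ cval_ty x.1 a = i) ∧
  (∀ a < x.1.1.2.2 + 1, ∀ k < x.1.1.1 + 1, (cval_mv x.1 a → ¬ k = cval_ty x.1 a) →
    (vintN x (cval_t x.1 a) (cval_pm x.1 a k) ↔ vintN x (cval_o x.1 a) k))

private theorem V1_iff (x : LatF.Code) : V1 (LatF.dec x) ↔ N1 x := by
  unfold V1 N1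
  simp only [Fin.ext_iff, cval_o_val, cval_t_val, cval_e_val, cval_i_val, cval_mv_val, cval_ty_val,
    cval_pm_val, Fin.forall_iff]

private theorem V2_iff (x : LatF.Code) : V2 (LatF.dec x) ↔ N2 x := by
  unfold V2 N2 FD.mr FD.lc FD.rc
  simp only [Fin.ext_iff, cval_o_val, cval_t_val, cval_e_val, cval_i_val, cval_mv_val, cval_ty_val,
    cval_pm_val, cval_ml_val, Fin.forall_iff]

private theorem V3_iff (x : LatF.Code) : V3 (LatF.dec x) ↔ N3 x := by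
  unfold V3 N3 FD.mr FD.lc FD.rc
  simp only [cval_sqT_iff, Fin.ext_iff, cval_o_val, cval_t_val, cval_i_val, cval_mv_val,
    cval_ty_val, cval_pm_val, cval_ml_val, cval_sq_val, Fin.forall_iff]

private theorem V4_iff (x : VCode) : V4 (cG x) (LatF.dec x.1) ↔ M4 x := by
  unfold V4 M4 FD.mr FD.rc
  simp only [vadj_iff, Fin.ext_iff, cval_o_val, cval_t_val, cval_i_val, cval_mv_val,
    cval_ty_val, cval_pm_val, cval_ml_val, cval_sq_val, Fin.forall_iff, Fin.exists_iff,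
    exists_prop, ne_eq]

private theorem V6_iff (x : VCode) : V6 (cG x) (cN x) (LatF.dec x.1) ↔ M6 x := by
  unfold V6 M6
  simp only [vadj_iff, vint_iff, Fin.ext_iff, cval_o_val, cval_t_val, cval_i_val, cval_mv_val,
    cval_ty_val, cval_pm_val, cval_ml_val, cval_sq_val, Fin.forall_iff, Fin.exists_iff,
    exists_prop]

private theorem V5_iff (x : LatF.Code) : V5 (LatF.dec x) ↔ N5 x := by
  unfold V5 N5
  simp only [cval_sq_val, Fin.forall_iff, Fin.exists_iff, exists_prop]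

private theorem N1_p : PrimrecPred N1 := by
  unfold N1
  (repeat' (with_reducible first | assumption | exact CB.p_id | exact Primrec.const _ | exact CB.pp_const _ | apply CB.p_fst | apply CB.p_snd | apply CB.p_add | apply cval_p_o | apply cval_p_t | apply cval_p_e | apply cval_p_i | apply cval_p_ty | apply cval_p_pm | apply cval_p_ml | apply cval_p_mv | apply cval_p_sq | apply CB.pp_all | apply CB.pp_ex | apply CB.pp_and | apply CB.pp_or | apply CB.pp_not | apply CB.pp_iff | apply CB.pp_imp | apply CB.pp_eq))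

private theorem N2_p : PrimrecPred N2 := by
  unfold N2
  (repeat' (with_reducible first | assumption | exact CB.p_id | exact Primrec.const _ | exact CB.pp_const _ | apply CB.p_fst | apply CB.p_snd | apply CB.p_add | apply cval_p_o | apply cval_p_t | apply cval_p_e | apply cval_p_i | apply cval_p_ty | apply cval_p_pm | apply cval_p_ml | apply cval_p_mv | apply cval_p_sq | apply CB.pp_all | apply CB.pp_ex | apply CB.pp_and | apply CB.pp_or | apply CB.pp_not | apply CB.pp_iff | apply CB.pp_imp | apply CB.pp_eq))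

private theorem N3_p : PrimrecPred N3 := by
  unfold N3
  (repeat' (with_reducible first | assumption | exact CB.p_id | exact Primrec.const _ | exact CB.pp_const _ | apply CB.p_fst | apply CB.p_snd | apply CB.p_add | apply cval_p_o | apply cval_p_t | apply cval_p_e | apply cval_p_i | apply cval_p_ty | apply cval_p_pm | apply cval_p_ml | apply cval_p_mv | apply cval_p_sq | apply CB.pp_all | apply CB.pp_ex | apply CB.pp_and | apply CB.pp_or | apply CB.pp_not | apply CB.pp_iff | apply CB.pp_imp | apply CB.pp_eq))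

private theorem N5_p : PrimrecPred N5 := by
  unfold N5
  (repeat' (with_reducible first | assumption | exact CB.p_id | exact Primrec.const _ | exact CB.pp_const _ | apply CB.p_fst | apply CB.p_snd | apply CB.p_add | apply cval_p_o | apply cval_p_t | apply cval_p_e | apply cval_p_i | apply cval_p_ty | apply cval_p_pm | apply cval_p_ml | apply cval_p_mv | apply cval_p_sq | apply CB.pp_all | apply CB.pp_ex | apply CB.pp_and | apply CB.pp_or | apply CB.pp_not | apply CB.pp_iff | apply CB.pp_imp))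

private theorem M4_p : PrimrecPred M4 := by
  unfold M4
  (repeat' (with_reducible first | assumption | exact CB.p_id | exact Primrec.const _ | exact CB.pp_const _ | apply CB.p_fst | apply CB.p_snd | apply CB.p_add | apply cval_p_o | apply cval_p_t | apply cval_p_e | apply cval_p_i | apply cval_p_ty | apply cval_p_pm | apply cval_p_ml | apply cval_p_mv | apply cval_p_sq | apply vadj_p | apply vint_p | apply CB.pp_all | apply CB.pp_ex | apply CB.pp_and | apply CB.pp_or | apply CB.pp_not | apply CB.pp_iff | apply CB.pp_imp | apply CB.pp_eq))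

private theorem M6_p : PrimrecPred M6 := by
  unfold M6
  (repeat' (with_reducible first | assumption | exact CB.p_id | exact Primrec.const _ | exact CB.pp_const _ | apply CB.p_fst | apply CB.p_snd | apply CB.p_add | apply cval_p_o | apply cval_p_t | apply cval_p_e | apply cval_p_i | apply cval_p_ty | apply cval_p_pm | apply cval_p_ml | apply cval_p_mv | apply cval_p_sq | apply vadj_p | apply vint_p | apply CB.pp_all | apply CB.pp_ex | apply CB.pp_and | apply CB.pp_or | apply CB.pp_not | apply CB.pp_iff | apply CB.pp_imp | apply CB.pp_eq))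

theorem cvv_p : PrimrecPred fun x : VCode => VV (cG x) (cN x) (LatF.dec x.1) := by
  have h1 : PrimrecPred fun x : VCode => N1 x.1 := N1_p.comp Primrec.fst
  have h2 : PrimrecPred fun x : VCode => N2 x.1 := N2_p.comp Primrec.fst
  have h3 : PrimrecPred fun x : VCode => N3 x.1 := N3_p.comp Primrec.fst
  have h5 : PrimrecPred fun x : VCode => N5 x.1 := N5_p.comp Primrec.fst
  refine PrimrecPred.of_eq (CB.pp_and h1 (CB.pp_and h2 (CB.pp_and h3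
    (CB.pp_and M4_p (CB.pp_and h5 M6_p))))) ?_
  intro x
  rw [← V1_iff, ← V2_iff, ← V3_iff, ← V4_iff, ← V5_iff, ← V6_iff]
  exact vv_valid_iff _ _ _

end VTB
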