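import Pool.Agent.Lib.MP_32d917_al_vt.F30
import Pool.Agent.Lib.MP_32d917_al.F.CPARB

/-!
# F32: codes: the conditions on the graph, directions, paths

`cgg_p`: `GG (cG x)` is primitive recursive: `NoDom`, `two` are bounded quantifiers; `NoSep`: the sets `K` of labels are given by numbers `c < 2 ^ (n + 1)` (`bt_surj`: `i ∈ K ↔ bt c i`).
`cpdir_re`: `PDir` is r.e.: adapt `clab_re` of F/CPAR.lean (the same inductive relation with one more condition on the arrow: `mv a → ty a = k'`). `cppath_p`: `PPath X q k w` for a list `w` of arrows is equivalent to: for all `j < w.length` the arrow `w_j` is moving; `o w_0 = q`, `ty w_0 = k`; and for `j + 1 < w.length`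
`o w_{j+1} = t w_j`, `ty w_{j+1} = pm w_j (ty w_j)`, `¬ eqv (i w_j) w_{j+1}` (induction on the list); with `w = l.map (fm nA)` for a list `l` of numbers this is a bounded quantifier over `l.getD j 0`.
-/

set_option autoImplicit false

namespace VTB

open LatIso LatN LatF

section tools

variable {β : Type} [Primcodable β] {f : β → VCode} {a b : β → ℕ}

theorem cgn_p (hf : Primrec f) : Primrec fun x => (f x).1.1.1 :=
  Primrec.fst.comp (Primrec.fst.comp (Primrec.fst.comp hf))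

theorem cgeq_p (hf : Primrec f) (ha : Primrec a) (hb : Primrec b) :
    PrimrecPred fun x => (fm (f x).1.1.1 (a x) : Fin ((f x).1.1.1 + 1)) =
      fm (f x).1.1.1 (b x) :=
  (CB.pp_eq (fm_p (cgn_p hf) ha) (fm_p (cgn_p hf) hb)).of_eq fun x => by rw [Fin.ext_iff]

theorem cgadj_p (hf : Primrec f) (ha : Primrec a) (hb : Primrec b) :
    PrimrecPred fun x => (cG (f x)).Adj (fm (f x).1.1.1 (a x)) (fm (f x).1.1.1 (b x)) :=
  (vadj_p hf (fm_p (cgn_p hf) ha) (fm_p (cgn_p hf) hb)).of_eq fun x => (vadj_iff (f x) _ _).symm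

theorem cgst_p (hf : Primrec f) (ha : Primrec a) (hb : Primrec b) :
    PrimrecPred fun x => (fm (f x).1.1.1 (a x) : Fin ((f x).1.1.1 + 1)) ∈
      RaagIso.st (cG (f x)) (fm (f x).1.1.1 (b x)) :=
  CB.pp_or (cgeq_p hf ha hb) (cgadj_p hf hb ha)

end tools

theorem cgcl_p : PrimrecPred fun y : VCode × ℕ => CL (cG y.1) (fm y.1.1.1.1 y.2) := by
  have hn : Primrec fun x : VCode => x.1.1.1 + 1 := CB.p_add (cgn_p Primrec.id) (Primrec.const 1)
  refine PrimrecPred.of_eq (CB.pp_all (p := fun (y : VCode × ℕ) (j : ℕ) =>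
    (fm y.1.1.1.1 j : Fin (y.1.1.1.1 + 1)) ∈ RaagIso.st (cG y.1) (fm y.1.1.1.1 y.2))
    (hn.comp Primrec.fst) (cgst_p (Primrec.fst.comp Primrec.fst) Primrec.snd
      (Primrec.snd.comp Primrec.fst))) ?_
  intro y
  unfold CL
  rw [fm_all]

theorem cgdom_p : PrimrecPred fun x : VCode => ∀ v w, v ≠ w → ¬ CL (cG x) w →
    ∃ u, (cG x).Adj v u ∧ u ∉ RaagIso.st (cG x) w := by
  have hn : Primrec fun x : VCode => x.1.1.1 + 1 := CB.p_add (cgn_p Primrec.id) (Primrec.const 1)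
  have h : PrimrecPred fun x : VCode => ∀ v < x.1.1.1 + 1, ∀ w < x.1.1.1 + 1,
      ¬ (fm x.1.1.1 v : Fin (x.1.1.1 + 1)) = fm x.1.1.1 w →
      ¬ CL (cG x) (fm x.1.1.1 w) → ∃ u < x.1.1.1 + 1,
        (cG x).Adj (fm x.1.1.1 v) (fm x.1.1.1 u) ∧
          ¬ (fm x.1.1.1 u : Fin (x.1.1.1 + 1)) ∈ RaagIso.st (cG x) (fm x.1.1.1 w) := by
    refine CB.pp_all (p := fun (x : VCode) (v : ℕ) => ∀ w < x.1.1.1 + 1,
      ¬ (fm x.1.1.1 v : Fin (x.1.1.1 + 1)) = fm x.1.1.1 w →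
      ¬ CL (cG x) (fm x.1.1.1 w) → ∃ u < x.1.1.1 + 1,
        (cG x).Adj (fm x.1.1.1 v) (fm x.1.1.1 u) ∧
          ¬ (fm x.1.1.1 u : Fin (x.1.1.1 + 1)) ∈ RaagIso.st (cG x) (fm x.1.1.1 w)) hn ?_
    refine CB.pp_all (p := fun (y : VCode × ℕ) (w : ℕ) =>
      ¬ (fm y.1.1.1.1 y.2 : Fin (y.1.1.1.1 + 1)) = fm y.1.1.1.1 w →
      ¬ CL (cG y.1) (fm y.1.1.1.1 w) → ∃ u < y.1.1.1.1 + 1,
        (cG y.1).Adj (fm y.1.1.1.1 y.2) (fm y.1.1.1.1 u) ∧
          ¬ (fm y.1.1.1.1 u : Fin (y.1.1.1.1 + 1)) ∈ RaagIso.st (cG y.1) (fm y.1.1.1.1 w))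
      (hn.comp Primrec.fst) ?_
    refine CB.pp_imp (CB.pp_not (cgeq_p (Primrec.fst.comp Primrec.fst)
      (Primrec.snd.comp Primrec.fst) Primrec.snd)) ?_
    refine CB.pp_imp (CB.pp_not (cgcl_p.comp
      (Primrec.pair (Primrec.fst.comp Primrec.fst) Primrec.snd))) ?_
    refine CB.pp_ex (p := fun (z : (VCode × ℕ) × ℕ) (u : ℕ) =>
        (cG z.1.1).Adj (fm z.1.1.1.1.1 z.1.2) (fm z.1.1.1.1.1 u) ∧
          ¬ (fm z.1.1.1.1.1 u : Fin (z.1.1.1.1.1 + 1)) ∈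
            RaagIso.st (cG z.1.1) (fm z.1.1.1.1.1 z.2))
      (hn.comp (Primrec.fst.comp Primrec.fst)) ?_
    have hx : Primrec fun z : ((VCode × ℕ) × ℕ) × ℕ => z.1.1.1 :=
      Primrec.fst.comp (Primrec.fst.comp Primrec.fst)
    exact CB.pp_and (cgadj_p hx (Primrec.snd.comp (Primrec.fst.comp Primrec.fst)) Primrec.snd)
      (CB.pp_not (cgst_p hx Primrec.snd (Primrec.snd.comp Primrec.fst)))
  refine h.of_eq fun x => ?_
  rw [fm_all]
  refine forall_congr' fun v => imp_congr_right fun _ => ?_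
  rw [fm_all]
  refine forall_congr' fun w => imp_congr_right fun _ => imp_congr_right fun _ =>
    imp_congr_right fun _ => ?_
  rw [fm_ex]

/-- `NoSep` for the set of labels with number `c` -/
def CgS (x : VCode) (v c : ℕ) : Prop :=
  (∀ a < x.1.1.1 + 1, ∀ b < x.1.1.1 + 1, bt c a →
    ¬ (fm x.1.1.1 a : Fin (x.1.1.1 + 1)) ∈ RaagIso.st (cG x) (fm x.1.1.1 v) →
    ¬ (fm x.1.1.1 b : Fin (x.1.1.1 + 1)) ∈ RaagIso.st (cG x) (fm x.1.1.1 v) →
    (cG x).Adj (fm x.1.1.1 a) (fm x.1.1.1 b) → bt c b) →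
  ∀ a < x.1.1.1 + 1, ∀ b < x.1.1.1 + 1, bt c a →
    ¬ (fm x.1.1.1 a : Fin (x.1.1.1 + 1)) ∈ RaagIso.st (cG x) (fm x.1.1.1 v) →
    ¬ (fm x.1.1.1 b : Fin (x.1.1.1 + 1)) ∈ RaagIso.st (cG x) (fm x.1.1.1 v) → bt c b

theorem cgS_p : PrimrecPred fun z : (VCode × ℕ) × ℕ => CgS z.1.1 z.1.2 z.2 := by
  have hn : Primrec fun x : VCode => x.1.1.1 + 1 := CB.p_add (cgn_p Primrec.id) (Primrec.const 1)
  have hn2 : Primrec fun z : (VCode × ℕ) × ℕ => z.1.1.1.1.1 + 1 :=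
    hn.comp (Primrec.fst.comp Primrec.fst)
  have hn3 : Primrec fun z : ((VCode × ℕ) × ℕ) × ℕ => z.1.1.1.1.1.1 + 1 := hn2.comp Primrec.fst
  have hx : Primrec fun z : (((VCode × ℕ) × ℕ) × ℕ) × ℕ => z.1.1.1.1 :=
    Primrec.fst.comp (Primrec.fst.comp (Primrec.fst.comp Primrec.fst))
  have hv : Primrec fun z : (((VCode × ℕ) × ℕ) × ℕ) × ℕ => z.1.1.1.2 :=
    Primrec.snd.comp (Primrec.fst.comp (Primrec.fst.comp Primrec.fst))
  have hc : Primrec fun z : (((VCode × ℕ) × ℕ) × ℕ) × ℕ => z.1.1.2 :=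
    Primrec.snd.comp (Primrec.fst.comp Primrec.fst)
  have ha : Primrec fun z : (((VCode × ℕ) × ℕ) × ℕ) × ℕ => z.1.2 :=
    Primrec.snd.comp Primrec.fst
  have hb : Primrec fun z : (((VCode × ℕ) × ℕ) × ℕ) × ℕ => z.2 := Primrec.snd
  have h1 : PrimrecPred fun z : (((VCode × ℕ) × ℕ) × ℕ) × ℕ => bt z.1.1.2 z.1.2 →
      ¬ (fm z.1.1.1.1.1.1.1 z.1.2 : Fin (z.1.1.1.1.1.1.1 + 1)) ∈
        RaagIso.st (cG z.1.1.1.1) (fm z.1.1.1.1.1.1.1 z.1.1.1.2) →
      ¬ (fm z.1.1.1.1.1.1.1 z.2 : Fin (z.1.1.1.1.1.1.1 + 1)) ∈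
        RaagIso.st (cG z.1.1.1.1) (fm z.1.1.1.1.1.1.1 z.1.1.1.2) →
      (cG z.1.1.1.1).Adj (fm z.1.1.1.1.1.1.1 z.1.2) (fm z.1.1.1.1.1.1.1 z.2) →
        bt z.1.1.2 z.2 :=
    CB.pp_imp (bt_p hc ha) (CB.pp_imp (CB.pp_not (cgst_p hx ha hv))
      (CB.pp_imp (CB.pp_not (cgst_p hx hb hv)) (CB.pp_imp (cgadj_p hx ha hb) (bt_p hc hb))))
  have h2 : PrimrecPred fun z : (((VCode × ℕ) × ℕ) × ℕ) × ℕ => bt z.1.1.2 z.1.2 →
      ¬ (fm z.1.1.1.1.1.1.1 z.1.2 : Fin (z.1.1.1.1.1.1.1 + 1)) ∈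
        RaagIso.st (cG z.1.1.1.1) (fm z.1.1.1.1.1.1.1 z.1.1.1.2) →
      ¬ (fm z.1.1.1.1.1.1.1 z.2 : Fin (z.1.1.1.1.1.1.1 + 1)) ∈
        RaagIso.st (cG z.1.1.1.1) (fm z.1.1.1.1.1.1.1 z.1.1.1.2) → bt z.1.1.2 z.2 :=
    CB.pp_imp (bt_p hc ha) (CB.pp_imp (CB.pp_not (cgst_p hx ha hv))
      (CB.pp_imp (CB.pp_not (cgst_p hx hb hv)) (bt_p hc hb)))
  exact CB.pp_imp (ball_p hn2 (ball_p hn3 h1)) (ball_p hn2 (ball_p hn3 h2))

theorem cgsep_p : PrimrecPred fun x : VCode => RaagIso.NoSep (cG x) := by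
  have hn : Primrec fun x : VCode => x.1.1.1 + 1 := CB.p_add (cgn_p Primrec.id) (Primrec.const 1)
  have hN : Primrec fun y : VCode × ℕ => 2 ^ (y.1.1.1.1 + 1) :=
    CB.p_pow (Primrec.const 2) (hn.comp Primrec.fst)
  have h : PrimrecPred fun x : VCode => ∀ v < x.1.1.1 + 1, ∀ c < 2 ^ (x.1.1.1 + 1),
      CgS x v c := ball_p hn (ball_p hN cgS_p)
  refine h.of_eq fun x => ?_
  unfold RaagIso.NoSep
  rw [fm_all]
  refine forall_congr' fun v => imp_congr_right fun _ => ?_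
  constructor
  · intro h K hK a b ha hav hbv
    obtain ⟨c, hc, hc'⟩ := bt_surj (x.1.1.1 + 1) fun j => fm x.1.1.1 j ∈ K
    have hv : ∀ a : Fin (x.1.1.1 + 1), fm x.1.1.1 (a : ℕ) = a := fun a => fm_surj _ a
    have h1 := h c hc (fun a ha b hb h1 h2 h3 h4 => (hc' b hb).2 (hK _ _ ((hc' a ha).1 h1) h2 h3 h4))
      a a.2 b b.2 ((hc' a a.2).2 (by rw [hv]; exact ha)) (by rw [hv]; exact hav)
      (by rw [hv]; exact hbv)
    have h2 := (hc' b b.2).1 h1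
    rwa [hv] at h2
  · intro h c _ hc a ha b hb h1 h2 h3
    have hv : ∀ a < x.1.1.1 + 1, ((fm x.1.1.1 a : Fin (x.1.1.1 + 1)) : ℕ) = a := fun a ha =>
      Nat.mod_eq_of_lt ha
    have h4 := h {i | bt c i} (by
      intro a b h1 h2 h3 h4
      have e1 : (fm x.1.1.1 (a : ℕ) : Fin (x.1.1.1 + 1)) = a := fm_surj _ a
      have e2 : (fm x.1.1.1 (b : ℕ) : Fin (x.1.1.1 + 1)) = b := fm_surj _ b
      exact hc a a.2 b b.2 h1 (by rw [e1]; exact h2) (by rw [e2]; exact h3)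
        (by rw [e1, e2]; exact h4)) (fm x.1.1.1 a) (fm x.1.1.1 b) (by
        show bt c _
        rw [hv a ha]; exact h1) h2 h3
    have h5 : bt c ((fm x.1.1.1 b : Fin (x.1.1.1 + 1)) : ℕ) := h4
    rwa [hv b hb] at h5

theorem cgg_p : PrimrecPred fun x : VCode => GG (cG x) :=
  (CB.pp_and cgdom_p cgsep_p).of_eq fun x => ⟨fun h => ⟨h.1, h.2, ⟨0⟩⟩, fun h => ⟨h.dom, h.sep⟩⟩

/-- one rule of the inductive definition of `PDir` -/
def CpdSt {ι P A : Type} (X : FD ι P A) (u v : P × ι) : Prop :=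
  ∃ a, X.o a = u.1 ∧ v.1 = X.t a ∧ v.2 = X.pm a u.2 ∧ (X.mv a → X.ty a = u.2)

theorem cpd_dir {ι P A : Type} (X : FD ι P A) (q q' : P) (k k' : ι) : PDir X q k q' k' ↔
    Relation.ReflTransGen (CpdSt X) (q, k) (q', k') := by
  constructor
  · intro h
    induction h with
    | refl => exact Relation.ReflTransGen.refl
    | step a k' _ hm ih => exact ih.tail ⟨a, rfl, rfl, rfl, hm⟩
  · intro h
    have key : ∀ v : P × ι, Relation.ReflTransGen (CpdSt X) (q, k) v → PDir X q k v.1 v.2 := by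
      intro v hv
      induction hv with
      | refl => exact PDir.refl
      | tail _ hs ih =>
        obtain ⟨a, h1, h2, h3, h4⟩ := hs
        rw [h2, h3]
        exact PDir.step a _ (by rw [h1]; exact ih) h4
    exact key _ h

/-- the same with numbers -/
def CpdN (x : LatF.Code) (u v : ℕ × ℕ) : Prop :=
  (v.1 < x.1.2.1 + 1 ∧ v.2 < x.1.1 + 1) ∧
    CpdSt (LatF.dec x) (fm x.1.2.1 u.1, fm x.1.1 u.2) (fm x.1.2.1 v.1, fm x.1.1 v.2)

theorem cpdN_p : PrimrecPred fun x : LatF.Code × (ℕ × ℕ) × (ℕ × ℕ) =>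
    CpdN x.1 x.2.1 x.2.2 := by
  have hnA : Primrec fun x : LatF.Code × (ℕ × ℕ) × (ℕ × ℕ) => x.1.1.2.2 + 1 :=
    CB.p_add (Primrec.snd.comp (Primrec.snd.comp (Primrec.fst.comp Primrec.fst)))
      (Primrec.const 1)
  have hnP : Primrec fun x : LatF.Code × (ℕ × ℕ) × (ℕ × ℕ) => x.1.1.2.1 :=
    Primrec.fst.comp (Primrec.snd.comp (Primrec.fst.comp Primrec.fst))
  have hnI : Primrec fun x : LatF.Code × (ℕ × ℕ) × (ℕ × ℕ) => x.1.1.1 :=
    Primrec.fst.comp (Primrec.fst.comp Primrec.fst)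
  have hu1 : Primrec fun x : LatF.Code × (ℕ × ℕ) × (ℕ × ℕ) => x.2.1.1 :=
    Primrec.fst.comp (Primrec.fst.comp Primrec.snd)
  have hu2 : Primrec fun x : LatF.Code × (ℕ × ℕ) × (ℕ × ℕ) => x.2.1.2 :=
    Primrec.snd.comp (Primrec.fst.comp Primrec.snd)
  have hv1 : Primrec fun x : LatF.Code × (ℕ × ℕ) × (ℕ × ℕ) => x.2.2.1 :=
    Primrec.fst.comp (Primrec.snd.comp Primrec.snd)
  have hv2 : Primrec fun x : LatF.Code × (ℕ × ℕ) × (ℕ × ℕ) => x.2.2.2 :=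
    Primrec.snd.comp (Primrec.snd.comp Primrec.snd)
  refine CB.pp_and (CB.pp_and (CB.pp_lt hv1 (CB.p_add hnP (Primrec.const 1)))
    (CB.pp_lt hv2 (CB.p_add hnI (Primrec.const 1)))) ?_
  refine PrimrecPred.of_eq (CB.pp_ex (p := fun (x : LatF.Code × (ℕ × ℕ) × (ℕ × ℕ)) (a : ℕ) =>
    ((LatF.dec x.1).o (fm x.1.1.2.2 a) : ℕ) =
      ((fm x.1.1.2.1 x.2.1.1 : Fin (x.1.1.2.1 + 1)) : ℕ) ∧
    ((fm x.1.1.2.1 x.2.2.1 : Fin (x.1.1.2.1 + 1)) : ℕ) =
      ((LatF.dec x.1).t (fm x.1.1.2.2 a) : ℕ) ∧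
    ((fm x.1.1.1 x.2.2.2 : Fin (x.1.1.1 + 1)) : ℕ) =
      ((LatF.dec x.1).pm (fm x.1.1.2.2 a) (fm x.1.1.1 x.2.1.2) : ℕ) ∧
    ((LatF.dec x.1).mv (fm x.1.1.2.2 a) → ((LatF.dec x.1).ty (fm x.1.1.2.2 a) : ℕ) =
      ((fm x.1.1.1 x.2.1.2 : Fin (x.1.1.1 + 1)) : ℕ))) hnA ?_) ?_
  · have hx : Primrec fun z : (LatF.Code × (ℕ × ℕ) × (ℕ × ℕ)) × ℕ => z.1.1 :=
      Primrec.fst.comp Primrec.fst
    exact CB.pp_and (CB.pp_eq (cb_o hx Primrec.snd)
      (fm_p (hnP.comp Primrec.fst) (hu1.comp Primrec.fst)))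
      (CB.pp_and (CB.pp_eq (fm_p (hnP.comp Primrec.fst) (hv1.comp Primrec.fst))
        (cb_t hx Primrec.snd))
      (CB.pp_and (CB.pp_eq (fm_p (hnI.comp Primrec.fst) (hv2.comp Primrec.fst))
        (cb_pm hx Primrec.snd (hu2.comp Primrec.fst)))
        (CB.pp_imp (cb_mv hx Primrec.snd) (CB.pp_eq (cb_ty hx Primrec.snd)
          (fm_p (hnI.comp Primrec.fst) (hu2.comp Primrec.fst))))))
  · intro x
    unfold CpdSt
    rw [fm_ex]
    simp only [Fin.ext_iff]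

theorem cpdN_iff (x : LatF.Code) (a b a' b' : ℕ) :
    Relation.ReflTransGen (CpdN x) (a % (x.1.2.1 + 1), b % (x.1.1 + 1))
      (a' % (x.1.2.1 + 1), b' % (x.1.1 + 1)) ↔
    PDir (LatF.dec x) (fm x.1.2.1 a) (fm x.1.1 b) (fm x.1.2.1 a') (fm x.1.1 b') := by
  rw [cpd_dir]
  constructor
  · intro h
    have h1 := Relation.ReflTransGen.lift
      (p := CpdSt (LatF.dec x))
      (fun u : ℕ × ℕ => ((fm x.1.2.1 u.1, fm x.1.1 u.2) :
        Fin (x.1.2.1 + 1) × Fin (x.1.1 + 1))) (fun u v huv => huv.2) _ _ h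
    have h2 : ∀ n k : ℕ, fm n (k % (n + 1)) = fm n k := fun n k =>
      Fin.ext (Nat.mod_mod _ _)
    simpa only [Function.onFun, h2] using h1
  · intro h
    exact Relation.ReflTransGen.lift
      (p := CpdN x) (fun u : Fin (x.1.2.1 + 1) × Fin (x.1.1 + 1) => ((u.1 : ℕ), (u.2 : ℕ)))
      (fun u v huv => ⟨⟨v.1.2, v.2.2⟩, by
        simp only [fm_surj]
        exact huv⟩) _ _ h

theorem cpdir_re : REPred fun x : LatF.Code × (ℕ × ℕ) × (ℕ × ℕ) =>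
    PDir (LatF.dec x.1) (fm x.1.1.2.1 x.2.1.1) (fm x.1.1.1 x.2.1.2) (fm x.1.1.2.1 x.2.2.1)
      (fm x.1.1.1 x.2.2.2) := by
  have hnP : Primrec fun x : LatF.Code × (ℕ × ℕ) × (ℕ × ℕ) => x.1.1.2.1 + 1 :=
    CB.p_add (Primrec.fst.comp (Primrec.snd.comp (Primrec.fst.comp Primrec.fst)))
      (Primrec.const 1)
  have hnI : Primrec fun x : LatF.Code × (ℕ × ℕ) × (ℕ × ℕ) => x.1.1.1 + 1 :=
    CB.p_add (Primrec.fst.comp (Primrec.fst.comp Primrec.fst)) (Primrec.const 1)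
  have hu1 : Primrec fun x : LatF.Code × (ℕ × ℕ) × (ℕ × ℕ) => x.2.1.1 :=
    Primrec.fst.comp (Primrec.fst.comp Primrec.snd)
  have hu2 : Primrec fun x : LatF.Code × (ℕ × ℕ) × (ℕ × ℕ) => x.2.1.2 :=
    Primrec.snd.comp (Primrec.fst.comp Primrec.snd)
  have hv1 : Primrec fun x : LatF.Code × (ℕ × ℕ) × (ℕ × ℕ) => x.2.2.1 :=
    Primrec.fst.comp (Primrec.snd.comp Primrec.snd)
  have hv2 : Primrec fun x : LatF.Code × (ℕ × ℕ) × (ℕ × ℕ) => x.2.2.2 :=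
    Primrec.snd.comp (Primrec.snd.comp Primrec.snd)
  have hr : Primrec fun x : LatF.Code × (ℕ × ℕ) × (ℕ × ℕ) => (x.1,
    ((x.2.1.1 % (x.1.1.2.1 + 1), x.2.1.2 % (x.1.1.1 + 1)),
    (x.2.2.1 % (x.1.1.2.1 + 1), x.2.2.2 % (x.1.1.1 + 1)))) :=
    Primrec.pair Primrec.fst (Primrec.pair (Primrec.pair (CB.p_mod hu1 hnP)
      (CB.p_mod hu2 hnI)) (Primrec.pair (CB.p_mod hv1 hnP) (CB.p_mod hv2 hnI)))
  refine REPred.of_eq (LatIso.re_comp (cpb_chain (st := CpdN) cpdN_p) hr.to_comp) ?_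
  intro x
  exact cpdN_iff x.1 _ _ _ _

/-- the condition on two consecutive arrows of a path -/
def CppR {ι P A : Type} (X : FD ι P A) (a b : A) : Prop :=
  X.o b = X.t a ∧ X.mv b ∧ X.ty b = X.pm a (X.ty a) ∧ ¬ X.eqv (X.i a) b

theorem cpp_iff {ι P A : Type} (X : FD ι P A) (e : A) (w : List A) (q : P) (k : ι) :
    PPath X q k w ↔ (0 < w.length → X.dir q k (w.getD 0 e)) ∧
      ∀ j < w.length, j + 1 < w.length → CppR X (w.getD j e) (w.getD (j + 1) e) := by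
  induction w generalizing q k with
  | nil =>
    constructor
    · intro _
      exact ⟨fun h => absurd h (by simp), fun j h => absurd h (by simp)⟩
    · intro _
      trivial
  | cons a w ih =>
    have hP : PPath X q k (a :: w) ↔ X.dir q k a ∧ PPath X (X.t a) (X.pm a k) w ∧
      ∀ b ∈ w.head?, ¬ X.eqv (X.i a) b := Iff.rfl
    rw [hP, ih]
    constructor
    · rintro ⟨h1, ⟨h2, h3⟩, h4⟩
      refine ⟨fun _ => h1, fun j hj hj' => ?_⟩
      cases j with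
      | zero =>
        cases w with
        | nil => simp at hj'
        | cons b w =>
          have h5 : X.dir (X.t a) (X.pm a k) b := h2 (by simp)
          refine ⟨h5.1, h5.2.1, ?_, h4 b rfl⟩
          show X.ty b = X.pm a (X.ty a)
          rw [h5.2.2, h1.2.2]
      | succ j =>
        simp only [List.length_cons] at hj hj'
        exact h3 j (by omega) (by omega)
    · rintro ⟨h1, h2⟩
      have ha : X.dir q k a := h1 (by simp)
      refine ⟨ha, ⟨fun hw => ?_, fun j hj hj' => ?_⟩, ?_⟩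
      · cases w with
        | nil => simp at hw
        | cons b w =>
          have h5 : CppR X a b := h2 0 (by simp) (by simp)
          refine ⟨h5.1, h5.2.1, ?_⟩
          show X.ty b = X.pm a k
          rw [h5.2.2.1, ha.2.2]
      · exact h2 (j + 1) (by simp only [List.length_cons]; omega)
          (by simp only [List.length_cons]; omega)
      · cases w with
        | nil => intro b hb; simp at hb
        | cons b w =>
          intro b' hb'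
          have h5 : CppR X a b := h2 0 (by simp) (by simp)
          have h6 : b = b' := by simpa using hb'
          rw [← h6]
          exact h5.2.2.2

theorem cppath_p : PrimrecPred fun x : LatF.Code × (ℕ × ℕ) × List ℕ =>
    PPath (LatF.dec x.1) (fm x.1.1.2.1 x.2.1.1) (fm x.1.1.1 x.2.1.2)
      (x.2.2.map fun k => fm x.1.1.2.2 k) := by
  have hlen : Primrec fun x : LatF.Code × (ℕ × ℕ) × List ℕ => x.2.2.length :=
    Primrec.list_length.comp (Primrec.snd.comp Primrec.snd)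
  have hnP : Primrec fun x : LatF.Code × (ℕ × ℕ) × List ℕ => x.1.1.2.1 :=
    Primrec.fst.comp (Primrec.snd.comp (Primrec.fst.comp Primrec.fst))
  have hnI : Primrec fun x : LatF.Code × (ℕ × ℕ) × List ℕ => x.1.1.1 :=
    Primrec.fst.comp (Primrec.fst.comp Primrec.fst)
  have hu1 : Primrec fun x : LatF.Code × (ℕ × ℕ) × List ℕ => x.2.1.1 :=
    Primrec.fst.comp (Primrec.fst.comp Primrec.snd)
  have hu2 : Primrec fun x : LatF.Code × (ℕ × ℕ) × List ℕ => x.2.1.2 :=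
    Primrec.snd.comp (Primrec.fst.comp Primrec.snd)
  have hg0 : Primrec fun x : LatF.Code × (ℕ × ℕ) × List ℕ => x.2.2.getD 0 0 :=
    (Primrec.list_getD 0).comp (Primrec.snd.comp Primrec.snd) (Primrec.const 0)
  have h1 : PrimrecPred fun x : LatF.Code × (ℕ × ℕ) × List ℕ => 0 < x.2.2.length →
      (LatF.dec x.1).dir (fm x.1.1.2.1 x.2.1.1) (fm x.1.1.1 x.2.1.2)
        (fm x.1.1.2.2 (x.2.2.getD 0 0)) := by
    refine CB.pp_imp (CB.pp_lt (Primrec.const 0) hlen) ?_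
    refine (CB.pp_and (CB.pp_eq (cb_o Primrec.fst hg0) (fm_p hnP hu1))
      (CB.pp_and (cb_mv Primrec.fst hg0) (CB.pp_eq (cb_ty Primrec.fst hg0)
        (fm_p hnI hu2)))).of_eq fun x => ?_
    unfold FD.dir
    simp only [Fin.ext_iff]
  have hx : Primrec fun z : (LatF.Code × (ℕ × ℕ) × List ℕ) × ℕ => z.1.1 :=
    Primrec.fst.comp Primrec.fst
  have hj : Primrec fun z : (LatF.Code × (ℕ × ℕ) × List ℕ) × ℕ => z.1.2.2.getD z.2 0 :=
    (Primrec.list_getD 0).comp (Primrec.snd.comp (Primrec.snd.comp Primrec.fst)) Primrec.snd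
  have hj1 : Primrec fun z : (LatF.Code × (ℕ × ℕ) × List ℕ) × ℕ => z.1.2.2.getD (z.2 + 1) 0 :=
    (Primrec.list_getD 0).comp (Primrec.snd.comp (Primrec.snd.comp Primrec.fst))
      (CB.p_add Primrec.snd (Primrec.const 1))
  have h2 : PrimrecPred fun z : (LatF.Code × (ℕ × ℕ) × List ℕ) × ℕ =>
      z.2 + 1 < z.1.2.2.length → CppR (LatF.dec z.1.1) (fm z.1.1.1.2.2 (z.1.2.2.getD z.2 0))
        (fm z.1.1.1.2.2 (z.1.2.2.getD (z.2 + 1) 0)) := by
    refine CB.pp_imp (CB.pp_lt (CB.p_add Primrec.snd (Primrec.const 1)) (hlen.comp Primrec.fst))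
      ?_
    refine (CB.pp_and (CB.pp_eq (cb_o hx hj1) (cb_t hx hj)) (CB.pp_and (cb_mv hx hj1)
      (CB.pp_and (CB.pp_eq (cb_ty hx hj1) (cb_pm hx hj (cb_ty hx hj)))
        (CB.pp_not (cb_eqv hx (cb_i hx hj) hj1))))).of_eq fun z => ?_
    unfold CppR
    simp only [Fin.ext_iff, fm_surj]
  refine (CB.pp_and h1 (ball_p hlen h2)).of_eq fun x => ?_
  rw [cpp_iff (LatF.dec x.1) (fm x.1.1.2.2 0)]
  have hget : ∀ j, (x.2.2.map fun k => fm x.1.1.2.2 k).getD j (fm x.1.1.2.2 0) =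
      fm x.1.1.2.2 (x.2.2.getD j 0) := by
    intro j
    rw [List.getD_map]
  simp only [List.length_map, hget]

end VTB
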