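import Pool.Agent.Lib.MP_32d917_al_vt.F31
import Pool.Agent.Lib.MP_32d917_al_vt.F32
import Pool.Agent.Lib.MP_32d917_al.F.CPAR
import Pool.Agent.Lib.MP_32d917_al.F.CSPAN

/-!
# F33: codes: goodness is r.e.

Adapt F/CGOOD.lean: `VGood` is the conjunction of: `valid` (`cvv_p`), `gg` (`cgg_p`), `span` (`gspan_re` of CGOOD is private: copy it), `orient` (as in CGOOD), `out`: for all `q`, `k` (bounded): not `N q k` or there are `q'`, `k'` (bounded) with `PDir` (`cpdir_re`) and not `N q' k'`; `inf`: for all `q`, `k` (bounded): no arrow of this direction, or there is a list `l` of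
numbers with `PPath` for `l.map (fm nA)` (`cppath_p`) and `nA + 1 < l.length` (`Nat.card (Fin (nA + 1)) = nA + 1`; every list of elements of `Fin (nA + 1)` is `l.map (fm nA)` for the list of its values); `red`: for all arrows `a` (bounded): not `mv a`, or not `N (o a) (ty a)`, or the two alternatives of CGOOD (`cpar_re`).
`re_forall_lt`, `re_exists`, `re_bex`, `re_and`, `re_or`, `re_of_prim`.
-/

set_option autoImplicit false

namespace VTB

open LatIso LatN LatF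

/-! ### numerical functions -/

private def gO (x : LatF.Code) (a : ℕ) : ℕ := ((LatF.dec x).o (fm x.1.2.2 a) : ℕ)
private def gI (x : LatF.Code) (a : ℕ) : ℕ := ((LatF.dec x).i (fm x.1.2.2 a) : ℕ)
private def gTy (x : LatF.Code) (a : ℕ) : ℕ := ((LatF.dec x).ty (fm x.1.2.2 a) : ℕ)
private def gMl (x : LatF.Code) (a b : ℕ) : ℕ :=
  ((LatF.dec x).ml (fm x.1.2.2 a) (fm x.1.2.2 b) : ℕ)
private def gMv (x : LatF.Code) (a : ℕ) : Prop := (LatF.dec x).mv (fm x.1.2.2 a)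
private def gLc (x : LatF.Code) (a b : ℕ) : Prop :=
  (LatF.dec x).lc (fm x.1.2.2 a) (fm x.1.2.2 b)
private def gSq (x : LatF.Code) (a b c d : ℕ) : Prop :=
  (LatF.dec x).sq (fm x.1.2.2 a) (fm x.1.2.2 b) (fm x.1.2.2 c) (fm x.1.2.2 d)
private def gEqv (x : LatF.Code) (a b : ℕ) : Prop :=
  (LatF.dec x).eqv (fm x.1.2.2 a) (fm x.1.2.2 b)
private def gF (n k : ℕ) : ℕ := ((fm n k : Fin (n + 1)) : ℕ)
private def gPar (x : LatF.Code) (a b : ℕ) : Prop :=
  Par (LatF.dec x) (fm x.1.2.2 a) (fm x.1.2.2 b)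
private def gPd (x : LatF.Code) (q k q' k' : ℕ) : Prop :=
  PDir (LatF.dec x) (fm x.1.2.1 q) (fm x.1.1 k) (fm x.1.2.1 q') (fm x.1.1 k')
private def gLab (x : LatF.Code) (q k q' k' : ℕ) : Prop :=
  Lab (LatF.dec x) (fm x.1.2.1 q) (fm x.1.1 k) (fm x.1.2.1 q') (fm x.1.1 k')
private def gCL (x : VCode) (k : ℕ) : Prop := CL (cG x) (fm x.1.1.1 k)
private def gPP (x : LatF.Code) (q k : ℕ) : Prop :=
  ∃ l : List ℕ, PPath (LatF.dec x) (fm x.1.2.1 q) (fm x.1.1 k)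
    (l.map fun k => fm x.1.2.2 k) ∧ x.1.2.2 + 1 < l.length

section

variable {α : Type} [Primcodable α] {f : α → LatF.Code} {a b c d : α → ℕ}

private theorem gO_p (hf : Primrec f) (ha : Primrec a) : Primrec fun x => gO (f x) (a x) :=
  cb_o hf ha
private theorem gI_p (hf : Primrec f) (ha : Primrec a) : Primrec fun x => gI (f x) (a x) :=
  cb_i hf ha
private theorem gTy_p (hf : Primrec f) (ha : Primrec a) : Primrec fun x => gTy (f x) (a x) :=
  cb_ty hf ha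
private theorem gMl_p (hf : Primrec f) (ha : Primrec a) (hb : Primrec b) :
    Primrec fun x => gMl (f x) (a x) (b x) := cb_ml hf ha hb
private theorem gMv_p (hf : Primrec f) (ha : Primrec a) :
    PrimrecPred fun x => gMv (f x) (a x) := cb_mv hf ha
private theorem gLc_p (hf : Primrec f) (ha : Primrec a) (hb : Primrec b) :
    PrimrecPred fun x => gLc (f x) (a x) (b x) := cb_lc hf ha hb
private theorem gSq_p (hf : Primrec f) (ha : Primrec a) (hb : Primrec b) (hc : Primrec c)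
    (hd : Primrec d) : PrimrecPred fun x => gSq (f x) (a x) (b x) (c x) (d x) :=
  cb_sq hf ha hb hc hd
private theorem gEqv_p (hf : Primrec f) (ha : Primrec a) (hb : Primrec b) :
    PrimrecPred fun x => gEqv (f x) (a x) (b x) := cb_eqv hf ha hb
private theorem gF_p (ha : Primrec a) (hb : Primrec b) :
    Primrec fun x => gF (a x) (b x) := fm_p ha hb
private theorem gPar_re (hf : Primrec f) (ha : Primrec a) (hb : Primrec b) :
    REPred fun x => gPar (f x) (a x) (b x) :=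
  re_comp cpar_re (f := fun x => (f x, a x, b x)) (hf.pair (ha.pair hb)).to_comp
private theorem gPd_re (hf : Primrec f) (ha : Primrec a) (hb : Primrec b) (hc : Primrec c)
    (hd : Primrec d) : REPred fun x => gPd (f x) (a x) (b x) (c x) (d x) :=
  re_comp cpdir_re (f := fun x => (f x, (a x, b x), (c x, d x)))
    (hf.pair ((ha.pair hb).pair (hc.pair hd))).to_comp

private theorem gLab_re (hf : Primrec f) (ha : Primrec a) (hb : Primrec b) (hc : Primrec c)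
    (hd : Primrec d) : REPred fun x => gLab (f x) (a x) (b x) (c x) (d x) :=
  re_comp clab_re (f := fun x => (f x, (a x, b x), (c x, d x)))
    (hf.pair ((ha.pair hb).pair (hc.pair hd))).to_comp
private theorem gCL_p {f : α → VCode} (hf : Primrec f) (ha : Primrec a) :
    PrimrecPred fun x => gCL (f x) (a x) :=
  cgcl_p.comp (f := fun x => (f x, a x)) (hf.pair ha)

private theorem gPP_re0 : REPred fun x : LatF.Code × ℕ × ℕ => gPP x.1 x.2.1 x.2.2 := by
  unfold gPP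
  apply re_exists (p := fun (x : LatF.Code × ℕ × ℕ) (l : List ℕ) =>
    PPath (LatF.dec x.1) (fm x.1.1.2.1 x.2.1) (fm x.1.1.1 x.2.2)
      (l.map fun k => fm x.1.1.2.2 k) ∧ x.1.1.2.2 + 1 < l.length)
  apply re_of_prim
  apply PrimrecPred.and
  · exact cppath_p.comp (f := fun x : (LatF.Code × ℕ × ℕ) × List ℕ =>
      (x.1.1, (x.1.2.1, x.1.2.2), x.2))
      ((Primrec.fst.comp Primrec.fst).pair
        ((((Primrec.fst.comp Primrec.snd).comp Primrec.fst).pair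
          ((Primrec.snd.comp Primrec.snd).comp Primrec.fst)).pair Primrec.snd))
  · have h1 : Primrec fun x : (LatF.Code × ℕ × ℕ) × List ℕ => x.1.1.1.2.2 + 1 := by
      (repeat' (with_reducible first
        | exact LatIso.CB.p_id
        | exact Primrec.const _
        | apply LatIso.CB.p_fst
        | apply LatIso.CB.p_snd
        | apply LatIso.CB.p_add))
    exact LatIso.CB.pp_lt h1 (Primrec.list_length.comp Primrec.snd)

private theorem gPP_re (hf : Primrec f) (ha : Primrec a) (hb : Primrec b) :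
    REPred fun x => gPP (f x) (a x) (b x) :=
  re_comp gPP_re0 (f := fun x => (f x, a x, b x)) (hf.pair (ha.pair hb)).to_comp

private theorem gEx {p : α → ℕ → Prop} {f : α → ℕ} (hf : Primrec f)
    (hp : REPred fun x : α × ℕ => p x.1 x.2) : REPred fun x => ∃ k < f x, p x k :=
  re_bex (p := fun x : α × ℕ => p x.1 x.2) hf hp

end

/-! ### spanning trees -/

private theorem gspan_re : REPred (fun x : LatF.Code => ∃ p0 δ r, Span (LatF.dec x) p0 δ r) := by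
  have h1 : REPred (fun x : LatF.Code => ∃ y : ℕ × ℕ × List ℕ,
      Span (LatF.dec x) (fm x.1.2.1 y.1) (fun q => dig x.1.2.2 y.2.1 q)
        (fun q => y.2.2.getD q 0)) := by
    apply re_exists (p := fun (x : LatF.Code) (y : ℕ × ℕ × List ℕ) =>
      Span (LatF.dec x) (fm x.1.2.1 y.1) (fun q => dig x.1.2.2 y.2.1 q)
        (fun q => y.2.2.getD q 0))
    apply re_of_prim
    exact cspan_p
  refine h1.of_eq ?_
  intro x
  constructor
  · rintro ⟨y, hy⟩
    exact ⟨_, _, _, hy⟩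
  · rintro ⟨p0, δ, r, h⟩
    obtain ⟨d, rfl⟩ := dig_surj x.1.2.2 x.1.2.1 δ
    refine ⟨(p0, d, List.ofFn r), ?_⟩
    have hr : (fun q : Fin (x.1.2.1 + 1) => (List.ofFn r).getD (q : ℕ) 0) = r := by
      funext q
      rw [List.getD_eq_getElem _ _ (by rw [List.length_ofFn]; exact q.2), List.getElem_ofFn]
    dsimp only
    rw [hr, fm_surj]
    exact h

/-! ### the primitive recursive fields -/

private def G1 (x : LatF.Code) : Prop :=
  (∃ c < 2 ^ (x.1.2.2 + 1),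
    (∀ a < x.1.2.2 + 1, gMv x (gF x.1.2.2 a) →
      ¬ LatIso.CB.dg 1 c (gI x (gF x.1.2.2 a)) = LatIso.CB.dg 1 c (gF x.1.2.2 a)) ∧
    (∀ a < x.1.2.2 + 1, ∀ b < x.1.2.2 + 1, gLc x (gF x.1.2.2 a) (gF x.1.2.2 b) →
      LatIso.CB.dg 1 c (gMl x (gF x.1.2.2 a) (gF x.1.2.2 b)) =
        LatIso.CB.dg 1 c (gF x.1.2.2 b)) ∧
    ∀ a < x.1.2.2 + 1, ∀ b < x.1.2.2 + 1, ∀ u < x.1.2.2 + 1, ∀ v < x.1.2.2 + 1,
      gSq x (gF x.1.2.2 a) (gF x.1.2.2 b) (gF x.1.2.2 u) (gF x.1.2.2 v) →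
      LatIso.CB.dg 1 c (gF x.1.2.2 v) = LatIso.CB.dg 1 c (gF x.1.2.2 a))

private theorem G1_p : PrimrecPred G1 := by
  unfold G1
  (repeat' (with_reducible first
    | assumption
    | exact LatIso.CB.p_id
    | exact Primrec.const _
    | apply gO_p
    | apply gI_p
    | apply gTy_p
    | apply gMl_p
    | apply gF_p
    | apply gMv_p
    | apply gLc_p
    | apply gSq_p
    | apply gEqv_p
    | apply LatIso.CB.p_dg
    | apply LatIso.CB.p_fst
    | apply LatIso.CB.p_snd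
    | apply LatIso.CB.p_pair
    | apply LatIso.CB.p_add
    | apply LatIso.CB.p_pow
    | apply LatIso.CB.pp_all
    | apply LatIso.CB.pp_ex
    | apply LatIso.CB.pp_and
    | apply LatIso.CB.pp_or
    | apply LatIso.CB.pp_not
    | apply LatIso.CB.pp_iff
    | apply LatIso.CB.pp_imp
    | apply LatIso.CB.pp_eq))

private theorem g_bool (nA : ℕ) (s : Fin (nA + 1) → Bool) :
    ∃ c < 2 ^ (nA + 1), ∀ a : Fin (nA + 1), LatIso.CB.dg 1 c a = if s a then 1 else 0 := by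
  obtain ⟨c, hc, h⟩ := LatIso.CB.exists_pred nA (fun a => s a = true)
  refine ⟨c, hc, fun a => ?_⟩
  have h1 := h a
  have h2 := LatIso.CB.dg_lt 1 c a
  split_ifs with h3
  · exact h1.2 h3
  · have h4 : ¬ LatIso.CB.dg 1 c a = 1 := fun h5 => h3 (h1.1 h5)
    omega

private theorem G1_iff (x : LatF.Code) : G1 x ↔
    (∃ c < 2 ^ (x.1.2.2 + 1),
      (∀ a : Fin (x.1.2.2 + 1), (LatF.dec x).mv a →
        ¬ LatIso.CB.dg 1 c ((LatF.dec x).i a) = LatIso.CB.dg 1 c a) ∧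
      (∀ a b : Fin (x.1.2.2 + 1), (LatF.dec x).lc a b →
        LatIso.CB.dg 1 c ((LatF.dec x).ml a b) = LatIso.CB.dg 1 c b) ∧
      ∀ a b u v : Fin (x.1.2.2 + 1), (LatF.dec x).sq a b u v →
        LatIso.CB.dg 1 c v = LatIso.CB.dg 1 c a) := by
  unfold G1
  simp only [gO, gI, gTy, gMl, gMv, gLc, gSq, gEqv, gF, fm_surj, fm_all, fm_ex, Fin.ext_iff]

private theorem orient_iff (x : LatF.Code) :
    (∃ c < 2 ^ (x.1.2.2 + 1),
      (∀ a : Fin (x.1.2.2 + 1), (LatF.dec x).mv a →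
        ¬ LatIso.CB.dg 1 c ((LatF.dec x).i a) = LatIso.CB.dg 1 c a) ∧
      (∀ a b : Fin (x.1.2.2 + 1), (LatF.dec x).lc a b →
        LatIso.CB.dg 1 c ((LatF.dec x).ml a b) = LatIso.CB.dg 1 c b) ∧
      ∀ a b u v : Fin (x.1.2.2 + 1), (LatF.dec x).sq a b u v →
        LatIso.CB.dg 1 c v = LatIso.CB.dg 1 c a) ↔
    ∃ s : Fin (x.1.2.2 + 1) → Bool, (∀ a, (LatF.dec x).mv a → s ((LatF.dec x).i a) = !(s a)) ∧
      (∀ σ a, (LatF.dec x).lc σ a → s ((LatF.dec x).ml σ a) = s a) ∧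
      ∀ a b c d, (LatF.dec x).sq a b c d → s d = s a := by
  constructor
  · rintro ⟨c, -, h1, h2, h3⟩
    refine ⟨fun a => decide (LatIso.CB.dg 1 c a = 1), fun a ha => ?_, fun s a hs => ?_,
      fun a b u v hs => ?_⟩
    · have h4 := h1 a ha
      have h5 := LatIso.CB.dg_lt 1 c a
      have h6 := LatIso.CB.dg_lt 1 c ((LatF.dec x).i a)
      dsimp only
      by_cases h7 : LatIso.CB.dg 1 c a = 1
      · have h8 : ¬ LatIso.CB.dg 1 c ((LatF.dec x).i a) = 1 := by omega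
        simp [h7, h8]
      · have h8 : LatIso.CB.dg 1 c ((LatF.dec x).i a) = 1 := by omega
        simp [h7, h8]
    · dsimp only
      rw [h2 s a hs]
    · dsimp only
      rw [h3 a b u v hs]
  · rintro ⟨s, h1, h2, h3⟩
    obtain ⟨c, hc, h4⟩ := g_bool x.1.2.2 s
    refine ⟨c, hc, fun a ha => ?_, fun t a ht => ?_, fun a b u v hs => ?_⟩
    · rw [h4, h4, h1 a ha]
      cases s a <;> simp
    · rw [h4, h4, h2 t a ht]
    · rw [h4, h4, h3 a b u v hs]

/-! ### the other fields -/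

private def G2 (x : VCode) : Prop :=
  (∀ q < x.1.1.2.1 + 1, ∀ k < x.1.1.1 + 1, (gCL x (gF x.1.1.1 k) ∨
      ¬ vintN x (gF x.1.1.2.1 q) (gF x.1.1.1 k)) ∨
    ∃ q' < x.1.1.2.1 + 1, ∃ k' < x.1.1.1 + 1,
      gPd x.1 (gF x.1.1.2.1 q) (gF x.1.1.1 k) (gF x.1.1.2.1 q') (gF x.1.1.1 k') ∧
      ¬ vintN x (gF x.1.1.2.1 q') (gF x.1.1.1 k')) ∧
  (∀ q < x.1.1.2.1 + 1, ∀ k < x.1.1.1 + 1,
    (∀ a < x.1.1.2.2 + 1, ¬ (gO x.1 (gF x.1.1.2.2 a) = gF x.1.1.2.1 q ∧
      gMv x.1 (gF x.1.1.2.2 a) ∧ gTy x.1 (gF x.1.1.2.2 a) = gF x.1.1.1 k)) ∨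
    gPP x.1 (gF x.1.1.2.1 q) (gF x.1.1.1 k)) ∧
  (∀ a < x.1.1.2.2 + 1, (¬ gMv x.1 (gF x.1.1.2.2 a) ∨
      ¬ vintN x (gO x.1 (gF x.1.1.2.2 a)) (gTy x.1 (gF x.1.1.2.2 a))) ∨
    (∃ a' < x.1.1.2.2 + 1, ∃ c' < x.1.1.2.2 + 1,
      gPar x.1 (gF x.1.1.2.2 a) (gF x.1.1.2.2 a') ∧
      gPar x.1 (gI x.1 (gF x.1.1.2.2 a)) (gF x.1.1.2.2 c') ∧
      gO x.1 (gF x.1.1.2.2 a') = gO x.1 (gF x.1.1.2.2 c') ∧
      gTy x.1 (gF x.1.1.2.2 a') = gTy x.1 (gF x.1.1.2.2 c')) ∨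
    ∃ a' < x.1.1.2.2 + 1, gPar x.1 (gF x.1.1.2.2 a) (gF x.1.1.2.2 a') ∧
      gO x.1 (gF x.1.1.2.2 a') = gO x.1 (gF x.1.1.2.2 a) ∧
      gTy x.1 (gF x.1.1.2.2 a') = gTy x.1 (gF x.1.1.2.2 a) ∧
      ¬ gEqv x.1 (gF x.1.1.2.2 a) (gF x.1.1.2.2 a'))

private theorem G2_re : REPred G2 := by
  unfold G2
  (repeat' (with_reducible first
    | assumption
    | exact LatIso.CB.p_id
    | exact Primrec.const _
    | apply gPd_re
    | apply gPP_re
    | apply gPar_re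
    | apply re_forall_lt
    | apply gEx
    | apply re_and
    | apply re_or
    | apply re_of_prim
    | apply vint_p
    | apply gCL_p
    | apply gO_p
    | apply gI_p
    | apply gTy_p
    | apply gMl_p
    | apply gF_p
    | apply gMv_p
    | apply gLc_p
    | apply gSq_p
    | apply gEqv_p
    | apply LatIso.CB.p_fst
    | apply LatIso.CB.p_snd
    | apply LatIso.CB.p_pair
    | apply LatIso.CB.p_add
    | apply LatIso.CB.pp_all
    | apply LatIso.CB.pp_ex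
    | apply LatIso.CB.pp_and
    | apply LatIso.CB.pp_or
    | apply LatIso.CB.pp_not
    | apply LatIso.CB.pp_iff
    | apply LatIso.CB.pp_imp
    | apply LatIso.CB.pp_eq))

private theorem gPP_iff (x : LatF.Code) (q : Fin (x.1.2.1 + 1)) (k : Fin (x.1.1 + 1)) :
    gPP x q k ↔ ∃ w, PPath (LatF.dec x) q k w ∧ Nat.card (Fin (x.1.2.2 + 1)) < w.length := by
  unfold gPP
  rw [Nat.card_eq_fintype_card, Fintype.card_fin]
  constructor
  · rintro ⟨l, h1, h2⟩
    refine ⟨l.map fun k => fm x.1.2.2 k, ?_, by rwa [List.length_map]⟩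
    rw [fm_surj, fm_surj] at h1
    exact h1
  · rintro ⟨w, h1, h2⟩
    refine ⟨List.map (fun a : Fin (x.1.2.2 + 1) => a.val) w, ?_, by rwa [List.length_map]⟩
    rw [fm_surj, fm_surj, List.map_map]
    have h3 : (List.map ((fun k => fm x.1.2.2 k) ∘ fun a : Fin (x.1.2.2 + 1) => a.val) w) = w := by
      conv_rhs => rw [← List.map_id w]
      refine List.map_congr_left fun a _ => ?_
      exact fm_surj _ _
    rw [h3]
    exact h1

private theorem G2_iff (x : VCode) : G2 x ↔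
    (∀ (q : Fin (x.1.1.2.1 + 1)) (k : Fin (x.1.1.1 + 1)), (CL (cG x) k ∨ ¬ vintN x q k) ∨
      ∃ (q' : Fin (x.1.1.2.1 + 1)) (k' : Fin (x.1.1.1 + 1)),
        PDir (LatF.dec x.1) q k q' k' ∧ ¬ vintN x q' k') ∧
    (∀ (q : Fin (x.1.1.2.1 + 1)) (k : Fin (x.1.1.1 + 1)),
      (∀ a : Fin (x.1.1.2.2 + 1), ¬ ((LatF.dec x.1).o a = q ∧ (LatF.dec x.1).mv a ∧
        (LatF.dec x.1).ty a = k)) ∨ gPP x.1 q k) ∧
    (∀ a : Fin (x.1.1.2.2 + 1), (¬ (LatF.dec x.1).mv a ∨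
        ¬ vintN x ((LatF.dec x.1).o a) ((LatF.dec x.1).ty a)) ∨
      (∃ a' c' : Fin (x.1.1.2.2 + 1), Par (LatF.dec x.1) a a' ∧
        Par (LatF.dec x.1) ((LatF.dec x.1).i a) c' ∧
        (LatF.dec x.1).o a' = (LatF.dec x.1).o c' ∧
        (LatF.dec x.1).ty a' = (LatF.dec x.1).ty c') ∨
      ∃ a' : Fin (x.1.1.2.2 + 1), Par (LatF.dec x.1) a a' ∧
        (LatF.dec x.1).o a' = (LatF.dec x.1).o a ∧
        (LatF.dec x.1).ty a' = (LatF.dec x.1).ty a ∧ ¬ (LatF.dec x.1).eqv a a') := by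
  unfold G2
  simp only [gO, gI, gTy, gMv, gEqv, gF, gPar, gPd, gCL, fm_surj, fm_all, fm_ex, Fin.ext_iff]

/-! ### the fields on central labels -/

private def G3 (x : VCode) : Prop :=
  (∀ q < x.1.1.2.1 + 1, ∀ k < x.1.1.1 + 1, gCL x (gF x.1.1.1 k) →
    vintN x (gF x.1.1.2.1 q) (gF x.1.1.1 k)) ∧
  (∀ q < x.1.1.2.1 + 1, ∀ k < x.1.1.1 + 1, gCL x (gF x.1.1.1 k) →
    ∃ a < x.1.1.2.2 + 1, ∃ a' < x.1.1.2.2 + 1,
    (gO x.1 (gF x.1.1.2.2 a) = gF x.1.1.2.1 q ∧ gMv x.1 (gF x.1.1.2.2 a) ∧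
      gTy x.1 (gF x.1.1.2.2 a) = gF x.1.1.1 k) ∧
    (gO x.1 (gF x.1.1.2.2 a') = gF x.1.1.2.1 q ∧ gMv x.1 (gF x.1.1.2.2 a') ∧
      gTy x.1 (gF x.1.1.2.2 a') = gF x.1.1.1 k) ∧
    ¬ gEqv x.1 (gF x.1.1.2.2 a) (gF x.1.1.2.2 a'))

private theorem G3_p : PrimrecPred G3 := by
  unfold G3
  (repeat' (with_reducible first
    | assumption
    | exact LatIso.CB.p_id
    | exact Primrec.const _
    | apply vint_p
    | apply gCL_p
    | apply gO_p
    | apply gTy_p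
    | apply gF_p
    | apply gMv_p
    | apply gEqv_p
    | apply LatIso.CB.p_fst
    | apply LatIso.CB.p_snd
    | apply LatIso.CB.p_pair
    | apply LatIso.CB.p_add
    | apply LatIso.CB.pp_all
    | apply LatIso.CB.pp_ex
    | apply LatIso.CB.pp_and
    | apply LatIso.CB.pp_or
    | apply LatIso.CB.pp_not
    | apply LatIso.CB.pp_iff
    | apply LatIso.CB.pp_imp
    | apply LatIso.CB.pp_eq))

private theorem G3_iff (x : VCode) : G3 x ↔
    (∀ (q : Fin (x.1.1.2.1 + 1)) (k : Fin (x.1.1.1 + 1)), CL (cG x) k → vintN x q k) ∧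
    (∀ (q : Fin (x.1.1.2.1 + 1)) (k : Fin (x.1.1.1 + 1)), CL (cG x) k →
      ∃ a a' : Fin (x.1.1.2.2 + 1),
      ((LatF.dec x.1).o a = q ∧ (LatF.dec x.1).mv a ∧ (LatF.dec x.1).ty a = k) ∧
      ((LatF.dec x.1).o a' = q ∧ (LatF.dec x.1).mv a' ∧ (LatF.dec x.1).ty a' = k) ∧
      ¬ (LatF.dec x.1).eqv a a') := by
  unfold G3
  simp only [gO, gTy, gMv, gEqv, gF, gCL, fm_surj, fm_all, fm_ex, Fin.ext_iff]

private def G4 (x : VCode) : Prop :=
  ∀ q < x.1.1.2.1 + 1, ∀ k < x.1.1.1 + 1, ¬ gCL x (gF x.1.1.1 k) ∨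
    ∃ q' < x.1.1.2.1 + 1, ∃ k' < x.1.1.1 + 1,
    ∃ a < x.1.1.2.2 + 1, ∃ a' < x.1.1.2.2 + 1, ∃ a'' < x.1.1.2.2 + 1,
    gLab x.1 (gF x.1.1.2.1 q) (gF x.1.1.1 k) (gF x.1.1.2.1 q') (gF x.1.1.1 k') ∧
    (gO x.1 (gF x.1.1.2.2 a) = gF x.1.1.2.1 q' ∧ gMv x.1 (gF x.1.1.2.2 a) ∧
      gTy x.1 (gF x.1.1.2.2 a) = gF x.1.1.1 k') ∧
    (gO x.1 (gF x.1.1.2.2 a') = gF x.1.1.2.1 q' ∧ gMv x.1 (gF x.1.1.2.2 a') ∧
      gTy x.1 (gF x.1.1.2.2 a') = gF x.1.1.1 k') ∧
    (gO x.1 (gF x.1.1.2.2 a'') = gF x.1.1.2.1 q' ∧ gMv x.1 (gF x.1.1.2.2 a'') ∧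
      gTy x.1 (gF x.1.1.2.2 a'') = gF x.1.1.1 k') ∧
    ¬ gEqv x.1 (gF x.1.1.2.2 a) (gF x.1.1.2.2 a') ∧
    ¬ gEqv x.1 (gF x.1.1.2.2 a') (gF x.1.1.2.2 a'') ∧
    ¬ gEqv x.1 (gF x.1.1.2.2 a) (gF x.1.1.2.2 a'')

private theorem G4_re : REPred G4 := by
  unfold G4
  (repeat' (with_reducible first
    | assumption
    | exact LatIso.CB.p_id
    | exact Primrec.const _
    | apply gLab_re
    | apply re_forall_lt
    | apply gEx
    | apply re_and
    | apply re_or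
    | apply re_of_prim
    | apply vint_p
    | apply gCL_p
    | apply gO_p
    | apply gTy_p
    | apply gF_p
    | apply gMv_p
    | apply gEqv_p
    | apply LatIso.CB.p_fst
    | apply LatIso.CB.p_snd
    | apply LatIso.CB.p_pair
    | apply LatIso.CB.p_add
    | apply LatIso.CB.pp_all
    | apply LatIso.CB.pp_ex
    | apply LatIso.CB.pp_and
    | apply LatIso.CB.pp_or
    | apply LatIso.CB.pp_not
    | apply LatIso.CB.pp_iff
    | apply LatIso.CB.pp_imp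
    | apply LatIso.CB.pp_eq))

private theorem G4_iff (x : VCode) : G4 x ↔
    (∀ (q : Fin (x.1.1.2.1 + 1)) (k : Fin (x.1.1.1 + 1)), ¬ CL (cG x) k ∨
      ∃ (q' : Fin (x.1.1.2.1 + 1)) (k' : Fin (x.1.1.1 + 1)) (a a' a'' : Fin (x.1.1.2.2 + 1)),
      Lab (LatF.dec x.1) q k q' k' ∧
      ((LatF.dec x.1).o a = q' ∧ (LatF.dec x.1).mv a ∧ (LatF.dec x.1).ty a = k') ∧
      ((LatF.dec x.1).o a' = q' ∧ (LatF.dec x.1).mv a' ∧ (LatF.dec x.1).ty a' = k') ∧
      ((LatF.dec x.1).o a'' = q' ∧ (LatF.dec x.1).mv a'' ∧ (LatF.dec x.1).ty a'' = k') ∧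
      ¬ (LatF.dec x.1).eqv a a' ∧ ¬ (LatF.dec x.1).eqv a' a'' ∧
      ¬ (LatF.dec x.1).eqv a a'') := by
  unfold G4
  simp only [gO, gTy, gMv, gEqv, gF, gLab, gCL, fm_surj, fm_all, fm_ex, Fin.ext_iff]

private theorem G1_p' : PrimrecPred fun x : VCode => G1 x.1 := G1_p.comp Primrec.fst

private theorem gspan_re' : REPred fun x : VCode => ∃ p0 δ r, Span (LatF.dec x.1) p0 δ r :=
  re_comp gspan_re Primrec.fst.to_comp

theorem cvgood_re : REPred fun x : VCode => VGood (cG x) (cN x) (LatF.dec x.1) := by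
  refine (re_and (re_of_prim cvv_p) (re_and (re_of_prim cgg_p) (re_and gspan_re'
    (re_and (re_of_prim G1_p') (re_and (re_of_prim G3_p) (re_and G4_re G2_re)))))).of_eq ?_
  intro x
  rw [G1_iff, G2_iff, G3_iff, G4_iff, orient_iff]
  constructor
  · rintro ⟨v, gg, sp, ori, ⟨cen, two⟩, three, out, inf, red⟩
    refine ⟨v, gg, sp, ori, fun q k h => (vint_iff x q k).2 (cen q k h), fun q k hc h => ?_,
      two, fun q k hc => (three q k).resolve_left (not_not_intro hc), fun q k h => ?_,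
      fun a ha hn => ?_⟩
    · obtain ⟨q', k', h1, h2⟩ := (out q k).resolve_left (by
        rintro (h1 | h1)
        · exact hc h1
        · exact h1 ((vint_iff x q k).1 h))
      exact ⟨q', k', h1, fun h3 => h2 ((vint_iff x q' k').1 h3)⟩
    · refine (gPP_iff x.1 q k).1 ((inf q k).resolve_left ?_)
      intro h1
      obtain ⟨a, ha⟩ := h
      exact h1 a ha
    · refine (red a).resolve_left ?_
      rintro (h1 | h1)
      · exact h1 ha
      · exact h1 ((vint_iff x _ _).1 hn)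
  · intro h
    refine ⟨h.valid, h.gg, h.span, h.orient, ⟨fun q k hc => (vint_iff x q k).1 (h.cen q k hc),
      h.two⟩, fun q k => ?_, fun q k => ?_, fun q k => ?_, fun a => ?_⟩
    · by_cases hc : CL (cG x) k
      · exact Or.inr (h.three q k hc)
      · exact Or.inl hc
    · by_cases hc : CL (cG x) k
      · exact Or.inl (Or.inl hc)
      · by_cases hn : vintN x q k
        · right
          obtain ⟨q', k', h1, h2⟩ := h.out q k hc ((vint_iff x q k).2 hn)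
          exact ⟨q', k', h1, fun h3 => h2 ((vint_iff x q' k').2 h3)⟩
        · exact Or.inl (Or.inr hn)
    · by_cases hn : ∃ a, (LatF.dec x.1).dir q k a
      · exact Or.inr ((gPP_iff x.1 q k).2 (h.inf q k hn))
      · exact Or.inl fun a ha => hn ⟨a, ha⟩
    · by_cases ha : (LatF.dec x.1).mv a
      · by_cases hn : vintN x ((LatF.dec x.1).o a) ((LatF.dec x.1).ty a)
        · exact Or.inr (h.red a ha ((vint_iff x _ _).2 hn))
        · exact Or.inl (Or.inr hn)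
      · exact Or.inl (Or.inl ha)

end VTB
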