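import Pool.Agent.Lib.MP_32d917_al_vt.VDefs
import Pool.Agent.Lib.MP_32d917_al.F.CISO

/-!
# F34: codes: non-isomorphism of the unlabelled data is r.e.

Adapt F/CISO.lean: `UIso` has no condition on the labels (`ty`, `pm`), and the numbers of labels of the two codes may be different: the condition on the sizes is only equality of the numbers of points and of arrows (`x.1.1.2 = x.2.1.2`), the tables are `u` and `v` only.
-/

set_option autoImplicit false

namespace VTB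

open LatIso LatN LatF

/-- number version of the isomorphism conditions -/
private def F34_N (x y : LatF.Code) (u v : ℕ) : Prop :=
  (∀ a < x.1.2.1 + 1, ∀ b < x.1.2.1 + 1,
    LatIso.CB.dg x.1.2.1 u a = LatIso.CB.dg x.1.2.1 u b → a = b) ∧
  (∀ a < x.1.2.2 + 1, ∀ b < x.1.2.2 + 1,
    LatIso.CB.dg x.1.2.2 v a = LatIso.CB.dg x.1.2.2 v b → a = b) ∧
  (∀ a < x.1.2.2 + 1, cval_o y (LatIso.CB.dg x.1.2.2 v a) =
    LatIso.CB.dg x.1.2.1 u (cval_o x a)) ∧
  (∀ a < x.1.2.2 + 1, cval_t y (LatIso.CB.dg x.1.2.2 v a) =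
    LatIso.CB.dg x.1.2.1 u (cval_t x a)) ∧
  (∀ p < x.1.2.1 + 1, cval_e y (LatIso.CB.dg x.1.2.1 u p) =
    LatIso.CB.dg x.1.2.2 v (cval_e x p)) ∧
  (∀ a < x.1.2.2 + 1, cval_i y (LatIso.CB.dg x.1.2.2 v a) =
    LatIso.CB.dg x.1.2.2 v (cval_i x a)) ∧
  (∀ a < x.1.2.2 + 1, (cval_mv y (LatIso.CB.dg x.1.2.2 v a) ↔ cval_mv x a)) ∧
  (∀ s < x.1.2.2 + 1, ∀ a < x.1.2.2 + 1, (¬ cval_mv x s ∧ cval_t x s = cval_o x a) →
    cval_ml y (LatIso.CB.dg x.1.2.2 v s) (LatIso.CB.dg x.1.2.2 v a) =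
      LatIso.CB.dg x.1.2.2 v (cval_ml x s a)) ∧
  (∀ a < x.1.2.2 + 1, ∀ b < x.1.2.2 + 1, ∀ c < x.1.2.2 + 1, ∀ d < x.1.2.2 + 1,
    (cval_sq y (LatIso.CB.dg x.1.2.2 v a) (LatIso.CB.dg x.1.2.2 v b)
      (LatIso.CB.dg x.1.2.2 v c) (LatIso.CB.dg x.1.2.2 v d) ↔ cval_sq x a b c d))

private theorem F34_iff0 (n n' : ℕ) (r : ℕ × ℕ) (t t' : ℕ) (u v : ℕ)
    (U : Fin (r.1 + 1) → Fin (r.1 + 1)) (V : Fin (r.2 + 1) → Fin (r.2 + 1))
    (hU : ∀ a : Fin (r.1 + 1), ((U a : Fin _) : ℕ) = LatIso.CB.dg r.1 u a)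
    (hV : ∀ a : Fin (r.2 + 1), ((V a : Fin _) : ℕ) = LatIso.CB.dg r.2 v a) :
    ((∀ a b, U a = U b → a = b) ∧ (∀ a b, V a = V b → a = b) ∧
    (∀ a, (LatF.dec ((n', r), t')).o (V a) = U ((LatF.dec ((n, r), t)).o a)) ∧
    (∀ a, (LatF.dec ((n', r), t')).t (V a) = U ((LatF.dec ((n, r), t)).t a)) ∧
    (∀ p, (LatF.dec ((n', r), t')).e (U p) = V ((LatF.dec ((n, r), t)).e p)) ∧
    (∀ a, (LatF.dec ((n', r), t')).i (V a) = V ((LatF.dec ((n, r), t)).i a)) ∧
    (∀ a, (LatF.dec ((n', r), t')).mv (V a) ↔ (LatF.dec ((n, r), t)).mv a) ∧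
    (∀ σ a, (LatF.dec ((n, r), t)).lc σ a →
      (LatF.dec ((n', r), t')).ml (V σ) (V a) = V ((LatF.dec ((n, r), t)).ml σ a)) ∧
    (∀ a b c d, (LatF.dec ((n', r), t')).sq (V a) (V b) (V c) (V d) ↔
      (LatF.dec ((n, r), t)).sq a b c d)) ↔
      F34_N ((n, r), t) ((n', r), t') u v := by
  unfold F34_N FD.lc
  simp only [Fin.ext_iff, cval_o_val, cval_t_val, cval_e_val, cval_i_val, cval_mv_val,
    cval_ml_val, cval_sq_val, hU, hV, Fin.forall_iff]

/-- bounded form of the isomorphism relation -/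
private def F34_B (x : LatF.Code × LatF.Code) : Prop :=
  x.1.1.2 = x.2.1.2 ∧ ∃ u < (x.1.1.2.1 + 1) ^ (x.1.1.2.1 + 1),
    ∃ v < (x.1.1.2.2 + 1) ^ (x.1.1.2.2 + 1),
    F34_N x.1 ((x.2.1.1, x.1.1.2), x.2.2) u v

private theorem F34_p0 : PrimrecPred (fun x : (LatF.Code × LatF.Code) × ℕ × ℕ =>
    F34_N x.1.1 ((x.1.2.1.1, x.1.1.1.2), x.1.2.2) x.2.1 x.2.2) := by
  unfold F34_N
  (repeat' (with_reducible first | assumption | exact LatIso.CB.p_id | exact Primrec.const _ | exact LatIso.CB.pp_const _ | apply LatIso.CB.p_fst | apply LatIso.CB.p_snd | apply LatIso.CB.p_pair | apply LatIso.CB.p_add | apply LatIso.CB.p_mul | apply LatIso.CB.p_dg | apply cval_p_o | apply cval_p_t | apply cval_p_e | apply cval_p_i | apply cval_p_ml | apply cval_p_mv | apply cval_p_sq | apply LatIso.CB.pp_all | apply LatIso.CB.pp_ex | apply LatIso.CB.pp_and | apply LatIso.CB.pp_or | apply LatIso.CB.pp_not | apply LatIso.CB.pp_iff | apply LatIso.CB.pp_imp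 | apply LatIso.CB.pp_eq))

private theorem F34_p : PrimrecPred F34_B := by
  unfold F34_B
  apply LatIso.CB.pp_and
  · (repeat' (with_reducible first | assumption | exact LatIso.CB.p_id | exact Primrec.const _ | apply LatIso.CB.p_fst | apply LatIso.CB.p_snd | apply LatIso.CB.p_pair | apply LatIso.CB.p_add | apply LatIso.CB.p_mul | apply LatIso.CB.p_pow | apply LatIso.CB.pp_eq))
  apply LatIso.CB.pp_ex
  · (repeat' (with_reducible first | assumption | exact LatIso.CB.p_id | exact Primrec.const _ | apply LatIso.CB.p_fst | apply LatIso.CB.p_snd | apply LatIso.CB.p_pair | apply LatIso.CB.p_add | apply LatIso.CB.p_mul | apply LatIso.CB.p_pow))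
  apply LatIso.CB.pp_ex
  · (repeat' (with_reducible first | assumption | exact LatIso.CB.p_id | exact Primrec.const _ | apply LatIso.CB.p_fst | apply LatIso.CB.p_snd | apply LatIso.CB.p_pair | apply LatIso.CB.p_add | apply LatIso.CB.p_mul | apply LatIso.CB.p_pow))
  refine F34_p0.comp
    (f := fun x : ((LatF.Code × LatF.Code) × ℕ) × ℕ => (x.1.1, x.1.2, x.2)) ?_
  (repeat' (with_reducible first | assumption | exact LatIso.CB.p_id | exact Primrec.const _ | apply LatIso.CB.p_fst | apply LatIso.CB.p_snd | apply LatIso.CB.p_pair))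

private theorem F34_iff (x : LatF.Code × LatF.Code) :
    F34_B x ↔ UIso (LatF.dec x.1) (LatF.dec x.2) := by
  obtain ⟨⟨⟨n, r⟩, t⟩, ⟨⟨n', r'⟩, t'⟩⟩ := x
  constructor
  · rintro ⟨h0, u, -, v, -, hN⟩
    dsimp only at h0
    subst h0
    obtain ⟨iU, iV, h1, h2, h3, h4, h5, h8, h9⟩ :=
      (F34_iff0 n n' r t t' u v (fun a => dig r.1 u a) (fun a => dig r.2 v a)
        (fun _ => rfl) (fun _ => rfl)).2 hN
    exact ⟨Equiv.ofBijective _ (Finite.injective_iff_bijective.1 (fun a b h => iU a b h)),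
      Equiv.ofBijective _ (Finite.injective_iff_bijective.1 (fun a b h => iV a b h)),
      h1, h2, h3, h4, h5, h8, h9⟩
  · rintro ⟨U, V, h1, h2, h3, h4, h5, h8, h9⟩
    have c2 : r.1 = r'.1 := by
      have := Fintype.card_congr U
      simpa using this
    have c3 : r.2 = r'.2 := by
      have := Fintype.card_congr V
      simpa using this
    have hs : r = r' := Prod.ext c2 c3
    subst hs
    obtain ⟨u, hu, hu'⟩ := LatIso.CB.exists_dig _ _ U
    obtain ⟨v, hv, hv'⟩ := LatIso.CB.exists_dig _ _ V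
    exact ⟨rfl, u, hu, v, hv, (F34_iff0 n n' r t t' u v U V
      (fun a => by rw [← hu' a]; rfl) (fun a => by rw [← hv' a]; rfl)).1
      ⟨fun a b h => U.injective h, fun a b h => V.injective h,
        h1, h2, h3, h4, h5, h8, h9⟩⟩

theorem cnuiso_re : REPred fun x : LatF.Code × LatF.Code =>
    ¬ UIso (LatF.dec x.1) (LatF.dec x.2) :=
  re_of_prim (LatIso.CB.pp_not (PrimrecPred.of_eq F34_p F34_iff))

end VTB
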