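import Pool.Agent.Lib.MP_32d917_al_vt.F31
import Pool.Agent.Lib.MP_32d917_al.F.CRES
import Pool.Agent.Lib.MP_32d917_al.F.CHOM
import Pool.Agent.Lib.MP_32d917_al.F.CCLO

/-!
# F35: codes: closedness under slides is r.e.

`VRes` differs from `LatF.Res` only in the field `valid` (`VV Γ N Y` instead of `Valid Y`): F/CRES.lean and
F/CCLO.lean adapted.
-/

set_option autoImplicit false

namespace LatF

open LatIso LatN

/-! ### numerical functions -/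

private def rO (x : Code) (a : ℕ) : ℕ := ((dec x).o (fm x.1.2.2 a) : ℕ)
private def rT (x : Code) (a : ℕ) : ℕ := ((dec x).t (fm x.1.2.2 a) : ℕ)
private def rE (x : Code) (a : ℕ) : ℕ := ((dec x).e (fm x.1.2.1 a) : ℕ)
private def rI (x : Code) (a : ℕ) : ℕ := ((dec x).i (fm x.1.2.2 a) : ℕ)
private def rTy (x : Code) (a : ℕ) : ℕ := ((dec x).ty (fm x.1.2.2 a) : ℕ)
private def rPm (x : Code) (a k : ℕ) : ℕ := ((dec x).pm (fm x.1.2.2 a) (fm x.1.1 k) : ℕ)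
private def rMl (x : Code) (a b : ℕ) : ℕ := ((dec x).ml (fm x.1.2.2 a) (fm x.1.2.2 b) : ℕ)
private def rMv (x : Code) (a : ℕ) : Prop := (dec x).mv (fm x.1.2.2 a)
private def rLc (x : Code) (a b : ℕ) : Prop := (dec x).lc (fm x.1.2.2 a) (fm x.1.2.2 b)
private def rD (n w k : ℕ) : ℕ := ((dig n w k : Fin (n + 1)) : ℕ)
private def rF (n k : ℕ) : ℕ := ((fm n k : Fin (n + 1)) : ℕ)
private def rPar (x : Code) (a b : ℕ) : Prop := Par (dec x) (fm x.1.2.2 a) (fm x.1.2.2 b)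
private def rNPar (x : Code) (a b : ℕ) : Prop := ¬ Par (dec x) (fm x.1.2.2 a) (fm x.1.2.2 b)
private def rPar2 (x : Code) (a b c d : ℕ) : Prop :=
  Par2 (dec x) (fm x.1.2.2 a) (fm x.1.2.2 b) (fm x.1.2.2 c) (fm x.1.2.2 d)
private def rNPar2 (x : Code) (a b c d : ℕ) : Prop :=
  ¬ Par2 (dec x) (fm x.1.2.2 a) (fm x.1.2.2 b) (fm x.1.2.2 c) (fm x.1.2.2 d)

section

variable {α : Type} [Primcodable α] {f : α → Code} {a b c d : α → ℕ}

private theorem rO_p (hf : Primrec f) (ha : Primrec a) : Primrec fun x => rO (f x) (a x) :=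
  cb_o hf ha
private theorem rT_p (hf : Primrec f) (ha : Primrec a) : Primrec fun x => rT (f x) (a x) :=
  cb_t hf ha
private theorem rE_p (hf : Primrec f) (ha : Primrec a) : Primrec fun x => rE (f x) (a x) :=
  cb_e hf ha
private theorem rI_p (hf : Primrec f) (ha : Primrec a) : Primrec fun x => rI (f x) (a x) :=
  cb_i hf ha
private theorem rTy_p (hf : Primrec f) (ha : Primrec a) : Primrec fun x => rTy (f x) (a x) :=
  cb_ty hf ha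
private theorem rPm_p (hf : Primrec f) (ha : Primrec a) (hb : Primrec b) :
    Primrec fun x => rPm (f x) (a x) (b x) := cb_pm hf ha hb
private theorem rMl_p (hf : Primrec f) (ha : Primrec a) (hb : Primrec b) :
    Primrec fun x => rMl (f x) (a x) (b x) := cb_ml hf ha hb
private theorem rMv_p (hf : Primrec f) (ha : Primrec a) :
    PrimrecPred fun x => rMv (f x) (a x) := cb_mv hf ha
private theorem rLc_p (hf : Primrec f) (ha : Primrec a) (hb : Primrec b) :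
    PrimrecPred fun x => rLc (f x) (a x) (b x) := cb_lc hf ha hb
private theorem rD_p (ha : Primrec a) (hb : Primrec b) (hc : Primrec c) :
    Primrec fun x => rD (a x) (b x) (c x) := dig_p ha hb hc
private theorem rF_p (ha : Primrec a) (hb : Primrec b) :
    Primrec fun x => rF (a x) (b x) := fm_p ha hb
private theorem rPar_re (hf : Primrec f) (ha : Primrec a) (hb : Primrec b) :
    REPred fun x => rPar (f x) (a x) (b x) :=
  re_comp cpar_re (f := fun x => (f x, a x, b x)) (hf.pair (ha.pair hb)).to_comp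
private theorem rNPar_re (hf : Primrec f) (ha : Primrec a) (hb : Primrec b) :
    REPred fun x => rNPar (f x) (a x) (b x) :=
  re_comp cnpar_re (f := fun x => (f x, a x, b x)) (hf.pair (ha.pair hb)).to_comp
private theorem rPar2_re (hf : Primrec f) (ha : Primrec a) (hb : Primrec b) (hc : Primrec c)
    (hd : Primrec d) : REPred fun x => rPar2 (f x) (a x) (b x) (c x) (d x) :=
  re_comp cpar2_re (f := fun x => (f x, (a x, b x), (c x, d x)))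
    (hf.pair ((ha.pair hb).pair (hc.pair hd))).to_comp
private theorem rNPar2_re (hf : Primrec f) (ha : Primrec a) (hb : Primrec b) (hc : Primrec c)
    (hd : Primrec d) : REPred fun x => rNPar2 (f x) (a x) (b x) (c x) (d x) :=
  re_comp cnpar2_re (f := fun x => (f x, (a x, b x), (c x, d x)))
    (hf.pair ((ha.pair hb).pair (hc.pair hd))).to_comp

end

private abbrev Inp : Type := Code × ((ℕ × ℕ) × (ℕ × ℕ)) × (ℕ × ℕ)

/-- the second code -/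
private def cY (x : Inp) : Code := ((x.1.1.1, x.1.1.2.1, x.2.1.1.1), x.2.1.1.2)

private theorem cY_p {α : Type} [Primcodable α] {g : α → Inp} (hg : Primrec g) :
    Primrec fun x => cY (g x) := by
  have h1 : Primrec fun x => (g x).1 := Primrec.fst.comp hg
  have h2 : Primrec fun x => (g x).2 := Primrec.snd.comp hg
  have h3 : Primrec fun x => (g x).1.1 := Primrec.fst.comp h1
  have h4 : Primrec fun x => (g x).2.1.1 := Primrec.fst.comp (Primrec.fst.comp h2)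
  exact ((Primrec.fst.comp h3).pair ((Primrec.fst.comp (Primrec.snd.comp h3)).pair
    (Primrec.fst.comp h4))).pair (Primrec.snd.comp h4)

/-- the fields without `Par`, `Par2` -/
private def R1 (x : Inp) : Prop :=
  (∀ k < x.2.1.1.1 + 1, rO x.1 (rD x.1.1.2.2 x.2.2.1 (rF x.2.1.1.1 k)) =
    rO (cY x) (rF x.2.1.1.1 k)) ∧
  (∀ k < x.2.1.1.1 + 1, rO x.1 (rD x.1.1.2.2 x.2.2.2 (rF x.2.1.1.1 k)) =
    rT x.1 (rD x.1.1.2.2 x.2.2.1 (rF x.2.1.1.1 k))) ∧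
  (∀ k < x.2.1.1.1 + 1, rT x.1 (rD x.1.1.2.2 x.2.2.2 (rF x.2.1.1.1 k)) =
    rT (cY x) (rF x.2.1.1.1 k)) ∧
  (∀ k < x.2.1.1.1 + 1, ∀ l < x.1.1.1 + 1, rPm (cY x) (rF x.2.1.1.1 k) (rF x.1.1.1 l) =
    rPm x.1 (rD x.1.1.2.2 x.2.2.2 (rF x.2.1.1.1 k)) (rPm x.1
      (rD x.1.1.2.2 x.2.2.1 (rF x.2.1.1.1 k)) (rF x.1.1.1 l))) ∧
  (∀ k < x.2.1.1.1 + 1, (rMv (cY x) (rF x.2.1.1.1 k) ↔
    rMv x.1 (rD x.1.1.2.2 x.2.2.1 (rF x.2.1.1.1 k)))) ∧
  (∀ k < x.2.1.1.1 + 1, rMv (cY x) (rF x.2.1.1.1 k) → rTy (cY x) (rF x.2.1.1.1 k) =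
    rTy x.1 (rD x.1.1.2.2 x.2.2.1 (rF x.2.1.1.1 k))) ∧
  (∀ k < x.2.1.1.1 + 1, ∀ l < x.2.1.1.1 + 1,
    rD x.1.1.2.2 x.2.2.1 (rF x.2.1.1.1 k) = rD x.1.1.2.2 x.2.2.1 (rF x.2.1.1.1 l) →
    rD x.1.1.2.2 x.2.2.2 (rF x.2.1.1.1 k) = rD x.1.1.2.2 x.2.2.2 (rF x.2.1.1.1 l) →
    rF x.2.1.1.1 k = rF x.2.1.1.1 l)

private theorem R1_p : REPred R1 := by
  apply re_of_prim
  unfold R1
  (repeat' (with_reducible first
    | assumption
    | exact LatIso.CB.p_id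
    | exact Primrec.const _
    | apply rPar_re
    | apply rNPar_re
    | apply rPar2_re
    | apply rNPar2_re
    | apply re_forall_lt
    | apply re_and
    | apply re_or
    | apply re_of_prim
    | apply cY_p
    | apply rO_p
    | apply rT_p
    | apply rE_p
    | apply rI_p
    | apply rTy_p
    | apply rPm_p
    | apply rMl_p
    | apply rD_p
    | apply rF_p
    | apply rMv_p
    | apply rLc_p
    | apply LatIso.CB.p_fst
    | apply LatIso.CB.p_snd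
    | apply LatIso.CB.p_pair
    | apply LatIso.CB.p_add
    | apply LatIso.CB.p_mod
    | apply LatIso.CB.pp_all
    | apply LatIso.CB.pp_ex
    | apply LatIso.CB.pp_and
    | apply LatIso.CB.pp_or
    | apply LatIso.CB.pp_not
    | apply LatIso.CB.pp_iff
    | apply LatIso.CB.pp_imp
    | apply LatIso.CB.pp_eq))

private theorem R1_iff (x : Inp) : R1 x ↔
    (∀ m : Fin (x.2.1.1.1 + 1), (dec x.1).o (dig x.1.1.2.2 x.2.2.1 m) = (dec (cY x)).o m) ∧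
    (∀ m : Fin (x.2.1.1.1 + 1), (dec x.1).o (dig x.1.1.2.2 x.2.2.2 m) =
      (dec x.1).t (dig x.1.1.2.2 x.2.2.1 m)) ∧
    (∀ m : Fin (x.2.1.1.1 + 1), (dec x.1).t (dig x.1.1.2.2 x.2.2.2 m) = (dec (cY x)).t m) ∧
    (∀ (m : Fin (x.2.1.1.1 + 1)) (k : Fin (x.1.1.1 + 1)), (dec (cY x)).pm m k =
      (dec x.1).pm (dig x.1.1.2.2 x.2.2.2 m) ((dec x.1).pm (dig x.1.1.2.2 x.2.2.1 m) k)) ∧
    (∀ m : Fin (x.2.1.1.1 + 1), (dec (cY x)).mv m ↔ (dec x.1).mv (dig x.1.1.2.2 x.2.2.1 m)) ∧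
    (∀ m : Fin (x.2.1.1.1 + 1), (dec (cY x)).mv m → (dec (cY x)).ty m =
      (dec x.1).ty (dig x.1.1.2.2 x.2.2.1 m)) ∧
    (∀ m m' : Fin (x.2.1.1.1 + 1), (dig x.1.1.2.2 x.2.2.1 m : Fin (x.1.1.2.2 + 1)) =
      dig x.1.1.2.2 x.2.2.1 m' → (dig x.1.1.2.2 x.2.2.2 m : Fin (x.1.1.2.2 + 1)) =
      dig x.1.1.2.2 x.2.2.2 m' → m = m') := by
  unfold R1
  simp only [rO, rT, rE, rI, rTy, rPm, rMl, rMv, rLc, rD, rF, cY, fm_surj, fm_all, fm_ex,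
    Fin.ext_iff]

/-- the fields with `Par`, `Par2` -/
private def R2 (x : Inp) : Prop :=
  (∀ k < x.2.1.1.1 + 1,
    (rNPar x.1 x.2.1.2.1 (rD x.1.1.2.2 x.2.2.1 (rF x.2.1.1.1 k)) ∧
      rNPar x.1 x.2.1.2.1 (rI x.1 (rD x.1.1.2.2 x.2.2.1 (rF x.2.1.1.1 k))) ∧
      rD x.1.1.2.2 x.2.2.2 (rF x.2.1.1.1 k) =
        rE x.1 (rT x.1 (rD x.1.1.2.2 x.2.2.1 (rF x.2.1.1.1 k)))) ∨
    rPar2 x.1 x.2.1.2.1 x.2.1.2.2 (rD x.1.1.2.2 x.2.2.2 (rF x.2.1.1.1 k))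
      (rI x.1 (rD x.1.1.2.2 x.2.2.1 (rF x.2.1.1.1 k))) ∨
    rPar2 x.1 x.2.1.2.1 x.2.1.2.2 (rI x.1 (rD x.1.1.2.2 x.2.2.1 (rF x.2.1.1.1 k)))
      (rD x.1.1.2.2 x.2.2.2 (rF x.2.1.1.1 k))) ∧
  (∀ c < x.1.1.2.2 + 1, rPar x.1 x.2.1.2.1 (rF x.1.1.2.2 c) ∨
    rPar x.1 x.2.1.2.1 (rI x.1 (rF x.1.1.2.2 c)) ∨
    ∃ k < x.2.1.1.1 + 1, rD x.1.1.2.2 x.2.2.1 (rF x.2.1.1.1 k) = rF x.1.1.2.2 c ∧
      rD x.1.1.2.2 x.2.2.2 (rF x.2.1.1.1 k) = rE x.1 (rT x.1 (rF x.1.1.2.2 c))) ∧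
  (∀ a < x.1.1.2.2 + 1, ∀ b < x.1.1.2.2 + 1,
    rNPar2 x.1 x.2.1.2.1 x.2.1.2.2 (rF x.1.1.2.2 a) (rF x.1.1.2.2 b) ∨
    ∃ k < x.2.1.1.1 + 1, ∃ l < x.1.1.2.2 + 1, rLc x.1 (rF x.1.1.2.2 l) (rF x.1.1.2.2 a) ∧
      rD x.1.1.2.2 x.2.2.1 (rF x.2.1.1.1 k) =
        rI x.1 (rMl x.1 (rF x.1.1.2.2 l) (rF x.1.1.2.2 b)) ∧
      rD x.1.1.2.2 x.2.2.2 (rF x.2.1.1.1 k) = rMl x.1 (rF x.1.1.2.2 l) (rF x.1.1.2.2 a)) ∧
  (∀ k < x.2.1.1.1 + 1, ∀ l < x.2.1.1.1 + 1, ∀ u < x.1.1.2.2 + 1,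
    rNPar2 x.1 x.2.1.2.1 x.2.1.2.2 (rD x.1.1.2.2 x.2.2.2 (rF x.2.1.1.1 k))
      (rI x.1 (rD x.1.1.2.2 x.2.2.1 (rF x.2.1.1.1 k))) ∨
    (rLc x.1 (rF x.1.1.2.2 u) (rD x.1.1.2.2 x.2.2.2 (rF x.2.1.1.1 k)) →
      rD x.1.1.2.2 x.2.2.1 (rF x.2.1.1.1 l) = rI x.1 (rMl x.1 (rF x.1.1.2.2 u)
        (rI x.1 (rD x.1.1.2.2 x.2.2.1 (rF x.2.1.1.1 k)))) →
      rD x.1.1.2.2 x.2.2.2 (rF x.2.1.1.1 l) = rMl x.1 (rF x.1.1.2.2 u)
        (rD x.1.1.2.2 x.2.2.2 (rF x.2.1.1.1 k)) →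
      rF x.2.1.1.1 k = rF x.2.1.1.1 l))

private theorem R2_p : REPred R2 := by
  unfold R2
  (repeat' (with_reducible first
    | assumption
    | exact LatIso.CB.p_id
    | exact Primrec.const _
    | apply rPar_re
    | apply rNPar_re
    | apply rPar2_re
    | apply rNPar2_re
    | apply re_forall_lt
    | apply re_and
    | apply re_or
    | apply re_of_prim
    | apply cY_p
    | apply rO_p
    | apply rT_p
    | apply rE_p
    | apply rI_p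
    | apply rTy_p
    | apply rPm_p
    | apply rMl_p
    | apply rD_p
    | apply rF_p
    | apply rMv_p
    | apply rLc_p
    | apply LatIso.CB.p_fst
    | apply LatIso.CB.p_snd
    | apply LatIso.CB.p_pair
    | apply LatIso.CB.p_add
    | apply LatIso.CB.p_mod
    | apply LatIso.CB.pp_all
    | apply LatIso.CB.pp_ex
    | apply LatIso.CB.pp_and
    | apply LatIso.CB.pp_or
    | apply LatIso.CB.pp_not
    | apply LatIso.CB.pp_iff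
    | apply LatIso.CB.pp_imp
    | apply LatIso.CB.pp_eq))

private theorem R2_iff (x : Inp) : R2 x ↔
    (∀ m : Fin (x.2.1.1.1 + 1),
      (¬ Par (dec x.1) (fm x.1.1.2.2 x.2.1.2.1) (dig x.1.1.2.2 x.2.2.1 m) ∧
        ¬ Par (dec x.1) (fm x.1.1.2.2 x.2.1.2.1) ((dec x.1).i (dig x.1.1.2.2 x.2.2.1 m)) ∧
        (dig x.1.1.2.2 x.2.2.2 m : Fin (x.1.1.2.2 + 1)) =
          (dec x.1).e ((dec x.1).t (dig x.1.1.2.2 x.2.2.1 m))) ∨
      Par2 (dec x.1) (fm x.1.1.2.2 x.2.1.2.1) (fm x.1.1.2.2 x.2.1.2.2)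
        (dig x.1.1.2.2 x.2.2.2 m) ((dec x.1).i (dig x.1.1.2.2 x.2.2.1 m)) ∨
      Par2 (dec x.1) (fm x.1.1.2.2 x.2.1.2.1) (fm x.1.1.2.2 x.2.1.2.2)
        ((dec x.1).i (dig x.1.1.2.2 x.2.2.1 m)) (dig x.1.1.2.2 x.2.2.2 m)) ∧
    (∀ c : Fin (x.1.1.2.2 + 1), Par (dec x.1) (fm x.1.1.2.2 x.2.1.2.1) c ∨
      Par (dec x.1) (fm x.1.1.2.2 x.2.1.2.1) ((dec x.1).i c) ∨
      ∃ m : Fin (x.2.1.1.1 + 1), dig x.1.1.2.2 x.2.2.1 m = c ∧
        dig x.1.1.2.2 x.2.2.2 m = (dec x.1).e ((dec x.1).t c)) ∧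
    (∀ a' b' : Fin (x.1.1.2.2 + 1),
      (¬ Par2 (dec x.1) (fm x.1.1.2.2 x.2.1.2.1) (fm x.1.1.2.2 x.2.1.2.2) a' b') ∨
      ∃ (m : Fin (x.2.1.1.1 + 1)) (s : Fin (x.1.1.2.2 + 1)), (dec x.1).lc s a' ∧
        dig x.1.1.2.2 x.2.2.1 m = (dec x.1).i ((dec x.1).ml s b') ∧
        dig x.1.1.2.2 x.2.2.2 m = (dec x.1).ml s a') ∧
    (∀ (m m' : Fin (x.2.1.1.1 + 1)) (s : Fin (x.1.1.2.2 + 1)),
      (¬ Par2 (dec x.1) (fm x.1.1.2.2 x.2.1.2.1) (fm x.1.1.2.2 x.2.1.2.2)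
        (dig x.1.1.2.2 x.2.2.2 m) ((dec x.1).i (dig x.1.1.2.2 x.2.2.1 m))) ∨
      ((dec x.1).lc s (dig x.1.1.2.2 x.2.2.2 m) →
        dig x.1.1.2.2 x.2.2.1 m' = (dec x.1).i ((dec x.1).ml s
          ((dec x.1).i (dig x.1.1.2.2 x.2.2.1 m))) →
        dig x.1.1.2.2 x.2.2.2 m' = (dec x.1).ml s (dig x.1.1.2.2 x.2.2.2 m) → m = m')) := by
  unfold R2
  simp only [rO, rT, rE, rI, rTy, rPm, rMl, rMv, rLc, rD, rF, rPar, rNPar, rPar2, rNPar2,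
    fm_surj, fm_all, fm_ex, Fin.ext_iff]


private theorem cclo_nlegal (x : Code) (a b : Fin (x.1.2.2 + 1)) :
    (((((((¬ (dec x).mv a) ∨ (¬ (dec x).mv b)) ∨ (¬ (dec x).o a = (dec x).o b)) ∨
      (¬ (dec x).ty a = (dec x).ty b)) ∨ Par (dec x) a b) ∨ Par (dec x) a ((dec x).i b)) ∨
      ∃ c : ℕ, Par2 (dec x) a b a (fm x.1.2.2 c) ∧ ¬ (dec x).eqv b (fm x.1.2.2 c)) ↔
    ¬ Legal (dec x) a b := by
  classical
  constructor
  · rintro ((((((h | h) | h) | h) | h) | h) | ⟨c, h1, h2⟩) hL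
    · exact h hL.ma
    · exact h hL.mb
    · exact h hL.o
    · exact h hL.ty
    · exact hL.n1 h
    · exact hL.n2 h
    · exact h2 (hL.uniq _ h1)
  · intro h
    by_contra hc
    push Not at hc
    obtain ⟨⟨⟨⟨⟨⟨h1, h2⟩, h3⟩, h4⟩, h5⟩, h6⟩, h7⟩ := hc
    refine h ⟨h1, h2, h3, h4, h5, h6, ?_⟩
    intro b' hb'
    have h8 := h7 (b' : ℕ)
    rw [fm_surj] at h8
    exact h8 hb'

private theorem cclo_h1 : REPred fun x : Code × ℕ × ℕ => ¬ (dec x.1).mv (fm x.1.1.2.2 x.2.1) :=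
  re_of_prim (LatIso.CB.pp_not (cb_mv (f := fun x : Code × ℕ × ℕ => x.1) Primrec.fst
    (Primrec.fst.comp Primrec.snd)))

private theorem cclo_h2 : REPred fun x : Code × ℕ × ℕ => ¬ (dec x.1).mv (fm x.1.1.2.2 x.2.2) :=
  re_of_prim (LatIso.CB.pp_not (cb_mv (f := fun x : Code × ℕ × ℕ => x.1) Primrec.fst
    (Primrec.snd.comp Primrec.snd)))

private theorem cclo_h3 : REPred fun x : Code × ℕ × ℕ =>
    ¬ (dec x.1).o (fm x.1.1.2.2 x.2.1) = (dec x.1).o (fm x.1.1.2.2 x.2.2) := by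
  have hf : Primrec fun x : Code × ℕ × ℕ => x.1 := Primrec.fst
  have ha : Primrec fun x : Code × ℕ × ℕ => x.2.1 := Primrec.fst.comp Primrec.snd
  have hb : Primrec fun x : Code × ℕ × ℕ => x.2.2 := Primrec.snd.comp Primrec.snd
  have h := re_of_prim (LatIso.CB.pp_not (LatIso.CB.pp_eq (cb_o hf ha) (cb_o hf hb)))
  refine h.of_eq fun x => ?_
  rw [← Fin.ext_iff]

private theorem cclo_h4 : REPred fun x : Code × ℕ × ℕ =>
    ¬ (dec x.1).ty (fm x.1.1.2.2 x.2.1) = (dec x.1).ty (fm x.1.1.2.2 x.2.2) := by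
  have hf : Primrec fun x : Code × ℕ × ℕ => x.1 := Primrec.fst
  have ha : Primrec fun x : Code × ℕ × ℕ => x.2.1 := Primrec.fst.comp Primrec.snd
  have hb : Primrec fun x : Code × ℕ × ℕ => x.2.2 := Primrec.snd.comp Primrec.snd
  have h := re_of_prim (LatIso.CB.pp_not (LatIso.CB.pp_eq (cb_ty hf ha) (cb_ty hf hb)))
  refine h.of_eq fun x => ?_
  rw [← Fin.ext_iff]

private def ccloE6 (x : Code × ℕ × ℕ) : Code × ℕ × ℕ :=
  (x.1, x.2.1, ((dec x.1).i (fm x.1.1.2.2 x.2.2) : ℕ))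

private theorem ccloE6_p : Primrec ccloE6 := by
  have hf : Primrec fun x : Code × ℕ × ℕ => x.1 := Primrec.fst
  have ha : Primrec fun x : Code × ℕ × ℕ => x.2.1 := Primrec.fst.comp Primrec.snd
  have hb : Primrec fun x : Code × ℕ × ℕ => x.2.2 := Primrec.snd.comp Primrec.snd
  exact Primrec.pair hf (Primrec.pair ha (cb_i hf hb))

private theorem cclo_h6 : REPred fun x : Code × ℕ × ℕ =>
    Par (dec x.1) (fm x.1.1.2.2 x.2.1) ((dec x.1).i (fm x.1.1.2.2 x.2.2)) := by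
  have h := re_comp cpar_re ccloE6_p.to_comp
  refine h.of_eq fun x => ?_
  have h2 := fm_surj x.1.1.2.2 ((dec x.1).i (fm x.1.1.2.2 x.2.2))
  unfold ccloE6
  dsimp only
  rw [h2]

private def ccloE7 (y : (Code × ℕ × ℕ) × ℕ) : Code × (ℕ × ℕ) × (ℕ × ℕ) :=
  (y.1.1, (y.1.2.1, y.1.2.2), (y.1.2.1, y.2))

private theorem ccloE7_p : Primrec ccloE7 := by
  have hf : Primrec fun y : (Code × ℕ × ℕ) × ℕ => y.1.1 := Primrec.fst.comp Primrec.fst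
  have ha : Primrec fun y : (Code × ℕ × ℕ) × ℕ => y.1.2.1 :=
    Primrec.fst.comp (Primrec.snd.comp Primrec.fst)
  have hb : Primrec fun y : (Code × ℕ × ℕ) × ℕ => y.1.2.2 :=
    Primrec.snd.comp (Primrec.snd.comp Primrec.fst)
  exact Primrec.pair hf (Primrec.pair (Primrec.pair ha hb) (Primrec.pair ha Primrec.snd))

private theorem cclo_g1 : REPred fun y : (Code × ℕ × ℕ) × ℕ =>
    Par2 (dec y.1.1) (fm y.1.1.1.2.2 y.1.2.1) (fm y.1.1.1.2.2 y.1.2.2)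
      (fm y.1.1.1.2.2 y.1.2.1) (fm y.1.1.1.2.2 y.2) := by
  have h := re_comp cpar2_re ccloE7_p.to_comp
  exact h.of_eq fun x => by unfold ccloE7; exact Iff.rfl

private theorem cclo_g2 : REPred fun y : (Code × ℕ × ℕ) × ℕ =>
    ¬ (dec y.1.1).eqv (fm y.1.1.1.2.2 y.1.2.2) (fm y.1.1.1.2.2 y.2) := by
  have hf : Primrec fun y : (Code × ℕ × ℕ) × ℕ => y.1.1 := Primrec.fst.comp Primrec.fst
  have hb : Primrec fun y : (Code × ℕ × ℕ) × ℕ => y.1.2.2 :=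
    Primrec.snd.comp (Primrec.snd.comp Primrec.fst)
  exact re_of_prim (LatIso.CB.pp_not (cb_eqv hf hb Primrec.snd))

private theorem cclo_h7 : REPred fun x : Code × ℕ × ℕ => ∃ c : ℕ,
    Par2 (dec x.1) (fm x.1.1.2.2 x.2.1) (fm x.1.1.2.2 x.2.2) (fm x.1.1.2.2 x.2.1)
      (fm x.1.1.2.2 c) ∧ ¬ (dec x.1).eqv (fm x.1.1.2.2 x.2.2) (fm x.1.1.2.2 c) :=
  re_exists (p := fun (x : Code × ℕ × ℕ) (c : ℕ) =>
    Par2 (dec x.1) (fm x.1.1.2.2 x.2.1) (fm x.1.1.2.2 x.2.2) (fm x.1.1.2.2 x.2.1)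
      (fm x.1.1.2.2 c) ∧ ¬ (dec x.1).eqv (fm x.1.1.2.2 x.2.2) (fm x.1.1.2.2 c))
    (re_and cclo_g1 cclo_g2)

private theorem cclo_nlegal_re : REPred fun x : Code × ℕ × ℕ =>
    ¬ Legal (dec x.1) (fm x.1.1.2.2 x.2.1) (fm x.1.1.2.2 x.2.2) := by
  have h8 := re_or (re_or (re_or (re_or (re_or (re_or cclo_h1 cclo_h2) cclo_h3) cclo_h4)
    cpar_re) cclo_h6) cclo_h7
  exact h8.of_eq fun x => cclo_nlegal x.1 _ _


end LatF

namespace VTB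

open LatIso LatN LatF

private abbrev VInp : Type := VCode × ((ℕ × ℕ) × (ℕ × ℕ)) × (ℕ × ℕ)

private theorem F35_inp : Primrec fun x : VInp => ((x.1.1, x.2) : Inp) :=
  (Primrec.fst.comp Primrec.fst).pair Primrec.snd

private theorem F35_v : Primrec fun x : VInp => ((cY (x.1.1, x.2), x.1.2) : VCode) :=
  (cY_p F35_inp).pair (Primrec.snd.comp Primrec.fst)

theorem cvres_re : REPred fun x : VCode × ((ℕ × ℕ) × (ℕ × ℕ)) × (ℕ × ℕ) =>
    VRes (cG x.1) (cN x.1) (LatF.dec x.1.1)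
      (LatF.dec ((x.1.1.1.1, x.1.1.1.2.1, x.2.1.1.1), x.2.1.1.2))
      (fm x.1.1.1.2.2 x.2.1.2.1) (fm x.1.1.1.2.2 x.2.1.2.2)
      (fun m => dig x.1.1.1.2.2 x.2.2.1 m) (fun m => dig x.1.1.1.2.2 x.2.2.2 m) := by
  have hv : REPred fun x : VInp => VV (cG ((cY (x.1.1, x.2), x.1.2) : VCode))
      (cN ((cY (x.1.1, x.2), x.1.2) : VCode)) (LatF.dec (cY (x.1.1, x.2))) :=
    re_of_prim (cvv_p.comp F35_v)
  have hh : REPred fun x : Inp => _ := re_comp chom_re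
    (f := fun x : Inp => (x.1, x.2.1.1, x.2.2))
    (Primrec.fst.pair ((Primrec.fst.comp (Primrec.fst.comp Primrec.snd)).pair
      (Primrec.snd.comp Primrec.snd))).to_comp
  have h2 := re_comp (re_and R1_p (re_and R2_p hh)) F35_inp.to_comp
  refine (re_and hv h2).of_eq ?_
  intro x
  rw [R1_iff, R2_iff]
  constructor
  · rintro ⟨v, ⟨o1, o2, t2, pm, mv, ty, inj0⟩, ⟨kind, old, new, inj1⟩, hom⟩
    exact
      { valid := v
        o₁ := o1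
        o₂ := o2
        t₂ := t2
        pm := pm
        mv := mv
        ty := ty
        kind := kind
        old := fun c h1 h2 => ((old c).resolve_left h1).resolve_left h2
        new := fun a' b' h => (new a' b').resolve_left (not_not_intro h)
        inj₀ := inj0
        inj₁ := fun m m' s h => (inj1 m m' s).resolve_left (not_not_intro h)
        hom := hom }
  · intro h
    refine ⟨h.valid, ⟨h.o₁, h.o₂, h.t₂, h.pm, h.mv, h.ty, h.inj₀⟩, ⟨h.kind, ?_, ?_, ?_⟩, h.hom⟩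
    · intro c
      by_cases h1 : Par (LatF.dec x.1.1) (fm x.1.1.1.2.2 x.2.1.2.1) c
      · exact Or.inl h1
      · by_cases h2 : Par (LatF.dec x.1.1) (fm x.1.1.1.2.2 x.2.1.2.1) ((LatF.dec x.1.1).i c)
        · exact Or.inr (Or.inl h2)
        · exact Or.inr (Or.inr (h.old c h1 h2))
    · intro a' b'
      by_cases h1 : Par2 (LatF.dec x.1.1) (fm x.1.1.1.2.2 x.2.1.2.1) (fm x.1.1.1.2.2 x.2.1.2.2)
          a' b'
      · exact Or.inr (h.new a' b' h1)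
      · exact Or.inl h1
    · intro m m' s
      by_cases h1 : Par2 (LatF.dec x.1.1) (fm x.1.1.1.2.2 x.2.1.2.1) (fm x.1.1.1.2.2 x.2.1.2.2)
          (dig x.1.1.1.2.2 x.2.2.2 m) ((LatF.dec x.1.1).i (dig x.1.1.1.2.2 x.2.2.1 m))
      · exact Or.inr (h.inj₁ m m' s h1)
      · exact Or.inl h1

private theorem F35_mem_p {γ : Type} [Primcodable γ] {l : γ → List VCode} {e : γ → VCode}
    (hl : Primrec l) (he : Primrec e) : PrimrecPred fun x => e x ∈ l x := by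
  have h1 : PrimrecRel (fun (L : List VCode) (b : VCode) => ∃ a ∈ L, a = b) :=
    (Primrec.eq (α := VCode)).exists_mem_list
  refine (h1.comp hl he).of_eq fun x => ?_
  simp

/-- the result of the slide is in the list -/
private def F35S (y : ((List VCode × VCode) × ℕ) × ℕ) : Prop :=
  ∃ z : (ℕ × ℕ) × (ℕ × ℕ),
    (((y.1.1.2.1.1.1, y.1.1.2.1.1.2.1, z.1.1), z.1.2), y.1.1.2.2) ∈ y.1.1.1 ∧
    VRes (cG y.1.1.2) (cN y.1.1.2) (LatF.dec y.1.1.2.1)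
      (LatF.dec ((y.1.1.2.1.1.1, y.1.1.2.1.1.2.1, z.1.1), z.1.2))
      (fm y.1.1.2.1.1.2.2 y.1.2) (fm y.1.1.2.1.1.2.2 y.2)
      (fun m => dig y.1.1.2.1.1.2.2 z.2.1 m) (fun m => dig y.1.1.2.1.1.2.2 z.2.2 m)

private theorem F35S_re : REPred F35S := by
  unfold F35S
  refine re_exists (p := fun (y : ((List VCode × VCode) × ℕ) × ℕ) (z : (ℕ × ℕ) × (ℕ × ℕ)) =>
    (((y.1.1.2.1.1.1, y.1.1.2.1.1.2.1, z.1.1), z.1.2), y.1.1.2.2) ∈ y.1.1.1 ∧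
    VRes (cG y.1.1.2) (cN y.1.1.2) (LatF.dec y.1.1.2.1)
      (LatF.dec ((y.1.1.2.1.1.1, y.1.1.2.1.1.2.1, z.1.1), z.1.2))
      (fm y.1.1.2.1.1.2.2 y.1.2) (fm y.1.1.2.1.1.2.2 y.2)
      (fun m => dig y.1.1.2.1.1.2.2 z.2.1 m) (fun m => dig y.1.1.2.1.1.2.2 z.2.2 m)) ?_
  have hl : Primrec fun u : (((List VCode × VCode) × ℕ) × ℕ) × ((ℕ × ℕ) × (ℕ × ℕ)) =>
      u.1.1.1.1 := Primrec.fst.comp (Primrec.fst.comp (Primrec.fst.comp Primrec.fst))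
  have hx : Primrec fun u : (((List VCode × VCode) × ℕ) × ℕ) × ((ℕ × ℕ) × (ℕ × ℕ)) =>
      u.1.1.1.2 := Primrec.snd.comp (Primrec.fst.comp (Primrec.fst.comp Primrec.fst))
  have ha : Primrec fun u : (((List VCode × VCode) × ℕ) × ℕ) × ((ℕ × ℕ) × (ℕ × ℕ)) =>
      u.1.1.2 := Primrec.snd.comp (Primrec.fst.comp Primrec.fst)
  have hb : Primrec fun u : (((List VCode × VCode) × ℕ) × ℕ) × ((ℕ × ℕ) × (ℕ × ℕ)) =>
      u.1.2 := Primrec.snd.comp Primrec.fst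
  have hm : Primrec fun u : (((List VCode × VCode) × ℕ) × ℕ) × ((ℕ × ℕ) × (ℕ × ℕ)) =>
      u.2.1.1 := Primrec.fst.comp (Primrec.fst.comp Primrec.snd)
  have hw : Primrec fun u : (((List VCode × VCode) × ℕ) × ℕ) × ((ℕ × ℕ) × (ℕ × ℕ)) =>
      u.2.1.2 := Primrec.snd.comp (Primrec.fst.comp Primrec.snd)
  have hd : Primrec fun u : (((List VCode × VCode) × ℕ) × ℕ) × ((ℕ × ℕ) × (ℕ × ℕ)) =>
      u.2.2 := Primrec.snd.comp Primrec.snd
  have hnI : Primrec fun u : (((List VCode × VCode) × ℕ) × ℕ) × ((ℕ × ℕ) × (ℕ × ℕ)) =>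
      u.1.1.1.2.1.1.1 := Primrec.fst.comp (Primrec.fst.comp (Primrec.fst.comp hx))
  have hnP : Primrec fun u : (((List VCode × VCode) × ℕ) × ℕ) × ((ℕ × ℕ) × (ℕ × ℕ)) =>
      u.1.1.1.2.1.1.2.1 :=
    Primrec.fst.comp (Primrec.snd.comp (Primrec.fst.comp (Primrec.fst.comp hx)))
  have hg : Primrec fun u : (((List VCode × VCode) × ℕ) × ℕ) × ((ℕ × ℕ) × (ℕ × ℕ)) =>
      u.1.1.1.2.2 := Primrec.snd.comp hx
  have g1 : REPred fun u : (((List VCode × VCode) × ℕ) × ℕ) × ((ℕ × ℕ) × (ℕ × ℕ)) =>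
      (((u.1.1.1.2.1.1.1, u.1.1.1.2.1.1.2.1, u.2.1.1), u.2.1.2), u.1.1.1.2.2) ∈ u.1.1.1.1 :=
    re_of_prim (F35_mem_p hl
      (Primrec.pair (Primrec.pair (Primrec.pair hnI (Primrec.pair hnP hm)) hw) hg))
  have e : Primrec fun u : (((List VCode × VCode) × ℕ) × ℕ) × ((ℕ × ℕ) × (ℕ × ℕ)) =>
      ((u.1.1.1.2, ((u.2.1.1, u.2.1.2), (u.1.1.2, u.1.2)), u.2.2) :
        VCode × ((ℕ × ℕ) × (ℕ × ℕ)) × (ℕ × ℕ)) :=
    Primrec.pair hx (Primrec.pair (Primrec.pair (Primrec.pair hm hw) (Primrec.pair ha hb)) hd)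
  have g2 := re_comp cvres_re e.to_comp
  exact re_and g1 g2

private theorem F35_iff (l : List VCode) : (∀ x ∈ l, ∀ a < x.1.1.2.2 + 1, ∀ b < x.1.1.2.2 + 1,
    (¬ Legal (LatF.dec x.1) (fm x.1.1.2.2 a) (fm x.1.1.2.2 b)) ∨ F35S (((l, x), a), b)) ↔
      VClosed l := by
  classical
  constructor
  · intro h x hx a b hL
    have h1 := h x hx a a.2 b b.2
    rw [fm_surj, fm_surj] at h1
    rcases h1 with h1 | ⟨z, h1, h2⟩
    · exact absurd hL h1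
    · refine ⟨z.1.1, z.1.2, h1, (fun q : Fin (z.1.1 + 1) => dig x.1.1.2.2 z.2.1 q),
        (fun q : Fin (z.1.1 + 1) => dig x.1.1.2.2 z.2.2 q), ?_⟩
      have h3 : VRes (cG x) (cN x) (LatF.dec x.1)
        (LatF.dec ((x.1.1.1, x.1.1.2.1, z.1.1), z.1.2)) (fm x.1.1.2.2 a) (fm x.1.1.2.2 b)
        (fun m => dig x.1.1.2.2 z.2.1 m) (fun m => dig x.1.1.2.2 z.2.2 m) := h2
      rw [fm_surj, fm_surj] at h3
      exact h3
  · intro h x hx a _ b _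
    by_cases hL : Legal (LatF.dec x.1) (fm x.1.1.2.2 a) (fm x.1.1.2.2 b)
    · right
      obtain ⟨m, w, h1, φ₁, φ₂, h2⟩ := h x hx _ _ hL
      obtain ⟨d₁, hd₁⟩ := dig_surj x.1.1.2.2 m φ₁
      obtain ⟨d₂, hd₂⟩ := dig_surj x.1.1.2.2 m φ₂
      refine ⟨((m, w), (d₁, d₂)), h1, ?_⟩
      show VRes (cG x) (cN x) (LatF.dec x.1) (LatF.dec ((x.1.1.1, x.1.1.2.1, m), w))
        (fm x.1.1.2.2 a) (fm x.1.1.2.2 b)
        (fun q : Fin (m + 1) => dig x.1.1.2.2 d₁ q) (fun q : Fin (m + 1) => dig x.1.1.2.2 d₂ q)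
      rw [hd₁, hd₂]
      exact h2
    · exact Or.inl hL

private def F35E (y : ((List VCode × VCode) × ℕ) × ℕ) : LatF.Code × ℕ × ℕ :=
  (y.1.1.2.1, y.1.2, y.2)

private theorem F35E_p : Primrec F35E :=
  Primrec.pair (Primrec.fst.comp (Primrec.snd.comp (Primrec.fst.comp Primrec.fst)))
    (Primrec.pair (Primrec.snd.comp Primrec.fst) Primrec.snd)

theorem cvclosed_re : REPred fun l : List VCode => VClosed l := by
  have h1 : REPred fun y : ((List VCode × VCode) × ℕ) × ℕ =>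
      ¬ Legal (LatF.dec y.1.1.2.1) (fm y.1.1.2.1.1.2.2 y.1.2) (fm y.1.1.2.1.1.2.2 y.2) := by
    have h := re_comp cclo_nlegal_re F35E_p.to_comp
    exact h.of_eq fun y => by unfold F35E; exact Iff.rfl
  have h2 := re_or h1 F35S_re
  have hn1 : Primrec fun y : (List VCode × VCode) × ℕ => y.1.2.1.1.2.2 + 1 :=
    Primrec.succ.comp (Primrec.snd.comp (Primrec.snd.comp (Primrec.fst.comp (Primrec.fst.comp
      (Primrec.snd.comp Primrec.fst)))))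
  have hn0 : Primrec fun y : List VCode × VCode => y.2.1.1.2.2 + 1 :=
    Primrec.succ.comp (Primrec.snd.comp (Primrec.snd.comp (Primrec.fst.comp (Primrec.fst.comp
      Primrec.snd))))
  have h3 : REPred fun y : (List VCode × VCode) × ℕ => ∀ b < y.1.2.1.1.2.2 + 1,
      (¬ Legal (LatF.dec y.1.2.1) (fm y.1.2.1.1.2.2 y.2) (fm y.1.2.1.1.2.2 b)) ∨ F35S (y, b) :=
    re_forall_lt (p := fun (y : (List VCode × VCode) × ℕ) (b : ℕ) =>
      (¬ Legal (LatF.dec y.1.2.1) (fm y.1.2.1.1.2.2 y.2) (fm y.1.2.1.1.2.2 b)) ∨ F35S (y, b))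
      hn1 h2
  have h4 : REPred fun y : List VCode × VCode => ∀ a < y.2.1.1.2.2 + 1,
      ∀ b < y.2.1.1.2.2 + 1,
      (¬ Legal (LatF.dec y.2.1) (fm y.2.1.1.2.2 a) (fm y.2.1.1.2.2 b)) ∨ F35S ((y, a), b) :=
    re_forall_lt (p := fun (y : List VCode × VCode) (a : ℕ) => ∀ b < y.2.1.1.2.2 + 1,
      (¬ Legal (LatF.dec y.2.1) (fm y.2.1.1.2.2 a) (fm y.2.1.1.2.2 b)) ∨ F35S ((y, a), b))
      hn0 h3
  have h5 : REPred fun l : List VCode => ∀ x ∈ l, ∀ a < x.1.1.2.2 + 1, ∀ b < x.1.1.2.2 + 1,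
      (¬ Legal (LatF.dec x.1) (fm x.1.1.2.2 a) (fm x.1.1.2.2 b)) ∨ F35S (((l, x), a), b) :=
    re_forall_mem (p := fun (l : List VCode) (x : VCode) => ∀ a < x.1.1.2.2 + 1,
      ∀ b < x.1.1.2.2 + 1, (¬ Legal (LatF.dec x.1) (fm x.1.1.2.2 a) (fm x.1.1.2.2 b)) ∨
        F35S (((l, x), a), b)) (f := fun l => l) Primrec.id h4
  exact h5.of_eq F35_iff

end VTB
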