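import Pool.Agent.Lib.MP_32d917_al_vt.WDefs
import Pool.Agent.Lib.MP_32d917_al.F.FAUT

/-!
# W26: the forest of the trees (40 min)

Reuse `fautK`, `fautS`, `fautF`, `fautF_adj`, `fautI` of MP_32d917_al/F/FAUT.lean (namespace LatF). `sgc co x i = fautF V i (co x i)`. `VSt` over the forest iff `VSt` over the trees (`fautF_adj`, injectivity of `fautF V i`). `Bt`: distances are preserved by the isomorphism `fautI S i` (walks are mapped; there may be a lemma `SimpleGraph.Iso` ... `dist`; otherwise
`dist` of the images ≤ `dist` by mapping a shortest walk, in both directions). Then all fields of `MS1`, `VF`, `VLab` by translation.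
-/

set_option autoImplicit false

namespace VTB

open LatIso LatN LatF

variable {ι P A : Type} {Γ : SimpleGraph ι} {N : P → ι → Prop} {X : FD ι P A}

/-- coordinates in the forest -/
def sgc {ι Pt : Type} {V : ι → Type} (co : Pt → ∀ i, V i) (x : Pt) (i : ι) :
    Fib (fautK V) i := fautF V i (co x i)

private theorem w26_dist {U U' : Type} {G : SimpleGraph U} {G' : SimpleGraph U'} (e : G ≃g G')
    (hG : G.Connected) (hG' : G'.Connected) (u v : U) : G'.dist (e u) (e v) = G.dist u v := by
  apply le_antisymm
  · obtain ⟨w, hw⟩ := hG.exists_walk_length_eq_dist u v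
    rw [← hw]
    have h1 := SimpleGraph.dist_le (w.map e.toHom)
    rw [SimpleGraph.Walk.length_map] at h1
    exact h1
  · obtain ⟨w, hw⟩ := hG'.exists_walk_length_eq_dist (e u) (e v)
    rw [← hw]
    have h1 := SimpleGraph.dist_le (w.map e.symm.toHom)
    rw [SimpleGraph.Walk.length_map] at h1
    have h2 : G.dist (e.symm (e u)) (e.symm (e v)) ≤ w.length := h1
    rwa [e.symm_apply_apply, e.symm_apply_apply] at h2

private theorem w26_vst {ι Pt : Type} {V : ι → Type} {S : ∀ i, SimpleGraph (V i)}
    {co : Pt → ∀ i, V i} {i : ι} {x y : Pt} :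
    VSt (comp (fautK V) (fautS S)) (sgc co) i x y ↔ VSt S co i x y := by
  constructor
  · rintro ⟨h1, h2⟩
    exact ⟨(fautF_adj _ _ _).1 h1, fun j hj => (fautF V j).injective (h2 j hj)⟩
  · rintro ⟨h1, h2⟩
    exact ⟨(fautF_adj _ _ _).2 h1, fun j hj => congrArg (fautF V j) (h2 j hj)⟩

theorem sg_ms {Γ : SimpleGraph ι} {Pt : Type} {V : ι → Type} {S : ∀ i, SimpleGraph (V i)}
    {co : Pt → ∀ i, V i} {N' : Pt → ι → Prop} (h : MS1 Γ S co N') :
    MS1 Γ (comp (fautK V) (fautS S)) (sgc co) N' := by
  have hv : VSt (comp (fautK V) (fautS S)) (sgc co) = VSt S co := by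
    funext i x y
    exact propext w26_vst
  have ht : ∀ i, (comp (fautK V) (fautS S) i).IsTree := fun i =>
    (fautI S i).isTree_iff.1 (h.tree i)
  have hb : ∀ i (a b c : V i), Bt (S i) a b c →
      Bt (comp (fautK V) (fautS S) i) (fautF V i a) (fautF V i b) (fautF V i c) := by
    intro i a b c hb
    have hd : ∀ u v : V i, (comp (fautK V) (fautS S) i).dist (fautF V i u) (fautF V i v) =
        (S i).dist u v := w26_dist (fautI S i) (h.tree i).1 (ht i).1
    unfold Bt at hb ⊢
    rw [hd, hd, hd]
    exact hb
  exact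
    { tree := ht
      ne := h.ne
      inj := fun x y hxy => h.inj x y fun i => (fautF V i).injective (hxy i)
      onto := fun i v => by
        obtain ⟨x, hx⟩ := h.onto i ((fautF V i).symm v)
        refine ⟨x, ?_⟩
        show fautF V i (co x i) = v
        rw [hx, Equiv.apply_symm_apply]
      conn := by rw [hv]; exact h.conn
      med := fun x y z => by
        obtain ⟨m, hm⟩ := h.med x y z
        exact ⟨m, fun i => ⟨hb i _ _ _ (hm i).1, hb i _ _ _ (hm i).2.1, hb i _ _ _ (hm i).2.2⟩⟩
      sq := by rw [hv]; exact h.sq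
      occ := by rw [hv]; exact h.occ
      nocc := h.nocc
      ntr := by rw [hv]; exact h.ntr }

theorem sg_vf {Pt : Type} {V : ι → Type} {S : ∀ i, SimpleGraph (V i)} {co : Pt → ∀ i, V i}
    {F : Type} (L : VF X S co F) : ∃ L' : VF X (comp (fautK V) (fautS S)) (sgc co) F,
      (∀ f, L'.pt f = L.pt f) ∧ (∀ f k, L'.lam f k = L.lam f k) ∧ (∀ f, L'.p f = L.p f) ∧
      ∀ f a, L'.act f a = L.act f a := by
  refine ⟨{ pt := L.pt
            lam := L.lam
            p := L.p
            act := L.act
            bij := L.bij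
            onto := L.onto
            act_p := L.act_p
            act_lam := L.act_lam
            act_e := L.act_e
            act_i := L.act_i
            act_ml := L.act_ml
            act_sq := L.act_sq
            sq_of := L.sq_of
            st := L.st
            mo := fun f a h1 h2 => w26_vst.2 (L.mo f a h1 h2)
            sur := fun f f' h => L.sur f f' (h.imp id fun ⟨i, hi⟩ => ⟨i, w26_vst.1 hi⟩)
            inj := L.inj }, fun _ => rfl, fun _ _ => rfl, fun _ => rfl, fun _ _ => rfl⟩

end VTB
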