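import Pool.Agent.Lib.MP_32d917_al_vt.W20

/-!
# W27: the group of automorphisms (50 min)

`φ : AutX Y` is a permutation of `Z` with `Y.p (φ f) = Y.p f`, `Y.act (φ f) a = φ (Y.act f a)` for `X.o a = Y.p f`. `aut_free`: `uq_ind` from `f`: the set of `g` with `φ g = g`. `aut_trans`: `uq_univ` with `Y' = Y` twice: `Φ f = f'`, `Ψ f' = f`, `Ψ (Φ g) = g` and `Φ (Ψ g) = g` by `uq_ind` (as in FAUT.lean).
`aut_lab`: `π φ i = lam (φ f0) k` where `lam f0 k = i` (`hL.bij`, choice); `π φ (lam f k) = lam (φ f) k` by `uq_ind` on `f` (`hL.act` at `f` and at `φ f`: `k = pm a k'`, `k' = pm (i a) k`, `vv_pmi`). one, mul: write `i = lam f0 k`.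
`aut_pt`: `Quot.map`: `Rpt Y f g` gives `Rpt Y (φ f) (φ g)`. `aut_vt`: `Rni Y lam i f g` gives `Rni Y lam (π φ i) (φ f) (φ g)` (`lam (φ f) (ty a) = π φ (lam f (ty a)) ≠ π φ i` since `π φ` is injective: `π φ⁻¹`); `Sigma` with `Quot.map`.
-/

set_option autoImplicit false

namespace VTB

open LatIso LatN LatF

variable {ι P A : Type} {Γ : SimpleGraph ι} {N : P → ι → Prop} {X : FD ι P A} {Z : Type}
  {Y : XSet X Z} {lam : Z → ι → ι}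

theorem aut_free (hU : Uniq Y) (φ : AutX Y) (f : Z) (h : φ.1 f = f) : φ = 1 := by
  have h1 : ∀ g, φ.1 g = g := by
    refine uq_ind hU f (fun g => φ.1 g = g) h fun g a ha hg => ?_
    have h2 := φ.2.2 g a ha
    rw [← h2, hg]
  exact Subtype.ext (Equiv.ext h1)

theorem aut_trans (hX : VV0 Γ N X) (hU : Uniq Y) (f f' : Z) (h : Y.p f = Y.p f') :
    ∃ φ : AutX Y, φ.1 f = f' := by
  obtain ⟨Φ, h1, h2, h3⟩ := uq_univ hX hU Y f f' h.symm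
  obtain ⟨Ψ, k1, k2, k3⟩ := uq_univ hX hU Y f' f h
  have e1 : ∀ g, Ψ (Φ g) = g := by
    refine uq_ind hU f (fun g => Ψ (Φ g) = g) (by rw [h1, k1]) fun g a ha hg => ?_
    rw [h3 g a ha, k3 (Φ g) a (by rw [h2, ha]), hg]
  have e2 : ∀ g, Φ (Ψ g) = g := by
    refine uq_ind hU f' (fun g => Φ (Ψ g) = g) (by rw [k1, h1]) fun g a ha hg => ?_
    rw [k3 g a ha, h3 (Ψ g) a (by rw [k2, ha]), hg]
  exact ⟨⟨⟨Φ, Ψ, e1, e2⟩, h2, fun g a ha => (h3 g a ha).symm⟩, h1⟩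

theorem aut_lab (hX : VV0 Γ N X) (hU : Uniq Y) (hL : LamX Γ Y lam) (f0 : Z) :
    ∃ π : AutX Y → ι → ι, (∀ φ f k, π φ (lam f k) = lam (φ.1 f) k) ∧ (∀ i, π 1 i = i) ∧
      ∀ φ ψ i, π (φ * ψ) i = π φ (π ψ i) := by
  have hs := (hL.bij f0).2
  have hi : ∀ i, lam f0 (Function.surjInv hs i) = i := Function.surjInv_eq hs
  have key : ∀ (φ : AutX Y) f k,
      lam (φ.1 f0) (Function.surjInv hs (lam f k)) = lam (φ.1 f) k := by
    intro φ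
    refine uq_ind hU f0 (fun f => ∀ k, lam (φ.1 f0) (Function.surjInv hs (lam f k)) =
      lam (φ.1 f) k) ?_ ?_
    · intro k
      rw [(hL.bij f0).1 (hi (lam f0 k))]
    · intro f a ha ih k
      have h1 := hL.act f a ha (X.pm (X.i a) k)
      have h2 := hL.act (φ.1 f) a (by rw [φ.2.1, ha]) (X.pm (X.i a) k)
      rw [vv_pmi hX] at h1 h2
      rw [h1, ih, ← φ.2.2 f a ha, h2]
  refine ⟨fun φ i => lam (φ.1 f0) (Function.surjInv hs i), key, hi, fun φ ψ i => ?_⟩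
  have h1 := key φ (ψ.1 f0) (Function.surjInv hs i)
  show lam (φ.1 (ψ.1 f0)) (Function.surjInv hs i) = _
  rw [← h1]

private theorem W27_rpt (φ : AutX Y) {f g : Z} (h : Rpt Y f g) : Rpt Y (φ.1 f) (φ.1 g) := by
  obtain ⟨s, h1, h2, h3⟩ := h
  refine ⟨s, by rw [φ.2.1, h1], h2, ?_⟩
  rw [φ.2.2 f s h1, h3]

theorem aut_pt : ∃ α : AutX Y → Ptw Y → Ptw Y,
    (∀ φ f, α φ (Quot.mk _ f) = Quot.mk _ (φ.1 f)) ∧ (∀ x, α 1 x = x) ∧
      ∀ φ ψ x, α (φ * ψ) x = α φ (α ψ x) := by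
  refine ⟨fun φ => Quot.map φ.1 fun _ _ h => W27_rpt φ h, fun _ _ => rfl, ?_, ?_⟩
  · intro x
    induction x using Quot.ind with
    | mk f => rfl
  · intro φ ψ x
    induction x using Quot.ind with
    | mk f => rfl

private theorem W27_rni (π : AutX Y → ι → ι) (h1 : ∀ φ f k, π φ (lam f k) = lam (φ.1 f) k)
    (h2 : ∀ i, π 1 i = i) (h3 : ∀ φ ψ i, π (φ * ψ) i = π φ (π ψ i)) (φ : AutX Y) {i : ι}
    {f g : Z} (h : Rni Y lam i f g) : Rni Y lam (π φ i) (φ.1 f) (φ.1 g) := by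
  obtain ⟨a, ha, hg, hm⟩ := h
  refine ⟨a, by rw [φ.2.1, ha], by rw [φ.2.2 f a ha, hg], fun h hn => hm h ?_⟩
  rw [← h1] at hn
  have h4 := congrArg (π φ⁻¹) hn
  rwa [← h3, ← h3, inv_mul_cancel, h2, h2] at h4

theorem aut_vt (π : AutX Y → ι → ι) (h1 : ∀ φ f k, π φ (lam f k) = lam (φ.1 f) k)
    (h2 : ∀ i, π 1 i = i) (h3 : ∀ φ ψ i, π (φ * ψ) i = π φ (π ψ i)) :
    ∃ β : AutX Y → (Σ i, Vt Y lam i) → (Σ i, Vt Y lam i),
      (∀ φ i f, β φ ⟨i, cls Y lam i f⟩ = ⟨π φ i, cls Y lam (π φ i) (φ.1 f)⟩) ∧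
      (∀ u, β 1 u = u) ∧ ∀ φ ψ u, β (φ * ψ) u = β φ (β ψ u) := by
  have hc : ∀ (i j : ι) (f : Z), i = j →
      (⟨i, cls Y lam i f⟩ : Σ i, Vt Y lam i) = ⟨j, cls Y lam j f⟩ := by
    rintro i _ f rfl
    rfl
  refine ⟨fun φ u => ⟨π φ u.1, Quot.map φ.1 (fun _ _ h => W27_rni π h1 h2 h3 φ h) u.2⟩,
    fun _ _ _ => rfl, ?_, ?_⟩
  · rintro ⟨i, u⟩
    induction u using Quot.ind with
    | mk f => exact hc _ _ f (h2 i)
  · rintro φ ψ ⟨i, u⟩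
    induction u using Quot.ind with
    | mk f => exact hc _ _ _ (h3 φ ψ i)

end VTB
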