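import Pool.Agent.Lib.MP_32d917_al_vt.W25
import Pool.Agent.Lib.MP_32d917_al_vt.W26
import Pool.Agent.Lib.MP_32d917_al_vt.W27

/-!
# W28: the group of automorphisms acts with quotient X (60 min)

`Span` gives `p0`; `uniq_ex hX.v0 p0`, `lam_ex`; every object is `Y.p f` for some `f`: strong induction on `r q`: `δ q` starts at an object of smaller rank and ends at `q` (`act_p`). `G = AutX Y`, with the actions of `aut_lab` on `ι`, `aut_pt` on `Pt = Ptw Y`, `aut_vt` on `V' = Σ i, Vt Y lam i`, and `φ • f = φ.1 f` on the frames (`let` instances, as in `lf_cov` of F/FAUT.lean). `Γ' = Γ`, `κ = fautK`, `S' = fautS (Tr Y lam)`,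
`co' = sgc (cow Y lam)`, `N' = Nw Y lam N`. `VPre`: `ms`: `sg_ms`, `ms_nomed`, `med_ex`; `kapS`: definition of `fautS`; `act`: `kap`: definition; `adj`: an edge of `Tr i` is given by `f`, `a` (definition of `Tr`), its image by `φ f`, `a` (`trw_adj` at `φ f`; label `lam (φ f) (ty a) = π φ (lam f (ty a))`). `gam`: `i = lam f0 k`, `j = lam f0 l`, `hL.gam` at `f0` and at `φ f0`.
`gco`: `x = Quot.mk _ f`: `cow_mk`, `aut_vt`. `gn`: `x = Quot.mk _ f`, `i = lam f k`: `nw_mk` at `f` and `φ f`. `VCov`: `gp`, `gact`: definition of `AutX`; `gpt`: `aut_pt`; `glam`: `aut_lab`; `free`, `trans`: `aut_free`, `aut_trans`; `onto`. `VLab`: `vlab_of`, transported by `sg_vf`.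
-/

set_option autoImplicit false

namespace VTB

open LatIso LatN LatF

variable {ι P A : Type} {Γ : SimpleGraph ι} {N : P → ι → Prop} {X : FD ι P A}

theorem vcov_ex (hX : VV Γ N X) (hs : ∃ p0 δ r, LatF.Span X p0 δ r) :
    ∃ (G : Type) (_ : Group G), HasVCov G Γ N X := by
  classical
  obtain ⟨p0, δ, r, hsp⟩ := hs
  have h0 := hX.v0
  obtain ⟨Z, Y, f0, hf0, hU⟩ := uniq_ex h0 p0
  obtain ⟨lam, hL, -⟩ := lam_ex h0 hU f0
  have hon : ∀ (n : ℕ) (q : P), r q = n → ∃ f : Z, Y.p f = q := by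
    intro n
    induction n using Nat.strong_induction_on with
    | _ n ih =>
      intro q hq
      by_cases h : q = p0
      · exact ⟨f0, hf0.trans h.symm⟩
      · obtain ⟨h1, h2⟩ := hsp q h
        obtain ⟨f, hf⟩ := ih _ (hq ▸ h2) _ rfl
        exact ⟨Y.act f (δ q), (Y.act_p f (δ q) hf.symm).trans h1⟩
  obtain ⟨π, π1, π2, π3⟩ := aut_lab h0 hU hL f0
  obtain ⟨α, α1, α2, α3⟩ := aut_pt (Y := Y)
  obtain ⟨β, β1, β2, β3⟩ := aut_vt (lam := lam) π π1 π2 π3
  let actI : MulAction (AutX Y) ι :=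
    { smul := fun φ i => π φ i
      one_smul := π2
      mul_smul := π3 }
  let actP : MulAction (AutX Y) (Ptw Y) :=
    { smul := fun φ x => α φ x
      one_smul := α2
      mul_smul := α3 }
  let actV : MulAction (AutX Y) (Σ i, Vt Y lam i) :=
    { smul := fun φ u => β φ u
      one_smul := β2
      mul_smul := β3 }
  let actF : MulAction (AutX Y) Z :=
    { smul := fun φ f => φ.1 f
      one_smul := fun f => rfl
      mul_smul := fun φ ψ f => rfl }
  have hms : MS1 Γ (Tr Y lam) (cow Y lam) (Nw Y lam N) :=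
    ms_nomed h0 hU hL ⟨f0⟩ (med_ex h0 hU hL)
  obtain ⟨L, l1, l2, l3, l4, hV⟩ := vlab_of h0 hU hL
  obtain ⟨L', m1, m2, m3, m4⟩ := sg_vf L
  refine ⟨AutX Y, inferInstance, Ptw Y, (Σ i, Vt Y lam i), ι, actP, actV, actI, Γ,
    fautK (Vt Y lam), fautS (Tr Y lam), sgc (cow Y lam), Nw Y lam N, ?_, hX, Z, actF, L', ?_, ?_⟩
  · refine ⟨sg_ms hms, ?_, ⟨?_, ?_⟩, ?_, ?_, ?_⟩
    · rintro u w ⟨i, x, y, rfl, rfl, h⟩
      rfl
    · rintro φ ⟨i, u⟩
      induction u using Quot.ind with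
      | _ f =>
        show (β φ ⟨i, cls Y lam i f⟩).1 = π φ i
        rw [β1]
    · rintro φ u w ⟨i, x, y, rfl, rfl, h⟩
      show (fautS (Tr Y lam)).Adj (β φ ⟨i, x⟩) (β φ ⟨i, y⟩)
      have key : ∀ f a, X.o a = Y.p f → X.mv a → lam f (X.ty a) = i →
          (fautS (Tr Y lam)).Adj (β φ ⟨i, cls Y lam i f⟩) (β φ ⟨i, cls Y lam i (Y.act f a)⟩) := by
        intro f a ha hm hi
        rw [β1, β1, ← φ.2.2 f a ha]
        have h1 := trw_adj h0 hU hL (f := φ.1 f) (ha.trans (φ.2.1 f).symm) hm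
        rw [← π1 φ f, hi] at h1
        exact (fautS_adj _ _ _).2 h1
      unfold Tr at h
      rw [SimpleGraph.fromRel_adj] at h
      obtain ⟨-, ⟨f, a, ha, hm, hi, rfl, rfl⟩ | ⟨f, a, ha, hm, hi, rfl, rfl⟩⟩ := h
      · exact key f a ha hm hi
      · exact (key f a ha hm hi).symm
    · intro φ i j
      obtain ⟨k, rfl⟩ := (hL.bij f0).2 i
      obtain ⟨l, rfl⟩ := (hL.bij f0).2 j
      show Γ.Adj (π φ (lam f0 k)) (π φ (lam f0 l)) ↔ _
      rw [π1, π1, hL.gam, hL.gam]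
    · intro φ x i
      induction x using Quot.ind with
      | _ f =>
        show (⟨π φ i, cow Y lam (α φ (Quot.mk _ f)) (π φ i)⟩ : Σ i, Vt Y lam i) =
          β φ ⟨i, cow Y lam (Quot.mk _ f) i⟩
        rw [α1, cow_mk, cow_mk, β1]
    · intro φ x i
      induction x using Quot.ind with
      | _ f =>
        obtain ⟨k, rfl⟩ := (hL.bij f).2 i
        show Nw Y lam N (α φ (Quot.mk _ f)) (π φ (lam f k)) ↔ _
        rw [α1, π1, nw_mk h0 hU hL, nw_mk h0 hU hL, φ.2.1]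
  · refine ⟨fun f i j => ?_, fun f i => ?_⟩
    · rw [m2, m2]
      exact hV.gam f i j
    · rw [m1, m2, m3]
      exact hV.nn f i
  · refine ⟨fun φ f => ?_, fun φ f a ha => ?_, fun φ f => ?_, fun φ f k => ?_, fun φ f h => ?_,
      fun f f' h => ?_, fun q => ?_⟩
    · rw [m3, m3, l3, l3]
      exact φ.2.1 f
    · rw [m3, l3] at ha
      rw [m4, m4, l4, l4]
      exact φ.2.2 f a ha
    · rw [m1, m1, l1, l1]
      exact (α1 φ f).symm
    · rw [m2, m2, l2, l2]
      exact (π1 φ f k).symm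
    · exact aut_free hU φ f h
    · rw [m3, m3, l3, l3] at h
      exact aut_trans h0 hU f f' h
    · obtain ⟨f, hf⟩ := hon _ q rfl
      exact ⟨f, by rw [m3, l3]; exact hf⟩

end VTB
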