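import Pool.Agent.Lib.MP_32d917_al_vt.F33
import Pool.Agent.Lib.MP_32d917_al_vt.F05
import Pool.Agent.Lib.MP_32d917_al_vt.W28
import Pool.Agent.Lib.MP_32d917_al.F.CPRES
import Pool.Agent.Lib.MP_32d917_al.PRES2
import Pool.Agent.Lib.MP_32d917_al.N.NCert

/-!
# F36: codes of groups are r.e.

`hasVCov_tr`: the group `G` acts on everything through `e : G ≃* G'` (`MulAction.compHom`); all fields of `VPre`, `VCov`, `VLab` are inherited (see `hasCov_transport` in F/FTR1, F/FTR2). `hasVCov_iff`: (->) `hasVCov_gam` (F05). (<-) `vcov_ex` (W28) gives a group `K` with `HasVCov K Γ N X`, `K ≃* Gam X p0 δ` (`hasVCov_gam`), transport.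
`vcodeFor_iff`, `vcodeFor_re`: exactly as `codeFor_iff`, `codeFor_re` in F/Cert.lean with `cgam_pres` (F/CPRES.lean), `cspan_p`, `dig_surj`, `list_rank`, `iso_re`, and `cvgood_re` (F33).
-/

set_option autoImplicit false

namespace VTB

open LatIso LatN LatF

section

variable {ι P A : Type} {X : FD ι P A} {Γ : SimpleGraph ι} {N : P → ι → Prop}

theorem hasVCov_tr {G G' : Type} [Group G] [Group G'] (e : G ≃* G') (h : HasVCov G' Γ N X) :
    HasVCov G Γ N X := by
  obtain ⟨Pt, V, ι', aP, aV, aι, Γ', κ, S, co, N', hP, hV, F, aF, L, hl, hC⟩ := h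
  let bP : MulAction G Pt := MulAction.compHom Pt e.toMonoidHom
  let bV : MulAction G V := MulAction.compHom V e.toMonoidHom
  let bι : MulAction G ι' := MulAction.compHom ι' e.toMonoidHom
  let bF : MulAction G F := MulAction.compHom F e.toMonoidHom
  refine ⟨Pt, V, ι', bP, bV, bι, Γ', κ, S, co, N', ?_, hV, F, bF, L, hl, ?_⟩
  · exact
      { ms := hP.ms
        kapS := hP.kapS
        act :=
          { kap := fun g v => hP.act.kap (e g) v
            adj := fun g x y hxy => hP.act.adj (e g) x y hxy }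
        gam := fun g i j => hP.gam (e g) i j
        gco := fun g x i => hP.gco (e g) x i
        gn := fun g x i => hP.gn (e g) x i }
  · exact
      { gp := fun g f => hC.gp (e g) f
        gact := fun g f a ha => hC.gact (e g) f a ha
        gpt := fun g f => hC.gpt (e g) f
        glam := fun g f k => hC.glam (e g) f k
        free := fun g f hf => by
          have := hC.free (e g) f hf
          exact e.map_eq_one_iff.mp this
        trans := fun f f' hff => by
          obtain ⟨g, hg⟩ := hC.trans f f' hff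
          refine ⟨e.symm g, ?_⟩
          change e (e.symm g) • f = f'
          rw [e.apply_symm_apply]
          exact hg
        onto := hC.onto }

theorem hasVCov_iff {G : Type} [Group G] [Finite ι] (hX : VV Γ N X) {p0 : P} {δ : P → A}
    {r : P → ℕ} (hs : LatF.Span X p0 δ r) : HasVCov G Γ N X ↔ Nonempty (G ≃* Gam X p0 δ) := by
  constructor
  · exact fun h => hasVCov_gam h hs
  · rintro ⟨e⟩
    obtain ⟨K, _, hK⟩ := vcov_ex hX ⟨p0, δ, r, hs⟩
    obtain ⟨e'⟩ := hasVCov_gam hK hs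
    exact hasVCov_tr (e.trans e'.symm) hK

end

theorem vcodeFor_iff (P : Pres) (x : VCode) (f : LatF.Code × ℕ × ℕ → Pres)
    (hf : ∀ (x : LatF.Code) (p d : ℕ), Nonempty ((f (x, p, d)).Grp ≃*
      Gam (LatF.dec x) (fm x.1.2.1 p) (fun q => dig x.1.2.2 d q))) :
    VCodeFor P x ↔ VGood (cG x) (cN x) (LatF.dec x.1) ∧ ∃ y : ℕ × ℕ × List ℕ,
      LatF.Span (LatF.dec x.1) (fm x.1.1.2.1 y.1) (fun q => dig x.1.1.2.2 y.2.1 q)
        (fun q => y.2.2.getD q 0) ∧
      Nonempty (P.Grp ≃* (f (x.1, y.1, y.2.1)).Grp) := by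
  constructor
  · rintro ⟨hg, hc⟩
    refine ⟨hg, ?_⟩
    obtain ⟨p0, δ, r, hs⟩ := hg.span
    obtain ⟨d, hd⟩ := dig_surj x.1.1.2.2 x.1.1.2.1 δ
    obtain ⟨l, hl⟩ := list_rank r
    have hp := fm_surj x.1.1.2.1 p0
    rw [← hp, ← hd, ← hl] at hs
    obtain ⟨e⟩ := (hasVCov_iff hg.valid hs).1 hc
    obtain ⟨e'⟩ := hf x.1 p0 d
    exact ⟨((p0 : ℕ), d, l), hs, ⟨e.trans e'.symm⟩⟩
  · rintro ⟨hg, ⟨p, d, l⟩, hs, ⟨e⟩⟩
    obtain ⟨e'⟩ := hf x.1 p d
    exact ⟨hg, (hasVCov_iff hg.valid hs).2 ⟨e.trans e'⟩⟩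

theorem vcodeFor_re : REPred fun x : Pres × VCode => VCodeFor x.1 x.2 := by
  obtain ⟨f, hf, hf'⟩ := cgam_pres
  have hc : Primrec fun x : (Pres × VCode) × (ℕ × ℕ × List ℕ) => x.1.2.1 :=
    Primrec.fst.comp (Primrec.snd.comp Primrec.fst)
  have h1 : REPred (fun x : (Pres × VCode) × (ℕ × ℕ × List ℕ) =>
      Span (LatF.dec x.1.2.1) (fm x.1.2.1.1.2.1 x.2.1) (fun q => dig x.1.2.1.1.2.2 x.2.2.1 q)
        (fun q => x.2.2.2.getD q 0)) := by
    refine re_of_prim ?_
    exact cspan_p.comp (f := fun x : (Pres × VCode) × (ℕ × ℕ × List ℕ) =>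
      (x.1.2.1, x.2.1, x.2.2.1, x.2.2.2)) (by
        exact Primrec.pair hc (Primrec.pair
          (Primrec.fst.comp Primrec.snd) (Primrec.pair (Primrec.fst.comp (Primrec.snd.comp
          Primrec.snd)) (Primrec.snd.comp (Primrec.snd.comp Primrec.snd)))))
  have h2 : REPred (fun x : (Pres × VCode) × (ℕ × ℕ × List ℕ) =>
      Nonempty (x.1.1.Grp ≃* (f (x.1.2.1, x.2.1, x.2.2.1)).Grp)) := by
    refine re_comp iso_re (f := fun x : (Pres × VCode) × (ℕ × ℕ × List ℕ) =>
      (x.1.1, f (x.1.2.1, x.2.1, x.2.2.1))) ?_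
    refine Primrec.to_comp ?_
    exact Primrec.pair (Primrec.fst.comp Primrec.fst) (hf.comp (Primrec.pair hc
      (Primrec.pair (Primrec.fst.comp Primrec.snd)
      (Primrec.fst.comp (Primrec.snd.comp Primrec.snd)))))
  have h3 : REPred (fun x : Pres × VCode => VGood (cG x.2) (cN x.2) (LatF.dec x.2.1)) :=
    re_comp cvgood_re (f := fun x : Pres × VCode => x.2) Primrec.snd.to_comp
  have h4 := re_and h3 (re_exists (p := fun (x : Pres × VCode) (y : ℕ × ℕ × List ℕ) =>
    Span (LatF.dec x.2.1) (fm x.2.1.1.2.1 y.1) (fun q => dig x.2.1.1.2.2 y.2.1 q)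
      (fun q => y.2.2.getD q 0) ∧
      Nonempty (x.1.Grp ≃* (f (x.2.1, y.1, y.2.1)).Grp)) (re_and h1 h2))
  refine h4.of_eq ?_
  intro x
  exact (vcodeFor_iff x.1 x.2 f hf').symm

end VTB
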