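import Pool.Agent.Lib.MP_32d917_al_vt.F34
import Pool.Agent.Lib.MP_32d917_al_vt.F35
import Pool.Agent.Lib.MP_32d917_al_vt.F36

/-!
# F37: certificates of non-isomorphism are r.e.

As `noCert_re` in F/Cert.lean (`mem_code_p` for lists of `VCode`).
-/

set_option autoImplicit false

namespace VTB

open LatIso LatN LatF

/-- certificate of non-isomorphism -/
def VNoCert (P Q : Pres) : Prop :=
  ∃ z : VCode × VCode × List VCode, VCodeFor P z.1 ∧ VCodeFor Q z.2.1 ∧ VClosed z.2.2 ∧
    z.1 ∈ z.2.2 ∧ ∀ t ∈ z.2.2, ¬ UIso (LatF.dec t.1) (LatF.dec z.2.1.1)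

private theorem F37_mem : PrimrecPred (fun x : VCode × List VCode => x.1 ∈ x.2) := by
  have h1 : PrimrecRel (fun (t : VCode) (x : VCode) => t = x) := Primrec.eq
  refine PrimrecPred.of_eq (h1.exists_mem_list.comp Primrec.snd Primrec.fst) ?_
  intro x
  simp

theorem vnoCert_re : REPred fun x : Pres × Pres => VNoCert x.1 x.2 := by
  have hP : Primrec (fun x : (Pres × Pres) × (VCode × VCode × List VCode) => (x.1.1, x.2.1)) :=
    Primrec.pair (Primrec.fst.comp Primrec.fst) (Primrec.fst.comp Primrec.snd)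
  have hQ : Primrec (fun x : (Pres × Pres) × (VCode × VCode × List VCode) =>
      (x.1.2, x.2.2.1)) :=
    Primrec.pair (Primrec.snd.comp Primrec.fst) (Primrec.fst.comp (Primrec.snd.comp Primrec.snd))
  have hl : Primrec (fun x : (Pres × Pres) × (VCode × VCode × List VCode) => x.2.2.2) :=
    Primrec.snd.comp (Primrec.snd.comp Primrec.snd)
  have hz : Primrec (fun x : (Pres × Pres) × (VCode × VCode × List VCode) => x.2.1) :=
    Primrec.fst.comp Primrec.snd
  have h1 := re_comp vcodeFor_re hP.to_comp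
  have h2 := re_comp vcodeFor_re hQ.to_comp
  have h3 : REPred (fun x : (Pres × Pres) × (VCode × VCode × List VCode) => VClosed x.2.2.2) :=
    re_comp cvclosed_re hl.to_comp
  have h4 : PrimrecPred (fun x : (Pres × Pres) × (VCode × VCode × List VCode) =>
      x.2.1 ∈ x.2.2.2) := F37_mem.comp (Primrec.pair hz hl)
  have h5 : REPred (fun x : (Pres × Pres) × (VCode × VCode × List VCode) =>
      ∀ t ∈ x.2.2.2, ¬ UIso (LatF.dec t.1) (LatF.dec x.2.2.1.1)) := by
    refine re_forall_mem hl ?_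
    refine re_comp cnuiso_re
      (f := fun x : ((Pres × Pres) × (VCode × VCode × List VCode)) × VCode =>
      (x.2.1, x.1.2.2.1.1)) ?_
    exact (Primrec.pair (Primrec.fst.comp Primrec.snd) (Primrec.fst.comp (Primrec.fst.comp
      (Primrec.snd.comp (Primrec.snd.comp Primrec.fst))))).to_comp
  have h := re_exists (p := fun (x : Pres × Pres) (z : VCode × VCode × List VCode) =>
    VCodeFor x.1 z.1 ∧ VCodeFor x.2 z.2.1 ∧ VClosed z.2.2 ∧ z.1 ∈ z.2.2 ∧
      ∀ t ∈ z.2.2, ¬ UIso (LatF.dec t.1) (LatF.dec z.2.1.1))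
    (re_and h1 (re_and h2 (re_and h3 (re_and (re_of_prim h4) h5))))
  exact h

end VTB
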