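import Pool.Agent.Lib.MP_32d917_al_vt.M05

/-!
# M06: a labelled median graph is a structure

`q_ms1`: fields: `tree` `q_tree`; `ne` from `conn`; `inj` `q_eq`, `cnt_zero`; `onto` `Quot.exists_rep`; `conn`: a walk of `X`, every edge is a step (`q_vst`); `med`: the median of `X`, `q_bt`; `sq`: `q_vst`, `M.sq`, `M.par` (the labels of the other two edges of a square; `w ≠ x` because the labels `i`, `j` are different);
`occ`, `nocc`, `ntr`: `q_vst`. `q_pan`: `Ag {i} x y ↔ Pan i x y`: (->) `ag_geod` (A02), `q_vst`; (<-) every edge of label `i` changes only the coordinate `i`. `q_ms`: `loc`: `q_vst`, subset of the neighbours; `out`, `inf`: `q_pan`.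
-/

set_option autoImplicit false

namespace VTB

open LatIso LatN LatF RaagIso

section

variable {ι P : Type} [Fintype ι] {Γ : SimpleGraph ι} {X : SimpleGraph P} {lab : P → P → ι}
  {N : P → ι → Prop} {ℓ : ι → P → P → ℕ}

theorem q_ms1 (M : LMG Γ X lab N) (C : Cnt X lab ℓ) : MS1 Γ (qS X lab ℓ) (qco ℓ) N := by
  refine ⟨fun i => q_tree M C i, M.conn.nonempty, fun x y h => cnt_zero M C
    (fun i => (q_eq M C).1 (h i)), fun i v => Quot.exists_rep v, fun x y => ?_, fun x y z => ?_,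
    fun x y z i j hij hy hz => ?_, fun x i => ?_, M.nocc, fun x y i k h hk => ?_⟩
  · have h := (SimpleGraph.reachable_iff_reflTransGen x y).1 (M.conn.preconnected x y)
    refine Relation.ReflTransGen.mono ?_ _ _ h
    intro a b hab
    exact ⟨lab a b, (q_vst M C).2 ⟨hab, rfl⟩⟩
  · obtain ⟨m, ⟨h1, h2, h3⟩, _⟩ := M.med x y z
    exact ⟨m, fun i => ⟨q_bt M C h1, q_bt M C h2, q_bt M C h3⟩⟩
  · obtain ⟨hy1, hy2⟩ := (q_vst M C).1 hy
    obtain ⟨hz1, hz2⟩ := (q_vst M C).1 hz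
    have hyz : y ≠ z := by
      rintro rfl
      exact hij (hy2.symm.trans hz2)
    constructor
    · rintro ⟨w, hw1, hw2⟩
      obtain ⟨a1, a2⟩ := (q_vst M C).1 hw1
      obtain ⟨a3, a4⟩ := (q_vst M C).1 hw2
      have hwx : w ≠ x := by
        rintro rfl
        rw [M.symm w y hy1, hy2] at a2
        exact hij a2
      have h := (M.sq x y z hy1 hz1 hyz).1 ⟨w, hwx, a1, a3⟩
      rw [hy2, hz2] at h
      exact h
    · intro h
      rw [← hy2, ← hz2] at h
      obtain ⟨w, hwx, a1, a3⟩ := (M.sq x y z hy1 hz1 hyz).2 h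
      refine ⟨w, (q_vst M C).2 ⟨a1, ?_⟩, (q_vst M C).2 ⟨a3, ?_⟩⟩
      · rw [M.par x z y w hz1 hy1 a3 a1 hyz.symm hwx.symm, hz2]
      · rw [M.par x y z w hy1 hz1 a1 a3 hyz hwx.symm, hy2]
  · rw [← M.occ x i]
    constructor
    · rintro ⟨y, hy⟩
      exact ⟨y, (q_vst M C).1 hy⟩
    · rintro ⟨y, hy⟩
      exact ⟨y, (q_vst M C).2 hy⟩
  · obtain ⟨h1, h2⟩ := (q_vst M C).1 h
    exact M.ntr x y k h1 (by rw [h2]; exact hk)

theorem q_pan (M : LMG Γ X lab N) (C : Cnt X lab ℓ) {i : ι} {x y : P} :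
    Ag (qco ℓ) {i} x y ↔ Pan X lab i x y := by
  constructor
  · intro h
    refine Relation.ReflTransGen.mono ?_ _ _ (ag_geod (q_ms1 M C) h)
    rintro a b ⟨_, _, j, hj, hs, _⟩
    have hj2 : j = i := hj
    subst hj2
    exact (q_vst M C).1 hs
  · intro h
    unfold Pan at h
    induction h with
    | refl => exact fun _ _ => rfl
    | @tail a b _ hab ih =>
      have h1 := (q_vst M C).2 hab
      intro j hj
      rw [h1.2 j (fun e => hj e)]
      exact ih j hj

theorem q_ms (M : LMG Γ X lab N) (C : Cnt X lab ℓ) (loc : ∀ x, (X.neighborSet x).Finite)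
    (cen : ∀ x i, CL Γ i → N x i)
    (out : ∀ x i, ¬ CL Γ i → N x i → ∃ y, Pan X lab i x y ∧ ¬ N y i)
    (inf : ∀ x i, Oc Γ N x i → {y | Pan X lab i x y}.Infinite) :
    MS Γ (qS X lab ℓ) (qco ℓ) N := by
  refine ⟨q_ms1 M C, fun x i => ?_, cen, fun x i hc h => ?_, fun x i h => ?_⟩
  · refine (loc x).subset ?_
    intro y hy
    exact ((q_vst M C).1 hy).1
  · obtain ⟨y, h1, h2⟩ := out x i hc h
    exact ⟨y, (q_pan M C).2 h1, h2⟩
  · exact (inf x i h).mono (fun y hy => (q_pan M C).2 hy)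

end

end VTB
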