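import Pool.Agent.Lib.MP_32d917_al_vt.M02
import Pool.Agent.Lib.MP_32d917_al_vt.M06
import Pool.Agent.Lib.MP_32d917_al_vt.D16
import Pool.Agent.Lib.MP_32d917_al_vt.D18

/-!
# M07: from actions on labelled median graphs to VLat

`mg_cnt`: `ℓ (g • i) (g • x) (g • y) = ℓ i x y`: induction on `dist x y` with `Cnt`, `adj`, `glab` (distances are preserved by `g`).
`mlat_lat0`: `V := Σ i, VQ ℓ i`, `κ := Sigma.fst`, `S` the graph on the sigma type with `Adj u v` iff there are `i`, `a`, `b` with `u = ⟨i, a⟩`, `v = ⟨i, b⟩`, `(qS X lab ℓ i).Adj a b`; `G` acts on `V` by `g • ⟨i, [x]⟩ = ⟨g • i, [g • x]⟩` (`Quot.map`, `mg_cnt`); `co x i := ⟨⟨i, qco ℓ x i⟩, rfl⟩`.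
The family `comp κ S` is the family `qS` transported by the bijections `VQ ℓ i ≃ Fib κ i` (`ms_tr`, D16). `kapS`, `act`, `gam`, `gco`, `gn`, `prop`, `fin` are clear.
`mlat_lat`: `mlat_lat0` and `sbd_lat` (D18).
-/

set_option autoImplicit false

namespace VTB

open LatIso LatN LatF RaagIso

section

variable {G : Type} [Group G] {ι P : Type} [Fintype ι] [MulAction G P] [MulAction G ι]
  {Γ : SimpleGraph ι} {X : SimpleGraph P} {lab : P → P → ι} {N : P → ι → Prop}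

private theorem M07_adj (L : MLat G Γ X lab N) (g : G) (x y : P) :
    X.Adj (g • x) (g • y) ↔ X.Adj x y := by
  refine ⟨fun h => ?_, L.adj g x y⟩
  have h1 := L.adj g⁻¹ _ _ h
  rwa [inv_smul_smul, inv_smul_smul] at h1

private theorem M07_dist (L : MLat G Γ X lab N) (g : G) (x y : P) :
    X.dist (g • x) (g • y) = X.dist x y :=
  mtr_dist (T := X) (T' := X) ⟨MulAction.toPerm g, fun {a b} => M07_adj L g a b⟩ x y

private theorem M07_bt (L : MLat G Γ X lab N) (g : G) {x m y : P} (h : Bt X x m y) :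
    Bt X (g • x) (g • m) (g • y) := by
  unfold Bt at h ⊢
  rw [M07_dist L, M07_dist L, M07_dist L]
  exact h

theorem mg_cnt (L : MLat G Γ X lab N) {ℓ : ι → P → P → ℕ} (C : Cnt X lab ℓ) (g : G) (i : ι)
    (x y : P) : ℓ (g • i) (g • x) (g • y) = ℓ i x y := by
  have key : ∀ n : ℕ, ∀ x : P, X.dist x y = n → ℓ (g • i) (g • x) (g • y) = ℓ i x y := by
    intro n
    induction n with
    | zero =>
      intro x hx
      have h0 : x = y := L.b.conn.dist_eq_zero_iff.1 hx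
      rw [h0, C.zero, C.zero]
    | succ n ih =>
      intro x hx
      have hne : x ≠ y := by
        rintro rfl
        rw [SimpleGraph.dist_self] at hx
        omega
      obtain ⟨u, h1, h2⟩ := gr_next L.b.conn hne
      have h3 : X.dist u y = n := by
        have h4 := h2
        unfold Bt at h4
        rw [gr_adj_dist h1] at h4
        omega
      by_cases hi : lab x u = i
      · rw [C.one i x u y h1 h2 hi, C.one (g • i) (g • x) (g • u) (g • y) (L.adj g _ _ h1)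
          (M07_bt L g h2) (by rw [L.glab g _ _ h1, hi]), ih u h3]
      · rw [C.non i x u y h1 h2 hi, C.non (g • i) (g • x) (g • u) (g • y) (L.adj g _ _ h1)
          (M07_bt L g h2) (by
            rw [L.glab g _ _ h1]
            exact fun h => hi (MulAction.injective g h)), ih u h3]
  exact key _ x rfl

/-- the class of `x` over `i` -/
private def M07_mk (ℓ : ι → P → P → ℕ) (i : ι) (x : P) : Σ i, VQ ℓ i := ⟨i, Quot.mk _ x⟩

/-- the action on the classes -/
@[reducible] private def M07_act (ℓ : ι → P → P → ℕ)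
    (h : ∀ (g : G) i x y, ℓ (g • i) (g • x) (g • y) = ℓ i x y) :
    MulAction G (Σ i, VQ ℓ i) where
  smul g v := ⟨g • v.1, Quot.map (fun x => g • x) (fun a b hab => by
    show ℓ (g • v.1) (g • a) (g • b) = 0
    rw [h]
    exact hab) v.2⟩
  one_smul := by
    rintro ⟨i, q⟩
    induction q using Quot.ind with
    | mk x =>
      show M07_mk ℓ ((1 : G) • i) ((1 : G) • x) = M07_mk ℓ i x
      rw [one_smul, one_smul]
  mul_smul := by
    rintro a b ⟨i, q⟩
    induction q using Quot.ind with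
    | mk x =>
      show M07_mk ℓ ((a * b) • i) ((a * b) • x) = M07_mk ℓ (a • b • i) (a • b • x)
      rw [mul_smul, mul_smul]

/-- the graph on the classes -/
private def M07_S (X : SimpleGraph P) (lab : P → P → ι) (ℓ : ι → P → P → ℕ) :
    SimpleGraph (Σ i, VQ ℓ i) where
  Adj u v := ∃ (i : ι) (a b : VQ ℓ i), u = ⟨i, a⟩ ∧ v = ⟨i, b⟩ ∧ (qS X lab ℓ i).Adj a b
  symm := by
    constructor
    rintro u v ⟨i, a, b, h1, h2, h3⟩
    exact ⟨i, b, a, h2, h1, h3.symm⟩
  loopless := by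
    constructor
    rintro u ⟨i, a, b, h1, h2, h3⟩
    rw [h1] at h2
    have h4 : a = b := eq_of_heq (Sigma.mk.inj h2).2
    exact h3.ne h4

/-- the fibres -/
private def M07_q (ℓ : ι → P → P → ℕ) (i : ι) :
    VQ ℓ i ≃ Fib (fun v : Σ i, VQ ℓ i => v.1) i where
  toFun a := ⟨⟨i, a⟩, rfl⟩
  invFun v := cast (congrArg (VQ ℓ) v.2) v.1.2
  left_inv _ := rfl
  right_inv := by
    rintro ⟨⟨j, a⟩, rfl⟩
    rfl

/-- the trees of the central labels are leafless -/
theorem mg_leaf (L : MLat G Γ X lab N) {ℓ : ι → P → P → ℕ} (C : Cnt X lab ℓ) (i : ι)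
    (hi : CL Γ i) : Leafless (qS X lab ℓ i) := by
  have key : ∀ x y z, X.Adj x y → X.Adj x z → lab x y = i → lab x z = i → y ≠ z →
      qco ℓ y i ≠ qco ℓ z i := by
    intro x y z h1 h2 h3 h4 h5 h6
    apply h5
    apply cnt_zero L.b C
    intro j
    by_cases hj : j = i
    · rw [hj]
      exact (q_eq L.b C).1 h6
    · have e1 := (cnt_adj L.b C h1).2 j (by rw [h3]; exact hj)
      have e2 := (cnt_adj L.b C h2).2 j (by rw [h4]; exact hj)
      have e3 := cnt_tri L.b C j y x z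
      rw [cnt_symm L.b C j y x, e1, e2] at e3
      omega
  have hadj : ∀ x y, X.Adj x y → lab x y = i → (qS X lab ℓ i).Adj (qco ℓ x i) (qco ℓ y i) := by
    intro x y h1 h2
    apply (q_adj L.b C).2
    rw [← h2]
    exact (cnt_adj L.b C h1).1
  constructor
  · intro v
    obtain ⟨x, rfl⟩ := Quot.exists_rep v
    obtain ⟨y, z, h1, h2, h3, h4, h5⟩ := L.two x i hi
    exact ⟨qco ℓ y i, qco ℓ z i, key x y z h2 h3 h4 h5 h1, hadj x y h2 h4, hadj x z h3 h5⟩
  · obtain ⟨x, y, z, w, h1, h2, h3, h4, h5, h6, h7, h8, h9⟩ := L.three i hi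
    exact ⟨qco ℓ x i, qco ℓ y i, qco ℓ z i, qco ℓ w i, key x y z h4 h5 h7 h8 h1,
      key x z w h5 h6 h8 h9 h2, key x y w h4 h6 h7 h9 h3, hadj x y h4 h7, hadj x z h5 h8,
      hadj x w h6 h9⟩

theorem mlat_lat0 (L : MLat G Γ X lab N) :
    ∃ (V : Type) (_ : MulAction G V) (κ : V → ι) (S : SimpleGraph V) (co : P → ∀ i, Fib κ i),
      VLat0 G Γ κ S co N ∧ CLeaf Γ (comp κ S) := by
  obtain ⟨ℓ, C⟩ := cnt_exists L.b
  have hS : ∀ (i : ι) (a b : VQ ℓ i), (comp (fun v : Σ i, VQ ℓ i => v.1) (M07_S X lab ℓ) i).Adj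
      (M07_q ℓ i a) (M07_q ℓ i b) ↔ (qS X lab ℓ i).Adj a b := by
    intro i a b
    constructor
    · rintro ⟨j, a', b', h1, h2, h3⟩
      have h4 : (⟨i, a⟩ : Σ i, VQ ℓ i) = ⟨j, a'⟩ := h1
      have h5 : (⟨i, b⟩ : Σ i, VQ ℓ i) = ⟨j, b'⟩ := h2
      obtain ⟨rfl, h6⟩ := Sigma.mk.inj h4
      rw [eq_of_heq h6, eq_of_heq (Sigma.mk.inj h5).2]
      exact h3
    · intro h
      exact ⟨i, a, b, rfl, rfl, h⟩
  have hM : MS Γ (comp (fun v : Σ i, VQ ℓ i => v.1) (M07_S X lab ℓ))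
      (fun x i => M07_q ℓ i (qco ℓ x i)) N := by
    exact ms_tr (q_ms L.b C L.loc L.cen L.out L.inf) (Equiv.refl P) (M07_q ℓ) hS (fun _ _ => rfl)
      (fun _ _ => Iff.rfl)
  letI : MulAction G (Σ i, VQ ℓ i) := M07_act ℓ (fun g i x y => mg_cnt L C g i x y)
  refine ⟨Σ i, VQ ℓ i, M07_act ℓ (fun g i x y => mg_cnt L C g i x y), fun v => v.1, M07_S X lab ℓ,
    fun x i => M07_q ℓ i (qco ℓ x i), ?_, fun i hi =>
      leafless_tr ⟨M07_q ℓ i, fun {a b} => hS i a b⟩ (mg_leaf L C i hi)⟩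
  refine ⟨⟨hM.b, ?_, ⟨fun _ _ => rfl, ?_⟩, L.gam, fun _ _ _ => rfl, L.gn⟩, hM, L.gg, L.prop,
    L.fin⟩
  · rintro x y ⟨i, a, b, rfl, rfl, -⟩
    rfl
  · rintro g x y ⟨i, a, b, rfl, rfl, h⟩
    refine ⟨g • i, _, _, rfl, rfl, ?_⟩
    obtain ⟨x, rfl⟩ := Quot.exists_rep a
    obtain ⟨y, rfl⟩ := Quot.exists_rep b
    have h1 : ℓ i x y = 1 := (q_adj L.b C).1 h
    exact (q_adj L.b C (i := g • i) (x := g • x) (y := g • y)).2 (by rw [mg_cnt L C, h1])

/-- actions on labelled median graphs give structures without inversions -/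
theorem mlat_lat (L : MLat G Γ X lab N) :
    ∃ (Pt' V' : Type) (_ : MulAction G Pt') (_ : MulAction G V') (κ' : V' → ι)
      (S' : SimpleGraph V') (co' : Pt' → ∀ i, Fib κ' i) (N' : Pt' → ι → Prop),
      VLat G Γ κ' S' co' N' ∧ CLeaf Γ (comp κ' S') := by
  obtain ⟨V, _, κ, S, co, h, hC⟩ := mlat_lat0 L
  exact sbd_lat h hC

end

end VTB
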