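import Pool.Agent.Lib.MP_32d917_al_vt.MDefs

/-!
# M08: labels by numbers
-/

set_option autoImplicit false

namespace VTB

open LatIso LatN LatF RaagIso

section

variable {ι κ P : Type} {Γ : SimpleGraph ι} {X : SimpleGraph P} {lab : P → P → ι}
  {N : P → ι → Prop}

private theorem M08_st (e : ι ≃ κ) (i j : κ) :
    j ∈ st (Γ.comap e.symm) i ↔ e.symm j ∈ st Γ (e.symm i) := by
  constructor
  · rintro (h | h)
    · exact Or.inl (congrArg e.symm h)
    · exact Or.inr h
  · rintro (h | h)
    · exact Or.inl (e.symm.injective h)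
    · exact Or.inr h

private theorem M08_oc (e : ι ≃ κ) (x : P) (j : κ) :
    Oc (Γ.comap e.symm) (fun x j => N x (e.symm j)) x j ↔ Oc Γ N x (e.symm j) := by
  constructor
  · intro h v hv
    have h1 := h (e v) (by
      show N x (e.symm (e v))
      rw [e.symm_apply_apply]
      exact hv)
    rw [M08_st, e.symm_apply_apply] at h1
    exact h1
  · intro h v hv
    rw [M08_st]
    exact h _ hv

private theorem M08_lab (e : ι ≃ κ) (i : ι) (j : κ) : e i = j ↔ i = e.symm j :=
  ⟨fun h => by rw [← h, e.symm_apply_apply], fun h => by rw [h, e.apply_symm_apply]⟩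

private theorem M08_pan (e : ι ≃ κ) (x y : P) (j : κ) :
    Pan X (fun a b => e (lab a b)) j x y ↔ Pan X lab (e.symm j) x y := by
  unfold Pan
  have h : (fun a b => X.Adj a b ∧ e (lab a b) = j) =
      (fun a b => X.Adj a b ∧ lab a b = e.symm j) := by
    funext a b
    rw [M08_lab]
  rw [h]

private theorem M08_cl (e : ι ≃ κ) (j : κ) : CL (Γ.comap e.symm) j ↔ CL Γ (e.symm j) := by
  constructor
  · intro h i
    have h1 := h (e i)
    rw [M08_st, e.symm_apply_apply] at h1
    exact h1
  · intro h i
    rw [M08_st]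
    exact h _

private theorem M08_gg (e : ι ≃ κ) (h : GG Γ) : GG (Γ.comap e.symm) where
  dom := by
    intro v w hvw hw
    rw [M08_cl] at hw
    obtain ⟨u, hu, hu'⟩ := h.dom (e.symm v) (e.symm w) (fun hh => hvw (e.symm.injective hh)) hw
    refine ⟨e u, ?_, ?_⟩
    · show Γ.Adj (e.symm v) (e.symm (e u))
      rw [e.symm_apply_apply]
      exact hu
    · rw [M08_st, e.symm_apply_apply]
      exact hu'
  sep := by
    intro v K hK a b ha hav hbv
    rw [M08_st] at hav hbv
    have h1 := h.sep (e.symm v) {i | e i ∈ K} (by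
      intro a b ha hav hbv hab
      refine hK (e a) (e b) ha ?_ ?_ ?_
      · rw [M08_st, e.symm_apply_apply]; exact hav
      · rw [M08_st, e.symm_apply_apply]; exact hbv
      · show Γ.Adj (e.symm (e a)) (e.symm (e b))
        rw [e.symm_apply_apply, e.symm_apply_apply]
        exact hab) (e.symm a) (e.symm b) (by
        show e (e.symm a) ∈ K
        rw [e.apply_symm_apply]
        exact ha) hav hbv
    have h2 : e (e.symm b) ∈ K := h1
    rw [e.apply_symm_apply] at h2
    exact h2
  ne := h.ne.map e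

private theorem M08_lmg (e : ι ≃ κ) (L : LMG Γ X lab N) :
    LMG (Γ.comap e.symm) X (fun x y => e (lab x y)) (fun x j => N x (e.symm j)) where
  conn := L.conn
  med := L.med
  symm x y h := congrArg e (L.symm x y h)
  par x y z w h1 h2 h3 h4 h5 h6 := congrArg e (L.par x y z w h1 h2 h3 h4 h5 h6)
  sq x y z h1 h2 h3 := by
    rw [L.sq x y z h1 h2 h3]
    show Γ.Adj (lab x y) (lab x z) ↔ Γ.Adj (e.symm (e (lab x y))) (e.symm (e (lab x z)))
    rw [e.symm_apply_apply, e.symm_apply_apply]
  occ x i := by
    rw [M08_oc, ← L.occ]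
    constructor
    · rintro ⟨y, h1, h2⟩
      exact ⟨y, h1, (M08_lab e _ _).1 h2⟩
    · rintro ⟨y, h1, h2⟩
      exact ⟨y, h1, (M08_lab e _ _).2 h2⟩
  nocc x i h := by
    rw [M08_oc]
    exact L.nocc x _ h
  ntr x y k h1 h2 := L.ntr x y (e.symm k) h1 (fun hh => h2 (by
    rw [← hh, e.apply_symm_apply]))

end

theorem mlat_number {G : Type} [Group G] {ι P : Type} [Finite ι] [MulAction G P] [MulAction G ι]
    {Γ : SimpleGraph ι} {X : SimpleGraph P} {lab : P → P → ι} {N : P → ι → Prop}
    (L : MLat G Γ X lab N) :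
    ∃ (n : ℕ) (_ : MulAction G (Fin (n + 1))) (Γ' : SimpleGraph (Fin (n + 1)))
      (lab' : P → P → Fin (n + 1)) (N' : P → Fin (n + 1) → Prop), MLat G Γ' X lab' N' := by
  obtain ⟨m, ⟨e0⟩⟩ := Finite.exists_equiv_fin ι
  obtain ⟨n, rfl⟩ : ∃ n, m = n + 1 := by
    obtain ⟨a⟩ := L.gg.ne
    have h1 := (e0 a).pos
    exact ⟨m - 1, by omega⟩
  let A : MulAction G (Fin (n + 1)) :=
    { smul := fun g j => e0 (g • e0.symm j)
      one_smul := by
        intro j
        show e0 ((1 : G) • e0.symm j) = j
        rw [one_smul, e0.apply_symm_apply]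
      mul_smul := by
        intro g h j
        show e0 ((g * h) • e0.symm j) = e0 (g • e0.symm (e0 (h • e0.symm j)))
        rw [e0.symm_apply_apply, mul_smul] }
  have hA : ∀ (g : G) (j : Fin (n + 1)), e0.symm (A.smul g j) = g • e0.symm j := by
    intro g j
    show e0.symm (e0 (g • e0.symm j)) = g • e0.symm j
    rw [e0.symm_apply_apply]
  refine ⟨n, A, Γ.comap e0.symm, fun x y => e0 (lab x y), fun x j => N x (e0.symm j), ?_⟩
  exact
    { b := M08_lmg e0 L.b
      gg := M08_gg e0 L.gg
      adj := L.adj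
      glab := by
        intro g x y h
        show e0 (lab (g • x) (g • y)) = e0 (g • e0.symm (e0 (lab x y)))
        rw [e0.symm_apply_apply, L.glab g x y h]
      gam := by
        intro g i j
        show Γ.Adj (e0.symm (A.smul g i)) (e0.symm (A.smul g j)) ↔ Γ.Adj (e0.symm i) (e0.symm j)
        rw [hA, hA]
        exact L.gam g _ _
      gn := by
        intro g x i
        show N (g • x) (e0.symm (A.smul g i)) ↔ N x (e0.symm i)
        rw [hA]
        exact L.gn g x _
      loc := L.loc
      cen := by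
        intro x i h
        exact L.cen x (e0.symm i) ((M08_cl e0 i).1 h)
      out := by
        intro x i hc h
        rw [M08_cl] at hc
        obtain ⟨y, h1, h2⟩ := L.out x (e0.symm i) hc h
        exact ⟨y, (M08_pan e0 x y i).2 h1, h2⟩
      two := by
        intro x i h
        obtain ⟨y, z, h1, h2, h3, h4, h5⟩ := L.two x (e0.symm i) ((M08_cl e0 i).1 h)
        exact ⟨y, z, h1, h2, h3, (M08_lab e0 _ _).2 h4, (M08_lab e0 _ _).2 h5⟩
      three := by
        intro i h
        obtain ⟨x, y, z, w, h1, h2, h3, h4, h5, h6, h7, h8, h9⟩ :=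
          L.three (e0.symm i) ((M08_cl e0 i).1 h)
        exact ⟨x, y, z, w, h1, h2, h3, h4, h5, h6, (M08_lab e0 _ _).2 h7,
          (M08_lab e0 _ _).2 h8, (M08_lab e0 _ _).2 h9⟩
      inf := by
        intro x i h
        have h1 := L.inf x (e0.symm i) ((M08_oc e0 x i).1 h)
        have h2 : {y | Pan X (fun a b => e0 (lab a b)) i x y} =
            {y | Pan X lab (e0.symm i) x y} := by
          ext y
          exact M08_pan e0 x y i
        rw [h2]
        exact h1
      prop := L.prop
      fin := L.fin }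

end VTB
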