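import Pool.Agent.Lib.MP_32d917_al.RE
import Pool.Agent.Lib.MP_32d917_al.Final
import Pool.Agent.Lib.MP_32d917_al_vt.E10
import Pool.Agent.Lib.MP_32d917_al_vt.E14B
import Pool.Agent.Lib.MP_32d917_al_vt.F11
import Pool.Agent.Lib.MP_32d917_al_vt.F12
import Pool.Agent.Lib.MP_32d917_al_vt.F14
import Pool.Agent.Lib.MP_32d917_al_vt.F15
import Pool.Agent.Lib.MP_32d917_al_vt.F19
import Pool.Agent.Lib.MP_32d917_al_vt.F20
import Pool.Agent.Lib.MP_32d917_al_vt.F21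
import Pool.Agent.Lib.MP_32d917_al_vt.F37
import Pool.Agent.Lib.MP_32d917_al_vt.D08
import Pool.Agent.Lib.MP_32d917_al_vt.M07
import Pool.Agent.Lib.MP_32d917_al_vt.M08

/-!
# F38: certificates of non-isomorphism are sound and complete; the final theorem
-/

set_option autoImplicit false

namespace VTB

open LatIso LatN LatF

/-- the class of groups -/
def IsMed (G : Type) [Group G] : Prop :=
  ∃ (ι P : Type) (_ : Finite ι) (_ : MulAction G P) (_ : MulAction G ι) (Γ : SimpleGraph ι)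
    (X : SimpleGraph P) (lab : P → P → ι) (N : P → ι → Prop), MLat G Γ X lab N

/-- structures of all groups of the class -/
theorem med_vlat {G : Type} [Group G] (h : IsMed G) :
    ∃ (n : ℕ) (Pt V : Type) (_ : MulAction G Pt) (_ : MulAction G V)
      (_ : MulAction G (Fin (n + 1))) (Γ : SimpleGraph (Fin (n + 1))) (κ : V → Fin (n + 1))
      (S : SimpleGraph V) (co : Pt → ∀ i, Fib κ i) (N : Pt → Fin (n + 1) → Prop),
      VLat G Γ κ S co N ∧ VRed G κ S co N ∧ CLeaf Γ (comp κ S) := by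
  obtain ⟨ι, P, _, _, _, Γ, X, lab, N, L⟩ := h
  obtain ⟨n, _, Γ', lab', N', L'⟩ := mlat_number L
  obtain ⟨Pt, V, _, _, κ, S, co, N'', L2, hC⟩ := mlat_lat L'
  obtain ⟨Pt₁, V₁, _, _, κ₁, S₁, co₁, N₁, L3, hr, hC₁⟩ := vred_exists L2 hC
  exact ⟨n, Pt₁, V₁, _, _, _, Γ', κ₁, S₁, co₁, N₁, L3, hr, hC₁⟩

/-- chains of slides preserve structures -/
theorem vlat_chain {G : Type} [Group G] {Pt V ι' : Type} [Fintype ι'] [MulAction G Pt]
    [MulAction G V] [MulAction G ι'] {κ : V → ι'} {S S' : SimpleGraph V}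
    {co : Pt → ∀ i, Fib κ i} {Γ' : SimpleGraph ι'} {N' : Pt → ι' → Prop}
    (L : VLat G Γ' κ S co N') (hs : Relation.ReflTransGen (VSl G κ co) S S') :
    VLat G Γ' κ S' co N' := by
  induction hs with
  | refl => exact L
  | tail _ h ih => exact vsl_vlat ih h

theorem vnoCert_sound (P Q : Pres) (h : VNoCert P Q) : ¬ Nonempty (P.Grp ≃* Q.Grp) := by
  rintro ⟨e⟩
  obtain ⟨⟨x, y, l⟩, ⟨gx, cx⟩, ⟨gy, cy⟩, hl, hx, hno⟩ := h
  simp only at gx cx gy cy hl hx hno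
  have cy' : HasVCov P.Grp (cG y) (cN y) (LatF.dec y.1) := hasVCov_transport e cy
  obtain ⟨Pt, V, ι', _, _, _, Γ', κ, S, co, N', cX⟩ := cx
  obtain ⟨Pt₂, V₂, ι₂, _, _, _, Γ₂, κ₂, S₂, co₂, N₂, cY⟩ := cy'
  have := vf_finι cX
  have := Fintype.ofFinite ι'
  have := vf_finι cY
  have := Fintype.ofFinite ι₂
  obtain ⟨L, rS, hC⟩ := v_lat_of_good cX gx
  obtain ⟨L', rS', hC'⟩ := v_lat_of_good cY gy
  obtain ⟨S₁, Ψ, h1, h2, h3⟩ := vrig L hC rS L' hC' rS'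
  obtain ⟨t, ht, hc⟩ := v_closed_chain hl (fun _ _ L h => vsl_vlat L h) L h1 ⟨x, hx, cX⟩
  exact hno t ht (v_uiso hc cY Ψ h2 h3)

/-- every group in the class has a code -/
theorem vcodeFor_exists (P : Pres) (hP : IsMed P.Grp) :
    ∃ (x : VCode) (Pt V : Type) (_ : MulAction P.Grp Pt) (_ : MulAction P.Grp V)
      (_ : MulAction P.Grp (Fin (x.1.1.1 + 1))) (Γ' : SimpleGraph (Fin (x.1.1.1 + 1)))
      (κ : V → Fin (x.1.1.1 + 1)) (S : SimpleGraph V) (co : Pt → ∀ i, Fib κ i)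
      (N' : Pt → Fin (x.1.1.1 + 1) → Prop), VBox x ∧ VCodeFor P x ∧
      VLat P.Grp Γ' κ S co N' ∧ IsVCov P.Grp Γ' κ S co N' (cG x) (cN x) (LatF.dec x.1) := by
  obtain ⟨n, Pt, V, _, _, _, Γ', κ, S, co, N', L, hr, hC⟩ := med_vlat hP
  obtain ⟨nP, nA, N₀, X, hX⟩ := v_quot L
  obtain ⟨w, g, m, h1, h2, h3, h4⟩ := vdec_surj (n, nP, nA) X Γ' N₀
  have hc : IsVCov P.Grp Γ' κ S co N' (cG (((n, nP, nA), w), g, m)) (cN (((n, nP, nA), w), g, m))
      (LatF.dec ((n, nP, nA), w)) := by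
    rw [h2, h3, h4]
    exact hX
  exact ⟨(((n, nP, nA), w), g, m), Pt, V, _, _, _, Γ', κ, S, co, N', h1,
    ⟨v_good_of_lat L hC hr hc, Pt, V, _, _, _, _, Γ', κ, S, co, N', hc⟩, L, hc⟩

theorem vnoCert_complete (P Q : Pres) (hP : IsMed P.Grp) (hQ : IsMed Q.Grp)
    (h : ¬ Nonempty (P.Grp ≃* Q.Grp)) : VNoCert P Q := by
  classical
  obtain ⟨x, Pt, V, _, _, _, Γ', κ, S, co, N', bx, cx, L, hx⟩ := vcodeFor_exists P hP
  obtain ⟨y, _, _, _, _, _, _, _, _, _, _, _, cy, _, _⟩ := vcodeFor_exists Q hQ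
  obtain ⟨B, hB⟩ := v_cov_bound (nP := x.1.1.2.1) (ι := Fin (x.1.1.1 + 1))
    (fun _ _ L h => vsl_vlat L h) L
  -- the set of all reachable codes
  let Z : Set VCode := {z | VBox z ∧ z.1.1.2.2 ≤ B ∧ ∃ (w m : ℕ) (S₁ : SimpleGraph V),
    z = (((x.1.1.1, x.1.1.2.1, m), w), x.2) ∧ Relation.ReflTransGen (VSl P.Grp κ co) S S₁ ∧
      IsVCov P.Grp Γ' κ S₁ co N' (cG x) (cN x) (LatF.dec ((x.1.1.1, x.1.1.2.1, m), w))}
  have hZ : Z.Finite := by
    have h1 : Z ⊆ ⋃ m ∈ Set.Iic B, (fun w : ℕ =>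
        ((((x.1.1.1, x.1.1.2.1, m), w), x.2) : VCode)) ''
        (Set.Iio (bse (x.1.1.1, x.1.1.2.1, m) ^ (9 * bse (x.1.1.1, x.1.1.2.1, m) ^ 4))) := by
      rintro z ⟨hb, hn, w, m, S₁, rfl, _, _⟩
      simp only [Set.mem_iUnion, Set.mem_image, Set.mem_Iio, Set.mem_Iic]
      exact ⟨m, hn, w, hb.1, rfl⟩
    refine Set.Finite.subset ?_ h1
    refine Set.Finite.biUnion (Set.finite_Iic B) ?_
    intro m _
    exact (Set.finite_Iio _).image _
  refine ⟨(x, y, hZ.toFinset.toList), cx, cy, ?_, ?_, ?_⟩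
  · intro z hz a b hab
    simp only [Finset.mem_toList, Set.Finite.mem_toFinset] at hz ⊢
    obtain ⟨hb, hn, w, m, S₁, rfl, hs, hc⟩ := hz
    have L1 : VLat P.Grp Γ' κ S₁ co N' := vlat_chain L hs
    obtain ⟨hpre, hv, F, _, Λ, hl, hΛ⟩ := hc
    obtain ⟨S₂, h1, h2⟩ := v_slide_of_legal hv hpre hΛ hab
    have L2 : VLat P.Grp Γ' κ S₂ co N' := vsl_vlat L1 h1
    let R : VFrm P.Grp (Fin (x.1.1.1 + 1)) (Fin (x.1.1.2.1 + 1)) F (cG x) (cN x) Γ' N' :=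
      { pt := Λ.pt
        lam := Λ.lam
        p := Λ.p
        bij := Λ.bij
        onto := Λ.onto
        gp := hΛ.gp
        gpt := hΛ.gpt
        glam := hΛ.glam
        free := hΛ.free
        trans := hΛ.trans
        ponto := hΛ.onto
        same := by
          intro f f' hff
          obtain ⟨s, hs1, hs2⟩ := Λ.sur f f' (Or.inl hff.symm)
          have hst : ¬ (LatF.dec ((x.1.1.1, x.1.1.2.1, m), w)).mv s := by
            intro hm
            have h3 := (Λ.mo f s hs1 hm).1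
            rw [hs2, hff] at h3
            exact (SimpleGraph.irrefl _ h3)
          rw [← hs2, Λ.act_p f s hs1, hv.loop s hst, hs1]
        gam := hl.gam
        nn := hl.nn }
    obtain ⟨m', Y, Λ', hY, hl', hΛ', e1, e2, e3⟩ := v_fqc L2.pre L2.ms.loc L2.prop R
    obtain ⟨w', hw', hd⟩ := LatF.dec_surj (x.1.1.1, x.1.1.2.1, m') Y
    obtain ⟨φ₁, φ₂, hr⟩ := v_res_of_cov hv hY hpre L2.pre L2.noinv hΛ hab h2 hΛ' e1 e2 e3
    have hcY : IsVCov P.Grp Γ' κ S₂ co N' (cG x) (cN x) Y := ⟨L2.pre, hY, F, _, Λ', hl', hΛ'⟩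
    refine ⟨m', w', ⟨⟨hw', bx.2.1, bx.2.2⟩, hB S₂ (hs.tail h1) m' _ Y hcY, w', m', S₂, rfl,
      hs.tail h1, ?_⟩, φ₁, φ₂, ?_⟩
    · rw [hd]
      exact hcY
    · show VRes (cG x) (cN x) (LatF.dec ((x.1.1.1, x.1.1.2.1, m), w))
        (LatF.dec ((x.1.1.1, x.1.1.2.1, m'), w')) a b φ₁ φ₂
      rw [hd]
      exact hr
  · simp only [Finset.mem_toList, Set.Finite.mem_toFinset]
    exact ⟨bx, hB S .refl x.1.1.2.2 _ _ hx, x.1.2, x.1.1.2.2, S, rfl, .refl, hx⟩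
  · intro z hz hiso
    simp only [Finset.mem_toList, Set.Finite.mem_toFinset] at hz
    obtain ⟨hb, hn, w, m, S₁, rfl, hs, hc⟩ := hz
    have h1 : HasVCov P.Grp (cG x) (cN x) (LatF.dec ((x.1.1.1, x.1.1.2.1, m), w)) :=
      ⟨Pt, V, _, _, _, _, Γ', κ, S₁, co, N', hc⟩
    obtain ⟨e⟩ := v_unique cy.2 h1 cy.1.span (uiso_symm hiso)
    exact h ⟨e.symm⟩

/-- The isomorphism problem is solvable for the groups of the class. -/
theorem vfinal : ∃ f : Pres × Pres →. Bool, Partrec f ∧ ∀ P Q : Pres,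
    IsMed P.Grp → IsMed Q.Grp →
      ∃ b ∈ f (P, Q), (b = true ↔ Nonempty (P.Grp ≃* Q.Grp)) := by
  obtain ⟨f, hf, h1, h2, h3⟩ := LatN.par_search iso_re vnoCert_re
  refine ⟨f, hf, fun P Q hP hQ => ?_⟩
  have g2 : true ∈ f (P, Q) → Nonempty (P.Grp ≃* Q.Grp) := fun h => h2 (P, Q) h
  have g3 : false ∈ f (P, Q) → VNoCert P Q := fun h => h3 (P, Q) h
  have hd : (f (P, Q)).Dom := by
    apply h1
    by_cases h : Nonempty (P.Grp ≃* Q.Grp)
    · exact Or.inl h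
    · exact Or.inr (vnoCert_complete P Q hP hQ h)
  refine ⟨(f (P, Q)).get hd, Part.get_mem hd, ?_⟩
  have hm := Part.get_mem hd
  rcases hb : (f (P, Q)).get hd with _ | _
  · rw [hb] at hm
    have h4 := vnoCert_sound P Q (g3 hm)
    exact ⟨fun h => by simp at h, fun h => absurd h h4⟩
  · rw [hb] at hm
    exact ⟨fun _ => g2 hm, fun _ => rfl⟩

end VTB
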