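import Pool.Agent.Lib.MP_32d917_al_vt.F19
import Pool.Agent.Lib.MP_32d917_al_vt.F20
import Pool.Agent.Lib.MP_32d917_al_vt.W28

/-!
# I00: the data of the Salvetti complex

One object, the arrows are the unit `none` and `some (i, b)` (the generator `i` or its inverse), no internal labels, no holonomy. `sal_vv`: all axioms by cases (`ml s a = a` and the only stationary arrow is `none`; `X.mr a s = a`; a square is `some (i, s), some (j, t), some (j, t), some (i, s)` with `Γ.Adj i j`).
`sal_good` (no central labels): `span`: there is only one object; `orient`: `s (some (i, b)) = b`; `cen`, `out`, `two`, `three`, `red`: vacuous; `inf`: the path of `n` arrows `some (k, true)`: `X.eqv a b` implies `a = b`. `sal_gam`: both groups are given by generators and relations: `PresentedGroup.toGroup` in both directions: `none ↦ 1`, `some (i, true) ↦ gen i`, `some (i, false) ↦ (gen i)⁻¹`, and `gen i ↦ some (i, true)`.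
-/

set_option autoImplicit false

namespace VTB

open LatIso LatN LatF RaagIso

/-- the data of the Salvetti complex -/
def sal {ι : Type} (Γ : SimpleGraph ι) (i0 : ι) : FD ι Unit (Option (ι × Bool)) where
  o _ := ()
  t _ := ()
  e _ := none
  i a := a.map (fun p => (p.1, !p.2))
  mv a := a ≠ none
  ty a := (a.map Prod.fst).getD i0
  pm _ k := k
  ml _ a := a
  sq a b c d := ∃ i j s t, Γ.Adj i j ∧ a = some (i, s) ∧ b = some (j, t) ∧ c = some (j, t) ∧
    d = some (i, s)

variable {ι : Type} {Γ : SimpleGraph ι} {i0 : ι}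

private theorem I00_mv (p : ι × Bool) : (sal Γ i0).mv (some p) := Option.some_ne_none p

private theorem I00_nm {s : Option (ι × Bool)} (h : ¬ (sal Γ i0).mv s) : s = none := by
  cases s with
  | none => rfl
  | some p => exact absurd (I00_mv p) h

private theorem I00_ii (a : Option (ι × Bool)) : (sal Γ i0).i ((sal Γ i0).i a) = a := by
  rcases a with _ | ⟨i, b⟩
  · rfl
  · show some (i, !!b) = some (i, b)
    rw [Bool.not_not]

private theorem I00_mr (a s : Option (ι × Bool)) : (sal Γ i0).mr a s = a := I00_ii a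

private theorem I00_sq {a b c d : Option (ι × Bool)} (h : (sal Γ i0).sq a b c d) :
    ∃ i j s t, Γ.Adj i j ∧ a = some (i, s) ∧ b = some (j, t) ∧ c = some (j, t) ∧
      d = some (i, s) := h

theorem sal_vv : VV Γ (fun _ _ => False) (sal Γ i0) := by
  refine ⟨?_, fun _ _ => rfl⟩
  exact
    { oe := fun _ => rfl
      te := fun _ => rfl
      me := fun _ h => h rfl
      pe := fun _ _ => rfl
      oi := fun _ => rfl
      ti := fun _ => rfl
      ii := I00_ii
      mi := by
        intro a
        rcases a with _ | p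
        · exact Iff.rfl
        · exact ⟨fun _ => I00_mv p, fun _ => I00_mv _⟩
      tyi := by
        intro a _
        rcases a with _ | p
        · rfl
        · rfl
      pi := fun _ _ => rfl
      mlo := fun _ _ _ => rfl
      mlt := fun _ _ _ => rfl
      mlm := fun _ _ _ => Iff.rfl
      mly := fun _ _ _ _ => rfl
      mlp := fun _ _ _ _ => rfl
      mle := fun _ => rfl
      mla := fun _ _ _ _ _ => rfl
      mli := by
        intro s hs
        rw [I00_nm hs]
        rfl
      mlr := fun _ _ _ _ _ => rfl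
      mrs := by
        intro s s' hs hs'
        rw [I00_mr, I00_nm hs, I00_nm hs'.1]
        rfl
      mlf := by
        intro s a hs _
        exact I00_nm hs.1
      sqT := by
        intro a b c d h
        obtain ⟨i, j, s, t, hij, rfl, rfl, rfl, rfl⟩ := I00_sq h
        exact ⟨I00_mv _, I00_mv _, I00_mv _, I00_mv _, rfl, rfl, rfl, rfl, hij.ne, rfl, rfl⟩
      sqp := fun _ _ _ _ _ _ => rfl
      sqs := by
        intro a b c d h
        obtain ⟨i, j, s, t, hij, rfl, rfl, rfl, rfl⟩ := I00_sq h
        exact ⟨j, i, t, s, hij.symm, rfl, rfl, rfl, rfl⟩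
      sqr := by
        intro a b c d h
        obtain ⟨i, j, s, t, hij, rfl, rfl, rfl, rfl⟩ := I00_sq h
        exact ⟨i, j, !s, t, hij, rfl, rfl, rfl, rfl⟩
      sql := fun _ _ _ _ _ h _ => h
      sqm := by
        intro a b c d s h _
        rw [I00_mr]
        exact h
      sqe := by
        intro a b ha hb _ hij
        rcases a with _ | ⟨i, s⟩
        · exact absurd rfl ha
        rcases b with _ | ⟨j, t⟩
        · exact absurd rfl hb
        have hij' : Γ.Adj j i := hij
        exact ⟨some (j, t), some (i, s), i, j, s, t, hij'.symm, rfl, rfl, rfl, rfl⟩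
      sqg := by
        intro a b c d h
        obtain ⟨i, j, s, t, hij, rfl, rfl, rfl, rfl⟩ := I00_sq h
        exact hij
      squ := by
        intro a b c d c' d' h h'
        obtain ⟨i, j, s, t, hij, rfl, rfl, rfl, rfl⟩ := I00_sq h
        obtain ⟨i', j', s', t', _, e1, e2, rfl, rfl⟩ := I00_sq h'
        refine ⟨none, ⟨fun hh => hh rfl, rfl⟩, ?_, ?_⟩
        · rw [I00_mr, ← e2]
        · rw [← e1]
          rfl
      cube := by
        intro a b b₁ a₁ c c₁ a₂ c' c₁' a₃ b' h1 h2 h3 h4
        obtain ⟨i, j, s, t, hij, rfl, rfl, rfl, rfl⟩ := I00_sq h1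
        obtain ⟨i2, k, s2, u, hik, e1, rfl, rfl, rfl⟩ := I00_sq h2
        obtain ⟨i3, k3, s3, u3, hik3, e2, rfl, rfl, rfl⟩ := I00_sq h3
        obtain ⟨j4, k4, t4, u4, hjk, e3, e4, e5, rfl⟩ := I00_sq h4
        rw [← e1, ← e2, ← e3, e4]
        rw [e5]
        have e6 := Option.some.inj e3
        have e7 : j = j4 := congrArg Prod.fst e6
        exact ⟨some (j, t), ⟨j, k4, t, u4, by rw [e7]; exact hjk, rfl, rfl, rfl, rfl⟩,
          ⟨i, j, s, t, hij, rfl, rfl, rfl, rfl⟩⟩
      pmg := fun _ _ _ => Iff.rfl
      occ := fun _ i => ⟨fun _ _ hv => hv.elim, fun _ => ⟨some (i, true), rfl, I00_mv _, rfl⟩⟩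
      nocc := fun _ _ h => h.elim
      ntr := fun _ _ _ => Iff.rfl }

private theorem I00_path (k : ι) (q : Unit) (n : ℕ) :
    PPath (sal Γ i0) q k (List.replicate n (some (k, true))) := by
  induction n with
  | zero => trivial
  | succ n ih =>
    refine ⟨⟨rfl, I00_mv _, rfl⟩, ih, ?_⟩
    intro b hb
    have hb' : b = some (k, true) := by
      cases n with
      | zero => cases hb
      | succ n =>
        have h1 : some (some (k, true)) = some b := hb
        exact (Option.some.inj h1).symm
    rw [hb']
    rintro ⟨s, _, h2⟩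
    rw [I00_mr] at h2
    have h3 : (k, true) = (k, !true) := Option.some.inj h2
    have h4 : true = false := congrArg Prod.snd h3
    cases h4

/-- graphs with at least two vertices and without domination have no central labels -/
theorem nodom_cl (hd : NoDom Γ) (h2 : ∃ a b : ι, a ≠ b) (k : ι) : ¬ CL Γ k := by
  intro hk
  obtain ⟨v, hv⟩ : ∃ v, v ≠ k := by
    obtain ⟨a, b, hab⟩ := h2
    by_cases h : a = k
    · exact ⟨b, fun h' => hab (h.trans h'.symm)⟩
    · exact ⟨a, h⟩
  obtain ⟨u, -, hu⟩ := hd v k hv
  exact hu (hk u)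

theorem sal_good [Finite ι] (hG : GG Γ) (hc : ∀ k, ¬ CL Γ k) :
    VGood Γ (fun _ _ => False) (sal Γ i0) := by
  refine ⟨sal_vv, hG, ⟨(), fun _ => none, fun _ => 0, fun q hq => absurd rfl hq⟩, ?_,
    fun _ k h => absurd h (hc k), fun _ _ _ h => h.elim, fun _ k h => absurd h (hc k),
    fun _ k h => absurd h (hc k), ?_, fun _ _ h => h.elim⟩
  · refine ⟨fun a => (a.map Prod.snd).getD true, ?_, fun _ _ _ => rfl, ?_⟩
    · intro a ha
      rcases a with _ | ⟨i, b⟩
      · exact absurd rfl ha
      · rfl
    · intro a b c d h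
      obtain ⟨i, j, s, t, _, rfl, rfl, rfl, rfl⟩ := I00_sq h
      rfl
  · intro q k _
    refine ⟨List.replicate (Nat.card (Option (ι × Bool)) + 1) (some (k, true)), I00_path k q _, ?_⟩
    rw [List.length_replicate]
    exact Nat.lt_succ_self _

private theorem I00_rel {r : FreeGroup (Option (ι × Bool))}
    (h : Rel (sal Γ i0) () (fun _ => none) r) :
    PresentedGroup.mk {r | Rel (sal Γ i0) () (fun _ => none) r} r = 1 :=
  PresentedGroup.one_of_mem h

private theorem I00_comm {i j : ι} (h : Γ.Adj i j) : Commute (gen i : RA Γ) (gen j) := by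
  have h1 : PresentedGroup.mk (rels Γ) (FreeGroup.of i * FreeGroup.of j * (FreeGroup.of i)⁻¹ *
      (FreeGroup.of j)⁻¹) = 1 := PresentedGroup.one_of_mem ⟨i, j, h, rfl⟩
  rw [map_mul, map_mul, map_mul, map_inv, map_inv] at h1
  have h2 : (gen i : RA Γ) * gen j * (gen i)⁻¹ * (gen j)⁻¹ = 1 := h1
  rw [mul_inv_eq_one, mul_inv_eq_iff_eq_mul] at h2
  exact h2

private theorem I00_gl (i j : ι) (s t : Bool) (h : Γ.Adj i j) :
    (gl (i, s) : RA Γ) * gl (j, t) * (gl (i, s))⁻¹ * (gl (j, t))⁻¹ = 1 := by
  have h1 : Commute (gl (i, s) : RA Γ) (gl (j, t)) := by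
    have h0 := I00_comm h
    cases s <;> cases t
    · exact h0.inv_inv
    · exact h0.inv_left
    · exact h0.inv_right
    · exact h0
  rw [h1.eq, mul_inv_cancel_right, mul_inv_cancel]

theorem sal_gam : Nonempty (RA Γ ≃* Gam (sal Γ i0) () (fun _ => none)) := by
  have hφ : ∀ r ∈ rels Γ, FreeGroup.lift (fun i : ι =>
      (PresentedGroup.of (some (i, true)) : Gam (sal Γ i0) () (fun _ => none))) r = 1 := by
    rintro r ⟨v, w, hvw, rfl⟩
    have h1 := I00_rel (Rel.base _ (Rel0.sq (X := sal Γ i0) (some (v, true)) (some (w, true))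
      (some (w, true)) (some (v, true)) ⟨v, w, true, true, hvw, rfl, rfl, rfl, rfl⟩))
    rw [map_mul, map_mul, map_mul, map_inv, map_inv] at h1
    rw [map_mul, map_mul, map_mul, map_inv, map_inv, FreeGroup.lift_apply_of,
      FreeGroup.lift_apply_of]
    exact h1
  obtain ⟨f, hf⟩ : ∃ f : Option (ι × Bool) → RA Γ, f = fun a => (a.map gl).getD 1 := ⟨_, rfl⟩
  have f0 : f none = 1 := by rw [hf]; rfl
  have f1 : ∀ p, f (some p) = gl p := by intro p; rw [hf]; rfl
  have hψ : ∀ r ∈ {r | Rel (sal Γ i0) () (fun _ => none) r}, FreeGroup.lift f r = 1 := by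
    rintro r (⟨r, h⟩ | ⟨q, h⟩)
    · cases h with
      | one p =>
        rw [FreeGroup.lift_apply_of]
        exact f0
      | inv a =>
        rw [map_mul, FreeGroup.lift_apply_of, FreeGroup.lift_apply_of]
        rcases a with _ | ⟨i, b⟩
        · show f none * f none = 1
          rw [f0, mul_one]
        · show f (some (i, b)) * f (some (i, !b)) = 1
          rw [f1, f1]
          cases b
          · exact inv_mul_cancel _
          · exact mul_inv_cancel _
      | ml s a hs =>
        rw [I00_nm hs.1, map_mul, map_mul, map_inv, FreeGroup.lift_apply_of,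
          FreeGroup.lift_apply_of, FreeGroup.lift_apply_of, f0, one_mul]
        exact mul_inv_cancel _
      | sq a b c d h =>
        obtain ⟨i, j, s, t, hij, rfl, rfl, rfl, rfl⟩ := I00_sq h
        rw [map_mul, map_mul, map_mul, map_inv, map_inv, FreeGroup.lift_apply_of,
          FreeGroup.lift_apply_of, f1, f1]
        exact I00_gl i j s t hij
    · exact absurd rfl h
  have e0 : (PresentedGroup.of none : Gam (sal Γ i0) () (fun _ => none)) = 1 :=
    I00_rel (Rel.base _ (Rel0.one (X := sal Γ i0) ()))
  have e1 : ∀ i : ι, (PresentedGroup.of (some (i, true)) : Gam (sal Γ i0) () (fun _ => none)) *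
      PresentedGroup.of (some (i, false)) = 1 := fun i =>
    I00_rel (Rel.base _ (Rel0.inv (X := sal Γ i0) (some (i, true))))
  refine ⟨MonoidHom.toMulEquiv (PresentedGroup.toGroup hφ) (PresentedGroup.toGroup hψ) ?_ ?_⟩
  · apply PresentedGroup.ext
    intro i
    rw [MonoidHom.comp_apply, PresentedGroup.toGroup.of, PresentedGroup.toGroup.of, f1]
    rfl
  · apply PresentedGroup.ext
    intro a
    rw [MonoidHom.comp_apply, PresentedGroup.toGroup.of]
    rcases a with _ | ⟨i, b⟩
    · rw [f0, map_one]
      exact e0.symm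
    · rw [f1]
      cases b
      · show PresentedGroup.toGroup hφ ((gen i : RA Γ)⁻¹) = _
        rw [map_inv]
        show (PresentedGroup.toGroup hφ (PresentedGroup.of i))⁻¹ = _
        rw [PresentedGroup.toGroup.of]
        exact inv_eq_of_mul_eq_one_right (e1 i)
      · show PresentedGroup.toGroup hφ (PresentedGroup.of i) = _
        rw [PresentedGroup.toGroup.of]
        rfl

end VTB
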