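import Pool.Agent.Lib.MP_32d917_al_vt.I00

/-!
# I01: the action of a right-angled Artin group on its cube complex

`SBase`: a group acting freely, fixing all labels, on a complex without internal labels, whose panels are lines, preserving an orientation of the edges.
`sal_base`: `vcov_ex` for the data `sal Γ i0` (`span`: one object), `hasVCov_gam`, `sal_gam` and `hasVCov_transport` give `HasVCov (RA Γ) Γ (fun _ _ => False) (sal Γ i0)`, with frames `L : VF`, `VLab`, `VCov`; `ι'` is finite (`vf_finι`), `v_lat_of_good` with `sal_good` gives `VLat` (`N'` is everywhere false by `VLab.nn`, so equal to `fun _ _ => False` by funext/propext: substitute). `Γ ≃g Γ'`: `L.lam f` for any frame `f` (`VLab.gam`).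
lab: `lam (act f a) k = lam f k` (`act_lam`, `pm = id`), so `lam` is constant (`vf_induct`), and `lam (g • f) k = g • lam f k`. free: if `g • x = x`, `pt f = x`, then `pt (g • f) = pt f`, so `g • f = act f s` with `s` stationary (`vf_stat`), i.e. `s = none`, `act f none = f` (`act_e`), so `g = 1` (`free`). line: the steps of label `lam f k` at `pt f` are those of the arrows `some (k, true)`, `some (k, false)` (`vf_movep`,
`L.mo`), different by `L.inj` and `vf_eqv` (if the points are equal the arrows are `eqv`, so equal). ori: for an edge `(v, w)` put `s v w = true` iff it is moved (`vE L f a = (v, w)`, `a` moving at `f`) by some `a = some (k, true)`. By `v_par_iff` (with `g = 1`) all arrows moving `(v, w)` are `Par`, and `Par` arrows have the same sign (induction on `Par`). Every edge is moved by some arrow (`edge_step`, `vE_ex`). `vE_rev`: `s w v = !(s v w)`.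
`vE_smul`: invariant. Last condition: the steps `x y`, `x z` are those of `some (k, true)` and `some (k, false)`.
-/

set_option autoImplicit false

namespace VTB

open LatIso LatN LatF RaagIso

/-- `N` acts freely on a complex without internal labels whose panels are lines -/
structure SBase (N : Type) [Group N] {ι Pt V : Type} [MulAction N Pt] [MulAction N V]
    [MulAction N ι] (Γ : SimpleGraph ι) (κ : V → ι) (S : SimpleGraph V)
    (co : Pt → ∀ i, Fib κ i) : Prop where
  lat : VLat N Γ κ S co (fun _ _ => False)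
  lab : ∀ (n : N) (i : ι), n • i = i
  free : ∀ (n : N) (x : Pt), n • x = x → n = 1
  line : ∀ x i, ∃ y z, y ≠ z ∧ VSt (comp κ S) co i x y ∧ VSt (comp κ S) co i x z ∧
    ∀ w, VSt (comp κ S) co i x w → w = y ∨ w = z
  ori : ∃ s : V → V → Bool, (∀ a b, S.Adj a b → s b a = !(s a b)) ∧
    (∀ (n : N) a b, S.Adj a b → s (n • a) (n • b) = s a b) ∧
    ∀ x y z i, VSt (comp κ S) co i x y → VSt (comp κ S) co i x z → y ≠ z →
      s (co x i).1 (co y i).1 ≠ s (co x i).1 (co z i).1

private theorem I01_par {ι : Type} {Γ : SimpleGraph ι} {i0 : ι} {a a' : Option (ι × Bool)}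
    (h : Par (sal Γ i0) a a') : a' = a := by
  have hii : ∀ b : Option (ι × Bool), (sal Γ i0).i ((sal Γ i0).i b) = b := by
    intro b
    cases b with
    | none => rfl
    | some p =>
      obtain ⟨k, β⟩ := p
      show some (k, !(!β)) = some (k, β)
      rw [Bool.not_not]
  induction h with
  | refl => rfl
  | ml a' s h1 h2 ih => exact ih
  | mr a' s h1 h2 ih => exact (hii a').trans ih
  | sq a' b c d h1 h2 ih =>
    obtain ⟨i, j, s, t, _, h3, _, _, h4⟩ := h2
    rw [h4, ← h3]
    exact ih

theorem sal_base {ι : Type} [Finite ι] (Γ : SimpleGraph ι) (hG : GG Γ) (hcl : ∀ k, ¬ CL Γ k) :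
    ∃ (ι' Pt V : Type) (_ : Fintype ι') (_ : MulAction (RA Γ) Pt) (_ : MulAction (RA Γ) V)
      (_ : MulAction (RA Γ) ι') (Γ' : SimpleGraph ι') (κ : V → ι') (S : SimpleGraph V)
      (co : Pt → ∀ i, Fib κ i), SBase (RA Γ) Γ' κ S co ∧ Nonempty (Γ ≃g Γ') := by
  classical
  obtain ⟨i0⟩ := hG.ne
  have hspan : LatF.Span (sal Γ i0) () (fun _ => none) (fun _ => 0) :=
    fun q hq => absurd (Subsingleton.elim _ _) hq
  obtain ⟨G, iG, hG1⟩ := vcov_ex (sal_vv (Γ := Γ) (i0 := i0)) ⟨(), _, _, hspan⟩
  obtain ⟨e⟩ := hasVCov_gam hG1 hspan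
  obtain ⟨e'⟩ := sal_gam (Γ := Γ) (i0 := i0)
  obtain ⟨Pt, V, ι', aP, aV, aι, Γ', κ, S, co, N', hc⟩ :=
    hasVCov_transport (e'.trans e.symm) hG1
  haveI : Finite ι' := vf_finι hc
  haveI : Fintype ι' := Fintype.ofFinite ι'
  have hlat := (v_lat_of_good hc (sal_good hG hcl)).1
  obtain ⟨hP, hV, F, aF, L, hl, hL⟩ := hc
  have hN : N' = fun _ _ => False := by
    funext x i
    obtain ⟨f, rfl⟩ := L.onto x
    obtain ⟨k, rfl⟩ := (L.bij f).2 i
    exact propext (hl.nn f k)
  subst hN
  have hX := hV.v0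
  have M := hP.ms
  have hoo : ∀ (a : Option (ι × Bool)) (f : F), (sal Γ i0).o a = L.p f := fun _ _ => rfl
  have hmv : ∀ p : ι × Bool, (sal Γ i0).mv (some p) := fun p => Option.some_ne_none p
  have hsome : ∀ a : Option (ι × Bool), (sal Γ i0).mv a → ∃ k β, a = some (k, β) := by
    intro a ha
    cases a with
    | none => exact absurd rfl ha
    | some p => exact ⟨p.1, p.2, rfl⟩
  obtain ⟨x0⟩ := M.ne
  obtain ⟨f0, -⟩ := L.onto x0
  have hlam : ∀ f k, L.lam f k = L.lam f0 k := by
    intro f
    refine vf_induct M L (fun f => ∀ k, L.lam f k = L.lam f0 k) f0 (fun _ => rfl) ?_ f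
    intro f a ha ih k
    exact (L.act_lam f a ha k).trans (ih k)
  -- equal edges are moved by equal arrows
  have huniq : ∀ f f' c c', (sal Γ i0).mv c → (sal Γ i0).mv c' → vE L f c = vE L f' c' →
      c' = c := by
    intro f f' c c' h1 h2 h3
    refine I01_par ((v_par_iff hP hX hL f f' c c' (hoo _ _) (hoo _ _) h1 h2).2 ⟨1, ?_, ?_⟩)
    · rw [one_smul, h3]
    · rw [one_smul, h3]
  obtain ⟨s, hs⟩ : ∃ s : V → V → Bool, ∀ a b, s a b =
    decide (∃ f k, vE L f (some (k, true)) = (a, b)) := ⟨fun a b => _, fun a b => rfl⟩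
  have hsv : ∀ f k β, s (vE L f (some (k, β))).1 (vE L f (some (k, β))).2 = β := by
    intro f k β
    rw [hs]
    cases β with
    | true => exact decide_eq_true ⟨f, k, rfl⟩
    | false =>
      refine decide_eq_false ?_
      rintro ⟨f', k', h1⟩
      have h2 := huniq f' f _ _ (hmv _) (hmv _) h1
      have h3 := Option.some.inj h2
      exact Bool.false_ne_true (congrArg Prod.snd h3)
  have hedge : ∀ a b, S.Adj a b → ∃ f k β, vE L f (some (k, β)) = (a, b) := by
    intro a b hab
    have hk := hP.kapS a b hab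
    obtain ⟨x, y, h1, h2, h3⟩ := edge_step M (i := κ a) (a := ⟨a, rfl⟩) (b := ⟨b, hk.symm⟩) hab
    obtain ⟨f, rfl⟩ := L.onto x
    obtain ⟨c, _, h5, _, _, h8⟩ := vE_ex L h1
    obtain ⟨k, β, rfl⟩ := hsome c h5
    refine ⟨f, k, β, ?_⟩
    rw [h8, h2, h3]
  refine ⟨ι', Pt, V, inferInstance, aP, aV, aι, Γ', κ, S, co, ⟨hlat, ?_, ?_, ?_, s, ?_, ?_, ?_⟩,
    ⟨⟨Equiv.ofBijective (L.lam f0) (L.bij f0), fun {a b} => hl.gam f0 a b⟩⟩⟩
  · intro n i
    obtain ⟨k, rfl⟩ := (L.bij f0).2 i
    rw [← hL.glam n f0 k]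
    exact hlam _ _
  · intro n x hx
    obtain ⟨f, rfl⟩ := L.onto x
    obtain ⟨s', _, h2, h3⟩ := vf_stat L (f := f) (f' := n • f) (by rw [hL.gpt, hx])
    have h4 : s' = none := by
      by_contra h5
      exact h2 h5
    rw [h4] at h3
    have h5 : L.act f none = f := L.act_e f
    exact hL.free n f (h3.symm.trans h5)
  · intro x i
    obtain ⟨f, rfl⟩ := L.onto x
    obtain ⟨k, rfl⟩ := (L.bij f).2 i
    refine ⟨L.pt (L.act f (some (k, true))), L.pt (L.act f (some (k, false))), ?_,
      L.mo f (some (k, true)) (hoo _ _) (hmv _), L.mo f (some (k, false)) (hoo _ _) (hmv _), ?_⟩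
    · intro h1
      obtain ⟨s', h2, h3⟩ := vf_eqv hX L (f := f) (a := some (k, false)) (b := some (k, true))
        (hoo _ _) (hoo _ _) h1
      have h4 : (some (k, true) : Option (ι × Bool)) = some (k, false) := h3
      have h5 := Option.some.inj h4
      exact Bool.false_ne_true (congrArg Prod.snd h5).symm
    · intro w hw
      obtain ⟨c, _, h2, h3, h4⟩ := vf_movep L hw
      obtain ⟨k', β, rfl⟩ := hsome c h2
      have h5 : k' = k := (L.bij f).1 h4
      subst h5
      cases β with
      | true => exact Or.inl h3.symm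
      | false => exact Or.inr h3.symm
  · intro a b hab
    obtain ⟨f, k, β, h1⟩ := hedge a b hab
    have h2 := vE_rev hX L (f := f) (c := some (k, β)) (hoo _ _) (hmv _)
    have h3 := hsv (L.act f (some (k, β))) k (!β)
    have h4 := hsv f k β
    have h5 : (sal Γ i0).i (some (k, β)) = some (k, !β) := rfl
    rw [h5] at h2
    rw [h2, h1] at h3
    rw [h1] at h4
    rw [h3, h4]
  · intro n a b hab
    obtain ⟨f, k, β, h1⟩ := hedge a b hab
    have h2 := vE_smul hP hL n f (some (k, β)) (hoo _ _)
    have h3 := hsv (n • f) k β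
    have h4 := hsv f k β
    rw [h2, h1] at h3
    rw [h1] at h4
    rw [h3, h4]
  · intro x y z i hy hz hne
    obtain ⟨f, rfl⟩ := L.onto x
    obtain ⟨c, _, h2, h3, h4, h5⟩ := vE_ex L hy
    obtain ⟨c', _, h2', h3', h4', h5'⟩ := vE_ex L hz
    obtain ⟨k, β, rfl⟩ := hsome c h2
    obtain ⟨k', β', rfl⟩ := hsome c' h2'
    have h6 : k = k' := (L.bij f).1 (h3.trans h3'.symm)
    subst h6
    have h7 := hsv f k β
    have h8 := hsv f k β'
    rw [h5] at h7
    rw [h5'] at h8
    intro h9
    have h10 : β = β' := h7.symm.trans (h9.trans h8)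
    subst h10
    exact hne (h4.symm.trans h4')

end VTB
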