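import Pool.Agent.Lib.MP_32d917_al_vt.I01

/-!
# I02: subgroups of finite index

`base_pull`: `MulAction.compHom` along an injective homomorphism whose range has finite index. All properties restrict; only `fin` needs the finite index: `F` as in `B.lat.fin`; representatives `g_1, ..., g_m` of the right cosets of the range: for `x` some `g • x ∈ F`, `g⁻¹ = φ n * g_j`, so `φ n⁻¹ • x = g_j • (g • x)`.
`base_comm`: `N` := the normal core of `K` in `G` (`Subgroup.normalCore`, finite index: `Subgroup.finiteIndex_normalCore`). `N ≤ K ≃* K' ≤ RA Γ` gives an injective homomorphism `N →* RA Γ` with range of finite index (`N` has finite index in `K`, so its image has finite index in `K'`, and `K'` has finite index). `sal_base`, `base_pull`.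
-/

set_option autoImplicit false

namespace VTB

open LatIso LatN LatF RaagIso

theorem base_pull {A N : Type} [Group A] [Group N] {ι Pt V : Type} [MulAction A Pt]
    [MulAction A V] [MulAction A ι] {Γ : SimpleGraph ι} {κ : V → ι} {S : SimpleGraph V}
    {co : Pt → ∀ i, Fib κ i} (B : SBase A Γ κ S co) (φ : N →* A) (hφ : Function.Injective φ)
    (hr : φ.range.FiniteIndex) : ∃ (_ : MulAction N Pt) (_ : MulAction N V)
      (_ : MulAction N ι), SBase N Γ κ S co := by
  letI mP : MulAction N Pt := MulAction.compHom Pt φ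
  letI mV : MulAction N V := MulAction.compHom V φ
  letI mI : MulAction N ι := MulAction.compHom ι φ
  refine ⟨mP, mV, mI, ⟨⟨⟨B.lat.pre.ms, B.lat.pre.kapS,
    ⟨fun n v => B.lat.pre.act.kap (φ n) v, fun n x y h => B.lat.pre.act.adj (φ n) x y h⟩,
    fun n i j => B.lat.pre.gam (φ n) i j, fun n x i => B.lat.pre.gco (φ n) x i,
    fun n x i => B.lat.pre.gn (φ n) x i⟩, B.lat.ms, B.lat.gg,
    fun n x y h => B.lat.noinv (φ n) x y h, ?_, ?_⟩, fun n i => B.lab (φ n) i,
    fun n x h => ?_, B.line, ?_⟩⟩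
  · intro x
    exact (B.lat.prop x).preimage (f := φ) hφ.injOn
  · obtain ⟨F, hF⟩ := B.lat.fin
    have hfq : Finite (A ⧸ φ.range) := Subgroup.finite_quotient_of_finiteIndex
    have hfin : (Set.range fun p : (A ⧸ φ.range) × F => (p.1.out)⁻¹ • (p.2 : Pt)).Finite :=
      Set.finite_range _
    refine ⟨hfin.toFinset, fun x => ?_⟩
    obtain ⟨a, ha⟩ := hF x
    obtain ⟨⟨h, n, hn⟩, hh⟩ := QuotientGroup.mk_out_eq_mul φ.range a
    refine ⟨n⁻¹, ?_⟩
    rw [Set.Finite.mem_toFinset]
    refine ⟨(QuotientGroup.mk a, ⟨a • x, ha⟩), ?_⟩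
    change ((QuotientGroup.mk a : A ⧸ φ.range).out)⁻¹ • (a • x) = φ n⁻¹ • x
    rw [hh, map_inv, hn, smul_smul]
    congr 1
    simp
  · exact hφ ((B.free (φ n) x h).trans (map_one φ).symm)
  · obtain ⟨s, h1, h2, h3⟩ := B.ori
    exact ⟨s, h1, fun n a b h => h2 (φ n) a b h, h3⟩

theorem base_comm {ι : Type} [Finite ι] (Γ : SimpleGraph ι) (hG : GG Γ) (hcl : ∀ k, ¬ CL Γ k)
    {G : Type} [Group G] (K : Subgroup G) (K' : Subgroup (RA Γ)) (hK : K.FiniteIndex) (hK' : K'.FiniteIndex)
    (e : K ≃* K') : ∃ (N : Subgroup G) (ι' Pt V : Type) (_ : Fintype ι') (_ : MulAction N Pt)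
      (_ : MulAction N V) (_ : MulAction N ι') (Γ' : SimpleGraph ι') (κ : V → ι')
      (S : SimpleGraph V) (co : Pt → ∀ i, Fib κ i), N.Normal ∧ N.FiniteIndex ∧
      SBase N Γ' κ S co ∧ Nonempty (Γ ≃g Γ') := by
  obtain ⟨ι', Pt, V, i0, i1, i2, i3, Γ', κ, S, co, B, hΓ⟩ := sal_base Γ hG hcl
  let φ : K.normalCore →* RA Γ :=
    K'.subtype.comp ((e : K →* K').comp (Subgroup.inclusion K.normalCore_le))
  have hφ : Function.Injective φ :=
    K'.subtype_injective.comp (e.injective.comp (Subgroup.inclusion_injective _))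
  have hr : φ.range.FiniteIndex := by
    have h1 : φ.range = (((Subgroup.inclusion K.normalCore_le).range.map
        (e : K →* K'))).map K'.subtype := by
      rw [MonoidHom.range_comp, MonoidHom.range_comp]
    constructor
    rw [h1, Subgroup.index_map_subtype, Subgroup.index_map_equiv, Subgroup.inclusion_range]
    exact mul_ne_zero Subgroup.FiniteIndex.index_ne_zero hK'.index_ne_zero
  obtain ⟨j1, j2, j3, hB⟩ := base_pull B φ hφ hr
  exact ⟨K.normalCore, ι', Pt, V, i0, j1, j2, j3, Γ', κ, S, co, inferInstance, inferInstance,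
    hB, hΓ⟩

end VTB
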