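import Pool.Agent.Lib.MP_32d917_al_vt.E10
import Pool.Agent.Lib.MP_32d917_al_vt.C01

/-!
# I03: the points and panels are determined by the group (no internal labels)

`pan_gen`: `VRed` is vacuous without internal labels. `f_equiv`, `q_equiv`, `pt_equiv` give `F`, `Φ`, `Ψ` with `PtEq`. `PanP`: for `x`, `i` let `r` be the region of `(x, i)` (all labels occur), `j = (F r).1.1`: if `Ag {i} x y` then `y ∈ r.1.2`, `PtEq.ag`. Conversely if `Ag {j} (Ψ x) (Ψ y)` then `Ψ y ∈ (F r).1.2` (as `Ψ x` is), so `y ∈ r.1.2` (`PtEq.mem`), `PtEq.ag`. The same for `Ψ.symm` (a region of the second structure is `F r`).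
`pan_uniq`: `haveI : Fact (KEq N κ)`; view `N` as a subgroup `⊤` or prove directly `HLat`: since `n • i = i` for all `n`, `L` gives an `HLat` for `N` acting on the fibres (`fibActK` with `H = ⊤`, or the same argument as in `vlat_hlat` of E01). For `x`, `i` let `j` be as in `PanP`. If `n ∈ stJ x {i}` then `Ag {i} x (n • x)` (`hl_mem`), so `Ag {j} (Ψ x) (Ψ (n • x))`, `Ψ (n • x) = n • Ψ x`, so `n ∈ stJ (Ψ x) {j}`. `kr_inj`: `i = j`, `Ag (st i) x (Ψ x)`.
For every label `k` there is `i` with `k ∉ st i`: `GG.two` gives `w ≠ k`, `NoDom w k` gives `u` with `Γ.Adj w u`, `u ∉ st k`. So all coordinates of `x` and `Ψ x` agree.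
-/

set_option autoImplicit false

namespace VTB

open LatIso LatN LatF RaagIso

/-- panels are mapped to panels -/
def PanP {ι Pt ι' Pt' : Type} {V : ι → Type} {V' : ι' → Type} (co : Pt → ∀ i, V i)
    (co' : Pt' → ∀ i, V' i) (Ψ : Pt → Pt') : Prop :=
  ∀ x i, ∃ j, ∀ y, Ag co {i} x y ↔ Ag co' {j} (Ψ x) (Ψ y)

section

variable {H : Type} [Group H] {ι Pt V : Type} [Fintype ι] [MulAction H Pt] [MulAction H V]
  [MulAction H ι] {Γ : SimpleGraph ι} {κ : V → ι} {S : SimpleGraph V}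
  {co : Pt → ∀ i, Fib κ i}
  {ι' Pt' V' : Type} [Fintype ι'] [MulAction H Pt'] [MulAction H V'] [MulAction H ι']
  {Γ' : SimpleGraph ι'} {κ' : V' → ι'} {S' : SimpleGraph V'} {co' : Pt' → ∀ i, Fib κ' i}

omit [Fintype ι] [MulAction H Pt] [MulAction H V] [MulAction H ι] [Group H] in
/-- without internal labels there are no central labels -/
theorem n_cl (M : MS Γ (comp κ S) co (fun _ _ => False)) (i : ι) : ¬ CL Γ i := by
  intro hc
  obtain ⟨x⟩ := M.b.ne
  exact M.cen x i hc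

omit [Fintype ι] [MulAction H Pt] [MulAction H V] [MulAction H ι] [Group H] in
theorem n_cleaf (M : MS Γ (comp κ S) co (fun _ _ => False)) : CLeaf Γ (comp κ S) :=
  fun i hc => (n_cl M i hc).elim

theorem pan_gen (L : VLat H Γ κ S co (fun _ _ => False))
    (L' : VLat H Γ' κ' S' co' (fun _ _ => False)) : ∃ Ψ : Pt ≃ Pt', PanP co co' Ψ ∧
      PanP co' co Ψ.symm ∧ ∀ (h : H) x, Ψ (h • x) = h • Ψ x := by
  have i1 : Fact (RAct H Γ κ co (fun _ _ => False)) := ⟨L.pre.ract⟩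
  have i2 : Fact (RAct H Γ' κ' co' (fun _ _ => False)) := ⟨L'.pre.ract⟩
  have hr : VRed H κ S co (fun _ _ => False) := fun _ _ _ h => h.elim
  have hr' : VRed H κ' S' co' (fun _ _ => False) := fun _ _ _ h => h.elim
  obtain ⟨F, hF, hF', hcf⟩ := f_equiv L (n_cleaf L.ms) L' (n_cleaf L'.ms)
  obtain ⟨Φ, hΦ1, hΦ2, hΦ3, hΦ4⟩ := q_equiv L hr L' hr' F hF hF' hcf
  obtain ⟨Ψ, hΨ⟩ := pt_equiv L L' F hF hF' Φ hΦ1 hΦ2 hΦ3 hΦ4
  have hoc : ∀ x i, Oc Γ (fun _ _ => False : Pt → ι → Prop) x i := fun _ _ _ h => h.elim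
  have hoc' : ∀ x i, Oc Γ' (fun _ _ => False : Pt' → ι' → Prop) x i := fun _ _ _ h => h.elim
  refine ⟨Ψ, ?_, ?_, hΨ.eqv⟩
  · intro x i
    obtain ⟨r, hrdef⟩ : ∃ r : Rg Γ co (fun _ _ => False), r = ⟨rg Γ co x i, rg_isReg (hoc x i)⟩ :=
      ⟨_, rfl⟩
    have hri : r.1.1 = i := by rw [hrdef]; rfl
    have hx : x ∈ r.1.2 := by
      rw [hrdef]
      exact ag_refl x
    subst hri
    refine ⟨(F r).1.1, fun y => ⟨fun h => ?_, fun h => ?_⟩⟩
    · refine (hΨ.ag r x y hx ?_).1 h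
      have h1 := reg_mem r.2 hx
      have h2 : y ∈ (rg Γ co x r.1.1).2 := ag_mono (fun j hj => Or.inl hj) h
      rw [← h1] at h2
      exact h2
    · have hx' : Ψ x ∈ (F r).1.2 := (hΨ.mem x r).1 hx
      have h1 := reg_mem (F r).2 hx'
      have h2 : Ψ y ∈ (rg Γ' co' (Ψ x) (F r).1.1).2 := ag_mono (fun j hj => Or.inl hj) h
      rw [← h1] at h2
      exact (hΨ.ag r x y hx ((hΨ.mem y r).2 h2)).2 h
  · intro x' i'
    obtain ⟨r', hrdef⟩ : ∃ r : Rg Γ' co' (fun _ _ => False),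
        r = ⟨rg Γ' co' x' i', rg_isReg (hoc' x' i')⟩ := ⟨_, rfl⟩
    have hri : r'.1.1 = i' := by rw [hrdef]; rfl
    have hx' : x' ∈ r'.1.2 := by
      rw [hrdef]
      exact ag_refl x'
    obtain ⟨r, hr2⟩ : ∃ r, F r = r' := ⟨F.symm r', F.apply_symm_apply r'⟩
    subst hr2
    subst hri
    have hx : Ψ.symm x' ∈ r.1.2 := by
      rw [hΨ.mem, Ψ.apply_symm_apply]
      exact hx'
    refine ⟨r.1.1, fun y' => ⟨fun h => ?_, fun h => ?_⟩⟩
    · have h1 := reg_mem (F r).2 hx'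
      have h2 : y' ∈ (rg Γ' co' x' (F r).1.1).2 := ag_mono (fun j hj => Or.inl hj) h
      rw [← h1] at h2
      have h3 : Ψ.symm y' ∈ r.1.2 := by
        rw [hΨ.mem, Ψ.apply_symm_apply]
        exact h2
      have h4 := hΨ.ag r _ _ hx h3
      rw [Ψ.apply_symm_apply, Ψ.apply_symm_apply] at h4
      exact h4.2 h
    · have h1 := reg_mem r.2 hx
      have h2 : Ψ.symm y' ∈ (rg Γ co (Ψ.symm x') r.1.1).2 := ag_mono (fun j hj => Or.inl hj) h
      rw [← h1] at h2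
      have h4 := hΨ.ag r _ _ hx h2
      rw [Ψ.apply_symm_apply, Ψ.apply_symm_apply] at h4
      exact h4.1 h

theorem pan_uniq (L : VLat H Γ κ S co (fun _ _ => False)) (hl : ∀ (h : H) (i : ι), h • i = i)
    (Ψ : Pt → Pt) (hp : PanP co co Ψ) (he : ∀ (h : H) x, Ψ (h • x) = h • Ψ x) (x : Pt) :
    Ψ x = x := by
  have f1 : Fact (KEq H κ) := ⟨L.pre.act.kap⟩
  have f2 : Fact (∀ g ∈ (⊤ : Subgroup H), ∀ i : ι, g • i = i) := ⟨fun g _ i => hl g i⟩
  have K := vlat_hlat L (n_cleaf L.ms) (⊤ : Subgroup H) inferInstance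
  have key : ∀ i, Ag co (st Γ i) x (Ψ x) := by
    intro i
    obtain ⟨j, hj⟩ := hp x i
    refine (kr_inj K (x := x) (y := Ψ x) (v := i) (w := j) (fun _ h => h.elim) ?_).2
    intro n hn
    refine ⟨1, one_pos, ?_⟩
    rw [pow_one]
    have h1 : Ag co {i} x (n • x) := (hl_mem K).1 hn
    have h2 : Ag co {j} (Ψ x) (Ψ (n • x)) := (hj (n • x)).1 h1
    have h3 : Ψ (n • x) = n • Ψ x := he n x
    rw [h3] at h2
    exact (hl_mem K).2 h2
  apply L.ms.b.inj
  intro k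
  obtain ⟨u, hu⟩ := not_cl (n_cl L.ms k)
  refine key u k fun hk => hu ?_
  rcases hk with hk | hk
  · exact Or.inl hk.symm
  · exact Or.inr hk.symm

end

end VTB
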