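import Pool.Agent.Lib.MP_32d917_al_vt.I02
import Pool.Agent.Lib.MP_32d917_al_vt.I03

/-!
# I04: the action of `G` on the points

`pan_tw`: for an automorphism `θ` of `N` apply `pan_gen` to the given structure and the structure with the action `n ⋆ x = θ n • x` on `Pt`, `V`, `ι` (`MulAction.compHom` along `θ`; it is again a `VLat`: all conditions are about the set of all `θ n`; to avoid a clash of instances use type synonyms or `@`): `Ψ (n • x) = θ n • Ψ x`.
`pan_act`: for `g : G` let `θ_g n = g * n * g⁻¹` (`MulAut.conjNormal`), `Ψ_g` from `pan_tw`. If `Ψ`, `Ψ'` are two bijections with `PanP` (and `PanP` of the inverse) and the same `θ` then `Ψ'⁻¹ ∘ Ψ` is `PanP` (composition) and `N`-equivariant, so the identity by `pan_uniq`. Hence `Ψ_(g h) = Ψ_g ∘ Ψ_h`, `Ψ_1 = id`, and `Ψ_n x = n • x` for `n ∈ N` (the action of `n` is `PanP`: `hl_ag`/`VPre.gco`).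
-/

set_option autoImplicit false

namespace VTB

open LatIso LatN LatF RaagIso

section

variable {N : Type} [Group N] {ι Pt V : Type} [Fintype ι] [MulAction N Pt] [MulAction N V]
  [MulAction N ι] {Γ : SimpleGraph ι} {κ : V → ι} {S : SimpleGraph V}
  {co : Pt → ∀ i, Fib κ i}

theorem pan_tw (B : SBase N Γ κ S co) (θ : N ≃* N) : ∃ Ψ : Pt ≃ Pt, PanP co co Ψ ∧
    PanP co co Ψ.symm ∧ ∀ (n : N) x, Ψ (n • x) = θ n • Ψ x := by
  have L := B.lat
  have L' : @VLat ι Pt V N _ (MulAction.compHom Pt θ.toMonoidHom)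
      (MulAction.compHom V θ.toMonoidHom) (MulAction.compHom ι θ.toMonoidHom) Γ κ S co
      (fun _ _ => False) := by
    refine @VLat.mk ι Pt V N _ (MulAction.compHom Pt θ.toMonoidHom)
      (MulAction.compHom V θ.toMonoidHom) (MulAction.compHom ι θ.toMonoidHom) Γ κ S co
      (fun _ _ => False) ?_ L.ms L.gg ?_ ?_ ?_
    · refine @VPre.mk ι Pt V N _ (MulAction.compHom Pt θ.toMonoidHom)
        (MulAction.compHom V θ.toMonoidHom) (MulAction.compHom ι θ.toMonoidHom) Γ κ S co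
        (fun _ _ => False) L.pre.ms L.pre.kapS ?_ ?_ ?_ ?_
      · exact @FAct.mk N _ V ι (MulAction.compHom V θ.toMonoidHom)
          (MulAction.compHom ι θ.toMonoidHom) κ S
          (fun g v => L.pre.act.kap (θ g) v) (fun g x y h => L.pre.act.adj (θ g) x y h)
      · exact fun g i j => L.pre.gam (θ g) i j
      · exact fun g x i => L.pre.gco (θ g) x i
      · exact fun g x i => L.pre.gn (θ g) x i
    · exact fun g x y h => L.noinv (θ g) x y h
    · exact fun x => (L.prop x).preimage (f := θ) θ.injective.injOn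
    · obtain ⟨F, hF⟩ := L.fin
      refine ⟨F, fun x => ?_⟩
      obtain ⟨g, hg⟩ := hF x
      refine ⟨θ.symm g, ?_⟩
      change θ (θ.symm g) • x ∈ F
      rw [MulEquiv.apply_symm_apply]
      exact hg
  exact @pan_gen N _ ι Pt V _ _ _ _ Γ κ S co ι Pt V _ (MulAction.compHom Pt θ.toMonoidHom)
    (MulAction.compHom V θ.toMonoidHom) (MulAction.compHom ι θ.toMonoidHom) Γ κ S co L L'

end

private theorem i04_comp {ι₁ Pt₁ ι₂ Pt₂ ι₃ Pt₃ : Type} {V₁ : ι₁ → Type} {V₂ : ι₂ → Type}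
    {V₃ : ι₃ → Type} {c₁ : Pt₁ → ∀ i, V₁ i} {c₂ : Pt₂ → ∀ i, V₂ i} {c₃ : Pt₃ → ∀ i, V₃ i}
    {Ψ : Pt₁ → Pt₂} {Φ : Pt₂ → Pt₃} (h : PanP c₁ c₂ Ψ) (h' : PanP c₂ c₃ Φ) :
    PanP c₁ c₃ (fun x => Φ (Ψ x)) := by
  intro x i
  obtain ⟨j, hj⟩ := h x i
  obtain ⟨k, hk⟩ := h' (Ψ x) j
  exact ⟨k, fun y => (hj y).trans (hk (Ψ y))⟩

private theorem i04_smul {N : Type} [Group N] {ι Pt V : Type} [MulAction N Pt] [MulAction N V]
    [MulAction N ι] {κ : V → ι} {co : Pt → ∀ i, Fib κ i}
    (hg : ∀ (g : N) x i, (co (g • x) (g • i)).1 = g • (co x i).1) (n : N) :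
    PanP co co (fun x => n • x) := by
  intro x i
  refine ⟨n • i, fun y => ⟨fun h l hl => ?_, fun h l hl => ?_⟩⟩
  · obtain ⟨l', rfl⟩ : ∃ l', l = n • l' := ⟨n⁻¹ • l, (smul_inv_smul n l).symm⟩
    apply Subtype.ext
    change (co (n • y) (n • l')).1 = (co (n • x) (n • l')).1
    rw [hg, hg, h l' fun h' => hl (by rw [Set.mem_singleton_iff] at h' ⊢; rw [h'])]
  · have h1 : co (n • y) (n • l) = co (n • x) (n • l) :=
      h (n • l) fun h' => hl (by
        rw [Set.mem_singleton_iff] at h' ⊢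
        exact MulAction.injective n h')
    have h2 := congrArg Subtype.val h1
    rw [hg, hg] at h2
    exact Subtype.ext (MulAction.injective n h2)

theorem pan_act {G : Type} [Group G] (N : Subgroup G) [N.Normal] {ι Pt V : Type} [Fintype ι]
    [MulAction N Pt] [MulAction N V] [MulAction N ι] {Γ : SimpleGraph ι} {κ : V → ι}
    {S : SimpleGraph V} {co : Pt → ∀ i, Fib κ i} (B : SBase N Γ κ S co) :
    ∃ a : MulAction G Pt, (∀ (n : N) x, a.smul (n : G) x = n • x) ∧
      ∀ g : G, PanP co co (a.smul g) := by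
  have hex : ∀ g : G, ∃ Ψ : Pt ≃ Pt, PanP co co Ψ ∧ PanP co co Ψ.symm ∧
      ∀ (n : N) x, Ψ (n • x) = MulAut.conjNormal g n • Ψ x := fun g => pan_tw B _
  choose Ψ h1 h2 h3 using hex
  have hone : ∀ x, Ψ 1 x = x := by
    intro x
    refine pan_uniq B.lat B.lab (Ψ 1) (h1 1) (fun n y => ?_) x
    rw [h3, map_one, MulAut.one_apply]
  have hmul : ∀ g h x, Ψ (g * h) x = Ψ g (Ψ h x) := by
    intro g h x
    have e := pan_uniq B.lat B.lab (fun x => (Ψ (g * h)).symm (Ψ g (Ψ h x)))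
      (i04_comp (i04_comp (h1 h) (h1 g)) (h2 (g * h))) (fun n y => by
        rw [Equiv.symm_apply_eq, h3, h3, h3, Equiv.apply_symm_apply, map_mul,
          MulAut.mul_apply]) x
    exact ((Equiv.symm_apply_eq _).1 e).symm
  have hext : ∀ (n : N) x, Ψ (n : G) x = n • x := by
    intro n x
    have e := pan_uniq B.lat B.lab (fun x => n⁻¹ • Ψ (n : G) x)
      (i04_comp (h1 (n : G)) (i04_smul B.lat.pre.gco n⁻¹)) (fun m y => by
        have h4 : (MulAut.conjNormal (n : G) m : N) = n * m * n⁻¹ := by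
          apply Subtype.ext
          rw [MulAut.conjNormal_apply]
          simp
        change n⁻¹ • Ψ (n : G) (m • y) = m • n⁻¹ • Ψ (n : G) y
        rw [h3, h4, ← mul_smul, ← mul_smul]
        congr 1
        group) x
    exact inv_smul_eq_iff.1 e
  refine ⟨{ smul := fun g x => Ψ g x, one_smul := hone, mul_smul := hmul }, hext, h1⟩

end VTB
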