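import Mathlib

/-!
# Quasi-actions on a line are made isometric

`L` acts on `P`, `M` is a normal subgroup of finite index of `L`, `pos : P ≃ ℤ` and the elements `m` of
`M` act by translations by `χ m`, not all trivial. Then `L` acts by isometries on `ℤ` such that there is
an equivariant map `π : P → ℤ` with finite fibres and bounded gaps.

1. `χ` is additive on `M` (`P` is not empty), `χ (m⁻¹) = - χ m`, and `χ m = 0` iff `m` acts trivially on
   `P`. Let `c > 0` be minimal among the positive values (`Nat.find`), `m0 ∈ M`, `χ m0 = c`; every value is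
   a multiple of `c` (division with remainder: `χ (m0 ^ (-k) * m) = χ m - k c`).
2. For `g ∈ L` let `χ' m := χ (g m g⁻¹)`; also additive, with the same kernel (the set of `m ∈ M` which act
   trivially on `P`). With `m = m0 ^ k * n`, `n` acting trivially: `χ' m = k χ' m0`. `χ' m0 = j c` for some
   `j`, and for `m := g⁻¹ m0 g ∈ M`: `χ' m = c`, so `c = k j c`, `k j = 1`, `j = 1` or `j = -1`. Let `e g := j`:
   `χ (g m g⁻¹) = e g * χ m` for all `m ∈ M`. `e` is multiplicative (evaluate at `m0`).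
3. `β g z := pos (g • pos.symm z)`: `β g (z + c) = β g z + e g * c` (`g m0 = (g m0 g⁻¹) g`); `β` is an action.
   `f g z := β g z - e g * z` satisfies `f g (z + c) = f g z`. `T g := Σ z in range c, f g z`. `T m = c χ m` for
   `m ∈ M` (`e m = 1`: `M`... `χ (m m0 m⁻¹) = χ m0` by additivity).
   `T (g h) = T g + e g * T h`: `f (g h) z = f g (β h z) + e g * f h z`, and the sum of `f g (β h z)` over
   `z in range c` is the sum of `f g` over `range c`, because `z ↦ β h z mod c` permutes `range c` (it is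
   injective: `β h z = β h z' + k c` gives `β h z = β h (z' ± k c)`, `z = z' ± k c`) and `f g` is periodic.
4. Write `[g] z := e g * z + T g`: `[g h] z = [g] ([h] z)`, `[m] z = z + c χ m` for `m ∈ M`. For `p ∈ P` put
   `F p g := [g] (c * pos (g⁻¹ • p))`; `F p (g m) = F p g` for `m ∈ M`. `π p := Σ over q : L ⧸ M of F p q.out`
   (`F p g` for any representative `g`). Since `F (h • p) (h g) = [h] (F p g)`, summing over the cosets
   (`q ↦ h • q` is a bijection of `L ⧸ M`): `π (h • p) = e h * π p + k * T h`, `k := card (L ⧸ M)`. Put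
   `t h := k * T h`.
5. `π (m0 ^ j • p) = π p + j * k * c ^ 2` for `j : ℤ`. Every `p` is `m0 ^ j • pos.symm r` for some
   `0 ≤ r < c` (division). So the fibre over `z` is contained in the finite set of the
   `m0 ^ ((z - π (pos.symm r)) / (k c ^ 2)) • pos.symm r`; gap constant `k c ^ 2` (take `r = 0`).
6. If `m ∈ M` fixes `z`: `z = z + k c χ m`, so `χ m = 0` and `m` acts trivially.
-/

set_option autoImplicit false

namespace VTB

section

variable {L P : Type} [Group L] [MulAction L P] (M : Subgroup L) (pos : P ≃ ℤ) (χ : L → ℤ)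
  (h : ∀ m ∈ M, ∀ p, pos (m • p) = pos p + χ m)

include h

private theorem I40_mul {m n : L} (hm : m ∈ M) (hn : n ∈ M) : χ (m * n) = χ m + χ n := by
  have h1 := h (m * n) (M.mul_mem hm hn) (pos.symm 0)
  rw [mul_smul, h m hm, h n hn] at h1
  omega

private theorem I40_one : χ 1 = 0 := by
  have h1 := I40_mul M pos χ h M.one_mem M.one_mem
  rw [mul_one] at h1
  omega

private theorem I40_inv {m : L} (hm : m ∈ M) : χ m⁻¹ = -χ m := by
  have h1 := I40_mul M pos χ h (M.inv_mem hm) hm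
  rw [inv_mul_cancel, I40_one M pos χ h] at h1
  omega

private theorem I40_pow {m : L} (hm : m ∈ M) (n : ℕ) : χ (m ^ n) = n * χ m := by
  induction n with
  | zero =>
    rw [pow_zero, I40_one M pos χ h]
    simp
  | succ n ih =>
    rw [pow_succ, I40_mul M pos χ h (M.pow_mem hm n) hm, ih]
    push_cast
    ring

private theorem I40_zpow {m : L} (hm : m ∈ M) (n : ℤ) : χ (m ^ n) = n * χ m := by
  rcases Int.eq_nat_or_neg n with ⟨k, rfl | rfl⟩
  · rw [zpow_natCast, I40_pow M pos χ h hm]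
  · rw [zpow_neg, zpow_natCast, I40_inv M pos χ h (M.pow_mem hm k), I40_pow M pos χ h hm]
    ring

private theorem I40_triv {m : L} (hm : m ∈ M) (h0 : χ m = 0) (p : P) : m • p = p := by
  apply pos.injective
  rw [h m hm, h0, add_zero]

private theorem I40_zero {m : L} (hm : m ∈ M) (h0 : ∀ p : P, m • p = p) : χ m = 0 := by
  have h1 := h m hm (pos.symm 0)
  rw [h0] at h1
  omega

/-- the values are the multiples of `c` -/
private theorem I40_c (h0 : ∃ m ∈ M, 0 < χ m) : ∃ c : ℕ, 0 < c ∧ (∃ m ∈ M, χ m = c) ∧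
    ∀ m ∈ M, (c : ℤ) ∣ χ m := by
  let A : AddSubgroup ℤ :=
    { carrier := {z | ∃ m ∈ M, χ m = z}
      add_mem' := by
        rintro a b ⟨m, hm, rfl⟩ ⟨n, hn, rfl⟩
        exact ⟨m * n, M.mul_mem hm hn, I40_mul M pos χ h hm hn⟩
      zero_mem' := ⟨1, M.one_mem, I40_one M pos χ h⟩
      neg_mem' := by
        rintro a ⟨m, hm, rfl⟩
        exact ⟨m⁻¹, M.inv_mem hm, I40_inv M pos χ h hm⟩ }
  obtain ⟨a, ha⟩ := Int.subgroup_cyclic A
  have hA : ∀ m ∈ M, χ m ∈ A := fun m hm => ⟨m, hm, rfl⟩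
  have hdvd : ∀ m ∈ M, a ∣ χ m := by
    intro m hm
    have h1 := hA m hm
    rw [ha, AddSubgroup.mem_closure_singleton] at h1
    obtain ⟨k, hk⟩ := h1
    exact ⟨k, by rw [← hk, smul_eq_mul, mul_comm]⟩
  have haA : a ∈ A := by
    rw [ha]
    exact AddSubgroup.subset_closure rfl
  have ha0 : a ≠ 0 := by
    obtain ⟨m, hm, hm0⟩ := h0
    intro h1
    have h2 := hdvd m hm
    rw [h1, zero_dvd_iff] at h2
    omega
  refine ⟨a.natAbs, Int.natAbs_pos.2 ha0, ?_, ?_⟩
  · have : ((a.natAbs : ℕ) : ℤ) ∈ A := by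
      rcases Int.natAbs_eq a with h1 | h1
      · rw [← h1]
        exact haA
      · have h2 : ((a.natAbs : ℕ) : ℤ) = -a := by omega
        rw [h2]
        exact A.neg_mem haA
    exact this
  · intro m hm
    rw [Int.natAbs_dvd]
    exact hdvd m hm

end

theorem line_pos {L P : Type} [Group L] [MulAction L P] (M : Subgroup L) [M.Normal]
    [M.FiniteIndex] (pos : P ≃ ℤ) (χ : L → ℤ)
    (h : ∀ m ∈ M, ∀ p, pos (m • p) = pos p + χ m) (h0 : ∃ m ∈ M, 0 < χ m) :
    ∃ (e t : L → ℤ) (π : P → ℤ) (C : ℕ), (∀ g, e g = 1 ∨ e g = -1) ∧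
      (∀ g k, e (g * k) = e g * e k) ∧ (∀ g k, t (g * k) = e g * t k + t g) ∧
      (∀ g p, π (g • p) = e g * π p + t g) ∧ (∀ z, {p | π p = z}.Finite) ∧
      (∀ z, ∃ p, |z - π p| ≤ C) ∧ ∀ m ∈ M, ∀ z, e m * z + t m = z → ∀ p : P, m • p = p := by
  classical
  obtain ⟨c, hc, ⟨m0, hm0, hcm0⟩, hdvd⟩ := I40_c M pos χ h h0
  have hc0 : (c : ℤ) ≠ 0 := by exact_mod_cast hc.ne'
  have hne : NeZero c := ⟨hc.ne'⟩
  have hconj : ∀ (g : L) {m : L}, m ∈ M → g * m * g⁻¹ ∈ M := fun g m hm =>
    Subgroup.Normal.conj_mem inferInstance m hm g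
  -- the sign
  obtain ⟨e, he⟩ : ∃ e : L → ℤ, ∀ g, χ (g * m0 * g⁻¹) = e g * c := by
    have h1 : ∀ g : L, ∃ j : ℤ, χ (g * m0 * g⁻¹) = j * c := fun g => by
      obtain ⟨j, hj⟩ := hdvd _ (hconj g hm0)
      exact ⟨j, by rw [hj, mul_comm]⟩
    choose e he using h1
    exact ⟨e, he⟩
  have hechi : ∀ (g : L) {m : L}, m ∈ M → χ (g * m * g⁻¹) = e g * χ m := by
    intro g m hm
    obtain ⟨k, hk⟩ := hdvd m hm
    set n : L := m0 ^ (-k) * m with hn
    have hnM : n ∈ M := M.mul_mem (M.zpow_mem hm0 _) hm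
    have hn0 : χ n = 0 := by
      rw [hn, I40_mul M pos χ h (M.zpow_mem hm0 _) hm, I40_zpow M pos χ h hm0, hcm0, hk]
      ring
    have h1 : χ (g * n * g⁻¹) = 0 := by
      apply I40_zero M pos χ h (hconj g hnM)
      intro p
      rw [mul_smul, mul_smul, I40_triv M pos χ h hnM hn0, smul_inv_smul]
    have h2 : g * m * g⁻¹ = (g * m0 * g⁻¹) ^ k * (g * n * g⁻¹) := by
      rw [conj_zpow, hn, zpow_neg]
      group
    rw [h2, I40_mul M pos χ h (M.zpow_mem (hconj g hm0) _) (hconj g hnM), h1,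
      I40_zpow M pos χ h (hconj g hm0), he, hk]
    ring
  have hemul : ∀ g k, e (g * k) = e g * e k := by
    intro g k
    have h1 := he (g * k)
    have h2 : g * k * m0 * (g * k)⁻¹ = g * (k * m0 * k⁻¹) * g⁻¹ := by group
    rw [h2, hechi g (hconj k hm0), he k, ← mul_assoc] at h1
    exact (mul_right_cancel₀ hc0 h1).symm
  have he1 : e 1 = 1 := by
    have h1 := he 1
    rw [one_mul, inv_one, mul_one, hcm0] at h1
    have h2 : (1 : ℤ) * c = e 1 * c := by rw [one_mul]; exact h1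
    exact (mul_right_cancel₀ hc0 h2).symm
  have hesign : ∀ g, e g = 1 ∨ e g = -1 := by
    intro g
    have h1 : e g * e g⁻¹ = 1 := by rw [← hemul, mul_inv_cancel, he1]
    exact Int.isUnit_iff.1 (IsUnit.of_mul_eq_one _ h1)
  have heM : ∀ m ∈ M, e m = 1 := by
    intro m hm
    have h1 := he m
    rw [I40_mul M pos χ h (M.mul_mem hm hm0) (M.inv_mem hm), I40_mul M pos χ h hm hm0,
      I40_inv M pos χ h hm, hcm0] at h1
    have h2 : (1 : ℤ) * c = e m * c := by rw [← h1]; ring
    exact (mul_right_cancel₀ hc0 h2).symm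
  -- the action on the integers
  set β : L → ℤ → ℤ := fun g z => pos (g • pos.symm z) with hβ
  have hβmul : ∀ g k z, β (g * k) z = β g (β k z) := by
    intro g k z
    rw [hβ]
    simp only
    rw [mul_smul, Equiv.symm_apply_apply]
  have hβ1 : ∀ z, β 1 z = z := by
    intro z
    rw [hβ]
    simp only
    rw [one_smul, Equiv.apply_symm_apply]
  have hβM : ∀ m ∈ M, ∀ z, β m z = z + χ m := by
    intro m hm z
    rw [hβ]
    simp only
    rw [h m hm, Equiv.apply_symm_apply]
  have hβc : ∀ g z (j : ℤ), β g (z + j * c) = β g z + e g * (j * c) := by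
    intro g z j
    have hj : χ (m0 ^ j) = j * c := by rw [I40_zpow M pos χ h hm0, hcm0]
    have h1 : z + j * c = β (m0 ^ j) z := by rw [hβM _ (M.zpow_mem hm0 j), hj]
    rw [h1, ← hβmul]
    have h2 : g * m0 ^ j = (g * m0 ^ j * g⁻¹) * g := by group
    rw [h2, hβmul, hβM _ (hconj g (M.zpow_mem hm0 j)), hechi g (M.zpow_mem hm0 j), hj]
  set f : L → ℤ → ℤ := fun g z => β g z - e g * z with hf
  have hfc : ∀ g z (j : ℤ), f g (z + j * c) = f g z := by
    intro g z j
    rw [hf]
    simp only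
    rw [hβc]
    ring
  -- representatives
  have hrep : ∀ z : ℤ, ∃ j : ℤ, z = (((z : ZMod c).val : ℕ) : ℤ) + j * c := by
    intro z
    have h1 : (((((z : ZMod c).val : ℕ) : ℤ) : ZMod c)) = (z : ZMod c) := by
      push_cast
      exact ZMod.natCast_zmod_val _
    rw [ZMod.intCast_eq_intCast_iff_dvd_sub] at h1
    obtain ⟨j, hj⟩ := h1
    exact ⟨j, by rw [mul_comm j]; omega⟩
  have hfval : ∀ g (z : ℤ), f g (((z : ZMod c).val : ℕ) : ℤ) = f g z := by
    intro g z
    obtain ⟨j, hj⟩ := hrep z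
    conv_rhs => rw [hj]
    rw [hfc]
  set b : L → ZMod c → ZMod c := fun g x => ((β g (x.val : ℤ) : ℤ) : ZMod c) with hb
  have hbβ : ∀ g (z : ℤ), b g (z : ZMod c) = ((β g z : ℤ) : ZMod c) := by
    intro g z
    obtain ⟨j, hj⟩ := hrep z
    rw [hb]
    simp only
    conv_rhs => rw [hj, hβc]
    push_cast
    rw [ZMod.natCast_self]
    ring
  have hbmul : ∀ g k x, b (g * k) x = b g (b k x) := by
    intro g k x
    have h1 : b k x = ((β k (x.val : ℤ) : ℤ) : ZMod c) := rfl
    rw [h1, hbβ, ← hβmul]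
  have hb1 : ∀ x, b 1 x = x := by
    intro x
    have h1 : b 1 x = ((β 1 (x.val : ℤ) : ℤ) : ZMod c) := rfl
    rw [h1, hβ1]
    push_cast
    exact ZMod.natCast_zmod_val _
  have hbbij : ∀ g, Function.Bijective (b g) := by
    intro g
    refine Function.bijective_iff_has_inverse.2 ⟨b g⁻¹, fun x => ?_, fun x => ?_⟩
    · rw [← hbmul, inv_mul_cancel, hb1]
    · rw [← hbmul, mul_inv_cancel, hb1]
  set T : L → ℤ := fun g => ∑ x : ZMod c, f g (x.val : ℤ) with hT
  have hTmul : ∀ g k, T (g * k) = T g + e g * T k := by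
    intro g k
    have h1 : ∀ x : ZMod c, f (g * k) (x.val : ℤ) = f g ((b k x).val : ℤ) + e g * f k (x.val : ℤ) := by
      intro x
      have h2 : b k x = ((β k (x.val : ℤ) : ℤ) : ZMod c) := rfl
      rw [h2, hfval]
      simp only [hf]
      rw [hβmul, hemul]
      ring
    have h3 : T (g * k) = ∑ x : ZMod c, (f g ((b k x).val : ℤ) + e g * f k (x.val : ℤ)) :=
      Finset.sum_congr rfl fun x _ => h1 x
    rw [h3, Finset.sum_add_distrib, ← Finset.mul_sum]
    congr 1
    exact (hbbij k).sum_comp (fun x => f g (x.val : ℤ))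
  have hTM : ∀ m ∈ M, T m = c * χ m := by
    intro m hm
    have h1 : ∀ x : ZMod c, f m (x.val : ℤ) = χ m := by
      intro x
      simp only [hf]
      rw [hβM m hm, heM m hm]
      ring
    have h2 : T m = ∑ _x : ZMod c, χ m := Finset.sum_congr rfl fun x _ => h1 x
    rw [h2, Finset.sum_const, Finset.card_univ, ZMod.card, nsmul_eq_mul]
  -- the map
  set F : P → L → ℤ := fun p g => e g * (c * pos (g⁻¹ • p)) + T g with hF
  have hFM : ∀ p g, ∀ m ∈ M, F p (g * m) = F p g := by
    intro p g m hm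
    simp only [hF]
    rw [hemul, heM m hm, mul_inv_rev, mul_smul, h _ (M.inv_mem hm), I40_inv M pos χ h hm, hTmul,
      hTM m hm]
    ring
  have hFout : ∀ p (g : L), F p ((g : L ⧸ M).out) = F p g := by
    intro p g
    obtain ⟨m, hm⟩ := QuotientGroup.mk_out_eq_mul M g
    rw [hm, hFM p g m m.2]
  have hFsmul : ∀ k p g, F (k • p) (k * g) = e k * F p g + T k := by
    intro k p g
    simp only [hF]
    rw [hemul, mul_inv_rev, mul_smul, inv_smul_smul, hTmul]
    ring
  have hfq : Finite (L ⧸ M) := inferInstance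
  have hft : Fintype (L ⧸ M) := Fintype.ofFinite _
  set κ : ℕ := Fintype.card (L ⧸ M) with hκ
  have hκ0 : 0 < κ := Fintype.card_pos
  set π : P → ℤ := fun p => ∑ q : L ⧸ M, F p q.out with hπ
  have hπsmul : ∀ g p, π (g • p) = e g * π p + κ * T g := by
    intro g p
    have h1 : π (g • p) = ∑ q : L ⧸ M, F (g • p) ((g • q).out) :=
      (Equiv.sum_comp (MulAction.toPerm g : Equiv.Perm (L ⧸ M)) (fun q => F (g • p) q.out)).symm
    have h2 : ∀ q : L ⧸ M, F (g • p) ((g • q).out) = e g * F p q.out + T g := by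
      intro q
      have h3 : (g • q) = ((g * q.out : L) : L ⧸ M) := by
        conv_lhs => rw [← QuotientGroup.out_eq' q]
        rfl
      rw [h3, hFout, hFsmul]
    rw [h1, Finset.sum_congr rfl fun q _ => h2 q, Finset.sum_add_distrib, ← Finset.mul_sum,
      Finset.sum_const, Finset.card_univ, nsmul_eq_mul]
  have hπm0 : ∀ (j : ℤ) p, π (m0 ^ j • p) = π p + j * (κ * (c : ℤ) ^ 2) := by
    intro j p
    rw [hπsmul, heM _ (M.zpow_mem hm0 j), hTM _ (M.zpow_mem hm0 j), I40_zpow M pos χ h hm0, hcm0]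
    ring
  have hD : 0 < (κ : ℤ) * (c : ℤ) ^ 2 := by positivity
  refine ⟨e, fun g => κ * T g, π, κ * c ^ 2, hesign, hemul, fun g k => ?_, hπsmul, fun z => ?_,
    fun z => ?_, fun m hm z hz p => ?_⟩
  · show (κ : ℤ) * T (g * k) = e g * (κ * T k) + κ * T g
    rw [hTmul]
    ring
  · refine ((Finset.range c).finite_toSet.image (fun r : ℕ =>
      m0 ^ ((z - π (pos.symm (r : ℤ))) / (κ * (c : ℤ) ^ 2)) • pos.symm (r : ℤ))).subset ?_
    intro p hp
    have hp' : π p = z := hp
    have hr0 : 0 ≤ pos p % (c : ℤ) := Int.emod_nonneg _ hc0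
    have hr1 : pos p % (c : ℤ) < c := Int.emod_lt_of_pos _ (by exact_mod_cast hc)
    obtain ⟨r, hr⟩ := Int.eq_ofNat_of_zero_le hr0
    have hpe : p = m0 ^ (pos p / (c : ℤ)) • pos.symm (r : ℤ) := by
      apply pos.injective
      rw [h _ (M.zpow_mem hm0 _), Equiv.apply_symm_apply, I40_zpow M pos χ h hm0, hcm0, ← hr]
      have := Int.emod_add_mul_ediv (pos p) (c : ℤ)
      rw [mul_comm (pos p / (c : ℤ))]
      exact this.symm
    refine ⟨r, ?_, ?_⟩
    · rw [Finset.mem_coe, Finset.mem_range]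
      omega
    · simp only
      have h1 : z - π (pos.symm (r : ℤ)) = (pos p / (c : ℤ)) * (κ * (c : ℤ) ^ 2) := by
        rw [← hp', hpe, hπm0]
        rw [← hpe]
        ring
      rw [h1, Int.mul_ediv_cancel _ hD.ne']
      exact hpe.symm
  · refine ⟨m0 ^ ((z - π (pos.symm 0)) / (κ * (c : ℤ) ^ 2)) • pos.symm 0, ?_⟩
    rw [hπm0]
    have h1 := Int.emod_add_mul_ediv (z - π (pos.symm 0)) (κ * (c : ℤ) ^ 2)
    have h2 := Int.emod_nonneg (z - π (pos.symm 0)) hD.ne'
    have h3 := Int.emod_lt_of_pos (z - π (pos.symm 0)) hD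
    have h4 : z - (π (pos.symm 0) + (z - π (pos.symm 0)) / (κ * (c : ℤ) ^ 2) * (κ * (c : ℤ) ^ 2)) =
        (z - π (pos.symm 0)) % (κ * (c : ℤ) ^ 2) := by
      rw [mul_comm ((z - π (pos.symm 0)) / (κ * (c : ℤ) ^ 2))]
      linarith
    rw [h4, abs_of_nonneg h2]
    push_cast
    exact h3.le
  · rw [heM m hm] at hz
    have h1 : (κ : ℤ) * T m = 0 := by linarith
    rw [hTM m hm] at h1
    have h2 : χ m = 0 := by
      rcases mul_eq_zero.1 h1 with h3 | h3
      · exact absurd h3 (by exact_mod_cast hκ0.ne')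
      · rcases mul_eq_zero.1 h3 with h4 | h4
        · exact absurd h4 hc0
        · exact h4
    exact I40_triv M pos χ h hm h2 p

end VTB
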