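import Pool.Agent.Lib.MP_32d917_al_vt.I40

/-!
# Families of lines

`G` acts on `Q` and `R`, `k : Q → R` is equivariant, `N` is a normal subgroup of finite index such that for
every `r` the elements of `N` fixing `r` act on the fibre over `r` (numbered by `ℤ`) by translations, not
all trivial. Then `G` acts on `R × ℤ` over `R`, by isometries on the fibres, with an equivariant map from
`Q` over `R`.

* `line_st`: the statement of `line_pos` for the action of the stabilizer of `r` on the fibre over `r`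
  (`L := MulAction.stabilizer G r` acting on `{q // k q = r}`: define the action by hand, `letI`;
  `M := N.subgroupOf L`, normal and of finite index), written without subtypes: `e`, `t`, `π` are extended
  by arbitrary values (`1`, `0`, `0`).
* `ind_line`: for `r : R` let `ρ r` be a representative of the orbit of `r` (`Quotient.out` of
  `MulAction.orbitRel`), so `ρ (g • r) = ρ r`, and `c r : G` with `c r • ρ r = r` (choose). For every `r` take
  `e t π C` of `line_st` for `ρ r` (as functions of `ρ r`: `choose e t π C h using line_st k hk N h` and use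
  `e (ρ r)` and so on). For `g ∈ G`, `r` put `u g r := (c (g • r))⁻¹ * g * c r`, which fixes `ρ r`, and
  `g • (r, z) := (g • r, e (ρ r) (u g r) * z + t (ρ r) (u g r))`. Action: `u (g h) r = u g (h • r) * u h r`, and
  `e`, `t` are cocycles; `u 1 r = 1` (`1 • r = r`), `e 1 = 1`, `t 1 = 0` (from `e 1 = e 1 * e 1`).
  `Pi q := π (ρ (k q)) ((c (k q))⁻¹ • q)`. Equivariance: `(c (g • k q))⁻¹ • g • q = u g (k q) • (c (k q))⁻¹ • q`.
  Fibres, gaps: translate by `c r`. `C' r := C (ρ r)`. The last statement: `n ∈ N` with `n • (r, z) = (r, z)`: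
  `n • r = r`, `u n r = (c r)⁻¹ n (c r) ∈ N` fixes `z` in the line of `ρ r`, so it fixes the fibre over `ρ r`
  pointwise.
-/

set_option autoImplicit false

namespace VTB

variable {G Q R : Type} [Group G] [MulAction G Q] [MulAction G R]

theorem line_st (k : Q → R) (hk : ∀ (g : G) q, k (g • q) = g • k q) (N : Subgroup G) [N.Normal]
    [N.FiniteIndex] (r : R)
    (h : ∃ (pos : {q // k q = r} ≃ ℤ) (χ : G → ℤ),
      (∀ n ∈ N, n • r = r → ∀ q q' : {q // k q = r}, q'.1 = n • q.1 → pos q' = pos q + χ n) ∧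
      ∃ n ∈ N, n • r = r ∧ 0 < χ n) :
    ∃ (e t : G → ℤ) (π : Q → ℤ) (C : ℕ), (∀ g, e g = 1 ∨ e g = -1) ∧
      (∀ g k, g • r = r → k • r = r → e (g * k) = e g * e k) ∧
      (∀ g k, g • r = r → k • r = r → t (g * k) = e g * t k + t g) ∧
      (∀ g q, g • r = r → k q = r → π (g • q) = e g * π q + t g) ∧
      (∀ z, {q | k q = r ∧ π q = z}.Finite) ∧ (∀ z, ∃ q, k q = r ∧ |z - π q| ≤ C) ∧
      ∀ n ∈ N, n • r = r → ∀ z, e n * z + t n = z → ∀ q, k q = r → n • q = q := by
  classical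
  obtain ⟨pos, χ, h1, n0, hn0, hn0r, hn0p⟩ := h
  have hst : ∀ g : G, g • r = r → ∀ q, k q = r → k (g • q) = r := by
    intro g hg q hq
    rw [hk, hq, hg]
  let A : MulAction (MulAction.stabilizer G r) {q // k q = r} :=
    { smul := fun g q => ⟨(g : G) • q.1, hst g g.2 q.1 q.2⟩
      one_smul := fun q => Subtype.ext (one_smul G q.1)
      mul_smul := fun a b q => Subtype.ext (mul_smul (a : G) (b : G) q.1) }
  have hA : ∀ (g : MulAction.stabilizer G r) (q : {q // k q = r}), (g • q).1 = (g : G) • q.1 :=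
    fun _ _ => rfl
  obtain ⟨e, t, π, C, p1, p2, p3, p4, p5, p6, p7⟩ :=
    line_pos (L := MulAction.stabilizer G r) (P := {q // k q = r})
      (N.subgroupOf (MulAction.stabilizer G r)) pos (fun l => χ l)
      (fun m hm p => h1 m (Subgroup.mem_subgroupOf.1 hm) m.2 p (m • p) rfl)
      ⟨⟨n0, hn0r⟩, Subgroup.mem_subgroupOf.2 hn0, hn0p⟩
  refine ⟨fun g => if hg : g • r = r then e ⟨g, hg⟩ else 1,
    fun g => if hg : g • r = r then t ⟨g, hg⟩ else 0,
    fun q => if hq : k q = r then π ⟨q, hq⟩ else 0, C, ?_, ?_, ?_, ?_, ?_, ?_, ?_⟩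
  · intro g
    by_cases hg : g • r = r
    · simp only [dif_pos hg]
      exact p1 _
    · left
      simp only [dif_neg hg]
  · intro g l hg hl
    have hgl : (g * l) • r = r := by rw [mul_smul, hl, hg]
    simp only [dif_pos hg, dif_pos hl, dif_pos hgl]
    exact p2 ⟨g, hg⟩ ⟨l, hl⟩
  · intro g l hg hl
    have hgl : (g * l) • r = r := by rw [mul_smul, hl, hg]
    simp only [dif_pos hg, dif_pos hl, dif_pos hgl]
    exact p3 ⟨g, hg⟩ ⟨l, hl⟩
  · intro g q hg hq
    simp only [dif_pos hg, dif_pos hq, dif_pos (hst g hg q hq)]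
    exact p4 ⟨g, hg⟩ ⟨q, hq⟩
  · intro z
    refine ((p5 z).image Subtype.val).subset ?_
    rintro q ⟨hq, hz⟩
    simp only [dif_pos hq] at hz
    exact ⟨⟨q, hq⟩, hz, rfl⟩
  · intro z
    obtain ⟨⟨q, hq⟩, hz⟩ := p6 z
    refine ⟨q, hq, ?_⟩
    simp only [dif_pos hq]
    exact hz
  · intro n hn hnr z hz q hq
    simp only [dif_pos hnr] at hz
    have h3 := p7 ⟨n, hnr⟩ (Subgroup.mem_subgroupOf.2 hn) z hz ⟨q, hq⟩
    exact congrArg Subtype.val h3

theorem ind_line (k : Q → R) (hk : ∀ (g : G) q, k (g • q) = g • k q) (N : Subgroup G) [N.Normal]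
    [N.FiniteIndex]
    (h : ∀ r : R, ∃ (pos : {q // k q = r} ≃ ℤ) (χ : G → ℤ),
      (∀ n ∈ N, n • r = r → ∀ q q' : {q // k q = r}, q'.1 = n • q.1 → pos q' = pos q + χ n) ∧
      ∃ n ∈ N, n • r = r ∧ 0 < χ n) :
    ∃ (_ : MulAction G (R × ℤ)) (Pi : Q → ℤ) (C : R → ℕ),
      (∀ (g : G) r z, (g • ((r, z) : R × ℤ)).1 = g • r) ∧
      (∀ (g : G) r z w, |(g • ((r, z) : R × ℤ)).2 - (g • ((r, w) : R × ℤ)).2| = |z - w|) ∧
      (∀ (g : G) q, g • ((k q, Pi q) : R × ℤ) = (k (g • q), Pi (g • q))) ∧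
      (∀ r z, {q | k q = r ∧ Pi q = z}.Finite) ∧ (∀ (g : G) r, C (g • r) = C r) ∧
      (∀ r z, ∃ q, k q = r ∧ |z - Pi q| ≤ C r) ∧
      ∀ n ∈ N, ∀ r z, n • ((r, z) : R × ℤ) = (r, z) → ∀ q, k q = r → n • q = q := by
  classical
  choose e t π C p1 p2 p3 p4 p5 p6 p7 using fun r => line_st k hk N r (h r)
  obtain ⟨ρ, hρ⟩ : ∃ ρ : R → R,
      ρ = fun i => Quotient.out (Quotient.mk (MulAction.orbitRel G R) i) := ⟨_, rfl⟩
  have hc0 : ∀ i, ∃ c : G, c • ρ i = i := by
    intro i
    have h1 : Quotient.mk (MulAction.orbitRel G R) (ρ i) = Quotient.mk (MulAction.orbitRel G R) i := by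
      rw [hρ]
      exact Quotient.out_eq _
    have h2 := Quotient.exact h1
    have h3 : ρ i ∈ MulAction.orbit G i := h2
    obtain ⟨g, hg⟩ := h3
    refine ⟨g⁻¹, ?_⟩
    rw [inv_smul_eq_iff]
    exact hg.symm
  have hρg : ∀ (g : G) i, ρ (g • i) = ρ i := by
    intro g i
    have h1 : Quotient.mk (MulAction.orbitRel G R) (g • i) =
        Quotient.mk (MulAction.orbitRel G R) i := by
      apply Quotient.sound
      exact MulAction.mem_orbit i g
    rw [hρ]
    change Quotient.out (Quotient.mk (MulAction.orbitRel G R) (g • i)) = _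
    rw [h1]
  choose c hc using hc0
  have hci : ∀ i, (c i)⁻¹ • i = ρ i := fun i => by
    rw [inv_smul_eq_iff]
    exact (hc i).symm
  obtain ⟨u, hu⟩ : ∃ u : G → R → G, ∀ g r, u g r = (c (g • r))⁻¹ * g * c r :=
    ⟨fun g r => (c (g • r))⁻¹ * g * c r, fun _ _ => rfl⟩
  have huf : ∀ g r, u g r • ρ r = ρ r := by
    intro g r
    rw [hu, mul_smul, mul_smul, hc, hci, hρg]
  have hu1 : ∀ r, u 1 r = 1 := by
    intro r
    rw [hu, one_smul, mul_one, inv_mul_cancel]
  have hum : ∀ g l r, u (g * l) r = u g (l • r) * u l r := by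
    intro g l r
    rw [hu, hu, hu, mul_smul]
    group
  have he1 : ∀ r, e r 1 = 1 := by
    intro r
    have h1 := p2 r 1 1 (one_smul _ _) (one_smul _ _)
    rw [mul_one] at h1
    rcases p1 r 1 with h2 | h2
    · exact h2
    · rw [h2] at h1
      norm_num at h1
  have ht1 : ∀ r, t r 1 = 0 := by
    intro r
    have h1 := p3 r 1 1 (one_smul _ _) (one_smul _ _)
    rw [mul_one, he1, one_mul] at h1
    omega
  let A : MulAction G (R × ℤ) :=
    { smul := fun g x => (g • x.1, e (ρ x.1) (u g x.1) * x.2 + t (ρ x.1) (u g x.1))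
      one_smul := by
        rintro ⟨r, z⟩
        change ((1 : G) • r, e (ρ r) (u 1 r) * z + t (ρ r) (u 1 r)) = (r, z)
        rw [one_smul, hu1, he1, ht1, one_mul, add_zero]
      mul_smul := by
        rintro g l ⟨r, z⟩
        change ((g * l) • r, e (ρ r) (u (g * l) r) * z + t (ρ r) (u (g * l) r)) =
          (g • l • r, e (ρ (l • r)) (u g (l • r)) * (e (ρ r) (u l r) * z + t (ρ r) (u l r)) +
            t (ρ (l • r)) (u g (l • r)))
        have hf : u g (l • r) • ρ r = ρ r := by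
          have h1 := huf g (l • r)
          rwa [hρg] at h1
        rw [mul_smul, hum, hρg, p2 _ _ _ hf (huf l r), p3 _ _ _ hf (huf l r)]
        refine Prod.ext rfl ?_
        change e (ρ r) (u g (l • r)) * e (ρ r) (u l r) * z +
          (e (ρ r) (u g (l • r)) * t (ρ r) (u l r) + t (ρ r) (u g (l • r))) = _
        ring }
  have hA : ∀ (g : G) (r : R) (z : ℤ), A.toSMul.smul g (r, z) =
      (g • r, e (ρ r) (u g r) * z + t (ρ r) (u g r)) := fun _ _ _ => rfl
  refine ⟨A, fun q => π (ρ (k q)) ((c (k q))⁻¹ • q), fun r => C (ρ r), ?_, ?_, ?_, ?_, ?_, ?_, ?_⟩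
  · intro g r z
    rfl
  · intro g r z w
    change |(e (ρ r) (u g r) * z + t (ρ r) (u g r)) - (e (ρ r) (u g r) * w + t (ρ r) (u g r))| =
      |z - w|
    have h1 : (e (ρ r) (u g r) * z + t (ρ r) (u g r)) - (e (ρ r) (u g r) * w + t (ρ r) (u g r)) =
        e (ρ r) (u g r) * (z - w) := by ring
    rw [h1, abs_mul]
    rcases p1 (ρ r) (u g r) with h2 | h2
    · rw [h2, abs_one, one_mul]
    · rw [h2, abs_neg, abs_one, one_mul]
  · intro g q
    change (g • k q, e (ρ (k q)) (u g (k q)) * π (ρ (k q)) ((c (k q))⁻¹ • q) +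
      t (ρ (k q)) (u g (k q))) = (k (g • q), π (ρ (k (g • q))) ((c (k (g • q)))⁻¹ • g • q))
    rw [hk, hρg]
    refine Prod.ext rfl ?_
    change e (ρ (k q)) (u g (k q)) * π (ρ (k q)) ((c (k q))⁻¹ • q) + t (ρ (k q)) (u g (k q)) =
      π (ρ (k q)) ((c (g • k q))⁻¹ • g • q)
    have h1 : (c (g • k q))⁻¹ • g • q = u g (k q) • (c (k q))⁻¹ • q := by
      rw [hu, mul_smul, mul_smul, smul_inv_smul]
    rw [h1, p4 (ρ (k q)) (u g (k q)) _ (huf _ _) (by rw [hk, hci])]
  · intro r z
    refine ((p5 (ρ r) z).image (fun q => c r • q)).subset ?_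
    rintro q ⟨hq, hz⟩
    refine ⟨(c r)⁻¹ • q, ⟨?_, ?_⟩, ?_⟩
    · rw [hk, hq, hci]
    · have h1 : π (ρ (k q)) ((c (k q))⁻¹ • q) = z := hz
      rw [hq] at h1
      exact h1
    · exact smul_inv_smul _ _
  · intro g r
    change C (ρ (g • r)) = C (ρ r)
    rw [hρg]
  · intro r z
    obtain ⟨q, hq, hz⟩ := p6 (ρ r) z
    have h1 : k (c r • q) = r := by rw [hk, hq, hc]
    refine ⟨c r • q, h1, ?_⟩
    change |z - π (ρ (k (c r • q))) ((c (k (c r • q)))⁻¹ • c r • q)| ≤ _
    rw [h1, inv_smul_smul]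
    exact hz
  · intro n hn r z hz q hq
    have hz1 : n • r = r := congrArg Prod.fst hz
    have hz2 : e (ρ r) (u n r) * z + t (ρ r) (u n r) = z := congrArg Prod.snd hz
    have h1 : u n r ∈ N := by
      rw [hu, hz1]
      have h2 := Subgroup.Normal.conj_mem (inferInstance : N.Normal) n hn (c r)⁻¹
      rwa [inv_inv] at h2
    have h3 := p7 (ρ r) (u n r) h1 (huf n r) z hz2 ((c r)⁻¹ • q) (by rw [hk, hq, hci])
    rw [hu, hz1, mul_smul, mul_smul, smul_inv_smul] at h3
    exact MulAction.injective _ h3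

end VTB
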