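import Pool.Agent.Lib.MP_32d917_al_vt.VE
import Pool.Agent.Lib.MP_32d917_al_vt.A05

/-!
# Blow-up of a structure without internal labels: definitions and panels

`N` has no internal labels (`hN`). To every region `r` a line `{r} × ℤ` is attached. The new vertices are
`V ⊕ (Rg Γ co N × ℤ)`. A new point is a family `u` of new vertices, one for every label, with a base
`x : Pt` such that every coordinate of `u` is `inl` of the coordinate of `x` or an element `(r, z)` of a line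
of a region `r` of this label containing `x`; the labels of the second kind (internal labels) are
pairwise adjacent. Every label occurs at every old point (`hN`), so every `rg Γ co x i` is a region.

* `ub_ag`: if `x` is a base of `u`, `j` is internal at `u`, `u j = (r, z)`: `r` is the region of label `j` at `x`
  (`reg_mem`), so every `y` with `Ag (st j) x y` is in `r` and conversely.
* `ub_l`: `u` with base `x`, `i` occurs at `u`, `Ag {i} x y`: replace `u i` by `inl (co y i)`; base `y`: for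
  `j ≠ i` with `u j = inl` clear, for `j` internal `i ∈ st j` (`Oc`), so `y ∈ r` as well.
* `ub_r`: replace `u i` by `(r, z)`, `r` the region of label `i` at `x`: base `x`; the label `i` is adjacent to the
  other internal labels (`Oc`).
* `ub_oc`: if `u`, `v` differ only in the coordinate `i` (and differ there) then `i` occurs at `u`: let `j` be
  internal at `u`, `j ≠ i` (so also at `v`, `v j = u j`). If `i` is internal at `u` or at `v` use the clique
  condition. Otherwise `u i = inl (co x i)`, `v i = inl (co y i)` for bases `x`, `y`; both are in the region of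
  `u j`, so if `i ∉ st j` then `co x i = co y i`, contradiction.
* `ub_st`: if `i` occurs at `u`, `Ag (st i) u v`, bases `x`, `y` of `u`, `v`: then `Ag (st i) x y`: for `k ∉ st i`
  the label `k` is not internal at `u` (otherwise `i ∈ st k`), so `inl (co x k) = u k = v k = inl (co y k)`.
* `ub_pan`: `u`, `v` as in `ub_oc`, `x` a base of `u`: either there is `y` with `Ag {i} x y`, `y` a base of `v`,
  `v i = inl (co y i)`; or `v i = (r, z)`, `x ∈ r` and `x` is a base of `v`. Let `y'` be a base of `v`;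
  `ub_st` (`{i} ⊆ st i`): `Ag (st i) x y'`. If `v i = inl (co y' i)`: `reg_pt` gives `y` with `Ag {i} x y`,
  `co y i = co y' i`; base: as in `ub_l`. If `v i = (r, z)`, `y' ∈ r`, then `x ∈ r`.
* `ub_vr`: vertices of the region of label `i` at `u` (`i` occurs at `u`, base `x`): `inl` of the
  coordinates `i` of the points `y` with `Ag (st i) x y`, and all `(r, z)` with `r.1.1 = i`, `x ∈ r`.
  (→) `ub_st`; if `v i = (r, z)`, `y ∈ r`, then `x ∈ r`. (←) `reg_pt`, `ub_l`, `ub_r`.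
-/

set_option autoImplicit false

namespace VTB

open LatIso LatN LatF RaagIso

section

variable {ι Pt V : Type}

/-- the new vertices -/
abbrev UV (Γ : SimpleGraph ι) {κ : V → ι} (co : Pt → ∀ i, Fib κ i) (N : Pt → ι → Prop) : Type :=
  V ⊕ (Rg Γ co N × ℤ)

/-- the labels of the new vertices -/
def uk (Γ : SimpleGraph ι) {κ : V → ι} (co : Pt → ∀ i, Fib κ i) (N : Pt → ι → Prop) :
    UV Γ co N → ι
  | Sum.inl v => κ v
  | Sum.inr a => a.1.1.1

/-- `x` is a base of `u` -/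
def UBs {Γ : SimpleGraph ι} {κ : V → ι} {co : Pt → ∀ i, Fib κ i} {N : Pt → ι → Prop} (x : Pt)
    (u : ∀ i, Fib (uk Γ co N) i) : Prop :=
  ∀ i, (u i).1 = Sum.inl (co x i).1 ∨
    ∃ (r : Rg Γ co N) (z : ℤ), (u i).1 = Sum.inr (r, z) ∧ x ∈ r.1.2

/-- the label `i` is internal at `u` -/
def UInt {Γ : SimpleGraph ι} {κ : V → ι} {co : Pt → ∀ i, Fib κ i} {N : Pt → ι → Prop}
    (u : ∀ i, Fib (uk Γ co N) i) (i : ι) : Prop :=
  ∃ (r : Rg Γ co N) (z : ℤ), (u i).1 = Sum.inr (r, z)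

/-- the new points -/
abbrev UP (Γ : SimpleGraph ι) {κ : V → ι} (co : Pt → ∀ i, Fib κ i) (N : Pt → ι → Prop) : Type :=
  {u : ∀ i, Fib (uk Γ co N) i // (∃ x, UBs x u) ∧
    ∀ i j, i ≠ j → UInt u i → UInt u j → Γ.Adj i j}

/-- the new coordinates -/
def uco (Γ : SimpleGraph ι) {κ : V → ι} (co : Pt → ∀ i, Fib κ i) (N : Pt → ι → Prop)
    (u : UP Γ co N) : ∀ i, Fib (uk Γ co N) i := u.1

/-- the new internal labels -/
def uN (Γ : SimpleGraph ι) {κ : V → ι} (co : Pt → ∀ i, Fib κ i) (N : Pt → ι → Prop)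
    (u : UP Γ co N) (i : ι) : Prop := UInt u.1 i

/-- edges of the new graph: the lines, and the edges from `q` to `(r, Pi q)` -/
inductive UEd {Γ : SimpleGraph ι} {κ : V → ι} {co : Pt → ∀ i, Fib κ i} {N : Pt → ι → Prop}
    (Pi : QQ Γ co N → ℤ) : UV Γ co N → UV Γ co N → Prop
  | line (r : Rg Γ co N) (z : ℤ) : UEd Pi (Sum.inr (r, z)) (Sum.inr (r, z + 1))
  | leaf (q : QQ Γ co N) : UEd Pi (Sum.inl q.1.2) (Sum.inr (q.1.1, Pi q))

/-- the new graph -/
def uS {Γ : SimpleGraph ι} {κ : V → ι} {co : Pt → ∀ i, Fib κ i} {N : Pt → ι → Prop}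
    (Pi : QQ Γ co N → ℤ) : SimpleGraph (UV Γ co N) where
  Adj a b := UEd Pi a b ∨ UEd Pi b a
  symm := by
    constructor
    intro a b h
    exact h.symm
  loopless := ⟨fun a h => by
    have key : ∀ a b : UV Γ co N, UEd Pi a b → a ≠ b := by
      intro a b h
      cases h with
      | line r z =>
        intro h1
        have h2 := congrArg Prod.snd (Sum.inr.inj h1)
        have h3 : z = z + 1 := h2
        omega
      | leaf q =>
        intro h1
        exact Sum.inl_ne_inr h1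
    exact h.elim (fun h => key _ _ h rfl) (fun h => key _ _ h rfl)⟩

variable [Fintype ι] {Γ : SimpleGraph ι} {κ : V → ι} {S : SimpleGraph V}
  {co : Pt → ∀ i, Fib κ i} {N : Pt → ι → Prop}

private theorem i50_st {i j : ι} (h : i ∈ st Γ j) : j ∈ st Γ i := by
  rcases h with h | h
  · exact Or.inl h.symm
  · exact Or.inr (SimpleGraph.Adj.symm h)

private theorem i50_sub {i j : ι} (h : i ∈ st Γ j) : ({i} : Set ι) ⊆ st Γ j := by
  intro k hk
  rw [Set.mem_singleton_iff] at hk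
  rw [hk]
  exact h

theorem ub_ag {u : ∀ i, Fib (uk Γ co N) i} {x : Pt} (hx : UBs x u) {j : ι} {r : Rg Γ co N} {z : ℤ}
    (hj : (u j).1 = Sum.inr (r, z)) : r.1.1 = j ∧ x ∈ r.1.2 ∧
      ∀ y, y ∈ r.1.2 ↔ Ag co (st Γ j) x y := by
  have h1 : r.1.1 = j := by
    have h2 := (u j).2
    rw [hj] at h2
    exact h2
  have h2 : x ∈ r.1.2 := by
    rcases hx j with h3 | ⟨r', z', h3, h4⟩
    · rw [hj] at h3
      exact absurd h3.symm Sum.inl_ne_inr
    · rw [hj] at h3
      have h5 := congrArg Prod.fst (Sum.inr.inj h3)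
      have h6 : r = r' := h5
      rw [h6]
      exact h4
  refine ⟨h1, h2, fun y => ?_⟩
  have h3 := reg_mem r.2 h2
  have h4 : r.1.2 = {y | Ag co (st Γ r.1.1) x y} := congrArg Prod.snd h3
  rw [← h1]
  constructor
  · intro hy
    rw [h4] at hy
    exact hy
  · intro hy
    rw [h4]
    exact hy

/-- change of one coordinate -/
private theorem i50_upd (u : UP Γ co N) {i : ι} (p : Fib (uk Γ co N) i) {y : Pt}
    (hi : p.1 = Sum.inl (co y i).1 ∨ ∃ (r : Rg Γ co N) (z : ℤ), p.1 = Sum.inr (r, z) ∧ y ∈ r.1.2)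
    (hy : ∀ k, k ≠ i → (u.1 k).1 = Sum.inl (co y k).1 ∨
      ∃ (r : Rg Γ co N) (z : ℤ), (u.1 k).1 = Sum.inr (r, z) ∧ y ∈ r.1.2)
    (hc : (∃ (r : Rg Γ co N) (z : ℤ), p.1 = Sum.inr (r, z)) → ∀ b, i ≠ b → UInt u.1 b →
      Γ.Adj i b) :
    ∃ v : UP Γ co N, UBs y v.1 ∧ Ag (uco Γ co N) {i} u v ∧ uco Γ co N v i = p := by
  classical
  have e1 : Function.update u.1 i p i = p := Function.update_self _ _ _
  have e2 : ∀ k, k ≠ i → Function.update u.1 i p k = u.1 k := fun k hk =>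
    Function.update_of_ne hk _ _
  have hb : UBs y (Function.update u.1 i p) := by
    intro k
    by_cases hk : k = i
    · subst hk
      rw [e1]
      exact hi
    · rw [e2 k hk]
      exact hy k hk
  refine ⟨⟨Function.update u.1 i p, ⟨y, hb⟩, ?_⟩, hb, ?_, e1⟩
  · intro a b hab ha hb'
    by_cases hai : a = i
    · subst hai
      have hbi : b ≠ a := fun h => hab h.symm
      obtain ⟨r, z, h1⟩ := ha
      rw [e1] at h1
      obtain ⟨r', z', h2⟩ := hb'
      rw [e2 b hbi] at h2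
      exact hc ⟨r, z, h1⟩ b hab ⟨r', z', h2⟩
    · obtain ⟨r, z, h1⟩ := ha
      rw [e2 a hai] at h1
      by_cases hbi : b = i
      · subst hbi
        obtain ⟨r', z', h2⟩ := hb'
        rw [e1] at h2
        exact (hc ⟨r', z', h2⟩ a (fun h => hab h.symm) ⟨r, z, h1⟩).symm
      · obtain ⟨r', z', h2⟩ := hb'
        rw [e2 b hbi] at h2
        exact u.2.2 a b hab ⟨r, z, h1⟩ ⟨r', z', h2⟩
  · intro k hk
    exact e2 k hk

private theorem i50_move {u : ∀ i, Fib (uk Γ co N) i} {x y : Pt} (hx : UBs x u) {i : ι}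
    (ho : ∀ k, UInt u k → i ∈ st Γ k) (hy : Ag co {i} x y) {k : ι} (hk : k ≠ i) :
    (u k).1 = Sum.inl (co y k).1 ∨
      ∃ (r : Rg Γ co N) (z : ℤ), (u k).1 = Sum.inr (r, z) ∧ y ∈ r.1.2 := by
  rcases hx k with h | ⟨r, z, h1, _⟩
  · left
    rw [hy k hk]
    exact h
  · right
    obtain ⟨_, _, h5⟩ := ub_ag hx h1
    exact ⟨r, z, h1, (h5 y).2 (ag_mono (i50_sub (ho k ⟨r, z, h1⟩)) hy)⟩

theorem ub_l (u : UP Γ co N) {x y : Pt} (hx : UBs x u.1) {i : ι}
    (ho : Oc Γ (uN Γ co N) u i) (hy : Ag co {i} x y) :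
    ∃ v : UP Γ co N, UBs y v.1 ∧ Ag (uco Γ co N) {i} u v ∧
      (uco Γ co N v i).1 = Sum.inl (co y i).1 := by
  obtain ⟨v, h1, h2, h3⟩ := i50_upd u (i := i) (y := y) ⟨Sum.inl (co y i).1, (co y i).2⟩
    (Or.inl rfl) (fun k hk => i50_move hx ho hy hk)
    (fun ⟨r, z, h⟩ => absurd h Sum.inl_ne_inr)
  exact ⟨v, h1, h2, by rw [h3]⟩

theorem ub_r (u : UP Γ co N) {x : Pt} (hx : UBs x u.1) {i : ι}
    (ho : Oc Γ (uN Γ co N) u i) (r : Rg Γ co N) (hr : r.1.1 = i) (hxr : x ∈ r.1.2) (z : ℤ) :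
    ∃ v : UP Γ co N, UBs x v.1 ∧ Ag (uco Γ co N) {i} u v ∧
      (uco Γ co N v i).1 = Sum.inr (r, z) := by
  obtain ⟨v, h1, h2, h3⟩ := i50_upd u (i := i) (y := x) ⟨Sum.inr (r, z), hr⟩
    (Or.inr ⟨r, z, rfl, hxr⟩) (fun k _ => hx k)
    (fun _ b hb hb' => by
      rcases ho b hb' with h | h
      · exact absurd h hb
      · exact SimpleGraph.Adj.symm h)
  exact ⟨v, h1, h2, by rw [h3]⟩

theorem ub_oc (u v : UP Γ co N) {i : ι} (h : Ag (uco Γ co N) {i} u v)
    (hne : uco Γ co N u i ≠ uco Γ co N v i) : Oc Γ (uN Γ co N) u i := by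
  intro j hj
  by_cases hji : j = i
  · exact Or.inl hji.symm
  have hvj : v.1 j = u.1 j := h j hji
  have hj0 : UInt u.1 j := hj
  obtain ⟨r, z, hr⟩ := hj
  have hvr : (v.1 j).1 = Sum.inr (r, z) := by
    rw [hvj]
    exact hr
  by_cases h1 : UInt u.1 i
  · exact Or.inr (u.2.2 j i hji hj0 h1)
  by_cases h2 : UInt v.1 i
  · exact Or.inr (v.2.2 j i hji ⟨r, z, hvr⟩ h2)
  by_contra hst
  obtain ⟨x, hx⟩ := u.2.1
  obtain ⟨y, hy⟩ := v.2.1
  have e1 : (u.1 i).1 = Sum.inl (co x i).1 := by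
    rcases hx i with h3 | ⟨r', z', h3, _⟩
    · exact h3
    · exact absurd ⟨r', z', h3⟩ h1
  have e2 : (v.1 i).1 = Sum.inl (co y i).1 := by
    rcases hy i with h3 | ⟨r', z', h3, _⟩
    · exact h3
    · exact absurd ⟨r', z', h3⟩ h2
  obtain ⟨_, _, h5⟩ := ub_ag hx hr
  obtain ⟨_, h6, _⟩ := ub_ag hy hvr
  have h7 := (h5 y).1 h6 i hst
  apply hne
  apply Subtype.ext
  show (u.1 i).1 = (v.1 i).1
  rw [e1, e2, h7]

theorem ub_st (u v : UP Γ co N) {i : ι} (ho : Oc Γ (uN Γ co N) u i)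
    (h : Ag (uco Γ co N) (st Γ i) u v) {x y : Pt} (hx : UBs x u.1) (hy : UBs y v.1) :
    Ag co (st Γ i) x y := by
  intro k hk
  have hvk : v.1 k = u.1 k := h k hk
  have hnot : ¬ UInt u.1 k := fun hh => hk (i50_st (ho k hh))
  have e1 : (u.1 k).1 = Sum.inl (co x k).1 := by
    rcases hx k with h3 | ⟨r', z', h3, _⟩
    · exact h3
    · exact absurd ⟨r', z', h3⟩ hnot
  have e2 : (v.1 k).1 = Sum.inl (co y k).1 := by
    rcases hy k with h3 | ⟨r', z', h3, _⟩
    · exact h3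
    · rw [hvk] at h3
      exact absurd ⟨r', z', h3⟩ hnot
  rw [hvk, e1] at e2
  exact Subtype.ext (Sum.inl.inj e2).symm

theorem ub_pan (M : MS1 Γ (comp κ S) co N) (hN : ∀ x i, ¬ N x i) (u v : UP Γ co N) {i : ι}
    (h : Ag (uco Γ co N) {i} u v) (hne : uco Γ co N u i ≠ uco Γ co N v i) {x : Pt}
    (hx : UBs x u.1) :
    (∃ y, Ag co {i} x y ∧ UBs y v.1 ∧ (uco Γ co N v i).1 = Sum.inl (co y i).1) ∨
      ∃ (r : Rg Γ co N) (z : ℤ), UBs x v.1 ∧ x ∈ r.1.2 ∧
        (uco Γ co N v i).1 = Sum.inr (r, z) := by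
  have ho := ub_oc u v h hne
  obtain ⟨y', hy'⟩ := v.2.1
  have hag := ub_st u v ho (ag_mono (i50_sub (Or.inl rfl)) h) hx hy'
  have hvk : ∀ k, k ≠ i → v.1 k = u.1 k := fun k hk => h k hk
  rcases hy' i with h1 | ⟨r, z, h1, h2⟩
  · left
    obtain ⟨y, hy, hyi⟩ := reg_pt M hag
    have h3 : (v.1 i).1 = Sum.inl (co y i).1 := by rw [h1, hyi]
    refine ⟨y, hy, fun k => ?_, h3⟩
    by_cases hk : k = i
    · subst hk
      exact Or.inl h3
    · rw [hvk k hk]
      exact i50_move hx ho hy hk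
  · right
    obtain ⟨_, _, h5⟩ := ub_ag hy' h1
    have hxr : x ∈ r.1.2 := (h5 x).2 (ag_symm hag)
    refine ⟨r, z, fun k => ?_, hxr, h1⟩
    by_cases hk : k = i
    · subst hk
      exact Or.inr ⟨r, z, h1, hxr⟩
    · rw [hvk k hk]
      exact hx k

theorem ub_vr (M : MS1 Γ (comp κ S) co N) (hN : ∀ x i, ¬ N x i) (u : UP Γ co N) {x : Pt}
    (hx : UBs x u.1) {i : ι} (ho : Oc Γ (uN Γ co N) u i) (p : Fib (uk Γ co N) i) :
    VR (uco Γ co N) (rg Γ (uco Γ co N) u i) p ↔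
      (∃ y, Ag co (st Γ i) x y ∧ p.1 = Sum.inl (co y i).1) ∨
        ∃ (r : Rg Γ co N) (z : ℤ), r.1.1 = i ∧ x ∈ r.1.2 ∧ p.1 = Sum.inr (r, z) := by
  constructor
  · rintro ⟨w, hw, hwp⟩
    have hw' : Ag (uco Γ co N) (st Γ i) u w := hw
    have hwp' : w.1 i = p := hwp
    obtain ⟨y, hy⟩ := w.2.1
    have hag := ub_st u w ho hw' hx hy
    rcases hy i with h1 | ⟨r, z, h1, h2⟩
    · left
      refine ⟨y, hag, ?_⟩
      rw [← hwp']
      exact h1
    · right
      obtain ⟨h3, _, h5⟩ := ub_ag hy h1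
      refine ⟨r, z, h3, (h5 x).2 (ag_symm hag), ?_⟩
      rw [← hwp']
      exact h1
  · rintro (⟨y, hy, hp⟩ | ⟨r, z, hr, hxr, hp⟩)
    · obtain ⟨w, hw, hwi⟩ := reg_pt M hy
      obtain ⟨v, _, h2, h3⟩ := ub_l u hx ho hw
      refine ⟨v, ag_mono (i50_sub (Or.inl rfl)) h2, ?_⟩
      apply Subtype.ext
      show (uco Γ co N v i).1 = p.1
      rw [h3, hwi, hp]
    · obtain ⟨v, _, h2, h3⟩ := ub_r u hx ho r hr hxr z
      refine ⟨v, ag_mono (i50_sub (Or.inl rfl)) h2, ?_⟩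
      apply Subtype.ext
      show (uco Γ co N v i).1 = p.1
      rw [h3, hp]

end

end VTB
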