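import Pool.Agent.Lib.MP_32d917_al_vt.WDefs

/-!
# W15: a graph with parents is a tree (40 min)

Pure graph theory. Adjacent vertices have values of `h` which differ by 1 (`h3`), and every vertex `v` has at most one neighbour with smaller value, `par v`. Connected and `dist r v ≤ h v`: induction on `h v` (`h2`; `h v = 0` gives `v = r`). `h v ≤` length of any walk from `r` to `v` (the value changes by at most 1 in one step).
Acyclic: let `c` be a cycle; choose a vertex `v` on it with `h v` maximal and rotate the cycle to `v` (`SimpleGraph.Walk.IsCycle.rotate`); `c.snd` and `c.penultimate` are neighbours of `v` with value at most `h v`, so both are `par v` (`h3`), but they are different (`SimpleGraph.Walk.IsCycle.snd_ne_penultimate`).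
(Alternatively: uniqueness of paths from `r`.)
-/

set_option autoImplicit false

namespace VTB

open LatIso LatN LatF

theorem tree_par {V : Type} (S : SimpleGraph V) (r : V) (h : V → ℕ) (par : V → V)
    (h0 : h r = 0) (h1 : ∀ v, h v = 0 → v = r)
    (h2 : ∀ v, h v ≠ 0 → S.Adj (par v) v ∧ h (par v) + 1 = h v)
    (h3 : ∀ u v, S.Adj u v → (u = par v ∧ h v = h u + 1) ∨ (v = par u ∧ h u = h v + 1)) :
    S.IsTree ∧ ∀ v, S.dist r v = h v := by
  classical
  have hw : ∀ n v, h v = n → ∃ p : S.Walk r v, p.length = n := by
    intro n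
    induction n with
    | zero =>
      intro v hv
      obtain rfl := h1 v hv
      exact ⟨.nil, rfl⟩
    | succ n ih =>
      intro v hv
      obtain ⟨ha, hb⟩ := h2 v (by omega)
      obtain ⟨p, hp⟩ := ih (par v) (by omega)
      exact ⟨p.concat ha, by rw [SimpleGraph.Walk.length_concat, hp]⟩
  have hconn : S.Connected := by
    rw [SimpleGraph.connected_iff_exists_forall_reachable]
    refine ⟨r, fun v => ?_⟩
    obtain ⟨p, -⟩ := hw _ v rfl
    exact ⟨p⟩
  have hle : ∀ {u v : V} (p : S.Walk u v), h v ≤ h u + p.length := by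
    intro u v p
    induction p with
    | nil => simp
    | @cons a b c hab q ih =>
      rw [SimpleGraph.Walk.length_cons]
      rcases h3 _ _ hab with ⟨-, h4⟩ | ⟨-, h4⟩ <;> omega
  refine ⟨⟨hconn, ?_⟩, ?_⟩
  · intro v c hc
    obtain ⟨w, hw1, hw2⟩ : ∃ w ∈ c.support, ∀ u ∈ c.support, h u ≤ h w := by
      obtain ⟨w, hw1, hw2⟩ := (c.support.toFinset).exists_max_image h
        ⟨v, List.mem_toFinset.2 c.start_mem_support⟩
      exact ⟨w, List.mem_toFinset.1 hw1, fun u hu => hw2 u (List.mem_toFinset.2 hu)⟩
    have hc' : (c.rotate w hw1).IsCycle := (SimpleGraph.Walk.isCycle_rotate hw1).2 hc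
    set d := c.rotate w hw1 with hd
    have hsup : ∀ u ∈ d.support, h u ≤ h w := by
      intro u hu
      apply hw2
      rwa [SimpleGraph.Walk.mem_support_rotate_iff] at hu
    have hn : ¬ d.Nil := hc'.not_nil
    have e1 := d.adj_snd hn
    have e2 := d.adj_penultimate hn
    have e3 := hsup d.snd (d.getVert_mem_support _)
    have e4 := hsup d.penultimate (d.getVert_mem_support _)
    have e5 : d.snd = par w := by
      rcases h3 _ _ e1 with ⟨h4, h5⟩ | ⟨h4, h5⟩
      · omega
      · exact h4
    have e6 : d.penultimate = par w := by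
      rcases h3 _ _ e2 with ⟨h4, h5⟩ | ⟨h4, h5⟩
      · exact h4
      · omega
    exact hc'.snd_ne_penultimate (e5.trans e6.symm)
  · intro v
    obtain ⟨p, hp⟩ := hw _ v rfl
    have k1 : S.dist r v ≤ h v := by rw [← hp]; exact SimpleGraph.dist_le p
    obtain ⟨q, hq⟩ := hconn.exists_walk_length_eq_dist r v
    have k2 := hle q
    omega

end VTB
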