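import Pool.Agent.Lib.MP_32d917_al.ST1
import Pool.Agent.Lib.MP_32d917_al_vt.W15

/-!
# Trees with leaves attached, caterpillars

* `leaf_tree`: `T` is a tree on `W`, `inc : W → W'` injective with left inverse `ρ`, `T'` a graph on `W'` with
  `T'.Adj (inc a) (inc b) ↔ T.Adj a b`, and every `c` which is not in the range of `inc` (a leaf) is
  adjacent exactly to `inc (ρ c)`. Then `T'` is a tree, and `T'.dist (inc r) v = T.dist r (ρ v) + (0 if v
  is in the range, 1 otherwise)`: `tree_par` (W15) with root `inc r`, `h v` the right side, `par (inc a)` :=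
  `inc n` with `n` the neighbour of `a` towards `r` (`st_next`, for `a ≠ r`; arbitrary for `a = r`), `par c :=
  inc (ρ c)` for leaves. (`h3`: an edge `inc a, inc b`: `st_adj`, `st_uniq`; an edge at a leaf: clear,
  two leaves are not adjacent.)
* `leaf_dist`: for `a ≠ b`, or `a = b` in the range: `T'.dist a b = lv a + lv b + T.dist (ρ a) (ρ b)`, where
  `lv a = 0` if `a = inc (ρ a)` and `1` otherwise. If `a` or `b` is in the range: `leaf_tree`
  (and symmetry). If both are leaves: `st_next` gives a neighbour `n` of `a` with `Bt T' a n b`, `n = inc (ρ a)`,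
  so `dist a b = 1 + dist (inc (ρ a)) b = 1 + (T.dist (ρ a) (ρ b) + 1)`.
* `leaf_bt`: `Bt T (ρ a) w (ρ b)` and (`a ≠ b` or `a = inc (ρ a)`) give `Bt T' a (inc w) b`.
* `zl_tree`: the line `ℤ` (`b = a + 1 ∨ a = b + 1`) is a tree: `tree_par` with root `0`, `h z = z.natAbs`,
  `par z = z - 1` for `z > 0`, `z + 1` for `z < 0`.
* `cat_tree`: `leaf_tree` for the line.
-/

set_option autoImplicit false

namespace VTB

open LatIso LatN LatF

section

variable {W W' : Type} {T : SimpleGraph W} {T' : SimpleGraph W'} {inc : W → W'} {ρ : W' → W}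

/-- `T'` is the graph `T` with leaves attached -/
structure Lvs (T : SimpleGraph W) (T' : SimpleGraph W') (inc : W → W') (ρ : W' → W) : Prop where
  tree : T.IsTree
  ri : ∀ a, ρ (inc a) = a
  adj : ∀ a b, T'.Adj (inc a) (inc b) ↔ T.Adj a b
  leaf : ∀ c, c ≠ inc (ρ c) → ∀ d, T'.Adj c d ↔ d = inc (ρ c)

open Classical in
/-- 1 for leaves, 0 for old vertices -/
noncomputable def lvn (inc : W → W') (ρ : W' → W) (a : W') : ℕ := if a = inc (ρ a) then 0 else 1

private theorem T09_lvn0 {a : W'} (ha : a = inc (ρ a)) : lvn inc ρ a = 0 := by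
  unfold lvn
  rw [if_pos ha]

private theorem T09_lvn1 {a : W'} (ha : a ≠ inc (ρ a)) : lvn inc ρ a = 1 := by
  unfold lvn
  rw [if_neg ha]

private theorem T09_inc (h : Lvs T T' inc ρ) (a : W) : inc a = inc (ρ (inc a)) := by
  rw [h.ri]

private theorem T09_one (h : Lvs T T' inc ρ) (r : W) :
    T'.IsTree ∧ ∀ v, T'.dist (inc r) v = T.dist r (ρ v) + lvn inc ρ v := by
  classical
  have hS := h.tree
  have hn : ∀ a : W, ∃ n, a ≠ r → T.Adj a n ∧ Bt T a n r := by
    intro a
    by_cases ha : a = r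
    · exact ⟨a, fun h => absurd ha h⟩
    · obtain ⟨n, h1, h2⟩ := st_next hS ha
      exact ⟨n, fun _ => ⟨h1, h2⟩⟩
  choose nx hnx using hn
  have hdn : ∀ a, a ≠ r → T.dist r (nx a) + 1 = T.dist r a := by
    intro a ha
    obtain ⟨h1, h2⟩ := hnx a ha
    unfold Bt at h2
    rw [st1_one h1] at h2
    have c1 : T.dist r (nx a) = T.dist (nx a) r := SimpleGraph.dist_comm
    have c2 : T.dist r a = T.dist a r := SimpleGraph.dist_comm
    omega
  refine tree_par T' (inc r) (fun v => T.dist r (ρ v) + lvn inc ρ v)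
    (fun v => if v = inc (ρ v) then inc (nx (ρ v)) else inc (ρ v)) ?_ ?_ ?_ ?_
  · show T.dist r (ρ (inc r)) + lvn inc ρ (inc r) = 0
    rw [h.ri, T09_lvn0 (T09_inc h r), SimpleGraph.dist_self]
  · intro v hv
    have hv' : T.dist r (ρ v) + lvn inc ρ v = 0 := hv
    have h1 : T.dist r (ρ v) = 0 := by omega
    have h2 : r = ρ v := st1_eq hS h1
    by_cases hl : v = inc (ρ v)
    · rw [hl, ← h2]
    · rw [T09_lvn1 hl] at hv'
      omega
  · intro v hv
    have hv' : T.dist r (ρ v) + lvn inc ρ v ≠ 0 := hv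
    by_cases hl : v = inc (ρ v)
    · rw [if_pos hl]
      rw [T09_lvn0 hl] at hv'
      have hne : ρ v ≠ r := by
        intro h1
        rw [h1, SimpleGraph.dist_self] at hv'
        exact hv' rfl
      refine ⟨?_, ?_⟩
      · have h1 : T'.Adj (inc (nx (ρ v))) (inc (ρ v)) := (h.adj _ _).2 (hnx _ hne).1.symm
        rwa [← hl] at h1
      · show T.dist r (ρ (inc (nx (ρ v)))) + lvn inc ρ (inc (nx (ρ v))) + 1 =
          T.dist r (ρ v) + lvn inc ρ v
        rw [h.ri, T09_lvn0 (T09_inc h _), T09_lvn0 hl, add_zero, add_zero]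
        exact hdn _ hne
    · rw [if_neg hl]
      refine ⟨((h.leaf v hl _).2 rfl).symm, ?_⟩
      show T.dist r (ρ (inc (ρ v))) + lvn inc ρ (inc (ρ v)) + 1 = T.dist r (ρ v) + lvn inc ρ v
      rw [h.ri, T09_lvn0 (T09_inc h _), T09_lvn1 hl]
  · intro u v huv
    show (u = (if v = inc (ρ v) then inc (nx (ρ v)) else inc (ρ v)) ∧
        T.dist r (ρ v) + lvn inc ρ v = T.dist r (ρ u) + lvn inc ρ u + 1) ∨
      (v = (if u = inc (ρ u) then inc (nx (ρ u)) else inc (ρ u)) ∧
        T.dist r (ρ u) + lvn inc ρ u = T.dist r (ρ v) + lvn inc ρ v + 1)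
    by_cases hu : u = inc (ρ u)
    · by_cases hv : v = inc (ρ v)
      · rw [if_pos hu, if_pos hv, T09_lvn0 hu, T09_lvn0 hv]
        have hT : T.Adj (ρ u) (ρ v) := by
          rw [hu, hv] at huv
          exact (h.adj _ _).1 huv
        have key : ∀ a b : W, T.Adj a b → T.dist r b = T.dist r a + 1 → a = nx b := by
          intro a b hab hd
          have hne : b ≠ r := by
            rintro rfl
            rw [SimpleGraph.dist_self] at hd
            omega
          obtain ⟨h1, h2⟩ := hnx b hne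
          refine st_uniq hS hab.symm h1 ?_ h2
          unfold Bt
          rw [st1_one hab.symm]
          have c1 : T.dist r a = T.dist a r := SimpleGraph.dist_comm
          have c2 : T.dist r b = T.dist b r := SimpleGraph.dist_comm
          omega
        rcases st_adj hS hT r with h1 | h1
        · left
          refine ⟨?_, by omega⟩
          rw [← key _ _ hT h1]
          exact hu
        · right
          refine ⟨?_, by omega⟩
          rw [← key _ _ hT.symm h1]
          exact hv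
      · left
        have h1 := (h.leaf v hv u).1 huv.symm
        rw [if_neg hv, T09_lvn0 hu, T09_lvn1 hv]
        refine ⟨h1, ?_⟩
        rw [h1, h.ri]
    · right
      have h1 := (h.leaf u hu v).1 huv
      have h2 : v = inc (ρ v) := by
        rw [h1, h.ri]
      rw [if_neg hu, T09_lvn0 h2, T09_lvn1 hu]
      refine ⟨h1, ?_⟩
      rw [h1, h.ri]

theorem leaf_tree (h : Lvs T T' inc ρ) :
    T'.IsTree ∧ ∀ r v, T'.dist (inc r) v = T.dist r (ρ v) + lvn inc ρ v := by
  obtain ⟨r⟩ := h.tree.connected.nonempty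
  exact ⟨(T09_one h r).1, fun r v => (T09_one h r).2 v⟩

theorem leaf_dist (h : Lvs T T' inc ρ) {a b : W'} (hab : a ≠ b ∨ a = inc (ρ a)) :
    T'.dist a b = lvn inc ρ a + lvn inc ρ b + T.dist (ρ a) (ρ b) := by
  obtain ⟨hT, hd⟩ := leaf_tree h
  by_cases ha : a = inc (ρ a)
  · rw [T09_lvn0 ha]
    have h1 := hd (ρ a) b
    rw [← ha] at h1
    omega
  · by_cases hb : b = inc (ρ b)
    · rw [T09_lvn0 hb]
      have h1 := hd (ρ b) a
      rw [← hb] at h1
      have c1 : T'.dist a b = T'.dist b a := SimpleGraph.dist_comm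
      have c2 : T.dist (ρ a) (ρ b) = T.dist (ρ b) (ρ a) := SimpleGraph.dist_comm
      omega
    · have hne : a ≠ b := hab.resolve_right ha
      obtain ⟨n, hn, hn2⟩ := st_next hT hne
      have h1 := (h.leaf a ha n).1 hn
      unfold Bt at hn2
      rw [st1_one hn, h1, hd, T09_lvn1 hb] at hn2
      rw [T09_lvn1 ha, T09_lvn1 hb]
      omega

theorem leaf_bt (h : Lvs T T' inc ρ) {a b : W'} (hab : a ≠ b ∨ a = inc (ρ a)) {w : W}
    (hw : Bt T (ρ a) w (ρ b)) : Bt T' a (inc w) b := by
  obtain ⟨hT, hd⟩ := leaf_tree h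
  have h1 := hd w a
  have h2 := hd w b
  have h3 := leaf_dist h hab
  unfold Bt at hw ⊢
  have c1 : T'.dist a (inc w) = T'.dist (inc w) a := SimpleGraph.dist_comm
  have c2 : T.dist (ρ a) w = T.dist w (ρ a) := SimpleGraph.dist_comm
  omega

/-- the line -/
def ZL : SimpleGraph ℤ where
  Adj a b := b = a + 1 ∨ a = b + 1
  symm := by
    constructor
    intro a b h
    exact h.symm
  loopless := ⟨fun a h => by rcases h with h | h <;> omega⟩

theorem zl_tree : ZL.IsTree := by
  refine (tree_par ZL 0 (fun z => z.natAbs) (fun z => if 0 < z then z - 1 else z + 1) ?_ ?_ ?_ ?_).1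
  · rfl
  · intro v hv
    exact Int.natAbs_eq_zero.1 hv
  · intro v hv
    have hv' : v.natAbs ≠ 0 := hv
    show ZL.Adj (if 0 < v then v - 1 else v + 1) v ∧
      (if 0 < v then v - 1 else v + 1).natAbs + 1 = v.natAbs
    split_ifs with h1
    · refine ⟨Or.inl (by omega), by omega⟩
    · refine ⟨Or.inr (by omega), by omega⟩
  · intro u v huv
    show (u = (if 0 < v then v - 1 else v + 1) ∧ v.natAbs = u.natAbs + 1) ∨
      (v = (if 0 < u then u - 1 else u + 1) ∧ u.natAbs = v.natAbs + 1)
    have huv' : v = u + 1 ∨ u = v + 1 := huv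
    split_ifs with h1 h2 h2 <;> omega

/-- caterpillars are trees -/
theorem cat_tree {W : Type} (T : SimpleGraph W) (l : ℤ → W) (ρ : W → ℤ) (h1 : ∀ z, ρ (l z) = z)
    (h2 : ∀ a b, T.Adj (l a) (l b) ↔ b = a + 1 ∨ a = b + 1)
    (h3 : ∀ c, c ≠ l (ρ c) → ∀ d, T.Adj c d ↔ d = l (ρ c)) : T.IsTree :=
  (leaf_tree (T := ZL) (T' := T) (inc := l) (ρ := ρ)
    { tree := zl_tree
      ri := h1
      adj := h2
      leaf := h3 }).1

end

end VTB
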