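import Pool.Agent.Lib.MP_32d917_al_vt.I50
import Pool.Agent.Lib.MP_32d917_al_vt.T09

/-!
# Blow-up: auxiliary trees, points without internal labels, projections

The auxiliary graph `uS0 S pr`: the old graph with all elements `(r, z)` attached as leaves to one vertex
`pr r` of the tree of the region `r`.

* `ua_lvs`: over the label `i` this is the tree `comp κ S i` with leaves attached (`Lvs`, T09).
* `ub_pt`: the point over `x` without internal labels (all coordinates `inl (co x i)`); `ub_pt_uniq`:
  a point with base `x` and without internal labels is `ub_pt x`.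
* `ua_rho`: every point `u` has a base `x` such that `co x i = urho ... (u i)` for all `i` (that is
  `co x i = pr r` if `u i = (r, z)`). For every finite set `F` of labels there is a base `x` of `u` with
  this property for all `i ∈ F` which are internal at `u` (for labels which are not internal it is clear);
  induction (`Finset.induction_on`), step: `i` internal at `u`, `u i = (r, z)`, `x` a base. By `hpr` there is
  `x0 ∈ r` with `(co x0 i).1 = pr r`; `x ∈ r` as well (`ub_ag`), so `Ag (st i) x x0` and `reg_pt` gives `y` with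
  `Ag {i} x y`, `co y i = co x0 i`. `y` is a base of `u`: at `i` since `y ∈ r`; at `j ≠ i` not internal clear; at
  `j ≠ i` internal `i ∈ st j` (clique), so `y` is in the region of `u j`.
-/

set_option autoImplicit false

namespace VTB

open LatIso LatN LatF RaagIso

section

variable {ι Pt V : Type}

/-- edges of the auxiliary graph -/
inductive UEd0 {Γ : SimpleGraph ι} {κ : V → ι} {co : Pt → ∀ i, Fib κ i} {N : Pt → ι → Prop}
    (S : SimpleGraph V) (pr : Rg Γ co N → V) : UV Γ co N → UV Γ co N → Prop
  | old (a b : V) : S.Adj a b → UEd0 S pr (Sum.inl a) (Sum.inl b)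
  | leaf (r : Rg Γ co N) (z : ℤ) : UEd0 S pr (Sum.inl (pr r)) (Sum.inr (r, z))

/-- the auxiliary graph -/
def uS0 {Γ : SimpleGraph ι} {κ : V → ι} {co : Pt → ∀ i, Fib κ i} {N : Pt → ι → Prop}
    (S : SimpleGraph V) (pr : Rg Γ co N → V) : SimpleGraph (UV Γ co N) where
  Adj a b := UEd0 S pr a b ∨ UEd0 S pr b a
  symm := by
    constructor
    intro a b h
    exact h.symm
  loopless := ⟨fun a h => by
    have key : ∀ a b : UV Γ co N, UEd0 S pr a b → a ≠ b := by
      intro a b h
      cases h with
      | old a b h =>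
        intro h1
        exact h.ne (Sum.inl.inj h1)
      | leaf r z =>
        intro h1
        exact Sum.inl_ne_inr h1
    exact h.elim (fun h => key _ _ h rfl) (fun h => key _ _ h rfl)⟩

/-- the inclusion of the old vertices -/
def uinc {Γ : SimpleGraph ι} {κ : V → ι} {co : Pt → ∀ i, Fib κ i} {N : Pt → ι → Prop} (i : ι)
    (a : Fib κ i) : Fib (uk Γ co N) i := ⟨Sum.inl a.1, a.2⟩

/-- the projection to the old vertices -/
def urho {Γ : SimpleGraph ι} {κ : V → ι} {co : Pt → ∀ i, Fib κ i} {N : Pt → ι → Prop}
    {pr : Rg Γ co N → V} (hk : ∀ r, κ (pr r) = r.1.1) (i : ι) (a : Fib (uk Γ co N) i) : Fib κ i :=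
  ⟨match a.1 with
    | Sum.inl v => v
    | Sum.inr b => pr b.1, by
    obtain ⟨a, ha⟩ := a
    cases a with
    | inl v => exact ha
    | inr b => exact (hk b.1).trans ha⟩

variable [Fintype ι] {Γ : SimpleGraph ι} {κ : V → ι} {S : SimpleGraph V}
  {co : Pt → ∀ i, Fib κ i} {N : Pt → ι → Prop} {pr : Rg Γ co N → V}

private theorem i51_in {r : Rg Γ co N} {z : ℤ} (hk : ∀ r : Rg Γ co N, κ (pr r) = r.1.1) {i : ι}
    {a : Fib (uk Γ co N) i} (h : a.1 = Sum.inr (r, z)) : (urho hk i a).1 = pr r := by
  obtain ⟨a, ha⟩ := a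
  cases a with
  | inl v => exact absurd h Sum.inl_ne_inr
  | inr b =>
    have h1 : b = (r, z) := Sum.inr.inj h
    subst h1
    rfl

private theorem i51_il {v : V} (hk : ∀ r : Rg Γ co N, κ (pr r) = r.1.1) {i : ι}
    {a : Fib (uk Γ co N) i} (h : a.1 = Sum.inl v) : (urho hk i a).1 = v := by
  obtain ⟨a, ha⟩ := a
  cases a with
  | inl w => exact Sum.inl.inj h
  | inr b => exact absurd h Sum.inr_ne_inl

theorem ua_lvs (M : MS1 Γ (comp κ S) co N) (hk : ∀ r : Rg Γ co N, κ (pr r) = r.1.1) (i : ι) :
    Lvs (comp κ S i) (comp (uk Γ co N) (uS0 S pr) i) (uinc i) (urho hk i) := by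
  refine ⟨M.tree i, fun a => Subtype.ext rfl, fun a b => ?_, fun c hc d => ?_⟩
  · constructor
    · intro h
      rcases h with h | h
      · generalize hx : (uinc (Γ := Γ) (co := co) (N := N) i a).1 = x at h
        generalize hy : (uinc (Γ := Γ) (co := co) (N := N) i b).1 = y at h
        cases h with
        | old p q hpq =>
          have e1 : a.1 = p := Sum.inl.inj hx
          have e2 : b.1 = q := Sum.inl.inj hy
          show S.Adj a.1 b.1
          rw [e1, e2]
          exact hpq
        | leaf r z => exact absurd hy Sum.inl_ne_inr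
      · generalize hx : (uinc (Γ := Γ) (co := co) (N := N) i a).1 = x at h
        generalize hy : (uinc (Γ := Γ) (co := co) (N := N) i b).1 = y at h
        cases h with
        | old p q hpq =>
          have e1 : a.1 = q := Sum.inl.inj hx
          have e2 : b.1 = p := Sum.inl.inj hy
          show S.Adj a.1 b.1
          rw [e1, e2]
          exact hpq.symm
        | leaf r z => exact absurd hx Sum.inl_ne_inr
    · intro h
      exact Or.inl (UEd0.old a.1 b.1 h)
  · obtain ⟨c, hc'⟩ := c
    cases c with
    | inl v => exact absurd (Subtype.ext rfl) hc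
    | inr b =>
      obtain ⟨r, z⟩ := b
      constructor
      · intro h
        refine Subtype.ext ?_
        show d.1 = Sum.inl (pr r)
        have h' : UEd0 S pr (Sum.inr (r, z)) d.1 ∨ UEd0 S pr d.1 (Sum.inr (r, z)) := h
        clear h
        obtain ⟨d, hd⟩ := d
        rcases h' with h | h
        · cases h
        · cases h
          rfl
      · rintro rfl
        exact Or.inr (UEd0.leaf r z)

/-- the point over `x` without internal labels -/
theorem ub_pt (Γ : SimpleGraph ι) (co : Pt → ∀ i, Fib κ i) (N : Pt → ι → Prop) (x : Pt) :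
    ∃ u : UP Γ co N, UBs x u.1 ∧ (∀ i, uco Γ co N u i = uinc i (co x i)) ∧
      (∀ i, ¬ uN Γ co N u i) ∧ ∀ i, Oc Γ (uN Γ co N) u i := by
  have h0 : ∀ i, ¬ UInt (Γ := Γ) (co := co) (N := N) (fun i => uinc i (co x i)) i := by
    rintro i ⟨r, z, h⟩
    exact absurd h Sum.inl_ne_inr
  refine ⟨⟨fun i => uinc i (co x i), ⟨x, fun i => Or.inl rfl⟩, fun i _ _ h _ => absurd h (h0 i)⟩,
    fun i => Or.inl rfl, fun i => rfl, h0, fun i v hv => absurd hv (h0 v)⟩

theorem ub_pt_uniq (u v : UP Γ co N) {x : Pt} (hx : UBs x u.1) (hy : UBs x v.1)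
    (hu : ∀ i, ¬ uN Γ co N u i) (hv : ∀ i, ¬ uN Γ co N v i) : u = v := by
  refine Subtype.ext (funext fun i => Subtype.ext ?_)
  rcases hx i with h1 | ⟨r, z, h1, _⟩
  · rcases hy i with h2 | ⟨r, z, h2, _⟩
    · rw [h1, h2]
    · exact absurd ⟨r, z, h2⟩ (hv i)
  · exact absurd ⟨r, z, h1⟩ (hu i)

theorem ua_rho (M : MS1 Γ (comp κ S) co N) (hk : ∀ r : Rg Γ co N, κ (pr r) = r.1.1)
    (hpr : ∀ r : Rg Γ co N, ∃ x ∈ r.1.2, (co x r.1.1).1 = pr r) (u : UP Γ co N) :
    ∃ x, UBs x u.1 ∧ ∀ i, co x i = urho hk i (uco Γ co N u i) := by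
  classical
  have key : ∀ F : Finset ι, ∃ x, UBs x u.1 ∧ ∀ i ∈ F, co x i = urho hk i (u.1 i) := by
    intro F
    induction F using Finset.induction_on with
    | empty =>
      obtain ⟨x, hx⟩ := u.2.1
      exact ⟨x, hx, fun i hi => absurd hi (Finset.notMem_empty i)⟩
    | insert i F hi ih =>
      obtain ⟨x, hx, hF⟩ := ih
      rcases hx i with h1 | ⟨r, z, h1, hxr⟩
      · refine ⟨x, hx, fun k hk' => ?_⟩
        rcases Finset.mem_insert.1 hk' with h | h
        · subst h
          exact Subtype.ext (i51_il hk h1).symm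
        · exact hF k h
      · obtain ⟨hri, hxr', hall⟩ := ub_ag hx h1
        obtain ⟨x0, hx0, hp0⟩ := hpr r
        obtain ⟨y, hy, hyi⟩ := reg_pt M ((hall x0).1 hx0)
        have hbase : UBs y u.1 := by
          intro j
          by_cases hj : j = i
          · subst hj
            refine Or.inr ⟨r, z, h1, (hall y).2 (ag_mono ?_ hy)⟩
            intro k hk'
            rw [Set.mem_singleton_iff] at hk'
            exact Or.inl hk'
          · rcases hx j with h2 | ⟨r', z', h2, hxr2⟩
            · left
              rw [h2, hy j hj]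
            · right
              refine ⟨r', z', h2, ((ub_ag hx h2).2.2 y).2 (ag_mono ?_ hy)⟩
              intro k hk'
              rw [Set.mem_singleton_iff] at hk'
              subst hk'
              exact Or.inr (u.2.2 j k hj ⟨r', z', h2⟩ ⟨r, z, h1⟩)
        have hi' : co y i = urho hk i (u.1 i) := by
          rw [hyi]
          refine Subtype.ext ?_
          rw [i51_in hk h1]
          have h3 : ∀ j, r.1.1 = j → (co x0 j).1 = pr r := by
            rintro j rfl
            exact hp0
          exact h3 i hri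
        refine ⟨y, hbase, fun k hk' => ?_⟩
        by_cases hki : k = i
        · subst hki
          exact hi'
        · rcases Finset.mem_insert.1 hk' with h | h
          · exact absurd h hki
          · rw [hy k hki]
            exact hF k h
  obtain ⟨x, hx, h⟩ := key Finset.univ
  exact ⟨x, hx, fun i => h i (Finset.mem_univ i)⟩

end

end VTB
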