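import Pool.Agent.Lib.MP_32d917_al_vt.I51

/-!
# Blow-up: the auxiliary structure, occurring labels, squares, connectedness

Notation of I50, I51; a step `VSt (comp (uk Γ co N) (uS0 S pr)) (uco Γ co N) i u v`: `u`, `v` differ only in the
coordinate `i`, where they are adjacent in `uS0 S pr`.

* `ua_onto`: for `inl v` take `M.onto`, `ub_pt`; for `(r, z)` a point `x ∈ r` and `ub_r` for `ub_pt x`.
* `ua_occ`, (→) `ub_oc`. (←) Let `x` be a base of `u`. If `u i = inl (co x i)`: `M.occ` (`Oc Γ N x i` by `hN`)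
  gives a step `x y`, `ub_l`. If `u i = (r, z)`: `x ∈ r`, `x0 ∈ r` with `(co x0 i).1 = pr r` (`hpr`), `reg_pt`
  gives `y` with `Ag {i} x y`, `co y i = co x0 i`; `ub_l`.
* `ua_sq`, (→): `i` and `j` occur at all four points `u v t w` (`ua_occ` (→), for the steps in both
  directions). If `i` is internal at one of them then `j ∈ st i` (`Oc` of `j` there), so `i`, `j` are adjacent; in
  the same way for `j`. Otherwise let `x` be a base of `u`. `ub_pan`: `x1` with `Ag {i} x x1`, base of `v`, `v i =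
  inl (co x1 i)`; `x2` with `Ag {j} x x2`, base of `t`; `x3` with `Ag {j} x1 x3`, base of `w`, `w j = inl (co x3 j)`.
  The edges of `uS0` between elements `inl` are the edges of `S`: `VSt i x x1`, `VSt j x x2`. `w j = t j` gives
  `co x3 j = co x2 j`, so `VSt j x1 x3` and `VSt i x2 x3` (coordinates), and `M.sq` gives `Γ.Adj i j`.
  (←) `i` occurs at `t` (internal labels of `t` are internal at `u`, or `j`, and `i ∈ st j`). Let `x` be a base
  of `u`; by `ub_pan` for `u`, `t` there is a base `x'` of `t` with `Ag {j} x x'` (`x' = x` in the second case).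
  `ub_pan` for `u`, `v`: if `v i = inl (co y i)`, `Ag {i} x y`: `prod` (with `v := i`, `Ag (lk i) x x'`) gives `x''`
  with `Ag {i} x' x''`, `co x'' i = co y i`, and `ub_l` for `t`, `x'`, `x''` gives `w`. If `v i = (r, z)`, `x ∈ r`:
  `x' ∈ r` (`Ag (st i) x x'`), `ub_r`. Then `w i = v i`, `w j = t j`, `w k = u k` otherwise.
* `ua_conn`: every `u` is connected to a point without internal labels: induction on the number of
  internal labels; if `i` is internal, `u i = (r, z)`, the point with `inl (pr r)` at `i` of the proof of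
  `ua_occ` is adjacent to `u` (`UEd0.leaf`) and has fewer internal labels. The points `ub_pt x` and
  `ub_pt y` for a step `VSt (comp κ S) co i x y` are connected by a step (`UEd0.old`), so all points
  without internal labels are connected (`M.conn`, `ub_pt_uniq`). Steps are symmetric.
-/

set_option autoImplicit false

namespace VTB

open LatIso LatN LatF RaagIso

section

variable {ι Pt V : Type} [Fintype ι] {Γ : SimpleGraph ι} {κ : V → ι} {S : SimpleGraph V}
  {co : Pt → ∀ i, Fib κ i} {N : Pt → ι → Prop} {pr : Rg Γ co N → V}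

private theorem i52_ne (r : Rg Γ co N) : ∃ x, x ∈ r.1.2 := by
  obtain ⟨x0, _, h0⟩ := r.2
  exact ⟨x0, by rw [h0]; exact ag_refl x0⟩

private theorem i52_old {a b : V}
    (h : (uS0 (Γ := Γ) (co := co) (N := N) S pr).Adj (Sum.inl a) (Sum.inl b)) : S.Adj a b := by
  rcases h with h | h
  · cases h with
    | old _ _ h => exact h
  · cases h with
    | old _ _ h => exact h.symm

theorem ua_onto (M : MS1 Γ (comp κ S) co N) (i : ι) (v : Fib (uk Γ co N) i) :
    ∃ u : UP Γ co N, uco Γ co N u i = v := by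
  obtain ⟨a, ha⟩ := v
  cases a with
  | inl b =>
    obtain ⟨x, hx⟩ := M.onto i ⟨b, ha⟩
    obtain ⟨u, _, hu, _, _⟩ := ub_pt Γ co N x
    refine ⟨u, ?_⟩
    rw [hu i, hx]
    rfl
  | inr c =>
    obtain ⟨r, z⟩ := c
    obtain ⟨x, hx⟩ := i52_ne r
    obtain ⟨u, hxu, _, _, ho⟩ := ub_pt Γ co N x
    obtain ⟨v, _, _, hv⟩ := ub_r u hxu (ho i) r ha hx z
    exact ⟨v, Subtype.ext hv⟩

/-- from an internal label down to the old tree -/
private theorem i52_down (M : MS1 Γ (comp κ S) co N)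
    (hpr : ∀ r : Rg Γ co N, ∃ x ∈ r.1.2, (co x r.1.1).1 = pr r) (u : UP Γ co N) {x : Pt}
    (hx : UBs x u.1) {i : ι} (ho : Oc Γ (uN Γ co N) u i) {r : Rg Γ co N} {z : ℤ}
    (h : (u.1 i).1 = Sum.inr (r, z)) :
    ∃ v : UP Γ co N, VSt (comp (uk Γ co N) (uS0 S pr)) (uco Γ co N) i u v ∧
      (uco Γ co N v i).1 = Sum.inl (pr r) := by
  obtain ⟨h1, h2, h3⟩ := ub_ag hx h
  obtain ⟨x0, hx0, h4⟩ := hpr r
  subst h1
  obtain ⟨y, hy, hy'⟩ := reg_pt M ((h3 x0).1 hx0)
  obtain ⟨v, _, hv2, hv3⟩ := ub_l u hx ho hy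
  rw [hy', h4] at hv3
  refine ⟨v, ⟨?_, fun k hk => hv2 k hk⟩, hv3⟩
  show (uS0 S pr).Adj (u.1 r.1.1).1 (uco Γ co N v r.1.1).1
  rw [h, hv3]
  exact Or.inr (UEd0.leaf r z)

theorem ua_occ (M : MS1 Γ (comp κ S) co N) (hN : ∀ x i, ¬ N x i)
    (hpr : ∀ r : Rg Γ co N, ∃ x ∈ r.1.2, (co x r.1.1).1 = pr r) (u : UP Γ co N) (i : ι) :
    (∃ v, VSt (comp (uk Γ co N) (uS0 S pr)) (uco Γ co N) i u v) ↔ Oc Γ (uN Γ co N) u i := by
  constructor
  · rintro ⟨v, hv⟩
    exact ub_oc u v (fun k hk => hv.2 k hk) hv.1.ne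
  · intro ho
    obtain ⟨x, hx⟩ := u.2.1
    rcases hx i with h | ⟨r, z, h, _⟩
    · obtain ⟨y, hy⟩ := (M.occ x i).2 (fun v hv => absurd hv (hN x v))
      obtain ⟨v, _, hv2, hv3⟩ := ub_l u hx ho (fun k hk => hy.2 k hk)
      refine ⟨v, ?_, fun k hk => hv2 k hk⟩
      show (uS0 S pr).Adj (u.1 i).1 (uco Γ co N v i).1
      rw [h, hv3]
      exact Or.inl (UEd0.old _ _ hy.1)
    · obtain ⟨v, hv, _⟩ := i52_down M hpr u hx ho h
      exact ⟨v, hv⟩

private theorem i52_adj {w : UP Γ co N} {i j : ι} (hij : i ≠ j)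
    (hi : uN Γ co N w i) (hj : Oc Γ (uN Γ co N) w j) : Γ.Adj i j := by
  rcases hj i hi with h | h
  · exact absurd h.symm hij
  · exact h

theorem ua_sq (M : MS1 Γ (comp κ S) co N) (hN : ∀ x i, ¬ N x i)
    (hpr : ∀ r : Rg Γ co N, ∃ x ∈ r.1.2, (co x r.1.1).1 = pr r) {u v t : UP Γ co N} {i j : ι}
    (hij : i ≠ j) (h1 : VSt (comp (uk Γ co N) (uS0 S pr)) (uco Γ co N) i u v)
    (h2 : VSt (comp (uk Γ co N) (uS0 S pr)) (uco Γ co N) j u t) :
    (∃ w, VSt (comp (uk Γ co N) (uS0 S pr)) (uco Γ co N) j v w ∧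
      VSt (comp (uk Γ co N) (uS0 S pr)) (uco Γ co N) i t w) ↔ Γ.Adj i j := by
  have oiu := (ua_occ M hN hpr u i).1 ⟨v, h1⟩
  have oju := (ua_occ M hN hpr u j).1 ⟨t, h2⟩
  have oiv := (ua_occ M hN hpr v i).1 ⟨u, vst_symm h1⟩
  have ojt := (ua_occ M hN hpr t j).1 ⟨u, vst_symm h2⟩
  obtain ⟨x, hx⟩ := u.2.1
  have auv : Ag (uco Γ co N) {i} u v := fun k hk => h1.2 k hk
  have aut : Ag (uco Γ co N) {j} u t := fun k hk => h2.2 k hk
  constructor
  · rintro ⟨w, h3, h4⟩
    have oit := (ua_occ M hN hpr t i).1 ⟨w, h4⟩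
    have oiw := (ua_occ M hN hpr w i).1 ⟨t, vst_symm h4⟩
    have ojv := (ua_occ M hN hpr v j).1 ⟨w, h3⟩
    have ojw := (ua_occ M hN hpr w j).1 ⟨v, vst_symm h3⟩
    by_cases niu : uN Γ co N u i
    · exact i52_adj hij niu oju
    by_cases niv : uN Γ co N v i
    · exact i52_adj hij niv ojv
    by_cases nju : uN Γ co N u j
    · exact (i52_adj hij.symm nju oiu).symm
    by_cases njt : uN Γ co N t j
    · exact (i52_adj hij.symm njt oit).symm
    by_cases njw : uN Γ co N w j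
    · exact (i52_adj hij.symm njw oiw).symm
    obtain ⟨x1, a1, b1, c1⟩ | ⟨r, z, _, _, c⟩ := ub_pan M hN u v auv h1.1.ne hx
    swap
    · exact absurd ⟨r, z, c⟩ niv
    obtain ⟨x2, a2, b2, c2⟩ | ⟨r, z, _, _, c⟩ := ub_pan M hN u t aut h2.1.ne hx
    swap
    · exact absurd ⟨r, z, c⟩ njt
    obtain ⟨x3, a3, b3, c3⟩ | ⟨r, z, _, _, c⟩ := ub_pan M hN v w
      (fun k hk => h3.2 k hk) h3.1.ne b1
    swap
    · exact absurd ⟨r, z, c⟩ njw
    have eui : (u.1 i).1 = Sum.inl (co x i).1 := by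
      rcases hx i with h | ⟨r, z, h, _⟩
      · exact h
      · exact absurd ⟨r, z, h⟩ niu
    have euj : (u.1 j).1 = Sum.inl (co x j).1 := by
      rcases hx j with h | ⟨r, z, h, _⟩
      · exact h
      · exact absurd ⟨r, z, h⟩ nju
    have s1 : VSt (comp κ S) co i x x1 := by
      refine ⟨?_, fun k hk => a1 k hk⟩
      have h5 : (uS0 S pr).Adj (u.1 i).1 (uco Γ co N v i).1 := h1.1
      rw [eui, c1] at h5
      have h6 : S.Adj (co x i).1 (co x1 i).1 := i52_old (S := S) (pr := pr) h5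
      exact h6
    have s2 : VSt (comp κ S) co j x x2 := by
      refine ⟨?_, fun k hk => a2 k hk⟩
      have h5 : (uS0 S pr).Adj (u.1 j).1 (uco Γ co N t j).1 := h2.1
      rw [euj, c2] at h5
      have h6 : S.Adj (co x j).1 (co x2 j).1 := i52_old (S := S) (pr := pr) h5
      exact h6
    have e3 : co x3 j = co x2 j := by
      have h5 := congrArg Subtype.val (h4.2 j hij.symm)
      rw [c3, c2] at h5
      exact Subtype.ext (Sum.inl.inj h5)
    have s3 : VSt (comp κ S) co j x1 x3 := by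
      refine ⟨?_, fun k hk => a3 k hk⟩
      rw [a1 j (fun h => hij h.symm), e3]
      exact s2.1
    have s4 : VSt (comp κ S) co i x2 x3 := by
      refine ⟨?_, fun k hk => ?_⟩
      · rw [a2 i hij, a3 i hij]
        exact s1.1
      · by_cases hkj : k = j
        · subst hkj
          exact e3
        · rw [a3 k hkj, a1 k hk, a2 k hkj]
    exact (M.sq x x1 x2 i j hij s1 s2).1 ⟨x3, s3, s4⟩
  · intro hadj
    have oit : Oc Γ (uN Γ co N) t i := by
      intro k hk
      by_cases hkj : k = j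
      · subst hkj
        exact Or.inr hadj.symm
      · refine oiu k ?_
        obtain ⟨r, z, h⟩ := hk
        exact ⟨r, z, by rw [← h]; exact (congrArg Subtype.val (h2.2 k hkj)).symm⟩
    obtain ⟨x', ax, hx'⟩ : ∃ x', Ag co {j} x x' ∧ UBs x' t.1 := by
      rcases ub_pan M hN u t aut h2.1.ne hx with ⟨y, ay, hy, _⟩ | ⟨_, _, hy, _, _⟩
      · exact ⟨y, ay, hy⟩
      · exact ⟨x, ag_refl x, hy⟩
    have ax' : Ag co (lk Γ i) x x' := ag_mono (fun k hk => by
      rw [Set.mem_singleton_iff] at hk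
      rw [hk]
      exact hadj) ax
    obtain ⟨w, aw, ew⟩ : ∃ w : UP Γ co N, Ag (uco Γ co N) {i} t w ∧
        uco Γ co N w i = uco Γ co N v i := by
      rcases ub_pan M hN u v auv h1.1.ne hx with ⟨y, ay, _, cy⟩ | ⟨r, z, hxv, hxr, cy⟩
      · obtain ⟨w0, b1, b2, _⟩ := prod M ax' ay
        obtain ⟨w, _, c2, c3⟩ := ub_l t hx' oit b1
        exact ⟨w, c2, Subtype.ext (by rw [c3, cy, b2])⟩
      · obtain ⟨d1, _, d3⟩ := ub_ag hxv (j := i) (r := r) (z := z) cy
        have hx'r : x' ∈ r.1.2 := (d3 x').2 (ag_mono (fun k hk => Or.inr hk) ax')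
        obtain ⟨w, _, c2, c3⟩ := ub_r t hx' oit r d1 hx'r z
        exact ⟨w, c2, Subtype.ext (by rw [c3, cy])⟩
    have ewj : uco Γ co N w j = uco Γ co N t j := aw j (fun h => hij h.symm)
    refine ⟨w, ⟨?_, fun k hk => ?_⟩, ⟨?_, fun k hk => aw k hk⟩⟩
    · rw [ewj, h1.2 j hij.symm]
      exact h2.1
    · by_cases hki : k = i
      · subst hki
        exact ew
      · rw [aw k hki, h2.2 k hk, h1.2 k hki]
    · rw [ew, h2.2 i hij]
      exact h1.1

private theorem i52_symm {u v : UP Γ co N}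
    (h : Relation.ReflTransGen
      (fun a b => ∃ i, VSt (comp (uk Γ co N) (uS0 S pr)) (uco Γ co N) i a b) u v) :
    Relation.ReflTransGen
      (fun a b => ∃ i, VSt (comp (uk Γ co N) (uS0 S pr)) (uco Γ co N) i a b) v u := by
  induction h with
  | refl => exact Relation.ReflTransGen.refl
  | tail _ hbc ih =>
    obtain ⟨i, hi⟩ := hbc
    exact Relation.ReflTransGen.head ⟨i, vst_symm hi⟩ ih

private theorem i52_nint (M : MS1 Γ (comp κ S) co N)
    (hpr : ∀ r : Rg Γ co N, ∃ x ∈ r.1.2, (co x r.1.1).1 = pr r) (u : UP Γ co N) :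
    ∃ v, (∀ i, ¬ uN Γ co N v i) ∧ Relation.ReflTransGen
      (fun a b => ∃ i, VSt (comp (uk Γ co N) (uS0 S pr)) (uco Γ co N) i a b) u v := by
  classical
  obtain ⟨n, hn⟩ : ∃ n, (Finset.univ.filter (fun i => uN Γ co N u i)).card = n := ⟨_, rfl⟩
  induction n using Nat.strong_induction_on generalizing u with
  | _ n ih =>
    by_cases h : ∃ i, uN Γ co N u i
    · obtain ⟨i, hi⟩ := h
      have hi2 := hi
      obtain ⟨r, z, hr⟩ := hi2
      obtain ⟨x, hx⟩ := u.2.1
      have ho : Oc Γ (uN Γ co N) u i := by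
        intro k hk
        by_cases hki : k = i
        · exact Or.inl hki.symm
        · exact Or.inr (u.2.2 k i hki hk hi)
      obtain ⟨v, hv, hv'⟩ := i52_down M hpr u hx ho hr
      have hlt : (Finset.univ.filter (fun k => uN Γ co N v k)).card < n := by
        rw [← hn]
        refine Finset.card_lt_card ⟨?_, ?_⟩
        · intro k hk
          rw [Finset.mem_filter] at hk ⊢
          refine ⟨hk.1, ?_⟩
          obtain ⟨r', z', h'⟩ := hk.2
          by_cases hki : k = i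
          · rw [hki]
            exact hi
          · refine ⟨r', z', ?_⟩
            rw [← h']
            exact (congrArg Subtype.val (hv.2 k hki)).symm
        · intro hsub
          have h1 := hsub (Finset.mem_filter.2 ⟨Finset.mem_univ i, hi⟩)
          obtain ⟨r', z', h'⟩ := (Finset.mem_filter.1 h1).2
          have h2 : (Sum.inl (pr r) : UV Γ co N) = Sum.inr (r', z') := hv'.symm.trans h'
          exact Sum.inl_ne_inr h2
      obtain ⟨w, hw1, hw2⟩ := ih _ hlt v rfl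
      exact ⟨w, hw1, Relation.ReflTransGen.head ⟨i, hv⟩ hw2⟩
    · exact ⟨u, fun i hi => h ⟨i, hi⟩, Relation.ReflTransGen.refl⟩

theorem ua_conn (M : MS1 Γ (comp κ S) co N) (hN : ∀ x i, ¬ N x i)
    (hpr : ∀ r : Rg Γ co N, ∃ x ∈ r.1.2, (co x r.1.1).1 = pr r) (u v : UP Γ co N) :
    Relation.ReflTransGen
      (fun a b => ∃ i, VSt (comp (uk Γ co N) (uS0 S pr)) (uco Γ co N) i a b) u v := by
  choose U hU1 hU2 hU3 hU4 using ub_pt Γ co N
  have hstep : ∀ x y, (∃ i, VSt (comp κ S) co i x y) →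
      ∃ i, VSt (comp (uk Γ co N) (uS0 S pr)) (uco Γ co N) i (U x) (U y) := by
    rintro x y ⟨i, hi⟩
    refine ⟨i, ?_, fun k hk => ?_⟩
    · rw [hU2, hU2]
      exact Or.inl (UEd0.old _ _ hi.1)
    · rw [hU2, hU2, hi.2 k hk]
  obtain ⟨u', hu', hu⟩ := i52_nint (S := S) M hpr u
  obtain ⟨v', hv', hv⟩ := i52_nint (S := S) M hpr v
  obtain ⟨x, hx⟩ := u'.2.1
  obtain ⟨y, hy⟩ := v'.2.1
  have e1 : u' = U x := ub_pt_uniq u' (U x) hx (hU1 x) hu' (hU3 x)
  have e2 : v' = U y := ub_pt_uniq v' (U y) hy (hU1 y) hv' (hU3 y)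
  have h1 : Relation.ReflTransGen
      (fun a b => ∃ i, VSt (comp (uk Γ co N) (uS0 S pr)) (uco Γ co N) i a b) (U x) (U y) :=
    Relation.ReflTransGen.lift U hstep x y (M.conn x y)
  rw [← e1, ← e2] at h1
  exact (hu.trans h1).trans (i52_symm hv)

end

end VTB
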