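import Pool.Agent.Lib.MP_32d917_al_vt.I51

/-!
# Blow-up: medians in the auxiliary structure

Let `u₁ u₂ u₃` be points, `x₁ x₂ x₃` their bases of `ua_rho` (`co xₖ i = urho hk i (uₖ i)`), `m` the median of
`x₁ x₂ x₃` (`M.med`). Define a family `f`: if two of `u₁ i`, `u₂ i`, `u₃ i` are equal and of the form `(r, z)` then
`f i` is this element, otherwise `f i = uinc i (co m i)`. (For the definition: if `u₁ i` is an `inr` and
(`u₁ i = u₂ i` or `u₁ i = u₃ i`) then `u₁ i`, else if `u₂ i` is an `inr` and `u₂ i = u₃ i` then `u₂ i`, else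
`uinc i (co m i)`.)

* `m` is a base of `f`: let `f i = (r, z) = uₖ i = uₗ i`, `k ≠ l`: `xₖ, xₗ ∈ r` (`ub_ag`), and `m` is between `xₖ` and
  `xₗ`; `r` is convex (`reg_cv`).
* clique: let `i ≠ j`, `f i` and `f j` of the form `inr`. Two of the indices `1 2 3` belong to `f i`, two to `f j`,
  so there is a common index `k`, `uₖ i = f i`, `uₖ j = f j`: the clique condition of `uₖ`.
* median: fix `i`, put `aₖ := uₖ i`, `ρ aₖ = co xₖ i`. If `f i = a₁ = a₂` all three conditions `Bt a₁ (f i) a₂`,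
  `Bt a₂ (f i) a₃`, `Bt a₁ (f i) a₃` are trivial (`Bt a a b`, `Bt a b b`); in the same way for the other pairs. If
  no two of them are equal elements `inr` then `leaf_bt` (with `ua_lvs`) gives the conditions for
  `uinc i (co m i)`: for `k ≠ l` either `aₖ ≠ aₗ` or `aₖ = uinc i (urho ... aₖ)`.
-/

set_option autoImplicit false

namespace VTB

open LatIso LatN LatF RaagIso

section

variable {ι Pt V : Type} [Fintype ι] {Γ : SimpleGraph ι} {κ : V → ι} {S : SimpleGraph V}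
  {co : Pt → ∀ i, Fib κ i} {N : Pt → ι → Prop} {pr : Rg Γ co N → V}

omit [Fintype ι] in
private theorem I53_inl (hk : ∀ r : Rg Γ co N, κ (pr r) = r.1.1) {i : ι}
    (a : Fib (uk Γ co N) i) (ha : ¬ ∃ (r : Rg Γ co N) (z : ℤ), a.1 = Sum.inr (r, z)) :
    a = uinc i (urho hk i a) := by
  obtain ⟨a, ha'⟩ := a
  cases a with
  | inl v => rfl
  | inr b => exact absurd ⟨b.1, b.2, rfl⟩ ha

private theorem I53_l {W : Type} (T : SimpleGraph W) (a b : W) : Bt T a a b := by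
  unfold Bt
  simp

private theorem I53_r {W : Type} (T : SimpleGraph W) (a b : W) : Bt T a b b := by
  unfold Bt
  simp

theorem ua_med (M : MS1 Γ (comp κ S) co N)
    (hpr : ∀ r : Rg Γ co N, ∃ x ∈ r.1.2, (co x r.1.1).1 = pr r) (u₁ u₂ u₃ : UP Γ co N) :
    ∃ m, Med (comp (uk Γ co N) (uS0 S pr)) (uco Γ co N) u₁ u₂ u₃ m := by
  classical
  have hk : ∀ r : Rg Γ co N, κ (pr r) = r.1.1 := by
    intro r
    obtain ⟨x, _, hx⟩ := hpr r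
    rw [← hx]
    exact (co x r.1.1).2
  obtain ⟨x₁, hx₁, hr₁⟩ := ua_rho M hk hpr u₁
  obtain ⟨x₂, hx₂, hr₂⟩ := ua_rho M hk hpr u₂
  obtain ⟨x₃, hx₃, hr₃⟩ := ua_rho M hk hpr u₃
  obtain ⟨m, hm⟩ := M.med x₁ x₂ x₃
  let I : ∀ i, Fib (uk Γ co N) i → Prop := fun i a =>
    ∃ (r : Rg Γ co N) (z : ℤ), a.1 = Sum.inr (r, z)
  have hex : ∀ i, ∃ a : Fib (uk Γ co N) i,
      (I i a ∧ ((a = u₁.1 i ∧ a = u₂.1 i) ∨ (a = u₁.1 i ∧ a = u₃.1 i) ∨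
        (a = u₂.1 i ∧ a = u₃.1 i))) ∨
      (a = uinc i (co m i) ∧ (u₁.1 i = u₂.1 i → ¬ I i (u₁.1 i)) ∧
        (u₁.1 i = u₃.1 i → ¬ I i (u₁.1 i)) ∧ (u₂.1 i = u₃.1 i → ¬ I i (u₂.1 i))) := by
    intro i
    by_cases h12 : u₁.1 i = u₂.1 i ∧ I i (u₁.1 i)
    · exact ⟨u₁.1 i, Or.inl ⟨h12.2, Or.inl ⟨rfl, h12.1⟩⟩⟩
    by_cases h13 : u₁.1 i = u₃.1 i ∧ I i (u₁.1 i)
    · exact ⟨u₁.1 i, Or.inl ⟨h13.2, Or.inr (Or.inl ⟨rfl, h13.1⟩)⟩⟩
    by_cases h23 : u₂.1 i = u₃.1 i ∧ I i (u₂.1 i)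
    · exact ⟨u₂.1 i, Or.inl ⟨h23.2, Or.inr (Or.inr ⟨rfl, h23.1⟩)⟩⟩
    exact ⟨uinc i (co m i), Or.inr ⟨rfl, fun h h' => h12 ⟨h, h'⟩, fun h h' => h13 ⟨h, h'⟩,
      fun h h' => h23 ⟨h, h'⟩⟩⟩
  choose f hf using hex
  have hni : ∀ i, f i = uinc i (co m i) → ¬ I i (f i) := by
    rintro i hi ⟨r, z, h⟩
    rw [hi] at h
    exact Sum.inl_ne_inr h
  -- membership of `m` in the regions of the internal coordinates
  have hcv : ∀ (r : Rg Γ co N) {x y : Pt}, x ∈ r.1.2 → y ∈ r.1.2 →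
      (∀ i, Bt (comp κ S i) (co x i) (co m i) (co y i)) → m ∈ r.1.2 :=
    fun r x y hx hy h => reg_cv M r.2 x hx y hy m h
  have hbase : UBs m f := by
    intro i
    rcases hf i with ⟨⟨r, z, hI⟩, h⟩ | ⟨h, -⟩
    · refine Or.inr ⟨r, z, hI, ?_⟩
      rcases h with ⟨h1, h2⟩ | ⟨h1, h2⟩ | ⟨h1, h2⟩
      · exact hcv r (ub_ag hx₁ (h1 ▸ hI)).2.1 (ub_ag hx₂ (h2 ▸ hI)).2.1 fun j => (hm j).1
      · exact hcv r (ub_ag hx₁ (h1 ▸ hI)).2.1 (ub_ag hx₃ (h2 ▸ hI)).2.1 fun j => (hm j).2.2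
      · exact hcv r (ub_ag hx₂ (h1 ▸ hI)).2.1 (ub_ag hx₃ (h2 ▸ hI)).2.1 fun j => (hm j).2.1
    · left
      rw [h]
      rfl
  have hcl : ∀ i j, i ≠ j → UInt f i → UInt f j → Γ.Adj i j := by
    intro i j hij hi hj
    have h1 : (f i = u₁.1 i ∧ f i = u₂.1 i) ∨ (f i = u₁.1 i ∧ f i = u₃.1 i) ∨
        (f i = u₂.1 i ∧ f i = u₃.1 i) := by
      rcases hf i with ⟨_, h⟩ | ⟨h, -⟩
      · exact h
      · exact absurd hi (hni i h)
    have h2 : (f j = u₁.1 j ∧ f j = u₂.1 j) ∨ (f j = u₁.1 j ∧ f j = u₃.1 j) ∨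
        (f j = u₂.1 j ∧ f j = u₃.1 j) := by
      rcases hf j with ⟨_, h⟩ | ⟨h, -⟩
      · exact h
      · exact absurd hj (hni j h)
    have key : ∀ u : UP Γ co N, f i = u.1 i → f j = u.1 j → Γ.Adj i j := by
      intro u e1 e2
      apply u.2.2 i j hij
      · obtain ⟨r, z, h⟩ := hi
        exact ⟨r, z, by rw [← e1]; exact h⟩
      · obtain ⟨r, z, h⟩ := hj
        exact ⟨r, z, by rw [← e2]; exact h⟩
    rcases h1 with ⟨a1, a2⟩ | ⟨a1, a2⟩ | ⟨a1, a2⟩ <;> rcases h2 with ⟨b1, b2⟩ | ⟨b1, b2⟩ | ⟨b1, b2⟩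
    · exact key u₁ a1 b1
    · exact key u₁ a1 b1
    · exact key u₂ a2 b1
    · exact key u₁ a1 b1
    · exact key u₁ a1 b1
    · exact key u₃ a2 b2
    · exact key u₂ a1 b2
    · exact key u₃ a2 b2
    · exact key u₂ a1 b1
  refine ⟨⟨f, ⟨m, hbase⟩, hcl⟩, ?_⟩
  intro i
  change Bt _ (u₁.1 i) (f i) (u₂.1 i) ∧ Bt _ (u₂.1 i) (f i) (u₃.1 i) ∧
    Bt _ (u₁.1 i) (f i) (u₃.1 i)
  rcases hf i with ⟨_, h⟩ | ⟨h, n12, n13, n23⟩
  · rcases h with ⟨h1, h2⟩ | ⟨h1, h2⟩ | ⟨h1, h2⟩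
    · rw [← h1, ← h2]
      exact ⟨I53_l _ _ _, I53_l _ _ _, I53_l _ _ _⟩
    · rw [← h1, ← h2]
      exact ⟨I53_l _ _ _, I53_r _ _ _, I53_l _ _ _⟩
    · rw [← h1, ← h2]
      exact ⟨I53_r _ _ _, I53_l _ _ _, I53_r _ _ _⟩
  · have hL := ua_lvs (S := S) M hk i
    have hmi := hm i
    rw [hr₁ i, hr₂ i, hr₃ i] at hmi
    rw [h]
    refine ⟨leaf_bt hL ?_ hmi.1, leaf_bt hL ?_ hmi.2.1, leaf_bt hL ?_ hmi.2.2⟩
    · by_cases e : u₁.1 i = u₂.1 i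
      · exact Or.inr (I53_inl hk _ (n12 e))
      · exact Or.inl e
    · by_cases e : u₂.1 i = u₃.1 i
      · exact Or.inr (I53_inl hk _ (n23 e))
      · exact Or.inl e
    · by_cases e : u₁.1 i = u₃.1 i
      · exact Or.inr (I53_inl hk _ (n13 e))
      · exact Or.inl e

end

end VTB
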