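import Pool.Agent.Lib.MP_32d917_al_vt.E13B
import Pool.Agent.Lib.MP_32d917_al_vt.I52
import Pool.Agent.Lib.MP_32d917_al_vt.I53

/-!
# Blow-up: the new structure

* `ua_ms`: the auxiliary structure. `tree` from `leaf_tree (ua_lvs M hk i)` (`hk` from `hpr` and the proof
  `(co x i).2`); `ne`: `M.ne`, `ub_pt`; `inj`: a point is determined by its coordinates (`Subtype.ext`,
  `funext`); `onto`, `conn`, `med`, `sq`, `occ`: I52, I53; `nocc`: the clique condition (`i ∈ st i`);
  `ntr`: a step of label `i` does not change the coordinate `k`, and `uN` depends only on it.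
* `ua_swp`: `Swp Γ (comp _ (uS0 S pr)) (comp _ (uS Pi)) (uco ..) (uN ..)` for any `pr` with `hpr`.
  `tree`: a region `(i, A)` is `rg u i` with `i` occurring at `u` (definition of `IsReg`, or `reg_mem`,
  `reg_oc`); let `x` be a base of `u` and `r` the region of label `i` at `x` (`rg_isReg`; `i` occurs at `x` by
  `hN`). By `ub_vr` the vertices of `(i, A)` are the `inl (co y i)`, `y ∈ r`, and the `(r, z)` (a region of label
  `i` containing `x` is `r`, `reg_mem`). `cat_tree` (T09) with `l z := (r, z)`, `ρ (inl p) := Pi q` for the element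
  `q` of `QQ` with region `r` and vertex `p`, `ρ (r, z) := z`: the neighbours of `inl p` in `uS Pi` among these
  vertices are the `(q.1.1, Pi q)` with `q.1.2 = p` and `q.1.1 = r`, so only `(r, Pi q)`.
  `edge`: an edge `line r z` or `leaf q` over `i` (`r.1.1 = i`, `q.1.1.1.1 = i`): take `x ∈ r` (with
  `(co x i).1 = q.1.2` in the second case), `u` from `ub_pt x`, the region `rg u i`, `ub_vr`.
* `u_ms1`: `ms_swap`; `pr` exists since every region has a point.
* `u_kap`: the edges of `uS Pi` preserve the labels (`qp`: `κ q.1.2 = q.1.1.1.1`).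
-/

set_option autoImplicit false

namespace VTB

open LatIso LatN LatF RaagIso

section

variable {ι Pt V : Type} [Fintype ι] {Γ : SimpleGraph ι} {κ : V → ι} {S : SimpleGraph V}
  {co : Pt → ∀ i, Fib κ i} {N : Pt → ι → Prop} {pr : Rg Γ co N → V}

theorem ua_ms (M : MS1 Γ (comp κ S) co N) (hN : ∀ x i, ¬ N x i)
    (hpr : ∀ r : Rg Γ co N, ∃ x ∈ r.1.2, (co x r.1.1).1 = pr r) :
    MS1 Γ (comp (uk Γ co N) (uS0 S pr)) (uco Γ co N) (uN Γ co N) := by
  have hk : ∀ r : Rg Γ co N, κ (pr r) = r.1.1 := by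
    intro r
    obtain ⟨x, _, hx⟩ := hpr r
    rw [← hx]
    exact (co x r.1.1).2
  refine ⟨fun i => (leaf_tree (ua_lvs M hk i)).1, ?_, fun u v h => Subtype.ext (funext h),
    fun i v => ua_onto M i v, fun u v => ua_conn M hN hpr u v, fun u v w => ua_med M hpr u v w,
    fun u v t i j hij h1 h2 => ua_sq M hN hpr hij h1 h2, fun u i => ua_occ M hN hpr u i, ?_, ?_⟩
  · obtain ⟨x⟩ := M.ne
    obtain ⟨u, _⟩ := ub_pt Γ co N x
    exact ⟨u⟩
  · intro u i hi v hv
    by_cases h : i = v
    · exact Or.inl h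
    · exact Or.inr (u.2.2 v i (fun e => h e.symm) hv hi)
  · intro u v i k h hki
    have h1 : v.1 k = u.1 k := h.2 k hki
    change UInt v.1 k ↔ UInt u.1 k
    unfold UInt
    rw [h1]

private theorem I54_base (Γ : SimpleGraph ι) {κ : V → ι} (co : Pt → ∀ i, Fib κ i)
    (N : Pt → ι → Prop) (r : Rg Γ co N) : ∃ x, x ∈ r.1.2 := by
  obtain ⟨x, _, hx⟩ := r.2
  exact ⟨x, by rw [hx]; exact ag_refl x⟩

private theorem I54_reg {r r' : Rg Γ co N} {x : Pt} (hl : r.1.1 = r'.1.1) (hr : x ∈ r.1.2)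
    (hr' : x ∈ r'.1.2) : r = r' := by
  apply Subtype.ext
  rw [reg_mem r.2 hr, reg_mem r'.2 hr', hl]

open Classical in
/-- the position of a vertex of a caterpillar -/
private noncomputable def I54_rho (Pi : QQ Γ co N → ℤ) (r : Rg Γ co N) : UV Γ co N → ℤ
  | Sum.inl v => if h : ∃ x ∈ r.1.2, (co x r.1.1).1 = v then Pi ⟨(r, v), h⟩ else 0
  | Sum.inr a => a.2

omit [Fintype ι] in
private theorem I54_line (Pi : QQ Γ co N → ℤ) (r : Rg Γ co N) (a b : ℤ) :
    (uS Pi).Adj (Sum.inr (r, a)) (Sum.inr (r, b)) ↔ b = a + 1 ∨ a = b + 1 := by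
  have key : ∀ a b : ℤ, UEd Pi (Sum.inr (r, a)) (Sum.inr (r, b)) ↔ b = a + 1 := by
    intro a b
    constructor
    · intro h
      cases h
      rfl
    · intro h
      rw [h]
      exact UEd.line r a
  change UEd Pi _ _ ∨ UEd Pi _ _ ↔ _
  rw [key, key]

theorem ua_swp (M : MS1 Γ (comp κ S) co N) (hN : ∀ x i, ¬ N x i)
    (hpr : ∀ r : Rg Γ co N, ∃ x ∈ r.1.2, (co x r.1.1).1 = pr r) (Pi : QQ Γ co N → ℤ) :
    Swp Γ (comp (uk Γ co N) (uS0 S pr)) (comp (uk Γ co N) (uS Pi)) (uco Γ co N)
      (uN Γ co N) := by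
  classical
  refine ⟨ua_ms M hN hpr, ?_, ?_⟩
  · intro i A hA
    obtain ⟨u, ho, hA2⟩ := hA
    have hA3 : A = {y | Ag (uco Γ co N) (st Γ i) u y} := hA2
    subst hA3
    change Oc Γ (uN Γ co N) u i at ho
    obtain ⟨x, hx⟩ := u.2.1
    have hoc : Oc Γ N x i := fun v hv => absurd hv (hN x v)
    set r : Rg Γ co N := ⟨rg Γ co x i, rg_isReg hoc⟩ with hr
    have hxr : x ∈ r.1.2 := ag_refl x
    have hvr := fun p => ub_vr M hN u hx ho p
    have hl : ∀ z : ℤ, VR (uco Γ co N) (rg Γ (uco Γ co N) u i)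
        (⟨Sum.inr (r, z), rfl⟩ : Fib (uk Γ co N) i) := by
      intro z
      rw [hvr]
      exact Or.inr ⟨r, z, rfl, hxr, rfl⟩
    refine cat_tree _ (fun z => ⟨⟨Sum.inr (r, z), rfl⟩, hl z⟩) (fun p => I54_rho Pi r p.1.1)
      (fun z => rfl) ?_ ?_
    · intro a b
      exact I54_line Pi r a b
    · rintro ⟨⟨c, hc⟩, hcv⟩ hne ⟨⟨d, hd⟩, hdv⟩
      have hcv' := (hvr _).1 hcv
      have hdv' := (hvr _).1 hdv
      rcases c with v | ⟨r', z⟩
      · obtain ⟨y, hy, hyv⟩ : ∃ y, Ag co (st Γ i) x y ∧ v = (co y i).1 := by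
          rcases hcv' with ⟨y, hy, hyv⟩ | ⟨r', z, _, _, h⟩
          · exact ⟨y, hy, Sum.inl.inj hyv⟩
          · exact absurd h Sum.inl_ne_inr
        have hex : ∃ x' ∈ r.1.2, (co x' r.1.1).1 = v := ⟨y, hy, hyv.symm⟩
        have hrho : I54_rho Pi r (Sum.inl v) = Pi ⟨(r, v), hex⟩ := by
          unfold I54_rho
          exact dif_pos hex
        change (UEd Pi (Sum.inl v) d ∨ UEd Pi d (Sum.inl v)) ↔ _
        constructor
        · rintro (h | h)
          · have key : ∀ e : UV Γ co N, UEd Pi (Sum.inl v) e → ∀ (he : uk Γ co N e = i),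
                (∃ (r' : Rg Γ co N) (z : ℤ), r'.1.1 = i ∧ x ∈ r'.1.2 ∧ e = Sum.inr (r', z)) →
                e = Sum.inr (r, Pi ⟨(r, v), hex⟩) := by
              intro e he hei hr'
              generalize hw : (Sum.inl v : UV Γ co N) = w at he
              cases he with
              | line r1 z1 => exact absurd hw Sum.inl_ne_inr
              | leaf q =>
                obtain ⟨r', z, h1, h2, h3⟩ := hr'
                have h4 := Sum.inr.inj h3
                have h5 : q.1.1 = r' := congrArg Prod.fst h4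
                have h6 : r' = r := I54_reg h1 h2 hxr
                have h7 : q.1.1 = r := h5.trans h6
                have h8 : v = q.1.2 := Sum.inl.inj hw
                have h9 : q = ⟨(r, v), hex⟩ := Subtype.ext (Prod.ext h7 h8.symm)
                rw [h9]
            apply Subtype.ext
            apply Subtype.ext
            change d = Sum.inr (r, I54_rho Pi r (Sum.inl v))
            rw [hrho]
            refine key d h hd ?_
            rcases hdv' with ⟨y', _, hy'⟩ | h1
            · exfalso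
              have hy2 : d = Sum.inl (co y' i).1 := hy'
              rw [hy2] at h
              cases h
            · exact h1
          · exfalso
            cases h
        · intro h
          have h1 : d = Sum.inr (r, I54_rho Pi r (Sum.inl v)) :=
            congrArg Subtype.val (congrArg Subtype.val h)
          rw [h1, hrho]
          exact Or.inl (UEd.leaf (Pi := Pi) ⟨(r, v), hex⟩)
      · exfalso
        apply hne
        have h1 : r' = r := by
          rcases hcv' with ⟨y, _, h⟩ | ⟨r1, z1, h1, h2, h3⟩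
          · exact absurd h Sum.inr_ne_inl
          · have h4 : r' = r1 := congrArg Prod.fst (Sum.inr.inj h3)
            rw [h4]
            exact I54_reg h1 h2 hxr
        subst h1
        rfl
  · have key : ∀ (i : ι) (a b : Fib (uk Γ co N) i), UEd Pi a.1 b.1 →
        ∃ A, IsReg Γ (uco Γ co N) (uN Γ co N) (i, A) ∧ VR (uco Γ co N) (i, A) a ∧
          VR (uco Γ co N) (i, A) b := by
      rintro i ⟨a, ha⟩ ⟨b, hb⟩ h
      change UEd Pi a b at h
      cases h with
      | line r z =>
        have hi : r.1.1 = i := ha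
        obtain ⟨x, hx⟩ := I54_base Γ co N r
        obtain ⟨u, hu1, _, _, hu4⟩ := ub_pt Γ co N x
        refine ⟨{y | Ag (uco Γ co N) (st Γ i) u y}, rg_isReg (hu4 i), ?_, ?_⟩
        · exact (ub_vr M hN u hu1 (hu4 i) _).2 (Or.inr ⟨r, z, hi, hx, rfl⟩)
        · exact (ub_vr M hN u hu1 (hu4 i) _).2 (Or.inr ⟨r, z + 1, hi, hx, rfl⟩)
      | leaf q =>
        have hi : q.1.1.1.1 = i := hb
        obtain ⟨x, hx, hxq⟩ := q.2
        obtain ⟨u, hu1, _, _, hu4⟩ := ub_pt Γ co N x
        subst hi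
        refine ⟨{y | Ag (uco Γ co N) (st Γ q.1.1.1.1) u y}, rg_isReg (hu4 _), ?_, ?_⟩
        · refine (ub_vr M hN u hu1 (hu4 _) _).2 (Or.inl ⟨x, ag_refl x, ?_⟩)
          change (Sum.inl q.1.2 : UV Γ co N) = _
          rw [hxq]
        · exact (ub_vr M hN u hu1 (hu4 _) _).2 (Or.inr ⟨q.1.1, Pi q, rfl, hx, rfl⟩)
    intro i a b hab
    rcases hab with h | h
    · exact key i a b h
    · obtain ⟨A, h1, h2, h3⟩ := key i b a h
      exact ⟨A, h1, h3, h2⟩

theorem u_ms1 (M : MS1 Γ (comp κ S) co N) (hN : ∀ x i, ¬ N x i) (Pi : QQ Γ co N → ℤ) :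
    MS1 Γ (comp (uk Γ co N) (uS Pi)) (uco Γ co N) (uN Γ co N) := by
  choose f hf using fun r : Rg Γ co N => I54_base Γ co N r
  exact ms_swap (ua_swp (pr := fun r => (co (f r) r.1.1).1) M hN (fun r => ⟨f r, hf r, rfl⟩) Pi)

theorem u_kap (Pi : QQ Γ co N → ℤ) (a b : UV Γ co N) (h : (uS Pi).Adj a b) :
    uk Γ co N a = uk Γ co N b := by
  have key : ∀ a b : UV Γ co N, UEd Pi a b → uk Γ co N a = uk Γ co N b := by
    intro a b h
    cases h with
    | line r z => rfl
    | leaf q => exact (qp q).2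
  rcases h with h | h
  · exact key a b h
  · exact (key b a h).symm

end

end VTB
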