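import Pool.Agent.Lib.MP_32d917_al_vt.I03

/-!
# I60: rectangles

There are no internal labels, so all labels occur everywhere.
* `pan_ne`: `M.occ` gives a step `x y` of label `i`; `y ≠ x` (adjacent vertices), and `Ag {i} x y`.
* `rect_adj`: `co z i = co x i` (`i ≠ j`), `co w i = co y i`. The first step `x x₁` of a geodesic from `x` to `y` (`geod_step`, or the first step of the chain `ag_geod`; its label is `i` since the other coordinates are equal): `VSt S co i x x₁`, `Bt (S i) (co x i) (co x₁ i) (co y i)`; in the same way `z z₁` (towards `w`). By `st_uniq` (or the uniqueness used in `swp_sq`, E12: the proof is the same) `co x₁ i = co z₁ i`, and `strip_ag` (A03) gives `Ag (lk i) x z`.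
  Since `co z j ≠ co x j` (`z ≠ x`, `M.inj`), `j ∈ lk i`. (See the proof of `swp_sq` in E12.)
* `rect_ex`: `prod` (A04) with `v := i` (`Ag {j} x z` gives `Ag (lk i) x z`).
-/

set_option autoImplicit false

namespace VTB

open LatIso LatN LatF RaagIso

section

variable {ι Pt : Type} [Fintype ι] {V : ι → Type} {Γ : SimpleGraph ι}
  {S : ∀ i, SimpleGraph (V i)} {co : Pt → ∀ i, V i}

private theorem I60_first (M : MS1 Γ S co (fun _ _ => False)) {x y : Pt} {i : ι}
    (h : Ag co {i} x y) (hne : co x i ≠ co y i) :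
    ∃ z, VSt S co i x z ∧ Bt (S i) (co x i) (co z i) (co y i) := by
  have hxy : x ≠ y := by
    rintro rfl
    exact hne rfl
  obtain ⟨k, z, hz, hb⟩ := geod_step M hxy
  have hk : k = i := by
    by_contra hk
    have h1 : co y k = co x k := h k hk
    rw [h1] at hb
    apply hz.1.ne
    apply st1_eq (M.tree k)
    unfold Bt at hb
    rw [SimpleGraph.dist_self] at hb
    omega
  subst hk
  exact ⟨z, hz, hb⟩

/-- different points of a panel have different coordinates -/
theorem pan_co (M : MS1 Γ S co (fun _ _ => False)) {x y : Pt} {i : ι} (h : Ag co {i} x y)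
    (hne : y ≠ x) : co y i ≠ co x i := by
  intro he
  apply hne
  refine M.inj y x fun j => ?_
  by_cases hj : j = i
  · rw [hj]
    exact he
  · exact h j hj

theorem pan_ne (M : MS1 Γ S co (fun _ _ => False)) (x : Pt) (i : ι) :
    ∃ y, y ≠ x ∧ Ag co {i} x y := by
  obtain ⟨y, hy⟩ := (M.occ x i).2 fun _ h => h.elim
  refine ⟨y, ?_, fun j hj => hy.2 j hj⟩
  rintro rfl
  exact hy.1.ne rfl

theorem rect_adj (M : MS1 Γ S co (fun _ _ => False)) {x y z w : Pt} {i j : ι} (hij : i ≠ j)
    (h1 : Ag co {i} x y) (hy : y ≠ x) (h2 : Ag co {j} x z) (hz : z ≠ x) (h3 : Ag co {j} y w)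
    (h4 : Ag co {i} z w) : Γ.Adj i j := by
  have e1 : co z i = co x i := h2 i hij
  have e2 : co w i = co y i := h3 i hij
  have hne := pan_co M h1 hy
  obtain ⟨x₁, hx1, hx2⟩ := I60_first M h1 hne.symm
  obtain ⟨z₁, hz1, hz2⟩ := I60_first M h4 (by rw [e1, e2]; exact hne.symm)
  rw [e1, e2] at hz2
  have hz3 := hz1.1
  rw [e1] at hz3
  have e3 : co x₁ i = co z₁ i := st_uniq (M.tree i) hx1.1 hz3 hx2 hz2
  have h5 := strip_ag M hx1 hz1 e1.symm e3
  by_contra hcon
  exact pan_co M h2 hz (h5 j hcon)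

theorem rect_ex (M : MS1 Γ S co (fun _ _ => False)) {x y z : Pt} {i j : ι} (hij : Γ.Adj i j)
    (h1 : Ag co {i} x y) (h2 : Ag co {j} x z) :
    ∃ w, Ag co {j} y w ∧ Ag co {i} z w ∧ co w i = co y i ∧ co w j = co z j := by
  have h3 : Ag co (lk Γ i) x z := by
    intro k hk
    refine h2 k ?_
    rintro rfl
    exact hk hij
  obtain ⟨w, hw1, hw2, hw3⟩ := prod M h3 h1
  refine ⟨w, fun k hk => ?_, hw1, hw2, hw1 j hij.ne'⟩
  by_cases hki : k = i
  · subst hki
    exact hw2
  · rw [hw1 k hki, h2 k hk, h1 k hki]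

end

end VTB
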