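import Pool.Agent.Lib.MP_32d917_al_vt.I60

/-!
# I61: the labels of the images of the panels

`LabF co Ψ τ`: for all `x`, `i` the bijection `Ψ` maps the panel of `x` of label `i` onto the panel of `Ψ x` of label `τ x i`.
* `labf_uniq`: let `y'` be a point of the panel of label `j` at `x'`, `y' ≠ x'` (`pan_ne`). It is in the panel of label `j'`; if `j ≠ j'` then all coordinates of `x'` and `y'` are equal, `M.inj`.
* `labf_inv`: `Ag {i} x y ↔ Ag {τ x i} (Ψ x) (Ψ y) ↔ Ag {τ' (Ψ x) (τ x i)} x y`; `labf_uniq`.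
* `labf_same`: for `z`: `Ag {i} y z ↔ Ag {i} x z ↔ Ag {τ x i} (Ψ x) (Ψ z) ↔ Ag {τ x i} (Ψ y) (Ψ z)` (`Ψ y` is in this panel of `Ψ x`), and `Ag {i} y z ↔ Ag {τ y i} (Ψ y) (Ψ z)`; `labf_uniq` (`Ψ` is surjective).
* `labf_adj`: Let `y ≠ x` be in the panel of label `i` at `x`, `z ≠ x` in the panel of label `j` (`pan_ne`), `w` from `rect_ex`: `Ag {j} y w`, `Ag {i} z w`, `co w i = co y i ≠ co x i`, `co w j = co z j ≠ co x j`, so `w ≠ y`, `w ≠ z`, `w ≠ x`. Let `X Y Z W` be the images. `X Y` differ exactly in the label `a = τ x i`, `Y W` exactly in `b' = τ y j`, `X Z` exactly in `b = τ x j`, `Z W` exactly in `a' = τ z i` (distinct points of a panel).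
  `a ≠ b`: otherwise `Ag {i} x z` (and `Ag {j} x z`, `i ≠ j`), `z = x`. If `b' = a` then `X`, `W` agree outside `a`; `Z` differs from `X` in `b ≠ a`, so `a' = b` (otherwise `W` differs from `X` in `b`), so `X`, `W` agree outside `b` and outside `a`: `W = X`, contradiction. So `b' ≠ a`, and `X`, `W` differ exactly in `a` and `b'`. If `a' = b` they agree outside `b`, contradiction. So they differ exactly in `b` and `a'`: hence `a' = a`, `b' = b`. `rect_adj` for `X Y Z W`: `a`, `b` are adjacent. [The statement gives also `τ y j = τ x j`, for this given `y`.]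
* `labf_st`: if `Ag {i} x y` then `τ y j = τ x j` for all `j ∈ st i`: `labf_same` for `j = i`, `labf_adj` for `j ∈ lk i` (trivial if `y = x`).
-/

set_option autoImplicit false

namespace VTB

open LatIso LatN LatF RaagIso

/-- `Ψ` maps the panel of `x` of label `i` onto the panel of `Ψ x` of label `τ x i` -/
def LabF {ι Pt : Type} {V : ι → Type} (co : Pt → ∀ i, V i) (Ψ : Pt → Pt) (τ : Pt → ι → ι) :
    Prop := ∀ x i y, Ag co {i} x y ↔ Ag co {τ x i} (Ψ x) (Ψ y)

section

variable {ι Pt : Type} [Fintype ι] {V : ι → Type} {Γ : SimpleGraph ι}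
  {S : ∀ i, SimpleGraph (V i)} {co : Pt → ∀ i, V i}

omit [Fintype ι] in
private theorem I61_out {x y : Pt} {i j : ι} (h : Ag co {i} x y) (hj : j ≠ i) : co y j = co x j :=
  h j fun h1 => hj h1

omit [Fintype ι] in
private theorem I61_ne (M : MS1 Γ S co (fun _ _ => False)) {x y : Pt} {i : ι} (h : Ag co {i} x y)
    (hne : y ≠ x) : co y i ≠ co x i := by
  intro h1
  apply hne
  refine M.inj _ _ fun j => ?_
  by_cases hj : j = i
  · rw [hj]
    exact h1
  · exact I61_out h hj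

omit [Fintype ι] in
private theorem I61_two (M : MS1 Γ S co (fun _ _ => False)) {x y : Pt} {i j : ι} (hij : i ≠ j)
    (h : Ag co {i} x y) (h' : Ag co {j} x y) : y = x := by
  refine M.inj _ _ fun k => ?_
  by_cases hk : k = i
  · rw [hk]
    exact I61_out h' hij
  · exact I61_out h hk

theorem labf_uniq (M : MS1 Γ S co (fun _ _ => False)) {x : Pt} {j j' : ι}
    (h : ∀ y, Ag co {j} x y → Ag co {j'} x y) : j = j' := by
  obtain ⟨y, hy, h1⟩ := pan_ne M x j
  by_contra hne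
  exact hy (I61_two M hne h1 (h y h1))

theorem labf_inv (M : MS1 Γ S co (fun _ _ => False)) {Ψ : Pt ≃ Pt} {τ τ' : Pt → ι → ι}
    (h : LabF co Ψ τ) (h' : LabF co Ψ.symm τ') (x : Pt) (i : ι) : τ' (Ψ x) (τ x i) = i := by
  refine (labf_uniq M (x := x) fun y hy => ?_).symm
  have h1 := (h' (Ψ x) (τ x i) (Ψ y)).1 ((h x i y).1 hy)
  rw [Equiv.symm_apply_apply, Equiv.symm_apply_apply] at h1
  exact h1

theorem labf_same (M : MS1 Γ S co (fun _ _ => False)) {Ψ : Pt ≃ Pt} {τ : Pt → ι → ι}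
    (h : LabF co Ψ τ) {x y : Pt} {i : ι} (hxy : Ag co {i} x y) : τ y i = τ x i := by
  refine labf_uniq M (x := Ψ y) fun w hw => ?_
  obtain ⟨z, rfl⟩ := Ψ.surjective w
  have h1 : Ag co {i} y z := (h y i z).2 hw
  have h2 := (h x i z).1 (ag_trans hxy h1)
  have h3 := (h x i y).1 hxy
  exact ag_trans (ag_symm h3) h2

theorem labf_adj (M : MS1 Γ S co (fun _ _ => False)) {Ψ : Pt ≃ Pt} {τ : Pt → ι → ι}
    (h : LabF co Ψ τ) {x y : Pt} {i j : ι} (hij : Γ.Adj i j) (hxy : Ag co {i} x y)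
    (hne : y ≠ x) : Γ.Adj (τ x i) (τ x j) ∧ τ y j = τ x j := by
  have hij' : i ≠ j := Γ.ne_of_adj hij
  obtain ⟨z, hz, hxz⟩ := pan_ne M x j
  obtain ⟨w, hyw, hzw, hwi, hwj⟩ := rect_ex M hij hxy hxz
  have d1 := I61_ne M hxy hne
  have d2 := I61_ne M hxz hz
  have wy : w ≠ y := by
    intro h1
    apply d2
    rw [← hwj, h1]
    exact I61_out hxy hij'.symm
  have wz : w ≠ z := by
    intro h1
    apply d1
    rw [← hwi, h1]
    exact I61_out hxz hij'
  have wx : w ≠ x := by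
    intro h1
    apply d1
    rw [← hwi, h1]
  have aXY := (h x i y).1 hxy
  have aXZ := (h x j z).1 hxz
  have aYW := (h y j w).1 hyw
  have aZW := (h z i w).1 hzw
  have eXY := I61_ne M aXY fun h1 => hne (Ψ.injective h1)
  have eXZ := I61_ne M aXZ fun h1 => hz (Ψ.injective h1)
  have eYW := I61_ne M aYW fun h1 => wy (Ψ.injective h1)
  have nXW : Ψ w ≠ Ψ x := fun h1 => wx (Ψ.injective h1)
  have hab : τ x i ≠ τ x j := by
    intro h1
    rw [← h1] at aXZ
    exact hz (I61_two M hij' ((h x i z).2 aXZ) hxz)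
  have hb'a : τ y j ≠ τ x i := by
    intro h1
    have h2 : Ag co {τ x i} (Ψ x) (Ψ w) := by
      rw [h1] at aYW
      exact ag_trans aXY aYW
    have h3 : τ z i = τ x j := by
      by_contra h4
      have h5 : co (Ψ w) (τ x j) = co (Ψ z) (τ x j) := I61_out aZW (Ne.symm h4)
      have h6 : co (Ψ w) (τ x j) = co (Ψ x) (τ x j) := I61_out h2 hab.symm
      exact eXZ (h5.symm.trans h6)
    have h7 : Ag co {τ x j} (Ψ x) (Ψ w) := by
      rw [h3] at aZW
      exact ag_trans aXZ aZW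
    exact nXW (I61_two M hab h2 h7)
  have f1 : co (Ψ w) (τ x i) ≠ co (Ψ x) (τ x i) := by
    rw [I61_out aYW hb'a.symm]
    exact eXY
  have f2 : co (Ψ w) (τ y j) ≠ co (Ψ x) (τ y j) := by
    rw [← I61_out aXY hb'a]
    exact eYW
  have g : ∀ k, k ≠ τ x j → k ≠ τ z i → co (Ψ w) k = co (Ψ x) k := fun k h1 h2 => by
    rw [I61_out aZW h2, I61_out aXZ h1]
  have haa' : τ z i = τ x i := by
    by_contra h1
    exact f1 (g _ hab (Ne.symm h1))
  have hbb' : τ y j = τ x j := by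
    by_contra h1
    refine f2 (g _ h1 ?_)
    rw [haa']
    exact hb'a
  refine ⟨?_, hbb'⟩
  rw [hbb'] at aYW
  rw [haa'] at aZW
  exact rect_adj M hab aXY (fun h1 => hne (Ψ.injective h1)) aXZ (fun h1 => hz (Ψ.injective h1)) aYW aZW

theorem labf_st (M : MS1 Γ S co (fun _ _ => False)) {Ψ : Pt ≃ Pt} {τ : Pt → ι → ι}
    (h : LabF co Ψ τ) {x y : Pt} {i : ι} (hxy : Ag co {i} x y) {j : ι} (hj : j ∈ st Γ i) :
    τ y j = τ x j := by
  by_cases hyx : y = x
  · rw [hyx]
  rcases hj with h1 | h1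
  · rw [h1]
    exact labf_same M h hxy
  · exact (labf_adj M h h1 hxy hyx).2

end

end VTB
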