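import Pool.Agent.Lib.MP_32d917_al_vt.I61

/-!
# I62: star-rigid graphs: the labels of the images do not depend on the point

`lab_ex`: choose `τ` and `τ'` for `Ψ` and `Ψ.symm` (`PanP`). For every `x` the map `τ x` is a bijection with inverse `τ' (Ψ x)` (`labf_inv` for `Ψ` and for `Ψ.symm`), it preserves adjacency (`labf_adj` with a point `y` of `pan_ne`), and so does its inverse: an automorphism of `Γ`. If `Ag {i} x y` then `τ y` and `τ x` agree on `st i` (`labf_st`), so the automorphism `(τ y)⁻¹ ∘ τ x` fixes `st i` pointwise; by `SRig` it is the identity, `τ y = τ x`. By `M.conn` (a step is in a panel) `τ` is constant.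
`lab_uniq`: `labf_uniq` at any point (`M.ne`; `Ψ` surjective).
`lab_ag`: `ag_geod` (A02): a chain of steps of labels in `J` from `x` to `y`; the images of the steps are in panels of labels `τ i`, `i ∈ J`; `ag_trans`, `ag_mono`.
-/

set_option autoImplicit false

namespace VTB

open LatIso LatN LatF RaagIso

/-- an automorphism of the graph which fixes a star pointwise is the identity -/
def SRig {ι : Type} (Γ : SimpleGraph ι) : Prop :=
  ∀ (σ : Equiv.Perm ι), (∀ i j, Γ.Adj (σ i) (σ j) ↔ Γ.Adj i j) → ∀ v, (∀ w ∈ st Γ v, σ w = w) →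
    ∀ w, σ w = w

section

variable {ι Pt : Type} [Fintype ι] {V : ι → Type} {Γ : SimpleGraph ι}
  {S : ∀ i, SimpleGraph (V i)} {co : Pt → ∀ i, V i}

omit [Fintype ι] in
private theorem I62_step {x y : Pt} {i : ι} (h : VSt S co i x y) : Ag co {i} x y :=
  fun j hj => h.2 j fun h1 => hj h1

theorem lab_ex (M : MS1 Γ S co (fun _ _ => False)) (hs : SRig Γ) (Ψ : Pt ≃ Pt)
    (h : PanP co co Ψ) (h' : PanP co co Ψ.symm) :
    ∃ τ : Equiv.Perm ι, (∀ i j, Γ.Adj (τ i) (τ j) ↔ Γ.Adj i j) ∧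
      ∀ x y i, Ag co {i} x y ↔ Ag co {τ i} (Ψ x) (Ψ y) := by
  choose τ hτ using h
  choose τ' hτ' using h'
  have hl : LabF co Ψ τ := hτ
  have hl' : LabF co Ψ.symm τ' := hτ'
  have e1 : ∀ x i, τ' (Ψ x) (τ x i) = i := fun x i => labf_inv M hl hl' x i
  have e2 : ∀ x i, τ x (τ' (Ψ x) i) = i := fun x i => by
    have h1 := labf_inv M (Ψ := Ψ.symm) hl' hl (Ψ x) i
    rw [Equiv.symm_apply_apply] at h1
    exact h1
  obtain ⟨P, hP⟩ : ∃ P : Pt → Equiv.Perm ι, ∀ x i, P x i = τ x i :=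
    ⟨fun x => ⟨τ x, τ' (Ψ x), e1 x, e2 x⟩, fun _ _ => rfl⟩
  have hadj : ∀ x i j, Γ.Adj (P x i) (P x j) ↔ Γ.Adj i j := by
    intro x i j
    rw [hP, hP]
    constructor
    · intro h1
      obtain ⟨y, hy, h2⟩ := pan_ne M (Ψ x) (τ x i)
      have h3 := (labf_adj M hl' h1 h2 hy).1
      rw [e1, e1] at h3
      exact h3
    · intro h1
      obtain ⟨y, hy, h2⟩ := pan_ne M x i
      exact (labf_adj M hl h1 h2 hy).1
  have hstep : ∀ x y i, Ag co {i} x y → P y = P x := by
    intro x y i hxy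
    have h1 := hs ((P x).trans (P y).symm) (fun a b => by
      rw [Equiv.trans_apply, Equiv.trans_apply, ← hadj y, Equiv.apply_symm_apply,
        Equiv.apply_symm_apply, hadj x]) i (fun a ha => by
      rw [Equiv.trans_apply, Equiv.symm_apply_eq, hP, hP]
      exact (labf_st M hl hxy ha).symm)
    refine Equiv.ext fun a => ?_
    have h2 := h1 a
    rw [Equiv.trans_apply, Equiv.symm_apply_eq] at h2
    exact h2.symm
  have hconst : ∀ x y, P y = P x := by
    intro x y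
    have h1 := M.conn x y
    induction h1 with
    | refl => rfl
    | tail _ h2 ih =>
      obtain ⟨i, h3⟩ := h2
      exact (hstep _ _ i (I62_step h3)).trans ih
  obtain ⟨x₀⟩ := M.ne
  refine ⟨P x₀, hadj x₀, fun x y i => ?_⟩
  rw [← hconst x₀ x, hP]
  exact hτ x i y

theorem lab_uniq (M : MS1 Γ S co (fun _ _ => False)) (Ψ : Pt ≃ Pt) {τ τ' : ι → ι}
    (h : ∀ x y i, Ag co {i} x y ↔ Ag co {τ i} (Ψ x) (Ψ y))
    (h' : ∀ x y i, Ag co {i} x y ↔ Ag co {τ' i} (Ψ x) (Ψ y)) : τ = τ' := by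
  obtain ⟨x⟩ := M.ne
  funext i
  refine labf_uniq M (x := Ψ x) fun w hw => ?_
  obtain ⟨y, rfl⟩ := Ψ.surjective w
  exact (h' x y i).1 ((h x y i).2 hw)

theorem lab_ag (M : MS1 Γ S co (fun _ _ => False)) {Ψ : Pt → Pt} {τ : ι → ι}
    (h : ∀ x y i, Ag co {i} x y → Ag co {τ i} (Ψ x) (Ψ y)) {x y : Pt} {J : Set ι}
    (hxy : Ag co J x y) : Ag co (τ '' J) (Ψ x) (Ψ y) := by
  have h1 : Relation.ReflTransGen (fun a b => Ag co J x a ∧ Ag co J x b ∧ ∃ i ∈ J, VSt S co i a b)
      x y := by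
    refine Relation.ReflTransGen.mono ?_ _ _ (ag_geod M hxy)
    rintro a b ⟨h3, h4, i, hi, h5, _⟩
    exact ⟨h3, h4, i, hi, h5⟩
  clear hxy
  induction h1 with
  | refl => exact ag_refl _
  | tail _ h2 ih =>
    obtain ⟨h3, h4, i, hi, h5⟩ := h2
    refine ag_trans ih (ag_mono ?_ (h _ _ i (I62_step h5)))
    intro j hj
    rw [Set.mem_singleton_iff] at hj
    rw [hj]
    exact Set.mem_image_of_mem τ hi

end

end VTB
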