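import Pool.Agent.Lib.MP_32d917_al_vt.I62
import Pool.Agent.Lib.MP_32d917_al_vt.I04

/-!
# I63: the action of `G` on labels and vertices

`pan_act` (I04) gives the action of `G` on `Pt`, extending the action of `N`, by `PanP` bijections.
* Labels: for `g` let `τ g` be the permutation of `lab_ex` for the bijection `x ↦ g • x` (its inverse is `x ↦ g⁻¹ • x`). By `lab_uniq` `τ (g h) = τ g ∘ τ h`, `τ 1 = id`, and `τ n = id` for `n ∈ N` (for `n ∈ N`: `Ag {i} x y ↔ Ag {i} (n • x) (n • y)` by `B.lat.pre.gco` and `B.lab`). So `G` acts on `ι`.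
* Vertices: for `v : V` with `κ v = i` choose `x` with `co x i = v` (`M.onto`), `g • v := (co (g • x) (g • i)).1`. Independent of `x`: if `co x i = co y i` then `Ag {k | k ≠ i} x y`, so by `lab_ag` `Ag (τ g '' {k | k ≠ i}) (g • x) (g • y)`, and `τ g i` is not in this set. So `g • (co x i).1 = (co (g • x) (g • i)).1` for all `x`, `i` (`gco`); the axioms of an action, `κ (g • v) = g • κ v` and the compatibility with `N` (`B.lat.pre.gco`, `B.lab`) follow (every vertex is a coordinate).
Formulation: three actions `a`, `b`, `c` of `G` such that `RAct` holds for them, and their restrictions to `N` are the given ones.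
-/

set_option autoImplicit false

namespace VTB

open LatIso LatN LatF RaagIso

private theorem I63_core {G : Type} [Group G] (N : Subgroup G) {ι Pt V : Type} [Fintype ι]
    [MulAction N Pt] [MulAction N V] [MulAction N ι] {Γ : SimpleGraph ι} {κ : V → ι}
    {S : SimpleGraph V} {co : Pt → ∀ i, Fib κ i} (B : SBase N Γ κ S co) (hs : SRig Γ)
    [a : MulAction G Pt] (ha1 : ∀ (n : N) (x : Pt), (n : G) • x = n • x)
    (ha2 : ∀ g : G, PanP co co (fun x => g • x)) :
    ∃ (b : MulAction G V) (c : MulAction G ι),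
      RAct G Γ κ co (fun _ _ => False) ∧
      (∀ (n : N) (v : V), (n : G) • v = n • v) ∧ ∀ (n : N) (i : ι), (n : G) • i = n • i := by
  have M := B.lat.pre.ms
  have hex : ∀ g : G, ∃ τ : Equiv.Perm ι, (∀ i j, Γ.Adj (τ i) (τ j) ↔ Γ.Adj i j) ∧
      ∀ x y i, Ag co {i} x y ↔ Ag co {τ i} (g • x) (g • y) := by
    intro g
    exact lab_ex M hs (MulAction.toPerm g) (ha2 g) (ha2 g⁻¹)
  choose τ hτ1 hτ2 using hex
  have hmul : ∀ g h i, τ (g * h) i = τ g (τ h i) := by
    intro g h i
    have e := lab_uniq M (MulAction.toPerm (g * h)) (τ := τ (g * h)) (τ' := fun i => τ g (τ h i))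
      (hτ2 (g * h)) (fun x y i => by
        rw [hτ2 h x y i, hτ2 g (h • x) (h • y) (τ h i)]
        change _ ↔ Ag co {τ g (τ h i)} ((g * h) • x) ((g * h) • y)
        rw [mul_smul, mul_smul])
    exact congrFun e i
  have hone : ∀ i, τ 1 i = i := by
    intro i
    have e := lab_uniq M (MulAction.toPerm (1 : G)) (τ := τ 1) (τ' := fun i => i)
      (hτ2 1) (fun x y i => by
        change _ ↔ Ag co {i} ((1 : G) • x) ((1 : G) • y)
        rw [one_smul, one_smul])
    exact congrFun e i
  have hN : ∀ (n : N) i, τ (n : G) i = i := by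
    intro n i
    have e := lab_uniq M (MulAction.toPerm (n : G)) (τ := τ (n : G)) (τ' := fun i => i)
      (hτ2 (n : G)) (fun x y i => by
        change _ ↔ Ag co {i} ((n : G) • x) ((n : G) • y)
        rw [ha1, ha1, ← B.lat.pre.ract.ag n (J := {i})]
        have h1 : {k : ι | n⁻¹ • k ∈ ({i} : Set ι)} = {i} := by
          ext k
          rw [Set.mem_setOf_eq, B.lab]
        rw [h1])
    exact congrFun e i
  have hpx : ∀ v : V, ∃ x, co x (κ v) = ⟨v, rfl⟩ := fun v => M.onto (κ v) ⟨v, rfl⟩
  choose px hpx using hpx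
  have hind : ∀ (g : G) x y i, co x i = co y i → co (g • x) (τ g i) = co (g • y) (τ g i) := by
    intro g x y i h
    have h1 : Ag co {k | k ≠ i} x y := by
      intro j hj
      have h2 : j = i := by
        by_contra h3
        exact hj h3
      rw [h2, h]
    have h2 := lab_ag M (Ψ := fun x => g • x) (τ := τ g) (fun x y i => (hτ2 g x y i).1) h1
    refine (h2 (τ g i) ?_).symm
    rintro ⟨k, hk, hk2⟩
    exact hk ((τ g).injective hk2)
  have K : ∀ (g : G) x i v, (co x i).1 = v →
      (co (g • px v) (τ g (κ v))).1 = (co (g • x) (τ g i)).1 := by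
    intro g x i v hv
    have hi : κ v = i := by
      rw [← hv]
      exact (co x i).2
    subst hi
    rw [hind g (px v) x (κ v) (by rw [hpx v]; exact Subtype.ext hv.symm)]
  let b : MulAction G V :=
    { smul := fun g v => (co (g • px v) (τ g (κ v))).1
      one_smul := fun v => by
        change (co ((1 : G) • px v) (τ 1 (κ v))).1 = v
        rw [one_smul, hone, hpx]
      mul_smul := fun g h v => by
        change (co ((g * h) • px v) (τ (g * h) (κ v))).1 =
          (co (g • px (co (h • px v) (τ h (κ v))).1)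
            (τ g (κ (co (h • px v) (τ h (κ v))).1))).1
        rw [K g (h • px v) (τ h (κ v)) _ rfl, mul_smul, hmul] }
  let c : MulAction G ι :=
    { smul := fun g i => τ g i
      one_smul := hone
      mul_smul := hmul }
  refine ⟨b, c, ⟨?_, ?_, ?_, fun _ _ _ => Iff.rfl⟩, ?_, ?_⟩
  · intro g v
    exact (co (g • px v) (τ g (κ v))).2
  · exact fun g i j => hτ1 g i j
  · intro g x i
    exact (K g x i _ rfl).symm
  · intro n v
    change (co ((n : G) • px v) (τ (n : G) (κ v))).1 = n • v
    have h1 := B.lat.pre.gco n (px v) (κ v)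
    rw [B.lab, hpx] at h1
    rw [hN, ha1]
    exact h1
  · intro n i
    change τ (n : G) i = n • i
    rw [hN, B.lab]

theorem g_act {G : Type} [Group G] (N : Subgroup G) [N.Normal] {ι Pt V : Type} [Fintype ι]
    [MulAction N Pt] [MulAction N V] [MulAction N ι] {Γ : SimpleGraph ι} {κ : V → ι}
    {S : SimpleGraph V} {co : Pt → ∀ i, Fib κ i} (B : SBase N Γ κ S co) (hs : SRig Γ) :
    ∃ (a : MulAction G Pt) (b : MulAction G V) (c : MulAction G ι),
      RAct G Γ κ co (fun _ _ => False) ∧ (∀ (n : N) (x : Pt), (n : G) • x = n • x) ∧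
      (∀ (n : N) (v : V), (n : G) • v = n • v) ∧ ∀ (n : N) (i : ι), (n : G) • i = n • i := by
  obtain ⟨a, ha1, ha2⟩ := pan_act N B
  obtain ⟨b, c, h1, h2, h3⟩ := I63_core N B hs (a := a) ha1 ha2
  exact ⟨a, b, c, h1, ha1, h2, h3⟩

end VTB
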