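import Pool.Agent.Lib.MP_32d917_al.NDefs
import Pool.Agent.Lib.MP_32d917_al.ST1

/-!
# I64: oriented lines (pure)

`T` is a tree on `W` such that every vertex has exactly two neighbours, and `s` an orientation of the edges such that exactly one of the two edges at every vertex goes out of it. Then there is a numbering `pos : W ≃ ℤ` such that `T.Adj a b` and `s a b = true` iff `pos b = pos a + 1`.
Proof. For `a : W` let `σ a` be the neighbour `b` with `s a b = true`, `ρ a` the neighbour with `s a (ρ a) = false`. `σ (ρ a) = a`: `a` is a neighbour of `ρ a` with `s (ρ a) a = !(s a (ρ a)) = true`; in the same way `ρ (σ a) = a`. So `σ` is a permutation of `W`. Fix `p0` and put `b z := (σ ^ z) p0` for `z : ℤ` (zpow in `Equiv.Perm W`). `b (z + 1)` is adjacent to `b z`, `b (z + 2) ≠ b z` (`s (b (z+1)) (b (z+2)) = true`, `s (b (z+1)) (b z) = false`).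
A sequence of adjacent vertices without backtracking in a tree is a geodesic: `T.dist (b z) (b (z + n)) = n` for `n : ℕ` (induction on `n`, `st_adj`-type lemmas of ST1: the neighbour of `b (z+n+1)` towards `b z` is `b (z+n)`, and `b (z+n+2)` is another neighbour, so its distance is larger; see the lemmas `st_next`, `st_uniq`, `st_step` there). So `b` is injective. Surjective: `T` is connected, and the neighbours of `b z` are `b (z+1)` and `b (z-1)`.
`pos` := the inverse of `b`. If `T.Adj a c`, `s a c = true` then `c = σ a`, so `pos c = pos a + 1`, and conversely.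
`lin_tr`: `f` is a bijection (or only a map) of `W` preserving adjacency and orientation: `f (σ a) = σ (f a)`, so `pos (f a) = pos a + (pos (f p) - pos p)` for every `p`: the difference `pos (f a) - pos a` is the same for `a` and `σ a`, hence constant.
-/

set_option autoImplicit false

namespace VTB

open LatIso LatN

private theorem I64_dist {W : Type} {T : SimpleGraph W} (hT : T.IsTree) (s : W → W → Bool)
    (σ ρ : W → W) (hσ : ∀ a, T.Adj a (σ a)) (hρ : ∀ a, T.Adj a (ρ a)) (hsσ : ∀ a, s a (σ a) = true)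
    (hsρ : ∀ a, s a (ρ a) = false) (hρσ : ∀ a, ρ (σ a) = a) (p : W) (n : ℕ) :
    T.dist p (σ^[n] p) = n ∧ T.dist p (σ^[n + 1] p) = n + 1 := by
  induction n with
  | zero =>
    refine ⟨by rw [Function.iterate_zero, id_eq, SimpleGraph.dist_self], ?_⟩
    rw [zero_add, Function.iterate_one]
    exact st1_one (hσ p)
  | succ n ih =>
    refine ⟨ih.2, ?_⟩
    obtain ⟨u, hu⟩ : ∃ u, u = σ^[n] p := ⟨_, rfl⟩
    have e1 : σ^[n + 1] p = σ u := by rw [Function.iterate_succ_apply', hu]
    have e2 : σ^[n + 1 + 1] p = σ (σ u) := by rw [Function.iterate_succ_apply', e1]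
    rw [e2]
    rw [← hu, e1] at ih
    rcases st_adj hT (hσ (σ u)) p with h1 | h1
    · rw [h1, ih.2]
    · exfalso
      have h2 : T.Adj (σ u) u := by
        have h3 := hρ (σ u)
        rw [hρσ] at h3
        exact h3
      have e3 := st1_one h2
      have e4 := st1_one (hσ (σ u))
      have c1 : T.dist (σ u) p = T.dist p (σ u) := SimpleGraph.dist_comm
      have c2 : T.dist u p = T.dist p u := SimpleGraph.dist_comm
      have c3 : T.dist (σ (σ u)) p = T.dist p (σ (σ u)) := SimpleGraph.dist_comm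
      have h4 : u = σ (σ u) := by
        refine st_uniq hT h2 (hσ (σ u)) (y := p) ?_ ?_
        · unfold Bt
          omega
        · unfold Bt
          omega
      have h5 := hsσ (σ u)
      have h6 := hsρ (σ u)
      rw [hρσ] at h6
      rw [← h4, h6] at h5
      exact Bool.false_ne_true h5

theorem lin_pos {W : Type} {T : SimpleGraph W} (hT : T.IsTree) (s : W → W → Bool)
    (h1 : ∀ a b, T.Adj a b → s b a = !(s a b))
    (h2 : ∀ a, ∃ b c, T.Adj a b ∧ T.Adj a c ∧ s a b = true ∧ s a c = false ∧
      ∀ d, T.Adj a d → d = b ∨ d = c) :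
    ∃ pos : W ≃ ℤ, ∀ a b, (T.Adj a b ∧ s a b = true) ↔ pos b = pos a + 1 := by
  choose σ ρ hσ hρ hsσ hsρ hn using h2
  have hσρ : ∀ a, σ (ρ a) = a := by
    intro a
    have h3 : s (ρ a) a = true := by
      rw [h1 a (ρ a) (hρ a), hsρ a]
      rfl
    rcases hn (ρ a) a (hρ a).symm with h4 | h4
    · exact h4.symm
    · exfalso
      have h5 := hsρ (ρ a)
      rw [← h4, h3] at h5
      exact Bool.false_ne_true h5.symm
  have hρσ : ∀ a, ρ (σ a) = a := by
    intro a
    have h3 : s (σ a) a = false := by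
      rw [h1 a (σ a) (hσ a), hsσ a]
      rfl
    rcases hn (σ a) a (hσ a).symm with h4 | h4
    · exfalso
      have h5 := hsσ (σ a)
      rw [← h4, h3] at h5
      exact Bool.false_ne_true h5
    · exact h4.symm
  obtain ⟨e, he, he'⟩ : ∃ e : Equiv.Perm W, (∀ a, e a = σ a) ∧ ∀ a, e.symm a = ρ a :=
    ⟨⟨σ, ρ, hρσ, hσρ⟩, fun _ => rfl, fun _ => rfl⟩
  obtain ⟨p0⟩ := hT.connected.nonempty
  obtain ⟨b, hb⟩ : ∃ b : ℤ → W, ∀ z, b z = (e ^ z) p0 := ⟨_, fun _ => rfl⟩
  have hb1 : ∀ z, b (z + 1) = σ (b z) := by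
    intro z
    rw [hb, hb, add_comm, zpow_add, zpow_one, Equiv.Perm.mul_apply, he]
  have hbn : ∀ (z : ℤ) (n : ℕ), b (z + n) = σ^[n] (b z) := by
    intro z n
    induction n with
    | zero => rw [Nat.cast_zero, add_zero, Function.iterate_zero, id_eq]
    | succ n ih =>
      rw [Function.iterate_succ_apply', ← ih, ← hb1]
      push_cast
      rw [add_assoc]
  have hinj1 : ∀ (z : ℤ) (n : ℕ), b (z + n) = b z → n = 0 := by
    intro z n h3
    have h4 := (I64_dist hT s σ ρ hσ hρ hsσ hsρ hρσ (b z) n).1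
    rw [← hbn, h3, SimpleGraph.dist_self] at h4
    exact h4.symm
  have hinj : Function.Injective b := by
    intro z z' h3
    rcases le_total z z' with h4 | h4
    · obtain ⟨n, hn⟩ := Int.le.dest h4
      rw [← hn] at h3 ⊢
      rw [hinj1 z n h3.symm, Nat.cast_zero, add_zero]
    · obtain ⟨n, hn⟩ := Int.le.dest h4
      rw [← hn] at h3 ⊢
      rw [hinj1 z' n h3, Nat.cast_zero, add_zero]
  have hsurj : Function.Surjective b := by
    intro w
    have h3 := (SimpleGraph.reachable_iff_reflTransGen p0 w).1 (hT.connected.preconnected p0 w)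
    induction h3 with
    | refl => exact ⟨0, by rw [hb, zpow_zero, Equiv.Perm.one_apply]⟩
    | @tail u v _ h4 ih =>
      obtain ⟨z, hz⟩ := ih
      rcases hn u v h4 with h5 | h5
      · exact ⟨z + 1, by rw [hb1, hz, h5]⟩
      · refine ⟨z - 1, ?_⟩
        have h6 := hb1 (z - 1)
        rw [sub_add_cancel, hz] at h6
        rw [h5, h6, hρσ]
  obtain ⟨E, hE⟩ : ∃ E : ℤ ≃ W, ∀ z, E z = b z := ⟨Equiv.ofBijective b ⟨hinj, hsurj⟩, fun _ => rfl⟩
  refine ⟨E.symm, fun a c => ⟨?_, ?_⟩⟩
  · rintro ⟨h3, h4⟩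
    have h5 : c = σ a := by
      rcases hn a c h3 with h5 | h5
      · exact h5
      · exfalso
        have h6 := hsρ a
        rw [← h5, h4] at h6
        exact Bool.false_ne_true h6.symm
    rw [Equiv.symm_apply_eq, hE, hb1, ← hE, Equiv.apply_symm_apply]
    exact h5
  · intro h3
    rw [Equiv.symm_apply_eq, hE, hb1, ← hE, Equiv.apply_symm_apply] at h3
    rw [h3]
    exact ⟨hσ a, hsσ a⟩

theorem lin_tr {W : Type} {T : SimpleGraph W} (s : W → W → Bool) (pos : W ≃ ℤ)
    (h : ∀ a b, (T.Adj a b ∧ s a b = true) ↔ pos b = pos a + 1) (f : W → W)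
    (hf : ∀ a b, T.Adj a b → s a b = true → T.Adj (f a) (f b) ∧ s (f a) (f b) = true) (a p : W) :
    pos (f a) = pos a + (pos (f p) - pos p) := by
  have h1 : ∀ z : ℤ, pos (f (pos.symm (z + 1))) = pos (f (pos.symm z)) + 1 := by
    intro z
    have h2 := (h (pos.symm z) (pos.symm (z + 1))).2 (by
      rw [Equiv.apply_symm_apply, Equiv.apply_symm_apply])
    exact (h _ _).1 (hf _ _ h2.1 h2.2)
  have h2 : ∀ z : ℤ, pos (f (pos.symm z)) = pos (f (pos.symm 0)) + z := by
    intro z
    induction z using Int.induction_on with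
    | zero => rw [add_zero]
    | succ n ih =>
      rw [h1, ih, add_assoc]
    | pred n ih =>
      have h3 := h1 (-n - 1)
      rw [sub_add_cancel, ih] at h3
      linarith
  have h3 := h2 (pos a)
  have h4 := h2 (pos p)
  rw [Equiv.symm_apply_apply] at h3 h4
  rw [h3, h4]
  ring

end VTB
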