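import Pool.Agent.Lib.MP_32d917_al_vt.I64
import Pool.Agent.Lib.MP_32d917_al_vt.I63
import Pool.Agent.Lib.MP_32d917_al_vt.E05

/-!
# I65: the trees of the regions are lines, the elements of `N` act by translations

`r` is a region, `i` its label. Let `W := {q : QQ Γ co _ // q.1.1 = r}` and `T` the graph `T.Adj q q' ↔ (comp κ S i).Adj` of the vertices `q.1.2`, `q'.1.2`. It is a tree: the set of vertices of a region is convex and nonempty (`vr_cv`), `cvx_tree` (see `E03_tree` in E03: the same argument). Every vertex `p` has exactly two neighbours: take a point `x ∈ r.1.2` over `p` (definition of `QQ`); a neighbour of `p` in `T` is the coordinate of a point `y ∈ r.1.2`, by `reg_pt` (`Ag (st i) x y`) we can take `y` with `Ag {i} x y`, so `VSt i x y`; `B.line x i` gives exactly two such points (different points of the panel have different coordinates `i`, `M.inj`).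
The orientation `s` of `B.ori`: `s p q` for the two neighbours have different values (third property). So `lin_pos` gives `pos`.
`n ∈ N` with `n • r = r` acts on `W` preserving adjacency (`B.lat.pre.act.adj`; `(n : G) • v = n • v`) and `s` (second property of `ori`): `lin_tr`: translation. `χ n := pos (n • p0) - pos p0` for a fixed `p0 : W` if `n ∈ N` and `n • r = r`, and `0` otherwise.
The element with `0 < χ n`: the HLat of `N` on the fibres (`vlat_hlat B.lat _ (⊤ : Subgroup N)`, see `pan_uniq` in I03) and `k_hyp` for a point `x ∈ r.1.2`: `a ∈ stJ x {i}`, `0 < tl (S i) a`. `a • r = r` (`a • x ∈ r.1.2`: `hl_mem`, `Ag {i} x (a • x)`; same label). If `χ a = 0` then `a` fixes the vertex `co x i`, so `tl = 0` (`tl_eq_zero`), contradiction. If `χ a < 0` take `a⁻¹`: `χ a⁻¹ = - χ a` (`pos (a • a⁻¹ • p0) = pos (a⁻¹ • p0) + χ a`).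
-/

set_option autoImplicit false

namespace VTB

open LatIso LatN LatF RaagIso

section

variable {H : Type} [Group H] {ι Pt V : Type} [Fintype ι] [MulAction H Pt] [MulAction H V]
  [MulAction H ι] {Γ : SimpleGraph ι} {κ : V → ι} {S : SimpleGraph V}
  {co : Pt → ∀ i, Fib κ i}

private theorem I65_tree (L : VLat H Γ κ S co (fun _ _ => False))
    (r : Rg Γ co (fun _ _ => False)) :
    (comp (fun q : QQ Γ co (fun _ _ => False) => q.1.1)
      (qgr Γ co (fun _ _ => False) S) r).IsTree := by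
  have : Fact (RAct H Γ κ co (fun _ _ => False)) := ⟨L.pre.ract⟩
  exact (qgr_gfor L (Equiv.refl _) (fun _ _ => rfl)).tree r

private theorem I65_two (B : SBase H Γ κ S co) (s : V → V → Bool)
    (h3 : ∀ x y z i, VSt (comp κ S) co i x y → VSt (comp κ S) co i x z → y ≠ z →
      s (co x i).1 (co y i).1 ≠ s (co x i).1 (co z i).1) (r : Rg Γ co (fun _ _ => False))
    (a : Fib (fun q : QQ Γ co (fun _ _ => False) => q.1.1) r) :
    ∃ b c, (comp (fun q : QQ Γ co (fun _ _ => False) => q.1.1)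
        (qgr Γ co (fun _ _ => False) S) r).Adj a b ∧
      (comp (fun q : QQ Γ co (fun _ _ => False) => q.1.1)
        (qgr Γ co (fun _ _ => False) S) r).Adj a c ∧
      s a.1.1.2 b.1.1.2 = true ∧ s a.1.1.2 c.1.1.2 = false ∧
      ∀ d, (comp (fun q : QQ Γ co (fun _ _ => False) => q.1.1)
        (qgr Γ co (fun _ _ => False) S) r).Adj a d → d = b ∨ d = c := by
  obtain ⟨q, rfl⟩ := a
  obtain ⟨x, hx, hx1⟩ := q.2
  have M := B.lat.ms.b
  obtain ⟨y, z, hyz, hy, hz, hyw⟩ := B.line x q.1.1.1.1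
  have hmem : ∀ w, VSt (comp κ S) co q.1.1.1.1 x w → w ∈ q.1.1.1.2 := by
    intro w hw
    have h1 := reg_mem q.1.1.2 hx
    rw [h1]
    intro j hj
    exact hw.2 j (fun h => hj (Or.inl h))
  let mk : ∀ w, VSt (comp κ S) co q.1.1.1.1 x w →
      Fib (fun q : QQ Γ co (fun _ _ => False) => q.1.1) q.1.1 := fun w hw =>
    ⟨mkq q.1.1 (co w q.1.1.1.1) ⟨w, hmem w hw, rfl⟩, rfl⟩
  have hadj : ∀ w hw, (comp (fun q : QQ Γ co (fun _ _ => False) => q.1.1)
        (qgr Γ co (fun _ _ => False) S) q.1.1).Adj ⟨q, rfl⟩ (mk w hw) := by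
    intro w hw
    refine ⟨rfl, ?_⟩
    change S.Adj q.1.2 (co w q.1.1.1.1).1
    rw [← hx1]
    exact hw.1
  have hall : ∀ d, (comp (fun q : QQ Γ co (fun _ _ => False) => q.1.1)
        (qgr Γ co (fun _ _ => False) S) q.1.1).Adj ⟨q, rfl⟩ d → ∃ w, ∃ hw : VSt (comp κ S) co q.1.1.1.1 x w,
          d = mk w hw := by
    rintro ⟨p, hp⟩ ⟨h1, h2⟩
    obtain ⟨w, hw, hw1⟩ := p.2
    have hp' : p.1.1 = q.1.1 := hp
    have hwq : w ∈ q.1.1.1.2 := by
      rw [← hp']
      exact hw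
    have hw1' : (co w q.1.1.1.1).1 = p.1.2 := by
      rw [← hp']
      exact hw1
    have hag : Ag co (st Γ q.1.1.1.1) x w := by
      have h3 := reg_mem q.1.1.2 hx
      rw [h3] at hwq
      exact hwq
    obtain ⟨u, hu, hu1⟩ := reg_pt M hag
    have hst : VSt (comp κ S) co q.1.1.1.1 x u := by
      refine ⟨?_, fun j hj => hu j hj⟩
      change S.Adj (co x q.1.1.1.1).1 (co u q.1.1.1.1).1
      rw [hx1, hu1, hw1']
      exact h2
    refine ⟨u, hst, ?_⟩
    apply Subtype.ext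
    apply Subtype.ext
    refine Prod.ext hp' ?_
    change p.1.2 = (co u q.1.1.1.1).1
    rw [hu1, hw1']
  have hne := h3 x y z _ hy hz hyz
  rw [hx1] at hne
  have hcase : ∀ d, (comp (fun q : QQ Γ co (fun _ _ => False) => q.1.1)
        (qgr Γ co (fun _ _ => False) S) q.1.1).Adj ⟨q, rfl⟩ d → d = mk y hy ∨ d = mk z hz := by
    intro d hd
    obtain ⟨w, hw', hdw⟩ := hall d hd
    rcases hyw w hw' with h | h
    · subst h
      exact Or.inl hdw
    · subst h
      exact Or.inr hdw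
  rcases Bool.eq_false_or_eq_true (s q.1.2 (co y q.1.1.1.1).1) with ht | hf
  · rcases Bool.eq_false_or_eq_true (s q.1.2 (co z q.1.1.1.1).1) with ht' | hf'
    · exact absurd (ht.trans ht'.symm) hne
    · exact ⟨mk y hy, mk z hz, hadj y hy, hadj z hz, ht, hf', hcase⟩
  · rcases Bool.eq_false_or_eq_true (s q.1.2 (co z q.1.1.1.1).1) with ht' | hf'
    · exact ⟨mk z hz, mk y hy, hadj z hz, hadj y hy, ht', hf, fun d hd => (hcase d hd).symm⟩
    · exact absurd (hf.trans hf'.symm) hne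

private theorem I65_el (B : SBase H Γ κ S co) (r : Rg Γ co (fun _ _ => False)) :
    ∃ (n : H) (x : Pt), x ∈ r.1.2 ∧ Ag co {r.1.1} x (n • x) ∧
      n • (co x r.1.1).1 ≠ (co x r.1.1).1 := by
  obtain ⟨x, _, hr⟩ := r.2
  have hx : x ∈ r.1.2 := by
    rw [hr]
    exact ag_refl x
  have f1 : Fact (KEq H κ) := ⟨B.lat.pre.act.kap⟩
  have f2 : Fact (∀ g ∈ (⊤ : Subgroup H), ∀ i : ι, g • i = i) := ⟨fun g _ i => B.lab g i⟩
  have K := vlat_hlat B.lat (n_cleaf B.lat.ms) (⊤ : Subgroup H) inferInstance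
  obtain ⟨a, ha, ha0⟩ := k_hyp K (x := x) (v := r.1.1) (fun _ h => h.elim)
  refine ⟨a.1, x, hx, (hl_mem K).1 ha, fun h => ?_⟩
  have h1 : a • co x r.1.1 = co x r.1.1 := Subtype.ext h
  have h2 := (tl_eq_zero (K.ta r.1.1) a).2 ⟨_, h1⟩
  omega

end

theorem reg_line {G : Type} [Group G] (N : Subgroup G) [N.Normal] {ι Pt V : Type} [Fintype ι]
    [MulAction N Pt] [MulAction N V] [MulAction N ι] {Γ : SimpleGraph ι} {κ : V → ι}
    {S : SimpleGraph V} {co : Pt → ∀ i, Fib κ i} (B : SBase N Γ κ S co)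
    [MulAction G Pt] [MulAction G V] [MulAction G ι] [Fact (RAct G Γ κ co (fun _ _ => False))]
    (e1 : ∀ (n : N) (x : Pt), (n : G) • x = n • x) (e2 : ∀ (n : N) (v : V), (n : G) • v = n • v)
    (e3 : ∀ (n : N) (i : ι), (n : G) • i = n • i) (r : Rg Γ co (fun _ _ => False)) :
    ∃ (pos : {q : QQ Γ co (fun _ _ => False) // q.1.1 = r} ≃ ℤ) (χ : G → ℤ),
      (∀ n ∈ N, n • r = r → ∀ q q' : {q : QQ Γ co (fun _ _ => False) // q.1.1 = r},
        q'.1 = n • q.1 → pos q' = pos q + χ n) ∧ ∃ n ∈ N, n • r = r ∧ 0 < χ n := by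
  classical
  obtain ⟨s, hs1, hs2, hs3⟩ := B.ori
  have hT := I65_tree B.lat r
  obtain ⟨pos, hpos⟩ := lin_pos hT (fun a b => s a.1.1.2 b.1.1.2) (fun a b h => hs1 _ _ h.2)
    (fun a => I65_two B s hs3 r a)
  have hf : ∀ (n : G), n • r = r → ∀ (q : Fib (fun q : QQ Γ co (fun _ _ => False) => q.1.1) r),
      (n • q.1).1.1 = r := by
    intro n hn q
    have hq : q.1.1.1 = r := q.2
    rw [qq_reg, hq]
    exact hn
  obtain ⟨F, hF⟩ : ∃ F : ∀ n : G, n • r = r → Fib (fun q : QQ Γ co (fun _ _ => False) => q.1.1) r →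
      Fib (fun q : QQ Γ co (fun _ _ => False) => q.1.1) r, ∀ n hn q, (F n hn q).1 = n • q.1 :=
    ⟨fun n hn q => ⟨n • q.1, hf n hn q⟩, fun _ _ _ => rfl⟩
  obtain ⟨p0, -⟩ : ∃ p0, pos p0 = 0 := ⟨pos.symm 0, pos.apply_symm_apply 0⟩
  obtain ⟨χ, hχ⟩ : ∃ χ : G → ℤ, ∀ n (hn : n • r = r), χ n = pos (F n hn p0) - pos p0 :=
    ⟨fun n => if h : n • r = r then pos (F n h p0) - pos p0 else 0, fun n hn => dif_pos hn⟩
  have hmain : ∀ n (_ : n ∈ N) (hn : n • r = r) q, pos (F n hn q) = pos q + χ n := by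
    intro n hnN hn q
    have h1 := lin_tr (fun a b => s a.1.1.2 b.1.1.2) pos hpos (F n hn) (by
      intro a b hab hs
      have h5 : (F n hn a).1.1.2 = (⟨n, hnN⟩ : N) • a.1.1.2 := by
        rw [hF]
        exact e2 ⟨n, hnN⟩ a.1.1.2
      have h6 : (F n hn b).1.1.2 = (⟨n, hnN⟩ : N) • b.1.1.2 := by
        rw [hF]
        exact e2 ⟨n, hnN⟩ b.1.1.2
      refine ⟨⟨?_, ?_⟩, ?_⟩
      · exact (F n hn a).2.trans (F n hn b).2.symm
      · change S.Adj (F n hn a).1.1.2 (F n hn b).1.1.2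
        rw [h5, h6]
        exact B.lat.pre.act.adj _ _ _ hab.2
      · beta_reduce
        rw [h5, h6, hs2 _ _ _ hab.2]
        exact hs) q p0
    rw [h1, hχ n hn]
  have hfst : ∀ n ∈ N, n • r = r → ∀ q q' : Fib (fun q : QQ Γ co (fun _ _ => False) => q.1.1) r,
      q'.1 = n • q.1 → pos q' = pos q + χ n := by
    intro n hnN hn q q' hq
    have h1 : q' = F n hn q := Subtype.ext (hq.trans (hF n hn q).symm)
    rw [h1]
    exact hmain n hnN hn q
  refine ⟨pos, χ, hfst, ?_⟩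
  obtain ⟨n0, x, hx, hag, hne⟩ := I65_el B r
  have hnx : (n0 : G) • x ∈ r.1.2 := by
    have h1 := reg_mem r.2 hx
    rw [h1, e1]
    intro j hj
    exact hag j (fun h => hj (Or.inl h))
  have hn : (n0 : G) • r = r := by
    apply Subtype.ext
    refine (rg_smul (n0 : G) r (reg_mem r.2 hx)).trans ?_
    have h2 : (n0 : G) • r.1.1 = r.1.1 := (e3 n0 _).trans (B.lab n0 _)
    rw [h2]
    exact (reg_mem r.2 hnx).symm
  have hne0 : χ (n0 : G) ≠ 0 := by
    intro h0
    obtain ⟨p, hp⟩ : ∃ p : Fib (fun q : QQ Γ co (fun _ _ => False) => q.1.1) r,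
        p.1.1.2 = (co x r.1.1).1 := ⟨⟨mkq r (co x r.1.1) ⟨x, hx, rfl⟩, rfl⟩, rfl⟩
    have h1 := hmain (n0 : G) n0.2 hn p
    rw [h0, add_zero] at h1
    have h2 := pos.injective h1
    have h3 : (F (n0 : G) hn p).1.1.2 = p.1.1.2 := by rw [h2]
    have h4 : (F (n0 : G) hn p).1.1.2 = n0 • p.1.1.2 := by
      rw [hF]
      exact e2 n0 p.1.1.2
    rw [h4, hp] at h3
    exact hne h3
  rcases lt_or_gt_of_ne hne0 with hlt | hgt
  · have hn' : (n0 : G)⁻¹ • r = r := inv_smul_eq_iff.2 hn.symm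
    refine ⟨(n0 : G)⁻¹, N.inv_mem n0.2, hn', ?_⟩
    have h1 := hfst (n0 : G)⁻¹ (N.inv_mem n0.2) hn' (F (n0 : G) hn p0) p0 (by
      rw [hF, inv_smul_smul])
    have h2 := hmain (n0 : G) n0.2 hn p0
    omega
  · exact ⟨(n0 : G), n0.2, hn, hgt⟩

end VTB
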