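import Pool.Agent.Lib.MP_32d917_al_vt.I41
import Pool.Agent.Lib.MP_32d917_al_vt.I50
import Pool.Agent.Lib.MP_32d917_al_vt.I65

/-!
# I66: an action on the lines attached to the regions
-/

set_option autoImplicit false

namespace VTB

open LatIso LatN LatF RaagIso

section

variable {G : Type} [Group G] {ι Pt V : Type} [MulAction G Pt] [MulAction G V] [MulAction G ι]
  {Γ : SimpleGraph ι} {κ : V → ι} {co : Pt → ∀ i, Fib κ i}
  {N : Pt → ι → Prop} [Fact (RAct G Γ κ co N)]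

/-- `G` acts on regions × `ℤ`, by isometries on the lines; `Pi` is an equivariant map from the
vertices of the region `r` to the line of `r`, with finite fibres and gaps bounded by `C r` -/
structure LinA (H : Subgroup G) (Pi : QQ Γ co N → ℤ) (C : Rg Γ co N → ℕ)
    [MulAction G (Rg Γ co N × ℤ)] : Prop where
  iso : ∀ (g : G) r z w,
    |(g • ((r, z) : Rg Γ co N × ℤ)).2 - (g • ((r, w) : Rg Γ co N × ℤ)).2| = |z - w|
  eqv : ∀ (g : G) q, g • ((q.1.1, Pi q) : Rg Γ co N × ℤ) = ((g • q).1.1, Pi (g • q))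
  fib : ∀ r z, {q : QQ Γ co N | q.1.1 = r ∧ Pi q = z}.Finite
  cg : ∀ (g : G) r, C (g • r) = C r
  gap : ∀ r z, ∃ q : QQ Γ co N, q.1.1 = r ∧ |z - Pi q| ≤ C r
  fix : ∀ n ∈ H, ∀ r z, n • ((r, z) : Rg Γ co N × ℤ) = (r, z) →
    ∀ q : QQ Γ co N, q.1.1 = r → n • q = q

end

theorem lina_ex {G : Type} [Group G] (N : Subgroup G) [N.Normal] [N.FiniteIndex] {ι Pt V : Type}
    [Fintype ι] [MulAction N Pt] [MulAction N V] [MulAction N ι] {Γ : SimpleGraph ι} {κ : V → ι}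
    {S : SimpleGraph V} {co : Pt → ∀ i, Fib κ i} (B : SBase N Γ κ S co)
    [MulAction G Pt] [MulAction G V] [MulAction G ι] [Fact (RAct G Γ κ co (fun _ _ => False))]
    (e1 : ∀ (n : N) (x : Pt), (n : G) • x = n • x) (e2 : ∀ (n : N) (v : V), (n : G) • v = n • v)
    (e3 : ∀ (n : N) (i : ι), (n : G) • i = n • i) :
    ∃ (_ : MulAction G (Rg Γ co (fun _ _ => False) × ℤ)) (Pi : QQ Γ co (fun _ _ => False) → ℤ)
      (C : Rg Γ co (fun _ _ => False) → ℕ),
      (∀ (g : G) (a : Rg Γ co (fun _ _ => False) × ℤ), (g • a).1 = g • a.1) ∧ LinA N Pi C := by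
  obtain ⟨a, Pi, C, h1, h2, h3, h4, h5, h6, h7⟩ := ind_line
    (fun q : QQ Γ co (fun _ _ => False) => q.1.1) (fun _ _ => rfl) N
    (fun r => reg_line N B e1 e2 e3 r)
  exact ⟨a, Pi, C, fun g a => h1 g a.1 a.2, ⟨h2, h3, h4, h5, h6, h7⟩⟩

end VTB
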