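import Pool.Agent.Lib.MP_32d917_al_vt.I66
import Pool.Agent.Lib.MP_32d917_al_vt.I54

/-!
# I67: the action on the blow-up

`G` acts on `UV = V ⊕ (Rg × ℤ)` (sum action) and on the new points: `(g • u) (g • i) = g • u i`.
* `up_coe`: `uco (g • u) (g • i) = g • uco u i` (as elements of `UV`): by definition, `g⁻¹ • g • i = i` (rewrite with a general equality `k = i`, `subst`).
* `up_bs`: `x` is a base of `u` iff `g • x` is a base of `g • u` (→ from `RAct.gco`, `rg_mem`; ← with `g⁻¹`).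
* `up_pre`: `ms := u_ms1 M hN Pi`; `kapS := u_kap`; `act`: `kap` is `uk_g`; `adj`: an edge `line r z` is mapped to an edge between `g • (r, z)` and `g • (r, z + 1)`: the same region `g • r`, and the integers differ by `±1` (`L.iso`), so it is `line (g • r) _` in one of the two directions; an edge `leaf q` is mapped to `leaf (g • q)` (`L.eqv`). `gam` from `RAct`; `gco := up_coe`; `gn`: `uN (g • u) (g • i)`: `(g • u) (g • i) = g • u i` is an `inr` iff `u i` is.
-/

set_option autoImplicit false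

namespace VTB

open LatIso LatN LatF RaagIso

section

variable {G : Type} [Group G] {ι Pt V : Type} [MulAction G Pt] [MulAction G V] [MulAction G ι]
  {Γ : SimpleGraph ι} {κ : V → ι} {co : Pt → ∀ i, Fib κ i}
  {N : Pt → ι → Prop} [Fact (RAct G Γ κ co N)] [MulAction G (Rg Γ co N × ℤ)]
  [Fact (∀ (g : G) (a : Rg Γ co N × ℤ), (g • a).1 = g • a.1)]

theorem uk_g (g : G) (v : UV Γ co N) : uk Γ co N (g • v) = g • uk Γ co N v := by
  have R : RAct G Γ κ co N := Fact.out
  have h1 : ∀ (g : G) (a : Rg Γ co N × ℤ), (g • a).1 = g • a.1 := Fact.out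
  rcases v with v | a
  · exact R.kap g v
  · show (g • a).1.1.1 = g • a.1.1.1
    rw [h1]
    rfl

theorem up_bs0 (g : G) {x : Pt} {u : ∀ i, Fib (uk Γ co N) i} (h : UBs x u) :
    UBs (g • x) (fun i => (⟨g • (u (g⁻¹ • i)).1, by
      rw [uk_g, (u (g⁻¹ • i)).2, smul_inv_smul]⟩ : Fib (uk Γ co N) i)) := by
  have R : RAct G Γ κ co N := Fact.out
  have h1 : ∀ (g : G) (a : Rg Γ co N × ℤ), (g • a).1 = g • a.1 := Fact.out
  intro i
  rcases h (g⁻¹ • i) with h2 | ⟨r, z, h2, h3⟩
  · left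
    show g • (u (g⁻¹ • i)).1 = Sum.inl (co (g • x) i).1
    rw [h2]
    show (Sum.inl (g • (co x (g⁻¹ • i)).1) : UV Γ co N) = Sum.inl (co (g • x) i).1
    rw [← R.gco, smul_inv_smul]
  · right
    refine ⟨g • r, (g • ((r, z) : Rg Γ co N × ℤ)).2, ?_, ?_⟩
    · show g • (u (g⁻¹ • i)).1 = _
      rw [h2]
      exact congrArg Sum.inr (Prod.ext (h1 g (r, z)) rfl)
    · rw [rg_mem, inv_smul_smul]
      exact h3

/-- the action on the new points -/
instance upAct : MulAction G (UP Γ co N) where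
  smul g u := ⟨fun i => ⟨g • (u.1 (g⁻¹ • i)).1, by
      rw [uk_g, (u.1 (g⁻¹ • i)).2, smul_inv_smul]⟩, by
    have R : RAct G Γ κ co N := Fact.out
    obtain ⟨⟨x, hx⟩, hc⟩ := u.2
    refine ⟨⟨g • x, up_bs0 g hx⟩, ?_⟩
    have key : ∀ i, UInt (fun i => (⟨g • (u.1 (g⁻¹ • i)).1, by
        rw [uk_g, (u.1 (g⁻¹ • i)).2, smul_inv_smul]⟩ : Fib (uk Γ co N) i)) i →
        UInt u.1 (g⁻¹ • i) := by
      rintro i ⟨r, z, h⟩
      have h2 : g • (u.1 (g⁻¹ • i)).1 = Sum.inr (r, z) := h
      rcases h3 : (u.1 (g⁻¹ • i)).1 with v | a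
      · rw [h3] at h2
        exact absurd h2 Sum.inl_ne_inr
      · exact ⟨a.1, a.2, h3⟩
    intro i j hij hi hj
    have h4 := hc (g⁻¹ • i) (g⁻¹ • j) (fun h => hij (MulAction.injective g⁻¹ h)) (key i hi)
      (key j hj)
    rwa [R.gam] at h4⟩
  one_smul u := by
    apply Subtype.ext
    funext i
    apply Subtype.ext
    show (1 : G) • (u.1 ((1 : G)⁻¹ • i)).1 = (u.1 i).1
    rw [one_smul, inv_one, one_smul]
  mul_smul g h u := by
    apply Subtype.ext
    funext i
    apply Subtype.ext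
    show (g * h) • (u.1 ((g * h)⁻¹ • i)).1 = g • h • (u.1 (h⁻¹ • g⁻¹ • i)).1
    rw [mul_inv_rev, mul_smul, mul_smul]

theorem up_coe (g : G) (u : UP Γ co N) (i : ι) :
    (uco Γ co N (g • u) (g • i)).1 = g • (uco Γ co N u i).1 := by
  show g • (u.1 (g⁻¹ • g • i)).1 = g • (u.1 i).1
  rw [inv_smul_smul]

theorem up_bs (g : G) (u : UP Γ co N) (x : Pt) : UBs (g • x) (g • u).1 ↔ UBs x u.1 := by
  constructor
  · intro h
    have h1 := up_bs0 g⁻¹ h
    rw [inv_smul_smul] at h1
    have h2 : (fun i => (⟨g⁻¹ • ((g • u).1 (g⁻¹⁻¹ • i)).1, by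
        rw [uk_g, ((g • u).1 (g⁻¹⁻¹ • i)).2, smul_inv_smul]⟩ : Fib (uk Γ co N) i)) = u.1 := by
      funext i
      apply Subtype.ext
      show g⁻¹ • g • (u.1 (g⁻¹ • g⁻¹⁻¹ • i)).1 = (u.1 i).1
      rw [smul_inv_smul, inv_smul_smul]
    rw [h2] at h1
    exact h1
  · intro h
    exact up_bs0 g h

theorem up_pre [Fintype ι] {S : SimpleGraph V} (M : MS1 Γ (comp κ S) co N) (hN : ∀ x i, ¬ N x i)
    {H : Subgroup G} {Pi : QQ Γ co N → ℤ} {C : Rg Γ co N → ℕ} (L : LinA H Pi C) :
    VPre G Γ (uk Γ co N) (uS Pi) (uco Γ co N) (uN Γ co N) := by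
  have R : RAct G Γ κ co N := Fact.out
  have hf : ∀ (g : G) (a : Rg Γ co N × ℤ), (g • a).1 = g • a.1 := Fact.out
  have hed : ∀ (g : G) (a b : UV Γ co N), UEd Pi a b →
      UEd Pi (g • a) (g • b) ∨ UEd Pi (g • b) (g • a) := by
    intro g a b h
    cases h with
    | line r z =>
      have h1 := L.iso g r (z + 1) z
      have h2 : |z + 1 - z| = 1 := by
        rw [add_sub_cancel_left]
        exact abs_one
      rw [h2] at h1
      set w := (g • ((r, z) : Rg Γ co N × ℤ)).2 with hw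
      set w' := (g • ((r, z + 1) : Rg Γ co N × ℤ)).2 with hw'
      have ea : g • (Sum.inr (r, z) : UV Γ co N) = Sum.inr (g • r, w) :=
        congrArg Sum.inr (Prod.ext (hf g (r, z)) rfl)
      have eb : g • (Sum.inr (r, z + 1) : UV Γ co N) = Sum.inr (g • r, w') :=
        congrArg Sum.inr (Prod.ext (hf g (r, z + 1)) rfl)
      rw [ea, eb]
      rcases (abs_eq one_pos.le).1 h1 with h3 | h3
      · left
        have h4 : w' = w + 1 := by omega
        rw [h4]
        exact UEd.line _ _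
      · right
        have h4 : w = w' + 1 := by omega
        rw [h4]
        exact UEd.line _ _
    | leaf q =>
      left
      have ea : g • (Sum.inl q.1.2 : UV Γ co N) = Sum.inl (g • q).1.2 := rfl
      have eb : g • (Sum.inr (q.1.1, Pi q) : UV Γ co N) = Sum.inr ((g • q).1.1, Pi (g • q)) :=
        congrArg Sum.inr (L.eqv g q)
      rw [ea, eb]
      exact UEd.leaf _
  refine ⟨u_ms1 M hN Pi, u_kap Pi, ⟨fun g v => uk_g g v, ?_⟩, R.gam, up_coe, ?_⟩
  · rintro g a b (h | h)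
    · exact hed g a b h
    · exact (hed g b a h).symm
  · intro g u i
    constructor
    · rintro ⟨r, z, h⟩
      have h2 : (uco Γ co N (g • u) (g • i)).1 = Sum.inr (r, z) := h
      rw [up_coe] at h2
      rcases h3 : (uco Γ co N u i).1 with v | a
      · rw [h3] at h2
        exact absurd h2 Sum.inl_ne_inr
      · exact ⟨a.1, a.2, h3⟩
    · rintro ⟨r, z, h⟩
      refine ⟨(g • ((r, z) : Rg Γ co N × ℤ)).1, (g • ((r, z) : Rg Γ co N × ℤ)).2, ?_⟩
      show (uco Γ co N (g • u) (g • i)).1 = _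
      rw [up_coe]
      have h2 : (uco Γ co N u i).1 = Sum.inr (r, z) := h
      rw [h2]
      rfl

end

end VTB
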