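import Pool.Agent.Lib.MP_32d917_al_vt.I67

/-!
# I68: the blow-up: local finiteness, panels

`N` has no internal labels, no label is central, `Pi` has finite fibres.
* `b := u_ms1 M hN Pi`.
* `loc`: let `x` be a base of `u`. A step `VSt u v` of label `i`: `v` is determined by `(v i).1` (`Subtype.ext`, funext), so it is enough that the set of neighbours of `(u i).1` in `uS Pi` which occur is finite. If `(u i).1 = inl p`: the neighbours are `inr (q.1.1, Pi q)` with `q.1.2 = p`; by `ub_pan` (for `u`, `v`, `x`): `v i = inr (r, z)` with `x ∈ r.1.2` and (`uk`) `r.1.1 = i`, so `r` is the region of label `i` at `x` (`reg_mem`), and `q = (r, p)`: at most one neighbour. If `(u i).1 = inr (r, z)`: the neighbours are `inr (r, z + 1)`, `inr (r, z - 1)` and `inl q.1.2` with `q.1.1 = r`, `Pi q = z`: finite by `fib`.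
* `cen`: there are no central labels. `out`: `ub_l` with `y := x` a base of `u` (`i` occurs at `u` by `u_ms1`.nocc): `v i = inl _`, not internal.
* `inf`: let `x` be a base of `u`, `r := ⟨rg Γ co x i, _⟩` (all labels occur at `x`: `hN`). By `ub_r` for every `z : ℤ` there is `v` with `Ag {i} u v`, `(v i).1 = inr (r, z)`: an injection of `ℤ` into the panel (`Set.infinite_of_injective_forall_mem` with `choose`).
-/

set_option autoImplicit false

namespace VTB

open LatIso LatN LatF RaagIso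

private theorem I68_inl {ι Pt V : Type} {Γ : SimpleGraph ι} {κ : V → ι} {co : Pt → ∀ i, Fib κ i}
    {N : Pt → ι → Prop} {Pi : QQ Γ co N → ℤ} {p : V} {b : UV Γ co N}
    (h : (uS Pi).Adj (Sum.inl p) b) : ∃ q : QQ Γ co N, q.1.2 = p ∧ b = Sum.inr (q.1.1, Pi q) := by
  rcases h with h | h
  · cases h with
    | leaf q => exact ⟨q, rfl, rfl⟩
  · cases h

private theorem I68_inr {ι Pt V : Type} {Γ : SimpleGraph ι} {κ : V → ι} {co : Pt → ∀ i, Fib κ i}
    {N : Pt → ι → Prop} {Pi : QQ Γ co N → ℤ} {r : Rg Γ co N} {z : ℤ} {b : UV Γ co N}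
    (h : (uS Pi).Adj (Sum.inr (r, z)) b) : b = Sum.inr (r, z + 1) ∨ b = Sum.inr (r, z - 1) ∨
      ∃ q : QQ Γ co N, (q.1.1 = r ∧ Pi q = z) ∧ b = Sum.inl q.1.2 := by
  rcases h with h | h
  · cases h with
    | line r z => exact Or.inl rfl
  · generalize hc : (Sum.inr (r, z) : UV Γ co N) = c at h
    cases h with
    | line r' z' =>
      right
      left
      have h1 := Sum.inr.inj hc
      have h2 : r = r' := congrArg Prod.fst h1
      have h3 : z = z' + 1 := congrArg Prod.snd h1
      rw [h2, h3, add_sub_cancel_right]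
    | leaf q =>
      right
      right
      have h1 := Sum.inr.inj hc
      exact ⟨q, ⟨(congrArg Prod.fst h1).symm, (congrArg Prod.snd h1).symm⟩, rfl⟩

private theorem I68_oc {ι Pt : Type} {Γ : SimpleGraph ι} {N : Pt → ι → Prop}
    (hN : ∀ x i, ¬ N x i) (x : Pt) (i : ι) : Oc Γ N x i := fun v hv => absurd hv (hN x v)

theorem up_ms {ι Pt V : Type} [Fintype ι] {Γ : SimpleGraph ι} {κ : V → ι} {S : SimpleGraph V}
    {co : Pt → ∀ i, Fib κ i} {N : Pt → ι → Prop} (M : MS1 Γ (comp κ S) co N)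
    (hN : ∀ x i, ¬ N x i) (hc : ∀ i, ¬ CL Γ i) (Pi : QQ Γ co N → ℤ)
    (fib : ∀ r z, {q : QQ Γ co N | q.1.1 = r ∧ Pi q = z}.Finite) :
    MS Γ (comp (uk Γ co N) (uS Pi)) (uco Γ co N) (uN Γ co N) := by
  refine ⟨u_ms1 M hN Pi, fun u i => ?_, fun _ i h => absurd h (hc i), fun u i _ h => ?_,
    fun u i ho => ?_⟩
  · obtain ⟨x, hx⟩ := u.2.1
    obtain ⟨T, hT, hT2⟩ : ∃ T : Set (UV Γ co N), T.Finite ∧
        ∀ v, VSt (comp (uk Γ co N) (uS Pi)) (uco Γ co N) i u v → (uco Γ co N v i).1 ∈ T := by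
      have hadj : ∀ v, VSt (comp (uk Γ co N) (uS Pi)) (uco Γ co N) i u v →
          (uS Pi).Adj (uco Γ co N u i).1 (uco Γ co N v i).1 := fun v hv => hv.1
      rcases hu : (uco Γ co N u i).1 with p | ⟨r, z⟩
      · refine ⟨(fun q : QQ Γ co N => (Sum.inr (q.1.1, Pi q) : UV Γ co N)) ''
          {q | q.1.1 = ⟨rg Γ co x i, rg_isReg (I68_oc hN x i)⟩ ∧ q.1.2 = p},
          Set.Finite.image _ (Set.Subsingleton.finite ?_), fun v hv => ?_⟩
        · rintro q ⟨h1, h2⟩ q' ⟨h3, h4⟩
          exact Subtype.ext (Prod.ext (h1.trans h3.symm) (h2.trans h4.symm))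
        · have h1 := hadj v hv
          rw [hu] at h1
          obtain ⟨q, hq, h2⟩ := I68_inl h1
          refine ⟨q, ⟨?_, hq⟩, h2.symm⟩
          have hag : Ag (uco Γ co N) {i} u v := fun j hj => hv.2 j hj
          have hne : uco Γ co N u i ≠ uco Γ co N v i := fun h => h1.ne (by rw [← hu, h])
          rcases ub_pan M hN u v hag hne hx with ⟨y, _, _, h3⟩ | ⟨r, z, _, h3, h4⟩
          · rw [h2] at h3
            exact absurd h3.symm Sum.inl_ne_inr
          · have h5 := Sum.inr.inj (h2.symm.trans h4)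
            have h6 : q.1.1 = r := congrArg Prod.fst h5
            have h7 : r.1.1 = i := by
              have h8 := (uco Γ co N v i).2
              rw [h4] at h8
              exact h8
            rw [h6]
            apply Subtype.ext
            have h9 := reg_mem r.2 h3
            rw [h7] at h9
            exact h9
      · refine ⟨{Sum.inr (r, z + 1), Sum.inr (r, z - 1)} ∪
          (fun q : QQ Γ co N => (Sum.inl q.1.2 : UV Γ co N)) '' {q | q.1.1 = r ∧ Pi q = z},
          Set.Finite.union (Set.toFinite _) ((fib r z).image _), fun v hv => ?_⟩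
        have h1 := hadj v hv
        rw [hu] at h1
        rcases I68_inr h1 with h | h | ⟨q, hq, h⟩
        · exact Or.inl (Or.inl h)
        · exact Or.inl (Or.inr h)
        · exact Or.inr ⟨q, hq, h.symm⟩
    refine Set.Finite.of_injOn (f := fun v => (uco Γ co N v i).1) (t := T)
      (fun v hv => hT2 v hv) ?_ hT
    intro v hv w hw h
    refine Subtype.ext (funext fun j => ?_)
    by_cases hj : j = i
    · subst hj
      exact Subtype.ext h
    · have h1 : v.1 j = u.1 j := hv.2 j hj
      have h2 : w.1 j = u.1 j := hw.2 j hj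
      rw [h1, h2]
  · obtain ⟨x, hx⟩ := u.2.1
    obtain ⟨v, _, h1, h2⟩ := ub_l u hx ((u_ms1 M hN Pi).nocc u i h) (ag_refl x)
    refine ⟨v, h1, ?_⟩
    rintro ⟨r, z, h3⟩
    exact Sum.inl_ne_inr (h2.symm.trans h3)
  · obtain ⟨x, hx⟩ := u.2.1
    have h1 : ∀ z : ℤ, ∃ v : UP Γ co N, Ag (uco Γ co N) {i} u v ∧ (uco Γ co N v i).1 =
        Sum.inr (⟨rg Γ co x i, rg_isReg (I68_oc hN x i)⟩, z) := by
      intro z
      obtain ⟨v, _, h2, h3⟩ := ub_r u hx ho ⟨rg Γ co x i, rg_isReg (I68_oc hN x i)⟩ rfl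
        (ag_refl x) z
      exact ⟨v, h2, h3⟩
    choose f hf hf2 using h1
    refine Set.infinite_of_injective_forall_mem (f := f) (fun z z' h => ?_) hf
    have h2 := hf2 z
    rw [h, hf2 z'] at h2
    exact (congrArg Prod.snd (Sum.inr.inj h2)).symm

end VTB
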