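import Pool.Agent.Lib.MP_32d917_al_vt.I67

/-!
# I69: the blow-up: stabilizers are finite

`H` has finite index. If `n ∈ H` and `n • u = u` then `n = 1`: let `x` be a base of `u`. For every `i` the coordinate: `(n • u) (n • i) = n • u i` (`up_coe`), `n • i = i`, so `n • (u i).1 = (u i).1`. If `(u i).1 = inl (co x i).1`: `n • (co x i).1 = (co x i).1`. If `(u i).1 = inr (r, z)`, `x ∈ r.1.2` (and `r.1.1 = i`, `ub_ag`): `n • (r, z) = (r, z)`, so `n • q = q` for the `q : QQ` with region `r` and vertex `co x i` (`L.fix`), again `n • (co x i).1 = (co x i).1`. By `gco` and `n • i = i` all coordinates of `n • x` and `x` agree: `n • x = x` (`M.inj`), `n = 1` by `free`.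
So the stabilizer of `u` maps injectively to the finite set `G ⧸ H`: `g`, `g'` in the stabilizer with the same coset: `g⁻¹ * g' ∈ H` fixes `u`, so `g = g'`.
-/

set_option autoImplicit false

namespace VTB

open LatIso LatN LatF RaagIso

theorem up_prop {G : Type} [Group G] {ι Pt V : Type} [Fintype ι] [MulAction G Pt] [MulAction G V]
    [MulAction G ι] {Γ : SimpleGraph ι} {κ : V → ι} {S : SimpleGraph V} {co : Pt → ∀ i, Fib κ i}
    {N : Pt → ι → Prop} [Fact (RAct G Γ κ co N)] [MulAction G (Rg Γ co N × ℤ)]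
    [Fact (∀ (g : G) (a : Rg Γ co N × ℤ), (g • a).1 = g • a.1)]
    (M : MS1 Γ (comp κ S) co N) {H : Subgroup G} (hH : H.FiniteIndex) {Pi : QQ Γ co N → ℤ}
    {C : Rg Γ co N → ℕ} (L : LinA H Pi C) (hl : ∀ n ∈ H, ∀ i : ι, n • i = i)
    (hf : ∀ n ∈ H, ∀ x : Pt, n • x = x → n = 1) (u : UP Γ co N) :
    {g : G | g • u = u}.Finite := by
  have R : RAct G Γ κ co N := Fact.out
  have key : ∀ n ∈ H, n • u = u → n = 1 := by
    intro n hn hu
    obtain ⟨⟨x, hx⟩, -⟩ := u.2
    refine hf n hn x (M.inj _ _ fun i => ?_)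
    have h1 : n • (uco Γ co N u i).1 = (uco Γ co N u i).1 := by
      have h2 := up_coe n u i
      rw [hu, hl n hn i] at h2
      exact h2.symm
    have h3 : n • (co x i).1 = (co x i).1 := by
      rcases hx i with h4 | ⟨r, z, h4, h5⟩
      · have h6 : (uco Γ co N u i).1 = Sum.inl (co x i).1 := h4
        rw [h6] at h1
        exact Sum.inl.inj h1
      · have h6 : (uco Γ co N u i).1 = Sum.inr (r, z) := h4
        rw [h6] at h1
        have h7 : n • ((r, z) : Rg Γ co N × ℤ) = (r, z) := Sum.inr.inj h1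
        obtain ⟨h8, -, -⟩ := ub_ag hx h4
        subst h8
        have h9 := L.fix n hn r z h7 (mkq r (co x r.1.1) ⟨x, h5, rfl⟩) rfl
        exact congrArg (fun q : QQ Γ co N => q.1.2) h9
    apply Subtype.ext
    have h10 := R.gco n x i
    rw [hl n hn i] at h10
    rw [h10, h3]
  have := hH
  have : Finite (G ⧸ H) := Subgroup.finite_quotient_of_finiteIndex
  refine Set.Finite.of_finite_image (f := fun g : G => (g : G ⧸ H)) (Set.toFinite _) ?_
  intro g hg g' hg' he
  have h1 : g⁻¹ * g' ∈ H := QuotientGroup.eq.1 he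
  have h2 : (g⁻¹ * g') • u = u := by
    have h3 : g • u = u := hg
    have h4 : g' • u = u := hg'
    rw [mul_smul, h4, inv_smul_eq_iff, h3]
  have h5 := key _ h1 h2
  exact (inv_mul_eq_one.1 h5)

end VTB
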