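import Pool.Agent.Lib.MP_32d917_al_vt.I67

/-!
# I70: the blow-up: finitely many orbits of points

Call a base `x` of `u` good if `|z - Pi q| ≤ C r` whenever `(u i).1 = inr (r, z)` and `q` is the element of `QQ` with region `r` and vertex `(co x i).1`.
* `up_good`: every `u` has a good base: for every finite set `F` of labels there is a base with this property for `i ∈ F` (induction, `Finset.induction_on`; compare `ua_rho` in I51). Step: `x` a base for `F`, `i ∉ F`. If `i` is not internal at `u` take `x`. Otherwise `(u i).1 = inr (r, z)`, `r.1.1 = i`, `x ∈ r.1.2` (`ub_ag`). `L.gap r z`: `q` over `r` with `|z - Pi q| ≤ C r`; `q.1.2 = (co x0 i).1` for some `x0 ∈ r.1.2`; `Ag (st i) x x0` (`ub_ag`), so `reg_pt` gives `y` with `Ag {i} x y`, `co y i = co x0 i`. `y` is a base of `u`: at `i`: `y ∈ r.1.2` (`ub_ag`); at `j ≠ i` not internal: `co y j = co x j`; at `j ≠ i` internal, `(u j).1 = inr (r', z')`, `x ∈ r'.1.2`, `i` and `j` adjacent (clique condition),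 so `Ag (st j) x y`, `y ∈ r'.1.2`. The property for `j ∈ F`: the coordinate `j` is unchanged.
* Let `F0` be a finite set of points meeting all orbits. For `y : Pt` the set `A y` of all `u` with good base `y` is finite: `u` is determined by the coordinates `(u i).1`, `i : ι` (`ι` finite), and `(u i).1` is `inl (co y i).1` or `inr (r, z)` with `r` the region of label `i` at `y` (`ub_ag`, `reg_mem`: at most one `r`) and `|z - Pi q| ≤ C r`, `q` fixed: finitely many `z`. (`Set.Finite.pi` for the finite type `ι`, then injectivity of `u ↦ (fun i => (u i).1)`.)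
* If `x` is a good base of `u` then `g • x` is a good base of `g • u` (`up_bs`; if `((g • u) (g • i)).1 = g • (u i).1 = inr (g • (r, z))`, the element of `QQ` with region `g • r` and vertex `(co (g • x) (g • i)).1 = g • (co x i).1` is `g • q`, `(g • (r, Pi q)) = (g • r, Pi (g • q))` by `L.eqv`, `L.iso`, `L.cg`). So `F := ⋃ y ∈ F0, A y`.
-/

set_option autoImplicit false

namespace VTB

open LatIso LatN LatF RaagIso

section

variable {G : Type} [Group G] {ι Pt V : Type} [Fintype ι] [MulAction G Pt] [MulAction G V]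
  [MulAction G ι] {Γ : SimpleGraph ι} {κ : V → ι} {S : SimpleGraph V} {co : Pt → ∀ i, Fib κ i}
  {N : Pt → ι → Prop} [Fact (RAct G Γ κ co N)] [MulAction G (Rg Γ co N × ℤ)]

/-- a good base -/
def UGd (Pi : QQ Γ co N → ℤ) (C : Rg Γ co N → ℕ) (x : Pt) (u : UP Γ co N) : Prop :=
  UBs x u.1 ∧ ∀ (q : QQ Γ co N) (z : ℤ), (uco Γ co N u q.1.1.1.1).1 = Sum.inr (q.1.1, z) →
    q.1.2 = (co x q.1.1.1.1).1 → |z - Pi q| ≤ C q.1.1

private theorem I70_uco (u : UP Γ co N) {i j : ι} (h : i = j) :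
    (uco Γ co N u i).1 = (uco Γ co N u j).1 := by
  subst h
  rfl

private theorem I70_co (x : Pt) {i j : ι} (h : i = j) : (co x i).1 = (co x j).1 := by
  subst h
  rfl

theorem up_good (M : MS1 Γ (comp κ S) co N) {H : Subgroup G} {Pi : QQ Γ co N → ℤ}
    {C : Rg Γ co N → ℕ} (L : LinA H Pi C) (u : UP Γ co N) : ∃ x, UGd Pi C x u := by
  classical
  have key : ∀ F : Finset ι, ∃ x, UBs x u.1 ∧ ∀ (q : QQ Γ co N) (z : ℤ), q.1.1.1.1 ∈ F →
      (uco Γ co N u q.1.1.1.1).1 = Sum.inr (q.1.1, z) → q.1.2 = (co x q.1.1.1.1).1 →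
      |z - Pi q| ≤ C q.1.1 := by
    intro F
    induction F using Finset.induction_on with
    | empty =>
      obtain ⟨x, hx⟩ := u.2.1
      exact ⟨x, hx, fun q z hq => absurd hq (Finset.notMem_empty _)⟩
    | insert i F hi ih =>
      obtain ⟨x, hx, hF⟩ := ih
      rcases hx i with h1 | ⟨r, z, h1, hxr⟩
      · refine ⟨x, hx, fun q z hq hu hv => ?_⟩
        rcases Finset.mem_insert.1 hq with h | h
        · have h2 := I70_uco u h
          rw [hu] at h2
          exact absurd (h2.trans h1) Sum.inr_ne_inl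
        · exact hF q z h hu hv
      · obtain ⟨hri, hxr', hall⟩ := ub_ag hx h1
        obtain ⟨q0, hq0, hz0⟩ := L.gap r z
        subst hq0
        obtain ⟨x0, hx0, hp0⟩ := q0.2
        obtain ⟨y, hy, hyi⟩ := reg_pt M ((hall x0).1 hx0)
        have hbase : UBs y u.1 := by
          intro j
          by_cases hj : j = i
          · subst hj
            refine Or.inr ⟨q0.1.1, z, h1, (hall y).2 (ag_mono ?_ hy)⟩
            intro k hk'
            rw [Set.mem_singleton_iff] at hk'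
            exact Or.inl hk'
          · rcases hx j with h2 | ⟨r', z', h2, hxr2⟩
            · left
              rw [h2, hy j hj]
            · right
              refine ⟨r', z', h2, ((ub_ag hx h2).2.2 y).2 (ag_mono ?_ hy)⟩
              intro k hk'
              rw [Set.mem_singleton_iff] at hk'
              subst hk'
              exact Or.inr (u.2.2 j k hj ⟨r', z', h2⟩ ⟨q0.1.1, z, h1⟩)
        refine ⟨y, hbase, fun q z' hq hu hv => ?_⟩
        by_cases hqi : q.1.1.1.1 = i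
        · have h3 := I70_uco u hqi
          rw [hu] at h3
          have h4 : (q.1.1, z') = (q0.1.1, z) := Sum.inr.inj (h3.trans h1)
          have h5 : q.1.1 = q0.1.1 := (Prod.mk.inj h4).1
          have h6 : z' = z := (Prod.mk.inj h4).2
          have h7 : q.1.2 = q0.1.2 := by
            rw [hv, ← hp0, I70_co y hqi, hyi]
            exact I70_co x0 hri.symm
          have h8 : q = q0 := Subtype.ext (Prod.ext h5 h7)
          rw [h6, h8]
          exact hz0
        · rcases Finset.mem_insert.1 hq with h | h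
          · exact absurd h hqi
          · refine hF q z' h hu ?_
            rw [hv, hy _ hqi]
  obtain ⟨x, hx, h⟩ := key Finset.univ
  exact ⟨x, hx, fun q z => h q z (Finset.mem_univ _)⟩

theorem up_gfin (M : MS1 Γ (comp κ S) co N) (hN : ∀ x i, ¬ N x i) (Pi : QQ Γ co N → ℤ)
    (C : Rg Γ co N → ℕ) (y : Pt) : {u : UP Γ co N | UGd Pi C y u}.Finite := by
  classical
  have hA : ∀ i : ι, ({v : UV Γ co N | v = Sum.inl (co y i).1 ∨
      ∃ q : QQ Γ co N, (q.1.1.1.1 = i ∧ y ∈ q.1.1.1.2 ∧ q.1.2 = (co y i).1) ∧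
        ∃ z, v = Sum.inr (q.1.1, z) ∧ |z - Pi q| ≤ C q.1.1}).Finite := by
    intro i
    have hQ : {q : QQ Γ co N | q.1.1.1.1 = i ∧ y ∈ q.1.1.1.2 ∧ q.1.2 = (co y i).1}.Finite := by
      apply Set.Subsingleton.finite
      rintro q ⟨h1, h2, h3⟩ q' ⟨h1', h2', h3'⟩
      have h4 := reg_mem q.1.1.2 h2
      have h4' := reg_mem q'.1.1.2 h2'
      rw [h1] at h4
      rw [h1'] at h4'
      exact Subtype.ext (Prod.ext (Subtype.ext (h4.trans h4'.symm)) (h3.trans h3'.symm))
    refine Set.Finite.subset ((Set.finite_singleton (Sum.inl (co y i).1)).union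
      (hQ.biUnion fun q _ => (Set.finite_Icc (Pi q - C q.1.1) (Pi q + C q.1.1)).image
        (fun z => (Sum.inr (q.1.1, z) : UV Γ co N)))) ?_
    rintro v (h | ⟨q, hq, z, hz, hz'⟩)
    · exact Or.inl h
    · right
      refine Set.mem_biUnion (x := q) hq ⟨z, ?_, hz.symm⟩
      rw [abs_le] at hz'
      rw [Set.mem_Icc]
      constructor <;> omega
  have hpi := Set.Finite.pi' hA
  refine Set.Finite.of_finite_image (f := fun u : UP Γ co N => fun i => (u.1 i).1)
    (hpi.subset ?_) ?_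
  · rintro f ⟨u, ⟨hu, hu'⟩, rfl⟩ i
    rcases hu i with h | ⟨r, z, h, hr⟩
    · exact Or.inl h
    · right
      have h1 := (ub_ag hu h).1
      subst h1
      exact ⟨⟨(r, (co y r.1.1).1), y, hr, rfl⟩, ⟨rfl, hr, rfl⟩, z, h,
        hu' ⟨(r, (co y r.1.1).1), y, hr, rfl⟩ z h rfl⟩
  · intro u _ v _ h
    exact Subtype.ext (funext fun i => Subtype.ext (congrFun h i))

variable [Fact (∀ (g : G) (a : Rg Γ co N × ℤ), (g • a).1 = g • a.1)]

theorem up_gg {H : Subgroup G} {Pi : QQ Γ co N → ℤ} {C : Rg Γ co N → ℕ} (L : LinA H Pi C)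
    (g : G) {x : Pt} {u : UP Γ co N} (h : UGd Pi C x u) : UGd Pi C (g • x) (g • u) := by
  have R : RAct G Γ κ co N := Fact.out
  have h1 : ∀ (g : G) (a : Rg Γ co N × ℤ), (g • a).1 = g • a.1 := Fact.out
  refine ⟨(up_bs g u x).2 h.1, fun q z hu hv => ?_⟩
  have h2 := up_coe g u (g⁻¹ • q.1.1.1.1)
  rw [I70_uco (g • u) (smul_inv_smul g q.1.1.1.1), hu] at h2
  have h3 : (uco Γ co N u (g⁻¹ • q.1.1.1.1)).1 =
      Sum.inr ((g⁻¹ • q).1.1, (g⁻¹ • ((q.1.1, z) : Rg Γ co N × ℤ)).2) := by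
    have h4 : g⁻¹ • (Sum.inr (q.1.1, z) : UV Γ co N) = (uco Γ co N u (g⁻¹ • q.1.1.1.1)).1 := by
      rw [h2, inv_smul_smul]
    rw [← h4]
    show (Sum.inr (g⁻¹ • ((q.1.1, z) : Rg Γ co N × ℤ)) : UV Γ co N) = _
    exact congrArg Sum.inr (Prod.ext (h1 g⁻¹ (q.1.1, z)) rfl)
  have h5 : (g⁻¹ • q).1.2 = (co x (g⁻¹ • q.1.1.1.1)).1 := by
    have h6 := R.gco g⁻¹ (g • x) q.1.1.1.1
    rw [inv_smul_smul, ← hv] at h6
    exact h6.symm
  have h7 := h.2 (g⁻¹ • q) _ h3 h5
  have h8 := L.iso g⁻¹ q.1.1 z (Pi q)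
  have h9 := L.eqv g⁻¹ q
  rw [h9] at h8
  have h10 : C (g⁻¹ • q).1.1 = C q.1.1 := L.cg g⁻¹ q.1.1
  rw [h10] at h7
  rw [← h8]
  exact h7

theorem up_fin (M : MS1 Γ (comp κ S) co N) (hN : ∀ x i, ¬ N x i) {H : Subgroup G}
    {Pi : QQ Γ co N → ℤ} {C : Rg Γ co N → ℕ} (L : LinA H Pi C)
    (hfin : ∃ F : Finset Pt, ∀ x : Pt, ∃ g : G, g • x ∈ F) :
    ∃ F : Finset (UP Γ co N), ∀ u : UP Γ co N, ∃ g : G, g • u ∈ F := by
  obtain ⟨F0, hF0⟩ := hfin
  have hU : (⋃ y ∈ (F0 : Set Pt), {u : UP Γ co N | UGd Pi C y u}).Finite :=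
    F0.finite_toSet.biUnion fun y _ => up_gfin M hN Pi C y
  refine ⟨hU.toFinset, fun u => ?_⟩
  obtain ⟨x, hx⟩ := up_good M L u
  obtain ⟨g, hg⟩ := hF0 x
  refine ⟨g, ?_⟩
  rw [Set.Finite.mem_toFinset]
  exact Set.mem_biUnion (x := g • x) hg (up_gg L g hx)

end

end VTB
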