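import Pool.Agent.Lib.MP_32d917_al_vt.I02
import Pool.Agent.Lib.MP_32d917_al_vt.I63
import Pool.Agent.Lib.MP_32d917_al_vt.I68
import Pool.Agent.Lib.MP_32d917_al_vt.I69
import Pool.Agent.Lib.MP_32d917_al_vt.I70

/-!
# I71: groups commensurable with star-rigid right-angled Artin groups
-/

set_option autoImplicit false

namespace VTB

open LatIso LatN LatF RaagIso

theorem srig_iso {ι ι' : Type} {Γ : SimpleGraph ι} {Γ' : SimpleGraph ι'} (e : Γ ≃g Γ')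
    (h : SRig Γ) : SRig Γ' := by
  intro σ hσ v hv w
  have hadj : ∀ a b, Γ'.Adj (e a) (e b) ↔ Γ.Adj a b := fun a b => e.map_adj_iff
  have hadj' : ∀ a b, Γ.Adj (e.symm a) (e.symm b) ↔ Γ'.Adj a b := fun a b => e.symm.map_adj_iff
  have h1 := h ((e.toEquiv.trans σ).trans e.toEquiv.symm) (by
    intro i j
    show Γ.Adj (e.symm (σ (e i))) (e.symm (σ (e j))) ↔ Γ.Adj i j
    rw [hadj', hσ, hadj]) (e.symm v) (by
    intro u hu
    show e.symm (σ (e u)) = u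
    rw [hv (e u), e.symm_apply_apply]
    rcases hu with hu | hu
    · left
      rw [hu, e.apply_symm_apply]
    · right
      rw [← hadj', e.symm_apply_apply]
      exact hu) (e.symm w)
  have h2 : e.symm (σ (e (e.symm w))) = e.symm w := h1
  rw [e.apply_symm_apply] at h2
  exact e.symm.injective h2

theorem cl_iso {ι ι' : Type} {Γ : SimpleGraph ι} {Γ' : SimpleGraph ι'} (e : Γ ≃g Γ')
    (h : ∀ i, ¬ CL Γ i) (i : ι') : ¬ CL Γ' i := by
  intro hc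
  refine h (e.symm i) fun j => ?_
  rcases hc (e j) with h1 | h1
  · left
    rw [← h1, e.symm_apply_apply]
  · right
    have hadj' : ∀ a b, Γ.Adj (e.symm a) (e.symm b) ↔ Γ'.Adj a b := fun a b =>
      e.symm.map_adj_iff
    have h2 := (hadj' i (e j)).2 h1
    rwa [e.symm_apply_apply] at h2

theorem comm_vlat0 {ι : Type} [Finite ι] (Γ : SimpleGraph ι) (hG : GG Γ) (hcl : ∀ i, ¬ CL Γ i)
    (hs : SRig Γ) {G : Type} [Group G] (K : Subgroup G) (K' : Subgroup (RA Γ))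
    (hK : K.FiniteIndex) (hK' : K'.FiniteIndex) (e : K ≃* K') :
    ∃ (ι' Pt V : Type) (_ : Fintype ι') (_ : MulAction G Pt) (_ : MulAction G V)
      (_ : MulAction G ι') (Γ' : SimpleGraph ι') (κ : V → ι') (S : SimpleGraph V)
      (co : Pt → ∀ i, Fib κ i) (N : Pt → ι' → Prop), VPre G Γ' κ S co N ∧
      MS Γ' (comp κ S) co N ∧ GG Γ' ∧ (∀ i, ¬ CL Γ' i) ∧ (∀ x : Pt, {g : G | g • x = x}.Finite) ∧
      (∃ F : Finset Pt, ∀ x : Pt, ∃ g : G, g • x ∈ F) ∧ Nonempty (Γ ≃g Γ') := by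
  obtain ⟨N, ι', Pt, V, i0, i1, i2, i3, Γ', κ, S, co, hNn, hNf, B, ⟨e0⟩⟩ :=
    base_comm Γ hG hcl K K' hK hK' e
  have hG' : GG Γ' := B.lat.gg
  have hcl' : ∀ i, ¬ CL Γ' i := cl_iso e0 hcl
  obtain ⟨a1, a2, a3, R, e1, e2, e3⟩ := g_act N B (srig_iso e0 hs)
  have fR : Fact (RAct G Γ' κ co (fun _ _ => False)) := ⟨R⟩
  obtain ⟨aL, Pi, C, hfst, L⟩ := lina_ex N B e1 e2 e3
  have fF : Fact (∀ (g : G) (a : Rg Γ' co (fun _ _ => False) × ℤ), (g • a).1 = g • a.1) :=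
    ⟨hfst⟩
  have M := B.lat.ms.b
  have hN : ∀ (x : Pt) (i : ι'), ¬ (fun _ _ => False : Pt → ι' → Prop) x i := fun _ _ h => h
  refine ⟨ι', UP Γ' co (fun _ _ => False), UV Γ' co (fun _ _ => False), i0, upAct, inferInstance,
    a3, Γ', uk Γ' co (fun _ _ => False), uS Pi, uco Γ' co (fun _ _ => False),
    uN Γ' co (fun _ _ => False), up_pre M hN L, up_ms M hN hcl' Pi L.fib, hG', hcl', ?_, ?_,
    ⟨e0⟩⟩
  · intro u
    refine up_prop M hNf L (fun n hn i => ?_) (fun n hn x hx => ?_) u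
    · rw [e3 ⟨n, hn⟩ i]
      exact B.lab _ i
    · have h1 := B.free ⟨n, hn⟩ x ((e1 ⟨n, hn⟩ x).symm.trans hx)
      exact congrArg Subtype.val h1
  · refine up_fin M hN L ?_
    obtain ⟨F, hF⟩ := B.lat.fin
    refine ⟨F, fun x => ?_⟩
    obtain ⟨n, hn⟩ := hF x
    exact ⟨n, by rw [e1]; exact hn⟩

end VTB
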