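import Pool.Agent.Lib.MP_32d917_al_vt.D00

/-!
# Median graphs with labelled edges: definitions
-/

set_option autoImplicit false

namespace VTB

open LatIso LatN LatF RaagIso

/-- `y` is reached from `x` by a path of edges of label `i` -/
def Pan {ι P : Type} (X : SimpleGraph P) (lab : P → P → ι) (i : ι) (x y : P) : Prop :=
  Relation.ReflTransGen (fun a b => X.Adj a b ∧ lab a b = i) x y

/-- A connected median graph with labelled edges: opposite edges of squares have equal labels, two
edges at a vertex span a square iff their labels are adjacent in `Γ`; `N x i`: the label `i` is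
internal at `x`; a label occurs at `x` iff it is in the star of all internal labels. -/
structure LMG {ι P : Type} (Γ : SimpleGraph ι) (X : SimpleGraph P) (lab : P → P → ι)
    (N : P → ι → Prop) : Prop where
  conn : X.Connected
  med : ∀ x y z, ∃! m, Bt X x m y ∧ Bt X y m z ∧ Bt X x m z
  symm : ∀ x y, X.Adj x y → lab y x = lab x y
  par : ∀ x y z w, X.Adj x y → X.Adj x z → X.Adj y w → X.Adj z w → y ≠ z → x ≠ w →
    lab z w = lab x y
  sq : ∀ x y z, X.Adj x y → X.Adj x z → y ≠ z →
    ((∃ w, w ≠ x ∧ X.Adj y w ∧ X.Adj z w) ↔ Γ.Adj (lab x y) (lab x z))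
  occ : ∀ x i, (∃ y, X.Adj x y ∧ lab x y = i) ↔ Oc Γ N x i
  nocc : ∀ x i, N x i → Oc Γ N x i
  ntr : ∀ x y k, X.Adj x y → k ≠ lab x y → (N y k ↔ N x k)

/-- The group `G` acts properly and with finitely many orbits on a labelled median graph, permuting
the labels; the vertices have finite degree, the panels are infinite. Central labels (adjacent to all
others) are internal everywhere, and their panels are leafless and not lines. The panels of the other
labels contain vertices at which their label is not internal. Inversions are allowed. -/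
structure MLat (G : Type) [Group G] {ι P : Type} [MulAction G P] [MulAction G ι]
    (Γ : SimpleGraph ι) (X : SimpleGraph P) (lab : P → P → ι) (N : P → ι → Prop) : Prop where
  b : LMG Γ X lab N
  gg : GG Γ
  adj : ∀ (g : G) x y, X.Adj x y → X.Adj (g • x) (g • y)
  glab : ∀ (g : G) x y, X.Adj x y → lab (g • x) (g • y) = g • lab x y
  gam : ∀ (g : G) i j, Γ.Adj (g • i) (g • j) ↔ Γ.Adj i j
  gn : ∀ (g : G) x i, N (g • x) (g • i) ↔ N x i
  loc : ∀ x, (X.neighborSet x).Finite
  cen : ∀ x i, CL Γ i → N x i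
  out : ∀ x i, ¬ CL Γ i → N x i → ∃ y, Pan X lab i x y ∧ ¬ N y i
  two : ∀ x i, CL Γ i → ∃ y z, y ≠ z ∧ X.Adj x y ∧ X.Adj x z ∧ lab x y = i ∧ lab x z = i
  three : ∀ i, CL Γ i → ∃ x y z w, y ≠ z ∧ z ≠ w ∧ y ≠ w ∧ X.Adj x y ∧ X.Adj x z ∧ X.Adj x w ∧
    lab x y = i ∧ lab x z = i ∧ lab x w = i
  inf : ∀ x i, Oc Γ N x i → {y | Pan X lab i x y}.Infinite
  prop : ∀ x : P, {g : G | g • x = x}.Finite
  fin : ∃ F : Finset P, ∀ x : P, ∃ g : G, g • x ∈ F

/-- `ℓ i x y` is the number of edges of label `i` on a geodesic from `x` to `y` -/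
structure Cnt {ι P : Type} (X : SimpleGraph P) (lab : P → P → ι) (ℓ : ι → P → P → ℕ) :
    Prop where
  zero : ∀ i x, ℓ i x x = 0
  one : ∀ i x u y, X.Adj x u → Bt X x u y → lab x u = i → ℓ i x y = ℓ i u y + 1
  non : ∀ i x u y, X.Adj x u → Bt X x u y → lab x u ≠ i → ℓ i x y = ℓ i u y

/-- the vertices of the tree of label `i` -/
abbrev VQ {ι P : Type} (ℓ : ι → P → P → ℕ) (i : ι) : Type := Quot (fun x y : P => ℓ i x y = 0)

/-- the coordinates -/
def qco {ι P : Type} (ℓ : ι → P → P → ℕ) (x : P) (i : ι) : VQ ℓ i := Quot.mk _ x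

/-- the tree of label `i` -/
def qS {ι P : Type} (X : SimpleGraph P) (lab : P → P → ι) (ℓ : ι → P → P → ℕ) (i : ι) :
    SimpleGraph (VQ ℓ i) where
  Adj u v := u ≠ v ∧ ∃ x y, qco ℓ x i = u ∧ qco ℓ y i = v ∧ X.Adj x y ∧
    (lab x y = i ∧ lab y x = i)
  symm := by
    constructor
    rintro u v ⟨h, x, y, h1, h2, h3, h4⟩
    exact ⟨h.symm, y, x, h2, h1, h3.symm, h4.symm⟩
  loopless := ⟨fun a h => h.1 rfl⟩

end VTB
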