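import Pool.Agent.Lib.MP_32d917_al_vt.A05
import Pool.Agent.Lib.MP_32d917_al_vt.MDefs

/-!
# I80: the graph of adjacent points of a structure is a labelled median graph

`uX S co`: the graph of adjacent points, `ul co i0 x y`: the label in which the points differ.
`ux_dist`: the distance is the sum of the distances of the coordinates; `ux_bt`; `ux_lmg`: the graph is
a labelled median graph; `ux_pan`: the panels.
-/

set_option autoImplicit false

namespace VTB

open LatIso LatN LatF RaagIso

section

variable {ι Pt : Type} {V : ι → Type} {Γ : SimpleGraph ι} {S : ∀ i, SimpleGraph (V i)}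
  {co : Pt → ∀ i, V i} {N : Pt → ι → Prop}

/-- the graph of adjacent points -/
def uX (S : ∀ i, SimpleGraph (V i)) (co : Pt → ∀ i, V i) : SimpleGraph Pt where
  Adj x y := UAdj S co x y
  symm := by
    constructor
    rintro x y ⟨i, h⟩
    exact ⟨i, h.1.symm, fun j hj => (h.2 j hj).symm⟩
  loopless := by
    constructor
    rintro x ⟨i, h⟩
    exact h.1.ne rfl

open Classical in
/-- the label in which two points differ -/
noncomputable def ul (co : Pt → ∀ i, V i) (i0 : ι) (x y : Pt) : ι :=
  if h : ∃ i, co x i ≠ co y i then h.choose else i0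

theorem ul_eq {i0 i : ι} {x y : Pt} (h : VSt S co i x y) : ul co i0 x y = i := by
  have h1 : ∃ i, co x i ≠ co y i := ⟨i, h.1.ne⟩
  unfold ul
  rw [dif_pos h1]
  by_contra h2
  exact h1.choose_spec (h.2 _ h2).symm

theorem ul_vst {i0 : ι} {x y : Pt} (h : (uX S co).Adj x y) : VSt S co (ul co i0 x y) x y := by
  obtain ⟨i, hi⟩ := h
  rw [ul_eq hi]
  exact hi

theorem ux_conn (M : MS1 Γ S co N) : (uX S co).Connected := by
  have := M.ne
  refine ⟨fun x y => ?_⟩
  have h := M.conn x y
  induction h with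
  | refl => exact SimpleGraph.Reachable.refl _
  | tail _ h ih => exact ih.trans (SimpleGraph.Adj.reachable h)

private theorem I80_step [Fintype ι] (M : MS1 Γ S co N) {i : ι} {x z y : Pt}
    (h : VSt S co i x z) :
    ∑ j, (S j).dist (co x j) (co y j) ≤ 1 + ∑ j, (S j).dist (co z j) (co y j) := by
  classical
  rw [← Finset.add_sum_erase _ _ (Finset.mem_univ i), ← Finset.add_sum_erase (Finset.univ) (fun j => (S j).dist (co z j) (co y j)) (Finset.mem_univ i)]
  have h1 : ∑ j ∈ Finset.univ.erase i, (S j).dist (co x j) (co y j) =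
      ∑ j ∈ Finset.univ.erase i, (S j).dist (co z j) (co y j) := by
    refine Finset.sum_congr rfl fun j hj => ?_
    rw [h.2 j (Finset.ne_of_mem_erase hj)]
  have h2 : (S i).dist (co x i) (co y i) ≤ 1 + (S i).dist (co z i) (co y i) := by
    have h3 := (M.tree i).connected.dist_triangle (u := co x i) (v := co z i) (w := co y i)
    rw [SimpleGraph.dist_eq_one_iff_adj.2 h.1] at h3
    exact h3
  rw [h1]
  omega

private theorem I80_step' [Fintype ι] {i : ι} {x z y : Pt}
    (h : VSt S co i x z) (hb : Bt (S i) (co x i) (co z i) (co y i)) :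
    ∑ j, (S j).dist (co x j) (co y j) = 1 + ∑ j, (S j).dist (co z j) (co y j) := by
  classical
  rw [← Finset.add_sum_erase _ _ (Finset.mem_univ i), ← Finset.add_sum_erase (Finset.univ) (fun j => (S j).dist (co z j) (co y j)) (Finset.mem_univ i)]
  have h1 : ∑ j ∈ Finset.univ.erase i, (S j).dist (co x j) (co y j) =
      ∑ j ∈ Finset.univ.erase i, (S j).dist (co z j) (co y j) := by
    refine Finset.sum_congr rfl fun j hj => ?_
    rw [h.2 j (Finset.ne_of_mem_erase hj)]
  have h2 : (S i).dist (co x i) (co y i) = 1 + (S i).dist (co z i) (co y i) := by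
    have h3 := hb
    unfold Bt at h3
    rw [SimpleGraph.dist_eq_one_iff_adj.2 h.1] at h3
    exact h3.symm
  rw [h1, h2]
  omega

/-- the distance is the sum of the distances of the coordinates -/
theorem ux_dist [Fintype ι] (M : MS1 Γ S co N) (x y : Pt) :
    (uX S co).dist x y = ∑ i, (S i).dist (co x i) (co y i) := by
  apply le_antisymm
  · refine geod_ind M y (fun x => (uX S co).dist x y ≤ ∑ i, (S i).dist (co x i) (co y i)) ?_ ?_ x
    · show (uX S co).dist y y ≤ _
      rw [SimpleGraph.dist_self]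
      exact Nat.zero_le _
    · intro x z i h hb ih
      have h1 := (ux_conn M).dist_triangle (u := x) (v := z) (w := y)
      have h2 : (uX S co).dist x z = 1 := SimpleGraph.dist_eq_one_iff_adj.2 ⟨i, h⟩
      have h3 := I80_step' h hb
      have h4 : (uX S co).dist z y ≤ ∑ i, (S i).dist (co z i) (co y i) := ih
      show (uX S co).dist x y ≤ ∑ i, (S i).dist (co x i) (co y i)
      omega
  · obtain ⟨p, hp⟩ := (ux_conn M).exists_walk_length_eq_dist x y
    rw [← hp]
    clear hp
    induction p with
    | nil =>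
      refine le_of_eq ?_
      refine Finset.sum_eq_zero fun i _ => ?_
      exact SimpleGraph.dist_self
    | @cons a b c h p ih =>
      rw [SimpleGraph.Walk.length_cons]
      obtain ⟨i, hi⟩ := h
      have h1 := I80_step M (y := c) hi
      omega

/-- betweenness is betweenness of the coordinates -/
theorem ux_bt [Fintype ι] (M : MS1 Γ S co N) (x m y : Pt) :
    Bt (uX S co) x m y ↔ ∀ i, Bt (S i) (co x i) (co m i) (co y i) := by
  unfold Bt
  rw [ux_dist M, ux_dist M, ux_dist M, ← Finset.sum_add_distrib]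
  constructor
  · intro h i
    have h1 := (Finset.sum_eq_sum_iff_of_le (fun i _ =>
      (M.tree i).connected.dist_triangle (u := co x i) (v := co m i) (w := co y i))).1 h.symm
    exact (h1 i (Finset.mem_univ i)).symm
  · intro h
    exact Finset.sum_congr rfl fun i _ => h i

private theorem I80_sq [Fintype ι] (M : MS1 Γ S co N) {i j k l : ι} {x y z w : Pt} (hy : VSt S co i x y)
    (hz : VSt S co j x z) (hyw : VSt S co k y w) (hzw : VSt S co l z w) (hyz : y ≠ z)
    (hxw : x ≠ w) : l = i ∧ k = j := by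
  by_cases hli : l = i
  · refine ⟨hli, ?_⟩
    subst hli
    by_contra hkj
    by_cases hjl : j = l
    · subst hjl
      have h1 : co w k = co z k := hzw.2 k hkj
      rw [hz.2 k hkj, ← hy.2 k hkj] at h1
      exact hyw.1.ne h1.symm
    · have h1 : co w j = co z j := hzw.2 j hjl
      have h2 : co w j = co y j := hyw.2 j (fun h => hkj h.symm)
      rw [hy.2 j hjl, h1] at h2
      exact hz.1.ne h2.symm
  · exfalso
    have h1 : co w i = co z i := hzw.2 i (fun h => hli h.symm)
    by_cases hij : i = j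
    · subst hij
      have h2 : k = i := by
        by_contra hk
        have h3 : co w i = co y i := hyw.2 i (fun h => hk h.symm)
        exact hyz (vst_eq M hy hz (by rw [← h3, h1]))
      have h3 : co w l = co y l := hyw.2 l (by rw [h2]; exact hli)
      rw [hy.2 l hli, ← hz.2 l hli] at h3
      exact hzw.1.ne h3.symm
    · have h2 : co w i = co x i := by rw [h1, hz.2 i hij]
      have h3 : k = i := by
        by_contra hk
        have h3 : co w i = co y i := hyw.2 i (fun h => hk h.symm)
        rw [h2] at h3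
        exact hy.1.ne h3
      subst h3
      have h4 : co w j = co y j := hyw.2 j (fun h => hij h.symm)
      rw [hy.2 j (fun h => hij h.symm)] at h4
      have h5 : l = j := by
        by_contra hl
        have h6 : co w j = co z j := hzw.2 j (fun h => hl h.symm)
        rw [h4] at h6
        exact hz.1.ne h6
      apply hxw
      refine M.inj _ _ fun a => ?_
      by_cases ha : a = k
      · rw [ha, h2]
      · by_cases hb : a = j
        · rw [hb, h4]
        · rw [hyw.2 a ha, hy.2 a ha]

private theorem I80_four [Fintype ι] (M : MS1 Γ S co N) {i : ι} {x y z w : Pt} (hy : VSt S co i x y)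
    (hz : VSt S co i x z) (hyw : VSt S co i y w) (hzw : VSt S co i z w) (hyz : y ≠ z) :
    x = w := by
  by_contra hxw
  have hT := M.tree i
  have h1 : co y i ≠ co z i := fun h => hyz (vst_eq M hy hz h)
  have h2 : co x i ≠ co w i := fun h => hxw (vst_eq M (vst_symm hy) hyw h)
  -- both `x` and `w` lie between `y` and `z`, which have distance two
  have h3 : (S i).dist (co y i) (co z i) = 2 := by
    have h4 := hT.connected.dist_triangle (u := co y i) (v := co x i) (w := co z i)
    rw [SimpleGraph.dist_eq_one_iff_adj.2 hy.1.symm, SimpleGraph.dist_eq_one_iff_adj.2 hz.1] at h4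
    have h5 : 0 < (S i).dist (co y i) (co z i) := hT.connected.pos_dist_of_ne h1
    have h6 : (S i).dist (co y i) (co z i) ≠ 1 := by
      intro h7
      have h8 := SimpleGraph.dist_eq_one_iff_adj.1 h7
      have h9 := hT.dist_ne_of_adj (co x i) h8
      rw [SimpleGraph.dist_eq_one_iff_adj.2 hy.1, SimpleGraph.dist_eq_one_iff_adj.2 hz.1] at h9
      exact h9 rfl
    omega
  have hx : Bt (S i) (co y i) (co x i) (co z i) := by
    unfold Bt
    rw [SimpleGraph.dist_eq_one_iff_adj.2 hy.1.symm, SimpleGraph.dist_eq_one_iff_adj.2 hz.1, h3]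
  have hw : Bt (S i) (co y i) (co w i) (co z i) := by
    unfold Bt
    rw [SimpleGraph.dist_eq_one_iff_adj.2 hyw.1, SimpleGraph.dist_eq_one_iff_adj.2 hzw.1.symm, h3]
  have h7 := st_pt_uniq hT hx hw (by
    rw [SimpleGraph.dist_eq_one_iff_adj.2 hy.1.symm, SimpleGraph.dist_eq_one_iff_adj.2 hyw.1])
  exact h2 h7

/-- the graph of adjacent points is a labelled median graph -/
theorem ux_lmg [Fintype ι] (M : MS1 Γ S co N) (i0 : ι) : LMG Γ (uX S co) (ul co i0) N := by
  have hsym : ∀ x y, (uX S co).Adj x y → ul co i0 y x = ul co i0 x y := by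
    rintro x y ⟨i, h⟩
    rw [ul_eq h, ul_eq (vst_symm h)]
  refine ⟨ux_conn M, ?_, hsym, ?_, ?_, ?_, M.nocc, ?_⟩
  · intro x y z
    obtain ⟨m, hm⟩ := M.med x y z
    refine ⟨m, ⟨(ux_bt M _ _ _).2 fun i => (hm i).1, (ux_bt M _ _ _).2 fun i => (hm i).2.1,
      (ux_bt M _ _ _).2 fun i => (hm i).2.2⟩, ?_⟩
    rintro n ⟨h1, h2, h3⟩
    rw [ux_bt M] at h1 h2 h3
    exact M.inj _ _ fun i => tree_med_uniq (M.tree i) (h1 i) (h2 i) (h3 i) (hm i).1 (hm i).2.1
      (hm i).2.2
  · rintro x y z w ⟨i, hi⟩ ⟨j, hj⟩ ⟨k, hk⟩ ⟨l, hl⟩ hyz hxw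
    rw [ul_eq hl, ul_eq hi]
    exact (I80_sq M hi hj hk hl hyz hxw).1
  · rintro x y z ⟨i, hi⟩ ⟨j, hj⟩ hyz
    rw [ul_eq hi, ul_eq hj]
    constructor
    · rintro ⟨w, hwx, ⟨k, hk⟩, ⟨l, hl⟩⟩
      obtain ⟨h1, h2⟩ := I80_sq M hi hj hk hl hyz hwx.symm
      subst h1 h2
      by_cases hij : l = k
      · subst hij
        exact absurd (I80_four M hi hj hk hl hyz).symm hwx
      · exact (M.sq x y z l k hij hi hj).1 ⟨w, hk, hl⟩
    · intro h
      obtain ⟨w, h1, h2⟩ := (M.sq x y z i j h.ne hi hj).2 h
      refine ⟨w, ?_, ⟨j, h1⟩, ⟨i, h2⟩⟩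
      rintro rfl
      have h3 := h1.2 i h.ne
      exact hi.1.ne h3
  · intro x i
    rw [← M.occ]
    constructor
    · rintro ⟨y, ⟨j, hj⟩, h⟩
      rw [ul_eq hj] at h
      subst h
      exact ⟨y, hj⟩
    · rintro ⟨y, hy⟩
      exact ⟨y, ⟨i, hy⟩, ul_eq hy⟩
  · rintro x y k ⟨i, hi⟩ hk
    rw [ul_eq hi] at hk
    exact M.ntr x y i k hi hk

/-- the panels -/
theorem ux_pan [Fintype ι] (M : MS1 Γ S co N) (i0 i : ι) (x y : Pt) :
    Pan (uX S co) (ul co i0) i x y ↔ Ag co {i} x y := by
  constructor
  · intro h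
    induction h with
    | refl => exact fun _ _ => rfl
    | tail _ h ih =>
      obtain ⟨⟨j, hj⟩, h2⟩ := h
      rw [ul_eq hj] at h2
      subst h2
      intro a ha
      rw [hj.2 a ha, ih a ha]
  · intro h
    have h1 := ag_geod M h
    unfold Pan
    refine Relation.ReflTransGen.mono (fun a b hab => ?_) _ _ h1
    obtain ⟨_, _, j, hj, hs, _⟩ := hab
    have hj' : j = i := hj
    subst hj'
    exact ⟨⟨j, hs⟩, ul_eq hs⟩

end

end VTB
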