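import Pool.Agent.Lib.MP_32d917_al_vt.D00
import Pool.Agent.Lib.MP_32d917_al_vt.I80

/-!
# I81: actions on structures are actions on labelled median graphs

`cl_step`: central labels: every edge at the coordinate of a point is a step. `ux_mlat`: a structure
`VLat0` whose trees of central labels are leafless gives an action on the graph of adjacent points.
-/

set_option autoImplicit false

namespace VTB

open LatIso LatN LatF RaagIso

section

variable {ι Pt : Type} {V : ι → Type} {Γ : SimpleGraph ι} {S : ∀ i, SimpleGraph (V i)}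
  {co : Pt → ∀ i, V i} {N : Pt → ι → Prop}

/-- steps in the direction of a central label -/
theorem cl_step [Fintype ι] (M : MS1 Γ S co N) {i : ι} (hi : CL Γ i) {x : Pt} {b : V i}
    (h : (S i).Adj (co x i) b) : ∃ y, VSt S co i x y ∧ co y i = b := by
  obtain ⟨z, rfl⟩ := M.onto i b
  obtain ⟨w, h1, h2⟩ := reg_pt M (v := i) (x := x) (y := z) (fun j hj => absurd (hi j) hj)
  refine ⟨w, ⟨?_, fun j hj => h1 j hj⟩, h2⟩
  rw [h2]
  exact h

end

section

variable {G : Type} [Group G] {ι Pt V : Type} [MulAction G Pt] [MulAction G V] [MulAction G ι]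
  {Γ : SimpleGraph ι} {κ : V → ι} {S : SimpleGraph V} {co : Pt → ∀ i, Fib κ i}
  {N : Pt → ι → Prop}

private theorem I81_cast {a b : Pt} {i j : ι} (h : i = j) (he : co a i = co b i) :
    co a j = co b j := by
  subst h
  exact he

/-- translates of steps -/
theorem vpre_step (L : VPre G Γ κ S co N) {i : ι} {x y : Pt} (h : VSt (comp κ S) co i x y)
    (g : G) : VSt (comp κ S) co (g • i) (g • x) (g • y) := by
  obtain ⟨h1, h2⟩ := h
  refine ⟨?_, ?_⟩
  · show S.Adj (co (g • x) (g • i)).1 (co (g • y) (g • i)).1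
    rw [L.gco, L.gco]
    exact L.act.adj g _ _ h1
  · intro j hj
    have h3 : g⁻¹ • j ≠ i := by
      intro h4
      apply hj
      rw [← h4, smul_inv_smul]
    have h4 := h2 _ h3
    have h5 : co (g • y) (g • g⁻¹ • j) = co (g • x) (g • g⁻¹ • j) := by
      apply Subtype.ext
      rw [L.gco, L.gco, h4]
    exact I81_cast (smul_inv_smul g j) h5

/-- actions on structures are actions on labelled median graphs -/
theorem ux_mlat [Fintype ι] (L : VLat0 G Γ κ S co N) (hC : CLeaf Γ (comp κ S)) (i0 : ι) :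
    MLat G Γ (uX (comp κ S) co) (ul co i0) N where
  b := ux_lmg L.ms.b i0
  gg := L.gg
  adj := by
    rintro g x y ⟨i, h⟩
    exact ⟨g • i, vpre_step L.pre h g⟩
  glab := by
    rintro g x y ⟨i, h⟩
    rw [ul_eq h, ul_eq (vpre_step L.pre h g)]
  gam := L.pre.gam
  gn := L.pre.gn
  loc := by
    intro x
    have h1 : (⋃ i : ι, {y | VSt (comp κ S) co i x y}).Finite :=
      Set.finite_iUnion fun i => L.ms.loc x i
    refine h1.subset ?_
    rintro y ⟨i, h⟩
    exact Set.mem_iUnion.2 ⟨i, h⟩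
  cen := L.ms.cen
  out := by
    intro x i hi hx
    obtain ⟨y, h1, h2⟩ := L.ms.out x i hi hx
    exact ⟨y, (ux_pan L.ms.b i0 i x y).2 h1, h2⟩
  two := by
    intro x i hi
    obtain ⟨a, b, hab, ha, hb⟩ := (hC i hi).two (co x i)
    obtain ⟨y, hy, ey⟩ := cl_step L.ms.b hi ha
    obtain ⟨z, hz, ez⟩ := cl_step L.ms.b hi hb
    refine ⟨y, z, ?_, ⟨i, hy⟩, ⟨i, hz⟩, ul_eq hy, ul_eq hz⟩
    rintro rfl
    exact hab (ey.symm.trans ez)
  three := by
    intro i hi
    obtain ⟨v, a, b, c, hab, hbc, hac, ha, hb, hc⟩ := (hC i hi).three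
    obtain ⟨x, rfl⟩ := L.ms.b.onto i v
    obtain ⟨y, hy, ey⟩ := cl_step L.ms.b hi ha
    obtain ⟨z, hz, ez⟩ := cl_step L.ms.b hi hb
    obtain ⟨w, hw, ew⟩ := cl_step L.ms.b hi hc
    refine ⟨x, y, z, w, ?_, ?_, ?_, ⟨i, hy⟩, ⟨i, hz⟩, ⟨i, hw⟩, ul_eq hy, ul_eq hz, ul_eq hw⟩
    · rintro rfl
      exact hab (ey.symm.trans ez)
    · rintro rfl
      exact hbc (ez.symm.trans ew)
    · rintro rfl
      exact hac (ey.symm.trans ew)
  inf := by
    intro x i hx
    have h1 := L.ms.inf x i hx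
    have h2 : {y | Pan (uX (comp κ S) co) (ul co i0) i x y} = {y | Ag co {i} x y} := by
      ext y
      exact ux_pan L.ms.b i0 i x y
    rw [h2]
    exact h1
  prop := L.prop
  fin := L.fin

end

end VTB
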