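import Pool.Agent.Lib.MP_32d917_al.F.FSUBD
import Pool.Agent.Lib.MP_32d917_al_vt.I81

/-!
# I82: products of trees

Every group which acts properly and with finitely many orbits on a finite product of bushy trees,
possibly permuting the factors, acts on a labelled median graph; the graph of labels is complete, all
labels are internal everywhere (`forest_mlat`).
-/

set_option autoImplicit false

namespace VTB

open LatIso LatN LatF RaagIso

section

variable {G : Type} [Group G] {ι V : Type} [MulAction G V] [MulAction G ι] {κ : V → ι}
  {S : SimpleGraph V}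

private theorem I82_eq (x : ∀ i, Fib κ i) {i j : ι} (h : i = j) : (x i).1 = (x j).1 := by
  subst h
  rfl

/-- the action on the points of the product of the fibres -/
@[reducible] def fibPt (h : KEq G κ) : MulAction G (∀ i, Fib κ i) where
  smul g x := fun i => ⟨g • (x (g⁻¹ • i)).1, by rw [h, (x (g⁻¹ • i)).2, smul_inv_smul]⟩
  one_smul x := by
    funext i
    apply Subtype.ext
    show (1 : G) • (x ((1 : G)⁻¹ • i)).1 = (x i).1
    rw [one_smul]
    exact I82_eq x (by rw [inv_one, one_smul])
  mul_smul a b x := by
    funext i
    apply Subtype.ext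
    show (a * b) • (x ((a * b)⁻¹ • i)).1 = a • b • (x (b⁻¹ • a⁻¹ • i)).1
    rw [mul_smul]
    exact congrArg (fun v => a • b • v) (I82_eq x (by rw [mul_inv_rev, mul_smul]))

private theorem I82_conn [Fintype ι] [DecidableEq ι] (hT : ∀ i, (comp κ S i).IsTree)
    (x y : ∀ i, Fib κ i) : Relation.ReflTransGen
      (fun a b => ∃ i, VSt (comp κ S) (fun (x : ∀ i, Fib κ i) i => x i) i a b) x y := by
  -- induction on the set of coordinates in which the points may differ
  have key : ∀ s : Finset ι, ∀ y : ∀ i, Fib κ i, (∀ i, i ∉ s → y i = x i) →
      Relation.ReflTransGen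
        (fun a b => ∃ i, VSt (comp κ S) (fun (x : ∀ i, Fib κ i) i => x i) i a b) x y := by
    intro s
    induction s using Finset.induction_on with
    | empty =>
      intro y hy
      have h1 : y = x := funext fun i => hy i (Finset.notMem_empty i)
      rw [h1]
    | @insert a s ha ih =>
      intro y hy
      refine (ih (Function.update y a (x a)) ?_).trans ?_
      · intro i hi
        by_cases hia : i = a
        · subst hia
          rw [Function.update_self]
        · rw [Function.update_of_ne hia]
          exact hy i (by simp [hia, hi])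
      · -- walk in the tree of `a`
        obtain ⟨p⟩ := (hT a).connected.preconnected (x a) (y a)
        have h2 : ∀ (u v : Fib κ a) (p : (comp κ S a).Walk u v), Relation.ReflTransGen
            (fun a b => ∃ i, VSt (comp κ S) (fun (x : ∀ i, Fib κ i) i => x i) i a b)
            (Function.update y a u) (Function.update y a v) := by
          intro u v p
          induction p with
          | nil => exact Relation.ReflTransGen.refl
          | @cons u w v h p ih =>
            refine Relation.ReflTransGen.head ⟨a, ?_, ?_⟩ ih
            · show (comp κ S a).Adj (Function.update y a u a) (Function.update y a w a)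
              rw [Function.update_self, Function.update_self]
              exact h
            · intro j hj
              show Function.update y a w j = Function.update y a u j
              rw [Function.update_of_ne hj, Function.update_of_ne hj]
        have h3 := h2 _ _ p
        rw [Function.update_eq_self] at h3
        exact h3
  exact key Finset.univ y fun i hi => absurd (Finset.mem_univ i) hi

private theorem I82_ms1 [Fintype ι] (L : FLat G κ S) :
    MS1 (⊤ : SimpleGraph ι) (comp κ S) (fun (x : ∀ i, Fib κ i) i => x i) (fun _ _ => True) := by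
  classical
  have hT := L.b.forest.tree
  have hne : ∀ i, Nonempty (Fib κ i) := fun i => (hT i).connected.nonempty
  have hst : ∀ i j : ι, i ∈ st (⊤ : SimpleGraph ι) j := by
    intro i j
    by_cases h : i = j
    · exact Or.inl h
    · exact Or.inr (fun h' => h h'.symm)
  have hoc : ∀ (x : ∀ i, Fib κ i) (i : ι),
      Oc (⊤ : SimpleGraph ι) (fun _ _ => True) x i := fun x i v _ => hst i v
  refine ⟨hT, ⟨fun i => (hne i).some⟩, fun x y h => funext h, ?_, I82_conn hT, ?_, ?_, ?_,
    fun x i _ => hoc x i, fun _ _ _ _ _ _ => Iff.rfl⟩
  · intro i v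
    exact ⟨Function.update (fun j => (hne j).some) i v, Function.update_self _ _ _⟩
  · intro x y z
    have h1 : ∀ i, ∃ m, Bt (comp κ S i) (x i) m (y i) ∧ Bt (comp κ S i) (y i) m (z i) ∧
        Bt (comp κ S i) (x i) m (z i) := fun i => st_median (hT i) (x i) (y i) (z i)
    exact ⟨fun i => (h1 i).choose, fun i => (h1 i).choose_spec⟩
  · intro x y z i j hij hy hz
    constructor
    · intro _
      exact hij
    · intro _
      refine ⟨Function.update y j (z j), ⟨?_, ?_⟩, ⟨?_, ?_⟩⟩
      · show (comp κ S j).Adj (y j) (Function.update y j (z j) j)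
        rw [Function.update_self]
        have h1 : y j = x j := hy.2 j (fun h => hij h.symm)
        rw [h1]
        exact hz.1
      · intro k hk
        show Function.update y j (z j) k = y k
        rw [Function.update_of_ne hk]
      · show (comp κ S i).Adj (z i) (Function.update y j (z j) i)
        rw [Function.update_of_ne hij]
        have h1 : z i = x i := hz.2 i hij
        rw [h1]
        exact hy.1
      · intro k hk
        show Function.update y j (z j) k = z k
        by_cases hkj : k = j
        · subst hkj
          rw [Function.update_self]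
        · rw [Function.update_of_ne hkj]
          have h1 : y k = x k := hy.2 k hk
          have h2 : z k = x k := hz.2 k hkj
          rw [h1, h2]
  · intro x i
    refine ⟨fun _ => hoc x i, fun _ => ?_⟩
    obtain ⟨a, b, _, ha, _⟩ := (L.leafless i).two (x i)
    refine ⟨Function.update x i a, ?_, ?_⟩
    · show (comp κ S i).Adj (x i) (Function.update x i a i)
      rw [Function.update_self]
      exact ha
    · intro j hj
      show Function.update x i a j = x j
      rw [Function.update_of_ne hj]

/-- trees without leaves are infinite -/
theorem leafless_inf {W : Type} {T : SimpleGraph W} (hT : T.IsTree) (hL : Leafless T) (v : W) :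
    (Set.univ : Set W).Infinite := by
  intro hf
  have : Finite W := Set.finite_univ_iff.1 hf
  have : Nonempty W := ⟨v⟩
  -- a vertex of maximal distance from `v`
  obtain ⟨w, hw⟩ := Finite.exists_max (fun w => T.dist v w)
  obtain ⟨a, b, hab, ha, hb⟩ := hL.two w
  have h1 : ∀ c, T.Adj w c → Bt T w c v := by
    intro c hc
    have h2 := hw c
    have h3 : T.dist v w = T.dist v c + 1 := by
      rcases st_adj hT hc v with h | h
      · omega
      · exact h
    unfold Bt
    rw [SimpleGraph.dist_eq_one_iff_adj.2 hc, SimpleGraph.dist_comm (u := c),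
      SimpleGraph.dist_comm (u := w), h3]
    omega
  exact hab (st_uniq hT ha hb (h1 a ha) (h1 b hb))

theorem forest_vlat0 [Fintype ι] [Nonempty ι] (L : FLat G κ S) :
    ∃ _ : MulAction G (∀ i, Fib κ i), VLat0 G (⊤ : SimpleGraph ι) κ S
      (fun (x : ∀ i, Fib κ i) i => x i) (fun _ _ => True) := by
  classical
  refine ⟨fibPt (G := G) (κ := κ) L.b.act.kap, ?_⟩
  let _ := fibPt (G := G) (κ := κ) L.b.act.kap
  have hsm : ∀ (g : G) (x : ∀ i, Fib κ i) (i : ι), ((g • x) i).1 = g • (x (g⁻¹ • i)).1 :=
    fun g x i => rfl
  have hsm' : ∀ (g : G) (x : ∀ i, Fib κ i) (i : ι), ((g • x) (g • i)).1 = g • (x i).1 := by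
    intro g x i
    rw [hsm]
    exact congrArg (fun v => g • v) (I82_eq x (inv_smul_smul g i))
  have hcl : ∀ i : ι, CL (⊤ : SimpleGraph ι) i := by
    intro i j
    by_cases h : j = i
    · exact Or.inl h
    · exact Or.inr (fun h' => h h'.symm)
  have hmv : ∀ (g : G) (x y : ∀ i, Fib κ i), g • x = y → Mv g x y := by
    rintro g x y rfl i
    exact (hsm' g x i).symm
  have hmv' : ∀ (g : G) (x y : ∀ i, Fib κ i), Mv g x y → g • x = y := by
    intro g x y h
    funext i
    apply Subtype.ext
    rw [hsm, h (g⁻¹ • i)]
    exact I82_eq y (smul_inv_smul g i)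
  have hM := I82_ms1 L
  refine ⟨⟨hM, L.b.forest.kap, L.b.act, ?_, hsm', fun _ _ _ => Iff.rfl⟩,
    ⟨hM, ?_, fun _ _ _ => trivial, fun x i h => absurd (hcl i) h, ?_⟩, ⟨?_, ?_, inferInstance⟩,
    ?_, ?_⟩
  · intro g i j
    show g • i ≠ g • j ↔ i ≠ j
    exact not_congr (MulAction.injective g).eq_iff
  · -- locally finite
    intro x i
    have h1 := L.b.loc (x i).1
    refine (h1.image (fun v => if h : κ v = i then Function.update x i ⟨v, h⟩ else x)).subset ?_
    rintro y ⟨h2, h3⟩
    refine ⟨(y i).1, h2, ?_⟩
    show (if h : κ (y i).1 = i then Function.update x i ⟨(y i).1, h⟩ else x) = y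
    rw [dif_pos (y i).2]
    funext j
    by_cases hj : j = i
    · subst hj
      rw [Function.update_self]
    · rw [Function.update_of_ne hj]
      exact (h3 j hj).symm
  · -- infinite panels
    intro x i _ hf
    have h1 := leafless_inf (L.b.forest.tree i) (L.leafless i) (x i)
    apply h1
    refine (hf.image (fun y => y i)).subset ?_
    intro v _
    refine ⟨Function.update x i v, ?_, Function.update_self _ _ _⟩
    intro j hj
    exact Function.update_of_ne hj _ _
  · intro v w _ hw
    exact absurd (hcl w) hw
  · intro v K _ a b _ ha
    exact absurd (hcl v a) ha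
  · intro x
    refine (L.b.prop x).subset ?_
    intro g hg
    exact hmv g x x hg
  · obtain ⟨F, hF⟩ := L.b.fin
    refine ⟨F, fun x => ?_⟩
    obtain ⟨g, y, hy, h⟩ := hF x
    refine ⟨g, ?_⟩
    rw [hmv' g x y h]
    exact hy

end

/-- groups acting on products of trees act on labelled median graphs whose labels are all central -/
theorem forest_mlat {G : Type} [Group G] (h : IsForestLattice G) :
    ∃ (n : ℕ) (P : Type) (_ : MulAction G P) (_ : MulAction G (Fin (n + 1)))
      (X : SimpleGraph P) (lab : P → P → Fin (n + 1)),
      MLat G (⊤ : SimpleGraph (Fin (n + 1))) X lab (fun _ _ => True) := by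
  obtain ⟨n, V, _, _, κ, S, L⟩ := fsubd h
  obtain ⟨_, L0⟩ := forest_vlat0 L
  exact ⟨n, ∀ i, Fib κ i, inferInstance, inferInstance, _, _,
    ux_mlat L0 (fun i _ => L.leafless i) 0⟩

end VTB
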