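import Pool.Agent.Lib.MP_32d917_al_vt.I71
import Pool.Agent.Lib.MP_32d917_al_vt.I82
import Pool.Agent.Lib.MP_32d917_al_raag.O01

/-!
# I90: groups commensurable with star-rigid right-angled Artin groups are in the class

`comm_mlat`: from `comm_vlat0` (I71) and `ux_mlat` (I81). `fo_iso`, `ra_iso`, `fo_ind`, `fo_empty`: finiteness
of the outer automorphism group is invariant under isomorphism.
-/

set_option autoImplicit false

namespace VTB

open LatIso LatN LatF RaagIso

/-- finiteness of the outer automorphism group is invariant under isomorphisms -/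
theorem fo_iso {G H : Type} [Group G] [Group H] (e : G ≃* H)
    (h : ((MulAut.conj : G →* MulAut G).range).FiniteIndex) :
    ((MulAut.conj : H →* MulAut H).range).FiniteIndex := by
  have h1 : ((MulAut.conj : G →* MulAut G).range).map ((MulAut.congr e : MulAut G ≃* MulAut H) :
      MulAut G →* MulAut H) = (MulAut.conj : H →* MulAut H).range := by
    have h2 : ∀ g : G, MulAut.congr e (MulAut.conj g) = MulAut.conj (e g) := by
      intro g
      ext x
      show e (g * e.symm x * g⁻¹) = e g * x * (e g)⁻¹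
      rw [map_mul, map_mul, map_inv, e.apply_symm_apply]
    ext a
    constructor
    · rintro ⟨b, ⟨g, rfl⟩, rfl⟩
      exact ⟨e g, (h2 g).symm⟩
    · rintro ⟨x, rfl⟩
      refine ⟨MulAut.conj (e.symm x), ⟨e.symm x, rfl⟩, ?_⟩
      have h3 := h2 (e.symm x)
      rw [e.apply_symm_apply] at h3
      exact h3
  rw [← h1]
  constructor
  rw [Subgroup.index_map_equiv]
  exact h.index_ne_zero

/-- isomorphic graphs have isomorphic right-angled Artin groups -/
theorem ra_iso {ι ι' : Type} {Γ : SimpleGraph ι} {Γ' : SimpleGraph ι'} (e : Γ ≃g Γ') :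
    Nonempty (RA Γ ≃* RA Γ') := by
  have key : ∀ {ι ι' : Type} {Γ : SimpleGraph ι} {Γ' : SimpleGraph ι'} (e : Γ ≃g Γ'),
      ∀ r ∈ rels Γ, FreeGroup.lift (fun i : ι => (PresentedGroup.of (e i) : RA Γ')) r = 1 := by
    rintro ι ι' Γ Γ' e r ⟨v, w, hvw, rfl⟩
    have h0 : Γ'.Adj (e v) (e w) := e.map_adj_iff.2 hvw
    have h1 : PresentedGroup.mk (rels Γ') (FreeGroup.of (e v) * FreeGroup.of (e w) *
        (FreeGroup.of (e v))⁻¹ * (FreeGroup.of (e w))⁻¹) = 1 :=
      PresentedGroup.one_of_mem ⟨e v, e w, h0, rfl⟩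
    rw [map_mul, map_mul, map_mul, map_inv, map_inv, FreeGroup.lift_apply_of,
      FreeGroup.lift_apply_of]
    rw [map_mul, map_mul, map_mul, map_inv, map_inv] at h1
    exact h1
  refine ⟨MonoidHom.toMulEquiv (PresentedGroup.toGroup (key e)) (PresentedGroup.toGroup
    (key e.symm)) ?_ ?_⟩
  · apply PresentedGroup.ext
    intro i
    rw [MonoidHom.comp_apply, PresentedGroup.toGroup.of, PresentedGroup.toGroup.of]
    show PresentedGroup.of (e.symm (e i)) = _
    rw [e.symm_apply_apply]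
    rfl
  · apply PresentedGroup.ext
    intro i
    rw [MonoidHom.comp_apply, PresentedGroup.toGroup.of, PresentedGroup.toGroup.of]
    show PresentedGroup.of (e (e.symm i)) = _
    rw [e.apply_symm_apply]
    rfl

theorem fo_ind {ι ι' : Type} {Γ : SimpleGraph ι} {Γ' : SimpleGraph ι'} (e : Γ ≃g Γ')
    (h : ((MulAut.conj : RA Γ →* MulAut (RA Γ)).range).FiniteIndex) (s : Set ι')
    (hs : ∀ i, i ∈ s) :
    ((MulAut.conj : RA (Γ'.induce s) →* MulAut (RA (Γ'.induce s))).range).FiniteIndex := by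
  obtain ⟨φ⟩ := ra_iso e
  have h1 : s = Set.univ := Set.eq_univ_of_forall hs
  subst h1
  obtain ⟨ψ⟩ := ra_iso (SimpleGraph.induceUnivIso Γ')
  exact fo_iso (φ.trans ψ.symm) h

theorem fo_empty {ι : Type} {Γ : SimpleGraph ι} (s : Set ι) (hs : ∀ i, i ∉ s) :
    ((MulAut.conj : RA (Γ.induce s) →* MulAut (RA (Γ.induce s))).range).FiniteIndex := by
  have h1 : IsEmpty s := ⟨fun i => hs i.1 i.2⟩
  have h2 : ∀ x : RA (Γ.induce s), x = 1 := by
    intro x
    obtain ⟨y, rfl⟩ := PresentedGroup.mk_surjective _ x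
    have h3 : y = 1 := Subsingleton.elim _ _
    rw [h3, map_one]
  have h4 : ((MulAut.conj : RA (Γ.induce s) →* MulAut (RA (Γ.induce s))).range) = ⊤ := by
    rw [eq_top_iff]
    intro a _
    refine ⟨1, ?_⟩
    ext x
    rw [h2 x, map_one, map_one]
  rw [h4]
  infer_instance

/-- groups commensurable with star-rigid right-angled Artin groups with finite outer automorphism
group act on labelled median graphs -/
theorem comm_mlat {ι : Type} [Finite ι] (Γ : SimpleGraph ι) (h2 : ∃ a b : ι, a ≠ b)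
    (hO : ((MulAut.conj : RA Γ →* MulAut (RA Γ)).range).FiniteIndex) (hs : SRig Γ) {G : Type}
    [Group G] (K : Subgroup G) (K' : Subgroup (RA Γ)) (hK : K.FiniteIndex)
    (hK' : K'.FiniteIndex) (e : K ≃* K') :
    ∃ (ι' P : Type) (_ : Finite ι') (_ : MulAction G P) (_ : MulAction G ι')
      (Γ' : SimpleGraph ι') (X : SimpleGraph P) (lab : P → P → ι') (N : P → ι' → Prop),
      MLat G Γ' X lab N ∧ (∀ i, ¬ CL Γ' i) ∧ Nonempty (Γ ≃g Γ') := by
  have hd := noDom_of_out hO
  have hG : GG Γ := ⟨fun v w hvw _ => hd v w hvw, noSep_of_out hO, ⟨h2.choose⟩⟩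
  obtain ⟨ι', Pt, V, i0, a1, a2, a3, Γ', κ, S, co, N, hP, hM, hG', hcl, hp, hf, he⟩ :=
    comm_vlat0 Γ hG (nodom_cl hd h2) hs K K' hK hK' e
  obtain ⟨i1⟩ := hG'.ne
  exact ⟨ι', Pt, Finite.of_fintype ι', a1, a3, Γ', uX (comp κ S) co, ul co i1, N,
    ux_mlat ⟨hP, hM, hG', hp, hf⟩ (fun i hi => absurd hi (hcl i)) i1, hcl, he⟩

end VTB
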