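import Pool.Agent.Lib.MP_32d917_al_vt.MDefs

/-!
# M01: median graphs: bipartite, quadrangles

`mg_bip`: `y z` adjacent: the distances of `x` to `y` and `z` differ by 1: the median `m` of `x, y, z` is between `y` and `z`, so `m = y` or `m = z`. `mg_next`: a neighbour of `x` between `x` and `y` (first vertex of a shortest walk).
`mg_quad`: `u ≠ v` neighbours of `y`, both between `y` and `x`: a vertex `m` adjacent to `u` and `v`, at distance `dist x y - 2` of `x`: `dist u v = 2` (not adjacent by `mg_bip`); the median `m` of `x, u, v`: `dist x m + dist m u = dist x u = dist x v = dist x m + dist m v`, and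
`dist u m + dist m v = 2`, so both are 1. `gr_bt_trans` etc.: betweenness in connected graphs (triangle inequality).
-/

set_option autoImplicit false

namespace VTB

open LatIso LatN LatF RaagIso

section

variable {P : Type} {X : SimpleGraph P}

theorem gr_symm {x m y : P} (h : Bt X x m y) : Bt X y m x := by
  unfold Bt at *
  rw [X.dist_comm (u := y) (v := m), X.dist_comm (u := m) (v := x), X.dist_comm (u := y) (v := x)]
  omega

/-- `x n m`, `x m y` give `x n y` and `n m y` -/
theorem gr_cat (hc : X.Connected) {x n m y : P} (h1 : Bt X x n m) (h2 : Bt X x m y) :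
    Bt X x n y ∧ Bt X n m y := by
  unfold Bt at *
  have e1 := hc.dist_triangle (u := x) (v := n) (w := y)
  have e2 := hc.dist_triangle (u := n) (v := m) (w := y)
  constructor <;> omega

/-- the other half: `x m y`, `m n y` give `x n y` and `x m n` -/
theorem gr_cat' (hc : X.Connected) {x n m y : P} (h1 : Bt X x m y) (h2 : Bt X m n y) :
    Bt X x n y ∧ Bt X x m n := by
  unfold Bt at *
  have e1 := hc.dist_triangle (u := x) (v := n) (w := y)
  have e2 := hc.dist_triangle (u := x) (v := m) (w := n)
  constructor <;> omega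

theorem gr_next (hc : X.Connected) {x y : P} (h : x ≠ y) : ∃ u, X.Adj x u ∧ Bt X x u y := by
  obtain ⟨w, hw⟩ := hc.exists_walk_length_eq_dist x y
  cases w with
  | nil => exact absurd rfl h
  | cons ha w' =>
    rename_i u
    refine ⟨u, ha, ?_⟩
    unfold Bt
    have e1 : X.dist u y ≤ w'.length := SimpleGraph.dist_le w'
    have e2 : X.dist x u ≤ 1 := by
      have := SimpleGraph.dist_le ha.toWalk
      simpa using this
    have e3 := hc.dist_triangle (u := x) (v := u) (w := y)
    simp only [SimpleGraph.Walk.length_cons] at hw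
    omega

theorem gr_adj_dist {x y : P} (h : X.Adj x y) : X.dist x y = 1 :=
  SimpleGraph.dist_eq_one_iff_adj.mpr h

theorem gr_dist_adj {x y : P} (h : X.dist x y = 1) : X.Adj x y :=
  SimpleGraph.dist_eq_one_iff_adj.mp h

variable (hc : X.Connected) (hm : ∀ x y z, ∃! m, Bt X x m y ∧ Bt X y m z ∧ Bt X x m z)

include hc hm

/-- adjacent vertices: one of them is between the other and `x` -/
theorem mg_bip {x y z : P} (h : X.Adj y z) : Bt X y z x ∨ Bt X z y x := by
  obtain ⟨m, ⟨h1, h2, h3⟩, -⟩ := hm x y z
  have e1 := gr_adj_dist h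
  have e2 : X.dist y m + X.dist m z = X.dist y z := h2
  rcases Nat.eq_zero_or_pos (X.dist y m) with h0 | h0
  · have e : y = m := (hc.dist_eq_zero_iff).mp h0
    subst e
    exact Or.inr (gr_symm h3)
  · have h0' : X.dist m z = 0 := by omega
    have e : m = z := (hc.dist_eq_zero_iff).mp h0'
    subst e
    exact Or.inl (gr_symm h1)

theorem mg_quad {x y u v : P} (hu : X.Adj y u) (hv : X.Adj y v) (huv : u ≠ v)
    (h1 : Bt X y u x) (h2 : Bt X y v x) :
    ∃ m, X.Adj u m ∧ X.Adj v m ∧ Bt X u m x ∧ Bt X v m x ∧ m ≠ y := by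
  obtain ⟨m, ⟨k1, k2, k3⟩, -⟩ := hm x u v
  have e1 := gr_adj_dist hu
  have e2 := gr_adj_dist hv
  have a1 : X.dist y u + X.dist u x = X.dist y x := h1
  have a2 : X.dist y v + X.dist v x = X.dist y x := h2
  have b1 : X.dist x m + X.dist m u = X.dist x u := k1
  have b2 : X.dist u m + X.dist m v = X.dist u v := k2
  have b3 : X.dist x m + X.dist m v = X.dist x v := k3
  have c1 : X.dist x u = X.dist u x := X.dist_comm
  have c2 : X.dist x v = X.dist v x := X.dist_comm
  have c3 : X.dist m u = X.dist u m := X.dist_comm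
  have c4 : X.dist y u = X.dist u y := X.dist_comm
  have c5 : X.dist m v = X.dist v m := X.dist_comm
  have c6 : X.dist x m = X.dist m x := X.dist_comm
  have t1 := hc.dist_triangle (u := u) (v := y) (w := v)
  have hpos : X.dist u v ≠ 0 := fun h0 => huv ((hc.dist_eq_zero_iff).mp h0)
  have n1 : X.dist u m = 1 := by omega
  have n2 : X.dist v m = 1 := by omega
  refine ⟨m, gr_dist_adj n1, gr_dist_adj n2, gr_symm k1, gr_symm k3, ?_⟩
  rintro rfl
  omega

end

end VTB
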