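import Pool.Agent.Lib.MP_32d917_al_vt.M01

/-!
# M02: the number of edges of a label on geodesics

`cnt_exists`: define by recursion on `n = dist x y` relations or counts: for a list of vertices (walk) count the edges of label `i`; show that two shortest walks from `x` to `y` have the same count, by induction on the length: if the first vertices `u`, `v` after `x` are equal, induction; otherwise
`mg_quad` gives `m` adjacent to `u`, `v`, between them and `y`; by induction the count of a shortest walk from `u` to `y` is that of `u, m, ...`, the same for `v`; the walks `x, u, m, ...`, `x, v, m, ...` have the same count because `lab v m = lab x u`, `lab u m = lab x v` (`par`, `x ≠ m`).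
So `ℓ i x y` := the count of some shortest walk satisfies `one` and `non` (prefix a shortest walk from `u` to `y` by `x`: it is shortest since `Bt X x u y`).
-/

set_option autoImplicit false

namespace VTB

open LatIso LatN LatF RaagIso

section

variable {ι P : Type} {Γ : SimpleGraph ι} {X : SimpleGraph P} {lab : P → P → ι}
  {N : P → ι → Prop}

open scoped Classical in
private noncomputable def M02_ind (a i : ι) : ℕ := if a = i then 1 else 0

/-- some geodesic from the second to the first vertex has the given number of edges of label `i` -/
private inductive M02_C (X : SimpleGraph P) (lab : P → P → ι) (i : ι) (y : P) : P → ℕ → Prop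
  | nil : M02_C X lab i y y 0
  | step (x u : P) (k : ℕ) : X.Adj x u → Bt X x u y → M02_C X lab i y u k →
      M02_C X lab i y x (k + M02_ind (lab x u) i)

private theorem M02_lt {x u y : P} (h : X.Adj x u) (hb : Bt X x u y) : X.dist u y < X.dist x y := by
  have h1 := gr_adj_dist h
  unfold Bt at hb
  omega

private theorem M02_ex (M : LMG Γ X lab N) (i : ι) (y x : P) : ∃ k, M02_C X lab i y x k := by
  obtain ⟨n, hn⟩ : ∃ n, X.dist x y = n := ⟨_, rfl⟩
  induction n using Nat.strong_induction_on generalizing x with
  | _ n ih =>
    by_cases hxy : x = y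
    · subst hxy
      exact ⟨0, M02_C.nil⟩
    · obtain ⟨u, hu, hb⟩ := gr_next M.conn hxy
      obtain ⟨k, hk⟩ := ih _ (hn ▸ M02_lt hu hb) u rfl
      exact ⟨_, M02_C.step x u k hu hb hk⟩

private theorem M02_un (M : LMG Γ X lab N) (i : ι) (y x : P) (k k' : ℕ)
    (h : M02_C X lab i y x k) (h' : M02_C X lab i y x k') : k = k' := by
  obtain ⟨n, hn⟩ : ∃ n, X.dist x y = n := ⟨_, rfl⟩
  induction n using Nat.strong_induction_on generalizing x k k' with
  | _ n ih =>
    cases h with
    | nil =>
      cases h' with
      | nil => rfl
      | step _ u k hu hb hc =>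
        exfalso
        have := M02_lt hu hb
        rw [SimpleGraph.dist_self] at this
        omega
    | step _ u k hu hb hc =>
      cases h' with
      | nil =>
        exfalso
        have := M02_lt hu hb
        rw [SimpleGraph.dist_self] at this
        omega
      | step _ v k' hv hb' hc' =>
        by_cases huv : u = v
        · subst huv
          rw [ih _ (hn ▸ M02_lt hu hb) u k k' hc hc' rfl]
        · obtain ⟨m, hm1, hm2, hm3, hm4, hm5⟩ := mg_quad M.conn M.med hu hv huv hb hb'
          obtain ⟨j, hj⟩ := M02_ex M i y m
          have e1 := ih _ (hn ▸ M02_lt hu hb) u _ _ hc (M02_C.step u m j hm1 hm3 hj) rfl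
          have e2 := ih _ (hn ▸ M02_lt hv hb') v _ _ hc' (M02_C.step v m j hm2 hm4 hj) rfl
          have f1 := M.par x u v m hu hv hm1 hm2 huv (fun h => hm5 h.symm)
          have f2 := M.par x v u m hv hu hm2 hm1 (fun h => huv h.symm) (fun h => hm5 h.symm)
          rw [e1, e2, f1, f2]
          omega

theorem cnt_exists (M : LMG Γ X lab N) : ∃ ℓ : ι → P → P → ℕ, Cnt X lab ℓ := by
  choose ℓ hℓ using fun (i : ι) (y x : P) => M02_ex M i y x
  refine ⟨fun i x y => ℓ i y x, ?_, ?_, ?_⟩
  · intro i x
    exact M02_un M i x x _ _ (hℓ i x x) M02_C.nil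
  · intro i x u y hu hb hi
    refine (M02_un M i y x _ _ (hℓ i y x) (M02_C.step x u _ hu hb (hℓ i y u))).trans ?_
    rw [M02_ind, if_pos hi]
  · intro i x u y hu hb hi
    refine (M02_un M i y x _ _ (hℓ i y x) (M02_C.step x u _ hu hb (hℓ i y u))).trans ?_
    rw [M02_ind, if_neg hi, Nat.add_zero]

end

end VTB
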