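import Pool.Agent.Lib.MP_32d917_al_vt.M01

/-!
# M03: properties of the counts

`cnt_add`: induction on `dist x m`: if `x ≠ m`, first step `u` from `x` to `m` (`gr_next`), `Bt X x u y`, `Bt X u m y` (`gr_cat`); `one` / `non` for both `x m` and `x y`. `cnt_adj`: one step (`Bt X x y y`). `cnt_symm`: induction on `dist x y`, `cnt_add` for the first step `x u`, and for
`Bt X y u x`; `cnt_adj`, `symm`. `cnt_tri`: median `m` of `x, y, z`, `cnt_add`. `cnt_zero`: if `x ≠ y` the label `i` of the first step has `ℓ i x y > 0`. `cnt_pos`: `ℓ i x y > 0`: there is an edge `a b` of label `i` with `Bt X x a y`, `Bt X a b y`, `ℓ i x a = 0` (first edge of label `i`;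
induction on the distance). `cnt_one`: if `ℓ j x y = 0` for `j ≠ i` and `ℓ i x y = 1` then `x y` are adjacent and `lab x y = i` (the first step has label `i`, after it all counts are 0).
-/

set_option autoImplicit false

namespace VTB

open LatIso LatN LatF RaagIso

section

variable {ι P : Type} {Γ : SimpleGraph ι} {X : SimpleGraph P} {lab : P → P → ι}
  {N : P → ι → Prop} {ℓ : ι → P → P → ℕ}

private theorem m03_self (x y : P) : Bt X x x y := by
  unfold Bt
  rw [SimpleGraph.dist_self, zero_add]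

theorem cnt_add (M : LMG Γ X lab N) (C : Cnt X lab ℓ) {i : ι} {x m y : P} (h : Bt X x m y) :
    ℓ i x y = ℓ i x m + ℓ i m y := by
  obtain ⟨n, hn⟩ : ∃ n, X.dist x m = n := ⟨_, rfl⟩
  induction n generalizing x with
  | zero =>
    have e : x = m := M.conn.dist_eq_zero_iff.1 hn
    subst e
    rw [C.zero, zero_add]
  | succ n ih =>
    have hne : x ≠ m := by
      rintro rfl
      rw [SimpleGraph.dist_self] at hn
      omega
    obtain ⟨u, hu, hb⟩ := gr_next M.conn hne
    obtain ⟨h1, h2⟩ := gr_cat M.conn hb h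
    have hd := gr_adj_dist hu
    have h3 : X.dist u m = n := by
      unfold Bt at hb
      omega
    have h4 := ih h2 h3
    by_cases hl : lab x u = i
    · rw [C.one i x u y hu h1 hl, C.one i x u m hu hb hl]
      omega
    · rw [C.non i x u y hu h1 hl, C.non i x u m hu hb hl]
      exact h4

theorem cnt_adj (M : LMG Γ X lab N) (C : Cnt X lab ℓ) {x y : P} (h : X.Adj x y) :
    ℓ (lab x y) x y = 1 ∧ ∀ i, i ≠ lab x y → ℓ i x y = 0 := by
  have hb : Bt X x y y := by
    unfold Bt
    rw [SimpleGraph.dist_self, add_zero]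
  refine ⟨?_, fun i hi => ?_⟩
  · rw [C.one _ x y y h hb rfl, C.zero]
  · rw [C.non i x y y h hb (fun e => hi e.symm), C.zero]

theorem cnt_symm (M : LMG Γ X lab N) (C : Cnt X lab ℓ) (i : ι) (x y : P) :
    ℓ i x y = ℓ i y x := by
  obtain ⟨n, hn⟩ : ∃ n, X.dist x y = n := ⟨_, rfl⟩
  induction n generalizing x with
  | zero =>
    have e : x = y := M.conn.dist_eq_zero_iff.1 hn
    subst e
    rfl
  | succ n ih =>
    have hne : x ≠ y := by
      rintro rfl
      rw [SimpleGraph.dist_self] at hn
      omega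
    obtain ⟨u, hu, hb⟩ := gr_next M.conn hne
    have hd := gr_adj_dist hu
    have h3 : X.dist u y = n := by
      unfold Bt at hb
      omega
    rw [cnt_add M C hb, cnt_add M C (gr_symm hb), ih u h3]
    have h4 : ℓ i x u = ℓ i u x := by
      obtain ⟨a1, a2⟩ := cnt_adj M C hu
      obtain ⟨b1, b2⟩ := cnt_adj M C hu.symm
      have hs := M.symm x u hu
      by_cases hi : i = lab x u
      · subst hi
        rw [a1, ← hs, b1]
      · rw [a2 i hi, b2 i (by rw [hs]; exact hi)]
    omega

theorem cnt_tri (M : LMG Γ X lab N) (C : Cnt X lab ℓ) (i : ι) (x y z : P) :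
    ℓ i x z ≤ ℓ i x y + ℓ i y z := by
  obtain ⟨m, ⟨h1, h2, h3⟩, _⟩ := M.med x y z
  rw [cnt_add M C h1, cnt_add M C h2, cnt_add M C h3]
  omega

theorem cnt_zero (M : LMG Γ X lab N) (C : Cnt X lab ℓ) {x y : P} (h : ∀ i, ℓ i x y = 0) :
    x = y := by
  by_contra hne
  obtain ⟨u, hu, hb⟩ := gr_next M.conn hne
  have h1 := C.one (lab x u) x u y hu hb rfl
  rw [h] at h1
  omega

theorem cnt_pos (M : LMG Γ X lab N) (C : Cnt X lab ℓ) {i : ι} {x y : P} (h : 0 < ℓ i x y) :
    ∃ a b, X.Adj a b ∧ lab a b = i ∧ Bt X x a y ∧ Bt X a b y ∧ ℓ i x a = 0 := by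
  obtain ⟨n, hn⟩ : ∃ n, X.dist x y = n := ⟨_, rfl⟩
  induction n generalizing x with
  | zero =>
    have e : x = y := M.conn.dist_eq_zero_iff.1 hn
    subst e
    rw [C.zero] at h
    omega
  | succ n ih =>
    have hne : x ≠ y := by
      rintro rfl
      rw [SimpleGraph.dist_self] at hn
      omega
    obtain ⟨u, hu, hb⟩ := gr_next M.conn hne
    have hd := gr_adj_dist hu
    have h3 : X.dist u y = n := by
      unfold Bt at hb
      omega
    by_cases hl : lab x u = i
    · exact ⟨x, u, hu, hl, m03_self x y, hb, C.zero i x⟩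
    · have h4 := C.non i x u y hu hb hl
      rw [h4] at h
      obtain ⟨a, b, k1, k2, k3, k4, k5⟩ := ih h h3
      obtain ⟨k6, k7⟩ := gr_cat' M.conn hb k3
      refine ⟨a, b, k1, k2, k6, k4, ?_⟩
      rw [cnt_add M C k7, k5, (cnt_adj M C hu).2 i (fun e => hl e.symm)]

theorem cnt_one (M : LMG Γ X lab N) (C : Cnt X lab ℓ) {i : ι} {x y : P}
    (h : ∀ j, j ≠ i → ℓ j x y = 0) (h1 : ℓ i x y = 1) : X.Adj x y ∧ lab x y = i := by
  have hne : x ≠ y := by
    rintro rfl
    rw [C.zero] at h1
    omega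
  obtain ⟨u, hu, hb⟩ := gr_next M.conn hne
  have hl : lab x u = i := by
    by_contra hl
    have h2 := C.one (lab x u) x u y hu hb rfl
    rw [h _ hl] at h2
    omega
  have h2 : u = y := by
    refine cnt_zero M C fun j => ?_
    by_cases hj : j = i
    · subst hj
      have h3 := C.one j x u y hu hb hl
      omega
    · rw [← C.non j x u y hu hb (by rw [hl]; exact fun e => hj e.symm), h j hj]
  subst h2
  exact ⟨hu, hl⟩

/-- points with `ℓ i x y = 0` are connected by edges of labels `≠ i`; counts do not change in classes -/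
theorem cnt_congr (M : LMG Γ X lab N) (C : Cnt X lab ℓ) {i : ι} {x x' y y' : P}
    (h : ℓ i x x' = 0) (h' : ℓ i y y' = 0) : ℓ i x y = ℓ i x' y' := by
  have a1 := cnt_tri M C i x x' y
  have a2 := cnt_tri M C i x' y' y
  have a3 := cnt_tri M C i x' x y'
  have a4 := cnt_tri M C i x y y'
  have b1 := cnt_symm M C i x x'
  have b2 := cnt_symm M C i y y'
  omega

end

end VTB
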