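import Pool.Agent.Lib.MP_32d917_al_vt.M03

/-!
# M04: hyperplanes with the same label do not cross

`cnt_uniq`: `m`, `m'` between `p` and `e`, `ℓ i p m = 1 = ℓ i p m'`: then `ℓ i m m' = 0`. Strong induction on `dist p e` (for all `p, m, m'`). `p ≠ m`; let `q` be a first vertex from `p` to `m` (`gr_next`), `j = lab p q`; `Bt X p q e`.
Case `j ≠ i`: `ℓ i q m = 1`, `Bt X q m e`. Let `m''` be the median of `q, m', e`. Claim: `ℓ i q m'' = 1`, `ℓ i m' m'' = 0`. If `Bt X p q m'`: `m'` is a median of `q, m', e` (`Bt X q m' e` by `gr_cat`), so `m'' = m'` by uniqueness, `ℓ i q m' = 1`. Otherwise `Bt X q p m'` (`mg_bip`), so by `cnt_add`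
`ℓ i q m' = ℓ i q p + ℓ i p m' = 1`, `ℓ i q m'' + ℓ i m'' m' = 1`; and `Bt X p q e`, `Bt X q m'' e` give `ℓ i p e = 0 + ℓ i q m'' + ℓ i m'' e`, `Bt X p m' e`, `Bt X m' m'' e` give `ℓ i p e = 1 + ℓ i m' m'' + ℓ i m'' e`. Hence `ℓ i q m'' = 1`, `ℓ i m' m'' = 0`. By induction for `q` (`dist q e < dist p e`)
`ℓ i m m'' = 0`, so `ℓ i m m' = 0` (`cnt_tri`).
Case `j = i`: then `ℓ i q m = 0`; it suffices to treat `m = q` (`cnt_tri`), adjacent to `p`, with label `i`. The same for `m'`: first vertex `q'`: if its label is not `i`, the first case with the roles exchanged; otherwise `m' = q'` adjacent, label `i`. If `q = q'` done. If `q ≠ q'`, `mg_quad` gives a square at `p` with two edges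
of label `i`, so `Γ.Adj i i` by `sq`, impossible.
`cnt_parent`: median `m` of `e, x, y`: `ℓ i e y = ℓ i e m + ℓ i m y`, `ℓ i e x = ℓ i e m + ℓ i m x`, `ℓ i x m + ℓ i m y = 1` give `ℓ i m y = 0`, `ℓ i x m = 1`, `Bt X x m e`; the same for `y'` with `m'`; `cnt_uniq` for `p = x`. `cnt_bip`: the same median: one of `ℓ i x m`, `ℓ i m y` is 0.
-/

set_option autoImplicit false

namespace VTB

open LatIso LatN LatF RaagIso

section

variable {ι P : Type} {Γ : SimpleGraph ι} {X : SimpleGraph P} {lab : P → P → ι}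
  {N : P → ι → Prop} {ℓ : ι → P → P → ℕ}

/-- the case where the first edge towards `m` has another label -/
private theorem M04_step (M : LMG Γ X lab N) (C : Cnt X lab ℓ) {i : ι} {p e m m' q : P}
    (ih : ∀ m m' : P, Bt X q m e → Bt X q m' e → ℓ i q m = 1 → ℓ i q m' = 1 → ℓ i m m' = 0)
    (hpq : X.Adj p q) (hq : Bt X p q m) (hl : lab p q ≠ i)
    (h : Bt X p m e) (h' : Bt X p m' e) (h1 : ℓ i p m = 1) (h1' : ℓ i p m' = 1) :
    ℓ i m m' = 0 := by
  obtain ⟨b1, b2⟩ := gr_cat M.conn hq h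
  have l1 : ℓ i q m = 1 := by
    rw [← C.non i p q m hpq hq hl]
    exact h1
  have l2 : ℓ i q m' = 1 := by
    rcases mg_bip M.conn M.med (x := m') hpq with h2 | h2
    · rw [← C.non i p q m' hpq h2 hl]
      exact h1'
    · have h3 := cnt_add M C (i := i) h2
      have h4 := (cnt_adj M C hpq.symm).2 i (by rw [M.symm p q hpq]; exact hl.symm)
      omega
  obtain ⟨m2, ⟨c1, c2, c3⟩, _⟩ := M.med q m' e
  have a1 := cnt_add M C (i := i) c1
  have a2 := cnt_add M C (i := i) c2
  have a3 := cnt_add M C (i := i) c3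
  have a4 := cnt_add M C (i := i) b1
  have a5 := cnt_add M C (i := i) h'
  have a6 := (cnt_adj M C hpq).2 i hl.symm
  have a7 := cnt_symm M C i m' m2
  have a8 := ih m m2 b2 c3 l1 (by omega)
  have a9 := cnt_tri M C i m m2 m'
  omega

theorem cnt_uniq (M : LMG Γ X lab N) (C : Cnt X lab ℓ) {i : ι} {p e m m' : P}
    (h : Bt X p m e) (h' : Bt X p m' e) (h1 : ℓ i p m = 1) (h1' : ℓ i p m' = 1) :
    ℓ i m m' = 0 := by
  have key : ∀ n : ℕ, ∀ p m m' : P, X.dist p e = n → Bt X p m e → Bt X p m' e → ℓ i p m = 1 →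
      ℓ i p m' = 1 → ℓ i m m' = 0 := by
    intro n
    induction n using Nat.strong_induction_on with
    | _ n ih =>
      intro p m m' hn h h' h1 h1'
      have hih : ∀ q, X.Adj p q → Bt X p q e → ∀ m m' : P, Bt X q m e → Bt X q m' e →
          ℓ i q m = 1 → ℓ i q m' = 1 → ℓ i m m' = 0 := by
        intro q hq hq2 m m'
        refine ih (X.dist q e) ?_ q m m' rfl
        have h2 := gr_adj_dist hq
        unfold Bt at hq2
        omega
      have hpm : p ≠ m := by
        rintro rfl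
        rw [C.zero] at h1
        omega
      have hpm' : p ≠ m' := by
        rintro rfl
        rw [C.zero] at h1'
        omega
      obtain ⟨q, hq1, hq2⟩ := gr_next M.conn hpm
      obtain ⟨q', hq1', hq2'⟩ := gr_next M.conn hpm'
      have e1 := (gr_cat M.conn hq2 h).1
      have e1' := (gr_cat M.conn hq2' h').1
      by_cases hl : lab p q = i
      · by_cases hl' : lab p q' = i
        · have l1 := C.one i p q m hq1 hq2 hl
          have l2 := C.one i p q' m' hq1' hq2' hl'
          by_cases hqq : q = q'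
          · subst hqq
            have l3 := cnt_symm M C i m q
            have l4 := cnt_tri M C i m q m'
            omega
          · exfalso
            obtain ⟨w, hw1, hw2, _, _, hw3⟩ := mg_quad M.conn M.med hq1 hq1' hqq e1 e1'
            have h2 := (M.sq p q q' hq1 hq1' hqq).1 ⟨w, hw3, hw1, hw2⟩
            rw [hl, hl'] at h2
            exact h2.ne rfl
        · rw [cnt_symm M C i m m']
          exact M04_step M C (hih q' hq1' e1') hq1' hq2' hl' h' h h1' h1
      · exact M04_step M C (hih q hq1 e1) hq1 hq2 hl h h' h1 h1'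
  exact key _ p m m' rfl h h' h1 h1'

/-- parents are unique: `y`, `y'` at `i`-distance 1 of `x` and closer to `e` -/
theorem cnt_parent (M : LMG Γ X lab N) (C : Cnt X lab ℓ) {i : ι} {e x y y' : P}
    (h : ℓ i x y = 1) (h' : ℓ i x y' = 1) (h1 : ℓ i e x = ℓ i e y + 1)
    (h1' : ℓ i e x = ℓ i e y' + 1) : ℓ i y y' = 0 := by
  have aux : ∀ y, ℓ i x y = 1 → ℓ i e x = ℓ i e y + 1 →
      ∃ m, ℓ i m y = 0 ∧ ℓ i x m = 1 ∧ Bt X x m e := by
    intro y h h1
    obtain ⟨m, ⟨c1, c2, c3⟩, _⟩ := M.med e x y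
    have a1 := cnt_add M C (i := i) c1
    have a2 := cnt_add M C (i := i) c2
    have a3 := cnt_add M C (i := i) c3
    have a4 := cnt_symm M C i x m
    exact ⟨m, by omega, by omega, gr_symm c1⟩
  obtain ⟨m, m1, m2, m3⟩ := aux y h h1
  obtain ⟨m', m1', m2', m3'⟩ := aux y' h' h1'
  have a1 := cnt_uniq M C m3 m3' m2 m2'
  have a2 := cnt_symm M C i m y
  have a3 := cnt_tri M C i y m m'
  have a4 := cnt_tri M C i y m' y'
  omega

/-- the `i`-distances to `e` of points at `i`-distance 1 differ by 1 -/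
theorem cnt_bip (M : LMG Γ X lab N) (C : Cnt X lab ℓ) {i : ι} {e x y : P} (h : ℓ i x y = 1) :
    ℓ i e x = ℓ i e y + 1 ∨ ℓ i e y = ℓ i e x + 1 := by
  obtain ⟨m, ⟨c1, c2, c3⟩, _⟩ := M.med e x y
  have a1 := cnt_add M C (i := i) c1
  have a2 := cnt_add M C (i := i) c2
  have a3 := cnt_add M C (i := i) c3
  have a4 := cnt_symm M C i x m
  omega

end

end VTB
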