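import Pool.Agent.Lib.MP_32d917_al_vt.M04

/-!
# M05: the trees of a labelled median graph

`q_eq`: `ℓ i x y = 0` is an equivalence relation (`cnt_symm`, `cnt_tri`). `q_adj`: adjacency in `qS` is `ℓ i x y = 1`: (->) representatives: `cnt_congr`, `cnt_adj`; (<-) `cnt_pos` gives an edge `a b` of label `i` with `ℓ i x a = 0`, `ℓ i x y = 0 + 1 + ℓ i b y`, so `ℓ i b y = 0`.
`q_dist`: `(qS i).dist (qco x i) (qco y i) = ℓ i x y`: `≤`: along the geodesic (induction on `dist x y`); `≥`: a walk of length `n` gives `ℓ i x y ≤ n` (`cnt_tri`).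
`tree_of_uniq`: a connected graph in which adjacent vertices have different distances to `e` and every vertex has at most one neighbour closer to `e` is a tree: in a cycle, a vertex of maximal distance to `e` has two different neighbours closer to `e`
(the distances of adjacent vertices differ by at most 1). (Or: the removal of the edge from `a` to its parent `b`: the set of the vertices whose chain of parents contains `a` is left only by this edge; `subd_acyclic` of SUBD.lean.)
`q_tree`: `tree_of_uniq` with `cnt_bip`, `cnt_parent`. `q_bt`: betweenness.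
-/

set_option autoImplicit false

namespace VTB

open LatIso LatN LatF RaagIso

theorem tree_of_uniq {W : Type} {T : SimpleGraph W} (hc : T.Connected) (e : W)
    (h1 : ∀ a b, T.Adj a b → T.dist e a ≠ T.dist e b)
    (h2 : ∀ a b c, T.Adj a b → T.Adj a c → T.dist e b < T.dist e a → T.dist e c < T.dist e a →
      b = c) : T.IsTree := by
  refine ⟨hc, subd_acyclic T ?_⟩
  have key : ∀ c p, T.Adj c p → T.dist e p < T.dist e c → ∃ P : W → Prop, P c ∧ ¬ P p ∧
      ∀ a' b', T.Adj a' b' → P a' → ¬ P b' → a' = c ∧ b' = p := by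
    intro c p hcp hd
    refine ⟨fun v => Relation.ReflTransGen (fun u w => T.Adj u w ∧ T.dist e w < T.dist e u) v c,
      Relation.ReflTransGen.refl, ?_, ?_⟩
    · have h3 : ∀ v, Relation.ReflTransGen (fun u w => T.Adj u w ∧ T.dist e w < T.dist e u) v c →
          T.dist e c ≤ T.dist e v := by
        intro v hv
        induction hv using Relation.ReflTransGen.head_induction_on with
        | refl => exact le_rfl
        | head h _ ih => exact ih.trans h.2.le
      intro h4
      exact absurd (h3 p h4) (not_le.2 hd)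
    · intro a' b' hab ha hb
      rcases lt_or_gt_of_ne (h1 a' b' hab) with h5 | h5
      · exact absurd (Relation.ReflTransGen.head ⟨hab.symm, h5⟩ ha) hb
      · rcases Relation.ReflTransGen.cases_head ha with h6 | ⟨w, h6, h7⟩
        · refine ⟨h6, ?_⟩
          subst h6
          exact h2 _ _ _ hab hcp h5 hd
        · rw [h2 _ _ _ h6.1 hab h6.2 h5] at h7
          exact absurd h7 hb
  intro a b hab
  rcases lt_or_gt_of_ne (h1 a b hab) with h5 | h5
  · obtain ⟨P, hPb, hPa, hP⟩ := key b a hab.symm h5
    refine ⟨P, Or.inr ⟨hPb, hPa⟩, fun a' b' h6 h7 h8 => ?_⟩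
    obtain ⟨h9, h10⟩ := hP a' b' h6 h7 h8
    rw [h9, h10]
    exact Sym2.eq_swap
  · obtain ⟨P, hPa, hPb, hP⟩ := key a b hab h5
    refine ⟨P, Or.inl ⟨hPa, hPb⟩, fun a' b' h6 h7 h8 => ?_⟩
    obtain ⟨h9, h10⟩ := hP a' b' h6 h7 h8
    rw [h9, h10]

section

variable {ι P : Type} {Γ : SimpleGraph ι} {X : SimpleGraph P} {lab : P → P → ι}
  {N : P → ι → Prop} {ℓ : ι → P → P → ℕ}

theorem q_eq (M : LMG Γ X lab N) (C : Cnt X lab ℓ) {i : ι} {x y : P} :
    qco ℓ x i = qco ℓ y i ↔ ℓ i x y = 0 := by
  have h : Equivalence (fun x y : P => ℓ i x y = 0) := by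
    refine ⟨fun x => C.zero i x, ?_, ?_⟩
    · intro x y h1
      show ℓ i y x = 0
      rw [cnt_symm M C i y x]
      exact h1
    · intro x y z h1 h2
      have h3 := cnt_tri M C i x y z
      show ℓ i x z = 0
      have h1' : ℓ i x y = 0 := h1
      have h2' : ℓ i y z = 0 := h2
      omega
  exact h.quot_mk_eq_iff x y

theorem q_adj (M : LMG Γ X lab N) (C : Cnt X lab ℓ) {i : ι} {x y : P} :
    (qS X lab ℓ i).Adj (qco ℓ x i) (qco ℓ y i) ↔ ℓ i x y = 1 := by
  constructor
  · rintro ⟨_, a, b, ha, hb, hab, h1, _⟩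
    have h2 := (q_eq M C).1 ha
    have h3 := (q_eq M C).1 hb
    have h4 := (cnt_adj M C hab).1
    rw [h1] at h4
    rw [← cnt_congr M C h2 h3]
    exact h4
  · intro h
    obtain ⟨a, b, hab, h1, h2, h3, h4⟩ := cnt_pos M C (i := i) (x := x) (y := y) (by omega)
    have h5 := cnt_add M C (i := i) h2
    have h6 := cnt_add M C (i := i) h3
    have h7 := (cnt_adj M C hab).1
    rw [h1] at h7
    refine ⟨fun h8 => ?_, a, b, (q_eq M C).2 ?_, (q_eq M C).2 (by omega), hab, h1, ?_⟩
    · have h9 := (q_eq M C).1 h8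
      omega
    · rw [cnt_symm M C]
      exact h4
    · rw [M.symm a b hab]
      exact h1

theorem q_conn (M : LMG Γ X lab N) (C : Cnt X lab ℓ) (i : ι) : (qS X lab ℓ i).Connected := by
  have h : ∀ {x y : P} (_ : X.Walk x y), (qS X lab ℓ i).Reachable (qco ℓ x i) (qco ℓ y i) := by
    intro x y p
    induction p with
    | nil => exact SimpleGraph.Reachable.refl _
    | @cons x z y hxz q ih =>
      by_cases hl : lab x z = i
      · have h1 := (cnt_adj M C hxz).1
        rw [hl] at h1
        exact ((q_adj M C).2 h1).reachable.trans ih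
      · rw [(q_eq M C).2 ((cnt_adj M C hxz).2 i (Ne.symm hl))]
        exact ih
  have hne := M.conn.nonempty
  rw [SimpleGraph.connected_iff]
  refine ⟨?_, ⟨qco ℓ (Classical.arbitrary P) i⟩⟩
  intro u v
  induction u using Quot.ind with
  | mk x =>
    induction v using Quot.ind with
    | mk y =>
      obtain ⟨p⟩ := M.conn.preconnected x y
      exact h p

theorem q_dist (M : LMG Γ X lab N) (C : Cnt X lab ℓ) (i : ι) (x y : P) :
    (qS X lab ℓ i).dist (qco ℓ x i) (qco ℓ y i) = ℓ i x y := by
  have hc := q_conn M C i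
  refine le_antisymm ?_ ?_
  · have h : ∀ n x, X.dist x y = n →
        (qS X lab ℓ i).dist (qco ℓ x i) (qco ℓ y i) ≤ ℓ i x y := by
      intro n
      induction n with
      | zero =>
        intro x hx
        have hxy : x = y := (M.conn.dist_eq_zero_iff).1 hx
        rw [hxy, SimpleGraph.dist_self]
        exact Nat.zero_le _
      | succ n ih =>
        intro x hx
        have hne : x ≠ y := by
          intro h0
          rw [h0, SimpleGraph.dist_self] at hx
          omega
        obtain ⟨u, hu, hb⟩ := gr_next M.conn hne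
        have h1 : X.dist x u + X.dist u y = X.dist x y := hb
        rw [gr_adj_dist hu] at h1
        have h2 := ih u (by omega)
        by_cases hl : lab x u = i
        · have h3 := C.one i x u y hu hb hl
          have h4 := (cnt_adj M C hu).1
          rw [hl] at h4
          have h5 := gr_adj_dist ((q_adj M C).2 h4)
          have h6 := hc.dist_triangle (u := qco ℓ x i) (v := qco ℓ u i) (w := qco ℓ y i)
          omega
        · rw [(q_eq M C).2 ((cnt_adj M C hu).2 i (Ne.symm hl)), C.non i x u y hu hb hl]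
          exact h2
    exact h _ x rfl
  · have h : ∀ {u v : VQ ℓ i} (p : (qS X lab ℓ i).Walk u v) (x y : P), qco ℓ x i = u →
        qco ℓ y i = v → ℓ i x y ≤ p.length := by
      intro u v p
      induction p with
      | nil =>
        intro x y hx hy
        rw [(q_eq M C).1 (hx.trans hy.symm)]
        exact Nat.zero_le _
      | @cons u w v huw q ih =>
        intro x y hx hy
        obtain ⟨z, hz⟩ := Quot.exists_rep w
        have hz' : qco ℓ z i = w := hz
        have h1 := ih z y hz' hy
        rw [← hx, ← hz'] at huw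
        have h2 := (q_adj M C).1 huw
        have h3 := cnt_tri M C i x z y
        rw [SimpleGraph.Walk.length_cons]
        omega
    obtain ⟨p, hp⟩ := hc.exists_walk_length_eq_dist (qco ℓ x i) (qco ℓ y i)
    rw [← hp]
    exact h p x y rfl rfl

theorem q_tree (M : LMG Γ X lab N) (C : Cnt X lab ℓ) (i : ι) : (qS X lab ℓ i).IsTree := by
  have hne := M.conn.nonempty
  have e : P := Classical.arbitrary P
  refine tree_of_uniq (q_conn M C i) (qco ℓ e i) ?_ ?_
  · intro a b hab
    obtain ⟨x, hx⟩ := Quot.exists_rep a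
    obtain ⟨y, hy⟩ := Quot.exists_rep b
    have hx' : qco ℓ x i = a := hx
    have hy' : qco ℓ y i = b := hy
    rw [← hx', ← hy'] at hab ⊢
    rw [q_dist M C, q_dist M C]
    have h1 := (q_adj M C).1 hab
    rcases cnt_bip M C (e := e) h1 with h2 | h2 <;> omega
  · intro a b c hab hac hb hc
    obtain ⟨x, hx⟩ := Quot.exists_rep a
    obtain ⟨y, hy⟩ := Quot.exists_rep b
    obtain ⟨z, hz⟩ := Quot.exists_rep c
    have hx' : qco ℓ x i = a := hx
    have hy' : qco ℓ y i = b := hy
    have hz' : qco ℓ z i = c := hz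
    rw [← hx', ← hy'] at hab hb
    rw [← hx', ← hz'] at hac hc
    rw [← hy', ← hz']
    rw [q_dist M C, q_dist M C] at hb hc
    have h1 := (q_adj M C).1 hab
    have h1' := (q_adj M C).1 hac
    refine (q_eq M C).2 (cnt_parent M C (e := e) h1 h1' ?_ ?_)
    · rcases cnt_bip M C (e := e) h1 with h2 | h2 <;> omega
    · rcases cnt_bip M C (e := e) h1' with h2 | h2 <;> omega

theorem q_bt (M : LMG Γ X lab N) (C : Cnt X lab ℓ) {i : ι} {x m y : P} (h : Bt X x m y) :
    Bt (qS X lab ℓ i) (qco ℓ x i) (qco ℓ m i) (qco ℓ y i) := by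
  unfold Bt
  rw [q_dist M C, q_dist M C, q_dist M C]
  exact (cnt_add M C h).symm

/-- steps are edges -/
theorem q_vst (M : LMG Γ X lab N) (C : Cnt X lab ℓ) {i : ι} {x y : P} :
    VSt (qS X lab ℓ) (qco ℓ) i x y ↔ X.Adj x y ∧ lab x y = i := by
  constructor
  · rintro ⟨h1, h2⟩
    refine cnt_one M C (fun j hj => ?_) ((q_adj M C).1 h1)
    rw [cnt_symm M C]
    exact (q_eq M C).1 (h2 j hj)
  · rintro ⟨h1, h2⟩
    have h3 := cnt_adj M C h1
    rw [h2] at h3
    refine ⟨(q_adj M C).2 h3.1, fun j hj => ?_⟩
    exact ((q_eq M C).2 (h3.2 j hj)).symm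

end

end VTB
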