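import Pool.Agent.Lib.MP_32d917_al_vt.VDefs
import Pool.Agent.Lib.MP_32d917_al.LEMF
import Pool.Agent.Lib.MP_32d917_al.TL1B
import Pool.Agent.Lib.MP_32d917_al.TL2

/-!
# T01: subgroups with two independent axes

`t31` (3.1): `a, b ∈ A` with `CC a ∩ CC b` finite. `lemF` with `k = a`, `C = CC b`: some `n > 0` with `a^n • x ∉ CC b` for `x ∈ CC b`; so the axis `a^n CC b` of `b' = a^n * b * a^-n` is disjoint from `CC b`, and `CC a ∩ CC b' = a^n (CC a ∩ CC b)` is finite. If `CC c` had infinite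
intersection with the three axes of `a`, `b`, `b'` then `three_lines` (with `g = c`) would give two of them with infinite intersection.
`t32` (3.2): `a, b` replaced by their squares (`cc_pow`, `tl_pow`) are in `B`. With `n` as before (`CC b ∩ a^n CC b = ∅`): `g₁ = b * a^n * b⁻¹ * a^-n` is the product of `b` and `a^n b⁻¹ a^-n`, hyperbolic with disjoint axes, so `g₁` is hyperbolic (`tl2_disj` for two closest points,
`tl2_closest`); it is a commutator of `b` and `a^n`. By `t31` (for `c = g₁`) there is `c ∈ A` hyperbolic with `CC c ∩ CC g₁` finite, replace `c` by `c^2 ∈ B`; `lemF` (`k = c`, `C = CC g₁`) gives `m` with `c^m CC g₁ ∩ CC g₁ = ∅`; `g₂ = c^m * g₁ * c^-m`, the axis of `g₂` is `c^m CC g₁`; it is in the commutator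
subgroup of `B` since this is normal in `B`.
`gen_powLe`: powers have the same axes (`cc_pow`).
-/

set_option autoImplicit false

namespace VTB

open LatIso LatN LatF
open scoped commutatorElement

section

variable {H W : Type} [Group H] [MulAction H W] {U : SimpleGraph W}

/-- a power of `a` moves the axis of `b` off itself -/
private theorem T01_push (hU : TA H U) {a b : H} (ha : 0 < tl U a)
    (hf : (CC U a ∩ CC U b).Finite) : ∃ n : ℕ, 0 < n ∧ ∀ x ∈ CC U b, a ^ n • x ∉ CC U b := by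
  refine lemF hU a ha (CC U b) (cc_cvx hU b) (cc_nonempty hU b) ?_
  rw [Set.inter_comm]
  exact hf

private theorem T01_conj (hU : TA H U) (g b : H) {y : W} (hy : y ∈ CC U (g * b * g⁻¹)) :
    g⁻¹ • y ∈ CC U b := by
  have h1 : y = g • g⁻¹ • y := by rw [smul_inv_smul]
  rw [h1] at hy
  exact (cc_conj hU g b _).1 hy

theorem t31 (hU : TA H U) {A : Subgroup H} (hA : Gen A U) {c : H} (hc : 0 < tl U c) :
    ∃ a ∈ A, 0 < tl U a ∧ (CC U a ∩ CC U c).Finite := by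
  obtain ⟨a, ha, b, hb, ha0, hb0, hab⟩ := hA
  by_contra hcon
  push Not at hcon
  have hinf : ∀ d ∈ A, 0 < tl U d → (CC U c ∩ CC U d).Infinite := by
    intro d hd hd0 hfin
    refine hcon d hd hd0 ?_
    rw [Set.inter_comm]
    exact hfin
  obtain ⟨n, -, hn⟩ := T01_push hU ha0 hab
  have h3 : a ^ n * b * (a ^ n)⁻¹ ∈ A := A.mul_mem (A.mul_mem (A.pow_mem ha n) hb)
    (A.inv_mem (A.pow_mem ha n))
  have h30 : 0 < tl U (a ^ n * b * (a ^ n)⁻¹) := by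
    rw [tl_conj hU]
    exact hb0
  have h23 : CC U b ∩ CC U (a ^ n * b * (a ^ n)⁻¹) = ∅ := by
    rw [Set.eq_empty_iff_forall_notMem]
    rintro y ⟨hy1, hy2⟩
    have h4 := hn _ (T01_conj hU (a ^ n) b hy2)
    rw [smul_inv_smul] at h4
    exact h4 hy1
  have h13 : (CC U a ∩ CC U (a ^ n * b * (a ^ n)⁻¹)).Finite := by
    refine (hab.image (fun x => a ^ n • x)).subset ?_
    rintro y ⟨hy1, hy2⟩
    refine ⟨(a ^ n)⁻¹ • y, ⟨?_, T01_conj hU (a ^ n) b hy2⟩, smul_inv_smul _ _⟩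
    refine T01_conj hU (a ^ n) a ?_
    have h5 : a ^ n * a * (a ^ n)⁻¹ = a := by
      rw [← pow_succ, pow_succ', mul_assoc, mul_inv_cancel, mul_one]
    rw [h5]
    exact hy1
  rcases three_lines hU c hc (CC U a) (CC U b) (CC U (a ^ n * b * (a ^ n)⁻¹)) (cc_cvx hU a)
    (cc_cvx hU b) (cc_cvx hU _) (hinf a ha ha0) (hinf b hb hb0) (hinf _ h3 h30) with h | h | h
  · exact h hab
  · rw [h23] at h
    exact h Set.finite_empty
  · exact h h13

theorem t32 (hU : TA H U) {A B : Subgroup H} (hA : Gen A U) (hB : ∀ a ∈ A, a ^ 2 ∈ B) :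
    ∃ g₁ ∈ ⁅B, B⁆, ∃ g₂ ∈ ⁅B, B⁆, 0 < tl U g₁ ∧ 0 < tl U g₂ ∧ CC U g₁ ∩ CC U g₂ = ∅ := by
  obtain ⟨a, ha, b, hb, ha0, hb0, hab⟩ := id hA
  have hsq : ∀ d : H, 0 < tl U d → 0 < tl U (d ^ 2) ∧ CC U (d ^ 2) = CC U d := by
    intro d hd
    refine ⟨?_, cc_pow hU d hd 2 (by norm_num)⟩
    rw [tl_pow hU]
    omega
  obtain ⟨ha2, ha2'⟩ := hsq a ha0
  obtain ⟨hb2, hb2'⟩ := hsq b hb0
  obtain ⟨n, -, hn⟩ := T01_push hU (a := a ^ 2) (b := b ^ 2) ha2 (by rw [ha2', hb2']; exact hab)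
  have hg1 : ⁅b ^ 2, (a ^ 2) ^ n⁆ ∈ ⁅B, B⁆ :=
    Subgroup.commutator_mem_commutator (hB b hb) (B.pow_mem (hB a ha) n)
  have hg1' : ⁅b ^ 2, (a ^ 2) ^ n⁆ =
      b ^ 2 * ((a ^ 2) ^ n * (b ^ 2)⁻¹ * ((a ^ 2) ^ n)⁻¹) := by
    rw [commutatorElement_def]
    group
  have hg10 : 0 < tl U ⁅b ^ 2, (a ^ 2) ^ n⁆ := by
    have hd : ¬ (CC U (b ^ 2) ∩ CC U ((a ^ 2) ^ n * (b ^ 2)⁻¹ * ((a ^ 2) ^ n)⁻¹)).Nonempty := by
      rintro ⟨y, hy1, hy2⟩
      have h1 := T01_conj hU ((a ^ 2) ^ n) (b ^ 2)⁻¹ hy2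
      rw [cc_inv hU] at h1
      have h4 := hn _ h1
      rw [smul_inv_smul] at h4
      exact h4 hy1
    obtain ⟨x, hx, y, hy, hpos, hmin⟩ := tl2_closest hU _ _ hd
    rw [hg1', tl2_disj hU _ _ x y hx hy hpos hmin]
    omega
  set g₁ : H := ⁅b ^ 2, (a ^ 2) ^ n⁆ with hg₁
  obtain ⟨c, hc, hc0, hcf⟩ := t31 hU hA hg10
  obtain ⟨hc2, hc2'⟩ := hsq c hc0
  obtain ⟨m, -, hm⟩ := T01_push hU (a := c ^ 2) (b := g₁) hc2 (by rw [hc2']; exact hcf)
  have hk : (c ^ 2) ^ m ∈ B := B.pow_mem (hB c hc) m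
  refine ⟨g₁, hg1, (c ^ 2) ^ m * g₁ * ((c ^ 2) ^ m)⁻¹, ?_, hg10, ?_, ?_⟩
  · have h1 : g₁ ∈ B := Subgroup.commutator_le_self B hg1
    have h2 : (c ^ 2) ^ m * g₁ * ((c ^ 2) ^ m)⁻¹ = ⁅(c ^ 2) ^ m, g₁⁆ * g₁ := by
      rw [commutatorElement_def]
      group
    rw [h2]
    exact mul_mem (Subgroup.commutator_mem_commutator hk h1) hg1
  · rw [tl_conj hU]
    exact hg10
  · rw [Set.eq_empty_iff_forall_notMem]
    rintro y ⟨hy1, hy2⟩
    have h4 := hm _ (T01_conj hU ((c ^ 2) ^ m) g₁ hy2)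
    rw [smul_inv_smul] at h4
    exact h4 hy1

theorem gen_powLe (hU : TA H U) {A B : Subgroup H} (hA : Gen A U) (hAB : PowLe A B) :
    Gen B U := by
  obtain ⟨a, ha, b, hb, ha0, hb0, hab⟩ := hA
  obtain ⟨n, hn, hn'⟩ := hAB a ha
  obtain ⟨m, hm, hm'⟩ := hAB b hb
  refine ⟨a ^ n, hn', b ^ m, hm', ?_, ?_, ?_⟩
  · rw [tl_pow hU]
    exact Nat.mul_pos hn ha0
  · rw [tl_pow hU]
    exact Nat.mul_pos hm hb0
  · rw [cc_pow hU a ha0 n hn, cc_pow hU b hb0 m hm]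
    exact hab

theorem gen_mono {A B : Subgroup H} (hA : Gen A U) (hAB : A ≤ B) : Gen B U := by
  obtain ⟨a, ha, b, hb, h⟩ := hA
  exact ⟨a, hAB ha, b, hAB hb, h⟩

end

end VTB
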