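import Pool.Agent.Lib.MP_32d917_al.TL1
import Pool.Agent.Lib.MP_32d917_al_vt.T05

/-!
# Blocks of a tree replaced by other trees: medians

Notation of T05.

* `rp_two`: if the gates `p`, `q` of `x`, `y` in `C` are different then `dist x y = dist x p + dist p q
  + dist q y` (`Bt x p q`, `Bt y q p`, `st_cat`), so `Bt x n y` for every `n` with `Bt p n q`.
* `rp_bt`: let `Bt S x m y`, and suppose that for no block `C` with `m ∈ C` the gates of `x` and `y` in
  `C` are both different from `m`. Then `Bt S' x m y`. Proof: clear if `m = x` or `m = y`. Otherwise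
  let `a` be the neighbour of `m` towards `x`, `b` the neighbour of `m` towards `y` (`st_next`), `C`, `D`
  blocks containing the edges `m a`, `m b`. The gate `p` of `x` in `C` is not `m`: otherwise `Bt S x m a`
  and `Bt S m a x` (so `a = m`). In the same way the gate of `y` in `D` is not `m`. If `C = D` this
  contradicts the hypothesis. So `C ≠ D`. The gate `q` of `y` in `C` is `m`: otherwise `Bt S y q m`, the
  neighbour of `m` towards `q` is `b` (`st_uniq`, it is between `m` and `y`), so `b ∈ C` (convexity,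
  `q, m ∈ C`), `b, m ∈ C ∩ D`, `C = D`. By `rp_gate`: `Gt S' C x p`, `Gt S' C y m`, `p ≠ m`; `rp_two` for
  `S'` with `n := m`.
* `rp_med`: let `m` be the `S`-median and `m'` the `S'`-median of `x y z`. Suppose first that there is a
  block `C` with `m ∈ C` such that two of the gates... precisely: (1) if for some block `C ∋ m` the gates
  `p q s` of `x y z` are pairwise different: they are the `S'`-gates; the `S'`-median `n` of `p q s` is in
  `C` (`rp_cvx`) and by `rp_two` (for `S'`) it is the `S'`-median of `x y z`: `m' = n` (`tree_med_uniq`).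
  (2) Otherwise `rp_bt` applies to the three pairs, so `m = m'` (`tree_med_uniq`): suppose that `C ∋ m` is a
  block such that the gates `p`, `q` of `x`, `y` are both different from `m`. Then `p ≠ q` (`Bt S x p m`,
  `Bt S y p m`, `Bt S x m y` would give `p = m`), and the gate `s` of `z` is different from `p` (`Bt S x p m`,
  `Bt S z p m`, `Bt S x m z` would give `p = m`) and from `q` (in the same way): case (1).
-/

set_option autoImplicit false

namespace VTB

open LatIso LatN LatF

section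

variable {W : Type} {S S' : SimpleGraph W} {B : Set (Set W)}

private theorem T05B_ne {S : SimpleGraph W} (hS : S.IsTree) {x y p m : W} (h1 : Bt S x p m)
    (h2 : Bt S y p m) (h3 : Bt S x m y) : p = m := by
  apply st1_eq hS
  have t1 := st1_tri hS x p y
  have c1 : S.dist m y = S.dist y m := SimpleGraph.dist_comm
  have c2 : S.dist p y = S.dist y p := SimpleGraph.dist_comm
  unfold Bt at h1 h2 h3
  omega

theorem rp_two (hS : S.IsTree) {C : Set W} {x y p q n : W} (hp : Gt S C x p) (hq : Gt S C y q)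
    (hpq : p ≠ q) (hn : Bt S p n q) : Bt S x n y := by
  have h1 : Bt S x p q := hp.2 q hq.1
  have h2 : Bt S p q y := bt_symm (hq.2 p hp.1)
  have h3 := st_cat hS h1 h2 hpq
  have t1 := st1_tri hS x p n
  have t2 := st1_tri hS n q y
  have t3 := st1_tri hS x n y
  unfold Bt at hn ⊢
  omega

theorem rp_bt (h : Rpl S S' B) {x m y : W} (hm : Bt S x m y)
    (h1 : ∀ C ∈ B, m ∈ C → ∀ p q, Gt S C x p → Gt S C y q → p = m ∨ q = m) : Bt S' x m y := by
  have hS := h.blk.tree
  by_cases hmx : m = x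
  · subst hmx
    unfold Bt
    rw [SimpleGraph.dist_self, zero_add]
  by_cases hmy : m = y
  · subst hmy
    unfold Bt
    rw [SimpleGraph.dist_self, add_zero]
  obtain ⟨a, ha, ha'⟩ := st_next hS hmx
  obtain ⟨b, hb, hb'⟩ := st_next hS hmy
  obtain ⟨C, hC, hmC, haC⟩ := h.blk.edge m a ha
  obtain ⟨D, hD, hmD, hbD⟩ := h.blk.edge m b hb
  have gne : ∀ {C : Set W} {x a p : W}, S.Adj m a → Bt S m a x → a ∈ C → Gt S C x p → p ≠ m := by
    intro C x a p h2 h3 h4 h5 h6
    have h7 := h5.2 a h4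
    rw [h6] at h7
    have e1 := st1_one h2
    have c1 : S.dist a x = S.dist x a := SimpleGraph.dist_comm
    have c2 : S.dist m x = S.dist x m := SimpleGraph.dist_comm
    unfold Bt at h3 h7
    omega
  obtain ⟨p, hp⟩ := gt_ex hS (h.blk.cvx C hC) (h.blk.ne C hC) x
  obtain ⟨q, hq⟩ := gt_ex hS (h.blk.cvx C hC) (h.blk.ne C hC) y
  have hpm : p ≠ m := gne ha ha' haC hp
  have hCD : C ≠ D := by
    rintro rfl
    have hqm : q ≠ m := gne hb hb' hbD hq
    rcases h1 C hC hmC p q hp hq with h2 | h2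
    · exact hpm h2
    · exact hqm h2
  have hqm : q = m := by
    by_contra hqm
    obtain ⟨c, hc, hc'⟩ := st_next hS (Ne.symm hqm)
    have h2 : Bt S m q y := bt_symm (hq.2 m hmC)
    have h3 : Bt S m c y := bt_trans hS.connected hc' h2
    have h4 : b = c := st_uniq hS hb hc hb' h3
    have h5 : c ∈ C := h.blk.cvx C hC m hmC q hq.1 c hc'
    rw [← h4] at h5
    exact hCD (h.blk.one C hC D hD m b hb.ne hmC h5 hmD hbD)
  rw [hqm] at hq
  refine rp_two (rp_tree h) (rp_gate h hC hp) (rp_gate h hC hq) hpm ?_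
  unfold Bt
  rw [SimpleGraph.dist_self, add_zero]

theorem rp_med (h : Rpl S S' B) {x y z m m' : W} (h1 : Bt S x m y) (h2 : Bt S y m z)
    (h3 : Bt S x m z) (k1 : Bt S' x m' y) (k2 : Bt S' y m' z) (k3 : Bt S' x m' z) :
    m' = m ∨ ∃ C ∈ B, m' ∈ C ∧ m ∈ C ∧ ∃ p q s, Gt S C x p ∧ Gt S C y q ∧ Gt S C z s ∧ p ≠ q ∧
      q ≠ s ∧ p ≠ s := by
  have hS := h.blk.tree
  by_cases hc : ∃ C ∈ B, m ∈ C ∧ ∃ p q s, Gt S C x p ∧ Gt S C y q ∧ Gt S C z s ∧ p ≠ q ∧
      q ≠ s ∧ p ≠ s
  · right
    obtain ⟨C, hC, hm, p, q, s, hp, hq, hs, e1, e2, e3⟩ := hc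
    have hT := rp_tree h
    have gp := rp_gate h hC hp
    have gq := rp_gate h hC hq
    have gs := rp_gate h hC hs
    obtain ⟨n, n1, n2, n3⟩ := st_median hT p q s
    have hn : n ∈ C := rp_cvx h hC p gp.1 q gq.1 n n1
    have e := tree_med_uniq hT k1 k2 k3 (rp_two hT gp gq e1 n1) (rp_two hT gq gs e2 n2)
      (rp_two hT gp gs e3 n3)
    rw [e]
    exact ⟨C, hC, hn, hm, p, q, s, hp, hq, hs, e1, e2, e3⟩
  · left
    have b1 : Bt S' x m y := by
      refine rp_bt h h1 fun C hC hm p q hp hq => ?_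
      by_contra hcon
      rw [not_or] at hcon
      obtain ⟨s, hs⟩ := gt_ex hS (h.blk.cvx C hC) (h.blk.ne C hC) z
      refine hc ⟨C, hC, hm, p, q, s, hp, hq, hs, ?_, ?_, ?_⟩
      · rintro rfl
        exact hcon.1 (T05B_ne hS (hp.2 m hm) (hq.2 m hm) h1)
      · rintro rfl
        exact hcon.2 (T05B_ne hS (hq.2 m hm) (hs.2 m hm) h2)
      · rintro rfl
        exact hcon.1 (T05B_ne hS (hp.2 m hm) (hs.2 m hm) h3)
    have b2 : Bt S' y m z := by
      refine rp_bt h h2 fun C hC hm q s hq hs => ?_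
      by_contra hcon
      rw [not_or] at hcon
      obtain ⟨p, hp⟩ := gt_ex hS (h.blk.cvx C hC) (h.blk.ne C hC) x
      refine hc ⟨C, hC, hm, p, q, s, hp, hq, hs, ?_, ?_, ?_⟩
      · rintro rfl
        exact hcon.1 (T05B_ne hS (hp.2 m hm) (hq.2 m hm) h1)
      · rintro rfl
        exact hcon.1 (T05B_ne hS (hq.2 m hm) (hs.2 m hm) h2)
      · rintro rfl
        exact hcon.2 (T05B_ne hS (hp.2 m hm) (hs.2 m hm) h3)
    have b3 : Bt S' x m z := by
      refine rp_bt h h3 fun C hC hm p s hp hs => ?_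
      by_contra hcon
      rw [not_or] at hcon
      obtain ⟨q, hq⟩ := gt_ex hS (h.blk.cvx C hC) (h.blk.ne C hC) y
      refine hc ⟨C, hC, hm, p, q, s, hp, hq, hs, ?_, ?_, ?_⟩
      · rintro rfl
        exact hcon.1 (T05B_ne hS (hp.2 m hm) (hq.2 m hm) h1)
      · rintro rfl
        exact hcon.2 (T05B_ne hS (hq.2 m hm) (hs.2 m hm) h2)
      · rintro rfl
        exact hcon.1 (T05B_ne hS (hp.2 m hm) (hs.2 m hm) h3)
    exact tree_med_uniq (rp_tree h) k1 k2 k3 b1 b2 b3

end

end VTB
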