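import Pool.Agent.Lib.MP_32d917_al_vt.C07

/-!
# Part E: definitions (regions and the vertices of their trees as `G`-sets)
-/

set_option autoImplicit false

namespace VTB

open LatIso LatN LatF RaagIso

/-- compatible actions of `G` on points, vertices, labels -/
structure RAct (G : Type) [Group G] {ι Pt V : Type} [MulAction G Pt] [MulAction G V]
    [MulAction G ι] (Γ : SimpleGraph ι) (κ : V → ι) (co : Pt → ∀ i, Fib κ i)
    (N : Pt → ι → Prop) : Prop where
  kap : KEq G κ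
  gam : ∀ (g : G) i j, Γ.Adj (g • i) (g • j) ↔ Γ.Adj i j
  gco : ∀ (g : G) x i, (co (g • x) (g • i)).1 = g • (co x i).1
  gn : ∀ (g : G) x i, N (g • x) (g • i) ↔ N x i

section

variable {G : Type} [Group G] {ι Pt V : Type} [MulAction G Pt] [MulAction G V] [MulAction G ι]
  {Γ : SimpleGraph ι} {κ : V → ι} {S : SimpleGraph V} {co : Pt → ∀ i, Fib κ i}
  {N : Pt → ι → Prop}

theorem VPre.ract (L : VPre G Γ κ S co N) : RAct G Γ κ co N :=
  ⟨L.act.kap, L.gam, L.gco, L.gn⟩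

theorem RAct.ag (R : RAct G Γ κ co N) (g : G) {J : Set ι} {x y : Pt} :
    Ag co {i | g⁻¹ • i ∈ J} (g • x) (g • y) ↔ Ag co J x y := by
  constructor
  · intro h j hj
    have h1 := h (g • j) (by
      intro h2
      apply hj
      have h3 : g⁻¹ • g • j ∈ J := h2
      rwa [inv_smul_smul] at h3)
    have h2 := congrArg Subtype.val h1
    rw [R.gco, R.gco] at h2
    exact Subtype.ext (MulAction.injective g h2)
  · intro h j hj
    have h1 := h (g⁻¹ • j) hj
    have h2 := R.gco g x (g⁻¹ • j)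
    have h3 := R.gco g y (g⁻¹ • j)
    rw [smul_inv_smul] at h2 h3
    apply Subtype.ext
    rw [h2, h3, h1]

theorem RAct.st (R : RAct G Γ κ co N) (g : G) (i : ι) :
    {j | g⁻¹ • j ∈ st Γ i} = st Γ (g • i) := by
  ext j
  constructor
  · rintro (h | h)
    · left
      rw [← h, smul_inv_smul]
    · right
      have h1 := (R.gam g i (g⁻¹ • j)).2 h
      rwa [smul_inv_smul] at h1
  · rintro (h | h)
    · left
      rw [h, inv_smul_smul]
    · right
      have h1 := (R.gam g i (g⁻¹ • j)).1 (by rwa [smul_inv_smul])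
      exact h1

theorem RAct.agst (R : RAct G Γ κ co N) (g : G) {i : ι} {x y : Pt} :
    Ag co (RaagIso.st Γ (g • i)) (g • x) (g • y) ↔ Ag co (RaagIso.st Γ i) x y := by
  rw [← R.st g i]
  exact R.ag g

theorem RAct.oc (R : RAct G Γ κ co N) (g : G) {i : ι} {x : Pt} :
    Oc Γ N (g • x) (g • i) ↔ Oc Γ N x i := by
  constructor
  · intro h v hv
    have h1 := h (g • v) ((R.gn g x v).2 hv)
    rw [← R.st g v] at h1
    have h2 : g⁻¹ • g • i ∈ RaagIso.st Γ v := h1
    rwa [inv_smul_smul] at h2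
  · intro h v hv
    have h1 := h (g⁻¹ • v) ((R.gn g x (g⁻¹ • v)).1 (by rwa [smul_inv_smul]))
    have h2 := R.st g (g⁻¹ • v)
    rw [smul_inv_smul] at h2
    rw [← h2]
    change g⁻¹ • g • i ∈ RaagIso.st Γ (g⁻¹ • v)
    rwa [inv_smul_smul]

/-- translates of regions -/
def gR (g : G) (r : ι × Set Pt) : ι × Set Pt := (g • r.1, {x | g⁻¹ • x ∈ r.2})

theorem RAct.reg (R : RAct G Γ κ co N) (g : G) {r : ι × Set Pt} (h : IsReg Γ co N r) :
    IsReg Γ co N (gR g r) := by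
  obtain ⟨x, hx, h1⟩ := h
  refine ⟨g • x, (R.oc g).2 hx, ?_⟩
  ext y
  change g⁻¹ • y ∈ r.2 ↔ Ag co (RaagIso.st Γ (g • r.1)) (g • x) y
  rw [h1]
  change Ag co (RaagIso.st Γ r.1) x (g⁻¹ • y) ↔ _
  rw [← R.agst g, smul_inv_smul]

instance rgAct [h : Fact (RAct G Γ κ co N)] : MulAction G (Rg Γ co N) where
  smul g r := ⟨gR g r.1, h.out.reg g r.2⟩
  one_smul r := by
    apply Subtype.ext
    apply Prod.ext
    · exact one_smul G r.1.1
    · ext x
      change (1 : G)⁻¹ • x ∈ r.1.2 ↔ x ∈ r.1.2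
      rw [inv_one, one_smul]
  mul_smul a b r := by
    apply Subtype.ext
    apply Prod.ext
    · exact mul_smul a b r.1.1
    · ext x
      change (a * b)⁻¹ • x ∈ r.1.2 ↔ b⁻¹ • a⁻¹ • x ∈ r.1.2
      rw [mul_inv_rev, mul_smul]

theorem rg_lab [Fact (RAct G Γ κ co N)] (g : G) (r : Rg Γ co N) : (g • r).1.1 = g • r.1.1 := rfl

theorem rg_mem [Fact (RAct G Γ κ co N)] (g : G) (r : Rg Γ co N) (x : Pt) :
    x ∈ (g • r).1.2 ↔ g⁻¹ • x ∈ r.1.2 := Iff.rfl

theorem rg_smul [h : Fact (RAct G Γ κ co N)] (g : G) (r : Rg Γ co N) {x : Pt} {i : ι}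
    (hr : r.1 = rg Γ co x i) : (g • r).1 = rg Γ co (g • x) (g • i) := by
  change gR g r.1 = _
  rw [hr]
  apply Prod.ext
  · rfl
  · ext y
    change Ag co (RaagIso.st Γ i) x (g⁻¹ • y) ↔ Ag co (RaagIso.st Γ (g • i)) (g • x) y
    rw [← h.out.agst g, smul_inv_smul]

/-- the vertices of the trees of all regions -/
abbrev QQ (Γ : SimpleGraph ι) (co : Pt → ∀ i, Fib κ i) (N : Pt → ι → Prop) : Type :=
  {q : Rg Γ co N × V // ∃ x ∈ q.1.1.2, (co x q.1.1.1).1 = q.2}

instance qqAct [h : Fact (RAct G Γ κ co N)] : MulAction G (QQ Γ co N) where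
  smul g q := ⟨(g • q.1.1, g • q.1.2), by
    obtain ⟨x, hx, h1⟩ := q.2
    refine ⟨g • x, ?_, ?_⟩
    · change g⁻¹ • g • x ∈ q.1.1.1.2
      rwa [inv_smul_smul]
    · change (co (g • x) (g • q.1.1.1.1)).1 = g • q.1.2
      rw [h.out.gco, h1]⟩
  one_smul q := Subtype.ext (Prod.ext (one_smul G q.1.1) (one_smul G q.1.2))
  mul_smul a b q := Subtype.ext (Prod.ext (mul_smul a b q.1.1) (mul_smul a b q.1.2))

theorem qq_reg [Fact (RAct G Γ κ co N)] (g : G) (q : QQ Γ co N) : (g • q).1.1 = g • q.1.1 := rfl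

theorem qq_vert [Fact (RAct G Γ κ co N)] (g : G) (q : QQ Γ co N) : (g • q).1.2 = g • q.1.2 := rfl

/-- the region of a vertex -/
def qk (q : QQ Γ co N) : Rg Γ co N := q.1.1

theorem qk_keq [Fact (RAct G Γ κ co N)] : KEq G (qk : QQ Γ co N → Rg Γ co N) := fun _ _ => rfl

instance qkFact [Fact (RAct G Γ κ co N)] : Fact (KEq G (qk : QQ Γ co N → Rg Γ co N)) := ⟨qk_keq⟩

/-- the vertex as an element of the fibre -/
def qp (q : QQ Γ co N) : Fib κ q.1.1.1.1 :=
  ⟨q.1.2, by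
    obtain ⟨x, _, h⟩ := q.2
    rw [← h]
    exact (co x q.1.1.1.1).2⟩

theorem qp_vr (q : QQ Γ co N) : VR co q.1.1.1 (qp q) := by
  obtain ⟨x, hx, h⟩ := q.2
  exact ⟨x, hx, Subtype.ext h⟩

/-- the vertex of the tree of a region as an element of `QQ` -/
def mkq (r : Rg Γ co N) (p : Fib κ r.1.1) (h : VR co r.1 p) : QQ Γ co N :=
  ⟨(r, p.1), by
    obtain ⟨x, hx, h1⟩ := h
    exact ⟨x, hx, by rw [h1]⟩⟩

theorem qp_mkq (r : Rg Γ co N) (p : Fib κ r.1.1) (h : VR co r.1 p) : qp (mkq r p h) = p := rfl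

theorem mkq_qp (q : QQ Γ co N) : mkq q.1.1 (qp q) (qp_vr q) = q := rfl

/-- the graph on `QQ`: the trees of all regions -/
def qgr (Γ : SimpleGraph ι) (co : Pt → ∀ i, Fib κ i) (N : Pt → ι → Prop) (S : SimpleGraph V) :
    SimpleGraph (QQ Γ co N) where
  Adj a b := a.1.1 = b.1.1 ∧ S.Adj a.1.2 b.1.2
  symm := by
    constructor
    rintro a b ⟨h, h1⟩
    exact ⟨h.symm, h1.symm⟩
  loopless := ⟨fun a h => h.2.ne rfl⟩

/-- the graph on `V` with the edges of a graph on `QQ` -/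
def dn (R : SimpleGraph (QQ Γ co N)) : SimpleGraph V where
  Adj a b := a ≠ b ∧ ∃ p q, R.Adj p q ∧ p.1.2 = a ∧ q.1.2 = b
  symm := by
    constructor
    rintro a b ⟨h, p, q, h1, h2, h3⟩
    exact ⟨h.symm, q, p, h1.symm, h3, h2⟩
  loopless := ⟨fun a h => h.1 rfl⟩

/-- the vertex `q` is internal -/
def QInt (q : QQ Γ co N) : Prop := RInt co N q.1.1.1 (qp q)

/-- `q` is the projection of the point `x` to the tree of its region -/
def PrjQ (S : SimpleGraph V) (q : QQ Γ co N) (x : Pt) : Prop :=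
  Prj (comp κ S) co q.1.1.1 x (qp q)

/-- all points of the region `s` have the projection `q` -/
def PrQ (S : SimpleGraph V) (q : QQ Γ co N) (s : Rg Γ co N) : Prop :=
  PrR (comp κ S) co q.1.1.1 s.1 (qp q)

end

end VTB
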