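import Pool.Agent.Lib.MP_32d917_al_vt.WDefs

/-!
# W01: words and elementary steps (30 min)

Words are lists with the LAST arrow first; the last entry of the list is stationary. `wd_one`, `wd_cc`, `wd_end`, `wd_uniq`, `wd_start`: cases on `Wd` (the empty list is not a word).
`stw_symm`: induction on the step. T with `s` is reversed by T with `X.i s`: `X.rc (X.mr x s) (X.i s)` (`vv_irc`), `X.t (X.mr x s) = X.t s` (`vv_mrt`) `= X.o (X.ml (X.i s) m)` (`mlo`, `oi`; `X.lc (X.i s) m` since
`t (i s) = o s = t x = o m`), `X.ml (X.i (X.i s)) (X.ml (X.i s) m) = m` (`ii`, `vv_mli` for `i s`), `X.mr (X.mr x s) (X.i s) = x` (`vv_mri`). Q: `sqs`.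
`stw_wd`: T: `mlm`, `mlt`, `mlo`, `vv_mrm`, `vv_mro`, `vv_mrt` (cases `w = []`: `x` is stationary, and `w = y :: w'`). Q: `sqT`; `w = []` is impossible since `a` is moving. C: `w` is a word, so is `w'`; neither is empty.
`stw_len`: clear. `eqw_one`: a list with one entry admits no step (the step C would need a step from the empty list, and there is none).
The rest: `Relation.ReflTransGen` (induction), e.g. `eqw_cons` by lifting with C.
-/

set_option autoImplicit false

namespace VTB

open LatIso LatN LatF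

variable {ι P A : Type} {Γ : SimpleGraph ι} {N : P → ι → Prop} {X : FD ι P A}

theorem wd_one {p : P} {s : A} {q : P} : Wd X p [s] q ↔ X.o s = p ∧ ¬ X.mv s ∧ q = X.t s := by
  constructor
  · intro h
    cases h with
    | one _ h1 h2 => exact ⟨h1, h2, rfl⟩
    | cons _ _ _ h2 => cases h2
  · rintro ⟨h1, h2, rfl⟩
    exact Wd.one s h1 h2

theorem wd_cc {p : P} {m x : A} {w : List A} {q : P} :
    Wd X p (m :: x :: w) q ↔ X.mv m ∧ Wd X p (x :: w) (X.o m) ∧ q = X.t m := by
  constructor
  · intro h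
    cases h with
    | cons _ _ h1 h2 => exact ⟨h1, h2, rfl⟩
  · rintro ⟨h1, h2, rfl⟩
    exact Wd.cons m _ h1 h2

theorem wd_end {p : P} {w : List A} {q : P} (h : Wd X p w q) : ∃ m v, w = m :: v ∧ q = X.t m := by
  cases h with
  | one s _ _ => exact ⟨s, [], rfl, rfl⟩
  | cons m v _ _ => exact ⟨m, v, rfl, rfl⟩

theorem wd_uniq {p p' : P} {w : List A} {q q' : P} (h : Wd X p w q) (h' : Wd X p' w q') :
    q = q' := by
  obtain ⟨m, v, h1, h2⟩ := wd_end h
  obtain ⟨m', v', h1', h2'⟩ := wd_end h'
  rw [h1] at h1'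
  injection h1' with h3 _
  rw [h2, h2', h3]

theorem wd_start {p p' : P} {w : List A} {q q' : P} (h : Wd X p w q) (h' : Wd X p' w q') :
    p = p' := by
  induction h generalizing q' with
  | one s h1 _ => exact h1.symm.trans (wd_one.1 h').1
  | cons m w _ h2 ih =>
    cases h' with
    | one _ _ _ => cases h2
    | cons _ _ _ h4 => exact ih h4

theorem stw_len {w w' : List A} (h : Stw X w w') : w.length = w'.length := by
  induction h with
  | T m x s w _ _ => rfl
  | Q a b c d w _ => rfl
  | C m w w' _ ih => rw [List.length_cons, List.length_cons, ih]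

private theorem W01_lc (hX : VV0 Γ N X) {m x s : A} (hs : X.rc x s) (ht : X.t x = X.o m) :
    X.lc (X.i s) m := ⟨fun hm => hs.1 ((hX.mi s).1 hm), by rw [hX.ti, hs.2, ht]⟩

private theorem W01_o (hX : VV0 Γ N X) {m x s : A} (hs : X.rc x s) (ht : X.t x = X.o m) :
    X.o (X.ml (X.i s) m) = X.t s := by
  rw [hX.mlo _ _ (W01_lc hX hs ht), hX.oi]

theorem stw_symm (hX : VV0 Γ N X) {w w' : List A} (h : Stw X w w') : Stw X w' w := by
  induction h with
  | T m x s w hs ht =>
    have hl := W01_lc hX hs ht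
    have h1 := Stw.T (X := X) (X.ml (X.i s) m) (X.mr x s) (X.i s) w (vv_irc hX hs)
      (by rw [vv_mrt hX hs, W01_o hX hs ht])
    rw [vv_mli hX hl, vv_mri hX hs] at h1
    exact h1
  | Q a b c d w h => exact Stw.Q c d a b w (hX.sqs _ _ _ _ h)
  | C m w w' _ ih => exact Stw.C m w' w ih

theorem stw_wd (hX : VV0 Γ N X) {p q : P} {w w' : List A} (hw : Wd X p w q) (h : Stw X w w') :
    Wd X p w' q := by
  induction h generalizing q with
  | T m x s w hs ht =>
    obtain ⟨h1, h2, h3⟩ := wd_cc.1 hw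
    have hl := W01_lc hX hs ht
    refine wd_cc.2 ⟨(hX.mlm _ _ hl).2 h1, ?_, by rw [hX.mlt _ _ hl, h3]⟩
    rw [W01_o hX hs ht]
    cases w with
    | nil =>
      obtain ⟨h4, h5, _⟩ := wd_one.1 h2
      exact wd_one.2 ⟨by rw [vv_mro hX hs, h4], fun hm => h5 ((vv_mrm hX hs).1 hm),
        (vv_mrt hX hs).symm⟩
    | cons y w =>
      obtain ⟨h4, h5, _⟩ := wd_cc.1 h2
      exact wd_cc.2 ⟨(vv_mrm hX hs).2 h4, by rw [vv_mro hX hs]; exact h5, (vv_mrt hX hs).symm⟩
  | Q a b c d w h =>
    have hT := hX.sqT _ _ _ _ h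
    obtain ⟨h1, h2, h3⟩ := wd_cc.1 hw
    refine wd_cc.2 ⟨hT.md, ?_, by rw [h3, hT.tbd]⟩
    cases w with
    | nil => exact absurd hT.ma (wd_one.1 h2).2.1
    | cons y w =>
      obtain ⟨h4, h5, _⟩ := wd_cc.1 h2
      exact wd_cc.2 ⟨hT.mc, by rw [← hT.oac]; exact h5, hT.tcd.symm⟩
  | C m w w' h ih =>
    cases hw with
    | one _ _ _ => cases h
    | cons _ _ h1 h2 => exact Wd.cons m _ h1 (ih h2)

theorem eqw_refl (w : List A) : Eqw X w w := Relation.ReflTransGen.refl

theorem eqw_symm (hX : VV0 Γ N X) {w w' : List A} (h : Eqw X w w') : Eqw X w' w := by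
  unfold Eqw at h ⊢
  induction h with
  | refl => exact Relation.ReflTransGen.refl
  | tail _ hab ih => exact Relation.ReflTransGen.head (stw_symm hX hab) ih

theorem eqw_trans {u v w : List A} (h : Eqw X u v) (h' : Eqw X v w) : Eqw X u w :=
  Relation.ReflTransGen.trans h h'

theorem eqw_cons {w w' : List A} (m : A) (h : Eqw X w w') : Eqw X (m :: w) (m :: w') := by
  unfold Eqw at h ⊢
  induction h with
  | refl => exact Relation.ReflTransGen.refl
  | tail _ hab ih => exact Relation.ReflTransGen.tail ih (Stw.C m _ _ hab)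

theorem eqw_len {w w' : List A} (h : Eqw X w w') : w.length = w'.length := by
  unfold Eqw at h
  induction h with
  | refl => rfl
  | tail _ hab ih => exact ih.trans (stw_len hab)

theorem eqw_wd (hX : VV0 Γ N X) {p q : P} {w w' : List A} (hw : Wd X p w q) (h : Eqw X w w') :
    Wd X p w' q := by
  unfold Eqw at h
  induction h with
  | refl => exact hw
  | tail _ hab ih => exact stw_wd hX ih hab

theorem eqw_one {s : A} {w : List A} (h : Eqw X [s] w) : w = [s] := by
  unfold Eqw at h
  induction h with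
  | refl => rfl
  | tail _ hab ih =>
    rw [ih] at hab
    cases hab with
    | C _ _ _ h => cases h

theorem eqw_one' {s : A} {w : List A} (h : Eqw X w [s]) : w = [s] := by
  have h1 := eqw_len h
  rw [List.length_singleton, List.length_eq_one_iff] at h1
  obtain ⟨a, rfl⟩ := h1
  exact (eqw_one h).symm

end VTB
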