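import Pool.Agent.Lib.MP_32d917_al_vt.W01

/-!
# W02: multiplication by stationary arrows (30 min)

`rtw X s (m :: w) = X.mr m s :: w`. For a word `w` with end `q` we have `w = m :: v`, `q = X.t m` (`wd_end`), so `X.rc m s` if `s` is stationary and starts at `q`.
`rtw_wd`: `vv_mrm`, `vv_mrt`, `vv_mro`. `rtw_rtw`: `vv_mra`. `rtw_e`: `vv_mre`. `rtw_i`: `vv_mri`. `rtw_i'`: `rtw_i` for `X.i s`, `ii`.
`eqw_rtw`: for one step (the word stays a word, `stw_wd`; induction on the chain): T with `s'`: `mr (ml (i s') m) s = ml (i s') (mr m s)` (`mlr`): again T. Q: `vv_sqn`: sq a (mr b s) c (mr d s). C: C.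
`eqw_T`: one step T from `(ml s a :: x :: v)`, `w = x :: v`: `ml (i s) (ml s a) = a` (`vv_mli`). `eqw_T2`: the step T itself. `eqw_Q`: the step Q. `rtw_len`: clear.
-/

set_option autoImplicit false

namespace VTB

open LatIso LatN LatF

variable {ι P A : Type} {Γ : SimpleGraph ι} {N : P → ι → Prop} {X : FD ι P A}

theorem rtw_len (s : A) (w : List A) : (rtw X s w).length = w.length := by
  cases w <;> rfl

theorem rtw_wd (hX : VV0 Γ N X) {p q : P} {w : List A} {s : A} (hw : Wd X p w q)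
    (hs : ¬ X.mv s) (ho : X.o s = q) : Wd X p (rtw X s w) (X.t s) := by
  cases hw with
  | one s0 h1 h2 =>
    have hr : X.rc s0 s := ⟨hs, ho⟩
    have h3 : Wd X p [X.mr s0 s] (X.t (X.mr s0 s)) :=
      Wd.one _ ((vv_mro hX hr).trans h1) (fun h => h2 ((vv_mrm hX hr).1 h))
    rw [vv_mrt hX hr] at h3
    exact h3
  | cons m w h1 h2 =>
    have hr : X.rc m s := ⟨hs, ho⟩
    have h3 : Wd X p (X.mr m s :: w) (X.t (X.mr m s)) :=
      Wd.cons _ _ ((vv_mrm hX hr).2 h1) (by rw [vv_mro hX hr]; exact h2)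
    rw [vv_mrt hX hr] at h3
    exact h3

theorem rtw_rtw (hX : VV0 Γ N X) {p q : P} {w : List A} {s s' : A} (hw : Wd X p w q)
    (hs : ¬ X.mv s) (ho : X.o s = q) (hs' : X.rc s s') :
    rtw X s' (rtw X s w) = rtw X (X.ml s s') w := by
  obtain ⟨m, v, rfl, rfl⟩ := wd_end hw
  have hr : X.rc m s := ⟨hs, ho⟩
  show X.mr (X.mr m s) s' :: v = X.mr m (X.ml s s') :: v
  rw [vv_mra hX hr hs']

theorem rtw_e (hX : VV0 Γ N X) {p q : P} {w : List A} (hw : Wd X p w q) :
    rtw X (X.e q) w = w := by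
  obtain ⟨m, v, rfl, rfl⟩ := wd_end hw
  show X.mr m (X.e (X.t m)) :: v = m :: v
  rw [vv_mre hX]

theorem rtw_i (hX : VV0 Γ N X) {p q : P} {w : List A} {s : A} (hw : Wd X p w q)
    (hs : ¬ X.mv s) (ho : X.o s = q) : rtw X (X.i s) (rtw X s w) = w := by
  obtain ⟨m, v, rfl, rfl⟩ := wd_end hw
  have hr : X.rc m s := ⟨hs, ho⟩
  show X.mr (X.mr m s) (X.i s) :: v = m :: v
  rw [vv_mri hX hr]

theorem rtw_i' (hX : VV0 Γ N X) {p q : P} {w : List A} {s : A} (hw : Wd X p w q)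
    (hs : ¬ X.mv s) (ht : X.t s = q) : rtw X s (rtw X (X.i s) w) = w := by
  have h1 := rtw_i hX hw (s := X.i s) (fun h => hs ((hX.mi s).1 h)) ((hX.oi s).trans ht)
  rwa [hX.ii] at h1

private theorem W02_step (hX : VV0 Γ N X) {p q : P} {w w' : List A} {s : A} (hw : Wd X p w q)
    (hs : ¬ X.mv s) (ho : X.o s = q) (h : Stw X w w') : Stw X (rtw X s w) (rtw X s w') := by
  obtain ⟨m0, v0, h0, hq⟩ := wd_end hw
  cases h with
  | T m x s0 w0 h1 h2 =>
    have hm : m0 = m := by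
      have := congrArg List.head? h0
      simpa using this.symm
    subst hm
    have hr : X.rc m0 s := ⟨hs, ho.trans hq⟩
    have hl : X.lc (X.i s0) m0 :=
      ⟨fun h => h1.1 ((hX.mi s0).1 h), by rw [hX.ti, h1.2, h2]⟩
    show Stw X (X.mr m0 s :: x :: w0) (X.mr (X.ml (X.i s0) m0) s :: X.mr x s0 :: w0)
    rw [← hX.mlr _ _ _ hl hr]
    exact Stw.T _ _ _ _ h1 (by rw [vv_mro hX hr]; exact h2)
  | Q a b c d w0 h1 =>
    have hm : m0 = b := by
      have := congrArg List.head? h0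
      simpa using this.symm
    subst hm
    have hr : X.rc m0 s := ⟨hs, ho.trans hq⟩
    exact Stw.Q _ _ _ _ _ (vv_sqn hX h1 hr)
  | C m w0 w0' h1 => exact Stw.C _ _ _ h1

theorem eqw_rtw (hX : VV0 Γ N X) {p q : P} {w w' : List A} {s : A} (hw : Wd X p w q)
    (hs : ¬ X.mv s) (ho : X.o s = q) (h : Eqw X w w') : Eqw X (rtw X s w) (rtw X s w') := by
  unfold Eqw at h
  induction h with
  | refl => exact eqw_refl _
  | tail h1 h2 ih =>
    exact Relation.ReflTransGen.tail ih (W02_step hX (eqw_wd hX hw h1) hs ho h2)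

/-- a stationary arrow moves from the last letter to the word before -/
theorem eqw_T (hX : VV0 Γ N X) {p q : P} {w : List A} {s a : A} (hw : Wd X p w q)
    (hs : X.lc s a) (ho : X.o s = q) : Eqw X (X.ml s a :: w) (a :: rtw X s w) := by
  obtain ⟨x, v, rfl, rfl⟩ := wd_end hw
  have h1 : Stw X (X.ml s a :: x :: v) (X.ml (X.i s) (X.ml s a) :: X.mr x s :: v) :=
    Stw.T _ _ _ _ ⟨hs.1, ho⟩ (by rw [hX.mlo _ _ hs]; exact ho.symm)
  rw [vv_mli hX hs] at h1
  exact Relation.ReflTransGen.single h1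

/-- the step T -/
theorem eqw_T2 {p q : P} {w : List A} {s a : A} (hw : Wd X p w q)
    (hs : ¬ X.mv s) (ho : X.o s = q) (ha : X.o a = q) :
    Eqw X (a :: w) (X.ml (X.i s) a :: rtw X s w) := by
  obtain ⟨x, v, rfl, rfl⟩ := wd_end hw
  exact Relation.ReflTransGen.single (Stw.T _ _ _ _ ⟨hs, ho⟩ ha.symm)

theorem eqw_Q {a b c d : A} (w : List A) (h : X.sq a b c d) :
    Eqw X (b :: a :: w) (d :: c :: w) :=
  Relation.ReflTransGen.single (Stw.Q _ _ _ _ _ h)

end VTB
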