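import Pool.Agent.Lib.MP_32d917_al_vt.W02

/-!
# W03: labels of words (40 min)

`bk X (m :: w) k = bk X w (X.pm (X.i m) k)`; `labs X (m :: w) = bk X w (X.ty m) ::ₘ labs X w` for words `w` (not empty).
`bk_inj`: `pi` for `X.i m` (`vv_pinj`). `bk_rtw`: `w = m :: v`: `X.i (X.mr m s) = X.ml (X.i s) (X.i m)` (`vv_imr`), `mlp`.
`eqw_bk`: one step: T: `pm (i (ml (i s) m))`: `i (ml (i s) m) = mr (i m) (i (i s))` (`vv_iml`), `vv_mrp`: `bk (ml (i s) m :: v) k = bk v (pm s (pm (i m) k))` with `v = mr x s :: w`, and `bk (mr x s :: w) (pm s k')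
= bk (x :: w) k'` (`bk_rtw`, `pi`). Q: `pm (i a) (pm (i b) k) = pm (i c) (pm (i d) k)`: apply `sqp` to `vv_sqi` (or to the inverse functions). C: induction.
`labs_rtw`: the last letter `m` becomes `mr m s` of the same type (`vv_mry`), the rest is the same; for a word with one entry both sides are 0.
`eqw_labs`: one step: T: `(m :: x :: w) -> (ml (i s) m :: mr x s :: w)`: the label of `m`: `bk (mr x s :: w) (ty (ml (i s) m)) = bk (x :: w) (pm (i s) (ty (ml (i s) m)))` (`bk_rtw`) `= bk (x :: w) (ty m)` (`mly`); the rest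
by `labs_rtw`. Q: `w` is not empty; labels of `a`: `bk w (ty a)`, of `b`: `bk w (pm (i a) (ty b)) = bk w (ty c)` (`tyb`, `pi`), of `c`: `bk w (ty c)`, of `d`: `bk w (ty a)`: `Multiset.cons_swap`. C: `eqw_bk`, induction.
`labs_card`: induction. `eqw_ty`: the labels of `b' :: u` and `a' :: u` are `bk u (ty b') ::ₘ labs u` and `bk u (ty a') ::ₘ labs u`, so `bk u (ty b') = bk u (ty a')` (`Multiset.cons_inj_left`), `bk_inj`.
-/

set_option autoImplicit false

namespace VTB

open LatIso LatN LatF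

variable {ι P A : Type} {Γ : SimpleGraph ι} {N : P → ι → Prop} {X : FD ι P A}

theorem labs_cons {p q : P} {w : List A} (m : A) (hw : Wd X p w q) :
    labs X (m :: w) = bk X w (X.ty m) ::ₘ labs X w := by
  obtain ⟨x, v, rfl, _⟩ := wd_end hw
  rfl

theorem bk_inj (hX : VV0 Γ N X) (w : List A) : Function.Injective (bk X w) := by
  induction w with
  | nil => exact fun _ _ h => h
  | cons m w ih =>
    intro a b h
    exact vv_pinj hX (X.i m) (ih h)

theorem bk_rtw (hX : VV0 Γ N X) {p q : P} {w : List A} {s : A} (hw : Wd X p w q)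
    (hs : ¬ X.mv s) (ho : X.o s = q) (k : ι) : bk X (rtw X s w) k = bk X w (X.pm (X.i s) k) := by
  obtain ⟨m, v, rfl, rfl⟩ := wd_end hw
  have hrc : X.rc m s := ⟨hs, ho⟩
  have h1 : bk X (rtw X s (m :: v)) k = bk X v (X.pm (X.i (X.mr m s)) k) := rfl
  have h2 : bk X (m :: v) (X.pm (X.i s) k) = bk X v (X.pm (X.i m) (X.pm (X.i s) k)) := rfl
  rw [h1, h2, vv_imr hX hrc, hX.mlp _ _ _ (vv_lc hX hrc)]

private theorem stw_bk (hX : VV0 Γ N X) {p : P} {w w' : List A} (h : Stw X w w') :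
    ∀ {q : P}, Wd X p w q → bk X w = bk X w' := by
  induction h with
  | T m x s w hrc ht =>
    intro q hw
    obtain ⟨_, hw2, _⟩ := wd_cc.1 hw
    funext k
    have hlc : X.lc (X.i s) m :=
      ⟨fun hm => hrc.1 ((hX.mi s).1 hm), by rw [hX.ti, hrc.2, ht]⟩
    have hrc2 : X.rc (X.i m) s := ⟨hrc.1, by rw [hX.ti, hrc.2, ht]⟩
    have h1 : bk X (X.ml (X.i s) m :: X.mr x s :: w) k =
        bk X (rtw X s (x :: w)) (X.pm (X.i (X.ml (X.i s) m)) k) := rfl
    have h2 : bk X (m :: x :: w) k = bk X (x :: w) (X.pm (X.i m) k) := rfl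
    rw [h1, h2, vv_iml hX hlc, hX.ii, vv_mrp hX hrc2,
      bk_rtw hX hw2 hrc.1 (by rw [hrc.2, ht]), hX.pi]
  | Q a b c d w hsq =>
    intro q _
    funext k
    have h1 : bk X (b :: a :: w) k = bk X w (X.pm (X.i a) (X.pm (X.i b) k)) := rfl
    have h2 : bk X (d :: c :: w) k = bk X w (X.pm (X.i c) (X.pm (X.i d) k)) := rfl
    rw [h1, h2, hX.sqp _ _ _ _ (vv_sqi hX hsq)]
  | C m w w' h ih =>
    intro q hw
    cases hw with
    | one => cases h
    | cons _ _ _ hw2 =>
      funext k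
      have h1 : bk X (m :: w) k = bk X w (X.pm (X.i m) k) := rfl
      have h2 : bk X (m :: w') k = bk X w' (X.pm (X.i m) k) := rfl
      rw [h1, h2, ih hw2]

theorem eqw_bk (hX : VV0 Γ N X) {p q : P} {w w' : List A} (hw : Wd X p w q) (h : Eqw X w w') :
    bk X w = bk X w' := by
  induction h with
  | refl => rfl
  | tail h1 h2 ih => exact ih.trans (stw_bk hX h2 (eqw_wd hX hw h1))

theorem labs_rtw (hX : VV0 Γ N X) {p q : P} {w : List A} {s : A} (hw : Wd X p w q)
    (hs : ¬ X.mv s) (ho : X.o s = q) : labs X (rtw X s w) = labs X w := by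
  obtain ⟨m, v, rfl, rfl⟩ := wd_end hw
  have hrc : X.rc m s := ⟨hs, ho⟩
  cases v with
  | nil => rfl
  | cons x v =>
    obtain ⟨hm, _, _⟩ := wd_cc.1 hw
    have h1 : labs X (rtw X s (m :: x :: v)) =
        bk X (x :: v) (X.ty (X.mr m s)) ::ₘ labs X (x :: v) := rfl
    have h2 : labs X (m :: x :: v) = bk X (x :: v) (X.ty m) ::ₘ labs X (x :: v) := rfl
    rw [h1, h2, vv_mry hX hrc hm]

private theorem stw_labs (hX : VV0 Γ N X) {p : P} {w w' : List A} (h : Stw X w w') :
    ∀ {q : P}, Wd X p w q → labs X w = labs X w' := by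
  induction h with
  | T m x s w hrc ht =>
    intro q hw
    obtain ⟨hm, hw2, _⟩ := wd_cc.1 hw
    have hlc : X.lc (X.i s) m :=
      ⟨fun hm => hrc.1 ((hX.mi s).1 hm), by rw [hX.ti, hrc.2, ht]⟩
    have ho : X.o s = X.o m := by rw [hrc.2, ht]
    have h1 : labs X (X.ml (X.i s) m :: X.mr x s :: w) =
        bk X (rtw X s (x :: w)) (X.ty (X.ml (X.i s) m)) ::ₘ labs X (rtw X s (x :: w)) := rfl
    have h2 : labs X (m :: x :: w) = bk X (x :: w) (X.ty m) ::ₘ labs X (x :: w) := rfl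
    rw [h1, h2, bk_rtw hX hw2 hrc.1 ho, labs_rtw hX hw2 hrc.1 ho, hX.mly _ _ hlc hm]
  | Q a b c d w hsq =>
    intro q hw
    have hT := hX.sqT _ _ _ _ hsq
    obtain ⟨_, hw2, _⟩ := wd_cc.1 hw
    have hw3 : Wd X p w (X.o a) := by
      generalize hq : X.o b = q2 at hw2
      cases hw2 with
      | one _ _ hs => exact absurd hT.ma hs
      | cons _ _ _ h => exact h
    have h1 : labs X (b :: a :: w) = bk X (a :: w) (X.ty b) ::ₘ labs X (a :: w) := rfl
    have h2 : labs X (d :: c :: w) = bk X (c :: w) (X.ty d) ::ₘ labs X (c :: w) := rfl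
    have h3 : bk X (a :: w) (X.ty b) = bk X w (X.pm (X.i a) (X.ty b)) := rfl
    have h4 : bk X (c :: w) (X.ty d) = bk X w (X.pm (X.i c) (X.ty d)) := rfl
    rw [h1, h2, labs_cons a hw3, labs_cons c hw3, h3, h4, hT.tyb, hT.tyd, hX.pi, hX.pi,
      Multiset.cons_swap]
  | C m w w' h ih =>
    intro q hw
    cases hw with
    | one => cases h
    | cons _ _ _ hw2 =>
      rw [labs_cons m hw2, labs_cons m (stw_wd hX hw2 h), ih hw2, stw_bk hX h hw2]

theorem eqw_labs (hX : VV0 Γ N X) {p q : P} {w w' : List A} (hw : Wd X p w q)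
    (h : Eqw X w w') : labs X w = labs X w' := by
  induction h with
  | refl => rfl
  | tail h1 h2 ih => exact ih.trans (stw_labs hX h2 (eqw_wd hX hw h1))

theorem labs_card {p q : P} {w : List A} (hw : Wd X p w q) :
    Multiset.card (labs X w) + 1 = w.length := by
  induction hw with
  | one s _ _ => rfl
  | cons m w _ hw ih => rw [labs_cons m hw, Multiset.card_cons, ih, List.length_cons]

theorem eqw_ty (hX : VV0 Γ N X) {p q : P} {u : List A} {a b : A} (hu : Wd X p u q)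
    (ha : X.mv a) (hb : X.mv b) (ho : X.o a = q) (ho' : X.o b = q)
    (h : Eqw X (b :: u) (a :: u)) : X.ty b = X.ty a := by
  have h1 : Wd X p (b :: u) (X.t b) := Wd.cons b u hb (by rw [ho']; exact hu)
  have h2 := eqw_labs hX h1 h
  rw [labs_cons b hu, labs_cons a hu] at h2
  exact bk_inj hX u ((Multiset.cons_inj_left _).1 h2)

end VTB
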