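import Pool.Agent.Lib.MP_32d917_al_vt.W03

/-!
# W04: the Levi lemma (60 min)

Two statements (step lemma and the lemma). `LV X w w' a b` is the conclusion for the pair `a :: w`, `b :: w'`.
Induction on `n = w.length` (strong, over all `w w' a b`), and for fixed `n` induction on the chain (`Relation.ReflTransGen.head_induction_on`; all lists in the chain are words, `stw_wd`, and have the form `a₁ :: w₁`).
Empty chain: `a = b`, `w' = w`: (i) with `s = e (o a)` (`mle`, `rtw_e`). Step `a :: w -> a₁ :: w₁`, LV for `w₁ w' a₁ b` known: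
C: `a₁ = a`, `w ~ w₁`: (i) `w' ~ rtw s w₁ ~ rtw s w` (`eqw_rtw`). (ii) `w ~ w₁ ~ b' :: u`.
T: `w = x :: w0`, `a₁ = ml (i s) a`, `w₁ = rtw s w`, `X.rc x s`. (i) `w' ~ rtw s2 (rtw s w) = rtw (ml s s2) w` (`rtw_rtw`), `ml (i s) a = ml s2 b`, so `a = ml s (ml s2 b) = ml (ml s s2) b` (`vv_mli` for `i s` with `ii`; `mla`). (ii) `rtw s w ~ b' :: u`, `sq b' (ml (i s) a) a' b`:
`w = rtw (i s) (rtw s w) ~ mr b' (i s) :: u` (`rtw_i`, `eqw_rtw`) and `sq (mr b' (i s)) a a' b` by `sqm` with `i s` (`ml (i (i s)) (ml (i s) a) = a`).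
Q: `w = c :: w0`, `sq c a a1 c1`, `a₁ = c1`, `w₁ = a1 :: w0`. (i) `w' ~ mr a1 s :: w0`, `c1 = ml s b`: `sq c a (mr a1 s) (ml (i s) c1)` (`vv_sqm'`), `ml (i s) (ml s b) = b` (`vv_mli`): (ii) with `u = w0`, `b' = c`, `a' = mr a1 s`.
(ii) `a1 :: w0 ~ b2 :: u`, `w' ~ c2 :: u`, `sq b2 c1 c2 b`. The statement for shorter lists for `a1 :: w0 ~ b2 :: u` (`w0` is a word with end `o a1`, since `c1 :: a1 :: w0` is a word with more than... `a1` moving by `sqT`):
 (i') `u ~ rtw s w0`, `a1 = ml s b2`: `sq a1 c1 (ml s c2) b` (`sql`) and `sq a1 c1 c a` (`sqs`): `squ` gives `s'` with `rc c s'`, `ml s c2 = mr c s'`, `b = ml (i s') a`.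
   `w' ~ c2 :: u ~ c2 :: rtw s w0 ~ ml s c2 :: w0` (`eqw_T`, `eqw_symm`) `= rtw s' w`, and `a = ml s' b`: (i) with `s'`.
 (ii') `w0 ~ b3 :: t`, `u ~ a3 :: t`, `sq b3 a1 a3 b2`: `vv_cube` gives `sq b3 c c3 b4`, `sq a3 c2 c3 a4`, `sq b4 a a4 b`. `w = c :: w0 ~ c :: b3 :: t ~ b4 :: c3 :: t`, `w' ~ c2 :: u ~ c2 :: a3 :: t ~ a4 :: c3 :: t`: (ii) with `u := c3 :: t`.
The end points: `Wd X p w (X.o a)`; all side conditions (`X.lc`, `X.rc`, origins and targets) from `sqT`, `mlo`, `mlt`, `vv_mro`, `vv_mrt`.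
-/

set_option autoImplicit false

namespace VTB

open LatIso LatN LatF

variable {ι P A : Type} {Γ : SimpleGraph ι} {N : P → ι → Prop} {X : FD ι P A}

/-- conclusion of the Levi lemma for `a :: w ~ b :: w'` -/
def LV (X : FD ι P A) (w w' : List A) (a b : A) : Prop :=
  (∃ s, X.lc s b ∧ X.o s = X.o a ∧ a = X.ml s b ∧ Eqw X w' (rtw X s w)) ∨
    ∃ u b' a', Eqw X w (b' :: u) ∧ Eqw X w' (a' :: u) ∧ X.sq b' a a' b

private theorem levi_T (hX : VV0 Γ N X) {p : P} {w w' : List A} {a b s : A}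
    (hw : Wd X p w (X.o a)) (hs : ¬ X.mv s) (ho : X.o s = X.o a)
    (h : LV X (rtw X s w) w' (X.ml (X.i s) a) b) : LV X w w' a b := by
  have his : ¬ X.mv (X.i s) := fun hm => hs ((hX.mi s).1 hm)
  have hl : X.lc (X.i s) a := ⟨his, by rw [hX.ti, ho]⟩
  have hoa : X.o (X.ml (X.i s) a) = X.t s := by rw [hX.mlo _ _ hl, hX.oi]
  have hback : X.ml s (X.ml (X.i s) a) = a := by
    have h1 := vv_mli hX hl
    rwa [hX.ii] at h1
  have hw1 : Wd X p (rtw X s w) (X.t s) := rtw_wd hX hw hs ho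
  rcases h with ⟨s2, h1, h2, h3, h4⟩ | ⟨u, b', a', h1, h2, h3⟩
  · left
    rw [hoa] at h2
    have hl2 : X.lc s s2 := ⟨hs, h2.symm⟩
    have hm2 : ¬ X.mv (X.ml s s2) := fun hm => h1.1 ((hX.mlm _ _ hl2).1 hm)
    refine ⟨X.ml s s2, ⟨hm2, by rw [hX.mlt _ _ hl2, h1.2]⟩, by rw [hX.mlo _ _ hl2, ho], ?_, ?_⟩
    · rw [← hX.mla _ _ _ hl2 h1, ← h3, hback]
    · rw [← rtw_rtw hX hw hs ho ⟨h1.1, h2⟩]
      exact h4
  · right
    have hT := hX.sqT _ _ _ _ h3
    have hr : X.rc b' (X.i s) := ⟨his, by rw [hX.oi, hT.tab, hoa]⟩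
    refine ⟨u, X.mr b' (X.i s), a', ?_, h2, ?_⟩
    · have e1 := eqw_rtw hX hw1 his (hX.oi s) h1
      rw [rtw_i hX hw hs ho] at e1
      exact e1
    · have e1 := hX.sqm _ _ _ _ _ h3 hr
      rwa [hX.ii, hback] at e1

private theorem levi_C (hX : VV0 Γ N X) {p : P} {w w₁ w' : List A} {a b : A}
    (hw : Wd X p w (X.o a)) (hst : Stw X w w₁) (h : LV X w₁ w' a b) : LV X w w' a b := by
  have hone : Eqw X w w₁ := Relation.ReflTransGen.single hst
  rcases h with ⟨s, h1, h2, h3, h4⟩ | ⟨u, b', a', h1, h2, h3⟩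
  · exact Or.inl ⟨s, h1, h2, h3, eqw_trans h4 (eqw_symm hX (eqw_rtw hX hw h1.1 h2 hone))⟩
  · exact Or.inr ⟨u, b', a', eqw_trans hone h1, h2, h3⟩

private theorem levi_Q (hX : VV0 Γ N X) {p : P} {w0 w' : List A} {a b c a1 c1 : A}
    (hsq : X.sq c a a1 c1) (hw0 : Wd X p w0 (X.o a1))
    (IH : ∀ (u : List A) (b2 : A), Eqw X (a1 :: w0) (b2 :: u) → LV X w0 u a1 b2)
    (h : LV X (a1 :: w0) w' c1 b) : LV X (c :: w0) w' a b := by
  have hT := hX.sqT _ _ _ _ hsq
  rcases h with ⟨s, h1, h2, h3, h4⟩ | ⟨u, b2, c2, h1, h2, h3⟩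
  · right
    have hr : X.rc a1 s := ⟨h1.1, by rw [h2, hT.tcd]⟩
    refine ⟨w0, c, X.mr a1 s, eqw_refl _, h4, ?_⟩
    have e1 := vv_sqm' hX hsq hr
    rwa [h3, vv_mli hX h1] at e1
  · have hT3 := hX.sqT _ _ _ _ h3
    rcases IH u b2 h1 with ⟨s, k1, k2, k3, k4⟩ | ⟨t, b3, a3, k1, k2, k3⟩
    · left
      have e1 := hX.sql _ _ _ _ _ h3 k1
      rw [← k3] at e1
      obtain ⟨s', m1, m2, m3⟩ := hX.squ _ _ _ _ _ _ (hX.sqs _ _ _ _ hsq) e1
      have his : ¬ X.mv (X.i s') := fun hm => m1.1 ((hX.mi s').1 hm)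
      have hos : X.o s' = X.o a := by rw [m1.2, hT.tab]
      have hl : X.lc (X.i s') a := ⟨his, by rw [hX.ti, hos]⟩
      refine ⟨s', ⟨m1.1, ?_⟩, hos, ?_, ?_⟩
      · rw [m3, hX.mlo _ _ hl, hX.oi]
      · have e2 := vv_mli hX hl
        rw [hX.ii, ← m3] at e2
        exact e2.symm
      · have hlc2 : X.lc s c2 := ⟨k1.1, by rw [k1.2, hT3.oac]⟩
        have e2 : Eqw X (X.ml s c2 :: w0) (c2 :: rtw X s w0) := eqw_T hX hw0 hlc2 k2
        have e3 : Eqw X w' (X.ml s c2 :: w0) :=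
          eqw_trans h2 (eqw_trans (eqw_cons c2 k4) (eqw_symm hX e2))
        rw [m2] at e3
        exact e3
    · right
      obtain ⟨c3, b4, a4, m1, m2, m3⟩ := vv_cube hX hsq k3 h3
      exact ⟨c3 :: t, b4, a4, eqw_trans (eqw_cons c k1) (eqw_Q t m1),
        eqw_trans h2 (eqw_trans (eqw_cons c2 k2) (eqw_Q t m2)), m3⟩

theorem levi (hX : VV0 Γ N X) {p : P} {w w' : List A} {a b : A} (hw : Wd X p w (X.o a))
    (ha : X.mv a) (h : Eqw X (a :: w) (b :: w')) : LV X w w' a b := by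
  obtain ⟨n, hn⟩ : ∃ n, w.length = n := ⟨_, rfl⟩
  induction n using Nat.strong_induction_on generalizing w w' a b with
  | _ n IH =>
    have key : ∀ x, Relation.ReflTransGen (Stw X) x (b :: w') → ∀ a w, x = a :: w →
        w.length = n → Wd X p w (X.o a) → X.mv a → LV X w w' a b := by
      intro x hx
      induction hx using Relation.ReflTransGen.head_induction_on with
      | refl =>
        intro a w hxa _ hw ha
        obtain ⟨rfl, rfl⟩ := List.cons.inj hxa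
        refine Or.inl ⟨X.e (X.o b), ⟨hX.me _, hX.te _⟩, hX.oe _, (hX.mle b).symm, ?_⟩
        rw [rtw_e hX hw]
        exact eqw_refl _
      | head hst hch ih =>
        intro a w hxa hn hw ha
        have hwd : Wd X p (a :: w) (X.t a) := Wd.cons a w ha hw
        cases hst with
        | T m x0 s w0 hr ht =>
          obtain ⟨rfl, rfl⟩ := List.cons.inj hxa
          have ho : X.o s = X.o m := by rw [hr.2, ht]
          have his : ¬ X.mv (X.i s) := fun hm => hr.1 ((hX.mi s).1 hm)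
          have hl : X.lc (X.i s) m := ⟨his, by rw [hX.ti, ho]⟩
          refine levi_T hX hw hr.1 ho (ih _ _ rfl ?_ ?_ ((hX.mlm _ _ hl).2 ha))
          · exact hn
          · have e1 := rtw_wd hX hw hr.1 ho
            rw [hX.mlo _ _ hl, hX.oi]
            exact e1
        | Q c m a1 c1 w0 hsq =>
          obtain ⟨rfl, rfl⟩ := List.cons.inj hxa
          have hT := hX.sqT _ _ _ _ hsq
          have hwd2 : Wd X p (c1 :: a1 :: w0) (X.t m) := stw_wd hX hwd (Stw.Q c m a1 c1 w0 hsq)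
          have h2 := wd_cc.1 hwd2
          cases w0 with
          | nil => exact absurd hT.ma (wd_one.1 hw).2.1
          | cons y v =>
            have hw0 : Wd X p (y :: v) (X.o a1) := (wd_cc.1 h2.2.1).2.1
            refine levi_Q hX hsq hw0 (fun u b2 hu => ?_) (ih _ _ rfl ?_ h2.2.1 h2.1)
            · refine IH (y :: v).length ?_ hw0 hT.mc hu rfl
              rw [← hn]
              simp
            · rw [← hn]
              rfl
        | C m w0 w1 hs =>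
          obtain ⟨rfl, rfl⟩ := List.cons.inj hxa
          refine levi_C hX hw hs (ih _ _ rfl ?_ (stw_wd hX hw hs) ha)
          rw [← stw_len hs, hn]
    exact key _ h a w rfl hn hw ha

end VTB
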