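import Pool.Agent.Lib.MP_32d917_al_vt.W04

/-!
# W05: consequences of the Levi lemma (30 min)

`levi_cancel`: (i) `ml s a = a`, so `s = e (o a)` (`mlf`) and `v' ~ rtw e v = v` (`rtw_e`). (ii) `sq b' a a' a` is impossible (`vv_nob`).
`rtw_fix`: induction on `w`. `w = [x]`: `Eqw [mr x s] [x]` gives `mr x s = x` (`eqw_one`), `vv_mrf`. `w = m :: v`, `mr m s :: v ~ m :: v` (the left side is a word with last letter `mr m s`, `X.o (mr m s) = X.o m`): Levi: (i) `s'` with `mr m s = ml s' m`, `v ~ rtw s' v`: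
`s' = e _` by induction (`eqw_symm`), so `mr m s = m` (`mle`), `vv_mrf`. (ii) `v ~ b' :: u`, `v ~ a' :: u`, `sq b' (mr m s) a' m`: `b' :: u ~ a' :: u`, so `ty b' = ty a'` (`eqw_ty`; `u` is a word since `b' :: u` is a word by `eqw_wd`, `b'` moving), against `SqT.ne`.
`one_inj`: Levi: (i) `[e p] ~ rtw s [e p]`, so `mr (e p) s = e p`; `mr (e p) s = ml (e p) s = s` (`mrs`, `mle`): `s = e p`, `a = ml (e p) b = b`. (ii) `[e p] ~ b' :: u`, so `b' = e p` (`eqw_one`), but `b'` is moving, `me`.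
`two_sq`: Levi for `b :: (a :: [e p]) ~ d :: (c :: [e p])`: (i) `c :: [e p] ~ mr a s :: [e p]`: `c = mr a s` (`one_inj`), `ty c = ty a` (`vv_mry`): excluded. (ii) `a :: [e p] ~ b' :: u`, `c :: [e p] ~ a' :: u`, `sq b' b a' d`: `u = [x]` (length). Levi for `a :: [e p] ~ b' :: [x]`:
(i) `[x] ~ rtw s [e p] = [s]`, `a = ml s b'`, `x = s`; (ii) impossible as before. In the same way `c = ml x a'`. `sql`: `sq (ml x b') b (ml x a') d`.
-/

set_option autoImplicit false

namespace VTB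

open LatIso LatN LatF

variable {ι P A : Type} {Γ : SimpleGraph ι} {N : P → ι → Prop} {X : FD ι P A}

theorem levi_cancel (hX : VV0 Γ N X) {p : P} {v v' : List A} {a : A} (hv : Wd X p v (X.o a))
    (ha : X.mv a) (h : Eqw X (a :: v) (a :: v')) : Eqw X v v' := by
  rcases levi hX hv ha h with ⟨s, h1, _, h3, h4⟩ | ⟨_, _, _, _, _, h3⟩
  · have h5 := hX.mlf _ _ h1 h3.symm
    rw [h5, rtw_e hX hv] at h4
    exact eqw_symm hX h4
  · exact absurd h3 (vv_nob hX)

private theorem W05_cons {p q : P} {m : A} {u : List A} (h : Wd X p (m :: u) q) (hm : X.mv m) :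
    Wd X p u (X.o m) := by
  cases h with
  | one _ _ h2 => exact absurd hm h2
  | cons _ _ _ h2 => exact h2

private theorem W05_ep (hX : VV0 Γ N X) {p : P} {s : A} (hs : ¬ X.mv s) (ho : X.o s = p) :
    X.mr (X.e p) s = s := by
  rw [hX.mrs _ _ (hX.me p) ⟨hs, by rw [hX.te, ho]⟩, ← ho, hX.mle]

private theorem W05_wp (hX : VV0 Γ N X) (p : P) : Wd X p [X.e p] p := by
  have h1 := Wd.one (X := X) (p := p) (X.e p) (hX.oe p) (hX.me p)
  rwa [hX.te] at h1

/-- a letter followed by a word with one entry -/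
private theorem W05_base (hX : VV0 Γ N X) {p : P} {a b x : A} (ha : X.mv a) (ho : X.o a = p)
    (h : Eqw X [a, X.e p] [b, x]) : X.lc x b ∧ a = X.ml x b := by
  have hw : Wd X p [X.e p] (X.o a) := by
    rw [ho]
    exact W05_wp hX p
  rcases levi hX hw ha h with ⟨s, h1, h2, h3, h4⟩ | ⟨u, b', _, h1, _, h3⟩
  · have h5 : rtw X s [X.e p] = [s] := by
      show [X.mr (X.e p) s] = [s]
      rw [W05_ep hX h1.1 (h2.trans ho)]
    rw [h5] at h4
    have h6 := eqw_one h4
    injection h6 with h7 _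
    rw [← h7]
    exact ⟨h1, h3⟩
  · have h4 := eqw_one h1
    injection h4 with h5 _
    have h6 := (hX.sqT _ _ _ _ h3).ma
    rw [h5] at h6
    exact absurd h6 (hX.me p)

theorem rtw_fix (hX : VV0 Γ N X) {p q : P} {w : List A} {s : A} (hw : Wd X p w q)
    (hs : ¬ X.mv s) (ho : X.o s = q) (h : Eqw X (rtw X s w) w) : s = X.e q := by
  induction w generalizing q s with
  | nil => cases hw
  | cons m v ih =>
    cases v with
    | nil =>
      obtain ⟨_, _, h3⟩ := wd_one.1 hw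
      have h4 := eqw_one (X := X) (s := X.mr m s) (w := [m]) h
      injection h4 with h5 _
      rw [h3]
      exact vv_mrf hX ⟨hs, by rw [ho, h3]⟩ h5.symm
    | cons y v =>
      obtain ⟨h1, h2, h3⟩ := wd_cc.1 hw
      have hr : X.rc m s := ⟨hs, by rw [ho, h3]⟩
      have h4 : Wd X p (y :: v) (X.o (X.mr m s)) := by
        rw [vv_mro hX hr]
        exact h2
      rcases levi hX h4 ((vv_mrm hX hr).2 h1) h with ⟨s', k1, k2, k3, k4⟩ | ⟨u, b', a', k1, k2, k3⟩
      · rw [vv_mro hX hr] at k2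
        have k5 := ih h2 k1.1 k2 (eqw_symm hX k4)
        rw [k5, hX.mle] at k3
        rw [h3]
        exact vv_mrf hX hr k3
      · exfalso
        have hT := hX.sqT _ _ _ _ k3
        have h5 := W05_cons (eqw_wd hX h2 k1) hT.ma
        exact hT.ne (eqw_ty hX h5 hT.mc hT.ma hT.oac.symm rfl
          (eqw_trans (eqw_symm hX k1) k2))

theorem one_inj (hX : VV0 Γ N X) {p : P} {a b : A} (ha : X.mv a) (hb : X.mv b) (ho : X.o a = p)
    (ho' : X.o b = p) (h : Eqw X [a, X.e p] [b, X.e p]) : a = b := by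
  have h1 := (W05_base hX ha ho h).2
  rwa [← ho', hX.mle] at h1

theorem two_sq (hX : VV0 Γ N X) {p : P} {a b c d : A} (ha : X.mv a) (hb : X.mv b)
    (hc : X.mv c) (hd : X.mv d) (hoa : X.o a = p) (hoc : X.o c = p) (hab : X.t a = X.o b)
    (hcd : X.t c = X.o d) (hne : X.ty a ≠ X.ty c)
    (h : Eqw X [b, a, X.e p] [d, c, X.e p]) : X.sq a b c d := by
  have hw : Wd X p [X.e p] (X.o a) := by
    rw [hoa]
    exact W05_wp hX p
  have hw2 : Wd X p [a, X.e p] (X.o b) := by
    rw [← hab]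
    exact Wd.cons a _ ha hw
  rcases levi hX hw2 hb h with ⟨s, h1, h2, h3, h4⟩ | ⟨u, b', a', h1, h2, h3⟩
  · exfalso
    have hr : X.rc a s := ⟨h1.1, by rw [h2, hab]⟩
    have h5 := one_inj hX (p := p) hc ((vv_mrm hX hr).2 ha) hoc
      (by rw [vv_mro hX hr, hoa]) h4
    exact hne (by rw [h5, vv_mry hX hr ha])
  · have h4 := eqw_len h1
    have h5 : u.length = 1 := by
      rw [List.length_cons, List.length_cons, List.length_cons, List.length_nil] at h4
      omega
    obtain ⟨x, rfl⟩ := List.length_eq_one_iff.1 h5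
    obtain ⟨k1, k2⟩ := W05_base hX ha hoa h1
    obtain ⟨_, k3⟩ := W05_base hX hc hoc h2
    have k4 := hX.sql _ _ _ _ x h3 k1
    rwa [← k2, ← k3] at k4

end VTB
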