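import Pool.Agent.Lib.MP_32d917_al_vt.W05

/-!
# W06: reduced words (50 min)

`Redw X (m :: w)` is by definition `Redw X w ∧ ∀ v, ¬ Eqw X w (X.i m :: v)`. `red_one`: the empty list is not equivalent to a nonempty list (`eqw_len`).
`ew_rtw`: if `rtw s w ~ X.i a :: v` then `w = rtw (i s) (rtw s w) ~ mr (i a) (i s) :: v = i (ml s a) :: v` (`vv_iml`, `eqw_rtw`, `rtw_i`).
`red_rtw`: `w = m :: v`: suppose `v ~ i (mr m s) :: z = ml (i s) (i m) :: z` (`vv_imr`) `~ i m :: rtw (i s) z` (`eqw_T`; `z` is a word: `v` is a word if `m` is moving; if `w = [m]`, `v = []` clear).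
`red_inv`: strong induction on the length of `w`. `w = a :: v` with `a` moving (if `w = [s]` then `w' = [s]`), `w' = b :: z`, to show: `Redw z` and not `z ~ i b :: y`. Levi (`levi`):
 (i) `z ~ rtw s v`, `a = ml s b`: `Redw z` by `red_rtw` and induction. If `z ~ i b :: y` then `rtw s v ~ i b :: y`, `v ~ i (ml s b) :: y` (`ew_rtw`) `= i a :: y`: contradiction.
 (ii) `v ~ b' :: u`, `z ~ a' :: u`, `sq b' a a' b`. By induction `Redw (b' :: u)`, so `Redw u`. If `z` is not reduced then `a' :: u` is not reduced (induction, contrapositive, `z` is shorter), so `u ~ i a' :: y`, and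
   `v ~ b' :: u ~ b' :: i a' :: y ~ i a :: b :: y` (Q for `sq (i a') b' b (i a)`: `sqs` and `sqr`): contradiction. If `z ~ i b :: y`: `a' :: u ~ i b :: y`, Levi: (1) `a' = ml s (i b)`: `i a' = mr b (i s)` (`vv_iml`, `ii`), so `ty (i a') = ty b` (`vv_mry`), against `vv_tyi` for `sqs`.
   (2) `u ~ b2 :: t`, `y ~ a2 :: t`, `sq b2 a' a2 (i b)`; also `sq (i b') a' a (i b)` (`sqr`); `vv_sqz`: `b2 = ml s (i b')`, so `v ~ b' :: u ~ b' :: ml s (i b') :: t ~ b' :: i b' :: rtw s t` (`eqw_T`): this is not reduced (`i b' :: rtw s t` is equivalent to itself, `Eqw X w (X.i m :: _)` with `m = b'`),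
   but `v` is reduced: contradiction to the induction hypothesis for `v` (shorter than `w`).
`ew_uniq`: `levi_cancel`. `ew_red`: `red_inv`: `i a :: v` is reduced.
-/

set_option autoImplicit false

namespace VTB

open LatIso LatN LatF

variable {ι P A : Type} {Γ : SimpleGraph ι} {N : P → ι → Prop} {X : FD ι P A}

private theorem vw06_inv {p q : P} {m : A} {w : List A} (h : Wd X p (m :: w) q)
    (hm : X.mv m) : Wd X p w (X.o m) ∧ q = X.t m := by
  cases h with
  | one _ _ h2 => exact absurd hm h2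
  | cons _ _ _ h2 => exact ⟨h2, rfl⟩

private theorem vw06_cases {p q : P} {w : List A} (h : Wd X p w q) :
    (∃ s, w = [s] ∧ ¬ X.mv s) ∨
      ∃ m v, w = m :: v ∧ X.mv m ∧ Wd X p v (X.o m) ∧ q = X.t m := by
  cases h with
  | one s _ h2 => exact Or.inl ⟨s, rfl, h2⟩
  | cons m v h1 h2 => exact Or.inr ⟨m, v, rfl, h1, h2, rfl⟩

theorem red_one (s : A) : Redw X [s] := by
  refine ⟨trivial, fun v h => ?_⟩
  have := eqw_len h
  simp at this

theorem ew_rtw (hX : VV0 Γ N X) {p q : P} {w v : List A} {s a : A} (hw : Wd X p w q)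
    (hs : X.lc s a) (ho : X.o s = q) (h : Eqw X (rtw X s w) (X.i a :: v)) :
    Eqw X w (X.i (X.ml s a) :: v) := by
  have h1 : Wd X p (rtw X s w) (X.t s) := rtw_wd hX hw hs.1 ho
  have h2 := eqw_rtw (s := X.i s) hX h1 (fun hm => hs.1 ((hX.mi s).1 hm)) (hX.oi s) h
  rw [rtw_i hX hw hs.1 ho] at h2
  rw [vv_iml hX hs]
  exact h2

theorem red_rtw (hX : VV0 Γ N X) {p q : P} {w : List A} {s : A} (hw : Wd X p w q)
    (hs : ¬ X.mv s) (ho : X.o s = q) (h : Redw X w) : Redw X (rtw X s w) := by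
  cases hw with
  | one s0 h1 h2 => exact red_one _
  | cons m v hm hv =>
    refine ⟨h.1, fun z hz => ?_⟩
    have hrc : X.rc m s := ⟨hs, ho⟩
    have hlc : X.lc (X.i s) (X.i m) := vv_lc hX hrc
    rw [vv_imr hX hrc] at hz
    have h1 := eqw_wd hX hv hz
    have h2 := (vw06_inv h1 ((hX.mlm _ _ hlc).2 ((hX.mi m).2 hm))).1
    rw [hX.mlo _ _ hlc] at h2
    exact h.2 _ (eqw_trans hz (eqw_T hX h2 hlc rfl))

private theorem vw06_inv_ind (hX : VV0 Γ N X) {p : P} : ∀ (n : ℕ) (w w' : List A) (q : P),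
    w.length = n → Wd X p w q → Redw X w → Eqw X w w' → Redw X w' := by
  intro n
  induction n using Nat.strong_induction_on with
  | _ n ih =>
  intro w w' q hn hw hr h
  cases hw with
  | one s h1 h2 =>
    rw [eqw_one h]
    exact red_one s
  | cons a v ha hv =>
    have hvn : v.length < n := by
      rw [← hn, List.length_cons]
      exact Nat.lt_succ_self _
    have hlen := eqw_len h
    have hw' := eqw_wd hX (Wd.cons a v ha hv) h
    have hvpos : 0 < v.length := by
      rcases vw06_cases hv with ⟨s, hs, _⟩ | ⟨m, v', hv', _⟩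
      · rw [hs]
        simp
      · rw [hv']
        simp
    rcases vw06_cases hw' with ⟨s, hs, _⟩ | ⟨b, z, hbz, hb, hz, _⟩
    · rw [hs, List.length_cons, List.length_singleton] at hlen
      omega
    subst hbz
    have hzlen : z.length = v.length := by
      rw [List.length_cons, List.length_cons] at hlen
      omega
    rcases levi hX hv ha h with ⟨s, hlc, hos, hab, hzs⟩ | ⟨u, b', a', hvb, hza, hsq⟩
    · -- the letters differ by a stationary arrow
      have h1 : Wd X p (rtw X s v) (X.t s) := rtw_wd hX hv hlc.1 hos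
      refine ⟨ih v.length hvn (rtw X s v) z _ (rtw_len s v) h1 (red_rtw hX hv hlc.1 hos hr.1)
        (eqw_symm hX hzs), fun y hy => ?_⟩
      have h2 := ew_rtw hX hv hlc hos (eqw_trans (eqw_symm hX hzs) hy)
      rw [← hab] at h2
      exact hr.2 y h2
    · -- a square
      have hT := hX.sqT _ _ _ _ hsq
      have hsq' := hX.sqs _ _ _ _ hsq
      have hbu : Redw X (b' :: u) := ih v.length hvn v (b' :: u) _ rfl hv hr.1 hvb
      have hwu : Wd X p u (X.o b') := (vw06_inv (eqw_wd hX hv hvb) hT.ma).1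
      have hwau : Wd X p (a' :: u) (X.t a') :=
        Wd.cons a' u hT.mc (by rw [← hT.oac]; exact hwu)
      have hau : Redw X (a' :: u) := by
        refine ⟨hbu.1, fun y hy => ?_⟩
        have h1 : X.sq (X.i a') b' b (X.i a) := hX.sqr _ _ _ _ hsq'
        exact hr.2 (b :: y) (eqw_trans hvb (eqw_trans (eqw_cons b' hy) (eqw_Q y h1)))
      have haulen : (a' :: u).length = v.length := by
        rw [← hzlen]
        exact (eqw_len hza).symm
      refine ⟨ih v.length hvn (a' :: u) z _ haulen hwau hau (eqw_symm hX hza), fun y hy => ?_⟩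
      have h2 : Eqw X (a' :: u) (X.i b :: y) := eqw_trans (eqw_symm hX hza) hy
      have hwu' : Wd X p u (X.o a') := by rw [← hT.oac]; exact hwu
      rcases levi hX hwu' hT.mc h2 with ⟨s, hlc, hos, hab, _⟩ | ⟨t, b2, a2, hub, _, hsq2⟩
      · have h3 : X.i a' = X.mr b (X.i s) := by
          rw [hab, vv_iml hX hlc, hX.ii]
        have hrc : X.rc b (X.i s) := by
          refine ⟨fun hm => hlc.1 ((hX.mi s).1 hm), ?_⟩
          rw [hX.oi, hlc.2, hX.oi]
        have h4 := vv_mry hX hrc hb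
        rw [← h3] at h4
        exact vv_tyi hX hsq' h4
      · have hT2 := hX.sqT _ _ _ _ hsq2
        obtain ⟨s, hlc, hb2, _⟩ := vv_sqz hX (hX.sqr _ _ _ _ hsq) hsq2
        have h3 : Wd X p t (X.o b2) := (vw06_inv (eqw_wd hX hwu hub) hT2.ma).1
        rw [hb2, hX.mlo _ _ hlc] at h3
        rw [hb2] at hub
        exact hbu.2 _ (eqw_trans hub (eqw_T hX h3 hlc rfl))

theorem red_inv (hX : VV0 Γ N X) {p q : P} {w w' : List A} (hw : Wd X p w q) (hr : Redw X w)
    (h : Eqw X w w') : Redw X w' := by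
  exact vw06_inv_ind hX w.length w w' q rfl hw hr h

theorem ew_uniq (hX : VV0 Γ N X) {p q : P} {w v v' : List A} {a : A} (hw : Wd X p w q)
    (ha : X.mv a) (h : Eqw X w (X.i a :: v)) (h' : Eqw X w (X.i a :: v')) : Eqw X v v' := by
  have hm : X.mv (X.i a) := (hX.mi a).2 ha
  exact levi_cancel hX (vw06_inv (eqw_wd hX hw h) hm).1 hm (eqw_trans (eqw_symm hX h) h')

theorem ew_red (hX : VV0 Γ N X) {p q : P} {w v : List A} {a : A} (hw : Wd X p w q)
    (ha : X.mv a) (hr : Redw X w) (h : Eqw X w (X.i a :: v)) :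
    Wd X p v (X.t a) ∧ Redw X v ∧ Redw X (X.i a :: v) := by
  have hm : X.mv (X.i a) := (hX.mi a).2 ha
  have h1 := (vw06_inv (eqw_wd hX hw h) hm).1
  rw [hX.oi] at h1
  have h2 := red_inv hX hw hr h
  exact ⟨h1, h2.1, h2⟩

end VTB
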