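import Pool.Agent.Lib.MP_32d917_al_vt.W06

/-!
# W07: the next word: first properties (50 min)

`Nx X w a v`: `v` is the reduced word after the arrow `a` (`X.o a` = end of `w`). `nx_ex`: classical cases. `nx_wd`: `rtw_wd`, `red_rtw`; `ew_red`; definition of `Redw`.
`nx_eq`: cases; the cases `bw`/`fw` exclude each other for equivalent words; `eqw_rtw`, `ew_uniq`, `eqw_cons`. `nx_e`: `rtw_e`.
`nx_i`: stationary: `rtw_i`. `bw`: `w ~ i a :: v`; for `v` and `i a`: if `v ~ i (i a) :: v'` then `i a :: v` is not reduced (`ew_red`), so only `fw` is possible: `v' = i a :: v ~ w`. `fw`: `v = a :: w ~ i (i a) :: w`: if `Nx v (i a) v'` by `bw`: `v ~ i (i a) :: v'`, so `v' ~ w` (`ew_uniq`);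
`fw` is impossible. `nx_ml`: `s` stationary, `v = rtw s w`. `a` stationary: `rtw_rtw` (`ml s a` is stationary, `mlm`). `a` moving: `rtw s w ~ i a :: v'` iff `w ~ i (ml s a) :: v'` (`ew_rtw`, conversely `eqw_rtw`: `rtw s (i (ml s a) :: v') = mr (i (ml s a)) s :: v'` and `i (ml s a) = mr (i a) (i s)` (`vv_iml`), `vv_mri`);
if none: `a :: rtw s w ~ ml s a :: w` (`eqw_T`).
-/

set_option autoImplicit false

namespace VTB

open LatIso LatN LatF

variable {ι P A : Type} {Γ : SimpleGraph ι} {N : P → ι → Prop} {X : FD ι P A}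

theorem nx_ex (w : List A) (a : A) : ∃ v, Nx X w a v := by
  by_cases hm : X.mv a
  · by_cases h : ∃ v, Eqw X w (X.i a :: v)
    · obtain ⟨v, hv⟩ := h
      exact ⟨v, Nx.bw v hm hv⟩
    · exact ⟨a :: w, Nx.fw hm (fun v hv => h ⟨v, hv⟩)⟩
  · exact ⟨_, Nx.st hm⟩

theorem nx_wd (hX : VV0 Γ N X) {p : P} {w v : List A} {a : A} (hw : Wd X p w (X.o a))
    (hr : Redw X w) (h : Nx X w a v) : Wd X p v (X.t a) ∧ Redw X v := by
  cases h with
  | st hm => exact ⟨rtw_wd hX hw hm rfl, red_rtw hX hw hm rfl hr⟩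
  | bw _ hm he =>
    have h1 := ew_red hX hw hm hr he
    exact ⟨h1.1, h1.2.1⟩
  | fw hm he => exact ⟨Wd.cons a w hm hw, hr, he⟩

theorem nx_eq (hX : VV0 Γ N X) {p : P} {w w' v v' : List A} {a : A} (hw : Wd X p w (X.o a))
    (he : Eqw X w w') (h : Nx X w a v) (h' : Nx X w' a v') : Eqw X v v' := by
  cases h with
  | st hm =>
    cases h' with
    | st _ => exact eqw_rtw hX hw hm rfl he
    | bw _ hm' _ => exact absurd hm' hm
    | fw hm' _ => exact absurd hm' hm
  | bw _ hm e1 =>
    cases h' with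
    | st hm' => exact absurd hm hm'
    | bw _ _ e2 => exact ew_uniq hX hw hm e1 (eqw_trans he e2)
    | fw _ e2 => exact absurd (eqw_trans (eqw_symm hX he) e1) (e2 _)
  | fw hm e1 =>
    cases h' with
    | st hm' => exact absurd hm hm'
    | bw _ _ e2 => exact absurd (eqw_trans he e2) (e1 _)
    | fw _ e2 => exact eqw_cons a he

theorem nx_e (hX : VV0 Γ N X) {p q : P} {w v : List A} (hw : Wd X p w q)
    (h : Nx X w (X.e q) v) : v = w := by
  cases h with
  | st hm => exact rtw_e hX hw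
  | bw _ hm _ => exact absurd hm (hX.me q)
  | fw hm _ => exact absurd hm (hX.me q)

theorem nx_i (hX : VV0 Γ N X) {p : P} {w v v' : List A} {a : A} (hw : Wd X p w (X.o a))
    (hr : Redw X w) (h : Nx X w a v) (h' : Nx X v (X.i a) v') : Eqw X v' w := by
  cases h with
  | st hm =>
    cases h' with
    | st _ =>
      rw [rtw_i hX hw hm rfl]
      exact eqw_refl w
    | bw _ hm' _ => exact absurd ((hX.mi a).1 hm') hm
    | fw hm' _ => exact absurd ((hX.mi a).1 hm') hm
  | bw _ hm e1 =>
    have h1 := ew_red hX hw hm hr e1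
    cases h' with
    | st hm' => exact absurd ((hX.mi a).2 hm) hm'
    | bw _ _ e2 => exact absurd e2 (h1.2.2.2 _)
    | fw _ e2 => exact eqw_symm hX e1
  | fw hm e1 =>
    cases h' with
    | st hm' => exact absurd ((hX.mi a).2 hm) hm'
    | bw _ _ e2 =>
      rw [hX.ii] at e2
      exact eqw_symm hX (levi_cancel hX hw hm e2)
    | fw _ e2 =>
      have h2 := e2 w
      rw [hX.ii] at h2
      exact absurd (eqw_refl _) h2

theorem nx_ml (hX : VV0 Γ N X) {p : P} {w v v' v'' : List A} {s a : A}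
    (hw : Wd X p w (X.o s)) (hs : X.lc s a) (h : Nx X w s v) (h' : Nx X v a v')
    (h'' : Nx X w (X.ml s a) v'') : Eqw X v' v'' := by
  cases h with
  | bw _ hm' _ => exact absurd hm' hs.1
  | fw hm' _ => exact absurd hm' hs.1
  | st hms =>
    have hmm : X.mv (X.ml s a) ↔ X.mv a := hX.mlm s a hs
    cases h' with
    | st hm =>
      cases h'' with
      | st _ =>
        rw [rtw_rtw hX hw hs.1 rfl ⟨hm, hs.2.symm⟩]
        exact eqw_refl _
      | bw _ hm' _ => exact absurd (hmm.1 hm') hm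
      | fw hm' _ => exact absurd (hmm.1 hm') hm
    | bw _ hm e1 =>
      have e3 := ew_rtw hX hw hs rfl e1
      cases h'' with
      | st hm' => exact absurd (hmm.2 hm) hm'
      | bw _ hm' e2 => exact ew_uniq hX hw hm' e3 e2
      | fw _ e2 => exact absurd e3 (e2 _)
    | fw hm e1 =>
      cases h'' with
      | st hm' => exact absurd (hmm.2 hm) hm'
      | bw _ hm' e2 =>
        have e3 := eqw_rtw hX hw hs.1 rfl e2
        have e4 : X.mr (X.i (X.ml s a)) s = X.i a := by
          have h5 := vv_mri hX (vv_rc hX hs)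
          rw [hX.ii] at h5
          rw [vv_iml hX hs, h5]
        rw [rtw, e4] at e3
        exact absurd e3 (e1 _)
      | fw _ e2 => exact eqw_symm hX (eqw_T hX hw hs rfl)

end VTB
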