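import Pool.Agent.Lib.MP_32d917_al_vt.W07

/-!
# W08: the next word: squares (50 min)

`sq a b c d`, `w` reduced with end `o a = o c`. Cases: `w` ends with `i a` (E a), with `i c` (E c), or not.
None: `v = a :: w`, `u = c :: w`. Not `a :: w ~ i b :: y`: Levi: (i) `a = ml s (i b)`: `i a = mr b (i s)`, so `ty (i a) = ty b` against `vv_tyi`; (ii) `w ~ b' :: t`, `y ~ a' :: t`, `sq b' a a' (i b)`; also `sq (i c) a d (i b)` (`sqs`, `sqr`: from `sq c d a b`: `sq (i c) a d (i b)`); `vv_sqz`: `b' = ml s (i c)`, so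
`w ~ ml s (i c) :: t ~ i c :: rtw s t` (`eqw_T`): E c: excluded. In the same way not `c :: w ~ i d :: y`. So `v' = b :: a :: w ~ d :: c :: w = u'` (`eqw_Q`).
E a, not E c: `w ~ i a :: v`, `u = c :: w ~ c :: i a :: v ~ i d :: b :: v` (`sq (i a) c b (i d)`, `sqr`, `eqw_Q`). So `u ~ i d :: (b :: v)`: `Nx u d u'` is by `bw` (`fw` impossible), and `u' ~ b :: v` (`ew_uniq`). `u` is reduced (`nx_wd`), so `b :: v` is reduced (`ew_red`), so `Nx v b v'` is `fw` (definition of `Redw (b :: v)`): `v' = b :: v`.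
E c, not E a: by symmetry (`sqs`): prove the previous case as a private lemma and use it twice.
Both: `w ~ i a :: v`, `w ~ i c :: u`. Levi for `i a :: v ~ i c :: u`: (i) `i a = ml s (i c)`: then `a = mr c (i s)`, so `ty a = ty c` (`vv_mry`): against `SqT.ne`. (ii) `v ~ b' :: t`, `u ~ a' :: t`, `sq b' (i a) a' (i c)`. `vv_sqi` gives `sq a (i b') c (i a')` (with `ii`); `vv_sqc`: `i b' = mr b s`, `i a' = mr d s`, `X.rc b s`.
So `b' = i (mr b s) = ml (i s) (i b)` (`vv_imr`), `v ~ ml (i s) (i b) :: t ~ i b :: rtw (i s) t` (`eqw_T`): `Nx v b v'` is by `bw` and `v' ~ rtw (i s) t` (`ew_uniq`). In the same way `u ~ i d :: rtw (i s) t`, `u' ~ rtw (i s) t`.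
-/

set_option autoImplicit false

namespace VTB

open LatIso LatN LatF

variable {ι P A : Type} {Γ : SimpleGraph ι} {N : P → ι → Prop} {X : FD ι P A}

private theorem w08_tail {p q : P} {m : A} {v : List A} (h : Wd X p (m :: v) q) (hm : X.mv m) :
    Wd X p v (X.o m) := by
  cases h with
  | one _ _ h2 => exact absurd hm h2
  | cons _ _ _ h2 => exact h2

/-- after `a` the word does not end with the inverse of `b` -/
private theorem w08_no (hX : VV0 Γ N X) {p : P} {w : List A} {a b c d : A}
    (hw : Wd X p w (X.o a)) (hs : X.sq a b c d) (nc : ∀ z, ¬ Eqw X w (X.i c :: z)) (y : List A) :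
    ¬ Eqw X (a :: w) (X.i b :: y) := by
  intro h
  have T := hX.sqT _ _ _ _ hs
  rcases levi hX hw T.ma h with ⟨s, h1, h2, h3, h4⟩ | ⟨t, b', a', h1, h2, h3⟩
  · have h5 : X.i a = X.mr b (X.i s) := by
      rw [h3, vv_iml hX h1, hX.ii]
    have h6 := vv_rc hX h1
    rw [hX.ii] at h6
    apply vv_tyi hX hs
    rw [h5, vv_mry hX h6 T.mb]
  · have h4 : X.sq (X.i c) a d (X.i b) := hX.sqr _ _ _ _ (hX.sqs _ _ _ _ hs)
    obtain ⟨s, h5, h6, h7⟩ := vv_sqz hX h4 h3
    have h8 := w08_tail (eqw_wd hX hw h1) (hX.sqT _ _ _ _ h3).ma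
    have h9 : X.o s = X.o b' := by rw [h6, hX.mlo _ _ h5]
    rw [h6] at h1
    exact nc _ (eqw_trans h1 (eqw_T hX h8 h5 h9))

/-- the word ends with the inverse of `a`, but not with the inverse of `c` -/
private theorem w08_one (hX : VV0 Γ N X) {p : P} {w v v' u u' : List A} {a b c d : A}
    (hw : Wd X p w (X.o a)) (hr : Redw X w) (hs : X.sq a b c d) (h : Nx X w a v)
    (h' : Nx X v b v') (k : Nx X w c u) (k' : Nx X u d u')
    (ea : ∃ z, Eqw X w (X.i a :: z)) (nc : ∀ z, ¬ Eqw X w (X.i c :: z)) : Eqw X v' u' := by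
  have T := hX.sqT _ _ _ _ hs
  have hwc : Wd X p w (X.o c) := by rw [← T.oac]; exact hw
  obtain ⟨z, hz⟩ := ea
  cases h with
  | st hm => exact absurd T.ma hm
  | fw _ e => exact absurd hz (e z)
  | bw _ _ e1 =>
    have ku := nx_wd hX hwc hr k
    cases k with
    | st hm => exact absurd T.mc hm
    | bw _ _ e => exact absurd e (nc _)
    | fw _ e =>
      have hu : Eqw X (c :: w) (X.i d :: b :: v) :=
        eqw_trans (eqw_cons c e1) (eqw_Q v (hX.sqr _ _ _ _ hs))
      have hwd : Wd X p (c :: w) (X.o d) := by rw [← T.tcd]; exact ku.1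
      have hred := ew_red hX hwd T.md ku.2 hu
      have h3 : Eqw X u' (b :: v) := by
        cases k' with
        | st hm => exact absurd T.md hm
        | bw _ _ e2 => exact ew_uniq hX hwd T.md e2 hu
        | fw _ e2 => exact absurd hu (e2 _)
      cases h' with
      | st hm => exact absurd T.mb hm
      | bw _ _ e3 => exact absurd e3 (hred.2.1.2 _)
      | fw _ _ => exact eqw_symm hX h3

/-- the word ends with the inverses of `a` and of `c`: the word before -/
private theorem w08_both (hX : VV0 Γ N X) {p q : P} {v v' t : List A} {b s b' : A}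
    (hv : Wd X p v q) (hb : X.mv b) (hm : X.mv b') (h1 : Eqw X v (b' :: t)) (h2 : X.rc b s)
    (h3 : X.i b' = X.mr b s) (h' : Nx X v b v') : Eqw X v' (rtw X (X.i s) t) := by
  have h4 : b' = X.ml (X.i s) (X.i b) := by
    rw [← hX.ii b', h3, vv_imr hX h2]
  have h5 := vv_lc hX h2
  have h6 := w08_tail (eqw_wd hX hv h1) hm
  have h7 : X.o (X.i s) = X.o b' := by rw [h4, hX.mlo _ _ h5]
  rw [h4] at h1
  have h8 := eqw_trans h1 (eqw_T hX h6 h5 h7)
  cases h' with
  | st hm' => exact absurd hb hm'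
  | bw _ _ e => exact ew_uniq hX hv hb e h8
  | fw _ e => exact absurd h8 (e _)

theorem nx_sq (hX : VV0 Γ N X) {p : P} {w v v' u u' : List A} {a b c d : A}
    (hw : Wd X p w (X.o a)) (hr : Redw X w) (hs : X.sq a b c d) (h : Nx X w a v)
    (h' : Nx X v b v') (k : Nx X w c u) (k' : Nx X u d u') : Eqw X v' u' := by
  have T := hX.sqT _ _ _ _ hs
  have hwc : Wd X p w (X.o c) := by rw [← T.oac]; exact hw
  by_cases ea : ∃ z, Eqw X w (X.i a :: z)
  · by_cases ec : ∃ z, Eqw X w (X.i c :: z)
    · obtain ⟨z, hz⟩ := ea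
      obtain ⟨z', hz'⟩ := ec
      have hv := nx_wd hX hw hr h
      have hu := nx_wd hX hwc hr k
      cases h with
      | st hm => exact absurd T.ma hm
      | fw _ e => exact absurd hz (e z)
      | bw _ _ e1 =>
        cases k with
        | st hm => exact absurd T.mc hm
        | fw _ e => exact absurd hz' (e z')
        | bw _ _ e2 =>
          have hv1 : Wd X p v (X.o (X.i a)) := by rw [hX.oi]; exact hv.1
          rcases levi hX hv1 ((hX.mi a).2 T.ma) (eqw_trans (eqw_symm hX e1) e2) with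
            ⟨s, h1, h2, h3, h4⟩ | ⟨t, b', a', h1, h2, h3⟩
          · have h5 : a = X.mr c (X.i s) := by
              rw [← hX.ii a, h3, vv_iml hX h1, hX.ii]
            have h6 := vv_rc hX h1
            rw [hX.ii] at h6
            exact absurd (by rw [h5, vv_mry hX h6 T.mc]) T.ne
          · have h4 := vv_sqi hX h3
            rw [hX.ii, hX.ii] at h4
            obtain ⟨s, h5, h6, h7⟩ := vv_sqc hX hs h4
            have T3 := hX.sqT _ _ _ _ h3
            have h8 : X.rc d s := ⟨h5.1, by rw [h5.2, T.tbd]⟩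
            exact eqw_trans (w08_both hX hv.1 T.mb T3.ma h1 h5 h6 h')
              (eqw_symm hX (w08_both hX hu.1 T.md T3.mc h2 h8 h7 k'))
    · exact w08_one hX hw hr hs h h' k k' ea (fun z hz => ec ⟨z, hz⟩)
  · by_cases ec : ∃ z, Eqw X w (X.i c :: z)
    · exact eqw_symm hX (w08_one hX hwc hr (hX.sqs _ _ _ _ hs) k k' h h' ec
        (fun z hz => ea ⟨z, hz⟩))
    · cases h with
      | st hm => exact absurd T.ma hm
      | bw _ _ e => exact absurd ⟨_, e⟩ ea
      | fw _ _ =>
        cases k with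
        | st hm => exact absurd T.mc hm
        | bw _ _ e => exact absurd ⟨_, e⟩ ec
        | fw _ _ =>
          have n1 := w08_no hX hw hs (fun z hz => ec ⟨z, hz⟩)
          have n2 := w08_no hX hwc (hX.sqs _ _ _ _ hs) (fun z hz => ea ⟨z, hz⟩)
          cases h' with
          | st hm => exact absurd T.mb hm
          | bw _ _ e => exact absurd e (n1 _)
          | fw _ _ =>
            cases k' with
            | st hm => exact absurd T.md hm
            | bw _ _ e => exact absurd e (n2 _)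
            | fw _ _ => exact eqw_Q w hs

end VTB
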