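import Pool.Agent.Lib.MP_32d917_al_vt.W07

/-!
# W09: words in sets with an action of the arrows (40 min)

`xs_mr`: as in `LatF.fttl_mr`: let `z' = act (act z b) s`; `act z' (ml (i s) (i b)) = act (act z' (i s)) (i b) = z` (`act_ml`, `act_i`), so `act z (i (ml ..)) = z'` (`act_i` at `z'`).
`ev_p`: induction (`act_p`; `ev z [s] = act z s`). `ev_rtw`: `w = m :: v`: `xs_mr` at `ev z v` (for `w = [m]` at `z`). `ev_eqw`: one step: T: `act (act (ev z w) (mr x s)) (ml (i s) m)`: `act_ml`, `xs_mr`, `act_i`. (if `w = []` then `ev z [] = z`.) Q: `act_sq`. C: induction; note that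
for a word `m :: w` the tail `w` is a word if it is not empty. `ev_inj`: induction on `w`, `act_i`. `catw_wd`, `ev_catw`: induction on `v`. `rtw_wd`, `ev_rtw`.
`xs_step`: the three cases of `Nx` (`ev_rtw`; `bw`: `ev z w = ev z (i a :: v) = act (ev z v) (i a)`, so `act (ev z w) a = ev z v` by `act_i` and `ii`). `xs_red`: induction on `w`, `xs_step` for the last letter (`w = [s]`: reduced, `red_one`).
-/

set_option autoImplicit false

namespace VTB

open LatIso LatN LatF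

variable {ι P A : Type} {Γ : SimpleGraph ι} {N : P → ι → Prop} {X : FD ι P A}

theorem xs_mr (hX : VV0 Γ N X) {Z : Type} (Y : XSet X Z) (z : Z) (b s : A) (hb : X.o b = Y.p z)
    (hs : X.rc b s) : Y.act z (X.mr b s) = Y.act (Y.act z b) s := by
  have h1 : Y.p (Y.act z b) = X.t b := Y.act_p _ _ hb
  have h2 : X.o s = Y.p (Y.act z b) := by rw [h1, hs.2]
  have h3 : Y.p (Y.act (Y.act z b) s) = X.t s := Y.act_p _ _ h2
  have h4 : Y.act (Y.act (Y.act z b) s) (X.ml (X.i s) (X.i b)) = z := by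
    rw [Y.act_ml _ _ _ (by rw [hX.oi, h3]) (vv_lc hX hs), Y.act_i _ _ h2, Y.act_i _ _ hb]
  have h5 : X.o (X.ml (X.i s) (X.i b)) = Y.p (Y.act (Y.act z b) s) := by
    rw [hX.mlo _ _ (vv_lc hX hs), hX.oi, h3]
  have h6 := Y.act_i _ _ h5
  rw [h4] at h6
  exact h6

theorem ev_p {Z : Type} (Y : XSet X Z) {z : Z} {w : List A} {q : P} (hw : Wd X (Y.p z) w q) :
    Y.p (Y.ev z w) = q := by
  induction hw with
  | one s ho hs => exact Y.act_p _ _ ho
  | cons m w hm hw ih => exact Y.act_p _ _ ih.symm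

theorem ev_rtw (hX : VV0 Γ N X) {Z : Type} (Y : XSet X Z) {z : Z} {w : List A} {q : P} {s : A}
    (hw : Wd X (Y.p z) w q) (hs : ¬ X.mv s) (ho : X.o s = q) :
    Y.ev z (rtw X s w) = Y.act (Y.ev z w) s := by
  cases hw with
  | one m hm hm' => exact xs_mr hX Y z m s hm ⟨hs, ho⟩
  | cons m v hm hv => exact xs_mr hX Y (Y.ev z v) m s (ev_p Y hv).symm ⟨hs, ho⟩

private theorem W09_stw (hX : VV0 Γ N X) {Z : Type} (Y : XSet X Z) {z : Z} {w w' : List A}
    (h : Stw X w w') : ∀ {q : P}, Wd X (Y.p z) w q → Y.ev z w = Y.ev z w' := by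
  induction h with
  | T m x s w hs ht =>
    intro q hw
    obtain ⟨hm, hxw, _⟩ := wd_cc.1 hw
    have e1 : Y.ev z (X.mr x s :: w) = Y.act (Y.ev z (x :: w)) s :=
      ev_rtw hX Y hxw hs.1 (by rw [hs.2, ht])
    have e2 : Y.p (Y.ev z (x :: w)) = X.o m := ev_p Y hxw
    have e3 : X.o s = Y.p (Y.ev z (x :: w)) := by rw [hs.2, ht, e2]
    have e4 : Y.p (Y.act (Y.ev z (x :: w)) s) = X.t s := Y.act_p _ _ e3
    have e5 : X.lc (X.i s) m := ⟨fun hh => hs.1 ((hX.mi s).1 hh), by rw [hX.ti, e3, e2]⟩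
    show Y.act (Y.ev z (x :: w)) m = Y.act (Y.ev z (X.mr x s :: w)) (X.ml (X.i s) m)
    rw [e1, Y.act_ml _ _ _ (by rw [hX.oi, e4]) e5, Y.act_i _ _ e3]
  | Q a b c d w hq =>
    intro q hw
    obtain ⟨hb, haw, _⟩ := wd_cc.1 hw
    have hma := (hX.sqT _ _ _ _ hq).ma
    have e1 : Y.p (Y.ev z w) = X.o a := by
      generalize hr : X.o b = r at haw
      cases haw with
      | one _ _ hh => exact absurd hma hh
      | cons _ _ _ hw' => exact ev_p Y hw'
    exact Y.act_sq _ _ _ _ _ e1.symm hq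
  | C m w w' hww ih =>
    intro q hw
    cases hw with
    | one _ _ _ => cases hww
    | cons _ _ _ hw' =>
      show Y.act (Y.ev z w) m = Y.act (Y.ev z w') m
      rw [ih hw']

theorem ev_eqw (hX : VV0 Γ N X) {Z : Type} (Y : XSet X Z) {z : Z} {w w' : List A} {q : P}
    (hw : Wd X (Y.p z) w q) (h : Eqw X w w') : Y.ev z w = Y.ev z w' := by
  unfold Eqw at h
  induction h with
  | refl => rfl
  | @tail b c hab hbc ih =>
    exact ih.trans (W09_stw hX Y hbc (eqw_wd hX hw hab))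

theorem ev_inj {Z : Type} (Y : XSet X Z) {z z' : Z} {w : List A} {q r : P}
    (hw : Wd X q w r) (hz : Y.p z = q) (hz' : Y.p z' = q) (h : Y.ev z w = Y.ev z' w) :
    z = z' := by
  induction hw with
  | one s ho hs =>
    have h1 : Y.act z s = Y.act z' s := h
    have h2 := Y.act_i z s (by rw [ho, hz])
    have h3 := Y.act_i z' s (by rw [ho, hz'])
    rw [← h2, h1, h3]
  | cons m w hm hw ih =>
    apply ih
    have h1 : Y.act (Y.ev z w) m = Y.act (Y.ev z' w) m := h
    have p1 : Y.p (Y.ev z w) = X.o m := by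
      have hw1 := hw
      rw [← hz] at hw1
      exact ev_p Y hw1
    have p2 : Y.p (Y.ev z' w) = X.o m := by
      have hw1 := hw
      rw [← hz'] at hw1
      exact ev_p Y hw1
    have h2 := Y.act_i _ m p1.symm
    have h3 := Y.act_i _ m p2.symm
    rw [← h2, h1, h3]

theorem catw_wd (hX : VV0 Γ N X) {p q r : P} {u v : List A} (hu : Wd X p u q)
    (hv : Wd X q v r) : Wd X p (catw X u v) r := by
  induction hv with
  | one s ho hs => exact rtw_wd hX hu hs ho
  | cons m w hm hw ih =>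
    obtain ⟨x, v, rfl, _⟩ := wd_end hw
    exact Wd.cons m _ hm ih

theorem ev_catw (hX : VV0 Γ N X) {Z : Type} (Y : XSet X Z) {z : Z} {q r : P} {u v : List A}
    (hu : Wd X (Y.p z) u q) (hv : Wd X q v r) : Y.ev z (catw X u v) = Y.ev (Y.ev z u) v := by
  induction hv with
  | one s ho hs => exact ev_rtw hX Y hu hs ho
  | cons m w hm hw ih =>
    obtain ⟨x, v, rfl, _⟩ := wd_end hw
    show Y.act (Y.ev z (catw X u (x :: v))) m = Y.act (Y.ev (Y.ev z u) (x :: v)) m
    rw [ih]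

theorem xs_step (hX : VV0 Γ N X) {Z : Type} (Y : XSet X Z) {z : Z} {w v : List A} {a : A}
    (hw : Wd X (Y.p z) w (X.o a)) (h : Nx X w a v) : Y.ev z v = Y.act (Y.ev z w) a := by
  cases h with
  | st ha => exact ev_rtw hX Y hw ha rfl
  | bw _ ha he =>
    have h1 : Y.ev z w = Y.act (Y.ev z v) (X.i a) := ev_eqw hX Y hw he
    have h2 := eqw_wd hX hw he
    have h3 : Y.p (Y.ev z v) = X.o (X.i a) := by
      generalize hr : X.o a = r at h2
      cases h2 with
      | one _ _ hh => exact absurd ((hX.mi a).2 ha) hh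
      | cons _ _ _ hw' => exact ev_p Y hw'
    have h4 := Y.act_i _ _ h3.symm
    rw [hX.ii] at h4
    rw [h1, h4]
  | fw ha hn => rfl

theorem xs_red (hX : VV0 Γ N X) {Z : Type} (Y : XSet X Z) {z : Z} {w : List A} {q : P}
    (hw : Wd X (Y.p z) w q) : ∃ w', Wd X (Y.p z) w' q ∧ Redw X w' ∧ Y.ev z w' = Y.ev z w := by
  induction hw with
  | one s ho hs => exact ⟨[s], Wd.one s ho hs, red_one s, rfl⟩
  | cons m w hm hw ih =>
    obtain ⟨w', h1, h2, h3⟩ := ih
    obtain ⟨v, hv⟩ := nx_ex (X := X) w' m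
    obtain ⟨h4, h5⟩ := nx_wd hX h1 h2 hv
    refine ⟨v, h4, h5, ?_⟩
    rw [xs_step hX Y h1 hv, h3]
    rfl

end VTB
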