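import Pool.Agent.Lib.MP_32d917_al_vt.W08
import Pool.Agent.Lib.MP_32d917_al_vt.W09

/-!
# W10: the set of frames (45 min)

`F := Quotient` of `RW X p0` by the setoid `Eqw X v.1 w.1` (`eqw_refl`, `eqw_symm`, `eqw_trans`), `mk w = Quotient.mk _ w`. `Y.p c := (Quotient.out c).2.1.choose`: for `c = mk w` the word `out c` is equivalent to `w`, so `Wd X p0 w.1 (Y.p c)` (`eqw_wd`, `eqw_symm`).
`Y.act c a := if h : X.o a = Y.p c then mk ⟨v, ..⟩ else c` with `v = (nx_ex (out c).1 a).choose` (a reduced word by `nx_wd`). So for `X.o a = Y.p (mk w)` and `Nx X w.1 a v.1`: `Y.act (mk w) a = mk v` (`nx_eq` for `out c ~ w`).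
`act_p`: `nx_wd`, `wd_uniq`. `act_e`: `nx_e`. `act_i`: `nx_i`. `act_ml`: `nx_ml` (choose the three words by `nx_ex`). `act_sq`: `nx_sq` (`sqT` for the origins and targets).
-/

set_option autoImplicit false

namespace VTB

open LatIso LatN LatF

variable {ι P A : Type} {Γ : SimpleGraph ι} {N : P → ι → Prop} {X : FD ι P A}

private def W10_st (hX : VV0 Γ N X) (p0 : P) : Setoid (RW X p0) :=
  ⟨fun v w => Eqw X v.1 w.1, ⟨fun v => eqw_refl v.1, fun h => eqw_symm hX h,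
    fun h h' => eqw_trans h h'⟩⟩

private theorem W10_core {F : Type} (hX : VV0 Γ N X) {p0 : P} (mk : RW X p0 → F) (pp : F → P)
    (ac : F → A → F) (hsur : Function.Surjective mk)
    (hmk : ∀ v w, mk v = mk w ↔ Eqw X v.1 w.1) (hpp : ∀ w, Wd X p0 w.1 (pp (mk w)))
    (hac : ∀ (w v : RW X p0) (a : A), X.o a = pp (mk w) → Nx X w.1 a v.1 →
      ac (mk w) a = mk v) : ∃ Y : XSet X F, Y.p = pp ∧ Y.act = ac := by
  have hnx : ∀ (w : RW X p0) (a : A), X.o a = pp (mk w) →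
      ∃ v : RW X p0, Nx X w.1 a v.1 ∧ ac (mk w) a = mk v ∧ pp (mk v) = X.t a ∧
        Wd X p0 w.1 (X.o a) := by
    intro w a h
    obtain ⟨v, hv⟩ := nx_ex (X := X) w.1 a
    have hw : Wd X p0 w.1 (X.o a) := by
      rw [h]
      exact hpp w
    obtain ⟨h1, h2⟩ := nx_wd hX hw w.2.2 hv
    refine ⟨⟨v, ⟨_, h1⟩, h2⟩, hv, hac w ⟨v, ⟨_, h1⟩, h2⟩ a h hv, ?_, hw⟩
    exact wd_uniq (hpp ⟨v, ⟨_, h1⟩, h2⟩) h1
  refine ⟨⟨pp, ac, ?_, ?_, ?_, ?_, ?_⟩, rfl, rfl⟩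
  · intro z a h
    obtain ⟨w, rfl⟩ := hsur z
    obtain ⟨v, -, h2, h3, -⟩ := hnx w a h
    rw [h2, h3]
  · intro z
    obtain ⟨w, rfl⟩ := hsur z
    obtain ⟨v, h1, h2, -, -⟩ := hnx w (X.e (pp (mk w))) (hX.oe _)
    rw [h2]
    exact congrArg mk (Subtype.ext (nx_e hX (hpp w) h1))
  · intro z a h
    obtain ⟨w, rfl⟩ := hsur z
    obtain ⟨v, h1, h2, h3, h4⟩ := hnx w a h
    obtain ⟨v', k1, k2, -, -⟩ := hnx v (X.i a) ((hX.oi a).trans h3.symm)
    rw [h2, k2, hmk]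
    exact nx_i hX h4 w.2.2 h1 k1
  · intro z s a h hs
    obtain ⟨w, rfl⟩ := hsur z
    obtain ⟨v, h1, h2, h3, h4⟩ := hnx w s h
    obtain ⟨v', k1, k2, -, -⟩ := hnx v a (hs.2.symm.trans h3.symm)
    obtain ⟨v'', l1, l2, -, -⟩ := hnx w (X.ml s a) ((hX.mlo _ _ hs).trans h)
    rw [h2, k2, l2, hmk]
    exact eqw_symm hX (nx_ml hX h4 hs h1 k1 l1)
  · intro z a b c d h hs
    have hT := hX.sqT _ _ _ _ hs
    obtain ⟨w, rfl⟩ := hsur z
    obtain ⟨v, h1, h2, h3, h4⟩ := hnx w a h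
    obtain ⟨v', k1, k2, -, -⟩ := hnx v b (hT.tab.symm.trans h3.symm)
    obtain ⟨u, l1, l2, l3, -⟩ := hnx w c (hT.oac.symm.trans h)
    obtain ⟨u', m1, m2, -, -⟩ := hnx u d (hT.tcd.symm.trans l3.symm)
    rw [h2, k2, l2, m2, hmk]
    exact nx_sq hX h4 w.2.2 hs h1 k1 l1 m1

theorem fr_ex (hX : VV0 Γ N X) (p0 : P) : ∃ (F : Type) (Y : XSet X F) (mk : RW X p0 → F),
    Function.Surjective mk ∧ (∀ v w, mk v = mk w ↔ Eqw X v.1 w.1) ∧
    (∀ w, Wd X p0 w.1 (Y.p (mk w))) ∧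
    ∀ (w v : RW X p0) (a : A), X.o a = Y.p (mk w) → Nx X w.1 a v.1 → Y.act (mk w) a = mk v := by
  classical
  let F : Type := Quotient (W10_st hX p0)
  let mk : RW X p0 → F := Quotient.mk (W10_st hX p0)
  have hsur : Function.Surjective mk := Quotient.mk_surjective
  have hmk : ∀ v w, mk v = mk w ↔ Eqw X v.1 w.1 := fun v w =>
    ⟨fun h => Quotient.exact h, fun h => Quotient.sound h⟩
  have hout : ∀ w : RW X p0, Eqw X (Quotient.out (mk w)).1 w.1 := fun w =>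
    (hmk _ _).1 (Quotient.out_eq (mk w))
  let pp : F → P := fun c => (Quotient.out c).2.1.choose
  have hpo : ∀ c, Wd X p0 (Quotient.out c).1 (pp c) := fun c => (Quotient.out c).2.1.choose_spec
  have hpp : ∀ w, Wd X p0 w.1 (pp (mk w)) := fun w => eqw_wd hX (hpo _) (hout w)
  have nxt : ∀ (c : F) (a : A), X.o a = pp c → ∃ v : RW X p0, Nx X (Quotient.out c).1 a v.1 := by
    intro c a h
    obtain ⟨v, hv⟩ := nx_ex (X := X) (Quotient.out c).1 a
    have hw : Wd X p0 (Quotient.out c).1 (X.o a) := by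
      rw [h]
      exact hpo c
    obtain ⟨h1, h2⟩ := nx_wd hX hw (Quotient.out c).2.2 hv
    exact ⟨⟨v, ⟨_, h1⟩, h2⟩, hv⟩
  let ac : F → A → F := fun c a => if h : X.o a = pp c then mk (nxt c a h).choose else c
  have hac : ∀ (w v : RW X p0) (a : A), X.o a = pp (mk w) → Nx X w.1 a v.1 →
      ac (mk w) a = mk v := by
    intro w v a h hn
    have h0 : ac (mk w) a = mk (nxt (mk w) a h).choose := dif_pos h
    rw [h0, hmk]
    have h2 : Wd X p0 (Quotient.out (mk w)).1 (X.o a) := by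
      rw [h]
      exact hpo _
    exact nx_eq hX h2 (hout w) (nxt (mk w) a h).choose_spec hn
  obtain ⟨Y, h1, h2⟩ := W10_core hX mk pp ac hsur hmk hpp hac
  refine ⟨F, Y, mk, hsur, hmk, ?_, ?_⟩
  · rw [h1]
    exact hpp
  · rw [h1, h2]
    exact hac

end VTB
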