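import Pool.Agent.Lib.MP_32d917_al_vt.W10

/-!
# W11: universal property of the set of frames (50 min)

`F, Y, mk` from `fr_ex`, `f0 = mk [e p0]` (`Wd` by `oe`, `te`, `me`; `red_one`); `Y.p f0 = p0` (`wd_uniq`, `te`).
(a) `Y.ev f0 w = mk w` for reduced words `w` from `p0` (induction on the list): `[s]`: `Nx [e p0] s (rtw s [e p0])`, `rtw s [e p0] = [mr (e p0) s] = [ml (e p0) s] = [s]` (`mrs`, `mle`). `m :: v`, `v` not empty: `v` is a reduced word, `Y.ev f0 v = mk v`, `Nx v m (m :: v)` by `fw` (definition of `Redw (m :: v)`).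
Induction principle: every `f` is `mk w` (surjective); induction on the list `w` as in (a). Third statement: (a) for both words, `mk w = mk w'` iff equivalent.
Universal property: choose for every `f` a word `w_f` with `mk w_f = f`, `Φ f = Y'.ev z0 w_f`. For every reduced word `w` from `p0` with `mk w = f`: `Φ f = Y'.ev z0 w` (`ev_eqw`). `Φ f0 = Y'.ev z0 [e p0] = Y'.act z0 (e p0) = z0`. `Y'.p (Φ f) = Y.p f`: `ev_p`, `wd_uniq`. `Φ (Y.act f a)`: `nx_ex`, `nx_wd`, `xs_step`.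
-/

set_option autoImplicit false

namespace VTB

open LatIso LatN LatF

variable {ι P A : Type} {Γ : SimpleGraph ι} {N : P → ι → Prop} {X : FD ι P A}

private theorem W11_rtw (hX : VV0 Γ N X) {p0 : P} {s : A} (ho : X.o s = p0) (hs : ¬ X.mv s) :
    rtw X s [X.e p0] = [s] := by
  have h1 : X.mr (X.e p0) s = s := by
    rw [hX.mrs _ _ (hX.me p0) ⟨hs, by rw [ho, hX.te]⟩]
    subst ho
    exact hX.mle s
  show [X.mr (X.e p0) s] = [s]
  rw [h1]

private theorem W11_e (hX : VV0 Γ N X) (p0 : P) : Wd X p0 [X.e p0] p0 :=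
  wd_one.2 ⟨hX.oe p0, hX.me p0, (hX.te p0).symm⟩

private theorem W11_ev {F : Type} {Y : XSet X F} {p0 : P} {mk : RW X p0 → F} (hX : VV0 Γ N X)
    (h3 : ∀ w, Wd X p0 w.1 (Y.p (mk w)))
    (h4 : ∀ (w v : RW X p0) (a : A), X.o a = Y.p (mk w) → Nx X w.1 a v.1 →
      Y.act (mk w) a = mk v) (he : RW X p0) (hee : he.1 = [X.e p0])
    {w : List A} {q : P} (h : Wd X p0 w q) :
    ∀ hr : Redw X w, Y.ev (mk he) w = mk ⟨w, ⟨q, h⟩, hr⟩ := by
  induction h with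
  | one s ho hs =>
    intro hr
    have hp : Y.p (mk he) = p0 := by
      have h5 := h3 he
      rw [hee] at h5
      exact wd_uniq h5 (W11_e hX p0)
    refine h4 he ⟨[s], ⟨X.t s, Wd.one s ho hs⟩, hr⟩ s (ho.trans hp.symm) ?_
    have h6 : Nx X he.1 s (rtw X s he.1) := Nx.st hs
    rw [hee, W11_rtw hX ho hs] at h6
    rw [hee]
    exact h6
  | cons m v hm hv ih =>
    intro hr
    show Y.act (Y.ev (mk he) v) m = _
    rw [ih hr.1]
    refine h4 ⟨v, ⟨X.o m, hv⟩, hr.1⟩ ⟨m :: v, ⟨X.t m, Wd.cons m v hm hv⟩, hr⟩ m ?_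
      (Nx.fw hm hr.2)
    exact wd_uniq hv (h3 ⟨v, ⟨X.o m, hv⟩, hr.1⟩)

private theorem W11_ind {F : Type} {Y : XSet X F} {f0 : F} (Q : F → Prop) (h0 : Q f0)
    (h1 : ∀ f a, X.o a = Y.p f → Q f → Q (Y.act f a)) {w : List A} {q : P}
    (h : Wd X (Y.p f0) w q) : Q (Y.ev f0 w) := by
  induction h with
  | one s ho hs => exact h1 _ _ ho h0
  | cons m v hm hv ih => exact h1 _ _ (ev_p Y hv).symm ih

theorem fr_univ (hX : VV0 Γ N X) (p0 : P) : ∃ (F : Type) (Y : XSet X F) (f0 : F), Y.p f0 = p0 ∧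
    (∀ Q : F → Prop, Q f0 → (∀ f a, X.o a = Y.p f → Q f → Q (Y.act f a)) → ∀ f, Q f) ∧
    (∀ w w' q q', Wd X p0 w q → Wd X p0 w' q' → Redw X w → Redw X w' →
      Y.ev f0 w = Y.ev f0 w' → Eqw X w w') ∧
    ∀ (Z : Type) (Y' : XSet X Z) (z0 : Z), Y'.p z0 = p0 → ∃ Φ : F → Z, Φ f0 = z0 ∧
      (∀ f, Y'.p (Φ f) = Y.p f) ∧ ∀ f a, X.o a = Y.p f → Φ (Y.act f a) = Y'.act (Φ f) a := by
  obtain ⟨F, Y, mk, hsur, h2, h3, h4⟩ := fr_ex hX p0
  let he : RW X p0 := ⟨[X.e p0], ⟨p0, W11_e hX p0⟩, red_one _⟩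
  have hee : he.1 = [X.e p0] := rfl
  have hp : Y.p (mk he) = p0 := wd_uniq (h3 he) (W11_e hX p0)
  have hev : ∀ (w : List A) (q : P) (h : Wd X p0 w q) (hr : Redw X w),
      Y.ev (mk he) w = mk ⟨w, ⟨q, h⟩, hr⟩ := fun w q h hr => W11_ev hX h3 h4 he hee h hr
  refine ⟨F, Y, mk he, hp, ?_, ?_, ?_⟩
  · intro Q h0 h1 f
    obtain ⟨⟨w, ⟨q, hw⟩, hr⟩, rfl⟩ := hsur f
    rw [← hev w q hw hr]
    refine W11_ind Q h0 h1 (q := q) ?_
    rw [hp]
    exact hw
  · intro w w' q q' hw hw' hr hr' h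
    rw [hev w q hw hr, hev w' q' hw' hr'] at h
    exact (h2 _ _).1 h
  · intro Z Y' z0 hz
    choose wf hwf using hsur
    have key : ∀ w : RW X p0, Y'.ev z0 (wf (mk w)).1 = Y'.ev z0 w.1 := by
      intro w
      refine ev_eqw hX Y' (q := Y.p (mk (wf (mk w)))) ?_ ((h2 _ _).1 (hwf (mk w)))
      rw [hz]
      exact h3 _
    refine ⟨fun f => Y'.ev z0 (wf f).1, ?_, ?_, ?_⟩
    · show Y'.ev z0 (wf (mk he)).1 = z0
      rw [key he]
      show Y'.act z0 (X.e p0) = z0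
      rw [← hz]
      exact Y'.act_e z0
    · intro f
      show Y'.p (Y'.ev z0 (wf f).1) = Y.p f
      have h5 := h3 (wf f)
      rw [hwf f] at h5
      refine ev_p Y' ?_
      rw [hz]
      exact h5
    · intro f a ha
      show Y'.ev z0 (wf (Y.act f a)).1 = Y'.act (Y'.ev z0 (wf f).1) a
      have h5 := h3 (wf f)
      rw [hwf f, ← ha] at h5
      obtain ⟨v, hv⟩ := nx_ex (X := X) (wf f).1 a
      obtain ⟨h6, h7⟩ := nx_wd hX h5 (wf f).2.2 hv
      have h8 : Y.act f a = mk ⟨v, ⟨X.t a, h6⟩, h7⟩ := by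
        have h9 := h4 (wf f) ⟨v, ⟨X.t a, h6⟩, h7⟩ a (by rw [hwf f]; exact ha) hv
        rw [hwf f] at h9
        exact h9
      rw [h8, key]
      refine xs_step hX Y' ?_ hv
      rw [hz]
      exact h5

end VTB
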