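import Pool.Agent.Lib.MP_32d917_al_vt.W11

/-!
# W12: unique reduced words between frames (50 min)

Let `R f g` : there is a word `w` (not necessarily reduced) from `Y.p f` to `Y.p g` with `Y.ev f w = g`. `R f f`: `[e (p f)]`. Transitive: `catw_wd`, `ev_catw`. `R f (act f a)`: the word `[a]` (stationary) or `[a, e (o a)]` (moving); `R (act f a) f`: the same for `i a` (`act_i`).
`F, Y, f0` from `fr_univ`. By the induction principle `R f0 f` and `R f f0` for all `f`, so `R f g` for all `f g`. Existence in `Uniq`: `xs_red`.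
Uniqueness: `f, w, w'` as in `un`, `q = Y.p f`. Take `F', Y', f0'` from `fr_univ hX q` and a word `U` from `q` to `p0` with `Y.ev f U = f0` (`R f f0`). `g = Y'.ev f0' U`, `Y'.p g = p0` (`ev_p`). The universal property of `F` gives `Ψ : F → F'` with `Ψ f0 = g`. `Ψ (Y.ev f w) = Y'.ev (Ψ f) w` for words `w` from `q` (induction,
`ev_p`). `Y'.ev (Ψ f) U = Ψ (Y.ev f U) = g = Y'.ev f0' U`, so `Ψ f = f0'` (`ev_inj`). So `Y'.ev f0' w = Ψ (Y.ev f w) = Ψ (Y.ev f w') = Y'.ev f0' w'`, and the third statement of `fr_univ` for `q`.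
-/

set_option autoImplicit false

namespace VTB

open LatIso LatN LatF

variable {ι P A : Type} {Γ : SimpleGraph ι} {N : P → ι → Prop} {X : FD ι P A}

/-- connected by a word -/
private def W12_R {F : Type} (Y : XSet X F) (f g : F) : Prop :=
  ∃ w, Wd X (Y.p f) w (Y.p g) ∧ Y.ev f w = g

private theorem W12_refl (hX : VV0 Γ N X) {F : Type} (Y : XSet X F) (f : F) : W12_R Y f f := by
  refine ⟨[X.e (Y.p f)], ?_, Y.act_e f⟩
  have h1 : Wd X (Y.p f) [X.e (Y.p f)] (X.t (X.e (Y.p f))) := Wd.one _ (hX.oe _) (hX.me _)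
  rw [hX.te] at h1
  exact h1

private theorem W12_trans (hX : VV0 Γ N X) {F : Type} (Y : XSet X F) {f g h : F}
    (h1 : W12_R Y f g) (h2 : W12_R Y g h) : W12_R Y f h := by
  obtain ⟨u, hu, eu⟩ := h1
  obtain ⟨v, hv, ev⟩ := h2
  refine ⟨catw X u v, catw_wd hX hu hv, ?_⟩
  rw [ev_catw hX Y hu hv, eu, ev]

private theorem W12_act (hX : VV0 Γ N X) {F : Type} (Y : XSet X F) (f : F) (a : A)
    (h : X.o a = Y.p f) : W12_R Y f (Y.act f a) := by
  by_cases hm : X.mv a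
  · refine ⟨[a, X.e (X.o a)], ?_, ?_⟩
    · have h1 : Wd X (Y.p f) [X.e (X.o a)] (X.t (X.e (X.o a))) :=
        Wd.one _ ((hX.oe _).trans h) (hX.me _)
      rw [hX.te] at h1
      rw [Y.act_p f a h]
      exact Wd.cons a _ hm h1
    · show Y.act (Y.act f (X.e (X.o a))) a = Y.act f a
      rw [h, Y.act_e f]
  · refine ⟨[a], ?_, rfl⟩
    rw [Y.act_p f a h]
    exact Wd.one a h hm

private theorem W12_act' (hX : VV0 Γ N X) {F : Type} (Y : XSet X F) (f : F) (a : A)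
    (h : X.o a = Y.p f) : W12_R Y (Y.act f a) f := by
  have h1 := W12_act hX Y (Y.act f a) (X.i a) ((hX.oi a).trans (Y.act_p f a h).symm)
  rwa [Y.act_i f a h] at h1

theorem uniq_ex (hX : VV0 Γ N X) (p0 : P) :
    ∃ (F : Type) (Y : XSet X F) (f0 : F), Y.p f0 = p0 ∧ Uniq Y := by
  obtain ⟨F, Y, f0, hp, hind, huniq, huniv⟩ := fr_univ hX p0
  have hR : ∀ f, W12_R Y f0 f ∧ W12_R Y f f0 := by
    apply hind
    · exact ⟨W12_refl hX Y f0, W12_refl hX Y f0⟩
    · rintro f a ha ⟨h1, h2⟩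
      exact ⟨W12_trans hX Y h1 (W12_act hX Y f a ha), W12_trans hX Y (W12_act' hX Y f a ha) h2⟩
  refine ⟨F, Y, f0, hp, ?_, ?_⟩
  · intro f g
    obtain ⟨w, hw, he⟩ := W12_trans hX Y (hR f).2 (hR g).1
    obtain ⟨w', hw', hr, he'⟩ := xs_red hX Y hw
    exact ⟨w', hw', hr, he'.trans he⟩
  · intro f w w' q q' hw hw' hr hr' he
    obtain ⟨F', Y', f0', hp', _, huniq', _⟩ := fr_univ hX (Y.p f)
    obtain ⟨U, hU, eU⟩ := (hR f).2
    have hU' : Wd X (Y'.p f0') U (Y.p f0) := by rw [hp']; exact hU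
    have hg : Y'.p (Y'.ev f0' U) = p0 := (ev_p Y' hU').trans hp
    obtain ⟨Ψ, hΨ0, hΨp, hΨa⟩ := huniv F' Y' (Y'.ev f0' U) hg
    have hev : ∀ (u : List A) (r : P), Wd X (Y.p f) u r → Ψ (Y.ev f u) = Y'.ev (Ψ f) u := by
      intro u r hu
      induction hu with
      | one s h1 _ => exact hΨa f s h1
      | cons m u _ h2 ih =>
        show Ψ (Y.act (Y.ev f u) m) = Y'.act (Y'.ev (Ψ f) u) m
        rw [hΨa _ m (ev_p Y h2).symm, ih]
    have hf : Ψ f = f0' := by
      apply ev_inj Y' hU (hΨp f) hp'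
      rw [← hev U _ hU, eU, hΨ0]
    apply huniq' w w' q q' hw hw' hr hr'
    rw [← hf, ← hev w q hw, ← hev w' q' hw', he]

end VTB
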