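import Pool.Agent.Lib.MP_32d917_al_vt.W09

/-!
# W13: sets with unique reduced words (40 min)

`uq_ind`: `f = Y.ev f0 w` (`ex`); induction on the list `w` (tails of words are words, or empty: `ev f0 [] = f0`). `uq_univ`: choose for every `f` a reduced word `w_f` with `Y.ev f0 w_f = f`; `Φ f = Y'.ev z0 w_f`. For any reduced word `w` from `Y.p f0` with `Y.ev f0 w = f`: `w ~ w_f` (`un`), `Φ f = Y'.ev z0 w` (`ev_eqw`).
`Φ f0`: the word `[e (p f0)]` (`act_e`). `p`: `ev_p`, `wd_uniq`. `act`: `nx_ex` gives `v` with `Nx w_f a v`, `nx_wd`, `xs_step` in `Y` and in `Y'`.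
`uq_inj`: the word of `a`: `[a]` (stationary) or `[a, e (o a)]`; both are reduced (`[e] ~ i a :: v` is impossible for moving `a`: `eqw_one`, `me`, `mi`). Two stationary arrows: `[a] ~ [b]`, `eqw_one`. Two moving arrows: `one_inj`. One of each: `eqw_len`.
`uq_sq`: the words `[b, a, e]`, `[d, c, e]` are reduced: if `[a, e] ~ i b :: v`: Levi: (i) `a = ml s (i b)`, so `i a = mr b (i s)` (`vv_iml`, `ii`), `ty (i a) = ty b` (`vv_mry`), but `ty (i a) = pm a (ty a)`, `ty b = pm a (ty c)`, `vv_pinj`, `SqT.ne`. (ii) `[e] ~ b' :: u`: `b' = e` is stationary, `sqT`. Then `un` and `two_sq`.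
-/

set_option autoImplicit false

namespace VTB

open LatIso LatN LatF

variable {ι P A : Type} {Γ : SimpleGraph ι} {N : P → ι → Prop} {X : FD ι P A} {Z : Type}
  {Y : XSet X Z} {lam : Z → ι → ι}

private theorem W13_e (hX : VV0 Γ N X) (p : P) : Wd X p [X.e p] p := by
  have h1 : Wd X p [X.e p] (X.t (X.e p)) := Wd.one _ (hX.oe _) (hX.me _)
  rwa [hX.te] at h1

theorem uq_ind (hU : Uniq Y) (f0 : Z) (Q : Z → Prop) (h0 : Q f0)
    (h1 : ∀ f a, X.o a = Y.p f → Q f → Q (Y.act f a)) : ∀ f, Q f := by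
  intro f
  obtain ⟨w, hw, hr, he⟩ := hU.ex f0 f
  rw [← he]
  clear he hr
  generalize Y.p f = q at hw
  induction hw with
  | one s h2 _ => exact h1 f0 s h2 h0
  | cons m w _ h2 ih => exact h1 _ m (ev_p Y h2).symm ih

theorem uq_univ (hX : VV0 Γ N X) (hU : Uniq Y) {Z' : Type} (Y' : XSet X Z') (f0 : Z) (z0 : Z')
    (h : Y'.p z0 = Y.p f0) : ∃ Φ : Z → Z', Φ f0 = z0 ∧ (∀ f, Y'.p (Φ f) = Y.p f) ∧
      ∀ f a, X.o a = Y.p f → Φ (Y.act f a) = Y'.act (Φ f) a := by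
  choose W hW hr he using hU.ex f0
  have hW' : ∀ f, Wd X (Y'.p z0) (W f) (Y.p f) := fun f => by rw [h]; exact hW f
  have key : ∀ (f : Z) (w : List A) (q : P), Wd X (Y.p f0) w q → Redw X w → Y.ev f0 w = f →
      Y'.ev z0 (W f) = Y'.ev z0 w := by
    intro f w q hw hrw hf
    exact ev_eqw hX Y' (hW' f) (hU.un f0 (W f) w _ q (hW f) hw (hr f) hrw ((he f).trans hf.symm))
  refine ⟨fun f => Y'.ev z0 (W f), ?_, fun f => ev_p Y' (hW' f), ?_⟩
  · show Y'.ev z0 (W f0) = z0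
    rw [key f0 [X.e (Y.p f0)] _ (W13_e hX _) (red_one _) (Y.act_e f0), ← h]
    exact Y'.act_e z0
  · intro f a ha
    show Y'.ev z0 (W (Y.act f a)) = Y'.act (Y'.ev z0 (W f)) a
    obtain ⟨v, hv⟩ := nx_ex (X := X) (W f) a
    have hw : Wd X (Y.p f0) (W f) (X.o a) := by rw [ha]; exact hW f
    have hw' : Wd X (Y'.p z0) (W f) (X.o a) := by rw [ha]; exact hW' f
    obtain ⟨h2, h3⟩ := nx_wd hX hw (hr f) hv
    rw [key (Y.act f a) v _ h2 h3 (by rw [xs_step hX Y hw hv, he]), xs_step hX Y' hw' hv]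

private theorem W13_red2 (hX : VV0 Γ N X) {a : A} (p : P) (ha : X.mv a) :
    Redw X [a, X.e p] := by
  refine ⟨red_one _, fun v hv => ?_⟩
  have h1 := eqw_one hv
  injection h1 with h2 _
  apply hX.me p
  rw [← h2]
  exact (hX.mi a).2 ha

private theorem W13_wd2 (hX : VV0 Γ N X) {a : A} {p : P} (ha : X.mv a) (ho : X.o a = p) :
    Wd X p [a, X.e p] (X.t a) := by
  refine Wd.cons a _ ha ?_
  rw [ho]
  exact W13_e hX p

private theorem W13_ev2 {f : Z} (a : A) :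
    Y.ev f [a, X.e (Y.p f)] = Y.act f a := by
  show Y.act (Y.act f (X.e (Y.p f))) a = Y.act f a
  rw [Y.act_e f]

theorem uq_inj (hX : VV0 Γ N X) (hU : Uniq Y) {f : Z} {a b : A} (ha : X.o a = Y.p f)
    (hb : X.o b = Y.p f) (h : Y.act f a = Y.act f b) : a = b := by
  by_cases hma : X.mv a
  · by_cases hmb : X.mv b
    · exact one_inj hX hma hmb ha hb (hU.un f _ _ _ _ (W13_wd2 hX hma ha) (W13_wd2 hX hmb hb)
        (W13_red2 hX _ hma) (W13_red2 hX _ hmb) (by rw [W13_ev2, W13_ev2, h]))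
    · exfalso
      have h1 := hU.un f _ [b] _ _ (W13_wd2 hX hma ha) (Wd.one b hb hmb)
        (W13_red2 hX _ hma) (red_one b) (by rw [W13_ev2, h]; rfl)
      have h2 := eqw_len h1
      simp at h2
  · by_cases hmb : X.mv b
    · exfalso
      have h1 := hU.un f _ [a] _ _ (W13_wd2 hX hmb hb) (Wd.one a ha hma)
        (W13_red2 hX _ hmb) (red_one a) (by rw [W13_ev2, ← h]; rfl)
      have h2 := eqw_len h1
      simp at h2
    · have h1 := hU.un f [a] [b] _ _ (Wd.one a ha hma) (Wd.one b hb hmb) (red_one a) (red_one b) h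
      have h2 := eqw_one h1
      injection h2 with h3 _
      exact h3.symm

private theorem W13_red3 (hX : VV0 Γ N X) {a b c d : A} (p : P) (hs : SqT X a b c d)
    (ho : X.o a = p) : Redw X [b, a, X.e p] := by
  refine ⟨W13_red2 hX p hs.ma, fun v hv => ?_⟩
  have hw : Wd X p [X.e p] (X.o a) := by
    rw [ho]
    exact W13_e hX p
  rcases levi hX hw hs.ma hv with ⟨s, h1, _, h3, _⟩ | ⟨u, b', a', h1, _, h3⟩
  · have h4 : X.i a = X.mr b (X.i s) := by
      rw [h3, vv_iml hX h1, hX.ii]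
    have h5 : X.rc b (X.i s) := by
      have h6 := vv_rc hX h1
      rwa [hX.ii] at h6
    have h7 : X.ty (X.i a) = X.ty b := by
      rw [h4, vv_mry hX h5 hs.mb]
    rw [hX.tyi a hs.ma, hs.tyb] at h7
    exact hs.ne (vv_pinj hX a h7)
  · have h4 := eqw_one h1
    injection h4 with h5 _
    apply hX.me p
    rw [← h5]
    exact (hX.sqT _ _ _ _ h3).ma

theorem uq_sq (hX : VV0 Γ N X) (hU : Uniq Y) {f : Z} {a b c d : A} (ha : X.o a = Y.p f)
    (hs : SqT X a b c d) (h : Y.act (Y.act f a) b = Y.act (Y.act f c) d) : X.sq a b c d := by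
  have hs' : SqT X c d a b := ⟨hs.mc, hs.md, hs.ma, hs.mb, hs.oac.symm, hs.tcd, hs.tab,
    hs.tbd.symm, hs.ne.symm, hs.tyd, hs.tyb⟩
  have hc : X.o c = Y.p f := hs.oac.symm.trans ha
  have h1 : Wd X (Y.p f) [b, a, X.e (Y.p f)] (X.t b) := by
    refine Wd.cons b _ hs.mb ?_
    rw [← hs.tab]
    exact W13_wd2 hX hs.ma ha
  have h2 : Wd X (Y.p f) [d, c, X.e (Y.p f)] (X.t d) := by
    refine Wd.cons d _ hs.md ?_
    rw [← hs.tcd]
    exact W13_wd2 hX hs.mc hc
  refine two_sq hX hs.ma hs.mb hs.mc hs.md ha hc hs.tab hs.tcd hs.ne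
    (hU.un f _ _ _ _ h1 h2 (W13_red3 hX _ hs ha) (W13_red3 hX _ hs' hc) ?_)
  show Y.act (Y.ev f [a, X.e (Y.p f)]) b = Y.act (Y.ev f [c, X.e (Y.p f)]) d
  rw [W13_ev2, W13_ev2, h]

end VTB
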