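import Pool.Agent.Lib.MP_32d917_al_vt.W13

/-!
# W14: global labels (40 min)

`lam_ex`: `uq_univ` for the set `P × (ι → ι)` with `p z = z.1`, `act (q, σ) a = (X.t a, fun k => σ (X.pm (X.i a) k))`: `act_e`: `vv_ei`, `pe`, `te`. `act_i`: `ti`, `pi` (`pm (i (i a)) ∘ pm (i a)` and `pi`; order: `σ (pm (i a) (pm (i (i a)) k)) = σ (pm (i a) (pm a k)) = σ k`). `act_ml`: `vv_iml`, `vv_mrp`; `mlt`. `act_sq`: `pm (i a) (pm (i b) k) =
pm (i c) (pm (i d) k)` from `sqp` (apply it to `k' = pm (i a) (pm (i b) k)`, `vv_pmi`, `pi`), `tbd`. `f0 ↦ (p f0, id)`, `lam f = (Φ f).2`. `act`: `pi`. `bij`, `gam`: `uq_ind` with `pi`, `vv_pmi`, `pmg`.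
`lam_ev`: induction on `w`: `lam (act g m) k` with `k = pm m (pm (i m) k)` (`vv_pmi`); `ev_p` for the side condition. `lam_i`: `act` with `tyi`.
-/

set_option autoImplicit false

namespace VTB

open LatIso LatN LatF

variable {ι P A : Type} {Γ : SimpleGraph ι} {N : P → ι → Prop} {X : FD ι P A} {Z : Type}
  {Y : XSet X Z} {lam : Z → ι → ι}

/-- the universal set of frames with labels -/
private def W14_set (hX : VV0 Γ N X) : XSet X (P × (ι → ι)) where
  p z := z.1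
  act z a := (X.t a, fun k => z.2 (X.pm (X.i a) k))
  act_p _ _ _ := rfl
  act_e z := by
    refine Prod.ext (hX.te _) (funext fun k => ?_)
    show z.2 (X.pm (X.i (X.e z.1)) k) = z.2 k
    rw [vv_ei hX, hX.pe]
  act_i z a h := by
    refine Prod.ext ((hX.ti a).trans h) (funext fun k => ?_)
    show z.2 (X.pm (X.i a) (X.pm (X.i (X.i a)) k)) = z.2 k
    rw [hX.ii, hX.pi]
  act_ml z s a _ hs := by
    refine Prod.ext (hX.mlt _ _ hs) (funext fun k => ?_)
    show z.2 (X.pm (X.i (X.ml s a)) k) = z.2 (X.pm (X.i s) (X.pm (X.i a) k))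
    rw [vv_iml hX hs, vv_mrp hX (vv_rc hX hs)]
  act_sq z a b c d _ hs := by
    refine Prod.ext (hX.sqT _ _ _ _ hs).tbd (funext fun k => ?_)
    show z.2 (X.pm (X.i a) (X.pm (X.i b) k)) = z.2 (X.pm (X.i c) (X.pm (X.i d) k))
    have h1 := hX.sqp _ _ _ _ hs (X.pm (X.i a) (X.pm (X.i b) k))
    rw [vv_pmi hX, vv_pmi hX] at h1
    have h2 : X.pm (X.i c) (X.pm (X.i d) k) = X.pm (X.i a) (X.pm (X.i b) k) := by
      conv_lhs => rw [h1]
      rw [hX.pi, hX.pi]
    rw [h2]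

theorem lam_ex (hX : VV0 Γ N X) (hU : Uniq Y) (f0 : Z) :
    ∃ lam : Z → ι → ι, LamX Γ Y lam ∧ ∀ k, lam f0 k = k := by
  obtain ⟨Φ, h0, -, h2⟩ := uq_univ hX hU (W14_set hX) f0 (Y.p f0, id) rfl
  have hact : ∀ f a, X.o a = Y.p f → ∀ k, (Φ (Y.act f a)).2 k = (Φ f).2 (X.pm (X.i a) k) := by
    intro f a ha k
    rw [h2 f a ha]
    rfl
  have h5 : ∀ k, (Φ f0).2 k = k := fun k => by
    rw [h0]
    rfl
  refine ⟨fun f => (Φ f).2, ⟨?_, ?_, ?_⟩, h5⟩
  · refine uq_ind hU f0 _ ?_ ?_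
    · rw [h0]
      exact Function.bijective_id
    · intro f a ha hb
      have h3 : (Φ (Y.act f a)).2 = (Φ f).2 ∘ X.pm (X.i a) := funext (hact f a ha)
      have h4 : Function.Bijective (X.pm (X.i a)) := by
        refine ⟨fun k l hkl => vv_pinj hX _ hkl, fun k => ⟨X.pm a k, hX.pi a k⟩⟩
      rw [h3]
      exact hb.comp h4
  · intro f a ha k
    rw [hact f a ha, hX.pi]
  · refine uq_ind hU f0 _ ?_ ?_
    · intro i j
      rw [h5, h5]
    · intro f a ha hb i j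
      rw [hact f a ha, hact f a ha, hb, hX.pmg]

theorem lam_ev (hX : VV0 Γ N X) (hL : LamX Γ Y lam) {f : Z} {w : List A} {q : P}
    (hw : Wd X (Y.p f) w q) (k : ι) : lam (Y.ev f w) k = lam f (bk X w k) := by
  have key : ∀ g a, X.o a = Y.p g → ∀ k, lam (Y.act g a) k = lam g (X.pm (X.i a) k) := by
    intro g a ha k
    have h1 := hL.act g a ha (X.pm (X.i a) k)
    rwa [vv_pmi hX] at h1
  induction hw generalizing k with
  | one s ho hs => exact key f s ho k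
  | cons m w hm hw ih =>
    have h1 : lam (Y.ev f (m :: w)) k = lam (Y.ev f w) (X.pm (X.i m) k) :=
      key (Y.ev f w) m (ev_p Y hw).symm k
    rw [h1, ih]
    rfl

theorem lam_i (hX : VV0 Γ N X) (hL : LamX Γ Y lam) {f : Z} {a : A} (ha : X.o a = Y.p f)
    (hm : X.mv a) : lam (Y.act f a) (X.ty (X.i a)) = lam f (X.ty a) := by
  rw [hX.tyi a hm, hL.act f a ha]

end VTB
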