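import Pool.Agent.Lib.MP_32d917_al_vt.W14

/-!
# W16: the parent of a class of frames (50 min)

`prw X l i (m :: x :: w)` is `x :: w` if the label `l (bk X (x :: w) (X.ty m))` is `i`, and `prw X l i (x :: w)` otherwise; `prw X l i [s] = [s]`. For `l = lam f` the label is `lam (ev f (x :: w)) (ty m)` (`lam_ev`). `cl w := cls i (ev f (prw w))`.
`cls_step`: `Quot.sound`. `prw_same`, `prw_other`: definition, `lam_ev`. `prw_wd`: induction on `w`. `prw_rtw`: `w = [s']`: `[mr s' s]`: `act f (mr s' s) = act (act f s') s` (`xs_mr`), `cls_step` for the stationary arrow `s`. `w = m :: x :: v`: the label of `mr m s` is the label of `m` (`vv_mry`), and the tail is the same.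
`prw_inv`: one step (induction on the step, generalizing the word; the word stays a word): T: `m :: x :: w` and `ml (i s) m :: mr x s :: w`: the labels of `m` and `ml (i s) m` are equal (`bk_rtw`, `mly`); if it is `i`: `cls i (ev f (x :: w)) = cls i (ev f (mr x s :: w))` (`ev_rtw`, `cls_step`); if not: `prw_rtw` for `x :: w`.
Q: `b :: a :: w`, `d :: c :: w`, labels β (of `b` and `c`), α (of `a` and `d`), β ≠ α (`SqT.ne`, `bk_inj`, `hL.bij`). β = i: `cls i (ev f (a :: w)) = cls i (ev f w)` (`cls_step`, label α of `a`) and `prw (d :: c :: w) = prw (c :: w) = w`. α = i: the same with the roles exchanged. Neither: both are `prw w`.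
C: label of `m` equal to `i`: `ev_eqw`; the labels agree by `eqw_bk`; otherwise induction.
-/

set_option autoImplicit false

namespace VTB

open LatIso LatN LatF

variable {ι P A : Type} {Γ : SimpleGraph ι} {N : P → ι → Prop} {X : FD ι P A} {Z : Type}
  {Y : XSet X Z} {lam : Z → ι → ι}

private theorem W16_y (l : ι → ι) (i : ι) (m x : A) (w : List A)
    (h : l (bk X (x :: w) (X.ty m)) = i) : prw X l i (m :: x :: w) = x :: w := by
  rw [prw, if_pos h]

private theorem W16_n (l : ι → ι) (i : ι) (m x : A) (w : List A)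
    (h : ¬ l (bk X (x :: w) (X.ty m)) = i) :
    prw X l i (m :: x :: w) = prw X l i (x :: w) := by
  rw [prw, if_neg h]

theorem cls_step {i : ι} {f : Z} {a : A} (ha : X.o a = Y.p f)
    (h : X.mv a → lam f (X.ty a) ≠ i) : cls Y lam i (Y.act f a) = cls Y lam i f := by
  exact (Quot.sound (⟨a, ha, rfl, h⟩ : Rni Y lam i f (Y.act f a))).symm

theorem prw_wd (l : ι → ι) (i : ι) {p q : P} {w : List A} (hw : Wd X p w q) :
    ∃ q', Wd X p (prw X l i w) q' := by
  induction hw with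
  | one s h1 h2 => exact ⟨_, Wd.one s h1 h2⟩
  | cons m v hm hv ih =>
    obtain ⟨x, u, rfl, -⟩ := wd_end hv
    by_cases h : l (bk X (x :: u) (X.ty m)) = i
    · rw [W16_y l i m x u h]
      exact ⟨_, hv⟩
    · rw [W16_n l i m x u h]
      exact ih

theorem prw_same (hX : VV0 Γ N X) (hL : LamX Γ Y lam) {i : ι} {f : Z} {m : A} {w : List A}
    (hw : Wd X (Y.p f) w (X.o m)) (h : lam (Y.ev f w) (X.ty m) = i) :
    prw X (lam f) i (m :: w) = w := by
  obtain ⟨x, u, rfl, -⟩ := wd_end hw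
  rw [lam_ev hX hL hw] at h
  exact W16_y _ _ _ _ _ h

theorem prw_other (hX : VV0 Γ N X) (hL : LamX Γ Y lam) {i : ι} {f : Z} {m : A} {w : List A}
    (hw : Wd X (Y.p f) w (X.o m)) (h : lam (Y.ev f w) (X.ty m) ≠ i) :
    prw X (lam f) i (m :: w) = prw X (lam f) i w := by
  obtain ⟨x, u, rfl, -⟩ := wd_end hw
  rw [lam_ev hX hL hw] at h
  exact W16_n _ _ _ _ _ h

theorem prw_rtw (hX : VV0 Γ N X) (hL : LamX Γ Y lam) (i : ι) {f : Z} {w : List A} {q : P}
    {s : A} (hw : Wd X (Y.p f) w q) (hs : ¬ X.mv s) (ho : X.o s = q) :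
    cls Y lam i (Y.ev f (prw X (lam f) i (rtw X s w))) =
      cls Y lam i (Y.ev f (prw X (lam f) i w)) := by
  cases hw with
  | one s' h1 h2 =>
    show cls Y lam i (Y.act f (X.mr s' s)) = cls Y lam i (Y.act f s')
    rw [xs_mr hX Y f s' s h1 ⟨hs, ho⟩]
    refine cls_step ?_ (fun h => absurd h hs)
    rw [Y.act_p f s' h1, ho]
  | cons m v hm hv =>
    obtain ⟨x, u, rfl, -⟩ := wd_end hv
    show cls Y lam i (Y.ev f (prw X (lam f) i (X.mr m s :: x :: u))) = _
    by_cases h : lam f (bk X (x :: u) (X.ty m)) = i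
    · rw [W16_y _ _ _ _ _ h, W16_y _ _ _ _ _ (by rw [vv_mry hX ⟨hs, ho⟩ hm]; exact h)]
    · rw [W16_n _ _ _ _ _ h, W16_n _ _ _ _ _ (by rw [vv_mry hX ⟨hs, ho⟩ hm]; exact h)]

private theorem W16_stw (hX : VV0 Γ N X) (hL : LamX Γ Y lam) (i : ι) {f : Z}
    {w w' : List A} (h : Stw X w w') : ∀ {q : P}, Wd X (Y.p f) w q →
    cls Y lam i (Y.ev f (prw X (lam f) i w)) = cls Y lam i (Y.ev f (prw X (lam f) i w')) := by
  induction h with
  | T m x s w hs ht =>
    intro q hw
    rw [wd_cc] at hw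
    obtain ⟨hm, hx, -⟩ := hw
    have ho : X.o s = X.o m := hs.2.trans ht
    have hl : bk X (X.mr x s :: w) (X.ty (X.ml (X.i s) m)) = bk X (x :: w) (X.ty m) := by
      have h1 := bk_rtw hX hx hs.1 ho (X.ty (X.ml (X.i s) m))
      have hlc : X.lc (X.i s) m := ⟨fun hm => hs.1 ((hX.mi s).1 hm), by rw [hX.ti, ho]⟩
      rw [hX.mly _ _ hlc hm] at h1
      exact h1
    by_cases hi : lam f (bk X (x :: w) (X.ty m)) = i
    · rw [W16_y _ _ _ _ _ hi, W16_y _ _ _ _ _ (by rw [hl]; exact hi)]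
      have h2 := ev_rtw hX Y hx hs.1 ho
      change Y.ev f (X.mr x s :: w) = _ at h2
      rw [h2]
      refine (cls_step ?_ (fun h => absurd h hs.1)).symm
      rw [ev_p Y hx, ho]
    · rw [W16_n _ _ _ _ _ hi, W16_n _ _ _ _ _ (by rw [hl]; exact hi)]
      exact (prw_rtw hX hL i hx hs.1 ho).symm
  | Q a b c d w hs =>
    intro q hw
    have hT := hX.sqT _ _ _ _ hs
    have hw' : Wd X (Y.p f) (d :: c :: w) q := stw_wd hX hw (Stw.Q a b c d w hs)
    rw [wd_cc] at hw hw'
    obtain ⟨-, hv, -⟩ := hw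
    obtain ⟨-, hv', -⟩ := hw'
    obtain ⟨x, u, rfl⟩ : ∃ x u, w = x :: u := by
      cases w with
      | nil => exact absurd hT.ma (wd_one.1 hv).2.1
      | cons x u => exact ⟨x, u, rfl⟩
    have hu : Wd X (Y.p f) (x :: u) (X.o a) := (wd_cc.1 hv).2.1
    have hu' : Wd X (Y.p f) (x :: u) (X.o c) := (wd_cc.1 hv').2.1
    have hb : bk X (a :: x :: u) (X.ty b) = bk X (x :: u) (X.ty c) := by
      rw [bk, hT.tyb, hX.pi]
    have hd : bk X (c :: x :: u) (X.ty d) = bk X (x :: u) (X.ty a) := by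
      rw [bk, hT.tyd, hX.pi]
    have hne : lam f (bk X (x :: u) (X.ty c)) ≠ lam f (bk X (x :: u) (X.ty a)) := by
      intro he
      exact hT.ne (bk_inj hX _ ((hL.bij f).1 he)).symm
    by_cases h1 : lam f (bk X (x :: u) (X.ty c)) = i
    · have h2 : ¬ lam f (bk X (x :: u) (X.ty a)) = i := fun h => hne (h1.trans h.symm)
      rw [W16_y _ _ _ _ _ (by rw [hb]; exact h1), W16_n _ _ _ _ _ (by rw [hd]; exact h2),
        W16_y _ _ _ _ _ h1]
      show cls Y lam i (Y.act (Y.ev f (x :: u)) a) = _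
      refine cls_step ?_ (fun _ => ?_)
      · rw [ev_p Y hu]
      · rw [lam_ev hX hL hu]
        exact h2
    · rw [W16_n _ _ _ _ _ (by rw [hb]; exact h1)]
      by_cases h2 : lam f (bk X (x :: u) (X.ty a)) = i
      · rw [W16_y _ _ _ _ _ h2, W16_y _ _ _ _ _ (by rw [hd]; exact h2)]
        show _ = cls Y lam i (Y.act (Y.ev f (x :: u)) c)
        refine (cls_step ?_ (fun _ => ?_)).symm
        · rw [ev_p Y hu']
        · rw [lam_ev hX hL hu']
          exact h1
      · rw [W16_n _ _ _ _ _ h2, W16_n _ _ _ _ _ (by rw [hd]; exact h2),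
          W16_n _ _ _ _ _ h1]
  | C m w w' hst ih =>
    intro q hw
    obtain ⟨x, u, rfl⟩ : ∃ x u, w = x :: u := by
      cases hst with
      | T => exact ⟨_, _, rfl⟩
      | Q => exact ⟨_, _, rfl⟩
      | C => exact ⟨_, _, rfl⟩
    have hx := (wd_cc.1 hw).2.1
    have hx' := stw_wd hX hx hst
    obtain ⟨x', u', rfl, -⟩ := wd_end hx'
    have hE : Eqw X (x :: u) (x' :: u') := Relation.ReflTransGen.single hst
    have hl : bk X (x' :: u') (X.ty m) = bk X (x :: u) (X.ty m) := by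
      rw [eqw_bk hX hx hE]
    by_cases hi : lam f (bk X (x :: u) (X.ty m)) = i
    · rw [W16_y _ _ _ _ _ hi, W16_y _ _ _ _ _ (by rw [hl]; exact hi),
        ev_eqw hX Y hx hE]
    · rw [W16_n _ _ _ _ _ hi, W16_n _ _ _ _ _ (by rw [hl]; exact hi)]
      exact ih hx

theorem prw_inv (hX : VV0 Γ N X) (hL : LamX Γ Y lam) (i : ι) {f : Z} {w w' : List A} {q : P}
    (hw : Wd X (Y.p f) w q) (h : Eqw X w w') :
    cls Y lam i (Y.ev f (prw X (lam f) i w)) = cls Y lam i (Y.ev f (prw X (lam f) i w')) := by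
  induction h with
  | refl => rfl
  | tail h1 h2 ih => exact ih.trans (W16_stw hX hL i h2 (eqw_wd hX hw h1))

end VTB
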