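import Pool.Agent.Lib.MP_32d917_al_vt.W16

/-!
# W17: depth and parent of the vertices of the tree of a label (40 min)

Choose for every `g` a reduced word `w_g` with `Y.ev f w_g = g` (`hU.ex f g`). `H g = Multiset.count i ((labs X w_g).map (lam f))`, `p g = cls i (ev f (prw w_g))`. For any reduced word `w` with `Y.ev f w = g`: `w ~ w_g` (`un`), so `H g = count (labs w)` (`eqw_labs`) and `p g = cls i (ev f (prw w))` (`prw_inv`).
Both functions respect `Rni Y lam i`: `g' = act g a`, `w = w_g`, `Nx w a v` (`nx_ex`, `nx_wd`, `xs_step`), so `v` is a reduced word for `g'`. `st`: `labs_rtw`, `prw_rtw`. `fw`: `labs_cons` with the label of `a` (`lam_ev`) different from `i`; `prw_other`. `bw`: `w ~ i a :: v`: `g = ev f (i a :: v)`, and the label of `i a` at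
`act g a = ev f v` is the label of `a` at `g` (`lam_i`), different from `i`: `labs_cons`, `prw_other` for `i a :: v`. `Quot.lift`.
-/

set_option autoImplicit false

namespace VTB

open LatIso LatN LatF

variable {ι P A : Type} {Γ : SimpleGraph ι} {N : P → ι → Prop} {X : FD ι P A} {Z : Type}
  {Y : XSet X Z} {lam : Z → ι → ι}

theorem tr_fun [DecidableEq ι] (hX : VV0 Γ N X) (hU : Uniq Y) (hL : LamX Γ Y lam) (i : ι)
    (f : Z) : ∃ (h : Vt Y lam i → ℕ) (par : Vt Y lam i → Vt Y lam i),
      ∀ w q, Wd X (Y.p f) w q → Redw X w →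
        h (cls Y lam i (Y.ev f w)) = Multiset.count i ((labs X w).map (lam f)) ∧
        par (cls Y lam i (Y.ev f w)) = cls Y lam i (Y.ev f (prw X (lam f) i w)) := by
  choose wd hwd using fun g => hU.ex f g
  have K : ∀ g w q, Wd X (Y.p f) w q → Redw X w → Y.ev f w = g →
      Multiset.count i ((labs X (wd g)).map (lam f)) =
        Multiset.count i ((labs X w).map (lam f)) ∧
      cls Y lam i (Y.ev f (prw X (lam f) i (wd g))) =
        cls Y lam i (Y.ev f (prw X (lam f) i w)) := by
    intro g w q hw hr he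
    obtain ⟨h1, h2, h3⟩ := hwd g
    have h4 : Eqw X (wd g) w := hU.un f _ _ _ _ h1 hw h2 hr (h3.trans he.symm)
    exact ⟨by rw [eqw_labs hX h1 h4], prw_inv hX hL i h1 h4⟩
  have R : ∀ g g', Rni Y lam i g g' →
      Multiset.count i ((labs X (wd g)).map (lam f)) =
        Multiset.count i ((labs X (wd g')).map (lam f)) ∧
      cls Y lam i (Y.ev f (prw X (lam f) i (wd g))) =
        cls Y lam i (Y.ev f (prw X (lam f) i (wd g'))) := by
    rintro g g' ⟨a, ha, hg, hl⟩
    obtain ⟨h1, h2, h3⟩ := hwd g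
    rw [← ha] at h1
    obtain ⟨v, hv⟩ := nx_ex (X := X) (wd g) a
    obtain ⟨h4, h5⟩ := nx_wd hX h1 h2 hv
    have h6 : Y.ev f v = g' := by rw [xs_step hX Y h1 hv, h3, hg]
    have Kv := K g' v _ h4 h5 h6
    rw [Kv.1, Kv.2]
    cases hv with
    | st hs => exact ⟨by rw [labs_rtw hX h1 hs rfl], (prw_rtw hX hL i h1 hs rfl).symm⟩
    | fw hm hn =>
      have hne : lam (Y.ev f (wd g)) (X.ty a) ≠ i := by rw [h3]; exact hl hm
      refine ⟨?_, by rw [prw_other hX hL h1 hne]⟩
      rw [labs_cons a h1, Multiset.map_cons, ← lam_ev hX hL h1,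
        Multiset.count_cons_of_ne (Ne.symm hne)]
    | bw _ hm he =>
      obtain ⟨h7, h8, h9⟩ := ew_red hX h1 hm h2 he
      have h10 : Wd X (Y.p f) (X.i a :: v) (X.o a) := eqw_wd hX h1 he
      have h11 : Y.ev f (X.i a :: v) = g := by rw [← ev_eqw hX Y h1 he, h3]
      have Kw := K g _ _ h10 h9 h11
      have h12 : Wd X (Y.p f) v (X.o (X.i a)) := by rw [hX.oi]; exact h7
      have hne : lam (Y.ev f v) (X.ty (X.i a)) ≠ i := by
        rw [h6, ← hg, lam_i hX hL ha hm]; exact hl hm
      rw [Kw.1, Kw.2]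
      refine ⟨?_, by rw [prw_other hX hL h12 hne]⟩
      rw [labs_cons (X.i a) h12, Multiset.map_cons, ← lam_ev hX hL h12,
        Multiset.count_cons_of_ne (Ne.symm hne)]
  refine ⟨Quot.lift (fun g => Multiset.count i ((labs X (wd g)).map (lam f)))
      (fun g g' h => (R g g' h).1),
    Quot.lift (fun g => cls Y lam i (Y.ev f (prw X (lam f) i (wd g))))
      (fun g g' h => (R g g' h).2), ?_⟩
  intro w q hw hr
  exact K _ w q hw hr rfl

end VTB
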