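import Pool.Agent.Lib.MP_32d917_al_vt.W17
import Pool.Agent.Lib.MP_32d917_al_vt.W15

/-!
# W18: the tree of a label (50 min)

`tr_fun` for `f` gives `h`, `par`; `tree_par` with `r = cls i f`. `h0`: the word `[e (p f)]` (`act_e`, `red_one`; `labs = 0`). Every vertex is `cls i (ev f w)` with `w` reduced (`Quot.ind`, `hU.ex`).
`h1`: if the count is 0 then no letter has the label `i`, so `cls i (ev f w) = cls i f` by induction on `w` (`cls_step`, `lam_ev`, `labs_cons`). `h2`: count not 0: induction on `w` (tails of reduced words are reduced): `w = m :: v`: label of `m` not `i`: `cls i (ev f (m :: v)) = cls i (ev f v)`, `prw_other`, induction.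
Label `i`: `prw = v` (`prw_same`), `h (cls i (ev f v)) = count (labs v)`, `count (labs (m :: v)) = count (labs v) + 1` (`labs_cons`, `lam_ev`), and `Tr` is adjacent (the two vertices are different since `h` is different).
`h3`: an edge is given by `g`, `a` moving with `lam g (ty a) = i` (in one of two orders); `g = ev f w`, `Nx w a v`: `fw`: `v = a :: w`: `par (cls i (act g a)) = cls i (ev f w) = cls i g` and `h` is one more. `bw`: `w ~ i a :: v`: `act g a = ev f v`, `i a :: v` is a reduced word for `g` (`ew_red`), the label of `i a` at `ev f v` is `i` (`lam_i`):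
`par (cls i g) = cls i (ev f v)`, `h (cls i g) = h (cls i (ev f v)) + 1`. `trw_dist`: `tree_par`.
-/

set_option autoImplicit false

namespace VTB

open LatIso LatN LatF

variable {ι P A : Type} {Γ : SimpleGraph ι} {N : P → ι → Prop} {X : FD ι P A} {Z : Type}
  {Y : XSet X Z} {lam : Z → ι → ι}

private theorem W18_cons [DecidableEq ι] (hX : VV0 Γ N X) (hL : LamX Γ Y lam) (i : ι) {f : Z}
    {m : A} {w : List A} (hw : Wd X (Y.p f) w (X.o m)) :
    Multiset.count i ((labs X (m :: w)).map (lam f)) =
      Multiset.count i ((labs X w).map (lam f)) + if i = lam (Y.ev f w) (X.ty m) then 1 else 0 := by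
  rw [labs_cons m hw, Multiset.map_cons, Multiset.count_cons, lam_ev hX hL hw]

private theorem W18_zero [DecidableEq ι] (hX : VV0 Γ N X) (hL : LamX Γ Y lam) (i : ι) {f : Z}
    {w : List A} {q : P} (hw : Wd X (Y.p f) w q)
    (h : Multiset.count i ((labs X w).map (lam f)) = 0) :
    cls Y lam i (Y.ev f w) = cls Y lam i f := by
  induction hw with
  | one s ho hs => exact cls_step ho (fun hm => absurd hm hs)
  | cons m w hm hw ih =>
    rw [W18_cons hX hL i hw] at h
    have h1 : Multiset.count i ((labs X w).map (lam f)) = 0 := by omega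
    have h2 : ¬ i = lam (Y.ev f w) (X.ty m) := by
      intro he
      rw [if_pos he] at h
      omega
    rw [← ih h1]
    exact cls_step (ev_p Y hw).symm (fun _ he => h2 he.symm)

private theorem W18_adj {i : ι} {g : Z} {a : A} (ho : X.o a = Y.p g) (hm : X.mv a)
    (hl : lam g (X.ty a) = i) (hne : cls Y lam i g ≠ cls Y lam i (Y.act g a)) :
    (Tr Y lam i).Adj (cls Y lam i g) (cls Y lam i (Y.act g a)) := by
  rw [Tr, SimpleGraph.fromRel_adj]
  exact ⟨hne, Or.inl ⟨g, a, ho, hm, hl, rfl, rfl⟩⟩

private theorem W18_main [DecidableEq ι] (hX : VV0 Γ N X) (hU : Uniq Y) (hL : LamX Γ Y lam)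
    (i : ι) (f : Z) : ∃ h : Vt Y lam i → ℕ, (Tr Y lam i).IsTree ∧
      (∀ v, (Tr Y lam i).dist (cls Y lam i f) v = h v) ∧
      ∀ w q, Wd X (Y.p f) w q → Redw X w →
        h (cls Y lam i (Y.ev f w)) = Multiset.count i ((labs X w).map (lam f)) := by
  obtain ⟨h, par, hp⟩ := tr_fun hX hU hL i f
  -- the last letter of a reduced word with the label `i`
  have last : ∀ (m : A) (w : List A), X.mv m → Wd X (Y.p f) w (X.o m) → Redw X (m :: w) →
      lam (Y.ev f w) (X.ty m) = i →
      par (cls Y lam i (Y.act (Y.ev f w) m)) = cls Y lam i (Y.ev f w) ∧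
        h (cls Y lam i (Y.act (Y.ev f w) m)) = h (cls Y lam i (Y.ev f w)) + 1 := by
    intro m w hm hw hr hl
    have h1 := hp (m :: w) (X.t m) (Wd.cons m w hm hw) hr
    have h2 := hp w (X.o m) hw hr.1
    rw [prw_same hX hL hw hl, W18_cons hX hL i hw, if_pos hl.symm] at h1
    refine ⟨h1.2, ?_⟩
    rw [h2.1]
    exact h1.1
  have key := tree_par (Tr Y lam i) (cls Y lam i f) h par ?_ ?_ ?_ ?_
  · exact ⟨h, key.1, key.2, fun w q hw hr => (hp w q hw hr).1⟩
  · have hw : Wd X (Y.p f) [X.e (Y.p f)] (X.t (X.e (Y.p f))) :=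
      Wd.one _ (hX.oe _) (hX.me _)
    have h1 := (hp _ _ hw (red_one _)).1
    have h2 : Y.ev f [X.e (Y.p f)] = f := Y.act_e f
    rw [h2] at h1
    rw [h1]
    rfl
  · intro v
    induction v using Quot.ind with
    | mk g =>
      intro hv
      obtain ⟨w, hw, hr, rfl⟩ := hU.ex f g
      have h1 := (hp w _ hw hr).1
      exact W18_zero hX hL i hw (h1.symm.trans hv)
  · have claim : ∀ w q, Wd X (Y.p f) w q → Redw X w → h (cls Y lam i (Y.ev f w)) ≠ 0 →
        (Tr Y lam i).Adj (par (cls Y lam i (Y.ev f w))) (cls Y lam i (Y.ev f w)) ∧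
          h (par (cls Y lam i (Y.ev f w))) + 1 = h (cls Y lam i (Y.ev f w)) := by
      intro w q hw
      induction hw with
      | one s ho hs =>
        intro hr h0
        exact absurd ((hp [s] _ (Wd.one s ho hs) hr).1.trans rfl) h0
      | cons m w hm hw ih =>
        intro hr h0
        by_cases hl : lam (Y.ev f w) (X.ty m) = i
        · obtain ⟨h1, h2⟩ := last m w hm hw hr hl
          show (Tr Y lam i).Adj (par (cls Y lam i (Y.act (Y.ev f w) m)))
            (cls Y lam i (Y.act (Y.ev f w) m)) ∧ h (par (cls Y lam i (Y.act (Y.ev f w) m))) + 1 =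
              h (cls Y lam i (Y.act (Y.ev f w) m))
          rw [h1, h2]
          refine ⟨W18_adj (ev_p Y hw).symm hm hl (fun he => ?_), rfl⟩
          rw [← he] at h2
          omega
        · have h1 : cls Y lam i (Y.ev f (m :: w)) = cls Y lam i (Y.ev f w) :=
            cls_step (ev_p Y hw).symm (fun _ => hl)
          rw [h1] at h0 ⊢
          exact ih hr.1 h0
    intro v
    induction v using Quot.ind with
    | mk g =>
      intro hv
      obtain ⟨w, hw, hr, rfl⟩ := hU.ex f g
      exact claim w _ hw hr hv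
  · have claim : ∀ u v : Vt Y lam i, (∃ g a, X.o a = Y.p g ∧ X.mv a ∧ lam g (X.ty a) = i ∧
        u = cls Y lam i g ∧ v = cls Y lam i (Y.act g a)) →
        (u = par v ∧ h v = h u + 1) ∨ (v = par u ∧ h u = h v + 1) := by
      rintro u v ⟨g, a, ho, hm, hl, rfl, rfl⟩
      obtain ⟨w, hw, hr, rfl⟩ := hU.ex f g
      rw [← ho] at hw
      obtain ⟨v', hv'⟩ := nx_ex (X := X) w a
      have hs := xs_step hX Y hw hv'
      cases hv' with
      | st ha => exact absurd hm ha
      | bw _ _ he =>
        obtain ⟨h1, h2, h3⟩ := ew_red hX hw hm hr he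
        have h4 : Y.ev f w = Y.act (Y.ev f v') (X.i a) := ev_eqw hX Y hw he
        have h5 : lam (Y.ev f v') (X.ty (X.i a)) = i := by
          rw [hs, lam_i hX hL ho hm, hl]
        have h6 : Wd X (Y.p f) v' (X.o (X.i a)) := by
          rw [hX.oi]
          exact h1
        obtain ⟨h7, h8⟩ := last (X.i a) v' ((hX.mi a).2 hm) h6 h3 h5
        rw [← h4, hs] at h7 h8
        exact Or.inr ⟨h7.symm, h8⟩
      | fw _ hn =>
        obtain ⟨h7, h8⟩ := last a w hm hw ⟨hr, hn⟩ hl
        exact Or.inl ⟨h7.symm, h8⟩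
    intro u v huv
    rw [Tr, SimpleGraph.fromRel_adj] at huv
    rcases huv.2 with h1 | h1
    · exact claim u v h1
    · exact (claim v u h1).symm

theorem tr_tree (hX : VV0 Γ N X) (hU : Uniq Y) (hL : LamX Γ Y lam) (i : ι) (f : Z) :
    (Tr Y lam i).IsTree := by
  classical
  obtain ⟨_, h, _⟩ := W18_main hX hU hL i f
  exact h

theorem trw_dist [DecidableEq ι] (hX : VV0 Γ N X) (hU : Uniq Y) (hL : LamX Γ Y lam) (i : ι)
    {f : Z} {w : List A} {q : P} (hw : Wd X (Y.p f) w q) (hr : Redw X w) :
    (Tr Y lam i).dist (cls Y lam i f) (cls Y lam i (Y.ev f w)) =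
      Multiset.count i ((labs X w).map (lam f)) := by
  obtain ⟨h, _, h2, h3⟩ := W18_main hX hU hL i f
  rw [h2, h3 w q hw hr]

end VTB
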