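import Pool.Agent.Lib.MP_32d917_al_vt.W18

/-!
# W19: distances and frames (40 min)

Classical `DecidableEq ι` where needed. `trw_adj`: the word of `a` is `[a, e (o a)]`, reduced (as in `uq_inj`, W13); `trw_dist` (distance 1, so the vertices are different, and `Tr` is adjacent by definition). `dist_word`: induction on `w` with the triangle inequality (the tree is connected): `cls_step` or `trw_adj` for the last letter; `labs_cons`, `lam_ev`.
`pt_cls`: `hU.ex f g`: `g = ev f w`, `trw_dist` with distance 0 for all `i`: all counts are 0, so `labs X w = 0` (a label `j` in `labs X w` gives the count of `lam f j`), `labs_card`: `w = [s]`. `adj_step`: `g = ev f w`; the count of `i` is 1 (`SimpleGraph.dist_eq_one_iff_adj`), all other counts are 0 (`dist` of equal vertices), so `labs X w` has one element,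
`w = [m, s]` (`labs_card`, `Wd`): `a = ml s m`: `ev f [m, s] = act (act f s) m = act f (ml s m)` (`act_ml`), `mlo`, `mlm`; label: `lam f (bk X [s] (ty m)) = i`, `bk X [s] (ty m) = pm (i s) (ty m) = ty (ml s m)` (`mly`, `pi`).
-/

set_option autoImplicit false

namespace VTB

open LatIso LatN LatF

variable {ι P A : Type} {Γ : SimpleGraph ι} {N : P → ι → Prop} {X : FD ι P A} {Z : Type}
  {Y : XSet X Z} {lam : Z → ι → ι}

theorem trw_adj (hX : VV0 Γ N X) (hU : Uniq Y) (hL : LamX Γ Y lam) {f : Z} {a : A}
    (ha : X.o a = Y.p f) (hm : X.mv a) :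
    (Tr Y lam (lam f (X.ty a))).Adj (cls Y lam (lam f (X.ty a)) f)
      (cls Y lam (lam f (X.ty a)) (Y.act f a)) := by
  classical
  have hw0 : Wd X (Y.p f) [X.e (X.o a)] (X.o a) := by
    have h1 := Wd.one (X := X) (p := Y.p f) (X.e (X.o a)) (by rw [hX.oe, ha]) (hX.me _)
    rwa [hX.te] at h1
  have hw : Wd X (Y.p f) [a, X.e (X.o a)] (X.t a) := Wd.cons a _ hm hw0
  have hr : Redw X [a, X.e (X.o a)] := by
    refine ⟨red_one _, fun v hv => ?_⟩
    have h1 := eqw_one hv
    injection h1 with h2 _
    exact hX.me _ (by rw [← h2]; exact (hX.mi a).2 hm)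
  have hd := trw_dist hX hU hL (lam f (X.ty a)) hw hr
  have hev : Y.ev f [a, X.e (X.o a)] = Y.act f a := by
    show Y.act (Y.act f (X.e (X.o a))) a = Y.act f a
    rw [ha, Y.act_e]
  have hlab : labs X [a, X.e (X.o a)] = X.ty a ::ₘ 0 := by
    show X.pm (X.i (X.e (X.o a))) (X.ty a) ::ₘ 0 = X.ty a ::ₘ 0
    rw [vv_ei hX, hX.pe]
  rw [hev, hlab, Multiset.map_cons, Multiset.map_zero, Multiset.count_cons_self,
    Multiset.count_zero] at hd
  exact SimpleGraph.dist_eq_one_iff_adj.1 hd

theorem dist_word [DecidableEq ι] (hX : VV0 Γ N X) (hU : Uniq Y) (hL : LamX Γ Y lam) (i : ι)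
    {f : Z} {w : List A} {q : P} (hw : Wd X (Y.p f) w q) :
    (Tr Y lam i).dist (cls Y lam i f) (cls Y lam i (Y.ev f w)) ≤
      Multiset.count i ((labs X w).map (lam f)) := by
  have hc : (Tr Y lam i).Connected := (tr_tree hX hU hL i f).1
  induction hw with
  | one s h1 h2 =>
    have h3 : cls Y lam i (Y.ev f [s]) = cls Y lam i f := cls_step h1 (fun h => absurd h h2)
    rw [h3, SimpleGraph.dist_self]
    exact Nat.zero_le _
  | cons m w hm hw ih =>
    have hp : Y.p (Y.ev f w) = X.o m := ev_p Y hw
    have h1 := hc.dist_triangle (u := cls Y lam i f) (v := cls Y lam i (Y.ev f w))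
      (w := cls Y lam i (Y.ev f (m :: w)))
    have hev : Y.ev f (m :: w) = Y.act (Y.ev f w) m := rfl
    rw [labs_cons m hw, Multiset.map_cons, Multiset.count_cons]
    have hl : lam (Y.ev f w) (X.ty m) = lam f (bk X w (X.ty m)) := lam_ev hX hL hw _
    by_cases h : lam (Y.ev f w) (X.ty m) = i
    · have h2 : (Tr Y lam i).Adj (cls Y lam i (Y.ev f w)) (cls Y lam i (Y.ev f (m :: w))) := by
        rw [hev]
        have h3 := trw_adj hX hU hL hp.symm hm
        rw [h] at h3
        exact h3
      have h4 := SimpleGraph.dist_eq_one_iff_adj.2 h2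
      rw [if_pos (by rw [← hl, h])]
      omega
    · have h2 : cls Y lam i (Y.ev f (m :: w)) = cls Y lam i (Y.ev f w) := by
        rw [hev]
        exact cls_step hp.symm (fun _ => h)
      rw [h2] at h1 ⊢
      rw [SimpleGraph.dist_self] at h1
      omega

private theorem W19_len {p q : P} {w : List A} (hw : Wd X p w q) : 0 < w.length := by
  obtain ⟨m, v, rfl, _⟩ := wd_end hw
  simp

theorem pt_cls (hX : VV0 Γ N X) (hU : Uniq Y) (hL : LamX Γ Y lam) {f g : Z}
    (h : ∀ i, cls Y lam i f = cls Y lam i g) : Rpt Y f g := by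
  classical
  obtain ⟨w, hw, hr, he⟩ := hU.ex f g
  have h0 : (labs X w).map (lam f) = 0 := by
    refine Multiset.eq_zero_of_forall_notMem fun i hi => ?_
    have h1 := trw_dist hX hU hL i hw hr
    rw [he, ← h i, SimpleGraph.dist_self] at h1
    exact (Multiset.count_pos.2 hi).ne h1
  have h1 : labs X w = 0 := Multiset.map_eq_zero.1 h0
  have h2 := labs_card hw
  rw [h1, Multiset.card_zero, zero_add] at h2
  revert h2 he
  generalize Y.p g = q at hw
  intro he h2
  cases hw with
  | one s hs1 hs2 => exact ⟨s, hs1, hs2, he⟩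
  | cons m v hm hv =>
    have h3 := W19_len hv
    rw [List.length_cons] at h2
    omega

theorem adj_step (hX : VV0 Γ N X) (hU : Uniq Y) (hL : LamX Γ Y lam) {i : ι} {f g : Z}
    (h : (Tr Y lam i).Adj (cls Y lam i f) (cls Y lam i g))
    (h' : ∀ j, j ≠ i → cls Y lam j g = cls Y lam j f) :
    ∃ a, X.o a = Y.p f ∧ X.mv a ∧ lam f (X.ty a) = i ∧ Y.act f a = g := by
  classical
  obtain ⟨w, hw, hr, he⟩ := hU.ex f g
  have h0 : (labs X w).map (lam f) = {i} := by
    ext j
    have h1 := trw_dist hX hU hL j hw hr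
    rw [he] at h1
    by_cases hj : j = i
    · subst hj
      rw [SimpleGraph.dist_eq_one_iff_adj.2 h] at h1
      rw [← h1, Multiset.count_singleton_self]
    · rw [h' j hj, SimpleGraph.dist_self] at h1
      rw [← h1, Multiset.count_singleton, if_neg hj]
  have h2 := labs_card hw
  have h3 : Multiset.card (labs X w) = 1 := by
    rw [← Multiset.card_map (lam f), h0, Multiset.card_singleton]
  rw [h3] at h2
  revert h2 he h0
  generalize Y.p g = q at hw
  intro he h0 h2
  cases hw with
  | one s hs1 hs2 => simp at h2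
  | cons m v hm hv =>
    revert hv
    generalize hom : X.o m = r
    intro hv
    cases hv with
    | one s hs1 hs2 =>
      have hlc : X.lc s m := ⟨hs2, hom.symm⟩
      have hlab : (labs X [m, s]).map (lam f) = {lam f (X.ty (X.ml s m))} := by
        show lam f (X.pm (X.i s) (X.ty m)) ::ₘ 0 = {lam f (X.ty (X.ml s m))}
        have h5 := hX.mly _ _ hlc hm
        rw [← h5, hX.pi]
        rfl
      rw [hlab] at h0
      refine ⟨X.ml s m, by rw [hX.mlo _ _ hlc, hs1], (hX.mlm _ _ hlc).2 hm,
        Multiset.singleton_inj.1 h0, ?_⟩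
      rw [Y.act_ml _ _ _ hs1 hlc]
      exact he
    | cons m' v' hm' hv' =>
      have h3 := W19_len hv'
      rw [List.length_cons, List.length_cons] at h2
      omega

end VTB
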