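import Pool.Agent.Lib.MP_32d917_al_vt.W19

/-!
# W20: the framed complex (40 min)

`cow_mk`: `Quot.out (Quot.mk _ f)` is related to `f` by the equivalence relation generated by `Rpt Y` (`Quot.eqvGen_exact`), and `Rpt Y f g` gives `cls i f = cls i g` (`cls_step`). `ptw_eq`: if the points are equal then all `cls i` are equal (`cow_mk`), `pt_cls`. `step_iff`: `VSt` by definition with `cow_mk`, `adj_step` (from `f` to `g`), and `trw_adj`, `cls_step` (for `j ≠ i` by `hL.bij`... the label of `a` is `i ≠ j`).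
`pt_vf`: `pt f = Quot.mk _ f`, `lam`, `Y.p`, `Y.act`; `bij`, `act_lam`: `hL`; `onto`: `Quot.ind`; `act_p` ... `act_sq`: `Y`; `sq_of`: `uq_sq`; `st`: `Quot.sound`; `mo`, `sur`: `step_iff`, `ptw_eq` (a stationary arrow from `f` to `f'`); `inj`: `uq_inj`.
-/

set_option autoImplicit false

namespace VTB

open LatIso LatN LatF

variable {ι P A : Type} {Γ : SimpleGraph ι} {N : P → ι → Prop} {X : FD ι P A} {Z : Type}
  {Y : XSet X Z} {lam : Z → ι → ι}

theorem cow_mk {f : Z} {i : ι} : cow Y lam (Quot.mk _ f) i = cls Y lam i f := by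
  have h1 : Relation.EqvGen (Rpt Y) (Quot.out (Quot.mk (Rpt Y) f)) f :=
    Quot.eqvGen_exact (Quot.out_eq _)
  show cls Y lam i (Quot.out (Quot.mk (Rpt Y) f)) = cls Y lam i f
  revert h1
  generalize Quot.out (Quot.mk (Rpt Y) f) = g
  intro h1
  induction h1 with
  | rel x y h =>
    obtain ⟨s, h1, h2, h3⟩ := h
    rw [← h3]
    exact (cls_step h1 (fun h => absurd h h2)).symm
  | refl x => rfl
  | symm x y _ ih => exact ih.symm
  | trans x y z _ _ ih1 ih2 => exact ih1.trans ih2

theorem ptw_eq (hX : VV0 Γ N X) (hU : Uniq Y) (hL : LamX Γ Y lam) {f g : Z} :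
    (Quot.mk _ f : Ptw Y) = Quot.mk _ g ↔ Rpt Y f g := by
  constructor
  · intro h
    refine pt_cls hX hU hL fun i => ?_
    rw [← cow_mk (Y := Y) (lam := lam) (f := f) (i := i), h, cow_mk]
  · exact fun h => Quot.sound h

theorem step_iff (hX : VV0 Γ N X) (hU : Uniq Y) (hL : LamX Γ Y lam) {i : ι} {f g : Z} :
    VSt (Tr Y lam) (cow Y lam) i (Quot.mk _ f) (Quot.mk _ g) ↔
      ∃ a, X.o a = Y.p f ∧ X.mv a ∧ lam f (X.ty a) = i ∧ Y.act f a = g := by
  unfold VSt
  simp only [cow_mk]
  constructor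
  · rintro ⟨h1, h2⟩
    exact adj_step hX hU hL h1 h2
  · rintro ⟨a, h1, h2, rfl, rfl⟩
    exact ⟨trw_adj hX hU hL h1 h2, fun j hj => cls_step h1 (fun _ => Ne.symm hj)⟩

theorem pt_vf (hX : VV0 Γ N X) (hU : Uniq Y) (hL : LamX Γ Y lam) :
    ∃ L : VF X (Tr Y lam) (cow Y lam) Z, (∀ f, L.pt f = Quot.mk _ f) ∧
      (∀ f k, L.lam f k = lam f k) ∧ (∀ f, L.p f = Y.p f) ∧ ∀ f a, L.act f a = Y.act f a := by
  refine ⟨{ pt := fun f => Quot.mk _ f
            lam := lam
            p := Y.p
            act := Y.act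
            bij := hL.bij
            onto := ?_
            act_p := Y.act_p
            act_lam := hL.act
            act_e := Y.act_e
            act_i := Y.act_i
            act_ml := Y.act_ml
            act_sq := Y.act_sq
            sq_of := ?_
            st := ?_
            mo := ?_
            sur := ?_
            inj := ?_ }, fun _ => rfl, fun _ _ => rfl, fun _ => rfl, fun _ _ => rfl⟩
  · intro x
    exact Quot.exists_rep x
  · intro f a b c d ha hs h
    exact uq_sq hX hU ha hs h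
  · intro f a ha hm
    exact (Quot.sound ⟨a, ha, hm, rfl⟩).symm
  · intro f a ha hm
    exact (step_iff hX hU hL).2 ⟨a, ha, hm, rfl, rfl⟩
  · rintro f f' (h | ⟨i, h⟩)
    · obtain ⟨s, h1, _, h3⟩ := (ptw_eq hX hU hL).1 h.symm
      exact ⟨s, h1, h3⟩
    · obtain ⟨a, h1, _, _, h3⟩ := (step_iff hX hU hL).1 h
      exact ⟨a, h1, h3⟩
  · intro f a b ha hb h
    exact uq_inj hX hU ha hb h

end VTB
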