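import Pool.Agent.Lib.MP_32d917_al_vt.W20

/-!
# W21: the axioms of the complex, except medians (60 min)

Every point is `Quot.mk _ f`. `nw_mk`: (→) `Quot.mk _ f' = Quot.mk _ f`, `lam f' k' = lam f k`, `N (p f') k'`: `ptw_eq`: `f' = act f s` with `s` stationary (use `Rpt Y f f'`), `lam f' (pm s k) = lam f k` (`hL.act`), so `k' = pm s k` (`hL.bij`), `ntr` for `s` (`p f' = t s` by `act_p`). (←) by definition.
`ms_nomed`: tree: `tr_tree` (a frame exists since `Z` is nonempty). `ne`. `inj`: `cow_mk`, `pt_cls`, `ptw_eq`. `onto`: `Quot.ind`, `cow_mk`. `conn`: `hU.ex f g`, induction on the word (`step_iff` for moving letters, stationary letters do not change the point). `med`: hypothesis.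
`sq`: `x = mk f`; `step_iff` gives `a`, `c` with `y = mk (act f a)`, `z = mk (act f c)` (represent `y` and `z` by frames first), labels `lam f (ty a) = i ≠ j = lam f (ty c)`. (←) `Γ.Adj (ty a) (ty c)` (`hL.gam`), `vv_sqx`: `sq a b c d`, `w = mk (act (act f a) b)`; labels: `lam (act f a) (ty b) = lam (act f a) (pm a (ty c)) = lam f (ty c)` (`tyb`, `hL.act`), similarly `d` (`act_sq`).
(→) `w = mk h`; `step_iff` from `act f a` to `h` gives `b`, from `act f c` to `h` gives `d`; `SqT X a b c d` (`ty b = pm a (ty c)` by `hL.bij` at `act f a`; `t b = p h = t d` by `act_p`), `uq_sq`, `sqg`, `hL.gam`.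
`occ`: `x = mk f`, `i = lam f k` (`hL.bij`); `(∃ y, VSt x y)` iff `∃ a, X.dir (p f) k a` (`step_iff`), `hX.occ`; `RaagIso.st Γ v = {w | w = v ∨ Γ.Adj v w}`, `nw_mk` and `hL.gam` translate. `nocc`: the same. `ntr`: `step_iff`: `y = mk (act f a)`, `k = lam f l`, `l ≠ ty a`, `k = lam (act f a) (pm a l)`: `nw_mk` for both, `hX.ntr`.
`pt_vlab`: `hL.gam`, `nw_mk`.
-/

set_option autoImplicit false

namespace VTB

open LatIso LatN LatF

variable {ι P A : Type} {Γ : SimpleGraph ι} {N : P → ι → Prop} {X : FD ι P A} {Z : Type}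
  {Y : XSet X Z} {lam : Z → ι → ι}

theorem nw_mk (hX : VV0 Γ N X) (hU : Uniq Y) (hL : LamX Γ Y lam) {f : Z} {k : ι} :
    Nw Y lam N (Quot.mk _ f) (lam f k) ↔ N (Y.p f) k := by
  constructor
  · rintro ⟨f', k', h1, h2, h3⟩
    obtain ⟨s, ho, hs, hf⟩ := (ptw_eq hX hU hL).1 h1
    have h4 := hL.act f' s ho k'
    rw [hf, h2] at h4
    have h5 : X.pm s k' = k := (hL.bij f).1 h4
    have h6 := hX.ntr s k' (fun hm => absurd hm hs)
    have h7 := Y.act_p _ _ ho
    rw [hf] at h7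
    rw [h7, ← h5]
    exact h6.2 (by rw [ho]; exact h3)
  · intro h
    exact ⟨f, k, rfl, rfl, h⟩

private theorem vw21_conn (hX : VV0 Γ N X) (hU : Uniq Y) (hL : LamX Γ Y lam) {f : Z}
    {w : List A} {q : P} (hw : Wd X (Y.p f) w q) :
    Relation.ReflTransGen (fun a b => ∃ i, VSt (Tr Y lam) (cow Y lam) i a b)
      (Quot.mk _ f : Ptw Y) (Quot.mk _ (Y.ev f w)) := by
  induction hw with
  | one s ho hs =>
    have h1 : (Quot.mk _ f : Ptw Y) = Quot.mk _ (Y.ev f [s]) := Quot.sound ⟨s, ho, hs, rfl⟩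
    rw [← h1]
  | cons m w hm hw ih =>
    refine ih.tail ⟨lam (Y.ev f w) (X.ty m), (step_iff hX hU hL).2 ⟨m, (ev_p Y hw).symm, hm,
      rfl, rfl⟩⟩

private theorem vw21_occ (hX : VV0 Γ N X) (hU : Uniq Y) (hL : LamX Γ Y lam) (x : Ptw Y)
    (i : ι) : (∃ y, VSt (Tr Y lam) (cow Y lam) i x y) ↔ Oc Γ (Nw Y lam N) x i := by
  induction x using Quot.ind with
  | mk f =>
  obtain ⟨k, rfl⟩ := (hL.bij f).2 i
  have h1 : (∃ y, VSt (Tr Y lam) (cow Y lam) (lam f k) (Quot.mk _ f) y) ↔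
      ∃ a, X.dir (Y.p f) k a := by
    constructor
    · rintro ⟨y, hy⟩
      induction y using Quot.ind with
      | mk g =>
      obtain ⟨a, h1, h2, h3, _⟩ := (step_iff hX hU hL).1 hy
      exact ⟨a, h1, h2, (hL.bij f).1 h3⟩
    · rintro ⟨a, h1, h2, h3⟩
      exact ⟨Quot.mk _ (Y.act f a), (step_iff hX hU hL).2 ⟨a, h1, h2, by rw [h3], rfl⟩⟩
  rw [h1, hX.occ]
  constructor
  · intro h v hv
    obtain ⟨l, rfl⟩ := (hL.bij f).2 v
    rcases h l ((nw_mk hX hU hL).1 hv) with h2 | h2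
    · left
      rw [h2]
    · right
      exact (hL.gam f _ _).2 h2
  · intro h v hv
    rcases h _ ((nw_mk hX hU hL).2 hv) with h2 | h2
    · left
      exact (hL.bij f).1 h2
    · right
      exact (hL.gam f _ _).1 h2

private theorem vw21_sq (hX : VV0 Γ N X) (hU : Uniq Y) (hL : LamX Γ Y lam) (x y z : Ptw Y)
    (i j : ι) (hij : i ≠ j) (hy : VSt (Tr Y lam) (cow Y lam) i x y)
    (hz : VSt (Tr Y lam) (cow Y lam) j x z) :
    (∃ w, VSt (Tr Y lam) (cow Y lam) j y w ∧ VSt (Tr Y lam) (cow Y lam) i z w) ↔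
      Γ.Adj i j := by
  induction x using Quot.ind with
  | mk f =>
  induction y using Quot.ind with
  | mk g =>
  induction z using Quot.ind with
  | mk h =>
  obtain ⟨a, a1, a2, rfl, rfl⟩ := (step_iff hX hU hL).1 hy
  obtain ⟨c, c1, c2, rfl, rfl⟩ := (step_iff hX hU hL).1 hz
  have hpa := Y.act_p _ _ a1
  have hpc := Y.act_p _ _ c1
  constructor
  · rintro ⟨w, hw1, hw2⟩
    induction w using Quot.ind with
    | mk k =>
    obtain ⟨b, b1, b2, b3, b4⟩ := (step_iff hX hU hL).1 hw1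
    obtain ⟨d, d1, d2, d3, d4⟩ := (step_iff hX hU hL).1 hw2
    have hT : SqT X a b c d := by
      refine ⟨a2, b2, c2, d2, by rw [a1, c1], by rw [b1, hpa], by rw [d1, hpc], ?_, ?_, ?_, ?_⟩
      · rw [← Y.act_p _ _ b1, ← Y.act_p _ _ d1, b4, d4]
      · intro h5
        exact hij (by rw [h5])
      · apply (hL.bij (Y.act f a)).1
        rw [b3, hL.act f a a1]
      · apply (hL.bij (Y.act f c)).1
        rw [d3, hL.act f c c1]
    exact (hL.gam f _ _).2 (hX.sqg _ _ _ _ (uq_sq hX hU a1 hT (b4.trans d4.symm)))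
  · intro hadj
    obtain ⟨b, d, hsq⟩ := vv_sqx hX a2 c2 (by rw [a1, c1]) ((hL.gam f _ _).1 hadj)
    have hT := hX.sqT _ _ _ _ hsq
    refine ⟨Quot.mk _ (Y.act (Y.act f a) b), (step_iff hX hU hL).2 ⟨b, ?_, hT.mb, ?_, rfl⟩,
      (step_iff hX hU hL).2 ⟨d, ?_, hT.md, ?_, (Y.act_sq _ _ _ _ _ a1 hsq).symm⟩⟩
    · rw [hpa, hT.tab]
    · rw [hT.tyb, hL.act f a a1]
    · rw [hpc, hT.tcd]
    · rw [hT.tyd, hL.act f c c1]

private theorem vw21_ntr (hX : VV0 Γ N X) (hU : Uniq Y) (hL : LamX Γ Y lam) (x y : Ptw Y)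
    (i k : ι) (hy : VSt (Tr Y lam) (cow Y lam) i x y) (hk : k ≠ i) :
    Nw Y lam N y k ↔ Nw Y lam N x k := by
  induction x using Quot.ind with
  | mk f =>
  induction y using Quot.ind with
  | mk g =>
  obtain ⟨a, a1, a2, rfl, rfl⟩ := (step_iff hX hU hL).1 hy
  obtain ⟨l, rfl⟩ := (hL.bij f).2 k
  have h1 : l ≠ X.ty a := fun h => hk (by rw [h])
  have h2 := hX.ntr a l (fun _ => h1)
  rw [nw_mk hX hU hL, ← hL.act f a a1 l, nw_mk hX hU hL, Y.act_p _ _ a1, h2, a1]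

theorem ms_nomed (hX : VV0 Γ N X) (hU : Uniq Y) (hL : LamX Γ Y lam) (hne : Nonempty Z)
    (hm : ∀ x y z : Ptw Y, ∃ m, Med (Tr Y lam) (cow Y lam) x y z m) :
    MS1 Γ (Tr Y lam) (cow Y lam) (Nw Y lam N) := by
  obtain ⟨f0⟩ := hne
  refine ⟨fun i => tr_tree hX hU hL i f0, ⟨Quot.mk _ f0⟩, ?_, ?_, ?_, hm, vw21_sq hX hU hL,
    vw21_occ hX hU hL, ?_, vw21_ntr hX hU hL⟩
  · intro x y h
    induction x using Quot.ind with
    | mk f =>
    induction y using Quot.ind with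
    | mk g =>
    apply Quot.sound
    apply pt_cls hX hU hL
    intro i
    have := h i
    rwa [cow_mk, cow_mk] at this
  · intro i v
    induction v using Quot.ind with
    | mk f =>
    exact ⟨Quot.mk _ f, cow_mk⟩
  · intro x y
    induction x using Quot.ind with
    | mk f =>
    induction y using Quot.ind with
    | mk g =>
    obtain ⟨w, hw, _, hg⟩ := hU.ex f g
    have := vw21_conn hX hU hL hw
    rwa [hg] at this
  · intro x i h
    apply (vw21_occ hX hU hL x i).1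
    induction x using Quot.ind with
    | mk f =>
    obtain ⟨k, rfl⟩ := (hL.bij f).2 i
    obtain ⟨a, a1, a2, a3⟩ := hX.nocc _ _ ((nw_mk hX hU hL).1 h)
    exact ⟨Quot.mk _ (Y.act f a), (step_iff hX hU hL).2 ⟨a, a1, a2, by rw [a3], rfl⟩⟩

end VTB
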