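import Pool.Agent.Lib.MP_32d917_al_vt.W09

/-!
# W22: concatenation of words (30 min)

`bk_catw`, `labs_catw`: induction on `v` with the three cases of `catw` (`v` is a word, so it is not empty): `v = [s]`: `bk_rtw`, `labs_rtw` (`labs [s] = 0`). `v = m :: x :: v'`: `catw u v = m :: catw u (x :: v')`, `catw u (x :: v')` is a word (`catw_wd`), `labs_cons`.
`catw_assoc1`: (`[a, e]` is a word, `a` moving) first letter: `catw [a, e q] v` for a word `v` from `t a`. `catw_eqw`: `eqw` in the second argument: one step: T at the first two letters (`m :: [x]`): `m :: rtw x u` and `ml (i s) m :: rtw (mr x s) u = ml (i s) m :: rtw s (rtw x u)` (`rtw_rtw`, `mrs`): T. Otherwise the same step on top.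
-/

set_option autoImplicit false

namespace VTB

open LatIso LatN LatF

variable {ι P A : Type} {Γ : SimpleGraph ι} {N : P → ι → Prop} {X : FD ι P A}

theorem bk_catw (hX : VV0 Γ N X) {p q r : P} {u v : List A} (hu : Wd X p u q)
    (hv : Wd X q v r) (k : ι) : bk X (catw X u v) k = bk X u (bk X v k) := by
  induction hv generalizing k with
  | one s ho hs =>
    show bk X (rtw X s u) k = bk X u (X.pm (X.i s) k)
    exact bk_rtw hX hu hs ho k
  | cons m w hm hw ih =>
    obtain ⟨x, w', rfl, -⟩ := wd_end hw
    show bk X (m :: catw X u (x :: w')) k = _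
    exact ih (X.pm (X.i m) k)

theorem labs_catw (hX : VV0 Γ N X) {p q r : P} {u v : List A} (hu : Wd X p u q)
    (hv : Wd X q v r) : labs X (catw X u v) = labs X u + (labs X v).map (bk X u) := by
  induction hv with
  | one s ho hs =>
    show labs X (rtw X s u) = labs X u + (0 : Multiset ι).map (bk X u)
    rw [labs_rtw hX hu hs ho]; simp
  | cons m w hm hw ih =>
    have hc := catw_wd hX hu hw
    obtain ⟨x, w', rfl, -⟩ := wd_end hw
    show labs X (m :: catw X u (x :: w')) = _
    rw [labs_cons m hc, labs_cons m hw, ih, bk_catw hX hu hw, Multiset.map_cons,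
      Multiset.add_cons]

private theorem w22_step (hX : VV0 Γ N X) {p q : P} {u : List A} (hu : Wd X p u q)
    {v v' : List A} (h : Stw X v v') : ∀ r, Wd X q v r → Eqw X (catw X u v) (catw X u v') := by
  induction h with
  | T m x s w hs ht =>
    intro r hv
    obtain ⟨hm, hx, -⟩ := wd_cc.1 hv
    cases w with
    | nil =>
      obtain ⟨h1, h2, h3⟩ := wd_one.1 hx
      show Eqw X (m :: rtw X x u) (X.ml (X.i s) m :: rtw X (X.mr x s) u)
      rw [hX.mrs _ _ h2 hs, ← rtw_rtw hX hu h2 h1 hs]
      exact eqw_T2 (rtw_wd hX hu h2 h1) hs.1 hs.2 ht.symm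
    | cons y w' =>
      exact Relation.ReflTransGen.single (Stw.T m x s (catw X u (y :: w')) hs ht)
  | Q a b c d w hs =>
    intro r hv
    obtain ⟨hm, hx, -⟩ := wd_cc.1 hv
    cases w with
    | nil => exact absurd (hX.sqT _ _ _ _ hs).ma (wd_one.1 hx).2.1
    | cons y w' =>
      exact Relation.ReflTransGen.single (Stw.Q a b c d (catw X u (y :: w')) hs)
  | C m w w' hs ih =>
    intro r hv
    have hl := stw_len hs
    cases w with
    | nil => cases hs
    | cons y w1 =>
      cases w' with
      | nil => simp at hl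
      | cons z w2 =>
        obtain ⟨hm, hx, -⟩ := wd_cc.1 hv
        exact eqw_cons m (ih _ hx)

theorem catw_eqw (hX : VV0 Γ N X) {p q r : P} {u v v' : List A} (hu : Wd X p u q)
    (hv : Wd X q v r) (h : Eqw X v v') : Eqw X (catw X u v) (catw X u v') := by
  induction h with
  | refl => exact eqw_refl _
  | tail h1 h2 ih => exact eqw_trans ih (w22_step hX hu h2 _ (eqw_wd hX hv h1))

end VTB
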