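import Pool.Agent.Lib.MP_32d917_al_vt.W22

/-!
# W23: products of reduced words (60 min)

`cr_aux` by induction on the length of `V1` (for all `b`): `catw U V1 ~ i b :: v`. `V1 = [s]`: `rtw s U ~ i b :: v`, `U ~ i (ml s b) :: v` (`ew_rtw`): `a = ml s b`, `V' = [e (t b)]`: `b :: [s] ~ ml s b :: [mr s (i s)]` (T), `mr s (i s) = e (o s)` (`mrs`, `mli`), and `catw [a, e] [e (t b)] = rtw (e ..) [a, e] = [a, e]` (`rtw_e`).
`V1 = c :: V2`: `c :: catw U V2 ~ i b :: v`: Levi: (i) `c = ml s (i b)`, then `c :: V2 ~ i b :: rtw s V2` (`eqw_T`): against `Redw (b :: c :: V2)`. (ii) `catw U V2 ~ b' :: u`, `v ~ a' :: u`, `sq b' c a' (i b)`: `sq (i b') a' c b` (`sqr`, `ii`), `sq c b (i b') a'` (`sqs`): `b :: c :: V2 ~ a' :: i b' :: V2` (`eqw_Q`), which is reduced (`red_inv`), so `i b' :: V2`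
is reduced; `catw U V2 ~ i (i b') :: u`; `catw U V2` is reduced (tail of `c :: catw U V2`). Induction with `V2` and `i b'`: `a`, `U ~ i a :: u'`, `i b' :: V2 ~ catw [a, e] V'`. So `b :: c :: V2 ~ a' :: catw [a, e] V' = catw [a, e] (a' :: V')` (`V'` is not empty).
`cat_red`: induction on `V`: `[s]`: `catw = rtw s U` is reduced (`red_rtw`). `b :: V1`: if `catw U V1` is not reduced: induction: `V1 ~ catw [a, e] V1'`, `b :: V1 ~ catw [a, e] (b :: V1')`. If it is reduced then `catw U V1 ~ i b :: v` for some `v` (definition of `Redw`): `cr_aux`.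
-/

set_option autoImplicit false

namespace VTB

open LatIso LatN LatF

variable {ι P A : Type} {Γ : SimpleGraph ι} {N : P → ι → Prop} {X : FD ι P A}

theorem cr_aux (hX : VV0 Γ N X) {p q : P} {U V1 v : List A} {b : A} (hU : Wd X p U q)
    (hV : Wd X q V1 (X.o b)) (hb : X.mv b) (rV : Redw X (b :: V1))
    (rc : Redw X (catw X U V1)) (h : Eqw X (catw X U V1) (X.i b :: v)) :
    ∃ a u V', X.mv a ∧ X.o a = q ∧ Eqw X U (X.i a :: u) ∧ Wd X (X.t a) V' (X.t b) ∧
      Eqw X (b :: V1) (catw X [a, X.e q] V') := by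
  induction V1 generalizing b v with
  | nil => cases hV
  | cons c V2 ih =>
    cases V2 with
    | nil =>
      obtain ⟨h1, h2, h3⟩ := wd_one.1 hV
      have hl : X.lc c b := ⟨h2, h3.symm⟩
      have hwe : Wd X q [X.e q] q := by
        have h4 := Wd.one (X := X) (p := q) (X.e q) (hX.oe q) (hX.me q)
        rwa [hX.te] at h4
      have h5 : Eqw X U (X.i (X.ml c b) :: v) := ew_rtw hX hU hl h1 h
      refine ⟨X.ml c b, v, [X.e (X.t b)], (hX.mlm _ _ hl).2 hb, by rw [hX.mlo _ _ hl, h1], h5,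
        ?_, ?_⟩
      · rw [hX.mlt _ _ hl]
        have h4 := Wd.one (X := X) (p := X.t b) (X.e (X.t b)) (hX.oe _) (hX.me _)
        rwa [hX.te] at h4
      · have h6 := eqw_T hX hwe hl h1
        have h7 : rtw X c [X.e q] = [c] := by
          show [X.mr (X.e q) c] = [c]
          rw [hX.mrs _ _ (hX.me q) ⟨h2, by rw [hX.te, h1]⟩, ← h1, hX.mle]
        have h8 : catw X [X.ml c b, X.e q] [X.e (X.t b)] = [X.ml c b, X.e q] := by
          show [X.mr (X.ml c b) (X.e (X.t b)), X.e q] = [X.ml c b, X.e q]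
          rw [← hX.mlt _ _ hl, vv_mre hX]
        rw [h7] at h6
        rw [h8]
        exact eqw_symm hX h6
    | cons x V3 =>
      obtain ⟨h1, h2, h3⟩ := wd_cc.1 hV
      have h' : Eqw X (c :: catw X U (x :: V3)) (X.i b :: v) := h
      have hcw := catw_wd hX hU h2
      rcases levi hX hcw h1 h' with ⟨s, k1, k2, k3, k4⟩ | ⟨u, b', a', k1, k2, k3⟩
      · exfalso
        have h4 := eqw_T hX h2 k1 k2
        rw [← k3] at h4
        exact rV.2 _ h4
      · have hT := hX.sqT _ _ _ _ k3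
        have s1 : X.sq c b (X.i b') a' := by
          have s2 := hX.sqr _ _ _ _ k3
          rw [hX.ii] at s2
          exact hX.sqs _ _ _ _ s2
        have e1 : Eqw X (b :: c :: x :: V3) (a' :: X.i b' :: x :: V3) := eqw_Q _ s1
        have hwb : Wd X q (b :: c :: x :: V3) (X.t b) := Wd.cons b _ hb hV
        have r1 := red_inv hX hwb rV e1
        have hmb : X.mv (X.i b') := (hX.mi b').2 hT.ma
        obtain ⟨a, u', V4, m1, m2, m3, m4, m5⟩ := ih (b := X.i b') (v := u)
          (by rw [hX.oi, hT.tab]; exact h2) hmb r1.1 rc.1 (by rw [hX.ii]; exact k1)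
        obtain ⟨y, V5, rfl, _⟩ := wd_end m4
        refine ⟨a, u', a' :: y :: V5, m1, m2, m3, ?_, ?_⟩
        · have h5 : X.t b = X.t a' := by rw [hT.tcd, hX.oi]
          rw [h5]
          refine Wd.cons a' _ hT.mc ?_
          rw [hX.ti, hT.oac] at m4
          exact m4
        · exact eqw_trans e1 (eqw_cons a' m5)

theorem cat_red (hX : VV0 Γ N X) {p q r : P} {U V : List A} (hU : Wd X p U q)
    (hV : Wd X q V r) (rU : Redw X U) (rV : Redw X V) (hn : ¬ Redw X (catw X U V)) :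
    ∃ a u V', X.mv a ∧ X.o a = q ∧ Eqw X U (X.i a :: u) ∧ Wd X (X.t a) V' r ∧
      Eqw X V (catw X [a, X.e q] V') := by
  induction hV with
  | one s ho hs => exact absurd (red_rtw hX hU hs ho rU) hn
  | cons m w hm hw ih =>
    by_cases hc : Redw X (catw X U w)
    · obtain ⟨x, w', rfl, _⟩ := wd_end hw
      have h1 : ∃ v, Eqw X (catw X U (x :: w')) (X.i m :: v) := by
        by_contra hne
        exact hn ⟨hc, fun v hv => hne ⟨v, hv⟩⟩
      obtain ⟨v, hv⟩ := h1
      exact cr_aux hX hU hw hm rV hc hv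
    · obtain ⟨a, u, V', m1, m2, m3, m4, m5⟩ := ih rV.1 hc
      obtain ⟨y, V5, rfl, _⟩ := wd_end m4
      exact ⟨a, u, m :: y :: V5, m1, m2, m3, Wd.cons m _ hm m4, eqw_cons m m5⟩

end VTB
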