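import Pool.Agent.Lib.MP_32d917_al_vt.W20
import Pool.Agent.Lib.MP_32d917_al_vt.W23

/-!
# W24: medians (60 min)

`d i f g := (Tr i).dist (cls i f) (cls i g)`, a metric (trees are connected); `x = mk f`, `y = mk g`, `z = mk h` (frames). Let `I f g` be the set of frames `m` with `d i f m + d i m g = d i f g` for all `i`. Choose `m` in `I f g ∩ I f h` (`f` is one) and a reduced word `U` from `g` to `m` (`hU.ex g m`) with `U.length` minimal (among all such `m`, `U`); `V` the reduced word from `m` to `h`. If `catw U V` is reduced: it is the reduced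
word from `g` to `h` (`catw_wd`, `ev_catw`), so by `trw_dist`, `labs_catw` and `lam_ev` (`lam g (bk U k) = lam m k`): `d i g h = d i g m + d i m h` for all `i`, and `Quot.mk _ m` is the median (`cow_mk`, `Bt`). Otherwise `cat_red`: `a`, `u`, `V'`, with `U ~ i a :: u`: `m' = act m a = ev g u` (`ev_eqw`, `act_i`, `ii`), `u` is reduced (`ew_red`) and shorter than `U`.
With `δ i = 1` if `lam m (ty a) = i` and `0` otherwise: `d i m m' = δ i` (`trw_adj`, `cls_step`). `d i g m = d i g m' + δ i` (`trw_dist` for `i a :: u` and `u`, `labs_cons`, `lam_i`). `V ~ catw [a, e] V'`: `ev m' V' = h` (`ev_catw`, `ev [a, e] = act m a`), `d i m' h ≤ count V'` (`dist_word`) and `d i m h = count V = δ i + count V'` (`eqw_labs`, `labs_catw`,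
the labels of `V'` read at `m'` are those read from `m`: `bk [a, e]`, `lam_ev`), so `d i m' h + δ i ≤ d i m h`, equality by the triangle inequality. So `m'` is in `I f g`: `d i f m' + d i m' g ≤ d i f m + δ i + d i m g - δ i = d i f g`; in the same way in `I f h`: contradiction to the minimality of `U`.
-/

set_option autoImplicit false

namespace VTB

open LatIso LatN LatF

variable {ι P A : Type} {Γ : SimpleGraph ι} {N : P → ι → Prop} {X : FD ι P A} {Z : Type}
  {Y : XSet X Z} {lam : Z → ι → ι}

private theorem W24_lam (hX : VV0 Γ N X) (hL : LamX Γ Y lam) {f : Z} {w : List A} {q : P}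
    (hw : Wd X (Y.p f) w q) (s : Multiset ι) :
    (s.map (bk X w)).map (lam f) = s.map (lam (Y.ev f w)) := by
  rw [Multiset.map_map]
  exact Multiset.map_congr rfl fun k _ => (lam_ev hX hL hw k).symm

private theorem W24_e (hX : VV0 Γ N X) (p : P) : Wd X p [X.e p] p := by
  have h1 := Wd.one (X := X) (p := p) (X.e p) (hX.oe p) (hX.me p)
  rwa [hX.te] at h1

private theorem W24_main [DecidableEq ι] (hX : VV0 Γ N X) (hU : Uniq Y) (hL : LamX Γ Y lam)
    (f g h : Z) (n : ℕ) : ∀ (m : Z) (U : List A),
    (∀ i, (Tr Y lam i).dist (cls Y lam i f) (cls Y lam i m) +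
        (Tr Y lam i).dist (cls Y lam i m) (cls Y lam i g) =
        (Tr Y lam i).dist (cls Y lam i f) (cls Y lam i g) ∧
      (Tr Y lam i).dist (cls Y lam i f) (cls Y lam i m) +
        (Tr Y lam i).dist (cls Y lam i m) (cls Y lam i h) =
        (Tr Y lam i).dist (cls Y lam i f) (cls Y lam i h)) →
    Wd X (Y.p g) U (Y.p m) → Redw X U → Y.ev g U = m → U.length = n →
    ∃ m : Z, ∀ i, Bt (Tr Y lam i) (cls Y lam i f) (cls Y lam i m) (cls Y lam i g) ∧
      Bt (Tr Y lam i) (cls Y lam i g) (cls Y lam i m) (cls Y lam i h) ∧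
      Bt (Tr Y lam i) (cls Y lam i f) (cls Y lam i m) (cls Y lam i h) := by
  induction n using Nat.strong_induction_on with
  | _ n ih =>
  intro m U hI hUw rU hUe hUl
  have hT := fun i => tr_tree hX hU hL i f
  obtain ⟨V, hVw, rV, hVe⟩ := hU.ex m h
  by_cases hr : Redw X (catw X U V)
  · refine ⟨m, fun i => ⟨(hI i).1, ?_, (hI i).2⟩⟩
    have h1 := trw_dist hX hU hL i (catw_wd hX hUw hVw) hr
    have h2 := trw_dist hX hU hL i hUw rU
    have h3 := trw_dist hX hU hL i hVw rV
    rw [ev_catw hX Y hUw hVw, hUe, hVe, labs_catw hX hUw hVw, Multiset.map_add,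
      Multiset.count_add, W24_lam hX hL hUw, hUe] at h1
    rw [hUe] at h2
    rw [hVe] at h3
    unfold Bt
    rw [h1, h2, h3]
  · obtain ⟨a, u, V', ha, ho, hEU, hVw', hEV⟩ := cat_red hX hUw hVw rU rV hr
    obtain ⟨huw, ru, riu⟩ := ew_red hX hUw ha rU hEU
    have hpu : Y.p (Y.ev g u) = X.t a := ev_p Y huw
    -- the new point
    have hact : Y.act m a = Y.ev g u := by
      have h1 : Y.act (Y.ev g u) (X.i a) = m := by
        rw [← hUe, ev_eqw hX Y hUw hEU]
        rfl
      have h2 := Y.act_i (Y.ev g u) (X.i a) (by rw [hX.oi, hpu])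
      rw [h1, hX.ii] at h2
      exact h2
    have hlen := eqw_len hEU
    rw [List.length_cons] at hlen
    have hpm : Y.p (Y.act m a) = X.t a := Y.act_p m a ho
    have hea := W24_e hX (Y.p m)
    have haw : Wd X (Y.p m) [a, X.e (Y.p m)] (X.t a) := by
      refine Wd.cons a _ ha ?_
      rw [ho]
      exact hea
    have hev1 : Y.ev m [X.e (Y.p m)] = m := Y.act_e m
    have hev : Y.ev m [a, X.e (Y.p m)] = Y.act m a := by
      show Y.act (Y.ev m [X.e (Y.p m)]) a = Y.act m a
      rw [hev1]
    have hVe' : Y.ev (Y.act m a) V' = h := by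
      rw [← hVe, ev_eqw hX Y hVw hEV, ev_catw hX Y haw hVw', hev]
    -- (1)
    have c1 : ∀ i, (Tr Y lam i).dist (cls Y lam i m) (cls Y lam i (Y.act m a)) =
        if i = lam m (X.ty a) then 1 else 0 := by
      intro i
      by_cases hi : i = lam m (X.ty a)
      · rw [if_pos hi, hi]
        exact SimpleGraph.dist_eq_one_iff_adj.2 (trw_adj hX hU hL ho ha)
      · rw [if_neg hi, cls_step ho fun _ => Ne.symm hi, SimpleGraph.dist_self]
    -- (2)
    have c2 : ∀ i, (Tr Y lam i).dist (cls Y lam i g) (cls Y lam i m) =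
        (Tr Y lam i).dist (cls Y lam i g) (cls Y lam i (Y.act m a)) +
          if i = lam m (X.ty a) then 1 else 0 := by
      intro i
      have h1 := trw_dist hX hU hL i (eqw_wd hX hUw hEU) riu
      have h2 := trw_dist hX hU hL i huw ru
      rw [← ev_eqw hX Y hUw hEU, hUe, labs_cons (X.i a) huw, Multiset.map_cons,
        Multiset.count_cons, ← lam_ev hX hL huw, ← hact, lam_i hX hL ho ha] at h1
      rw [← hact] at h2
      rw [h1, h2]
    -- (3)
    have c3 : ∀ i, (Tr Y lam i).dist (cls Y lam i (Y.act m a)) (cls Y lam i h) +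
        (if i = lam m (X.ty a) then 1 else 0) ≤
          (Tr Y lam i).dist (cls Y lam i m) (cls Y lam i h) := by
      intro i
      have h1 := trw_dist hX hU hL i hVw rV
      have h2 := dist_word hX hU hL i (f := Y.act m a) (w := V') (by rw [hpm]; exact hVw')
      have h3 : labs X [a, X.e (Y.p m)] = bk X [X.e (Y.p m)] (X.ty a) ::ₘ 0 := rfl
      rw [eqw_labs hX hVw hEV, labs_catw hX haw hVw', Multiset.map_add, Multiset.count_add,
        W24_lam hX hL haw, hev, h3, Multiset.map_cons, Multiset.map_zero, Multiset.count_cons,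
        Multiset.count_zero, ← lam_ev hX hL hea, hev1, hVe] at h1
      rw [hVe'] at h2
      rw [h1]
      omega
    refine ih u.length (by omega) (Y.act m a) u (fun i => ?_) (by rw [hpm]; exact huw) ru
      hact.symm rfl
    have t1 := (hT i).connected.dist_triangle (u := cls Y lam i f) (v := cls Y lam i m)
      (w := cls Y lam i (Y.act m a))
    have t2 := (hT i).connected.dist_triangle (u := cls Y lam i f) (v := cls Y lam i (Y.act m a))
      (w := cls Y lam i g)
    have t3 := (hT i).connected.dist_triangle (u := cls Y lam i f) (v := cls Y lam i (Y.act m a))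
      (w := cls Y lam i h)
    have d1 : (Tr Y lam i).dist (cls Y lam i g) (cls Y lam i m) =
      (Tr Y lam i).dist (cls Y lam i m) (cls Y lam i g) := SimpleGraph.dist_comm
    have d2 : (Tr Y lam i).dist (cls Y lam i g) (cls Y lam i (Y.act m a)) =
      (Tr Y lam i).dist (cls Y lam i (Y.act m a)) (cls Y lam i g) := SimpleGraph.dist_comm
    have e1 := c1 i
    have e2 := c2 i
    have e3 := c3 i
    obtain ⟨e4, e5⟩ := hI i
    constructor <;> omega

theorem med_ex (hX : VV0 Γ N X) (hU : Uniq Y) (hL : LamX Γ Y lam) (x y z : Ptw Y) :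
    ∃ m, Med (Tr Y lam) (cow Y lam) x y z m := by
  classical
  obtain ⟨f, rfl⟩ := Quot.exists_rep x
  obtain ⟨g, rfl⟩ := Quot.exists_rep y
  obtain ⟨h, rfl⟩ := Quot.exists_rep z
  obtain ⟨U, hUw, rU, hUe⟩ := hU.ex g f
  obtain ⟨m, hm⟩ := W24_main hX hU hL f g h U.length f U
    (fun i => by rw [SimpleGraph.dist_self, zero_add, zero_add]; exact ⟨rfl, rfl⟩)
    hUw rU hUe rfl
  refine ⟨Quot.mk _ m, fun i => ?_⟩
  rw [cow_mk, cow_mk, cow_mk, cow_mk]
  exact hm i

end VTB
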