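import Pool.Agent.Lib.MP_32d917_al_vt.W12
import Pool.Agent.Lib.MP_32d917_al_vt.W21
import Pool.Agent.Lib.MP_32d917_al_vt.W24

/-!
# W25: data are developable (20 min)

`uniq_ex hX p0` gives `F`, `Y`, `f0`; `lam_ex` gives `lam`; `Pt = Ptw Y`, `V = Vt Y lam`, `S = Tr Y lam`, `co = cow Y lam`, `N' = Nw Y lam N`; `pt_vf`, `ms_nomed` with `med_ex`. `VLab`: `hL.gam`, `nw_mk` (rewrite with the equations of `pt_vf`).
-/

set_option autoImplicit false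

namespace VTB

open LatIso LatN LatF

variable {ι P A : Type} {Γ : SimpleGraph ι} {N : P → ι → Prop} {X : FD ι P A}

theorem vlab_of (hX : VV0 Γ N X) {Z : Type} {Y : XSet X Z} {lam : Z → ι → ι} (hU : Uniq Y)
    (hL : LamX Γ Y lam) : ∃ L : VF X (Tr Y lam) (cow Y lam) Z, (∀ f, L.pt f = Quot.mk _ f) ∧
      (∀ f k, L.lam f k = lam f k) ∧ (∀ f, L.p f = Y.p f) ∧ (∀ f a, L.act f a = Y.act f a) ∧
      VLab L Γ N Γ (Nw Y lam N) := by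
  obtain ⟨L, h1, h2, h3, h4⟩ := pt_vf hX hU hL
  refine ⟨L, h1, h2, h3, h4, ⟨fun f i j => ?_, fun f i => ?_⟩⟩
  · rw [h2, h2]
    exact hL.gam f i j
  · rw [h1, h2, h3]
    exact nw_mk hX hU hL

theorem vf_exists (hX : VV0 Γ N X) (p0 : P) : ∃ (Pt : Type) (V : ι → Type)
    (S : ∀ i, SimpleGraph (V i)) (co : Pt → ∀ i, V i) (N' : Pt → ι → Prop) (F : Type)
    (L : VF X S co F), MS1 Γ S co N' ∧ VLab L Γ N Γ N' ∧ ∃ f, L.p f = p0 := by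
  obtain ⟨Z, Y, f0, hp, hU⟩ := uniq_ex hX p0
  obtain ⟨lam, hL, -⟩ := lam_ex hX hU f0
  obtain ⟨L, -, -, h3, -, hV⟩ := vlab_of hX hU hL
  exact ⟨Ptw Y, Vt Y lam, Tr Y lam, cow Y lam, Nw Y lam N, Z, L,
    ms_nomed hX hU hL ⟨f0⟩ (med_ex hX hU hL), hV, f0, (h3 f0).trans hp⟩

end VTB
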