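import Pool.Agent.Lib.MP_32d917_al_vt.WVAL

/-!
# WDefs: words of arrows, sets with an action of the arrows: definitions

Words are nonempty lists of arrows, LAST ARROW FIRST: the last entry of the list is a stationary
arrow `s` (the initial arrow), all other entries are moving arrows.
-/

set_option autoImplicit false

namespace VTB

open LatIso LatN LatF

section words

variable {ι P A : Type} (X : FD ι P A)

/-- `w` is a word from `p` to `q` -/
inductive Wd (p : P) : List A → P → Prop
  | one (s : A) : X.o s = p → ¬ X.mv s → Wd p [s] (X.t s)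
  | cons (m : A) (w : List A) : X.mv m → Wd p w (X.o m) → Wd p (m :: w) (X.t m)

/-- elementary steps -/
inductive Stw : List A → List A → Prop
  | T (m x s : A) (w : List A) : X.rc x s → X.t x = X.o m →
      Stw (m :: x :: w) (X.ml (X.i s) m :: X.mr x s :: w)
  | Q (a b c d : A) (w : List A) : X.sq a b c d → Stw (b :: a :: w) (d :: c :: w)
  | C (m : A) (w w' : List A) : Stw w w' → Stw (m :: w) (m :: w')

/-- equivalent words -/
def Eqw (w w' : List A) : Prop := Relation.ReflTransGen (Stw X) w w'

/-- the word `w` multiplied by the stationary arrow `s` at its end -/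
def rtw (s : A) : List A → List A
  | [] => []
  | m :: w => X.mr m s :: w

/-- the word `u` followed by the word `v` -/
def catw (u : List A) : List A → List A
  | [] => u
  | [s] => rtw X s u
  | m :: x :: v => m :: catw u (x :: v)

/-- transport of the labels at the end of the word to its origin -/
def bk : List A → ι → ι
  | [], k => k
  | m :: w, k => bk w (X.pm (X.i m) k)

/-- the labels of the letters, transported to the origin -/
def labs : List A → Multiset ι
  | [] => 0
  | [_] => 0
  | m :: x :: w => bk X (x :: w) (X.ty m) ::ₘ labs (x :: w)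

/-- reduced words: no letter `m` follows a word which is equivalent to a word ending with the
inverse of `m` -/
def Redw : List A → Prop
  | [] => True
  | m :: w => Redw w ∧ ∀ v, ¬ Eqw X w (X.i m :: v)

/-- `v` is the reduced word of the element reached by the arrow `a` from the element with the
reduced word `w` -/
inductive Nx (w : List A) (a : A) : List A → Prop
  | st : ¬ X.mv a → Nx w a (rtw X a w)
  | bw (v : List A) : X.mv a → Eqw X w (X.i a :: v) → Nx w a v
  | fw : X.mv a → (∀ v, ¬ Eqw X w (X.i a :: v)) → Nx w a (a :: w)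

/-- reduced words starting at `p` -/
def RW (p : P) : Type := {w : List A // (∃ q, Wd X p w q) ∧ Redw X w}

/-- the part of the word before the last letter of the label `i`; the labels at the origin of the
word are read with `l` -/
noncomputable def prw (l : ι → ι) (i : ι) : List A → List A
  | [] => []
  | [s] => [s]
  | m :: x :: w => by
      classical
      exact if l (bk X (x :: w) (X.ty m)) = i then x :: w else prw l i (x :: w)

end words

section sets

variable {ι P A : Type}

/-- sets with an action of the arrows of `X` -/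
structure XSet (X : FD ι P A) (Z : Type) where
  p : Z → P
  act : Z → A → Z
  act_p : ∀ z a, X.o a = p z → p (act z a) = X.t a
  act_e : ∀ z, act z (X.e (p z)) = z
  act_i : ∀ z a, X.o a = p z → act (act z a) (X.i a) = z
  act_ml : ∀ z s a, X.o s = p z → X.lc s a → act z (X.ml s a) = act (act z s) a
  act_sq : ∀ z a b c d, X.o a = p z → X.sq a b c d → act (act z a) b = act (act z c) d

/-- evaluation of words -/
def XSet.ev {X : FD ι P A} {Z : Type} (Y : XSet X Z) (z : Z) : List A → Z
  | [] => z
  | m :: w => Y.act (Y.ev z w) m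

/-- every two elements are connected by exactly one reduced word -/
structure Uniq {X : FD ι P A} {Z : Type} (Y : XSet X Z) : Prop where
  ex : ∀ f g, ∃ w, Wd X (Y.p f) w (Y.p g) ∧ Redw X w ∧ Y.ev f w = g
  un : ∀ f w w' q q', Wd X (Y.p f) w q → Wd X (Y.p f) w' q' → Redw X w → Redw X w' →
    Y.ev f w = Y.ev f w' → Eqw X w w'

/-- `lam f` translates the labels at `f` to global labels -/
structure LamX {X : FD ι P A} {Z : Type} (Γ : SimpleGraph ι) (Y : XSet X Z)
    (lam : Z → ι → ι) : Prop where
  bij : ∀ f, Function.Bijective (lam f)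
  act : ∀ f a, X.o a = Y.p f → ∀ k, lam (Y.act f a) (X.pm a k) = lam f k
  gam : ∀ f i j, Γ.Adj (lam f i) (lam f j) ↔ Γ.Adj i j

/-- one step which does not move in the direction `i` -/
def Rni {X : FD ι P A} {Z : Type} (Y : XSet X Z) (lam : Z → ι → ι) (i : ι) (f g : Z) : Prop :=
  ∃ a, X.o a = Y.p f ∧ Y.act f a = g ∧ (X.mv a → lam f (X.ty a) ≠ i)

/-- the vertices of the tree of the label `i` -/
abbrev Vt {X : FD ι P A} {Z : Type} (Y : XSet X Z) (lam : Z → ι → ι) (i : ι) : Type :=
  Quot (Rni Y lam i)

/-- the vertex of the tree of the label `i` at `f` -/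
abbrev cls {X : FD ι P A} {Z : Type} (Y : XSet X Z) (lam : Z → ι → ι) (i : ι) (f : Z) :
    Vt Y lam i := Quot.mk _ f

/-- the tree of the label `i` -/
def Tr {X : FD ι P A} {Z : Type} (Y : XSet X Z) (lam : Z → ι → ι) (i : ι) :
    SimpleGraph (Vt Y lam i) :=
  SimpleGraph.fromRel fun u v => ∃ f a, X.o a = Y.p f ∧ X.mv a ∧ lam f (X.ty a) = i ∧
    u = cls Y lam i f ∧ v = cls Y lam i (Y.act f a)

/-- same point -/
def Rpt {X : FD ι P A} {Z : Type} (Y : XSet X Z) (f g : Z) : Prop :=
  ∃ s, X.o s = Y.p f ∧ ¬ X.mv s ∧ Y.act f s = g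

/-- the points -/
abbrev Ptw {X : FD ι P A} {Z : Type} (Y : XSet X Z) : Type := Quot (Rpt Y)

/-- the coordinates of the points -/
noncomputable def cow {X : FD ι P A} {Z : Type} (Y : XSet X Z) (lam : Z → ι → ι) (x : Ptw Y)
    (i : ι) : Vt Y lam i := cls Y lam i (Quot.out x)

/-- the internal labels of the points -/
def Nw {X : FD ι P A} {Z : Type} (Y : XSet X Z) (lam : Z → ι → ι) (N : P → ι → Prop)
    (x : Ptw Y) (i : ι) : Prop :=
  ∃ f k, Quot.mk _ f = x ∧ lam f k = i ∧ N (Y.p f) k

/-- the automorphisms -/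
def AutX {X : FD ι P A} {Z : Type} (Y : XSet X Z) : Subgroup (Equiv.Perm Z) where
  carrier := {φ | (∀ f, Y.p (φ f) = Y.p f) ∧ ∀ f a, X.o a = Y.p f → Y.act (φ f) a = φ (Y.act f a)}
  one_mem' := ⟨fun _ => rfl, fun _ _ _ => rfl⟩
  mul_mem' := by
    rintro a b ⟨a1, a2⟩ ⟨b1, b2⟩
    refine ⟨fun f => (a1 _).trans (b1 f), fun f c h => ?_⟩
    show Y.act (a (b f)) c = a (b (Y.act f c))
    rw [a2 _ _ (h.trans (b1 f).symm), b2 _ _ h]
  inv_mem' := by
    rintro a ⟨a1, a2⟩
    have i1 : ∀ x, a (a⁻¹ x) = x := fun x => Equiv.apply_symm_apply _ _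
    have i2 : ∀ x, a⁻¹ (a x) = x := fun x => Equiv.symm_apply_apply _ _
    have hp : ∀ f, Y.p (a⁻¹ f) = Y.p f := fun f => by rw [← a1, i1]
    refine ⟨hp, fun f c h => ?_⟩
    have h1 := a2 (a⁻¹ f) c (h.trans (hp f).symm)
    rw [i1] at h1
    rw [h1, i2]

end sets

end VTB
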