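import Pool.Agent.Lib.MP_32d917_al_vt.VDefs

/-!
# WVAL: consequences of the axioms of data

All by rewriting with the fields of `Valid0` (`X.mr a s = X.i (X.ml (X.i s) (X.i a))` by definition; note that `lc`, `rc` say that the stationary arrow
is composable on the left / on the right).
vv_ei: `mli` at `e p` and `mle` at `i (e p)`. vv_mro, vv_mrt, vv_mrm: mlt, mlo, mlm for `ml (i s) (i a)`. vv_mry: `c = ml (i s) (i a)`: ty (i c) = pm c (ty c)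
= pm (i a) (pm (i s) (ty c)) = pm (i a) (ty (i a)) = pm (i a) (pm a (ty a)) = ty a. vv_mrp: with `k' = pm s (pm a k)`: pm c k' = k, so pm (i c) k = k'.
vv_mre: mle at i a. vv_mra: mrs gives i (ml s s') = ml (i s') (i s); then mla. vv_mri: vv_mra, mli, vv_mre. vv_mli: mla, mli (for i s), mle.
vv_iml, vv_imr: by definition with ii. vv_mrf: apply i and mlf. vv_eqv: units, inverses, products.
vv_sqi: sqr, sqs, sqr. vv_sqn: vv_sqi, sql, vv_sqi. vv_sqm': sqs, sqm, sqs. vv_squd: squ gives s with c = mr c s, so s = e by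
vv_mrf. vv_squb: sqs and vv_squd. vv_sqc: sqr for both, squ, apply i. vv_sqx: sqe for (i a, c), then sqr.
-/

set_option autoImplicit false

namespace VTB

open LatIso LatN LatF

section

variable {ι P A : Type} {Γ : SimpleGraph ι} {N : P → ι → Prop} {X : FD ι P A}

theorem vv_lc (h : VV0 Γ N X) {a s : A} (hs : X.rc a s) : X.lc (X.i s) (X.i a) :=
  ⟨fun hm => hs.1 ((h.mi s).1 hm), by rw [h.ti, h.oi, hs.2]⟩

theorem vv_rc (h : VV0 Γ N X) {a s : A} (hs : X.lc s a) : X.rc (X.i a) (X.i s) :=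
  ⟨fun hm => hs.1 ((h.mi s).1 hm), by rw [h.ti, h.oi, hs.2]⟩

theorem vv_ei (h : VV0 Γ N X) (p : P) : X.i (X.e p) = X.e p := by
  have h1 := h.mli (X.e p) (h.me p)
  have h2 := h.mle (X.i (X.e p))
  rw [h.oi, h.te] at h2
  rw [h.oe] at h1
  rw [← h2, h1]

theorem vv_mro (h : VV0 Γ N X) {a s : A} (hs : X.rc a s) : X.o (X.mr a s) = X.o a := by
  rw [FD.mr, h.oi, h.mlt _ _ (vv_lc h hs), h.ti]

theorem vv_mrt (h : VV0 Γ N X) {a s : A} (hs : X.rc a s) : X.t (X.mr a s) = X.t s := by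
  rw [FD.mr, h.ti, h.mlo _ _ (vv_lc h hs), h.oi]

theorem vv_mrm (h : VV0 Γ N X) {a s : A} (hs : X.rc a s) : X.mv (X.mr a s) ↔ X.mv a := by
  rw [FD.mr, h.mi, h.mlm _ _ (vv_lc h hs), h.mi]

theorem vv_mry (h : VV0 Γ N X) {a s : A} (hs : X.rc a s) (ha : X.mv a) :
    X.ty (X.mr a s) = X.ty a := by
  have hl := vv_lc h hs
  have hm : X.mv (X.ml (X.i s) (X.i a)) := (h.mlm _ _ hl).2 ((h.mi a).2 ha)
  rw [FD.mr, h.tyi _ hm, h.mlp _ _ _ hl, h.mly _ _ hl ((h.mi a).2 ha), h.tyi a ha, h.pi]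

theorem vv_mrp (h : VV0 Γ N X) {a s : A} (hs : X.rc a s) (k : ι) :
    X.pm (X.mr a s) k = X.pm s (X.pm a k) := by
  have hl := vv_lc h hs
  have h1 := h.pi (X.ml (X.i s) (X.i a)) (X.pm s (X.pm a k))
  rw [h.mlp _ _ _ hl, h.pi, h.pi] at h1
  rw [FD.mr, h1]

theorem vv_mre (h : VV0 Γ N X) (a : A) : X.mr a (X.e (X.t a)) = a := by
  rw [FD.mr, vv_ei h, ← h.oi, h.mle, h.ii]

theorem vv_mra (h : VV0 Γ N X) {a s s' : A} (hs : X.rc a s) (hs' : X.rc s s') :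
    X.mr (X.mr a s) s' = X.mr a (X.ml s s') := by
  have h1 : X.i (X.ml s s') = X.ml (X.i s') (X.i s) := by
    rw [← h.mrs s s' hs.1 hs', FD.mr, h.ii]
  have h2 : X.i (X.mr a s) = X.ml (X.i s) (X.i a) := by rw [FD.mr, h.ii]
  rw [FD.mr, h2, FD.mr, h1, h.mla _ _ _ (vv_lc h hs') (vv_lc h hs)]

theorem vv_mri (h : VV0 Γ N X) {a s : A} (hs : X.rc a s) : X.mr (X.mr a s) (X.i s) = a := by
  have h1 : X.rc s (X.i s) := ⟨fun hm => hs.1 ((h.mi s).1 hm), h.oi s⟩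
  rw [vv_mra h hs h1, h.mli s hs.1, hs.2, vv_mre h]

theorem vv_mli (h : VV0 Γ N X) {s a : A} (hs : X.lc s a) : X.ml (X.i s) (X.ml s a) = a := by
  have h1 : X.lc (X.i s) s := ⟨fun hm => hs.1 ((h.mi s).1 hm), h.ti s⟩
  have h2 := h.mli (X.i s) h1.1
  rw [h.ii, h.oi, hs.2] at h2
  rw [h.mla _ _ _ h1 hs, h2, h.mle]

theorem vv_iml (h : VV0 Γ N X) {s a : A} (hs : X.lc s a) :
    X.i (X.ml s a) = X.mr (X.i a) (X.i s) := by
  rw [FD.mr, h.ii, h.ii]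

theorem vv_imr (h : VV0 Γ N X) {s a : A} (hs : X.rc a s) :
    X.i (X.mr a s) = X.ml (X.i s) (X.i a) := by
  rw [FD.mr, h.ii]

theorem vv_mrf (h : VV0 Γ N X) {a s : A} (hs : X.rc a s) (he : X.mr a s = a) :
    s = X.e (X.t a) := by
  have h1 : X.ml (X.i s) (X.i a) = X.i a := by
    rw [← vv_imr h hs, he]
  have h2 := h.mlf _ _ (vv_lc h hs) h1
  rw [h.oi] at h2
  rw [← h.ii s, h2, vv_ei h]

theorem vv_eqv (h : VV0 Γ N X) : (∀ a, X.eqv a a) ∧ (∀ a b, X.eqv a b → X.eqv b a) ∧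
    ∀ a b c, X.eqv a b → X.eqv b c → X.eqv a c := by
  refine ⟨fun a => ⟨X.e (X.t a), ⟨h.me _, h.oe _⟩, (vv_mre h a).symm⟩, ?_, ?_⟩
  · rintro a b ⟨s, hs, rfl⟩
    refine ⟨X.i s, ⟨fun hm => hs.1 ((h.mi s).1 hm), ?_⟩, (vv_mri h hs).symm⟩
    rw [h.oi, vv_mrt h hs]
  · rintro a b c ⟨s, hs, rfl⟩ ⟨s', hs', rfl⟩
    have h1 : X.rc s s' := ⟨hs'.1, by rw [hs'.2, vv_mrt h hs]⟩
    have h2 : X.lc s s' := ⟨hs.1, h1.2.symm⟩
    refine ⟨X.ml s s', ⟨fun hm => hs'.1 ((h.mlm _ _ h2).1 hm), ?_⟩, vv_mra h hs h1⟩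
    rw [h.mlo _ _ h2, hs.2]

/-- the symmetries of a square -/
theorem vv_sqi (h : VV0 Γ N X) {a b c d : A} (hs : X.sq a b c d) :
    X.sq (X.i b) (X.i a) (X.i d) (X.i c) := by
  exact h.sqr _ _ _ _ (h.sqs _ _ _ _ (h.sqr _ _ _ _ hs))

theorem vv_sqn (h : VV0 Γ N X) {a b c d s : A} (hs : X.sq a b c d) (h1 : X.rc b s) :
    X.sq a (X.mr b s) c (X.mr d s) := by
  have h2 := vv_sqi h (h.sql _ _ _ _ _ (vv_sqi h hs) (vv_lc h h1))
  rw [h.ii, h.ii] at h2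
  exact h2

theorem vv_sqm' (h : VV0 Γ N X) {a b c d s : A} (hs : X.sq a b c d) (h1 : X.rc c s) :
    X.sq a b (X.mr c s) (X.ml (X.i s) d) := by
  exact h.sqs _ _ _ _ (h.sqm _ _ _ _ _ (h.sqs _ _ _ _ hs) h1)

/-- three sides determine the fourth -/
theorem vv_squd (h : VV0 Γ N X) {a b c d d' : A} (hs : X.sq a b c d) (hs' : X.sq a b c d') :
    d = d' := by
  obtain ⟨s, h1, h2, h3⟩ := h.squ _ _ _ _ _ _ hs hs'
  have h4 := vv_mrf h h1 h2.symm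
  rw [h3, h4, vv_ei h, (h.sqT _ _ _ _ hs).tcd, h.mle]

theorem vv_squb (h : VV0 Γ N X) {a b c d b' : A} (hs : X.sq a b c d) (hs' : X.sq a b' c d) :
    b = b' := by
  exact vv_squd h (h.sqs _ _ _ _ hs) (h.sqs _ _ _ _ hs')

/-- two squares with the same corner `a`, `c` -/
theorem vv_sqc (h : VV0 Γ N X) {a b c d b' d' : A} (hs : X.sq a b c d) (hs' : X.sq a b' c d') :
    ∃ s, X.rc b s ∧ b' = X.mr b s ∧ d' = X.mr d s := by
  obtain ⟨s, h1, h2, h3⟩ := h.squ _ _ _ _ _ _ (h.sqr _ _ _ _ hs) (h.sqr _ _ _ _ hs')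
  refine ⟨s, h1, h2, ?_⟩
  rw [FD.mr, ← h3, h.ii]

/-- existence of squares with a given corner -/
theorem vv_sqx (h : VV0 Γ N X) {a c : A} (ha : X.mv a) (hc : X.mv c) (ho : X.o a = X.o c)
    (ht : Γ.Adj (X.ty a) (X.ty c)) : ∃ b d, X.sq a b c d := by
  have h1 : Γ.Adj (X.ty c) (X.pm (X.i a) (X.ty (X.i a))) := by
    rw [h.tyi a ha, h.pi]
    exact ht.symm
  obtain ⟨b, d, hs⟩ := h.sqe (X.i a) c ((h.mi a).2 ha) hc (by rw [h.ti, ho]) h1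
  refine ⟨b, X.i d, ?_⟩
  have h2 := h.sqr _ _ _ _ hs
  rw [h.ii] at h2
  exact h2

/-- two squares with the same end -/
theorem vv_sqz (h : VV0 Γ N X) {a b c d a' c' : A} (hs : X.sq a b c d) (hs' : X.sq a' b c' d) :
    ∃ s, X.lc s a ∧ a' = X.ml s a ∧ c' = X.ml s c := by
  obtain ⟨s, h1, h2, h3⟩ := vv_sqc h (vv_sqi h hs) (vv_sqi h hs')
  have h4 := vv_lc h h1
  rw [h.ii] at h4
  refine ⟨X.i s, h4, ?_, ?_⟩
  · rw [← h.ii a', h2, vv_imr h h1, h.ii]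
  · have h5 : X.rc (X.i c) s :=
      ⟨h1.1, by rw [h1.2, h.ti, h.ti, (h.sqT _ _ _ _ hs).oac]⟩
    rw [← h.ii c', h3, vv_imr h h5, h.ii]

theorem vv_pmi (h : VV0 Γ N X) (a : A) (k : ι) : X.pm a (X.pm (X.i a) k) = k := by
  have h1 := h.pi (X.i a) k
  rwa [h.ii] at h1

theorem vv_pinj (h : VV0 Γ N X) (a : A) {k l : ι} (hk : X.pm a k = X.pm a l) : k = l := by
  rw [← h.pi a k, hk, h.pi]

/-- no square has equal second sides -/
theorem vv_nob (h : VV0 Γ N X) {a b c : A} (hs : X.sq a b c b) : False := by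
  have h1 := h.sqT _ _ _ _ (h.sqr _ _ _ _ hs)
  have h2 := h1.tyd
  rw [h.tyi b (h.sqT _ _ _ _ hs).mb] at h2
  exact h1.ne (vv_pinj h b h2).symm

/-- the type of the inverse of the first side is not the type of the second side -/
theorem vv_tyi (h : VV0 Γ N X) {a b c d : A} (hs : X.sq a b c d) : X.ty (X.i a) ≠ X.ty b := by
  have h1 := h.sqT _ _ _ _ hs
  rw [h.tyi a h1.ma, h1.tyb]
  exact fun he => h1.ne (vv_pinj h a he)

/-- the product of a stationary arrow and its inverse, acting on labels -/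
theorem vv_irc (h : VV0 Γ N X) {a s : A} (hs : X.rc a s) : X.rc (X.mr a s) (X.i s) :=
  ⟨fun hm => hs.1 ((h.mi s).1 hm), by rw [h.oi, vv_mrt h hs]⟩

theorem vv_ilc (h : VV0 Γ N X) {a s : A} (hs : X.lc s a) : X.lc (X.i s) (X.ml s a) :=
  ⟨fun hm => hs.1 ((h.mi s).1 hm), by rw [h.ti, h.mlo _ _ hs]⟩

/-- the three faces at one vertex of a cube determine the cube -/
theorem vv_cube (h : VV0 Γ N X) {a a1 c c1 b b3 a3 b2 c2 : A} (h1 : X.sq c a a1 c1)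
    (h2 : X.sq b3 a1 a3 b2) (h3 : X.sq b2 c1 c2 b) :
    ∃ c3 b4 a4, X.sq b3 c c3 b4 ∧ X.sq a3 c2 c3 a4 ∧ X.sq b4 a a4 b := by
  have s1 : X.sq (X.i a1) (X.i b3) (X.i b2) (X.i a3) := vv_sqi h h2
  have s2 : X.sq (X.i a1) c c1 (X.i a) := h.sqr _ _ _ _ (h.sqs _ _ _ _ h1)
  have s3 : X.sq (X.i b2) c2 c1 (X.i b) := h.sqr _ _ _ _ h3
  have t1 := h.sqT _ _ _ _ s1
  have t3 := h.sqT _ _ _ _ s3
  have hadj : Γ.Adj (X.ty (X.i a3)) (X.ty c2) := by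
    rw [t1.tyd, t3.tyb, h.pmg]
    exact h.sqg _ _ _ _ s2
  obtain ⟨c3, a4, s4⟩ := vv_sqx h t1.md t3.mb (by rw [← t1.tcd, t3.tab]) hadj
  obtain ⟨b4, s5, s6⟩ := h.cube _ _ _ _ _ _ _ _ _ _ _ s1 s2 s4 s3
  refine ⟨c3, X.i b4, X.i a4, ?_, ?_, ?_⟩
  · have := h.sqr _ _ _ _ s5
    rwa [h.ii] at this
  · have := h.sqr _ _ _ _ s4
    rwa [h.ii] at this
  · have := vv_sqi h s6
    rwa [h.ii, h.ii] at this

end

end VTB
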